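import Pool.Agent.H94.LP4.H18.Ex.Defs

/-! The parts of this file: H18.Cub.Defs, H18.Ex.Defs_1. -/

section

/-!
# Project CUB: Horace method for spaces of polynomials, along parallel and coordinate hyperplanes

`W` is a finite dimensional space of polynomials in the variables `ι`.  The hyperplanes are labelled
by `Λ`: the label `l` stands for `x_{co l} = va l`.
-/

namespace Pool.Agent.H18.Cub

open Finset Pool.Agent.H18.Ex

variable {ι Λ : Type}

/-- The hyperplanes `x_{co l} = va l`. -/
structure Lines (Λ ι : Type) : Type where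
  /-- the coordinate -/
  co : Λ → ι
  /-- its value -/
  va : Λ → ℂ

/-- The hyperplane `l` is different from all the others. -/
def Lines.Sep (g : Lines Λ ι) (l : Λ) : Prop := ∀ l', l' ≠ l → g.co l' ≠ g.co l ∨ g.va l' ≠ g.va l

section

variable [DecidableEq ι]

/-- The actual point of a condition. -/
def Lines.pt {R : Type} [CommRing R] [Algebra ℂ R] (g : Lines Λ ι) (k : Kind Λ) (q : ι → R) :
    ι → R :=
  match k with
  | .free _ => q
  | .forced l _ _ => Function.update q (g.co l) (algebraMap ℂ R (g.va l))

/-- Substitute `X_i = v`. -/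
noncomputable def sub1 (i : ι) (v : ℂ) : MvPolynomial ι ℂ →ₐ[ℂ] MvPolynomial ι ℂ :=
  MvPolynomial.aeval
    (Function.update (MvPolynomial.X : ι → MvPolynomial ι ℂ) i (MvPolynomial.C v))

/-- Restriction to the hyperplane `l` (substitute `x_{co l} = va l`). -/
noncomputable def lay (g : Lines Λ ι) (l : Λ) : MvPolynomial ι ℂ →ₐ[ℂ] MvPolynomial ι ℂ :=
  sub1 (g.co l) (g.va l)

/-- The traces of the elements of `W` on the hyperplane `l`. -/
noncomputable def trW (g : Lines Λ ι) (l : Λ) (W : Submodule ℂ (MvPolynomial ι ℂ)) :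
    Submodule ℂ (MvPolynomial ι ℂ) :=
  W.map (lay g l).toLinearMap

/-- `W'` contains the residual of `W` along the hyperplane `l`. -/
def ResW (g : Lines Λ ι) (l : Λ) (W W' : Submodule ℂ (MvPolynomial ι ℂ)) : Prop :=
  ∀ F ∈ W, lay g l F = 0 →
    ∃ F' ∈ W', F = (MvPolynomial.X (g.co l) - MvPolynomial.C (g.va l)) * F'

end

/-- `F(q + x)`. -/
noncomputable def trl {R : Type} [CommRing R] [Algebra ℂ R] (q : ι → R) :
    MvPolynomial ι ℂ →ₐ[ℂ] MvPolynomial ι R :=
  MvPolynomial.aeval fun i => MvPolynomial.X i + MvPolynomial.C (q i)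

section

variable [Fintype ι]

/-- The multi-indices of a condition. -/
def Lines.Idx (g : Lines Λ ι) (k : Kind Λ) (b : ι → ℕ) : Prop :=
  match k with
  | .free m => ∑ i, b i < m
  | .forced l c e => ∑ i, b i < c ∧ b (g.co l) + e ≤ c

/-- The coefficient function of a polynomial. -/
noncomputable def cf (F : MvPolynomial ι ℂ) (a : ι → ℕ) : ℂ :=
  F.coeff (Finsupp.equivFunOnFinite.symm a)

/-- The `b`-th Taylor (Hasse) coefficient of `F` at the point `q`. -/
noncomputable def tay {R : Type} [CommRing R] [Algebra ℂ R] (F : MvPolynomial ι ℂ) (q : ι → R)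
    (b : ι → ℕ) : R :=
  (trl q F).coeff (Finsupp.equivFunOnFinite.symm b)

variable [DecidableEq ι]

/-- `F` satisfies the condition `k` at the position `q`. -/
def SatP (g : Lines Λ ι) (F : MvPolynomial ι ℂ) (k : Kind Λ) (q : ι → ℂ) : Prop :=
  ∀ b, g.Idx k b → tay F (g.pt k q) b = 0

/-- At the positions `pos` only the zero element of `W` satisfies all conditions. -/
def InjP {κ : Type} (g : Lines Λ ι) (W : Submodule ℂ (MvPolynomial ι ℂ)) (k : κ → Kind Λ)
    (pos : κ → ι → ℂ) : Prop :=
  ∀ F ∈ W, (∀ i, SatP g F (k i) (pos i)) → F = 0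

/-- At some (equivalently, general) positions only the zero element of `W` satisfies all
conditions. -/
def GIP {κ : Type} (g : Lines Λ ι) (W : Submodule ℂ (MvPolynomial ι ℂ)) (k : κ → Kind Λ) : Prop :=
  ∃ pos : κ → ι → ℂ, InjP g W k pos

/-- The same for a multiset of conditions. -/
def GMP (g : Lines Λ ι) (W : Submodule ℂ (MvPolynomial ι ℂ)) (S : Multiset (Kind Λ)) : Prop :=
  ∃ (n : ℕ) (k : Fin n → Kind Λ), (univ : Finset (Fin n)).val.map k = S ∧ GIP g W k

end

end Pool.Agent.H18.Cub

end

section

/-!
# Horace-type induction for forms with prescribed exponents: definitions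

`ι` is the finite set of (homogeneous) variables.  A form is given by its coefficient function
`f : (ι → ℕ) → R`, of which only the values on a finite set `A` of exponents matter.
-/

namespace Pool.Agent.H18.Ex

open Finset

/-! ### Geometry -/

section

variable {ι : Type} [Fintype ι] [DecidableEq ι]

end

section

variable {ι : Type} [Fintype ι] [DecidableEq ι]

/-- The same for a multiset of conditions. -/
def GM (A : Finset (ι → ℕ)) (S : Multiset (Kind ι)) : Prop :=
  ∃ (n : ℕ) (k : Fin n → Kind ι), (univ : Finset (Fin n)).val.map k = S ∧ GI A k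

/-- `A` (of dimension `n`) is exact for multiplicities up to `M`: any points of multiplicity at
most `M` with total length at least `|A|` kill all forms with exponents in `A`. -/
def Exa (n M : ℕ) (A : Finset (ι → ℕ)) : Prop :=
  ∀ G : Multiset ℕ, (∀ m ∈ G, m ≤ M) → A.card ≤ (G.map (ell n)).sum → GM A (G.map Kind.free)

/-- Passing to the residual along `x_l = 0` when no new point is put on the hyperplane. -/
def Kind.dn (l : ι) (k : Kind ι) : Kind ι :=
  match k with
  | .free m => .free m
  | .forced l' c e => if l' = l then .forced l' (c - 1) e else .forced l' c e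

end

/-- The role of a condition in a Horace step along `x_l = 0`. -/
inductive Role (ι : Type) : Type where
  | stay (k : Kind ι) : Role ι
  | here (c e : ℕ) : Role ι
  | ord (m : ℕ) : Role ι
  | dif : Role ι

section

variable {ι : Type}

/-- The condition before the step; `μ` is the common multiplicity of the differential points. -/
def Role.before (l : ι) (μ : ℕ) (r : Role ι) : Kind ι :=
  match r with
  | .stay k => k
  | .here c e => .forced l c e
  | .ord m => .free m
  | .dif => .free μ

/-- The multiplicity of the trace on the hyperplane. -/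
def Role.layer (r : Role ι) : ℕ :=
  match r with
  | .stay _ => 0
  | .here c e => if e ≤ c then c else 0
  | .ord m => m
  | .dif => 1

/-- The residual condition. -/
def Role.after (l : ι) (μ : ℕ) (r : Role ι) : Kind ι :=
  match r with
  | .stay k => k
  | .here c e => .forced l (c - 1) e
  | .ord m => .forced l (m - 1) 1
  | .dif => .forced l μ 2

end

/-! ### Configurations -/

/-- `N` is the multiset of the multiplicities (at least two) of the free points, `s` is the number
of the free simple points, `Φ l` is the multiset of the pairs `(c, e)` of the forced conditions on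
`x_l = 0`. -/
structure Cfg (ι : Type) : Type where
  /-- multiplicities of the free points of multiplicity at least two -/
  N : Multiset ℕ
  /-- number of the free simple points -/
  s : ℕ
  /-- forced conditions -/
  Φ : ι → Multiset (ℕ × ℕ)

/-- One step down of the forced conditions. -/
def shf (S : Multiset (ℕ × ℕ)) : Multiset (ℕ × ℕ) :=
  (S.map fun x => (x.1 - 1, x.2)).filter fun x => x.2 ≤ x.1

/-- `M * binom(M + n - 1, n)`. -/
def g0 (n M : ℕ) : ℕ := M * ell n M

section

variable {ι : Type}

/-- Validity of a configuration. -/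
structure Cfg.OK (M : ℕ) (c : Cfg ι) : Prop where
  hN : ∀ m ∈ c.N, 2 ≤ m ∧ m ≤ M
  hΦ : ∀ l, ∀ x ∈ c.Φ l, 1 ≤ x.2 ∧ x.2 ≤ 2 ∧ x.2 ≤ x.1 ∧ x.1 ≤ M

/-- Total length of the traces of the forced conditions on `x_l = 0` (region of dimension
`n + 1`, hyperplanes of dimension `n`). -/
def Cfg.tr (n : ℕ) (c : Cfg ι) (l : ι) : ℕ := ((c.Φ l).map fun x => ell n x.1).sum

/-- Total length of the forced conditions on `x_l = 0`. -/
def Cfg.fl (n : ℕ) (c : Cfg ι) (l : ι) : ℕ :=
  ((c.Φ l).map fun x => ell (n + 1) x.1 + 1 - x.2).sum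

/-- Total length of the free points. -/
def Cfg.nsz (n : ℕ) (c : Cfg ι) : ℕ := (c.N.map (ell (n + 1))).sum + c.s

/-- Total length. -/
def Cfg.sz [Fintype ι] (n : ℕ) (c : Cfg ι) : ℕ := c.nsz n + ∑ l, c.fl n l

/-- The conditions of a configuration. -/
def Cfg.kinds [Fintype ι] (c : Cfg ι) : Multiset (Kind ι) :=
  c.N.map Kind.free + Multiset.replicate c.s (Kind.free 1) +
    ∑ l, (c.Φ l).map fun x => Kind.forced l x.1 x.2

end

/-! ### Regions -/

section

variable {ι : Type} [Fintype ι] [DecidableEq ι]

/-- The region `Rg σ w` has dimension `n` (that is, `n + 1` active coordinates) and all its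
widths are at least `D`. -/
def Fat (n D σ : ℕ) (w : ι → ℕ) : Prop :=
  (univ.filter fun i => 0 < w i).card = n + 1 ∧ D ≤ σ ∧ (∀ i, 0 < w i → D ≤ w i) ∧
    σ + D ≤ ∑ i, w i

/-- Normalised regions of dimension `n`. -/
structure Nrm (n D : ℕ) (o : ι) (σ : ℕ) (w : ι → ℕ) : Prop where
  hcard : (univ.filter fun i => 0 < w i).card = n + 1
  ho : 0 < w o
  hwo : ∀ i, w i ≤ w o
  hwσ : ∀ i, w i ≤ σ
  hσ : 2 * σ ≤ ∑ i, w i
  hD : ∀ i, 0 < w i → D ≤ w i

/-- The new bound for the traces of the forced conditions after a step with layer of size `f`. -/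
def nphi (n M f : ℕ) : ℕ := (M - 1) * f / M + ell n M ^ 2

/-- A list of directions along which the region can be peeled (region of dimension `n + 1`,
layers of dimension `n`); `X` is the property required of the layers, `φ` bounds the traces of
the forced conditions. -/
def Good (n M : ℕ) (X : ℕ → (ι → ℕ) → Prop) : List ι → ℕ → (ι → ℕ) → (ι → ℕ) → Prop
  | [], _, _, _ => True
  | l :: L, σ, w, φ =>
    1 ≤ σ ∧ 1 ≤ w l ∧ X σ (Function.update w l 0) ∧
    φ l + g0 n M * ell n M ≤ fc σ w l ∧
    M * ∑ i, φ i + ell (n + 1) M * (fc σ w l + g0 n M) + fc σ w l ≤ (Rg σ w).card ∧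
    Good n M X L (σ - 1) (Function.update w l (w l - 1))
      (Function.update φ l (nphi n M (fc σ w l)))

/-- The bounds at the end of a list of directions. -/
def eph (n M : ℕ) : List ι → ℕ → (ι → ℕ) → (ι → ℕ) → (ι → ℕ)
  | [], _, _, φ => φ
  | l :: L, σ, w, φ => eph n M L (σ - 1) (Function.update w l (w l - 1))
      (Function.update φ l (nphi n M (fc σ w l)))

/-- The widths at the end of a list of directions. -/
def ew (L : List ι) (w : ι → ℕ) : ι → ℕ := fun i => w i - L.count i

end

end Pool.Agent.H18.Ex

end
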