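import Pool.Agent.H94.LP4.H18.FatDefs
import Pool.Agent.H94.LP4.M03
import Pool.Agent.H94.LP4.M04

/-! The parts of this file: H18.Cub.Inst, H18.Ex.Fin, H18.Ex.Run, H18.Ex.Sched, H18.Pr.Defs, H22.LU.Mult. -/

section

/-!
# Module Inst: the Horace system of the curve `y = x^(t+1)`

Directions: `none` is the curve, `some l` (`l : Fin t`) is the line through the big point `inl l`
and the point at infinity of the curve.  There are `t + s` big points.  The state `a` stands for
degree `dd a` and multiplicities `mu n a`.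
-/

namespace Pool.Agent.H18.Cub

open Finset

/-- The degree of a state (the degree of the curve is `t + 1`). -/
def dd {t : ℕ} (a : Option (Fin t) → ℕ) : ℕ := (t + 1) * a none + ∑ l, a (some l)

/-- The size of a big point before subtracting `n`. -/
def uu {t s : ℕ} (a : Option (Fin t) → ℕ) : Fin t ⊕ Fin s → ℕ
  | .inl l => a none + a (some l)
  | .inr _ => a none

/-- The multiplicities of a state. -/
def mu {t s : ℕ} (n : Fin t ⊕ Fin s → ℕ) (a : Option (Fin t) → ℕ) (b : Fin t ⊕ Fin s) : ℕ :=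
  uu a b - n b

/-- The first coordinates of the big points. -/
def xx {t s : ℕ} : Fin t ⊕ Fin s → ℕ
  | .inl l => l.val + 1
  | .inr j => t + j.val + 1

theorem xx_injective {t s : ℕ} : Function.Injective (xx : Fin t ⊕ Fin s → ℕ) := by
  rintro (i | i) (j | j) h
  · simp only [xx] at h
    congr 1
    ext
    omega
  · simp only [xx] at h
    have := i.2
    omega
  · simp only [xx] at h
    have := j.2
    omega
  · simp only [xx] at h
    congr 1
    ext
    omega

theorem xx_pos {t s : ℕ} (b : Fin t ⊕ Fin s) : 0 < xx b := by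
  rcases b with i | i <;> simp [xx]

theorem inst_le_dd_none {t : ℕ} (a : Option (Fin t) → ℕ) (h : 1 ≤ a none) : t + 1 ≤ dd a := by
  unfold dd
  have : (t + 1) * 1 ≤ (t + 1) * a none := Nat.mul_le_mul_left _ h
  omega

theorem inst_le_dd_some {t : ℕ} (a : Option (Fin t) → ℕ) (l : Fin t) (h : 1 ≤ a (some l)) :
    1 ≤ dd a := by
  unfold dd
  have : a (some l) ≤ ∑ l, a (some l) :=
    single_le_sum (f := fun l => a (some l)) (fun _ _ => Nat.zero_le _) (mem_univ l)
  omega

end Pool.Agent.H18.Cub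

end

section

/-!
# Module Fin: the two endings
-/

namespace Pool.Agent.H18.Ex

open Finset

variable {ι : Type} [Fintype ι] [DecidableEq ι]

/-- The cleaning list: `M + 1` peels in each direction. -/
def clean (M : ℕ) (dirs : List ι) : List ι := dirs.flatMap fun l => List.replicate (M + 1) l

private theorem fin_shf_aux (j : ℕ) (S : Multiset (ℕ × ℕ))
    (hS : ∀ x ∈ S, 1 ≤ x.2 ∧ x.2 ≤ x.1 ∧ x.1 ≤ j) : shf^[j] S = 0 := by
  induction j generalizing S with
  | zero =>
    apply Multiset.eq_zero_of_forall_notMem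
    intro x hx
    have := hS x hx
    omega
  | succ j ih =>
    rw [Function.iterate_succ_apply]
    apply ih
    intro x hx
    unfold shf at hx
    rw [Multiset.mem_filter, Multiset.mem_map] at hx
    obtain ⟨⟨y, hy, rfl⟩, h⟩ := hx
    have h1 := hS y hy
    refine ⟨h1.1, h, ?_⟩
    change y.1 - 1 ≤ j
    omega

/-- After `M` shifts all forced conditions are gone. -/
theorem shf_iterate_eq_zero {M j : ℕ} (hj : M ≤ j) (S : Multiset (ℕ × ℕ))
    (hS : ∀ x ∈ S, 1 ≤ x.2 ∧ x.2 ≤ x.1 ∧ x.1 ≤ M) : shf^[j] S = 0 :=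
  fin_shf_aux j S fun x hx => ⟨(hS x hx).1, (hS x hx).2.1, le_trans (hS x hx).2.2 hj⟩

omit [Fintype ι] in
private theorem fin_count_clean (M : ℕ) (dirs : List ι) (l : ι) (hl : l ∈ dirs) :
    M + 1 ≤ (clean M dirs).count l := by
  unfold clean
  induction dirs with
  | nil => exact absurd hl List.not_mem_nil
  | cons d ds ih =>
    rw [List.flatMap_cons, List.count_append]
    by_cases h : l = d
    · subst h
      rw [List.count_replicate_self]
      exact Nat.le_add_right _ _
    · have h1 : l ∈ ds := by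
        rcases List.mem_cons.1 hl with h2 | h2
        · exact absurd h2 h
        · exact h2
      exact le_trans (ih h1) (Nat.le_add_left _ _)

omit [DecidableEq ι] in
private theorem fin_kinds_simple {c : Cfg ι} (hN : c.N = 0) (hΦ : ∀ l, c.Φ l = 0) :
    c.kinds = (Multiset.replicate c.s 1).map Kind.free + 0 := by
  have h1 : c.kinds = c.N.map Kind.free + Multiset.replicate c.s (Kind.free 1) +
      ∑ l, (c.Φ l).map fun x => Kind.forced l x.1 x.2 := rfl
  rw [h1, hN, Finset.sum_eq_zero (fun l _ => by rw [hΦ l, Multiset.map_zero]),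
    Multiset.map_zero, zero_add, Multiset.map_replicate]

end Pool.Agent.H18.Ex

end

section

/-!
# Module Run: running along a good list of directions
-/

namespace Pool.Agent.H18.Ex

open Finset

variable {ι : Type} [Fintype ι] [DecidableEq ι]

/-- The layer of a region. -/
theorem Rg_layer (σ : ℕ) (w : ι → ℕ) (l : ι) :
    (Rg σ w).filter (fun a => a l = 0) = Rg σ (Function.update w l 0) := by
  ext a
  rw [mem_filter, mem_Rg, mem_Rg]
  constructor
  · rintro ⟨⟨h1, h2⟩, h3⟩
    refine ⟨fun i => ?_, h2⟩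
    by_cases hi : i = l
    · subst hi
      rw [Function.update_self, h3]
    · rw [Function.update_of_ne hi]
      exact h1 i
  · rintro ⟨h1, h2⟩
    have h3 : a l = 0 := by
      have := h1 l
      rw [Function.update_self] at this
      omega
    refine ⟨⟨fun i => ?_, h2⟩, h3⟩
    by_cases hi : i = l
    · subst hi
      rw [h3]
      exact Nat.zero_le _
    · have := h1 i
      rwa [Function.update_of_ne hi] at this

private theorem run_sum_update (a : ι → ℕ) (l : ι) :
    ∑ i, Function.update a l (a l + 1) i = ∑ i, a i + 1 := by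
  rw [Finset.sum_update_of_mem (Finset.mem_univ l), Finset.sdiff_singleton_eq_erase,
    ← Finset.add_sum_erase univ a (Finset.mem_univ l)]
  ring

/-- The residual of a region. -/
theorem Rg_resid (σ : ℕ) (w : ι → ℕ) (l : ι) (hσ : 1 ≤ σ) (hw : 1 ≤ w l) (a : ι → ℕ) :
    a ∈ Rg (σ - 1) (Function.update w l (w l - 1)) ↔ Function.update a l (a l + 1) ∈ Rg σ w := by
  rw [mem_Rg, mem_Rg, run_sum_update]
  constructor
  · rintro ⟨h1, h2⟩
    refine ⟨fun i => ?_, by omega⟩
    have h3 := h1 i
    by_cases hi : i = l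
    · subst hi
      rw [Function.update_self] at h3 ⊢
      omega
    · rw [Function.update_of_ne hi] at h3 ⊢
      exact h3
  · rintro ⟨h1, h2⟩
    refine ⟨fun i => ?_, by omega⟩
    have h3 := h1 i
    by_cases hi : i = l
    · subst hi
      rw [Function.update_self] at h3 ⊢
      omega
    · rw [Function.update_of_ne hi] at h3 ⊢
      exact h3

/-- `∑ fl ≤ M * ∑ tr` for a valid configuration (`ell_le_mul`). -/
theorem Cfg.fl_le (n M : ℕ) (c : Cfg ι) (hc : c.OK M) (l : ι) : c.fl n l ≤ M * c.tr n l := by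
  unfold Cfg.fl Cfg.tr
  rw [← Multiset.sum_map_mul_left]
  apply Multiset.sum_map_le_sum_map
  intro x hx
  obtain ⟨h1, _, _, h4⟩ := hc.hΦ l x hx
  have h5 := ell_le_mul n x.1
  have h6 : x.1 * ell n x.1 ≤ M * ell n x.1 := Nat.mul_le_mul_right _ h4
  omega

omit [Fintype ι] in
private theorem ew_nil (w : ι → ℕ) : ew [] w = w := by
  funext i
  simp [ew]

omit [Fintype ι] in
private theorem ew_cons (l : ι) (L : List ι) (w : ι → ℕ) :
    ew (l :: L) w = ew L (Function.update w l (w l - 1)) := by
  funext i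
  unfold ew
  by_cases hi : i = l
  · subst hi
    rw [List.count_cons_self, Function.update_self]
    omega
  · rw [List.count_cons_of_ne (fun h => hi h.symm), Function.update_of_ne hi]

omit [Fintype ι] [DecidableEq ι] in
private theorem sub_length_cons (σ : ℕ) (l : ι) (L : List ι) :
    σ - (l :: L).length = σ - 1 - L.length := by
  rw [List.length_cons]
  omega

/-- `Good` for an appended list. -/
theorem Good.append {n M : ℕ} {X : ℕ → (ι → ℕ) → Prop} (L L' : List ι) (σ : ℕ) (w φ : ι → ℕ) :
    Good n M X (L ++ L') σ w φ ↔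
      Good n M X L σ w φ ∧ Good n M X L' (σ - L.length) (ew L w) (eph n M L σ w φ) := by
  induction L generalizing σ w φ with
  | nil =>
    rw [ew_nil]
    change Good n M X L' σ w φ ↔ True ∧ Good n M X L' (σ - 0) w φ
    rw [Nat.sub_zero]
    exact ⟨fun h => ⟨trivial, h⟩, fun h => h.2⟩
  | cons l L ih =>
    rw [ew_cons, sub_length_cons]
    change (1 ≤ σ ∧ 1 ≤ w l ∧ X σ (Function.update w l 0) ∧ _ ∧ _ ∧
      Good n M X (L ++ L') _ _ _) ↔ (1 ≤ σ ∧ 1 ≤ w l ∧ X σ (Function.update w l 0) ∧ _ ∧ _ ∧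
      Good n M X L _ _ _) ∧ _
    rw [ih]
    constructor
    · rintro ⟨h1, h2, h3, h4, h5, h6, h7⟩
      exact ⟨⟨h1, h2, h3, h4, h5, h6⟩, h7⟩
    · rintro ⟨⟨h1, h2, h3, h4, h5, h6⟩, h7⟩
      exact ⟨h1, h2, h3, h4, h5, h6, h7⟩

theorem ew_append (L L' : List ι) (w : ι → ℕ) : ew (L ++ L') w = ew L' (ew L w) := by
  funext i
  unfold ew
  rw [List.count_append, Nat.sub_sub]

theorem eph_append (n M : ℕ) (L L' : List ι) (σ : ℕ) (w φ : ι → ℕ) :
    eph n M (L ++ L') σ w φ =
      eph n M L' (σ - L.length) (ew L w) (eph n M L σ w φ) := by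
  induction L generalizing σ w φ with
  | nil =>
    rw [ew_nil]
    rfl
  | cons l L ih =>
    rw [ew_cons, sub_length_cons]
    exact ih _ _ _

private theorem shf_mono {S T : Multiset (ℕ × ℕ)} (h : S ≤ T) : shf S ≤ shf T :=
  Multiset.filter_le_filter _ (Multiset.map_le_map h)

private theorem shf_iterate_mono (k : ℕ) {S T : Multiset (ℕ × ℕ)} (h : S ≤ T) :
    shf^[k] S ≤ shf^[k] T := by
  induction k generalizing S T with
  | zero => exact h
  | succ k ih =>
    rw [Function.iterate_succ_apply, Function.iterate_succ_apply]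
    exact ih (shf_mono h)

end Pool.Agent.H18.Ex

end

section

/-!
# Module Sched: existence of the schedule
-/

namespace Pool.Agent.H18.Ex

open Finset

/-- The active directions different from `o`. -/
noncomputable def dirs {ι : Type} [Fintype ι] [DecidableEq ι] (o : ι) (w : ι → ℕ) : List ι :=
  (univ.filter fun i => 0 < w i ∧ i ≠ o).toList

section

variable {ι : Type} [Fintype ι] [DecidableEq ι]

theorem SchedX_mem_dirs {o : ι} {w : ι → ℕ} {i : ι} :
    i ∈ dirs o w ↔ 0 < w i ∧ i ≠ o := by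
  unfold dirs
  rw [mem_toList, mem_filter]
  simp

theorem SchedX_nodup (o : ι) (w : ι → ℕ) : (dirs o w).Nodup := by
  unfold dirs
  exact nodup_toList _

omit [Fintype ι] in
theorem SchedX_count_flat (l : List ι) (hl : l.Nodup) (k : ι → ℕ) (i : ι) :
    (l.flatMap fun x => List.replicate (k x) x).count i = if i ∈ l then k i else 0 := by
  induction l with
  | nil => simp
  | cons a l ih =>
    rw [List.flatMap_cons, List.count_append, ih (List.nodup_cons.1 hl).2, List.count_replicate]
    by_cases h : a = i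
    · subst h
      simp [(List.nodup_cons.1 hl).1]
    · have h' : i ≠ a := fun e => h e.symm
      simp [h, h']

theorem SchedX_length (L : List ι) : L.length = ∑ i, L.count i := by
  have h := Multiset.sum_count_eq_card (s := (univ : Finset ι)) (m := (L : Multiset ι))
    (fun a _ => mem_univ a)
  simpa using h.symm

/-- Admissible states. -/
structure SchedX_St (b : ℕ) (o : ι) (w : ι → ℕ) (s : ℕ) (v : ι → ℕ) : Prop where
  act : ∀ i, 0 < v i ↔ 0 < w i
  hvo : ∀ i, v i ≤ v o
  hvb : ∀ i, 0 < w i → 2 * b ≤ v i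
  hsb : 2 * b ≤ s
  hτ : ∀ l, l ≠ o → 0 < w l → s + b ≤ ∑ i ∈ univ.erase l, v i

/-- The bounds of the traces. -/
structure SchedX_Ph (M : ℕ) (o : ι) (w : ι → ℕ) (s : ℕ) (v : ι → ℕ) (φ : ι → ℕ) :
    Prop where
  h1 : ∀ i, i ≠ o → 0 < w i → 2 * M * φ i ≤ (2 * M - 1) * fc s v i
  h2 : ∀ i, i = o ∨ w i = 0 → φ i = 0

end

/-- `32 M (n+1)³`. -/
def cq (n M : ℕ) : ℕ := 32 * M * (n + 1) ^ 3

/-- Minimal width along the way. -/
def cb (n M D' C : ℕ) : ℕ := D' + 2 * (n + 1) ^ 2 * (M * (n + 1) + 2 * ell (n + 1) M + 2) +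
    16 * M ^ 2 * ell n M ^ 2 + C

/-- Minimal width at the ends of the rounds. -/
def cB (n M D' C : ℕ) : ℕ := 2 * cb n M D' C + cq n M * (M + 1) + 1

end Pool.Agent.H18.Ex

end

section

/-!
# Project PR: many large multiplicities in `ℙ^(R+1)`

Affine coordinates `x_0, …, x_R`.  The big points lie on the curve `x_{i+1} = x_i ^ e`.  For
`v ≤ u ≤ R` we consider polynomials in `x_v, …, x_u`, the restrictions of the polynomials of degree at
most `d` to the flat `x_{i+1} = x_i ^ e` (`u ≤ i < R`), `x_{v-1} = const`.  They are spanned by the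
monomials of cost at most `d`.  In the coordinates `z_v = x_v - p`, `z_i = x_i - x_{i-1}^e`
(`v < i ≤ u`) the curve is given by `z_i = 0` for `i > v`.
-/

namespace Pool.Agent.H18.Pr

open Finset Pool.Agent.H18.Ex Pool.Agent.H18.Cub

/-- The sum of the `A` lowest digits of `a` in base `e` and of the remaining quotient. -/
def kap (e : ℕ) : ℕ → ℕ → ℕ
  | 0, a => a
  | A + 1, a => a % e + kap e A (a / e)

/-- The number of monomials of cost at most `d` (dimension `n`, `A` equations). -/
def tau (e : ℕ) : ℕ → ℕ → ℕ → ℕ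
  | 0, n, d => (d + n).choose n
  | A + 1, n, d => ∑ δ ∈ range e, if δ ≤ d then tau e A n (d - δ) else 0

section

variable {R : ℕ}

/-- The cost of the monomial `x^α`; `u` is the last variable. -/
def cost (e : ℕ) (u : Fin (R + 1)) (α : Fin (R + 1) → ℕ) : ℕ :=
  ∑ i, if i = u then kap e (R - u.val) (α i) else α i

end

/-- At some positions only the zero element of `W` vanishes at the points with multiplicities
`S`. -/
def Fk {ι : Type} [Fintype ι] (W : Submodule ℂ (MvPolynomial ι ℂ)) (S : Multiset ℕ) : Prop :=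
  ∃ (k : ℕ) (s : Fin k → ℕ), (univ : Finset (Fin k)).val.map s = S ∧ ∃ pos : Fin k → ι → ℂ,
    ∀ F ∈ W, (∀ i, ∀ β : ι → ℕ, ∑ j, β j < s i → tay F (pos i) β = 0) → F = 0

/-! ### The main family -/

section

variable {R t s : ℕ}

/-- The margins of a state. -/
structure Mg (R D : ℕ) (n : Fin t ⊕ Fin s → ℕ) (N : Option (Fin t) → ℕ) : Prop where
  slack : R * t - 2 ≤ ∑ l, N (some l)
  curve : ∑ b, mu n N b + D ≤ (t + 1) ^ R * dd N
  line : ∀ l, mu n N (.inl l) + D ≤ dd N
  deg : D ≤ dd N

end

end Pool.Agent.H18.Pr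

end

section

/-!
# Multiplicities
-/

namespace Pool.Agent.H22.LU

open MvPolynomial Pool.Agent.H18.Fat

variable {n k : ℕ}

private theorem mult_shift_mul (q : Fin n → ℂ) (A G : MvPolynomial (Fin n) ℂ) :
    shift q (A * G) = shift q A * shift q G := by
  unfold shift
  rw [map_mul]

private theorem mult_iff_order {q : Fin n → ℂ} {F : MvPolynomial (Fin n) ℂ} {m : ℕ} :
    VanishesToOrder F q m ↔
      (m : ℕ∞) ≤ ((shift q F : MvPolynomial (Fin n) ℂ) : MvPowerSeries (Fin n) ℂ).order := by
  constructor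
  · intro h
    refine MvPowerSeries.nat_le_order fun d hd => ?_
    rw [coeff_coe]
    exact h d hd
  · intro h β hβ
    rw [← coeff_coe]
    refine MvPowerSeries.coeff_of_lt_order (lt_of_lt_of_le ?_ h)
    exact_mod_cast hβ

private theorem mult_eval_shift (q : Fin n → ℂ) (F : MvPolynomial (Fin n) ℂ) :
    coeff 0 (shift q F) = eval q F := by
  rw [← constantCoeff_eq]
  unfold shift
  induction F using MvPolynomial.induction_on with
  | C a => simp
  | add p q hp hq => rw [map_add, map_add, hp, hq, map_add]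
  | mul_X p i hp =>
    rw [map_mul, map_mul, hp, aeval_X, map_add, constantCoeff_X, constantCoeff_C, map_mul, eval_X,
      zero_add]

/-- The multiplicity is additive (only the inequality which is needed).
Proof: let `ψ : MvPolynomial (Fin n) ℂ →ₐ[ℂ] Polynomial (MvPolynomial (Fin n) ℂ)`,
`X i ↦ C (C (q i)) + C (X i) * X` (so `ψ F = ∑ β, C (monomial β (coeff β (shift q F))) * X ^ |β|`);
then `VanishesToOrder F q m ↔ X ^ m ∣ ψ F` (`Polynomial.X_pow_dvd_iff`: the coefficient of `X ^ j` is
the homogeneous component of degree `j` of `shift q F`).  By hypothesis `ψ A = X ^ b * A'` with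
`b ≤ a` and `¬ X ∣ A'`; from `X ^ m ∣ X ^ b * A' * ψ G` get `X ^ (m - b) ∣ ψ G`
(`Polynomial.prime_X`, `Prime.pow_dvd_of_dvd_mul_left`). -/
theorem vanishes_of_mul {q : Fin n → ℂ} {m a : ℕ} {A G : MvPolynomial (Fin n) ℂ}
    (hA : ¬ VanishesToOrder A q (a + 1)) (h : VanishesToOrder (A * G) q m) :
    VanishesToOrder G q (m - a) := by
  rw [mult_iff_order] at hA h ⊢
  rw [mult_shift_mul, coe_mul, MvPowerSeries.order_mul] at h
  generalize (MvPowerSeries.order (shift q A : MvPowerSeries (Fin n) ℂ)) = x at hA h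
  generalize (MvPowerSeries.order (shift q G : MvPowerSeries (Fin n) ℂ)) = y at h ⊢
  induction y using ENat.recTopCoe with
  | top => exact le_top
  | coe y =>
    induction x using ENat.recTopCoe with
    | top => exact absurd le_top hA
    | coe x =>
      norm_cast at hA h ⊢
      omega

theorem vanishes_one_iff {q : Fin n → ℂ} {F : MvPolynomial (Fin n) ℂ} :
    VanishesToOrder F q 1 ↔ eval q F = 0 := by
  rw [← mult_eval_shift]
  constructor
  · intro h
    exact h 0 (by simp)
  · intro h β hβ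
    have h1 : β = 0 := by
      rw [← Finsupp.degree_eq_zero_iff]
      omega
    subst h1
    exact h

theorem vanishes_zero (q : Fin n → ℂ) (F : MvPolynomial (Fin n) ℂ) : VanishesToOrder F q 0 :=
  fun β hβ => absurd hβ (Nat.not_lt_zero _)

/-- Restriction to a graph (pullback): the multiplicity does not drop.  Proof:
`vanishesToOrder_iff_mem_ideal_pow`; the homomorphism `aeval g` maps the generators `X j - C (q j)`
of the ideal of `q` to `g j - C (q j)`, which vanish at `q'` and so are in the ideal of `q'`. -/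
theorem vanishes_aeval {q : Fin n → ℂ} {q' : Fin k → ℂ} (g : Fin n → MvPolynomial (Fin k) ℂ)
    (hg : ∀ j, eval q' (g j) = q j) {m : ℕ} {F : MvPolynomial (Fin n) ℂ}
    (h : VanishesToOrder F q m) : VanishesToOrder (aeval g F) q' m := by
  rw [vanishesToOrder_iff_mem_ideal_pow] at h ⊢
  have h1 := Ideal.mem_map_of_mem (aeval g : MvPolynomial (Fin n) ℂ →ₐ[ℂ] MvPolynomial (Fin k) ℂ) h
  rw [Ideal.map_pow] at h1
  refine Ideal.pow_right_mono ?_ m h1
  rw [Ideal.map_span, Ideal.span_le]
  rintro _ ⟨_, ⟨j, rfl⟩, rfl⟩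
  have h2 : VanishesToOrder (g j - C (q j)) q' 1 := by
    rw [vanishes_one_iff, map_sub, eval_C, hg, sub_self]
  rw [vanishesToOrder_iff_mem_ideal_pow, pow_one] at h2
  have h3 : (aeval g : MvPolynomial (Fin n) ℂ →ₐ[ℂ] MvPolynomial (Fin k) ℂ) (X j - C (q j)) =
      g j - C (q j) := by
    rw [map_sub, aeval_X, aeval_C]
    rfl
  show (aeval g : MvPolynomial (Fin n) ℂ →ₐ[ℂ] MvPolynomial (Fin k) ℂ) (X j - C (q j)) ∈ _
  rw [h3]
  exact h2

/-- The same for a curve. -/
theorem pow_dvd_aeval {q : Fin n → ℂ} {a : ℂ} (g : Fin n → Polynomial ℂ)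
    (hg : ∀ j, (g j).eval a = q j) {m : ℕ} {F : MvPolynomial (Fin n) ℂ}
    (h : VanishesToOrder F q m) : (Polynomial.X - Polynomial.C a) ^ m ∣ aeval g F := by
  rw [vanishesToOrder_iff_mem_ideal_pow] at h
  have h1 := Ideal.mem_map_of_mem (aeval g : MvPolynomial (Fin n) ℂ →ₐ[ℂ] Polynomial ℂ) h
  rw [Ideal.map_pow] at h1
  rw [← Ideal.mem_span_singleton, ← Ideal.span_singleton_pow]
  refine Ideal.pow_right_mono ?_ m h1
  rw [Ideal.map_span, Ideal.span_le]
  rintro _ ⟨_, ⟨j, rfl⟩, rfl⟩
  have h3 : (aeval g : MvPolynomial (Fin n) ℂ →ₐ[ℂ] Polynomial ℂ) (X j - C (q j)) =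
      g j - Polynomial.C (q j) := by
    rw [map_sub, aeval_X, aeval_C]
    rfl
  show (aeval g : MvPolynomial (Fin n) ℂ →ₐ[ℂ] Polynomial ℂ) (X j - C (q j)) ∈ _
  rw [h3, SetLike.mem_coe, Ideal.mem_span_singleton, Polynomial.dvd_iff_isRoot, Polynomial.IsRoot,
    Polynomial.eval_sub, Polynomial.eval_C, hg, sub_self]

end Pool.Agent.H22.LU

end
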