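import Pool.Agent.H94.LP4.H18.Ex.Defs

/-! The parts of this file: H18.Ex.Kill, H18.Ex.OnePar. -/

section

/-!
# Module Kill: general simple points
-/

namespace Pool.Agent.H18.Ex

open Finset

variable {ι : Type} [Fintype ι] [DecidableEq ι]

omit [DecidableEq ι] in
theorem tcr_zero_right {R : Type*} [CommRing R] (q : ι → R) (a : ι → ℕ) :
    tcr q a 0 = ∏ i, q i ^ a i := by
  unfold tcr
  refine Finset.prod_congr rfl fun i _ => ?_
  simp

/-- The evaluation functional at a point. -/
noncomputable def evl (A : Finset (ι → ℕ)) (q : ι → ℂ) : (A → ℂ) →ₗ[ℂ] ℂ :=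
  ∑ a : A, (LinearMap.proj a : (A → ℂ) →ₗ[ℂ] ℂ).smulRight (tcr q a.1 0)

omit [DecidableEq ι] in
theorem evl_apply (A : Finset (ι → ℕ)) (q : ι → ℂ) (f : A → ℂ) :
    evl A q f = ∑ a : A, f a * tcr q a.1 0 := by
  unfold evl
  simp [LinearMap.sum_apply]

/-- A nonzero form does not vanish somewhere. -/
theorem exists_evl_ne (A : Finset (ι → ℕ)) (f : A → ℂ) (hf : f ≠ 0) :
    ∃ q : ι → ℂ, evl A q f ≠ 0 := by
  by_contra hcon
  push Not at hcon
  apply hf
  set P : MvPolynomial ι ℂ :=
    ∑ a : A, MvPolynomial.monomial (Finsupp.equivFunOnFinite.symm a.1) (f a) with hP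
  have h1 : P = 0 := by
    apply MvPolynomial.funext
    intro q
    rw [map_zero, ← hcon q, evl_apply, hP, map_sum]
    refine Finset.sum_congr rfl fun a _ => ?_
    rw [MvPolynomial.eval_monomial, tcr_zero_right, Finsupp.prod_fintype _ _ (fun i => by simp)]
    rfl
  funext a
  have h2 : MvPolynomial.coeff (Finsupp.equivFunOnFinite.symm a.1) P = f a := by
    rw [hP, MvPolynomial.coeff_sum, Finset.sum_eq_single a]
    · rw [MvPolynomial.coeff_monomial, if_pos rfl]
    · intro b _ hb
      rw [MvPolynomial.coeff_monomial, if_neg]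
      intro h
      exact hb (Subtype.ext (Finsupp.equivFunOnFinite.symm.injective h))
    · intro h
      exact absurd (Finset.mem_univ a) h
  rw [← h2, h1, MvPolynomial.coeff_zero]
  rfl

/-- `s` general points kill a space of forms of dimension at most `s`.
Proof: induction on `s`.  If `W ≠ 0` take `f ≠ 0` in `W` and a point `q₀` with
`∑ a, f a * ∏ i, q₀ i ^ a i ≠ 0` (nonzero polynomials over `ℂ` have non-roots,
`MvPolynomial.funext`); the subspace `W ∩ {g | g (q₀) = 0}` has smaller dimension.  Note
`tcr q a 0 = ∏ i, q i ^ a i`. -/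
theorem kill (A : Finset (ι → ℕ)) (s : ℕ) (W : Submodule ℂ (A → ℂ))
    (h : Module.finrank ℂ W ≤ s) :
    ∃ q : Fin s → ι → ℂ, ∀ f ∈ W, (∀ j, ∑ a : A, f a * tcr (q j) a.1 0 = 0) → f = 0 := by
  induction s generalizing W with
  | zero =>
    refine ⟨fun _ _ => 0, fun f hf _ => ?_⟩
    have h1 : W = ⊥ := Submodule.finrank_eq_zero.1 (Nat.le_zero.1 h)
    rw [h1] at hf
    exact (Submodule.mem_bot ℂ).1 hf
  | succ s ih =>
    by_cases hW : W = ⊥
    · refine ⟨fun _ _ => 0, fun f hf _ => ?_⟩
      rw [hW] at hf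
      exact (Submodule.mem_bot ℂ).1 hf
    · obtain ⟨f0, hf0, hf0n⟩ := Submodule.exists_mem_ne_zero_of_ne_bot hW
      obtain ⟨q0, hq0⟩ := exists_evl_ne A f0 hf0n
      have hlt : W ⊓ LinearMap.ker (evl A q0) < W := by
        refine lt_of_le_of_ne inf_le_left fun heq => ?_
        have h1 : f0 ∈ W ⊓ LinearMap.ker (evl A q0) := by
          rw [heq]
          exact hf0
        exact hq0 (LinearMap.mem_ker.1 (Submodule.mem_inf.1 h1).2)
      have h2 := Submodule.finrank_lt_finrank_of_lt hlt
      obtain ⟨q, hq⟩ := ih (W ⊓ LinearMap.ker (evl A q0)) (by omega)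
      refine ⟨Fin.cons q0 q, fun f hf hall => ?_⟩
      apply hq f
      · rw [Submodule.mem_inf, LinearMap.mem_ker, evl_apply]
        refine ⟨hf, ?_⟩
        have h3 := hall 0
        rwa [Fin.cons_zero] at h3
      · intro j
        have h3 := hall j.succ
        rwa [Fin.cons_succ] at h3

/-- At least `|A|` free points (of multiplicity at least one) kill everything. -/
theorem GI.of_card {κ : Type} (A : Finset (ι → ℕ)) (k : κ → Kind ι) (e : Fin A.card ↪ κ)
    (he : ∀ j, ∃ m, 1 ≤ m ∧ k (e j) = Kind.free m) : GI A k := by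
  obtain ⟨q, hq⟩ := kill A A.card ⊤ (by
    rw [finrank_top, Module.finrank_fintype_fun_eq_card, Fintype.card_coe])
  refine ⟨Function.extend e q (fun _ _ => 0), fun f hf a ha => ?_⟩
  have h1 : (fun b : A => f b.1) = 0 := by
    apply hq _ Submodule.mem_top
    intro j
    obtain ⟨m, hm, hk⟩ := he j
    have h2 := hf (e j)
    rw [hk, e.injective.extend_apply] at h2
    have h3 := h2 0 (by
      change ∑ i, (0 : ι → ℕ) i < m
      have h4 : ∑ i, (0 : ι → ℕ) i = 0 := by simp
      omega)
    rw [← Finset.sum_coe_sort] at h3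
    exact h3
  exact congrFun h1 ⟨a, ha⟩

end Pool.Agent.H18.Ex

end

section

/-!
# Module OnePar: solutions of a linear system depending polynomially on one parameter
-/

namespace Pool.Agent.H18.Ex

open Finset

/-- Division by the largest possible power of `X`. -/
theorem exists_eval_ne {α ρ : Type} (A : Finset α) (Mx : ρ → α → Polynomial ℂ) (a₀ : α)
    (ha₀ : a₀ ∈ A) : ∀ (n : ℕ) (F : α → Polynomial ℂ), (F a₀).natDegree = n → F a₀ ≠ 0 →
      (∀ r, ∑ a ∈ A, F a * Mx r a = 0) →
      ∃ F : α → Polynomial ℂ, (∀ r, ∑ a ∈ A, F a * Mx r a = 0) ∧ ∃ a ∈ A, (F a).eval 0 ≠ 0 := by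
  intro n
  induction n with
  | zero =>
    intro F hd hne hF
    refine ⟨F, hF, a₀, ha₀, ?_⟩
    rw [Polynomial.eq_C_of_natDegree_eq_zero hd] at hne ⊢
    rw [Polynomial.eval_C]
    intro h
    rw [h, Polynomial.C_0] at hne
    exact hne rfl
  | succ n ih =>
    intro F hd hne hF
    by_cases hz : ∃ a ∈ A, (F a).eval 0 ≠ 0
    · exact ⟨F, hF, hz⟩
    · push Not at hz
      have hdiv : ∀ a ∈ A, F a = (F a).divX * Polynomial.X := by
        intro a ha
        have h := hz a ha
        rw [← Polynomial.coeff_zero_eq_eval_zero] at h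
        conv_lhs => rw [← Polynomial.divX_mul_X_add (F a), h, Polynomial.C_0, add_zero]
      refine ih (fun a => (F a).divX) ?_ ?_ ?_
      · show (F a₀).divX.natDegree = n
        rw [Polynomial.natDegree_divX_eq_natDegree_tsub_one, hd]
        omega
      · intro h
        apply hne
        rw [hdiv a₀ ha₀]
        show (F a₀).divX * Polynomial.X = 0
        have h' : (F a₀).divX = 0 := h
        rw [h', zero_mul]
      · intro r
        have h := hF r
        have h2 : (∑ a ∈ A, (F a).divX * Mx r a) * Polynomial.X = 0 := by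
          rw [sum_mul, ← h]
          refine sum_congr rfl fun a ha => ?_
          conv_rhs => rw [hdiv a ha]
          ring
        rcases mul_eq_zero.1 h2 with h3 | h3
        · exact h3
        · exact absurd h3 Polynomial.X_ne_zero

/-- If a linear system with coefficients in `ℂ[t]` has a nonzero solution for every value of `t`,
then it has a polynomial solution which does not vanish at `t = 0`.

Proof.  Let `Frac` be the fraction field of `ℂ[X]`.  Case 1: the matrix `(r, a) ↦ Mx r a`
(`r : ρ`, `a : A`) has trivial kernel over `Frac`.  Then it has a left inverse `B` over `Frac`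
(`LinearMap.exists_leftInverse_of_injective`); clearing denominators gives a matrix `B'` over
`ℂ[X]` and `δ ≠ 0` with `B' * Mx = δ • 1`.  Take `t` with `δ.eval t ≠ 0` (`ℂ` is infinite):
then the system at `t` has only the zero solution, a contradiction.  Case 2: there is a nonzero
solution over `Frac`; clear denominators to get a nonzero solution `F` over `ℂ[X]`
(e.g. `IsLocalization.exist_integer_multiples_of_finset`).  Divide by the largest power of `X`
dividing all `F a`, `a ∈ A` (strong induction on the minimum, or on the sum, of the `natDegree`s of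
the nonzero `F a`: if all `F a`, `a ∈ A`, vanish at `0` replace `F a` by `(F a).divX`). -/
theorem exists_poly_solution {α ρ : Type} [Fintype ρ] (A : Finset α)
    (Mx : ρ → α → Polynomial ℂ)
    (h : ∀ t : ℂ, ∃ f : α → ℂ, (∀ r, ∑ a ∈ A, f a * (Mx r a).eval t = 0) ∧ ∃ a ∈ A, f a ≠ 0) :
    ∃ F : α → Polynomial ℂ, (∀ r, ∑ a ∈ A, F a * Mx r a = 0) ∧ ∃ a ∈ A, (F a).eval 0 ≠ 0 := by
  classical
  let K := FractionRing (Polynomial ℂ)
  let φ : Polynomial ℂ →+* K := algebraMap (Polynomial ℂ) K
  have hφ : Function.Injective φ := IsFractionRing.injective (Polynomial ℂ) K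
  let Mk : Matrix ρ A K := fun r a => φ (Mx r a.1)
  by_cases hker : LinearMap.ker Mk.mulVecLin = ⊥
  · exfalso
    obtain ⟨g, hg⟩ := LinearMap.exists_leftInverse_of_injective Mk.mulVecLin hker
    let B : Matrix A ρ K := LinearMap.toMatrix' g
    have hB : B * Mk = 1 := by
      have h1 : LinearMap.toMatrix' (g ∘ₗ Mk.mulVecLin) = 1 := by
        rw [hg, LinearMap.toMatrix'_id]
      rw [LinearMap.toMatrix'_comp] at h1
      rw [← h1]
      congr 1
      rw [← Matrix.toLin'_apply', LinearMap.toMatrix'_toLin']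
    obtain ⟨δ, hδ⟩ := IsLocalization.exist_integer_multiples_of_finite
      (nonZeroDivisors (Polynomial ℂ)) (fun x : A × ρ => B x.1 x.2)
    choose B' hB' using hδ
    have hδ0 : (δ : Polynomial ℂ) ≠ 0 := nonZeroDivisors.coe_ne_zero δ
    have key : ∀ a a' : A, ∑ r, B' (a, r) * Mx r a'.1 = if a = a' then (δ : Polynomial ℂ) else 0 := by
      intro a a'
      apply hφ
      rw [map_sum]
      have h1 : ∀ r, φ (B' (a, r) * Mx r a'.1) = φ δ * (B a r * Mk r a') := by
        intro r
        rw [map_mul]
        have h2 := hB' (a, r)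
        rw [Algebra.smul_def] at h2
        rw [show φ (B' (a, r)) = φ δ * B a r from h2]
        show φ δ * B a r * φ (Mx r a'.1) = φ δ * (B a r * φ (Mx r a'.1))
        ring
      rw [sum_congr rfl fun r _ => h1 r, ← mul_sum]
      have h3 : ∑ r, B a r * Mk r a' = (B * Mk) a a' := rfl
      rw [h3, hB, Matrix.one_apply]
      split_ifs with hh
      · rw [mul_one]
      · rw [mul_zero, map_zero]
    obtain ⟨t, ht⟩ : ∃ t : ℂ, (δ : Polynomial ℂ).eval t ≠ 0 := by
      by_contra hcon
      push Not at hcon
      apply hδ0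
      exact Polynomial.funext fun t => by rw [hcon t, Polynomial.eval_zero]
    obtain ⟨f, hf, a, ha, hfa⟩ := h t
    apply hfa
    have h4 : (δ : Polynomial ℂ).eval t * f a = 0 := by
      have h5 : ∑ a' : A, (∑ r, (B' (⟨a, ha⟩, r)).eval t * (Mx r a'.1).eval t) * f a'.1 = 0 := by
        simp only [sum_mul]
        rw [sum_comm]
        refine sum_eq_zero fun r _ => ?_
        have h6 := hf r
        rw [← sum_coe_sort A (fun a => f a * (Mx r a).eval t)] at h6
        have h7 : ∑ a' : A, (B' (⟨a, ha⟩, r)).eval t * (Mx r a'.1).eval t * f a'.1 =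
            (B' (⟨a, ha⟩, r)).eval t * ∑ a' : A, f a'.1 * (Mx r a'.1).eval t := by
          rw [mul_sum]
          exact sum_congr rfl fun a' _ => by ring
        rw [h7, h6, mul_zero]
      have h8 : ∀ a' : A, (∑ r, (B' (⟨a, ha⟩, r)).eval t * (Mx r a'.1).eval t) =
          if (⟨a, ha⟩ : A) = a' then (δ : Polynomial ℂ).eval t else 0 := by
        intro a'
        have h9 := congrArg (Polynomial.eval t) (key ⟨a, ha⟩ a')
        rw [Polynomial.eval_finsetSum] at h9
        simp only [Polynomial.eval_mul] at h9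
        rw [h9]
        split_ifs
        · rfl
        · exact Polynomial.eval_zero
      rw [sum_congr rfl fun a' _ => by rw [h8 a']] at h5
      rw [Finset.sum_eq_single (⟨a, ha⟩ : A)] at h5
      · rw [if_pos rfl] at h5
        exact h5
      · intro b _ hb
        rw [if_neg (fun h => hb h.symm), zero_mul]
      · intro hh
        exact absurd (mem_univ _) hh
    rcases mul_eq_zero.1 h4 with h5 | h5
    · exact absurd h5 ht
    · exact h5
  · obtain ⟨v, hv, hv0⟩ := (Submodule.ne_bot_iff _).1 hker
    rw [LinearMap.mem_ker, Matrix.mulVecLin_apply] at hv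
    obtain ⟨a₀, ha₀⟩ : ∃ a, v a ≠ 0 := by
      by_contra hcon
      push Not at hcon
      exact hv0 (funext hcon)
    obtain ⟨δ, hδ⟩ := IsLocalization.exist_integer_multiples_of_finite
      (nonZeroDivisors (Polynomial ℂ)) v
    choose F' hF' using hδ
    have hδ0 : (δ : Polynomial ℂ) ≠ 0 := nonZeroDivisors.coe_ne_zero δ
    let F : α → Polynomial ℂ := fun a => if ha : a ∈ A then F' ⟨a, ha⟩ else 0
    have hFa : ∀ a : A, φ (F a.1) = φ δ * v a := by
      intro a
      have h2 := hF' a
      rw [Algebra.smul_def] at h2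
      show φ (if ha : a.1 ∈ A then F' ⟨a.1, ha⟩ else 0) = φ δ * v a
      rw [dif_pos a.2]
      exact h2
    refine exists_eval_ne A Mx a₀.1 a₀.2 _ F rfl ?_ ?_
    · intro hz
      have h1 := hFa a₀
      rw [hz, map_zero] at h1
      rcases mul_eq_zero.1 h1.symm with h2 | h2
      · apply hδ0
        apply hφ
        rw [h2, map_zero]
      · exact ha₀ h2
    · intro r
      apply hφ
      rw [map_zero, map_sum, ← sum_coe_sort A (fun a => φ (F a * Mx r a))]
      have h1 : ∑ a : A, φ (F a.1 * Mx r a.1) = φ δ * ∑ a : A, Mk r a * v a := by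
        rw [mul_sum]
        refine sum_congr rfl fun a _ => ?_
        rw [map_mul, hFa a]
        show φ δ * v a * φ (Mx r a.1) = φ δ * (φ (Mx r a.1) * v a)
        ring
      rw [h1]
      have h2 : ∑ a : A, Mk r a * v a = Mk.mulVec v r := rfl
      rw [h2, hv]
      show φ δ * 0 = 0
      rw [mul_zero]

end Pool.Agent.H18.Ex

end
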