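import Pool.Agent.H94.LP4.M01
import Pool.Agent.H94.LP4.M03
import Pool.Agent.H94.LP4.M04
import Pool.Agent.H94.LP4.M09

/-! The parts of this file: H18.Ex.Bridge, H18.Ex.Bridge_1. -/

section

/-!
# Module Bridge: replacing forced simple points by free simple points
-/

namespace Pool.Agent.H18.Ex

open Finset

variable {ι : Type} [Fintype ι] [DecidableEq ι]

/-- The functional with coefficients `t`. -/
noncomputable def fnl (A : Finset (ι → ℕ)) (t : (ι → ℕ) → ℂ) : (A → ℂ) →ₗ[ℂ] ℂ :=
  ∑ a : A, (LinearMap.proj a : (A → ℂ) →ₗ[ℂ] ℂ).smulRight (t a.1)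

omit [Fintype ι] [DecidableEq ι] in
theorem fnl_apply (A : Finset (ι → ℕ)) (t : (ι → ℕ) → ℂ) (f : A → ℂ) :
    fnl A t f = ∑ a : A, f a * t a.1 := by
  unfold fnl
  simp [LinearMap.sum_apply]

/-- The space of the forms (coefficient functions on `A`) satisfying the conditions. -/
noncomputable def solSpace {κ : Type} (A : Finset (ι → ℕ)) (k : κ → Kind ι)
    (pos : κ → ι → ℂ) : Submodule ℂ (A → ℂ) :=
  ⨅ i, ⨅ b, ⨅ (_ : (k i).Idx b), LinearMap.ker (fnl A fun a => tcr ((k i).pt (pos i)) a b)

theorem mem_solSpace {κ : Type} {A : Finset (ι → ℕ)} {k : κ → Kind ι} {pos : κ → ι → ℂ}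
    {f : A → ℂ} : f ∈ solSpace A k pos ↔
      ∀ i b, (k i).Idx b → ∑ a : A, f a * tcr ((k i).pt (pos i)) a.1 b = 0 := by
  unfold solSpace
  simp only [Submodule.mem_iInf, LinearMap.mem_ker, fnl_apply]

theorem mem_solSpace_of_sat {κ : Type} {A : Finset (ι → ℕ)} {k : κ → Kind ι}
    {pos : κ → ι → ℂ} {f : (ι → ℕ) → ℂ} (h : ∀ i, Sat A f (k i) (pos i)) :
    (fun a : A => f a.1) ∈ solSpace A k pos := by
  rw [mem_solSpace]
  intro i b hb
  have h1 := h i b hb
  rw [← Finset.sum_coe_sort] at h1
  exact h1

/-- Extension by zero. -/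
noncomputable def extz (A : Finset (ι → ℕ)) (f : A → ℂ) : (ι → ℕ) → ℂ :=
  fun a => if h : a ∈ A then f ⟨a, h⟩ else 0

theorem extz_sum (A : Finset (ι → ℕ)) (f : A → ℂ) (t : (ι → ℕ) → ℂ) :
    ∑ a ∈ A, extz A f a * t a = ∑ a : A, f a * t a.1 := by
  rw [← Finset.sum_coe_sort]
  refine Finset.sum_congr rfl fun a _ => ?_
  unfold extz
  rw [dif_pos a.2]

theorem extz_eq_zero (A : Finset (ι → ℕ)) (f : A → ℂ) (h : ∀ a ∈ A, extz A f a = 0) :
    f = 0 := by
  funext a
  have h1 := h a.1 a.2
  unfold extz at h1
  rw [dif_pos a.2] at h1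
  exact h1

/-- General positions for the bridge. -/
theorem bridge_positions {κ : Type} [Fintype κ] (A A' : Finset (ι → ℕ)) (l : ι)
    (k : κ → Kind ι) (s : ℕ)
    (h1 : GI A (Sum.elim k fun _ : Fin s => Kind.free 1))
    (h2 : GI A' fun i => (k i).dn l) :
    ∃ (pos : κ → ι → ℂ) (pos' : Fin s → ι → ℂ),
      InjAt A (Sum.elim k fun _ : Fin s => Kind.free 1) (Sum.elim pos pos') ∧
      InjAt A' (fun i => (k i).dn l) pos ∧ ∀ i j, pos i j ≠ 0 := by
  obtain ⟨G1, hG1, hG1'⟩ := h1.general
  obtain ⟨G2, hG2, hG2'⟩ := h2.general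
  set φ : κ × ι → (κ ⊕ Fin s) × ι := fun x => (Sum.inl x.1, x.2) with hφ
  have hφi : Function.Injective φ := by
    rintro ⟨a, b⟩ ⟨c, d⟩ h
    simp only [hφ, Prod.mk.injEq, Sum.inl.injEq] at h
    exact Prod.ext h.1 h.2
  have h3 : G1 * MvPolynomial.rename φ G2 * ∏ x, MvPolynomial.X x ≠ 0 := by
    refine mul_ne_zero (mul_ne_zero hG1 ?_) ?_
    · intro h
      apply hG2
      apply MvPolynomial.rename_injective φ hφi
      rw [h, map_zero]
    · exact Finset.prod_ne_zero_iff.2 fun x _ => MvPolynomial.X_ne_zero x
  obtain ⟨z, hz⟩ : ∃ z : (κ ⊕ Fin s) × ι → ℂ,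
      MvPolynomial.eval z (G1 * MvPolynomial.rename φ G2 * ∏ x, MvPolynomial.X x) ≠ 0 := by
    by_contra hcon
    push Not at hcon
    apply h3
    apply MvPolynomial.funext
    intro z
    rw [hcon z, map_zero]
  rw [map_mul, map_mul, map_prod, MvPolynomial.eval_rename] at hz
  have hz1 := left_ne_zero_of_mul (left_ne_zero_of_mul hz)
  have hz2 := right_ne_zero_of_mul (left_ne_zero_of_mul hz)
  have hz3 := right_ne_zero_of_mul hz
  refine ⟨fun i j => z (Sum.inl i, j), fun i j => z (Sum.inr i, j), ?_, ?_, ?_⟩
  · apply hG1'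
    have h4 : (fun x : (κ ⊕ Fin s) × ι =>
        (Sum.elim (fun i j => z (Sum.inl i, j)) (fun i j => z (Sum.inr i, j)) :
          κ ⊕ Fin s → ι → ℂ) x.1 x.2) = z := by
      funext x
      rcases x with ⟨x | x, y⟩ <;> rfl
    rw [h4]
    exact hz1
  · apply hG2'
    exact hz2
  · intro i j
    have h5 := Finset.prod_ne_zero_iff.1 hz3 (Sum.inl i, j) (Finset.mem_univ _)
    rwa [MvPolynomial.eval_X] at h5

end Pool.Agent.H18.Ex

end

section

/-!
# Module Bridge: replacing forced simple points by free simple points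
-/

namespace Pool.Agent.H18.Ex

open Finset

variable {ι : Type} [Fintype ι] [DecidableEq ι]

/-- Bridging: `s` simple points on the hyperplane `x_l = 0` may be replaced by `s` free simple
points, provided the forms satisfying the other conditions inject into the layer.

Proof.  By openness (`GI.general`, applied to the two families restricted to `κ`; for `h1` view
the positions of `κ ⊕ Fin s` and specialise) choose positions of `κ` with nonzero coordinates such
that (1) for suitable positions of the `s` free simple points `InjAt` holds, and (2)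
`InjAt A' (dn l ∘ k) pos`.  Let `V` be the space of `f : A → ℂ` satisfying the conditions
`k i` at `pos i`.  By (1) `V` injects into `ℂ^s`, so `finrank V ≤ s`.  By (2) the restriction
`V → (A.filter (a l = 0) → ℂ)` is injective: if `f = 0` on the layer, then
`a ↦ f (a + e_l)` satisfies the conditions `dn l (k i)` (`sat_resid_of_notAt` for kinds not forced
at `l`, `sat_resid_forced` for `forced l`), so it is `0`.  Let `W` be the image of `V`,
`finrank W ≤ s`; `kill` gives the positions `q j` of the points on the hyperplane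
(`forced l 1 1` at `q` is `∑_{a ∈ A, a l = 0} f a * ∏ q^a = 0`, by `layer_sum`, the `l`-th coordinate
being irrelevant on the layer). -/
theorem bridge {κ : Type} [Fintype κ] (A A' : Finset (ι → ℕ)) (l : ι)
    (hA : ∀ a, a ∈ A' ↔ Function.update a l (a l + 1) ∈ A) (k : κ → Kind ι) (s : ℕ)
    (h1 : GI A (Sum.elim k fun _ : Fin s => Kind.free 1))
    (h2 : GI A' fun i => (k i).dn l) :
    GI A (Sum.elim k fun _ : Fin s => Kind.forced l 1 1) := by
  obtain ⟨pos, pos', hp1, hp2, hp3⟩ := bridge_positions A A' l k s h1 h2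
  -- the solution space has dimension at most `s`
  set V := solSpace A k pos with hV
  have hVs : Module.finrank ℂ V ≤ s := by
    let T : V →ₗ[ℂ] (Fin s → ℂ) :=
      (LinearMap.pi fun j => evl A (pos' j)).comp V.subtype
    have hT : Function.Injective T := by
      rw [← LinearMap.ker_eq_bot, LinearMap.ker_eq_bot']
      intro f hf
      have h3 : extz A f.1 = extz A f.1 := rfl
      apply Subtype.ext
      apply extz_eq_zero A f.1
      apply hp1
      rintro (i | j)
      · intro b hb
        change ∑ a ∈ A, extz A f.1 a * tcr ((k i).pt (pos i)) a b = 0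
        rw [extz_sum A f.1 (fun a => tcr ((k i).pt (pos i)) a b)]
        exact (mem_solSpace.1 f.2) i b hb
      · intro b hb
        have hb' : ∑ i, b i < 1 := hb
        have hb0 : b = 0 := by
          funext i
          have h4 : b i ≤ ∑ i, b i := Finset.single_le_sum (fun _ _ => Nat.zero_le _)
            (Finset.mem_univ i)
          change b i = 0
          omega
        subst hb0
        change ∑ a ∈ A, extz A f.1 a * tcr (pos' j) a 0 = 0
        rw [extz_sum A f.1 (fun a => tcr (pos' j) a 0)]
        have h5 := congrFun hf j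
        rw [← evl_apply]
        exact h5
    have h6 := LinearMap.finrank_le_finrank_of_injective hT
    rwa [Module.finrank_fin_fun] at h6
  -- restriction to the layer
  set A0 := A.filter (fun a => a l = 0) with hA0
  have hsub : ∀ a : A0, a.1 ∈ A := fun a => (Finset.mem_filter.1 a.2).1
  let r : (A → ℂ) →ₗ[ℂ] (A0 → ℂ) :=
    LinearMap.pi fun a => LinearMap.proj (⟨a.1, hsub a⟩ : A)
  obtain ⟨q, hq⟩ := kill A0 s (V.map r) ((Submodule.finrank_map_le r V).trans hVs)
  refine ⟨Sum.elim pos q, fun f hf => ?_⟩
  have hfk : ∀ i, Sat A f (k i) (pos i) := fun i => hf (Sum.inl i)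
  -- the form vanishes on the layer
  have h0 : ∀ a ∈ A, a l = 0 → f a = 0 := by
    have h7 : r (fun a : A => f a.1) = 0 := by
      apply hq
      · exact Submodule.mem_map_of_mem (mem_solSpace_of_sat hfk)
      · intro j
        have h8 := hf (Sum.inr j) 0 (by
          change ∑ i, (0 : ι → ℕ) i < 1 ∧ (0 : ι → ℕ) l + 1 ≤ 1
          constructor
          · simp
          · simp)
        change ∑ a ∈ A, f a * tcr (Function.update (q j) l 0) a 0 = 0 at h8
        rw [layer_sum A l f _ (by simp) 0 rfl] at h8
        rw [← h8, ← hA0, ← Finset.sum_coe_sort A0]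
        refine Finset.sum_congr rfl fun a _ => ?_
        have hal : a.1 l = 0 := (Finset.mem_filter.1 a.2).2
        rw [tcr_zero_right, tcr_zero_right]
        congr 1
        refine Finset.prod_congr rfl fun i _ => ?_
        by_cases hi : i = l
        · subst hi
          rw [hal, pow_zero, pow_zero]
        · rw [Function.update_of_ne hi]
    intro a ha hal
    have ha0 : a ∈ A0 := Finset.mem_filter.2 ⟨ha, hal⟩
    exact congrFun h7 ⟨a, ha0⟩
  -- the residual vanishes
  have h9 : ∀ a ∈ A', f (Function.update a l (a l + 1)) = 0 := by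
    apply hp2 (fun a => f (Function.update a l (a l + 1)))
    intro i
    have h10 := hfk i
    change Sat A' (fun a => f (Function.update a l (a l + 1))) (Kind.dn l (k i)) (pos i)
    cases hki : k i with
    | free m =>
      rw [hki] at h10
      exact sat_resid_of_notAt A A' l hA f h0 (Kind.free m) trivial (pos i) (hp3 i l) h10
    | forced l' c e =>
      rw [hki] at h10
      change Sat A' _ (if l' = l then Kind.forced l' (c - 1) e else Kind.forced l' c e) (pos i)
      split_ifs with hl
      · subst hl
        exact sat_resid_forced A A' l' hA f c e (pos i) h10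
      · exact sat_resid_of_notAt A A' l hA f h0 (Kind.forced l' c e) hl (pos i) (hp3 i l) h10
  intro a ha
  by_cases hal : a l = 0
  · exact h0 a ha hal
  · have h11 : Function.update (Function.update a l (a l - 1)) l
        ((Function.update a l (a l - 1)) l + 1) = a := by
      rw [Function.update_self, Function.update_idem]
      have h12 : a l - 1 + 1 = a l := by omega
      rw [h12, Function.update_eq_self]
    have h13 : Function.update a l (a l - 1) ∈ A' := by
      rw [hA, h11]
      exact ha
    have h14 := h9 _ h13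
    rwa [h11] at h14

end Pool.Agent.H18.Ex

end
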