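import Pool.Agent.H94.LP4.M05
import Pool.Agent.H94.LP4.M10
import Pool.Agent.H94.LP4.M14

/-! The parts of this file: H18.Cub.Sys, H18.Cub.Sched. -/

section

/-!
# Abstract Horace systems

`Λ` is the finite set of directions.  The spaces are indexed by states `a : Λ → ℕ`; peeling in
direction `l` replaces `a` by `dn l a`.  `F l a` is the size of the trace, `R a` the (virtual)
dimension, `K a S` says that the conditions `S` kill the space of `a` at general positions.
-/

namespace Pool.Agent.H18.Cub

open Finset Pool.Agent.H18.Ex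

/-- One peel in direction `l`. -/
def dn {Λ : Type} [DecidableEq Λ] (l : Λ) (a : Λ → ℕ) : Λ → ℕ := Function.update a l (a l - 1)

/-- An abstract Horace system (in the plane). -/
structure Sys (Λ : Type) [Fintype Λ] [DecidableEq Λ] : Type where
  /-- the conditions `S` kill the space of the state `a` -/
  K : (Λ → ℕ) → Multiset (Kind Λ) → Prop
  /-- the size of the trace -/
  F : Λ → (Λ → ℕ) → ℕ
  /-- the virtual dimension -/
  R : (Λ → ℕ) → ℤ
  mono : ∀ a S S', S ≤ S' → K a S → K a S'
  free_mono : ∀ a (T : Multiset ℕ) (S : Multiset (Kind Λ)), (∀ m ∈ T, 1 ≤ m) →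
    K a (Multiset.replicate T.card (Kind.free 1) + S) → K a (T.map Kind.free + S)
  count : ∀ a l, 1 ≤ a l → 1 ≤ F l a → R a = R (dn l a) + F l a
  step : ∀ a l, 1 ≤ a l → ∀ μ, 1 ≤ μ → ∀ S : Multiset (Role Λ),
    (∀ k, Role.stay k ∈ S → k.NotAt l) → F l a ≤ (S.map fun r => ell 1 r.layer).sum →
    K (dn l a) (S.map (Role.after l μ)) → K a (S.map (Role.before l μ))
  bridge : ∀ a l, 1 ≤ a l → ∀ (S : Multiset (Kind Λ)) (s : ℕ),
    K a (S + Multiset.replicate s (Kind.free 1)) → K (dn l a) (S.map (Kind.dn l)) →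
    K a (S + Multiset.replicate s (Kind.forced l 1 1))
  base : K 0 {Kind.free 1}
  base_R : R 0 = 1

end Pool.Agent.H18.Cub

end

section

/-!
# Module Sched: the schedule (abstract version)

Always peel a direction with maximal `a l`, until all `a l ≤ T'`; then clean.
-/

namespace Pool.Agent.H18.Cub

open Finset Pool.Agent.H18.Ex

variable {Λ : Type} [Fintype Λ] [DecidableEq Λ]

/-- The states between `min N t` and `N`. -/
def Reg (N : Λ → ℕ) (t : ℕ) (a : Λ → ℕ) : Prop := ∀ i, min (N i) t ≤ a i ∧ a i ≤ N i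

omit [DecidableEq Λ] in
theorem Reg.le {N : Λ → ℕ} {t : ℕ} {a : Λ → ℕ} (h : Reg N t a) (i : Λ) : a i ≤ N i := (h i).2

omit [DecidableEq Λ] in
theorem Reg.mono {N : Λ → ℕ} {t t' : ℕ} (ht : t ≤ t') {a : Λ → ℕ} (h : Reg N t' a) :
    Reg N t a := fun i => ⟨(min_le_min le_rfl ht).trans (h i).1, (h i).2⟩

omit [Fintype Λ] in
theorem dn_le (l : Λ) (a : Λ → ℕ) (i : Λ) : dn l a i ≤ a i := by
  unfold dn
  by_cases h : i = l
  · subst h
    rw [Function.update_self]
    omega
  · rw [Function.update_of_ne h]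

omit [Fintype Λ] in
theorem dn_self (l : Λ) (a : Λ → ℕ) : dn l a l = a l - 1 := by
  unfold dn
  rw [Function.update_self]

omit [Fintype Λ] in
theorem dn_ne {l i : Λ} (h : i ≠ l) (a : Λ → ℕ) : dn l a i = a i := by
  unfold dn
  rw [Function.update_of_ne h]

omit [Fintype Λ] in
theorem Reg.dn {N : Λ → ℕ} {t : ℕ} {a : Λ → ℕ} (h : Reg N t a) (l : Λ) (hl : t < a l) :
    Reg N t (dn l a) := by
  intro i
  by_cases hi : i = l
  · subst hi
    rw [dn_self]
    have h1 := (h i).2
    have h2 : min (N i) t ≤ t := min_le_right _ _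
    omega
  · rw [dn_ne hi]
    exact h i

theorem ell_one_left (M : ℕ) : ell 1 M = M := by
  unfold ell
  simp

/-- The used directions. -/
noncomputable def dirsS (N : Λ → ℕ) (T' : ℕ) : List Λ := (univ.filter fun l => T' < N l).toList

omit [DecidableEq Λ] in
theorem mem_dirsS {N : Λ → ℕ} {T' : ℕ} {l : Λ} : l ∈ dirsS N T' ↔ T' < N l := by
  unfold dirsS
  rw [mem_toList, mem_filter]
  exact ⟨fun h => h.2, fun h => ⟨mem_univ _, h⟩⟩

omit [Fintype Λ] in
theorem count_clean (M : ℕ) (dirs : List Λ) (hnd : dirs.Nodup) (l : Λ) :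
    (clean M dirs).count l = if l ∈ dirs then M + 1 else 0 := by
  unfold clean
  induction dirs with
  | nil => simp
  | cons d ds ih =>
    rw [List.flatMap_cons, List.count_append, ih (List.nodup_cons.1 hnd).2, List.count_replicate]
    have h1 := (List.nodup_cons.1 hnd).1
    by_cases h : l = d
    · subst h
      rw [if_neg h1, if_pos List.mem_cons_self]
      simp
    · have h2 : (d == l) = false := by simpa using fun h' => h h'.symm
      rw [h2]
      simp [h]

omit [Fintype Λ] [DecidableEq Λ] in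
theorem length_clean (M : ℕ) (dirs : List Λ) : (clean M dirs).length = dirs.length * (M + 1) := by
  unfold clean
  induction dirs with
  | nil => simp
  | cons d ds ih =>
    rw [List.flatMap_cons, List.length_append, ih, List.length_replicate, List.length_cons]
    ring

omit [Fintype Λ] [DecidableEq Λ] in
theorem mem_clean {M : ℕ} {dirs : List Λ} {l : Λ} (h : l ∈ clean M dirs) : l ∈ dirs := by
  unfold clean at h
  rw [List.mem_flatMap] at h
  obtain ⟨d, hd, h1⟩ := h
  rw [List.eq_of_mem_replicate h1]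
  exact hd

end Pool.Agent.H18.Cub

end
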