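import Pool.Agent.H94.LP4.H18.Ex.Defs

/-! The parts of this file: H18.Ex.Dif, H18.Ex.Dif_2, H18.FatLin, H18.Ex.Gen. -/

section

/-!
# Module Dif: the differential lemma

`F` is a form with coefficients in `ℂ[t]` vanishing to order `μ` at the moving point
`(q, x_l = t)`.  Write `S s n b = ∑_{a ∈ A, a l = s} coeff_n (F a) * ∏_{i ≠ l} binom(a i, b i)
q_i^(a i - b i)` (with `b l = 0`); this is `∑_{a ∈ A} coeff_n (F a) * tcr (update q l 0) a (b + s e_l)`.
Taking the coefficient of `t^n` of the condition with index `b + β e_l` gives, for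
`|b| + β < μ` and all `n`,

  `E β n b := ∑_{i ≤ n} binom(β + i, β) * S (β + i) (n - i) b = 0`.

Identity (for any function `S`): `∑_{β ≤ j} (-1)^β E β (j - β) b = S 0 j b`, because the coefficient
of `S s (j - s) b` is `∑_{β ≤ s} (-1)^β binom(s, β) = 0` for `s > 0`.
-/

namespace Pool.Agent.H18.Ex

open Finset

variable {ι : Type} [Fintype ι] [DecidableEq ι]

/-- The alternating identity: `∑_{β ≤ j} (-1)^β ∑_{i ≤ j - β} binom(β+i, β) S (β+i) (j-β-i) = S 0 j`. -/
theorem alt_identity (S : ℕ → ℕ → ℂ) (j : ℕ) :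
    ∑ β ∈ range (j + 1), (-1 : ℂ) ^ β * ∑ i ∈ range (j - β + 1),
      ((β + i).choose β : ℂ) * S (β + i) (j - β - i) = S 0 j := by
  have h1 : ∀ β ∈ range (j + 1), (-1 : ℂ) ^ β * ∑ i ∈ range (j - β + 1),
      ((β + i).choose β : ℂ) * S (β + i) (j - β - i) =
      ∑ s ∈ Ico β (j + 1), (-1 : ℂ) ^ β * ((s.choose β : ℂ) * S s (j - s)) := by
    intro β hβ
    rw [mem_range] at hβ
    rw [sum_Ico_eq_sum_range, mul_sum]
    have h2 : j - β + 1 = j + 1 - β := by omega
    rw [h2]
    refine sum_congr rfl fun i hi => ?_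
    rw [Nat.sub_sub]
  rw [sum_congr rfl h1]
  rw [sum_comm' (t' := range (j + 1)) (s' := fun s => range (s + 1))]
  · have h3 : ∀ s ∈ range (j + 1), ∑ β ∈ range (s + 1),
        (-1 : ℂ) ^ β * ((s.choose β : ℂ) * S s (j - s)) = if s = 0 then S 0 j else 0 := by
      intro s _
      have h4 := Int.alternating_sum_range_choose (n := s)
      have h5 : ∑ β ∈ range (s + 1), (-1 : ℂ) ^ β * (s.choose β : ℂ) =
          ((∑ m ∈ range (s + 1), (-1 : ℤ) ^ m * (s.choose m : ℤ) : ℤ) : ℂ) := by
        push_cast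
        rfl
      have h6 : ∑ β ∈ range (s + 1), (-1 : ℂ) ^ β * ((s.choose β : ℂ) * S s (j - s)) =
          (∑ β ∈ range (s + 1), (-1 : ℂ) ^ β * (s.choose β : ℂ)) * S s (j - s) := by
        rw [sum_mul]
        exact sum_congr rfl fun β _ => by ring
      rw [h6, h5, h4]
      split_ifs with hs
      · subst hs
        simp
      · simp
    rw [sum_congr rfl h3, sum_ite_eq' (range (j + 1)) 0 fun _ => S 0 j]
    simp
  · intro β s
    simp only [mem_range, mem_Ico]
    omega

/-- The moving point `(q, x_l = t)`. -/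
noncomputable def movPt (l : ι) (q : ι → ℂ) : ι → Polynomial ℂ :=
  fun i => if i = l then Polynomial.X else Polynomial.C (q i)

/-- The part of a Taylor coefficient away from the coordinate `l`. -/
noncomputable def difP (l : ι) (q : ι → ℂ) (a b : ι → ℕ) : ℂ :=
  ∏ i ∈ univ.erase l, (((a i).choose (b i) : ℕ) : ℂ) * q i ^ (a i - b i)

/-- The sums `S s n b`. -/
noncomputable def difS (A : Finset (ι → ℕ)) (l : ι) (F : (ι → ℕ) → Polynomial ℂ) (q : ι → ℂ)
    (b : ι → ℕ) (s n : ℕ) : ℂ :=
  ∑ a ∈ A.filter (fun a => a l = s), (F a).coeff n * difP l q a b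

lemma difP_update (l : ι) (q : ι → ℂ) (a b : ι → ℕ) (β : ℕ) :
    difP l q a (Function.update b l β) = difP l q a b := by
  unfold difP
  refine prod_congr rfl fun i hi => ?_
  rw [Function.update_of_ne (ne_of_mem_erase hi)]

lemma difS_update (A : Finset (ι → ℕ)) (l : ι) (F : (ι → ℕ) → Polynomial ℂ) (q : ι → ℂ)
    (b : ι → ℕ) (β s n : ℕ) : difS A l F q (Function.update b l β) s n = difS A l F q b s n := by
  unfold difS
  exact sum_congr rfl fun a _ => by rw [difP_update]

lemma sum_update_eq (b : ι → ℕ) (l : ι) (β : ℕ) :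
    ∑ i, Function.update b l β i + b l = ∑ i, b i + β := by
  rw [← add_sum_erase univ _ (mem_univ l), ← add_sum_erase univ b (mem_univ l),
    Function.update_self]
  have h1 : ∑ i ∈ univ.erase l, Function.update b l β i = ∑ i ∈ univ.erase l, b i :=
    sum_congr rfl fun i hi => by rw [Function.update_of_ne (ne_of_mem_erase hi)]
  rw [h1]
  ring

end Pool.Agent.H18.Ex

end

section

/-!
# Module Dif: the differential lemma

`F` is a form with coefficients in `ℂ[t]` vanishing to order `μ` at the moving point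
`(q, x_l = t)`.  Write `S s n b = ∑_{a ∈ A, a l = s} coeff_n (F a) * ∏_{i ≠ l} binom(a i, b i)
q_i^(a i - b i)` (with `b l = 0`); this is `∑_{a ∈ A} coeff_n (F a) * tcr (update q l 0) a (b + s e_l)`.
Taking the coefficient of `t^n` of the condition with index `b + β e_l` gives, for
`|b| + β < μ` and all `n`,

  `E β n b := ∑_{i ≤ n} binom(β + i, β) * S (β + i) (n - i) b = 0`.

Identity (for any function `S`): `∑_{β ≤ j} (-1)^β E β (j - β) b = S 0 j b`, because the coefficient
of `S s (j - s) b` is `∑_{β ≤ s} (-1)^β binom(s, β) = 0` for `s > 0`.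
-/

namespace Pool.Agent.H18.Ex

open Finset

variable {ι : Type} [Fintype ι] [DecidableEq ι]

lemma tcr_movPt (l : ι) (q : ι → ℂ) (a b : ι → ℕ) : tcr (movPt l q) a b =
    Polynomial.C (difP l q a b * ((a l).choose (b l) : ℂ)) * Polynomial.X ^ (a l - b l) := by
  unfold tcr difP
  rw [← mul_prod_erase univ _ (mem_univ l)]
  have h1 : movPt l q l = Polynomial.X := by simp [movPt]
  have h2 : ∏ i ∈ univ.erase l, (((a i).choose (b i) : ℕ) : Polynomial ℂ) *
      movPt l q i ^ (a i - b i) = Polynomial.C (∏ i ∈ univ.erase l,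
        (((a i).choose (b i) : ℕ) : ℂ) * q i ^ (a i - b i)) := by
    rw [map_prod]
    refine prod_congr rfl fun i hi => ?_
    have h3 : movPt l q i = Polynomial.C (q i) := by simp [movPt, ne_of_mem_erase hi]
    rw [h3, map_mul, map_pow, map_natCast]
  rw [h1, h2, map_mul, map_natCast]
  ring

/-- The conditions `E β n b = 0`. -/
lemma dif_key {A : Finset (ι → ℕ)} {l : ι} {μ : ℕ} {F : (ι → ℕ) → Polynomial ℂ} {q : ι → ℂ}
    (h : Sat A F (Kind.free μ) (movPt l q)) {b : ι → ℕ} (hb : ∑ i, b i < μ) (n : ℕ) :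
    ∑ i ∈ range (n + 1), ((b l + i).choose (b l) : ℂ) * difS A l F q b (b l + i) (n - i) = 0 := by
  have h1 := congrArg (fun p : Polynomial ℂ => p.coeff n) (h b hb)
  simp only [Kind.pt, Polynomial.finsetSum_coeff, Polynomial.coeff_zero, tcr_movPt] at h1
  rw [← h1]
  unfold difS
  simp only [mul_sum, sum_filter]
  rw [sum_comm]
  refine sum_congr rfl fun a _ => ?_
  have h2 : F a * (Polynomial.C (difP l q a b * ((a l).choose (b l) : ℂ)) *
      Polynomial.X ^ (a l - b l)) = Polynomial.C (difP l q a b * ((a l).choose (b l) : ℂ)) *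
        (F a * Polynomial.X ^ (a l - b l)) := by ring
  rw [h2, Polynomial.coeff_C_mul, Polynomial.coeff_mul_X_pow']
  by_cases h3 : b l ≤ a l
  · by_cases h4 : a l - b l ≤ n
    · rw [if_pos h4, sum_eq_single (a l - b l)]
      · have h5 : b l + (a l - b l) = a l := by omega
        rw [h5, if_pos rfl]
        ring
      · intro i _ hi
        rw [if_neg (by omega), mul_zero]
      · intro h5
        exact absurd (mem_range.mpr (by omega)) h5
    · rw [if_neg h4, mul_zero]
      refine sum_eq_zero fun i hi => ?_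
      rw [mem_range] at hi
      rw [if_neg (by omega), mul_zero]
  · rw [Nat.choose_eq_zero_of_lt (by omega), Nat.cast_zero, mul_zero, zero_mul]
    refine sum_eq_zero fun i _ => ?_
    rw [if_neg (by omega), mul_zero]

/-- The conditions `E β n b = 0`, where the entry of `b` at `l` is ignored. -/
lemma dif_key' {A : Finset (ι → ℕ)} {l : ι} {μ : ℕ} {F : (ι → ℕ) → Polynomial ℂ} {q : ι → ℂ}
    (h : Sat A F (Kind.free μ) (movPt l q)) {b : ι → ℕ} {β : ℕ} (hb : ∑ i, b i + β < μ + b l)
    (n : ℕ) :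
    ∑ i ∈ range (n + 1), ((β + i).choose β : ℂ) * difS A l F q b (β + i) (n - i) = 0 := by
  have h1 := dif_key h (b := Function.update b l β) (by
    have := sum_update_eq b l β
    omega) n
  simpa only [Function.update_self, difS_update] using h1

/-- (D1) For `j < μ` the `j`-th coefficient satisfies the simple condition at `q` on the layer.
Proof: `S 0 j 0 = ∑_{β ≤ j} (-1)^β E β (j - β) 0 = 0`, all indices `β ≤ j < μ` being allowed. -/
theorem dif_layer (A : Finset (ι → ℕ)) (l : ι) (μ : ℕ) (F : (ι → ℕ) → Polynomial ℂ) (q : ι → ℂ)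
    (h : Sat A F (Kind.free μ) (movPt l q)) (j : ℕ) (hj : j < μ) :
    Sat (A.filter fun a => a l = 0) (fun a => (F a).coeff j) (Kind.free 1) q := by
  intro b hb
  have hb0 : ∀ i, b i = 0 := by
    intro i
    have h1 : b i ≤ ∑ i, b i := single_le_sum (f := b) (fun _ _ => Nat.zero_le _) (mem_univ i)
    have h2 : ∑ i, b i < 1 := hb
    omega
  have h1 : ∑ a ∈ A.filter (fun a => a l = 0), (F a).coeff j * tcr q a b =
      difS A l F q b 0 j := by
    unfold difS
    refine sum_congr rfl fun a ha => ?_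
    have ha0 := (mem_filter.mp ha).2
    congr 1
    unfold tcr difP
    rw [← mul_prod_erase univ _ (mem_univ l), ha0, hb0 l]
    simp
  have h2 : (∑ a ∈ A.filter (fun a => a l = 0), (fun a => (F a).coeff j) a *
      tcr ((Kind.free 1 : Kind ι).pt q) a b) = difS A l F q b 0 j := h1
  rw [h2, ← alt_identity (difS A l F q b) j]
  refine sum_eq_zero fun β hβ => ?_
  rw [mem_range] at hβ
  rw [dif_key' h (b := b) (β := β) (by
    have h3 : ∑ i, b i = 0 := sum_eq_zero fun i _ => hb0 i
    have h4 := hb0 l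
    omega) (j - β), mul_zero]

end Pool.Agent.H18.Ex

end

section

namespace Pool.Agent.H18.Fat

open MvPolynomial Finset

section

variable {ι : Type*} [Fintype ι]

end

/-- Injectivity of a matrix with polynomial entries is an open condition. -/
theorem exists_poly_injective {σ R K : Type*} [Fintype R] [Fintype K]
    (N : Matrix R K (MvPolynomial σ ℂ)) (a₀ : σ → ℂ)
    (h : LinearMap.ker (N.map (eval a₀)).mulVecLin = ⊥) :
    ∃ G : MvPolynomial σ ℂ, eval a₀ G ≠ 0 ∧
      ∀ a, eval a G ≠ 0 → LinearMap.ker (N.map (eval a)).mulVecLin = ⊥ := by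
  classical
  obtain ⟨g, hg⟩ := LinearMap.exists_leftInverse_of_injective _ h
  obtain ⟨B, hBg⟩ : ∃ B : Matrix K R ℂ, Matrix.toLin' B = g := ⟨LinearMap.toMatrix' g, by simp⟩
  have hB : B * (N.map (eval a₀)) = 1 := by
    apply Matrix.toLin'.injective
    rw [Matrix.toLin'_mul, hBg, Matrix.toLin'_one]
    exact hg
  have hB' : ∀ a : σ → ℂ, (B.map (C : ℂ → MvPolynomial σ ℂ)).map (eval a) = B := by
    intro a
    ext i j
    simp
  let D : Matrix K K (MvPolynomial σ ℂ) := (B.map (C : ℂ → MvPolynomial σ ℂ)) * N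
  have hD : ∀ a : σ → ℂ, eval a D.det = (B * (N.map (eval a))).det := by
    intro a
    rw [RingHom.map_det, RingHom.mapMatrix_apply]
    congr 1
    change ((B.map (C : ℂ → MvPolynomial σ ℂ)) * N).map (eval a) = _
    rw [Matrix.map_mul, hB']
  refine ⟨D.det, ?_, ?_⟩
  · rw [hD, hB, Matrix.det_one]
    exact one_ne_zero
  · intro a ha
    rw [hD] at ha
    have hunit : IsUnit (B * (N.map (eval a))) := by
      rw [Matrix.isUnit_iff_isUnit_det]
      exact isUnit_iff_ne_zero.2 ha
    rw [LinearMap.ker_eq_bot']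
    intro f hf
    rw [Matrix.mulVecLin_apply] at hf
    obtain ⟨E, hE⟩ := isUnit_iff_exists_inv'.1 hunit
    have h11 : (E * (B * N.map (eval a))).mulVec f = 0 := by
      rw [← Matrix.mulVec_mulVec, ← Matrix.mulVec_mulVec, hf, Matrix.mulVec_zero,
        Matrix.mulVec_zero]
    rwa [hE, Matrix.one_mulVec] at h11

end Pool.Agent.H18.Fat

end

section

/-!
# Module Gen: injectivity is an open condition on the positions
-/

namespace Pool.Agent.H18.Ex

open Finset

variable {ι : Type} [Fintype ι] [DecidableEq ι]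

/-- A bound for the multi-indices of a condition. -/
def Kind.bd (k : Kind ι) : ℕ :=
  match k with
  | .free m => m
  | .forced _ c _ => c

omit [DecidableEq ι] in
theorem Kind.Idx.lt {k : Kind ι} {b : ι → ℕ} (h : k.Idx b) (i : ι) : b i < k.bd := by
  have hle : b i ≤ ∑ j, b j := single_le_sum (fun j _ => Nat.zero_le (b j)) (mem_univ i)
  cases k with
  | free m => exact lt_of_le_of_lt hle h
  | forced l c e => exact lt_of_le_of_lt hle h.1

open Classical in
/-- The finite set of the multi-indices of a condition. -/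
noncomputable def Kind.idxs (k : Kind ι) : Finset (ι → ℕ) :=
  (Fintype.piFinset fun _ => range k.bd).filter fun b => k.Idx b

open Classical in
theorem Kind.mem_idxs {k : Kind ι} {b : ι → ℕ} : b ∈ k.idxs ↔ k.Idx b := by
  unfold Kind.idxs
  rw [mem_filter, Fintype.mem_piFinset]
  constructor
  · exact fun h => h.2
  · exact fun h => ⟨fun i => mem_range.2 (h.lt i), h⟩

/-- The matrix of the conditions. -/
noncomputable def cmat {R : Type} [CommRing R] {κ : Type} (A : Finset (ι → ℕ)) (k : κ → Kind ι)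
    (pos : κ → ι → R) : Matrix (Σ i : κ, {b // b ∈ (k i).idxs}) A R :=
  fun x a => tcr ((k x.1).pt (pos x.1)) a.1 x.2.1

theorem ker_cmat {κ : Type} (A : Finset (ι → ℕ)) (k : κ → Kind ι) (pos : κ → ι → ℂ) :
    LinearMap.ker (cmat A k pos).mulVecLin = ⊥ ↔ InjAt A k pos := by
  classical
  rw [LinearMap.ker_eq_bot']
  constructor
  · intro h f hf a ha
    have h1 := h (fun a : A => f a.1) ?_
    · exact congrFun h1 ⟨a, ha⟩
    · rw [Matrix.mulVecLin_apply]
      funext x
      have h2 := hf x.1 x.2.1 (Kind.mem_idxs.1 x.2.2)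
      rw [← sum_coe_sort A (fun a => f a * tcr ((k x.1).pt (pos x.1)) a x.2.1)] at h2
      show ∑ a : A, tcr ((k x.1).pt (pos x.1)) a.1 x.2.1 * f a.1 = 0
      rw [← h2]
      exact sum_congr rfl fun a _ => mul_comm _ _
  · intro h f hf
    rw [Matrix.mulVecLin_apply] at hf
    have h1 := h (fun a => if ha : a ∈ A then f ⟨a, ha⟩ else 0) ?_
    · funext a
      have h2 := h1 a.1 a.2
      rw [dif_pos a.2] at h2
      exact h2
    · intro i b hb
      have h2 := congrFun hf ⟨i, b, Kind.mem_idxs.2 hb⟩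
      rw [← sum_coe_sort A]
      have h3 : ∑ a : A, tcr ((k i).pt (pos i)) a.1 b * f a = 0 := h2
      refine Eq.trans (sum_congr rfl fun a _ => ?_) h3
      beta_reduce
      rw [dif_pos a.2]
      exact mul_comm _ _

omit [DecidableEq ι] in
theorem tcr_map {R S : Type} [CommRing R] [CommRing S] (φ : R →+* S) (q : ι → R) (a b : ι → ℕ) :
    φ (tcr q a b) = tcr (fun i => φ (q i)) a b := by
  unfold tcr
  rw [map_prod]
  refine prod_congr rfl fun i _ => ?_
  rw [map_mul, map_natCast, map_pow]

omit [Fintype ι] in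
theorem pt_map {R S : Type} [CommRing R] [CommRing S] (φ : R →+* S) (k : Kind ι) (q : ι → R) :
    (fun i => φ (k.pt q i)) = k.pt fun i => φ (q i) := by
  cases k with
  | free m => rfl
  | forced l c e =>
    funext i
    show φ (Function.update q l 0 i) = Function.update (fun i => φ (q i)) l 0 i
    by_cases hi : i = l
    · subst hi
      rw [Function.update_self, Function.update_self, map_zero]
    · rw [Function.update_of_ne hi, Function.update_of_ne hi]

/-- The general matrix. -/
noncomputable def gmat {κ : Type} (A : Finset (ι → ℕ)) (k : κ → Kind ι) :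
    Matrix (Σ i : κ, {b // b ∈ (k i).idxs}) A (MvPolynomial (κ × ι) ℂ) :=
  cmat A k fun i j => MvPolynomial.X (i, j)

theorem gmat_map {κ : Type} (A : Finset (ι → ℕ)) (k : κ → Kind ι) (x : κ × ι → ℂ) :
    (gmat A k).map (MvPolynomial.eval x) = cmat A k fun i j => x (i, j) := by
  ext r a
  show MvPolynomial.eval x (tcr ((k r.1).pt fun j => MvPolynomial.X (r.1, j)) a.1 r.2.1) =
    tcr ((k r.1).pt fun j => x (r.1, j)) a.1 r.2.1
  rw [tcr_map, pt_map]
  simp only [MvPolynomial.eval_X]

/-- Openness.  Proof: for every `i : κ` the multi-indices `b` with `(k i).Idx b` form a finite set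
(`∑ b < m`), so `InjAt A k pos` says that the kernel of the finite matrix with rows
`(i, b)`, columns `a ∈ A` and entries `tcr ((k i).pt (pos i)) a b` is trivial.  The entries are
the values at `pos` of the polynomials
`∏ j, C ((a j).choose (b j)) * Y j ^ (a j - b j)`, where `Y j = X (i, j)`, except `Y l = 0` when
`k i = forced l _ _`.  Apply `Pool.Agent.H18.Fat.exists_poly_injective` (file `FatLin`). -/
theorem GI.general {κ : Type} [Fintype κ] {A : Finset (ι → ℕ)} {k : κ → Kind ι} (h : GI A k) :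
    ∃ G : MvPolynomial (κ × ι) ℂ, G ≠ 0 ∧
      ∀ pos : κ → ι → ℂ, MvPolynomial.eval (fun x => pos x.1 x.2) G ≠ 0 → InjAt A k pos := by
  obtain ⟨pos₀, h₀⟩ := h
  have h1 : LinearMap.ker
      ((gmat A k).map (MvPolynomial.eval fun x : κ × ι => pos₀ x.1 x.2)).mulVecLin = ⊥ := by
    rw [gmat_map, ker_cmat]
    exact h₀
  obtain ⟨G, hG, hG'⟩ := Pool.Agent.H18.Fat.exists_poly_injective _ _ h1
  refine ⟨G, ?_, ?_⟩
  · rintro rfl
    exact hG (map_zero _)
  · intro pos hpos
    have h2 := hG' _ hpos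
    rw [gmat_map, ker_cmat] at h2
    exact h2

/-- Two open conditions can be satisfied at the same time, with all coordinates nonzero.
Proof: multiply the two polynomials of `GI.general` and `∏ x, X x`; a nonzero polynomial over the
infinite field `ℂ` has a non-root (`MvPolynomial.funext`). -/
theorem GI.exists_common {κ : Type} [Fintype κ] {A A' : Finset (ι → ℕ)} {k k' : κ → Kind ι}
    (h : GI A k) (h' : GI A' k') :
    ∃ pos : κ → ι → ℂ, InjAt A k pos ∧ InjAt A' k' pos ∧ ∀ i j, pos i j ≠ 0 := by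
  obtain ⟨G, hG, hG'⟩ := h.general
  obtain ⟨H, hH, hH'⟩ := h'.general
  have hX : (∏ x : κ × ι, (MvPolynomial.X x : MvPolynomial (κ × ι) ℂ)) ≠ 0 :=
    prod_ne_zero_iff.2 fun x _ => MvPolynomial.X_ne_zero x
  have hne : G * H * ∏ x : κ × ι, (MvPolynomial.X x : MvPolynomial (κ × ι) ℂ) ≠ 0 :=
    mul_ne_zero (mul_ne_zero hG hH) hX
  obtain ⟨x, hx⟩ : ∃ x : κ × ι → ℂ, MvPolynomial.eval x
      (G * H * ∏ x : κ × ι, (MvPolynomial.X x : MvPolynomial (κ × ι) ℂ)) ≠ 0 := by
    by_contra hcon
    push Not at hcon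
    exact hne (MvPolynomial.funext fun x => by rw [hcon x, map_zero])
  rw [map_mul, map_mul] at hx
  have h1 := left_ne_zero_of_mul (left_ne_zero_of_mul hx)
  have h2 := right_ne_zero_of_mul (left_ne_zero_of_mul hx)
  have h3 := right_ne_zero_of_mul hx
  rw [map_prod] at h3
  refine ⟨fun i j => x (i, j), hG' _ h1, hH' _ h2, fun i j => ?_⟩
  have h4 := prod_ne_zero_iff.1 h3 (i, j) (mem_univ _)
  rw [MvPolynomial.eval_X] at h4
  exact h4

end Pool.Agent.H18.Ex

end
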