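import Pool.Agent.H94.LP4.H18.Cub.TayP
import Pool.Agent.H94.LP4.M05
import Pool.Agent.H94.LP4.M10
import Pool.Agent.H94.LP4.M14

/-! The parts of this file: H18.Ex.Multi, H18.Cub.MultiP, H18.Pr.Defs_1, H18.Ua.UMul. -/

section

/-!
# Module Multi: the geometric lemmas for multisets of conditions

Useful: `Fin.univ_val_map`, `List.ofFn_get`, `Equiv.ofFiberEquiv`, `Multiset.count_map`,
`Multiset.map_univ_val_equiv`.
-/

namespace Pool.Agent.H18.Ex

open Finset

variable {ι : Type} [Fintype ι] [DecidableEq ι]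

/-- Two families with the same multiset of values differ by a bijection of the index types
(`Equiv.ofFiberEquiv`, the fibres have the same cardinality by `Multiset.count_map`). -/
theorem exists_equiv_of_map_eq {κ κ' X : Type} [Fintype κ] [Fintype κ'] (k : κ → X) (k' : κ' → X)
    (h : (univ : Finset κ).val.map k = (univ : Finset κ').val.map k') :
    ∃ e : κ ≃ κ', ∀ i, k i = k' (e i) := by
  classical
  have hc : ∀ x : X, Nonempty ({a // k a = x} ≃ {b // k' b = x}) := by
    intro x
    rw [← Fintype.card_eq, Fintype.card_subtype, Fintype.card_subtype]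
    have h1 := congrArg (Multiset.count x) h
    rw [Multiset.count_map, Multiset.count_map] at h1
    rw [Finset.card_def, Finset.card_def, Finset.filter_val, Finset.filter_val]
    simpa only [eq_comm] using h1
  refine ⟨Equiv.ofFiberEquiv fun x => (hc x).some, fun i => ?_⟩
  exact (Equiv.ofFiberEquiv_map (fun x => (hc x).some) i).symm

theorem GI.of_comp {κ κ' : Type} {A : Finset (ι → ℕ)} {k' : κ' → Kind ι} (e : κ → κ')
    (he : Function.Injective e) (h : GI A fun i => k' (e i)) : GI A k' := by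
  classical
  obtain ⟨pos, hpos⟩ := h
  refine ⟨fun j => if hj : ∃ i, e i = j then pos hj.choose else fun _ => 0, fun f hf => ?_⟩
  refine hpos f fun i => ?_
  have h1 := hf (e i)
  have h2 : ∃ i', e i' = e i := ⟨i, rfl⟩
  have h3 : h2.choose = i := he h2.choose_spec
  have h4 : (fun j => if hj : ∃ i, e i = j then pos hj.choose else fun _ => 0) (e i) = pos i := by
    show (if hj : ∃ i', e i' = e i then pos hj.choose else fun _ => 0) = pos i
    rw [dif_pos h2, h3]
  rw [h4] at h1
  exact h1

/-- `GM` does not depend on the presentation of the multiset. -/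
theorem GM_iff {κ : Type} [Fintype κ] (A : Finset (ι → ℕ)) (k : κ → Kind ι) :
    GM A ((univ : Finset κ).val.map k) ↔ GI A k := by
  constructor
  · rintro ⟨n, k0, hk0, hG⟩
    obtain ⟨e, he⟩ := exists_equiv_of_map_eq k0 k hk0
    refine GI.of_comp e e.injective ?_
    have : (fun i => k (e i)) = k0 := funext fun i => (he i).symm
    rw [this]
    exact hG
  · intro hG
    refine ⟨Fintype.card κ, fun i => k ((Fintype.equivFin κ).symm i), ?_, ?_⟩
    · have h1 := Multiset.map_univ_val_equiv (Fintype.equivFin κ).symm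
      rw [← h1, Multiset.map_map]
      rfl
    · refine GI.of_comp (Fintype.equivFin κ) (Fintype.equivFin κ).injective ?_
      simpa using hG

theorem multi_exists_fin {X : Type} (T : Multiset X) :
    ∃ (m : ℕ) (t : Fin m → X), (univ : Finset (Fin m)).val.map t = T := by
  induction T using Quotient.inductionOn with
  | h L =>
    refine ⟨L.length, L.get, ?_⟩
    rw [Fin.univ_val_map, List.ofFn_get]
    rfl

theorem multi_map_sum {κ κ' X : Type} [Fintype κ] [Fintype κ'] (k : κ → X) (k' : κ' → X) :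
    (univ : Finset (κ ⊕ κ')).val.map (Sum.elim k k')
      = (univ : Finset κ).val.map k + (univ : Finset κ').val.map k' := by
  rw [← Finset.univ_disjSum_univ, Finset.val_disjSum, Multiset.disjSum, Multiset.map_add,
    Multiset.map_map, Multiset.map_map]
  rfl

theorem GM.mono {A : Finset (ι → ℕ)} {S S' : Multiset (Kind ι)} (h : S ≤ S') (hS : GM A S) :
    GM A S' := by
  obtain ⟨T, rfl⟩ := Multiset.le_iff_exists_add.1 h
  obtain ⟨n, k, rfl, hG⟩ := hS
  obtain ⟨m, t, rfl⟩ := multi_exists_fin T
  rw [← multi_map_sum, GM_iff]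
  exact GI.of_comp Sum.inl Sum.inl_injective hG

theorem GM.of_card (A : Finset (ι → ℕ)) (T : Multiset ℕ) (S : Multiset (Kind ι))
    (hT : ∀ m ∈ T, 1 ≤ m) (h : A.card ≤ T.card) : GM A (T.map Kind.free + S) := by
  refine GM.mono (Multiset.le_add_right _ _) ?_
  obtain ⟨m, t, rfl⟩ := multi_exists_fin T
  rw [Multiset.map_map, GM_iff]
  rw [Multiset.card_map, Finset.card_val, Finset.card_univ, Fintype.card_fin] at h
  refine GI.of_card A _ (Fin.castLEEmb h) fun j => ⟨t (Fin.castLEEmb h j), hT _ ?_, rfl⟩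
  exact Multiset.mem_map.2 ⟨_, (by rw [Finset.mem_val]; exact Finset.mem_univ _), rfl⟩

theorem GM.step (A A' : Finset (ι → ℕ)) (l : ι)
    (hA : ∀ a, a ∈ A' ↔ Function.update a l (a l + 1) ∈ A) (μ : ℕ) (hμ : 1 ≤ μ)
    (S : Multiset (Role ι)) (hS : ∀ k, Role.stay k ∈ S → k.NotAt l)
    (h0 : GM (A.filter fun a => a l = 0) (S.map fun r => Kind.free r.layer))
    (h1 : GM A' (S.map (Role.after l μ))) : GM A (S.map (Role.before l μ)) := by
  obtain ⟨m, ρ, rfl⟩ := multi_exists_fin S
  rw [Multiset.map_map, GM_iff] at h0 h1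
  rw [Multiset.map_map, GM_iff]
  refine Pool.Agent.H18.Ex.step A A' l hA μ hμ ρ (fun i k hik => ?_) h0 h1
  exact hS k (Multiset.mem_map.2 ⟨i, (by rw [Finset.mem_val]; exact Finset.mem_univ _), hik⟩)

theorem GM.bridge (A A' : Finset (ι → ℕ)) (l : ι)
    (hA : ∀ a, a ∈ A' ↔ Function.update a l (a l + 1) ∈ A) (S : Multiset (Kind ι)) (s : ℕ)
    (h1 : GM A (S + Multiset.replicate s (Kind.free 1)))
    (h2 : GM A' (S.map (Kind.dn l))) :
    GM A (S + Multiset.replicate s (Kind.forced l 1 1)) := by
  obtain ⟨m, k, rfl⟩ := multi_exists_fin S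
  have hr : ∀ x : Kind ι, Multiset.replicate s x
      = (univ : Finset (Fin s)).val.map (fun _ => x) := by
    intro x
    rw [Multiset.map_const', Finset.card_val, Finset.card_univ, Fintype.card_fin]
  rw [hr, ← multi_map_sum, GM_iff] at h1
  rw [hr, ← multi_map_sum, GM_iff]
  rw [Multiset.map_map, GM_iff] at h2
  exact Pool.Agent.H18.Ex.bridge A A' l hA k s h1 h2

end Pool.Agent.H18.Ex

end

section

/-!
# Module MultiP: the geometric lemmas for multisets of conditions
-/

namespace Pool.Agent.H18.Cub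

open Finset Pool.Agent.H18.Ex

variable {ι Λ : Type} [Fintype ι] [DecidableEq ι]

theorem GIP.of_comp {κ κ' : Type} {g : Lines Λ ι} {W : Submodule ℂ (MvPolynomial ι ℂ)}
    {k' : κ' → Kind Λ} (e : κ → κ') (he : Function.Injective e)
    (h : GIP g W fun i => k' (e i)) : GIP g W k' := by
  classical
  obtain ⟨pos, hpos⟩ := h
  refine ⟨fun j => if hj : ∃ i, e i = j then pos hj.choose else fun _ => 0, fun F hF hf => ?_⟩
  refine hpos F hF fun i => ?_
  have h1 := hf (e i)
  have h2 : ∃ i', e i' = e i := ⟨i, rfl⟩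
  have h3 : h2.choose = i := he h2.choose_spec
  have h4 : (fun j => if hj : ∃ i, e i = j then pos hj.choose else fun _ => 0) (e i) = pos i := by
    show (if hj : ∃ i', e i' = e i then pos hj.choose else fun _ => 0) = pos i
    rw [dif_pos h2, h3]
  rw [h4] at h1
  exact h1

/-- `GMP` does not depend on the presentation of the multiset. -/
theorem GMP_iff {κ : Type} [Fintype κ] (g : Lines Λ ι) (W : Submodule ℂ (MvPolynomial ι ℂ))
    (k : κ → Kind Λ) : GMP g W ((univ : Finset κ).val.map k) ↔ GIP g W k := by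
  constructor
  · rintro ⟨n, k0, hk0, hG⟩
    obtain ⟨e, he⟩ := exists_equiv_of_map_eq k0 k hk0
    refine GIP.of_comp e e.injective ?_
    have : (fun i => k (e i)) = k0 := funext fun i => (he i).symm
    rw [this]
    exact hG
  · intro hG
    refine ⟨Fintype.card κ, fun i => k ((Fintype.equivFin κ).symm i), ?_, ?_⟩
    · have h1 := Multiset.map_univ_val_equiv (Fintype.equivFin κ).symm
      rw [← h1, Multiset.map_map]
      rfl
    · refine GIP.of_comp (Fintype.equivFin κ) (Fintype.equivFin κ).injective ?_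
      simpa using hG

theorem GMP.mono {g : Lines Λ ι} {W : Submodule ℂ (MvPolynomial ι ℂ)}
    {S S' : Multiset (Kind Λ)} (h : S ≤ S') (hS : GMP g W S) : GMP g W S' := by
  obtain ⟨T, rfl⟩ := Multiset.le_iff_exists_add.1 h
  obtain ⟨n, k, rfl, hG⟩ := hS
  obtain ⟨m, t, rfl⟩ := multi_exists_fin T
  rw [← multi_map_sum, GMP_iff]
  exact GIP.of_comp Sum.inl Sum.inl_injective hG

/-- A free point of multiplicity at least one imposes the condition of a simple free point. -/
private theorem multiP_sat_free_one {g : Lines Λ ι} {F : MvPolynomial ι ℂ} {m : ℕ} (hm : 1 ≤ m)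
    {q : ι → ℂ} (h : SatP g F (Kind.free m) q) : SatP g F (Kind.free 1) q := by
  intro b hb
  exact h b (lt_of_lt_of_le hb hm)

theorem multiP_replicate {X : Type} (s : ℕ) (x : X) : Multiset.replicate s x
      = (univ : Finset (Fin s)).val.map (fun _ => x) := by
  rw [Multiset.map_const', Finset.card_val, Finset.card_univ, Fintype.card_fin]

/-- Simple free points may be replaced by free points of multiplicity at least one. -/
theorem GMP.free_mono {g : Lines Λ ι} {W : Submodule ℂ (MvPolynomial ι ℂ)}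
    (T : Multiset ℕ) (hT : ∀ m ∈ T, 1 ≤ m) (S : Multiset (Kind Λ))
    (h : GMP g W (Multiset.replicate T.card (Kind.free 1) + S)) :
    GMP g W (T.map Kind.free + S) := by
  obtain ⟨m, t, rfl⟩ := multi_exists_fin T
  obtain ⟨n, k, rfl⟩ := multi_exists_fin S
  have hcard : (Multiset.map t (univ : Finset (Fin m)).val).card = m := by
    rw [Multiset.card_map, Finset.card_val, Finset.card_univ, Fintype.card_fin]
  rw [hcard, multiP_replicate, ← multi_map_sum, GMP_iff] at h
  rw [Multiset.map_map, ← multi_map_sum, GMP_iff]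
  obtain ⟨pos, hpos⟩ := h
  refine ⟨pos, fun F hF hf => hpos F hF fun i => ?_⟩
  have h1 := hf i
  cases i with
  | inl i =>
    exact multiP_sat_free_one
      (hT _ (Multiset.mem_map.2 ⟨i, (by rw [Finset.mem_val]; exact Finset.mem_univ _), rfl⟩)) h1
  | inr i => exact h1

end Pool.Agent.H18.Cub

end

section

/-!
# Project PR: many large multiplicities in `ℙ^(R+1)`

Affine coordinates `x_0, …, x_R`.  The big points lie on the curve `x_{i+1} = x_i ^ e`.  For
`v ≤ u ≤ R` we consider polynomials in `x_v, …, x_u`, the restrictions of the polynomials of degree at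
most `d` to the flat `x_{i+1} = x_i ^ e` (`u ≤ i < R`), `x_{v-1} = const`.  They are spanned by the
monomials of cost at most `d`.  In the coordinates `z_v = x_v - p`, `z_i = x_i - x_{i-1}^e`
(`v < i ≤ u`) the curve is given by `z_i = 0` for `i > v`.
-/

namespace Pool.Agent.H18.Pr

open Finset Pool.Agent.H18.Ex Pool.Agent.H18.Cub

section

variable {R : ℕ}

/-- The variable before `i`. -/
def prv (i : Fin (R + 1)) : Fin (R + 1) := ⟨i.val - 1, by omega⟩

/-- `z_v ↦ x_v - p` and `z_i ↦ x_i - x_{i-1}^e` for `v < i ≤ u`. -/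
noncomputable def Th (e : ℕ) (v u : Fin (R + 1)) (p : ℂ) :
    MvPolynomial (Fin (R + 1)) ℂ →ₐ[ℂ] MvPolynomial (Fin (R + 1)) ℂ :=
  MvPolynomial.aeval fun i =>
    if i = v then MvPolynomial.X i - MvPolynomial.C p
    else if v < i ∧ i ≤ u then MvPolynomial.X i - MvPolynomial.X (prv i) ^ e
    else MvPolynomial.X i

/-- The point with `z_v = x`, the other coordinates being `0`. -/
def ptv (v : Fin (R + 1)) (x : ℂ) : Fin (R + 1) → ℂ := fun i => if i = v then x else 0

/-- The polynomials in `z_v, …, z_u` of cost at most `d` (in the coordinates `x`), vanishing to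
order `m b` at the points `z = (x b, 0, …, 0)`. -/
noncomputable def WW (e : ℕ) (v u : Fin (R + 1)) (p : ℂ) (d : ℕ) {B : Type} (x : B → ℂ)
    (m : B → ℕ) : Submodule ℂ (MvPolynomial (Fin (R + 1)) ℂ) where
  carrier := {F | (∀ i, i < v ∨ u < i → F.degreeOf i = 0) ∧
    (∀ α ∈ (Th e v u p F).support, cost e u α ≤ d) ∧
    ∀ b, ∀ β : Fin (R + 1) → ℕ, ∑ i, β i < m b → tay F (ptv v (x b)) β = 0}
  add_mem' := by
    rintro F G ⟨h1, h2, h3⟩ ⟨h4, h5, h6⟩
    refine ⟨fun i hi => ?_, fun α hα => ?_, fun b β hβ => ?_⟩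
    · have := MvPolynomial.degreeOf_add_le i F G
      rw [h1 i hi, h4 i hi, max_self] at this
      omega
    · rw [map_add] at hα
      rcases mem_union.1 (MvPolynomial.support_add hα) with h | h
      · exact h2 α h
      · exact h5 α h
    · rw [tay_add, h3 b β hβ, h6 b β hβ, add_zero]
  zero_mem' := by
    refine ⟨fun i _ => MvPolynomial.degreeOf_zero i, fun α hα => ?_, fun b β _ => tay_zero _ _⟩
    rw [map_zero, MvPolynomial.support_zero] at hα
    exact absurd hα (notMem_empty _)
  smul_mem' := by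
    rintro c F ⟨h1, h2, h3⟩
    refine ⟨fun i hi => ?_, fun α hα => ?_, fun b β hβ => ?_⟩
    · rw [MvPolynomial.smul_eq_C_mul]
      have := MvPolynomial.degreeOf_C_mul_le F i c
      rw [h1 i hi] at this
      omega
    · rw [map_smul] at hα
      exact h2 α (MvPolynomial.support_smul hα)
    · rw [tay_smul, h3 b β hβ, mul_zero]

theorem mem_WW {e : ℕ} {v u : Fin (R + 1)} {p : ℂ} {d : ℕ} {B : Type} {x : B → ℂ} {m : B → ℕ}
    {F : MvPolynomial (Fin (R + 1)) ℂ} : F ∈ WW e v u p d x m ↔
      (∀ i, i < v ∨ u < i → F.degreeOf i = 0) ∧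
      (∀ α ∈ (Th e v u p F).support, cost e u α ≤ d) ∧
      ∀ b, ∀ β : Fin (R + 1) → ℕ, ∑ i, β i < m b → tay F (ptv v (x b)) β = 0 := Iff.rfl

end

/-! ### The main family -/

section

variable {R t s : ℕ}

/-- The space of a state of the main family, top variable `u`. -/
noncomputable def WM (u : Fin (R + 1)) (n : Fin t ⊕ Fin s → ℕ) (a : Option (Fin t) → ℕ) :
    Submodule ℂ (MvPolynomial (Fin (R + 1)) ℂ) :=
  WW (t + 1) 0 u 0 (dd a) (fun b : Fin t ⊕ Fin s => ((xx b : ℕ) : ℂ)) (mu n a)

/-- The sizes of the traces (dimension `j`). -/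
def FM (R j : ℕ) (n : Fin t ⊕ Fin s → ℕ) : Option (Fin t) → (Option (Fin t) → ℕ) → ℕ
  | none, a => tau (t + 1) (R + 1 - j) j (dd a) - ∑ b, ell j (mu n a b)
  | some l, a => tau (t + 1) (R - j) j (dd a) - ell j (mu n a (.inl l))

/-- The virtual dimension (dimension `j + 1`). -/
def RM (R j : ℕ) (n : Fin t ⊕ Fin s → ℕ) (a : Option (Fin t) → ℕ) : ℤ :=
  (tau (t + 1) (R - j) (j + 1) (dd a) : ℤ) - ∑ b, (ell (j + 1) (mu n a b) : ℤ)

/-- The hyperplanes of the main family: `z_u = 0` and `x_0 = l + 1`. -/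
noncomputable def gM (t : ℕ) (u : Fin (R + 1)) : Lines (Option (Fin t)) (Fin (R + 1)) where
  co := fun
    | none => u
    | some _ => 0
  va := fun
    | none => 0
    | some l => ((l.val + 1 : ℕ) : ℂ)

/-- Exactness for the main family. -/
def ExM (t s : ℕ) (u : Fin (R + 1)) (M D : ℕ) : Prop :=
  ∀ (n : Fin t ⊕ Fin s → ℕ) (N : Option (Fin t) → ℕ), Mg R D n N → ∀ S : Multiset ℕ,
    (∀ μ ∈ S, μ ≤ M) →
    tau (t + 1) (R - u.val) (u.val + 1) (dd N) ≤
      ∑ b, ell (u.val + 1) (mu n N b) + (S.map (ell (u.val + 1))).sum →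
    Fk (WM u n N) S

/-- The hyperplane `z_v = 0`. -/
noncomputable def gV (v : Fin (R + 1)) : Lines Unit (Fin (R + 1)) where
  co := fun _ => v
  va := fun _ => 0

/-- Exactness for one big point. -/
def ExV (e : ℕ) (v u : Fin (R + 1)) (M D : ℕ) : Prop :=
  ∀ q : ℕ, 0 < q → ∀ d m : ℕ, m + D ≤ d → ∀ S : Multiset ℕ, (∀ μ ∈ S, μ ≤ M) →
    tau e (R - u.val) (u.val - v.val + 1) d ≤
      ell (u.val - v.val + 1) m + (S.map (ell (u.val - v.val + 1))).sum →
    Fk (WW e v u (q : ℂ) d (fun _ : Unit => (0 : ℂ)) fun _ => m) S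

end

/-- Polynomially bounded functions. -/
def PolyB (f : ℕ → ℕ) : Prop := ∃ K E : ℕ, ∀ M, 1 ≤ M → f M ≤ K * M ^ E

end Pool.Agent.H18.Pr

end

section

/-!
# Module UMul (UA): conditions and products
-/

namespace Pool.Agent.H18.Ua

open Finset Pool.Agent.H18.Ex Pool.Agent.H18.Cub

variable {ι Λ : Type} [Fintype ι] [DecidableEq ι]

/-- The index sets of the conditions are closed under passing to smaller multi-indices. -/
theorem idx_down (g : Lines Λ ι) (k : Kind Λ) {b b' : ι → ℕ} (hb : g.Idx k b)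
    (h : ∀ i, b' i ≤ b i) : g.Idx k b' := by
  cases k with
  | free m =>
    have h1 : ∑ i, b i < m := hb
    have h2 : ∑ i, b' i ≤ ∑ i, b i := sum_le_sum fun i _ => h i
    exact (show ∑ i, b' i < m by omega)
  | forced l c e =>
    have h1 : ∑ i, b i < c ∧ b (g.co l) + e ≤ c := hb
    have h2 : ∑ i, b' i ≤ ∑ i, b i := sum_le_sum fun i _ => h i
    have h3 := h (g.co l)
    exact (show ∑ i, b' i < c ∧ b' (g.co l) + e ≤ c by omega)

/-- The product formula for Taylor coefficients. -/
private theorem tay_mul (Q F : MvPolynomial ι ℂ) (q : ι → ℂ) (b : ι → ℕ) :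
    tay (Q * F) q b = ∑ x ∈ antidiagonal (Finsupp.equivFunOnFinite.symm b),
      tay Q q (⇑x.1) * tay F q (⇑x.2) := by
  rw [tay, map_mul, MvPolynomial.coeff_mul]
  refine sum_congr rfl fun x _ => ?_
  have h : ∀ a : ι →₀ ℕ, Finsupp.equivFunOnFinite.symm (⇑a : ι → ℕ) = a := by
    intro a; ext i; simp
  rw [tay, tay, h, h]

private theorem anti_le {b : ι → ℕ} {x : (ι →₀ ℕ) × (ι →₀ ℕ)}
    (hx : x ∈ antidiagonal (Finsupp.equivFunOnFinite.symm b)) (i : ι) : x.1 i + x.2 i = b i := by
  rw [HasAntidiagonal.mem_antidiagonal] at hx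
  have h := DFunLike.congr_fun hx i
  simpa using h

theorem satP_mul (g : Lines Λ ι) (Q F : MvPolynomial ι ℂ) (k : Kind Λ) (q : ι → ℂ)
    (h : SatP g F k q) : SatP g (Q * F) k q := by
  intro b hb
  rw [tay_mul]
  refine sum_eq_zero fun x hx => ?_
  rw [h (⇑x.2) (idx_down g k hb fun i => by have := anti_le hx i; omega), mul_zero]

/-- Units may be cancelled (induction on `∑ i, b i`). -/
theorem satP_of_mul (g : Lines Λ ι) (Q F : MvPolynomial ι ℂ) (k : Kind Λ) (q : ι → ℂ)
    (hQ : MvPolynomial.eval (g.pt k q) Q ≠ 0) (h : SatP g (Q * F) k q) : SatP g F k q := by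
  have key : ∀ N : ℕ, ∀ b : ι → ℕ, ∑ i, b i < N → g.Idx k b → tay F (g.pt k q) b = 0 := by
    intro N
    induction N with
    | zero => intro b hb; omega
    | succ N ih =>
      intro b hN hb
      have h1 := h b hb
      rw [tay_mul] at h1
      have h2 : ((0 : ι →₀ ℕ), Finsupp.equivFunOnFinite.symm b) ∈
          antidiagonal (Finsupp.equivFunOnFinite.symm b) := by
        rw [HasAntidiagonal.mem_antidiagonal, zero_add]
      rw [sum_eq_single_of_mem _ h2] at h1
      · have h3 : tay Q (g.pt k q) (⇑(0 : ι →₀ ℕ)) = MvPolynomial.eval (g.pt k q) Q := by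
          have h4 : (⇑(0 : ι →₀ ℕ) : ι → ℕ) = 0 := by funext i; rfl
          rw [h4, tay_zero_right]
        have h5 : (⇑(Finsupp.equivFunOnFinite.symm b) : ι → ℕ) = b := by funext i; simp
        simp only at h1
        rw [h3, h5] at h1
        exact (mul_eq_zero.1 h1).resolve_left hQ
      · intro x hx hne
        have h6 : ∀ i, x.1 i + x.2 i = b i := anti_le hx
        rw [ih (⇑x.2) ?_ (idx_down g k hb fun i => by have := h6 i; omega), mul_zero]
        have h7 : ∑ i, x.1 i + ∑ i, x.2 i = ∑ i, b i := by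
          rw [← sum_add_distrib]
          exact sum_congr rfl fun i _ => h6 i
        have h8 : 0 < ∑ i, x.1 i := by
          by_contra h9
          apply hne
          have h10 : ∑ i, x.1 i = 0 := by omega
          rw [sum_eq_zero_iff] at h10
          have h11 : x.1 = 0 := by
            ext i
            exact h10 i (mem_univ i)
          have h12 : x.2 = Finsupp.equivFunOnFinite.symm b := by
            ext i
            have := h6 i
            rw [h11] at this
            simpa using this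
          exact Prod.ext h11 h12
        omega
  intro b hb
  exact key _ b (Nat.lt_succ_self _) hb

private theorem totalDegree_trl (F : MvPolynomial ι ℂ) (q : ι → ℂ) :
    (trl q F).totalDegree ≤ F.totalDegree := by
  conv_lhs => rw [F.as_sum]
  rw [map_sum]
  refine MvPolynomial.totalDegree_finsetSum_le fun a ha => ?_
  rw [trl, MvPolynomial.aeval_monomial]
  refine (MvPolynomial.totalDegree_mul _ _).trans ?_
  rw [MvPolynomial.algebraMap_eq, MvPolynomial.totalDegree_C, zero_add]
  refine le_trans ?_ (MvPolynomial.le_totalDegree ha)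
  rw [Finsupp.prod]
  refine (MvPolynomial.totalDegree_finsetProd _ _).trans ?_
  rw [Finsupp.sum]
  refine sum_le_sum fun i _ => ?_
  refine (MvPolynomial.totalDegree_pow _ _).trans ?_
  have h1 : (MvPolynomial.X i + MvPolynomial.C (q i) : MvPolynomial ι ℂ).totalDegree ≤ 1 := by
    refine (MvPolynomial.totalDegree_add _ _).trans ?_
    rw [MvPolynomial.totalDegree_X, MvPolynomial.totalDegree_C]
    simp
  calc a i * (MvPolynomial.X i + MvPolynomial.C (q i) : MvPolynomial ι ℂ).totalDegree ≤ a i * 1 :=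
        Nat.mul_le_mul_left _ h1
    _ = a i := mul_one _

private theorem trl_inj (q : ι → ℂ) : Function.Injective (trl q : MvPolynomial ι ℂ →ₐ[ℂ] _) := by
  have h : (trl (fun i => -q i)).comp (trl q) = AlgHom.id ℂ (MvPolynomial ι ℂ) := by
    apply MvPolynomial.algHom_ext
    intro i
    have h1 : trl (fun i => -q i) (MvPolynomial.C (q i) : MvPolynomial ι ℂ) =
        (MvPolynomial.C (q i) : MvPolynomial ι ℂ) := by
      rw [← MvPolynomial.algebraMap_eq, AlgHom.commutes]
    rw [AlgHom.comp_apply, show trl q (MvPolynomial.X i : MvPolynomial ι ℂ) =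
      MvPolynomial.X i + MvPolynomial.C (q i) from by simp [trl], map_add, h1,
      show trl (fun i => -q i) (MvPolynomial.X i : MvPolynomial ι ℂ) =
      MvPolynomial.X i + MvPolynomial.C (-q i) from by simp [trl], MvPolynomial.C_neg]
    simp
  intro F G hFG
  have h2 := congrArg (trl (fun i => -q i)) hFG
  rw [← AlgHom.comp_apply, ← AlgHom.comp_apply, h] at h2
  exact h2

/-- A polynomial of degree less than `m` vanishing to order `m` at a point is zero. -/
theorem eq_zero_of_vanish (F : MvPolynomial ι ℂ) (q : ι → ℂ) (m : ℕ) (hdeg : F.totalDegree < m)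
    (h : ∀ b : ι → ℕ, ∑ i, b i < m → tay F q b = 0) : F = 0 := by
  apply trl_inj q
  rw [map_zero]
  ext a
  rw [MvPolynomial.coeff_zero]
  by_contra hne
  have h1 : a ∈ (trl q F).support := MvPolynomial.mem_support_iff.2 hne
  have h2 := MvPolynomial.le_totalDegree h1
  have h3 := totalDegree_trl F q
  have h4 : ∑ i, a i < m := by
    have h5 : (a.sum fun _ e => e) = ∑ i, a i := Finsupp.sum_fintype _ _ (by intro i; rfl)
    rw [h5] at h2
    omega
  apply hne
  have h6 := h (⇑a) h4
  rw [tay] at h6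
  have h7 : Finsupp.equivFunOnFinite.symm (⇑a : ι → ℕ) = a := by ext i; simp
  rwa [h7] at h6

end Pool.Agent.H18.Ua

end
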