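import Pool.Agent.H94.LP4.H18.FatDefs

/-! The parts of this file: H18.Ex.Sing, H18.Nef.NefB, H18.Ta.Defs. -/

section

/-!
# Lines of singular points through two points of high multiplicity
-/

namespace Pool.Agent.H18.Ex

open MvPolynomial Pool.Agent.H18.Fat

theorem shift_pderiv {n : ℕ} (q : Fin n → ℂ) (j : Fin n) (F : MvPolynomial (Fin n) ℂ) :
    shift q (pderiv j F) = pderiv j (shift q F) := by
  unfold shift
  induction F using MvPolynomial.induction_on with
  | C a => simp
  | add p q hp hq => rw [map_add, map_add, hp, hq, map_add, map_add]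
  | mul_X p i hp =>
    rw [Derivation.leibniz, map_mul, Derivation.leibniz, map_add, aeval_X, smul_eq_mul,
      smul_eq_mul, smul_eq_mul, smul_eq_mul, map_mul, map_mul, hp, aeval_X, map_add, pderiv_C,
      add_zero, pderiv_X]
    by_cases hij : i = j
    · subst hij
      simp
    · have h0 : (Pi.single j (1 : MvPolynomial (Fin n) ℂ) : Fin n → MvPolynomial (Fin n) ℂ) i = 0 :=
        Pi.single_eq_of_ne hij _
      rw [h0, map_zero, mul_zero]

theorem VanishesToOrder.pderiv {n : ℕ} {F : MvPolynomial (Fin n) ℂ} {q : Fin n → ℂ} {m : ℕ}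
    (h : VanishesToOrder F q m) (j : Fin n) : VanishesToOrder (pderiv j F) q (m - 1) := by
  intro β hβ
  rw [shift_pderiv, (shift q F).as_sum, map_sum, coeff_sum]
  refine Finset.sum_eq_zero fun α hα => ?_
  rw [pderiv_monomial, coeff_monomial]
  by_cases h0 : α j = 0
  · rw [h0, Nat.cast_zero, mul_zero, ite_self]
  · rw [if_neg]
    intro h1
    apply mem_support_iff.1 hα
    apply h
    have h2 : β + Finsupp.single j 1 = α := by
      rw [← h1]
      ext i
      by_cases hi : i = j
      · subst hi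
        simp only [Finsupp.add_apply, Finsupp.tsub_apply, Finsupp.single_eq_same]
        omega
      · simp [Finsupp.single_eq_of_ne hi]
    rw [← h2, map_add, Finsupp.degree_single]
    omega

theorem eval_smul_of_homogeneous {n D : ℕ} {G : MvPolynomial (Fin n) ℂ} (hG : G.IsHomogeneous D)
    (t : ℂ) (x : Fin n → ℂ) : eval (fun i => t * x i) G = t ^ D * eval x G := by
  rw [eval_eq', eval_eq', Finset.mul_sum]
  refine Finset.sum_congr rfl fun α hα => ?_
  have h1 : α.degree = D := by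
    have := hG (mem_support_iff.1 hα)
    rw [Finsupp.degree_eq_weight_one]
    exact this
  simp only [mul_pow]
  rw [Finset.prod_mul_distrib, Finset.prod_pow_eq_pow_sum, ← Finsupp.degree_eq_sum, h1]
  ring

end Pool.Agent.H18.Ex

end

section

/-!
# Nef classes with at most nine large multiplicities
-/

namespace Pool.Agent.H18.Nef

open Finset

variable {n : ℕ}

/-- The virtual dimension (of the space of forms). -/
def virt (d : ℕ) (m : Fin n → ℕ) : ℤ :=
  ((d + 2).choose 2 : ℤ) - ∑ i, ((m i + 2 - 1).choose 2 : ℤ)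

theorem sum_three {α : Type*} [AddCommMonoid α] (f : Fin n → α) {a b c : Fin n} (hab : a ≠ b)
    (hac : a ≠ c) (hbc : b ≠ c) :
    ∑ i, f i = f a + f b + f c + ∑ i ∈ univ \ {a, b, c}, f i := by
  rw [← sum_sdiff (subset_univ {a, b, c}), add_comm]
  congr 1
  rw [sum_insert (by simp [hab, hac]), sum_insert (by simp [hbc]), sum_singleton, add_assoc]

theorem choose_two_cast (x : ℕ) : 2 * ((x + 1).choose 2 : ℤ) = (x : ℤ) * (x + 1) := by
  induction x with
  | zero => simp
  | succ x ih =>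
    rw [Nat.choose_succ_succ, Nat.choose_one_right]
    push_cast
    push_cast at ih
    linarith

/-- The new multiplicities. -/
def crm (d : ℕ) (m : Fin n → ℕ) (a b c : Fin n) (s : ℕ) : Fin n → ℕ := fun i =>
  if i = a ∨ i = b ∨ i = c then s + m i - d else m i

theorem crm_out {d : ℕ} {m : Fin n → ℕ} {a b c : Fin n} {s : ℕ} {i : Fin n}
    (hi : i ∈ univ \ ({a, b, c} : Finset (Fin n))) : crm d m a b c s i = m i := by
  rw [mem_sdiff, mem_insert, mem_insert, mem_singleton] at hi
  exact if_neg hi.2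

theorem emb3 {a b c : Fin n} (hab : a ≠ b) (hac : a ≠ c) (hbc : b ≠ c) :
    ∃ J : Fin (2 + 1) ↪ Fin n, J 0 = a ∧ J 1 = b ∧ J 2 = c ∧
      ∀ i, (∀ l, J l ≠ i) ↔ ¬ (i = a ∨ i = b ∨ i = c) := by
  refine ⟨⟨![a, b, c], ?_⟩, rfl, rfl, rfl, ?_⟩
  · intro x y hxy
    fin_cases x <;> fin_cases y <;> simp_all
  · intro i
    constructor
    · intro h h'
      rcases h' with h' | h' | h'
      · exact h 0 h'.symm
      · exact h 1 h'.symm
      · exact h 2 h'.symm
    · intro h l hl
      apply h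
      fin_cases l
      · exact Or.inl hl.symm
      · exact Or.inr (Or.inl hl.symm)
      · exact Or.inr (Or.inr hl.symm)

/-- The intersection numbers. -/
theorem pairing {d e s s' : ℕ} {m k : Fin n → ℕ} {a b c : Fin n} (hab : a ≠ b) (hac : a ≠ c)
    (hbc : b ≠ c) (hμ : m a + m b + m c + s = 2 * d) (hK : k a + k b + k c + s' = 2 * e)
    (hma : m b + m c ≤ d) (hmb : m a + m c ≤ d) (hmc : m a + m b ≤ d) :
    (d : ℤ) * s' - ∑ i, (m i : ℤ) * (crm e k a b c s' i : ℤ) ≤
      (s : ℤ) * e - ∑ i, (crm d m a b c s i : ℤ) * (k i : ℤ) := by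
  have h1 : ∀ x, (x = a ∨ x = b ∨ x = c) → ((s' : ℤ) + k x - e) ≤ (crm e k a b c s' x : ℤ) := by
    intro x hx
    have : crm e k a b c s' x = s' + k x - e := if_pos hx
    rw [this]
    omega
  have h2 : ∀ x, (x = a ∨ x = b ∨ x = c) → (crm d m a b c s x : ℤ) = (s : ℤ) + m x - d := by
    intro x hx
    have : crm d m a b c s x = s + m x - d := if_pos hx
    rw [this]
    rcases hx with rfl | rfl | rfl <;> omega
  rw [sum_three (fun i => (m i : ℤ) * (crm e k a b c s' i : ℤ)) hab hac hbc,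
    sum_three (fun i => (crm d m a b c s i : ℤ) * (k i : ℤ)) hab hac hbc]
  have h3 : ∑ i ∈ univ \ {a, b, c}, (m i : ℤ) * (crm e k a b c s' i : ℤ) =
      ∑ i ∈ univ \ {a, b, c}, (crm d m a b c s i : ℤ) * (k i : ℤ) :=
    sum_congr rfl fun i hi => by rw [crm_out hi, crm_out hi]
  rw [h3, h2 a (Or.inl rfl), h2 b (Or.inr (Or.inl rfl)), h2 c (Or.inr (Or.inr rfl))]
  have ha := mul_le_mul_of_nonneg_left (h1 a (Or.inl rfl)) (Int.natCast_nonneg (m a))
  have hb := mul_le_mul_of_nonneg_left (h1 b (Or.inr (Or.inl rfl))) (Int.natCast_nonneg (m b))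
  have hc := mul_le_mul_of_nonneg_left (h1 c (Or.inr (Or.inr rfl))) (Int.natCast_nonneg (m c))
  have hs : (s : ℤ) = 2 * d - m a - m b - m c := by omega
  have hs' : (s' : ℤ) = 2 * e - k a - k b - k c := by omega
  rw [hs'] at ha hb hc
  rw [hs, hs']
  rw [hs'] at *
  nlinarith only [ha, hb, hc]

/-- Cremona transformations preserve the virtual dimension. -/
theorem virt_crm {d s : ℕ} {m : Fin n → ℕ} {a b c : Fin n} (hab : a ≠ b) (hac : a ≠ c)
    (hbc : b ≠ c) (hμ : m a + m b + m c + s = 2 * d)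
    (hma : m b + m c ≤ d) (hmb : m a + m c ≤ d) (hmc : m a + m b ≤ d) :
    virt s (crm d m a b c s) = virt d m := by
  have h2 : ∀ x, (x = a ∨ x = b ∨ x = c) → (crm d m a b c s x : ℤ) = (s : ℤ) + m x - d := by
    intro x hx
    have : crm d m a b c s x = s + m x - d := if_pos hx
    rw [this]
    rcases hx with rfl | rfl | rfl <;> omega
  unfold virt
  rw [sum_three (fun i => ((crm d m a b c s i + 2 - 1).choose 2 : ℤ)) hab hac hbc,
    sum_three (fun i => ((m i + 2 - 1).choose 2 : ℤ)) hab hac hbc]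
  have h3 : ∑ i ∈ univ \ {a, b, c}, ((crm d m a b c s i + 2 - 1).choose 2 : ℤ) =
      ∑ i ∈ univ \ {a, b, c}, ((m i + 2 - 1).choose 2 : ℤ) :=
    sum_congr rfl fun i hi => by rw [crm_out hi]
  rw [h3]
  have e1 : ∀ x : ℕ, 2 * ((x + 2 - 1).choose 2 : ℤ) = (x : ℤ) * (x + 1) := fun x =>
    choose_two_cast x
  have e2 : ∀ x : ℕ, 2 * ((x + 2).choose 2 : ℤ) = ((x : ℤ) + 1) * (x + 2) := fun x => by
    have := choose_two_cast (x + 1)
    push_cast at this
    push_cast
    linarith only [this]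
  have hs : (s : ℤ) = 2 * d - m a - m b - m c := by omega
  have ea := e1 (crm d m a b c s a)
  have eb := e1 (crm d m a b c s b)
  have ec := e1 (crm d m a b c s c)
  rw [h2 a (Or.inl rfl)] at ea
  rw [h2 b (Or.inr (Or.inl rfl))] at eb
  rw [h2 c (Or.inr (Or.inr rfl))] at ec
  have fa := e1 (m a)
  have fb := e1 (m b)
  have fc := e1 (m c)
  have gd := e2 d
  have gs := e2 s
  rw [hs] at ea eb ec gs
  nlinarith only [ea, eb, ec, fa, fb, fc, gd, gs]

theorem sum_J_crm {d s : ℕ} {m : Fin n → ℕ} {a b c : Fin n} (hab : a ≠ b) (hac : a ≠ c)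
    (hbc : b ≠ c) (hμ : m a + m b + m c + s = 2 * d)
    (hma : m b + m c ≤ d) (hmb : m a + m c ≤ d) (hmc : m a + m b ≤ d) (J : Finset (Fin n))
    (ha : a ∈ J) (hb : b ∈ J) (hc : c ∈ J) :
    ∑ i ∈ J, crm d m a b c s i + 3 * d = ∑ i ∈ J, m i + 3 * s := by
  have h2 : ∀ x, (x = a ∨ x = b ∨ x = c) → crm d m a b c s x + d = s + m x := by
    intro x hx
    have : crm d m a b c s x = s + m x - d := if_pos hx
    rw [this]
    rcases hx with rfl | rfl | rfl <;> omega
  have hsub : ({a, b, c} : Finset (Fin n)) ⊆ J := by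
    intro x hx
    rw [mem_insert, mem_insert, mem_singleton] at hx
    rcases hx with rfl | rfl | rfl <;> assumption
  have hsum : ∀ f : Fin n → ℕ, ∑ i ∈ J, f i = ∑ i ∈ J \ {a, b, c}, f i + (f a + f b + f c) := by
    intro f
    rw [← sum_sdiff hsub]
    congr 1
    rw [sum_insert (by simp [hab, hac]), sum_insert (by simp [hbc]), sum_singleton, add_assoc]
  rw [hsum, hsum m]
  have h3 : ∑ i ∈ J \ {a, b, c}, crm d m a b c s i = ∑ i ∈ J \ {a, b, c}, m i :=
    sum_congr rfl fun i hi => crm_out (by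
      rw [mem_sdiff] at hi ⊢
      exact ⟨mem_univ i, hi.2⟩)
  rw [h3]
  have := h2 a (Or.inl rfl)
  have := h2 b (Or.inr (Or.inl rfl))
  have := h2 c (Or.inr (Or.inr rfl))
  omega

end Pool.Agent.H18.Nef

end

section

/-!
# Project TA (MP_1dafdd_ag): definitions

There are `ℓ` layers `s = 0, …, ℓ - 1`.  A *cell* is a pair `(u, j)` with `u + j < ℓ`.  A point in the
cell `(u, j)` orders the layers as follows (the rank `rk ℓ u j s` is the position of the layer `s`):
`u+1, …, u+j, u, u+j+1, …, ℓ-1, u-1, u-2, …, 0`.  A point of multiplicity `μ` loads the layer of rank `k`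
by `μ - k` (truncated subtraction).
-/

namespace Pool.Agent.H18.Ta

open Finset

/-- The rank of the layer `s` for a point in the cell `(u, j)`. -/
def rk (ℓ u j s : ℕ) : ℕ :=
  if s < u then ℓ - 1 - s else if s = u then j else if s ≤ u + j then s - u - 1 else s - u

/-- The load of the layer `s` by a point of multiplicity `μ` in the cell `(u, j)`. -/
def ld (ℓ μ u j s : ℕ) : ℕ := μ - rk ℓ u j s

/-- The base of the exponents. -/
def bG (ℓ : ℕ) : ℕ := 4 * (ℓ + 1) ^ 2

/-- The common part of the keys. -/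
def kap (ℓ s : ℕ) : ℕ := ∑ i ∈ range (ℓ - s), bG ℓ ^ (i + 1)

/-- The exponent of a point in the cell `(u, j)`. -/
def ex (ℓ u j : ℕ) : ℕ := if j = 0 then 2 * bG ℓ ^ (ℓ - u) else (bG ℓ ^ (ℓ - u) - 1) / j

end Pool.Agent.H18.Ta

end
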