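import Pool.Agent.H94.LP4.M03
import Pool.Agent.H94.LP4.M04
import Pool.Agent.H94.LP4.M09
import Pool.Agent.H94.LP4.M48

/-! The parts of this file: H18.Cub.Desc, H18.Ex.Conv, H18.Ta.Core, H18.Ta.Greedy, H18.Ta.Key, H18.Ta.RgS, H18.Ta.Rk. -/

section

/-!
# Module Desc: Descartes' rule and the exponents on the curve `y = x^e`

Descartes' rule: a nonzero real polynomial with `n` nonzero coefficients has at most `n - 1`
positive roots, counted with multiplicity.
-/

namespace Pool.Agent.H18.Cub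

open Finset

private theorem desc_signVar (n : ℕ) : ∀ P : Polynomial ℝ, P ≠ 0 → P.support.card = n →
    P.signVariations + 1 ≤ n := by
  induction n with
  | zero =>
    intro P hP h
    exact absurd (Polynomial.support_eq_empty.mp (Finset.card_eq_zero.mp h)) hP
  | succ n ih =>
    intro P hP h
    have h1 : P.eraseLead.support.card + 1 = P.support.card :=
      Polynomial.card_support_eraseLead_add_one hP
    by_cases h2 : P.eraseLead = 0
    · have h3 : P = Polynomial.monomial P.natDegree P.leadingCoeff := by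
        have := Polynomial.eraseLead_add_monomial_natDegree_leadingCoeff P
        rw [h2, zero_add] at this
        exact this.symm
      rw [h3, Polynomial.signVariations_monomial]
      omega
    · have h3 := ih P.eraseLead h2 (by omega)
      have h4 := Polynomial.signVariations_le_eraseLead_succ P
      omega

/-- Descartes' rule for real polynomials (`Polynomial.roots_countP_pos_le_signVariations`,
`Polynomial.signVariations_le_eraseLead_succ`, induction on the number of terms with `eraseLead`). -/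
theorem descartes_real (P : Polynomial ℝ) (hP : P ≠ 0) :
    P.roots.countP (0 < ·) + 1 ≤ P.support.card := by
  have h1 := Polynomial.roots_countP_pos_le_signVariations P
  have h2 := desc_signVar P.support.card P hP rfl
  omega

/-- The real polynomial whose coefficients are the images of those of `P` under `φ`. -/
private noncomputable def descMap (φ : ℂ →ₗ[ℝ] ℝ) (P : Polynomial ℂ) : Polynomial ℝ :=
  ∑ n ∈ P.support, Polynomial.monomial n (φ (P.coeff n))

private theorem descMap_coeff (φ : ℂ →ₗ[ℝ] ℝ) (P : Polynomial ℂ) (n : ℕ) :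
    (descMap φ P).coeff n = φ (P.coeff n) := by
  unfold descMap
  rw [Polynomial.finsetSum_coeff]
  simp only [Polynomial.coeff_monomial]
  rw [Finset.sum_ite_eq' P.support n]
  split_ifs with h
  · rfl
  · rw [Polynomial.notMem_support_iff.mp h, map_zero]

private theorem descMap_mul (φ : ℂ →ₗ[ℝ] ℝ) (r : Polynomial ℝ) (S : Polynomial ℂ) :
    descMap φ (r.map (algebraMap ℝ ℂ) * S) = r * descMap φ S := by
  ext n
  rw [descMap_coeff, Polynomial.coeff_mul, Polynomial.coeff_mul, map_sum]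
  refine Finset.sum_congr rfl fun a _ => ?_
  rw [Polynomial.coeff_map, descMap_coeff, ← Algebra.smul_def, map_smul, smul_eq_mul]

private theorem desc_zero {κ : Type} [Fintype κ] (A : Polynomial ℝ) (x : κ → ℝ)
    (hx : Function.Injective x) (hpos : ∀ i, 0 < x i) (m : κ → ℕ)
    (hm : ∀ i, (Polynomial.X - Polynomial.C (x i)) ^ m i ∣ A)
    (hcard : A.support.card ≤ ∑ i, m i) : A = 0 := by
  classical
  by_contra hA
  have h1 := descartes_real A hA
  have h2 : ∑ i, m i ≤ A.roots.countP (0 < ·) := by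
    rw [Multiset.countP_eq_card_filter,
      ← Multiset.sum_count_eq_card (s := (A.roots.filter (0 < ·)).toFinset ∪ univ.image x)
        (fun a ha => Finset.mem_union_left _ (Multiset.mem_toFinset.mpr ha))]
    calc ∑ i, m i ≤ ∑ i, (A.roots.filter (0 < ·)).count (x i) := by
          refine Finset.sum_le_sum fun i _ => ?_
          rw [Multiset.count_filter_of_pos (hpos i), Polynomial.count_roots,
            Polynomial.le_rootMultiplicity_iff hA]
          exact hm i
      _ = ∑ a ∈ univ.image x, (A.roots.filter (0 < ·)).count a := by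
          rw [Finset.sum_image fun a _ b _ h => hx h]
      _ ≤ _ := Finset.sum_le_sum_of_subset Finset.subset_union_right
  omega

/-- A complex polynomial with few terms vanishing at positive real points is zero.  Proof: real and
imaginary parts (real polynomials with at most as many terms), each divisible by
`(X - x i)^(m i)`, hence (distinct points) having at least `∑ m i` positive roots. -/
theorem descartes_complex {κ : Type} [Fintype κ] (P : Polynomial ℂ) (x : κ → ℝ)
    (hx : Function.Injective x) (hpos : ∀ i, 0 < x i) (m : κ → ℕ)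
    (hm : ∀ i, (Polynomial.X - Polynomial.C (x i : ℂ)) ^ m i ∣ P)
    (hcard : P.support.card ≤ ∑ i, m i) : P = 0 := by
  have key : ∀ φ : ℂ →ₗ[ℝ] ℝ, descMap φ P = 0 := by
    intro φ
    refine desc_zero _ x hx hpos m ?_ ?_
    · intro i
      obtain ⟨S, hS⟩ := hm i
      have h1 : (Polynomial.X - Polynomial.C (x i : ℂ)) ^ m i =
          ((Polynomial.X - Polynomial.C (x i)) ^ m i).map (algebraMap ℝ ℂ) := by
        simp
      rw [hS, h1, descMap_mul]
      exact Dvd.intro _ rfl
    · refine le_trans (Finset.card_le_card ?_) hcard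
      intro n hn
      rw [Polynomial.mem_support_iff, descMap_coeff] at hn
      rw [Polynomial.mem_support_iff]
      intro h
      exact hn (by rw [h, map_zero])
  ext n
  have h1 := congrArg (fun A => A.coeff n) (key Complex.reLm)
  have h2 := congrArg (fun A => A.coeff n) (key Complex.imLm)
  simp only [descMap_coeff, Polynomial.coeff_zero, Complex.reLm_coe, Complex.imLm_coe] at h1 h2
  rw [Polynomial.coeff_zero]
  exact Complex.ext h1 h2

end Pool.Agent.H18.Cub

end

section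

/-!
# Module Conv: preparation of configurations, conversion of multiple points
-/

namespace Pool.Agent.H18.Ex

open Finset

/-- Drop superfluous points. -/
theorem exists_drop (g : ℕ → ℕ) (L a : ℕ) : ∀ (G : Multiset ℕ), (∀ m ∈ G, g m ≤ L) →
    a ≤ (G.map g).sum →
    ∃ G₁ ≤ G, a ≤ (G₁.map g).sum ∧ (G₁.map g).sum ≤ a + L ∧ ∀ m ∈ G₁, 0 < g m := by
  intro G
  induction G using Multiset.strongInductionOn with
  | ih G ih =>
    intro hG ha
    by_cases h : ∃ m ∈ G, a ≤ ((G.erase m).map g).sum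
    · obtain ⟨m, hm, h⟩ := h
      obtain ⟨G₁, h1, h2⟩ := ih (G.erase m) (Multiset.erase_lt.2 hm)
        (fun x hx => hG x (Multiset.mem_of_mem_erase hx)) h
      exact ⟨G₁, h1.trans (Multiset.erase_le _ _), h2⟩
    · push Not at h
      rcases Multiset.empty_or_exists_mem G with h0 | ⟨m, hm⟩
      · subst h0
        exact ⟨0, le_rfl, ha, by simp, by simp⟩
      · have key : ∀ m ∈ G, g m + ((G.erase m).map g).sum = (G.map g).sum := by
          intro m hm
          rw [← Multiset.sum_cons, ← Multiset.map_cons, Multiset.cons_erase hm]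
        refine ⟨G, le_rfl, ha, ?_, ?_⟩
        · have h1 := key m hm
          have h2 := h m hm
          have h3 := hG m hm
          omega
        · intro x hx
          have h1 := key x hx
          have h2 := h x hx
          omega

section

variable {ι : Type} [Fintype ι] [DecidableEq ι]

/-- The configuration of a multiset of free points. -/
def cfg0 (ι : Type) (G : Multiset ℕ) : Cfg ι where
  N := G.filter fun m => 2 ≤ m
  s := G.count 1
  Φ := fun _ => 0

omit [DecidableEq ι] in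
theorem cfg0_kinds (G : Multiset ℕ) (hG : ∀ m ∈ G, 1 ≤ m) :
    (cfg0 ι G).kinds = G.map (Kind.free : ℕ → Kind ι) := by
  classical
  unfold Cfg.kinds cfg0
  simp only [Multiset.map_zero, sum_const_zero, add_zero]
  have h1 : G = G.filter (fun m => 2 ≤ m) + Multiset.replicate (G.count 1) 1 := by
    ext a
    rw [Multiset.count_add, Multiset.count_replicate, Multiset.count_filter]
    by_cases ha : 2 ≤ a
    · rw [if_pos ha, if_neg (by omega), add_zero]
    · rw [if_neg ha]
      by_cases h1 : a = 1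
      · subst h1
        simp
      · rw [if_neg (by omega), Multiset.count_eq_zero_of_notMem]
        intro h
        have := hG a h
        omega
  conv_rhs => rw [h1, Multiset.map_add, Multiset.map_replicate]

omit [DecidableEq ι] in
theorem cfg0_sz (n : ℕ) (G : Multiset ℕ) (hG : ∀ m ∈ G, 1 ≤ m) :
    (cfg0 ι G).sz n = (G.map (ell (n + 1))).sum ∧ (cfg0 ι G).nsz n = (G.map (ell (n + 1))).sum := by
  classical
  have h0 : (cfg0 ι G).nsz n = (G.map (ell (n + 1))).sum := by
    unfold Cfg.nsz cfg0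
    have h1 : G = G.filter (fun m => 2 ≤ m) + Multiset.replicate (G.count 1) 1 := by
      ext a
      rw [Multiset.count_add, Multiset.count_replicate, Multiset.count_filter]
      by_cases ha : 2 ≤ a
      · rw [if_pos ha, if_neg (by omega), add_zero]
      · rw [if_neg ha]
        by_cases h1 : a = 1
        · subst h1
          simp
        · rw [if_neg (by omega), Multiset.count_eq_zero_of_notMem]
          intro h
          have := hG a h
          omega
    conv_rhs => rw [h1, Multiset.map_add, Multiset.map_replicate, Multiset.sum_add,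
      Multiset.sum_replicate, ell_one, smul_eq_mul, mul_one]
  refine ⟨?_, h0⟩
  unfold Cfg.sz
  rw [h0]
  simp [Cfg.fl, cfg0]

theorem cfg0_OK (M : ℕ) (G : Multiset ℕ) (hG : ∀ m ∈ G, m ≤ M) : (cfg0 ι G).OK M := by
  refine ⟨?_, ?_⟩
  · intro m hm
    rw [cfg0, Multiset.mem_filter] at hm
    exact ⟨hm.2, hG m hm.1⟩
  · intro l x hx
    simp [cfg0] at hx

end

end Pool.Agent.H18.Ex

end

section

/-!
# Module Core (TA): Lemma U

`F = ∑_{s < ℓ} y^s f_s(x)`, `f_s = ∑_{a < c s} f s a x^a`.  The point `i` is `(x i, y i)`, its multiplicity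
is `μ i`.
-/

namespace Pool.Agent.H18.Ta

open Finset

/-- Combinations of binomial coefficients. -/
private theorem Core_comb {R : Type*} [CommRing R] (ℓ h : ℕ) (T : ℕ → R)
    (hT : ∀ γ < h, ∑ s ∈ range ℓ, ((s.choose γ : ℕ) : R) * T s = 0) (S : Finset ℕ) :
    ∀ γ, S.card + γ < h →
      ∑ s ∈ range ℓ, (∏ u ∈ S, ((s : R) - (u : R))) * (((s.choose γ : ℕ) : R) * T s) = 0 := by
  induction S using Finset.induction_on with
  | empty =>
    intro γ hγ
    simpa using hT γ (by simpa using hγ)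
  | insert u S hu ih =>
    intro γ hγ
    rw [card_insert_of_notMem hu] at hγ
    have h1 := ih (γ + 1) (by omega)
    have h2 := ih γ (by omega)
    have h3 : ∀ s ∈ range ℓ,
        (∏ u' ∈ insert u S, ((s : R) - (u' : R))) * (((s.choose γ : ℕ) : R) * T s) =
        ((γ : R) + 1) * ((∏ u' ∈ S, ((s : R) - (u' : R))) * (((s.choose (γ + 1) : ℕ) : R) * T s)) +
        ((γ : R) - u) * ((∏ u' ∈ S, ((s : R) - (u' : R))) * (((s.choose γ : ℕ) : R) * T s)) := by
      intro s _
      rw [prod_insert hu]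
      have h4 : ((s : R) - γ) * ((s.choose γ : ℕ) : R) = ((γ : R) + 1) * ((s.choose (γ + 1) : ℕ) : R) := by
        have h5 := Nat.choose_succ_right_eq s γ
        rcases Nat.lt_or_ge s γ with h6 | h6
        · rw [Nat.choose_eq_zero_of_lt h6, Nat.choose_eq_zero_of_lt (by omega)]
          simp
        · have h7 : ((s.choose (γ + 1) * (γ + 1) : ℕ) : R) = ((s.choose γ * (s - γ) : ℕ) : R) := by
            rw [h5]
          rw [Nat.cast_mul, Nat.cast_mul, Nat.cast_sub h6] at h7
          push_cast at h7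
          linear_combination -h7
      have h5 : ((s : R) - u) * ((s.choose γ : ℕ) : R) =
          ((γ : R) + 1) * ((s.choose (γ + 1) : ℕ) : R) + ((γ : R) - u) * ((s.choose γ : ℕ) : R) := by
        rw [← h4]
        ring
      calc _ = (∏ u' ∈ S, ((s : R) - (u' : R))) * ((((s : R) - u) * ((s.choose γ : ℕ) : R)) * T s) := by
            ring
        _ = _ := by
            rw [h5]
            ring
    rw [sum_congr rfl h3, sum_add_distrib, ← mul_sum, ← mul_sum, h1, h2, mul_zero, mul_zero, add_zero]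

/-- A polynomial of small degree with many zeros vanishes. -/
private theorem Core_zero {κ : Type} [Fintype κ] (x : κ → ℂ) (hx : Function.Injective x) (n : κ → ℕ)
    (N : ℕ) (hN : N ≤ ∑ i, n i) (b : ℕ → ℂ)
    (h : ∀ i, ∀ α < n i, ∑ a ∈ range N, b a * ((a.choose α : ℕ) * x i ^ (a - α)) = 0) :
    ∀ a < N, b a = 0 := by
  classical
  set p : Polynomial ℂ := ∑ a ∈ range N, Polynomial.monomial a (b a) with hp
  have hcoeff : ∀ a < N, p.coeff a = b a := by
    intro a ha
    rw [hp, Polynomial.finsetSum_coeff]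
    simp only [Polynomial.coeff_monomial]
    rw [sum_ite_eq' (range N) a b, if_pos (mem_range.2 ha)]
  have hdeg : p.degree < N := by
    rw [Polynomial.degree_lt_iff_coeff_zero]
    intro k hk
    rw [hp, Polynomial.finsetSum_coeff]
    apply sum_eq_zero
    intro a ha
    rw [Polynomial.coeff_monomial, if_neg]
    rw [mem_range] at ha
    omega
  have hdvd : ∀ i, (Polynomial.X - Polynomial.C (x i)) ^ n i ∣ p := by
    intro i
    rw [Polynomial.X_sub_C_pow_dvd_iff, Polynomial.X_pow_dvd_iff]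
    intro α hα
    have h1 : (p.comp (Polynomial.X + Polynomial.C (x i))).coeff α =
        (Polynomial.taylor (x i) p).coeff α := by
      rw [Polynomial.taylor_apply]
    rw [h1, Polynomial.taylor_coeff, hp, map_sum, Polynomial.eval_finsetSum, ← h i α hα]
    refine sum_congr rfl fun a _ => ?_
    rw [Polynomial.hasseDeriv_monomial, Polynomial.eval_monomial]
    ring
  have hprod : (∏ i, (Polynomial.X - Polynomial.C (x i)) ^ n i) ∣ p := by
    apply Finset.prod_dvd_of_coprime
    · intro i _ j _ hij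
      exact (Polynomial.pairwise_coprime_X_sub_C hx hij).pow
    · intro i _
      exact hdvd i
  have hp0 : p = 0 := by
    by_contra hne
    have h1 := Polynomial.degree_le_of_dvd hprod hne
    have h2 : (∏ i, (Polynomial.X - Polynomial.C (x i)) ^ n i).degree = ((∑ i, n i : ℕ) : WithBot ℕ) := by
      rw [Polynomial.degree_prod]
      simp [Polynomial.degree_pow, Polynomial.degree_X_sub_C]
    rw [h2] at h1
    have h3 : ((∑ i, n i : ℕ) : WithBot ℕ) < N := lt_of_le_of_lt h1 hdeg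
    have h4 : ∑ i, n i < N := by exact_mod_cast h3
    omega
  intro a ha
  rw [← hcoeff a ha, hp0, Polynomial.coeff_zero]

/-- Lemma U. -/
theorem core {κ : Type} [Fintype κ] (ℓ : ℕ) (c : ℕ → ℕ) (μ : κ → ℕ) (rk : κ → ℕ → ℕ) (e : κ → ℕ)
    (kap : ℕ → ℕ) (x : κ → ℂ) (hx : Function.Injective x)
    (hinj : ∀ i, ∀ s < ℓ, ∀ t < ℓ, rk i s = rk i t → s = t)
    (hkey : ∀ i, ∀ s < ℓ, ∀ t < ℓ, rk i s < rk i t → e i * s + kap s < e i * t + kap t)
    (hc : ∀ s < ℓ, c s ≤ ∑ i, (μ i - rk i s)) :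
    ∃ y : κ → ℂ, ∀ f : ℕ → ℕ → ℂ,
      (∀ i α γ, α + γ < μ i → ∑ s ∈ range ℓ, ∑ a ∈ range (c s),
        f s a * (((a.choose α : ℕ) * x i ^ (a - α)) * ((s.choose γ : ℕ) * y i ^ (s - γ))) = 0) →
      ∀ s < ℓ, ∀ a < c s, f s a = 0 := by
  classical
  by_contra hcon
  push Not at hcon
  let A : Finset (Σ _ : ℕ, ℕ) := (range ℓ).sigma fun s => range (c s)
  let ρ : Type := (i : κ) × (Fin (μ i) × Fin (μ i))
  let Mx : ρ → (Σ _ : ℕ, ℕ) → Polynomial ℂ := fun r a =>
    if (r.2.1 : ℕ) + (r.2.2 : ℕ) < μ r.1 then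
      Polynomial.C ((a.2.choose (r.2.1 : ℕ) : ℕ) * x r.1 ^ (a.2 - (r.2.1 : ℕ))) *
        ((((a.1.choose (r.2.2 : ℕ) : ℕ)) : Polynomial ℂ) *
          (Polynomial.X ^ (e r.1 * a.1 + kap a.1) * Polynomial.X))
    else 0
  have hsol : ∀ t : ℂ, ∃ f : (Σ _ : ℕ, ℕ) → ℂ,
      (∀ r, ∑ a ∈ A, f a * (Mx r a).eval t = 0) ∧ ∃ a ∈ A, f a ≠ 0 := by
    intro t
    obtain ⟨f, hf, s₁, hs₁, a₁, ha₁, hne⟩ := hcon fun i => t ^ e i
    have hmem : (⟨s₁, a₁⟩ : Σ _ : ℕ, ℕ) ∈ A := mem_sigma.2 ⟨mem_range.2 hs₁, mem_range.2 ha₁⟩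
    by_cases ht : t = 0
    · refine ⟨fun _ => 1, fun r => sum_eq_zero fun a _ => ?_, _, hmem, one_ne_zero⟩
      subst ht
      simp only [Mx]
      split_ifs
      · simp
      · simp
    · refine ⟨fun a => f a.1 a.2 * (t ^ kap a.1)⁻¹, fun r => ?_, _, hmem, ?_⟩
      · by_cases hr : (r.2.1 : ℕ) + (r.2.2 : ℕ) < μ r.1
        · have h1 := hf r.1 r.2.1 r.2.2 hr
          rw [← sum_sigma (range ℓ) (fun s => range (c s)) (fun a : Σ _ : ℕ, ℕ => f a.1 a.2 *
            (((a.2.choose (r.2.1 : ℕ) : ℕ) * x r.1 ^ (a.2 - (r.2.1 : ℕ))) *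
              ((a.1.choose (r.2.2 : ℕ) : ℕ) * (t ^ e r.1) ^ (a.1 - (r.2.2 : ℕ)))))] at h1
          have h2 : ∑ a ∈ A, f a.1 a.2 * (t ^ kap a.1)⁻¹ * (Mx r a).eval t =
              (t ^ (e r.1 * (r.2.2 : ℕ)) * t) * ∑ a ∈ A, f a.1 a.2 *
                (((a.2.choose (r.2.1 : ℕ) : ℕ) * x r.1 ^ (a.2 - (r.2.1 : ℕ))) *
                  ((a.1.choose (r.2.2 : ℕ) : ℕ) * (t ^ e r.1) ^ (a.1 - (r.2.2 : ℕ)))) := by
            rw [mul_sum]
            refine sum_congr rfl fun a _ => ?_
            simp only [Mx]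
            rw [if_pos hr]
            simp only [Polynomial.eval_mul, Polynomial.eval_C, Polynomial.eval_natCast,
              Polynomial.eval_pow, Polynomial.eval_X]
            rcases Nat.lt_or_ge a.1 (r.2.2 : ℕ) with h3 | h3
            · rw [Nat.choose_eq_zero_of_lt h3]
              simp
            · have h4 : t ^ (e r.1 * a.1 + kap a.1) =
                  t ^ (e r.1 * (r.2.2 : ℕ)) * (t ^ e r.1) ^ (a.1 - (r.2.2 : ℕ)) * t ^ kap a.1 := by
                rw [← pow_mul, ← pow_add, pow_add, ← mul_add, Nat.add_sub_cancel' h3]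
              rw [h4]
              have h5 : t ^ kap a.1 ≠ 0 := pow_ne_zero _ ht
              field_simp
          rw [h2, h1, mul_zero]
        · refine sum_eq_zero fun a _ => ?_
          simp only [Mx]
          rw [if_neg hr, Polynomial.eval_zero, mul_zero]
      · exact mul_ne_zero hne (inv_ne_zero (pow_ne_zero _ ht))
  obtain ⟨F, hF, a₀, ha₀, hne⟩ := Pool.Agent.H18.Ex.exists_poly_solution A Mx hsol
  -- the equations without the factor `X`
  have heq : ∀ i α γ, α + γ < μ i → ∑ s ∈ range ℓ, ((s.choose γ : ℕ) : Polynomial ℂ) *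
      (Polynomial.X ^ (e i * s + kap s) * ∑ a ∈ range (c s),
        F ⟨s, a⟩ * Polynomial.C ((a.choose α : ℕ) * x i ^ (a - α))) = 0 := by
    intro i α γ hαγ
    have h1 := hF ⟨i, ⟨α, by omega⟩, ⟨γ, by omega⟩⟩
    have h2 : Polynomial.X * ∑ s ∈ range ℓ, ((s.choose γ : ℕ) : Polynomial ℂ) *
        (Polynomial.X ^ (e i * s + kap s) * ∑ a ∈ range (c s),
          F ⟨s, a⟩ * Polynomial.C ((a.choose α : ℕ) * x i ^ (a - α))) = 0 := by
      rw [← h1]
      show _ = ∑ a ∈ (range ℓ).sigma fun s => range (c s), _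
      rw [sum_sigma, mul_sum]
      refine sum_congr rfl fun s _ => ?_
      rw [mul_sum, mul_sum, mul_sum]
      refine sum_congr rfl fun a _ => ?_
      simp only [Mx]
      rw [if_pos hαγ]
      ring
    exact (mul_eq_zero.1 h2).resolve_left Polynomial.X_ne_zero
  -- the vanishing at zero
  have hkeyv : ∀ i, ∀ s₀ < ℓ, ∀ α < μ i - rk i s₀,
      ∑ a ∈ range (c s₀), (F ⟨s₀, a⟩).eval 0 * ((a.choose α : ℕ) * x i ^ (a - α)) = 0 := by
    intro i s₀ hs₀ α hα
    set h := μ i - α with hh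
    set T : ℕ → Polynomial ℂ := fun s => Polynomial.X ^ (e i * s + kap s) * ∑ a ∈ range (c s),
        F ⟨s, a⟩ * Polynomial.C ((a.choose α : ℕ) * x i ^ (a - α)) with hT
    set S : Finset ℕ := (range ℓ).filter fun s => s ≠ s₀ ∧ rk i s < h with hS
    have hScard : S.card + 0 < h := by
      have h1 : (insert s₀ S).card ≤ (range h).card := by
        apply card_le_card_of_injOn (rk i)
        · intro s hs
          rw [mem_coe, mem_insert] at hs
          rw [mem_coe, mem_range]
          rcases hs with rfl | hs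
          · omega
          · exact (mem_filter.1 hs).2.2
        · intro s hs t ht hst
          have hlt : ∀ s ∈ insert s₀ S, s < ℓ := by
            intro s hs
            rcases mem_insert.1 hs with rfl | hs
            · exact hs₀
            · exact mem_range.1 (mem_filter.1 hs).1
          exact hinj i s (hlt s hs) t (hlt t ht) hst
      rw [card_insert_of_notMem (by simp [hS]), card_range] at h1
      omega
    have h2 := Core_comb ℓ h T (fun γ hγ => heq i α γ (by omega)) S 0 hScard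
    have h3 := congrArg (fun p => Polynomial.coeff p (e i * s₀ + kap s₀)) h2
    simp only [Polynomial.finsetSum_coeff, Polynomial.coeff_zero] at h3
    rw [sum_eq_single s₀] at h3
    · -- the main term
      have h4 : (∏ u ∈ S, (((s₀ : ℕ) : Polynomial ℂ) - ((u : ℕ) : Polynomial ℂ))) =
          Polynomial.C (∏ u ∈ S, ((s₀ : ℂ) - (u : ℂ))) := by
        rw [map_prod]
        refine prod_congr rfl fun u _ => ?_
        rw [map_sub]
        simp
      rw [h4, Nat.choose_zero_right, Nat.cast_one, one_mul, Polynomial.coeff_C_mul, hT] at h3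
      simp only at h3
      rw [Polynomial.coeff_X_pow_mul', if_pos le_rfl, Nat.sub_self] at h3
      have h5 : (∏ u ∈ S, ((s₀ : ℂ) - (u : ℂ))) ≠ 0 := by
        rw [prod_ne_zero_iff]
        intro u hu
        rw [sub_ne_zero]
        intro h6
        have h7 : s₀ = u := by exact_mod_cast h6
        exact (mem_filter.1 hu).2.1 h7.symm
      have h6 := (mul_eq_zero.1 h3).resolve_left h5
      rw [Polynomial.coeff_zero_eq_eval_zero, Polynomial.eval_finsetSum] at h6
      refine Eq.trans (sum_congr rfl fun a _ => ?_) h6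
      rw [Polynomial.eval_mul, Polynomial.eval_C]
    · -- the other terms
      intro s hs hne
      rw [mem_range] at hs
      by_cases hsS : s ∈ S
      · rw [prod_eq_zero hsS (sub_self _), zero_mul, Polynomial.coeff_zero]
      · have h4 : h ≤ rk i s := by
          by_contra h5
          exact hsS (mem_filter.2 ⟨mem_range.2 hs, hne, by omega⟩)
        have h5 := hkey i s₀ hs₀ s hs (by omega)
        rw [Nat.choose_zero_right, Nat.cast_one, one_mul, hT]
        simp only
        rw [mul_left_comm, Polynomial.coeff_X_pow_mul', if_neg (by omega)]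
    · intro hs
      exact absurd (mem_range.2 hs₀) hs
  -- conclusion
  have hs₀ := mem_range.1 (mem_sigma.1 ha₀).1
  have ha₀' := mem_range.1 (mem_sigma.1 ha₀).2
  apply hne
  have := Core_zero x hx (fun i => μ i - rk i a₀.1) (c a₀.1) (hc a₀.1 hs₀)
    (fun a => (F ⟨a₀.1, a⟩).eval 0) (fun i α hα => hkeyv i a₀.1 hs₀ α hα) a₀.2 ha₀'
  exact this

end Pool.Agent.H18.Ta

end

section

/-!
# Module Greedy (TA): the greedy filling, with possibly negative numbers of points

`a u` points in the cell `(u, 0)` and one point in the cell `(u, j u)`, for `u < ℓ - 1`, and the rest,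
`n - ∑ (a u + 1)` points, in the cell `(ℓ - 1, 0)`; all layers `s < ℓ - 1` are filled exactly.
-/

namespace Pool.Agent.H18.Ta

open Finset

private theorem Greedy_lt {ℓ μ u j s : ℕ} (h : s < u) : ld ℓ μ u j s = μ - (ℓ - 1 - s) := by
  unfold ld rk
  rw [if_pos h]

private theorem Greedy_self {ℓ μ u j : ℕ} : ld ℓ μ u j u = μ - j := by
  unfold ld rk
  simp

/-- The choice, layer by layer. -/
private theorem Greedy_aux (μ ℓ : ℕ) (hμ : 1 ≤ μ) (hℓ : μ < ℓ) (c : ℕ → ℤ) (n : ℤ) :
    ∀ k, k ≤ ℓ - 1 → ∃ (a : ℕ → ℤ) (j : ℕ → ℕ), ∀ s < k, s + j s < ℓ ∧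
      c s = ∑ u ∈ range s, (a u * (ld ℓ μ u 0 s : ℤ) + (ld ℓ μ u (j u) s : ℤ)) +
        (a s * μ + ((μ - j s : ℕ) : ℤ)) +
        (n - ∑ u ∈ range (s + 1), (a u + 1)) * ((μ - (ℓ - 1 - s) : ℕ) : ℤ) := by
  intro k
  induction k with
  | zero =>
    intro _
    exact ⟨fun _ => 0, fun _ => 0, fun s hs => absurd hs (Nat.not_lt_zero s)⟩
  | succ k ih =>
    intro hk
    obtain ⟨a, j, haj⟩ := ih (by omega)
    set τ : ℕ := μ - (ℓ - 1 - k) with hτ
    have hτμ : τ < μ := by omega
    set D : ℕ := μ - τ with hD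
    have hD1 : 1 ≤ D := by omega
    set R : ℤ := c k - ∑ u ∈ range k, (a u * (ld ℓ μ u 0 k : ℤ) + (ld ℓ μ u (j u) k : ℤ)) -
      (n - ∑ u ∈ range k, (a u + 1)) * (τ : ℤ) with hR
    have hDpos : (0 : ℤ) < D := by exact_mod_cast hD1
    have hmod0 := Int.emod_nonneg R hDpos.ne'
    have hmod1 := Int.emod_lt_of_pos R hDpos
    obtain ⟨ρ, hρ⟩ : ∃ ρ : ℕ, (ρ : ℤ) = R % D := ⟨(R % D).toNat, Int.toNat_of_nonneg hmod0⟩
    have hρD : ρ < D := by
      have : (ρ : ℤ) < D := by rw [hρ]; exact hmod1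
      exact_mod_cast this
    refine ⟨Function.update a k (R / D), Function.update j k (D - ρ), fun s hs => ?_⟩
    rcases Nat.lt_succ_iff_lt_or_eq.1 hs with hs | rfl
    · -- old layers
      have h1 := haj s hs
      have hne : s ≠ k := by omega
      rw [Function.update_of_ne hne, Function.update_of_ne hne]
      refine ⟨h1.1, ?_⟩
      have h3 : ∑ u ∈ range s, (Function.update a k (R / D) u * (ld ℓ μ u 0 s : ℤ) +
          (ld ℓ μ u (Function.update j k (D - ρ) u) s : ℤ)) =
          ∑ u ∈ range s, (a u * (ld ℓ μ u 0 s : ℤ) + (ld ℓ μ u (j u) s : ℤ)) := by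
        refine sum_congr rfl fun u hu => ?_
        rw [mem_range] at hu
        rw [Function.update_of_ne (by omega), Function.update_of_ne (by omega)]
      have h4 : ∑ u ∈ range (s + 1), (Function.update a k (R / D) u + 1) =
          ∑ u ∈ range (s + 1), (a u + 1) := by
        refine sum_congr rfl fun u hu => ?_
        rw [mem_range] at hu
        rw [Function.update_of_ne (by omega)]
      rw [h3, h4]
      exact h1.2
    · -- the new layer
      rw [Function.update_self, Function.update_self]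
      refine ⟨by omega, ?_⟩
      have h1 : ∑ u ∈ range s, (Function.update a s (R / D) u * (ld ℓ μ u 0 s : ℤ) +
          (ld ℓ μ u (Function.update j s (D - ρ) u) s : ℤ)) =
          ∑ u ∈ range s, (a u * (ld ℓ μ u 0 s : ℤ) + (ld ℓ μ u (j u) s : ℤ)) := by
        refine sum_congr rfl fun u hu => ?_
        rw [mem_range] at hu
        rw [Function.update_of_ne (by omega), Function.update_of_ne (by omega)]
      have h2 : ∑ u ∈ range (s + 1), (Function.update a s (R / D) u + 1) =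
          ∑ u ∈ range s, (a u + 1) + (R / D + 1) := by
        rw [sum_range_succ, Function.update_self]
        congr 1
        refine sum_congr rfl fun u hu => ?_
        rw [mem_range] at hu
        rw [Function.update_of_ne (by omega)]
      rw [h1, h2]
      have h3 : ((μ - (D - ρ) : ℕ) : ℤ) = τ + ρ := by
        have : μ - (D - ρ) = τ + ρ := by omega
        rw [this]
        push_cast
        rfl
      have h4 := Int.emod_add_mul_ediv R D
      have h5 : (μ : ℤ) = D + τ := by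
        have : μ = D + τ := by omega
        rw [this]
        push_cast
        omega
      rw [h3, hρ]
      have h6 : R = c s - ∑ u ∈ range s, (a u * (ld ℓ μ u 0 s : ℤ) + (ld ℓ μ u (j u) s : ℤ)) -
        (n - ∑ u ∈ range s, (a u + 1)) * (τ : ℤ) := hR
      rw [h5]
      linear_combination (-1 : ℤ) * h4 + h6

/-- The greedy filling. -/
theorem greedy (μ ℓ : ℕ) (hμ : 1 ≤ μ) (hℓ : μ < ℓ) (c : ℕ → ℤ) (n : ℤ) :
    ∃ (a : ℕ → ℤ) (j : ℕ → ℕ), ∀ s < ℓ - 1, s + j s < ℓ ∧
      c s = ∑ u ∈ range (ℓ - 1), (a u * (ld ℓ μ u 0 s : ℤ) + (ld ℓ μ u (j u) s : ℤ)) +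
        (n - ∑ u ∈ range (ℓ - 1), (a u + 1)) * (ld ℓ μ (ℓ - 1) 0 s : ℤ) := by
  obtain ⟨a, j, haj⟩ := Greedy_aux μ ℓ hμ hℓ c n (ℓ - 1) le_rfl
  refine ⟨a, j, fun s hs => ⟨(haj s hs).1, ?_⟩⟩
  rw [(haj s hs).2]
  set τ : ℕ := μ - (ℓ - 1 - s) with hτ
  rw [Greedy_lt (show s < ℓ - 1 from hs)]
  obtain ⟨k, hk⟩ : ∃ k, ℓ - 1 = (s + 1) + k := ⟨ℓ - 1 - (s + 1), by omega⟩
  have h1 : ∑ u ∈ range (ℓ - 1), (a u * (ld ℓ μ u 0 s : ℤ) + (ld ℓ μ u (j u) s : ℤ)) =
      ∑ u ∈ range (s + 1), (a u * (ld ℓ μ u 0 s : ℤ) + (ld ℓ μ u (j u) s : ℤ)) +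
      (∑ u ∈ range k, (a (s + 1 + u) + 1)) * (τ : ℤ) := by
    rw [hk, sum_range_add, sum_mul]
    congr 1
    refine sum_congr rfl fun u _ => ?_
    rw [Greedy_lt (by omega), Greedy_lt (by omega), ← hτ]
    ring
  have h2 : ∑ u ∈ range (ℓ - 1), (a u + 1) =
      ∑ u ∈ range (s + 1), (a u + 1) + ∑ u ∈ range k, (a (s + 1 + u) + 1) := by
    rw [hk, sum_range_add]
  rw [h1, h2, sum_range_succ (fun u => a u * (ld ℓ μ u 0 s : ℤ) + (ld ℓ μ u (j u) s : ℤ)),
    Greedy_self, Greedy_self, Nat.sub_zero, ← hτ]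
  ring

end Pool.Agent.H18.Ta

end

section

/-!
# Module Key (TA): the keys realise the ranks

Let `G = bG ℓ = 4 (ℓ+1)^2`, `W = G ^ (ℓ - u)`, `e = ex ℓ u j`, `K s = e * s + kap ℓ s`.
For `s < ℓ` we have `kap ℓ s = kap ℓ (s+1) + G ^ (ℓ - s)` (`sum_range_succ`, as `ℓ - s = (ℓ - (s+1)) + 1`).
Hence `K (s+1) + G ^ (ℓ - s) = K s + e`.

Facts about `e`: `e ≤ 2 W`; for `j = 0`, `e = 2 W > W`; for `j ≥ 1`: `j e < W` and, as `j ≤ ℓ`,
`j e ≥ W - j`, so `e ≥ (W - j)/j`, hence `(j + 1) e ≥ W - j + (W - j)/j > W + 2 W / G` because `G ≥ 4 ℓ²`,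
`W ≥ G`; in particular `e ≥ W / (2 ℓ)` and `e > W / G = G ^ (ℓ - u - 1)`.

* On `[0, u]` the key decreases strictly: for `s < u`, `G ^ (ℓ - s) ≥ G W > 2 W ≥ e`.
* On `[u+1, ℓ-1]` the key increases strictly: for `u + 1 ≤ s`, `s + 1 < ℓ`, `G ^ (ℓ - s) ≤ W / G < e`.
* The keys of the layers `< u` are larger than all keys of the layers `≥ u`:
  `K (u-1) = K u + G W - e`, `K s ≤ K u + e (s - u)` for `s ≥ u`, and `G W > e (ℓ + 1)` by `e ≤ 2 W`.
* `j = 0`: `K (u+1) = K u + e - W > K u`.
* `j ≥ 1`: `K (u+j) < K u`, as `K (u+j) ≤ K u + j e - W`, and (if `u + j + 1 < ℓ`)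
  `K (u+j+1) > K u`, as `K (u+j+1) ≥ K u + (j+1) e - W - 2 W / G` (geometric sum
  `∑_{i=1}^{j} G ^ (ℓ-u-i) ≤ 2 G ^ (ℓ-u-1)`).
These give the order of the keys `u+1 < … < u+j < u < u+j+1 < … < ℓ-1 < u-1 < … < 0`.
-/

namespace Pool.Agent.H18.Ta

open Finset

private theorem Key_G (ℓ : ℕ) : 4 ≤ bG ℓ := by
  unfold bG
  nlinarith only [Nat.zero_le ℓ]

private theorem Key_step {ℓ s : ℕ} (hs : s < ℓ) : kap ℓ s = kap ℓ (s + 1) + bG ℓ ^ (ℓ - s) := by
  unfold kap
  have h : ℓ - s = (ℓ - (s + 1)) + 1 := by omega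
  rw [h, Finset.sum_range_succ]

private theorem Key_anti {ℓ s t : ℕ} (h : s ≤ t) : kap ℓ t ≤ kap ℓ s := by
  unfold kap
  refine Finset.sum_le_sum_of_subset ?_
  intro i hi
  rw [Finset.mem_range] at hi ⊢
  omega

private theorem Key_geo (ℓ n : ℕ) : ∑ i ∈ range n, bG ℓ ^ (i + 1) ≤ 2 * bG ℓ ^ n := by
  have hG := Key_G ℓ
  induction n with
  | zero => simp
  | succ n ih =>
    rw [Finset.sum_range_succ]
    have h1 : 4 * bG ℓ ^ n ≤ bG ℓ ^ (n + 1) := by
      rw [pow_succ, mul_comm (bG ℓ ^ n)]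
      exact Nat.mul_le_mul_right _ hG
    omega

private theorem Key_kap {ℓ u : ℕ} (hu : u < ℓ) :
    kap ℓ u ≤ bG ℓ ^ (ℓ - u) + 2 * bG ℓ ^ (ℓ - u - 1) := by
  unfold kap
  have h : ℓ - u = (ℓ - u - 1) + 1 := by omega
  have h2 := Key_geo ℓ (ℓ - u - 1)
  calc ∑ i ∈ range (ℓ - u), bG ℓ ^ (i + 1)
      = ∑ i ∈ range (ℓ - u - 1 + 1), bG ℓ ^ (i + 1) := by rw [← h]
    _ = ∑ i ∈ range (ℓ - u - 1), bG ℓ ^ (i + 1) + bG ℓ ^ (ℓ - u - 1 + 1) := by
        rw [Finset.sum_range_succ]
    _ ≤ bG ℓ ^ (ℓ - u) + 2 * bG ℓ ^ (ℓ - u - 1) := by rw [← h]; omega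

private theorem Key_ex_le (ℓ u j : ℕ) : ex ℓ u j ≤ 2 * bG ℓ ^ (ℓ - u) := by
  unfold ex
  split_ifs with h
  · exact le_rfl
  · exact (Nat.div_le_self _ _).trans ((Nat.sub_le _ _).trans (by omega))

private theorem Key_pow {ℓ u : ℕ} (hu : u < ℓ) :
    bG ℓ ^ (ℓ - u) = bG ℓ * bG ℓ ^ (ℓ - u - 1) := by
  rw [← pow_succ']
  congr 1
  omega

/-- The main lower bound. -/
private theorem Key_big {ℓ u j : ℕ} (h : u + j < ℓ) :
    bG ℓ ^ (ℓ - u) + 2 * bG ℓ ^ (ℓ - u - 1) < ex ℓ u j * (j + 1) := by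
  have hG := Key_G ℓ
  have hp := Key_pow (show u < ℓ by omega)
  set V := bG ℓ ^ (ℓ - u - 1) with hV
  have hV1 : 1 ≤ V := Nat.one_le_pow _ _ (by omega)
  unfold ex
  split_ifs with hj
  · subst hj
    rw [hp]
    nlinarith only [hG, hV1]
  · have hj1 : 1 ≤ j := Nat.one_le_iff_ne_zero.mpr hj
    set W := bG ℓ ^ (ℓ - u) with hW
    set e := (W - 1) / j with he
    have h1 : W ≤ e * j + j := by
      have h2 := Nat.div_add_mod (W - 1) j
      have h3 := Nat.mod_lt (W - 1) hj1
      rw [← he] at h2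
      have h4 : j * e = e * j := mul_comm _ _
      have h5 : 1 ≤ W := by rw [hp]; nlinarith only [hG, hV1]
      omega
    have hjl : j ≤ ℓ := by omega
    have h6 : j * j + j + 2 * j * V < W := by
      rw [hp]
      unfold bG
      nlinarith only [h, hV1, hj1, hjl, Nat.mul_le_mul hjl hjl, Nat.mul_le_mul hjl hV1, Nat.zero_le (ℓ * V)]
    -- e > j + 2 V
    have h7 : j + 2 * V < e := by
      by_contra hc
      push Not at hc
      have : e * j ≤ (j + 2 * V) * j := Nat.mul_le_mul_right _ hc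
      nlinarith only [h1, h6, this]
    nlinarith only [h1, h7]

private theorem Key_e_gt {ℓ u j : ℕ} (h : u + j < ℓ) : bG ℓ ^ (ℓ - u - 1) < ex ℓ u j := by
  have hG := Key_G ℓ
  have h1 := Key_big h
  have hp := Key_pow (show u < ℓ by omega)
  set V := bG ℓ ^ (ℓ - u - 1) with hV
  have hV1 : 1 ≤ V := Nat.one_le_pow _ _ (by omega)
  by_contra hc
  push Not at hc
  have h2 : ex ℓ u j * (j + 1) ≤ V * (j + 1) := Nat.mul_le_mul_right _ hc
  have h3 : V * (j + 1) ≤ V * bG ℓ := by
    refine Nat.mul_le_mul_left _ ?_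
    unfold bG
    nlinarith only [h]
  rw [hp] at h1
  nlinarith only [h1, hV1, h2, h3]

private theorem Key_low {ℓ u j : ℕ} (hj : 1 ≤ j) : ex ℓ u j * j < bG ℓ ^ (ℓ - u) := by
  have hG := Key_G ℓ
  unfold ex
  rw [if_neg (by omega)]
  have h1 := Nat.div_mul_le_self (bG ℓ ^ (ℓ - u) - 1) j
  have h2 : 1 ≤ bG ℓ ^ (ℓ - u) := Nat.one_le_pow _ _ (by omega)
  omega

private theorem Key_dec {ℓ u j s t : ℕ} (h : u + j < ℓ) (hst : s < t) (ht : t ≤ u) :
    ex ℓ u j * t + kap ℓ t < ex ℓ u j * s + kap ℓ s := by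
  have hG := Key_G ℓ
  have h1 := Key_step (show s < ℓ by omega)
  have h2 : kap ℓ t ≤ kap ℓ (s + 1) := Key_anti (by omega)
  have h3 := Key_ex_le ℓ u j
  -- ex * (t - s) < G ^ (ℓ - s)
  have h4 : bG ℓ ^ (ℓ - u) * bG ℓ ≤ bG ℓ ^ (ℓ - s) := by
    rw [← pow_succ]
    exact Nat.pow_le_pow_right (by omega) (by omega)
  obtain ⟨k, hk⟩ : ∃ k, t = s + k := ⟨t - s, by omega⟩
  have h5 : 1 ≤ bG ℓ ^ (ℓ - u) := Nat.one_le_pow _ _ (by omega)
  have h6 : ex ℓ u j * k < bG ℓ ^ (ℓ - s) := by
    refine lt_of_lt_of_le ?_ h4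
    have h7 : ex ℓ u j * k ≤ 2 * bG ℓ ^ (ℓ - u) * ℓ := Nat.mul_le_mul h3 (by omega)
    refine lt_of_le_of_lt h7 ?_
    have h8 : 2 * ℓ < bG ℓ := by unfold bG; nlinarith only [h, hst, ht]
    calc 2 * bG ℓ ^ (ℓ - u) * ℓ = bG ℓ ^ (ℓ - u) * (2 * ℓ) := by ring
      _ < bG ℓ ^ (ℓ - u) * bG ℓ := Nat.mul_lt_mul_of_pos_left h8 h5
  rw [hk] at h2 ⊢
  rw [h1, Nat.mul_add]
  omega

private theorem Key_inc {ℓ u j s t : ℕ} (h : u + j < ℓ) (hs : u < s) (hst : s < t) (ht : t < ℓ) :
    ex ℓ u j * s + kap ℓ s < ex ℓ u j * t + kap ℓ t := by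
  have hG := Key_G ℓ
  have he := Key_e_gt h
  induction t, hst using Nat.le_induction with
  | base =>
    have h1 := Key_step (show s < ℓ by omega)
    have h2 : bG ℓ ^ (ℓ - s) ≤ bG ℓ ^ (ℓ - u - 1) :=
      Nat.pow_le_pow_right (by omega) (by omega)
    rw [h1]
    have h3 : ex ℓ u j * (s + 1) = ex ℓ u j * s + ex ℓ u j := by ring
    have h4 : s.succ = s + 1 := rfl
    rw [h4] at *
    omega
  | succ t hst ih =>
    have h0 := ih (by omega)
    have h1 := Key_step (show t < ℓ by omega)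
    have h2 : bG ℓ ^ (ℓ - t) ≤ bG ℓ ^ (ℓ - u - 1) :=
      Nat.pow_le_pow_right (by omega) (by omega)
    have h3 : ex ℓ u j * (t + 1) = ex ℓ u j * t + ex ℓ u j := by ring
    omega

private theorem Key_up {ℓ u j s t : ℕ} (h : u + j < ℓ) (hs : u ≤ s) (hsl : s < ℓ) (ht : t < u) :
    ex ℓ u j * s + kap ℓ s < ex ℓ u j * t + kap ℓ t := by
  have hG := Key_G ℓ
  have h1 := Key_step (show t < ℓ by omega)
  have h2 : kap ℓ s ≤ kap ℓ (t + 1) := Key_anti (by omega)
  have h3 := Key_ex_le ℓ u j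
  have h4 : bG ℓ ^ (ℓ - u) * bG ℓ ≤ bG ℓ ^ (ℓ - t) := by
    rw [← pow_succ]
    exact Nat.pow_le_pow_right (by omega) (by omega)
  have h5 : 1 ≤ bG ℓ ^ (ℓ - u) := Nat.one_le_pow _ _ (by omega)
  have h6 : ex ℓ u j * s < bG ℓ ^ (ℓ - t) := by
    refine lt_of_lt_of_le ?_ h4
    have h7 : ex ℓ u j * s ≤ 2 * bG ℓ ^ (ℓ - u) * ℓ := Nat.mul_le_mul h3 (by omega)
    refine lt_of_le_of_lt h7 ?_
    have h8 : 2 * ℓ < bG ℓ := by unfold bG; nlinarith only [h, ht]
    calc 2 * bG ℓ ^ (ℓ - u) * ℓ = bG ℓ ^ (ℓ - u) * (2 * ℓ) := by ring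
      _ < bG ℓ ^ (ℓ - u) * bG ℓ := Nat.mul_lt_mul_of_pos_left h8 h5
  rw [h1]
  omega

private theorem Key_mid_lt {ℓ u j s : ℕ} (h : u + j < ℓ) (hs : u < s) (hsj : s ≤ u + j) :
    ex ℓ u j * s + kap ℓ s < ex ℓ u j * u + kap ℓ u := by
  have h1 := Key_step (show u < ℓ by omega)
  have h2 : kap ℓ s ≤ kap ℓ (u + 1) := Key_anti (by omega)
  have h3 := Key_low (ℓ := ℓ) (u := u) (j := j) (by omega)
  have h4 : ex ℓ u j * s ≤ ex ℓ u j * (u + j) := Nat.mul_le_mul_left _ hsj
  rw [Nat.mul_add] at h4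
  rw [h1]
  omega

private theorem Key_mid_gt {ℓ u j t : ℕ} (h : u + j < ℓ) (ht : u + j < t) :
    ex ℓ u j * u + kap ℓ u < ex ℓ u j * t + kap ℓ t := by
  have h1 := Key_kap (show u < ℓ by omega)
  have h2 := Key_big h
  have h4 : ex ℓ u j * (u + (j + 1)) ≤ ex ℓ u j * t := Nat.mul_le_mul_left _ (by omega)
  rw [Nat.mul_add] at h4
  omega

/-- The keys are ordered as the ranks. -/
theorem key_lt {ℓ u j s t : ℕ} (h : u + j < ℓ) (hs : s < ℓ) (ht : t < ℓ)
    (hr : rk ℓ u j s < rk ℓ u j t) :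
    ex ℓ u j * s + kap ℓ s < ex ℓ u j * t + kap ℓ t := by
  unfold rk at hr
  by_cases hsu : s < u
  · rw [if_pos hsu] at hr
    by_cases htu : t < u
    · rw [if_pos htu] at hr
      exact Key_dec h (by omega) hsu.le
    · exfalso
      rw [if_neg htu] at hr
      split_ifs at hr <;> omega
  · by_cases htu : t < u
    · exact Key_up h (by omega) hs htu
    · rw [if_neg hsu, if_neg htu] at hr
      by_cases hs0 : s = u
      · subst hs0
        rw [if_pos rfl] at hr
        by_cases ht0 : t = s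
        · rw [if_pos ht0] at hr; omega
        · rw [if_neg ht0] at hr
          by_cases htj : t ≤ s + j
          · rw [if_pos htj] at hr; omega
          · exact Key_mid_gt h (by omega)
      · rw [if_neg hs0] at hr
        by_cases ht0 : t = u
        · subst ht0
          rw [if_pos rfl] at hr
          by_cases hsj : s ≤ t + j
          · exact Key_mid_lt h (by omega) hsj
          · rw [if_neg hsj] at hr; omega
        · rw [if_neg ht0] at hr
          refine Key_inc h (by omega) ?_ ht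
          split_ifs at hr <;> omega

end Pool.Agent.H18.Ta

end

section

/-!
# Module RgS (TA): summation over the exponents with bounded last coordinate
-/

namespace Pool.Agent.H18.Ta

open Finset Pool.Agent.H18.Ex

theorem mem_rg3 {b d : ℕ} {a : Fin 3 → ℕ} :
    a ∈ Rg d (![d, d, b] : Fin 3 → ℕ) ↔ a 2 ≤ b ∧ a 0 + a 1 + a 2 = d := by
  rw [mem_Rg, Fin.sum_univ_three]
  constructor
  · rintro ⟨h1, h2⟩
    exact ⟨h1 2, h2⟩
  · rintro ⟨h1, h2⟩
    refine ⟨fun i => ?_, h2⟩
    fin_cases i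
    · show a 0 ≤ d
      omega
    · show a 1 ≤ d
      omega
    · exact h1

theorem rg_sum {M : Type*} [AddCommMonoid M] (b d : ℕ) (hbd : b ≤ d) (g : (Fin 3 → ℕ) → M) :
    ∑ a ∈ Rg d (![d, d, b] : Fin 3 → ℕ), g a =
      ∑ s ∈ range (b + 1), ∑ a ∈ range (d + 1 - s), g ![d - s - a, a, s] := by
  rw [sum_sigma']
  refine sum_bij' (fun a _ => ⟨a 2, a 1⟩) (fun x _ => ![d - x.1 - x.2, x.2, x.1]) ?_ ?_ ?_ ?_ ?_
  · intro a ha
    rw [mem_rg3] at ha
    rw [mem_sigma, mem_range, mem_range]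
    constructor
    · show a 2 < b + 1
      omega
    · show a 1 < d + 1 - a 2
      omega
  · intro x hx
    rw [mem_sigma, mem_range, mem_range] at hx
    rw [mem_rg3]
    refine ⟨?_, ?_⟩
    · show x.1 ≤ b
      omega
    · show d - x.1 - x.2 + x.2 + x.1 = d
      omega
  · intro a ha
    rw [mem_rg3] at ha
    funext i
    fin_cases i
    · show d - a 2 - a 1 = a 0
      omega
    · rfl
    · rfl
  · intro x hx
    rfl
  · intro a ha
    rw [mem_rg3] at ha
    congr 1
    funext i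
    fin_cases i
    · show a 0 = d - a 2 - a 1
      omega
    · rfl
    · rfl

end Pool.Agent.H18.Ta

end

section

/-!
# Module Rk (TA): the ranks are a permutation of the layers
-/

namespace Pool.Agent.H18.Ta

open Finset Pool.Agent.H18.Ex

theorem rk_lt {ℓ u j s : ℕ} (h : u + j < ℓ) (hs : s < ℓ) : rk ℓ u j s < ℓ := by
  unfold rk
  split_ifs <;> omega

theorem rk_inj {ℓ u j : ℕ} (h : u + j < ℓ) {s t : ℕ} (hs : s < ℓ) (ht : t < ℓ)
    (he : rk ℓ u j s = rk ℓ u j t) : s = t := by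
  unfold rk at he
  split_ifs at he <;> omega

private theorem Rk_ell (μ : ℕ) : ∀ ℓ, μ ≤ ℓ → ∑ k ∈ range ℓ, (μ - k) = ell 2 μ := by
  intro ℓ hℓ
  have h1 : ∑ k ∈ range ℓ, (μ - k) = ∑ k ∈ range μ, (μ - k) := by
    symm
    apply sum_subset (range_subset_range.2 hℓ)
    intro k _ hk
    rw [mem_range, not_lt] at hk
    omega
  rw [h1]
  clear h1 hℓ
  induction μ with
  | zero => rfl
  | succ μ ih =>
    rw [sum_range_succ', Nat.sub_zero]
    have h2 : ∑ k ∈ range μ, (μ + 1 - (k + 1)) = ∑ k ∈ range μ, (μ - k) :=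
      sum_congr rfl fun k _ => by omega
    rw [h2, ih]
    unfold ell
    have h3 : (μ + 1 + 2 - 1).choose 2 = (μ + 1).choose 1 + (μ + 1).choose 2 := by
      rw [show μ + 1 + 2 - 1 = (μ + 1) + 1 by omega]
      exact Nat.choose_succ_succ _ _
    rw [h3, Nat.choose_one_right, show μ + 2 - 1 = μ + 1 by omega]
    omega

theorem sum_ld {ℓ μ u j : ℕ} (h : u + j < ℓ) (hμ : μ ≤ ℓ) :
    ∑ s ∈ range ℓ, ld ℓ μ u j s = ell 2 μ := by
  rw [← Rk_ell μ ℓ hμ]
  unfold ld
  have hinj : Set.InjOn (rk ℓ u j) (range ℓ : Finset ℕ) := by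
    intro s hs t ht he
    exact rk_inj h (mem_range.1 hs) (mem_range.1 ht) he
  have himg : (range ℓ).image (rk ℓ u j) = range ℓ := by
    apply eq_of_subset_of_card_le
    · intro k hk
      obtain ⟨s, hs, rfl⟩ := mem_image.1 hk
      exact mem_range.2 (rk_lt h (mem_range.1 hs))
    · rw [card_image_of_injOn hinj]
  conv_rhs => rw [← himg, sum_image hinj]

end Pool.Agent.H18.Ta

end
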