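import Pool.Agent.H94.LP4.H18.Ex.Defs
import Pool.Agent.H94.LP4.H18.FatDefs

/-! The parts of this file: H18.Ex.Frac, H18.Cub.CremL, H18.Nef.NefA, H18.TileAlg, H18.TileFinal, H18.TilePack. -/

section

/-!
# Module Frac: few exponents lie near a face
-/

namespace Pool.Agent.H18.Ex

open Finset

variable {ι : Type} [Fintype ι] [DecidableEq ι]

/-- At most `N + 1` active coordinates; `v ≤ w i`, `v ≤ σ`, `2 k ≤ v`.  Then the proportion of the
exponents with `x i < k` is at most `2 N² k / v`.

Proof.  Let `h = v / (2 N)` and `S = {x ∈ Rg σ w | x i < k}`.  For `x ∈ S` the other active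
coordinates (at most `N` of them) have sum `σ - x i ≥ v / 2 ≥ N h` (also `k - 1 + h ≤ w i`), so one
of them, `b` (choose one with `x b` maximal), has `x b ≥ h`.  Map `(x, j)`, `j ≤ h`, to
`(x + j e_i - j e_b, x i, b)`: this is an injection of `S × [0, h]` into
`Rg σ w × [0, k) × {active coordinates ≠ i}` (recover `j` from the `i`-th coordinate and `x i`).
Hence `|S| (h + 1) ≤ |Rg σ w| * k * N` and `v ≤ 2 N (h + 1)`.
(If `i` is inactive then `v = 0`.) -/
theorem frac (N : ℕ) (hN : 1 ≤ N) (σ : ℕ) (w : ι → ℕ) (i : ι) (k v : ℕ)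
    (hcard : (univ.filter fun i => 0 < w i).card ≤ N + 1) (hv : v ≤ w i) (hvσ : v ≤ σ)
    (hk : 2 * k ≤ v) :
    ((Rg σ w).filter fun x => x i < k).card * v ≤ 2 * N ^ 2 * k * (Rg σ w).card := by
  classical
  have : Nonempty ι := ⟨i⟩
  rcases Nat.eq_zero_or_pos v with hv0 | hv0
  · rw [hv0, mul_zero]
    exact Nat.zero_le _
  set h : ℕ := v / (2 * N) with hh
  set S := (Rg σ w).filter fun x => x i < k with hS
  set B := (univ.filter fun j => 0 < w j).erase i with hB
  have hiact : i ∈ univ.filter fun j => 0 < w j := by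
    simp only [mem_filter, mem_univ, true_and]
    omega
  have hBcard : B.card ≤ N := by
    rw [hB, card_erase_of_mem hiact]
    omega
  have hh1 : 2 * N * h ≤ v := by
    rw [hh]; exact Nat.mul_div_le v (2 * N)
  have hh2 : v < 2 * N * (h + 1) := by
    rw [hh]
    have := Nat.lt_mul_div_succ v (show 0 < 2 * N by omega)
    exact this
  have hhv : 2 * h ≤ v := by
    refine le_trans ?_ hh1
    nlinarith
  -- choice of the second coordinate
  have hex : ∀ x ∈ S, ∃ b ∈ B, h ≤ x b := by
    intro x hx
    rw [hS, mem_filter, mem_Rg] at hx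
    obtain ⟨⟨hxw, hxs⟩, hxk⟩ := hx
    by_contra hcon
    push Not at hcon
    have hsum : ∑ j, x j = x i + ∑ j ∈ B, x j := by
      have h1 : ∑ j, x j = ∑ j ∈ univ.filter (fun j => 0 < w j), x j := by
        symm
        refine sum_subset (filter_subset _ _) fun j _ hj => ?_
        simp only [mem_filter, mem_univ, true_and, not_lt, Nat.le_zero] at hj
        have := hxw j
        omega
      rw [h1, hB, add_sum_erase _ _ hiact]
    have hle : ∑ j ∈ B, x j ≤ B.card * (h - 1) := by
      rw [← smul_eq_mul]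
      refine sum_le_card_nsmul B x (h - 1) fun j hj => ?_
      have := hcon j hj
      omega
    have hBne : B.Nonempty := by
      rw [nonempty_iff_ne_empty]
      intro hBe
      rw [hBe, sum_empty] at hsum
      omega
    obtain ⟨b0, hb0⟩ := hBne
    have hh0 : 1 ≤ h := by
      have := hcon b0 hb0
      omega
    have hle2 : B.card * (h - 1) ≤ N * (h - 1) := Nat.mul_le_mul_right _ hBcard
    have hle3 : N * (h - 1) + N = N * h := by
      rw [← Nat.mul_succ, Nat.succ_eq_add_one, Nat.sub_add_cancel hh0]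
    have hle4 : 2 * (N * h) ≤ v := by linarith
    omega
  choose! b hbB hbh using hex
  set f : (ι → ℕ) × ℕ → (ι → ℕ) × (ℕ × ι) := fun p =>
    (fun c => if c = i then p.1 i + p.2 else if c = b p.1 then p.1 c - p.2 else p.1 c,
      (p.1 i, b p.1)) with hf
  have hinj : (S ×ˢ range (h + 1)).card ≤ ((Rg σ w) ×ˢ (range k ×ˢ B)).card := by
    refine card_le_card_of_injOn f ?_ ?_
    · intro p hp
      rw [mem_coe, mem_product, mem_range] at hp
      obtain ⟨hp1, hp2⟩ := hp
      have hb1 := hbB p.1 hp1
      have hb2 := hbh p.1 hp1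
      rw [hS, mem_filter, mem_Rg] at hp1
      obtain ⟨⟨hxw, hxs⟩, hxk⟩ := hp1
      have hbi : b p.1 ≠ i := by
        intro hbi
        rw [hbi, hB] at hb1
        exact (mem_erase.1 hb1).1 rfl
      rw [mem_coe, mem_product, mem_product]
      refine ⟨?_, mem_range.2 hxk, hb1⟩
      rw [mem_Rg]
      constructor
      · intro c
        simp only [hf]
        split_ifs with h1 h2
        · rw [h1]
          omega
        · have := hxw c
          omega
        · exact hxw c
      · have e1 : ∑ c, (f p).1 c = (f p).1 i + ((f p).1 (b p.1) +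
            ∑ c ∈ (univ.erase i).erase (b p.1), (f p).1 c) := by
          rw [add_sum_erase _ _ (mem_erase.2 ⟨hbi, mem_univ _⟩), add_sum_erase _ _ (mem_univ i)]
        have e2 : ∑ c, p.1 c = p.1 i + (p.1 (b p.1) +
            ∑ c ∈ (univ.erase i).erase (b p.1), p.1 c) := by
          rw [add_sum_erase _ _ (mem_erase.2 ⟨hbi, mem_univ _⟩), add_sum_erase _ _ (mem_univ i)]
        have e3 : ∑ c ∈ (univ.erase i).erase (b p.1), (f p).1 c =
            ∑ c ∈ (univ.erase i).erase (b p.1), p.1 c := by
          refine sum_congr rfl fun c hc => ?_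
          rw [mem_erase, mem_erase] at hc
          simp only [hf]
          rw [if_neg hc.2.1, if_neg hc.1]
        have e4 : (f p).1 i = p.1 i + p.2 := by simp [hf]
        have e5 : (f p).1 (b p.1) = p.1 (b p.1) - p.2 := by
          simp [hf, hbi]
        rw [e1, e3, e4, e5]
        omega
    · intro p hp q hq hpq
      rw [mem_coe, mem_product, mem_range] at hp hq
      have hb1 := hbB p.1 hp.1
      have hb2 := hbh p.1 hp.1
      have hb3 := hbh q.1 hq.1
      have hbi : b p.1 ≠ i := by
        intro hbi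
        rw [hbi, hB] at hb1
        exact (mem_erase.1 hb1).1 rfl
      simp only [hf, Prod.mk.injEq] at hpq
      obtain ⟨h1, h2, h3⟩ := hpq
      have h4 := congrFun h1 i
      simp only [if_true] at h4
      have h5 : p.2 = q.2 := by omega
      refine Prod.ext ?_ h5
      funext c
      have h6 := congrFun h1 c
      rw [← h3] at h6
      by_cases hc : c = i
      · rw [hc]; exact h2
      · by_cases hc2 : c = b p.1
        · rw [if_neg hc, if_pos hc2, if_neg hc, if_pos hc2] at h6
          rw [← h3] at hb3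
          rw [hc2] at h6 ⊢
          omega
        · rw [if_neg hc, if_neg hc2, if_neg hc, if_neg hc2] at h6
          exact h6
  rw [card_product, card_product, card_product, card_range, card_range] at hinj
  have h1 : S.card * v ≤ S.card * (2 * N * (h + 1)) := Nat.mul_le_mul_left _ hh2.le
  have h2 : (Rg σ w).card * (k * B.card) ≤ (Rg σ w).card * (k * N) :=
    Nat.mul_le_mul_left _ (Nat.mul_le_mul_left _ hBcard)
  calc S.card * v ≤ S.card * (2 * N * (h + 1)) := h1
    _ = 2 * N * (S.card * (h + 1)) := by ring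
    _ ≤ 2 * N * ((Rg σ w).card * (k * N)) := Nat.mul_le_mul_left _ (hinj.trans h2)
    _ = 2 * N ^ 2 * k * (Rg σ w).card := by ring

lemma Rg_update_eq (σ : ℕ) (w : ι → ℕ) (l : ι) :
    Rg σ (Function.update w l 0) = (Rg σ w).filter fun x => x l < 1 := by
  ext x
  rw [mem_filter, mem_Rg, mem_Rg]
  constructor
  · rintro ⟨h1, h2⟩
    have h3 := h1 l
    rw [Function.update_self] at h3
    refine ⟨⟨fun j => ?_, h2⟩, by omega⟩
    by_cases hj : j = l
    · rw [hj]; omega
    · have := h1 j
      rwa [Function.update_of_ne hj] at this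
  · rintro ⟨⟨h1, h2⟩, h3⟩
    refine ⟨fun j => ?_, h2⟩
    by_cases hj : j = l
    · rw [hj, Function.update_self]; omega
    · rw [Function.update_of_ne hj]; exact h1 j

/-- The case `k = 1`: a facet is small compared with the region. -/
theorem facet_le (N : ℕ) (hN : 1 ≤ N) (σ : ℕ) (w : ι → ℕ) (l : ι) (v : ℕ)
    (hcard : (univ.filter fun i => 0 < w i).card ≤ N + 1) (hv : v ≤ w l) (hvσ : v ≤ σ)
    (h2 : 2 ≤ v) :
    fc σ w l * v ≤ 2 * N ^ 2 * (Rg σ w).card := by
  have := frac N hN σ w l 1 v hcard hv hvσ (by omega)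
  unfold fc
  rw [Rg_update_eq]
  simpa using this

theorem fc_le (σ : ℕ) (w : ι → ℕ) (l : ι) : fc σ w l ≤ (Rg σ w).card := by
  unfold fc
  rw [Rg_update_eq]
  exact card_filter_le _ _

/-- The region is nonempty as soon as `σ ≤ ∑ w`. -/
theorem Rg_nonempty (σ : ℕ) (w : ι → ℕ) (h : σ ≤ ∑ i, w i) : (Rg σ w).Nonempty := by
  induction σ with
  | zero => exact ⟨fun _ => 0, mem_Rg.2 ⟨fun _ => Nat.zero_le _, by simp⟩⟩
  | succ s ih =>
    obtain ⟨x, hx⟩ := ih (by omega)
    rw [mem_Rg] at hx
    obtain ⟨h1, h2⟩ := hx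
    have hex : ∃ i, x i < w i := by
      by_contra hcon
      push Not at hcon
      have : ∑ i, w i ≤ ∑ i, x i := sum_le_sum fun i _ => hcon i
      omega
    obtain ⟨i, hi⟩ := hex
    refine ⟨Function.update x i (x i + 1), mem_Rg.2 ⟨fun j => ?_, ?_⟩⟩
    · by_cases hj : j = i
      · rw [hj, Function.update_self]; omega
      · rw [Function.update_of_ne hj]; exact h1 j
    · rw [sum_update_of_mem (mem_univ i), ← h2, ← add_sum_erase _ _ (mem_univ i),
        erase_eq]
      omega

/-- Lower bound for the number of exponents: the coordinate `x i` takes at least `b + 1` values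
(all values between `max (0, σ - ∑_{≠ i} w)` and `min (w i, σ)`; for each of them the rest can be
filled by `Rg_nonempty`). -/
theorem card_ge (σ : ℕ) (w : ι → ℕ) (b : ℕ) (i j : ι) (hij : i ≠ j) (hi : b ≤ w i)
    (hj : b ≤ w j) (hσ : b ≤ σ) (hw : σ + b ≤ ∑ i, w i) : b + 1 ≤ (Rg σ w).card := by
  have hsum : ∑ c, w c = w i + ∑ c ∈ univ.erase i, w c := (add_sum_erase _ _ (mem_univ i)).symm
  have hjle : w j ≤ ∑ c ∈ univ.erase i, w c :=
    single_le_sum (f := w) (fun _ _ => Nat.zero_le _) (mem_erase.2 ⟨hij.symm, mem_univ _⟩)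
  set W := ∑ c ∈ univ.erase i, w c with hW
  set t0 := σ - W with ht0
  have hsub : Icc t0 (t0 + b) ⊆ (Rg σ w).image fun x => x i := by
    intro t ht
    rw [mem_Icc] at ht
    have h1 : σ - t ≤ ∑ c, Function.update w i 0 c := by
      rw [sum_update_of_mem (mem_univ i), zero_add, ← erase_eq]
      show σ - t ≤ W
      omega
    obtain ⟨y, hy⟩ := Rg_nonempty (σ - t) (Function.update w i 0) h1
    rw [mem_Rg] at hy
    obtain ⟨hy1, hy2⟩ := hy
    have hyi : y i = 0 := by
      have := hy1 i
      rw [Function.update_self] at this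
      omega
    rw [mem_image]
    refine ⟨Function.update y i t, mem_Rg.2 ⟨fun c => ?_, ?_⟩, by rw [Function.update_self]⟩
    · by_cases hc : c = i
      · rw [hc, Function.update_self]; omega
      · rw [Function.update_of_ne hc]
        have := hy1 c
        rwa [Function.update_of_ne hc] at this
    · have e1 : ∑ c, y c = y i + ∑ c ∈ univ.erase i, y c := (add_sum_erase _ _ (mem_univ i)).symm
      rw [sum_update_of_mem (mem_univ i), ← erase_eq]
      omega
  have h2 := card_le_card hsub
  rw [Nat.card_Icc] at h2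
  have h3 := h2.trans card_image_le
  omega

end Pool.Agent.H18.Ex

end

section

/-!
# Module CremL: linear changes of coordinates
-/

namespace Pool.Agent.H18.Cub

open Finset Pool.Agent.H18.Fat

/-- The substitution `F ↦ F(g x)`. -/
noncomputable def cremL_lin {n : ℕ} (g : Matrix (Fin n) (Fin n) ℂ) :
    MvPolynomial (Fin n) ℂ →ₐ[ℂ] MvPolynomial (Fin n) ℂ :=
  MvPolynomial.aeval fun j => ∑ i, MvPolynomial.C (g j i) * MvPolynomial.X i

theorem cremL_lin_X {n : ℕ} (g : Matrix (Fin n) (Fin n) ℂ) (j : Fin n) :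
    cremL_lin g (MvPolynomial.X j) = ∑ i, MvPolynomial.C (g j i) * MvPolynomial.X i := by
  simp [cremL_lin]

theorem cremL_lin_C {n : ℕ} (g : Matrix (Fin n) (Fin n) ℂ) (a : ℂ) :
    cremL_lin g (MvPolynomial.C a) = MvPolynomial.C a := (cremL_lin g).commutes a

theorem cremL_comp {n : ℕ} (g g' : Matrix (Fin n) (Fin n) ℂ) :
    (cremL_lin g).comp (cremL_lin g') = cremL_lin (g' * g) := by
  refine MvPolynomial.algHom_ext fun j => ?_
  rw [AlgHom.comp_apply, cremL_lin_X, cremL_lin_X, map_sum]
  simp only [map_mul, cremL_lin_C, cremL_lin_X, Matrix.mul_apply, map_sum, Finset.mul_sum,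
    Finset.sum_mul]
  rw [Finset.sum_comm]
  refine Finset.sum_congr rfl fun l _ => Finset.sum_congr rfl fun i _ => ?_
  ring

theorem cremL_one {n : ℕ} : cremL_lin (1 : Matrix (Fin n) (Fin n) ℂ) = AlgHom.id ℂ _ := by
  refine MvPolynomial.algHom_ext fun j => ?_
  rw [cremL_lin_X, Finset.sum_eq_single j]
  · simp
  · intro i _ hi
    rw [Matrix.one_apply_ne (Ne.symm hi)]
    simp
  · intro h
    exact absurd (Finset.mem_univ j) h

theorem cremL_homogeneous {n d : ℕ} (g : Matrix (Fin n) (Fin n) ℂ)
    {F : MvPolynomial (Fin n) ℂ} (hF : F.IsHomogeneous d) : (cremL_lin g F).IsHomogeneous d := by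
  have h := hF.aeval (fun j => ∑ i, MvPolynomial.C (g j i) * MvPolynomial.X i)
    (n := 1) (fun j => MvPolynomial.IsHomogeneous.sum _ _ _ fun i _ => by
      have := (MvPolynomial.isHomogeneous_C (Fin n) (g j i)).mul
        (MvPolynomial.isHomogeneous_X ℂ i)
      simpa using this)
  rw [one_mul] at h
  exact h

theorem cremL_vanishes {n m : ℕ} (g : Matrix (Fin n) (Fin n) ℂ) (q : Fin n → ℂ)
    {F : MvPolynomial (Fin n) ℂ} (hF : VanishesToOrder F (g.mulVec q) m) :
    VanishesToOrder (cremL_lin g F) q m := by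
  rw [vanishesToOrder_iff_mem_ideal_pow] at hF ⊢
  have h1 := Ideal.mem_map_of_mem (cremL_lin g) hF
  rw [Ideal.map_pow] at h1
  refine Ideal.pow_right_mono ?_ m h1
  rw [Ideal.map_span, Ideal.span_le]
  rintro _ ⟨_, ⟨j, rfl⟩, rfl⟩
  have h2 : cremL_lin g (MvPolynomial.X j - MvPolynomial.C (g.mulVec q j)) =
      ∑ i, MvPolynomial.C (g j i) * (MvPolynomial.X i - MvPolynomial.C (q i)) := by
    rw [map_sub, cremL_lin_X, cremL_lin_C, Matrix.mulVec, dotProduct, map_sum,
      ← Finset.sum_sub_distrib]
    refine Finset.sum_congr rfl fun i _ => ?_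
    rw [map_mul]
    ring
  show cremL_lin g (MvPolynomial.X j - MvPolynomial.C (g.mulVec q j)) ∈ _
  rw [h2]
  exact Ideal.sum_mem _ fun i _ => Ideal.mul_mem_left _ _ (Ideal.subset_span ⟨i, rfl⟩)

/-- Linear changes of coordinates do not change the dimension.  (The linear substitution
`F ↦ F(g x)` maps forms vanishing to order `m` at `g q` to forms vanishing to order `m` at `q`; the
inverse matrix gives the inverse map.  For the orders use `vanishesToOrder_iff_mem_ideal_pow`: the
substitution maps `X_j - (g q)_j` to `∑ i, g j i (X_i - q_i)`.) -/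
theorem finrank_linear {r d : ℕ} {ι : Type*} (g : Matrix (Fin (r + 1)) (Fin (r + 1)) ℂ)
    (hg : IsUnit g.det) (p : ι → Fin (r + 1) → ℂ) (m : ι → ℕ) :
    Module.finrank ℂ (fatForms r d (fun i => g.mulVec (p i)) m) =
      Module.finrank ℂ (fatForms r d p m) := by
  let e : MvPolynomial (Fin (r + 1)) ℂ ≃ₐ[ℂ] MvPolynomial (Fin (r + 1)) ℂ :=
    AlgEquiv.ofAlgHom (cremL_lin g) (cremL_lin g⁻¹)
      (by rw [cremL_comp, Matrix.nonsing_inv_mul g hg, cremL_one])
      (by rw [cremL_comp, Matrix.mul_nonsing_inv g hg, cremL_one])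
  have h : (fatForms r d (fun i => g.mulVec (p i)) m).map
      (e.toLinearEquiv : MvPolynomial (Fin (r + 1)) ℂ →ₗ[ℂ] MvPolynomial (Fin (r + 1)) ℂ) =
      fatForms r d p m := by
    ext F
    constructor
    · rintro ⟨G, ⟨hG1, hG2⟩, rfl⟩
      exact ⟨cremL_homogeneous g hG1, fun i => cremL_vanishes g (p i) (hG2 i)⟩
    · rintro ⟨hF1, hF2⟩
      refine ⟨cremL_lin g⁻¹ F, ⟨cremL_homogeneous _ hF1, fun i => cremL_vanishes _ _ ?_⟩, ?_⟩
      · rw [Matrix.mulVec_mulVec, Matrix.nonsing_inv_mul g hg, Matrix.one_mulVec]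
        exact hF2 i
      · exact e.apply_symm_apply F
  rw [← h]
  exact (LinearEquiv.finrank_map_eq e.toLinearEquiv _).symm

end Pool.Agent.H18.Cub

end

section

/-!
# Effective classes and Cremona transformations
-/

namespace Pool.Agent.H18.Nef

open Finset Pool.Agent.H18.Fat

/-- A form of degree `e` vanishing to order more than `e` at a point is zero. -/
theorem eq_zero_of_vanishes {n e m : ℕ} (F : MvPolynomial (Fin n) ℂ) (hF : F.IsHomogeneous e)
    (q : Fin n → ℂ) (hm : e < m) (h : VanishesToOrder F q m) : F = 0 := by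
  have h1 : shift q F = 0 := by
    ext β
    rw [MvPolynomial.coeff_zero]
    by_cases hβ : β.degree < m
    · exact h β hβ
    · by_contra hc
      have h2 := MvPolynomial.le_totalDegree (MvPolynomial.mem_support_iff.2 hc)
      have h3 : (shift q F).totalDegree ≤ F.totalDegree := by
        unfold shift
        rw [MvPolynomial.aeval_def, MvPolynomial.eval₂_eq']
        refine (MvPolynomial.totalDegree_finsetSum _ _).trans (Finset.sup_le fun a ha => ?_)
        refine (MvPolynomial.totalDegree_mul _ _).trans ?_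
        rw [MvPolynomial.algebraMap_eq, MvPolynomial.totalDegree_C, zero_add]
        refine (MvPolynomial.totalDegree_finsetProd _ _).trans ?_
        refine le_trans ?_ (MvPolynomial.le_totalDegree ha)
        rw [Finsupp.sum_fintype _ _ (fun _ => rfl)]
        refine sum_le_sum fun i _ => ?_
        refine (MvPolynomial.totalDegree_pow _ _).trans ?_
        have h4 : (MvPolynomial.X i + MvPolynomial.C (q i) :
            MvPolynomial (Fin n) ℂ).totalDegree ≤ 1 := by
          refine (MvPolynomial.totalDegree_add _ _).trans (max_le ?_ ?_)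
          · rw [MvPolynomial.totalDegree_X]
          · rw [MvPolynomial.totalDegree_C]
            omega
        calc a i * _ ≤ a i * 1 := Nat.mul_le_mul_left _ h4
          _ = a i := mul_one _
      have h5 : F.totalDegree ≤ e := hF.totalDegree_le
      have h6 : (β.sum fun _ e => e) = β.degree := rfl
      omega
  have h2 : (MvPolynomial.aeval (fun j => MvPolynomial.X j - MvPolynomial.C (q j)))
      (shift q F) = F := by
    unfold shift
    rw [← AlgHom.comp_apply]
    have h3 : (MvPolynomial.aeval (fun j => (MvPolynomial.X j - MvPolynomial.C (q j) :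
        MvPolynomial (Fin n) ℂ))).comp (MvPolynomial.aeval
          (fun j => (MvPolynomial.X j + MvPolynomial.C (q j) : MvPolynomial (Fin n) ℂ))) =
        AlgHom.id ℂ _ := by
      apply MvPolynomial.algHom_ext
      intro j
      simp [MvPolynomial.algebraMap_eq]
    rw [h3]
    rfl
  rw [← h2, h1, map_zero]

end Pool.Agent.H18.Nef

end

section

/-!
# Fat points and tilings: the algebraic part

Systems of binomial moment conditions on the functions supported on a finite set of lattice
points, cutting by hyperplanes and simplicial cells.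
-/

namespace Pool.Agent.H18.Fat

open MvPolynomial Finset

section

variable {r : ℕ}

theorem exists_ne_zero_eval {G : MvPolynomial Unit ℂ} {a₀ : Unit → ℂ} (hG : eval a₀ G ≠ 0) :
    ∃ τ : Unit → ℂ, τ () ≠ 0 ∧ eval τ G ≠ 0 := by
  by_contra hcon
  push Not at hcon
  have h1 : G * X () = 0 := by
    apply MvPolynomial.funext
    intro x
    rw [map_mul, eval_X, map_zero]
    by_cases hx : x () = 0
    · rw [hx, mul_zero]
    · rw [hcon x hx, zero_mul]
  rcases mul_eq_zero.1 h1 with h2 | h2
  · rw [h2, map_zero] at hG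
    exact hG rfl
  · exact X_ne_zero _ h2

/-- Splitting a sum over `B₁ ∪ B₂`. -/
theorem sum_split {B B₁ B₂ : Finset (Fin r → ℤ)} (h₁ : B₁ ⊆ B) (h₂ : B₂ ⊆ B)
    {ℓ : (Fin r → ℤ) → ℤ} {c : ℤ} (hB₁ : ∀ a ∈ B₁, ℓ a ≤ c) (hB₂ : ∀ a ∈ B₂, c < ℓ a)
    (g : (Fin r → ℤ) → ℂ) (hg : ∀ a ∈ B, a ∉ B₁ → a ∉ B₂ → g a = 0) :
    ∑ a ∈ B, g a = ∑ a ∈ B₁, g a + ∑ a ∈ B₂, g a := by
  classical
  have hdisj : Disjoint B₁ B₂ := by
    rw [Finset.disjoint_left]
    intro a ha ha'
    have := hB₁ a ha
    have := hB₂ a ha'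
    omega
  rw [← sum_union hdisj]
  symm
  apply sum_subset (union_subset h₁ h₂)
  intro a ha hna
  rw [mem_union, not_or] at hna
  exact hg a ha hna.1 hna.2

end

end Pool.Agent.H18.Fat

end

section

/-!
# General fat points, all but `r + 1` of which have small multiplicity
-/

namespace Pool.Agent.H18.Fat

open MvPolynomial Finset

section

/-! ### Moments -/

/-! ### The region of exponents -/

/-! ### The upper bound -/

/-! ### The lower bound -/

/-- General points with indices in `J` are linearly independent. -/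
theorem general_det {r k : ℕ} (J : Fin (r + 1) ↪ Fin k) :
    ForGeneralPoints r k fun p =>
      (Matrix.of fun j l => p (J l) j : Matrix (Fin (r + 1)) (Fin (r + 1)) ℂ).det ≠ 0 := by
  classical
  let G : MvPolynomial (Fin k × Fin (r + 1)) ℂ :=
    (Matrix.of fun j l => X (J l, j) :
      Matrix (Fin (r + 1)) (Fin (r + 1)) (MvPolynomial (Fin k × Fin (r + 1)) ℂ)).det
  have hG : ∀ p : Fin k → Fin (r + 1) → ℂ, eval (fun x => p x.1 x.2) G =
      (Matrix.of fun j l => p (J l) j : Matrix (Fin (r + 1)) (Fin (r + 1)) ℂ).det := by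
    intro p
    rw [RingHom.map_det, RingHom.mapMatrix_apply]
    refine congrArg Matrix.det ?_
    ext j l
    simp
  refine ⟨G, ?_, fun p hp => by rwa [hG] at hp⟩
  intro h0
  have h1 := hG fun i j => if J j = i then 1 else 0
  rw [h0, map_zero] at h1
  have h2 : (Matrix.of fun j l => (fun (i : Fin k) (j : Fin (r + 1)) =>
      if J j = i then (1 : ℂ) else 0) (J l) j : Matrix (Fin (r + 1)) (Fin (r + 1)) ℂ) = 1 := by
    ext j l
    simp [Matrix.one_apply, J.injective.eq_iff]
  rw [h2, Matrix.det_one] at h1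
  exact zero_ne_one h1

end

end Pool.Agent.H18.Fat

end

section

/-!
# Packing truncated boxes by simplicial cells of given orders
-/

namespace Pool.Agent.H18.Fat

open Finset

/-- The length of a fat point of multiplicity `m` in dimension `r`. -/
def len (r m : ℕ) : ℕ := (m + r - 1).choose r

/-! ### Groups -/

/-! ### Dimension one -/

/-! ### The packing theorem -/

end Pool.Agent.H18.Fat

end
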