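import Pool.Agent.H94.LP4.M73

/-! The parts of this file: H18.Tl.Dm, H18.Tl.Rv, H18.Tl.Vn, H18.Tl.Qt, H18.Tl.Dv, H18.Tl.ShB, H18.Tl.Td. -/

section

/-!
# Module Dm (TL): dimensions

`Ve b e` is linearly equivalent to the functions on `Σ β, Fin (e + 1 - dg β)` (coefficients), `U b a` to the functions on
`Box b × Fin a` (or `Module.finrank_pi_fintype` with `degreeLT`).

`h0_le`, `h0_eq_zero`: `Sol b e L ≤ Ve b e`, `Submodule.finrank_mono`, `Submodule.finrank_eq_zero`.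
-/

namespace Pool.Agent.H18.Tl

open Finset Polynomial

variable {τ : Type} [Fintype τ] [DecidableEq τ] {b : τ → ℕ}

/-- The submodule of the vectors with bounded degrees. -/
private def Dm_W (b : τ → ℕ) (n : Box b → ℕ) : Submodule ℂ (V b) where
  carrier := {F | ∀ β j, n β ≤ j → (F β).coeff j = 0}
  add_mem' := by
    intro F G hF hG β j h
    rw [Pi.add_apply, coeff_add, hF β j h, hG β j h, add_zero]
  zero_mem' := fun _ _ _ => rfl
  smul_mem' := by
    intro c F hF β j h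
    rw [Pi.smul_apply, coeff_smul, hF β j h, smul_zero]

/-- The coefficients. -/
private noncomputable def Dm_equiv (n : Box b → ℕ) :
    Dm_W b n ≃ₗ[ℂ] ((β : Box b) → (Polynomial.degreeLT ℂ (n β))) where
  toFun F := fun β => ⟨F.1 β, by
    rw [Polynomial.mem_degreeLT, Polynomial.degree_lt_iff_coeff_zero]
    exact fun j hj => F.2 β j hj⟩
  map_add' _ _ := rfl
  map_smul' _ _ := rfl
  invFun G := ⟨fun β => (G β).1, by
    intro β j hj
    have := (G β).2
    rw [Polynomial.mem_degreeLT, Polynomial.degree_lt_iff_coeff_zero] at this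
    exact this j hj⟩
  left_inv _ := rfl
  right_inv _ := rfl

/-- The coefficients. -/
private noncomputable def Dm_equiv2 (n : Box b → ℕ) :
    Dm_W b n ≃ₗ[ℂ] ((β : Box b) → (Fin (n β) → ℂ)) :=
  (Dm_equiv n).trans (LinearEquiv.piCongrRight fun β => Polynomial.degreeLTEquiv ℂ (n β))

private theorem Dm_finite (n : Box b → ℕ) : FiniteDimensional ℂ (Dm_W b n) :=
  Module.Finite.equiv (Dm_equiv2 n).symm

private theorem Dm_finrank (n : Box b → ℕ) : Module.finrank ℂ (Dm_W b n) = ∑ β, n β := by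
  rw [(Dm_equiv2 n).finrank_eq, Module.finrank_pi_fintype]
  simp

omit [DecidableEq τ] in
private theorem Dm_Ve (e : ℕ) : Ve b e = Dm_W b (fun β => e + 1 - dg β) := by
  ext F
  constructor
  · intro h β j hj
    have hj' : e + 1 - dg β ≤ j := hj
    exact h β j (by omega)
  · intro h β j hj
    exact h β j (show e + 1 - dg β ≤ j by omega)

omit [Fintype τ] [DecidableEq τ] in
private theorem Dm_U (a : ℕ) : U b a = Dm_W b (fun _ => a) := rfl

instance (e : ℕ) : FiniteDimensional ℂ (Ve b e) := by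
  rw [Dm_Ve]
  exact Dm_finite _

instance (a : ℕ) : FiniteDimensional ℂ (U b a) := by
  rw [Dm_U]
  exact Dm_finite _

instance (e : ℕ) (L : List (Pt τ)) : FiniteDimensional ℂ (Sol b e L) :=
  Submodule.finiteDimensional_of_le (inf_le_left : Sol b e L ≤ Ve b e)

theorem finrank_Ve (e : ℕ) : Module.finrank ℂ (Ve b e) = Lm b (e + 1) := by
  rw [Dm_Ve, Dm_finrank, Lm]

theorem finrank_U (a : ℕ) : Module.finrank ℂ (U b a) = a * Pc b := by
  rw [Dm_U, Dm_finrank, Finset.sum_const, Finset.card_univ, smul_eq_mul, Pc, mul_comm]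

theorem h0_le (e : ℕ) (L : List (Pt τ)) : h0 b e L ≤ Lm b (e + 1) := by
  rw [← finrank_Ve]
  exact Submodule.finrank_mono (inf_le_left : Sol b e L ≤ Ve b e)

/-- `h0 = 0` means that only `0` is a solution. -/
theorem h0_eq_zero (e : ℕ) (L : List (Pt τ)) : h0 b e L = 0 ↔ ∀ F ∈ Sol b e L, F = 0 := by
  rw [h0, Submodule.finrank_eq_zero, Submodule.eq_bot_iff]

end Pool.Agent.H18.Tl

end

section

/-!
# Module Rv (TL): the reversal

Let `z_l ≠ 0` for all `l`, `z' = 1/z`.  Claim: `tz b z' * rv b = N * tz b z` with a matrix `N` such that `N γ κ = 0` unless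
`κ ≤ γ`: `N γ κ = ∏_l (-1)^(κ_l) z_l^(κ_l + γ_l - b_l) binom(b_l - κ_l, γ_l - κ_l)` for `κ ≤ γ` (use `z_l^(κ_l + γ_l) / z_l^(b_l)`).
In one variable the entry `(γ, β)` of the right side is `z^(γ+β-b) ∑_κ (-1)^κ binom(b-κ, γ-κ) binom(β, κ)` and of the
left side it is `binom(b-β, γ) z^(γ+β-b)`; and `∑_{κ ≤ γ} (-1)^κ binom(b-κ, γ-κ) binom(β, κ) = binom(b-β, γ)` for `β ≤ b`: it is the
coefficient of `η^γ` in `∑_κ binom(β,κ) (-η)^κ (1+η)^(b-κ) = (1+η)^(b-β) ((1+η)-η)^β = (1+η)^(b-β)`.  In several variables take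
the product over `l` (`Finset.prod_univ_sum`).

`van_rv`: `act (tz b z') (act (rv b) F) γ = ∑_{κ ≤ γ} N γ κ • act (tz b z) F κ`, and `(X - C x)^(m - dg κ)` is divisible by
`(X - C x)^(m - dg γ)` if `κ ≤ γ`.
-/

namespace Pool.Agent.H18.Tl

open Finset Polynomial

variable {τ : Type} [Fintype τ] [DecidableEq τ] {b : τ → ℕ}

theorem rb_rb (β : Box b) : rb (rb β) = β := by
  funext l
  simp only [rb, Fin.rev_rev]

private theorem Rv_dg (β : Box b) : dg (rb β) + dg β = Bs b := by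
  unfold dg Bs
  rw [← Finset.sum_add_distrib]
  refine Finset.sum_congr rfl fun l _ => ?_
  have h : ((rb β l : Fin (b l + 1)) : ℕ) = b l + 1 - ((β l : ℕ) + 1) := by
    simp only [rb, Fin.val_rev]
  have h2 := (β l).isLt
  omega

theorem dg_rb (β : Box b) : dg (rb β) + dg β = Bs b := Rv_dg β

private theorem Rv_eq (γ β : Box b) : γ = rb β ↔ β = rb γ := by
  constructor
  · intro h
    rw [h, rb_rb]
  · intro h
    rw [h, rb_rb]

theorem rv_mul_rv : rv b * rv b = 1 := by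
  ext γ β
  rw [Matrix.mul_apply, Finset.sum_eq_single (rb β)]
  · simp only [rv, rb_rb, if_true, mul_one, Matrix.one_apply]
  · intro κ _ hκ
    simp only [rv, if_neg hκ, mul_zero]
  · intro h
    exact absurd (Finset.mem_univ _) h

theorem rv_mulVec (w : Box b → ℂ) (γ : Box b) : (rv b).mulVec w γ = w (rb γ) := by
  rw [Matrix.mulVec, dotProduct, Finset.sum_eq_single (rb γ)]
  · simp only [rv, rb_rb, if_true, one_mul]
  · intro κ _ hκ
    have h : ¬ γ = rb κ := fun h => hκ ((Rv_eq γ κ).1 h)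
    simp only [rv, if_neg h, zero_mul]
  · intro h
    exact absurd (Finset.mem_univ _) h

/-- The binomial identity. -/
private theorem Rv_binom (B β g : ℕ) (hβ : β ≤ B) :
    (((B - β).choose g : ℕ) : ℂ) = ∑ k ∈ range (β + 1),
      (if k ≤ g then ((-1) ^ k * (((B - k).choose (g - k) : ℕ) : ℂ)) else 0) *
        ((β.choose k : ℕ) : ℂ) := by
  have h1 : ((1 + X : ℂ[X])) ^ (B - β) = ∑ k ∈ range (β + 1),
      C ((-1) ^ k * ((β.choose k : ℕ) : ℂ)) * (X ^ k * (1 + X) ^ (B - k)) := by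
    have h2 : ((-X + (1 + X)) : ℂ[X]) ^ β = 1 := by
      have : (-X + (1 + X) : ℂ[X]) = 1 := by ring
      rw [this, one_pow]
    rw [add_pow] at h2
    have h5 : (1 + X : ℂ[X]) ^ (B - β) = (∑ m ∈ range (β + 1),
        (-X) ^ m * (1 + X) ^ (β - m) * ((β.choose m : ℕ) : ℂ[X])) * (1 + X) ^ (B - β) := by
      rw [h2, one_mul]
    rw [h5, Finset.sum_mul]
    refine Finset.sum_congr rfl fun k hk => ?_
    have hk' : k ≤ β := Nat.lt_succ_iff.1 (Finset.mem_range.1 hk)
    have h3 : (1 + X : ℂ[X]) ^ (B - k) = (1 + X) ^ (β - k) * (1 + X) ^ (B - β) := by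
      rw [← pow_add]
      congr 1
      omega
    rw [h3, neg_pow, C_mul, C_pow, C_neg, C_1, C_eq_natCast]
    ring
  have h4 := congrArg (fun p : ℂ[X] => p.coeff g) h1
  rw [coeff_one_add_X_pow, finsetSum_coeff] at h4
  rw [h4]
  refine Finset.sum_congr rfl fun k _ => ?_
  rw [coeff_C_mul, coeff_X_pow_mul', coeff_one_add_X_pow]
  split_ifs <;> ring

/-- One factor of the matrix `N`. -/
private noncomputable def Rv_n (z : ℂ) (B g k : ℕ) : ℂ :=
  if k ≤ g then (-1) ^ k * (((B - k).choose (g - k) : ℕ) : ℂ) * z ^ (k + g) * (z ^ B)⁻¹ else 0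

private theorem Rv_one (z : ℂ) (hz : z ≠ 0) (B β g : ℕ) (hβ : β ≤ B) :
    (((B - β).choose g : ℕ) : ℂ) * z⁻¹ ^ (B - β - g) =
      ∑ k : Fin (B + 1), Rv_n z B g (k : ℕ) * (((β.choose (k : ℕ) : ℕ) : ℂ) * z ^ (β - (k : ℕ))) := by
  have h1 : ∑ k : Fin (B + 1),
      Rv_n z B g (k : ℕ) * (((β.choose (k : ℕ) : ℕ) : ℂ) * z ^ (β - (k : ℕ))) =
      ∑ k ∈ range (B + 1), Rv_n z B g k * (((β.choose k : ℕ) : ℂ) * z ^ (β - k)) :=
    Fin.sum_univ_eq_sum_range
      (fun k => Rv_n z B g k * (((β.choose k : ℕ) : ℂ) * z ^ (β - k))) (B + 1)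
  have h2 : ∑ k ∈ range (B + 1), Rv_n z B g k * (((β.choose k : ℕ) : ℂ) * z ^ (β - k)) =
      ∑ k ∈ range (β + 1), Rv_n z B g k * (((β.choose k : ℕ) : ℂ) * z ^ (β - k)) := by
    symm
    refine Finset.sum_subset (Finset.range_mono (by omega)) fun k _ hk => ?_
    have hk' : β < k := by
      rw [Finset.mem_range] at hk
      omega
    rw [Nat.choose_eq_zero_of_lt hk', Nat.cast_zero, zero_mul, mul_zero]
  have h3 : ∀ k ∈ range (β + 1), Rv_n z B g k * (((β.choose k : ℕ) : ℂ) * z ^ (β - k)) =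
      (z ^ (β + g) * (z ^ B)⁻¹) *
        ((if k ≤ g then ((-1) ^ k * (((B - k).choose (g - k) : ℕ) : ℂ)) else 0) *
          ((β.choose k : ℕ) : ℂ)) := by
    intro k hk
    have hk' : k ≤ β := Nat.lt_succ_iff.1 (Finset.mem_range.1 hk)
    unfold Rv_n
    split_ifs
    · have h4 : z ^ (β + g) = z ^ (k + g) * z ^ (β - k) := by
        rw [← pow_add]
        congr 1
        omega
      rw [h4]
      ring
    · ring
  rw [h1, h2, Finset.sum_congr rfl h3, ← Finset.mul_sum, ← Rv_binom B β g hβ]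
  by_cases hg : g ≤ B - β
  · have h5 : z ^ B = z ^ (β + g) * z ^ (B - β - g) := by
      rw [← pow_add]
      congr 1
      omega
    rw [h5, mul_inv, ← mul_assoc (z ^ (β + g)), mul_inv_cancel₀ (pow_ne_zero _ hz), one_mul,
      inv_pow, mul_comm]
  · rw [Nat.choose_eq_zero_of_lt (not_le.1 hg), Nat.cast_zero, zero_mul, mul_zero]

/-- The matrix `N`. -/
private noncomputable def Rv_N (b : τ → ℕ) (z : τ → ℂ) : Mt b :=
  fun γ κ => ∏ l, Rv_n (z l) (b l) (γ l : ℕ) (κ l : ℕ)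

private theorem Rv_mul (z : τ → ℂ) (hz : ∀ l, z l ≠ 0) :
    tz b (fun l => (z l)⁻¹) * rv b = Rv_N b z * tz b z := by
  ext γ β
  rw [Matrix.mul_apply, Finset.sum_eq_single (rb β), Matrix.mul_apply]
  · have h1 : tz b (fun l => (z l)⁻¹) γ (rb β) * rv b (rb β) β =
        ∏ l, ((((b l - (β l : ℕ)).choose (γ l : ℕ) : ℕ) : ℂ) *
          (z l)⁻¹ ^ (b l - (β l : ℕ) - (γ l : ℕ))) := by
      have h2 : rv b (rb β) β = 1 := by
        simp only [rv, if_true]
      rw [h2, mul_one]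
      unfold tz
      refine Finset.prod_congr rfl fun l _ => ?_
      have h3 : ((rb β l : Fin (b l + 1)) : ℕ) = b l - (β l : ℕ) := by
        simp only [rb, Fin.val_rev]
        omega
      rw [h3]
    rw [h1]
    have h4 : ∀ κ : Box b, Rv_N b z γ κ * tz b z κ β = ∏ l, (Rv_n (z l) (b l) (γ l : ℕ) (κ l : ℕ) *
        ((((β l : ℕ).choose (κ l : ℕ) : ℕ) : ℂ) * z l ^ ((β l : ℕ) - (κ l : ℕ)))) := by
      intro κ
      rw [Finset.prod_mul_distrib]
      rfl
    rw [Finset.sum_congr rfl fun κ _ => h4 κ]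
    have h5 : (Finset.univ : Finset (Box b)) =
        Fintype.piFinset fun l => (Finset.univ : Finset (Fin (b l + 1))) :=
      Fintype.piFinset_univ.symm
    have h6 := Finset.prod_univ_sum (fun l => (Finset.univ : Finset (Fin (b l + 1))))
      (fun l k => Rv_n (z l) (b l) (γ l : ℕ) (k : ℕ) *
        ((((β l : ℕ).choose (k : ℕ) : ℕ) : ℂ) * z l ^ ((β l : ℕ) - (k : ℕ))))
    rw [h5]
    refine Eq.trans (Finset.prod_congr rfl fun l _ => ?_) h6
    exact Rv_one (z l) (hz l) (b l) (β l : ℕ) (γ l : ℕ) (Nat.lt_succ_iff.1 (β l).isLt)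
  · intro κ _ hκ
    simp only [rv, if_neg hκ, mul_zero]
  · intro h
    exact absurd (Finset.mem_univ _) h

theorem van_rv (p : Pt τ) (hz : ∀ l, p.z l ≠ 0) (F : V b) (hF : F ∈ van b p) :
    act (rv b) F ∈ van b ⟨p.m, p.x, fun l => (p.z l)⁻¹⟩ := by
  rw [mem_van] at hF ⊢
  intro γ
  show (X - C p.x) ^ (p.m - dg γ) ∣ act (tz b fun l => (p.z l)⁻¹) (act (rv b) F) γ
  rw [← act_mul, Rv_mul p.z hz, act_mul, act_apply]
  refine Finset.dvd_sum fun κ _ => ?_
  by_cases h : ∀ l, (κ l : ℕ) ≤ (γ l : ℕ)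
  · have h1 : dg κ ≤ dg γ := Finset.sum_le_sum fun l _ => h l
    exact Dvd.dvd.mul_left ((pow_dvd_pow _ (by omega)).trans (hF κ)) _
  · push Not at h
    obtain ⟨l, hl⟩ := h
    have h2 : Rv_N b p.z γ κ = 0 := by
      refine Finset.prod_eq_zero (Finset.mem_univ l) ?_
      unfold Rv_n
      rw [if_neg (not_le.2 hl)]
    rw [h2, C_0, zero_mul]
    exact dvd_zero _

end Pool.Agent.H18.Tl

end

section

/-!
# Module Vn (TL): vanishing conditions

`van_unit`: `act A (q • F) = q • act A F`, and `q`, `X - C x` are coprime (`(X - C x)^k ∣ q * G → (X - C x)^k ∣ G`,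
`IsCoprime.pow_left`, `isCoprime` from `q.eval x ≠ 0`: `Polynomial.isCoprime_X_sub_C...` or `(prime_X_sub_C x).coprime_iff_not_dvd`).
`van_sh`, `van_sc`: `taylor c` and `comp (C δ * X)` are ring automorphisms of `ℂ[X]` fixing the constants (`δ ≠ 0`), so they
commute with `act A` and preserve divisibility in both directions (use the inverse automorphism).
`van_iff`: `X_sub_C_pow_dvd_iff` and `X_pow_dvd_iff`; `taylor r f = f.comp (X + C r)`.
`van_zero_iff`: `tz_zero`, `act_one`.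
-/

namespace Pool.Agent.H18.Tl

open Finset Polynomial

variable {τ : Type} [Fintype τ] [DecidableEq τ] {b : τ → ℕ}

private theorem Vn_coprime (q : ℂ[X]) (x : ℂ) (hq : q.eval x ≠ 0) (k : ℕ) (G : ℂ[X])
    (h : (X - C x) ^ k ∣ q * G) : (X - C x) ^ k ∣ G := by
  have h1 : IsCoprime (X - C x) q := by
    rw [(prime_X_sub_C x).irreducible.coprime_iff_not_dvd, dvd_iff_isRoot]
    exact hq
  exact (h1.pow_left).dvd_of_dvd_mul_left h

theorem van_unit (p : Pt τ) (q : ℂ[X]) (hq : q.eval p.x ≠ 0) (F : V b) (h : q • F ∈ van b p) :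
    F ∈ van b p := by
  rw [mem_van] at h ⊢
  intro γ
  have h1 := h γ
  rw [map_smul, Pi.smul_apply, smul_eq_mul] at h1
  exact Vn_coprime q p.x hq _ _ h1

theorem vanL_unit (L : List (Pt τ)) (q : ℂ[X]) (hq : ∀ p ∈ L, q.eval p.x ≠ 0) (F : V b)
    (h : q • F ∈ vanL b L) : F ∈ vanL b L := by
  rw [mem_vanL] at h ⊢
  intro p hp
  exact van_unit p q (hq p hp) F (h p hp)

theorem vanL_append (L L' : List (Pt τ)) (F : V b) :
    F ∈ vanL b (L ++ L') ↔ F ∈ vanL b L ∧ F ∈ vanL b L' := by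
  rw [mem_vanL, mem_vanL, mem_vanL]
  constructor
  · intro h
    exact ⟨fun p hp => h p (List.mem_append_left _ hp), fun p hp => h p (List.mem_append_right _ hp)⟩
  · rintro ⟨h1, h2⟩ p hp
    rcases List.mem_append.1 hp with hp | hp
    · exact h1 p hp
    · exact h2 p hp

private theorem Vn_taylor_mul (c : ℂ) (f g : ℂ[X]) : taylor c (f * g) = taylor c f * taylor c g := by
  rw [taylor_apply, taylor_apply, taylor_apply, mul_comp]

private theorem Vn_taylor_act (c : ℂ) (A : Mt b) (F : V b) (γ : Box b) :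
    act A (sh c F) γ = taylor c (act A F γ) := by
  rw [act_apply, act_apply, map_sum]
  refine Finset.sum_congr rfl fun β _ => ?_
  rw [Vn_taylor_mul, taylor_C, sh_apply]

private theorem Vn_taylor_dvd (c x : ℂ) (k : ℕ) (G : ℂ[X]) :
    (X - C x) ^ k ∣ taylor c G ↔ (X - C (x + c)) ^ k ∣ G := by
  rw [X_sub_C_pow_dvd_iff, X_sub_C_pow_dvd_iff, taylor_apply, comp_assoc]
  have h : (X + C c : ℂ[X]).comp (X + C x) = X + C (x + c) := by
    rw [add_comp, X_comp, C_comp, add_assoc, ← C_add]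
  rw [h]

theorem van_sh (c : ℂ) (p : Pt τ) (F : V b) :
    sh c F ∈ van b p ↔ F ∈ van b ⟨p.m, p.x + c, p.z⟩ := by
  rw [mem_van, mem_van]
  refine forall_congr' fun γ => ?_
  rw [Vn_taylor_act]
  exact Vn_taylor_dvd c p.x _ _

private theorem Vn_sc_act (δ : ℂ) (A : Mt b) (F : V b) (γ : Box b) :
    act A (fun γ => (F γ).comp (C δ * X)) γ = (act A F γ).comp (C δ * X) := by
  rw [act_apply, act_apply, Polynomial.sum_comp]
  refine Finset.sum_congr rfl fun β _ => ?_
  rw [mul_comp, C_comp]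

private theorem Vn_sc_fwd (δ x : ℂ) (k : ℕ) (G : ℂ[X])
    (h : (X - C (δ * x)) ^ k ∣ G) : (X - C x) ^ k ∣ G.comp (C δ * X) := by
  obtain ⟨H, rfl⟩ := h
  rw [mul_comp, pow_comp, sub_comp, X_comp, C_comp]
  have h1 : (C δ * X - C (δ * x) : ℂ[X]) = C δ * (X - C x) := by
    rw [C_mul]; ring
  rw [h1, mul_pow]
  exact Dvd.dvd.mul_right (Dvd.dvd.mul_left dvd_rfl _) _

private theorem Vn_sc_comp (δ : ℂ) (hδ : δ ≠ 0) (G : ℂ[X]) :
    (G.comp (C δ * X)).comp (C δ⁻¹ * X) = G := by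
  rw [comp_assoc, mul_comp, C_comp, X_comp, ← mul_assoc, ← C_mul, mul_inv_cancel₀ hδ, C_1, one_mul,
    comp_X]

private theorem Vn_sc_dvd (δ : ℂ) (hδ : δ ≠ 0) (x : ℂ) (k : ℕ) (G : ℂ[X]) :
    (X - C x) ^ k ∣ G.comp (C δ * X) ↔ (X - C (δ * x)) ^ k ∣ G := by
  constructor
  · intro h
    have h1 : (X - C (δ⁻¹ * (δ * x))) ^ k ∣ G.comp (C δ * X) := by
      rwa [← mul_assoc, inv_mul_cancel₀ hδ, one_mul]
    have h2 := Vn_sc_fwd δ⁻¹ (δ * x) k _ h1
    rwa [Vn_sc_comp δ hδ] at h2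
  · exact Vn_sc_fwd δ x k G

theorem van_sc (δ : ℂ) (hδ : δ ≠ 0) (p : Pt τ) (F : V b) :
    (fun γ => (F γ).comp (C δ * X)) ∈ van b p ↔ F ∈ van b ⟨p.m, δ * p.x, p.z⟩ := by
  rw [mem_van, mem_van]
  refine forall_congr' fun γ => ?_
  rw [Vn_sc_act]
  exact Vn_sc_dvd δ hδ p.x _ _

theorem van_iff (p : Pt τ) (F : V b) :
    F ∈ van b p ↔ ∀ (γ : Box b) (j : ℕ), j + dg γ < p.m →
      (taylor p.x (act (tz b p.z) F γ)).coeff j = 0 := by
  rw [mem_van]
  refine forall_congr' fun γ => ?_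
  rw [X_sub_C_pow_dvd_iff, X_pow_dvd_iff, taylor_apply]
  refine forall_congr' fun j => ?_
  rw [lt_tsub_iff_right]

/-- Vanishing at a point with `y = 0`. -/
theorem van_zero_iff (m : ℕ) (x : ℂ) (F : V b) :
    F ∈ van b ⟨m, x, 0⟩ ↔ ∀ γ, (X - C x) ^ (m - dg γ) ∣ F γ := by
  rw [mem_van]
  refine forall_congr' fun γ => ?_
  show (X - C x) ^ (m - dg γ) ∣ act (tz b 0) F γ ↔ _
  rw [tz_zero, act_one]

end Pool.Agent.H18.Tl

end

section

/-!
# Module Qt (TL): the number of conditions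

`quot_le`: the linear map from `V b` to the functions on `{(i, γ, j) : i < L.length, j < (L i).m - dg γ}` given by the
coefficients of `van_iff` (`(taylor x (act (tz b z) F γ)).coeff j`) has the kernel `vanL b L` (as a `ℂ`-subspace), so the
quotient embeds into a space of dimension `cL b L` (`LinearMap.quotKerEquivRange`, `Submodule.finrank_le`; or induction
on `L`: `vanL b (p :: L) = van b p ⊓ vanL b L`).
-/

namespace Pool.Agent.H18.Tl

open Finset Polynomial

variable {τ : Type} [Fintype τ] [DecidableEq τ] {b : τ → ℕ}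

/-- The index set of the conditions. -/
private abbrev Qt_Ix (b : τ → ℕ) (L : List (Pt τ)) : Type :=
  (i : Fin L.length) × (γ : Box b) × Fin ((L.get i).m - dg γ)

/-- The conditions. -/
private noncomputable def Qt_map (b : τ → ℕ) (L : List (Pt τ)) : V b →ₗ[ℂ] (Qt_Ix b L → ℂ) :=
  LinearMap.pi fun k => (Polynomial.lcoeff ℂ (k.2.2 : ℕ)) ∘ₗ (taylor (L.get k.1).x) ∘ₗ
    (LinearMap.proj k.2.1 : V b →ₗ[ℂ] ℂ[X]) ∘ₗ ((act (tz b (L.get k.1).z)).restrictScalars ℂ)

private theorem Qt_map_apply (L : List (Pt τ)) (F : V b) (k : Qt_Ix b L) :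
    Qt_map b L F k = (taylor (L.get k.1).x (act (tz b (L.get k.1).z) F k.2.1)).coeff (k.2.2 : ℕ) := rfl

private theorem Qt_ker (L : List (Pt τ)) :
    LinearMap.ker (Qt_map b L) = (vanL b L).restrictScalars ℂ := by
  ext F
  rw [LinearMap.mem_ker, Submodule.restrictScalars_mem, mem_vanL]
  constructor
  · intro h p hp
    obtain ⟨i, rfl⟩ := List.get_of_mem hp
    rw [van_iff]
    intro γ j hj
    have := congrFun h ⟨i, γ, ⟨j, by omega⟩⟩
    rw [Qt_map_apply] at this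
    exact this
  · intro h
    funext k
    rw [Qt_map_apply]
    have h1 := (van_iff (L.get k.1) F).mp (h _ (List.get_mem L k.1)) k.2.1 (k.2.2 : ℕ) (by
      have := k.2.2.isLt
      omega)
    exact h1

private theorem Qt_card (L : List (Pt τ)) : Fintype.card (Qt_Ix b L) = cL b L := by
  simp only [Qt_Ix, Fintype.card_sigma, Fintype.card_fin]
  unfold cL Lm
  rw [← List.sum_ofFn]
  congr 1
  apply List.ext_getElem
  · simp
  · intro n h1 h2
    simp

instance (L : List (Pt τ)) : FiniteDimensional ℂ (V b ⧸ (vanL b L).restrictScalars ℂ) := by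
  rw [← Qt_ker]
  exact Module.Finite.equiv (LinearMap.quotKerEquivRange (Qt_map b L)).symm

theorem quot_le (L : List (Pt τ)) :
    Module.finrank ℂ (V b ⧸ (vanL b L).restrictScalars ℂ) ≤ cL b L := by
  rw [← Qt_ker, LinearEquiv.finrank_eq (LinearMap.quotKerEquivRange (Qt_map b L)), ← Qt_card L,
    ← Module.finrank_fintype_fun_eq_card (R := ℂ)]
  exact Submodule.finrank_le _

end Pool.Agent.H18.Tl

end

section

/-!
# Module Dv (TL): division by an exact block

`exists_rho`: the quotient map `U b a → V b ⧸ vanL b L` is injective (`h.inj`); the dimensions are `a * Pc b` and at most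
`cL b L = L.length * Lm b μ = a * Pc b`, so it is bijective; `ρ` is minus its inverse composed with the quotient map.
`exists_ph`: the column `β` of `Φ` is `G + ρ G`, `G = X^a` at `β`, `0` elsewhere.
`Ph.uniq`: the difference of two columns is in `U b a` and vanishes at `L`.
`Ph.eq_mul`: the difference is in `U b a` and vanishes at `L`.
`Ph.ev_inj`: let `G = Φ w` (`G γ = ∑_β Φ γ β * C (w β)`), in `vanL b L`, with top coefficient `w`.  If `G` vanishes at `t = x₀`, then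
`G = (X - C x₀) • G'`, `G' ∈ U b a`, and `G' ∈ vanL b L` by `vanL_unit`; so `G' = 0`, `G = 0`, `w = 0`.
`Blk.pos`: `Lm b μ ≥ μ - dg (zb b) = μ ≥ 1`, so `0 < L.length * Lm b μ = a * Pc b`.
-/

namespace Pool.Agent.H18.Tl

open Finset Polynomial

variable {τ : Type} [Fintype τ] [DecidableEq τ] {b : τ → ℕ} {μ a : ℕ} {L : List (Pt τ)}
  {Φ : Matrix (Box b) (Box b) ℂ[X]}

private theorem Dv_Lm_pos (hμ : 1 ≤ μ) : 1 ≤ Lm b μ := by
  have h1 : μ - dg (zb b) ≤ ∑ γ : Box b, (μ - dg γ) :=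
    Finset.single_le_sum (f := fun γ : Box b => μ - dg γ) (fun _ _ => Nat.zero_le _)
      (Finset.mem_univ (zb b))
  have h2 : dg (zb b) = 0 := by simp [dg, zb]
  unfold Lm
  omega

theorem Blk.pos (h : Blk b μ a L) (hμ : 1 ≤ μ) (hL : L ≠ []) : 1 ≤ a := by
  rcases Nat.eq_zero_or_pos a with h0 | h0
  · exfalso
    have h1 := h.cnt
    rw [h0, Nat.zero_mul] at h1
    have h2 : 0 < L.length := List.length_pos_of_ne_nil hL
    have h3 : 1 ≤ Lm b μ := Dv_Lm_pos hμ
    have h4 : 0 < L.length * Lm b μ := Nat.mul_pos h2 h3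
    omega
  · exact h0

private theorem Dv_cL (h : Blk b μ a L) : cL b L = L.length * Lm b μ := by
  have h1 : (L.map fun p => Lm b p.m) = L.map fun _ => Lm b μ := by
    apply List.map_congr_left
    intro p hp
    rw [h.mult p hp]
  unfold cL
  rw [h1]
  simp

theorem exists_rho (h : Blk b μ a L) :
    ∃ ρ : V b →ₗ[ℂ] V b, (∀ G, ρ G ∈ U b a) ∧ ∀ G, G + ρ G ∈ vanL b L := by
  set q : V b →ₗ[ℂ] V b ⧸ (vanL b L).restrictScalars ℂ := ((vanL b L).restrictScalars ℂ).mkQ
    with hq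
  let φ : U b a →ₗ[ℂ] V b ⧸ (vanL b L).restrictScalars ℂ := q ∘ₗ (U b a).subtype
  have hinj : Function.Injective φ := by
    rw [← LinearMap.ker_eq_bot, LinearMap.ker_eq_bot']
    intro F hF
    have h1 : (F : V b) ∈ (vanL b L).restrictScalars ℂ := by
      have h2 : q (F : V b) = 0 := hF
      rw [hq, Submodule.mkQ_apply, Submodule.Quotient.mk_eq_zero] at h2
      exact h2
    exact Subtype.ext (h.inj F F.2 h1)
  have hfr : Module.finrank ℂ (U b a) = Module.finrank ℂ (V b ⧸ (vanL b L).restrictScalars ℂ) := by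
    apply le_antisymm
    · exact LinearMap.finrank_le_finrank_of_injective hinj
    · calc Module.finrank ℂ (V b ⧸ (vanL b L).restrictScalars ℂ) ≤ cL b L := quot_le L
        _ = a * Pc b := by rw [Dv_cL h, h.cnt]
        _ = Module.finrank ℂ (U b a) := (finrank_U a).symm
  have hsurj : Function.Surjective φ :=
    (LinearMap.injective_iff_surjective_of_finrank_eq_finrank hfr).1 hinj
  let e : U b a ≃ₗ[ℂ] V b ⧸ (vanL b L).restrictScalars ℂ := LinearEquiv.ofBijective φ ⟨hinj, hsurj⟩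
  refine ⟨-((U b a).subtype ∘ₗ e.symm.toLinearMap ∘ₗ q), ?_, ?_⟩
  · intro G
    rw [LinearMap.neg_apply]
    exact (U b a).neg_mem (e.symm (q G)).2
  · intro G
    have h1 : q (((e.symm (q G) : U b a) : V b)) = q G := e.apply_symm_apply (q G)
    have h2 : q (G + (-((U b a).subtype ∘ₗ e.symm.toLinearMap ∘ₗ q)) G) = 0 := by
      rw [map_add, LinearMap.neg_apply, map_neg]
      change q G + -(q ((e.symm (q G) : U b a) : V b)) = 0
      rw [h1, add_neg_cancel]
    rw [hq, Submodule.mkQ_apply, Submodule.Quotient.mk_eq_zero] at h2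
    exact h2

theorem exists_ph (h : Blk b μ a L) : ∃ Φ : Matrix (Box b) (Box b) ℂ[X], Ph b a L Φ := by
  obtain ⟨ρ, h1, h2⟩ := exists_rho h
  let G : Box b → V b := fun β => Pi.single β (X ^ a)
  have hG : ∀ β γ : Box b, G β γ = if γ = β then X ^ a else 0 := by
    intro β γ
    simp only [G, Pi.single_apply]
  refine ⟨fun γ β => (G β + ρ (G β)) γ, ?_, ?_, ?_⟩
  · intro β
    exact h2 (G β)
  · intro γ β
    change ((G β γ) + (ρ (G β) γ)).coeff a = _
    rw [coeff_add, h1 (G β) γ a le_rfl, add_zero, hG]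
    split_ifs with h3
    · rw [coeff_X_pow, if_pos rfl]
    · rw [coeff_zero]
  · intro γ β j hj
    change ((G β γ) + (ρ (G β) γ)).coeff j = _
    rw [coeff_add, h1 (G β) γ j hj.le, add_zero, hG]
    split_ifs with h3
    · rw [coeff_X_pow, if_neg (by omega)]
    · rw [coeff_zero]

private theorem Dv_coeff (w : Box b → ℂ) (β : Box b) (j : ℕ) :
    (Φ.mulVec (cv w) β).coeff j = (cf Φ j).mulVec w β := by
  simp only [Matrix.mulVec, dotProduct, cv, cf, finsetSum_coeff, coeff_mul_C]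

/-- The combination of the columns with constant coefficients `w`. -/
theorem Ph.comb (hΦ : Ph b a L Φ) (w : Box b → ℂ) :
    Φ.mulVec (cv w) ∈ vanL b L ∧ Φ.mulVec (cv w) ∈ U b (a + 1) ∧
      (∀ β, (Φ.mulVec (cv w) β).coeff a = w β) ∧
      ∀ β j, (Φ.mulVec (cv w) β).coeff j = (cf Φ j).mulVec w β := by
  refine ⟨?_, ?_, ?_, fun β j => Dv_coeff w β j⟩
  · have h1 : Φ.mulVec (cv w) = ∑ β, C (w β) • (fun γ => Φ γ β : V b) := by
      funext γ
      rw [Finset.sum_apply]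
      simp only [Matrix.mulVec, dotProduct, cv, Pi.smul_apply, smul_eq_mul]
      exact Finset.sum_congr rfl fun β _ => mul_comm _ _
    rw [h1]
    exact (vanL b L).sum_mem fun β _ => (vanL b L).smul_mem _ (hΦ.van β)
  · intro β j hj
    rw [Dv_coeff]
    simp only [Matrix.mulVec, dotProduct, cf]
    apply Finset.sum_eq_zero
    intro γ _
    rw [hΦ.deg β γ j (by omega), zero_mul]
  · intro β
    rw [Dv_coeff]
    simp only [Matrix.mulVec, dotProduct, cf, hΦ.top]
    simp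

theorem Ph.ev_inj (h : Blk b μ a L) (hΦ : Ph b a L Φ) (x₀ : ℂ) (hx : ∀ p ∈ L, p.x ≠ x₀)
    (w : Box b → ℂ) (hw : (ev Φ x₀).mulVec w = 0) : w = 0 := by
  obtain ⟨h1, h2, h3, -⟩ := hΦ.comb w
  have hd : ∀ β, ∃ g : ℂ[X], Φ.mulVec (cv w) β = (X - C x₀) * g := by
    intro β
    have h4 : (Φ.mulVec (cv w) β).eval x₀ = 0 := by
      have h5 := congrFun hw β
      simp only [Matrix.mulVec, dotProduct, ev, Pi.zero_apply] at h5
      simp only [Matrix.mulVec, dotProduct, cv, eval_finsetSum, eval_mul, eval_C]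
      exact h5
    exact dvd_iff_isRoot.2 h4
  choose g hg using hd
  have hG : Φ.mulVec (cv w) = (X - C x₀) • (g : V b) := by
    funext β
    rw [hg β]
    rfl
  have hgv : (g : V b) ∈ vanL b L := by
    apply vanL_unit L (X - C x₀) _ g
    · rw [← hG]
      exact h1
    · intro p hp
      rw [eval_sub, eval_X, eval_C]
      exact sub_ne_zero.2 (hx p hp)
  have hgU : (g : V b) ∈ U b a := by
    intro β j hj
    by_contra hne
    have hg0 : g β ≠ 0 := by
      intro h0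
      rw [h0, coeff_zero] at hne
      exact hne rfl
    have hle : j ≤ (g β).natDegree := le_natDegree_of_ne_zero hne
    have hdeg : (Φ.mulVec (cv w) β).natDegree = 1 + (g β).natDegree := by
      rw [hg β, natDegree_mul (X_sub_C_ne_zero x₀) hg0, natDegree_X_sub_C]
    have hne0 : Φ.mulVec (cv w) β ≠ 0 := by
      rw [hg β]
      exact mul_ne_zero (X_sub_C_ne_zero x₀) hg0
    have hz := h2 β (Φ.mulVec (cv w) β).natDegree (by omega)
    rw [coeff_natDegree, leadingCoeff_eq_zero] at hz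
    exact hne0 hz
  have hg0 : (g : V b) = 0 := h.inj g hgU hgv
  funext β
  rw [← h3 β, hG, hg0, smul_zero]
  rfl

theorem Ph.isUnit (h : Blk b μ a L) (hΦ : Ph b a L Φ) (x₀ : ℂ) (hx : ∀ p ∈ L, p.x ≠ x₀) :
    IsUnit (ev Φ x₀) := by
  rw [← Matrix.mulVec_injective_iff_isUnit]
  intro v w hvw
  have h1 : (ev Φ x₀).mulVec (v - w) = 0 := by
    rw [Matrix.mulVec_sub]
    exact sub_eq_zero.2 hvw
  exact sub_eq_zero.1 (Ph.ev_inj h hΦ x₀ hx (v - w) h1)

end Pool.Agent.H18.Tl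

end

section

/-!
# Module ShB (TL): transformations of blocks

`van_sh`, `van_sc`, `van_tz`, `van_rv` give the membership in `vanL` for the transformed lists; `sh c`, `comp (C δ * X)`
(`δ ≠ 0`) and `act A` preserve `U b a` and (for the injectivity) have inverses of the same kind (`sh (-c)`, `δ⁻¹`, `tz_neg_mul`,
`rv_mul_rv`; for `rv`, the inverse transformation is again an inversion, `(1/z)⁻¹ = z`).
Shifting: `F ∈ vanL b (shL c L) ↔ sh c F ∈ vanL b L`; so the columns of `Φ.map (taylor (-c))` vanish at `shL c L`; the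
coefficient of `t^(a-1)` of `Φ(t - c)` is `cf Φ (a - 1) - a c • 1`.
-/

namespace Pool.Agent.H18.Tl

open Finset Polynomial

variable {τ : Type} [Fintype τ] [DecidableEq τ] {b : τ → ℕ} {μ a : ℕ} {L : List (Pt τ)}
  {Φ : Matrix (Box b) (Box b) ℂ[X]}

private theorem ShB_tay0 (r : ℂ) (f : ℂ[X]) (n : ℕ) (h : ∀ i, n ≤ i → f.coeff i = 0) :
    (taylor r f).coeff n = 0 := by
  rw [taylor_coeff]
  have h0 : hasseDeriv n f = 0 := by
    ext i
    rw [hasseDeriv_coeff, h (i + n) (Nat.le_add_left n i), mul_zero, coeff_zero]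
  rw [h0, eval_zero]

private theorem ShB_tay (r : ℂ) (f : ℂ[X]) (a n : ℕ) (hn : n ≤ a)
    (h : ∀ i, a < i → f.coeff i = 0) :
    (taylor r f).coeff n =
      ∑ i ∈ Finset.range (a - n + 1), (((i + n).choose n : ℕ) : ℂ) * f.coeff (i + n) * r ^ i := by
  rw [taylor_coeff]
  have h1 : f.natDegree ≤ a := natDegree_le_iff_coeff_eq_zero.2 fun i hi => h i hi
  have h2 : (hasseDeriv n f).natDegree < a - n + 1 :=
    lt_of_le_of_lt (natDegree_hasseDeriv_le f n) (by omega)
  rw [eval_eq_sum_range' h2]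
  refine Finset.sum_congr rfl fun i _ => ?_
  rw [hasseDeriv_coeff]

omit [Fintype τ] [DecidableEq τ] in
private theorem ShB_sh_sh (c d : ℂ) (F : V b) : Tl.sh c (Tl.sh d F) = Tl.sh (d + c) F := by
  funext γ
  rw [sh_apply, sh_apply, sh_apply, taylor_taylor, add_comm]

omit [Fintype τ] [DecidableEq τ] in
private theorem ShB_sh_zero (F : V b) : Tl.sh 0 F = F := by
  funext γ
  rw [sh_apply, taylor_zero]

omit [Fintype τ] [DecidableEq τ] in
private theorem ShB_sh_U (c : ℂ) (F : V b) (hF : F ∈ U b a) : Tl.sh c F ∈ U b a := by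
  intro β j hj
  rw [sh_apply]
  exact ShB_tay0 c (F β) j fun i hi => hF β i (le_trans hj hi)

omit [DecidableEq τ] in
private theorem ShB_sh_Ve (c : ℂ) (e : ℕ) (F : V b) (hF : F ∈ Ve b e) : Tl.sh c F ∈ Ve b e := by
  intro β j hj
  rw [sh_apply]
  exact ShB_tay0 c (F β) j fun i hi => hF β i (by omega)

theorem vanL_sh (c : ℂ) (L : List (Pt τ)) (F : V b) :
    sh c F ∈ vanL b L ↔ F ∈ vanL b (shL c L) := by
  rw [mem_vanL, mem_vanL]
  constructor
  · intro h q hq
    obtain ⟨p, hp, rfl⟩ := List.mem_map.1 hq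
    exact (van_sh c p F).1 (h p hp)
  · intro h p hp
    exact (van_sh c p F).2 (h _ (List.mem_map.2 ⟨p, hp, rfl⟩))

theorem Blk.sh (h : Blk b μ a L) (c : ℂ) : Blk b μ a (shL c L) := by
  refine ⟨?_, ?_, ?_, ?_⟩
  · intro q hq
    obtain ⟨p, hp, rfl⟩ := List.mem_map.1 hq
    exact h.mult p hp
  · have h1 : (shL c L).map Pt.x = (L.map Pt.x).map fun x => x + c := by
      rw [shL, List.map_map, List.map_map]
      rfl
    rw [h1]
    exact h.dist.map (add_left_injective c)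
  · rw [shL, List.length_map]
    exact h.cnt
  · intro F hU hF
    have h1 : Tl.sh c F = 0 := h.inj _ (ShB_sh_U c F hU) ((vanL_sh c L F).2 hF)
    have h2 : Tl.sh (-c) (Tl.sh c F) = F := by
      rw [ShB_sh_sh, add_neg_cancel, ShB_sh_zero]
    rw [← h2, h1, map_zero]

theorem Blk.sc (h : Blk b μ a L) (δ : ℂ) (hδ : δ ≠ 0) : Blk b μ a (scL δ L) := by
  refine ⟨?_, ?_, ?_, ?_⟩
  · intro q hq
    obtain ⟨p, hp, rfl⟩ := List.mem_map.1 hq
    exact h.mult p hp
  · have h1 : (scL δ L).map Pt.x = (L.map Pt.x).map fun x => δ * x := by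
      rw [scL, List.map_map, List.map_map]
      rfl
    rw [h1]
    exact h.dist.map (mul_right_injective₀ hδ)
  · rw [scL, List.length_map]
    exact h.cnt
  · intro F hU hF
    have hc : ∀ (f : ℂ[X]) (j : ℕ), (f.comp (C δ * X)).coeff j = f.coeff j * δ ^ j := fun f j =>
      comp_C_mul_X_coeff
    have h1 : (fun γ => (F γ).comp (C δ * X)) = (0 : V b) := by
      refine h.inj _ ?_ ?_
      · intro β j hj
        change ((F β).comp (C δ * X)).coeff j = 0
        rw [hc, hU β j hj, zero_mul]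
      · intro p hp
        exact (van_sc δ hδ p F).2 (hF _ (List.mem_map.2 ⟨p, hp, rfl⟩))
    funext β
    ext j
    have h2 : ((F β).comp (C δ * X)).coeff j = 0 := by
      have h3 := congrFun h1 β
      change (F β).comp (C δ * X) = 0 at h3
      rw [h3, coeff_zero]
    rw [hc] at h2
    rw [Pi.zero_apply, coeff_zero]
    exact (mul_eq_zero.1 h2).resolve_right (pow_ne_zero j hδ)

theorem Blk.tz (h : Blk b μ a L) (c : τ → ℂ) : Blk b μ a (tzL c L) := by
  refine ⟨?_, ?_, ?_, ?_⟩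
  · intro q hq
    obtain ⟨p, hp, rfl⟩ := List.mem_map.1 hq
    exact h.mult p hp
  · have h1 : (tzL c L).map Pt.x = L.map Pt.x := by
      rw [tzL, List.map_map]
      rfl
    rw [h1]
    exact h.dist
  · rw [tzL, List.length_map]
    exact h.cnt
  · intro F hU hF
    have h1 : act (Tl.tz b c) F = 0 := by
      refine h.inj _ (act_mem_U _ a F hU) ?_
      intro p hp
      exact (van_tz c p F).2 (hF _ (List.mem_map.2 ⟨p, hp, rfl⟩))
    have h2 : act (Tl.tz b (-c)) (act (Tl.tz b c) F) = F := by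
      rw [← act_mul, tz_neg_mul, act_one]
    rw [← h2, h1, map_zero]

theorem Blk.rv (h : Blk b μ a L) (hz : ∀ p ∈ L, ∀ l, p.z l ≠ 0) : Blk b μ a (rvL L) := by
  refine ⟨?_, ?_, ?_, ?_⟩
  · intro q hq
    obtain ⟨p, hp, rfl⟩ := List.mem_map.1 hq
    exact h.mult p hp
  · have h1 : (rvL L).map Pt.x = L.map Pt.x := by
      rw [rvL, List.map_map]
      rfl
    rw [h1]
    exact h.dist
  · rw [rvL, List.length_map]
    exact h.cnt
  · intro F hU hF
    have h1 : act (Tl.rv b) F = 0 := by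
      refine h.inj _ (act_mem_U _ a F hU) ?_
      intro p hp
      have h3 := van_rv (b := b) ⟨p.m, p.x, fun l => (p.z l)⁻¹⟩ (fun l => inv_ne_zero (hz p hp l)) F
        (hF _ (List.mem_map.2 ⟨p, hp, rfl⟩))
      have h4 : (⟨p.m, p.x, fun l => ((p.z l)⁻¹)⁻¹⟩ : Pt τ) = p := by
        simp only [inv_inv]
      rw [← h4]
      exact h3
    have h2 : act (Tl.rv b) (act (Tl.rv b) F) = F := by
      rw [← act_mul, rv_mul_rv, act_one]
    rw [← h2, h1, map_zero]

theorem Ph.sh (hΦ : Ph b a L Φ) (c : ℂ) : Ph b a (shL c L) (Φ.map (taylor (-c))) := by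
  refine ⟨?_, ?_, ?_⟩
  · intro β
    have h1 : (fun γ => (Φ.map (taylor (-c))) γ β) = Tl.sh (-c) fun γ => Φ γ β := rfl
    rw [h1, ← vanL_sh, ShB_sh_sh, neg_add_cancel, ShB_sh_zero]
    exact hΦ.van β
  · intro γ β
    rw [Matrix.map_apply, ShB_tay (-c) (Φ γ β) a a le_rfl (hΦ.deg γ β), Nat.sub_self, zero_add,
      Finset.sum_range_one, zero_add, Nat.choose_self, Nat.cast_one, one_mul, pow_zero, mul_one]
    exact hΦ.top γ β
  · intro γ β j hj
    rw [Matrix.map_apply]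
    exact ShB_tay0 _ _ _ fun i hi => hΦ.deg γ β i (lt_of_lt_of_le hj hi)

theorem cf_sh (hΦ : Ph b a L Φ) (ha : 1 ≤ a) (c : ℂ) :
    cf (Φ.map (taylor (-c))) (a - 1) = cf Φ (a - 1) - ((a : ℂ) * c) • (1 : Mt b) := by
  obtain ⟨n, rfl⟩ : ∃ n, a = n + 1 := ⟨a - 1, by omega⟩
  funext γ β
  have h1 := ShB_tay (-c) (Φ γ β) (n + 1) n (Nat.le_succ n) (hΦ.deg γ β)
  have h2 : n + 1 - n + 1 = 2 := by omega
  rw [h2, Finset.sum_range_succ, Finset.sum_range_one, zero_add, Nat.choose_self, Nat.cast_one,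
    one_mul, pow_zero, mul_one, pow_one, add_comm 1 n, hΦ.top γ β, Nat.choose_succ_self_right] at h1
  rw [Matrix.sub_apply, Matrix.smul_apply, Matrix.one_apply]
  change (taylor (-c) (Φ γ β)).coeff (n + 1 - 1) = (Φ γ β).coeff (n + 1 - 1) - _
  rw [Nat.add_sub_cancel, h1, smul_eq_mul]
  ring

theorem ev_sh (Φ : Matrix (Box b) (Box b) ℂ[X]) (c x : ℂ) :
    ev (Φ.map (taylor (-c))) x = ev Φ (x - c) := by
  funext γ β
  change (taylor (-c) (Φ γ β)).eval x = (Φ γ β).eval (x - c)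
  rw [taylor_eval, sub_eq_add_neg]

private theorem ShB_col (A B : Mt b) (Φ : Matrix (Box b) (Box b) ℂ[X]) (β : Box b) :
    (fun γ => (A.map C * Φ * B.map C) γ β) = act A (Φ.mulVec (cv fun κ => B κ β)) := by
  rw [Matrix.mul_assoc]
  rfl

private theorem ShB_topdeg (A B : Mt b) (hAB : A * B = 1) (hΦ : Ph b a L Φ) :
    (∀ γ β, ((A.map C * Φ * B.map C) γ β).coeff a = if γ = β then 1 else 0) ∧
      ∀ γ β j, a < j → ((A.map C * Φ * B.map C) γ β).coeff j = 0 := by
  constructor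
  · intro γ β
    obtain ⟨-, -, h3, -⟩ := hΦ.comb fun κ => B κ β
    rw [show (A.map C * Φ * B.map C) γ β = act A (Φ.mulVec (cv fun κ => B κ β)) γ from
      congrFun (ShB_col A B Φ β) γ, coeff_act]
    have h4 : ∑ κ, A γ κ * (Φ.mulVec (cv fun κ => B κ β) κ).coeff a = (A * B) γ β := by
      rw [Matrix.mul_apply]
      exact Finset.sum_congr rfl fun κ _ => by rw [h3 κ]
    rw [h4, hAB, Matrix.one_apply]
  · intro γ β j hj
    obtain ⟨-, h2, -, -⟩ := hΦ.comb fun κ => B κ β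
    rw [show (A.map C * Φ * B.map C) γ β = act A (Φ.mulVec (cv fun κ => B κ β)) γ from
      congrFun (ShB_col A B Φ β) γ, coeff_act]
    refine Finset.sum_eq_zero fun κ _ => ?_
    rw [h2 κ j hj, mul_zero]

theorem Ph.tz (hΦ : Ph b a L Φ) (c : τ → ℂ) :
    Ph b a (tzL c L) ((Tl.tz b (-c)).map C * Φ * (Tl.tz b c).map C) := by
  obtain ⟨h1, h2⟩ := ShB_topdeg (Tl.tz b (-c)) (Tl.tz b c) (tz_neg_mul c) hΦ
  refine ⟨?_, h1, h2⟩
  intro β q hq
  obtain ⟨p, hp, rfl⟩ := List.mem_map.1 hq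
  rw [ShB_col]
  refine (van_tz c p _).1 ?_
  rw [← act_mul, tz_mul_neg, act_one]
  exact (hΦ.comb fun κ => Tl.tz b c κ β).1 p hp

theorem Ph.rv (hΦ : Ph b a L Φ) (hz : ∀ p ∈ L, ∀ l, p.z l ≠ 0) :
    Ph b a (rvL L) ((Tl.rv b).map C * Φ * (Tl.rv b).map C) := by
  obtain ⟨h1, h2⟩ := ShB_topdeg (Tl.rv b) (Tl.rv b) rv_mul_rv hΦ
  refine ⟨?_, h1, h2⟩
  intro β q hq
  obtain ⟨p, hp, rfl⟩ := List.mem_map.1 hq
  rw [ShB_col]
  exact van_rv p (hz p hp) _ ((hΦ.comb fun κ => Tl.rv b κ β).1 p hp)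

theorem cf_conj (A B : Mt b) (Φ : Matrix (Box b) (Box b) ℂ[X]) (j : ℕ) :
    cf (A.map C * Φ * B.map C) j = A * cf Φ j * B := by
  funext γ β
  change ((A.map C * Φ * B.map C) γ β).coeff j = (A * cf Φ j * B) γ β
  rw [Matrix.mul_apply, Matrix.mul_apply, finsetSum_coeff]
  refine Finset.sum_congr rfl fun κ _ => ?_
  rw [Matrix.map_apply, coeff_mul_C, Matrix.mul_apply, Matrix.mul_apply, finsetSum_coeff]
  congr 1
  refine Finset.sum_congr rfl fun ι _ => ?_
  rw [Matrix.map_apply, coeff_C_mul]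
  rfl

/-- Solutions after a translation. -/
private theorem ShB_sh_mem_Sol (c : ℂ) (e : ℕ) (L : List (Pt τ)) (F : V b) :
    Tl.sh c F ∈ Sol b e L ↔ F ∈ Sol b e (shL c L) := by
  rw [mem_Sol, mem_Sol, vanL_sh]
  refine and_congr_left fun _ => ⟨fun h => ?_, ShB_sh_Ve c e F⟩
  have h2 : Tl.sh (-c) (Tl.sh c F) = F := by
    rw [ShB_sh_sh, add_neg_cancel, ShB_sh_zero]
  rw [← h2]
  exact ShB_sh_Ve (-c) e _ h

/-- Translations of the whole configuration do not change the dimension. -/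
theorem h0_sh (c : ℂ) (e : ℕ) (L : List (Pt τ)) : h0 b e (shL c L) = h0 b e L := by
  let E : V b ≃ₗ[ℂ] V b := LinearEquiv.ofLinearMap (Tl.sh c) (Tl.sh (-c))
    (LinearMap.ext fun F => by
      rw [LinearMap.comp_apply, ShB_sh_sh, neg_add_cancel, ShB_sh_zero, LinearMap.id_apply])
    (LinearMap.ext fun F => by
      rw [LinearMap.comp_apply, ShB_sh_sh, add_neg_cancel, ShB_sh_zero, LinearMap.id_apply])
  have h1 : (Sol b e (shL c L)).map (E : V b →ₗ[ℂ] V b) = Sol b e L := by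
    ext G
    rw [Submodule.mem_map]
    constructor
    · rintro ⟨F, hF, rfl⟩
      exact (ShB_sh_mem_Sol c e L F).2 hF
    · intro hG
      refine ⟨E.symm G, (ShB_sh_mem_Sol c e L _).1 ?_, E.apply_symm_apply G⟩
      have h3 : Tl.sh c (E.symm G) = G := E.apply_symm_apply G
      rw [h3]
      exact hG
  rw [h0, h0, ← h1]
  exact (E.submoduleMap (Sol b e (shL c L))).finrank_eq

/-- Solutions after a translation. -/
theorem sh_mem_Sol (c : ℂ) (e : ℕ) (L : List (Pt τ)) (F : V b) :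
    sh c F ∈ Sol b e L ↔ F ∈ Sol b e (shL c L) :=
  ShB_sh_mem_Sol c e L F

theorem cL_sh (c : ℂ) (L : List (Pt τ)) : cL b (shL c L) = cL b L := by
  rw [cL, cL, shL, List.map_map]
  rfl

end Pool.Agent.H18.Tl

end

section

/-!
# Module Td (TL): tiny blocks

Let `ρ` be as in `exists_rho`.  Put `Pk 0 s = X^a • s` and for `k ≥ 1`
`Pk k s γ = ∑_{i < a, a ≤ k + i} C ((ρ (X^(k+i) • cv (fun β => (s β).coeff (k+i-a))) γ).coeff i) * X^i`.
`Pk k s = 0` for `k ≥ a + n` since `k + i - a ≥ n`.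
`Pk 1 s`: only `i = a - 1`, and `ρ (X^a • cv w) = Φ.mulVec (cv w) - X^a • cv w` (both sides are in `U b a` and vanish at `L`
after adding `X^a • cv w`; `h.inj`), whose coefficient of `t^(a-1)` is `(cf Φ (a-1)).mulVec w`.
Vanishing: let `G = ∑_{k < a+n} δ^k Pk k s`.  By `van_sc`, `G ∈ vanL b (scL δ L)` iff `G(δ t) ∈ vanL b L`, and
`G(δ t) = δ^a t^a s(δ t) + ∑_{k ≥ 1} ∑_i δ^(k+i) t^i ρ_i(t^(k+i) s_(k+i-a)) = ∑_{j<n} δ^(a+j) (t^(a+j) s_j + ρ (t^(a+j) s_j))`
(`j = k + i - a`; for given `j < n`, `i < a` the index `k = a + j - i` satisfies `1 ≤ k < a + n`; `s_j = cv (coefficients of t^j)`).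
-/

namespace Pool.Agent.H18.Tl

open Finset Polynomial

variable {τ : Type} [Fintype τ] [DecidableEq τ] {b : τ → ℕ} {μ a : ℕ} {L : List (Pt τ)}
  {Φ : Matrix (Box b) (Box b) ℂ[X]}

private theorem Td_cv_add (w w' : Box b → ℂ) : (cv (w + w') : V b) = cv w + cv w' := by
  funext β
  simp [cv]

private theorem Td_cv_smul (c : ℂ) (w : Box b → ℂ) : (cv (c • w) : V b) = c • cv w := by
  funext β
  simp [cv, smul_eq_C_mul]

private theorem Td_cv_zero : (cv (0 : Box b → ℂ) : V b) = 0 := by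
  funext β
  simp [cv]

/-- The coefficient vector of `t^j`. -/
private def Td_sc (j : ℕ) (s : V b) : Box b → ℂ := fun β => (s β).coeff j

omit [Fintype τ] [DecidableEq τ] in
private theorem Td_sc_add (j : ℕ) (s s' : V b) :
    Td_sc j (s + s') = Td_sc j s + Td_sc j s' := by
  funext β
  simp [Td_sc]

omit [Fintype τ] [DecidableEq τ] in
private theorem Td_sc_smul (j : ℕ) (c : ℂ) (s : V b) :
    Td_sc j (c • s) = c • Td_sc j s := by
  funext β
  simp [Td_sc]

private theorem Td_arg_add (m j : ℕ) (s s' : V b) :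
    (X : ℂ[X]) ^ m • (cv (Td_sc j (s + s')) : V b) =
      (X : ℂ[X]) ^ m • cv (Td_sc j s) + (X : ℂ[X]) ^ m • cv (Td_sc j s') := by
  rw [Td_sc_add, Td_cv_add, smul_add]

private theorem Td_arg_smul (m j : ℕ) (c : ℂ) (s : V b) :
    (X : ℂ[X]) ^ m • (cv (Td_sc j (c • s)) : V b) =
      c • ((X : ℂ[X]) ^ m • cv (Td_sc j s)) := by
  rw [Td_sc_smul, Td_cv_smul, smul_comm]

/-- The maps `P_k`, `k ≥ 1`. -/
private noncomputable def Td_P (a : ℕ) (ρ : V b →ₗ[ℂ] V b) (k : ℕ) : V b →ₗ[ℂ] V b where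
  toFun s := fun γ => ∑ i ∈ range a,
    if a ≤ k + i then
      C ((ρ ((X : ℂ[X]) ^ (k + i) • cv (Td_sc (k + i - a) s)) γ).coeff i) * X ^ i
    else 0
  map_add' := by
    intro s s'
    funext γ
    rw [Pi.add_apply, ← sum_add_distrib]
    refine sum_congr rfl fun i _ => ?_
    split_ifs with h
    · rw [Td_arg_add, map_add, Pi.add_apply, coeff_add, C_add, add_mul]
    · rw [add_zero]
  map_smul' := by
    intro c s
    funext γ
    rw [RingHom.id_apply, Pi.smul_apply, Finset.smul_sum]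
    refine sum_congr rfl fun i _ => ?_
    split_ifs with h
    · rw [Td_arg_smul, map_smul, Pi.smul_apply, coeff_smul, smul_eq_mul, C_mul, smul_eq_C_mul,
        mul_assoc]
    · rw [smul_zero]

private theorem Td_P_apply (a : ℕ) (ρ : V b →ₗ[ℂ] V b) (k : ℕ) (s : V b) (γ : Box b) :
    Td_P a ρ k s γ = ∑ i ∈ range a,
      if a ≤ k + i then
        C ((ρ ((X : ℂ[X]) ^ (k + i) • cv (Td_sc (k + i - a) s)) γ).coeff i) * X ^ i
      else 0 := rfl

private theorem Td_P_coeff (a : ℕ) (ρ : V b →ₗ[ℂ] V b) (k : ℕ) (s : V b) (γ : Box b) (i : ℕ) :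
    (Td_P a ρ k s γ).coeff i = if i < a ∧ a ≤ k + i then
      (ρ ((X : ℂ[X]) ^ (k + i) • cv (Td_sc (k + i - a) s)) γ).coeff i else 0 := by
  rw [Td_P_apply, finsetSum_coeff]
  have hterm : ∀ j ∈ range a, (if a ≤ k + j then
      C ((ρ ((X : ℂ[X]) ^ (k + j) • cv (Td_sc (k + j - a) s)) γ).coeff j) * X ^ j
      else (0 : ℂ[X])).coeff i =
      if i = j then (if a ≤ k + i then
        (ρ ((X : ℂ[X]) ^ (k + i) • cv (Td_sc (k + i - a) s)) γ).coeff i else 0) else 0 := by
    intro j _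
    by_cases hij : i = j
    · subst hij
      rw [if_pos rfl]
      split_ifs with h
      · rw [coeff_C_mul, coeff_X_pow, if_pos rfl, mul_one]
      · rw [coeff_zero]
    · rw [if_neg hij]
      split_ifs with h
      · rw [coeff_C_mul, coeff_X_pow, if_neg hij, mul_zero]
      · rw [coeff_zero]
  rw [sum_congr rfl hterm, Finset.sum_ite_eq]
  by_cases hi : i < a
  · rw [if_pos (mem_range.2 hi)]
    by_cases hk : a ≤ k + i
    · rw [if_pos hk, if_pos ⟨hi, hk⟩]
    · rw [if_neg hk, if_neg fun h => hk h.2]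
  · rw [if_neg fun h => hi (mem_range.1 h), if_neg fun h => hi h.1]

/-- The maps `P_k`. -/
private noncomputable def Td_Q (a : ℕ) (ρ : V b →ₗ[ℂ] V b) (k : ℕ) : V b →ₗ[ℂ] V b :=
  if k = 0 then (LinearMap.lsmul ℂ[X] (V b) ((X : ℂ[X]) ^ a)).restrictScalars ℂ else Td_P a ρ k

private theorem Td_Q_zero (a : ℕ) (ρ : V b →ₗ[ℂ] V b) (s : V b) :
    Td_Q a ρ 0 s = (X : ℂ[X]) ^ a • s := by
  rw [Td_Q, if_pos rfl]
  rfl

private theorem Td_Q_pos (a : ℕ) (ρ : V b →ₗ[ℂ] V b) {k : ℕ} (hk : 1 ≤ k) :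
    Td_Q a ρ k = Td_P a ρ k := by
  rw [Td_Q, if_neg (by omega)]

private theorem Td_rho_top (h : Blk b μ a L) (hΦ : Ph b a L Φ) (ρ : V b →ₗ[ℂ] V b)
    (h1 : ∀ G, ρ G ∈ U b a) (h2 : ∀ G, G + ρ G ∈ vanL b L) (w : Box b → ℂ) :
    ρ ((X : ℂ[X]) ^ a • cv w) = Φ.mulVec (cv w) - (X : ℂ[X]) ^ a • cv w := by
  obtain ⟨hc1, hc2, hc3, _⟩ := hΦ.comb w
  have hsub : ρ ((X : ℂ[X]) ^ a • cv w) - (Φ.mulVec (cv w) - (X : ℂ[X]) ^ a • cv w) = 0 := by
    apply h.inj
    · apply Submodule.sub_mem _ (h1 _)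
      rw [mem_U]
      intro β j hj
      rw [Pi.sub_apply, coeff_sub, Pi.smul_apply, smul_eq_mul, mul_comm, cv, coeff_mul_X_pow']
      rw [if_pos hj, coeff_C]
      rcases Nat.eq_or_lt_of_le hj with hj' | hj'
      · subst hj'
        rw [Nat.sub_self, if_pos rfl]
        have := hc3 β
        rw [this, sub_self]
      · rw [if_neg (by omega), mem_U.1 hc2 β j hj', sub_zero]
    · have h3 := (vanL b L).sub_mem (h2 ((X : ℂ[X]) ^ a • cv w)) hc1
      have h4 : ρ ((X : ℂ[X]) ^ a • cv w) - (Φ.mulVec (cv w) - (X : ℂ[X]) ^ a • cv w) =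
          (X : ℂ[X]) ^ a • cv w + ρ ((X : ℂ[X]) ^ a • cv w) - Φ.mulVec (cv w) := by
        abel
      rw [h4]
      exact h3
  exact sub_eq_zero.1 hsub

private theorem Td_sum_shift {f : ℕ → ℂ} (a n i : ℕ) (hi : i < a) (hf : ∀ j, n ≤ j → f j = 0) :
    (∑ k ∈ range (a + n), if a ≤ k + i then f (k + i - a) else 0) = ∑ j ∈ range n, f j := by
  have h1 : a + n = (a - i) + (n + i) := by omega
  rw [h1, Finset.sum_range_add, Finset.sum_range_add (fun x => if a ≤ a - i + x + i then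
    f (a - i + x + i - a) else 0)]
  have h2 : (∑ x ∈ range (a - i), if a ≤ x + i then f (x + i - a) else 0) = 0 := by
    apply sum_eq_zero
    intro x hx
    rw [mem_range] at hx
    rw [if_neg (by omega)]
  have h3 : (∑ x ∈ range i, if a ≤ a - i + (n + x) + i then f (a - i + (n + x) + i - a) else 0)
      = 0 := by
    apply sum_eq_zero
    intro x hx
    rw [mem_range] at hx
    rw [if_pos (by omega)]
    exact hf _ (by omega)
  rw [h2, h3, zero_add, add_zero]
  refine sum_congr rfl fun x hx => ?_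
  rw [if_pos (by omega)]
  congr 1
  omega

private theorem Td_main (ha : 1 ≤ a) (ρ : V b →ₗ[ℂ] V b)
    (h1 : ∀ G, ρ G ∈ U b a) (n : ℕ) (s : V b) (hs : s ∈ U b n) (δ : ℂ) (γ : Box b) :
    ((∑ k ∈ range (a + n), δ ^ k • Td_Q a ρ k s) γ).comp (C δ * X) =
      (∑ j ∈ range n, C (δ ^ (a + j)) • ((X : ℂ[X]) ^ (a + j) • cv (Td_sc j s) +
        ρ ((X : ℂ[X]) ^ (a + j) • cv (Td_sc j s)))) γ := by
  ext i
  rw [comp_C_mul_X_coeff, Finset.sum_apply, Finset.sum_apply, finsetSum_coeff, finsetSum_coeff]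
  by_cases hi : i < a
  · have hl : ∀ k ∈ range (a + n), ((δ ^ k • Td_Q a ρ k s) γ).coeff i * δ ^ i =
        if a ≤ k + i then (fun j => δ ^ (a + j) *
          (ρ ((X : ℂ[X]) ^ (a + j) • cv (Td_sc j s)) γ).coeff i) (k + i - a) else 0 := by
      intro k _
      rw [Pi.smul_apply, coeff_smul, smul_eq_mul]
      rcases Nat.eq_zero_or_pos k with hk | hk
      · subst hk
        rw [Td_Q_zero, Pi.smul_apply, smul_eq_mul, mul_comm (X ^ a) (s γ), coeff_mul_X_pow',
          if_neg (by omega), if_neg (by omega), mul_zero, zero_mul]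
      · rw [Td_Q_pos a ρ hk, Td_P_coeff]
        by_cases hk2 : a ≤ k + i
        · rw [if_pos ⟨hi, hk2⟩, if_pos hk2]
          have h3 : a + (k + i - a) = k + i := by omega
          simp only [h3]
          rw [pow_add]
          ring
        · rw [if_neg fun h => hk2 h.2, if_neg hk2, mul_zero, zero_mul]
    rw [Finset.sum_mul, sum_congr rfl hl]
    refine (Td_sum_shift (f := fun j => δ ^ (a + j) *
      (ρ ((X : ℂ[X]) ^ (a + j) • cv (Td_sc j s)) γ).coeff i) a n i hi ?_).trans ?_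
    rotate_left
    · refine sum_congr rfl fun j _ => ?_
      rw [Pi.smul_apply, Pi.add_apply, smul_eq_mul, coeff_C_mul, coeff_add, Pi.smul_apply,
        smul_eq_mul, mul_comm (X ^ (a + j)) (cv (Td_sc j s) γ), coeff_mul_X_pow',
        if_neg (by omega), zero_add]
    · intro j hj
      have h4 : Td_sc j s = 0 := by
        funext β
        exact mem_U.1 hs β j hj
      show δ ^ (a + j) * (ρ ((X : ℂ[X]) ^ (a + j) • cv (Td_sc j s)) γ).coeff i = 0
      rw [h4, Td_cv_zero, smul_zero, map_zero, Pi.zero_apply, coeff_zero, mul_zero]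
  · have hi' : a ≤ i := by omega
    have hl : ∀ k ∈ range (a + n), ((δ ^ k • Td_Q a ρ k s) γ).coeff i =
        if 0 = k then (s γ).coeff (i - a) else 0 := by
      intro k _
      rw [Pi.smul_apply, coeff_smul, smul_eq_mul]
      rcases Nat.eq_zero_or_pos k with hk | hk
      · subst hk
        rw [Td_Q_zero, Pi.smul_apply, smul_eq_mul, mul_comm (X ^ a) (s γ), coeff_mul_X_pow',
          if_pos hi', pow_zero, one_mul, if_pos rfl]
      · rw [Td_Q_pos a ρ hk, Td_P_coeff, if_neg fun h => hi h.1, if_neg (by omega), mul_zero]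
    have hr : ∀ j ∈ range n, ((C (δ ^ (a + j)) • ((X : ℂ[X]) ^ (a + j) • cv (Td_sc j s) +
        ρ ((X : ℂ[X]) ^ (a + j) • cv (Td_sc j s)))) γ).coeff i =
        if i - a = j then δ ^ i * (s γ).coeff (i - a) else 0 := by
      intro j _
      rw [Pi.smul_apply, Pi.add_apply, smul_eq_mul, coeff_C_mul, coeff_add,
        mem_U.1 (h1 _) γ i hi', add_zero, Pi.smul_apply,
        smul_eq_mul, mul_comm (X ^ (a + j)) (cv (Td_sc j s) γ), coeff_mul_X_pow', cv, coeff_C]
      by_cases hj : i - a = j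
      · subst hj
        have h5 : a + (i - a) = i := by omega
        rw [h5, if_pos le_rfl, Nat.sub_self, if_pos rfl, if_pos rfl]
        rfl
      · rw [if_neg hj]
        by_cases h6 : a + j ≤ i
        · rw [if_pos h6, if_neg (by omega), mul_zero]
        · rw [if_neg h6, mul_zero]
    rw [sum_congr rfl hl, sum_congr rfl hr, Finset.sum_ite_eq, Finset.sum_ite_eq,
      if_pos (mem_range.2 (by omega))]
    by_cases h7 : i - a < n
    · rw [if_pos (mem_range.2 h7), mul_comm]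
    · rw [if_neg fun h => h7 (mem_range.1 h), mem_U.1 hs γ (i - a) (by omega), zero_mul]

theorem exists_td (h : Blk b μ a L) (hΦ : Ph b a L Φ) (ha : 1 ≤ a) :
    ∃ Pk : ℕ → V b →ₗ[ℂ] V b,
      (∀ s, Pk 0 s = (X : ℂ[X]) ^ a • s) ∧
      (∀ s, Pk 1 s = (X : ℂ[X]) ^ (a - 1) • cv ((cf Φ (a - 1)).mulVec (e0 s))) ∧
      (∀ k s, 1 ≤ k → Pk k s ∈ U b a) ∧
      (∀ (n : ℕ) (s : V b), s ∈ U b n → ∀ k, a + n ≤ k → Pk k s = 0) ∧
      ∀ (n : ℕ) (s : V b), s ∈ U b n → ∀ δ : ℂ, δ ≠ 0 →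
        ∑ k ∈ range (a + n), δ ^ k • Pk k s ∈ vanL b (scL δ L) := by
  obtain ⟨ρ, h1, h2⟩ := exists_rho h
  refine ⟨Td_Q a ρ, Td_Q_zero a ρ, ?_, ?_, ?_, ?_⟩
  · intro s
    rw [Td_Q_pos a ρ le_rfl]
    funext γ
    ext i
    rw [Td_P_coeff, Pi.smul_apply, smul_eq_mul,
      mul_comm (X ^ (a - 1)) (cv ((cf Φ (a - 1)).mulVec (e0 s)) γ), coeff_mul_X_pow', cv, coeff_C]
    by_cases hi : i = a - 1
    · subst hi
      have h3 : 1 + (a - 1) = a := by omega
      rw [if_pos ⟨by omega, by omega⟩, if_pos le_rfl, Nat.sub_self, if_pos rfl, h3, Nat.sub_self]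
      have h4 : Td_sc 0 s = e0 s := rfl
      rw [h4, Td_rho_top h hΦ ρ h1 h2, Pi.sub_apply, coeff_sub, Pi.smul_apply, smul_eq_mul,
        mul_comm (X ^ a) (cv (e0 s) γ), coeff_mul_X_pow', if_neg (by omega), sub_zero]
      exact (hΦ.comb (e0 s)).2.2.2 γ (a - 1)
    · rw [if_neg (by omega)]
      by_cases h6 : a - 1 ≤ i
      · rw [if_pos h6, if_neg (by omega)]
      · rw [if_neg h6]
  · intro k s hk
    rw [Td_Q_pos a ρ hk, mem_U]
    intro β j hj
    rw [Td_P_coeff, if_neg (by omega)]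
  · intro n s hs k hk
    rw [Td_Q_pos a ρ (by omega)]
    funext γ
    ext i
    rw [Td_P_coeff, Pi.zero_apply, coeff_zero]
    by_cases h3 : i < a ∧ a ≤ k + i
    · rw [if_pos h3]
      have h4 : Td_sc (k + i - a) s = 0 := by
        funext β
        exact mem_U.1 hs β _ (by omega)
      rw [h4, Td_cv_zero, smul_zero, map_zero, Pi.zero_apply, coeff_zero]
    · rw [if_neg h3]
  · intro n s hs δ hδ
    rw [mem_vanL]
    intro p' hp'
    rw [scL, List.mem_map] at hp'
    obtain ⟨p, hp, rfl⟩ := hp'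
    rw [← van_sc δ hδ p]
    have h3 : (fun γ => ((∑ k ∈ range (a + n), δ ^ k • Td_Q a ρ k s) γ).comp (C δ * X)) =
        ∑ j ∈ range n, C (δ ^ (a + j)) • ((X : ℂ[X]) ^ (a + j) • cv (Td_sc j s) +
        ρ ((X : ℂ[X]) ^ (a + j) • cv (Td_sc j s))) := by
      funext γ
      exact Td_main ha ρ h1 n s hs δ γ
    rw [h3]
    apply (van b p).sum_mem
    intro j _
    exact (van b p).smul_mem _ (h2 _ p hp)

private theorem Td_iter (a : ℕ) (p : ℂ[X]) (j : ℕ) :
    ((divX (R := ℂ))^[a] p).coeff j = p.coeff (j + a) := by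
  induction a generalizing j with
  | zero => rfl
  | succ a ih =>
    rw [Function.iterate_succ_apply', coeff_divX, ih]
    congr 1
    omega

/-- Every element of `V b` is `X^a • s + r`, `r ∈ U b a`. -/
theorem exists_div (a : ℕ) (G : V b) : ∃ s : V b, G - (X : ℂ[X]) ^ a • s ∈ U b a ∧
    ∀ β j, (s β).coeff j = (G β).coeff (j + a) := by
  refine ⟨fun β => (divX (R := ℂ))^[a] (G β), ?_, fun β j => Td_iter a (G β) j⟩
  rw [mem_U]
  intro β j hj
  rw [Pi.sub_apply, coeff_sub, Pi.smul_apply, smul_eq_mul, mul_comm, coeff_mul_X_pow', if_pos hj,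
    Td_iter, Nat.sub_add_cancel hj, sub_self]

end Pool.Agent.H18.Tl

end
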