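import Mathlib

/-! The parts of this file: H18.Tl.Defs, H18.Tl.Tz. -/

section

/-!
# Project TL (MP_1dafdd_ag): definitions

Thin systems: polynomials `F(t, y) = ∑_β F_β(t) y^β` in one long variable `t` and variables `y_l`, `l : τ`, with the
exponents `β_l ≤ b_l` (`Box b`), as vectors `F : Box b → ℂ[X]` of polynomials in `t`.

`tz b z` is the matrix of `F(t, y) ↦ F(t, y + z)`.  A point `p : Pt τ` has the multiplicity `p.m` and the coordinates
`t = p.x`, `y = p.z`; `van b p` are the `F` vanishing to order `p.m` at `p`: the coefficient of `y^γ` of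
`F(t, y + p.z)` is divisible by `(t - p.x)^(p.m - |γ|)` for all `γ`.

`Ve b e`: total degree at most `e`.  `U b a`: degree less than `a` in `t`.  `Sol b e L`: the elements of `Ve b e`
vanishing at the points of `L`; `h0` is its dimension.  `Lm b μ`: the number of conditions imposed by a point of
multiplicity `μ`; `Lm b (e + 1)` is also the dimension of `Ve b e`.

`Blk b μ a L`: `L` is an exact block, i.e. `L` consists of points of multiplicity `μ` with distinct `x`, the number of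
conditions is `a * Pc b = dim U b a` and only `0 ∈ U b a` satisfies them.  `Ph b a L Φ`: `Φ` is the monic matrix
of degree `a` whose columns vanish at `L`.  `cf Φ j` is the coefficient of `t^j`.  `Ds b μ s` is the span of the
sub-leading coefficients `cf Φ (a - 1)` of the exact blocks with `s` points.
-/

namespace Pool.Agent.H18.Tl

open Finset Polynomial

variable {τ : Type} [Fintype τ] [DecidableEq τ]

/-- The box of exponents. -/
abbrev Box (b : τ → ℕ) : Type := (l : τ) → Fin (b l + 1)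

/-- The degree of an exponent. -/
def dg {b : τ → ℕ} (β : Box b) : ℕ := ∑ l, (β l : ℕ)

/-- The exponent `0`. -/
def zb (b : τ → ℕ) : Box b := fun _ => 0

/-- The exponent `b - β`. -/
def rb {b : τ → ℕ} (β : Box b) : Box b := fun l => Fin.rev (β l)

/-- Polynomials in `t` and `y` with exponents in the box, as vectors of polynomials in `t`. -/
abbrev V (b : τ → ℕ) : Type := Box b → ℂ[X]

/-- Square matrices with complex entries. -/
abbrev Mt (b : τ → ℕ) : Type := Matrix (Box b) (Box b) ℂ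

/-- The matrix of the translation `F(t, y) ↦ F(t, y + z)`. -/
noncomputable def tz (b : τ → ℕ) (z : τ → ℂ) : Mt b :=
  fun γ β => ∏ l, ((((β l : ℕ).choose (γ l : ℕ) : ℕ) : ℂ) * z l ^ ((β l : ℕ) - (γ l : ℕ)))

/-- The matrix of the reversal `F(t, y) ↦ y^b F(t, 1/y)`. -/
def rv (b : τ → ℕ) : Mt b := fun γ β => if γ = rb β then 1 else 0

/-- A constant matrix acts on `V b`. -/
noncomputable def act {b : τ → ℕ} (A : Mt b) : V b →ₗ[ℂ[X]] V b := (A.map C).mulVecLin

theorem act_apply {b : τ → ℕ} (A : Mt b) (F : V b) (γ : Box b) :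
    act A F γ = ∑ β, C (A γ β) * F β := rfl

/-- A point with a multiplicity. -/
structure Pt (τ : Type) : Type where
  /-- the multiplicity -/
  m : ℕ
  /-- the coordinate `t` -/
  x : ℂ
  /-- the coordinates `y` -/
  z : τ → ℂ

/-- Vanishing at the point `p`. -/
noncomputable def van (b : τ → ℕ) (p : Pt τ) : Submodule ℂ[X] (V b) where
  carrier := {F | ∀ γ, (X - C p.x) ^ (p.m - dg γ) ∣ act (tz b p.z) F γ}
  add_mem' := by
    intro F G hF hG γ
    rw [map_add]
    exact dvd_add (hF γ) (hG γ)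
  zero_mem' := by
    intro γ
    rw [map_zero]
    exact dvd_zero _
  smul_mem' := by
    intro q F hF γ
    rw [map_smul]
    exact Dvd.dvd.mul_left (hF γ) q

theorem mem_van {b : τ → ℕ} {p : Pt τ} {F : V b} :
    F ∈ van b p ↔ ∀ γ, (X - C p.x) ^ (p.m - dg γ) ∣ act (tz b p.z) F γ := Iff.rfl

/-- Vanishing at the points of a list. -/
noncomputable def vanL (b : τ → ℕ) (L : List (Pt τ)) : Submodule ℂ[X] (V b) where
  carrier := {F | ∀ p ∈ L, F ∈ van b p}
  add_mem' := fun hF hG p hp => (van b p).add_mem (hF p hp) (hG p hp)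
  zero_mem' := fun p _ => (van b p).zero_mem
  smul_mem' := fun q _ hF p hp => (van b p).smul_mem q (hF p hp)

theorem mem_vanL {b : τ → ℕ} {L : List (Pt τ)} {F : V b} :
    F ∈ vanL b L ↔ ∀ p ∈ L, F ∈ van b p := Iff.rfl

/-- Total degree at most `e`. -/
def Ve (b : τ → ℕ) (e : ℕ) : Submodule ℂ (V b) where
  carrier := {F | ∀ β j, e < j + dg β → (F β).coeff j = 0}
  add_mem' := by
    intro F G hF hG β j h
    rw [Pi.add_apply, coeff_add, hF β j h, hG β j h, add_zero]
  zero_mem' := fun _ _ _ => rfl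
  smul_mem' := by
    intro c F hF β j h
    rw [Pi.smul_apply, coeff_smul, hF β j h, smul_zero]

omit [DecidableEq τ] in
theorem mem_Ve {b : τ → ℕ} {e : ℕ} {F : V b} :
    F ∈ Ve b e ↔ ∀ β j, e < j + dg β → (F β).coeff j = 0 := Iff.rfl

/-- Degree less than `a` in `t`. -/
def U (b : τ → ℕ) (a : ℕ) : Submodule ℂ (V b) where
  carrier := {F | ∀ β j, a ≤ j → (F β).coeff j = 0}
  add_mem' := by
    intro F G hF hG β j h
    rw [Pi.add_apply, coeff_add, hF β j h, hG β j h, add_zero]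
  zero_mem' := fun _ _ _ => rfl
  smul_mem' := by
    intro c F hF β j h
    rw [Pi.smul_apply, coeff_smul, hF β j h, smul_zero]

omit [Fintype τ] [DecidableEq τ] in
theorem mem_U {b : τ → ℕ} {a : ℕ} {F : V b} :
    F ∈ U b a ↔ ∀ β j, a ≤ j → (F β).coeff j = 0 := Iff.rfl

/-- The forms of degree at most `e` vanishing at `L`. -/
noncomputable def Sol (b : τ → ℕ) (e : ℕ) (L : List (Pt τ)) : Submodule ℂ (V b) :=
  Ve b e ⊓ (vanL b L).restrictScalars ℂ

theorem mem_Sol {b : τ → ℕ} {e : ℕ} {L : List (Pt τ)} {F : V b} :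
    F ∈ Sol b e L ↔ F ∈ Ve b e ∧ F ∈ vanL b L := Iff.rfl

/-- The dimension. -/
noncomputable def h0 (b : τ → ℕ) (e : ℕ) (L : List (Pt τ)) : ℕ := Module.finrank ℂ (Sol b e L)

/-- The number of conditions imposed by a point of multiplicity `μ`. -/
def Lm (b : τ → ℕ) (μ : ℕ) : ℕ := ∑ γ : Box b, (μ - dg γ)

/-- The number of exponents in the box. -/
def Pc (b : τ → ℕ) : ℕ := Fintype.card (Box b)

/-- The largest degree in the box. -/
def Bs (b : τ → ℕ) : ℕ := ∑ l, b l

/-- The number of conditions imposed by `L`. -/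
def cL (b : τ → ℕ) (L : List (Pt τ)) : ℕ := (L.map fun p => Lm b p.m).sum

/-- `L` is an exact block of points of multiplicity `μ` and height `a`. -/
structure Blk (b : τ → ℕ) (μ a : ℕ) (L : List (Pt τ)) : Prop where
  mult : ∀ p ∈ L, p.m = μ
  dist : (L.map Pt.x).Nodup
  cnt : L.length * Lm b μ = a * Pc b
  inj : ∀ F ∈ U b a, F ∈ vanL b L → F = 0

/-- `Φ` is monic of degree `a` and its columns vanish at `L`. -/
structure Ph (b : τ → ℕ) (a : ℕ) (L : List (Pt τ)) (Φ : Matrix (Box b) (Box b) ℂ[X]) : Prop where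
  van : ∀ β, (fun γ => Φ γ β) ∈ vanL b L
  top : ∀ γ β, (Φ γ β).coeff a = if γ = β then 1 else 0
  deg : ∀ γ β j, a < j → (Φ γ β).coeff j = 0

/-- The coefficient matrix of `t^j`. -/
def cf {b : τ → ℕ} (Φ : Matrix (Box b) (Box b) ℂ[X]) (j : ℕ) : Mt b := fun γ β => (Φ γ β).coeff j

/-- The value at `t = x`. -/
noncomputable def ev {b : τ → ℕ} (Φ : Matrix (Box b) (Box b) ℂ[X]) (x : ℂ) : Mt b :=
  fun γ β => (Φ γ β).eval x

/-- The span of the sub-leading coefficients of the exact blocks with `s` points. -/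
noncomputable def Ds (b : τ → ℕ) (μ s : ℕ) : Submodule ℂ (Mt b) :=
  Submodule.span ℂ {Y | ∃ (a : ℕ) (L : List (Pt τ)) (Φ : Matrix (Box b) (Box b) ℂ[X]),
    Blk b μ a L ∧ L.length = s ∧ Ph b a L Φ ∧ Y = cf Φ (a - 1)}

/-- `F ↦ F(t + c, y)`. -/
noncomputable def sh {b : τ → ℕ} (c : ℂ) : V b →ₗ[ℂ] V b :=
  LinearMap.pi fun γ => (taylor c) ∘ₗ LinearMap.proj γ

omit [Fintype τ] [DecidableEq τ] in
theorem sh_apply {b : τ → ℕ} (c : ℂ) (F : V b) (γ : Box b) : sh c F γ = taylor c (F γ) := rfl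

/-- Translation in the direction of `t`. -/
def shL (c : ℂ) (L : List (Pt τ)) : List (Pt τ) := L.map fun p => ⟨p.m, p.x + c, p.z⟩

/-- Scaling in the direction of `t`. -/
def scL (δ : ℂ) (L : List (Pt τ)) : List (Pt τ) := L.map fun p => ⟨p.m, δ * p.x, p.z⟩

/-- Translation in the direction of `y`. -/
def tzL (c : τ → ℂ) (L : List (Pt τ)) : List (Pt τ) := L.map fun p => ⟨p.m, p.x, p.z + c⟩

/-- Inversion of the coordinates `y`. -/
noncomputable def rvL (L : List (Pt τ)) : List (Pt τ) :=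
  L.map fun p => ⟨p.m, p.x, fun l => (p.z l)⁻¹⟩

/-- A constant vector as an element of `V b`. -/
noncomputable def cv {b : τ → ℕ} (w : Box b → ℂ) : V b := fun β => C (w β)

/-- The value at `t = 0`. -/
def e0 {b : τ → ℕ} (F : V b) : Box b → ℂ := fun β => (F β).coeff 0

end Pool.Agent.H18.Tl

end

section

/-!
# Module Tz (TL): translations

`tz_add`: the entry `(γ, β)` of the product is `∏_l` of the sums over `κ_l` (`Finset.prod_univ_sum`,
`Fintype.piFinset_univ`), and `∑_κ binom(κ,γ) z^(κ-γ) binom(β,κ) w^(β-κ) = binom(β,γ) (z+w)^(β-γ)` (coefficient of `Y^γ` in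
`((Y + z) + w)^β`, or `Nat.choose_mul`).  `tz_eq_zero`: a factor `binom(β_l, γ_l)` vanishes.
`van_tz`: `act (tz b p.z) (act (tz b c) F) = act (tz b (p.z + c)) F`.
`tz_mem_Ve`: `tz b z γ β = 0` unless `γ ≤ β`, so `dg γ ≤ dg β`.
-/

namespace Pool.Agent.H18.Tl

open Finset Polynomial

variable {τ : Type} [Fintype τ] [DecidableEq τ] {b : τ → ℕ}

theorem act_mul (A B : Mt b) (F : V b) : act (A * B) F = act A (act B F) := by
  unfold act
  rw [Matrix.map_mul, Matrix.mulVecLin_mul, LinearMap.comp_apply]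

theorem act_one (F : V b) : act (1 : Mt b) F = F := by
  unfold act
  rw [Matrix.map_one _ (map_zero C) (map_one C), Matrix.mulVecLin_one, LinearMap.id_apply]

theorem coeff_act (A : Mt b) (F : V b) (γ : Box b) (j : ℕ) :
    (act A F γ).coeff j = ∑ β, A γ β * (F β).coeff j := by
  rw [act_apply, finsetSum_coeff]
  exact Finset.sum_congr rfl fun β _ => by rw [coeff_C_mul]

theorem tz_eq_zero (z : τ → ℂ) (γ β : Box b) (h : ¬ ∀ l, (γ l : ℕ) ≤ β l) : tz b z γ β = 0 := by
  push Not at h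
  obtain ⟨l, hl⟩ := h
  unfold tz
  refine Finset.prod_eq_zero (Finset.mem_univ l) ?_
  rw [Nat.choose_eq_zero_of_lt hl, Nat.cast_zero, zero_mul]

theorem tz_zero : tz b 0 = 1 := by
  ext γ β
  by_cases h : γ = β
  · subst h
    rw [Matrix.one_apply_eq]
    unfold tz
    refine Finset.prod_eq_one fun l _ => ?_
    rw [Nat.choose_self, Nat.sub_self, pow_zero, Nat.cast_one, mul_one]
  · rw [Matrix.one_apply_ne h]
    by_cases h2 : ∀ l, (γ l : ℕ) ≤ β l
    · obtain ⟨l, hl⟩ : ∃ l, γ l ≠ β l := by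
        by_contra hcon
        push Not at hcon
        exact h (funext hcon)
      unfold tz
      refine Finset.prod_eq_zero (Finset.mem_univ l) ?_
      have h3 : (β l : ℕ) - (γ l : ℕ) ≠ 0 := by
        have h4 := h2 l
        have h5 : (γ l : ℕ) ≠ β l := fun e => hl (Fin.ext e)
        omega
      rw [Pi.zero_apply, zero_pow h3, mul_zero]
    · exact tz_eq_zero 0 γ β h2

private theorem Tz_one (n g m : ℕ) (hg : g ≤ n) (hm : m ≤ n) (z w : ℂ) :
    ∑ k : Fin (n + 1), ((((k : ℕ).choose g : ℕ) : ℂ) * z ^ ((k : ℕ) - g)) * (((m.choose (k : ℕ) : ℕ) : ℂ) * w ^ (m - (k : ℕ))) =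
      ((m.choose g : ℕ) : ℂ) * (z + w) ^ (m - g) := by
  obtain ⟨f, hf⟩ : ∃ f : ℕ → ℂ, f = fun k => (((k.choose g : ℕ) : ℂ) * z ^ (k - g)) * (((m.choose k : ℕ) : ℂ) * w ^ (m - k)) := ⟨_, rfl⟩
  have h1 : ∑ k : Fin (n + 1), ((((k : ℕ).choose g : ℕ) : ℂ) * z ^ ((k : ℕ) - g)) *
      (((m.choose (k : ℕ) : ℕ) : ℂ) * w ^ (m - (k : ℕ))) = ∑ k ∈ Finset.range (n + 1), f k := by
    rw [Finset.sum_range, hf]
  rw [h1]
  rcases lt_or_ge m g with hmg | hmg
  · rw [Nat.choose_eq_zero_of_lt hmg, Nat.cast_zero, zero_mul]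
    refine Finset.sum_eq_zero fun k _ => ?_
    rw [hf]
    rcases lt_or_ge k g with h | h
    · simp only [Nat.choose_eq_zero_of_lt h, Nat.cast_zero, zero_mul]
    · simp only [Nat.choose_eq_zero_of_lt (show m < k by omega), Nat.cast_zero, zero_mul, mul_zero]
  · have h2 : n + 1 = g + (m - g + 1) + (n - m) := by omega
    rw [h2, Finset.sum_range_add, Finset.sum_range_add]
    have h3 : ∑ k ∈ Finset.range g, f k = 0 := by
      refine Finset.sum_eq_zero fun k hk => ?_
      rw [hf]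
      simp only [Nat.choose_eq_zero_of_lt (Finset.mem_range.1 hk), Nat.cast_zero, zero_mul]
    have h4 : ∑ k ∈ Finset.range (n - m), f (g + (m - g + 1) + k) = 0 := by
      refine Finset.sum_eq_zero fun k hk => ?_
      rw [hf]
      simp only [Nat.choose_eq_zero_of_lt (show m < g + (m - g + 1) + k by omega), Nat.cast_zero, zero_mul, mul_zero]
    rw [h3, h4, zero_add, add_zero, add_pow, Finset.mul_sum]
    refine Finset.sum_congr rfl fun i hi => ?_
    rw [hf]
    simp only
    have hi' : i ≤ m - g := Nat.lt_succ_iff.1 (Finset.mem_range.1 hi)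
    have h5 := Nat.choose_mul (n := m) (k := g + i) (s := g) (by omega)
    have h6 : g + i - g = i := by omega
    have h7 : m - (g + i) = m - g - i := by omega
    rw [h6] at h5
    rw [h6, h7]
    have h8 : ((m.choose (g + i) : ℕ) : ℂ) * (((g + i).choose g : ℕ) : ℂ) = ((m.choose g : ℕ) : ℂ) * (((m - g).choose i : ℕ) : ℂ) := by
      exact_mod_cast h5
    calc (((g + i).choose g : ℕ) : ℂ) * z ^ i * (((m.choose (g + i) : ℕ) : ℂ) * w ^ (m - g - i)) =
        (((m.choose (g + i) : ℕ) : ℂ) * (((g + i).choose g : ℕ) : ℂ)) * (z ^ i * w ^ (m - g - i)) := by ring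
      _ = _ := by rw [h8]; ring

theorem tz_add (z w : τ → ℂ) : tz b (z + w) = tz b z * tz b w := by
  ext γ β
  rw [Matrix.mul_apply]
  unfold tz
  simp only [← Finset.prod_mul_distrib]
  rw [← Fintype.piFinset_univ (α := τ) (β := fun l => Fin (b l + 1)), ← Finset.prod_univ_sum (fun l => (Finset.univ : Finset (Fin (b l + 1))))
    (fun l (k : Fin (b l + 1)) => ((((k : ℕ).choose (γ l : ℕ) : ℕ) : ℂ) * z l ^ ((k : ℕ) - (γ l : ℕ))) *
      ((((β l : ℕ).choose (k : ℕ) : ℕ) : ℂ) * w l ^ ((β l : ℕ) - (k : ℕ))))]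
  refine Finset.prod_congr rfl fun l _ => ?_
  rw [Tz_one (b l) (γ l) (β l) (Nat.lt_succ_iff.1 (γ l).2) (Nat.lt_succ_iff.1 (β l).2), Pi.add_apply]

theorem tz_neg_mul (z : τ → ℂ) : tz b (-z) * tz b z = 1 := by
  rw [← tz_add, neg_add_cancel, tz_zero]

theorem tz_mul_neg (z : τ → ℂ) : tz b z * tz b (-z) = 1 := by
  rw [← tz_add, add_neg_cancel, tz_zero]

theorem van_tz (c : τ → ℂ) (p : Pt τ) (F : V b) :
    act (tz b c) F ∈ van b p ↔ F ∈ van b ⟨p.m, p.x, p.z + c⟩ := by
  rw [mem_van, mem_van]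
  simp only [← act_mul, ← tz_add]

theorem act_mem_U (A : Mt b) (a : ℕ) (F : V b) (hF : F ∈ U b a) : act A F ∈ U b a := by
  rw [mem_U] at hF ⊢
  intro β j h
  rw [coeff_act]
  exact Finset.sum_eq_zero fun γ _ => by rw [hF γ j h, mul_zero]

theorem tz_mem_Ve (z : τ → ℂ) (e : ℕ) (F : V b) (hF : F ∈ Ve b e) : act (tz b z) F ∈ Ve b e := by
  rw [mem_Ve] at hF ⊢
  intro γ j h
  rw [coeff_act]
  refine Finset.sum_eq_zero fun β _ => ?_
  by_cases h2 : ∀ l, (γ l : ℕ) ≤ β l
  · have h3 : dg γ ≤ dg β := Finset.sum_le_sum fun l _ => h2 l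
    rw [hF β j (by omega), mul_zero]
  · rw [tz_eq_zero z γ β h2, zero_mul]

end Pool.Agent.H18.Tl

end
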