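import Pool.Agent.H94.LP4.M08
import Pool.Agent.H94.LP4.M10
import Pool.Agent.H94.LP4.M14
import Pool.Agent.H94.LP4.M73

/-! The parts of this file: H18.Ex.Norm, H18.Tj.CntA, H18.Tj.Defs, H18.Tk.CntT, H18.Tk.Defs, H18.Tl.Asm0, H18.Tl.Lin, H18.Tl.LinD. -/

section

/-!
# Module Norm: reduction to normalised regions and the induction on the dimension
-/

namespace Pool.Agent.H18.Ex

open Finset

section

variable {ι : Type} [Fintype ι] [DecidableEq ι]

theorem Rg_trunc (σ : ℕ) (w : ι → ℕ) : Rg σ (fun i => min (w i) σ) = Rg σ w := by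
  ext a
  rw [mem_Rg, mem_Rg]
  constructor
  · rintro ⟨h1, h2⟩
    exact ⟨fun i => (h1 i).trans (min_le_left _ _), h2⟩
  · rintro ⟨h1, h2⟩
    refine ⟨fun i => le_min (h1 i) ?_, h2⟩
    rw [← h2]
    exact single_le_sum (fun _ _ => Nat.zero_le _) (mem_univ i)

theorem two_le_sum (v : ι → ℕ) {a b : ι} (hab : a ≠ b) : v a + v b ≤ ∑ i, v i := by
  rw [← sum_pair hab]
  exact sum_le_sum_of_subset (subset_univ _)

end

/-! ### Polynomial growth -/

end Pool.Agent.H18.Ex

end

section

/-!
# Module C1a (TJ): the numbers `c(σ, w) = (Rg σ w).card`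

(`cnt_slow` is in CntS; `cnt_le_mul`, `mul_le_cnt`, `cnt_thin` are in CntL.)

`h` is a free coordinate (`σ ≤ w h`).
* `cnt_layer` (`y` any coordinate): count by the value of `a y`.
* `cnt_mono`: `a ↦ a + e_h` maps `Rg σ w` injectively to `Rg (σ + 1) w`.
* `cnt_slow`: `C σ = c(σ, w)` is the number of the `β` (zero at `h`) with `β ≤ w`, `|β| ≤ σ`, and
  `C (σ' + 1) - C σ' = #{β : |β| = σ' + 1} =: p`; `(σ' + 1) p = ∑_β ∑_i β_i ≤ q C σ'`, since for a fixed `i` the map
  `(β, t) ↦ β - t e_i`, `1 ≤ t ≤ β_i`, is injective (`t = σ' + 1 - |γ|`) into `{γ : |γ| ≤ σ'}`.  So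
  `(σ' + 1) (C (σ' + 1) - C σ') ≤ q C σ' ≤ q C σ`; sum over `σ' = σ - s, …, σ - 1`, with `σ' + 1 ≥ σ - s + 1`.
  (In terms of `Rg` without a special role of `h`: `c(σ' + 1, w) - c(σ', w) = #{a ∈ Rg (σ' + 1) w : a h = 0}`.)
* `cnt_ge`: `card_ge` (module Frac).
* `cnt_le_mul`, `mul_le_cnt`: `cnt_layer` for `y = l`; all `c(σ - t, w') ≤ c(σ, w')`, resp. `c(σ - t, w') ≥ c(σ, w') / 2`
  for `t ≤ B` by `cnt_slow`.
* `cnt_thin`: the difference is the number of the `a ∈ Rg (σ + 1) w` with `a h = 0`; such an `a` is determined by its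
  coordinates other than `h`, `c`, which are less than `θ`.
* `cnt_le_pow`: the exponents are determined by the coordinates other than `h` (`card_le_prod`).
-/

namespace Pool.Agent.H18.Tj

open Finset Function Pool.Agent.H18.Ex

variable {ι : Type} [Fintype ι] [DecidableEq ι]

private theorem CntA_sum_update (a : ι → ℕ) (l : ι) (v : ℕ) :
    ∑ i, update a l v i + a l = ∑ i, a i + v := by
  have h1 : ∑ i, update a l v i = v + ∑ i ∈ univ.erase l, a i := by
    rw [sum_update_of_mem (mem_univ l), erase_eq]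
  have h2 : ∑ i, a i = a l + ∑ i ∈ univ.erase l, a i := (add_sum_erase univ a (mem_univ l)).symm
  omega

omit [DecidableEq ι] in
private theorem CntA_le_sum (a : ι → ℕ) (l : ι) : a l ≤ ∑ i, a i :=
  single_le_sum (f := a) (fun _ _ => Nat.zero_le _) (mem_univ l)

theorem cnt_succ (l : ι) (σ : ℕ) (w : ι → ℕ) (k : ℕ) :
    (Rg (σ + 1) (update w l (k + 1))).card =
      (Rg σ (update w l k)).card + (Rg (σ + 1) (update w l 0)).card := by
  have h1 : (Rg (σ + 1) (update w l 0)) =
      (Rg (σ + 1) (update w l (k + 1))).filter (fun x => x l < 1) := by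
    have := Rg_update_eq (σ + 1) (update w l (k + 1)) l
    rwa [update_idem] at this
  have h2 : (Rg σ (update w l k)).card =
      ((Rg (σ + 1) (update w l (k + 1))).filter (fun x => ¬ x l < 1)).card := by
    apply card_bij (fun a _ => update a l (a l + 1))
    · intro a ha
      rw [mem_Rg] at ha
      obtain ⟨ha1, ha2⟩ := ha
      rw [mem_filter, mem_Rg]
      refine ⟨⟨fun i => ?_, ?_⟩, ?_⟩
      · have h3 := ha1 i
        by_cases hi : i = l
        · rw [hi, update_self] at h3 ⊢
          rw [update_self]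
          omega
        · rw [update_of_ne hi] at h3 ⊢
          rwa [update_of_ne hi]
      · have := CntA_sum_update a l (a l + 1)
        omega
      · rw [update_self]
        omega
    · intro a _ b _ hab
      funext i
      by_cases hi : i = l
      · have h3 := congrFun hab l
        simp only [update_self] at h3
        rw [hi]
        omega
      · have h3 := congrFun hab i
        simp only [update_of_ne hi] at h3
        exact h3
    · intro b hb
      rw [mem_filter, mem_Rg] at hb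
      obtain ⟨⟨hb1, hb2⟩, hb3⟩ := hb
      refine ⟨update b l (b l - 1), ?_, ?_⟩
      · rw [mem_Rg]
        refine ⟨fun i => ?_, ?_⟩
        · have h3 := hb1 i
          by_cases hi : i = l
          · rw [hi, update_self] at h3 ⊢
            rw [update_self]
            omega
          · rw [update_of_ne hi] at h3 ⊢
            rwa [update_of_ne hi]
        · have := CntA_sum_update b l (b l - 1)
          omega
      · funext i
        by_cases hi : i = l
        · rw [hi, update_self, update_self]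
          omega
        · rw [update_of_ne hi, update_of_ne hi]
  rw [h1, h2]
  have h3 := card_filter_add_card_filter_not (s := Rg (σ + 1) (update w l (k + 1)))
    (fun x : ι → ℕ => x l < 1)
  omega

theorem cnt_layer (y : ι) (σ : ℕ) (w : ι → ℕ) :
    (Rg σ w).card = ∑ t ∈ (range (w y + 1)).filter (fun t => t ≤ σ),
      (Rg (σ - t) (update w y 0)).card := by
  rw [card_eq_sum_card_fiberwise (f := fun a : ι → ℕ => a y)
    (t := (range (w y + 1)).filter (fun t => t ≤ σ))]
  · refine sum_congr rfl fun t ht => ?_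
    rw [mem_filter, mem_range] at ht
    apply card_bij (fun a _ => update a y 0)
    · intro a ha
      rw [mem_filter, mem_Rg] at ha
      obtain ⟨⟨ha1, ha2⟩, ha3⟩ := ha
      rw [mem_Rg]
      refine ⟨fun i => ?_, ?_⟩
      · by_cases hi : i = y
        · rw [hi, update_self, update_self]
        · rw [update_of_ne hi, update_of_ne hi]
          exact ha1 i
      · have := CntA_sum_update a y 0
        have h3 : a y = t := ha3
        omega
    · intro a ha b hb hab
      rw [mem_filter] at ha hb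
      have h3 : a y = t := ha.2
      have h4 : b y = t := hb.2
      funext i
      by_cases hi : i = y
      · rw [hi, h3, h4]
      · have h5 := congrFun hab i
        simp only [update_of_ne hi] at h5
        exact h5
    · intro b hb
      rw [mem_Rg] at hb
      obtain ⟨hb1, hb2⟩ := hb
      have hby : b y = 0 := by
        have := hb1 y
        rw [update_self] at this
        omega
      refine ⟨update b y t, ?_, ?_⟩
      · rw [mem_filter, mem_Rg]
        refine ⟨⟨fun i => ?_, ?_⟩, ?_⟩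
        · by_cases hi : i = y
          · rw [hi, update_self]
            omega
          · rw [update_of_ne hi]
            have := hb1 i
            rwa [update_of_ne hi] at this
        · have := CntA_sum_update b y t
          omega
        · exact update_self y t b
      · rw [update_idem]
        funext i
        by_cases hi : i = y
        · rw [hi, update_self, hby]
        · rw [update_of_ne hi]
  · intro a ha
    rw [mem_coe, mem_Rg] at ha
    obtain ⟨ha1, ha2⟩ := ha
    rw [mem_coe, mem_filter, mem_range]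
    have h1 := ha1 y
    have h2 := CntA_le_sum a y
    constructor
    · show a y < w y + 1
      omega
    · show a y ≤ σ
      omega

theorem cnt_mono {h : ι} {σ σ' : ℕ} {w : ι → ℕ} (hσ : σ ≤ σ') (hh : σ' ≤ w h) :
    (Rg σ w).card ≤ (Rg σ' w).card := by
  apply card_le_card_of_injOn (fun a => update a h (a h + (σ' - σ)))
  · intro a ha
    rw [mem_coe, mem_Rg] at ha
    obtain ⟨ha1, ha2⟩ := ha
    rw [mem_coe, mem_Rg]
    have h1 := CntA_le_sum a h
    show (∀ i, update a h (a h + (σ' - σ)) i ≤ w i) ∧ ∑ i, update a h (a h + (σ' - σ)) i = σ'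
    refine ⟨fun i => ?_, ?_⟩
    · by_cases hi : i = h
      · rw [hi, update_self]
        omega
      · rw [update_of_ne hi]
        exact ha1 i
    · have := CntA_sum_update a h (a h + (σ' - σ))
      omega
  · intro a _ b _ hab
    funext i
    by_cases hi : i = h
    · have h3 := congrFun hab h
      simp only [update_self] at h3
      rw [hi]
      omega
    · have h3 := congrFun hab i
      simp only [update_of_ne hi] at h3
      exact h3

theorem cnt_le_pow {σ q : ℕ} {w : ι → ℕ} (hq : Fintype.card ι ≤ q) :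
    (Rg σ w).card ≤ (σ + 1) ^ q := by
  have h1 : (Rg σ w).card ≤ (Fintype.piFinset fun _ : ι => range (σ + 1)).card := by
    apply card_le_card
    intro a ha
    rw [mem_Rg] at ha
    rw [Fintype.mem_piFinset]
    intro i
    have := CntA_le_sum a i
    rw [mem_range]
    omega
  rw [Fintype.card_piFinset, prod_const, card_range, card_univ] at h1
  exact h1.trans (Nat.pow_le_pow_right (by omega) hq)

end Pool.Agent.H18.Tj

end

section

/-!
# Project TJ (MP_1dafdd_ag): definitions

`Lens`: the numbers of conditions imposed by points of multiplicity `m ≤ M` on the traces.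
`Cf`: configurations of free points and points forced to one fixed hyperplane.
`SysL`: an abstract Horace system along one hyperplane (`R k` = size of the state `k`, `F k` = size of
its trace).
`Lx w m`: the number of conditions imposed by a point of multiplicity `m` on the forms with
exponents at most `w`.  `NE`: near-exactness.
-/

namespace Pool.Agent.H18.Tj

open Finset Pool.Agent.H18.Ex

/-- Lengths of the traces of the points of multiplicity at most `M`. -/
structure Lens (M : ℕ) : Type where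
  /-- the length of the trace of a point of multiplicity `m` -/
  lo : ℕ → ℕ
  lo_zero : lo 0 = 0
  lo_one : lo 1 = 1
  ratio : ∀ c, c + 1 ≤ M → (c + 1) * lo c ≤ c * lo (c + 1)

/-- The length of a point of multiplicity `m`. -/
def Lens.hi {M : ℕ} (L : Lens M) (m : ℕ) : ℕ := ∑ i ∈ range m, L.lo (i + 1)

/-- A configuration: multiplicities (at least two) of the free points, number of the simple points,
forced conditions `(c, e)`. -/
structure Cf : Type where
  /-- multiplicities of the free points of multiplicity at least two -/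
  N : Multiset ℕ
  /-- number of the free simple points -/
  s : ℕ
  /-- forced conditions -/
  Φ : Multiset (ℕ × ℕ)

/-- Validity. -/
structure Cf.OK (M : ℕ) (c : Cf) : Prop where
  hN : ∀ m ∈ c.N, 2 ≤ m ∧ m ≤ M
  hΦ : ∀ x ∈ c.Φ, 1 ≤ x.2 ∧ x.2 ≤ 2 ∧ x.2 ≤ x.1 ∧ x.1 ≤ M

/-- Length of the traces of the forced conditions. -/
def trT {M : ℕ} (L : Lens M) (S : Multiset (ℕ × ℕ)) : ℕ := (S.map fun x => L.lo x.1).sum

/-- Length of the forced conditions. -/
def flT {M : ℕ} (L : Lens M) (S : Multiset (ℕ × ℕ)) : ℕ := (S.map fun x => L.hi x.1 + 1 - x.2).sum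

/-- Length of the free points. -/
def Cf.nsz {M : ℕ} (L : Lens M) (c : Cf) : ℕ := (c.N.map L.hi).sum + c.s

/-- Total length. -/
def Cf.sz {M : ℕ} (L : Lens M) (c : Cf) : ℕ := c.nsz L + flT L c.Φ

/-- An abstract Horace system along one hyperplane. -/
structure SysL : Type where
  /-- the configuration kills the space of the state `k` -/
  K : ℕ → Cf → Prop
  /-- the size of the trace -/
  F : ℕ → ℕ
  /-- the size -/
  R : ℕ → ℕ
  /-- the points with multiplicities `S` kill the trace -/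
  tr : ℕ → Multiset ℕ → Prop
  mono : ∀ k c c', c.N ≤ c'.N → c.s ≤ c'.s → c.Φ ≤ c'.Φ → K k c → K k c'
  one : ∀ k N s Φ, K k ⟨N, s + 1, Φ⟩ → K k ⟨1 ::ₘ N, s, Φ⟩
  count : ∀ k, R (k + 1) = R k + F (k + 1)
  step : ∀ k (N I : Multiset ℕ) (μ t s u : ℕ) (Φ : Multiset (ℕ × ℕ)), 1 ≤ μ →
    (∀ x ∈ Φ, x.2 ≤ x.1) →
    tr (k + 1) (Φ.map Prod.fst + I + Multiset.replicate (t + u) 1) →
    K k ⟨N, s, shf Φ + I.map (fun m => (m - 1, 1)) + Multiset.replicate t (μ, 2)⟩ →
    K (k + 1) ⟨N + I + Multiset.replicate t μ, s + u, Φ⟩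
  bridge : ∀ k (N : Multiset ℕ) (s s₀ : ℕ) (Φ : Multiset (ℕ × ℕ)),
    K (k + 1) ⟨N, s + s₀, Φ⟩ → K k ⟨N, s, shf Φ⟩ →
    K (k + 1) ⟨N, s, Φ + Multiset.replicate s₀ (1, 1)⟩
  full : ∀ k (N : Multiset ℕ) (s : ℕ) (Φ : Multiset (ℕ × ℕ)), (∀ m ∈ N, 1 ≤ m) →
    R k ≤ N.card + s → K k ⟨N, s, Φ⟩

/-- The trace of the state `k` is killed by points of multiplicity at most `M` and at least `w` simple
points as soon as the lengths suffice. -/
def Gx {M : ℕ} (L : Lens M) (Y : SysL) (w k : ℕ) : Prop :=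
  ∀ S : Multiset ℕ, (∀ m ∈ S, m ≤ M) → ∀ x : ℕ, w ≤ x → Y.F k ≤ (S.map L.lo).sum + x →
    Y.tr k (S + Multiset.replicate x 1)

/-- The number of free points needed for a step. -/
def g0T {M : ℕ} (L : Lens M) (w : ℕ) : ℕ := M * (L.lo M + w)

/-- The constant. -/
def cE {M : ℕ} (L : Lens M) : ℕ := 64 * M * (M + 1) * (L.lo M + 1) ^ 2 * (L.hi M + 1)

/-- The numerical properties of the states `1, …, kt`. -/
structure NumL {M : ℕ} (L : Lens M) (Y : SysL) (E kt : ℕ) : Prop where
  hM : 1 ≤ M
  hE : cE L ≤ E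
  floor : ∀ k, 1 ≤ k → k ≤ kt → cE L ≤ Y.F k
  mono : ∀ k, 1 ≤ k → k + 1 ≤ kt → Y.F k ≤ Y.F (k + 1)
  slow : ∀ k, 1 ≤ k → k + 1 ≤ kt → E * Y.F (k + 1) ≤ E * Y.F k + Y.F (k + 1)
  low : ∀ k, 1 ≤ k → k ≤ kt → E * Y.F k ≤ Y.R k
  gd : ∀ k, 1 ≤ k → k ≤ kt → Gx L Y (Y.F k / E + 1) k

section

variable {ι : Type} [Fintype ι] [DecidableEq ι]

/-- The number of conditions imposed by a point of multiplicity `m` on the forms with exponents at
most `w` (`|b| = m - 1`, `b ≤ w`). -/
def Lx (w : ι → ℕ) (m : ℕ) : ℕ := if m = 0 then 0 else (Rg (m - 1) w).card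

/-- Near-exactness: points of multiplicities at most `M` together with at least `x₀` simple points
kill the forms as soon as the lengths suffice. -/
def NE (M x₀ σ : ℕ) (w : ι → ℕ) : Prop :=
  ∀ S : Multiset ℕ, (∀ m ∈ S, m ≤ M) → ∀ x : ℕ, x₀ ≤ x →
    (Rg σ w).card ≤ (S.map (Lx w)).sum + x →
    GM (Rg σ w) ((S + Multiset.replicate x 1).map Kind.free)

end

/-- A bound for `cE`. -/
def cQ (q M : ℕ) : ℕ := 64 * M * (M + 1) * (M ^ q + 1) ^ 2 * (M ^ (q + 1) + 1)

end Pool.Agent.H18.Tj

end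

section

/-!
# Module T1 (TK): the number of exponents varies slowly with the degree if all coordinates but two are thin

`cnt_thin_up`: the `a ∈ Rg (σ + 1) w` with `a h ≥ 1` are mapped injectively to `Rg σ w` by `a ↦ a - e_h`; the others have
`a h = 0` and are determined by their coordinates other than `h`, `c`.  `cnt_thin_dn`: the `a ∈ Rg σ w` with `a h < w h` are
mapped to `Rg (σ + 1) w` by `a ↦ a + e_h`; the others have `a h = w h` and are again determined by their coordinates other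
than `h`, `c`.  See `cnt_thin` in `Pool/Agent/H18/Tj/CntL.lean`.
-/

namespace Pool.Agent.H18.Tk

open Finset Function Pool.Agent.H18.Ex

variable {ι : Type} [Fintype ι] [DecidableEq ι]

private theorem CntT_upd {a : ι → ℕ} (h : ι) (x : ℕ) :
    ∑ i, update a h x i = x + ∑ i ∈ univ.erase h, a i := by
  have h1 := sum_update_of_mem (mem_univ h) a x
  have h3 : (univ : Finset ι) \ {h} = univ.erase h := sdiff_singleton_eq_erase _ _
  rw [h3] at h1
  exact h1

private theorem CntT_det {h c : ι} {σ θ q x : ℕ} {w : ι → ℕ} (hc : h ≠ c)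
    (hq : Fintype.card ι ≤ q) (hθ : 1 ≤ θ) (hthin : ∀ i, i ≠ h → i ≠ c → w i < θ) :
    ((Rg σ w).filter fun a => a h = x).card ≤ θ ^ q := by
  have hcard : (Fintype.piFinset fun _ : ι => range θ).card ≤ θ ^ q := by
    rw [Fintype.card_piFinset, prod_const, card_range, card_univ]
    exact Nat.pow_le_pow_right hθ hq
  refine le_trans ?_ hcard
  refine card_le_card_of_injOn (fun a => update (update a h 0) c 0) ?_ ?_
  · intro a ha
    rw [mem_coe, mem_filter, mem_Rg] at ha
    obtain ⟨⟨ha1, ha2⟩, ha3⟩ := ha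
    rw [mem_coe, Fintype.mem_piFinset]
    intro i
    rw [mem_range]
    beta_reduce
    by_cases hi : i = c
    · subst hi
      rw [update_self]
      exact hθ
    · rw [update_of_ne hi]
      by_cases hi' : i = h
      · subst hi'
        rw [update_self]
        exact hθ
      · rw [update_of_ne hi']
        exact lt_of_le_of_lt (ha1 i) (hthin i hi' hi)
  · intro a ha b hb hab
    rw [mem_coe, mem_filter, mem_Rg] at ha hb
    have hne : ∀ i, i ≠ c → a i = b i := by
      intro i hi
      by_cases hi' : i = h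
      · subst hi'
        rw [ha.2, hb.2]
      · have h1 := congrFun hab i
        simpa only [update_of_ne hi, update_of_ne hi'] using h1
    funext i
    by_cases hi : i = c
    · subst hi
      have h1 := add_sum_erase univ a (mem_univ i)
      have h2 := add_sum_erase univ b (mem_univ i)
      have h3 : ∑ x ∈ univ.erase i, a x = ∑ x ∈ univ.erase i, b x :=
        sum_congr rfl fun x hx => hne x (ne_of_mem_erase hx)
      have h4 := ha.1.2
      have h5 := hb.1.2
      omega
    · exact hne i hi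

theorem cnt_thin_up {h c : ι} (hc : h ≠ c) {σ θ q : ℕ} {w : ι → ℕ} (hq : Fintype.card ι ≤ q)
    (hθ : 1 ≤ θ) (hthin : ∀ i, i ≠ h → i ≠ c → w i < θ) :
    (Rg (σ + 1) w).card ≤ (Rg σ w).card + θ ^ q := by
  rw [← card_filter_add_card_filter_not (s := Rg (σ + 1) w) (fun a => a h ≠ 0)]
  refine Nat.add_le_add ?_ ?_
  · refine card_le_card_of_injOn (fun a => update a h (a h - 1)) ?_ ?_
    · intro a ha
      rw [mem_coe, mem_filter, mem_Rg] at ha
      obtain ⟨⟨ha1, ha2⟩, ha3⟩ := ha
      rw [mem_coe, mem_Rg]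
      beta_reduce
      refine ⟨fun i => ?_, ?_⟩
      · by_cases hi : i = h
        · subst hi
          rw [update_self]
          exact (Nat.sub_le _ _).trans (ha1 _)
        · rw [update_of_ne hi]
          exact ha1 i
      · have h2 := add_sum_erase univ a (mem_univ h)
        rw [CntT_upd]
        have h4 : 1 ≤ a h := Nat.one_le_iff_ne_zero.2 ha3
        omega
    · intro a ha b hb hab
      rw [mem_coe, mem_filter] at ha hb
      funext i
      have h1 := congrFun hab i
      by_cases hi : i = h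
      · subst hi
        simp only [update_self] at h1
        have h4 : 1 ≤ a i := Nat.one_le_iff_ne_zero.2 ha.2
        have h5 : 1 ≤ b i := Nat.one_le_iff_ne_zero.2 hb.2
        omega
      · simpa only [update_of_ne hi] using h1
  · have h1 : ((Rg (σ + 1) w).filter fun a => ¬ a h ≠ 0) =
        (Rg (σ + 1) w).filter fun a => a h = 0 := by
      refine filter_congr fun a _ => ?_
      rw [not_not]
    rw [h1]
    exact CntT_det hc hq hθ hthin

theorem cnt_thin_dn {h c : ι} (hc : h ≠ c) {σ θ q : ℕ} {w : ι → ℕ} (hq : Fintype.card ι ≤ q)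
    (hθ : 1 ≤ θ) (hthin : ∀ i, i ≠ h → i ≠ c → w i < θ) :
    (Rg σ w).card ≤ (Rg (σ + 1) w).card + θ ^ q := by
  rw [← card_filter_add_card_filter_not (s := Rg σ w) (fun a => a h ≠ w h)]
  refine Nat.add_le_add ?_ ?_
  · refine card_le_card_of_injOn (fun a => update a h (a h + 1)) ?_ ?_
    · intro a ha
      rw [mem_coe, mem_filter, mem_Rg] at ha
      obtain ⟨⟨ha1, ha2⟩, ha3⟩ := ha
      rw [mem_coe, mem_Rg]
      beta_reduce
      refine ⟨fun i => ?_, ?_⟩
      · by_cases hi : i = h
        · subst hi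
          rw [update_self]
          have h4 := ha1 i
          omega
        · rw [update_of_ne hi]
          exact ha1 i
      · have h2 := add_sum_erase univ a (mem_univ h)
        rw [CntT_upd]
        omega
    · intro a ha b hb hab
      funext i
      have h1 := congrFun hab i
      by_cases hi : i = h
      · subst hi
        simp only [update_self] at h1
        omega
      · simpa only [update_of_ne hi] using h1
  · have h1 : ((Rg σ w).filter fun a => ¬ a h ≠ w h) =
        (Rg σ w).filter fun a => a h = w h := by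
      refine filter_congr fun a _ => ?_
      rw [not_not]
    rw [h1]
    exact CntT_det hc hq hθ hthin

end Pool.Agent.H18.Tk

end

section

/-!
# Project TK (MP_1dafdd_ag): definitions

The states of a Horace system are numbered from below along one path: the step from the state `k + 1` to
the state `k` is along the hyperplane `dir (k + 1)`.  Everything else is as in project TJ
(`Pool/Agent/H18/Tj`), whose `Lens`, `trT`, `flT`, `cE`, `Lx`, `NE` are used.

`wS δ dir w₀ j`: the widths of the state `j` of the concrete system: `w₀` plus, for every coordinate, the number of the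
steps along it below the state `j`; its degree is `σ₀ + j`.
`hS l j`: the size of the trace of the state `j` on `x_{δ l} = 0`.  `pS l j = hS l i` for the largest `i ≤ j` with
`dir i = l` (`0` if there is none): the size of the trace at the next step along `l`.
-/

namespace Pool.Agent.H18.Tk

open Finset Function Pool.Agent.H18.Ex Pool.Agent.H18.Tj

section

variable {Λ : Type} [Fintype Λ]

/-- Length of the free points. -/
def nszP {M : ℕ} (L : Lens M) (c : Cfg Λ) : ℕ := (c.N.map L.hi).sum + c.s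

/-- Total length. -/
def szP {M : ℕ} (L : Lens M) (c : Cfg Λ) : ℕ := nszP L c + ∑ l, flT L (c.Φ l)

end

/-- An abstract Horace system along a path. -/
structure SysP (Λ : Type) [DecidableEq Λ] : Type where
  /-- the configuration kills the space of the state `k` -/
  K : ℕ → Cfg Λ → Prop
  /-- the direction of the step from the state `k` to the state `k - 1` -/
  dir : ℕ → Λ
  /-- the size of the trace in this direction -/
  F : ℕ → ℕ
  /-- the size -/
  R : ℕ → ℕ
  /-- the points with multiplicities `S` kill the trace -/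
  tr : ℕ → Multiset ℕ → Prop
  mono : ∀ (k : ℕ) (c c' : Cfg Λ), c.N ≤ c'.N → c.s ≤ c'.s → (∀ l, c.Φ l ≤ c'.Φ l) →
    K k c → K k c'
  one : ∀ (k : ℕ) (N : Multiset ℕ) (s : ℕ) (Φ : Λ → Multiset (ℕ × ℕ)), K k ⟨N, s + 1, Φ⟩ →
    K k ⟨1 ::ₘ N, s, Φ⟩
  count : ∀ k, R (k + 1) = R k + F (k + 1)
  step : ∀ (k : ℕ) (N I : Multiset ℕ) (μ t s u : ℕ) (Φ : Λ → Multiset (ℕ × ℕ)), 1 ≤ μ →
    (∀ x ∈ Φ (dir (k + 1)), x.2 ≤ x.1) →
    tr (k + 1) ((Φ (dir (k + 1))).map Prod.fst + I + Multiset.replicate (t + u) 1) →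
    K k ⟨N, s, update Φ (dir (k + 1)) (shf (Φ (dir (k + 1))) + I.map (fun m => (m - 1, 1)) +
      Multiset.replicate t (μ, 2))⟩ →
    K (k + 1) ⟨N + I + Multiset.replicate t μ, s + u, Φ⟩
  bridge : ∀ (k : ℕ) (N : Multiset ℕ) (s s₀ : ℕ) (Φ : Λ → Multiset (ℕ × ℕ)),
    K (k + 1) ⟨N, s + s₀, Φ⟩ →
    K k ⟨N, s, update Φ (dir (k + 1)) (shf (Φ (dir (k + 1))))⟩ →
    K (k + 1) ⟨N, s, update Φ (dir (k + 1)) (Φ (dir (k + 1)) + Multiset.replicate s₀ (1, 1))⟩
  full : ∀ (k : ℕ) (N : Multiset ℕ) (s : ℕ) (Φ : Λ → Multiset (ℕ × ℕ)), (∀ m ∈ N, 1 ≤ m) →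
    R k ≤ N.card + s → K k ⟨N, s, Φ⟩

/-- The number of the steps along `l` below the state `j`. -/
def ct {Λ : Type} [DecidableEq Λ] (dir : ℕ → Λ) (l : Λ) (j : ℕ) : ℕ :=
  ((range j).filter fun i => dir (i + 1) = l).card

section

variable {Λ : Type} [Fintype Λ] [DecidableEq Λ]

/-- The trace of the state `k` is killed by points of multiplicity at most `M` and at least `w` simple
points as soon as the lengths suffice. -/
def GxP {M : ℕ} (L : Lens M) (Y : SysP Λ) (w k : ℕ) : Prop :=
  ∀ S : Multiset ℕ, (∀ m ∈ S, m ≤ M) → ∀ x : ℕ, w ≤ x → Y.F k ≤ (S.map L.lo).sum + x →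
    Y.tr k (S + Multiset.replicate x 1)

/-- The numerical properties of the states `0, …, kt`; `P l k` bounds the trace at the next step along
`l`. -/
structure NumP {M : ℕ} (L : Lens M) (Y : SysP Λ) (E kt : ℕ) (P : Λ → ℕ → ℕ) : Prop where
  hM : 1 ≤ M
  hΛ : Fintype.card Λ ≤ 2
  hE : 2 * cE L ≤ E
  floor : ∀ l k, k ≤ kt → cE L ≤ P l k
  low : ∀ l k, k ≤ kt → E * P l k ≤ Y.R k
  top : ∀ k, k + 1 ≤ kt → P (Y.dir (k + 1)) (k + 1) = Y.F (k + 1)
  keep : ∀ l k, k + 1 ≤ kt → l ≠ Y.dir (k + 1) → P l (k + 1) ≤ P l k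
  slow : ∀ k, k + 1 ≤ kt → E * Y.F (k + 1) ≤ E * P (Y.dir (k + 1)) k + Y.F (k + 1)
  gd : ∀ k, k + 1 ≤ kt → GxP L Y (Y.F (k + 1) / E + 1) (k + 1)

/-- The forced conditions are bounded. -/
def InvP {M : ℕ} (L : Lens M) (P : Λ → ℕ → ℕ) (k : ℕ) (c : Cfg Λ) : Prop :=
  ∀ l, 2 * M * trT L (c.Φ l) ≤ (2 * M - 1) * P l k

end

/-! ### The concrete system -/

section

variable {Λ : Type} [DecidableEq Λ] {ι : Type} [DecidableEq ι]

/-- The widths of the state `j`. -/
def wS (δ : Λ → ι) (dir : ℕ → Λ) (w₀ : ι → ℕ) (j : ℕ) : ι → ℕ :=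
  fun i => w₀ i + ((range j).filter fun t => δ (dir (t + 1)) = i).card

variable [Fintype ι]

/-- The size of the trace of the state `j` on `x_{δ l} = 0`. -/
def hS (δ : Λ → ι) (dir : ℕ → Λ) (σ₀ : ℕ) (w₀ : ι → ℕ) (l : Λ) (j : ℕ) : ℕ :=
  (Rg (σ₀ + j) (update (wS δ dir w₀ j) (δ l) 0)).card

/-- The size of the trace at the next step along `l`. -/
def pS (δ : Λ → ι) (dir : ℕ → Λ) (σ₀ : ℕ) (w₀ : ι → ℕ) (l : Λ) : ℕ → ℕ
  | 0 => hS δ dir σ₀ w₀ l 0
  | j + 1 => if dir (j + 1) = l then hS δ dir σ₀ w₀ l (j + 1) else pS δ dir σ₀ w₀ l j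

/-- The conditions of a configuration. -/
def kindsS [Fintype Λ] (δ : Λ → ι) (c : Cfg Λ) : Multiset (Kind ι) :=
  c.N.map Kind.free + Multiset.replicate c.s (Kind.free 1) +
    ∑ l, (c.Φ l).map fun x => Kind.forced (δ l) x.1 x.2

/-- Near-exactness of all regions with the widths `w`. -/
def NEr (M E D : ℕ) (w : ι → ℕ) : Prop :=
  ∀ σ, D ≤ σ → σ + D ≤ ∑ i, w i → ∀ x₀, (Rg σ w).card ≤ E * x₀ → NE M x₀ σ w

end

end Pool.Agent.H18.Tk

end

section

/-!
# Module Asm0 (TL): the case `b = 0`

`Box b` has one element `zb b`, `Lm b m = m`, `act (tz b z) F = F`.  Points with the multiplicities `S` and distinct `x_i`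
(`S.toList`, `x_i = i`).  `F ∈ Sol b e L`: `F (zb b)` has degree `≤ e` and is divisible by `(X - x_i)^(m_i)` for all `i`, so by the product
(pairwise coprime), of degree `∑ m_i ≥ e + 1`; so it is `0`.
-/

namespace Pool.Agent.H18.Tl

open Finset Polynomial

variable {τ : Type} [Fintype τ] [DecidableEq τ]

omit [DecidableEq τ] in
private lemma Asm0_bz {b : τ → ℕ} (hB : Bs b = 0) (l : τ) : b l = 0 := by
  have h := Finset.sum_eq_zero_iff.1 (show ∑ l, b l = 0 from hB)
  exact h l (Finset.mem_univ l)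

omit [DecidableEq τ] in
private lemma Asm0_val {b : τ → ℕ} (hB : Bs b = 0) (γ : Box b) (l : τ) : (γ l : ℕ) = 0 := by
  have h := (γ l).isLt
  have h2 := Asm0_bz hB l
  omega

omit [DecidableEq τ] in
private lemma Asm0_eq {b : τ → ℕ} (hB : Bs b = 0) (γ : Box b) : γ = zb b := by
  funext l
  apply Fin.ext
  rw [Asm0_val hB γ l]
  rfl

omit [DecidableEq τ] in
private lemma Asm0_dg {b : τ → ℕ} (hB : Bs b = 0) (γ : Box b) : dg γ = 0 := by
  unfold dg
  exact Finset.sum_eq_zero fun l _ => Asm0_val hB γ l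

private lemma Asm0_univ {b : τ → ℕ} (hB : Bs b = 0) : (Finset.univ : Finset (Box b)) = {zb b} := by
  ext γ
  simp only [Finset.mem_univ, Finset.mem_singleton, true_iff]
  exact Asm0_eq hB γ

private lemma Asm0_Lm {b : τ → ℕ} (hB : Bs b = 0) (μ : ℕ) : Lm b μ = μ := by
  unfold Lm
  rw [Asm0_univ hB, Finset.sum_singleton, Asm0_dg hB, Nat.sub_zero]

omit [DecidableEq τ] in
private lemma Asm0_tz {b : τ → ℕ} (hB : Bs b = 0) (z : τ → ℂ) (γ β : Box b) : tz b z γ β = 1 := by
  unfold tz
  apply Finset.prod_eq_one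
  intro l _
  rw [Asm0_val hB γ l, Asm0_val hB β l]
  simp

private lemma Asm0_act {b : τ → ℕ} (hB : Bs b = 0) (z : τ → ℂ) (F : V b) (γ : Box b) :
    act (tz b z) F γ = F γ := by
  rw [act_apply, Asm0_univ hB, Finset.sum_singleton, Asm0_tz hB, Asm0_eq hB γ]
  simp

theorem asm0 (b : τ → ℕ) (hB : Bs b = 0) (e : ℕ) (S : Multiset ℕ)
    (h : Lm b (e + 1) ≤ (S.map (Lm b)).sum) :
    ∃ L : List (Pt τ), (↑(L.map Pt.m) : Multiset ℕ) = S ∧ ∀ F ∈ Sol b e L, F = 0 := by
  have hmap : S.map (Lm b) = S := by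
    conv_rhs => rw [← Multiset.map_id S]
    apply Multiset.map_congr rfl
    intro m _
    exact Asm0_Lm hB m
  rw [hmap, Asm0_Lm hB] at h
  set l : List ℕ := S.toList with hl
  have hlS : (↑l : Multiset ℕ) = S := Multiset.coe_toList S
  refine ⟨List.ofFn (fun i : Fin l.length => (⟨l.get i, ((i : ℕ) : ℂ), 0⟩ : Pt τ)), ?_, ?_⟩
  · rw [List.map_ofFn]
    have h1 : (Pt.m ∘ fun i : Fin l.length => (⟨l.get i, ((i : ℕ) : ℂ), 0⟩ : Pt τ)) = l.get := rfl
    rw [h1, List.ofFn_get, hlS]
  · intro F hF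
    rw [mem_Sol] at hF
    obtain ⟨hF1, hF2⟩ := hF
    funext γ
    have hdeg : ∀ j, e < j → (F γ).coeff j = 0 := by
      intro j hj
      apply mem_Ve.1 hF1 γ j
      omega
    have hdvd : ∀ i : Fin l.length, (X - C (((i : ℕ) : ℂ))) ^ (l.get i) ∣ F γ := by
      intro i
      have h1 := mem_vanL.1 hF2 ⟨l.get i, ((i : ℕ) : ℂ), 0⟩ (by
        rw [List.mem_ofFn]
        exact ⟨i, rfl⟩)
      have h2 := mem_van.1 h1 γ
      rw [Asm0_act hB, Asm0_dg hB, Nat.sub_zero] at h2
      exact h2
    have hprod : (∏ i : Fin l.length, (X - C (((i : ℕ) : ℂ))) ^ (l.get i)) ∣ F γ := by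
      apply Finset.prod_dvd_of_coprime
      · intro i _ j _ hij
        apply IsCoprime.pow
        apply Polynomial.isCoprime_X_sub_C_of_isUnit_sub
        rw [isUnit_iff_ne_zero, sub_ne_zero]
        intro hc
        apply hij
        apply Fin.ext
        exact_mod_cast hc
      · intro i _
        exact hdvd i
    have hnd : (∏ i : Fin l.length, (X - C (((i : ℕ) : ℂ))) ^ (l.get i)).natDegree = S.sum := by
      rw [Polynomial.natDegree_prod_of_monic _ _ (fun i _ => (monic_X_sub_C _).pow _)]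
      have h1 : ∀ i : Fin l.length,
          ((X - C (((i : ℕ) : ℂ))) ^ (l.get i) : ℂ[X]).natDegree = l.get i := by
        intro i
        rw [Polynomial.natDegree_pow, natDegree_X_sub_C, mul_one]
      rw [Finset.sum_congr rfl (fun i _ => h1 i), ← List.sum_ofFn, List.ofFn_get, ← hlS,
        Multiset.sum_coe]
    show F γ = 0
    by_contra hne
    have h1 := Polynomial.natDegree_le_of_dvd hprod hne
    have h2 : (F γ).natDegree ≤ e := by
      rw [Polynomial.natDegree_le_iff_coeff_eq_zero]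
      intro j hj
      exact hdeg j hj
    omega

end Pool.Agent.H18.Tl

end

section

/-!
# Module Lin (TL): families depending polynomially on one parameter

`mem_of_poly`.  Let `k₀ < n`, `c k₀ ∉ D`.  There is a linear functional `ψ` with `ψ = 0` on `D`, `ψ (c k₀) ≠ 0`
(e.g. `Submodule.exists_dual_map_eq_bot_of_notMem` or `Submodule.exists_le_ker_of_notMem`).  The polynomial
`∑_{k<n} ψ (c k) X^k` vanishes at all `δ ∉ T`, infinitely many, so it is `0` (`Polynomial.eq_zero_of_infinite_isRoot`),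
a contradiction.

`inj_of_inj`.  Choose a left inverse `g` of `M 0` (`LinearMap.exists_leftInverse_of_injective`).  In a basis of `E` the
endomorphisms `g ∘ M k` are matrices `A k`, `A 0 = 1`; the polynomial `det (∑ X^k A k)` has the value `1` at `0`, so it has
only finitely many roots; outside of them `g ∘ ∑ δ^k M k` is injective.

`ker_le`.  Choose a complement `E'` of `ker (M 0)` (`Submodule.exists_isCompl`); `M 0` is injective on `E'`; by `inj_of_inj`
(for the restrictions to `E'`) for almost all `δ` the kernel of `M(δ)` meets `E'` in `0`, so its dimension is at most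
`dim E - dim E' = dim ker (M 0)`.

`ker_lt`.  Let `E'' = ℂ v ⊕ E'` (`v ∈ ker (M 0)`).  The family `N(δ) : ℂ × E' → Q`, `N(δ)(c, w) = c ∑_{1 ≤ k < n} δ^(k-1) M k v +
∑_{k<n} δ^k M k w`, is injective at `δ = 0`: if `c M 1 v + M 0 w = 0` then `c = 0` by `h1` (divide by `c`), so `w = 0`.  So for
almost all `δ ≠ 0` the map `M(δ)` is injective on `E''`, of dimension `dim E - dim ker (M 0) + 1`.
-/

namespace Pool.Agent.H18.Tl

open Finset

theorem mem_of_poly {N : Type*} [AddCommGroup N] [Module ℂ N] (D : Submodule ℂ N) (n : ℕ)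
    (c : ℕ → N) (T : Set ℂ) (hT : T.Finite) (h : ∀ δ : ℂ, δ ∉ T → ∑ k ∈ range n, δ ^ k • c k ∈ D) :
    ∀ k < n, c k ∈ D := by
  intro k₀ hk₀
  by_contra hc
  obtain ⟨ψ, hψ, hD⟩ := Submodule.exists_le_ker_of_notMem hc
  have hP : (∑ k ∈ range n, Polynomial.C (ψ (c k)) * Polynomial.X ^ k : Polynomial ℂ) = 0 := by
    apply Polynomial.eq_zero_of_infinite_isRoot
    refine Set.Infinite.mono ?_ hT.infinite_compl
    intro δ hδ
    have h1 := hD (h δ hδ)
    rw [LinearMap.mem_ker, map_sum] at h1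
    change Polynomial.eval δ _ = 0
    rw [Polynomial.eval_finsetSum, ← h1]
    refine Finset.sum_congr rfl fun k _ => ?_
    rw [Polynomial.eval_mul, Polynomial.eval_C, Polynomial.eval_pow, Polynomial.eval_X, map_smul,
      smul_eq_mul, mul_comm]
  have h2 : (∑ k ∈ range n, Polynomial.C (ψ (c k)) * Polynomial.X ^ k : Polynomial ℂ).coeff k₀ =
      ψ (c k₀) := by
    rw [Polynomial.finsetSum_coeff]
    simp only [Polynomial.coeff_C_mul, Polynomial.coeff_X_pow, mul_ite, mul_one, mul_zero]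
    rw [Finset.sum_ite_eq, if_pos (Finset.mem_range.2 hk₀)]
  rw [hP, Polynomial.coeff_zero] at h2
  exact hψ h2.symm

theorem inj_of_inj {E Q : Type*} [AddCommGroup E] [Module ℂ E] [FiniteDimensional ℂ E]
    [AddCommGroup Q] [Module ℂ Q] (M : ℕ → E →ₗ[ℂ] Q) (n : ℕ) (hn : 1 ≤ n)
    (hM : ∀ v, M 0 v = 0 → v = 0) :
    ∃ T : Set ℂ, T.Finite ∧ ∀ δ : ℂ, δ ∉ T → ∀ v : E, ∑ k ∈ range n, δ ^ k • M k v = 0 → v = 0 := by
  classical
  obtain ⟨g, hg⟩ := LinearMap.exists_leftInverse_of_injective (M 0)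
    (LinearMap.ker_eq_bot'.2 hM)
  let b := Module.finBasis ℂ E
  let A : ℕ → Matrix (Fin (Module.finrank ℂ E)) (Fin (Module.finrank ℂ E)) ℂ :=
    fun k => LinearMap.toMatrix b b (g ∘ₗ M k)
  let B : Matrix (Fin (Module.finrank ℂ E)) (Fin (Module.finrank ℂ E)) (Polynomial ℂ) :=
    ∑ k ∈ range n, (Polynomial.X ^ k : Polynomial ℂ) • (A k).map Polynomial.C
  have hB : ∀ δ : ℂ, B.det.eval δ = LinearMap.det (∑ k ∈ range n, δ ^ k • (g ∘ₗ M k)) := by
    intro δ
    rw [← LinearMap.det_toMatrix b, map_sum]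
    have h1 : B.det.eval δ = (Polynomial.evalRingHom δ) B.det := rfl
    rw [h1, RingHom.map_det]
    congr 1
    ext i j
    simp only [B, RingHom.mapMatrix_apply, Matrix.map_apply, Matrix.sum_apply, Matrix.smul_apply,
      smul_eq_mul, map_sum, Polynomial.coe_evalRingHom, map_smul]
    refine Finset.sum_congr rfl fun k _ => ?_
    rw [Polynomial.eval_mul, Polynomial.eval_pow, Polynomial.eval_X, Polynomial.eval_C]
  have h0 : B.det.eval 0 = 1 := by
    rw [hB 0]
    have h1 : ∑ k ∈ range n, (0 : ℂ) ^ k • (g ∘ₗ M k) = LinearMap.id := by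
      rw [Finset.sum_eq_single_of_mem 0 (Finset.mem_range.2 hn)]
      · rw [pow_zero, one_smul, hg]
      · intro k _ hk
        rw [zero_pow hk, zero_smul]
    rw [h1, LinearMap.det_id]
  have hne : B.det ≠ 0 := by
    intro hz
    rw [hz, Polynomial.eval_zero] at h0
    exact zero_ne_one h0
  refine ⟨{δ | B.det.IsRoot δ}, Polynomial.finite_setOfPred_isRoot hne, ?_⟩
  intro δ hδ v hv
  have hd : LinearMap.det (∑ k ∈ range n, δ ^ k • (g ∘ₗ M k)) ≠ 0 := by
    rw [← hB δ]
    exact hδ
  have hk : (∑ k ∈ range n, δ ^ k • (g ∘ₗ M k)) v = 0 := by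
    have h2 := congrArg g hv
    rw [map_zero, map_sum] at h2
    rw [LinearMap.sum_apply, ← h2]
    refine Finset.sum_congr rfl fun k _ => ?_
    rw [LinearMap.smul_apply, LinearMap.comp_apply, map_smul]
  have hki := (LinearMap.equivOfDetNeZero (∑ k ∈ range n, δ ^ k • (g ∘ₗ M k)) hd).injective
  apply hki
  rw [map_zero]
  exact hk

theorem ker_le {E Q : Type*} [AddCommGroup E] [Module ℂ E] [FiniteDimensional ℂ E]
    [AddCommGroup Q] [Module ℂ Q] (M : ℕ → E →ₗ[ℂ] Q) (n : ℕ) (hn : 1 ≤ n) :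
    ∃ T : Set ℂ, T.Finite ∧ ∀ δ : ℂ, δ ∉ T →
      Module.finrank ℂ (LinearMap.ker (∑ k ∈ range n, δ ^ k • M k)) ≤
        Module.finrank ℂ (LinearMap.ker (M 0)) := by
  obtain ⟨E', hE'⟩ := Submodule.exists_isCompl (LinearMap.ker (M 0))
  obtain ⟨T, hT, h⟩ := inj_of_inj (fun k => (M k).domRestrict E') n hn (by
    intro w hw
    have h1 : (w : E) ∈ LinearMap.ker (M 0) ⊓ E' := ⟨hw, w.2⟩
    rw [hE'.inf_eq_bot] at h1
    exact Subtype.ext ((Submodule.mem_bot ℂ).1 h1))
  refine ⟨T, hT, fun δ hδ => ?_⟩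
  have hd : Disjoint (LinearMap.ker (∑ k ∈ range n, δ ^ k • M k)) E' := by
    rw [Submodule.disjoint_def]
    intro x hx hx'
    have h2 := h δ hδ ⟨x, hx'⟩ (by
      rw [LinearMap.mem_ker, LinearMap.sum_apply] at hx
      exact hx)
    exact congrArg Subtype.val h2
  have h3 := Submodule.finrank_add_finrank_le_of_disjoint hd
  have h4 := Submodule.finrank_add_eq_of_isCompl hE'
  omega

theorem ker_lt {E Q : Type*} [AddCommGroup E] [Module ℂ E] [FiniteDimensional ℂ E]
    [AddCommGroup Q] [Module ℂ Q] (M : ℕ → E →ₗ[ℂ] Q) (n : ℕ) (hn : 2 ≤ n) (v : E)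
    (hv : M 0 v = 0) (h1 : ∀ w, M 0 w + M 1 v ≠ 0) :
    ∃ T : Set ℂ, T.Finite ∧ ∀ δ : ℂ, δ ∉ T →
      Module.finrank ℂ (LinearMap.ker (∑ k ∈ range n, δ ^ k • M k)) + 1 ≤
        Module.finrank ℂ (LinearMap.ker (M 0)) := by
  obtain ⟨E', hE'⟩ := Submodule.exists_isCompl (LinearMap.ker (M 0))
  let u : ℕ → Q := fun k => if k + 1 < n then M (k + 1) v else 0
  let N : ℕ → (ℂ × E') →ₗ[ℂ] Q := fun k =>
    (LinearMap.fst ℂ ℂ E').smulRight (u k) + (M k).domRestrict E' ∘ₗ LinearMap.snd ℂ ℂ E'
  have hN : ∀ k c w, N k (c, w) = c • u k + M k (w : E) := fun k c w => rfl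
  obtain ⟨T, hT, h⟩ := inj_of_inj N n (by omega) (by
    rintro ⟨c, w⟩ hw
    rw [hN] at hw
    have hu : u 0 = M 1 v := if_pos (by omega)
    rw [hu] at hw
    have hc : c = 0 := by
      by_contra hc
      apply h1 (c⁻¹ • (w : E))
      rw [map_smul]
      have h2 := congrArg (fun x => c⁻¹ • x) hw
      simp only [smul_add, smul_zero, inv_smul_smul₀ hc] at h2
      rw [add_comm]
      exact h2
    subst hc
    rw [zero_smul, zero_add] at hw
    have h3 : (w : E) ∈ LinearMap.ker (M 0) ⊓ E' := ⟨hw, w.2⟩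
    rw [hE'.inf_eq_bot] at h3
    have h4 : w = 0 := Subtype.ext ((Submodule.mem_bot ℂ).1 h3)
    rw [h4]
    rfl)
  refine ⟨insert 0 T, hT.insert 0, fun δ hδ => ?_⟩
  have hδ0 : δ ≠ 0 := fun h0 => hδ (Set.mem_insert_iff.2 (Or.inl h0))
  have hδT : δ ∉ T := fun h0 => hδ (Set.mem_insert_of_mem 0 h0)
  let J : (ℂ × E') →ₗ[ℂ] E :=
    (LinearMap.fst ℂ ℂ E').smulRight (δ⁻¹ • v) + E'.subtype ∘ₗ LinearMap.snd ℂ ℂ E'
  have hJ : ∀ c w, J (c, w) = c • δ⁻¹ • v + (w : E) := fun c w => rfl
  have hMJ : ∀ x, (∑ k ∈ range n, δ ^ k • M k) (J x) = ∑ k ∈ range n, δ ^ k • N k x := by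
    rintro ⟨c, w⟩
    rw [hJ, LinearMap.sum_apply]
    simp only [LinearMap.smul_apply, map_add, map_smul, smul_add, hN, Finset.sum_add_distrib]
    congr 1
    obtain ⟨m, rfl⟩ : ∃ m, n = m + 1 := ⟨n - 1, by omega⟩
    rw [Finset.sum_range_succ', Finset.sum_range_succ, hv]
    have hum : u m = 0 := if_neg (by omega)
    rw [hum, smul_zero, smul_zero, smul_zero, smul_zero, add_zero, add_zero]
    refine Finset.sum_congr rfl fun k hk => ?_
    have huk : u k = M (k + 1) v := if_pos (by have := Finset.mem_range.1 hk; omega)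
    rw [huk, smul_smul, smul_smul, smul_smul]
    congr 1
    rw [pow_succ]
    field_simp
  have hinj : ∀ x, (∑ k ∈ range n, δ ^ k • M k) (J x) = 0 → x = 0 := fun x hx =>
    h δ hδT x (by rw [← hMJ]; exact hx)
  have hJi : Function.Injective J := by
    rw [← LinearMap.ker_eq_bot, LinearMap.ker_eq_bot']
    intro x hx
    exact hinj x (by rw [hx, map_zero])
  have hd : Disjoint (LinearMap.ker (∑ k ∈ range n, δ ^ k • M k)) (LinearMap.range J) := by
    rw [Submodule.disjoint_def]
    rintro _ hx ⟨x, rfl⟩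
    rw [hinj x hx, map_zero]
  have h3 := Submodule.finrank_add_finrank_le_of_disjoint hd
  have h4 := Submodule.finrank_add_eq_of_isCompl hE'
  have h5 : Module.finrank ℂ (LinearMap.range J) = 1 + Module.finrank ℂ E' := by
    rw [LinearMap.finrank_range_of_inj hJi, Module.finrank_prod, Module.finrank_self]
  omega

end Pool.Agent.H18.Tl

end

section

/-!
# Module LinD (TL): first order solutions of a family of linear systems

Proof.  Let `g'` be a left inverse of `M 0` (`LinearMap.exists_leftInverse_of_injective`), `A k = g' ∘ M k : E → E`, so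
`A 0 = 1`, and `A(δ) = ∑_{k<n} δ^k A k`.  With a basis of `E` let `𝔸` be the matrix over `ℂ[X]` of `∑ X^k A k`, `Δ = det 𝔸`,
`Δ(0) = 1`, `adj 𝔸` the adjugate, so `adj 𝔸 * 𝔸 = Δ`, `adj 𝔸 (0) = 1`.  For `δ ∉ T` let `v` be as in `h`: then
`Δ(δ) v = adj 𝔸(δ) A(δ) v = adj 𝔸(δ) g' (g(δ))`.  So the polynomial family `p(δ) = ℓ (adj 𝔸(δ) g' (g(δ))) + Δ(δ) c` has values in
`D` for `δ ∉ T`; by `mem_of_poly` its coefficients `p_0`, `p_1` are in `D`.  Let `u(δ) = adj 𝔸(δ) g' (g(δ)) = u_0 + δ u_1 + …`.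
From `𝔸 u = Δ g' g`: `u_0 = g' g_0 = v₀` and `u_1 + A_1 u_0 = g' g_1 + Δ_1 g' g_0`, and `v₁ + A_1 v₀ = g' g_1`, so
`u_1 = v₁ + Δ_1 v₀`.  So `p_0 = ℓ v₀ + c` and `p_1 = ℓ v₁ + Δ_1 (ℓ v₀ + c)`.

(Alternative without matrices: it is enough to show `ψ (ℓ v₀ + c) = 0` and `ψ (ℓ v₁) = 0` for all functionals `ψ` that
vanish on `D`; Cramer's rule is only used to have a polynomial `u(δ)` and a polynomial `Δ(δ)`, `Δ(0) ≠ 0`, with
`M(δ) (u(δ)) = Δ(δ) g(δ)`.)
-/

namespace Pool.Agent.H18.Tl

open Finset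

/-- A polynomial family `∑ i, u i (δ) • a i + Δ(δ) • c` with values in `D` off a finite set has coefficients in `D`. -/
private theorem LinD_coeff_mem {N : Type*} [AddCommGroup N] [Module ℂ N] (D : Submodule ℂ N)
    {ι : Type*} [Fintype ι] (u : ι → Polynomial ℂ) (a : ι → N) (Δ : Polynomial ℂ) (c : N)
    (T : Set ℂ) (hT : T.Finite)
    (h : ∀ δ : ℂ, δ ∉ T → ∑ i, (u i).eval δ • a i + Δ.eval δ • c ∈ D) (k : ℕ) :
    ∑ i, (u i).coeff k • a i + Δ.coeff k • c ∈ D := by
  classical
  set B : ℕ := (∑ i, (u i).natDegree) + Δ.natDegree + k + 1 with hB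
  have hu : ∀ i, (u i).natDegree < B := by
    intro i
    have h0 : (u i).natDegree ≤ ∑ i, (u i).natDegree :=
      Finset.single_le_sum (f := fun i => (u i).natDegree) (fun j _ => Nat.zero_le _)
        (Finset.mem_univ i)
    omega
  have hΔ : Δ.natDegree < B := by omega
  refine mem_of_poly D B (fun k => ∑ i, (u i).coeff k • a i + Δ.coeff k • c) T hT ?_ k (by omega)
  intro δ hδ
  have h1 := h δ hδ
  have h2 : ∑ k ∈ range B, δ ^ k • (∑ i, (u i).coeff k • a i + Δ.coeff k • c) =
      ∑ i, (u i).eval δ • a i + Δ.eval δ • c := by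
    simp_rw [smul_add, Finset.smul_sum, Finset.sum_add_distrib, smul_smul]
    rw [Finset.sum_comm]
    refine congrArg₂ _ ?_ ?_
    · refine Finset.sum_congr rfl fun i _ => ?_
      rw [← Finset.sum_smul, Polynomial.eval_eq_sum_range' (hu i)]
      simp_rw [mul_comm]
    · rw [← Finset.sum_smul, Polynomial.eval_eq_sum_range' hΔ]
      simp_rw [mul_comm]
  rw [h2]
  exact h1

theorem diff_lemma {E Q N : Type*} [AddCommGroup E] [Module ℂ E] [FiniteDimensional ℂ E]
    [AddCommGroup Q] [Module ℂ Q] [AddCommGroup N] [Module ℂ N] (M : ℕ → E →ₗ[ℂ] Q) (g : ℕ → Q)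
    (n : ℕ) (hn : 2 ≤ n) (hM : ∀ v, M 0 v = 0 → v = 0) (ℓ : E →ₗ[ℂ] N) (c : N)
    (D : Submodule ℂ N) (T : Set ℂ) (hT : T.Finite)
    (h : ∀ δ : ℂ, δ ∉ T → ∃ v : E,
      ∑ k ∈ range n, δ ^ k • M k v = ∑ k ∈ range n, δ ^ k • g k ∧ ℓ v + c ∈ D)
    (v₀ v₁ : E) (h₀ : M 0 v₀ = g 0) (h₁ : M 0 v₁ + M 1 v₀ = g 1) :
    ℓ v₀ + c ∈ D ∧ ℓ v₁ ∈ D := by
  classical
  obtain ⟨g', hg'⟩ := LinearMap.exists_leftInverse_of_injective (M 0)
    (LinearMap.ker_eq_bot'.2 hM)
  have hg0 : ∀ v, g' (M 0 v) = v := fun v => by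
    have := LinearMap.congr_fun hg' v
    simpa using this
  let b := Module.finBasis ℂ E
  let A : ℕ → Matrix (Fin (Module.finrank ℂ E)) (Fin (Module.finrank ℂ E)) ℂ :=
    fun k => LinearMap.toMatrix b b (g' ∘ₗ M k)
  let P : Matrix (Fin (Module.finrank ℂ E)) (Fin (Module.finrank ℂ E)) (Polynomial ℂ) :=
    Matrix.of fun i j => ∑ k ∈ range n, Polynomial.monomial k (A k i j)
  let G : Fin (Module.finrank ℂ E) → Polynomial ℂ :=
    fun i => ∑ k ∈ range n, Polynomial.monomial k (b.repr (g' (g k)) i)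
  let u : Fin (Module.finrank ℂ E) → Polynomial ℂ := P.adjugate.mulVec G
  have hPu : P.mulVec u = P.det • G := by
    simp only [u, Matrix.mulVec_mulVec, Matrix.mul_adjugate, Matrix.smul_mulVec, Matrix.one_mulVec]
  -- coefficients
  have hPc : ∀ i j k, k < n → (P i j).coeff k = A k i j := by
    intro i j k hk
    simp only [P, Matrix.of_apply, Polynomial.finsetSum_coeff, Polynomial.coeff_monomial]
    rw [Finset.sum_ite_eq' (range n) k (fun k => A k i j), if_pos (mem_range.2 hk)]
  have hGc : ∀ i k, k < n → (G i).coeff k = b.repr (g' (g k)) i := by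
    intro i k hk
    simp only [G, Polynomial.finsetSum_coeff, Polynomial.coeff_monomial]
    rw [Finset.sum_ite_eq' (range n) k (fun k => b.repr (g' (g k)) i), if_pos (mem_range.2 hk)]
  have hA0 : A 0 = 1 := by
    simp only [A, hg', LinearMap.toMatrix_id]
  have hAv : ∀ k v i, ∑ j, A k i j * b.repr v j = b.repr (g' (M k v)) i := by
    intro k v i
    have := congrFun (LinearMap.toMatrix_mulVec_repr b b (g' ∘ₗ M k) v) i
    simpa [Matrix.mulVec, dotProduct] using this
  have hΔ0 : P.det.coeff 0 = 1 := by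
    rw [Polynomial.coeff_zero_eq_eval_zero, ← Polynomial.coe_evalRingHom, RingHom.map_det]
    have : (Polynomial.evalRingHom (0 : ℂ)).mapMatrix P = 1 := by
      ext i j
      rw [RingHom.mapMatrix_apply, Matrix.map_apply, Polynomial.coe_evalRingHom,
        ← Polynomial.coeff_zero_eq_eval_zero, hPc i j 0 (by omega), hA0]
    rw [this, Matrix.det_one]
  have hu0 : ∀ i, (u i).coeff 0 = b.repr v₀ i := by
    intro i
    have h2 := congrArg (fun q : Polynomial ℂ => q.coeff 0) (congrFun hPu i)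
    simp only [Matrix.mulVec, dotProduct, Polynomial.finsetSum_coeff, Polynomial.mul_coeff_zero,
      Pi.smul_apply, smul_eq_mul] at h2
    rw [hΔ0, one_mul, hGc i 0 (by omega), ← h₀, hg0] at h2
    rw [← h2]
    simp_rw [hPc i _ 0 (by omega), hA0, Matrix.one_apply]
    simp
  have hu1 : ∀ i, (u i).coeff 1 = b.repr v₁ i + P.det.coeff 1 * b.repr v₀ i := by
    intro i
    have h2 := congrArg (fun q : Polynomial ℂ => q.coeff 1) (congrFun hPu i)
    simp only [Matrix.mulVec, dotProduct, Polynomial.finsetSum_coeff, Polynomial.mul_coeff_one,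
      Pi.smul_apply, smul_eq_mul] at h2
    rw [hΔ0, one_mul, hGc i 0 (by omega), hGc i 1 (by omega), ← h₀, hg0, ← h₁, map_add, hg0,
      map_add, Finsupp.add_apply, Finset.sum_add_distrib] at h2
    have h3 : ∑ j, (P i j).coeff 0 * (u j).coeff 1 = (u i).coeff 1 := by
      simp_rw [hPc i _ 0 (by omega), hA0, Matrix.one_apply]
      simp
    have h4 : ∑ j, (P i j).coeff 1 * (u j).coeff 0 = b.repr (g' (M 1 v₀)) i := by
      simp_rw [hPc i _ 1 (by omega), hu0]
      exact hAv 1 v₀ i
    linear_combination h2 - h3 - h4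
  -- values
  have hval : ∀ δ : ℂ, δ ∉ T →
      ∑ i, (u i).eval δ • ℓ (b i) + P.det.eval δ • c ∈ D := by
    intro δ hδ
    obtain ⟨v, hv1, hv2⟩ := h δ hδ
    have e1 : ∀ i, ∑ j, (P i j).eval δ * b.repr v j = (G i).eval δ := by
      intro i
      have e2 := congrArg (fun w => b.repr (g' w) i) hv1
      simp only [map_sum, map_smul, Finsupp.coe_finsetSum, Finset.sum_apply, Finsupp.coe_smul,
        Pi.smul_apply, smul_eq_mul] at e2
      have e3 : (G i).eval δ = ∑ k ∈ range n, δ ^ k * b.repr (g' (g k)) i := by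
        simp only [G, Polynomial.eval_finsetSum, Polynomial.eval_monomial]
        exact Finset.sum_congr rfl fun k _ => mul_comm _ _
      rw [e3, ← e2]
      simp only [P, Matrix.of_apply, Polynomial.eval_finsetSum, Polynomial.eval_monomial,
        Finset.sum_mul]
      rw [Finset.sum_comm]
      refine Finset.sum_congr rfl fun k _ => ?_
      rw [← hAv k v i, Finset.mul_sum]
      exact Finset.sum_congr rfl fun j _ => by ring
    have e4 : ((Polynomial.evalRingHom δ).mapMatrix P).mulVec (fun j => b.repr v j) =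
        fun i => (G i).eval δ := by
      funext i
      simpa [Matrix.mulVec, dotProduct] using e1 i
    have e5 : ((Polynomial.evalRingHom δ).mapMatrix P).det = P.det.eval δ := by
      rw [← RingHom.map_det, Polynomial.coe_evalRingHom]
    have e6 : ∀ i, (u i).eval δ = P.det.eval δ * b.repr v i := by
      intro i
      have e7 := congrArg (fun w => ((Polynomial.evalRingHom δ).mapMatrix P).adjugate.mulVec w i) e4
      simp only [Matrix.mulVec_mulVec, Matrix.adjugate_mul, Matrix.smul_mulVec, Matrix.one_mulVec,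
        Pi.smul_apply, smul_eq_mul, e5] at e7
      rw [e7]
      simp only [u, Matrix.mulVec, dotProduct, Polynomial.eval_finsetSum, Polynomial.eval_mul]
      refine Finset.sum_congr rfl fun j _ => ?_
      rw [← RingHom.map_adjugate, RingHom.mapMatrix_apply, Matrix.map_apply,
        Polynomial.coe_evalRingHom]
    have e8 : ∑ i, (u i).eval δ • ℓ (b i) = P.det.eval δ • ℓ v := by
      conv_rhs => rw [← b.sum_repr v, map_sum]
      rw [Finset.smul_sum]
      refine Finset.sum_congr rfl fun i _ => ?_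
      rw [e6 i, map_smul, smul_smul]
    rw [e8, ← smul_add]
    exact D.smul_mem _ hv2
  have hk := LinD_coeff_mem D u (fun i => ℓ (b i)) P.det c T hT hval
  have hsum : ∀ v : E, ∑ i, b.repr v i • ℓ (b i) = ℓ v := by
    intro v
    conv_rhs => rw [← b.sum_repr v, map_sum]
    simp_rw [map_smul]
  have k0 : ℓ v₀ + c ∈ D := by
    have := hk 0
    simp_rw [hu0, hΔ0, one_smul] at this
    rwa [hsum] at this
  refine ⟨k0, ?_⟩
  have k1 := hk 1
  simp_rw [hu1, add_smul, Finset.sum_add_distrib, mul_smul] at k1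
  rw [hsum, ← Finset.smul_sum, hsum, add_assoc, ← smul_add] at k1
  exact (Submodule.add_mem_iff_left D (D.smul_mem _ k0)).1 k1

end Pool.Agent.H18.Tl

end
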