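import Pool.Agent.H94.LP4.M02
import Pool.Agent.H94.LP4.M11
import Pool.Agent.H94.LP4.M21
import Pool.Agent.H94.LP4.M49
import Pool.Agent.H94.LP4.M59
import Pool.Agent.H94.LP4.M74
import Pool.Agent.H94.LP4.M75

/-! The parts of this file: H18.Tj.GeoA, H18.Tj.GeoB, H18.Tj.GeoT, H18.Tj.Layer, H18.Tk.SizeK, H18.Tl.Orb. -/

section

/-!
# Module G1a (TJ), `toric_ge`:: the dimension of the fat point systems

`bw r d s b`: width `b l` at the coordinates `l < s`, width `d` at the others.

`upper`: as `Geo_special` in `Pool/Agent/H18/Ta/Geo.lean` and `exists_special` in `Pool/Agent/H18/Ex/Final.lean`: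
`p₀ (J l)` is the coordinate point `Pi.single l 1` (`l < s`), the other `p₀ i` and the `N - L` simple points are the
positions given by `GM_iff`; the forms are supported in `Rg d w` (`vanishes_coord_iff`); `general_finrank_le`.

`toric_ge` (for arbitrary positions): the conditions `Kind.free m` on the functions supported in `Rg d w`, `m ≤ d`
(`m - 1 < d` suffices), follow from the conditions with `|b| = m - 1`, `b ≤ w`, of which there are `Lx w m`:
for `|b| < d` the Euler relation `(d - |b|) D_b = ∑_j (b_j + 1) q_j D_{b + e_j}`, `D_b = ∑_a f a * tcr q a b`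
(`binom (a_j, b_j) (a_j - b_j) = (b_j + 1) binom (a_j, b_j + 1)`, `∑_j (a_j - b_j) = d - |b|`), gives
`D_b = 0` for all `|b| < m` by descending induction on `|b|`; and `D_b = 0` if some `b_j > w_j` (`binom (a_j, b_j) = 0`).
So the space of solutions has dimension at least `card - ∑ Lx w (m i)` (rank-nullity).

`lower`: for general `p` the points `p (J l)` and the coordinate points `e_l`, `s ≤ l ≤ r`, are linearly independent
(the determinant is a nonzero polynomial, see `general_det` in `Pool/Agent/H18/TileFinal.lean`); `finrank_linear`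
(`Pool/Agent/H18/Cub/CremL.lean`; or `finrank_linSubst`) moves `p (J l)` to `e_l`; then `toric_ge` for the images of the
other points, and the polynomials with coefficients in the space of solutions are in `fatForms`
(`finrank_coord_ge` in `TileFinal.lean` shows how to construct the injection; `vanishes_coord_iff`).
-/

namespace Pool.Agent.H18.Tj

open Finset Function Pool.Agent.H18.Ex

/-- one factor of `tcr` -/
private noncomputable def GeoA_fac {ι : Type} (q : ι → ℂ) (a : ι → ℕ) (i : ι) (n : ℕ) : ℂ :=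
  (((a i).choose n : ℕ) : ℂ) * q i ^ (a i - n)

private theorem GeoA_fac_succ {ι : Type} (q : ι → ℂ) (a : ι → ℕ) (i : ι) (n : ℕ) :
    ((a i : ℂ) - n) * GeoA_fac q a i n = (n + 1) * q i * GeoA_fac q a i (n + 1) := by
  unfold GeoA_fac
  rcases Nat.lt_or_ge n (a i) with h | h
  · have h1 : (((a i).choose (n + 1) : ℕ) : ℂ) * (n + 1) = ((a i).choose n : ℕ) * ((a i : ℂ) - n) := by
      have h2 := Nat.choose_succ_right_eq (a i) n
      have h3 : ((((a i).choose (n + 1) * (n + 1) : ℕ)) : ℂ) = (((a i).choose n * (a i - n) : ℕ) : ℂ) := by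
        rw [h2]
      rw [Nat.cast_mul, Nat.cast_mul, Nat.cast_sub h.le] at h3
      push_cast at h3
      exact h3
    have h4 : a i - n = (a i - (n + 1)) + 1 := by omega
    rw [h4, pow_succ]
    linear_combination (-(q i ^ (a i - (n + 1)) * q i)) * h1
  · rw [Nat.choose_eq_zero_of_lt (show a i < n + 1 by omega)]
    rcases Nat.lt_or_ge (a i) n with h5 | h5
    · rw [Nat.choose_eq_zero_of_lt h5]
      simp
    · have h6 : a i = n := le_antisymm h h5
      rw [h6]
      simp

private theorem GeoA_tcr {ι : Type} [Fintype ι] (q : ι → ℂ) (a b : ι → ℕ) :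
    tcr q a b = ∏ i, GeoA_fac q a i (b i) := rfl

private theorem GeoA_euler {ι : Type} [Fintype ι] [DecidableEq ι] (q : ι → ℂ) (a b : ι → ℕ) :
    (∑ j, ((a j : ℂ) - b j)) * tcr q a b =
      ∑ j, ((b j : ℂ) + 1) * q j * tcr q a (Function.update b j (b j + 1)) := by
  rw [Finset.sum_mul]
  refine Finset.sum_congr rfl fun j _ => ?_
  rw [GeoA_tcr, GeoA_tcr, ← Finset.mul_prod_erase Finset.univ _ (Finset.mem_univ j),
    ← Finset.mul_prod_erase Finset.univ (fun i => GeoA_fac q a i (Function.update b j (b j + 1) i))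
      (Finset.mem_univ j)]
  have h1 : ∏ i ∈ Finset.univ.erase j, GeoA_fac q a i (Function.update b j (b j + 1) i) =
      ∏ i ∈ Finset.univ.erase j, GeoA_fac q a i (b i) := by
    refine Finset.prod_congr rfl fun i hi => ?_
    rw [Function.update_of_ne (Finset.ne_of_mem_erase hi)]
  rw [h1, Function.update_self, ← mul_assoc, GeoA_fac_succ, ← mul_assoc]

private theorem GeoA_zero {ι : Type} [Fintype ι] (q : ι → ℂ) (a b : ι → ℕ) (j : ι)
    (h : a j < b j) : tcr q a b = 0 := by
  rw [GeoA_tcr]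
  refine Finset.prod_eq_zero (Finset.mem_univ j) ?_
  unfold GeoA_fac
  rw [Nat.choose_eq_zero_of_lt h]
  simp

private theorem GeoA_sum_update {ι : Type} [Fintype ι] [DecidableEq ι] (b : ι → ℕ) (j : ι) :
    ∑ i, Function.update b j (b j + 1) i = ∑ i, b i + 1 := by
  rw [Finset.sum_update_of_mem (Finset.mem_univ j), Finset.sdiff_singleton_eq_erase,
    ← Finset.add_sum_erase Finset.univ b (Finset.mem_univ j)]
  ring

private theorem GeoA_desc {ι : Type} [Fintype ι] [DecidableEq ι] (d : ℕ) (w : ι → ℕ) (m : ℕ)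
    (hm : m ≤ d) (q : ι → ℂ) (f : {a // a ∈ Rg d w} → ℂ)
    (h : ∀ b : ι → ℕ, b ∈ Rg (m - 1) w → ∑ a : {a // a ∈ Rg d w}, f a * tcr q a.1 b = 0) :
    ∀ n : ℕ, ∀ b : ι → ℕ, ∑ j, b j + 1 + n = m →
      ∑ a : {a // a ∈ Rg d w}, f a * tcr q a.1 b = 0 := by
  intro n
  induction n with
  | zero =>
    intro b hb
    by_cases hw : ∀ i, b i ≤ w i
    · exact h b (mem_Rg.2 ⟨hw, by omega⟩)
    · push Not at hw
      obtain ⟨j, hj⟩ := hw
      refine Finset.sum_eq_zero fun a _ => ?_
      have h1 := (mem_Rg.1 a.2).1 j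
      rw [GeoA_zero q a.1 b j (by omega), mul_zero]
  | succ n ih =>
    intro b hb
    have h1 : ((d : ℂ) - ((∑ j, b j : ℕ) : ℂ)) * ∑ a : {a // a ∈ Rg d w}, f a * tcr q a.1 b = 0 := by
      calc ((d : ℂ) - ((∑ j, b j : ℕ) : ℂ)) * ∑ a : {a // a ∈ Rg d w}, f a * tcr q a.1 b
          = ∑ a : {a // a ∈ Rg d w}, f a * ((∑ j, ((a.1 j : ℂ) - b j)) * tcr q a.1 b) := by
            rw [Finset.mul_sum]
            refine Finset.sum_congr rfl fun a _ => ?_
            have h2 := (mem_Rg.1 a.2).2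
            have h3 : (∑ j, ((a.1 j : ℂ) - b j)) = (d : ℂ) - ((∑ j, b j : ℕ) : ℂ) := by
              have h4 : ((∑ i, a.1 i : ℕ) : ℂ) = (d : ℂ) := by rw [h2]
              rw [Finset.sum_sub_distrib, ← h4]
              push_cast
              rfl
            rw [h3]
            ring
        _ = ∑ a : {a // a ∈ Rg d w}, ∑ j, ((b j : ℂ) + 1) * q j *
              (f a * tcr q a.1 (Function.update b j (b j + 1))) := by
            refine Finset.sum_congr rfl fun a _ => ?_
            rw [GeoA_euler, Finset.mul_sum]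
            refine Finset.sum_congr rfl fun j _ => ?_
            ring
        _ = ∑ j, ((b j : ℂ) + 1) * q j *
              ∑ a : {a // a ∈ Rg d w}, f a * tcr q a.1 (Function.update b j (b j + 1)) := by
            rw [Finset.sum_comm]
            refine Finset.sum_congr rfl fun j _ => ?_
            rw [Finset.mul_sum]
        _ = 0 := by
            refine Finset.sum_eq_zero fun j _ => ?_
            rw [ih (Function.update b j (b j + 1)) (by rw [GeoA_sum_update]; omega), mul_zero]
    have h2 : ((d : ℂ) - ((∑ j, b j : ℕ) : ℂ)) ≠ 0 := by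
      rw [sub_ne_zero]
      intro h3
      have h4 : d = ∑ j, b j := by exact_mod_cast h3
      omega
    exact (mul_eq_zero.1 h1).resolve_left h2

theorem toric_ge {ι : Type} [Fintype ι] [DecidableEq ι] {κ : Type} [Fintype κ] (d : ℕ)
    (w : ι → ℕ) (m : κ → ℕ) (hm : ∀ i, m i ≤ d) (pos : κ → ι → ℂ) :
    ∃ V : Submodule ℂ ({a // a ∈ Rg d w} → ℂ),
      (Rg d w).card ≤ Module.finrank ℂ V + ∑ i, Lx w (m i) ∧
      ∀ f ∈ V, ∀ i (b : ι → ℕ), ∑ j, b j < m i →
        ∑ a : {a // a ∈ Rg d w}, f a * tcr (pos i) a.1 b = 0 := by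
  classical
  set B : κ → Finset (ι → ℕ) := fun i => if m i = 0 then ∅ else Rg (m i - 1) w with hB
  set T : ({a // a ∈ Rg d w} → ℂ) →ₗ[ℂ] ((Σ i : κ, {b // b ∈ B i}) → ℂ) :=
    LinearMap.pi fun x => fnl (Rg d w) (fun a => tcr (pos x.1) a x.2.1) with hT
  have hBc : ∀ i, (B i).card = Lx w (m i) := by
    intro i
    rw [hB]
    unfold Lx
    by_cases h0 : m i = 0
    · simp [h0]
    · simp [h0]
  refine ⟨LinearMap.ker T, ?_, ?_⟩
  · have h1 := LinearMap.finrank_range_add_finrank_ker T
    rw [Module.finrank_fintype_fun_eq_card, Fintype.card_coe] at h1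
    have h2 : Module.finrank ℂ (LinearMap.range T) ≤ ∑ i, Lx w (m i) := by
      calc Module.finrank ℂ (LinearMap.range T)
          ≤ Module.finrank ℂ ((Σ i : κ, {b // b ∈ B i}) → ℂ) := Submodule.finrank_le _
        _ = ∑ i, Lx w (m i) := by
            rw [Module.finrank_fintype_fun_eq_card, Fintype.card_sigma]
            refine Finset.sum_congr rfl fun i _ => ?_
            rw [Fintype.card_coe, hBc]
    omega
  · intro f hf i b hb
    rw [LinearMap.mem_ker] at hf
    have hmi : m i ≠ 0 := by omega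
    have h1 : ∀ b' : ι → ℕ, b' ∈ Rg (m i - 1) w →
        ∑ a : {a // a ∈ Rg d w}, f a * tcr (pos i) a.1 b' = 0 := by
      intro b' hb'
      have hb2 : b' ∈ B i := by
        rw [hB]
        simp only [hmi, if_false]
        exact hb'
      have h2 := congrFun hf ⟨i, ⟨b', hb2⟩⟩
      rw [hT] at h2
      simp only [LinearMap.pi_apply, Pi.zero_apply, fnl_apply] at h2
      exact h2
    exact GeoA_desc d w (m i) (hm i) (pos i) f h1 (m i - 1 - ∑ j, b j) b (by omega)

end Pool.Agent.H18.Tj

end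

section

/-!
# Module G1b (TJ), `upper`:: the dimension of the fat point systems

`bw r d s b`: width `b l` at the coordinates `l < s`, width `d` at the others.

`upper`: as `Geo_special` in `Pool/Agent/H18/Ta/Geo.lean` and `exists_special` in `Pool/Agent/H18/Ex/Final.lean`:
`p₀ (J l)` is the coordinate point `Pi.single l 1` (`l < s`), the other `p₀ i` and the `N - L` simple points are the
positions given by `GM_iff`; the forms are supported in `Rg d w` (`vanishes_coord_iff`); `general_finrank_le`.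

`toric_ge` (for arbitrary positions): the conditions `Kind.free m` on the functions supported in `Rg d w`, `m ≤ d`
(`m - 1 < d` suffices), follow from the conditions with `|b| = m - 1`, `b ≤ w`, of which there are `Lx w m`:
for `|b| < d` the Euler relation `(d - |b|) D_b = ∑_j (b_j + 1) q_j D_{b + e_j}`, `D_b = ∑_a f a * tcr q a b`
(`binom (a_j, b_j) (a_j - b_j) = (b_j + 1) binom (a_j, b_j + 1)`, `∑_j (a_j - b_j) = d - |b|`), gives
`D_b = 0` for all `|b| < m` by descending induction on `|b|`; and `D_b = 0` if some `b_j > w_j` (`binom (a_j, b_j) = 0`).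
So the space of solutions has dimension at least `card - ∑ Lx w (m i)` (rank-nullity).

`lower`: for general `p` the points `p (J l)` and the coordinate points `e_l`, `s ≤ l ≤ r`, are linearly independent
(the determinant is a nonzero polynomial, see `general_det` in `Pool/Agent/H18/TileFinal.lean`); `finrank_linear`
(`Pool/Agent/H18/Cub/CremL.lean`; or `finrank_linSubst`) moves `p (J l)` to `e_l`; then `toric_ge` for the images of the
other points, and the polynomials with coefficients in the space of solutions are in `fatForms`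
(`finrank_coord_ge` in `TileFinal.lean` shows how to construct the injection; `vanishes_coord_iff`).
-/

namespace Pool.Agent.H18.Tj

open Finset Function Pool.Agent.H18.Ex Pool.Agent.H18.Fat

/-- The widths. -/
def bw (r d s : ℕ) (b : Fin s → ℕ) : Fin (r + 1) → ℕ :=
  fun l => if h : l.val < s then b ⟨l.val, h⟩ else d

/-- The special configuration. -/
private theorem GeoB_special {r k d s : ℕ} (hs : s ≤ r + 1) (m : Fin k → ℕ)
    (J : Fin s ↪ Fin k) (hJ : ∀ l, m (J l) ≤ d) (R : ℕ)
    (h : GM (Ex.Rg d (bw r d s fun l => d - m (J l)))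
      ((((univ.filter fun i => ∀ l, J l ≠ i).val.map m) + Multiset.replicate R 1).map
        Kind.free)) :
    ∃ p₀ : Fin k → Fin (r + 1) → ℂ, Module.finrank ℂ (fatForms r d p₀ m) ≤ R := by
  classical
  set w : Fin (r + 1) → ℕ := bw r d s fun l => d - m (J l) with hw
  let I := {i : Fin k // ∀ l, J l ≠ i}
  let kk : I ⊕ Fin R → Kind (Fin (r + 1)) :=
    Sum.elim (fun i => Kind.free (m i.1)) fun _ => Kind.free 1
  have hkk : (univ : Finset (I ⊕ Fin R)).val.map kk =
      (((univ.filter fun i => ∀ l, J l ≠ i).val.map m) + Multiset.replicate R 1).map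
        Kind.free := by
    have h1 : (univ : Finset (I ⊕ Fin R)).val =
        (univ : Finset I).val.map Sum.inl + (univ : Finset (Fin R)).val.map Sum.inr := rfl
    have h2 : (univ.filter fun i : Fin k => ∀ l, J l ≠ i).val =
        (univ : Finset I).val.map Subtype.val := by
      have h3 : (univ.filter fun i : Fin k => ∀ l, J l ≠ i) =
          (univ : Finset I).map (Function.Embedding.subtype _) := by
        ext i
        simp only [mem_filter, mem_univ, true_and, mem_map, Function.Embedding.coe_subtype]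
        constructor
        · intro hi
          exact ⟨⟨i, hi⟩, rfl⟩
        · rintro ⟨a, rfl⟩
          exact a.2
      rw [h3]
      rfl
    rw [h1, h2, Multiset.map_add, Multiset.map_map, Multiset.map_map, Multiset.map_add,
      Multiset.map_map, Multiset.map_map, Multiset.map_replicate]
    congr 1
    have h4 : ((univ : Finset (Fin R)).val.map (kk ∘ Sum.inr)) =
        (univ : Finset (Fin R)).val.map (Function.const (Fin R) (Kind.free 1)) := rfl
    rw [h4, Multiset.map_const]
    simp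
  have hGI : GI (Ex.Rg d w) kk := by
    rw [← GM_iff, hkk]
    exact h
  obtain ⟨pos, hpos⟩ := hGI
  have hex : ∀ i : Fin k, ¬ (∀ l, J l ≠ i) → ∃ l, J l = i := fun i hi => by
    push Not at hi
    exact hi
  let p₀ : Fin k → Fin (r + 1) → ℂ := fun i =>
    if hi : ∀ l, J l ≠ i then pos (Sum.inl ⟨i, hi⟩)
    else Pi.single (Fin.castLE hs (hex i hi).choose) 1
  have hp₀ : ∀ l : Fin s, p₀ (J l) = Pi.single (Fin.castLE hs l) 1 := by
    intro l
    have hi : ¬ ∀ l', J l' ≠ J l := fun h => h l rfl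
    simp only [p₀]
    rw [dif_neg hi, J.injective (hex _ hi).choose_spec]
  refine ⟨p₀, ?_⟩
  -- the support
  have hsupp : ∀ F ∈ fatForms r d p₀ m, ∀ α ∈ F.support,
      (⇑α : Fin (r + 1) → ℕ) ∈ Ex.Rg d w := by
    intro F hF α hα
    rw [MvPolynomial.mem_support_iff] at hα
    have hαd : α ∈ mons (r + 1) d := by
      rw [mem_mons]
      by_contra h
      exact hα (hF.1.coeff_eq_zero h)
    rw [Ex.mem_Rg]
    have hdeg := mem_mons.1 hαd
    rw [Finsupp.degree_eq_sum] at hdeg
    refine ⟨fun l => ?_, hdeg⟩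
    have hle : α l ≤ d := by
      rw [← hdeg]
      exact single_le_sum (f := fun i => α i) (fun _ _ => Nat.zero_le _) (mem_univ l)
    by_cases hl : l.val < s
    · have h3 := hF.2 (J ⟨l.val, hl⟩)
      rw [hp₀ ⟨l.val, hl⟩, ← exists_toPoly hF.1, vanishes_coord_iff] at h3
      have h4 := h3 ⟨α, hαd⟩ hα
      have h5 : Fin.castLE hs ⟨l.val, hl⟩ = l := Fin.ext rfl
      rw [h5] at h4
      have h6 := hJ ⟨l.val, hl⟩
      have h7 : w l = d - m (J ⟨l.val, hl⟩) := by
        rw [hw]
        unfold bw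
        rw [dif_pos hl]
      rw [h7]
      change α l + m (J ⟨l.val, hl⟩) ≤ d at h4
      omega
    · have h7 : w l = d := by
        rw [hw]
        unfold bw
        rw [dif_neg hl]
      rw [h7]
      exact hle
  let Ψ : fatForms r d p₀ m →ₗ[ℂ] (Fin R → ℂ) :=
    { toFun := fun F j => ∑ a ∈ Ex.Rg d w, cf F.1 a * tcr (pos (Sum.inr j)) a 0
      map_add' := fun F G => by
        funext j
        simp only [Submodule.coe_add, cf, MvPolynomial.coeff_add, Pi.add_apply, add_mul,
          sum_add_distrib]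
      map_smul' := fun c F => by
        funext j
        simp only [Submodule.coe_smul, cf, MvPolynomial.coeff_smul, smul_eq_mul, RingHom.id_apply,
          Pi.smul_apply, mul_sum, mul_assoc] }
  have hΨ : Function.Injective Ψ := by
    rw [← LinearMap.ker_eq_bot, LinearMap.ker_eq_bot']
    intro F hF
    have h1 : ∀ i, Sat (Ex.Rg d w) (cf F.1) (kk i) (pos i) := by
      rintro (i | j)
      · have h2 := F.2.2 i.1
        have h3 : p₀ i.1 = pos (Sum.inl i) := by
          simp only [p₀]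
          rw [dif_pos i.2]
        rw [h3] at h2
        exact sat_of_vanishes (hsupp F.1 F.2) h2
      · intro b hb
        have hb0 : b = 0 := by
          change ∑ i, b i < 1 at hb
          have h2 : ∑ i, b i = 0 := by omega
          rw [sum_eq_zero_iff] at h2
          funext i
          exact h2 i (mem_univ _)
        subst hb0
        exact congrFun hF j
    have h2 := hpos (cf F.1) h1
    apply Subtype.ext
    change F.1 = 0
    by_contra hne
    obtain ⟨α, hα⟩ := MvPolynomial.ne_zero_iff.1 hne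
    have h3 := hsupp F.1 F.2 α (MvPolynomial.mem_support_iff.2 hα)
    have h4 := h2 _ h3
    unfold cf at h4
    rw [show Finsupp.equivFunOnFinite.symm (⇑α) = α from by ext; rfl] at h4
    exact hα h4
  have := LinearMap.finrank_le_finrank_of_injective hΨ
  rwa [Module.finrank_fintype_fun_eq_card, Fintype.card_fin] at this

theorem upper {r k d s : ℕ} (hr : 1 ≤ r) (hs : s ≤ r + 1) (m : Fin k → ℕ) (J : Fin s ↪ Fin k)
    (hJ : ∀ l, m (J l) ≤ d) (R : ℕ)
    (h : GM (Ex.Rg d (bw r d s fun l => d - m (J l)))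
      ((((univ.filter fun i => ∀ l, J l ≠ i).val.map m) + Multiset.replicate R 1).map
        Kind.free)) :
    ForGeneralPoints r k fun p => Module.finrank ℂ (fatForms r d p m) ≤ R := by
  obtain ⟨p₀, hp₀⟩ := GeoB_special hs m J hJ R h
  exact (general_finrank_le d p₀ m).mono fun p hp => hp.trans hp₀

end Pool.Agent.H18.Tj

end

section

/-!
# Module G1c (TJ), `lower`:: the dimension of the fat point systems

`bw r d s b`: width `b l` at the coordinates `l < s`, width `d` at the others.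

`upper`: as `Geo_special` in `Pool/Agent/H18/Ta/Geo.lean` and `exists_special` in `Pool/Agent/H18/Ex/Final.lean`:
`p₀ (J l)` is the coordinate point `Pi.single l 1` (`l < s`), the other `p₀ i` and the `N - L` simple points are the
positions given by `GM_iff`; the forms are supported in `Rg d w` (`vanishes_coord_iff`); `general_finrank_le`.

`toric_ge` (for arbitrary positions): the conditions `Kind.free m` on the functions supported in `Rg d w`, `m ≤ d`
(`m - 1 < d` suffices), follow from the conditions with `|b| = m - 1`, `b ≤ w`, of which there are `Lx w m`: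
for `|b| < d` the Euler relation `(d - |b|) D_b = ∑_j (b_j + 1) q_j D_{b + e_j}`, `D_b = ∑_a f a * tcr q a b`
(`binom (a_j, b_j) (a_j - b_j) = (b_j + 1) binom (a_j, b_j + 1)`, `∑_j (a_j - b_j) = d - |b|`), gives
`D_b = 0` for all `|b| < m` by descending induction on `|b|`; and `D_b = 0` if some `b_j > w_j` (`binom (a_j, b_j) = 0`).
So the space of solutions has dimension at least `card - ∑ Lx w (m i)` (rank-nullity).

`lower`: for general `p` the points `p (J l)` and the coordinate points `e_l`, `s ≤ l ≤ r`, are linearly independent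
(the determinant is a nonzero polynomial, see `general_det` in `Pool/Agent/H18/TileFinal.lean`); `finrank_linear`
(`Pool/Agent/H18/Cub/CremL.lean`; or `finrank_linSubst`) moves `p (J l)` to `e_l`; then `toric_ge` for the images of the
other points, and the polynomials with coefficients in the space of solutions are in `fatForms`
(`finrank_coord_ge` in `TileFinal.lean` shows how to construct the injection; `vanishes_coord_iff`).
-/

namespace Pool.Agent.H18.Tj

open Finset Function Pool.Agent.H18.Ex Pool.Agent.H18.Fat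

private theorem GeoT_det {r k s : ℕ} (J : Fin s ↪ Fin k) :
    ForGeneralPoints r k fun p =>
      (Matrix.of fun j l : Fin (r + 1) => if h : l.val < s then p (J ⟨l.val, h⟩) j
        else (Pi.single l 1 : Fin (r + 1) → ℂ) j).det ≠ 0 := by
  classical
  let M : Matrix (Fin (r + 1)) (Fin (r + 1)) (MvPolynomial (Fin k × Fin (r + 1)) ℂ) :=
    Matrix.of fun j l => if h : l.val < s then MvPolynomial.X (J ⟨l.val, h⟩, j)
        else MvPolynomial.C ((Pi.single l 1 : Fin (r + 1) → ℂ) j)
  have hM : ∀ p : Fin k → Fin (r + 1) → ℂ, MvPolynomial.eval (fun x => p x.1 x.2) M.det =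
      (Matrix.of fun j l : Fin (r + 1) => if h : l.val < s then p (J ⟨l.val, h⟩) j
        else (Pi.single l 1 : Fin (r + 1) → ℂ) j).det := by
    intro p
    rw [RingHom.map_det]
    congr 1
    ext j l
    simp only [M, RingHom.mapMatrix_apply, Matrix.map_apply, Matrix.of_apply]
    split_ifs <;> simp
  refine ⟨M.det, ?_, fun p hp => by rwa [hM] at hp⟩
  intro h0
  have h1 := hM fun a i => if ∃ l : Fin s, J l = a ∧ l.val = i.val then 1 else 0
  rw [h0, map_zero] at h1
  have h2 : (Matrix.of fun j l : Fin (r + 1) => if h : l.val < s then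
      (if ∃ l' : Fin s, J l' = J ⟨l.val, h⟩ ∧ l'.val = j.val then (1 : ℂ) else 0)
        else (Pi.single l 1 : Fin (r + 1) → ℂ) j) =
      (1 : Matrix (Fin (r + 1)) (Fin (r + 1)) ℂ) := by
    ext j l
    rw [Matrix.of_apply, Matrix.one_apply]
    by_cases hl : l.val < s
    · rw [dif_pos hl]
      by_cases hjl : j = l
      · rw [if_pos hjl, if_pos ⟨⟨l.val, hl⟩, rfl, by rw [hjl]⟩]
      · rw [if_neg hjl, if_neg]
        rintro ⟨l', h3, h4⟩
        have h5 := J.injective h3
        subst h5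
        exact hjl (Fin.ext h4.symm)
    · rw [dif_neg hl]
      by_cases hjl : j = l
      · rw [if_pos hjl, hjl, Pi.single_eq_same]
      · rw [if_neg hjl, Pi.single_eq_of_ne hjl]
  rw [h2, Matrix.det_one] at h1
  exact zero_ne_one h1

/-- Coefficient vectors supported in `Rg d w` to coefficient vectors. -/
private noncomputable def GeoT_ext {r d : ℕ} (w : Fin (r + 1) → ℕ) :
    ({a // a ∈ Ex.Rg d w} → ℂ) →ₗ[ℂ] (mons (r + 1) d → ℂ) where
  toFun c := fun α => if h : (⇑α.1 : Fin (r + 1) → ℕ) ∈ Ex.Rg d w then c ⟨_, h⟩ else 0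
  map_add' c c' := by
    funext α
    by_cases h : (⇑α.1 : Fin (r + 1) → ℕ) ∈ Ex.Rg d w
    · simp [h]
    · simp [h]
  map_smul' t c := by
    funext α
    by_cases h : (⇑α.1 : Fin (r + 1) → ℕ) ∈ Ex.Rg d w
    · simp [h]
    · simp [h]

private theorem GeoT_ext_apply {r d : ℕ} (w : Fin (r + 1) → ℕ) (c : {a // a ∈ Ex.Rg d w} → ℂ)
    (α : mons (r + 1) d) : GeoT_ext w c α =
      if h : (⇑α.1 : Fin (r + 1) → ℕ) ∈ Ex.Rg d w then c ⟨_, h⟩ else 0 := rfl

/-- The exponent of a point of the region. -/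
private noncomputable def GeoT_e {r d : ℕ} (w : Fin (r + 1) → ℕ) (a : {a // a ∈ Ex.Rg d w}) :
    mons (r + 1) d :=
  ⟨Finsupp.equivFunOnFinite.symm a.1, by
    rw [mem_mons, Finsupp.degree_eq_sum]
    exact (Ex.mem_Rg.1 a.2).2⟩

private theorem GeoT_e_coe {r d : ℕ} (w : Fin (r + 1) → ℕ) (a : {a // a ∈ Ex.Rg d w}) :
    (⇑(GeoT_e w a).1 : Fin (r + 1) → ℕ) = a.1 := rfl

private theorem GeoT_ext_e {r d : ℕ} (w : Fin (r + 1) → ℕ) (c : {a // a ∈ Ex.Rg d w} → ℂ)
    (a : {a // a ∈ Ex.Rg d w}) : GeoT_ext w c (GeoT_e w a) = c a := by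
  rw [GeoT_ext_apply, dif_pos (by rw [GeoT_e_coe]; exact a.2)]
  rfl

private theorem GeoT_ext_injective {r d : ℕ} (w : Fin (r + 1) → ℕ) :
    Function.Injective (GeoT_ext (d := d) w) := by
  intro c c' h
  funext a
  rw [← GeoT_ext_e w c a, h, GeoT_ext_e]

private theorem GeoT_sum {r d : ℕ} (w : Fin (r + 1) → ℕ) (c : {a // a ∈ Ex.Rg d w} → ℂ)
    (q : Fin (r + 1) → ℂ) (β : Fin (r + 1) →₀ ℕ) :
    ∑ α : mons (r + 1) d, GeoT_ext w c α * tc q α.1 β =
      ∑ a : {a // a ∈ Ex.Rg d w}, c a * tcr q a.1 ⇑β := by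
  symm
  apply Fintype.sum_of_injective (GeoT_e w)
  · intro a a' h
    apply Subtype.ext
    rw [← GeoT_e_coe w a, h, GeoT_e_coe]
  · intro α hα
    rw [GeoT_ext_apply, dif_neg, zero_mul]
    intro h
    apply hα
    refine ⟨⟨_, h⟩, ?_⟩
    apply Subtype.ext
    ext j
    rfl
  · intro a
    rw [GeoT_ext_e]
    rfl

theorem lower {r k d s : ℕ} (hr : 1 ≤ r) (hs : s ≤ r + 1) (m : Fin k → ℕ) (J : Fin s ↪ Fin k)
    (hJ : ∀ l, m (J l) ≤ d) (hm : ∀ i, (∀ l, J l ≠ i) → m i ≤ d) :
    ForGeneralPoints r k fun p =>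
      (Ex.Rg d (bw r d s fun l => d - m (J l))).card ≤ Module.finrank ℂ (fatForms r d p m) +
        ∑ i ∈ univ.filter (fun i => ∀ l, J l ≠ i), Lx (bw r d s fun l => d - m (J l)) (m i) := by
  classical
  refine (GeoT_det J).mono ?_
  intro p hdet
  set w : Fin (r + 1) → ℕ := bw r d s fun l => d - m (J l) with hw
  set A : Matrix (Fin (r + 1)) (Fin (r + 1)) ℂ := Matrix.of fun j l : Fin (r + 1) =>
    if h : l.val < s then p (J ⟨l.val, h⟩) j else (Pi.single l 1 : Fin (r + 1) → ℂ) j with hA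
  have hunit : IsUnit A.det := isUnit_iff_ne_zero.2 hdet
  set p' : Fin k → Fin (r + 1) → ℂ := fun i => A⁻¹.mulVec (p i) with hp'
  -- the points after the change of coordinates
  have h1 : Module.finrank ℂ (fatForms r d p m) = Module.finrank ℂ (fatForms r d p' m) := by
    have h2 := Cub.finrank_linear (d := d) A hunit p' m
    have h3 : (fun i => A.mulVec (p' i)) = p := by
      funext i
      rw [hp', Matrix.mulVec_mulVec, Matrix.mul_nonsing_inv A hunit, Matrix.one_mulVec]
    rwa [h3] at h2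
  have hJp : ∀ l : Fin s, p' (J l) = Pi.single (⟨l.val, by omega⟩ : Fin (r + 1)) 1 := by
    intro l
    have h2 : A.mulVec (Pi.single (⟨l.val, by omega⟩ : Fin (r + 1)) 1) = p (J l) := by
      funext j
      rw [Matrix.mulVec_single_one]
      simp only [hA, Matrix.col_apply, Matrix.of_apply, dif_pos l.2]
    rw [hp']
    simp only
    rw [← h2, Matrix.mulVec_mulVec, Matrix.nonsing_inv_mul A hunit, Matrix.one_mulVec]
  obtain ⟨V, hV, hV'⟩ := toric_ge (κ := {i : Fin k // ∀ l, J l ≠ i}) d w (fun i => m i.1)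
    (fun i => hm i.1 i.2) (fun i => p' i.1)
  have h4 : ∑ i : {i : Fin k // ∀ l, J l ≠ i}, Lx w (m i.1) =
      ∑ i ∈ univ.filter (fun i => ∀ l, J l ≠ i), Lx w (m i) := by
    rw [sum_subtype (p := fun i => ∀ l, J l ≠ i) (univ.filter (fun i => ∀ l, J l ≠ i))
      (by simp) (fun i => Lx w (m i))]
  rw [h1, ← h4]
  refine hV.trans (Nat.add_le_add_right ?_ _)
  let Ψ : V →ₗ[ℂ] MvPolynomial (Fin (r + 1)) ℂ :=
    (toPoly (r + 1) d) ∘ₗ (GeoT_ext w) ∘ₗ V.subtype
  have hΨ : ∀ c : V, Ψ c = toPoly (r + 1) d (GeoT_ext w c.1) := fun _ => rfl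
  have hmem : ∀ c : V, Ψ c ∈ fatForms r d p' m := by
    intro c
    rw [hΨ]
    refine ⟨toPoly_isHomogeneous _, fun i => ?_⟩
    by_cases hi : ∀ l, J l ≠ i
    · intro β hβ
      rw [coeff_shift_toPoly, GeoT_sum]
      apply hV' c.1 c.2 ⟨i, hi⟩
      rw [Finsupp.degree_eq_sum] at hβ
      exact hβ
    · push Not at hi
      obtain ⟨l, rfl⟩ := hi
      rw [hJp l, vanishes_coord_iff]
      intro α hα
      rw [GeoT_ext_apply] at hα
      by_cases h : (⇑α.1 : Fin (r + 1) → ℕ) ∈ Ex.Rg d w
      · have h5 := (Ex.mem_Rg.1 h).1 ⟨l.val, by omega⟩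
        have h6 : w ⟨l.val, by omega⟩ = d - m (J l) := by
          simp only [hw, bw, dif_pos l.2]
        rw [h6] at h5
        have h7 := hJ l
        omega
      · rw [dif_neg h] at hα
        exact absurd rfl hα
  have hinj : Function.Injective (Ψ.codRestrict _ hmem) := by
    intro c c' h
    have h5 : Ψ c = Ψ c' := congrArg Subtype.val h
    rw [hΨ, hΨ] at h5
    exact Subtype.ext (GeoT_ext_injective w (toPoly_injective _ _ h5))
  exact LinearMap.finrank_le_finrank_of_injective hinj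

end Pool.Agent.H18.Tj

end

section

/-!
# Module T1 (TJ): the layer lemma

`lyr A y s`: the exponents of the layer `a y = s`, with the coordinate `y` replaced by `0`.

Proof of `layers` (compare `core` in `Pool/Agent/H18/Ta/Core.lean`, whose private lemma `Core_comb` can be
copied; the keys are `e i s + kap ℓ s` with `e i = ex ℓ (u i) 0`, and `key_lt` in `Pool/Agent/H18/Ta/Key.lean`).
By `GI.general` (`Pool/Agent/H18/Ex/Gen.lean`) and the product of the polynomials for `s < ℓ` there are common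
positions `pos` such that `InjAt (lyr A y s) (free (μ i - rk ℓ (u i) 0 s)) pos` for all `s < ℓ`.  Suppose `GI A` is
false.  For `t ≠ 0` use the positions `update (pos i) y (t ^ ex ℓ (u i) 0)`: there is a nonzero solution `f` on
`A`; the coefficients `f a * (t ^ kap ℓ (a y))⁻¹` solve the system of the equations `(i, b)`, `|b| < μ i`, with entries
`(binom (a y, b y) * tcr' ) * X ^ (e i * a y + kap ℓ (a y)) * X` evaluated at `t` (multiply the equation by
`t ^ (e i * b y) * t`), where `tcr' = tcr (pos i) (update a y 0) (update b y 0)`.  By `exists_poly_solution`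
(`Pool/Agent/H18/Ex/OnePar.lean`) there is a polynomial solution `F` with `(F a₀).eval 0 ≠ 0`.  Let
`s₀ = a₀ y` and `b` a multi-index with `b y = 0`, `|b| < μ i - rk ℓ (u i) 0 s₀`.  The equations for `update b y γ`,
`γ < μ i - |b|`, combined by `Core_comb` so that the layers `s ≠ s₀` with `rk < μ i - |b|` cancel, give, at the
coefficient `X ^ (e i * s₀ + kap ℓ s₀)`, `∑_{a ∈ A, a y = s₀} (F a).eval 0 * tcr (pos i) (update a y 0) b = 0`.  (For `b y ≠ 0`
this holds since `binom (0, b y) = 0`.)  So the values `(F a).eval 0` on the layer `s₀` satisfy the conditions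
`free (μ i - rk ℓ (u i) 0 s₀)` at `pos i`, hence vanish, a contradiction.
-/

namespace Pool.Agent.H18.Tj

open Finset Function Pool.Agent.H18.Ex Pool.Agent.H18.Ta

variable {ι : Type} [Fintype ι] [DecidableEq ι]

/-- The layer `a y = s`. -/
def lyr (A : Finset (ι → ℕ)) (y : ι) (s : ℕ) : Finset (ι → ℕ) :=
  (A.filter fun a => a y = s).image fun a => update a y 0

/-- Combinations of binomial coefficients. -/
private theorem Layer_comb {R : Type*} [CommRing R] (ℓ h : ℕ) (T : ℕ → R)
    (hT : ∀ γ < h, ∑ s ∈ range ℓ, ((s.choose γ : ℕ) : R) * T s = 0) (S : Finset ℕ) :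
    ∀ γ, S.card + γ < h →
      ∑ s ∈ range ℓ, (∏ u ∈ S, ((s : R) - (u : R))) * (((s.choose γ : ℕ) : R) * T s) = 0 := by
  induction S using Finset.induction_on with
  | empty =>
    intro γ hγ
    simpa using hT γ (by simpa using hγ)
  | insert u S hu ih =>
    intro γ hγ
    rw [card_insert_of_notMem hu] at hγ
    have h1 := ih (γ + 1) (by omega)
    have h2 := ih γ (by omega)
    have h3 : ∀ s ∈ range ℓ,
        (∏ u' ∈ insert u S, ((s : R) - (u' : R))) * (((s.choose γ : ℕ) : R) * T s) =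
        ((γ : R) + 1) * ((∏ u' ∈ S, ((s : R) - (u' : R))) * (((s.choose (γ + 1) : ℕ) : R) * T s)) +
        ((γ : R) - u) * ((∏ u' ∈ S, ((s : R) - (u' : R))) * (((s.choose γ : ℕ) : R) * T s)) := by
      intro s _
      rw [prod_insert hu]
      have h4 : ((s : R) - γ) * ((s.choose γ : ℕ) : R) = ((γ : R) + 1) * ((s.choose (γ + 1) : ℕ) : R) := by
        have h5 := Nat.choose_succ_right_eq s γ
        rcases Nat.lt_or_ge s γ with h6 | h6
        · rw [Nat.choose_eq_zero_of_lt h6, Nat.choose_eq_zero_of_lt (by omega)]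
          simp
        · have h7 : ((s.choose (γ + 1) * (γ + 1) : ℕ) : R) = ((s.choose γ * (s - γ) : ℕ) : R) := by
            rw [h5]
          rw [Nat.cast_mul, Nat.cast_mul, Nat.cast_sub h6] at h7
          push_cast at h7
          linear_combination -h7
      have h5 : ((s : R) - u) * ((s.choose γ : ℕ) : R) =
          ((γ : R) + 1) * ((s.choose (γ + 1) : ℕ) : R) + ((γ : R) - u) * ((s.choose γ : ℕ) : R) := by
        rw [← h4]
        ring
      calc _ = (∏ u' ∈ S, ((s : R) - (u' : R))) * ((((s : R) - u) * ((s.choose γ : ℕ) : R)) * T s) := by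
            ring
        _ = _ := by
            rw [h5]
            ring
    rw [sum_congr rfl h3, sum_add_distrib, ← mul_sum, ← mul_sum, h1, h2, mul_zero, mul_zero, add_zero]

/-- The factor of the coordinate `y`. -/
private theorem Layer_tcr {R : Type*} [CommRing R] (p : ι → R) (y : ι) (z : R) (a b : ι → ℕ) :
    tcr (update p y z) a b = (((a y).choose (b y) : ℕ) : R) * z ^ (a y - b y) *
      tcr p (update a y 0) (update b y 0) := by
  unfold tcr
  rw [← mul_prod_erase univ _ (mem_univ y), ← mul_prod_erase univ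
    (fun i => (((update a y 0 i).choose (update b y 0 i) : ℕ) : R) *
      p i ^ (update a y 0 i - update b y 0 i)) (mem_univ y)]
  simp only [update_self, Nat.choose_zero_right, Nat.cast_one, Nat.sub_zero, pow_zero, mul_one,
    one_mul]
  congr 1
  refine prod_congr rfl fun i hi => ?_
  have hi' := ne_of_mem_erase hi
  rw [update_of_ne hi', update_of_ne hi', update_of_ne hi']

private theorem Layer_tcr_zero {R : Type*} [CommRing R] (p : ι → R) (y : ι) (a b : ι → ℕ)
    (hb : b y ≠ 0) : tcr p (update a y 0) b = 0 := by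
  unfold tcr
  apply prod_eq_zero (mem_univ y)
  rw [update_self, Nat.choose_eq_zero_of_lt (Nat.pos_of_ne_zero hb), Nat.cast_zero, zero_mul]

private theorem Layer_sum (a : ι → ℕ) (y : ι) (z : ℕ) :
    ∑ i, update a y z i + a y = ∑ i, a i + z := by
  rw [← add_sum_erase univ (fun i => update a y z i) (mem_univ y),
    ← add_sum_erase univ a (mem_univ y), update_self]
  have h : ∑ i ∈ univ.erase y, update a y z i = ∑ i ∈ univ.erase y, a i :=
    sum_congr rfl fun i hi => update_of_ne (ne_of_mem_erase hi) _ _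
  rw [h]
  omega

theorem layers {κ : Type} [Fintype κ] (A : Finset (ι → ℕ)) (y : ι) (ℓ : ℕ)
    (hA : ∀ a ∈ A, a y < ℓ) (μ u : κ → ℕ) (hu : ∀ i, u i < ℓ)
    (h : ∀ s < ℓ, GI (lyr A y s) fun i => Kind.free (μ i - Ta.rk ℓ (u i) 0 s)) :
    GI A fun i => Kind.free (μ i) := by
  classical
  -- common positions
  obtain ⟨pos, hpos⟩ : ∃ pos : κ → ι → ℂ, ∀ s < ℓ,
      InjAt (lyr A y s) (fun i => Kind.free (μ i - Ta.rk ℓ (u i) 0 s)) pos := by
    have h1 : ∀ s : ℕ, ∃ G : MvPolynomial (κ × ι) ℂ, G ≠ 0 ∧ (s < ℓ →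
        ∀ pos : κ → ι → ℂ, MvPolynomial.eval (fun x => pos x.1 x.2) G ≠ 0 →
          InjAt (lyr A y s) (fun i => Kind.free (μ i - Ta.rk ℓ (u i) 0 s)) pos) := by
      intro s
      by_cases hs : s < ℓ
      · obtain ⟨G, hG, hG'⟩ := (h s hs).general
        exact ⟨G, hG, fun _ => hG'⟩
      · exact ⟨1, one_ne_zero, fun h => absurd h hs⟩
    choose G hG hG' using h1
    have hne : (∏ s ∈ range ℓ, G s) ≠ 0 := prod_ne_zero_iff.2 fun s _ => hG s
    obtain ⟨x, hx⟩ : ∃ x : κ × ι → ℂ, MvPolynomial.eval x (∏ s ∈ range ℓ, G s) ≠ 0 := by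
      by_contra hcon
      push Not at hcon
      exact hne (MvPolynomial.funext fun x => by rw [hcon x, map_zero])
    refine ⟨fun i j => x (i, j), fun s hs => hG' s hs _ ?_⟩
    rw [map_prod, prod_ne_zero_iff] at hx
    exact hx s (mem_range.2 hs)
  by_contra hcon
  have hcon' : ∀ p : κ → ι → ℂ, ∃ f : (ι → ℕ) → ℂ,
      (∀ i, ∀ b : ι → ℕ, ∑ j, b j < μ i → ∑ a ∈ A, f a * tcr (p i) a b = 0) ∧
        ∃ a ∈ A, f a ≠ 0 := by
    intro p
    by_contra hp
    apply hcon
    refine ⟨p, fun f hf a ha => ?_⟩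
    by_contra hfa
    exact hp ⟨f, fun i b hb => hf i b hb, a, ha, hfa⟩
  set e : κ → ℕ := fun i => ex ℓ (u i) 0 with he
  let ρ : Type := (i : κ) × {b // b ∈ (Kind.free (ι := ι) (μ i)).idxs}
  let Mx : ρ → (ι → ℕ) → Polynomial ℂ := fun r a =>
    Polynomial.C (tcr (pos r.1) (update a y 0) (update r.2.1 y 0)) *
      ((((a y).choose (r.2.1 y) : ℕ) : Polynomial ℂ) *
        (Polynomial.X ^ (e r.1 * a y + kap ℓ (a y)) * Polynomial.X))
  have hsol : ∀ t : ℂ, ∃ f : (ι → ℕ) → ℂ,
      (∀ r, ∑ a ∈ A, f a * (Mx r a).eval t = 0) ∧ ∃ a ∈ A, f a ≠ 0 := by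
    intro t
    obtain ⟨f, hf, a₁, ha₁, hne⟩ := hcon' fun i => update (pos i) y (t ^ e i)
    by_cases ht : t = 0
    · refine ⟨fun _ => 1, fun r => sum_eq_zero fun a _ => ?_, a₁, ha₁, one_ne_zero⟩
      subst ht
      simp only [Mx]
      simp
    · refine ⟨fun a => f a * (t ^ kap ℓ (a y))⁻¹, fun r => ?_, a₁, ha₁, ?_⟩
      · have h1 := hf r.1 r.2.1 (Kind.mem_idxs.1 r.2.2)
        have h2 : ∑ a ∈ A, f a * (t ^ kap ℓ (a y))⁻¹ * (Mx r a).eval t =
            (t ^ (e r.1 * r.2.1 y) * t) *
              ∑ a ∈ A, f a * tcr (update (pos r.1) y (t ^ e r.1)) a r.2.1 := by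
          rw [mul_sum]
          refine sum_congr rfl fun a _ => ?_
          rw [Layer_tcr]
          simp only [Mx]
          simp only [Polynomial.eval_mul, Polynomial.eval_C, Polynomial.eval_natCast,
            Polynomial.eval_pow, Polynomial.eval_X]
          rcases Nat.lt_or_ge (a y) (r.2.1 y) with h3 | h3
          · rw [Nat.choose_eq_zero_of_lt h3]
            simp
          · have h4 : t ^ (e r.1 * a y + kap ℓ (a y)) =
                t ^ (e r.1 * r.2.1 y) * (t ^ e r.1) ^ (a y - r.2.1 y) * t ^ kap ℓ (a y) := by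
              rw [← pow_mul, ← pow_add, pow_add, ← mul_add, Nat.add_sub_cancel' h3]
            rw [h4]
            have h5 : t ^ kap ℓ (a y) ≠ 0 := pow_ne_zero _ ht
            field_simp
        rw [h2, h1, mul_zero]
      · exact mul_ne_zero hne (inv_ne_zero (pow_ne_zero _ ht))
  obtain ⟨F, hF, a₀, ha₀, hne⟩ := Pool.Agent.H18.Ex.exists_poly_solution A Mx hsol
  -- the layers
  set T : κ → (ι → ℕ) → ℕ → Polynomial ℂ := fun i b s =>
    Polynomial.X ^ (e i * s + kap ℓ s) * ∑ a ∈ A.filter (fun a => a y = s),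
      F a * Polynomial.C (tcr (pos i) (update a y 0) b) with hT
  have heq : ∀ i (b : ι → ℕ) γ, b y = 0 → γ < μ i - ∑ j, b j →
      ∑ s ∈ range ℓ, ((s.choose γ : ℕ) : Polynomial ℂ) * T i b s = 0 := by
    intro i b γ hb hγ
    have hsum : ∑ j, update b y γ j < μ i := by
      have h1 := Layer_sum b y γ
      omega
    have h1 := hF ⟨i, ⟨update b y γ, Kind.mem_idxs.2 hsum⟩⟩
    have h2 : Polynomial.X * ∑ s ∈ range ℓ, ((s.choose γ : ℕ) : Polynomial ℂ) * T i b s = 0 := by
      rw [← h1, ← sum_fiberwise_of_maps_to (t := range ℓ) (g := fun a : ι → ℕ => a y)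
        (fun a ha => mem_range.2 (hA a ha)), mul_sum]
      refine sum_congr rfl fun s _ => ?_
      rw [hT]
      beta_reduce
      rw [mul_sum, mul_sum, mul_sum]
      refine sum_congr rfl fun a ha => ?_
      have has : a y = s := (mem_filter.1 ha).2
      simp only [Mx]
      have h3 : update (update b y γ) y 0 = b := by
        rw [update_idem, ← hb, update_eq_self]
      rw [h3, update_self, has]
      ring
    exact (mul_eq_zero.1 h2).resolve_left Polynomial.X_ne_zero
  -- the vanishing at zero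
  have hkeyv : ∀ i, ∀ s₀ < ℓ, ∀ b : ι → ℕ, b y = 0 → ∑ j, b j < μ i - Ta.rk ℓ (u i) 0 s₀ →
      ∑ a ∈ A.filter (fun a => a y = s₀),
        (F a).eval 0 * tcr (pos i) (update a y 0) b = 0 := by
    intro i s₀ hs₀ b hb hα
    have hui : u i + 0 < ℓ := by have := hu i; omega
    set h' := μ i - ∑ j, b j with hh
    set S : Finset ℕ := (range ℓ).filter fun s => s ≠ s₀ ∧ Ta.rk ℓ (u i) 0 s < h' with hS
    have hScard : S.card + 0 < h' := by
      have h1 : (insert s₀ S).card ≤ (range h').card := by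
        apply card_le_card_of_injOn (Ta.rk ℓ (u i) 0)
        · intro s hs
          rw [mem_coe, mem_insert] at hs
          rw [mem_coe, mem_range]
          rcases hs with rfl | hs
          · omega
          · exact (mem_filter.1 hs).2.2
        · intro s hs t ht hst
          have hlt : ∀ s ∈ insert s₀ S, s < ℓ := by
            intro s hs
            rcases mem_insert.1 hs with rfl | hs
            · exact hs₀
            · exact mem_range.1 (mem_filter.1 hs).1
          exact Ta.rk_inj hui (hlt s hs) (hlt t ht) hst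
      rw [card_insert_of_notMem (by simp [hS]), card_range] at h1
      omega
    have h2 := Layer_comb ℓ h' (T i b) (fun γ hγ => heq i b γ hb hγ) S 0 hScard
    have h3 := congrArg (fun p => Polynomial.coeff p (e i * s₀ + kap ℓ s₀)) h2
    simp only [Polynomial.finsetSum_coeff, Polynomial.coeff_zero] at h3
    rw [sum_eq_single s₀] at h3
    · -- the main term
      have h4 : (∏ u ∈ S, (((s₀ : ℕ) : Polynomial ℂ) - ((u : ℕ) : Polynomial ℂ))) =
          Polynomial.C (∏ u ∈ S, ((s₀ : ℂ) - (u : ℂ))) := by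
        rw [map_prod]
        refine prod_congr rfl fun u _ => ?_
        rw [map_sub]
        simp
      rw [h4, Nat.choose_zero_right, Nat.cast_one, one_mul, Polynomial.coeff_C_mul, hT] at h3
      simp only at h3
      rw [Polynomial.coeff_X_pow_mul', if_pos le_rfl, Nat.sub_self] at h3
      have h5 : (∏ u ∈ S, ((s₀ : ℂ) - (u : ℂ))) ≠ 0 := by
        rw [prod_ne_zero_iff]
        intro u hu
        rw [sub_ne_zero]
        intro h6
        have h7 : s₀ = u := by exact_mod_cast h6
        exact (mem_filter.1 hu).2.1 h7.symm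
      have h6 := (mul_eq_zero.1 h3).resolve_left h5
      rw [Polynomial.coeff_zero_eq_eval_zero, Polynomial.eval_finsetSum] at h6
      refine Eq.trans (sum_congr rfl fun a _ => ?_) h6
      rw [Polynomial.eval_mul, Polynomial.eval_C]
    · -- the other terms
      intro s hs hne
      rw [mem_range] at hs
      by_cases hsS : s ∈ S
      · rw [prod_eq_zero hsS (sub_self _), zero_mul, Polynomial.coeff_zero]
      · have h4 : h' ≤ Ta.rk ℓ (u i) 0 s := by
          by_contra h5
          exact hsS (mem_filter.2 ⟨mem_range.2 hs, hne, by omega⟩)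
        have h5 := Ta.key_lt hui hs₀ hs (by omega)
        rw [Nat.choose_zero_right, Nat.cast_one, one_mul, hT]
        simp only
        rw [mul_left_comm, Polynomial.coeff_X_pow_mul', if_neg (by rw [he]; beta_reduce; omega)]
    · intro hs
      exact absurd (mem_range.2 hs₀) hs
  -- conclusion
  have hs₀ : a₀ y < ℓ := hA a₀ ha₀
  apply hne
  have hup : ∀ a ∈ A.filter (fun a => a y = a₀ y), update (update a y 0) y (a₀ y) = a := by
    intro a ha
    rw [update_idem, ← (mem_filter.1 ha).2, update_eq_self]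
  have hfin := hpos (a₀ y) hs₀ (fun c => (F (update c y (a₀ y))).eval 0) (by
    intro i b hb
    have hb' : ∑ j, b j < μ i - Ta.rk ℓ (u i) 0 (a₀ y) := hb
    show ∑ c ∈ lyr A y (a₀ y), (F (update c y (a₀ y))).eval 0 * tcr (pos i) c b = 0
    unfold lyr
    rw [sum_image]
    · by_cases hby : b y = 0
      · refine Eq.trans (sum_congr rfl fun a ha => ?_) (hkeyv i (a₀ y) hs₀ b hby hb')
        rw [hup a ha]
      · apply sum_eq_zero
        intro a _
        rw [Layer_tcr_zero _ _ _ _ hby, mul_zero]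
    · intro a ha a' ha' haa
      have h1 := hup a ha
      have h2 := hup a' ha'
      beta_reduce at haa
      rw [← h1, haa, h2]) (update a₀ y 0) (by
    unfold lyr
    exact mem_image_of_mem _ (mem_filter.2 ⟨ha₀, rfl⟩))
  beta_reduce at hfin
  rw [hup a₀ (mem_filter.2 ⟨ha₀, rfl⟩)] at hfin
  exact hfin

/-- The layers of a region. -/
theorem lyr_Rg (y : ι) (σ s : ℕ) (w : ι → ℕ) (hs : s ≤ w y) (hσ : s ≤ σ) :
    lyr (Rg σ w) y s = Rg (σ - s) (update w y 0) := by
  ext c
  unfold lyr
  rw [mem_image, mem_Rg]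
  constructor
  · rintro ⟨a, ha, rfl⟩
    rw [mem_filter, mem_Rg] at ha
    obtain ⟨⟨h1, h2⟩, h3⟩ := ha
    constructor
    · intro i
      by_cases hi : i = y
      · subst hi
        rw [update_self, update_self]
      · rw [update_of_ne hi, update_of_ne hi]
        exact h1 i
    · have h4 := Layer_sum a y 0
      omega
  · rintro ⟨h1, h2⟩
    have hcy : c y = 0 := by
      have h3 := h1 y
      rw [update_self] at h3
      omega
    refine ⟨update c y s, ?_, ?_⟩
    · rw [mem_filter, mem_Rg]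
      refine ⟨⟨?_, ?_⟩, update_self _ _ _⟩
      · intro i
        by_cases hi : i = y
        · subst hi
          rw [update_self]
          exact hs
        · have h3 := h1 i
          rw [update_of_ne hi] at h3 ⊢
          exact h3
      · have h4 := Layer_sum c y s
        omega
    · rw [update_idem, ← hcy, update_eq_self]

end Pool.Agent.H18.Tj

end

section

/-!
# Module C11 (TK): sizes

* `card_small`: `card_le_prod` (`Pool/Agent/H18/Ex/Box.lean`); split off the factors for `l`, `l'`, and `min (w i) σ ≤ w i`.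
* `facet_big`: `box_lower` (same file) with `D = 1` and `N + 1` = the number of the active coordinates (`≥ 3`, as `o`, `l`, `l'`
  are active; `w o ≥ w l'`): `∏_{i active, ≠ o, l} w i ≤ N ^ (N - 1) fc σ w l`.  The factor for `l'` is `w l'`; for the other
  active `i` we have `w i + 1 ≤ 2 w i`, the inactive ones contribute `1`; there are at most `q` factors, and `N ≤ q`.
-/

namespace Pool.Agent.H18.Tk

open Finset Function Pool.Agent.H18.Ex

variable {ι : Type} [Fintype ι] [DecidableEq ι]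

theorem card_small (o l l' : ι) (hlo : l ≠ o) (hl'o : l' ≠ o) (hll' : l ≠ l') (σ : ℕ)
    (w : ι → ℕ) : (Rg σ w).card ≤ (min (w l) σ + 1) * (min (w l') σ + 1) *
      ∏ i ∈ univ.filter (fun i => i ≠ o ∧ i ≠ l ∧ i ≠ l'), (w i + 1) := by
  refine (card_le_prod o σ w).trans ?_
  have h1 : l ∈ univ.erase o := mem_erase.2 ⟨hlo, mem_univ _⟩
  have h2 : l' ∈ (univ.erase o).erase l := mem_erase.2 ⟨hll'.symm, mem_erase.2 ⟨hl'o, mem_univ _⟩⟩
  rw [← mul_prod_erase _ _ h1, ← mul_prod_erase _ _ h2, mul_assoc]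
  refine Nat.mul_le_mul_left _ (Nat.mul_le_mul_left _ ?_)
  have h3 : ((univ.erase o).erase l).erase l' =
      univ.filter (fun i => i ≠ o ∧ i ≠ l ∧ i ≠ l') := by
    ext i
    simp only [mem_erase, mem_univ, mem_filter, true_and, and_true]
    tauto
  rw [h3]
  exact prod_le_prod (fun _ _ => Nat.zero_le _) fun i _ => by
    have := min_le_left (w i) σ
    omega

theorem facet_big {q : ℕ} (hq : Fintype.card ι ≤ q) (o l l' : ι) (hlo : l ≠ o) (hl'o : l' ≠ o)
    (hll' : l ≠ l') (σ : ℕ) (w : ι → ℕ) (hwo : ∀ i, w i ≤ w o) (hwσ : ∀ i, w i ≤ σ)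
    (h2 : 2 * σ ≤ ∑ i, w i) (hl : 0 < w l) (hl' : 0 < w l') :
    w l' * ∏ i ∈ univ.filter (fun i => i ≠ o ∧ i ≠ l ∧ i ≠ l'), (w i + 1) ≤
      (2 * q) ^ q * fc σ w l := by
  have ho : 0 < w o := hl.trans_le (hwo l)
  -- the active coordinates
  have hA3 : 3 ≤ (univ.filter fun i => 0 < w i).card := by
    have hsub : ({o, l, l'} : Finset ι) ⊆ univ.filter fun i => 0 < w i := by
      intro i hi
      simp only [mem_insert, mem_singleton] at hi
      simp only [mem_filter, mem_univ, true_and]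
      rcases hi with rfl | rfl | rfl <;> assumption
    have hc : ({o, l, l'} : Finset ι).card = 3 := by
      rw [card_insert_of_notMem, card_insert_of_notMem, card_singleton]
      · simpa using hll'
      · simp only [mem_insert, mem_singleton, not_or]
        exact ⟨hlo.symm, hl'o.symm⟩
    rw [← hc]
    exact card_le_card hsub
  obtain ⟨N, hN⟩ : ∃ N, (univ.filter fun i => 0 < w i).card = N + 1 :=
    ⟨(univ.filter fun i => 0 < w i).card - 1, by omega⟩
  have hN2 : 2 ≤ N := by omega
  have hNq : N + 1 ≤ q := by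
    rw [← hN]
    exact (card_le_univ _).trans hq
  have hNrm : Nrm N 1 o σ w := ⟨hN, ho, hwo, hwσ, h2, fun i hi => hi⟩
  have hbox := box_lower N hN2 1 o l σ w hNrm hlo hl
  -- split off `l'`
  have hl'mem : l' ∈ univ.filter (fun i => 0 < w i ∧ i ≠ o ∧ i ≠ l) := by
    simp only [mem_filter, mem_univ, true_and]
    exact ⟨hl', hl'o, hll'.symm⟩
  rw [← mul_prod_erase _ _ hl'mem] at hbox
  set P := (univ.filter (fun i => 0 < w i ∧ i ≠ o ∧ i ≠ l)).erase l' with hP
  have hPcard : P.card ≤ N := by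
    have h1 : P.card ≤ ((univ.filter fun i => 0 < w i)).card - 1 := by
      have hs : P ⊆ (univ.filter fun i => 0 < w i).erase l := by
        intro i hi
        simp only [hP, mem_erase, mem_filter, mem_univ, true_and] at hi ⊢
        exact ⟨hi.2.2.2, hi.2.1⟩
      have hlm : l ∈ univ.filter fun i => 0 < w i := by
        simp only [mem_filter, mem_univ, true_and]
        exact hl
      rw [← card_erase_of_mem hlm]
      exact card_le_card hs
    omega
  have hprod : ∏ i ∈ univ.filter (fun i => i ≠ o ∧ i ≠ l ∧ i ≠ l'), (w i + 1) =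
      ∏ i ∈ P, (w i + 1) := by
    symm
    refine prod_subset ?_ ?_
    · intro i hi
      simp only [hP, mem_erase, mem_filter, mem_univ, true_and] at hi ⊢
      exact ⟨hi.2.2.1, hi.2.2.2, hi.1⟩
    · intro i hi hi'
      simp only [hP, mem_erase, mem_filter, mem_univ, true_and] at hi hi'
      have h0 : w i = 0 := by
        by_contra hne
        exact hi' ⟨hi.2.2, Nat.pos_of_ne_zero hne, hi.1, hi.2.1⟩
      rw [h0, zero_add]
  have hP2 : ∏ i ∈ P, (w i + 1) ≤ 2 ^ N * ∏ i ∈ P, w i := by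
    calc ∏ i ∈ P, (w i + 1) ≤ ∏ i ∈ P, (2 * w i) := by
          refine prod_le_prod (fun _ _ => Nat.zero_le _) fun i hi => ?_
          simp only [hP, mem_erase, mem_filter, mem_univ, true_and] at hi
          have := hi.2.1
          omega
      _ = 2 ^ P.card * ∏ i ∈ P, w i := by rw [prod_mul_distrib, prod_const]
      _ ≤ 2 ^ N * ∏ i ∈ P, w i :=
          Nat.mul_le_mul_right _ (Nat.pow_le_pow_right (by norm_num) hPcard)
  rw [hprod]
  calc w l' * ∏ i ∈ P, (w i + 1) ≤ w l' * (2 ^ N * ∏ i ∈ P, w i) :=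
        Nat.mul_le_mul_left _ hP2
    _ = 2 ^ N * (w l' * ∏ i ∈ P, w i) := by ring
    _ ≤ 2 ^ N * (N ^ (N - 1) * fc σ w l) := Nat.mul_le_mul_left _ hbox
    _ = 2 ^ N * N ^ (N - 1) * fc σ w l := by ring
    _ ≤ (2 * q) ^ q * fc σ w l := by
        refine Nat.mul_le_mul_right _ ?_
        rw [mul_pow]
        refine Nat.mul_le_mul (Nat.pow_le_pow_right (by norm_num) (by omega)) ?_
        calc N ^ (N - 1) ≤ q ^ (N - 1) := Nat.pow_le_pow_left (by omega) _
          _ ≤ q ^ q := Nat.pow_le_pow_right (by omega) (by omega)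

end Pool.Agent.H18.Tk

end

section

/-!
# Module Orb (TL): orbits

`common`: the polynomials `∑_κ a κ ∏ X_l^(κ_l)` (`MvPolynomial.monomial`, different exponents for different `κ`) are not zero,
so their product is not zero and has a non-root (`MvPolynomial.funext`).

`(tz b c').mulVec v` at `zb b` is `∑_β v β ∏ c'_l^(β_l)`.  The vector `u = (rv b * tz b c').mulVec v` has this value at the exponent `b`
(`rb (zb b)`).  For any `ψ`, `u`: `ψ ⬝ᵥ (tz b c).mulVec u = ∑_κ A κ ∏ c_l^(κ_l)`, `A κ = ∑_{γ, γ + κ ≤ b} ψ γ (∏ binom(γ_l + κ_l, γ_l)) u (γ + κ)`.  If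
`ψ ≠ 0` and `u (rb (zb b)) ≠ 0`, then `A ≠ 0`: let `γ*` be an exponent with `ψ γ* ≠ 0` and `dg γ*` minimal, `κ = rb γ*`; in `A κ` only the
`γ ≤ γ*` occur, so only `γ = γ*`: `A κ = ψ γ* binom(b, γ*) u b ≠ 0`.  If `ψ (zb b) ≠ 0` and `u ≠ 0`, then `A ≠ 0`: let `κ` be an
exponent with `u κ ≠ 0` and `dg κ` maximal: only `γ = 0` contributes (for `γ ≠ 0` the exponent `γ + κ` has a larger degree).
`orb`: choose `c'` with `((tz b c').mulVec v) (zb b) ≠ 0` and `ξ ᵥ* tz b (-c') * rv b` not `0` at `zb b`: the latter is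
`∑_γ ξ γ (tz b (-c')) γ (rb (zb b)) = ∑_γ ξ γ binom(b, γ) ∏ (-c'_l)^(b_l - γ_l)`, a nonzero polynomial in `c'` (`common` with
`a κ = ± ξ (rb κ) binom(b, rb κ)`).  Then choose `c` by `common` for the two families `A`, the second one at `-c` (sign `(-1)^(dg κ)`).
`orb2`: choose `c'` for `v`, then `c` by `common` for `ψ₁`, `ψ₂` and `u`.
-/

namespace Pool.Agent.H18.Tl

open Finset Polynomial Matrix

variable {τ : Type} [Fintype τ] [DecidableEq τ] {b : τ → ℕ}

/-- the exponent of a box as a finitely supported function -/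
private noncomputable def Orb_e (κ : Box b) : τ →₀ ℕ :=
  Finsupp.equivFunOnFinite.symm fun l => (κ l : ℕ)

omit [DecidableEq τ] in
private theorem Orb_e_inj (κ κ' : Box b) (h : Orb_e κ = Orb_e κ') : κ = κ' := by
  funext l
  have h1 := DFunLike.congr_fun h l
  exact Fin.ext h1

/-- the polynomial with the coefficients `A` -/
private noncomputable def Orb_p (A : Box b → ℂ) : MvPolynomial τ ℂ :=
  ∑ κ, MvPolynomial.monomial (Orb_e κ) (A κ)

private theorem Orb_p_eval (A : Box b → ℂ) (c : τ → ℂ) :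
    MvPolynomial.eval c (Orb_p A) = ∑ κ, A κ * ∏ l, c l ^ (κ l : ℕ) := by
  unfold Orb_p
  rw [map_sum]
  refine Finset.sum_congr rfl fun κ _ => ?_
  rw [MvPolynomial.eval_monomial, Finsupp.prod_fintype _ _ (fun i => pow_zero _)]
  rfl

private theorem Orb_p_ne (A : Box b → ℂ) (hA : A ≠ 0) : Orb_p A ≠ 0 := by
  obtain ⟨κ, hκ⟩ := Function.ne_iff.mp hA
  intro h
  apply hκ
  have h1 : (Orb_p A).coeff (Orb_e κ) = A κ := by
    classical
    unfold Orb_p
    rw [MvPolynomial.coeff_sum, Finset.sum_eq_single κ]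
    · rw [MvPolynomial.coeff_monomial, if_pos rfl]
    · intro κ' _ hne
      rw [MvPolynomial.coeff_monomial, if_neg]
      intro h2
      exact hne (Orb_e_inj _ _ h2)
    · intro h2
      exact absurd (Finset.mem_univ κ) h2
  rw [← h1, h]
  rfl

theorem common (A A' : Box b → ℂ) (hA : A ≠ 0) (hA' : A' ≠ 0) :
    ∃ c : τ → ℂ, ∑ κ, A κ * ∏ l, c l ^ (κ l : ℕ) ≠ 0 ∧ ∑ κ, A' κ * ∏ l, c l ^ (κ l : ℕ) ≠ 0 := by
  have h := mul_ne_zero (Orb_p_ne A hA) (Orb_p_ne A' hA')
  by_contra hc
  push Not at hc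
  apply h
  refine MvPolynomial.funext fun c => ?_
  rw [map_mul, Orb_p_eval, Orb_p_eval, map_zero]
  by_cases h1 : ∑ κ, A κ * ∏ l, c l ^ (κ l : ℕ) = 0
  · rw [h1, zero_mul]
  · rw [hc c h1, mul_zero]

/-- the coefficients of the polynomial `c ↦ ψ ⬝ᵥ (tz b c).mulVec u` -/
private noncomputable def Orb_A (ψ u : Box b → ℂ) (κ : Box b) : ℂ :=
  ∑ γ : Box b, ∑ β : Box b, if ∀ l, (γ l : ℕ) + κ l = β l then
    ψ γ * (∏ l, (((β l : ℕ).choose (γ l : ℕ) : ℕ) : ℂ)) * u β else 0

private theorem Orb_A_eq (ψ u : Box b → ℂ) (c : τ → ℂ) :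
    ψ ⬝ᵥ (tz b c).mulVec u = ∑ κ, Orb_A ψ u κ * ∏ l, c l ^ (κ l : ℕ) := by
  have h1 : ∀ γ β : Box b, ψ γ * (tz b c γ β * u β) =
      ∑ κ : Box b, (if ∀ l, (γ l : ℕ) + κ l = β l then
        ψ γ * (∏ l, (((β l : ℕ).choose (γ l : ℕ) : ℕ) : ℂ)) * u β else 0) *
          ∏ l, c l ^ (κ l : ℕ) := by
    intro γ β
    by_cases h : ∀ l, (γ l : ℕ) ≤ β l
    · have hb : ∀ l, (β l : ℕ) - (γ l : ℕ) < b l + 1 := fun l => by
        have := (β l).isLt
        omega
      rw [Finset.sum_eq_single (fun l => (⟨(β l : ℕ) - (γ l : ℕ), hb l⟩ : Fin (b l + 1)))]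
      · rw [if_pos (fun l => by
          have := h l
          show (γ l : ℕ) + ((β l : ℕ) - (γ l : ℕ)) = β l
          omega)]
        unfold tz
        rw [Finset.prod_mul_distrib]
        ring
      · intro κ _ hne
        rw [if_neg, zero_mul]
        intro h2
        apply hne
        funext l
        apply Fin.ext
        have := h2 l
        show (κ l : ℕ) = (β l : ℕ) - (γ l : ℕ)
        omega
      · intro h2
        exact absurd (Finset.mem_univ _) h2
    · rw [tz_eq_zero c γ β h, zero_mul, mul_zero]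
      symm
      refine Finset.sum_eq_zero fun κ _ => ?_
      rw [if_neg, zero_mul]
      intro h2
      exact h fun l => by
        have := h2 l
        omega
  calc ψ ⬝ᵥ (tz b c).mulVec u = ∑ γ, ∑ β, ψ γ * (tz b c γ β * u β) := by
        simp only [dotProduct, mulVec, Finset.mul_sum]
    _ = ∑ γ, ∑ β, ∑ κ : Box b, (if ∀ l, (γ l : ℕ) + κ l = β l then
        ψ γ * (∏ l, (((β l : ℕ).choose (γ l : ℕ) : ℕ) : ℂ)) * u β else 0) *
          ∏ l, c l ^ (κ l : ℕ) :=
        Finset.sum_congr rfl fun γ _ => Finset.sum_congr rfl fun β _ => h1 γ β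
    _ = ∑ κ : Box b, ∑ γ, ∑ β, (if ∀ l, (γ l : ℕ) + κ l = β l then
        ψ γ * (∏ l, (((β l : ℕ).choose (γ l : ℕ) : ℕ) : ℂ)) * u β else 0) *
          ∏ l, c l ^ (κ l : ℕ) := by
        rw [Finset.sum_congr rfl fun (γ : Box b) _ => Finset.sum_comm]
        exact Finset.sum_comm
    _ = _ := by
        refine Finset.sum_congr rfl fun κ _ => ?_
        unfold Orb_A
        rw [Finset.sum_mul]
        exact Finset.sum_congr rfl fun γ _ => (Finset.sum_mul _ _ _).symm

omit [DecidableEq τ] in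
private theorem Orb_choose_ne (β γ : Box b) (h : ∀ l, (γ l : ℕ) ≤ β l) :
    (∏ l, (((β l : ℕ).choose (γ l : ℕ) : ℕ) : ℂ)) ≠ 0 :=
  Finset.prod_ne_zero_iff.mpr fun l _ => Nat.cast_ne_zero.mpr (Nat.choose_pos (h l)).ne'

omit [DecidableEq τ] in
private theorem Orb_dg_lt {γ β : Box b} (h : ∀ l, (γ l : ℕ) ≤ β l) (hne : γ ≠ β) :
    dg γ < dg β := by
  obtain ⟨l, hl⟩ := Function.ne_iff.mp hne
  refine Finset.sum_lt_sum (fun l _ => h l) ⟨l, Finset.mem_univ l, ?_⟩
  exact lt_of_le_of_ne (h l) fun h2 => hl (Fin.ext h2)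

private theorem Orb_A_ne1 (ψ u : Box b → ℂ) (hψ : ψ ≠ 0) (hu : u (rb (zb b)) ≠ 0) :
    Orb_A ψ u ≠ 0 := by
  classical
  obtain ⟨γ₁, hγ₁⟩ := Function.ne_iff.mp hψ
  obtain ⟨γ, hγ, hmin⟩ := Finset.exists_min_image
    (Finset.univ.filter fun γ : Box b => ψ γ ≠ 0) dg ⟨γ₁, by simpa using hγ₁⟩
  have hγ0 : ψ γ ≠ 0 := (Finset.mem_filter.mp hγ).2
  intro h
  have h1 := congrFun h (rb γ)
  have hval : ∀ (δ : Box b) (l : τ), ((rb δ l : Fin (b l + 1)) : ℕ) = b l - δ l := by
    intro δ l
    unfold rb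
    rw [Fin.val_rev]
    omega
  have h2 : Orb_A ψ u (rb γ) =
      ψ γ * (∏ l, ((((rb (zb b) : Box b) l : ℕ).choose (γ l : ℕ) : ℕ) : ℂ)) * u (rb (zb b)) := by
    unfold Orb_A
    rw [Finset.sum_eq_single γ, Finset.sum_eq_single (rb (zb b))]
    · rw [if_pos]
      intro l
      rw [hval, hval]
      have := (γ l).isLt
      show (γ l : ℕ) + (b l - γ l) = b l - 0
      omega
    · intro β _ hne
      rw [if_neg]
      intro h3
      apply hne
      funext l
      apply Fin.ext
      have h4 := h3 l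
      rw [hval] at h4
      rw [hval]
      have := (γ l).isLt
      show (β l : ℕ) = b l - 0
      omega
    · intro h3
      exact absurd (Finset.mem_univ _) h3
    · intro δ _ hne
      refine Finset.sum_eq_zero fun β _ => ?_
      split_ifs with h3
      · have h4 : ∀ l, (δ l : ℕ) ≤ γ l := by
          intro l
          have h5 := h3 l
          rw [hval] at h5
          have h6 := (β l).isLt
          have h7 := (γ l).isLt
          omega
        have h5 := Orb_dg_lt h4 hne
        have h6 : ψ δ = 0 := by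
          by_contra h7
          have h8 := hmin δ (Finset.mem_filter.mpr ⟨Finset.mem_univ _, h7⟩)
          omega
        rw [h6, zero_mul, zero_mul]
      · rfl
    · intro h3
      exact absurd (Finset.mem_univ _) h3
  rw [h2] at h1
  refine mul_ne_zero (mul_ne_zero hγ0 (Orb_choose_ne _ _ fun l => ?_)) hu h1
  rw [hval]
  have := (γ l).isLt
  show (γ l : ℕ) ≤ b l - 0
  omega

private theorem Orb_A_ne2 (ψ u : Box b → ℂ) (hψ : ψ (zb b) ≠ 0) (hu : u ≠ 0) :
    Orb_A ψ u ≠ 0 := by
  classical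
  obtain ⟨κ₁, hκ₁⟩ := Function.ne_iff.mp hu
  obtain ⟨κ, hκ, hmax⟩ := Finset.exists_max_image
    (Finset.univ.filter fun κ : Box b => u κ ≠ 0) dg ⟨κ₁, by simpa using hκ₁⟩
  have hκ0 : u κ ≠ 0 := (Finset.mem_filter.mp hκ).2
  intro h
  have h1 := congrFun h κ
  have hz : ∀ l, ((zb b l : Fin (b l + 1)) : ℕ) = 0 := fun l => rfl
  have h2 : Orb_A ψ u κ = ψ (zb b) * (∏ l, (((κ l : ℕ).choose (zb b l : ℕ) : ℕ) : ℂ)) * u κ := by
    unfold Orb_A
    rw [Finset.sum_eq_single (zb b), Finset.sum_eq_single κ]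
    · rw [if_pos]
      intro l
      rw [hz, zero_add]
    · intro β _ hne
      rw [if_neg]
      intro h3
      apply hne
      funext l
      apply Fin.ext
      have h4 := h3 l
      rw [hz, zero_add] at h4
      exact h4.symm
    · intro h3
      exact absurd (Finset.mem_univ _) h3
    · intro δ _ hne
      refine Finset.sum_eq_zero fun β _ => ?_
      split_ifs with h3
      · have h4 : ∀ l, (κ l : ℕ) ≤ β l := fun l => by
          have := h3 l
          omega
        have h5 : κ ≠ β := by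
          rintro rfl
          apply hne
          funext l
          apply Fin.ext
          have := h3 l
          rw [hz]
          omega
        have h6 := Orb_dg_lt h4 h5
        have h7 : u β = 0 := by
          by_contra h8
          have h9 := hmax β (Finset.mem_filter.mpr ⟨Finset.mem_univ _, h8⟩)
          omega
        rw [h7, mul_zero]
      · rfl
    · intro h3
      exact absurd (Finset.mem_univ _) h3
  rw [h2] at h1
  refine mul_ne_zero (mul_ne_zero hψ (Orb_choose_ne _ _ fun l => ?_)) hκ0 h1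
  rw [hz]
  exact Nat.zero_le _

private theorem Orb_neg (A : Box b → ℂ) (c : τ → ℂ) :
    ∑ κ, A κ * ∏ l, (-c) l ^ (κ l : ℕ) =
      ∑ κ, (A κ * ∏ l, (-1 : ℂ) ^ (κ l : ℕ)) * ∏ l, c l ^ (κ l : ℕ) := by
  refine Finset.sum_congr rfl fun κ _ => ?_
  rw [mul_assoc, ← Finset.prod_mul_distrib]
  congr 1
  refine Finset.prod_congr rfl fun l _ => ?_
  rw [Pi.neg_apply, neg_pow]

omit [DecidableEq τ] in
private theorem Orb_neg_ne (A : Box b → ℂ) (hA : A ≠ 0) :
    (fun κ : Box b => A κ * ∏ l, (-1 : ℂ) ^ (κ l : ℕ)) ≠ 0 := by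
  obtain ⟨κ, hκ⟩ := Function.ne_iff.mp hA
  refine Function.ne_iff.mpr ⟨κ, mul_ne_zero hκ (Finset.prod_ne_zero_iff.mpr fun l _ => ?_)⟩
  exact pow_ne_zero _ (neg_ne_zero.mpr one_ne_zero)

private theorem Orb_v (v : Box b → ℂ) (c : τ → ℂ) :
    (tz b c).mulVec v (zb b) = ∑ κ, v κ * ∏ l, c l ^ (κ l : ℕ) := by
  simp only [mulVec, dotProduct]
  refine Finset.sum_congr rfl fun κ _ => ?_
  rw [mul_comm]
  congr 1
  unfold tz
  refine Finset.prod_congr rfl fun l _ => ?_
  show ((((κ l : ℕ).choose 0 : ℕ) : ℂ) * c l ^ ((κ l : ℕ) - 0)) = _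
  rw [Nat.choose_zero_right, Nat.sub_zero, Nat.cast_one, one_mul]

private theorem Orb_u (v : Box b → ℂ) (c : τ → ℂ) :
    (rv b * tz b c).mulVec v (rb (zb b)) = ∑ κ, v κ * ∏ l, c l ^ (κ l : ℕ) := by
  rw [← mulVec_mulVec, rv_mulVec, rb_rb, Orb_v]

private theorem Orb_xi (ξ : Box b → ℂ) (c : τ → ℂ) :
    (ξ ᵥ* (tz b c * rv b)) (zb b) = ∑ κ, (ξ (rb κ) *
      ∏ l, ((((rb (zb b) : Box b) l : ℕ).choose ((rb κ : Box b) l : ℕ) : ℕ) : ℂ)) *
        ∏ l, c l ^ (κ l : ℕ) := by
  rw [← vecMul_vecMul]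
  have h1 : ∀ (w : Box b → ℂ), (w ᵥ* rv b) (zb b) = w (rb (zb b)) := by
    intro w
    simp only [vecMul, dotProduct, rv, mul_ite, mul_one, mul_zero]
    rw [Finset.sum_ite_eq' Finset.univ, if_pos (Finset.mem_univ _)]
  rw [h1]
  simp only [vecMul, dotProduct]
  rw [← Equiv.sum_comp (Function.Involutive.toPerm rb rb_rb)]
  refine Finset.sum_congr rfl fun κ _ => ?_
  show ξ (rb κ) * tz b c (rb κ) (rb (zb b)) = _
  rw [mul_assoc]
  congr 1
  unfold tz
  rw [← Finset.prod_mul_distrib]
  refine Finset.prod_congr rfl fun l _ => ?_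
  congr 2
  unfold rb
  rw [Fin.val_rev, Fin.val_rev]
  have := (κ l).isLt
  show b l + 1 - (0 + 1) - (b l + 1 - ((κ l : ℕ) + 1)) = κ l
  omega

theorem orb (v w ψ ξ : Box b → ℂ) (hv : v ≠ 0) (hw : w ≠ 0) (hψ : ψ ≠ 0) (hξ : ξ ≠ 0) :
    ∃ c c' : τ → ℂ, ψ ⬝ᵥ (tz b c * rv b * tz b c').mulVec v ≠ 0 ∧
      ξ ⬝ᵥ (tz b (-c') * rv b * tz b (-c)).mulVec w ≠ 0 := by
  have hv' : ∃ c' : τ → ℂ, ∑ κ, v κ * ∏ l, c' l ^ (κ l : ℕ) ≠ 0 ∧
      (ξ ᵥ* (tz b (-c') * rv b)) (zb b) ≠ 0 := by
    have h1 : (fun κ : Box b => ξ (rb κ) *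
        ∏ l, ((((rb (zb b) : Box b) l : ℕ).choose ((rb κ : Box b) l : ℕ) : ℕ) : ℂ)) ≠ 0 := by
      obtain ⟨γ, hγ⟩ := Function.ne_iff.mp hξ
      refine Function.ne_iff.mpr ⟨rb γ, mul_ne_zero ?_ (Orb_choose_ne _ _ fun l => ?_)⟩
      · rw [rb_rb]
        exact hγ
      · unfold rb
        rw [Fin.val_rev, Fin.val_rev]
        show _ ≤ b l + 1 - (0 + 1)
        omega
    obtain ⟨c', h2, h3⟩ := common v _ hv (Orb_neg_ne _ h1)
    refine ⟨c', h2, ?_⟩
    rw [Orb_xi, Orb_neg]
    exact h3
  obtain ⟨c', h1, h2⟩ := hv'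
  have h3 : Orb_A ψ ((rv b * tz b c').mulVec v) ≠ 0 := by
    refine Orb_A_ne1 _ _ hψ ?_
    rw [Orb_u]
    exact h1
  have h4 : Orb_A (ξ ᵥ* (tz b (-c') * rv b)) w ≠ 0 := Orb_A_ne2 _ _ h2 hw
  obtain ⟨c, h5, h6⟩ := common _ _ h3 (Orb_neg_ne _ h4)
  refine ⟨c, c', ?_, ?_⟩
  · rw [mul_assoc, ← mulVec_mulVec, Orb_A_eq]
    exact h5
  · rw [← mulVec_mulVec, dotProduct_mulVec, Orb_A_eq, Orb_neg]
    exact h6

theorem orb2 (v ψ₁ ψ₂ : Box b → ℂ) (hv : v ≠ 0) (hψ₁ : ψ₁ ≠ 0) (hψ₂ : ψ₂ ≠ 0) :
    ∃ c c' : τ → ℂ, ψ₁ ⬝ᵥ (tz b c * rv b * tz b c').mulVec v ≠ 0 ∧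
      ψ₂ ⬝ᵥ (tz b c * rv b * tz b c').mulVec v ≠ 0 := by
  obtain ⟨c', h1, -⟩ := common v v hv hv
  have h2 : (rv b * tz b c').mulVec v (rb (zb b)) ≠ 0 := by
    rw [Orb_u]
    exact h1
  obtain ⟨c, h3, h4⟩ := common _ _ (Orb_A_ne1 ψ₁ _ hψ₁ h2) (Orb_A_ne1 ψ₂ _ hψ₂ h2)
  refine ⟨c, c', ?_, ?_⟩
  · rw [mul_assoc, ← mulVec_mulVec, Orb_A_eq]
    exact h3
  · rw [mul_assoc, ← mulVec_mulVec, Orb_A_eq]
    exact h4

end Pool.Agent.H18.Tl

end
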