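import Pool.Agent.H94.LP4.M49
import Pool.Agent.H94.LP4.M73

/-! The parts of this file: H18.Tk.ChooseN, H18.Tl.BalQ, H18.Tl.LmC. -/

section

/-!
# Module C9 (TK): the numbers of steps

`R = w2 / w1 + 1` (so `R ≥ 2`, `w2 < R w1`, `R w1 ≤ 2 w2`), `β = 4 B R`, `σ' = σ - (M + 1)`,
`n1 = min (w1 - (M + 1) - B) ((σ' - β) / 2)`, `n2 = min (w2 - β) (σ' - β - n1)`, `a = w1 - (M + 1) - n1`, `b = w2 - n2`,
`s = σ' - n1 - n2`, `g = (n1 + n2) / n1`, `J = (M + 1) (g + 3)`.  (Checked numerically.)  `β w1 ≤ 8 B w2`, so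
`β ≤ w2 / 8`; `b ≥ β`, `s ≥ β`, and `b = β` or `s = β`.
* If `n1 = w1 - (M + 1) - B`: `a = B`, `n1 ≥ (31 / 32) w1`, `n2 ≤ w2 ≤ R w1`, `g ≤ 2 R + 1 ≤ 3 R`, `Q g ≤ (B / 2) 3 R ≤ β`;
  `J ≤ (M + 1) (3 R + 3) ≤ 6 B R`; `min a … + 1 ≤ B + 4 (M + 1) + 1 ≤ 6 B`, `min b s + J + 1 ≤ 4 B R + 6 B R + 1 ≤ 11 B R`:
  the product is at most `66 B² R ≤ 132 B² w2 / w1`, and `C (132 B² w2 / w1 + X) ≤ w2`.
* If `n1 = (σ' - β) / 2 < w1 - (M + 1) - B`: `n2 ≤ n1 + 1`, `g ≤ 3`; `n1 ≥ (2 / 5) w2`, so `R ≤ 3`; `J ≤ 6 B R`; either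
  `s = β`, or `b = β` and `s ≤ 2 β` (`w2 - β ≤ n1 + 1`, `w2 ≥ w1 > n1 + B + M + 1`, `σ' ≤ 2 n1 + 1 + β`): the product is at
  most `(15 B R) (11 B R) ≤ 1485 B²`, and `C (1485 B² + X) ≤ w1 ≤ w2`.
* `n1 ≤ 2 n2`: if `n2 = σ' - β - n1` then `n2 ≥ n1`; if `n2 = w2 - β` then `n2 ≥ (7 / 8) w2`, `n1 ≤ w1 ≤ w2`.
* `J ≤ n1 + n2`: `(M + 1) (g + 3) ≤ 4 (M + 1) g ≤ n1 g ≤ n1 + n2`.
-/

namespace Pool.Agent.H18.Tk

/-- The bound. -/
def dC (B C X : ℕ) : ℕ := 3000 * C * B ^ 2 + 2 * C * X + 100 * B + 8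

/-- The final assembly: `g = (n1 + n2) / n1` is at most `G`. -/
private theorem ChooseN_fin (M B Q C X w2 n1 n2 a b s β G K : ℕ) (_hB : 1 ≤ B) (hQB : 2 * Q ≤ B)
    (hMB : M + 1 ≤ B) (hn1 : 4 * B ≤ n1) (hG : (n1 + n2) / n1 ≤ G) (hβG : B * G ≤ 2 * β)
    (hb : β ≤ b) (hs : β ≤ s) (hbs : b = β ∨ s = β)
    (hK : min (a + 4 * (M + 1)) (s + B * (G + 3)) + 1 ≤ K)
    (hfin : C * (K * (β + B * (G + 3) + 1) + X) ≤ w2) :
    Q * ((n1 + n2) / n1) ≤ b ∧ Q * ((n1 + n2) / n1) ≤ s ∧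
      (M + 1) * ((n1 + n2) / n1 + 3) ≤ n1 + n2 ∧
      C * ((min (a + 4 * (M + 1)) (s + (M + 1) * ((n1 + n2) / n1 + 3)) + 1) *
        (min b s + (M + 1) * ((n1 + n2) / n1 + 3) + 1) + X) ≤ w2 := by
  have hn0 : 0 < n1 := by omega
  obtain ⟨g, hg⟩ : ∃ g, g = (n1 + n2) / n1 := ⟨_, rfl⟩
  have hg1 : 1 ≤ g := by
    rw [hg]
    exact Nat.div_pos (by omega) hn0
  have hg2 : g * n1 ≤ n1 + n2 := by
    rw [hg]
    exact Nat.div_mul_le_self _ _
  rw [← hg] at hG ⊢
  have hQ : Q * g ≤ β := by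
    have h1 : 2 * (Q * g) ≤ B * G := by
      calc 2 * (Q * g) = (2 * Q) * g := by ring
        _ ≤ B * G := Nat.mul_le_mul hQB hG
    omega
  have hJ : (M + 1) * (g + 3) ≤ B * (G + 3) := Nat.mul_le_mul hMB (by omega)
  refine ⟨hQ.trans hb, hQ.trans hs, ?_, ?_⟩
  · have h1 : (M + 1) * (g + 3) ≤ B * (4 * g) := Nat.mul_le_mul hMB (by omega)
    have h2 : B * (4 * g) = g * (4 * B) := by ring
    have h3 : g * (4 * B) ≤ g * n1 := Nat.mul_le_mul_left _ hn1
    omega
  · refine le_trans (Nat.mul_le_mul_left _ (Nat.add_le_add_right (Nat.mul_le_mul ?_ ?_) _)) hfin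
    · refine le_trans (Nat.add_le_add_right (min_le_min le_rfl (Nat.add_le_add_left hJ _)) _) hK
    · have h1 : min b s ≤ β := by
        rcases hbs with h | h
        · exact (min_le_left _ _).trans h.le
        · exact (min_le_right _ _).trans h.le
      omega

theorem choose_n (M B Q C X w1 w2 σ : ℕ) (hQB : 2 * Q ≤ B) (hMB : M + 1 ≤ B)
    (hD : dC B C X ≤ w1) (h12 : w1 ≤ w2) (h2 : w2 ≤ σ) :
    ∃ n1 n2 a b s : ℕ, a + n1 + (M + 1) = w1 ∧ b + n2 = w2 ∧ s + n1 + n2 + (M + 1) = σ ∧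
      1 ≤ n1 ∧ n1 ≤ 2 * n2 ∧ B ≤ a ∧ B ≤ b ∧ B ≤ s ∧
      Q * ((n1 + n2) / n1) ≤ b ∧ Q * ((n1 + n2) / n1) ≤ s ∧
      (M + 1) * ((n1 + n2) / n1 + 3) ≤ n1 + n2 ∧
      C * ((min (a + 4 * (M + 1)) (s + (M + 1) * ((n1 + n2) / n1 + 3)) + 1) *
        (min b s + (M + 1) * ((n1 + n2) / n1 + 3) + 1) + X) ≤ w2 := by
  unfold dC at hD
  have hB : 1 ≤ B := by omega
  have hw1 : 0 < w1 := by omega
  have hBw : 100 * B + 8 ≤ w1 := by omega
  obtain ⟨R, hR⟩ : ∃ R, R = w2 / w1 + 1 := ⟨_, rfl⟩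
  have hR2 : 2 ≤ R := by
    have h := Nat.div_pos h12 hw1
    omega
  have hRlt : w2 < R * w1 := by
    rw [hR, mul_comm]
    exact Nat.lt_mul_div_succ w2 hw1
  have hRle : R * w1 ≤ 2 * w2 := by
    have h := Nat.div_mul_le_self w2 w1
    rw [hR, add_mul, one_mul]
    omega
  obtain ⟨β, hβ⟩ : ∃ β, β = 4 * B * R := ⟨_, rfl⟩
  have hBR : B ≤ B * R := Nat.le_mul_of_pos_right _ (by omega)
  have hBR2 : 2 * B ≤ B * R := by
    rw [mul_comm]
    exact Nat.mul_le_mul_left _ hR2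
  have hβ4 : β = 4 * (B * R) := by rw [hβ]; ring
  have hβw : 25 * β ≤ 2 * w2 := by
    have h1 : B * (100 * β) ≤ B * (8 * w2) := by
      calc B * (100 * β) = (100 * B) * β := by ring
        _ ≤ w1 * β := Nat.mul_le_mul_right _ (by omega)
        _ = (4 * B) * (R * w1) := by rw [hβ]; ring
        _ ≤ (4 * B) * (2 * w2) := Nat.mul_le_mul_left _ hRle
        _ = B * (8 * w2) := by ring
    have h2 := Nat.le_of_mul_le_mul_left h1 hB
    omega
  have hCB : 3000 * C * B ^ 2 + 2 * C * X ≤ w1 := by omega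
  rcases le_total (w1 - (M + 1) - B) ((σ - (M + 1) - β) / 2) with hA | hA
  · -- the first case
    have hfin : C * (6 * B * (β + B * (2 * R + 1 + 3) + 1) + X) ≤ w2 := by
      have h1 : β + B * (2 * R + 1 + 3) + 1 ≤ 11 * (B * R) := by
        have h3 : B * (2 * R + 1 + 3) = 2 * (B * R) + 4 * B := by ring
        rw [h3]
        omega
      have h2 : 6 * B * (β + B * (2 * R + 1 + 3) + 1) ≤ 66 * (B ^ 2 * R) := by
        calc 6 * B * (β + B * (2 * R + 1 + 3) + 1) ≤ 6 * B * (11 * (B * R)) :=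
              Nat.mul_le_mul_left _ h1
          _ = 66 * (B ^ 2 * R) := by ring
      have h3 : C * (6 * B * (β + B * (2 * R + 1 + 3) + 1) + X) ≤ 66 * (C * B ^ 2 * R) + C * X := by
        calc C * (6 * B * (β + B * (2 * R + 1 + 3) + 1) + X) ≤ C * (66 * (B ^ 2 * R) + X) :=
              Nat.mul_le_mul_left _ (by omega)
          _ = 66 * (C * B ^ 2 * R) + C * X := by ring
      have h4 : 3000 * (C * B ^ 2 * R) ≤ 2 * w2 := by
        calc 3000 * (C * B ^ 2 * R) = R * (3000 * C * B ^ 2) := by ring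
          _ ≤ R * w1 := Nat.mul_le_mul_left _ (by omega)
          _ ≤ 2 * w2 := hRle
      have h5 : 2 * (C * X) ≤ w2 := by
        have h6 : 2 * (C * X) = 2 * C * X := by ring
        omega
      omega
    have hG : ∀ n1 n2 : ℕ, n1 = w1 - (M + 1) - B → n2 ≤ w2 → (n1 + n2) / n1 ≤ 2 * R + 1 := by
      intro n1 n2 h1 h2
      have h3 : w1 ≤ 2 * n1 := by omega
      have h4 : n1 + n2 ≤ (2 * R + 1) * n1 := by
        have h5 : R * w1 ≤ R * (2 * n1) := Nat.mul_le_mul_left _ h3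
        have h6 : (2 * R + 1) * n1 = R * (2 * n1) + n1 := by ring
        omega
      exact Nat.div_le_of_le_mul (by rw [mul_comm]; exact h4)
    have hβG : B * (2 * R + 1) ≤ 2 * β := by
      have h3 : B * (2 * R + 1) = 2 * (B * R) + B := by ring
      omega
    rcases le_total (w2 - β) (σ - (M + 1) - β - (w1 - (M + 1) - B)) with hn | hn
    · refine ⟨w1 - (M + 1) - B, w2 - β, B, β, σ - (M + 1) - (w1 - (M + 1) - B) - (w2 - β),
        by omega, by omega, by omega, by omega, by omega, by omega, by omega, by omega, ?_⟩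
      refine ChooseN_fin M B Q C X w2 _ _ _ _ _ β (2 * R + 1) (6 * B) hB hQB hMB (by omega)
        (hG _ _ rfl (by omega)) hβG (by omega) (by omega) (by omega) ?_ hfin
      refine le_trans (Nat.add_le_add_right (min_le_left _ _) _) ?_
      omega
    · refine ⟨w1 - (M + 1) - B, σ - (M + 1) - β - (w1 - (M + 1) - B), B,
        w2 - (σ - (M + 1) - β - (w1 - (M + 1) - B)), β,
        by omega, by omega, by omega, by omega, by omega, by omega, by omega, by omega, ?_⟩
      refine ChooseN_fin M B Q C X w2 _ _ _ _ _ β (2 * R + 1) (6 * B) hB hQB hMB (by omega)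
        (hG _ _ rfl (by omega)) hβG (by omega) (by omega) (by omega) ?_ hfin
      refine le_trans (Nat.add_le_add_right (min_le_left _ _) _) ?_
      omega
  · -- the second case
    obtain ⟨n1, hn1⟩ : ∃ n1, n1 = (σ - (M + 1) - β) / 2 := ⟨_, rfl⟩
    have hn1a : 2 * n1 ≤ σ - (M + 1) - β := by omega
    have hn1b : σ - (M + 1) - β ≤ 2 * n1 + 1 := by omega
    have hn1c : 2 * w2 ≤ 5 * n1 := by omega
    have hR3 : R ≤ 3 := by
      have h1 : w2 / w1 ≤ 2 := by
        have h2 : w2 / w1 < 3 := by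
          rw [Nat.div_lt_iff_lt_mul hw1]
          omega
        omega
      omega
    have hBR3 : B * R ≤ 3 * B := by
      rw [mul_comm 3 B]
      exact Nat.mul_le_mul_left _ hR3
    have hfin : C * (45 * B * (β + B * (3 + 3) + 1) + X) ≤ w2 := by
      have h1 : β + B * (3 + 3) + 1 ≤ 33 * B := by omega
      have h2 : 45 * B * (β + B * (3 + 3) + 1) ≤ 1485 * B ^ 2 := by
        calc 45 * B * (β + B * (3 + 3) + 1) ≤ 45 * B * (33 * B) := Nat.mul_le_mul_left _ h1
          _ = 1485 * B ^ 2 := by ring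
      have h3 : C * (45 * B * (β + B * (3 + 3) + 1) + X) ≤ 1485 * (C * B ^ 2) + C * X := by
        calc C * (45 * B * (β + B * (3 + 3) + 1) + X) ≤ C * (1485 * B ^ 2 + X) :=
              Nat.mul_le_mul_left _ (by omega)
          _ = 1485 * (C * B ^ 2) + C * X := by ring
      have h4 : 3000 * C * B ^ 2 = 3000 * (C * B ^ 2) := by ring
      have h5 : 2 * C * X = 2 * (C * X) := by ring
      omega
    have hG : ∀ n2 : ℕ, n2 ≤ n1 + 1 → (n1 + n2) / n1 ≤ 3 := by
      intro n2 h2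
      exact Nat.div_le_of_le_mul (by omega)
    have hβG : B * 3 ≤ 2 * β := by omega
    rw [← hn1] at hA
    rcases le_total (w2 - β) (σ - (M + 1) - β - n1) with hn | hn
    · refine ⟨n1, w2 - β, w1 - (M + 1) - n1, β, σ - (M + 1) - n1 - (w2 - β),
        by omega, by omega, by omega, by omega, by omega, by omega, by omega, by omega, ?_⟩
      refine ChooseN_fin M B Q C X w2 _ _ _ _ _ β 3 (45 * B) hB hQB hMB (by omega)
        (hG _ (by omega)) hβG (by omega) (by omega) (by omega) ?_ hfin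
      refine le_trans (Nat.add_le_add_right (min_le_right _ _) _) ?_
      omega
    · refine ⟨n1, σ - (M + 1) - β - n1, w1 - (M + 1) - n1, w2 - (σ - (M + 1) - β - n1), β,
        by omega, by omega, by omega, by omega, by omega, by omega, by omega, by omega, ?_⟩
      refine ChooseN_fin M B Q C X w2 _ _ _ _ _ β 3 (45 * B) hB hQB hMB (by omega)
        (hG _ (by omega)) hβG (by omega) (by omega) (by omega) ?_ hfin
      refine le_trans (Nat.add_le_add_right (min_le_right _ _) _) ?_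
      omega

end Pool.Agent.H18.Tk

end

section

/-!
# Module BalQ (TL): balanced weights over the rational numbers

`weightsQ`: copy `Pool/Agent/H18/Tj/Bal.lean` (`exists_weights` and the private lemmas it uses) with `ℝ` replaced by `ℚ`.

`weightsN`: common denominators: for each `m ≤ M` apply `weightsQ` to `W m`, and let `N` be the product of all denominators
(`m ≤ M`, `u < ℓ`); `n m u = N * a_u` is a natural number (`a_u ≥ 0`).  Multiply the equations by `N ℓ`.
-/

namespace Pool.Agent.H18.Tl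

open Finset Pool.Agent.H18.Ta

/-- The difference of the values at `s` and `s + 1`, up to the term with `a (s + 1)`. -/
private def BalQ_X (ℓ : ℕ) (d a : ℕ → ℚ) (s : ℕ) : ℚ :=
  ∑ u ∈ range (s + 1), a u * d (s - u) - (1 - ∑ u ∈ range (s + 1), a u) * d (ℓ - 2 - s)

private theorem BalQ_X_congr (ℓ : ℕ) (d : ℕ → ℚ) {a b : ℕ → ℚ} {s : ℕ}
    (h : ∀ u ≤ s, a u = b u) : BalQ_X ℓ d a s = BalQ_X ℓ d b s := by
  unfold BalQ_X
  have h1 : ∑ u ∈ range (s + 1), a u * d (s - u) = ∑ u ∈ range (s + 1), b u * d (s - u) :=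
    sum_congr rfl fun u hu => by rw [h u (by rw [mem_range] at hu; omega)]
  have h2 : ∑ u ∈ range (s + 1), a u = ∑ u ∈ range (s + 1), b u :=
    sum_congr rfl fun u hu => by rw [h u (by rw [mem_range] at hu; omega)]
  rw [h1, h2]

/-- Greedy sequences. -/
private theorem BalQ_greedy (ℓ : ℕ) (W d : ℕ → ℚ) (p : ℚ) (n : ℕ)
    (hpos : ∀ s < n, W 0 - W (ℓ - 2 - s) ≠ 0) :
    ∃ a : ℕ → ℚ, a 0 = p ∧ ∀ s < n, a (s + 1) * (W 0 - W (ℓ - 2 - s)) = BalQ_X ℓ d a s := by
  induction n with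
  | zero => exact ⟨fun _ => p, rfl, fun s hs => absurd hs (Nat.not_lt_zero s)⟩
  | succ n ih =>
    obtain ⟨a, ha0, ha⟩ := ih fun s hs => hpos s (by omega)
    refine ⟨Function.update a (n + 1) (BalQ_X ℓ d a n / (W 0 - W (ℓ - 2 - n))), ?_, ?_⟩
    · rw [Function.update_of_ne (by omega), ha0]
    · intro s hs
      rcases Nat.lt_succ_iff_lt_or_eq.1 hs with h | h
      · rw [Function.update_of_ne (by omega), ha s h]
        apply BalQ_X_congr
        intro u hu
        rw [Function.update_of_ne (by omega)]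
      · subst h
        rw [Function.update_self, div_mul_cancel₀ _ (hpos s (by omega))]
        apply BalQ_X_congr
        intro u hu
        rw [Function.update_of_ne (by omega)]

private theorem BalQ_anti {d : ℕ → ℚ} (hd : ∀ i, d (i + 1) ≤ d i) {i j : ℕ} (h : i ≤ j) :
    d j ≤ d i := antitone_nat_of_succ_le hd h

/-- The value at the layer `s`. -/
private theorem BalQ_value (ℓ : ℕ) (W a : ℕ → ℚ) {s : ℕ} (hs : s < ℓ)
    (hsum : ∑ u ∈ range ℓ, a u = 1) :
    ∑ u ∈ range ℓ, a u * W (rk ℓ u 0 s) =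
      ∑ u ∈ range (s + 1), a u * W (s - u) + (1 - ∑ u ∈ range (s + 1), a u) * W (ℓ - 1 - s) := by
  have h1 : range ℓ = range (s + 1) ∪ (range ℓ \ range (s + 1)) := by
    rw [union_sdiff_of_subset]
    exact range_subset_range.2 (by omega)
  have hdis : Disjoint (range (s + 1)) (range ℓ \ range (s + 1)) := disjoint_sdiff
  have h2 : ∑ u ∈ range ℓ \ range (s + 1), a u = 1 - ∑ u ∈ range (s + 1), a u := by
    rw [h1, sum_union hdis] at hsum
    linarith
  conv_lhs => rw [h1, sum_union hdis]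
  rw [← h2, sum_mul]
  congr 1
  · refine sum_congr rfl fun u hu => ?_
    rw [mem_range] at hu
    congr 2
    unfold rk
    rw [if_neg (by omega)]
    split_ifs <;> omega
  · refine sum_congr rfl fun u hu => ?_
    rw [mem_sdiff, mem_range, mem_range] at hu
    congr 2
    unfold rk
    rw [if_pos (by omega)]

private theorem BalQ_total (ℓ : ℕ) (W a : ℕ → ℚ) (hsum : ∑ u ∈ range ℓ, a u = 1) :
    ∑ s ∈ range ℓ, ∑ u ∈ range ℓ, a u * W (rk ℓ u 0 s) = ∑ t ∈ range ℓ, W t := by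
  rw [sum_comm]
  have h1 : ∀ u ∈ range ℓ, ∑ s ∈ range ℓ, a u * W (rk ℓ u 0 s) = a u * ∑ t ∈ range ℓ, W t := by
    intro u hu
    rw [mem_range] at hu
    rw [← mul_sum]
    congr 1
    have hinj : Set.InjOn (rk ℓ u 0) (range ℓ : Finset ℕ) := by
      intro s hs t ht he
      exact rk_inj (by omega) (mem_range.1 hs) (mem_range.1 ht) he
    have himg : (range ℓ).image (rk ℓ u 0) = range ℓ := by
      apply eq_of_subset_of_card_le
      · intro k hk
        obtain ⟨s, hs, rfl⟩ := mem_image.1 hk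
        exact mem_range.2 (rk_lt (by omega) (mem_range.1 hs))
      · rw [card_image_of_injOn hinj]
    conv_rhs => rw [← himg, sum_image hinj]
  rw [sum_congr rfl h1, ← sum_mul, hsum, one_mul]

/-- The combinatorial core: signs of the combination of two greedy solutions. -/
private theorem BalQ_signs (n : ℕ) (W d c : ℕ → ℚ) (hd0 : ∀ i, 0 ≤ d i)
    (hdd : ∀ i, d (i + 1) ≤ d i) (hpos : ∀ s < n, 0 < W 0 - W (n - s))
    (hc0 : 0 ≤ c 0) (hc : ∀ s < n, c (s + 1) * (W 0 - W (n - s)) = BalQ_X (n + 2) d c s)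
    (hX : BalQ_X (n + 2) d c n = 0) : ∀ u ≤ n, 0 ≤ c u := by
  by_contra hcon
  push Not at hcon
  classical
  have hex : ∃ u, u ≤ n ∧ c u < 0 := by
    obtain ⟨u, hu, hlt⟩ := hcon
    exact ⟨u, hu, hlt⟩
  obtain ⟨hm1, hm2⟩ := Nat.find_spec hex
  have hmin : ∀ v < Nat.find hex, 0 ≤ c v := by
    intro v hv
    have h1 := Nat.find_min hex hv
    push Not at h1
    exact h1 (by omega)
  obtain ⟨s, hs⟩ : ∃ s, Nat.find hex = s + 1 := by
    rcases Nat.eq_zero_or_pos (Nat.find hex) with h | h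
    · rw [h] at hm2
      linarith
    · exact ⟨Nat.find hex - 1, by omega⟩
  rw [hs] at hm1 hm2 hmin
  have hXs : BalQ_X (n + 2) d c s < 0 := by
    rw [← hc s (by omega)]
    exact mul_neg_of_neg_of_pos hm2 (hpos s (by omega))
  have hsum0 : ∀ t, s ≤ t → 0 ≤ ∑ u ∈ range (s + 1), c u * d (t - u) := fun t _ =>
    sum_nonneg fun u hu => mul_nonneg (hmin u (by rw [mem_range] at hu; omega)) (hd0 _)
  have hR : 0 < 1 - ∑ u ∈ range (s + 1), c u := by
    unfold BalQ_X at hXs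
    have h1 := hsum0 s le_rfl
    by_contra h2
    push Not at h2
    have h3 := mul_nonpos_of_nonpos_of_nonneg h2 (hd0 (n + 2 - 2 - s))
    linarith
  -- induction
  have key : ∀ t, s ≤ t → t ≤ n → (BalQ_X (n + 2) d c t ≤ BalQ_X (n + 2) d c s) ∧
      (1 - ∑ u ∈ range (s + 1), c u ≤ 1 - ∑ u ∈ range (t + 1), c u) ∧
      (∀ v, s < v → v ≤ t → c v ≤ 0) := by
    intro t ht
    induction t, ht using Nat.le_induction with
    | base =>
      intro _
      exact ⟨le_rfl, le_rfl, fun v h1 h2 => by omega⟩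
    | succ t ht ih =>
      intro htn
      obtain ⟨h1, h2, h3⟩ := ih (by omega)
      have h4 : c (t + 1) ≤ 0 := by
        have h5 := hc t (by omega)
        have h6 : c (t + 1) * (W 0 - W (n - t)) < 0 := by
          rw [h5]
          linarith
        by_contra h7
        push Not at h7
        have h8 := mul_nonneg h7.le (hpos t (by omega)).le
        linarith
      have h5 : ∀ v, s < v → v ≤ t + 1 → c v ≤ 0 := by
        intro v hv1 hv2
        rcases Nat.lt_or_ge t v with h6 | h6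
        · have : v = t + 1 := by omega
          rw [this]
          exact h4
        · exact h3 v hv1 h6
      have h6 : 1 - ∑ u ∈ range (s + 1), c u ≤ 1 - ∑ u ∈ range (t + 1 + 1), c u := by
        rw [sum_range_succ c (t + 1)]
        linarith
      refine ⟨?_, h6, h5⟩
      -- the comparison
      have hsplit : range (t + 1 + 1) = range (s + 1) ∪ (range (t + 1 + 1) \ range (s + 1)) := by
        rw [union_sdiff_of_subset]
        exact range_subset_range.2 (by omega)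
      have hdis : Disjoint (range (s + 1)) (range (t + 1 + 1) \ range (s + 1)) := disjoint_sdiff
      have h7 : ∑ u ∈ range (t + 1 + 1), c u * d (t + 1 - u) ≤
          ∑ u ∈ range (s + 1), c u * d (s - u) := by
        rw [hsplit, sum_union hdis]
        have h8 : ∑ u ∈ range (t + 1 + 1) \ range (s + 1), c u * d (t + 1 - u) ≤ 0 := by
          apply sum_nonpos
          intro u hu
          rw [mem_sdiff, mem_range, mem_range] at hu
          exact mul_nonpos_of_nonpos_of_nonneg (h5 u (by omega) (by omega)) (hd0 _)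
        have h9 : ∑ u ∈ range (s + 1), c u * d (t + 1 - u) ≤
            ∑ u ∈ range (s + 1), c u * d (s - u) := by
          apply sum_le_sum
          intro u hu
          rw [mem_range] at hu
          exact mul_le_mul_of_nonneg_left (BalQ_anti hdd (by omega)) (hmin u (by omega))
        linarith
      have h8 : (1 - ∑ u ∈ range (s + 1), c u) * d (n + 2 - 2 - s) ≤
          (1 - ∑ u ∈ range (t + 1 + 1), c u) * d (n + 2 - 2 - (t + 1)) :=
        mul_le_mul h6 (BalQ_anti hdd (by omega)) (hd0 _) (by linarith)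
      unfold BalQ_X
      linarith
  obtain ⟨h1, _, _⟩ := key n (by omega) le_rfl
  rw [hX] at h1
  linarith

private theorem BalQ_const {W : ℕ → ℚ} (h : ∀ i, W (i + 1) = W i) : ∀ i, W i = W 0 := by
  intro i
  induction i with
  | zero => rfl
  | succ i ih => rw [h, ih]

theorem weightsQ (ℓ : ℕ) (hℓ : 1 ≤ ℓ) (W : ℕ → ℚ) (hdec : ∀ i, W (i + 1) ≤ W i)
    (hconv : ∀ i, 2 * W (i + 1) ≤ W i + W (i + 2)) :
    ∃ a : ℕ → ℚ, (∀ u < ℓ, 0 ≤ a u) ∧ ∑ u ∈ range ℓ, a u = 1 ∧
      ∀ s < ℓ, ∑ u ∈ range ℓ, a u * W (rk ℓ u 0 s) = (∑ t ∈ range ℓ, W t) / ℓ := by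
  have hℓ0 : (ℓ : ℚ) ≠ 0 := by
    have : (1 : ℚ) ≤ ℓ := by exact_mod_cast hℓ
    linarith
  -- it suffices that the values are constant
  have hfin : ∀ a : ℕ → ℚ, (∀ u < ℓ, 0 ≤ a u) → ∑ u ∈ range ℓ, a u = 1 →
      (∀ s, s + 1 < ℓ → ∑ u ∈ range ℓ, a u * W (rk ℓ u 0 s) =
        ∑ u ∈ range ℓ, a u * W (rk ℓ u 0 (s + 1))) →
      ∃ a : ℕ → ℚ, (∀ u < ℓ, 0 ≤ a u) ∧ ∑ u ∈ range ℓ, a u = 1 ∧
      ∀ s < ℓ, ∑ u ∈ range ℓ, a u * W (rk ℓ u 0 s) = (∑ t ∈ range ℓ, W t) / ℓ := by
    intro a h1 h2 h3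
    refine ⟨a, h1, h2, ?_⟩
    have h4 : ∀ s, s < ℓ → ∑ u ∈ range ℓ, a u * W (rk ℓ u 0 s) =
        ∑ u ∈ range ℓ, a u * W (rk ℓ u 0 0) := by
      intro s
      induction s with
      | zero => intro _; rfl
      | succ s ih => intro hs; rw [← h3 s hs, ih (by omega)]
    have h5 := BalQ_total ℓ W a h2
    rw [sum_congr rfl fun s hs => h4 s (mem_range.1 hs), sum_const, card_range, nsmul_eq_mul] at h5
    intro s hs
    rw [h4 s hs, ← h5]
    field_simp
  by_cases hW : W 1 = W 0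
  · -- `W` is constant
    have h1 : ∀ i, W (i + 1) = W i := by
      intro i
      induction i with
      | zero => exact hW
      | succ i ih =>
        have h2 := hconv i
        have h3 := hdec (i + 1)
        linarith
    have h2 := BalQ_const h1
    refine hfin (fun u => if u = 0 then 1 else 0) ?_ ?_ ?_
    · intro u _
      split_ifs <;> norm_num
    · rw [sum_ite_eq' (range ℓ) 0, if_pos (mem_range.2 (by omega))]
    · intro s _
      refine sum_congr rfl fun u _ => ?_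
      rw [h2 (rk ℓ u 0 s), h2 (rk ℓ u 0 (s + 1))]
  rcases Nat.lt_or_ge ℓ 2 with hℓ2 | hℓ2
  · have h1 : ℓ = 1 := by omega
    subst h1
    refine hfin (fun _ => 1) (fun _ _ => by norm_num) (by simp) ?_
    intro s hs
    omega
  obtain ⟨n, rfl⟩ : ∃ n, ℓ = n + 2 := ⟨ℓ - 2, by omega⟩
  set d : ℕ → ℚ := fun i => W i - W (i + 1) with hd
  have hd0 : ∀ i, 0 ≤ d i := fun i => by rw [hd]; beta_reduce; linarith [hdec i]
  have hdd : ∀ i, d (i + 1) ≤ d i := fun i => by
    rw [hd]; beta_reduce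
    have := hconv i
    linarith
  have hd00 : 0 < d 0 := by
    have h1 : W 1 < W 0 := lt_of_le_of_ne (hdec 0) hW
    rw [hd]
    beta_reduce
    linarith
  have hWanti : ∀ {i j : ℕ}, i ≤ j → W j ≤ W i := fun h => antitone_nat_of_succ_le hdec h
  have hpos : ∀ s < n, 0 < W 0 - W (n - s) := by
    intro s hs
    have h1 : W (n - s) ≤ W 1 := hWanti (by omega)
    have h2 : W 1 < W 0 := lt_of_le_of_ne (hdec 0) hW
    linarith
  -- the two solutions
  obtain ⟨a1, ha10, ha1⟩ := BalQ_greedy (n + 2) W d 1 n (fun s hs => by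
    have h := hpos s hs
    rw [show n + 2 - 2 - s = n - s by omega]
    exact h.ne')
  obtain ⟨a0, ha00, ha0⟩ := BalQ_greedy (n + 2) W d 0 n (fun s hs => by
    have h := hpos s hs
    rw [show n + 2 - 2 - s = n - s by omega]
    exact h.ne')
  have e : ∀ s, n + 2 - 2 - s = n - s := fun s => by omega
  have hA1 : ∀ t, t ≤ n → (∀ u ≤ t, 0 ≤ a1 u) ∧ 1 - ∑ u ∈ range (t + 1), a1 u ≤ 0 ∧
      0 ≤ BalQ_X (n + 2) d a1 t := by
    have hX : ∀ t, (∀ u ≤ t, 0 ≤ a1 u) → 1 - ∑ u ∈ range (t + 1), a1 u ≤ 0 →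
        0 ≤ BalQ_X (n + 2) d a1 t := by
      intro t h1 h2
      unfold BalQ_X
      have h3 : 0 ≤ ∑ u ∈ range (t + 1), a1 u * d (t - u) :=
        sum_nonneg fun u hu => mul_nonneg (h1 u (by rw [mem_range] at hu; omega)) (hd0 _)
      have h4 := mul_nonpos_of_nonpos_of_nonneg h2 (hd0 (n + 2 - 2 - t))
      linarith
    intro t
    induction t with
    | zero =>
      intro _
      have h1 : ∀ u ≤ 0, 0 ≤ a1 u := by
        intro u hu
        rw [Nat.le_zero.1 hu, ha10]
        norm_num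
      have h2 : 1 - ∑ u ∈ range (0 + 1), a1 u ≤ 0 := by
        rw [zero_add, sum_range_one, ha10]
        norm_num
      exact ⟨h1, h2, hX 0 h1 h2⟩
    | succ t ih =>
      intro ht
      obtain ⟨h1, h2, h3⟩ := ih (by omega)
      have h4 : 0 ≤ a1 (t + 1) := by
        have h5 := ha1 t (by omega)
        have h6 := hpos t (by omega)
        rw [e] at h5
        by_contra h7
        push Not at h7
        have h8 := mul_neg_of_neg_of_pos h7 h6
        linarith
      have h5 : ∀ u ≤ t + 1, 0 ≤ a1 u := by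
        intro u hu
        rcases Nat.lt_or_ge t u with h6 | h6
        · rw [show u = t + 1 by omega]
          exact h4
        · exact h1 u h6
      have h6 : 1 - ∑ u ∈ range (t + 1 + 1), a1 u ≤ 0 := by
        rw [sum_range_succ]
        linarith
      exact ⟨h5, h6, hX _ h5 h6⟩
  have hA0 : ∀ t, t ≤ n → (∀ u ≤ t, a0 u ≤ 0) ∧ 1 ≤ 1 - ∑ u ∈ range (t + 1), a0 u ∧
      BalQ_X (n + 2) d a0 t ≤ 0 := by
    have hX : ∀ t, (∀ u ≤ t, a0 u ≤ 0) → 1 ≤ 1 - ∑ u ∈ range (t + 1), a0 u →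
        BalQ_X (n + 2) d a0 t ≤ 0 := by
      intro t h1 h2
      unfold BalQ_X
      have h3 : ∑ u ∈ range (t + 1), a0 u * d (t - u) ≤ 0 :=
        sum_nonpos fun u hu => mul_nonpos_of_nonpos_of_nonneg
          (h1 u (by rw [mem_range] at hu; omega)) (hd0 _)
      have h4 : 0 ≤ (1 - ∑ u ∈ range (t + 1), a0 u) * d (n + 2 - 2 - t) :=
        mul_nonneg (by linarith) (hd0 _)
      linarith
    intro t
    induction t with
    | zero =>
      intro _
      have h1 : ∀ u ≤ 0, a0 u ≤ 0 := by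
        intro u hu
        rw [Nat.le_zero.1 hu, ha00]
      have h2 : 1 ≤ 1 - ∑ u ∈ range (0 + 1), a0 u := by
        rw [zero_add, sum_range_one, ha00]
        norm_num
      exact ⟨h1, h2, hX 0 h1 h2⟩
    | succ t ih =>
      intro ht
      obtain ⟨h1, h2, h3⟩ := ih (by omega)
      have h4 : a0 (t + 1) ≤ 0 := by
        have h5 := ha0 t (by omega)
        have h6 := hpos t (by omega)
        rw [e] at h5
        by_contra h7
        push Not at h7
        have h8 := mul_pos h7 h6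
        linarith
      have h5 : ∀ u ≤ t + 1, a0 u ≤ 0 := by
        intro u hu
        rcases Nat.lt_or_ge t u with h6 | h6
        · rw [show u = t + 1 by omega]
          exact h4
        · exact h1 u h6
      have h6 : 1 ≤ 1 - ∑ u ∈ range (t + 1 + 1), a0 u := by
        rw [sum_range_succ]
        linarith
      exact ⟨h5, h6, hX _ h5 h6⟩
  have hx1 := (hA1 n le_rfl).2.2
  have hx0 := (hA0 n le_rfl).2.2
  obtain ⟨lam, hl0, hl1, hlX⟩ : ∃ lam : ℚ, 0 ≤ lam ∧ lam ≤ 1 ∧
      lam * BalQ_X (n + 2) d a1 n + (1 - lam) * BalQ_X (n + 2) d a0 n = 0 := by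
    rcases eq_or_lt_of_le (show BalQ_X (n + 2) d a0 n ≤ BalQ_X (n + 2) d a1 n by linarith) with h | h
    · refine ⟨1, by norm_num, le_rfl, ?_⟩
      have : BalQ_X (n + 2) d a1 n = 0 := by linarith
      rw [this]
      ring
    · have h1 : 0 < BalQ_X (n + 2) d a1 n - BalQ_X (n + 2) d a0 n := by linarith
      refine ⟨-BalQ_X (n + 2) d a0 n / (BalQ_X (n + 2) d a1 n - BalQ_X (n + 2) d a0 n), ?_, ?_, ?_⟩
      · exact div_nonneg (by linarith) h1.le
      · rw [div_le_one h1]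
        linarith
      · field_simp
        ring
  set c : ℕ → ℚ := fun u => lam * a1 u + (1 - lam) * a0 u with hcdef
  have hXlin : ∀ t, BalQ_X (n + 2) d c t =
      lam * BalQ_X (n + 2) d a1 t + (1 - lam) * BalQ_X (n + 2) d a0 t := by
    intro t
    unfold BalQ_X
    have h1 : ∑ u ∈ range (t + 1), c u * d (t - u) =
        lam * ∑ u ∈ range (t + 1), a1 u * d (t - u) +
          (1 - lam) * ∑ u ∈ range (t + 1), a0 u * d (t - u) := by
      rw [mul_sum, mul_sum, ← sum_add_distrib]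
      exact sum_congr rfl fun u _ => by rw [hcdef]; ring
    have h2 : ∑ u ∈ range (t + 1), c u =
        lam * ∑ u ∈ range (t + 1), a1 u + (1 - lam) * ∑ u ∈ range (t + 1), a0 u := by
      rw [mul_sum, mul_sum, ← sum_add_distrib]
    rw [h1, h2]
    ring
  have hc0 : 0 ≤ c 0 := by
    rw [hcdef]
    beta_reduce
    rw [ha10, ha00]
    linarith
  have hc : ∀ s < n, c (s + 1) * (W 0 - W (n - s)) = BalQ_X (n + 2) d c s := by
    intro s hs
    have h1 := ha1 s hs
    have h0 := ha0 s hs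
    rw [e] at h1 h0
    rw [hXlin, ← h1, ← h0, hcdef]
    ring
  have hcX : BalQ_X (n + 2) d c n = 0 := by rw [hXlin]; exact hlX
  have hcn := BalQ_signs n W d c hd0 hdd hpos hc0 hc hcX
  -- the weights
  set a : ℕ → ℚ := fun u => if u = n + 1 then 1 - ∑ v ∈ range (n + 1), c v else c u with hadef
  have hac : ∀ u ≤ n, a u = c u := fun u hu => by
    rw [hadef]
    beta_reduce
    rw [if_neg (by omega)]
  have hasum : ∀ t ≤ n, ∑ u ∈ range (t + 1), a u = ∑ u ∈ range (t + 1), c u := fun t ht =>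
    sum_congr rfl fun u hu => hac u (by rw [mem_range] at hu; omega)
  have hatot : ∑ u ∈ range (n + 2), a u = 1 := by
    rw [sum_range_succ, hasum n le_rfl, hadef]
    beta_reduce
    rw [if_pos rfl]
    ring
  have haX : ∀ t ≤ n, BalQ_X (n + 2) d a t = BalQ_X (n + 2) d c t := fun t ht =>
    BalQ_X_congr _ _ fun u hu => hac u (by omega)
  refine hfin a ?_ hatot ?_
  · intro u hu
    rcases Nat.lt_or_ge u (n + 1) with h | h
    · rw [hac u (by omega)]
      exact hcn u (by omega)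
    · have h1 : u = n + 1 := by omega
      rw [h1, hadef]
      beta_reduce
      rw [if_pos rfl]
      have h2 := hcX
      unfold BalQ_X at h2
      rw [show n + 2 - 2 - n = 0 by omega] at h2
      have h3 : 0 ≤ ∑ u ∈ range (n + 1), c u * d (n - u) :=
        sum_nonneg fun u hu => mul_nonneg (hcn u (by rw [mem_range] at hu; omega)) (hd0 _)
      by_contra h4
      push Not at h4
      have h5 := mul_neg_of_neg_of_pos h4 hd00
      linarith
  · intro s hs
    rw [BalQ_value (n + 2) W a (by omega) hatot, BalQ_value (n + 2) W a hs hatot,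
      sum_range_succ (fun u => a u * W (s + 1 - u)) (s + 1), sum_range_succ a (s + 1), Nat.sub_self]
    rw [show n + 2 - 1 - (s + 1) = n - s by omega, show n + 2 - 1 - s = n - s + 1 by omega]
    have h1 : ∑ u ∈ range (s + 1), a u * W (s + 1 - u) =
        ∑ u ∈ range (s + 1), a u * W (s - u) - ∑ u ∈ range (s + 1), a u * d (s - u) := by
      rw [← sum_sub_distrib]
      refine sum_congr rfl fun u hu => ?_
      rw [mem_range] at hu
      rw [hd, show s + 1 - u = s - u + 1 by omega]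
      ring
    rw [h1]
    have h2 : d (n - s) = W (n - s) - W (n - s + 1) := rfl
    have h3 : a (s + 1) * (W 0 - W (n - s)) = BalQ_X (n + 2) d a s := by
      rw [haX s (by omega)]
      rcases Nat.lt_or_ge s n with h4 | h4
      · rw [hac (s + 1) (by omega)]
        exact hc s h4
      · have h5 : s = n := by omega
        rw [h5, Nat.sub_self, sub_self, mul_zero, hcX]
    unfold BalQ_X at h3
    rw [e, h2] at h3
    linarith

private theorem BalQ_mul_den (q : ℚ) (hq : 0 ≤ q) (N : ℕ) (h : q.den ∣ N) :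
    (((N / q.den) * q.num.toNat : ℕ) : ℚ) = N * q := by
  obtain ⟨k, rfl⟩ := h
  have h1 : q.den * k / q.den = k := Nat.mul_div_cancel_left k q.den_pos
  have h2 : ((q.num.toNat : ℕ) : ℚ) = (q.num : ℚ) := by
    have h3 : ((q.num.toNat : ℕ) : ℤ) = q.num := Int.toNat_of_nonneg (Rat.num_nonneg.2 hq)
    exact_mod_cast h3
  have h4 : (q.num : ℚ) = q * q.den := (Rat.mul_den_eq_num q).symm
  rw [h1]
  push_cast
  rw [h2, h4]
  ring

theorem weightsN (ℓ M : ℕ) (hℓ : 1 ≤ ℓ) (W : ℕ → ℕ → ℕ) (hdec : ∀ m i, W m (i + 1) ≤ W m i)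
    (hconv : ∀ m i, 2 * W m (i + 1) ≤ W m i + W m (i + 2)) :
    ∃ (N : ℕ) (n : ℕ → ℕ → ℕ), 1 ≤ N ∧ ∀ m ≤ M, ∑ u ∈ range ℓ, n m u = N ∧
      ∀ s < ℓ, ℓ * ∑ u ∈ range ℓ, n m u * W m (rk ℓ u 0 s) = N * ∑ t ∈ range ℓ, W m t := by
  have hex : ∀ m, ∃ a : ℕ → ℚ, (∀ u < ℓ, 0 ≤ a u) ∧ ∑ u ∈ range ℓ, a u = 1 ∧
      ∀ s < ℓ, ∑ u ∈ range ℓ, a u * (W m (rk ℓ u 0 s) : ℚ) = (∑ t ∈ range ℓ, (W m t : ℚ)) / ℓ := fun m =>
    weightsQ ℓ hℓ (fun i => (W m i : ℚ)) (fun i => by exact_mod_cast hdec m i)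
      (fun i => by exact_mod_cast hconv m i)
  choose a ha0 ha1 ha using hex
  have hℓ0 : (ℓ : ℚ) ≠ 0 := by
    have : (1 : ℚ) ≤ ℓ := by exact_mod_cast hℓ
    linarith
  obtain ⟨N, hN⟩ : ∃ N : ℕ, N = ∏ m ∈ range (M + 1), ∏ u ∈ range ℓ, (a m u).den := ⟨_, rfl⟩
  have hN1 : 1 ≤ N := by
    rw [hN]
    exact Nat.one_le_iff_ne_zero.2 (prod_ne_zero_iff.2 fun m _ => prod_ne_zero_iff.2 fun u _ => (a m u).den_nz)
  have hdvd : ∀ m ≤ M, ∀ u < ℓ, (a m u).den ∣ N := by
    intro m hm u hu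
    rw [hN]
    exact (dvd_prod_of_mem (fun u => (a m u).den) (mem_range.2 hu)).trans
      (dvd_prod_of_mem (fun m => ∏ u ∈ range ℓ, (a m u).den) (mem_range.2 (by omega)))
  have hq : ∀ m ≤ M, ∀ u < ℓ, (((N / (a m u).den) * (a m u).num.toNat : ℕ) : ℚ) = N * a m u := fun m hm u hu =>
    BalQ_mul_den (a m u) (ha0 m u hu) N (hdvd m hm u hu)
  refine ⟨N, fun m u => (N / (a m u).den) * (a m u).num.toNat, hN1, fun m hm => ⟨?_, fun s hs => ?_⟩⟩
  · have h1 : ((∑ u ∈ range ℓ, (N / (a m u).den) * (a m u).num.toNat : ℕ) : ℚ) = N := by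
      rw [Nat.cast_sum, sum_congr rfl fun u hu => hq m hm u (mem_range.1 hu), ← mul_sum, ha1, mul_one]
    exact_mod_cast h1
  · have h1 : ((ℓ * ∑ u ∈ range ℓ, (N / (a m u).den) * (a m u).num.toNat * W m (rk ℓ u 0 s) : ℕ) : ℚ) =
        ((N * ∑ t ∈ range ℓ, W m t : ℕ) : ℚ) := by
      rw [Nat.cast_mul, Nat.cast_sum, Nat.cast_mul N, Nat.cast_sum]
      have h2 : ∑ u ∈ range ℓ, (((N / (a m u).den) * (a m u).num.toNat * W m (rk ℓ u 0 s) : ℕ) : ℚ) =
          N * ∑ u ∈ range ℓ, a m u * (W m (rk ℓ u 0 s) : ℚ) := by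
        rw [mul_sum]
        refine sum_congr rfl fun u hu => ?_
        rw [Nat.cast_mul, hq m hm u (mem_range.1 hu)]
        ring
      rw [h2, ha m s hs]
      field_simp
    exact_mod_cast h1

end Pool.Agent.H18.Tl

end

section

/-!
# Module LmC (TL): the numbers `Lm`

`Lm_split`: sum over the coordinate `y` of the exponent (`Box b ≃ Fin (b y + 1) × Box (update b y 0)`): for `γ` with `γ y = s` the
summand is `μ - s - dg γ'`.  (E.g. sum over the fibres of `γ ↦ γ y`; the fibre over `s` is in bijection with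
`Box (Function.update b y 0)`.)  `Pc_split`: the same for the number of exponents, `Pc b = ∏ (b l + 1)`.
-/

namespace Pool.Agent.H18.Tl

open Finset

variable {τ : Type} [Fintype τ] [DecidableEq τ]

private def LmC_equiv (b : τ → ℕ) (y : τ) :
    Fin (b y + 1) × Box (Function.update b y 0) ≃ Box b where
  toFun p := fun l => ⟨if l = y then (p.1 : ℕ) else (p.2 l : ℕ), by
    split_ifs with h
    · subst h; exact p.1.2
    · have h2 := (p.2 l).2
      simpa [Function.update_of_ne h] using h2⟩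
  invFun γ := (γ y, fun l => ⟨if l = y then 0 else (γ l : ℕ), by
    split_ifs with h
    · exact Nat.succ_pos _
    · have h2 := (γ l).2
      simpa [Function.update_of_ne h] using h2⟩)
  left_inv p := by
    ext l
    · simp
    · by_cases h : l = y
      · subst h
        have h2 : ((p.2 l : ℕ)) < Function.update b l 0 l + 1 := (p.2 l).2
        have h3 : Function.update b l 0 l = 0 := Function.update_self ..
        show (if l = l then 0 else _) = ((p.2 l : ℕ))
        rw [if_pos rfl]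
        omega
      · simp [h]
  right_inv γ := by
    ext l
    by_cases h : l = y
    · subst h; simp
    · simp [h]

private theorem LmC_zero_coord (b : τ → ℕ) (y : τ) (γ : Box (Function.update b y 0)) :
    (γ y : ℕ) = 0 := by
  have h2 : ((γ y : ℕ)) < Function.update b y 0 y + 1 := (γ y).2
  have h3 : Function.update b y 0 y = 0 := Function.update_self ..
  omega

private theorem LmC_dg (b : τ → ℕ) (y : τ) (p : Fin (b y + 1) × Box (Function.update b y 0)) :
    dg (LmC_equiv b y p) = (p.1 : ℕ) + dg p.2 := by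
  unfold dg
  rw [← Finset.add_sum_erase univ (fun l => ((LmC_equiv b y p l : Fin (b l + 1)) : ℕ)) (mem_univ y),
    ← Finset.add_sum_erase univ (fun l => ((p.2 l : Fin _) : ℕ)) (mem_univ y)]
  have h1 : ((LmC_equiv b y p y : Fin (b y + 1)) : ℕ) = p.1 := by simp [LmC_equiv]
  have h2 := LmC_zero_coord b y p.2
  rw [h1, h2, zero_add]
  congr 1
  refine Finset.sum_congr rfl ?_
  intro l hl
  have hly : l ≠ y := (Finset.mem_erase.mp hl).1
  simp [LmC_equiv, hly]

theorem Lm_zero (b : τ → ℕ) : Lm b 0 = 0 := by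
  simp [Lm]

theorem Lm_mono (b : τ → ℕ) {m n : ℕ} (h : m ≤ n) : Lm b m ≤ Lm b n := by
  unfold Lm
  exact Finset.sum_le_sum fun γ _ => Nat.sub_le_sub_right h _

theorem le_Lm (b : τ → ℕ) (m : ℕ) : m ≤ Lm b m := by
  have h1 : m - dg (zb b) = m := by simp [dg, zb]
  calc m = m - dg (zb b) := h1.symm
    _ ≤ Lm b m := Finset.single_le_sum (f := fun γ : Box b => m - dg γ)
        (fun _ _ => Nat.zero_le _) (mem_univ (zb b))

theorem Lm_dec (b : τ → ℕ) (m i : ℕ) : Lm b (m - (i + 1)) ≤ Lm b (m - i) :=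
  Lm_mono b (by omega)

theorem Lm_conv (b : τ → ℕ) (m i : ℕ) :
    2 * Lm b (m - (i + 1)) ≤ Lm b (m - i) + Lm b (m - (i + 2)) := by
  unfold Lm
  rw [Finset.mul_sum, ← Finset.sum_add_distrib]
  refine Finset.sum_le_sum fun γ _ => ?_
  omega

theorem Lm_split (b : τ → ℕ) (y : τ) (m : ℕ) :
    Lm b m = ∑ s ∈ range (b y + 1), Lm (Function.update b y 0) (m - s) := by
  rw [Finset.sum_range (fun s => Lm (Function.update b y 0) (m - s))]
  unfold Lm
  rw [← Equiv.sum_comp (LmC_equiv b y) (fun γ : Box b => m - dg γ), Fintype.sum_prod_type]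
  refine Finset.sum_congr rfl fun s _ => Finset.sum_congr rfl fun γ _ => ?_
  rw [LmC_dg]
  simp only
  omega

theorem Pc_pos (b : τ → ℕ) : 1 ≤ Pc b := by
  unfold Pc
  have : Nonempty (Box b) := ⟨zb b⟩
  exact Fintype.card_pos

theorem Pc_split (b : τ → ℕ) (y : τ) : Pc b = (b y + 1) * Pc (Function.update b y 0) := by
  unfold Pc
  rw [← Fintype.card_congr (LmC_equiv b y), Fintype.card_prod, Fintype.card_fin]

/-- In degrees `≥ Bs b - 1` the dimension grows by `Pc b`. -/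
theorem Lm_succ (b : τ → ℕ) (m : ℕ) (h : Bs b ≤ m) : Lm b (m + 1) = Lm b m + Pc b := by
  unfold Lm Pc
  rw [← Finset.card_univ, Finset.card_eq_sum_ones, ← Finset.sum_add_distrib]
  refine Finset.sum_congr rfl fun γ _ => ?_
  have h1 : dg γ ≤ Bs b := by
    unfold dg Bs
    exact Finset.sum_le_sum fun l _ => Nat.lt_succ_iff.mp (γ l).2
  omega

theorem Lm_add (b : τ → ℕ) (m a : ℕ) (h : Bs b ≤ m) : Lm b (m + a) = Lm b m + a * Pc b := by
  induction a with
  | zero => simp
  | succ a ih =>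
    rw [← Nat.add_assoc, Lm_succ b (m + a) (by omega), ih]
    ring

end Pool.Agent.H18.Tl

end
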