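import Pool.Agent.H94.LP4.M74
import Pool.Agent.H94.LP4.M75

/-! The parts of this file: H18.Tl.Loc, H18.Tl.Sym, H18.Tl.CmpB, H18.Tl.Cmp, H18.Tl.Mx, H18.Tl.CaseA. -/

section

/-!
# Module Loc (TL): the local form of `Φ` at a point of the block

`loc`: the column `β` of `Φ` vanishes at `⟨μ, 0, 0⟩`, so `X^(μ - dg γ) ∣ Φ γ β` (`van_zero_iff`, `C 0 = 0`); this defines `H`.
`det ≠ 0`: otherwise `(ev H 0).mulVec w = 0` with `w ≠ 0` (`Matrix.exists_mulVec_eq_zero_iff`); `H.mulVec (cv w)` vanishes at `0`, so it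
is `X • g`; `G γ = X^(μ - dg γ) * g γ` satisfies `X • G = Φ.mulVec (cv w)` (`Ph.comb`), so `G ∈ U b a`, `G` vanishes at the point
`⟨μ, 0, 0⟩` (`van_zero_iff`) and at the points of `L₀` (`vanL_unit` with `q = X`: their `x` are `≠ 0` by `h.dist`), so `G = 0`, and
`Φ.mulVec (cv w) = 0`, `w = 0` (top coefficient).

`exists_orig`: take the first point `p` of `L`, `shL (-p.x)`, `tzL (-p.z)` (`Blk.sh`, `Blk.tz`).
-/

namespace Pool.Agent.H18.Tl

open Finset Polynomial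

variable {τ : Type} [Fintype τ] [DecidableEq τ] {b : τ → ℕ} {μ a : ℕ} {L₀ : List (Pt τ)}
  {Φ : Matrix (Box b) (Box b) ℂ[X]}

theorem Blk.ne_zero (h : Blk b μ a (⟨μ, 0, 0⟩ :: L₀)) : ∀ p ∈ L₀, p.x ≠ 0 := by
  intro p hp h0
  have h1 := h.dist
  rw [List.map_cons, List.nodup_cons] at h1
  apply h1.1
  rw [List.mem_map]
  exact ⟨p, hp, h0⟩

theorem loc (h : Blk b μ a (⟨μ, 0, 0⟩ :: L₀)) (hΦ : Ph b a (⟨μ, 0, 0⟩ :: L₀) Φ) :
    ∃ H : Matrix (Box b) (Box b) ℂ[X], (∀ γ β, Φ γ β = X ^ (μ - dg γ) * H γ β) ∧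
      (ev H 0).det ≠ 0 := by
  have hdv : ∀ γ β, X ^ (μ - dg γ) ∣ Φ γ β := by
    intro γ β
    have h1 := hΦ.van β ⟨μ, 0, 0⟩ (List.mem_cons_self ..)
    have h2 := (van_zero_iff μ 0 _).1 h1 γ
    simpa using h2
  choose H hH using hdv
  refine ⟨fun γ β => H γ β, hH, ?_⟩
  intro hdet
  obtain ⟨w, hw0, hw⟩ := Matrix.exists_mulVec_eq_zero_iff.2 hdet
  have hK : ∀ γ, X ∣ ∑ β, H γ β * C (w β) := by
    intro γ
    rw [X_dvd_iff, coeff_zero_eq_eval_zero, eval_finsetSum]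
    simpa [ev, Matrix.mulVec, dotProduct] using congrFun hw γ
  choose g hg using hK
  set G : V b := fun γ => X ^ (μ - dg γ) * g γ with hG
  have hGX : (X : ℂ[X]) • G = Φ.mulVec (cv w) := by
    funext γ
    have e1 : Φ.mulVec (cv w) γ = ∑ β, Φ γ β * C (w β) := rfl
    rw [e1, Pi.smul_apply, smul_eq_mul, hG]
    have e2 : ∑ β, Φ γ β * C (w β) = X ^ (μ - dg γ) * ∑ β, H γ β * C (w β) := by
      rw [Finset.mul_sum]
      refine Finset.sum_congr rfl fun β _ => ?_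
      rw [hH γ β]
      ring
    rw [e2, hg γ]
    ring
  obtain ⟨c1, c2, c3, -⟩ := hΦ.comb w
  have hGU : G ∈ U b a := by
    intro β j hj
    have h3 : (Φ.mulVec (cv w) β).coeff (j + 1) = 0 := c2 β (j + 1) (by omega)
    rw [← hGX, Pi.smul_apply, smul_eq_mul, coeff_X_mul] at h3
    exact h3
  have hGv : G ∈ vanL b (⟨μ, 0, 0⟩ :: L₀) := by
    intro p hp
    rcases List.mem_cons.1 hp with rfl | hp
    · rw [van_zero_iff]
      intro γ
      rw [C_0, sub_zero, hG]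
      exact dvd_mul_right _ _
    · refine vanL_unit L₀ X (fun q hq => ?_) G (fun q hq => ?_) p hp
      · rw [eval_X]
        exact h.ne_zero q hq
      · rw [hGX]
        exact c1 q (List.mem_cons_of_mem _ hq)
  have hG0 := h.inj G hGU hGv
  apply hw0
  funext β
  have h4 := c3 β
  rw [← hGX, hG0, smul_zero] at h4
  simpa using h4.symm

/-- There is a block with the same number of points, one of them at the origin. -/
theorem exists_orig (hex : ∃ a L, Blk b μ a L ∧ L ≠ []) :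
    ∃ a L₀, Blk b μ a (⟨μ, 0, 0⟩ :: L₀) := by
  obtain ⟨a, L, h, hL⟩ := hex
  cases L with
  | nil => exact absurd rfl hL
  | cons p L' =>
    have h1 := (h.sh (-p.x)).tz (-p.z)
    have h2 : p.m = μ := h.mult p (List.mem_cons_self ..)
    refine ⟨a, tzL (-p.z) (shL (-p.x) L'), ?_⟩
    have h3 : tzL (-p.z) (shL (-p.x) (p :: L')) =
        (⟨μ, 0, 0⟩ : Pt τ) :: tzL (-p.z) (shL (-p.x) L') := by
      simp only [tzL, shL, List.map_cons, add_neg_cancel, h2]
    rw [h3] at h1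
    exact h1

end Pool.Agent.H18.Tl

end

section

/-!
# Module Sym (TL): symmetries of the spans `Ds`

`Ds_one`: for a block `L` with matrix `Φ` the generators of `L` and of `shL (-1) L` (`Ph.sh`, `cf_sh`) differ by `a • 1`, `a ≥ 1`.
`Ds_tz`: by `Submodule.span_induction` (or `Submodule.map_span_le`) for a generator: `Blk.tz`, `Ph.tz`, `cf_conj`.
`Ds_rv`: for a generator `Y = cf Φ (a - 1)` of the block `L`: for `δ` with `δ + p.z l ≠ 0` for all `p ∈ L`, `l` (almost all `δ`) the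
block `tzL (fun _ => δ) L` satisfies the hypothesis of `Blk.rv`, so `rv * tz (-c) * Y * tz c * rv ∈ Ds b μ s`, `c = fun _ => δ`.  The
entries of `tz b (fun _ => δ)` are `∏ binom * δ ^ (dg β - dg γ)`, so this is a polynomial family `∑_{k<n} δ^k • C k` of matrices with
`C 0` = the value at `δ = 0`, i.e. `rv * Y * rv` (`tz_zero`); apply `mem_of_poly` (`k = 0`).
-/

namespace Pool.Agent.H18.Tl

open Finset Polynomial

variable {τ : Type} [Fintype τ] [DecidableEq τ] {b : τ → ℕ} {μ s : ℕ}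

/-- The translations by `(δ, …, δ)` form a polynomial family. -/
theorem tz_poly (b : τ → ℕ) : ∃ (n : ℕ) (A : ℕ → Mt b), 1 ≤ n ∧ A 0 = 1 ∧
    ∀ δ : ℂ, tz b (fun _ => δ) = ∑ k ∈ range n, δ ^ k • A k := by
  classical
  let A : ℕ → Mt b := fun k γ β =>
    if ∑ l, ((β l : ℕ) - (γ l : ℕ)) = k then ∏ l, (((β l : ℕ).choose (γ l : ℕ) : ℕ) : ℂ) else 0
  have hA : ∀ δ : ℂ, tz b (fun _ => δ) = ∑ k ∈ range (Bs b + 1), δ ^ k • A k := by
    intro δ
    ext γ β
    have h1 : ∑ l, ((β l : ℕ) - (γ l : ℕ)) < Bs b + 1 := by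
      refine Nat.lt_succ_of_le ?_
      unfold Bs
      refine Finset.sum_le_sum fun l _ => ?_
      have := (β l).isLt
      omega
    rw [Matrix.sum_apply]
    have h2 : ∀ k ∈ range (Bs b + 1), (δ ^ k • A k) γ β =
        if ∑ l, ((β l : ℕ) - (γ l : ℕ)) = k then
          δ ^ k * ∏ l, (((β l : ℕ).choose (γ l : ℕ) : ℕ) : ℂ) else 0 := by
      intro k _
      rw [Matrix.smul_apply, smul_eq_mul]
      show δ ^ k * (if ∑ l, ((β l : ℕ) - (γ l : ℕ)) = k then
        ∏ l, (((β l : ℕ).choose (γ l : ℕ) : ℕ) : ℂ) else 0) = _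
      split_ifs <;> simp
    rw [Finset.sum_congr rfl h2, Finset.sum_ite_eq, if_pos (Finset.mem_range.2 h1)]
    unfold tz
    rw [Finset.prod_mul_distrib, Finset.prod_pow_eq_pow_sum, mul_comm]
  refine ⟨Bs b + 1, A, by omega, ?_, hA⟩
  have h0 := hA 0
  rw [Finset.sum_range_succ'] at h0
  have h3 : ∀ k ∈ range (Bs b), (0 : ℂ) ^ (k + 1) • A (k + 1) = 0 := by
    intro k _
    rw [zero_pow (Nat.succ_ne_zero k), zero_smul]
  rw [Finset.sum_congr rfl h3, Finset.sum_const_zero, zero_add, pow_zero, one_smul] at h0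
  rw [← h0]
  exact tz_zero

private theorem Sym_gen {a : ℕ} {L : List (Pt τ)} {Φ : Matrix (Box b) (Box b) ℂ[X]}
    (hB : Blk b μ a L) (hl : L.length = s) (hΦ : Ph b a L Φ) : cf Φ (a - 1) ∈ Ds b μ s :=
  Submodule.subset_span ⟨a, L, Φ, hB, hl, hΦ, rfl⟩

theorem Ds_one (hμ : 1 ≤ μ) (hs : 1 ≤ s) (h : ∃ a L, Blk b μ a L ∧ L.length = s) :
    (1 : Mt b) ∈ Ds b μ s := by
  obtain ⟨a, L, hB, hl⟩ := h
  have hL : L ≠ [] := by
    intro h0
    rw [h0] at hl
    simp at hl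
    omega
  have ha : 1 ≤ a := hB.pos hμ hL
  obtain ⟨Φ, hΦ⟩ := exists_ph hB
  have h1 : cf Φ (a - 1) ∈ Ds b μ s := Sym_gen hB hl hΦ
  have h2 : cf (Φ.map (taylor (-(-1 : ℂ)))) (a - 1) ∈ Ds b μ s :=
    Sym_gen (hB.sh (-1)) (by rw [shL, List.length_map, hl]) (hΦ.sh (-1))
  rw [cf_sh hΦ ha (-1)] at h2
  have h3 := (Ds b μ s).sub_mem h2 h1
  have h4 : cf Φ (a - 1) - ((a : ℂ) * (-1)) • (1 : Mt b) - cf Φ (a - 1) = (a : ℂ) • (1 : Mt b) := by
    rw [mul_neg_one, neg_smul]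
    abel
  rw [h4] at h3
  have ha' : (a : ℂ) ≠ 0 := by
    exact_mod_cast (by omega : a ≠ 0)
  have h5 := (Ds b μ s).smul_mem ((a : ℂ)⁻¹) h3
  rwa [smul_smul, inv_mul_cancel₀ ha', one_smul] at h5

theorem Ds_tz (c : τ → ℂ) (Y : Mt b) (hY : Y ∈ Ds b μ s) :
    tz b (-c) * Y * tz b c ∈ Ds b μ s := by
  unfold Ds at hY
  refine Submodule.span_induction (p := fun Y _ => tz b (-c) * Y * tz b c ∈ Ds b μ s) ?_ ?_ ?_ ?_ hY
  · rintro _ ⟨a, L, Φ, hB, hl, hΦ, rfl⟩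
    rw [← cf_conj]
    exact Sym_gen (hB.tz c) (by rw [tzL, List.length_map, hl]) (hΦ.tz c)
  · rw [mul_zero, zero_mul]
    exact (Ds b μ s).zero_mem
  · intro Y Z _ _ h1 h2
    rw [mul_add, add_mul]
    exact (Ds b μ s).add_mem h1 h2
  · intro r Y _ h1
    rw [Matrix.mul_smul, Matrix.smul_mul]
    exact (Ds b μ s).smul_mem r h1

private theorem Sym_rv_gen {a : ℕ} {L : List (Pt τ)} {Φ : Matrix (Box b) (Box b) ℂ[X]}
    (hB : Blk b μ a L) (hl : L.length = s) (hΦ : Ph b a L Φ) :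
    rv b * cf Φ (a - 1) * rv b ∈ Ds b μ s := by
  classical
  obtain ⟨n, A, hn, hA0, hA⟩ := tz_poly b
  set Y : Mt b := cf Φ (a - 1) with hY
  let T : Set ℂ := ⋃ p ∈ {p | p ∈ L}, ⋃ l : τ, {-(p.z l)}
  have hT : T.Finite := by
    refine Set.Finite.biUnion (List.finite_toSet L) fun p _ => ?_
    exact Set.finite_iUnion fun l => Set.finite_singleton _
  -- the members for good parameters
  have key : ∀ δ : ℂ, δ ∉ T →
      rv b * (tz b (-(fun _ => δ)) * Y * tz b (fun _ => δ)) * rv b ∈ Ds b μ s := by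
    intro δ hδ
    have hz : ∀ p ∈ tzL (fun _ => δ) L, ∀ l, p.z l ≠ 0 := by
      intro p hp l
      unfold tzL at hp
      rw [List.mem_map] at hp
      obtain ⟨p', hp', rfl⟩ := hp
      intro h0
      apply hδ
      have h1 : p'.z l + δ = 0 := h0
      refine Set.mem_biUnion (show p' ∈ {p | p ∈ L} from hp') ?_
      refine Set.mem_iUnion.2 ⟨l, ?_⟩
      rw [Set.mem_singleton_iff]
      exact eq_neg_of_add_eq_zero_right h1
    have h1 := hB.tz (fun _ => δ)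
    have h2 := hΦ.tz (fun _ => δ)
    have h3 := h1.rv hz
    have h4 := h2.rv hz
    have h5 : cf ((Tl.rv b).map C * ((Tl.tz b (-(fun _ => δ))).map C * Φ *
        (Tl.tz b (fun _ => δ)).map C) * (Tl.rv b).map C) (a - 1) ∈ Ds b μ s :=
      Sym_gen h3 (by rw [rvL, List.length_map, tzL, List.length_map, hl]) h4
    rw [cf_conj, cf_conj] at h5
    exact h5
  let Cf : ℕ → Mt b := fun k =>
    ∑ q ∈ (range n ×ˢ range n) with q.1 + q.2 = k, (-1 : ℂ) ^ q.1 • (rv b * (A q.1 * Y * A q.2) * rv b)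
  have hsum : ∀ δ : ℂ, rv b * (tz b (-(fun _ => δ)) * Y * tz b (fun _ => δ)) * rv b =
      ∑ k ∈ range (2 * n), δ ^ k • Cf k := by
    intro δ
    have hneg : (-(fun _ : τ => δ)) = (fun _ : τ => -δ) := rfl
    rw [hneg, hA δ, hA (-δ)]
    have h1 : rv b * ((∑ k ∈ range n, (-δ) ^ k • A k) * Y * ∑ k ∈ range n, δ ^ k • A k) * rv b =
        ∑ q ∈ range n ×ˢ range n,
          δ ^ (q.1 + q.2) • ((-1 : ℂ) ^ q.1 • (rv b * (A q.1 * Y * A q.2) * rv b)) := by
      rw [Finset.sum_mul, Finset.sum_mul_sum, Finset.mul_sum, Finset.sum_mul, Finset.sum_product]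
      refine Finset.sum_congr rfl fun i _ => ?_
      rw [Finset.mul_sum, Finset.sum_mul]
      refine Finset.sum_congr rfl fun j _ => ?_
      rw [Matrix.smul_mul, Matrix.smul_mul, Matrix.mul_smul, Matrix.mul_smul, Matrix.mul_smul,
        Matrix.smul_mul, Matrix.smul_mul, smul_smul, smul_smul]
      congr 1
      rw [neg_pow, pow_add]
      ring
    rw [h1, ← Finset.sum_fiberwise_of_maps_to (s := range n ×ˢ range n) (t := range (2 * n))
      (g := fun q => q.1 + q.2) (fun q hq => by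
        rw [Finset.mem_product, Finset.mem_range, Finset.mem_range] at hq
        rw [Finset.mem_range]
        omega)]
    refine Finset.sum_congr rfl fun k _ => ?_
    rw [Finset.smul_sum]
    refine Finset.sum_congr rfl fun q hq => ?_
    rw [(Finset.mem_filter.1 hq).2]
  have hmem := mem_of_poly (Ds b μ s) (2 * n) Cf T hT (fun δ hδ => by
    rw [← hsum δ]
    exact key δ hδ) 0 (by omega)
  have h0 : Cf 0 = rv b * Y * rv b := by
    have hf : ((range n ×ˢ range n).filter fun q => q.1 + q.2 = 0) = {((0 : ℕ), (0 : ℕ))} := by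
      ext ⟨i, j⟩
      simp only [Finset.mem_filter, Finset.mem_product, Finset.mem_range, Finset.mem_singleton,
        Prod.mk.injEq]
      omega
    show ∑ q ∈ (range n ×ˢ range n) with q.1 + q.2 = 0,
      (-1 : ℂ) ^ q.1 • (rv b * (A q.1 * Y * A q.2) * rv b) = _
    rw [hf, Finset.sum_singleton, hA0, pow_zero, one_smul, one_mul, mul_one]
  rw [h0] at hmem
  exact hmem

theorem Ds_rv (Y : Mt b) (hY : Y ∈ Ds b μ s) : rv b * Y * rv b ∈ Ds b μ s := by
  unfold Ds at hY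
  refine Submodule.span_induction (p := fun Y _ => rv b * Y * rv b ∈ Ds b μ s) ?_ ?_ ?_ ?_ hY
  · rintro _ ⟨a, L, Φ, hB, hl, hΦ, rfl⟩
    exact Sym_rv_gen hB hl hΦ
  · rw [mul_zero, zero_mul]
    exact (Ds b μ s).zero_mem
  · intro Y Z _ _ h1 h2
    rw [mul_add, add_mul]
    exact (Ds b μ s).add_mem h1 h2
  · intro r Y _ h1
    rw [Matrix.mul_smul, Matrix.smul_mul]
    exact (Ds b μ s).smul_mem r h1

end Pool.Agent.H18.Tl

end

section

/-!
# Module CmpB (TL): the union of an exact block and a tiny exact block at `t = 0` is exact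

Let `Pk` be as in `exists_td` for the block `L'` (height `a'`).

`cmp_blk`: let `F ∈ U b (a + a')` vanish at `L ++ scL δ L'`, `δ ≠ 0`.  `F = X^a' s + r`, `s ∈ U b a` (`exists_div`), and
`F = ∑_{k < a'+a} δ^k Pk k s` (the difference is in `U b a'` and vanishes at `scL δ L'`).  The maps
`M k : U b a → V b ⧸ vanL b L`, `s ↦ [Pk k s]`, satisfy `M 0 s = [X^a' s]`, injective (`vanL_unit`, `h.inj`).  So by
`inj_of_inj` for almost all `δ` we get `s = 0`, `F = 0`.  The `x` are distinct if `δ ≠ 0` and `δ p'.x ≠ p.x` for all `p ∈ L`, `p' ∈ L'`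
(finitely many `δ` are excluded, since `p.x ≠ 0`).
-/

namespace Pool.Agent.H18.Tl

open Finset Polynomial

variable {τ : Type} [Fintype τ] [DecidableEq τ] {b : τ → ℕ} {μ a a' : ℕ} {L L' : List (Pt τ)}

theorem cmp_blk (h : Blk b μ a L) (h' : Blk b μ a' L') (hx : ∀ p ∈ L, p.x ≠ 0) (ha' : 1 ≤ a') :
    ∃ T : Set ℂ, T.Finite ∧ ∀ δ : ℂ, δ ∉ T → Blk b μ (a + a') (L ++ scL δ L') := by
  classical
  obtain ⟨Φ, hΦ⟩ := exists_ph h'
  obtain ⟨Pk, hP0, -, hPU, -, hPv⟩ := exists_td h' hΦ ha'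
  let W : Submodule ℂ (V b) := (vanL b L).restrictScalars ℂ
  let M : ℕ → U b a →ₗ[ℂ] V b ⧸ W := fun k => W.mkQ ∘ₗ Pk k ∘ₗ (U b a).subtype
  have hMk : ∀ k v, M k v = W.mkQ (Pk k (v : V b)) := fun _ _ => rfl
  have hM : ∀ v, M 0 v = 0 → v = 0 := by
    intro v hv
    have h1 : (X : ℂ[X]) ^ a' • (v : V b) ∈ vanL b L := by
      rw [hMk, Submodule.mkQ_apply, Submodule.Quotient.mk_eq_zero, hP0] at hv
      exact hv
    have h3 : (v : V b) ∈ vanL b L := by
      refine vanL_unit L _ (fun p hp => ?_) _ h1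
      rw [eval_pow, eval_X]
      exact pow_ne_zero _ (hx p hp)
    exact Subtype.ext (h.inj _ v.2 h3)
  obtain ⟨T, hT, hTi⟩ := inj_of_inj M (a' + a) (by omega) hM
  let T3 : Set ℂ :=
    (fun q : ℂ × ℂ => q.1 / q.2) '' ({x | x ∈ L.map Pt.x} ×ˢ {x | x ∈ L'.map Pt.x})
  have hT3 : T3.Finite :=
    (Set.Finite.prod (List.finite_toSet (L.map Pt.x)) (List.finite_toSet (L'.map Pt.x))).image _
  refine ⟨(T ∪ {0}) ∪ T3, (hT.union (Set.finite_singleton 0)).union hT3, fun δ hδ => ?_⟩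
  have hδT : δ ∉ T := fun hc => hδ (Or.inl (Or.inl hc))
  have hδ0 : δ ≠ 0 := fun hc => hδ (Or.inl (Or.inr hc))
  have hδ3 : δ ∉ T3 := fun hc => hδ (Or.inr hc)
  have hsc : Blk b μ a' (scL δ L') := Blk.sc h' δ hδ0
  refine ⟨?_, ?_, ?_, ?_⟩
  · intro p hp
    rcases List.mem_append.1 hp with hp | hp
    · exact h.mult p hp
    · exact hsc.mult p hp
  · rw [List.map_append, List.nodup_append]
    refine ⟨h.dist, hsc.dist, ?_⟩
    intro x hxL y hy hxy
    subst hxy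
    obtain ⟨q, hq, hqx⟩ := List.mem_map.1 hy
    obtain ⟨p', hp', rfl⟩ := List.mem_map.1 hq
    have hqx' : δ * p'.x = x := hqx
    obtain ⟨p, hp, hpx⟩ := List.mem_map.1 hxL
    have hx0 : x ≠ 0 := by
      rw [← hpx]
      exact hx p hp
    have hp0 : p'.x ≠ 0 := by
      intro hc
      rw [hc, mul_zero] at hqx'
      exact hx0 hqx'.symm
    refine hδ3 ⟨(x, p'.x), ⟨hxL, List.mem_map.2 ⟨p', hp', rfl⟩⟩, ?_⟩
    change x / p'.x = δ
    rw [← hqx', mul_div_assoc, div_self hp0, mul_one]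
  · have h1 := h.cnt
    have h2 := hsc.cnt
    rw [List.length_append, Nat.add_mul, Nat.add_mul, h1, h2]
  · intro F hFU hFL
    rw [vanL_append] at hFL
    obtain ⟨hFL1, hFL2⟩ := hFL
    obtain ⟨s, hsr, hsc'⟩ := exists_div (b := b) a' F
    have hsU : s ∈ U b a := by
      rw [mem_U]
      intro β j hj
      rw [hsc', mem_U.1 hFU β (j + a') (by omega)]
    have hG := hPv a s hsU δ hδ0
    set G : V b := ∑ k ∈ range (a' + a), δ ^ k • Pk k s with hGdef
    have hG0 : G - (X : ℂ[X]) ^ a' • s ∈ U b a' := by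
      have h1 : G = ∑ k ∈ range (a' + a - 1), δ ^ (k + 1) • Pk (k + 1) s +
          (X : ℂ[X]) ^ a' • s := by
        have h2 : a' + a = (a' + a - 1) + 1 := by omega
        rw [hGdef]
        conv_lhs => rw [h2, Finset.sum_range_succ']
        rw [pow_zero, one_smul, hP0]
      rw [h1, add_sub_cancel_right]
      refine Submodule.sum_mem _ (fun k _ => Submodule.smul_mem _ _ (hPU _ _ (by omega)))
    have hFG : F = G := by
      have h1 : F - G ∈ U b a' := by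
        have h2 := (U b a').sub_mem hsr hG0
        rwa [sub_sub_sub_cancel_right] at h2
      have h2 : F - G ∈ vanL b (scL δ L') := (vanL b (scL δ L')).sub_mem hFL2 hG
      exact sub_eq_zero.1 (hsc.inj _ h1 h2)
    have h0 : ∑ k ∈ range (a' + a), δ ^ k • M k ⟨s, hsU⟩ = 0 := by
      have h1 : ∑ k ∈ range (a' + a), δ ^ k • M k ⟨s, hsU⟩ = W.mkQ G := by
        rw [hGdef, map_sum]
        refine Finset.sum_congr rfl (fun k _ => ?_)
        rw [map_smul, hMk]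
      rw [h1, Submodule.mkQ_apply, Submodule.Quotient.mk_eq_zero, ← hFG]
      exact hFL1
    have hs0 : s = 0 := congrArg Subtype.val (hTi δ hδT _ h0)
    rw [hFG, hGdef]
    refine Finset.sum_eq_zero (fun k _ => ?_)
    rw [hs0, map_zero, smul_zero]

end Pool.Agent.H18.Tl

end

section

/-!
# Module Cmp (TL): the union of an exact block and a tiny exact block at `t = 0`

Let `Pk` be as in `exists_td` for the block `L'` (height `a'`).

`cmp`: apply `diff_lemma` with `E = Box b → U b a`, `Q = Box b → V b ⧸ vanL b L`, `M k v β = [Pk k (v β)]`, `n = a' + a + 1`,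
`g k β = -[Pk k (X^a • cv (Pi.single β 1))]`, `N = Mt b`, `ℓ v γ β = (v β γ).coeff (a - 1)`, `c = 0`, `D = Ds b μ (L.length + L'.length)`.  For
almost all `δ` the block `L ++ scL δ L'` has a `Ψ` (`exists_ph`), and its column `β` is `∑ δ^k Pk k (s β)`, `s β = X^a • e_β + v β`; the
coefficient of `t^(a+a'-1)` of the column is the coefficient of `t^(a-1)` of `v β` (`a, a' ≥ 1`; the `Pk k`, `k ≥ 1`, have values in `U b a'`).
`v₀ β = Φ e_β - X^a e_β`.  `v₁`: `X • v₁ β = Φ Z e_β - cv (ev Φ 0 * Z) e_β`, i.e. `v₁ β = divX` of `Φ.mulVec (cv (Z column β))`: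
`M 0 v₁ + M 1 (s₀) = [X^a' v₁ β + X^(a'-1) cv (Φ'₁ (ev Φ 0) e_β)] = [X^(a'-1) Φ Z e_β] = 0`, and `ℓ v₁ = Z`, `ℓ v₀ = cf Φ (a-1)`.
-/

namespace Pool.Agent.H18.Tl

open Finset Polynomial

variable {τ : Type} [Fintype τ] [DecidableEq τ] {b : τ → ℕ} {μ a a' : ℕ} {L L' : List (Pt τ)}
  {Φ Φ' : Matrix (Box b) (Box b) ℂ[X]}

omit [Fintype τ] [DecidableEq τ] in
/-- Only the term `k = 0` counts. -/
private theorem Cmp_coeff_sum (n : ℕ) (f : ℕ → V b) (γ : Box b) (j : ℕ) (δ : ℂ)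
    (hf : ∀ k, 1 ≤ k → (f k γ).coeff j = 0) :
    ((∑ k ∈ range (n + 1), δ ^ k • f k) γ).coeff j = (f 0 γ).coeff j := by
  rw [Finset.sum_apply, Polynomial.finsetSum_coeff, Finset.sum_range_succ']
  have h0 : ∑ k ∈ range n, ((δ ^ (k + 1) • f (k + 1)) γ).coeff j = 0 := by
    refine Finset.sum_eq_zero fun k _ => ?_
    rw [Pi.smul_apply, coeff_smul, hf (k + 1) (by omega), smul_zero]
  rw [h0, zero_add, pow_zero, one_smul]

omit [DecidableEq τ] in
/-- The coefficients of `X^a` at the place `β`. -/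
private theorem Cmp_single_coeff (a : ℕ) (β γ : Box b) (j : ℕ) :
    (((X : ℂ[X]) ^ a • (cv (Pi.single β 1) : V b)) γ).coeff j =
      if γ = β ∧ j = a then 1 else 0 := by
  rw [Pi.smul_apply, smul_eq_mul, cv, mul_comm, coeff_C_mul_X_pow, Pi.single_apply]
  by_cases h1 : γ = β <;> by_cases h2 : j = a <;> simp [h1, h2]

/-- The column `β` of `Ψ`. -/
private theorem Cmp_col (h : Blk b μ a L) (h' : Blk b μ a' L')
    (Pk : ℕ → V b →ₗ[ℂ] V b) (P0 : ∀ s, Pk 0 s = (X : ℂ[X]) ^ a' • s)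
    (PU : ∀ k s, 1 ≤ k → Pk k s ∈ U b a')
    (Pv : ∀ (n : ℕ) (s : V b), s ∈ U b n → ∀ δ : ℂ, δ ≠ 0 →
        ∑ k ∈ range (a' + n), δ ^ k • Pk k s ∈ vanL b (scL δ L')) (ha' : 1 ≤ a')
    (δ : ℂ) (hδ : δ ≠ 0) {Ψ : Matrix (Box b) (Box b) ℂ[X]}
    (hΨ : Ph b (a + a') (L ++ scL δ L') Ψ) (β : Box b) :
    ∃ v ∈ U b a, (∀ γ, (v γ).coeff (a - 1) = (Ψ γ β).coeff (a - 1 + a') ∨ a = 0) ∧
      ∑ k ∈ range (a' + (a + 1)), δ ^ k • Pk k (v + (X : ℂ[X]) ^ a • (cv (Pi.single β 1) : V b))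
        ∈ vanL b L := by
  obtain ⟨s, hs1, hs2⟩ := exists_div (b := b) a' (fun γ => Ψ γ β)
  have hsU : s ∈ U b (a + 1) := by
    intro γ j hj
    rw [hs2]
    exact hΨ.deg γ β _ (by omega)
  refine ⟨s - (X : ℂ[X]) ^ a • (cv (Pi.single β 1) : V b), ?_, ?_, ?_⟩
  · intro γ j hj
    rw [Pi.sub_apply, coeff_sub, Cmp_single_coeff, hs2]
    rcases Nat.eq_or_lt_of_le hj with h1 | h1
    · subst h1
      have := hΨ.top γ β
      simp only [this]
      by_cases h2 : γ = β <;> simp [h2]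
    · rw [hΨ.deg γ β (j + a') (by omega)]
      have : ¬ (γ = β ∧ j = a) := by omega
      rw [if_neg this, sub_zero]
  · intro γ
    rcases Nat.eq_zero_or_pos a with h1 | h1
    · right; exact h1
    · left
      rw [Pi.sub_apply, coeff_sub, Cmp_single_coeff, hs2]
      have : ¬ (γ = β ∧ a - 1 = a) := by omega
      rw [if_neg this, sub_zero]
  · rw [sub_add_cancel]
    have hv := (vanL_append (b := b) L (scL δ L') (fun γ => Ψ γ β)).1 (hΨ.van β)
    have hH := Pv (a + 1) s hsU δ hδ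
    have hz : (∑ k ∈ range (a' + (a + 1)), δ ^ k • Pk k s) - (fun γ => Ψ γ β) = 0 := by
      refine (h'.sc δ hδ).inj _ ?_ ((vanL b (scL δ L')).sub_mem hH hv.2)
      intro γ j hj
      rw [Pi.sub_apply, coeff_sub, show a' + (a + 1) = (a' + a) + 1 by ring,
        Cmp_coeff_sum _ (fun k => Pk k s) γ j δ (fun k hk => PU k s hk γ j hj), P0]
      have := hs1 γ j hj
      rw [Pi.sub_apply, coeff_sub] at this
      rw [← neg_sub, this, neg_zero]
    rw [sub_eq_zero.1 hz]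
    exact hv.1

theorem cmp (h : Blk b μ a L) (hΦ : Ph b a L Φ) (h' : Blk b μ a' L') (hΦ' : Ph b a' L' Φ')
    (hx : ∀ p ∈ L, p.x ≠ 0) (ha : 1 ≤ a) (ha' : 1 ≤ a') (Z : Mt b)
    (hZ : ev Φ 0 * Z = cf Φ' (a' - 1) * ev Φ 0) :
    cf Φ (a - 1) ∈ Ds b μ (L.length + L'.length) ∧ Z ∈ Ds b μ (L.length + L'.length) := by
  obtain ⟨Pk, P0, P1, PU, -, Pv⟩ := exists_td h' hΦ' ha'
  obtain ⟨T, hT, hTB⟩ := cmp_blk h h' hx ha'
  -- the maps
  set S : Submodule ℂ (V b) := (vanL b L).restrictScalars ℂ with hS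
  let M : ℕ → (Box b → U b a) →ₗ[ℂ] (Box b → V b ⧸ S) := fun k =>
    LinearMap.pi fun β => S.mkQ ∘ₗ Pk k ∘ₗ (U b a).subtype ∘ₗ LinearMap.proj β
  have hMk : ∀ k v β, M k v β = S.mkQ (Pk k (v β : V b)) := fun k v β => rfl
  let g : ℕ → (Box b → V b ⧸ S) := fun k β =>
    - S.mkQ (Pk k ((X : ℂ[X]) ^ a • (cv (Pi.single β 1) : V b)))
  have hgk : ∀ k β, g k β = - S.mkQ (Pk k ((X : ℂ[X]) ^ a • (cv (Pi.single β 1) : V b))) :=
    fun k β => rfl
  let ℓ : (Box b → U b a) →ₗ[ℂ] Mt b :=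
    { toFun := fun v γ β => ((v β : V b) γ).coeff (a - 1)
      map_add' := by
        intro v w
        funext γ β
        change (((v β : V b) + (w β : V b)) γ).coeff (a - 1) = _
        rw [Pi.add_apply, coeff_add]
        rfl
      map_smul' := by
        intro c v
        funext γ β
        change ((c • (v β : V b)) γ).coeff (a - 1) = _
        rw [Pi.smul_apply, coeff_smul]
        rfl }
  have hℓ : ∀ v γ β, ℓ v γ β = ((v β : V b) γ).coeff (a - 1) := fun v γ β => rfl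
  have hmk : ∀ G : V b, S.mkQ G = 0 ↔ G ∈ vanL b L := by
    intro G
    rw [← LinearMap.mem_ker, Submodule.ker_mkQ, hS, Submodule.restrictScalars_mem]
  -- v₀
  have hcol : ∀ β : Box b, (fun γ => Φ γ β) ∈ vanL b L := hΦ.van
  have hv0 : ∀ β : Box b, ((fun γ => Φ γ β) - (X : ℂ[X]) ^ a • (cv (Pi.single β 1) : V b) : V b)
      ∈ U b a := by
    intro β γ j hj
    rw [Pi.sub_apply, coeff_sub, Cmp_single_coeff]
    rcases Nat.eq_or_lt_of_le hj with h1 | h1
    · subst h1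
      rw [hΦ.top γ β]
      by_cases h2 : γ = β <;> simp [h2]
    · rw [hΦ.deg γ β j h1]
      have : ¬ (γ = β ∧ j = a) := by omega
      rw [if_neg this, sub_zero]
  -- v₁
  have hcomb := fun β : Box b => hΦ.comb (fun κ => Z κ β)
  have hv1 : ∀ β : Box b, ((fun γ => divX (Φ.mulVec (cv fun κ => Z κ β) γ)) : V b) ∈ U b a := by
    intro β γ j hj
    change (divX (Φ.mulVec (cv fun κ => Z κ β) γ)).coeff j = 0
    rw [coeff_divX]
    exact (hcomb β).2.1 γ (j + 1) (by omega)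
  let v₀ : Box b → U b a := fun β => ⟨_, hv0 β⟩
  let v₁ : Box b → U b a := fun β => ⟨_, hv1 β⟩
  have hv₀ : ∀ β, (v₀ β : V b) = (fun γ => Φ γ β) - (X : ℂ[X]) ^ a • (cv (Pi.single β 1) : V b) :=
    fun β => rfl
  have hv₁ : ∀ β, (v₁ β : V b) = fun γ => divX (Φ.mulVec (cv fun κ => Z κ β) γ) := fun β => rfl
  have key := diff_lemma M g (a' + (a + 1)) (by omega) (by
      intro v hv
      funext β
      have h1 : S.mkQ (Pk 0 (v β : V b)) = 0 := by rw [← hMk, hv]; rfl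
      rw [hmk, P0] at h1
      have h2 := vanL_unit L ((X : ℂ[X]) ^ a') (by
        intro p hp
        rw [eval_pow, eval_X]
        exact pow_ne_zero _ (hx p hp)) _ h1
      have h3 := h.inj _ (v β).2 h2
      exact Subtype.ext h3) ℓ 0 (Ds b μ (L.length + L'.length)) (T ∪ {0})
      (hT.union (Set.finite_singleton 0)) (by
      intro δ hδ
      rw [Set.mem_union, not_or, Set.mem_singleton_iff] at hδ
      obtain ⟨Ψ, hΨ⟩ := exists_ph (hTB δ hδ.1)
      have hc := fun β => Cmp_col h h' Pk P0 PU Pv ha' δ hδ.2 hΨ β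
      choose v hvU hvc hvv using hc
      refine ⟨fun β => ⟨v β, hvU β⟩, ?_, ?_⟩
      · funext β
        rw [Finset.sum_apply, Finset.sum_apply]
        have h1 := (hmk _).2 (hvv β)
        rw [map_sum] at h1
        rw [← sub_eq_zero, ← Finset.sum_sub_distrib, ← h1]
        refine Finset.sum_congr rfl fun k _ => ?_
        rw [Pi.smul_apply, Pi.smul_apply, hMk, hgk, smul_neg, sub_neg_eq_add,
          (S.mkQ).map_smul (δ ^ k), (Pk k).map_add, (S.mkQ).map_add, smul_add]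
      · rw [add_zero]
        refine Submodule.subset_span ⟨a + a', L ++ scL δ L', Ψ, hTB δ hδ.1, ?_, hΨ, ?_⟩
        · rw [List.length_append, scL, List.length_map]
        · funext γ β
          rw [hℓ]
          rcases hvc β γ with h1 | h1
          · change (v β γ).coeff (a - 1) = (Ψ γ β).coeff (a + a' - 1)
            rw [h1]
            congr 1
            omega
          · omega) v₀ v₁ (by
      funext β
      rw [hMk, hgk, P0, P0, hv₀, smul_sub, map_sub]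
      have : S.mkQ ((X : ℂ[X]) ^ a' • (fun γ => Φ γ β : V b)) = 0 :=
        (hmk _).2 ((vanL b L).smul_mem _ (hcol β))
      rw [this, zero_sub]) (by
      funext β
      rw [Pi.add_apply, hMk, hMk, hgk, P0, ← add_eq_zero_iff_eq_neg, add_assoc, ← map_add, ← map_add,
        ← map_add, hmk, hv₀, sub_add_cancel, P1, hv₁]
      have hF := (hcomb β).1
      set F : V b := Φ.mulVec (cv fun κ => Z κ β) with hFdef
      have he : (cf Φ' (a' - 1)).mulVec (e0 (fun γ => Φ γ β)) = e0 F := by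
        have e1 : e0 (fun γ => Φ γ β : V b) = fun κ => ev Φ 0 κ β := by
          funext κ
          rw [e0, ev, coeff_zero_eq_eval_zero]
        have e2 : e0 F = fun γ => (ev Φ 0 * Z) γ β := by
          funext γ
          rw [e0, hFdef, (hcomb β).2.2.2 γ 0, Matrix.mul_apply, Matrix.mulVec, dotProduct]
          refine Finset.sum_congr rfl fun κ _ => ?_
          rw [cf, ev, coeff_zero_eq_eval_zero]
        rw [e1, e2, hZ]
        rfl
      rw [he]
      have hX : (X : ℂ[X]) ^ a' • (fun γ => divX (F γ) : V b) + (X : ℂ[X]) ^ (a' - 1) • cv (e0 F) =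
          (X : ℂ[X]) ^ (a' - 1) • F := by
        funext γ
        rw [Pi.add_apply, Pi.smul_apply, Pi.smul_apply, Pi.smul_apply, smul_eq_mul, smul_eq_mul,
          smul_eq_mul, cv, e0]
        nth_rewrite 3 [← divX_mul_X_add (F γ)]
        obtain ⟨a'', rfl⟩ : ∃ a'', a' = a'' + 1 := ⟨a' - 1, by omega⟩
        rw [Nat.add_sub_cancel, pow_succ]
        ring
      rw [hX]
      exact (vanL b L).smul_mem _ hF)
  constructor
  · have h1 := key.1
    rw [add_zero] at h1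
    convert h1 using 1
    funext γ β
    rw [hℓ, hv₀, Pi.sub_apply, coeff_sub, Cmp_single_coeff]
    have : ¬ (γ = β ∧ a - 1 = a) := by omega
    rw [if_neg this, sub_zero]
    rfl
  · convert key.2 using 1
    funext γ β
    rw [hℓ, hv₁]
    change Z γ β = (divX (Φ.mulVec (cv fun κ => Z κ β) γ)).coeff (a - 1)
    rw [coeff_divX, Nat.sub_add_cancel ha, (hcomb β).2.2.1 γ]

end Pool.Agent.H18.Tl

end

section

/-!
# Module Mx (TL): the maximal span

Proof of `exists_max`.  Let `I` be the set of the `s ≥ 1` such that a block with `s` points exists; `I` is not empty.  Choose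
`S ∈ I` with `finrank (Ds b μ S)` maximal (bounded by `finrank (Mt b)`; e.g. `Nat.findGreatest` or
`exists_max` for the bounded set of the values).
(1) `s, s' ∈ I → s + s' ∈ I` and `Ds b μ s ≤ Ds b μ (s + s')`: let `L`, `L'` be blocks with `s`, `s'` points, `Φ` the matrix of `L`; choose
`c` with `p.x + c ≠ 0` for `p ∈ L`; `cmp` for `shL c L` (`Blk.sh`, `Ph.sh`), `L'` (with `Z = (ev Φ 0)⁻¹ Φ'₁ ev Φ 0`, `Ph.isUnit`) gives
`cf Φ (a - 1) - (a c) • 1 ∈ Ds b μ (s + s')` (`cf_sh`), and `1 ∈ Ds b μ (s + s')` (`cmp_blk`, `Ds_one`).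
(2) So `Ds b μ S = Ds b μ (S + s)` for `s ∈ I` (`Submodule.eq_of_le_of_finrank_le`), and `Ds b μ s ≤ Ds b μ (s + S) = Ds b μ S`
(for `s ∉ I`, `s ≥ 1`, `Ds b μ s = ⊥`).
(3) `ad`: for a block `L` with `s` points and `Φ`, all `x ≠ 0`, `R = ev Φ 0` is invertible (`Ph.isUnit`); `Z = R⁻¹ Y R` is linear in `Y`; for a
generator `Y` of `Ds b μ S` it is in `Ds b μ (s + S) = Ds b μ S` by `cmp`.
-/

namespace Pool.Agent.H18.Tl

open Finset Polynomial

variable {τ : Type} [Fintype τ] [DecidableEq τ]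

omit [Fintype τ] [DecidableEq τ] in
/-- There is a shift with nonzero coordinates. -/
private theorem Mx_shift (L : List (Pt τ)) : ∃ c : ℂ, ∀ p ∈ L, p.x + c ≠ 0 := by
  classical
  obtain ⟨c, hc⟩ := Infinite.exists_notMem_finset (L.map fun p => -p.x).toFinset
  refine ⟨c, fun p hp h => hc ?_⟩
  rw [List.mem_toFinset, List.mem_map]
  exact ⟨p, hp, by linear_combination -h⟩

omit [Fintype τ] [DecidableEq τ] in
private theorem Mx_sh_ne (L : List (Pt τ)) (c : ℂ) (hc : ∀ p ∈ L, p.x + c ≠ 0) :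
    ∀ p ∈ shL c L, p.x ≠ 0 := by
  intro p hp
  rw [shL, List.mem_map] at hp
  obtain ⟨q, hq, rfl⟩ := hp
  exact hc q hq

/-- The sum of two block lengths is a block length. -/
private theorem Mx_blk {b : τ → ℕ} {μ a a' : ℕ} {L L' : List (Pt τ)} (hμ : 1 ≤ μ)
    (h : Blk b μ a L) (h' : Blk b μ a' L') (hL' : L' ≠ []) :
    ∃ a'' L'', Blk b μ a'' L'' ∧ L''.length = L.length + L'.length := by
  obtain ⟨c, hc⟩ := Mx_shift L
  obtain ⟨T, hT, hδ⟩ := cmp_blk (h.sh c) h' (Mx_sh_ne L c hc) (h'.pos hμ hL')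
  obtain ⟨δ, hδT⟩ := hT.exists_notMem
  refine ⟨_, _, hδ δ hδT, ?_⟩
  simp [shL, scL]

/-- The span grows. -/
private theorem Mx_le {b : τ → ℕ} {μ s a' : ℕ} {L' : List (Pt τ)} (hμ : 1 ≤ μ) (hs : 1 ≤ s)
    (h' : Blk b μ a' L') (hL' : L' ≠ []) : Ds b μ s ≤ Ds b μ (s + L'.length) := by
  refine Submodule.span_le.2 ?_
  rintro Y ⟨a, L, Φ, h, hLs, hΦ, rfl⟩
  have hL : L ≠ [] := by
    rintro rfl
    rw [List.length_nil] at hLs
    omega
  obtain ⟨c, hc⟩ := Mx_shift L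
  have hx := Mx_sh_ne L c hc
  obtain ⟨Φ', hΦ'⟩ := exists_ph h'
  have hu := (hΦ.sh c).isUnit (h.sh c) 0 hx
  obtain ⟨u, hu⟩ := hu
  have h1 := (cmp (h.sh c) (hΦ.sh c) h' hΦ' hx (h.pos hμ hL) (h'.pos hμ hL')
    (((u⁻¹ : (Mt b)ˣ) : Mt b) * (cf Φ' (a' - 1) * (u : Mt b))) (by
      rw [← hu, ← mul_assoc, Units.mul_inv, one_mul])).1
  rw [cf_sh hΦ (h.pos hμ hL)] at h1
  have hlen : (shL c L).length = s := by
    rw [shL, List.length_map, hLs]
  rw [hlen] at h1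
  have h2 : (1 : Mt b) ∈ Ds b μ (s + L'.length) := by
    refine Ds_one hμ (by omega) ?_
    obtain ⟨a'', L'', h'', h3⟩ := Mx_blk hμ h h' hL'
    exact ⟨a'', L'', h'', by rw [h3, hLs]⟩
  have h3 := (Ds b μ (s + L'.length)).add_mem h1
    ((Ds b μ (s + L'.length)).smul_mem ((a : ℂ) * c) h2)
  rw [sub_add_cancel] at h3
  exact h3

/-- A length with the largest span. -/
private theorem Mx_choice {b : τ → ℕ} {μ : ℕ} (hex : ∃ a L, Blk b μ a L ∧ L ≠ []) :
    ∃ S, 1 ≤ S ∧ (∃ a L, Blk b μ a L ∧ L.length = S) ∧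
      ∀ s, (∃ a L, Blk b μ a L ∧ L.length = s) → 1 ≤ s →
        Module.finrank ℂ (Ds b μ s) ≤ Module.finrank ℂ (Ds b μ S) := by
  classical
  have hmain : ∀ n : ℕ, ∀ s, (∃ a L, Blk b μ a L ∧ L.length = s) → 1 ≤ s →
      Module.finrank ℂ (Mt b) ≤ Module.finrank ℂ (Ds b μ s) + n →
      ∃ S, 1 ≤ S ∧ (∃ a L, Blk b μ a L ∧ L.length = S) ∧
      ∀ s, (∃ a L, Blk b μ a L ∧ L.length = s) → 1 ≤ s →
        Module.finrank ℂ (Ds b μ s) ≤ Module.finrank ℂ (Ds b μ S) := by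
    intro n
    induction n with
    | zero =>
      intro s hs h1 h2
      refine ⟨s, h1, hs, fun t _ _ => ?_⟩
      exact (Submodule.finrank_le _).trans h2
    | succ n ih =>
      intro s hs h1 h2
      by_cases hh : ∀ t, (∃ a L, Blk b μ a L ∧ L.length = t) → 1 ≤ t →
          Module.finrank ℂ (Ds b μ t) ≤ Module.finrank ℂ (Ds b μ s)
      · exact ⟨s, h1, hs, hh⟩
      · push Not at hh
        obtain ⟨t, ht, ht1, ht2⟩ := hh
        exact ih t ht ht1 (by omega)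
  obtain ⟨a, L, h, hL⟩ := hex
  exact hmain (Module.finrank ℂ (Mt b)) L.length ⟨a, L, h, rfl⟩
    (Nat.one_le_iff_ne_zero.2 (by simpa using hL)) (by omega)

/-- The properties of the maximal span. -/
structure Mxl (b : τ → ℕ) (μ : ℕ) (D : Submodule ℂ (Mt b)) : Prop where
  one : (1 : Mt b) ∈ D
  tz : ∀ Y ∈ D, ∀ c : τ → ℂ, tz b (-c) * Y * tz b c ∈ D
  rv : ∀ Y ∈ D, rv b * Y * rv b ∈ D
  ad : ∀ (a : ℕ) (L : List (Pt τ)) (Φ : Matrix (Box b) (Box b) ℂ[X]), Blk b μ a L → Ph b a L Φ →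
    L ≠ [] → (∀ p ∈ L, p.x ≠ 0) → ∀ Y ∈ D, ∀ Z, ev Φ 0 * Z = Y * ev Φ 0 → Z ∈ D
  ds : ∀ s, 1 ≤ s → Ds b μ s ≤ D

theorem exists_max {b : τ → ℕ} {μ : ℕ} (hμ : 1 ≤ μ) (hex : ∃ a L, Blk b μ a L ∧ L ≠ []) :
    ∃ S, 1 ≤ S ∧ (∃ a L, Blk b μ a L ∧ L.length = S) ∧ Mxl b μ (Ds b μ S) := by
  obtain ⟨S, hS1, hS, hmax⟩ := Mx_choice hex
  have hadd : ∀ s, (∃ a L, Blk b μ a L ∧ L.length = s) → 1 ≤ s →
      Ds b μ (s + S) = Ds b μ S := by
    intro s hs hs1
    obtain ⟨a₀, L₀, h₀, hL₀⟩ := hS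
    obtain ⟨a₁, L₁, h₁, hL₁⟩ := hs
    have hne : L₁ ≠ [] := by
      rintro rfl
      rw [List.length_nil] at hL₁
      omega
    have h1 : Ds b μ S ≤ Ds b μ (S + s) := by
      have := Mx_le (s := S) hμ hS1 h₁ hne
      rwa [hL₁] at this
    have h2 := hmax (S + s) (by
      obtain ⟨a'', L'', h'', h3⟩ := Mx_blk hμ h₀ h₁ hne
      exact ⟨a'', L'', h'', by rw [h3, hL₀, hL₁]⟩) (by omega)
    rw [add_comm s S]
    exact (Submodule.eq_of_le_of_finrank_le h1 h2).symm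
  refine ⟨S, hS1, hS, ?_, ?_, ?_, ?_, ?_⟩
  · exact Ds_one hμ hS1 hS
  · intro Y hY c
    exact Ds_tz c Y hY
  · intro Y hY
    exact Ds_rv Y hY
  · intro a L Φ h hΦ hL hx Y hY Z hZ
    obtain ⟨u, hu⟩ := hΦ.isUnit h 0 hx
    rw [← hu] at hZ
    have hZ' : Z = ((u⁻¹ : (Mt b)ˣ) : Mt b) * Y * (u : Mt b) := by
      rw [mul_assoc, ← hZ, ← mul_assoc, Units.inv_mul, one_mul]
    rw [hZ']
    have hle : Ds b μ S ≤ (Ds b μ S).comap
        ((LinearMap.mulLeft ℂ ((u⁻¹ : (Mt b)ˣ) : Mt b)) ∘ₗ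
          (LinearMap.mulRight ℂ (u : Mt b))) := by
      rw [Ds]
      refine Submodule.span_le.2 ?_
      rintro Y ⟨a', L', Φ', h', hLs, hΦ', rfl⟩
      have hL' : L' ≠ [] := by
        rintro rfl
        rw [List.length_nil] at hLs
        omega
      have h1 := (cmp h hΦ h' hΦ' hx (h.pos hμ hL) (h'.pos hμ hL')
        (((u⁻¹ : (Mt b)ˣ) : Mt b) * (cf Φ' (a' - 1) * (u : Mt b))) (by
          rw [← hu, ← mul_assoc, Units.mul_inv, one_mul])).2
      rw [hLs, hadd L.length ⟨a, L, h, rfl⟩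
        (Nat.one_le_iff_ne_zero.2 (by simpa using hL))] at h1
      exact h1
    have h2 := hle hY
    rw [Submodule.mem_comap, LinearMap.comp_apply, LinearMap.mulLeft_apply,
      LinearMap.mulRight_apply, ← mul_assoc] at h2
    exact h2
  · intro s hs
    conv_lhs => rw [Ds]
    refine Submodule.span_le.2 ?_
    rintro Y ⟨a, L, Φ, h, hLs, hΦ, hY⟩
    obtain ⟨a₀, L₀, h₀, hL₀⟩ := hS
    have hne : L₀ ≠ [] := by
      rintro rfl
      rw [List.length_nil] at hL₀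
      omega
    have h1 := Mx_le (s := s) hμ hs h₀ hne
    rw [hL₀, hadd s ⟨a, L, h, hLs⟩ hs] at h1
    exact h1 (Submodule.subset_span ⟨a, L, Φ, h, hLs, hΦ, hY⟩)

/-- Conjugation by the values of `Φ` at all points. -/
theorem Mxl.adx {b : τ → ℕ} {μ : ℕ} {D : Submodule ℂ (Mt b)} (hD : Mxl b μ D) {a : ℕ}
    {L : List (Pt τ)} {Φ : Matrix (Box b) (Box b) ℂ[X]} (h : Blk b μ a L) (hΦ : Ph b a L Φ)
    (hL : L ≠ []) (x : ℂ) (hx : ∀ p ∈ L, p.x ≠ x) (Y : Mt b) (hY : Y ∈ D) (Z : Mt b)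
    (hZ : ev Φ x * Z = Y * ev Φ x) : Z ∈ D := by
  have h1 := hD.ad a (shL (-x) L) (Φ.map (taylor (-(-x)))) (h.sh (-x)) (hΦ.sh (-x)) (by
    intro h2
    rw [shL, List.map_eq_nil_iff] at h2
    exact hL h2) (Mx_sh_ne L (-x) (fun p hp h2 => hx p hp (by linear_combination h2))) Y hY Z
  rw [ev_sh, zero_sub, neg_neg] at h1
  exact h1 hZ

/-- The inverse conjugation (`Y ↦ (ev Φ x)⁻¹ * Y * ev Φ x` is injective on the finite dimensional space `D`, so it is
surjective). -/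
theorem Mxl.adx' {b : τ → ℕ} {μ : ℕ} {D : Submodule ℂ (Mt b)} (hD : Mxl b μ D) {a : ℕ}
    {L : List (Pt τ)} {Φ : Matrix (Box b) (Box b) ℂ[X]} (h : Blk b μ a L) (hΦ : Ph b a L Φ)
    (hL : L ≠ []) (x : ℂ) (hx : ∀ p ∈ L, p.x ≠ x) (Y : Mt b) (hY : Y ∈ D) (Z : Mt b)
    (hZ : Z * ev Φ x = ev Φ x * Y) : Z ∈ D := by
  obtain ⟨u, hu⟩ := hΦ.isUnit h x hx
  rw [← hu] at hZ
  have hstab : ∀ W ∈ D, ((LinearMap.mulLeft ℂ ((u⁻¹ : (Mt b)ˣ) : Mt b)) ∘ₗ
      (LinearMap.mulRight ℂ (u : Mt b))) W ∈ D := by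
    intro W hW
    refine hD.adx h hΦ hL x hx W hW _ ?_
    rw [LinearMap.comp_apply, LinearMap.mulLeft_apply, LinearMap.mulRight_apply, ← hu,
      ← mul_assoc, Units.mul_inv, one_mul]
  have hinj : Function.Injective (((LinearMap.mulLeft ℂ ((u⁻¹ : (Mt b)ˣ) : Mt b)) ∘ₗ
      (LinearMap.mulRight ℂ (u : Mt b))).restrict hstab) := by
    rw [injective_iff_map_eq_zero]
    rintro ⟨W, hW⟩ h0
    have h1 : ((u⁻¹ : (Mt b)ˣ) : Mt b) * (W * (u : Mt b)) = 0 := congrArg Subtype.val h0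
    rw [Units.mul_right_eq_zero, Units.mul_left_eq_zero] at h1
    exact Subtype.ext h1
  obtain ⟨⟨W, hW⟩, hWY⟩ := LinearMap.surjective_of_injective hinj ⟨Y, hY⟩
  have h1 : ((u⁻¹ : (Mt b)ˣ) : Mt b) * (W * (u : Mt b)) = Y := congrArg Subtype.val hWY
  have h2 : W * (u : Mt b) = (u : Mt b) * Y := by
    rw [← h1, ← mul_assoc, Units.mul_inv, one_mul]
  have h3 : Z = W := by
    rw [← Units.mul_left_inj u, hZ, h2]
  rw [h3]
  exact hW

end Pool.Agent.H18.Tl

end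

section

/-!
# Module CaseA (TL): a matrix of rank one

Let `Φ γ β = X^(μ - dg γ) H γ β` (`loc`), `R = H.adjugate`, `P γ β = C (Y γ β) * X^(μ - (μ - dg γ) + (μ - dg β))` (polynomial, since
`μ - dg γ ≤ μ`), `Q = R * P * H`.  For all `x` different from `0` and the `p.x` the matrix `ev Φ x` is invertible and
`ev Φ x * ev Q x = x^μ det(ev H x) • (Y * ev Φ x)` (`ev Φ x = Λ ev H x`, `Λ` diagonal with entries `x^(μ - dg γ)`, `Λ * ev P x = x^μ • (Y * Λ)`,
`ev H x * ev R x = det (ev H x) • 1`).  So `ev Q x ∈ D` (`Mxl.adx` for `Y' = x^μ det(ev H x) • Y`).  By `mem_of_poly` (coefficients `cf Q k`)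
`cf Q 0 = ev Q 0 ∈ D`.  `ev P 0 γ β = Y γ β` if `μ - (μ - dg γ) + (μ - dg β) = 0`, i.e. `γ = zb b` (`dg γ = 0`) and `μ ≤ dg β`, and `0` otherwise; so
`ev P 0 = vecMulVec (Pi.single (zb b) 1) y`, `y β = Y (zb b) β` if `μ ≤ dg β`, else `0`; `y ≠ 0`; and
`ev Q 0 = vecMulVec (adj(ev H 0) e_0) (y ᵥ* ev H 0)`; both vectors are not zero since `det (ev H 0) ≠ 0`.

`ev_mem`: the evaluation of a polynomial matrix at almost all points is in `D` implies that the coefficients are in `D`.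
-/

namespace Pool.Agent.H18.Tl

open Finset Polynomial Matrix

variable {τ : Type} [Fintype τ] [DecidableEq τ] {b : τ → ℕ} {μ a : ℕ} {L₀ : List (Pt τ)}

theorem cf_mem_of_ev (D : Submodule ℂ (Mt b)) (Q : Matrix (Box b) (Box b) ℂ[X]) (T : Set ℂ)
    (hT : T.Finite) (h : ∀ x : ℂ, x ∉ T → ev Q x ∈ D) (k : ℕ) : cf Q k ∈ D := by
  have hdeg : ∀ γ β : Box b,
      (Q γ β).natDegree < k + 1 + ∑ γ' : Box b, ∑ β' : Box b, (Q γ' β').natDegree := by
    intro γ β
    have h1 : (Q γ β).natDegree ≤ ∑ β' : Box b, (Q γ β').natDegree :=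
      Finset.single_le_sum (f := fun β' => (Q γ β').natDegree) (fun _ _ => Nat.zero_le _)
        (Finset.mem_univ β)
    have h2 : ∑ β' : Box b, (Q γ β').natDegree ≤
        ∑ γ' : Box b, ∑ β' : Box b, (Q γ' β').natDegree :=
      Finset.single_le_sum (f := fun γ' => ∑ β' : Box b, (Q γ' β').natDegree)
        (fun _ _ => Nat.zero_le _) (Finset.mem_univ γ)
    omega
  refine mem_of_poly D (k + 1 + ∑ γ' : Box b, ∑ β' : Box b, (Q γ' β').natDegree)
    (fun j => cf Q j) T hT ?_ k (by omega)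
  intro δ hδ
  have heq : ∑ j ∈ range (k + 1 + ∑ γ' : Box b, ∑ β' : Box b, (Q γ' β').natDegree),
      δ ^ j • cf Q j = ev Q δ := by
    ext γ β
    rw [Matrix.sum_apply]
    simp only [Matrix.smul_apply, cf, ev, smul_eq_mul]
    rw [Polynomial.eval_eq_sum_range' (hdeg γ β)]
    exact Finset.sum_congr rfl fun j _ => mul_comm _ _
  rw [heq]
  exact h δ hδ

private theorem CaseA_ev_mul (A B : Matrix (Box b) (Box b) ℂ[X]) (x : ℂ) :
    ev (A * B) x = ev A x * ev B x :=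
  map_mul (evalRingHom x).mapMatrix A B

private theorem CaseA_ev_adj (A : Matrix (Box b) (Box b) ℂ[X]) (x : ℂ) :
    ev A.adjugate x = (ev A x).adjugate :=
  (evalRingHom x).map_adjugate A

/-- The conjugated matrix multiplied by the powers of `t`. -/
private noncomputable def CaseA_P (μ : ℕ) (Y : Mt b) : Matrix (Box b) (Box b) ℂ[X] :=
  fun γ β => C (Y γ β) * X ^ (μ - (μ - dg γ) + (μ - dg β))

private theorem CaseA_conj (Φ H : Matrix (Box b) (Box b) ℂ[X])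
    (hH : ∀ γ β, Φ γ β = X ^ (μ - dg γ) * H γ β) (Y : Mt b) (x : ℂ) :
    ev Φ x * ev (H.adjugate * CaseA_P μ Y * H) x =
      ((x ^ μ * (ev H x).det) • Y) * ev Φ x := by
  have h1 : ev Φ x = Matrix.diagonal (fun γ : Box b => x ^ (μ - dg γ)) * ev H x := by
    ext γ β
    rw [Matrix.diagonal_mul]
    simp only [ev, hH γ β, eval_mul, eval_pow, eval_X]
  have h2 : Matrix.diagonal (fun γ : Box b => x ^ (μ - dg γ)) * ev (CaseA_P μ Y) x =
      (x ^ μ) • (Y * Matrix.diagonal (fun γ : Box b => x ^ (μ - dg γ))) := by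
    ext γ β
    rw [Matrix.diagonal_mul, Matrix.smul_apply, Matrix.mul_diagonal]
    simp only [ev, CaseA_P, eval_mul, eval_pow, eval_X, eval_C, smul_eq_mul]
    have h3 : x ^ (μ - dg γ) * (Y γ β * x ^ (μ - (μ - dg γ) + (μ - dg β))) =
        Y γ β * x ^ ((μ - dg γ) + (μ - (μ - dg γ) + (μ - dg β))) := by
      rw [pow_add x (μ - dg γ)]
      ring
    have h4 : (μ - dg γ) + (μ - (μ - dg γ) + (μ - dg β)) = μ + (μ - dg β) := by omega
    rw [h3, h4, pow_add]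
    ring
  rw [CaseA_ev_mul, CaseA_ev_mul, CaseA_ev_adj, h1]
  calc Matrix.diagonal (fun γ : Box b => x ^ (μ - dg γ)) * ev H x *
        ((ev H x).adjugate * ev (CaseA_P μ Y) x * ev H x)
      = Matrix.diagonal (fun γ : Box b => x ^ (μ - dg γ)) * (ev H x * (ev H x).adjugate) *
        ev (CaseA_P μ Y) x * ev H x := by simp only [Matrix.mul_assoc]
    _ = (ev H x).det • ((Matrix.diagonal (fun γ : Box b => x ^ (μ - dg γ)) *
        ev (CaseA_P μ Y) x) * ev H x) := by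
          rw [Matrix.mul_adjugate, Matrix.mul_smul, Matrix.mul_one, Matrix.smul_mul,
            Matrix.smul_mul]
    _ = (ev H x).det • (((x ^ μ) • (Y * Matrix.diagonal (fun γ : Box b => x ^ (μ - dg γ)))) *
        ev H x) := by rw [h2]
    _ = ((x ^ μ * (ev H x).det) • Y) *
        (Matrix.diagonal (fun γ : Box b => x ^ (μ - dg γ)) * ev H x) := by
          rw [Matrix.smul_mul, Matrix.smul_mul, smul_smul, mul_comm ((ev H x).det),
            Matrix.mul_assoc]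

private theorem CaseA_dg_eq_zero (γ : Box b) (h : dg γ = 0) : γ = zb b := by
  funext l
  have h1 := (Finset.sum_eq_zero_iff.mp h) l (Finset.mem_univ l)
  exact Fin.ext h1

private theorem CaseA_dg_zb : dg (zb b) = 0 := by
  simp [dg, zb]

private theorem CaseA_P_zero (hμ : 1 ≤ μ) (Y : Mt b) :
    ev (CaseA_P μ Y) 0 = vecMulVec (Pi.single (zb b) 1 : Box b → ℂ)
      (fun β => if μ ≤ dg β then Y (zb b) β else 0) := by
  ext γ β
  rw [vecMulVec_apply]
  simp only [ev, CaseA_P, eval_mul, eval_pow, eval_X, eval_C]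
  by_cases hγ : γ = zb b
  · subst hγ
    rw [Pi.single_eq_same, one_mul, CaseA_dg_zb]
    by_cases hβ : μ ≤ dg β
    · rw [if_pos hβ]
      have h1 : μ - (μ - 0) + (μ - dg β) = 0 := by omega
      rw [h1, pow_zero, mul_one]
    · rw [if_neg hβ]
      have h1 : μ - (μ - 0) + (μ - dg β) ≠ 0 := by omega
      rw [zero_pow h1, mul_zero]
  · have h0 : dg γ ≠ 0 := fun h => hγ (CaseA_dg_eq_zero γ h)
    rw [Pi.single_eq_of_ne hγ, zero_mul]
    have h1 : μ - (μ - dg γ) + (μ - dg β) ≠ 0 := by omega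
    rw [zero_pow h1, mul_zero]

theorem caseA {D : Submodule ℂ (Mt b)} (hD : Mxl b μ D) (hμ : 1 ≤ μ)
    (h : Blk b μ a (⟨μ, 0, 0⟩ :: L₀)) (Y : Mt b) (hY : Y ∈ D) (β : Box b) (hβ : μ ≤ dg β)
    (hβ' : Y (zb b) β ≠ 0) : ∃ v ξ : Box b → ℂ, v ≠ 0 ∧ ξ ≠ 0 ∧ vecMulVec v ξ ∈ D := by
  obtain ⟨Φ, hΦ⟩ := exists_ph h
  obtain ⟨H, hH, hdet⟩ := loc h hΦ
  have hfin : ({x : ℂ | ∃ p ∈ ((⟨μ, 0, 0⟩ : Pt τ) :: L₀), p.x = x} : Set ℂ).Finite := by
    have h1 : ({x : ℂ | ∃ p ∈ ((⟨μ, 0, 0⟩ : Pt τ) :: L₀), p.x = x} : Set ℂ) =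
        {x : ℂ | x ∈ (((⟨μ, 0, 0⟩ : Pt τ) :: L₀).map Pt.x)} := by
      ext x
      simp only [Set.mem_setOf_eq, List.mem_map]
    rw [h1]
    exact List.finite_toSet _
  have hmem : cf (H.adjugate * CaseA_P μ Y * H) 0 ∈ D := by
    refine cf_mem_of_ev D _ _ hfin ?_ 0
    intro x hx
    have hx' : ∀ p ∈ ((⟨μ, 0, 0⟩ : Pt τ) :: L₀), p.x ≠ x := fun p hp h1 => hx ⟨p, hp, h1⟩
    exact hD.adx h hΦ (List.cons_ne_nil _ _) x hx' _
      (D.smul_mem (x ^ μ * (ev H x).det) hY) _ (CaseA_conj Φ H hH Y x)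
  have hcf : cf (H.adjugate * CaseA_P μ Y * H) 0 = ev (H.adjugate * CaseA_P μ Y * H) 0 := by
    ext γ β
    simp only [cf, ev, coeff_zero_eq_eval_zero]
  rw [hcf, CaseA_ev_mul, CaseA_ev_mul, CaseA_ev_adj, CaseA_P_zero hμ Y,
    Matrix.mul_vecMulVec, Matrix.vecMulVec_mul] at hmem
  refine ⟨_, _, ?_, ?_, hmem⟩
  · intro h1
    have h2 : (ev H 0).mulVec ((ev H 0).adjugate.mulVec (Pi.single (zb b) 1 : Box b → ℂ)) = 0 := by
      rw [h1, Matrix.mulVec_zero]
    rw [Matrix.mulVec_mulVec, Matrix.mul_adjugate, Matrix.smul_mulVec, Matrix.one_mulVec] at h2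
    have h3 := congrFun h2 (zb b)
    rw [Pi.smul_apply, Pi.single_eq_same, smul_eq_mul, mul_one] at h3
    exact hdet h3
  · intro h1
    have h2 : ((fun β : Box b => if μ ≤ dg β then Y (zb b) β else 0) ᵥ* ev H 0) ᵥ*
        (ev H 0).adjugate = 0 := by
      rw [h1, Matrix.zero_vecMul]
    rw [Matrix.vecMul_vecMul, Matrix.mul_adjugate, Matrix.vecMul_smul, Matrix.vecMul_one] at h2
    have h3 := congrFun h2 β
    rw [Pi.smul_apply, smul_eq_mul, if_pos hβ] at h3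
    exact (mul_ne_zero hdet hβ') h3

end Pool.Agent.H18.Tl

end
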