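import Pool.Agent.H94.LP4.M49

/-! The parts of this file: H18.Ex.Base, H18.Tj.Bal, H18.Tj.Load, H18.Tj.Online, H18.Tj.Thin. -/

section

/-!
# Module Base: dimension one
-/

namespace Pool.Agent.H18.Ex

open Finset

variable {ι : Type} [Fintype ι] [DecidableEq ι]

lemma base_ell_one (m : ℕ) : ell 1 m = m := by
  unfold ell
  simp

/-- presentation of a multiset by a family on `Fin n` -/
lemma base_exists_fin (G : Multiset ℕ) :
    ∃ (n : ℕ) (m : Fin n → ℕ), (univ : Finset (Fin n)).val.map m = G := by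
  induction G using Quotient.inductionOn with
  | h L =>
    refine ⟨L.length, L.get, ?_⟩
    rw [Fin.univ_val_map, List.ofFn_get]
    rfl

/-- The polynomial of one variable with coefficients `f`. -/
noncomputable def basePoly (A : Finset (ι → ℕ)) (f : (ι → ℕ) → ℂ) (u : ι) (i0 : ℕ) :
    Polynomial ℂ :=
  ∑ a ∈ A, Polynomial.monomial (a u - i0) (f a)

lemma base_tcr (u : ι) (q : ℂ) (a : ι → ℕ) (β : ℕ) :
    tcr (Function.update (fun _ => (1 : ℂ)) u q) a (Function.update (fun _ => 0) u β) =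
      (((a u).choose β : ℕ) : ℂ) * q ^ (a u - β) := by
  unfold tcr
  rw [← mul_prod_erase univ _ (mem_univ u), Function.update_self, Function.update_self]
  rw [prod_eq_one fun i hi => ?_, mul_one]
  have hi' : i ≠ u := (mem_erase.1 hi).1
  rw [Function.update_of_ne hi', Function.update_of_ne hi']
  simp

lemma base_dvd (A : Finset (ι → ℕ)) (f : (ι → ℕ) → ℂ) (u : ι) (q : ℂ) (m : ℕ)
    (h : Sat A f (Kind.free m) (Function.update (fun _ => (1 : ℂ)) u q)) :
    (Polynomial.X - Polynomial.C q) ^ m ∣ basePoly A f u 0 := by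
  rw [Polynomial.X_sub_C_pow_dvd_iff, ← Polynomial.taylor_apply, Polynomial.X_pow_dvd_iff]
  intro β hβ
  rw [Polynomial.taylor_coeff]
  have h1 := h (Function.update (fun _ => 0) u β) (by
    show ∑ i, Function.update (fun _ => 0) u β i < m
    rw [sum_update_of_mem (mem_univ u)]
    simpa using hβ)
  unfold basePoly
  rw [map_sum, Polynomial.eval_finsetSum, ← h1]
  refine sum_congr rfl fun a _ => ?_
  rw [Polynomial.hasseDeriv_monomial, Polynomial.eval_monomial, Nat.sub_zero]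
  show _ = f a * tcr (Function.update (fun _ => (1 : ℂ)) u q) a (Function.update (fun _ => 0) u β)
  rw [base_tcr]
  ring

/-- Dimension one is always exact.

Proof.  Let `u ≠ v` be the two active coordinates; every `a ∈ Rg σ w` is determined by `a u`,
which runs through an interval `[i₀, i₀ + N - 1]`, `N = |Rg σ w|`, `a v = σ - a u`.  Take positions
with `q_v = 1` (and all inactive coordinates `1`), `q_u` pairwise distinct and nonzero.  For
`b = β e_u` the condition `∑_a f a tcr q a b = 0` says that the `β`-th Hasse derivative at `q_u` of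
`P = ∑_a f a X^(a u)` vanishes; for `β < m` this gives `(X - q_u)^m ∣ P`
(`Polynomial.hasseDeriv`, `Polynomial.taylor`, e.g. `Polynomial.X_sub_C_pow_dvd_iff`
/ `Polynomial.taylor_coeff`).  `P = X^i₀ * P'` with `deg P' < N`; the pairwise coprime powers
`(X - q_i)^(m_i)` are coprime to `X` and divide `P'`, their product has degree
`∑ m_i ≥ N`, so `P' = 0`.  (`ell 1 m = m`.) -/
theorem base_one (M σ : ℕ) (w : ι → ℕ) (h : (univ.filter fun i => 0 < w i).card = 2) :
    Exa 1 M (Rg σ w) := by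
  intro G _ hG
  obtain ⟨n, m, hm⟩ := base_exists_fin G
  refine ⟨n, fun i => Kind.free (m i), ?_, ?_⟩
  · rw [← hm, Multiset.map_map]
    rfl
  have hsum : (Rg σ w).card ≤ ∑ i, m i := by
    refine hG.trans (le_of_eq ?_)
    rw [← hm, Multiset.map_map]
    show ∑ i, ell 1 (m i) = _
    exact sum_congr rfl fun i _ => base_ell_one _
  obtain ⟨u, v, huv, hact⟩ := card_eq_two.1 h
  -- structure of the region
  have hzero : ∀ a ∈ Rg σ w, ∀ i, i ≠ u → i ≠ v → a i = 0 := by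
    intro a ha i hiu hiv
    rw [mem_Rg] at ha
    have h1 : i ∉ univ.filter fun i => 0 < w i := by
      rw [hact]
      simp [hiu, hiv]
    simp only [mem_filter, mem_univ, true_and, not_lt, Nat.le_zero] at h1
    have := ha.1 i
    omega
  have huvsum : ∀ a ∈ Rg σ w, a u + a v = σ := by
    intro a ha
    have h1 : ∑ i, a i = a u + (a v + ∑ i ∈ (univ.erase u).erase v, a i) := by
      rw [add_sum_erase _ _ (mem_erase.2 ⟨huv.symm, mem_univ v⟩), add_sum_erase _ _ (mem_univ u)]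
    have h2 : ∑ i ∈ (univ.erase u).erase v, a i = 0 := by
      refine sum_eq_zero fun i hi => ?_
      rw [mem_erase, mem_erase] at hi
      exact hzero a ha i hi.2.1 hi.1
    have h3 := (mem_Rg.1 ha).2
    omega
  have hinj : ∀ a ∈ Rg σ w, ∀ a' ∈ Rg σ w, a u = a' u → a = a' := by
    intro a ha a' ha' he
    have h1 := huvsum a ha
    have h2 := huvsum a' ha'
    funext i
    by_cases hiu : i = u
    · rw [hiu, he]
    · by_cases hiv : i = v
      · rw [hiv]; omega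
      · rw [hzero a ha i hiu hiv, hzero a' ha' i hiu hiv]
  set i0 := σ - w v with hi0
  have hge : ∀ a ∈ Rg σ w, i0 ≤ a u := by
    intro a ha
    have h1 := huvsum a ha
    have h2 := (mem_Rg.1 ha).1 v
    omega
  have hlt : ∀ a ∈ Rg σ w, a u - i0 < (Rg σ w).card := by
    intro a ha
    have hsub : Icc i0 (min (w u) σ) ⊆ (Rg σ w).image fun x => x u := by
      intro t ht
      rw [mem_Icc] at ht
      have ht1 : t ≤ w u := ht.2.trans (min_le_left _ _)
      have ht2 : t ≤ σ := ht.2.trans (min_le_right _ _)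
      rw [mem_image]
      refine ⟨Function.update (Function.update (fun _ => 0) u t) v (σ - t), mem_Rg.2 ⟨?_, ?_⟩, ?_⟩
      · intro i
        by_cases hiv : i = v
        · rw [hiv, Function.update_self]; omega
        · rw [Function.update_of_ne hiv]
          by_cases hiu : i = u
          · rw [hiu, Function.update_self]; exact ht1
          · rw [Function.update_of_ne hiu]; exact Nat.zero_le _
      · rw [sum_update_of_mem (mem_univ v), ← erase_eq, ← add_sum_erase _ _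
          (mem_erase.2 ⟨huv, mem_univ u⟩ : u ∈ univ.erase v), Function.update_self,
          sum_eq_zero fun i hi => ?_]
        · omega
        · rw [mem_erase] at hi
          rw [Function.update_of_ne hi.1]
      · show Function.update (Function.update (fun _ => 0) u t) v (σ - t) u = t
        rw [Function.update_of_ne huv, Function.update_self]
    have h1 := (card_le_card hsub).trans card_image_le
    rw [Nat.card_Icc] at h1
    have h2 := huvsum a ha
    have h3 := (mem_Rg.1 ha).1 u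
    have h4 : a u ≤ min (w u) σ := le_min h3 (by omega)
    have h5 := hge a ha
    omega
  -- the positions
  refine ⟨fun i => Function.update (fun _ => (1 : ℂ)) u ((i : ℕ) + 1 : ℂ), ?_⟩
  intro f hf
  set P := basePoly (Rg σ w) f u 0 with hP
  set P' := basePoly (Rg σ w) f u i0 with hP'
  have hPP : P = Polynomial.X ^ i0 * P' := by
    rw [hP, hP']
    unfold basePoly
    rw [mul_sum]
    refine sum_congr rfl fun a ha => ?_
    rw [Polynomial.X_pow_eq_monomial, Polynomial.monomial_mul_monomial, one_mul, Nat.sub_zero,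
      Nat.add_sub_cancel' (hge a ha)]
  set s : Fin n → ℂ := fun i => ((i : ℕ) + 1 : ℂ) with hs
  have hsinj : Function.Injective s := by
    intro i j hij
    simp only [hs, add_left_inj, Nat.cast_inj] at hij
    exact Fin.ext hij
  have hs0 : ∀ i, s i ≠ 0 := fun i => Nat.cast_add_one_ne_zero _
  set D : Polynomial ℂ := ∏ i, (Polynomial.X - Polynomial.C (s i)) ^ m i with hD
  have hDdvd : D ∣ P := by
    rw [hD]
    refine prod_dvd_of_coprime ?_ fun i _ => base_dvd _ _ _ _ _ (hf i)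
    intro i _ j _ hij
    exact (Polynomial.pairwise_coprime_X_sub_C hsinj hij).pow
  have hcop : IsCoprime D (Polynomial.X ^ i0) := by
    rw [hD]
    refine IsCoprime.prod_left fun i _ => IsCoprime.pow ?_
    have h1 := Polynomial.isCoprime_X_sub_C_of_isUnit_sub (a := s i) (b := (0 : ℂ))
      (by simpa using hs0 i)
    simpa using h1
  have hDP' : D ∣ P' := by
    rw [hPP] at hDdvd
    exact hcop.dvd_of_dvd_mul_left hDdvd
  have hDmonic : D.Monic := by
    rw [hD]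
    exact Polynomial.monic_prod_of_monic _ _ fun i _ => (Polynomial.monic_X_sub_C _).pow _
  have hDdeg : D.natDegree = ∑ i, m i := by
    rw [hD, Polynomial.natDegree_prod_of_monic _ _ fun i _ => (Polynomial.monic_X_sub_C _).pow _]
    refine sum_congr rfl fun i _ => ?_
    rw [(Polynomial.monic_X_sub_C (s i)).natDegree_pow, Polynomial.natDegree_X_sub_C, mul_one]
  have hP'0 : P' = 0 := by
    refine Polynomial.eq_zero_of_dvd_of_degree_lt hDP' ?_
    rw [Polynomial.degree_eq_natDegree hDmonic.ne_zero, hDdeg]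
    refine lt_of_lt_of_le ?_ (Nat.cast_le.2 hsum)
    rw [← Polynomial.mem_degreeLT]
    refine Submodule.sum_mem _ fun a ha => ?_
    rw [Polynomial.mem_degreeLT]
    exact lt_of_le_of_lt (Polynomial.degree_monomial_le _ _) (Nat.cast_lt.2 (hlt a ha))
  intro a ha
  have hc : P.coeff (a u) = f a := by
    rw [hP]
    unfold basePoly
    rw [Polynomial.finsetSum_coeff, sum_eq_single_of_mem a ha]
    · rw [Nat.sub_zero, Polynomial.coeff_monomial, if_pos rfl]
    · intro a' ha' hne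
      rw [Nat.sub_zero, Polynomial.coeff_monomial, if_neg fun he => hne (hinj a' ha' a ha he)]
  rw [← hc, hPP, hP'0, mul_zero, Polynomial.coeff_zero]

end Pool.Agent.H18.Ex

end

section

/-!
# Module T2 (TJ): balanced distribution

`rk ℓ u 0 s` is `ℓ - 1 - s` for `s < u` and `s - u` for `s ≥ u`.

`exists_weights`: let `W` be decreasing and convex, `d i = W i - W (i + 1)` (`≥ 0`, decreasing).  There are
`a_u ≥ 0`, `∑ a_u = 1`, such that `∑_u a_u W (rk ℓ u 0 s)` does not depend on `s < ℓ` (so it is `(∑_{t<ℓ} W t) / ℓ`,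
sum over `s`).  If `d 0 = 0` then `W` is constant and every `a` is good.  Let `d 0 > 0`, so `W 0 > W i` for `i ≥ 1`, and
`ℓ ≥ 2`.  With `R_{s+1} = ∑_{u > s} a_u` the difference of the values at `s` and `s + 1` is
`X_s - a_{s+1} (W 0 - W (ℓ - 2 - s))`, where `X_s = ∑_{u ≤ s} a_u d (s - u) - R_{s+1} d (ℓ - 2 - s)`.
For given `a_0` define (greedy) `R_1 = 1 - a_0` and `a_{s+1} = X_s / (W 0 - W (ℓ - 2 - s))`, `R_{s+2} = R_{s+1} - a_{s+1}`
for `s ≤ ℓ - 3`, finally `a_{ℓ-1} = R_{ℓ-1}`; then `∑ a = 1` and all differences vanish except possibly the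
last one, which is `X_{ℓ-2}`.
(1) If `a_0 = 1`: all `a_s ≥ 0` (`s ≤ ℓ - 2`) and all `R_s ≤ 0`, so `X_{ℓ-2} ≥ 0`.  (2) If `a_0 = 0`: `X_0 ≤ 0`, all `a_s ≤ 0`
(`1 ≤ s ≤ ℓ - 2`), all `R_s ≥ 1`, `X_{ℓ-2} ≤ 0`.  Everything is linear, so a convex combination of the two solutions
has `X_{ℓ-2} = 0`.  (3) Then all `a_s ≥ 0`: let `a_{s+1} < 0` be the first negative one, `s + 1 ≤ ℓ - 2`; then `X_s < 0`, so
`R_{s+1} > 0`, and by induction `a_{t+1} ≤ 0`, `R_{t+1} ≥ R_{s+1}`, `X_t ≤ X_s < 0` for all `t ≥ s` (the `d (t - u)`,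
`u ≤ s`, decrease, `d (ℓ - 2 - t)` increases), a contradiction at `t = ℓ - 2`.  Finally `X_{ℓ-2} = 0` reads
`∑_{u ≤ ℓ-2} a_u d (ℓ - 2 - u) = a_{ℓ-1} d 0`, so `a_{ℓ-1} ≥ 0`.

`bal`: `∑_u a_u ∑_s y s (ℓ W (rk ℓ u 0 s) - ∑ W) = 0`, so one of the terms is `≤ 0`.
-/

namespace Pool.Agent.H18.Tj

open Finset Pool.Agent.H18.Ta

/-- The difference of the values at `s` and `s + 1`, up to the term with `a (s + 1)`. -/
private def Bal_X (ℓ : ℕ) (d a : ℕ → ℝ) (s : ℕ) : ℝ :=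
  ∑ u ∈ range (s + 1), a u * d (s - u) - (1 - ∑ u ∈ range (s + 1), a u) * d (ℓ - 2 - s)

private theorem Bal_X_congr (ℓ : ℕ) (d : ℕ → ℝ) {a b : ℕ → ℝ} {s : ℕ}
    (h : ∀ u ≤ s, a u = b u) : Bal_X ℓ d a s = Bal_X ℓ d b s := by
  unfold Bal_X
  have h1 : ∑ u ∈ range (s + 1), a u * d (s - u) = ∑ u ∈ range (s + 1), b u * d (s - u) :=
    sum_congr rfl fun u hu => by rw [h u (by rw [mem_range] at hu; omega)]
  have h2 : ∑ u ∈ range (s + 1), a u = ∑ u ∈ range (s + 1), b u :=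
    sum_congr rfl fun u hu => by rw [h u (by rw [mem_range] at hu; omega)]
  rw [h1, h2]

/-- Greedy sequences. -/
private theorem Bal_greedy (ℓ : ℕ) (W d : ℕ → ℝ) (p : ℝ) (n : ℕ)
    (hpos : ∀ s < n, W 0 - W (ℓ - 2 - s) ≠ 0) :
    ∃ a : ℕ → ℝ, a 0 = p ∧ ∀ s < n, a (s + 1) * (W 0 - W (ℓ - 2 - s)) = Bal_X ℓ d a s := by
  induction n with
  | zero => exact ⟨fun _ => p, rfl, fun s hs => absurd hs (Nat.not_lt_zero s)⟩
  | succ n ih =>
    obtain ⟨a, ha0, ha⟩ := ih fun s hs => hpos s (by omega)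
    refine ⟨Function.update a (n + 1) (Bal_X ℓ d a n / (W 0 - W (ℓ - 2 - n))), ?_, ?_⟩
    · rw [Function.update_of_ne (by omega), ha0]
    · intro s hs
      rcases Nat.lt_succ_iff_lt_or_eq.1 hs with h | h
      · rw [Function.update_of_ne (by omega), ha s h]
        apply Bal_X_congr
        intro u hu
        rw [Function.update_of_ne (by omega)]
      · subst h
        rw [Function.update_self, div_mul_cancel₀ _ (hpos s (by omega))]
        apply Bal_X_congr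
        intro u hu
        rw [Function.update_of_ne (by omega)]

private theorem Bal_anti {d : ℕ → ℝ} (hd : ∀ i, d (i + 1) ≤ d i) {i j : ℕ} (h : i ≤ j) :
    d j ≤ d i := antitone_nat_of_succ_le hd h

/-- The value at the layer `s`. -/
private theorem Bal_value (ℓ : ℕ) (W a : ℕ → ℝ) {s : ℕ} (hs : s < ℓ)
    (hsum : ∑ u ∈ range ℓ, a u = 1) :
    ∑ u ∈ range ℓ, a u * W (rk ℓ u 0 s) =
      ∑ u ∈ range (s + 1), a u * W (s - u) + (1 - ∑ u ∈ range (s + 1), a u) * W (ℓ - 1 - s) := by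
  have h1 : range ℓ = range (s + 1) ∪ (range ℓ \ range (s + 1)) := by
    rw [union_sdiff_of_subset]
    exact range_subset_range.2 (by omega)
  have hdis : Disjoint (range (s + 1)) (range ℓ \ range (s + 1)) := disjoint_sdiff
  have h2 : ∑ u ∈ range ℓ \ range (s + 1), a u = 1 - ∑ u ∈ range (s + 1), a u := by
    rw [h1, sum_union hdis] at hsum
    linarith
  conv_lhs => rw [h1, sum_union hdis]
  rw [← h2, sum_mul]
  congr 1
  · refine sum_congr rfl fun u hu => ?_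
    rw [mem_range] at hu
    congr 2
    unfold rk
    rw [if_neg (by omega)]
    split_ifs <;> omega
  · refine sum_congr rfl fun u hu => ?_
    rw [mem_sdiff, mem_range, mem_range] at hu
    congr 2
    unfold rk
    rw [if_pos (by omega)]

private theorem Bal_total (ℓ : ℕ) (W a : ℕ → ℝ) (hsum : ∑ u ∈ range ℓ, a u = 1) :
    ∑ s ∈ range ℓ, ∑ u ∈ range ℓ, a u * W (rk ℓ u 0 s) = ∑ t ∈ range ℓ, W t := by
  rw [sum_comm]
  have h1 : ∀ u ∈ range ℓ, ∑ s ∈ range ℓ, a u * W (rk ℓ u 0 s) = a u * ∑ t ∈ range ℓ, W t := by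
    intro u hu
    rw [mem_range] at hu
    rw [← mul_sum]
    congr 1
    have hinj : Set.InjOn (rk ℓ u 0) (range ℓ : Finset ℕ) := by
      intro s hs t ht he
      exact rk_inj (by omega) (mem_range.1 hs) (mem_range.1 ht) he
    have himg : (range ℓ).image (rk ℓ u 0) = range ℓ := by
      apply eq_of_subset_of_card_le
      · intro k hk
        obtain ⟨s, hs, rfl⟩ := mem_image.1 hk
        exact mem_range.2 (rk_lt (by omega) (mem_range.1 hs))
      · rw [card_image_of_injOn hinj]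
    conv_rhs => rw [← himg, sum_image hinj]
  rw [sum_congr rfl h1, ← sum_mul, hsum, one_mul]

/-- The combinatorial core: signs of the combination of two greedy solutions. -/
private theorem Bal_signs (n : ℕ) (W d c : ℕ → ℝ) (hd0 : ∀ i, 0 ≤ d i)
    (hdd : ∀ i, d (i + 1) ≤ d i) (hpos : ∀ s < n, 0 < W 0 - W (n - s))
    (hc0 : 0 ≤ c 0) (hc : ∀ s < n, c (s + 1) * (W 0 - W (n - s)) = Bal_X (n + 2) d c s)
    (hX : Bal_X (n + 2) d c n = 0) : ∀ u ≤ n, 0 ≤ c u := by
  by_contra hcon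
  push Not at hcon
  classical
  have hex : ∃ u, u ≤ n ∧ c u < 0 := by
    obtain ⟨u, hu, hlt⟩ := hcon
    exact ⟨u, hu, hlt⟩
  obtain ⟨hm1, hm2⟩ := Nat.find_spec hex
  have hmin : ∀ v < Nat.find hex, 0 ≤ c v := by
    intro v hv
    have h1 := Nat.find_min hex hv
    push Not at h1
    exact h1 (by omega)
  obtain ⟨s, hs⟩ : ∃ s, Nat.find hex = s + 1 := by
    rcases Nat.eq_zero_or_pos (Nat.find hex) with h | h
    · rw [h] at hm2
      linarith
    · exact ⟨Nat.find hex - 1, by omega⟩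
  rw [hs] at hm1 hm2 hmin
  have hXs : Bal_X (n + 2) d c s < 0 := by
    rw [← hc s (by omega)]
    exact mul_neg_of_neg_of_pos hm2 (hpos s (by omega))
  have hsum0 : ∀ t, s ≤ t → 0 ≤ ∑ u ∈ range (s + 1), c u * d (t - u) := fun t _ =>
    sum_nonneg fun u hu => mul_nonneg (hmin u (by rw [mem_range] at hu; omega)) (hd0 _)
  have hR : 0 < 1 - ∑ u ∈ range (s + 1), c u := by
    unfold Bal_X at hXs
    have h1 := hsum0 s le_rfl
    by_contra h2
    push Not at h2
    have h3 := mul_nonpos_of_nonpos_of_nonneg h2 (hd0 (n + 2 - 2 - s))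
    linarith
  -- induction
  have key : ∀ t, s ≤ t → t ≤ n → (Bal_X (n + 2) d c t ≤ Bal_X (n + 2) d c s) ∧
      (1 - ∑ u ∈ range (s + 1), c u ≤ 1 - ∑ u ∈ range (t + 1), c u) ∧
      (∀ v, s < v → v ≤ t → c v ≤ 0) := by
    intro t ht
    induction t, ht using Nat.le_induction with
    | base =>
      intro _
      exact ⟨le_rfl, le_rfl, fun v h1 h2 => by omega⟩
    | succ t ht ih =>
      intro htn
      obtain ⟨h1, h2, h3⟩ := ih (by omega)
      have h4 : c (t + 1) ≤ 0 := by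
        have h5 := hc t (by omega)
        have h6 : c (t + 1) * (W 0 - W (n - t)) < 0 := by
          rw [h5]
          linarith
        by_contra h7
        push Not at h7
        have h8 := mul_nonneg h7.le (hpos t (by omega)).le
        linarith
      have h5 : ∀ v, s < v → v ≤ t + 1 → c v ≤ 0 := by
        intro v hv1 hv2
        rcases Nat.lt_or_ge t v with h6 | h6
        · have : v = t + 1 := by omega
          rw [this]
          exact h4
        · exact h3 v hv1 h6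
      have h6 : 1 - ∑ u ∈ range (s + 1), c u ≤ 1 - ∑ u ∈ range (t + 1 + 1), c u := by
        rw [sum_range_succ c (t + 1)]
        linarith
      refine ⟨?_, h6, h5⟩
      -- the comparison
      have hsplit : range (t + 1 + 1) = range (s + 1) ∪ (range (t + 1 + 1) \ range (s + 1)) := by
        rw [union_sdiff_of_subset]
        exact range_subset_range.2 (by omega)
      have hdis : Disjoint (range (s + 1)) (range (t + 1 + 1) \ range (s + 1)) := disjoint_sdiff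
      have h7 : ∑ u ∈ range (t + 1 + 1), c u * d (t + 1 - u) ≤
          ∑ u ∈ range (s + 1), c u * d (s - u) := by
        rw [hsplit, sum_union hdis]
        have h8 : ∑ u ∈ range (t + 1 + 1) \ range (s + 1), c u * d (t + 1 - u) ≤ 0 := by
          apply sum_nonpos
          intro u hu
          rw [mem_sdiff, mem_range, mem_range] at hu
          exact mul_nonpos_of_nonpos_of_nonneg (h5 u (by omega) (by omega)) (hd0 _)
        have h9 : ∑ u ∈ range (s + 1), c u * d (t + 1 - u) ≤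
            ∑ u ∈ range (s + 1), c u * d (s - u) := by
          apply sum_le_sum
          intro u hu
          rw [mem_range] at hu
          exact mul_le_mul_of_nonneg_left (Bal_anti hdd (by omega)) (hmin u (by omega))
        linarith
      have h8 : (1 - ∑ u ∈ range (s + 1), c u) * d (n + 2 - 2 - s) ≤
          (1 - ∑ u ∈ range (t + 1 + 1), c u) * d (n + 2 - 2 - (t + 1)) :=
        mul_le_mul h6 (Bal_anti hdd (by omega)) (hd0 _) (by linarith)
      unfold Bal_X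
      linarith
  obtain ⟨h1, _, _⟩ := key n (by omega) le_rfl
  rw [hX] at h1
  linarith

private theorem Bal_const {W : ℕ → ℝ} (h : ∀ i, W (i + 1) = W i) : ∀ i, W i = W 0 := by
  intro i
  induction i with
  | zero => rfl
  | succ i ih => rw [h, ih]

theorem exists_weights (ℓ : ℕ) (hℓ : 1 ≤ ℓ) (W : ℕ → ℝ) (hdec : ∀ i, W (i + 1) ≤ W i)
    (hconv : ∀ i, 2 * W (i + 1) ≤ W i + W (i + 2)) :
    ∃ a : ℕ → ℝ, (∀ u < ℓ, 0 ≤ a u) ∧ ∑ u ∈ range ℓ, a u = 1 ∧
      ∀ s < ℓ, ∑ u ∈ range ℓ, a u * W (rk ℓ u 0 s) = (∑ t ∈ range ℓ, W t) / ℓ := by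
  have hℓ0 : (ℓ : ℝ) ≠ 0 := by
    have : (1 : ℝ) ≤ ℓ := by exact_mod_cast hℓ
    linarith
  -- it suffices that the values are constant
  have hfin : ∀ a : ℕ → ℝ, (∀ u < ℓ, 0 ≤ a u) → ∑ u ∈ range ℓ, a u = 1 →
      (∀ s, s + 1 < ℓ → ∑ u ∈ range ℓ, a u * W (rk ℓ u 0 s) =
        ∑ u ∈ range ℓ, a u * W (rk ℓ u 0 (s + 1))) →
      ∃ a : ℕ → ℝ, (∀ u < ℓ, 0 ≤ a u) ∧ ∑ u ∈ range ℓ, a u = 1 ∧
      ∀ s < ℓ, ∑ u ∈ range ℓ, a u * W (rk ℓ u 0 s) = (∑ t ∈ range ℓ, W t) / ℓ := by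
    intro a h1 h2 h3
    refine ⟨a, h1, h2, ?_⟩
    have h4 : ∀ s, s < ℓ → ∑ u ∈ range ℓ, a u * W (rk ℓ u 0 s) =
        ∑ u ∈ range ℓ, a u * W (rk ℓ u 0 0) := by
      intro s
      induction s with
      | zero => intro _; rfl
      | succ s ih => intro hs; rw [← h3 s hs, ih (by omega)]
    have h5 := Bal_total ℓ W a h2
    rw [sum_congr rfl fun s hs => h4 s (mem_range.1 hs), sum_const, card_range, nsmul_eq_mul] at h5
    intro s hs
    rw [h4 s hs, ← h5]
    field_simp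
  by_cases hW : W 1 = W 0
  · -- `W` is constant
    have h1 : ∀ i, W (i + 1) = W i := by
      intro i
      induction i with
      | zero => exact hW
      | succ i ih =>
        have h2 := hconv i
        have h3 := hdec (i + 1)
        linarith
    have h2 := Bal_const h1
    refine hfin (fun u => if u = 0 then 1 else 0) ?_ ?_ ?_
    · intro u _
      split_ifs <;> norm_num
    · rw [sum_ite_eq' (range ℓ) 0, if_pos (mem_range.2 (by omega))]
    · intro s _
      refine sum_congr rfl fun u _ => ?_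
      rw [h2 (rk ℓ u 0 s), h2 (rk ℓ u 0 (s + 1))]
  rcases Nat.lt_or_ge ℓ 2 with hℓ2 | hℓ2
  · have h1 : ℓ = 1 := by omega
    subst h1
    refine hfin (fun _ => 1) (fun _ _ => by norm_num) (by simp) ?_
    intro s hs
    omega
  obtain ⟨n, rfl⟩ : ∃ n, ℓ = n + 2 := ⟨ℓ - 2, by omega⟩
  set d : ℕ → ℝ := fun i => W i - W (i + 1) with hd
  have hd0 : ∀ i, 0 ≤ d i := fun i => by rw [hd]; beta_reduce; linarith [hdec i]
  have hdd : ∀ i, d (i + 1) ≤ d i := fun i => by
    rw [hd]; beta_reduce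
    have := hconv i
    linarith
  have hd00 : 0 < d 0 := by
    have h1 : W 1 < W 0 := lt_of_le_of_ne (hdec 0) hW
    rw [hd]
    beta_reduce
    linarith
  have hWanti : ∀ {i j : ℕ}, i ≤ j → W j ≤ W i := fun h => antitone_nat_of_succ_le hdec h
  have hpos : ∀ s < n, 0 < W 0 - W (n - s) := by
    intro s hs
    have h1 : W (n - s) ≤ W 1 := hWanti (by omega)
    have h2 : W 1 < W 0 := lt_of_le_of_ne (hdec 0) hW
    linarith
  -- the two solutions
  obtain ⟨a1, ha10, ha1⟩ := Bal_greedy (n + 2) W d 1 n (fun s hs => by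
    have h := hpos s hs
    rw [show n + 2 - 2 - s = n - s by omega]
    exact h.ne')
  obtain ⟨a0, ha00, ha0⟩ := Bal_greedy (n + 2) W d 0 n (fun s hs => by
    have h := hpos s hs
    rw [show n + 2 - 2 - s = n - s by omega]
    exact h.ne')
  have e : ∀ s, n + 2 - 2 - s = n - s := fun s => by omega
  have hA1 : ∀ t, t ≤ n → (∀ u ≤ t, 0 ≤ a1 u) ∧ 1 - ∑ u ∈ range (t + 1), a1 u ≤ 0 ∧
      0 ≤ Bal_X (n + 2) d a1 t := by
    have hX : ∀ t, (∀ u ≤ t, 0 ≤ a1 u) → 1 - ∑ u ∈ range (t + 1), a1 u ≤ 0 →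
        0 ≤ Bal_X (n + 2) d a1 t := by
      intro t h1 h2
      unfold Bal_X
      have h3 : 0 ≤ ∑ u ∈ range (t + 1), a1 u * d (t - u) :=
        sum_nonneg fun u hu => mul_nonneg (h1 u (by rw [mem_range] at hu; omega)) (hd0 _)
      have h4 := mul_nonpos_of_nonpos_of_nonneg h2 (hd0 (n + 2 - 2 - t))
      linarith
    intro t
    induction t with
    | zero =>
      intro _
      have h1 : ∀ u ≤ 0, 0 ≤ a1 u := by
        intro u hu
        rw [Nat.le_zero.1 hu, ha10]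
        norm_num
      have h2 : 1 - ∑ u ∈ range (0 + 1), a1 u ≤ 0 := by
        rw [zero_add, sum_range_one, ha10]
        norm_num
      exact ⟨h1, h2, hX 0 h1 h2⟩
    | succ t ih =>
      intro ht
      obtain ⟨h1, h2, h3⟩ := ih (by omega)
      have h4 : 0 ≤ a1 (t + 1) := by
        have h5 := ha1 t (by omega)
        have h6 := hpos t (by omega)
        rw [e] at h5
        by_contra h7
        push Not at h7
        have h8 := mul_neg_of_neg_of_pos h7 h6
        linarith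
      have h5 : ∀ u ≤ t + 1, 0 ≤ a1 u := by
        intro u hu
        rcases Nat.lt_or_ge t u with h6 | h6
        · rw [show u = t + 1 by omega]
          exact h4
        · exact h1 u h6
      have h6 : 1 - ∑ u ∈ range (t + 1 + 1), a1 u ≤ 0 := by
        rw [sum_range_succ]
        linarith
      exact ⟨h5, h6, hX _ h5 h6⟩
  have hA0 : ∀ t, t ≤ n → (∀ u ≤ t, a0 u ≤ 0) ∧ 1 ≤ 1 - ∑ u ∈ range (t + 1), a0 u ∧
      Bal_X (n + 2) d a0 t ≤ 0 := by
    have hX : ∀ t, (∀ u ≤ t, a0 u ≤ 0) → 1 ≤ 1 - ∑ u ∈ range (t + 1), a0 u →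
        Bal_X (n + 2) d a0 t ≤ 0 := by
      intro t h1 h2
      unfold Bal_X
      have h3 : ∑ u ∈ range (t + 1), a0 u * d (t - u) ≤ 0 :=
        sum_nonpos fun u hu => mul_nonpos_of_nonpos_of_nonneg
          (h1 u (by rw [mem_range] at hu; omega)) (hd0 _)
      have h4 : 0 ≤ (1 - ∑ u ∈ range (t + 1), a0 u) * d (n + 2 - 2 - t) :=
        mul_nonneg (by linarith) (hd0 _)
      linarith
    intro t
    induction t with
    | zero =>
      intro _
      have h1 : ∀ u ≤ 0, a0 u ≤ 0 := by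
        intro u hu
        rw [Nat.le_zero.1 hu, ha00]
      have h2 : 1 ≤ 1 - ∑ u ∈ range (0 + 1), a0 u := by
        rw [zero_add, sum_range_one, ha00]
        norm_num
      exact ⟨h1, h2, hX 0 h1 h2⟩
    | succ t ih =>
      intro ht
      obtain ⟨h1, h2, h3⟩ := ih (by omega)
      have h4 : a0 (t + 1) ≤ 0 := by
        have h5 := ha0 t (by omega)
        have h6 := hpos t (by omega)
        rw [e] at h5
        by_contra h7
        push Not at h7
        have h8 := mul_pos h7 h6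
        linarith
      have h5 : ∀ u ≤ t + 1, a0 u ≤ 0 := by
        intro u hu
        rcases Nat.lt_or_ge t u with h6 | h6
        · rw [show u = t + 1 by omega]
          exact h4
        · exact h1 u h6
      have h6 : 1 ≤ 1 - ∑ u ∈ range (t + 1 + 1), a0 u := by
        rw [sum_range_succ]
        linarith
      exact ⟨h5, h6, hX _ h5 h6⟩
  have hx1 := (hA1 n le_rfl).2.2
  have hx0 := (hA0 n le_rfl).2.2
  obtain ⟨lam, hl0, hl1, hlX⟩ : ∃ lam : ℝ, 0 ≤ lam ∧ lam ≤ 1 ∧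
      lam * Bal_X (n + 2) d a1 n + (1 - lam) * Bal_X (n + 2) d a0 n = 0 := by
    rcases eq_or_lt_of_le (show Bal_X (n + 2) d a0 n ≤ Bal_X (n + 2) d a1 n by linarith) with h | h
    · refine ⟨1, by norm_num, le_rfl, ?_⟩
      have : Bal_X (n + 2) d a1 n = 0 := by linarith
      rw [this]
      ring
    · have h1 : 0 < Bal_X (n + 2) d a1 n - Bal_X (n + 2) d a0 n := by linarith
      refine ⟨-Bal_X (n + 2) d a0 n / (Bal_X (n + 2) d a1 n - Bal_X (n + 2) d a0 n), ?_, ?_, ?_⟩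
      · exact div_nonneg (by linarith) h1.le
      · rw [div_le_one h1]
        linarith
      · field_simp
        ring
  set c : ℕ → ℝ := fun u => lam * a1 u + (1 - lam) * a0 u with hcdef
  have hXlin : ∀ t, Bal_X (n + 2) d c t =
      lam * Bal_X (n + 2) d a1 t + (1 - lam) * Bal_X (n + 2) d a0 t := by
    intro t
    unfold Bal_X
    have h1 : ∑ u ∈ range (t + 1), c u * d (t - u) =
        lam * ∑ u ∈ range (t + 1), a1 u * d (t - u) +
          (1 - lam) * ∑ u ∈ range (t + 1), a0 u * d (t - u) := by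
      rw [mul_sum, mul_sum, ← sum_add_distrib]
      exact sum_congr rfl fun u _ => by rw [hcdef]; ring
    have h2 : ∑ u ∈ range (t + 1), c u =
        lam * ∑ u ∈ range (t + 1), a1 u + (1 - lam) * ∑ u ∈ range (t + 1), a0 u := by
      rw [mul_sum, mul_sum, ← sum_add_distrib]
    rw [h1, h2]
    ring
  have hc0 : 0 ≤ c 0 := by
    rw [hcdef]
    beta_reduce
    rw [ha10, ha00]
    linarith
  have hc : ∀ s < n, c (s + 1) * (W 0 - W (n - s)) = Bal_X (n + 2) d c s := by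
    intro s hs
    have h1 := ha1 s hs
    have h0 := ha0 s hs
    rw [e] at h1 h0
    rw [hXlin, ← h1, ← h0, hcdef]
    ring
  have hcX : Bal_X (n + 2) d c n = 0 := by rw [hXlin]; exact hlX
  have hcn := Bal_signs n W d c hd0 hdd hpos hc0 hc hcX
  -- the weights
  set a : ℕ → ℝ := fun u => if u = n + 1 then 1 - ∑ v ∈ range (n + 1), c v else c u with hadef
  have hac : ∀ u ≤ n, a u = c u := fun u hu => by
    rw [hadef]
    beta_reduce
    rw [if_neg (by omega)]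
  have hasum : ∀ t ≤ n, ∑ u ∈ range (t + 1), a u = ∑ u ∈ range (t + 1), c u := fun t ht =>
    sum_congr rfl fun u hu => hac u (by rw [mem_range] at hu; omega)
  have hatot : ∑ u ∈ range (n + 2), a u = 1 := by
    rw [sum_range_succ, hasum n le_rfl, hadef]
    beta_reduce
    rw [if_pos rfl]
    ring
  have haX : ∀ t ≤ n, Bal_X (n + 2) d a t = Bal_X (n + 2) d c t := fun t ht =>
    Bal_X_congr _ _ fun u hu => hac u (by omega)
  refine hfin a ?_ hatot ?_
  · intro u hu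
    rcases Nat.lt_or_ge u (n + 1) with h | h
    · rw [hac u (by omega)]
      exact hcn u (by omega)
    · have h1 : u = n + 1 := by omega
      rw [h1, hadef]
      beta_reduce
      rw [if_pos rfl]
      have h2 := hcX
      unfold Bal_X at h2
      rw [show n + 2 - 2 - n = 0 by omega] at h2
      have h3 : 0 ≤ ∑ u ∈ range (n + 1), c u * d (n - u) :=
        sum_nonneg fun u hu => mul_nonneg (hcn u (by rw [mem_range] at hu; omega)) (hd0 _)
      by_contra h4
      push Not at h4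
      have h5 := mul_neg_of_neg_of_pos h4 hd00
      linarith
  · intro s hs
    rw [Bal_value (n + 2) W a (by omega) hatot, Bal_value (n + 2) W a hs hatot,
      sum_range_succ (fun u => a u * W (s + 1 - u)) (s + 1), sum_range_succ a (s + 1), Nat.sub_self]
    rw [show n + 2 - 1 - (s + 1) = n - s by omega, show n + 2 - 1 - s = n - s + 1 by omega]
    have h1 : ∑ u ∈ range (s + 1), a u * W (s + 1 - u) =
        ∑ u ∈ range (s + 1), a u * W (s - u) - ∑ u ∈ range (s + 1), a u * d (s - u) := by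
      rw [← sum_sub_distrib]
      refine sum_congr rfl fun u hu => ?_
      rw [mem_range] at hu
      rw [hd, show s + 1 - u = s - u + 1 by omega]
      ring
    rw [h1]
    have h2 : d (n - s) = W (n - s) - W (n - s + 1) := rfl
    have h3 : a (s + 1) * (W 0 - W (n - s)) = Bal_X (n + 2) d a s := by
      rw [haX s (by omega)]
      rcases Nat.lt_or_ge s n with h4 | h4
      · rw [hac (s + 1) (by omega)]
        exact hc s h4
      · have h5 : s = n := by omega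
        rw [h5, Nat.sub_self, sub_self, mul_zero, hcX]
    unfold Bal_X at h3
    rw [e, h2] at h3
    linarith

theorem bal (ℓ : ℕ) (hℓ : 1 ≤ ℓ) (W : ℕ → ℕ) (hdec : ∀ i, W (i + 1) ≤ W i)
    (hconv : ∀ i, 2 * W (i + 1) ≤ W i + W (i + 2)) (y : ℕ → ℤ) :
    ∃ u < ℓ, ∑ s ∈ range ℓ, y s * ((ℓ : ℤ) * W (rk ℓ u 0 s) - ∑ t ∈ range ℓ, (W t : ℤ)) ≤ 0 := by
  obtain ⟨a, ha0, hasum, ha⟩ := exists_weights ℓ hℓ (fun i => (W i : ℝ))
    (fun i => by exact_mod_cast hdec i) (fun i => by exact_mod_cast hconv i)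
  by_contra hcon
  push Not at hcon
  have hℓ0 : (ℓ : ℝ) ≠ 0 := by
    have : (1 : ℝ) ≤ ℓ := by exact_mod_cast hℓ
    linarith
  have h1 : ∀ u < ℓ, (0 : ℝ) < ∑ s ∈ range ℓ, (y s : ℝ) *
      ((ℓ : ℝ) * (W (rk ℓ u 0 s) : ℝ) - ∑ t ∈ range ℓ, (W t : ℝ)) := by
    intro u hu
    have h2 := hcon u hu
    have h3 : ((0 : ℤ) : ℝ) < ((∑ s ∈ range ℓ, y s * ((ℓ : ℤ) * W (rk ℓ u 0 s) -
        ∑ t ∈ range ℓ, (W t : ℤ)) : ℤ) : ℝ) := by exact_mod_cast h2
    push_cast at h3
    exact h3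
  have h2 : ∑ u ∈ range ℓ, a u * ∑ s ∈ range ℓ, (y s : ℝ) *
      ((ℓ : ℝ) * (W (rk ℓ u 0 s) : ℝ) - ∑ t ∈ range ℓ, (W t : ℝ)) = 0 := by
    have h3 : ∑ u ∈ range ℓ, a u * ∑ s ∈ range ℓ, (y s : ℝ) *
        ((ℓ : ℝ) * (W (rk ℓ u 0 s) : ℝ) - ∑ t ∈ range ℓ, (W t : ℝ)) =
        ∑ s ∈ range ℓ, (y s : ℝ) * ((ℓ : ℝ) * (∑ u ∈ range ℓ, a u * (W (rk ℓ u 0 s) : ℝ)) -
          (∑ u ∈ range ℓ, a u) * ∑ t ∈ range ℓ, (W t : ℝ)) := by
      generalize ∑ t ∈ range ℓ, (W t : ℝ) = T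
      rw [sum_congr rfl fun u _ => mul_sum (range ℓ) _ (a u), sum_comm]
      refine sum_congr rfl fun s _ => ?_
      rw [mul_sum, sum_mul, ← sum_sub_distrib, mul_sum]
      refine sum_congr rfl fun u _ => ?_
      ring
    rw [h3]
    apply sum_eq_zero
    intro s hs
    rw [ha s (mem_range.1 hs), hasum]
    field_simp
    ring
  have h3 : ∃ u ∈ range ℓ, 0 < a u := by
    by_contra h4
    push Not at h4
    have h5 : ∑ u ∈ range ℓ, a u ≤ 0 := sum_nonpos h4
    linarith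
  obtain ⟨u, hu, hau⟩ := h3
  have h4 : 0 < ∑ u ∈ range ℓ, a u * ∑ s ∈ range ℓ, (y s : ℝ) *
      ((ℓ : ℝ) * (W (rk ℓ u 0 s) : ℝ) - ∑ t ∈ range ℓ, (W t : ℝ)) := by
    apply sum_pos'
    · intro v hv
      exact mul_nonneg (ha0 v (mem_range.1 hv)) (h1 v (mem_range.1 hv)).le
    · exact ⟨u, hu, mul_pos hau (h1 u (mem_range.1 hu))⟩
  linarith

end Pool.Agent.H18.Tj

end

section

/-!
# Module T4 (TJ): distribution of the simple points

`β s` are the sizes of the layers, `L s` the loads by the points of multiplicity at least two (total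
`∑ L`), `x` the number of simple points; `N = ∑ β ≤ ∑ L + x ≤ N + V`.

Proof.  Put `xs s = β s - L s` for `s ≥ 1` and `xs 0 = x - ∑_{s ≥ 1} xs s`.  Claim: `x ≤ 2 ℓ (β s - L s)` (in `ℤ`) for all
`s < ℓ`.  `ℓ β s ≥ N - ℓ Δ` and with `δ = ℓ L s - ∑ L`, `δ² ≤ k ℓ³ V²`, `k ≤ ∑ L ≤ N + V`:
`2 ℓ (β s - L s) ≥ 2 (N - ∑ L) - 2 ℓ Δ - 2 δ ≥ 2 x - 2 V - 2 ℓ Δ - 2 δ`.  If this is `< x` then `x < 2 (V + ℓ Δ + |δ|)`,
`x² < 12 (V² + ℓ² Δ² + δ²) ≤ Z (N + 1)`, a contradiction (`Z ≥ 12 (V² + θ² Δ² + (1 + V) θ³ V²)`,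
`N + V ≤ (N + 1) (1 + V)`).  So all `xs s ≥ 0` are well defined, `xs 0 ≥ β 0 - L 0` as `N ≤ ∑ L + x`, and
`K' (β s + 1) ≤ K' (N + 1)`, `4 ℓ² K' (N + 1) ≤ x² ≤ 4 ℓ² (xs s)²`.
-/

namespace Pool.Agent.H18.Tj

open Finset

/-- The constant. -/
def zT (q θ V : ℕ) : ℕ :=
  12 * (V ^ 2 + θ ^ 2 * (θ ^ (q + 1)) ^ 2 + (1 + V) * (θ ^ 3 * V ^ 2))

private theorem Load_claim (q θ V ℓ k x N Λ b l : ℕ) (hθ : ℓ ≤ θ)
    (hb : N ≤ ℓ * (b + θ ^ (q + 1)))
    (hsum2 : Λ + x ≤ N + V) (hk : k ≤ Λ)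
    (hdev : ((ℓ : ℤ) * (l : ℤ) - (Λ : ℤ)) ^ 2 ≤ (k : ℤ) * (ℓ : ℤ) ^ 3 * (V : ℤ) ^ 2)
    (hx1 : zT q θ V * (N + 1) ≤ x ^ 2) :
    (x : ℤ) ≤ 2 * ℓ * ((b : ℤ) - l) := by
  by_contra hcon
  push Not at hcon
  obtain ⟨T, hT⟩ : ∃ T : ℕ, T = θ ^ (q + 1) := ⟨_, rfl⟩
  rw [← hT] at hb
  have hx1' : ((12 * (V ^ 2 + θ ^ 2 * T ^ 2 + (1 + V) * (θ ^ 3 * V ^ 2)) : ℕ) : ℤ) * ((N : ℤ) + 1)
      ≤ (x : ℤ) ^ 2 := by
    have : zT q θ V = 12 * (V ^ 2 + θ ^ 2 * T ^ 2 + (1 + V) * (θ ^ 3 * V ^ 2)) := by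
      rw [hT]; rfl
    rw [this] at hx1
    exact_mod_cast hx1
  push_cast at hx1'
  obtain ⟨d, hd⟩ : ∃ d : ℤ, d = |(ℓ : ℤ) * (l : ℤ) - (Λ : ℤ)| := ⟨_, rfl⟩
  have hd0 : 0 ≤ d := by rw [hd]; exact abs_nonneg _
  have hd1 : (ℓ : ℤ) * (l : ℤ) - (Λ : ℤ) ≤ d := by rw [hd]; exact le_abs_self _
  have hd2 : d ^ 2 ≤ (k : ℤ) * (ℓ : ℤ) ^ 3 * (V : ℤ) ^ 2 := by rw [hd, sq_abs]; exact hdev
  have hb' : (N : ℤ) ≤ ℓ * (b + T) := by exact_mod_cast hb
  have hs' : (Λ : ℤ) + x ≤ N + V := by exact_mod_cast hsum2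
  have hk' : (k : ℤ) ≤ N + V := by
    have : k ≤ N + V := by omega
    exact_mod_cast this
  have hθ' : (ℓ : ℤ) ≤ θ := by exact_mod_cast hθ
  have h1 : (x : ℤ) < 2 * (V + ℓ * T + d) := by nlinarith only [hsum2, hcon, hb, hd1]
  have hx0 : (0 : ℤ) ≤ x := by positivity
  have hl0 : (0 : ℤ) ≤ ℓ := by positivity
  have hV0 : (0 : ℤ) ≤ V := by positivity
  have hT0 : (0 : ℤ) ≤ T := by positivity
  have hN0 : (0 : ℤ) ≤ N := by positivity
  have hθ0 : (0 : ℤ) ≤ θ := by positivity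
  have h2 : (x : ℤ) ^ 2 < (2 * (V + ℓ * T + d)) ^ 2 := by
    have := mul_self_lt_mul_self hx0 h1
    nlinarith only [this]
  have h3 : (2 * ((V : ℤ) + ℓ * T + d)) ^ 2 ≤ 12 * (V ^ 2 + (ℓ * T) ^ 2 + d ^ 2) := by
    nlinarith only [sq_nonneg ((V : ℤ) - ℓ * T), sq_nonneg ((V : ℤ) - d), sq_nonneg ((ℓ : ℤ) * T - d)]
  have h4 : ((ℓ : ℤ) * T) ^ 2 ≤ θ ^ 2 * T ^ 2 := by
    rw [mul_pow]
    exact mul_le_mul_of_nonneg_right (pow_le_pow_left₀ hl0 hθ' 2) (by positivity)
  have h5 : (k : ℤ) * (ℓ : ℤ) ^ 3 * (V : ℤ) ^ 2 ≤ ((N : ℤ) + V) * (θ ^ 3 * V ^ 2) := by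
    have e1 : (ℓ : ℤ) ^ 3 ≤ θ ^ 3 := pow_le_pow_left₀ hl0 hθ' 3
    have e2 : (ℓ : ℤ) ^ 3 * V ^ 2 ≤ θ ^ 3 * V ^ 2 := mul_le_mul_of_nonneg_right e1 (by positivity)
    rw [mul_assoc]
    exact mul_le_mul hk' e2 (by positivity) (by positivity)
  have h6 : (V : ℤ) ^ 2 + θ ^ 2 * T ^ 2 ≤ (V ^ 2 + θ ^ 2 * T ^ 2) * (N + 1) := by
    have : (0 : ℤ) ≤ (V ^ 2 + θ ^ 2 * T ^ 2) * N := by positivity
    linarith only [this]
  have h7 : ((N : ℤ) + V) * (θ ^ 3 * V ^ 2) ≤ (1 + V) * (θ ^ 3 * V ^ 2) * (N + 1) := by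
    have : (0 : ℤ) ≤ (θ ^ 3 * V ^ 2) * (1 + V * N) := by positivity
    nlinarith only [hx1', hd2, h2, h3, h4, h5, h6, this]
  nlinarith only [hx1', hd2, h2, h3, h4, h5, h6, h7]

theorem distribute (q θ V ℓ k K' x : ℕ) (hℓ : 1 ≤ ℓ) (hθ : ℓ ≤ θ) (β L : ℕ → ℕ)
    (hβ : ∀ s < ℓ, ∀ t < ℓ, β s ≤ β t + θ ^ (q + 1))
    (hsum1 : ∑ s ∈ range ℓ, β s ≤ ∑ s ∈ range ℓ, L s + x)
    (hsum2 : ∑ s ∈ range ℓ, L s + x ≤ ∑ s ∈ range ℓ, β s + V)
    (hk : k ≤ ∑ s ∈ range ℓ, L s)
    (hdev : ∑ s ∈ range ℓ, ((ℓ : ℤ) * (L s : ℤ) - ∑ t ∈ range ℓ, (L t : ℤ)) ^ 2 ≤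
      (k : ℤ) * (ℓ : ℤ) ^ 3 * (V : ℤ) ^ 2)
    (hx1 : zT q θ V * (∑ s ∈ range ℓ, β s + 1) ≤ x ^ 2)
    (hx2 : 4 * θ ^ 2 * K' * (∑ s ∈ range ℓ, β s + 1) ≤ x ^ 2) :
    ∃ xs : ℕ → ℕ, ∑ s ∈ range ℓ, xs s = x ∧ (∀ s < ℓ, β s ≤ L s + xs s) ∧
      ∀ s < ℓ, K' * (β s + 1) ≤ xs s ^ 2 := by
  have claim : ∀ s < ℓ, (x : ℤ) ≤ 2 * ℓ * ((β s : ℤ) - L s) := by
    intro s hs
    refine Load_claim q θ V ℓ k x (∑ s ∈ range ℓ, β s) (∑ s ∈ range ℓ, L s) (β s) (L s) hθ ?_
      hsum2 hk ?_ hx1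
    · calc ∑ t ∈ range ℓ, β t ≤ ∑ _t ∈ range ℓ, (β s + θ ^ (q + 1)) :=
            sum_le_sum fun t ht => hβ t (mem_range.1 ht) s hs
        _ = ℓ * (β s + θ ^ (q + 1)) := by rw [sum_const, card_range, smul_eq_mul]
    · refine le_trans ?_ hdev
      have := single_le_sum (f := fun s => ((ℓ : ℤ) * (L s : ℤ) - ∑ t ∈ range ℓ, (L t : ℤ)) ^ 2)
        (fun i _ => sq_nonneg _) (mem_range.2 hs)
      push_cast
      exact this
  have hℓ0 : (0 : ℤ) < ℓ := by exact_mod_cast hℓ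
  have hle : ∀ s < ℓ, L s ≤ β s := by
    intro s hs
    have h1 := claim s hs
    have h2 : (0 : ℤ) ≤ 2 * ℓ * ((β s : ℤ) - L s) := le_trans (by positivity) h1
    have h3 : (0 : ℤ) ≤ (β s : ℤ) - L s := by
      by_contra h
      push Not at h
      have : 2 * (ℓ : ℤ) * ((β s : ℤ) - L s) < 0 := mul_neg_of_pos_of_neg (by linarith only [hℓ]) h
      linarith only [h1, this]
    omega
  obtain ⟨m, rfl⟩ : ∃ m, ℓ = m + 1 := ⟨ℓ - 1, by omega⟩
  have hs1 : ∑ s ∈ range (m + 1), β s = ∑ s ∈ range (m + 1), (β s - L s) +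
      ∑ s ∈ range (m + 1), L s := by
    rw [← sum_add_distrib]
    exact sum_congr rfl fun s hs => (Nat.sub_add_cancel (hle s (mem_range.1 hs))).symm
  have hs2 : ∑ s ∈ range (m + 1), (β s - L s) ≤ x := by omega
  rw [sum_range_succ'] at hs2
  refine ⟨fun s => if s = 0 then x - ∑ t ∈ range m, (β (t + 1) - L (t + 1)) else β s - L s,
    ?_, ?_, ?_⟩
  · rw [sum_range_succ']
    simp only [Nat.add_eq_zero_iff, one_ne_zero, and_false, if_false, if_true]
    omega
  · intro s hs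
    rcases Nat.eq_zero_or_pos s with h0 | h0
    · subst h0
      simp only [if_true]
      omega
    · simp only [h0.ne', if_false]
      have := hle s hs
      omega
  · intro s hs
    have h1 : ∃ y : ℕ, β s - L s ≤ y ∧ (if s = 0 then x - ∑ t ∈ range m, (β (t + 1) - L (t + 1))
        else β s - L s) = y := by
      refine ⟨_, ?_, rfl⟩
      rcases Nat.eq_zero_or_pos s with h0 | h0
      · subst h0
        simp only [if_true]
        omega
      · simp only [h0.ne', if_false, le_refl]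
    obtain ⟨y, hy, h2⟩ := h1
    show K' * (β s + 1) ≤ (if s = 0 then x - ∑ t ∈ range m, (β (t + 1) - L (t + 1))
        else β s - L s) ^ 2
    rw [h2]
    have h3 := claim s hs
    have h4 : (x : ℤ) ≤ ((2 * (m + 1) * y : ℕ) : ℤ) := by
      refine h3.trans ?_
      push_cast
      have h5 : (β s : ℤ) - L s ≤ y := by
        have := hle s hs
        omega
      have h6 : (0 : ℤ) ≤ 2 * ((m : ℤ) + 1) := by positivity
      exact mul_le_mul_of_nonneg_left h5 h6
    have h5 : x ≤ 2 * (m + 1) * y := by exact_mod_cast h4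
    have h6 : x ^ 2 ≤ (2 * (m + 1) * y) ^ 2 := Nat.pow_le_pow_left h5 2
    have h7 : β s ≤ ∑ s ∈ range (m + 1), β s :=
      single_le_sum (f := β) (fun i _ => Nat.zero_le _) (mem_range.2 hs)
    have h8 : 4 * (m + 1) ^ 2 * K' * (β s + 1) ≤
        4 * θ ^ 2 * K' * (∑ s ∈ range (m + 1), β s + 1) := by
      refine Nat.mul_le_mul (Nat.mul_le_mul_right _ (Nat.mul_le_mul_left _ ?_)) (by omega)
      exact Nat.pow_le_pow_left hθ 2
    have h9 : 4 * (m + 1) ^ 2 * (K' * (β s + 1)) ≤ 4 * (m + 1) ^ 2 * y ^ 2 := by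
      calc 4 * (m + 1) ^ 2 * (K' * (β s + 1)) = 4 * (m + 1) ^ 2 * K' * (β s + 1) := by ring
        _ ≤ x ^ 2 := h8.trans hx2
        _ ≤ (2 * (m + 1) * y) ^ 2 := h6
        _ = 4 * (m + 1) ^ 2 * y ^ 2 := by ring
    exact Nat.le_of_mul_le_mul_left h9 (by positivity)

end Pool.Agent.H18.Tj

end

section

/-!
# Module T3 (TJ): assignment of the points to the cells

Induction on the number of points (`Multiset.induction_on` or on `k`): let `D s` be the deviation
`ℓ L_s - ∑_i ∑_t W_i t` of the assignment for the first `k` points, and choose the cell of the new point by `bal` with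
`y = D`: the square norm grows by at most `∑_s (ℓ W (rk ℓ u 0 s) - ∑ W)^2 ≤ ℓ (ℓ V)^2`.
-/

namespace Pool.Agent.H18.Tj

open Finset Pool.Agent.H18.Ta

theorem assign (ℓ V : ℕ) (hℓ : 1 ≤ ℓ) (k : ℕ) (W : Fin k → ℕ → ℕ)
    (hdec : ∀ j i, W j (i + 1) ≤ W j i) (hconv : ∀ j i, 2 * W j (i + 1) ≤ W j i + W j (i + 2))
    (hV : ∀ j, W j 0 ≤ V) :
    ∃ u : Fin k → ℕ, (∀ j, u j < ℓ) ∧
      ∑ s ∈ range ℓ, ((ℓ : ℤ) * ∑ j, (W j (rk ℓ (u j) 0 s) : ℤ) -
        ∑ j, ∑ t ∈ range ℓ, (W j t : ℤ)) ^ 2 ≤ (k : ℤ) * (ℓ : ℤ) ^ 3 * (V : ℤ) ^ 2 := by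
  induction k with
  | zero =>
    refine ⟨fun j => j.elim0, fun j => j.elim0, ?_⟩
    simp
  | succ k ih =>
    obtain ⟨u', hu', hs'⟩ := ih (fun j => W j.castSucc) (fun j i => hdec _ i) (fun j i => hconv _ i)
      (fun j => hV _)
    set D : ℕ → ℤ := fun s => (ℓ : ℤ) * ∑ j : Fin k, (W j.castSucc (rk ℓ (u' j) 0 s) : ℤ) -
      ∑ j : Fin k, ∑ t ∈ range ℓ, (W j.castSucc t : ℤ) with hD
    obtain ⟨u₀, hu₀, hb⟩ := bal ℓ hℓ (W (Fin.last k)) (hdec _) (hconv _) D
    set E : ℕ → ℤ := fun s => (ℓ : ℤ) * W (Fin.last k) (rk ℓ u₀ 0 s) -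
      ∑ t ∈ range ℓ, (W (Fin.last k) t : ℤ) with hE
    have hW : ∀ i, (W (Fin.last k) i : ℤ) ≤ V := by
      intro i
      have h1 : W (Fin.last k) i ≤ W (Fin.last k) 0 := antitone_nat_of_succ_le (hdec _) (Nat.zero_le i)
      exact_mod_cast h1.trans (hV _)
    have hW0 : ∀ i, (0 : ℤ) ≤ (W (Fin.last k) i : ℤ) := fun i => Int.natCast_nonneg _
    have hℓ0 : (0 : ℤ) ≤ (ℓ : ℤ) := Int.natCast_nonneg _
    have hEb : ∀ s, E s ^ 2 ≤ ((ℓ : ℤ) * V) ^ 2 := by
      intro s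
      have h1 : (ℓ : ℤ) * W (Fin.last k) (rk ℓ u₀ 0 s) ≤ ℓ * V := mul_le_mul_of_nonneg_left (hW _) hℓ0
      have h2 : (0 : ℤ) ≤ (ℓ : ℤ) * W (Fin.last k) (rk ℓ u₀ 0 s) := mul_nonneg hℓ0 (hW0 _)
      have h3 : ∑ t ∈ range ℓ, (W (Fin.last k) t : ℤ) ≤ ℓ * V := by
        calc ∑ t ∈ range ℓ, (W (Fin.last k) t : ℤ) ≤ ∑ _t ∈ range ℓ, (V : ℤ) :=
              sum_le_sum fun t _ => hW t
          _ = ℓ * V := by rw [sum_const, card_range, nsmul_eq_mul]
      have h4 : (0 : ℤ) ≤ ∑ t ∈ range ℓ, (W (Fin.last k) t : ℤ) := sum_nonneg fun t _ => hW0 t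
      apply sq_le_sq'
      · simp only [hE]
        linarith
      · simp only [hE]
        linarith
    refine ⟨Fin.snoc (α := fun _ => ℕ) u' u₀, ?_, ?_⟩
    · intro j
      refine Fin.lastCases ?_ ?_ j
      · rw [Fin.snoc_last]
        exact hu₀
      · intro i
        rw [Fin.snoc_castSucc]
        exact hu' i
    · have h1 : ∀ s, ((ℓ : ℤ) * ∑ j : Fin (k + 1), (W j (rk ℓ ((Fin.snoc (α := fun _ => ℕ) u' u₀ :
          Fin (k + 1) → ℕ) j) 0 s) : ℤ) - ∑ j : Fin (k + 1), ∑ t ∈ range ℓ, (W j t : ℤ)) = D s + E s := by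
        intro s
        rw [Fin.sum_univ_castSucc, Fin.sum_univ_castSucc, Fin.snoc_last]
        simp only [Fin.snoc_castSucc, hD, hE]
        ring
      calc ∑ s ∈ range ℓ, ((ℓ : ℤ) * ∑ j : Fin (k + 1), (W j (rk ℓ ((Fin.snoc (α := fun _ => ℕ) u' u₀ :
          Fin (k + 1) → ℕ) j) 0 s) : ℤ) - ∑ j : Fin (k + 1), ∑ t ∈ range ℓ, (W j t : ℤ)) ^ 2
          = ∑ s ∈ range ℓ, (D s + E s) ^ 2 := sum_congr rfl fun s _ => by rw [h1 s]
        _ = ∑ s ∈ range ℓ, D s ^ 2 + 2 * ∑ s ∈ range ℓ, D s * E s + ∑ s ∈ range ℓ, E s ^ 2 := by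
            rw [mul_sum, ← sum_add_distrib, ← sum_add_distrib]
            exact sum_congr rfl fun s _ => by ring
        _ ≤ (k : ℤ) * (ℓ : ℤ) ^ 3 * (V : ℤ) ^ 2 + 2 * 0 + ∑ _s ∈ range ℓ, ((ℓ : ℤ) * V) ^ 2 := by
            have h2 : ∑ s ∈ range ℓ, E s ^ 2 ≤ ∑ _s ∈ range ℓ, ((ℓ : ℤ) * V) ^ 2 :=
              sum_le_sum fun s _ => hEb s
            have h3 : ∑ s ∈ range ℓ, D s ^ 2 ≤ (k : ℤ) * (ℓ : ℤ) ^ 3 * (V : ℤ) ^ 2 := hs'
            linarith
        _ = ((k + 1 : ℕ) : ℤ) * (ℓ : ℤ) ^ 3 * (V : ℤ) ^ 2 := by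
            rw [sum_const, card_range, nsmul_eq_mul]
            push_cast
            ring

end Pool.Agent.H18.Tj

end

section

/-!
# Module T5b (TJ): near-exactness if all coordinates other than `h`, `c` are thin

`kT q θ V n = (4 θ²)^n zT q θ V`; `n` bounds the number of the active coordinates other than `h`, `c`.

`thin_step`: let `y ≠ h, c`, `ℓ = w y + 1 ≤ θ`, `w' = update w y 0`, `V = M ^ q` (`Lx_le_pow`).  Remove the zeros of
`S`.  If `card ≤ x` use `GM.of_card`.  Otherwise drop superfluous points (`exists_drop`, see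
`Pool/Agent/H18/Pr/MainN.lean`): `card ≤ ∑ Lx w + x ≤ card + V`.  Write `S` as the family `μ : Fin k → ℕ` (`1 ≤ μ j ≤ M`).  The
layers `s < ℓ` are `Rg (σ - s) w'` (`lyr_Rg`, `s ≤ θ ≤ σ`), of sizes `β s`, `∑ β s = card` (`cnt_layer`),
`β s ≤ β t + θ ^ (q + 1)` (`cnt_thin` at most `ℓ` times for `w'`; `cnt_mono`).  `W j i = Lx w' (μ j - i)` is decreasing and
convex (`Lx_mono`, `Lx_convex`; `M ≤ w h`, `M ≤ w c`), `∑_{t<ℓ} W j t = Lx w (μ j)` (`Lx_layer`).  `assign` gives the cells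
`u j`; `L s = ∑_j W j (rk ℓ (u j) 0 s)`, `∑_s L s = ∑_j Lx w (μ j)` (`rk` is a permutation of `range ℓ`: `rk_lt`, `rk_inj`),
`k ≤ ∑ L s` (`Lx_pos`).  `distribute` gives `xs`.  Apply `layers` to the family of the points `j` (cell `u j`) and of
the simple points (`xs u` of them in the cell `u`, `u < ℓ`; load `1 - rk ℓ u 0 s`, which is `1` iff `s = u`).  On the
layer `s` the hypothesis `ih` (with `S_s = {μ j - rk ℓ (u j) 0 s}`, `x = xs s`) gives `GM`, hence `GI` of the family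
(`GM_iff`, `GI.of_comp`: the simple points of the other cells carry the empty condition `free 0`).

`thin`: induction on `n`.  If there is an active `y ≠ h, c` use `thin_step` (`w'` has one thin active coordinate
less), otherwise `base_one` (`Pool/Agent/H18/Ex/Base.lean`; exactly `h`, `c` are active) with `ell 1 m = m`
(`base_ell_one`) and `Lx_two`.
-/

namespace Pool.Agent.H18.Tj

open Finset Function

variable {ι : Type} [Fintype ι] [DecidableEq ι]

/-- The constants. -/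
def kT (q θ V n : ℕ) : ℕ := (4 * θ ^ 2) ^ n * zT q θ V

end Pool.Agent.H18.Tj

end
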