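import Pool.Agent.H94.LP4.M57
import Pool.Agent.H94.LP4.M76
import Pool.Agent.H94.LP4.M81
import Pool.Agent.H94.LP4.M82

/-! The parts of this file: H18.Tj.PolyT, H18.Tl.Mov, H18.Tl.CaseB, H18.Tl.Prog. -/

section

/-!
# Module T6a (TJ): the bounds are polynomial

Unfold the definitions and use `PolyB.const`, `.id`, `.add`, `.mul`, `.pow`, `.le` of
`Pool/Agent/H18/Pr/PolyBL.lean`.
-/

namespace Pool.Agent.H18.Tj

open Finset Function Pool.Agent.H18.Ex Pool.Agent.H18.Pr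

theorem polyB_cQ (q : ℕ) : PolyB fun M => cQ q M := by
  unfold cQ
  exact (((((PolyB.const 64).mul PolyB.id).mul (PolyB.id.add (PolyB.const 1))).mul
    (((PolyB.id.pow q).add (PolyB.const 1)).pow 2)).mul
    ((PolyB.id.pow (q + 1)).add (PolyB.const 1)))

theorem polyB_kT (q n : ℕ) {θ V : ℕ → ℕ} (hθ : PolyB θ) (hV : PolyB V) :
    PolyB fun M => kT q (θ M) (V M) n := by
  unfold kT zT
  exact (((PolyB.const 4).mul (hθ.pow 2)).pow n).mul
    ((PolyB.const 12).mul (((hV.pow 2).add ((hθ.pow 2).mul ((hθ.pow (q + 1)).pow 2))).add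
      (((PolyB.const 1).add hV).mul ((hθ.pow 3).mul (hV.pow 2)))))

end Pool.Agent.H18.Tj

end

section

/-!
# Module Mov (TL): moving one point of a block gives a matrix which is not scalar

Let `Φ` be the matrix of the block `L = ⟨μ, 0, 0⟩ :: L₀` and `L_δ = ⟨μ, δ, 0⟩ :: L₀`.
`Q = (V b ⧸ vanL b L₀) × (Box b × Fin μ → ℂ)`, `cond k : V b → Q` linear: `cond 0 F = ([F], (γ, j) ↦ (F γ).coeff j if j + dg γ < μ, else 0)`,
`cond k F = (0, (γ, j) ↦ binom(j + k, k) (F γ).coeff (j + k) if j + dg γ < μ, else 0)` for `k ≥ 1`.  For `F ∈ U b (a + 1)` the sum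
`∑_{k ≤ a+1} δ^k cond k F` is `([F], (γ, j) ↦ (taylor δ (F γ)).coeff j)` (`Polynomial.taylor_coeff`, `hasseDeriv_coeff`), so it is zero
iff `F ∈ vanL b L_δ` (`van_iff`, `tz_zero`).
Exactness for almost all `δ`: `inj_of_inj` for `cond k` on `U b a` (`h.inj`).
`diff_lemma` with `E = Box b → U b a`, `M k v β = cond k (v β)`, `g k β = - cond k (X^a e_β)`, `ℓ v γ β = (v β γ).coeff (a - 1)`, `c = 0`,
`D = Ds b μ (L₀.length + 1)`.  `v₀ β = Φ e_β - X^a e_β`.  `Φ = X^(μ - dg γ) H` (`loc`), `Y = - (ev H 0)⁻¹ Δ (ev H 0)`, `Δ` diagonal with entries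
`μ - dg γ`.  `v₁ β = divX` of `Φ.mulVec (cv (Y e_β))`: its constant coefficient is `0` (entry `γ`: if `μ - dg γ ≥ 1` clear; if
`μ - dg γ = 0` it is `(ev H 0 * Y) γ β = - (Δ ev H 0) γ β = 0`), so `X • v₁ β = Φ Y e_β`, `v₁ β ∈ U b a`, it vanishes at `L₀` (`vanL_unit`), and the
coefficient of `t^j` of `v₁ β γ`, `j < λ = μ - dg γ`, is `0` for `j < λ - 1` and `(ev H 0 * Y) γ β = -λ (ev H 0) γ β` for `j = λ - 1`, i.e.
`= -(j + 1) (Φ γ β).coeff (j + 1)`: this is `M 0 v₁ + M 1 v₀ = g 1`.  `ℓ v₁ = Y`.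
`Y` is not scalar: `Y = c • 1` gives `Δ = -c • 1`, but the entries of `Δ` at `zb b` (`μ ≥ 1`) and at the maximal exponent
(`μ - Bs b < μ`) are different.
-/

namespace Pool.Agent.H18.Tl

open Finset Polynomial

variable {τ : Type} [Fintype τ] [DecidableEq τ] {b : τ → ℕ} {μ a : ℕ} {L₀ : List (Pt τ)}

/-- the target of the conditions -/
private abbrev Mov_Q (b : τ → ℕ) (μ : ℕ) (L₀ : List (Pt τ)) : Type :=
  (V b ⧸ (vanL b L₀).restrictScalars ℂ) × (Box b × Fin μ → ℂ)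

/-- the conditions, by powers of `δ` -/
private noncomputable def Mov_cond (b : τ → ℕ) (μ : ℕ) (L₀ : List (Pt τ)) (k : ℕ) :
    V b →ₗ[ℂ] Mov_Q b μ L₀ :=
  LinearMap.prod (if k = 0 then Submodule.mkQ ((vanL b L₀).restrictScalars ℂ) else 0)
    (LinearMap.pi fun q : Box b × Fin μ => if (q.2 : ℕ) + dg q.1 < μ then
      ((((k + q.2).choose q.2 : ℕ) : ℂ) • ((lcoeff ℂ (k + q.2)) ∘ₗ
        (LinearMap.proj q.1 : V b →ₗ[ℂ] ℂ[X]))) else 0)

private theorem Mov_cond_fst (k : ℕ) (F : V b) : (Mov_cond b μ L₀ k F).1 =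
    if k = 0 then Submodule.Quotient.mk F else 0 := by
  unfold Mov_cond
  rw [LinearMap.prod_apply]
  split_ifs with h
  · rfl
  · rfl

private theorem Mov_cond_snd (k : ℕ) (F : V b) (q : Box b × Fin μ) :
    (Mov_cond b μ L₀ k F).2 q = if (q.2 : ℕ) + dg q.1 < μ then
      (((k + q.2).choose q.2 : ℕ) : ℂ) * (F q.1).coeff (k + q.2) else 0 := by
  unfold Mov_cond
  rw [LinearMap.prod_apply]
  show (LinearMap.pi _ F) q = _
  rw [LinearMap.pi_apply]
  split_ifs with h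
  · rfl
  · rfl

private theorem Mov_iff (δ : ℂ) (F : V b) (hF : F ∈ U b (a + 1)) :
    ∑ k ∈ range (a + 2), δ ^ k • Mov_cond b μ L₀ k F = 0 ↔ F ∈ vanL b (⟨μ, δ, 0⟩ :: L₀) := by
  have h1 : (∑ k ∈ range (a + 2), δ ^ k • Mov_cond b μ L₀ k F).1 =
      Submodule.Quotient.mk F := by
    rw [Prod.fst_sum, Finset.sum_eq_single 0]
    · rw [Prod.smul_fst, Mov_cond_fst, if_pos rfl, pow_zero, one_smul]
    · intro k _ hk
      rw [Prod.smul_fst, Mov_cond_fst, if_neg hk, smul_zero]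
    · intro h
      exact absurd (mem_range.mpr (by omega)) h
  have h2 : ∀ q : Box b × Fin μ,
      (∑ k ∈ range (a + 2), δ ^ k • Mov_cond b μ L₀ k F).2 q =
        if (q.2 : ℕ) + dg q.1 < μ then (taylor δ (F q.1)).coeff q.2 else 0 := by
    intro q
    rw [Prod.snd_sum, Finset.sum_apply]
    simp only [Prod.smul_snd, Pi.smul_apply, smul_eq_mul, Mov_cond_snd]
    by_cases hq : (q.2 : ℕ) + dg q.1 < μ
    · simp only [if_pos hq]
      have hd : (F q.1).natDegree ≤ a := by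
        rw [natDegree_le_iff_coeff_eq_zero]
        intro N hN
        exact hF q.1 N hN
      have hd2 : (hasseDeriv (q.2 : ℕ) (F q.1)).natDegree < a + 2 := by
        have := natDegree_hasseDeriv_le (F q.1) (q.2 : ℕ)
        omega
      rw [taylor_coeff, eval_eq_sum_range' hd2]
      refine Finset.sum_congr rfl fun k _ => ?_
      rw [hasseDeriv_coeff]
      ring
    · simp only [if_neg hq, mul_zero, Finset.sum_const_zero]
  have h3 : F ∈ vanL b (⟨μ, δ, 0⟩ :: L₀) ↔ F ∈ van b ⟨μ, δ, 0⟩ ∧ F ∈ vanL b L₀ := by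
    constructor
    · intro h
      exact ⟨h _ List.mem_cons_self, fun p hp => h p (List.mem_cons_of_mem _ hp)⟩
    · rintro ⟨h, h'⟩ p hp
      rcases List.mem_cons.mp hp with rfl | hp
      · exact h
      · exact h' p hp
  rw [h3, van_iff]
  constructor
  · intro h
    constructor
    · intro γ j hj
      have h4 := h2 (γ, ⟨j, by
        change j + dg γ < μ at hj
        omega⟩)
      rw [h] at h4
      change (0 : ℂ) = if j + dg γ < μ then _ else 0 at h4
      rw [if_pos hj] at h4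
      change (taylor δ (act (tz b 0) F γ)).coeff j = 0
      rw [tz_zero, act_one]
      exact h4.symm
    · rw [h] at h1
      have h4 := (Submodule.Quotient.mk_eq_zero _).mp h1.symm
      exact h4
  · rintro ⟨h, h'⟩
    refine Prod.ext ?_ (funext fun q => ?_)
    · rw [h1]
      exact (Submodule.Quotient.mk_eq_zero _).mpr h'
    · rw [h2]
      split_ifs with hq
      · have h4 := h q.1 q.2 hq
        change (taylor δ (act (tz b 0) F q.1)).coeff q.2 = 0 at h4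
        rw [tz_zero, act_one] at h4
        exact h4
      · rfl

private theorem Mov_iff0 (F : V b) (hF : F ∈ U b (a + 1)) :
    Mov_cond b μ L₀ 0 F = 0 ↔ F ∈ vanL b (⟨μ, 0, 0⟩ :: L₀) := by
  rw [← Mov_iff 0 F hF, Finset.sum_eq_single 0]
  · rw [pow_zero, one_smul]
  · intro k _ hk
    rw [zero_pow hk, zero_smul]
  · intro h
    exact absurd (mem_range.mpr (by omega)) h

omit [Fintype τ] [DecidableEq τ] in
private theorem Mov_U_le (F : V b) (hF : F ∈ U b a) : F ∈ U b (a + 1) := fun β j hj =>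
  hF β j (by omega)

/-- `t^a` at the position `β` -/
private noncomputable def Mov_X (a : ℕ) (β : Box b) : V b := fun γ => if γ = β then X ^ a else 0

omit [DecidableEq τ] in
private theorem Mov_X_coeff (β γ : Box b) (j : ℕ) (hj : j ≠ a) :
    (Mov_X a β γ).coeff j = 0 := by
  unfold Mov_X
  split_ifs
  · rw [coeff_X_pow, if_neg hj]
  · exact coeff_zero j

private theorem Mov_col {L : List (Pt τ)} {Φ : Matrix (Box b) (Box b) ℂ[X]} (hΦ : Ph b a L Φ)
    (β : Box b) : (fun γ => Φ γ β) - Mov_X a β ∈ U b a := by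
  intro γ j hj
  rw [Pi.sub_apply, coeff_sub]
  rcases Nat.lt_or_ge a j with h | h
  · rw [hΦ.deg γ β j h, Mov_X_coeff β γ j (by omega), sub_zero]
  · have : j = a := le_antisymm h hj
    subst this
    rw [hΦ.top]
    unfold Mov_X
    split_ifs
    · rw [coeff_X_pow, if_pos rfl, sub_self]
    · rw [coeff_zero, sub_zero]

/-- the sub-leading coefficients -/
private noncomputable def Mov_l (b : τ → ℕ) (a : ℕ) : (Box b → U b a) →ₗ[ℂ] Mt b where
  toFun v := fun γ β => ((v β : V b) γ).coeff (a - 1)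
  map_add' v w := by
    funext γ β
    exact coeff_add _ _ _
  map_smul' c v := by
    funext γ β
    exact coeff_smul _ _ _

/-- the linear systems -/
private noncomputable def Mov_M (b : τ → ℕ) (μ a : ℕ) (L₀ : List (Pt τ)) (k : ℕ) :
    (Box b → U b a) →ₗ[ℂ] (Box b → Mov_Q b μ L₀) :=
  LinearMap.pi fun β => (Mov_cond b μ L₀ k) ∘ₗ (U b a).subtype ∘ₗ LinearMap.proj β

/-- the right sides -/
private noncomputable def Mov_g (b : τ → ℕ) (μ a : ℕ) (L₀ : List (Pt τ)) (k : ℕ) :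
    Box b → Mov_Q b μ L₀ := fun β => -Mov_cond b μ L₀ k (Mov_X a β)

private theorem Mov_blk (h : Blk b μ a (⟨μ, 0, 0⟩ :: L₀)) : ∃ T : Set ℂ, T.Finite ∧
    ∀ δ : ℂ, δ ∉ T → Blk b μ a (⟨μ, δ, 0⟩ :: L₀) := by
  obtain ⟨T, hT, hT2⟩ := inj_of_inj (E := U b a) (Q := Mov_Q b μ L₀)
    (fun k => (Mov_cond b μ L₀ k) ∘ₗ (U b a).subtype) (a + 2) (by omega) (by
      intro v hv
      have h1 : (v : V b) ∈ vanL b (⟨μ, 0, 0⟩ :: L₀) :=
        (Mov_iff0 _ (Mov_U_le _ v.2)).mp hv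
      exact Subtype.ext (h.inj _ v.2 h1))
  refine ⟨T ∪ {x | x ∈ L₀.map Pt.x}, hT.union (List.finite_toSet _), fun δ hδ => ?_⟩
  have hδ1 : δ ∉ T := fun h1 => hδ (Or.inl h1)
  have hδ2 : δ ∉ L₀.map Pt.x := fun h1 => hδ (Or.inr h1)
  refine ⟨?_, ?_, ?_, ?_⟩
  · intro p hp
    rcases List.mem_cons.mp hp with rfl | hp
    · rfl
    · exact h.mult p (List.mem_cons_of_mem _ hp)
  · have h1 := h.dist
    rw [List.map_cons, List.nodup_cons] at h1 ⊢
    exact ⟨hδ2, h1.2⟩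
  · exact h.cnt
  · intro F hF hv
    have h1 := hT2 δ hδ1 ⟨F, hF⟩ ((Mov_iff δ F (Mov_U_le _ hF)).mpr hv)
    exact congrArg Subtype.val h1

theorem mov (hμ : 1 ≤ μ) (hB : 1 ≤ Bs b) (h : Blk b μ a (⟨μ, 0, 0⟩ :: L₀)) :
    ∃ Y ∈ Ds b μ (L₀.length + 1), ∀ c : ℂ, Y ≠ c • (1 : Mt b) := by
  have ha : 1 ≤ a := h.pos hμ (List.cons_ne_nil _ _)
  obtain ⟨Φ, hΦ⟩ := exists_ph h
  obtain ⟨H, hH, hdet⟩ := loc h hΦ
  obtain ⟨T, hT, hT2⟩ := Mov_blk h
  have hunit : IsUnit (ev H 0).det := isUnit_iff_ne_zero.mpr hdet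
  set Δ : Mt b := Matrix.diagonal fun γ => ((μ - dg γ : ℕ) : ℂ) with hΔ
  set Y : Mt b := -((ev H 0)⁻¹ * Δ * ev H 0) with hY
  have hHY : ev H 0 * Y = -(Δ * ev H 0) := by
    rw [hY, mul_neg, mul_assoc, ← mul_assoc (ev H 0), Matrix.mul_nonsing_inv _ hunit, one_mul]
  have hcol : ∀ β, (fun γ => Φ γ β) ∈ U b (a + 1) := fun β γ j hj => hΦ.deg γ β j (by omega)
  -- the columns of `Φ Y`
  have hcomb := fun β : Box b => hΦ.comb (fun κ => Y κ β)
  set G : Box b → V b := fun β => Φ.mulVec (cv fun κ => Y κ β) with hG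
  have hGc : ∀ (β γ : Box b) (j : ℕ), j ≤ μ - dg γ → (G β γ).coeff j =
      if j = μ - dg γ then -(((μ - dg γ : ℕ) : ℂ) * ev H 0 γ β) else 0 := by
    intro β γ j hj
    rw [hG]
    show (Φ.mulVec (cv fun κ => Y κ β) γ).coeff j = _
    rw [(hcomb β).2.2.2 γ j]
    show ∑ κ, (Φ γ κ).coeff j * Y κ β = _
    split_ifs with hj2
    · have h1 : ∀ κ, (Φ γ κ).coeff j = ev H 0 γ κ := by
        intro κ
        rw [hH, hj2, coeff_X_pow_mul', if_pos le_rfl, Nat.sub_self, coeff_zero_eq_eval_zero]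
        rfl
      simp only [h1]
      have h2 := congrFun (congrFun hHY γ) β
      rw [Matrix.mul_apply, Matrix.neg_apply, hΔ, Matrix.diagonal_mul] at h2
      exact h2
    · refine Finset.sum_eq_zero fun κ _ => ?_
      rw [hH, coeff_X_pow_mul', if_neg (by omega), zero_mul]
  have hG0 : ∀ β γ, (G β γ).coeff 0 = 0 := by
    intro β γ
    rw [hGc β γ 0 (Nat.zero_le _)]
    split_ifs with h1
    · rw [← h1, Nat.cast_zero, zero_mul, neg_zero]
    · rfl
  have hGX : ∀ β, (X : ℂ[X]) • (fun γ => divX (G β γ)) = G β := by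
    intro β
    funext γ
    show X * divX (G β γ) = G β γ
    have h1 := X_mul_divX_add (G β γ)
    rw [hG0, C_0, add_zero] at h1
    exact h1
  have hv1U : ∀ β, (fun γ => divX (G β γ)) ∈ U b a := by
    intro β γ j hj
    show (divX (G β γ)).coeff j = 0
    rw [coeff_divX]
    exact (hcomb β).2.1 γ (j + 1) (by omega)
  have hv1L : ∀ β, (fun γ => divX (G β γ)) ∈ vanL b L₀ := by
    intro β
    refine vanL_unit L₀ X (fun p hp => ?_) _ ?_
    · rw [eval_X]
      exact h.ne_zero p hp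
    · rw [hGX]
      exact fun p hp => (hcomb β).1 p (List.mem_cons_of_mem _ hp)
  let v₀ : Box b → U b a := fun β => ⟨(fun γ => Φ γ β) - Mov_X a β, Mov_col hΦ β⟩
  let v₁ : Box b → U b a := fun β => ⟨fun γ => divX (G β γ), hv1U β⟩
  have hkey := diff_lemma (E := Box b → U b a) (Q := Box b → Mov_Q b μ L₀) (N := Mt b)
    (Mov_M b μ a L₀) (Mov_g b μ a L₀) (a + 2) (by omega) (by
      intro v hv
      funext β
      have h1 : Mov_cond b μ L₀ 0 (v β : V b) = 0 := congrFun hv β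
      have h2 := (Mov_iff0 _ (Mov_U_le _ (v β).2)).mp h1
      exact Subtype.ext (h.inj _ (v β).2 h2)) (Mov_l b a) 0 (Ds b μ (L₀.length + 1)) T hT (by
      intro δ hδ
      have hblk := hT2 δ hδ
      obtain ⟨Ψ, hΨ⟩ := exists_ph hblk
      refine ⟨fun β => ⟨(fun γ => Ψ γ β) - Mov_X a β, Mov_col hΨ β⟩, ?_, ?_⟩
      · funext β
        rw [Finset.sum_apply, Finset.sum_apply]
        show ∑ k ∈ range (a + 2), δ ^ k • Mov_cond b μ L₀ k ((fun γ => Ψ γ β) - Mov_X a β) =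
          ∑ k ∈ range (a + 2), δ ^ k • -Mov_cond b μ L₀ k (Mov_X a β)
        rw [← sub_eq_zero, ← Finset.sum_sub_distrib]
        have h1 : ∑ k ∈ range (a + 2), δ ^ k • Mov_cond b μ L₀ k (fun γ => Ψ γ β) = 0 :=
          (Mov_iff δ _ (fun γ j hj => hΨ.deg γ β j (by omega))).mpr (hΨ.van β)
        rw [← h1]
        refine Finset.sum_congr rfl fun k _ => ?_
        rw [← smul_sub, map_sub]
        congr 1
        abel
      · rw [add_zero]
        refine Submodule.subset_span ⟨a, _, Ψ, hblk, List.length_cons, hΨ, ?_⟩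
        funext γ β
        show ((fun γ => Ψ γ β) γ - Mov_X a β γ).coeff (a - 1) = (Ψ γ β).coeff (a - 1)
        rw [coeff_sub, Mov_X_coeff β γ (a - 1) (by omega), sub_zero]) v₀ v₁ (by
      funext β
      show Mov_cond b μ L₀ 0 ((fun γ => Φ γ β) - Mov_X a β) = -Mov_cond b μ L₀ 0 (Mov_X a β)
      rw [map_sub, (Mov_iff0 _ (hcol β)).mpr (hΦ.van β), zero_sub]) (by
      funext β
      show Mov_cond b μ L₀ 0 (fun γ => divX (G β γ)) +
        Mov_cond b μ L₀ 1 ((fun γ => Φ γ β) - Mov_X a β) = -Mov_cond b μ L₀ 1 (Mov_X a β)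
      rw [map_sub, ← sub_eq_zero]
      have h1 : Mov_cond b μ L₀ 0 (fun γ => divX (G β γ)) +
          Mov_cond b μ L₀ 1 (fun γ => Φ γ β) = 0 := by
        refine Prod.ext ?_ (funext fun q => ?_)
        · rw [Prod.fst_add, Mov_cond_fst, Mov_cond_fst, if_pos rfl, if_neg one_ne_zero, add_zero]
          exact (Submodule.Quotient.mk_eq_zero _).mpr (hv1L β)
        · rw [Prod.snd_add, Pi.add_apply, Mov_cond_snd, Mov_cond_snd]
          show _ = (0 : ℂ)
          by_cases hq : (q.2 : ℕ) + dg q.1 < μ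
          · rw [if_pos hq, if_pos hq, zero_add, Nat.choose_self, Nat.cast_one, one_mul,
              coeff_divX, hGc β q.1 _ (by omega), hH, coeff_X_pow_mul']
            by_cases hj : (q.2 : ℕ) + 1 = μ - dg q.1
            · rw [if_pos hj, if_pos (by omega), show 1 + (q.2 : ℕ) - (μ - dg q.1) = 0 by omega,
                coeff_zero_eq_eval_zero, ← hj, show 1 + (q.2 : ℕ) = (q.2 : ℕ) + 1 by omega,
                Nat.choose_succ_self_right]
              show -((((q.2 : ℕ) + 1 : ℕ) : ℂ) * ev H 0 q.1 β) +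
                (((q.2 : ℕ) + 1 : ℕ) : ℂ) * ev H 0 q.1 β = 0
              ring
            · rw [if_neg hj, if_neg (by omega), mul_zero, add_zero]
          · rw [if_neg hq, if_neg hq, add_zero]
      rw [← h1]
      abel)
  refine ⟨Y, ?_, ?_⟩
  · have h1 := hkey.2
    have h2 : Mov_l b a v₁ = Y := by
      funext γ β
      show (divX (G β γ)).coeff (a - 1) = Y γ β
      rw [coeff_divX, show a - 1 + 1 = a by omega]
      exact (hcomb β).2.2.1 γ
    rwa [h2] at h1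
  · intro c hc
    have h1 : ev H 0 * Y = c • ev H 0 := by
      rw [hc, mul_smul_comm, mul_one]
    rw [hHY] at h1
    have h2 : Δ = (-c) • (1 : Mt b) := by
      have h3 : Δ * ev H 0 = ((-c) • (1 : Mt b)) * ev H 0 := by
        rw [smul_mul_assoc, one_mul, neg_smul, ← h1, neg_neg]
      have h4 := congrArg (fun M => M * (ev H 0)⁻¹) h3
      simp only [mul_assoc, Matrix.mul_nonsing_inv _ hunit, mul_one] at h4
      exact h4
    have h3 : ∀ γ : Box b, ((μ - dg γ : ℕ) : ℂ) = -c := by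
      intro γ
      have h4 := congrFun (congrFun h2 γ) γ
      rw [hΔ, Matrix.diagonal_apply_eq, Matrix.smul_apply, Matrix.one_apply_eq, smul_eq_mul,
        mul_one] at h4
      exact h4
    have h4 := (h3 (zb b)).trans (h3 (rb (zb b))).symm
    have h5 : μ - dg (zb b) = μ - dg (rb (zb b)) := Nat.cast_injective h4
    have h6 : dg (zb b) = 0 := Finset.sum_eq_zero fun l _ => rfl
    have h7 := dg_rb (zb b)
    omega

end Pool.Agent.H18.Tl

end

section

/-!
# Module CaseB (TL): a common eigenvector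

Assume `Y (zb b) β = 0` for all `Y ∈ D`, `μ ≤ dg β`.

`jet`: `(tz b c * Y).mulVec w (zb b) = ∑_β (tz b c * Y * tz b (-c)) (zb b) β * ((tz b c).mulVec w) β`, and the terms with `μ ≤ dg β`
vanish (`hD.tz` for `-c`).  So if `((tz b c).mulVec w) β = 0` for `dg β < μ` …

`kill`: let `Y ∈ D` and let the columns `κ` of `Y` with `Bs b + 1 ≤ dg κ + μ` be zero.  `Z = rv b * Y * rv b ∈ D` has zero columns for
`dg κ < μ` (`dg (rb κ) = Bs b - dg κ`).  For all `c`, `w`: `(Z.mulVec w)(c) := ((tz b c).mulVec (Z.mulVec w)) (zb b) =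
∑_{dg β < μ} (tz b c * Z * tz b (-c)) (zb b) β * ((tz b c).mulVec w) β`, and the column `β`, `dg β < μ`, of `Z * tz b (-c)` is a
combination of the columns `κ ≤ β` of `Z` (`tz_eq_zero`), so it is zero.  So `∑_κ (Z.mulVec w) κ ∏ c_l^(κ_l) = 0` for all `c`, so `Z.mulVec w = 0`
(`common`), `Z = 0`, `Y = 0`.

`caseB`: let `Φ γ β = X^(μ - dg γ) H γ β` (`loc`), `R = H.adjugate`, `Y ∈ D`,
`Q γ κ = X^((μ - dg γ) + (μ - (μ - dg κ))) * (H * Y.map C * R) γ κ`.  For all `x` different from `0` and the `p.x`: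
`ev Q x * ev Φ x = x^μ det(ev H x) • (ev Φ x * Y)`, so `ev Q x ∈ D` (`Mxl.adx'`), so `cf Q k ∈ D` (`cf_mem_of_ev`).  The columns `κ` with
`μ ≤ dg κ` of `Q` are divisible by `X^μ`; they include the columns with `Bs b + 1 ≤ dg κ + μ` since `2 μ ≤ Bs b + 1`.  By `kill`,
`cf Q k = 0` for `k < μ`.  The column `zb b`: `X^(μ - dg γ) * N γ (zb b)`, `N = H * Y.map C * R`; for `γ ≠ zb b` we have `μ - dg γ < μ`, so
`(N γ (zb b)).coeff 0 = 0`: `ev N 0 = ev H 0 * Y * adj(ev H 0)` maps `e_0` to a multiple of `e_0`.  So `u = adj(ev H 0) e_0 ≠ 0` satisfies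
`ev H 0 (Y u) = χ e_0`, and `ev H 0 u = det • e_0`: `Y u = (χ / det) u`.  (`u` does not depend on `Y`.)
-/

namespace Pool.Agent.H18.Tl

open Finset Polynomial Matrix

variable {τ : Type} [Fintype τ] [DecidableEq τ] {b : τ → ℕ} {μ a : ℕ} {L₀ : List (Pt τ)}

omit [DecidableEq τ] in
private theorem CaseB_dg_eq_zero (γ : Box b) (h : dg γ = 0) : γ = zb b := by
  funext l
  have h1 := (Finset.sum_eq_zero_iff.mp h) l (Finset.mem_univ l)
  exact Fin.ext h1

omit [DecidableEq τ] in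
private theorem CaseB_dg_zb : dg (zb b) = 0 := by
  simp [dg, zb]

private theorem CaseB_rv_conj (Y : Mt b) (γ κ : Box b) :
    (rv b * Y * rv b) γ κ = Y (rb γ) (rb κ) := by
  rw [Matrix.mul_apply, Finset.sum_eq_single (rb κ)]
  · have h1 : rv b (rb κ) κ = 1 := by simp [rv]
    rw [h1, mul_one, Matrix.mul_apply, Finset.sum_eq_single (rb γ)]
    · have h2 : rv b γ (rb γ) = 1 := by simp [rv, rb_rb]
      rw [h2, one_mul]
    · intro κ' _ hne
      have h2 : rv b γ κ' = 0 := by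
        unfold rv
        rw [if_neg]
        intro h3
        exact hne (by rw [h3, rb_rb])
      rw [h2, zero_mul]
    · intro h3
      exact absurd (Finset.mem_univ _) h3
  · intro κ' _ hne
    have h2 : rv b κ' κ = 0 := by
      unfold rv
      rw [if_neg hne]
    rw [h2, mul_zero]
  · intro h3
    exact absurd (Finset.mem_univ _) h3

omit [DecidableEq τ] in
private theorem CaseB_tz_zb (c : τ → ℂ) (κ : Box b) :
    tz b c (zb b) κ = ∏ l, c l ^ (κ l : ℕ) := by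
  unfold tz zb
  refine Finset.prod_congr rfl fun l _ => ?_
  simp

theorem kill {D : Submodule ℂ (Mt b)} (hD : Mxl b μ D)
    (h0 : ∀ Y ∈ D, ∀ β : Box b, μ ≤ dg β → Y (zb b) β = 0) (Y : Mt b) (hY : Y ∈ D)
    (hk : ∀ γ κ : Box b, Bs b + 1 ≤ dg κ + μ → Y γ κ = 0) : Y = 0 := by
  classical
  set Z : Mt b := rv b * Y * rv b with hZdef
  have hZD : Z ∈ D := hD.rv Y hY
  have hZcol : ∀ γ κ : Box b, dg κ < μ → Z γ κ = 0 := by
    intro γ κ hκ
    rw [hZdef, CaseB_rv_conj]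
    refine hk _ _ ?_
    have h1 := dg_rb κ
    omega
  have hrow : ∀ c : τ → ℂ, ∀ β : Box b, (tz b c * Z) (zb b) β = 0 := by
    intro c β
    have hM : tz b c * Z * tz b (-c) ∈ D := by
      have h1 := hD.tz Z hZD (-c)
      rwa [neg_neg] at h1
    have hMrow : ∀ β' : Box b, (tz b c * Z * tz b (-c)) (zb b) β' = 0 := by
      intro β'
      by_cases hβ : μ ≤ dg β'
      · exact h0 _ hM β' hβ
      · rw [Matrix.mul_assoc, Matrix.mul_apply]
        refine Finset.sum_eq_zero fun γ _ => ?_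
        have h2 : (Z * tz b (-c)) γ β' = 0 := by
          rw [Matrix.mul_apply]
          refine Finset.sum_eq_zero fun κ _ => ?_
          by_cases hκ : ∀ l, (κ l : ℕ) ≤ β' l
          · have h3 : dg κ ≤ dg β' := Finset.sum_le_sum fun l _ => hκ l
            rw [hZcol γ κ (by omega), zero_mul]
          · rw [tz_eq_zero _ _ _ hκ, mul_zero]
        rw [h2, mul_zero]
    have h4 : tz b c * Z = tz b c * Z * tz b (-c) * tz b c := by
      rw [Matrix.mul_assoc (tz b c * Z), tz_neg_mul, Matrix.mul_one]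
    rw [h4, Matrix.mul_apply]
    refine Finset.sum_eq_zero fun κ _ => ?_
    rw [hMrow κ, zero_mul]
  have hZ0 : Z = 0 := by
    ext γ β
    by_contra hne
    have hA : (fun κ : Box b => Z κ β) ≠ 0 := fun h1 => hne (congrFun h1 γ)
    obtain ⟨c, hc, -⟩ := common (fun κ : Box b => Z κ β) (fun κ : Box b => Z κ β) hA hA
    apply hc
    have h5 := hrow c β
    rw [Matrix.mul_apply] at h5
    rw [← h5]
    refine Finset.sum_congr rfl fun κ _ => ?_
    rw [CaseB_tz_zb]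
    ring
  have h6 : Y = rv b * Z * rv b := by
    rw [hZdef, ← Matrix.mul_assoc, ← Matrix.mul_assoc, rv_mul_rv, Matrix.one_mul,
      Matrix.mul_assoc, rv_mul_rv, Matrix.mul_one]
  rw [h6, hZ0, Matrix.mul_zero, Matrix.zero_mul]

private theorem CaseB_ev_mul (A B : Matrix (Box b) (Box b) ℂ[X]) (x : ℂ) :
    ev (A * B) x = ev A x * ev B x :=
  map_mul (evalRingHom x).mapMatrix A B

private theorem CaseB_ev_adj (A : Matrix (Box b) (Box b) ℂ[X]) (x : ℂ) :
    ev A.adjugate x = (ev A x).adjugate :=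
  (evalRingHom x).map_adjugate A

omit [Fintype τ] [DecidableEq τ] in
private theorem CaseB_ev_C (Y : Mt b) (x : ℂ) :
    ev (Y.map C) x = Y := by
  ext γ β
  simp [ev]

/-- The matrix `Q`. -/
private noncomputable def CaseB_Q (μ : ℕ) (N : Matrix (Box b) (Box b) ℂ[X]) :
    Matrix (Box b) (Box b) ℂ[X] :=
  fun γ κ => X ^ ((μ - dg γ) + (μ - (μ - dg κ))) * N γ κ

private theorem CaseB_conj (Φ H : Matrix (Box b) (Box b) ℂ[X])
    (hH : ∀ γ β, Φ γ β = X ^ (μ - dg γ) * H γ β) (Y : Mt b) (x : ℂ) :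
    ev (CaseB_Q μ (H * Y.map C * H.adjugate)) x * ev Φ x =
      ev Φ x * ((x ^ μ * (ev H x).det) • Y) := by
  have h1 : ev Φ x = Matrix.diagonal (fun γ : Box b => x ^ (μ - dg γ)) * ev H x := by
    ext γ β
    rw [Matrix.diagonal_mul]
    simp only [ev, hH γ β, eval_mul, eval_pow, eval_X]
  have h2 : ev (CaseB_Q μ (H * Y.map C * H.adjugate)) x =
      Matrix.diagonal (fun γ : Box b => x ^ (μ - dg γ)) * ev (H * Y.map C * H.adjugate) x *
        Matrix.diagonal (fun κ : Box b => x ^ (μ - (μ - dg κ))) := by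
    ext γ β
    rw [Matrix.mul_diagonal, Matrix.diagonal_mul]
    simp only [ev, CaseB_Q, eval_mul, eval_pow, eval_X, pow_add]
    ring
  have h3 : Matrix.diagonal (fun κ : Box b => x ^ (μ - (μ - dg κ))) *
      Matrix.diagonal (fun γ : Box b => x ^ (μ - dg γ)) = (x ^ μ) • (1 : Mt b) := by
    rw [Matrix.diagonal_mul_diagonal, ← Matrix.diagonal_one, ← Matrix.diagonal_smul]
    congr 1
    funext κ
    rw [← pow_add, Pi.smul_apply, smul_eq_mul, mul_one]
    congr 1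
    omega
  rw [h2, h1, CaseB_ev_mul, CaseB_ev_mul, CaseB_ev_adj, CaseB_ev_C]
  calc Matrix.diagonal (fun γ : Box b => x ^ (μ - dg γ)) *
          (ev H x * Y * (ev H x).adjugate) *
          Matrix.diagonal (fun κ : Box b => x ^ (μ - (μ - dg κ))) *
        (Matrix.diagonal (fun γ : Box b => x ^ (μ - dg γ)) * ev H x)
      = Matrix.diagonal (fun γ : Box b => x ^ (μ - dg γ)) * ev H x * Y *
          ((ev H x).adjugate *
          (Matrix.diagonal (fun κ : Box b => x ^ (μ - (μ - dg κ))) *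
        Matrix.diagonal (fun γ : Box b => x ^ (μ - dg γ))) * ev H x) := by
          simp only [Matrix.mul_assoc]
    _ = Matrix.diagonal (fun γ : Box b => x ^ (μ - dg γ)) * ev H x *
        ((x ^ μ * (ev H x).det) • Y) := by
          rw [h3, Matrix.mul_smul, Matrix.mul_one, Matrix.smul_mul, Matrix.adjugate_mul,
            smul_smul, Matrix.mul_smul, Matrix.mul_one, Matrix.mul_smul]

theorem caseB {D : Submodule ℂ (Mt b)} (hD : Mxl b μ D) (hμ : 1 ≤ μ) (hμB : 2 * μ ≤ Bs b + 1)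
    (h : Blk b μ a (⟨μ, 0, 0⟩ :: L₀)) (h0 : ∀ Y ∈ D, ∀ β : Box b, μ ≤ dg β → Y (zb b) β = 0) :
    ∃ u : Box b → ℂ, u ≠ 0 ∧ ∀ Y ∈ D, ∃ χ : ℂ, Y.mulVec u = χ • u := by
  obtain ⟨Φ, hΦ⟩ := exists_ph h
  obtain ⟨H, hH, hdet⟩ := loc h hΦ
  have hfin : ({x : ℂ | ∃ p ∈ ((⟨μ, 0, 0⟩ : Pt τ) :: L₀), p.x = x} : Set ℂ).Finite := by
    have h1 : ({x : ℂ | ∃ p ∈ ((⟨μ, 0, 0⟩ : Pt τ) :: L₀), p.x = x} : Set ℂ) =
        {x : ℂ | x ∈ (((⟨μ, 0, 0⟩ : Pt τ) :: L₀).map Pt.x)} := by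
      ext x
      simp only [Set.mem_ofPred_eq, List.mem_map]
    rw [h1]
    exact List.finite_toSet _
  have hu : (ev H 0).mulVec ((ev H 0).adjugate.mulVec (Pi.single (zb b) 1 : Box b → ℂ)) =
      (ev H 0).det • (Pi.single (zb b) 1 : Box b → ℂ) := by
    rw [Matrix.mulVec_mulVec, Matrix.mul_adjugate, Matrix.smul_mulVec, Matrix.one_mulVec]
  refine ⟨(ev H 0).adjugate.mulVec (Pi.single (zb b) 1 : Box b → ℂ), ?_, ?_⟩
  · intro h1
    rw [h1, Matrix.mulVec_zero] at hu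
    have h3 := congrFun hu (zb b)
    rw [Pi.smul_apply, Pi.single_eq_same, smul_eq_mul, mul_one] at h3
    exact hdet h3.symm
  · intro Y hY
    have hQ : ∀ k, cf (CaseB_Q μ (H * Y.map C * H.adjugate)) k ∈ D := by
      intro k
      refine cf_mem_of_ev D _ _ hfin ?_ k
      intro x hx
      have hx' : ∀ p ∈ ((⟨μ, 0, 0⟩ : Pt τ) :: L₀), p.x ≠ x := fun p hp h1 => hx ⟨p, hp, h1⟩
      exact hD.adx' h hΦ (List.cons_ne_nil _ _) x hx' _
        (D.smul_mem (x ^ μ * (ev H x).det) hY) _ (CaseB_conj Φ H hH Y x)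
    have hQ0 : ∀ k, k < μ → cf (CaseB_Q μ (H * Y.map C * H.adjugate)) k = 0 := by
      intro k hk
      refine kill hD h0 _ (hQ k) ?_
      intro γ κ hκ
      simp only [cf, CaseB_Q]
      rw [coeff_X_pow_mul']
      rw [if_neg]
      omega
    have hN : ∀ γ : Box b, γ ≠ zb b →
        ev (H * Y.map C * H.adjugate) 0 γ (zb b) = 0 := by
      intro γ hγ
      have hd : dg γ ≠ 0 := fun h1 => hγ (CaseB_dg_eq_zero γ h1)
      have h2 := congrFun (congrFun (hQ0 (μ - dg γ) (by omega)) γ) (zb b)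
      simp only [cf, CaseB_Q] at h2
      rw [coeff_X_pow_mul', CaseB_dg_zb, if_pos (by omega)] at h2
      have h3 : μ - dg γ - (μ - dg γ + (μ - (μ - 0))) = 0 := by omega
      rw [h3] at h2
      simp only [ev]
      rw [← coeff_zero_eq_eval_zero]
      exact h2
    have hcol : (ev (H * Y.map C * H.adjugate) 0).mulVec (Pi.single (zb b) 1 : Box b → ℂ) =
        (ev (H * Y.map C * H.adjugate) 0 (zb b) (zb b)) • (Pi.single (zb b) 1 : Box b → ℂ) := by
      rw [Matrix.mulVec_single_one]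
      funext γ
      rw [Pi.smul_apply, smul_eq_mul]
      by_cases hγ : γ = zb b
      · rw [hγ, Pi.single_eq_same, mul_one]
        rfl
      · rw [Pi.single_eq_of_ne hγ, mul_zero]
        exact hN γ hγ
    rw [CaseB_ev_mul, CaseB_ev_mul, CaseB_ev_adj, CaseB_ev_C] at hcol
    generalize hχ : ((ev H 0 * Y * (ev H 0).adjugate) (zb b) (zb b)) = χ at hcol
    refine ⟨χ / (ev H 0).det, ?_⟩
    have hinj : ∀ w : Box b → ℂ, (ev H 0).mulVec w = 0 → w = 0 := by
      intro w hw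
      have h4 : (ev H 0).adjugate.mulVec ((ev H 0).mulVec w) = 0 := by
        rw [hw, Matrix.mulVec_zero]
      rw [Matrix.mulVec_mulVec, Matrix.adjugate_mul, Matrix.smul_mulVec, Matrix.one_mulVec] at h4
      exact (smul_eq_zero.mp h4).resolve_left hdet
    rw [← sub_eq_zero]
    apply hinj
    rw [Matrix.mulVec_sub, Matrix.mulVec_smul, hu, Matrix.mulVec_mulVec, Matrix.mulVec_mulVec,
      hcol, smul_smul, div_mul_cancel₀ _ hdet, sub_self]

end Pool.Agent.H18.Tl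

end

section

/-!
# Module Prog (TL): the progress lemma

`D` contains a matrix which is not scalar (`exists_orig`, `mov`, `hD.ds`).
Case B (`Y (zb b) β = 0` for all `Y ∈ D`, `μ ≤ dg β`): let `u` be as in `caseB`.  All vectors `g u`, `g = tz b c * rv b * tz b c'`, are
eigenvectors of all `Y ∈ D`: `g⁻¹ Y g ∈ D` (`hD.tz`, `hD.rv`; `g⁻¹ = tz b (-c') * rv b * tz b (-c)`).  Let `Y ∈ D`, `Y u = χ u`, and suppose
`N = Y - χ • 1 ≠ 0`.  There is `ψ₁` with `ψ₁ ᵥ* N ≠ 0` and, since `det N = 0` (`N u = 0`), `ψ₂ ≠ 0` with `ψ₂ ᵥ* N = 0`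
(`Matrix.exists_vecMul_eq_zero_iff`).  By `orb2` there is `g` with `ψ₂ ⬝ᵥ g u ≠ 0` and `(ψ₁ ᵥ* N) ⬝ᵥ g u ≠ 0`.  `N (g u) = χ' (g u)`;
`0 = (ψ₂ ᵥ* N) ⬝ᵥ g u = χ' (ψ₂ ⬝ᵥ g u)`, so `χ' = 0`, `N (g u) = 0`, a contradiction.  So all `Y ∈ D` are scalar, a contradiction.
Case A: `vecMulVec v ξ ∈ D` (`caseA`).  For `w ≠ 0` suppose that `{Y w : Y ∈ D}` (a subspace) is not everything: there is `ψ ≠ 0` with
`ψ ⬝ᵥ Y w = 0` for all `Y ∈ D`.  By `orb` there are `c`, `c'`: `g = tz b c * rv b * tz b c'`, `g * vecMulVec v ξ * g⁻¹ ∈ D` and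
`ψ ⬝ᵥ (g vecMulVec v ξ g⁻¹ w) = (ψ ⬝ᵥ g v) (ξ ⬝ᵥ g⁻¹ w) ≠ 0`, a contradiction.
-/

namespace Pool.Agent.H18.Tl

open Finset Polynomial Matrix

variable {τ : Type} [Fintype τ] [DecidableEq τ] {b : τ → ℕ} {μ : ℕ}

private theorem Prog_conj {D : Submodule ℂ (Mt b)} (hD : Mxl b μ D) (Y : Mt b) (hY : Y ∈ D)
    (c c' : τ → ℂ) :
    tz b (-c') * rv b * tz b (-c) * Y * (tz b c * rv b * tz b c') ∈ D := by
  have h1 := hD.tz _ (hD.rv _ (hD.tz Y hY c)) c'
  have h2 : tz b (-c') * rv b * tz b (-c) * Y * (tz b c * rv b * tz b c') =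
      tz b (-c') * (rv b * (tz b (-c) * Y * tz b c) * rv b) * tz b c' := by
    simp only [Matrix.mul_assoc]
  rw [h2]
  exact h1

private theorem Prog_conj' {D : Submodule ℂ (Mt b)} (hD : Mxl b μ D) (Y : Mt b) (hY : Y ∈ D)
    (c c' : τ → ℂ) :
    tz b c * rv b * tz b c' * Y * (tz b (-c') * rv b * tz b (-c)) ∈ D := by
  have h1 := Prog_conj hD Y hY (-c') (-c)
  rw [neg_neg, neg_neg] at h1
  exact h1

private theorem Prog_inv (c c' : τ → ℂ) :
    (tz b c * rv b * tz b c') * (tz b (-c') * rv b * tz b (-c)) = 1 := by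
  have h2 : (tz b c * rv b * tz b c') * (tz b (-c') * rv b * tz b (-c)) =
      tz b c * (rv b * (tz b c' * tz b (-c')) * rv b) * tz b (-c) := by
    simp only [Matrix.mul_assoc]
  rw [h2, tz_mul_neg, Matrix.mul_one, rv_mul_rv, Matrix.mul_one, tz_mul_neg]

private theorem Prog_scalar {D : Submodule ℂ (Mt b)} (hD : Mxl b μ D) (u : Box b → ℂ)
    (hu : u ≠ 0) (heig : ∀ Y ∈ D, ∃ χ : ℂ, Y.mulVec u = χ • u) (Y : Mt b) (hY : Y ∈ D) :
    ∃ c : ℂ, Y = c • (1 : Mt b) := by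
  classical
  obtain ⟨χ, hχ⟩ := heig Y hY
  refine ⟨χ, ?_⟩
  by_contra hne
  have hN0 : Y - χ • (1 : Mt b) ≠ 0 := fun h1 => hne (sub_eq_zero.mp h1)
  generalize hN : Y - χ • (1 : Mt b) = N at hN0
  have hNY : ∀ x : Box b → ℂ, N.mulVec x = Y.mulVec x - χ • x := by
    intro x
    rw [← hN, Matrix.sub_mulVec, Matrix.smul_mulVec, Matrix.one_mulVec]
  have hNu : N.mulVec u = 0 := by rw [hNY, hχ, sub_self]
  have hdet : N.det = 0 := Matrix.exists_mulVec_eq_zero_iff.mp ⟨u, hu, hNu⟩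
  obtain ⟨ψ₂, hψ₂, hψ₂N⟩ := Matrix.exists_vecMul_eq_zero_iff.mpr hdet
  obtain ⟨γ, hγ⟩ : ∃ γ, N γ ≠ 0 := by
    by_contra h1
    push Not at h1
    exact hN0 (funext h1)
  have hψ₁N : (Pi.single γ 1 : Box b → ℂ) ᵥ* N ≠ 0 := by
    rw [Matrix.single_one_vecMul]
    exact hγ
  obtain ⟨c, c', h1, h2⟩ := orb2 u ((Pi.single γ 1 : Box b → ℂ) ᵥ* N) ψ₂ hu hψ₁N hψ₂
  obtain ⟨χ', hχ'⟩ := heig _ (Prog_conj hD Y hY c c')
  have hYg : Y.mulVec ((tz b c * rv b * tz b c').mulVec u) =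
      χ' • (tz b c * rv b * tz b c').mulVec u := by
    have h3 : (tz b c * rv b * tz b c').mulVec
        ((tz b (-c') * rv b * tz b (-c) * Y * (tz b c * rv b * tz b c')).mulVec u) =
        χ' • (tz b c * rv b * tz b c').mulVec u := by
      rw [hχ', Matrix.mulVec_smul]
    rw [← h3, Matrix.mulVec_mulVec, Matrix.mulVec_mulVec]
    congr 1
    have h4 : (tz b c * rv b * tz b c') *
        (tz b (-c') * rv b * tz b (-c) * Y * (tz b c * rv b * tz b c')) =
        ((tz b c * rv b * tz b c') * (tz b (-c') * rv b * tz b (-c))) * Y *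
          (tz b c * rv b * tz b c') := by
      simp only [Matrix.mul_assoc]
    rw [h4, Prog_inv, Matrix.one_mul]
  have hNg : N.mulVec ((tz b c * rv b * tz b c').mulVec u) =
      (χ' - χ) • (tz b c * rv b * tz b c').mulVec u := by
    rw [hNY, hYg, sub_smul]
  have h5 : (χ' - χ) * (ψ₂ ⬝ᵥ (tz b c * rv b * tz b c').mulVec u) = 0 := by
    have h6 : ψ₂ ⬝ᵥ N.mulVec ((tz b c * rv b * tz b c').mulVec u) = 0 := by
      rw [Matrix.dotProduct_mulVec, hψ₂N, zero_dotProduct]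
    rw [hNg, dotProduct_smul, smul_eq_mul] at h6
    exact h6
  have h7 : χ' - χ = 0 := (mul_eq_zero.mp h5).resolve_right h2
  apply h1
  rw [← Matrix.dotProduct_mulVec, hNg, h7, zero_smul, dotProduct_zero]

theorem prog {D : Submodule ℂ (Mt b)} (hD : Mxl b μ D) (hμ : 1 ≤ μ) (hμB : 2 * μ ≤ Bs b + 1)
    (hB : 1 ≤ Bs b) (hex : ∃ a L, Blk b μ a L ∧ L ≠ []) (w : Box b → ℂ) (hw : w ≠ 0)
    (v : Box b → ℂ) : ∃ Y ∈ D, Y.mulVec w = v := by
  classical
  obtain ⟨a, L₀, h⟩ := exists_orig hex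
  obtain ⟨Y₀, hY₀, hns⟩ := mov hμ hB h
  have hY₀D : Y₀ ∈ D := hD.ds _ (by omega) hY₀
  by_cases h0 : ∀ Y ∈ D, ∀ β : Box b, μ ≤ dg β → Y (zb b) β = 0
  · exfalso
    obtain ⟨u, hu, heig⟩ := caseB hD hμ hμB h h0
    obtain ⟨c, hc⟩ := Prog_scalar hD u hu heig Y₀ hY₀D
    exact hns c hc
  · push Not at h0
    obtain ⟨Y, hY, β, hβ, hβ'⟩ := h0
    obtain ⟨v₀, ξ, hv₀, hξ, hmem⟩ := caseA hD hμ h Y hY β hβ hβ'
    let T : Mt b →ₗ[ℂ] (Box b → ℂ) :=
      { toFun := fun Y => Y.mulVec w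
        map_add' := fun A B => Matrix.add_mulVec A B w
        map_smul' := fun c A => Matrix.smul_mulVec c A w }
    by_cases htop : D.map T = ⊤
    · have hv : v ∈ D.map T := by rw [htop]; exact Submodule.mem_top
      obtain ⟨Y', hY', hv'⟩ := hv
      exact ⟨Y', hY', hv'⟩
    · exfalso
      obtain ⟨f, hf, hle⟩ := Submodule.exists_le_ker_of_lt_top (D.map T) (lt_top_iff_ne_top.mpr htop)
      have hfx : ∀ x : Box b → ℂ, f x = (fun γ : Box b => f (Pi.single γ 1)) ⬝ᵥ x := by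
        intro x
        conv_lhs => rw [pi_eq_sum_univ' x]
        rw [map_sum]
        refine Finset.sum_congr rfl fun γ _ => ?_
        rw [map_smul, smul_eq_mul, mul_comm]
      have hψ : (fun γ : Box b => f (Pi.single γ 1)) ≠ 0 := by
        intro h1
        apply hf
        ext1 γ
        ext
        have := congrFun h1 γ
        simpa using this
      obtain ⟨c, c', h1, h2⟩ := orb v₀ w _ ξ hv₀ hw hψ hξ
      have h3 : f (T (tz b c * rv b * tz b c' * vecMulVec v₀ ξ *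
          (tz b (-c') * rv b * tz b (-c)))) = 0 :=
        hle (Submodule.mem_map_of_mem (Prog_conj' hD _ hmem c c'))
      have h4 : T (tz b c * rv b * tz b c' * vecMulVec v₀ ξ *
          (tz b (-c') * rv b * tz b (-c))) =
          (ξ ⬝ᵥ (tz b (-c') * rv b * tz b (-c)).mulVec w) •
            (tz b c * rv b * tz b c').mulVec v₀ := by
        change (tz b c * rv b * tz b c' * vecMulVec v₀ ξ *
          (tz b (-c') * rv b * tz b (-c))).mulVec w = _
        rw [← Matrix.mulVec_mulVec, Matrix.mul_vecMulVec, Matrix.vecMulVec_mulVec]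
        simp
      rw [h4, hfx, dotProduct_smul, smul_eq_mul] at h3
      exact (mul_ne_zero h2 h1) h3

end Pool.Agent.H18.Tl

end
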