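import Pool.Agent.H94.LP4.M76
import Pool.Agent.H94.LP4.M77
import Pool.Agent.H94.LP4.M79
import Pool.Agent.H94.LP4.M82

/-! The parts of this file: H18.Tk.Bres, H18.Tk.ThinG, H18.Tl.Big, H18.Tl.Full. -/

section

/-!
# Module C10 (TK): the schedule

`n1` steps in the direction `true` and `n - n1` steps in the direction `false`, evenly distributed, below `n`; above `n` all
steps are in the direction `true`.
* `ctB_true`: induction on `j` (`ct_succ`): `(j + 1) n1 / n - j n1 / n ∈ {0, 1}` since `n1 ≤ n`.  `ctB_false`: `ct true + ct false = j`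
  (induction).  `ctB_top`: induction on `t`.
* `windowB`: let `l = dir (j + 1)`.  If `l = true` and `j ≤ n`: `i n1 / n = j n1 / n`, so `(j - i) n1 < n`; the other steps in
  `(i, j]` are in the direction `false`, there are `j - i ≤ n / n1` of them.  If `j > n` then `dir j = true`, so `i = j`.  If
  `l = false` then `j + 1 ≤ n`, and `ct false i = ct false j` gives `j n1 / n = i n1 / n + (j - i)`, so
  `(j - i) (n - n1) < n ≤ 3 (n - n1)` and `j - i ≤ 2`.
* `tailB`: `p = n / n1 + 3`, `p n1 ≥ n`: `(t + 1) p n1 / n ≥ t p n1 / n + 1`; for `false`: a window of length `p ≥ 4` without a step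
  in the direction `false` would give `p (n - n1) < n ≤ 3 (n - n1)`.  So `ct l (t p) ≥ t` by induction on `t`.
* `ctB_end`: `(M + 1) p n1 / n ≤ (M + 1) (n + 3 n1) / n ≤ 4 (M + 1)` (`(n / n1) n1 ≤ n`).
-/

namespace Pool.Agent.H18.Tk

open Finset Function

/-- The schedule. -/
def dirB (n1 n : ℕ) (j : ℕ) : Bool :=
  if n < j then true else decide (j * n1 / n ≠ (j - 1) * n1 / n)

private theorem Bres_ct_succ (dir : ℕ → Bool) (l : Bool) (j : ℕ) :
    ct dir l (j + 1) = ct dir l j + (if dir (j + 1) = l then 1 else 0) := by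
  unfold ct
  rw [Finset.range_add_one, Finset.filter_insert]
  by_cases h : dir (j + 1) = l
  · rw [if_pos h, if_pos h, Finset.card_insert_of_notMem]
    intro hm
    have := (Finset.mem_filter.1 hm).1
    simp at this
  · rw [if_neg h, if_neg h, Nat.add_zero]

private theorem Bres_ct_zero (dir : ℕ → Bool) (l : Bool) : ct dir l 0 = 0 := by
  unfold ct
  simp

private theorem Bres_sum (dir : ℕ → Bool) (j : ℕ) : ct dir true j + ct dir false j = j := by
  induction j with
  | zero => rw [Bres_ct_zero, Bres_ct_zero]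
  | succ j ih =>
    rw [Bres_ct_succ, Bres_ct_succ]
    cases dir (j + 1) <;> simp <;> omega

private theorem Bres_le (dir : ℕ → Bool) (l : Bool) {i j : ℕ} (h : i ≤ j) :
    ct dir l i ≤ ct dir l j := by
  induction j, h using Nat.le_induction with
  | base => exact le_refl _
  | succ j _ ih => rw [Bres_ct_succ]; omega

private theorem Bres_floor {n1 n : ℕ} (hn : 0 < n) (h1 : n1 ≤ n) (j : ℕ) :
    (j + 1) * n1 / n = j * n1 / n ∨ (j + 1) * n1 / n = j * n1 / n + 1 := by
  have ha : j * n1 / n ≤ (j + 1) * n1 / n := by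
    apply Nat.div_le_div_right
    apply Nat.mul_le_mul_right
    omega
  have hb : (j + 1) * n1 / n ≤ j * n1 / n + 1 := by
    calc (j + 1) * n1 / n ≤ (j * n1 + n) / n := by
          apply Nat.div_le_div_right
          rw [Nat.add_mul, Nat.one_mul]
          omega
      _ = j * n1 / n + 1 := Nat.add_div_right _ hn
  omega

theorem ctB_true {n1 n : ℕ} (hn : 0 < n) (h1 : n1 ≤ n) (j : ℕ) (hj : j ≤ n) :
    ct (dirB n1 n) true j = j * n1 / n := by
  induction j with
  | zero => rw [Bres_ct_zero]; simp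
  | succ j ih =>
    rw [Bres_ct_succ, ih (by omega)]
    have hd : dirB n1 n (j + 1) = decide ((j + 1) * n1 / n ≠ j * n1 / n) := by
      unfold dirB
      rw [if_neg (by omega), Nat.add_sub_cancel]
    rw [hd]
    rcases Bres_floor hn h1 j with h | h
    · rw [h]; simp
    · rw [h]; simp

theorem ctB_false {n1 n : ℕ} (hn : 0 < n) (h1 : n1 ≤ n) (j : ℕ) (hj : j ≤ n) :
    ct (dirB n1 n) false j = j - j * n1 / n := by
  have h := Bres_sum (dirB n1 n) j
  rw [ctB_true hn h1 j hj] at h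
  omega

theorem ctB_top {n1 n : ℕ} (hn : 0 < n) (h1 : n1 ≤ n) (t : ℕ) :
    ct (dirB n1 n) true (n + t) = n1 + t ∧ ct (dirB n1 n) false (n + t) = n - n1 := by
  induction t with
  | zero =>
    have hq : n * n1 / n = n1 := Nat.mul_div_cancel_left _ hn
    constructor
    · rw [Nat.add_zero, Nat.add_zero, ctB_true hn h1 n le_rfl, hq]
    · rw [Nat.add_zero, ctB_false hn h1 n le_rfl, hq]
  | succ t ih =>
    have hd : dirB n1 n (n + t + 1) = true := by
      unfold dirB
      rw [if_pos (by omega)]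
    obtain ⟨ih1, ih2⟩ := ih
    constructor
    · rw [← Nat.add_assoc, Bres_ct_succ, hd, ih1]; simp; omega
    · rw [← Nat.add_assoc, Bres_ct_succ, hd, ih2]; simp

theorem windowB {n1 n2 : ℕ} (h1 : 1 ≤ n1) (h2 : n1 ≤ 2 * n2) (i j : ℕ) (hij : i ≤ j)
    (h : ct (dirB n1 (n1 + n2)) (dirB n1 (n1 + n2) (j + 1)) i =
      ct (dirB n1 (n1 + n2)) (dirB n1 (n1 + n2) (j + 1)) j) :
    ct (dirB n1 (n1 + n2)) true (j + 1) - ct (dirB n1 (n1 + n2)) true i ≤ 2 ∧
    ct (dirB n1 (n1 + n2)) false (j + 1) - ct (dirB n1 (n1 + n2)) false i ≤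
      (n1 + n2) / n1 := by
  have hn : 0 < n1 + n2 := by omega
  have hle : n1 ≤ n1 + n2 := by omega
  have hq1 : 1 ≤ (n1 + n2) / n1 := by
    rw [Nat.le_div_iff_mul_le (by omega)]; omega
  have hs := Bres_ct_succ (dirB n1 (n1 + n2))
  cases hl : dirB n1 (n1 + n2) (j + 1) with
  | true =>
    rw [hl] at h
    have ht := hs true j
    have hf := hs false j
    rw [hl] at ht hf
    simp only [if_true] at ht
    have hf' : ct (dirB n1 (n1 + n2)) false (j + 1) = ct (dirB n1 (n1 + n2)) false j := by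
      rw [hf]; simp
    refine ⟨by omega, ?_⟩
    rw [hf']
    by_cases hj : j ≤ n1 + n2
    · have e1 := ctB_true hn hle j hj
      have e2 := ctB_true hn hle i (by omega)
      have hqi : i * n1 / (n1 + n2) = j * n1 / (n1 + n2) := by rw [← e1, ← e2]; exact h
      have s1 := Bres_sum (dirB n1 (n1 + n2)) j
      have s2 := Bres_sum (dirB n1 (n1 + n2)) i
      have hd : ct (dirB n1 (n1 + n2)) false j - ct (dirB n1 (n1 + n2)) false i = j - i := by
        omega
      rw [hd, Nat.le_div_iff_mul_le (by omega)]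
      have a1 := Nat.lt_mul_div_succ (j * n1) hn
      have a2 := Nat.mul_div_le (i * n1) (n1 + n2)
      rw [hqi] at a2
      rw [Nat.sub_mul]
      rw [Nat.mul_add, Nat.mul_one] at a1
      omega
    · have hij' : i = j := by
        by_contra hne
        have hlt : i ≤ j - 1 := by omega
        have hm := Bres_le (dirB n1 (n1 + n2)) true hlt
        have hs2 := hs true (j - 1)
        have hd : dirB n1 (n1 + n2) (j - 1 + 1) = true := by
          unfold dirB
          rw [if_pos (by omega)]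
        rw [hd] at hs2
        simp only [if_true] at hs2
        have hj1 : j - 1 + 1 = j := by omega
        rw [hj1] at hs2
        omega
      subst hij'
      omega
  | false =>
    rw [hl] at h
    have ht := hs true j
    have hf := hs false j
    rw [hl] at ht hf
    simp only [if_true] at hf
    have ht' : ct (dirB n1 (n1 + n2)) true (j + 1) = ct (dirB n1 (n1 + n2)) true j := by
      rw [ht]; simp
    have hj : j + 1 ≤ n1 + n2 := by
      by_contra hc
      have hd : dirB n1 (n1 + n2) (j + 1) = true := by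
        unfold dirB
        rw [if_pos (by omega)]
      rw [hd] at hl
      exact Bool.noConfusion hl
    refine ⟨?_, by omega⟩
    rw [ht']
    have e1 := ctB_true hn hle j (by omega)
    have e2 := ctB_true hn hle i (by omega)
    have s1 := Bres_sum (dirB n1 (n1 + n2)) j
    have s2 := Bres_sum (dirB n1 (n1 + n2)) i
    have hd : ct (dirB n1 (n1 + n2)) true j - ct (dirB n1 (n1 + n2)) true i = j - i := by
      omega
    rw [hd]
    have hq : j * n1 / (n1 + n2) = i * n1 / (n1 + n2) + (j - i) := by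
      rw [← e1, ← e2]; omega
    have a1 := Nat.lt_mul_div_succ (i * n1) hn
    have a2 := Nat.mul_div_le (j * n1) (n1 + n2)
    rw [hq] at a2
    obtain ⟨k, rfl⟩ := Nat.exists_eq_add_of_le hij
    rw [Nat.add_sub_cancel_left] at a2 ⊢
    by_contra hk
    have hk3 : 3 ≤ k := by omega
    -- `k (n1 + n2) < k n1 + n1 + n2`
    have a3 : k * (n1 + n2) < k * n1 + (n1 + n2) := by
      have b1 : (n1 + n2) * (i * n1 / (n1 + n2) + k) =
          (n1 + n2) * (i * n1 / (n1 + n2)) + k * (n1 + n2) := by ring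
      have b2 : (i + k) * n1 = i * n1 + k * n1 := by ring
      have b3 : (n1 + n2) * (i * n1 / (n1 + n2) + 1) =
          (n1 + n2) * (i * n1 / (n1 + n2)) + (n1 + n2) := by ring
      omega
    have a4 : 3 * n2 ≤ k * n2 := Nat.mul_le_mul_right _ hk3
    have a5 : k * (n1 + n2) = k * n1 + k * n2 := by ring
    omega

theorem tailB {n1 n2 : ℕ} (M : ℕ) (h1 : 1 ≤ n1) (h2 : n1 ≤ 2 * n2)
    (hM : (M + 1) * ((n1 + n2) / n1 + 3) ≤ n1 + n2) (l : Bool) :
    M ≤ ct (dirB n1 (n1 + n2)) l (M * ((n1 + n2) / n1 + 3)) ∧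
    ct (dirB n1 (n1 + n2)) l (M * ((n1 + n2) / n1 + 3)) <
      ct (dirB n1 (n1 + n2)) l ((M + 1) * ((n1 + n2) / n1 + 3)) := by
  have hn : 0 < n1 + n2 := by omega
  have hle : n1 ≤ n1 + n2 := by omega
  have hq1 : 1 ≤ (n1 + n2) / n1 := by
    rw [Nat.le_div_iff_mul_le (by omega)]; omega
  obtain ⟨p, hp⟩ : ∃ p, p = (n1 + n2) / n1 + 3 := ⟨_, rfl⟩
  rw [← hp] at hM ⊢
  have hp4 : 4 ≤ p := by omega
  have hpn : n1 + n2 ≤ p * n1 := by
    have := Nat.lt_mul_div_succ (n1 + n2) (show 0 < n1 by omega)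
    have h3 : p * n1 = n1 * ((n1 + n2) / n1 + 1) + 2 * n1 := by rw [hp]; ring
    omega
  have hpm : p * n1 ≤ (p - 1) * (n1 + n2) := by
    obtain ⟨r, rfl⟩ : ∃ r, p = r + 1 := ⟨p - 1, by omega⟩
    rw [Nat.add_sub_cancel]
    have h4 : 3 * n2 ≤ r * n2 := Nat.mul_le_mul_right _ (by omega)
    have h5 : (r + 1) * n1 = r * n1 + n1 := by ring
    have h6 : r * (n1 + n2) = r * n1 + r * n2 := by ring
    omega
  have hMp : M * p ≤ n1 + n2 := by
    have : (M + 1) * p = M * p + p := by ring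
    omega
  have f1 : M ≤ M * p * n1 / (n1 + n2) := by
    rw [Nat.le_div_iff_mul_le hn, Nat.mul_assoc]
    exact Nat.mul_le_mul_left _ hpn
  have f2 : M * p * n1 / (n1 + n2) + 1 ≤ (M + 1) * p * n1 / (n1 + n2) := by
    rw [← Nat.add_div_right _ hn]
    apply Nat.div_le_div_right
    have : (M + 1) * p * n1 = M * p * n1 + p * n1 := by ring
    omega
  have f3 : M * p * n1 / (n1 + n2) ≤ M * (p - 1) := by
    apply Nat.div_le_of_le_mul
    calc M * p * n1 = M * (p * n1) := by ring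
      _ ≤ M * ((p - 1) * (n1 + n2)) := Nat.mul_le_mul_left _ hpm
      _ = (n1 + n2) * (M * (p - 1)) := by ring
  have f4 : (M + 1) * p * n1 / (n1 + n2) ≤ M * p * n1 / (n1 + n2) + (p - 1) := by
    rw [← Nat.add_mul_div_right _ _ hn]
    apply Nat.div_le_div_right
    have : (M + 1) * p * n1 = M * p * n1 + p * n1 := by ring
    omega
  have g1 : M * p = M * (p - 1) + M := by
    obtain ⟨r, rfl⟩ : ∃ r, p = r + 1 := ⟨p - 1, by omega⟩
    rw [Nat.add_sub_cancel]; ring
  have g2 : (M + 1) * p = M * p + p := by ring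
  cases l with
  | true =>
    rw [ctB_true hn hle _ hMp, ctB_true hn hle _ hM]
    exact ⟨f1, by omega⟩
  | false =>
    rw [ctB_false hn hle _ hMp, ctB_false hn hle _ hM]
    exact ⟨by omega, by omega⟩

theorem ctB_end {n1 n2 : ℕ} (M : ℕ) (h1 : 1 ≤ n1)
    (hM : (M + 1) * ((n1 + n2) / n1 + 3) ≤ n1 + n2) :
    ct (dirB n1 (n1 + n2)) true ((M + 1) * ((n1 + n2) / n1 + 3)) ≤ 4 * (M + 1) := by
  have hn : 0 < n1 + n2 := by omega
  have hle : n1 ≤ n1 + n2 := by omega
  rw [ctB_true hn hle _ hM]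
  apply Nat.div_le_of_le_mul
  have h3 : ((n1 + n2) / n1 + 3) * n1 ≤ 4 * (n1 + n2) := by
    have := Nat.mul_div_le (n1 + n2) n1
    have h4 : ((n1 + n2) / n1 + 3) * n1 = n1 * ((n1 + n2) / n1) + 3 * n1 := by ring
    omega
  calc (M + 1) * ((n1 + n2) / n1 + 3) * n1 = (M + 1) * (((n1 + n2) / n1 + 3) * n1) := by ring
    _ ≤ (M + 1) * (4 * (n1 + n2)) := Nat.mul_le_mul_left _ h3
    _ = (n1 + n2) * (4 * (M + 1)) := by ring

end Pool.Agent.H18.Tk

end

section

/-!
# Module T2 (TK): near-exactness if all coordinates other than `h`, `c` are thin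

As `thin_step` in `Pool/Agent/H18/Tj/ThinS.lean` and `thin` in `Pool/Agent/H18/Tj/Thin.lean`, without the hypothesis
`σ ≤ w h`: it was only used in `cnt_thin`, `cnt_mono` for `β s ≤ β t + θ ^ (q + 1)`, where now `cnt_thin_up` and
`cnt_thin_dn` are used at most `θ` times.
-/

namespace Pool.Agent.H18.Tk

open Finset Function Pool.Agent.H18.Ex Pool.Agent.H18.Ta Pool.Agent.H18.Tj

variable {ι : Type} [Fintype ι] [DecidableEq ι]

/-- the ranks permute the layers -/
private theorem ThinG_rk {ℓ u : ℕ} (hu : u < ℓ) (W : ℕ → ℕ) :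
    ∑ s ∈ range ℓ, W (Ta.rk ℓ u 0 s) = ∑ t ∈ range ℓ, W t := by
  have hmaps : Set.MapsTo (fun s => Ta.rk ℓ u 0 s) (range ℓ : Set ℕ) (range ℓ : Set ℕ) := by
    intro s hs
    rw [mem_coe, mem_range] at hs ⊢
    exact rk_lt (by omega) hs
  have hinj : Set.InjOn (fun s => Ta.rk ℓ u 0 s) (range ℓ : Set ℕ) := by
    intro s hs t ht he
    rw [mem_coe, mem_range] at hs ht
    exact rk_inj (by omega) hs ht he
  exact sum_nbij (fun s => Ta.rk ℓ u 0 s) hmaps hinj
    (surjOn_of_injOn_of_card_le _ hmaps hinj le_rfl) fun _ _ => rfl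

private theorem ThinG_rk_self (ℓ s : ℕ) : Ta.rk ℓ s 0 s = 0 := by
  unfold Ta.rk
  split_ifs <;> omega

private theorem ThinG_up {h c : ι} (hc : h ≠ c) {τ θ q : ℕ} {w : ι → ℕ} (hq : Fintype.card ι ≤ q)
    (hθ : 1 ≤ θ) (hthin : ∀ i, i ≠ h → i ≠ c → w i < θ) (d : ℕ) :
    (Rg (τ + d) w).card ≤ (Rg τ w).card + d * θ ^ q := by
  induction d with
  | zero => simp
  | succ d ih =>
    have h2 := cnt_thin_up hc (σ := τ + d) hq hθ hthin
    have h3 : τ + (d + 1) = τ + d + 1 := by ring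
    rw [h3]
    have h4 : (d + 1) * θ ^ q = d * θ ^ q + θ ^ q := by ring
    omega

private theorem ThinG_dn {h c : ι} (hc : h ≠ c) {τ θ q : ℕ} {w : ι → ℕ} (hq : Fintype.card ι ≤ q)
    (hθ : 1 ≤ θ) (hthin : ∀ i, i ≠ h → i ≠ c → w i < θ) (d : ℕ) :
    (Rg τ w).card ≤ (Rg (τ + d) w).card + d * θ ^ q := by
  induction d with
  | zero => simp
  | succ d ih =>
    have h2 := cnt_thin_dn hc (σ := τ + d) hq hθ hthin
    have h3 : τ + (d + 1) = τ + d + 1 := by ring
    rw [h3]
    have h4 : (d + 1) * θ ^ q = d * θ ^ q + θ ^ q := by ring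
    omega

private theorem ThinG_const {κ : Type} [Fintype κ] {X : Type} (a : X) :
    (univ : Finset κ).val.map (fun _ => a) = Multiset.replicate (Fintype.card κ) a := by
  rw [Multiset.map_const', Finset.card_val, Finset.card_univ]

theorem thin_stepG {q M θ K' : ℕ} (hq : Fintype.card ι ≤ q) (hM : 1 ≤ M) (h c y : ι)
    (hhc : h ≠ c) (hyh : y ≠ h) (hyc : y ≠ c) (w : ι → ℕ) (σ : ℕ) (hθσ : θ ≤ σ)
    (hMh : M ≤ w h) (hMc : M ≤ w c) (hthin : ∀ i, i ≠ h → i ≠ c → w i < θ)
    (ih : ∀ s < w y + 1, ∀ S : Multiset ℕ, (∀ m ∈ S, m ≤ M) → ∀ x : ℕ,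
      K' * ((Rg (σ - s) (update w y 0)).card + 1) ≤ x ^ 2 →
      (Rg (σ - s) (update w y 0)).card ≤ (S.map (Lx (update w y 0))).sum + x →
      GM (Rg (σ - s) (update w y 0)) ((S + Multiset.replicate x 1).map Kind.free))
    (S : Multiset ℕ) (hS : ∀ m ∈ S, m ≤ M) (x : ℕ)
    (hx1 : zT q θ (M ^ q) * ((Rg σ w).card + 1) ≤ x ^ 2)
    (hx2 : 4 * θ ^ 2 * K' * ((Rg σ w).card + 1) ≤ x ^ 2)
    (hsum : (Rg σ w).card ≤ (S.map (Lx w)).sum + x) :
    GM (Rg σ w) ((S + Multiset.replicate x 1).map Kind.free) := by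
  have hyθ : w y < θ := hthin y hyh hyc
  have hθ1 : 1 ≤ θ := by omega
  have hne : Nonempty ι := ⟨h⟩
  obtain ⟨w', hw'⟩ : ∃ w', w' = update w y 0 := ⟨_, rfl⟩
  rw [← hw'] at ih
  have hw'h : w' h = w h := by rw [hw', update_of_ne (Ne.symm hyh)]
  have hw'c : w' c = w c := by rw [hw', update_of_ne (Ne.symm hyc)]
  have hthin' : ∀ i, i ≠ h → i ≠ c → w' i < θ := by
    intro i hi1 hi2
    rw [hw']
    by_cases hiy : i = y
    · rw [hiy, update_self]
      omega
    · rw [update_of_ne hiy]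
      exact hthin i hi1 hi2
  obtain ⟨ℓ, hℓ⟩ : ∃ ℓ, ℓ = w y + 1 := ⟨_, rfl⟩
  have hℓ1 : 1 ≤ ℓ := by omega
  have hℓθ : ℓ ≤ θ := by omega
  rw [← hℓ] at ih
  -- many simple points
  rcases Nat.lt_or_ge x (Rg σ w).card with hxc | hxc
  swap
  · have h1 := GM.of_card (Rg σ w) (Multiset.replicate x 1) (S.map Kind.free)
      (fun m hm => (Multiset.eq_of_mem_replicate hm).ge)
      (by rw [Multiset.card_replicate]; exact hxc)
    rw [Multiset.map_add, add_comm]
    exact h1
  -- drop the superfluous points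
  obtain ⟨S₁, hS₁, hs1, hs2, hS₁pos⟩ := exists_drop (Lx w) (M ^ q) ((Rg σ w).card - x) S
    (fun m hm => Lx_le_pow hq hne (hS m hm) hM) (by omega)
  refine GM.mono (Multiset.map_le_map (add_le_add_left hS₁ (Multiset.replicate x 1))) ?_
  have hS₁M : ∀ m ∈ S₁, m ≤ M := fun m hm => hS m (Multiset.mem_of_le hS₁ hm)
  obtain ⟨k, μ, hμ⟩ := multi_exists_fin S₁
  have hμM : ∀ j, μ j ≤ M := by
    intro j
    apply hS₁M
    rw [← hμ]
    exact Multiset.mem_map.2 ⟨j, (by rw [Finset.mem_val]; exact Finset.mem_univ _), rfl⟩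
  have hμpos : ∀ j, 0 < Lx w (μ j) := by
    intro j
    apply hS₁pos
    rw [← hμ]
    exact Multiset.mem_map.2 ⟨j, (by rw [Finset.mem_val]; exact Finset.mem_univ _), rfl⟩
  have hsumS : (S₁.map (Lx w)).sum = ∑ j, Lx w (μ j) := by
    rw [← hμ, Multiset.map_map]
    rfl
  rw [hsumS] at hs1 hs2
  -- the assignment of the points
  obtain ⟨u, hu, hdev⟩ := assign ℓ (M ^ q) hℓ1 k (fun j i => Lx w' (μ j - i))
    (fun j i => Lx_mono (h := h) (M := M) (by rw [hw'h]; exact hMh) (by omega)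
      ((Nat.sub_le _ _).trans (hμM j)))
    (fun j i => by
      rcases Nat.lt_or_ge (μ j - i) 2 with h2 | h2
      · have e1 : μ j - (i + 1) = 0 := by omega
        rw [e1, Lx_zero]
        omega
      · have h3 := Lx_convex hhc (w := w') (M := M) (by rw [hw'h]; exact hMh)
          (by rw [hw'c]; exact hMc) (μ j - i - 2) (by have := hμM j; omega)
        have e1 : μ j - (i + 1) = μ j - i - 2 + 1 := by omega
        have e2 : μ j - (i + 2) = μ j - i - 2 := by omega
        have e3 : μ j - i = μ j - i - 2 + 2 := by omega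
        rw [e1, e2]
        rw [← e3] at h3
        linarith)
    (fun j => by
      rw [Nat.sub_zero]
      exact Lx_le_pow hq hne (hμM j) hM)
  obtain ⟨L, hL⟩ : ∃ L : ℕ → ℕ, L = fun s => ∑ j, Lx w' (μ j - Ta.rk ℓ (u j) 0 s) := ⟨_, rfl⟩
  have hsumL : ∑ s ∈ range ℓ, L s = ∑ j, Lx w (μ j) := by
    rw [hL, sum_comm]
    refine sum_congr rfl fun j _ => ?_
    rw [ThinG_rk (hu j) (fun t => Lx w' (μ j - t)), Lx_layer y w (μ j), ← hw', ← hℓ]
  have hsumWL : ∑ j, ∑ t ∈ range ℓ, ((Lx w' (μ j - t) : ℕ) : ℤ) = ∑ t ∈ range ℓ, (L t : ℤ) := by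
    have e1 : ∑ t ∈ range ℓ, (L t : ℤ) = ((∑ t ∈ range ℓ, L t : ℕ) : ℤ) := by push_cast; rfl
    rw [e1, hsumL]
    push_cast
    refine sum_congr rfl fun j _ => ?_
    rw [Lx_layer y w (μ j), ← hw', ← hℓ]
    push_cast
    rfl
  -- the sizes of the layers
  obtain ⟨β, hβ⟩ : ∃ β : ℕ → ℕ, β = fun s => (Rg (σ - s) w').card := ⟨_, rfl⟩
  have hsumβ : ∑ s ∈ range ℓ, β s = (Rg σ w).card := by
    rw [cnt_layer y σ w, ← hw', ← hℓ, hβ]
    rw [filter_true_of_mem]
    intro t ht
    rw [mem_range] at ht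
    omega
  have hβd : ∀ s < ℓ, ∀ t < ℓ, β s ≤ β t + θ ^ (q + 1) := by
    intro s hs t ht
    rw [hβ]
    dsimp only
    rcases Nat.lt_or_ge s t with hst | hst
    · have h1 := ThinG_up hhc (τ := σ - t) hq hθ1 hthin' (t - s)
      have e1 : σ - t + (t - s) = σ - s := by omega
      rw [e1] at h1
      have h2 : (t - s) * θ ^ q ≤ θ * θ ^ q := Nat.mul_le_mul_right _ (by omega)
      have h3 : θ ^ (q + 1) = θ * θ ^ q := by ring
      omega
    · have h1 := ThinG_dn hhc (τ := σ - s) hq hθ1 hthin' (s - t)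
      have e1 : σ - s + (s - t) = σ - t := by omega
      rw [e1] at h1
      have h2 : (s - t) * θ ^ q ≤ θ * θ ^ q := Nat.mul_le_mul_right _ (by omega)
      have h3 : θ ^ (q + 1) = θ * θ ^ q := by ring
      omega
  have hkL : k ≤ ∑ s ∈ range ℓ, L s := by
    rw [hsumL]
    calc k = ∑ _j : Fin k, 1 := by simp
      _ ≤ ∑ j, Lx w (μ j) := sum_le_sum fun j _ => hμpos j
  obtain ⟨xs, hxs1, hxs2, hxs3⟩ := distribute q θ (M ^ q) ℓ k K' x hℓ1 hℓθ β L hβd
    (by rw [hsumβ, hsumL]; omega) (by rw [hsumβ, hsumL]; omega) hkL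
    (by
      rw [← hsumWL, hL]
      push_cast
      push_cast at hdev
      exact hdev)
    (by rw [hsumβ]; exact hx1) (by rw [hsumβ]; exact hx2)
  -- the family
  obtain ⟨μ', hμ'⟩ : ∃ μ' : Fin k ⊕ (Σ s : Fin ℓ, Fin (xs s)) → ℕ,
      μ' = Sum.elim μ (fun _ => 1) := ⟨_, rfl⟩
  obtain ⟨u', hu'⟩ : ∃ u' : Fin k ⊕ (Σ s : Fin ℓ, Fin (xs s)) → ℕ,
      u' = Sum.elim u (fun p => (p.1 : ℕ)) := ⟨_, rfl⟩
  have hfam : (S₁ + Multiset.replicate x 1).map (Kind.free (ι := ι)) =
      (univ : Finset (Fin k ⊕ (Σ s : Fin ℓ, Fin (xs s)))).val.map (fun i => Kind.free (μ' i)) := by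
    have hcard : Fintype.card (Σ s : Fin ℓ, Fin (xs s)) = x := by
      rw [Fintype.card_sigma, ← hxs1]
      simp only [Fintype.card_fin]
      exact Fin.sum_univ_eq_sum_range xs ℓ
    have e1 : (fun i => Kind.free (ι := ι) (μ' i)) =
        Sum.elim (fun j => Kind.free (μ j)) (fun _ => Kind.free 1) := by
      funext i
      rw [hμ']
      rcases i with i | i
      · rfl
      · rfl
    rw [e1, multi_map_sum, ThinG_const, hcard, Multiset.map_add, Multiset.map_replicate, ← hμ,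
      Multiset.map_map]
    rfl
  rw [hfam, GM_iff]
  refine layers (Rg σ w) y ℓ ?_ μ' u' ?_ ?_
  · intro a ha
    have h1 := (mem_Rg.1 ha).1 y
    omega
  · intro i
    rw [hu']
    rcases i with i | i
    · exact hu i
    · exact i.1.2
  · intro s hs
    rw [lyr_Rg y σ s w (by omega) (by omega), ← hw']
    have hxx := ih s hs ((univ : Finset (Fin k)).val.map (fun j => μ j - Ta.rk ℓ (u j) 0 s))
      (fun m hm => by
        obtain ⟨j, _, rfl⟩ := Multiset.mem_map.1 hm
        exact (Nat.sub_le _ _).trans (hμM j)) (xs s)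
      (by
        have h1 := hxs3 s hs
        rw [hβ] at h1
        exact h1)
      (by
        have h1 := hxs2 s hs
        rw [hβ, hL] at h1
        rw [Multiset.map_map]
        exact h1)
    have e1 : ((univ : Finset (Fin k)).val.map (fun j => μ j - Ta.rk ℓ (u j) 0 s) +
        Multiset.replicate (xs s) 1).map (Kind.free (ι := ι)) =
        (univ : Finset (Fin k ⊕ Fin (xs s))).val.map
          (Sum.elim (fun j => Kind.free (μ j - Ta.rk ℓ (u j) 0 s)) (fun _ => Kind.free 1)) := by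
      rw [multi_map_sum, ThinG_const, Fintype.card_fin, Multiset.map_add, Multiset.map_replicate,
        Multiset.map_map]
      rfl
    rw [e1, GM_iff] at hxx
    refine GI.of_comp (fun i : Fin k ⊕ Fin (xs s) =>
      (Sum.elim Sum.inl (fun t => Sum.inr ⟨⟨s, hs⟩, t⟩) i :
        Fin k ⊕ (Σ s : Fin ℓ, Fin (xs s)))) ?_ ?_
    · rintro (i | i) (j | j) hij
      · exact congrArg Sum.inl (Sum.inl_injective hij)
      · exact absurd hij (by simp)
      · exact absurd hij (by simp)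
      · have h1 := Sum.inr_injective hij
        have h2 := eq_of_heq (Sigma.mk.inj h1).2
        exact congrArg Sum.inr h2
    · have e2 : (fun i : Fin k ⊕ Fin (xs s) => Kind.free (ι := ι)
          (μ' (Sum.elim Sum.inl (fun t => Sum.inr ⟨⟨s, hs⟩, t⟩) i) -
            Ta.rk ℓ (u' (Sum.elim Sum.inl (fun t => Sum.inr ⟨⟨s, hs⟩, t⟩) i)) 0 s)) =
          Sum.elim (fun j => Kind.free (μ j - Ta.rk ℓ (u j) 0 s)) (fun _ => Kind.free 1) := by
        funext i
        rw [hμ', hu']
        rcases i with i | i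
        · rfl
        · show Kind.free (1 - Ta.rk ℓ s 0 s) = Kind.free 1
          rw [ThinG_rk_self]
      rw [e2]
      exact hxx

private theorem ThinG_base {M : ℕ} (hM : 1 ≤ M) {h c : ι} (hhc : h ≠ c) {w : ι → ℕ} {σ : ℕ}
    (hMh : M ≤ w h) (hMc : M ≤ w c) (h0 : ∀ i, i ≠ h → i ≠ c → w i = 0)
    (S : Multiset ℕ) (hS : ∀ m ∈ S, m ≤ M) (x : ℕ)
    (hsum : (Rg σ w).card ≤ (S.map (Lx w)).sum + x) :
    GM (Rg σ w) ((S + Multiset.replicate x 1).map Kind.free) := by
  have hcard : (univ.filter fun i => 0 < w i).card = 2 := by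
    have h1 : (univ.filter fun i => 0 < w i) = {h, c} := by
      ext i
      rw [mem_filter, mem_insert, mem_singleton]
      constructor
      · rintro ⟨_, hi⟩
        by_contra hcon
        push Not at hcon
        rw [h0 i hcon.1 hcon.2] at hi
        exact absurd hi (lt_irrefl 0)
      · rintro (rfl | rfl)
        · exact ⟨mem_univ _, by omega⟩
        · exact ⟨mem_univ _, by omega⟩
    rw [h1, card_pair hhc]
  refine base_one M σ w hcard _ ?_ ?_
  · intro m hm
    rcases Multiset.mem_add.1 hm with h1 | h1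
    · exact hS m h1
    · rw [Multiset.eq_of_mem_replicate h1]
      exact hM
  · refine hsum.trans (le_of_eq ?_)
    rw [Multiset.map_add, Multiset.sum_add, Multiset.map_replicate, Multiset.sum_replicate,
      base_ell_one, smul_eq_mul, mul_one]
    congr 2
    refine Multiset.map_congr rfl fun m hm => ?_
    have h1 := hS m hm
    rw [base_ell_one, Lx_two hhc h0 (by omega) (by omega)]

theorem thinG {q M θ : ℕ} (hq : Fintype.card ι ≤ q) (hM : 1 ≤ M) (h c : ι) (hhc : h ≠ c)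
    (n : ℕ) :
    ∀ (w : ι → ℕ) (σ : ℕ), (univ.filter fun i => i ≠ h ∧ i ≠ c ∧ 0 < w i).card ≤ n →
    (n + 1) * θ ≤ σ → M ≤ w h → M ≤ w c → 1 ≤ w h → 1 ≤ w c →
    (∀ i, i ≠ h → i ≠ c → w i < θ) →
    ∀ S : Multiset ℕ, (∀ m ∈ S, m ≤ M) → ∀ x : ℕ,
      kT q θ (M ^ q) n * ((Rg σ w).card + 1) ≤ x ^ 2 →
      (Rg σ w).card ≤ (S.map (Lx w)).sum + x →
      GM (Rg σ w) ((S + Multiset.replicate x 1).map Kind.free) := by
  induction n with
  | zero =>
    intro w σ hn _ hMh hMc _ _ _ S hS x _ hsum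
    refine ThinG_base hM hhc hMh hMc ?_ S hS x hsum
    intro i hi1 hi2
    by_contra hcon
    have h1 : i ∈ univ.filter fun i => i ≠ h ∧ i ≠ c ∧ 0 < w i :=
      mem_filter.2 ⟨mem_univ _, hi1, hi2, by omega⟩
    have h2 : 0 < (univ.filter fun i => i ≠ h ∧ i ≠ c ∧ 0 < w i).card := card_pos.2 ⟨i, h1⟩
    omega
  | succ n ih =>
    intro w σ hn hθσ hMh hMc h1h h1c hthin S hS x hx hsum
    by_cases hact : ∃ y, y ≠ h ∧ y ≠ c ∧ 0 < w y
    · obtain ⟨y, hyh, hyc, hy0⟩ := hact
      have hyθ := hthin y hyh hyc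
      have hexp : (n + 1 + 1) * θ = (n + 1) * θ + θ := by ring
      have hθσ' : θ ≤ σ := by
        have h2 : 0 ≤ (n + 1) * θ := Nat.zero_le _
        omega
      have hw'h : update w y 0 h = w h := update_of_ne (Ne.symm hyh) _ _
      have hw'c : update w y 0 c = w c := update_of_ne (Ne.symm hyc) _ _
      have hkT : kT q θ (M ^ q) (n + 1) = 4 * θ ^ 2 * kT q θ (M ^ q) n := by
        unfold kT
        ring
      refine thin_stepG (K' := kT q θ (M ^ q) n) hq hM h c y hhc hyh hyc w σ hθσ' hMh hMc hthin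
        ?_ S hS x ?_ ?_ hsum
      · intro s hs S' hS' x' hx' hsum'
        refine ih (update w y 0) (σ - s) ?_ ?_ ?_ ?_ ?_ ?_ ?_ S' hS' x' hx' hsum'
        · have h2 : (univ.filter fun i => i ≠ h ∧ i ≠ c ∧ 0 < update w y 0 i) ⊆
              (univ.filter fun i => i ≠ h ∧ i ≠ c ∧ 0 < w i).erase y := by
            intro i hi
            obtain ⟨_, h3, h4, h5⟩ := mem_filter.1 hi
            have hiy : i ≠ y := by
              rintro rfl
              rw [update_self] at h5
              exact absurd h5 (lt_irrefl 0)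
            rw [update_of_ne hiy] at h5
            exact mem_erase.2 ⟨hiy, mem_filter.2 ⟨mem_univ _, h3, h4, h5⟩⟩
          have h3 := card_le_card h2
          rw [card_erase_of_mem (mem_filter.2 ⟨mem_univ _, hyh, hyc, hy0⟩)] at h3
          omega
        · omega
        · rw [hw'h]
          exact hMh
        · rw [hw'c]
          exact hMc
        · rw [hw'h]
          exact h1h
        · rw [hw'c]
          exact h1c
        · intro i hi1 hi2
          by_cases hiy : i = y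
          · rw [hiy, update_self]
            omega
          · rw [update_of_ne hiy]
            exact hthin i hi1 hi2
      · refine le_trans (Nat.mul_le_mul_right _ ?_) hx
        unfold kT
        refine Nat.le_mul_of_pos_left _ ?_
        have hθ1 : 0 < θ := by omega
        positivity
      · rw [← hkT]
        exact hx
    · push Not at hact
      refine ThinG_base hM hhc hMh hMc ?_ S hS x hsum
      intro i hi1 hi2
      have := hact i hi1 hi2
      omega

end Pool.Agent.H18.Tk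

end

section

/-!
# Module Big (TL): in large degree the conditions are independent

`big_one`: one point.  By `h0_sh` and `act (tz b _)` (an automorphism of `Ve b e`, `tz_mem_Ve`, `van_tz`) we may assume `p = ⟨m, 0, 0⟩`; then
`Sol b e [p]` consists of the `F` with `(F γ).coeff j = 0` unless `m - dg γ ≤ j ≤ e - dg γ`, of dimension
`∑_γ ((e + 1 - dg γ) - (m - dg γ)) = Lm b (e + 1) - Lm b m` if `Bs b + m ≤ e + 1`.
`big`: induction on `L`, `L = p :: L'`.  Let `g = ∏_{p' ∈ L'} (X - C p'.x)^(p'.m)`, of degree `γ₀`, `g(p.x) ≠ 0`; `g • F ∈ vanL b L'` for all `F`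
(the coefficients of `act` are multiplied by `g`), and `g • F ∈ van b p ↔ F ∈ van b p` (`van_unit`).  The map `F ↦ g • F` from
`Ve b (e - γ₀)` to `Sol b e L' ⧸ Sol b e L` (quotient by the subspace `Sol b e L ≤ Sol b e L'`) has the kernel `Sol b (e - γ₀) [p]`, so
`Lm b (e - γ₀ + 1) - h0 b (e - γ₀) [p] ≤ h0 b e L' - h0 b e L`; the left side is `≥ Lm b p.m` by `big_one`.  So
`h0 b e L + Lm b p.m ≤ h0 b e L'`; `e₀` is the maximum of the bound for `L'` and `γ₀ + Bs b + p.m`.
-/

namespace Pool.Agent.H18.Tl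

open Finset Polynomial

variable {τ : Type} [Fintype τ] [DecidableEq τ] {b : τ → ℕ}

private theorem Big_taylor_coeff (x : ℂ) (f : ℂ[X]) (k : ℕ) (h : ∀ j, k ≤ j → f.coeff j = 0) :
    ∀ j, k ≤ j → (taylor x f).coeff j = 0 := by
  have h1 : f.degree < k := (degree_lt_iff_coeff_zero f k).mpr h
  have h2 : (taylor x f).degree < k := by rw [degree_taylor]; exact h1
  exact (degree_lt_iff_coeff_zero _ k).mp h2

omit [DecidableEq τ] in
private theorem Big_sh_mem_Ve (x : ℂ) (e : ℕ) (F : V b) (hF : F ∈ Ve b e) : sh x F ∈ Ve b e := by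
  intro γ j hj
  rw [sh_apply]
  refine Big_taylor_coeff x (F γ) (e + 1 - dg γ) (fun i hi => hF γ i (by omega)) j (by omega)

private theorem Big_act_back (z : τ → ℂ) (F : V b) : act (tz b (-z)) (act (tz b z) F) = F := by
  rw [← act_mul, tz_neg_mul, act_one]

private theorem Big_act_forth (z : τ → ℂ) (F : V b) : act (tz b z) (act (tz b (-z)) F) = F := by
  rw [← act_mul, tz_mul_neg, act_one]

/-- The coefficients below the diagonal. -/
private noncomputable def Big_coe (p : Pt τ) (lo hi : Box b → ℕ) :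
    V b →ₗ[ℂ] ((Σ γ : Box b, Fin (hi γ - lo γ)) → ℂ) :=
  LinearMap.pi fun i => (lcoeff ℂ (lo i.1 + (i.2 : ℕ))) ∘ₗ (taylor p.x) ∘ₗ
    (LinearMap.proj i.1 : V b →ₗ[ℂ] ℂ[X]) ∘ₗ ((act (tz b p.z)).restrictScalars ℂ)

private theorem Big_coe_apply (p : Pt τ) (lo hi : Box b → ℕ) (F : V b)
    (i : Σ γ : Box b, Fin (hi γ - lo γ)) :
    Big_coe p lo hi F i = (taylor p.x (act (tz b p.z) F i.1)).coeff (lo i.1 + (i.2 : ℕ)) := rfl

/-- Injectivity of the coefficients on the solutions. -/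
private theorem Big_inj (p : Pt τ) (e : ℕ) (F : V b) (hF : F ∈ Sol b e [p])
    (h0 : Big_coe p (fun γ => p.m - dg γ) (fun γ => e + 1 - dg γ) F = 0) : F = 0 := by
  have hv : F ∈ van b p := (mem_vanL.mp (mem_Sol.mp hF).2) p (List.mem_singleton.mpr rfl)
  have hV : act (tz b p.z) F ∈ Ve b e := tz_mem_Ve _ _ _ (mem_Sol.mp hF).1
  have h1 : act (tz b p.z) F = 0 := by
    funext γ
    apply taylor_injective p.x
    rw [Pi.zero_apply, map_zero]
    ext j
    rw [coeff_zero]
    by_cases hj : j + dg γ < p.m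
    · exact (van_iff p F).mp hv γ j hj
    · by_cases hj2 : e + 1 - dg γ ≤ j
      · exact Big_taylor_coeff p.x _ (e + 1 - dg γ) (fun i hi => hV γ i (by omega)) j hj2
      · have h2 := congrFun h0 ⟨γ, ⟨j - (p.m - dg γ), by omega⟩⟩
        rw [Big_coe_apply, Pi.zero_apply] at h2
        have h3 : p.m - dg γ + (j - (p.m - dg γ)) = j := by omega
        simpa only [h3] using h2
  rw [← Big_act_back p.z F, h1, map_zero]

private theorem Big_finite (e : ℕ) (L : List (Pt τ)) : Module.Finite ℂ (Sol b e L) := by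
  classical
  let f : Sol b e L →ₗ[ℂ] ((Σ γ : Box b, Fin ((e + 1 - dg γ) - (0 - dg γ))) → ℂ) :=
    (Big_coe (b := b) (⟨0, 0, 0⟩ : Pt τ) (fun γ => 0 - dg γ) (fun γ => e + 1 - dg γ)) ∘ₗ
      (Sol b e L).subtype
  apply Module.Finite.of_injective f
  rw [← LinearMap.ker_eq_bot, LinearMap.ker_eq_bot']
  rintro ⟨F, hF⟩ h
  apply Subtype.ext
  refine Big_inj (⟨0, 0, 0⟩ : Pt τ) e F ?_ h
  refine mem_Sol.mpr ⟨(mem_Sol.mp hF).1, ?_⟩
  intro q hq γ
  rw [List.mem_singleton.mp hq]
  simp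

theorem big_one (p : Pt τ) (e : ℕ) (he : Bs b + p.m ≤ e + 1) :
    h0 b e [p] + Lm b p.m ≤ Lm b (e + 1) := by
  classical
  let f : Sol b e [p] →ₗ[ℂ] ((Σ γ : Box b, Fin ((e + 1 - dg γ) - (p.m - dg γ))) → ℂ) :=
    (Big_coe (b := b) p (fun γ => p.m - dg γ) (fun γ => e + 1 - dg γ)) ∘ₗ
      (Sol b e [p]).subtype
  have hf : Function.Injective f := by
    rw [← LinearMap.ker_eq_bot, LinearMap.ker_eq_bot']
    rintro ⟨F, hF⟩ h
    exact Subtype.ext (Big_inj p e F hF h)
  have h1 := LinearMap.finrank_le_finrank_of_injective hf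
  rw [Module.finrank_fintype_fun_eq_card, Fintype.card_sigma] at h1
  simp only [Fintype.card_fin] at h1
  have h2 : ∑ γ : Box b, ((e + 1 - dg γ) - (p.m - dg γ)) + ∑ γ : Box b, (p.m - dg γ)
      = ∑ γ : Box b, (e + 1 - dg γ) := by
    rw [← Finset.sum_add_distrib]
    refine Finset.sum_congr rfl fun γ _ => ?_
    omega
  unfold h0 Lm
  omega

/-- The vector with prescribed Taylor coefficients at `p`. -/
private noncomputable def Big_th (p : Pt τ) :
    ((Σ γ : Box b, Fin (p.m - dg γ)) → ℂ) →ₗ[ℂ] V b :=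
  ((act (tz b (-p.z))).restrictScalars ℂ) ∘ₗ (sh (-p.x)) ∘ₗ
    (LinearMap.pi fun γ => ∑ i : Fin (p.m - dg γ),
      (monomial (R := ℂ) (i : ℕ)) ∘ₗ (LinearMap.proj (⟨γ, i⟩ : Σ γ : Box b, Fin (p.m - dg γ))))

/-- The prescribed polynomials. -/
private noncomputable def Big_g (p : Pt τ) (c : (Σ γ : Box b, Fin (p.m - dg γ)) → ℂ) : V b :=
  fun γ => ∑ i : Fin (p.m - dg γ), monomial (i : ℕ) (c ⟨γ, i⟩)

private theorem Big_th_eq (p : Pt τ) (c : (Σ γ : Box b, Fin (p.m - dg γ)) → ℂ) :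
    Big_th p c = act (tz b (-p.z)) (sh (-p.x) (Big_g p c)) := by
  have h : (LinearMap.pi fun γ => ∑ i : Fin (p.m - dg γ),
      (monomial (R := ℂ) (i : ℕ)) ∘ₗ
        (LinearMap.proj (⟨γ, i⟩ : Σ γ : Box b, Fin (p.m - dg γ)))) c = Big_g p c := by
    funext γ
    simp [Big_g, LinearMap.pi_apply, LinearMap.sum_apply]
  unfold Big_th
  rw [LinearMap.comp_apply, LinearMap.comp_apply, h]
  rfl

omit [DecidableEq τ] in
private theorem Big_g_coeff (p : Pt τ) (c : (Σ γ : Box b, Fin (p.m - dg γ)) → ℂ) (γ : Box b)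
    (j : ℕ) : (Big_g p c γ).coeff j = if h : j < p.m - dg γ then c ⟨γ, ⟨j, h⟩⟩ else 0 := by
  unfold Big_g
  rw [finsetSum_coeff]
  simp only [coeff_monomial]
  split_ifs with h
  · rw [Finset.sum_eq_single (⟨j, h⟩ : Fin (p.m - dg γ))]
    · simp
    · intro i _ hi
      rw [if_neg]
      intro h2
      exact hi (Fin.ext h2)
    · intro h2
      exact absurd (Finset.mem_univ _) h2
  · refine Finset.sum_eq_zero fun i _ => ?_
    rw [if_neg]
    intro h2
    exact h (h2 ▸ i.2)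

private theorem Big_th_taylor (p : Pt τ) (c : (Σ γ : Box b, Fin (p.m - dg γ)) → ℂ) (γ : Box b) :
    taylor p.x (act (tz b p.z) (Big_th p c) γ) = Big_g p c γ := by
  rw [Big_th_eq, Big_act_forth, sh_apply, taylor_taylor, add_neg_cancel, taylor_zero]

private theorem Big_th_mem_Ve (p : Pt τ) (c : (Σ γ : Box b, Fin (p.m - dg γ)) → ℂ) (e : ℕ)
    (he : p.m ≤ e + 1) : Big_th p c ∈ Ve b e := by
  rw [Big_th_eq]
  refine tz_mem_Ve _ _ _ (Big_sh_mem_Ve _ _ _ ?_)
  intro γ j hj
  rw [Big_g_coeff, dif_neg]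
  omega

private theorem Big_th_van (p : Pt τ) (c : (Σ γ : Box b, Fin (p.m - dg γ)) → ℂ)
    (h : Big_th p c ∈ van b p) : c = 0 := by
  funext i
  obtain ⟨γ, i⟩ := i
  have h1 := (van_iff p _).mp h γ i (by have := i.2; omega)
  rw [Big_th_taylor, Big_g_coeff, dif_pos i.2] at h1
  exact h1

private theorem Big_smul_van (q : ℂ[X]) (p : Pt τ) (hq : (X - C p.x) ^ p.m ∣ q) (F : V b) :
    q • F ∈ van b p := by
  intro γ
  rw [map_smul, Pi.smul_apply, smul_eq_mul]
  exact Dvd.dvd.mul_right ((pow_dvd_pow _ (Nat.sub_le _ _)).trans hq) _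

omit [DecidableEq τ] in
private theorem Big_smul_Ve (q : ℂ[X]) (e k : ℕ) (hq : q.natDegree ≤ k) (F : V b)
    (hF : F ∈ Ve b e) : q • F ∈ Ve b (e + k) := by
  intro γ j hj
  rw [Pi.smul_apply, smul_eq_mul, coeff_mul]
  refine Finset.sum_eq_zero fun x hx => ?_
  replace hx := Finset.HasAntidiagonal.mem_antidiagonal.mp hx
  by_cases h : k < x.1
  · rw [coeff_eq_zero_of_natDegree_lt (lt_of_le_of_lt hq h), zero_mul]
  · rw [hF γ x.2 (by omega), mul_zero]

/-- One more point. -/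
private theorem Big_step (p : Pt τ) (L : List (Pt τ)) (q : ℂ[X]) (hq0 : q.eval p.x ≠ 0)
    (hq : ∀ p' ∈ L, (X - C p'.x) ^ p'.m ∣ q) (e : ℕ) (he : q.natDegree + p.m ≤ e) :
    h0 b e (p :: L) + Lm b p.m ≤ h0 b e L := by
  classical
  have := Big_finite (b := b) e L
  have := Big_finite (b := b) e (p :: L)
  have hmem : ∀ c : (Σ γ : Box b, Fin (p.m - dg γ)) → ℂ, q • Big_th p c ∈ Sol b e L := by
    intro c
    refine mem_Sol.mpr ⟨?_, ?_⟩
    · have h1 := Big_smul_Ve q (e - q.natDegree) q.natDegree le_rfl (Big_th p c)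
        (Big_th_mem_Ve p c _ (by omega))
      rwa [Nat.sub_add_cancel (by omega)] at h1
    · intro p' hp'
      exact Big_smul_van q p' (hq p' hp') _
  have hsub : ∀ F : V b, F ∈ Sol b e (p :: L) → F ∈ Sol b e L := by
    intro F hF
    refine mem_Sol.mpr ⟨(mem_Sol.mp hF).1, ?_⟩
    intro p' hp'
    exact (mem_vanL.mp (mem_Sol.mp hF).2) p' (List.mem_cons_of_mem _ hp')
  let f1 : Sol b e (p :: L) →ₗ[ℂ] Sol b e L :=
    LinearMap.codRestrict _ (Sol b e (p :: L)).subtype fun F => hsub F F.2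
  let f2 : ((Σ γ : Box b, Fin (p.m - dg γ)) → ℂ) →ₗ[ℂ] Sol b e L :=
    LinearMap.codRestrict _ (((LinearMap.lsmul ℂ[X] (V b) q).restrictScalars ℂ) ∘ₗ Big_th p)
      fun c => hmem c
  let f : (Sol b e (p :: L) × ((Σ γ : Box b, Fin (p.m - dg γ)) → ℂ)) →ₗ[ℂ] Sol b e L :=
    LinearMap.coprod f1 f2
  have hf : Function.Injective f := by
    rw [← LinearMap.ker_eq_bot, LinearMap.ker_eq_bot']
    rintro ⟨F, c⟩ h
    have h1 : (F : V b) + q • Big_th p c = 0 := congrArg Subtype.val h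
    have h2 : (F : V b) ∈ van b p :=
      (mem_vanL.mp (mem_Sol.mp F.2).2) p List.mem_cons_self
    have h3 : q • Big_th p c ∈ van b p := by
      have h4 : q • Big_th p c = -(F : V b) := by
        rw [eq_neg_iff_add_eq_zero, add_comm]; exact h1
      rw [h4]
      exact (van b p).neg_mem h2
    have h5 : c = 0 := Big_th_van p c (van_unit p q hq0 _ h3)
    have h6 : (F : V b) = 0 := by
      rw [h5, map_zero, smul_zero, add_zero] at h1
      exact h1
    refine Prod.ext (Subtype.ext h6) h5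
  have h1 := LinearMap.finrank_le_finrank_of_injective hf
  rw [Module.finrank_prod, Module.finrank_fintype_fun_eq_card, Fintype.card_sigma] at h1
  simp only [Fintype.card_fin] at h1
  unfold h0 Lm
  exact h1

omit [Fintype τ] [DecidableEq τ] in
private theorem Big_prod (L : List (Pt τ)) :
    ∃ q : ℂ[X], (∀ p' ∈ L, (X - C p'.x) ^ p'.m ∣ q) ∧
      ∀ x : ℂ, x ∉ L.map Pt.x → q.eval x ≠ 0 := by
  induction L with
  | nil => exact ⟨1, by simp, by simp⟩
  | cons p L ih =>
    obtain ⟨q, h1, h2⟩ := ih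
    refine ⟨(X - C p.x) ^ p.m * q, ?_, ?_⟩
    · intro p' hp'
      rcases List.mem_cons.mp hp' with h | h
      · rw [h]; exact dvd_mul_right _ _
      · exact Dvd.dvd.mul_left (h1 p' h) _
    · intro x hx
      rw [List.map_cons, List.mem_cons, not_or] at hx
      rw [eval_mul, eval_pow, eval_sub, eval_X, eval_C]
      exact mul_ne_zero (pow_ne_zero _ (sub_ne_zero.mpr hx.1)) (h2 x hx.2)

theorem big (L : List (Pt τ)) (hd : (L.map Pt.x).Nodup) :
    ∃ e₀, ∀ e, e₀ ≤ e → h0 b e L + cL b L ≤ Lm b (e + 1) := by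
  induction L with
  | nil =>
    refine ⟨Bs b, fun e he => ?_⟩
    have h1 := big_one (b := b) (⟨0, 0, 0⟩ : Pt τ) e (by simpa using Nat.le_succ_of_le he)
    have h2 : Sol b e ([] : List (Pt τ)) = Sol b e [(⟨0, 0, 0⟩ : Pt τ)] := by
      ext F
      rw [mem_Sol, mem_Sol]
      refine and_congr_right fun _ => ⟨fun _ => ?_, fun _ => ?_⟩
      · intro q hq γ
        rw [List.mem_singleton.mp hq]
        simp
      · intro q hq
        exact absurd hq List.not_mem_nil
    have h3 : h0 b e ([] : List (Pt τ)) = h0 b e [(⟨0, 0, 0⟩ : Pt τ)] := by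
      unfold h0
      rw [h2]
    have h4 : cL b ([] : List (Pt τ)) = 0 := rfl
    rw [h3, h4]
    omega
  | cons p L ih =>
    rw [List.map_cons, List.nodup_cons] at hd
    obtain ⟨e₀, h⟩ := ih hd.2
    obtain ⟨q, h1, h2⟩ := Big_prod L
    refine ⟨max e₀ (q.natDegree + p.m), fun e he => ?_⟩
    have h3 := h e (le_trans (le_max_left _ _) he)
    have h4 := Big_step (b := b) p L q (h2 p.x hd.1) h1 e (le_trans (le_max_right _ _) he)
    have h5 : cL b (p :: L) = Lm b p.m + cL b L := by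
      unfold cL
      rw [List.map_cons, List.sum_cons]
    rw [h5]
    omega

end Pool.Agent.H18.Tl

end

section

/-!
# Module Full (TL): surjectivity at one point gives independent conditions

`full`: for `e' ≥ e` the map `e0` on `Sol b (e' + 1) L` is surjective (`Sol b (e + 1) L ≤ Sol b (e' + 1) L`) with the kernel
`X • Sol b e' L` (`vanL_unit`, `F γ` divisible by `X`), so `h0 b (e' + 1) L = h0 b e' L + Pc b`; also `Lm b (e' + 2) = Lm b (e' + 1) + Pc b`
(`e' + 1 ≥ Bs b ≥ dg γ`).  So `Lm b (e' + 1) - h0 b e' L` does not depend on `e' ≥ e`, and for large `e'` it is `≥ cL b L` by `big`.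
-/

namespace Pool.Agent.H18.Tl

open Finset Polynomial

variable {τ : Type} [Fintype τ] [DecidableEq τ] {b : τ → ℕ} {e : ℕ} {L : List (Pt τ)}

private theorem Full_finite (e : ℕ) (L : List (Pt τ)) : Module.Finite ℂ (Sol b e L) := by
  classical
  let f : Sol b e L →ₗ[ℂ] ((Σ γ : Box b, Fin (e + 1)) → ℂ) :=
    (LinearMap.pi fun i => (lcoeff ℂ (i.2 : ℕ)) ∘ₗ (LinearMap.proj i.1 : V b →ₗ[ℂ] ℂ[X])) ∘ₗ
      (Sol b e L).subtype
  apply Module.Finite.of_injective f
  rw [← LinearMap.ker_eq_bot, LinearMap.ker_eq_bot']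
  rintro ⟨F, hF⟩ h
  apply Subtype.ext
  funext γ
  ext j
  rw [Submodule.coe_zero, Pi.zero_apply, coeff_zero]
  by_cases hj : j < e + 1
  · exact congrFun h ⟨γ, ⟨j, hj⟩⟩
  · exact (mem_Sol.mp hF).1 γ j (by omega)

private theorem Full_mono (F : V b) {e e' : ℕ} (h : e ≤ e') (hF : F ∈ Sol b e L) :
    F ∈ Sol b e' L :=
  mem_Sol.mpr ⟨fun γ j hj => (mem_Sol.mp hF).1 γ j (by omega), (mem_Sol.mp hF).2⟩

private theorem Full_X (F : V b) {e : ℕ} (hF : F ∈ Sol b e L) :
    (X : ℂ[X]) • F ∈ Sol b (e + 1) L := by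
  refine mem_Sol.mpr ⟨?_, (vanL b L).smul_mem _ (mem_Sol.mp hF).2⟩
  intro γ j hj
  rw [Pi.smul_apply, smul_eq_mul]
  rcases j with _ | j
  · exact coeff_X_mul_zero _
  · rw [coeff_X_mul]
    exact (mem_Sol.mp hF).1 γ j (by omega)

private theorem Full_coeff (F : V b) (G : Box b → V b) (hG : ∀ β, e0 (G β) = Pi.single β 1)
    (v : Box b → ℂ) (h : (X : ℂ[X]) • F + ∑ β, v β • G β = 0) : v = 0 := by
  funext γ
  have h1 : (((X : ℂ[X]) • F + ∑ β, v β • G β) γ).coeff 0 = 0 := by
    rw [h]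
    rfl
  rw [Pi.add_apply, Pi.smul_apply, smul_eq_mul, coeff_add, coeff_X_mul_zero, zero_add,
    Finset.sum_apply, finsetSum_coeff] at h1
  have h2 : ∀ β ∈ (Finset.univ : Finset (Box b)),
      ((v β • G β) γ).coeff 0 = v β * (if γ = β then 1 else 0) := by
    intro β _
    have h5 := congrFun (hG β) γ
    rw [Pi.single_apply] at h5
    have h6 : (G β γ).coeff 0 = if γ = β then 1 else 0 := h5
    rw [Pi.smul_apply, coeff_smul, smul_eq_mul, h6]
  rw [Finset.sum_congr rfl h2] at h1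
  rw [Finset.sum_eq_single γ] at h1
  · rwa [if_pos rfl, mul_one] at h1
  · intro β _ hβ
    rw [if_neg (Ne.symm hβ), mul_zero]
  · intro h7
    exact absurd (Finset.mem_univ _) h7

omit [Fintype τ] [DecidableEq τ] in
private theorem Full_X_inj (F : V b) (h : (X : ℂ[X]) • F = 0) : F = 0 := by
  funext γ
  have h8 := congrFun h γ
  rw [Pi.smul_apply, smul_eq_mul, Pi.zero_apply] at h8
  exact (mul_eq_zero.mp h8).resolve_left X_ne_zero

/-- Multiplication by `X`. -/
private noncomputable def Full_mX : V b →ₗ[ℂ] V b :=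
  (LinearMap.lsmul ℂ[X] (V b) X).restrictScalars ℂ

omit [Fintype τ] [DecidableEq τ] in
private theorem Full_mX_apply (F : V b) : Full_mX F = (X : ℂ[X]) • F := rfl

/-- The combinations. -/
private noncomputable def Full_cmb (G : Box b → V b) : (Box b → ℂ) →ₗ[ℂ] V b :=
  Fintype.linearCombination ℂ G

private theorem Full_cmb_apply (G : Box b → V b) (v : Box b → ℂ) :
    Full_cmb G v = ∑ β, v β • G β := rfl

private theorem Full_cmb_mem (G : Box b → V b) (e' : ℕ) (hG : ∀ β, G β ∈ Sol b e' L)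
    (v : Box b → ℂ) : Full_cmb G v ∈ Sol b e' L := by
  rw [Full_cmb_apply]
  exact Submodule.sum_mem _ fun β _ => Submodule.smul_mem _ _ (hG β)

private theorem Full_mX_mem (e' : ℕ) (F : V b) (hF : F ∈ Sol b e' L) :
    Full_mX F ∈ Sol b (e' + 1) L := by
  rw [Full_mX_apply]
  exact Full_X F hF

private theorem Full_step (hs : ∀ v : Box b → ℂ, ∃ G ∈ Sol b (e + 1) L, e0 G = v) (e' : ℕ)
    (he : e ≤ e') : h0 b e' L + Pc b ≤ h0 b (e' + 1) L := by
  classical
  have hfin1 := Full_finite (b := b) e' L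
  have hfin2 := Full_finite (b := b) (e' + 1) L
  choose G hG1 hG2 using fun β : Box b => hs (Pi.single β 1)
  have hG3 : ∀ β, G β ∈ Sol b (e' + 1) L := fun β => Full_mono (G β) (by omega) (hG1 β)
  let f1 : Sol b e' L →ₗ[ℂ] Sol b (e' + 1) L :=
    LinearMap.codRestrict _ (Full_mX ∘ₗ (Sol b e' L).subtype) fun F => Full_mX_mem e' F.1 F.2
  let f2 : (Box b → ℂ) →ₗ[ℂ] Sol b (e' + 1) L :=
    LinearMap.codRestrict _ (Full_cmb G) fun v => Full_cmb_mem G (e' + 1) hG3 v
  let f : (Sol b e' L × (Box b → ℂ)) →ₗ[ℂ] Sol b (e' + 1) L := LinearMap.coprod f1 f2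
  have hf : Function.Injective f := by
    rw [← LinearMap.ker_eq_bot, LinearMap.ker_eq_bot']
    rintro ⟨F, v⟩ h
    obtain ⟨F, hF⟩ := F
    have h0 : Full_mX F + Full_cmb G v = 0 := congrArg Subtype.val h
    rw [Full_mX_apply, Full_cmb_apply] at h0
    have hv : v = 0 := Full_coeff F G hG2 v h0
    have h6 : (X : ℂ[X]) • F = 0 := by
      rw [hv] at h0
      have h9 : ∑ β, (0 : Box b → ℂ) β • G β = 0 :=
        Finset.sum_eq_zero fun β _ => by rw [Pi.zero_apply, zero_smul]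
      rwa [h9, add_zero] at h0
    exact Prod.ext (Subtype.ext (Full_X_inj _ h6)) hv
  have h1 := LinearMap.finrank_le_finrank_of_injective hf
  rw [Module.finrank_prod, Module.finrank_fintype_fun_eq_card] at h1
  exact h1

theorem full (hd : (L.map Pt.x).Nodup) (hB : Bs b ≤ e + 1) (hx : ∀ p ∈ L, p.x ≠ 0)
    (hs : ∀ v : Box b → ℂ, ∃ G ∈ Sol b (e + 1) L, e0 G = v) :
    h0 b e L + cL b L ≤ Lm b (e + 1) := by
  obtain ⟨e₀, h⟩ := big (b := b) L hd
  have h1 : ∀ k : ℕ, h0 b e L + k * Pc b ≤ h0 b (e + k) L := by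
    intro k
    induction k with
    | zero => simp
    | succ k ih =>
      have h2 := Full_step hs (e + k) (by omega)
      rw [add_mul, one_mul]
      rw [← add_assoc e k 1]
      omega
  have h2 := h (e + e₀) (by omega)
  have h3 := h1 e₀
  have h4 := Lm_add b (e + 1) e₀ hB
  have h5 : e + 1 + e₀ = e + e₀ + 1 := by ring
  rw [h5] at h4
  omega

end Pool.Agent.H18.Tl

end
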