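import Pool.Agent.H94.LP4.H18.Cub.TayP
import Pool.Agent.H94.LP4.H18.FatBasic
import Pool.Agent.H94.LP4.M01
import Pool.Agent.H94.LP4.M03
import Pool.Agent.H94.LP4.M08

/-! The parts of this file: H18.Cub.WC, H18.Ex.Asm, H18.Cub.GenP, H18.TileFinal_1, H18.TileMain. -/

section

/-!
# Module WC: plane curves with multiple points on the curve `y = x^e`

Coordinates `x = X 0`, `z = X 1 = y - x^e`.  The curve is `z = 0`, its points are `(x, 0)`.
-/

namespace Pool.Agent.H18.Cub

open Finset Pool.Agent.H18.Ex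

/-- `X i - v` divides `F - F|_{X i = v}`. -/
theorem wc_dvd_sub_sub1 {ι : Type} [DecidableEq ι] (i : ι) (v : ℂ) (F : MvPolynomial ι ℂ) :
    (MvPolynomial.X i - MvPolynomial.C v) ∣ F - sub1 i v F := by
  induction F using MvPolynomial.induction_on with
  | C a =>
    have : sub1 i v (MvPolynomial.C a) = MvPolynomial.C a := (sub1 i v).commutes a
    rw [this, sub_self]
    exact dvd_zero _
  | add p q hp hq =>
    rw [map_add]
    have : p + q - (sub1 i v p + sub1 i v q) = (p - sub1 i v p) + (q - sub1 i v q) := by ring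
    rw [this]
    exact dvd_add hp hq
  | mul_X p n hp =>
    rw [map_mul]
    have hX : sub1 i v (MvPolynomial.X n) =
        Function.update (MvPolynomial.X : ι → MvPolynomial ι ℂ) i (MvPolynomial.C v) n := by
      simp [sub1]
    have : p * MvPolynomial.X n - sub1 i v p * sub1 i v (MvPolynomial.X n) =
        (p - sub1 i v p) * sub1 i v (MvPolynomial.X n) +
          p * (MvPolynomial.X n - sub1 i v (MvPolynomial.X n)) := by ring
    rw [this]
    refine dvd_add (Dvd.dvd.mul_right hp _) (Dvd.dvd.mul_left ?_ _)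
    rw [hX]
    by_cases hn : n = i
    · subst hn
      simp
    · rw [Function.update_of_ne hn, sub_self]
      exact dvd_zero _

theorem wc_exists_residual {ι : Type} [DecidableEq ι] (i : ι) (v : ℂ) (F : MvPolynomial ι ℂ)
    (h : sub1 i v F = 0) :
    ∃ F', F = (MvPolynomial.X i - MvPolynomial.C v) * F' := by
  have := wc_dvd_sub_sub1 i v F
  rw [h, sub_zero] at this
  exact this

end Pool.Agent.H18.Cub

end

section

/-!
# Module Asm: assembly of the induction step
-/

namespace Pool.Agent.H18.Ex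

open Finset

section

variable {ι : Type} [Fintype ι] [DecidableEq ι]

/-- Replace the forced conditions on `x_l = 0`. -/
def Cfg.upd (c : Cfg ι) (l : ι) (X : Multiset (ℕ × ℕ)) (s : ℕ) : Cfg ι where
  N := c.N
  s := s
  Φ := Function.update c.Φ l X

theorem Cfg.kinds_split (c : Cfg ι) (l : ι) :
    c.kinds = c.N.map Kind.free + Multiset.replicate c.s (Kind.free 1) +
      ∑ i ∈ univ.erase l, ((c.Φ i).map fun x => Kind.forced i x.1 x.2) +
      (c.Φ l).map fun x => Kind.forced l x.1 x.2 := by
  unfold Cfg.kinds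
  rw [← add_sum_erase univ _ (mem_univ l), add_comm ((c.Φ l).map _), ← add_assoc]

theorem Cfg.kinds_upd (c : Cfg ι) (l : ι) (X : Multiset (ℕ × ℕ)) (s : ℕ) :
    (c.upd l X s).kinds = c.N.map Kind.free + Multiset.replicate s (Kind.free 1) +
      ∑ i ∈ univ.erase l, ((c.Φ i).map fun x => Kind.forced i x.1 x.2) +
      X.map fun x => Kind.forced l x.1 x.2 := by
  rw [Cfg.kinds_split _ l]
  unfold Cfg.upd
  simp only [Function.update_self]
  congr 2
  refine sum_congr rfl fun i hi => ?_
  rw [Function.update_of_ne (ne_of_mem_erase hi)]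

theorem Cfg.sz_split (n : ℕ) (c : Cfg ι) (l : ι) :
    c.sz n = (c.N.map (ell (n + 1))).sum + c.s + ∑ i ∈ univ.erase l, c.fl n i + c.fl n l := by
  unfold Cfg.sz Cfg.nsz
  rw [← add_sum_erase univ _ (mem_univ l), add_comm (c.fl n l), ← add_assoc]

theorem Cfg.sz_upd (n : ℕ) (c : Cfg ι) (l : ι) (X : Multiset (ℕ × ℕ)) (s : ℕ) :
    (c.upd l X s).sz n = (c.N.map (ell (n + 1))).sum + s + ∑ i ∈ univ.erase l, c.fl n i +
      (X.map fun x => ell (n + 1) x.1 + 1 - x.2).sum := by
  rw [Cfg.sz_split _ _ l]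
  unfold Cfg.upd Cfg.fl
  simp only [Function.update_self]
  congr 2
  refine sum_congr rfl fun i hi => ?_
  rw [Function.update_of_ne (ne_of_mem_erase hi)]

theorem Cfg.tr_upd_self (n : ℕ) (c : Cfg ι) (l : ι) (X : Multiset (ℕ × ℕ)) (s : ℕ) :
    (c.upd l X s).tr n l = (X.map fun x => ell n x.1).sum := by
  unfold Cfg.upd Cfg.tr
  simp only [Function.update_self]

theorem Cfg.OK_upd {M : ℕ} {c : Cfg ι} (hc : c.OK M) (l : ι) (X : Multiset (ℕ × ℕ)) (s : ℕ)
    (hX : ∀ x ∈ X, 1 ≤ x.2 ∧ x.2 ≤ 2 ∧ x.2 ≤ x.1 ∧ x.1 ≤ M) : (c.upd l X s).OK M := by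
  refine ⟨hc.hN, ?_⟩
  intro l' x hx
  by_cases h : l' = l
  · subst h
    rw [show (c.upd l' X s).Φ l' = X from Function.update_self _ _ _] at hx
    exact hX x hx
  · rw [show (c.upd l X s).Φ l' = c.Φ l' from Function.update_of_ne h _ _] at hx
    exact hc.hΦ l' x hx

omit [Fintype ι] [DecidableEq ι] in
/-- Numbers of the shift of a valid multiset of forced conditions. -/
theorem shf_numbers (n M : ℕ) (hn : 1 ≤ n) (X : Multiset (ℕ × ℕ))
    (hX : ∀ x ∈ X, 1 ≤ x.2 ∧ x.2 ≤ 2 ∧ x.2 ≤ x.1 ∧ x.1 ≤ M) :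
    (∀ x ∈ shf X, 1 ≤ x.2 ∧ x.2 ≤ 2 ∧ x.2 ≤ x.1 ∧ x.1 ≤ M) ∧
    ((shf X).map fun x => ell (n + 1) x.1 + 1 - x.2).sum + (X.map fun x => ell n x.1).sum =
      (X.map fun x => ell (n + 1) x.1 + 1 - x.2).sum ∧
    M * ((shf X).map fun x => ell n x.1).sum ≤ (M - 1) * (X.map fun x => ell n x.1).sum := by
  induction X using Multiset.induction_on with
  | empty => simp [shf]
  | cons y X ih =>
    obtain ⟨h1, h2, h3⟩ := ih fun x hx => hX x (Multiset.mem_cons_of_mem hx)
    obtain ⟨hy1, hy2, hy3, hy4⟩ := hX y (Multiset.mem_cons_self _ _)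
    obtain ⟨c, hc⟩ : ∃ c, y.1 = c + 1 := ⟨y.1 - 1, by omega⟩
    have hs := ell_succ n c
    have hr := ell_ratio (n := n) (c := c) (M := M) hn (by omega)
    by_cases hlt : y.2 ≤ c
    · have hshf : shf (y ::ₘ X) = (y.1 - 1, y.2) ::ₘ shf X := by
        unfold shf
        rw [Multiset.map_cons, Multiset.filter_cons_of_pos]
        simp only
        omega
      rw [hshf]
      refine ⟨?_, ?_, ?_⟩
      · intro x hx
        rcases Multiset.mem_cons.1 hx with rfl | hx
        · simp only
          omega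
        · exact h1 x hx
      · simp only [Multiset.map_cons, Multiset.sum_cons]
        rw [hc] at *
        simp only [Nat.add_sub_cancel]
        have hp : 1 ≤ ell (n + 1) c := ell_pos _ (by omega)
        omega
      · simp only [Multiset.map_cons, Multiset.sum_cons, mul_add]
        rw [hc]
        simp only [Nat.add_sub_cancel]
        omega
    · have hshf : shf (y ::ₘ X) = shf X := by
        unfold shf
        rw [Multiset.map_cons, Multiset.filter_cons_of_neg]
        simp only
        omega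
      rw [hshf]
      have hy : y.2 = c + 1 := by omega
      refine ⟨h1, ?_, ?_⟩
      · simp only [Multiset.map_cons, Multiset.sum_cons]
        rw [hc, hy]
        have hc2 : c = 0 ∨ c = 1 := by omega
        rcases hc2 with rfl | rfl
        · rw [ell_one, ell_one]
          omega
        · have h5 := ell_succ n 1
          rw [ell_one] at h5
          rw [h5]
          omega
      · simp only [Multiset.map_cons, Multiset.sum_cons, mul_add]
        omega

omit [Fintype ι] [DecidableEq ι] in
theorem shf_iterate_replicate (s c j : ℕ) (hj : j ≤ c) :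
    shf^[j] (Multiset.replicate s (c + 1, 1)) = Multiset.replicate s (c - j + 1, 1) := by
  induction j with
  | zero => rfl
  | succ j ih =>
    rw [Function.iterate_succ_apply', ih (by omega)]
    unfold shf
    rw [Multiset.map_replicate, Multiset.filter_eq_self.2]
    · congr 2
      simp only
      omega
    · intro x hx
      rw [Multiset.eq_of_mem_replicate hx]
      simp only
      omega

end

end Pool.Agent.H18.Ex

end

section

/-!
# Module GenP: injectivity is an open condition on the positions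
-/

namespace Pool.Agent.H18.Cub

open Finset Pool.Agent.H18.Ex

variable {ι Λ : Type} [Fintype ι] [DecidableEq ι]

open Classical in
omit [DecidableEq ι] in
/-- The multi-indices of a condition as a finite set. -/
theorem genP_exists_idxs (g : Lines Λ ι) (k : Kind Λ) :
    ∃ s : Finset (ι → ℕ), ∀ b, b ∈ s ↔ g.Idx k b := by
  obtain ⟨D, hD⟩ := Idx_lt g k
  refine ⟨(Fintype.piFinset fun _ => range D).filter fun b => g.Idx k b, fun b => ?_⟩
  rw [mem_filter, Fintype.mem_piFinset]
  constructor
  · exact fun h => h.2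
  · exact fun h => ⟨fun i => mem_range.2 (hD b h i), h⟩

/-- The finite set of the multi-indices of a condition. -/
noncomputable def genP_idxs (g : Lines Λ ι) (k : Kind Λ) : Finset (ι → ℕ) :=
  (genP_exists_idxs g k).choose

omit [DecidableEq ι] in
theorem genP_mem_idxs {g : Lines Λ ι} {k : Kind Λ} {b : ι → ℕ} :
    b ∈ genP_idxs g k ↔ g.Idx k b :=
  (genP_exists_idxs g k).choose_spec b

/-- The matrix of the conditions. -/
noncomputable def genP_mat {R : Type} [CommRing R] [Algebra ℂ R] {κ : Type} (g : Lines Λ ι)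
    (W : Submodule ℂ (MvPolynomial ι ℂ)) [FiniteDimensional ℂ W] (k : κ → Kind Λ)
    (pos : κ → ι → R) :
    Matrix (Σ i : κ, {b // b ∈ genP_idxs g (k i)}) (Fin (Module.finrank ℂ W)) R :=
  fun x a => tay (Module.finBasis ℂ W a : MvPolynomial ι ℂ) (g.pt (k x.1) (pos x.1)) x.2.1

theorem genP_tay_repr {W : Submodule ℂ (MvPolynomial ι ℂ)} [FiniteDimensional ℂ W]
    (c : Fin (Module.finrank ℂ W) → ℂ) (q : ι → ℂ) (b : ι → ℕ) :
    tay ((∑ a, c a • Module.finBasis ℂ W a : W) : MvPolynomial ι ℂ) q b =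
      ∑ a, tay (Module.finBasis ℂ W a : MvPolynomial ι ℂ) q b * c a := by
  have h : ((∑ a, c a • Module.finBasis ℂ W a : W) : MvPolynomial ι ℂ) =
      ∑ a, c a • (Module.finBasis ℂ W a : MvPolynomial ι ℂ) := by
    rw [Submodule.coe_sum]
    rfl
  rw [h, tay_sum]
  refine sum_congr rfl fun a _ => ?_
  rw [tay_smul, mul_comm]
  rfl

theorem genP_ker {κ : Type} (g : Lines Λ ι) (W : Submodule ℂ (MvPolynomial ι ℂ))
    [FiniteDimensional ℂ W] (k : κ → Kind Λ) (pos : κ → ι → ℂ) :
    LinearMap.ker (genP_mat g W k pos).mulVecLin = ⊥ ↔ InjP g W k pos := by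
  rw [LinearMap.ker_eq_bot']
  constructor
  · intro h F hF hs
    have h1 := h (fun a => (Module.finBasis ℂ W).repr ⟨F, hF⟩ a) ?_
    · have h2 : (⟨F, hF⟩ : W) = 0 := by
        rw [← (Module.finBasis ℂ W).sum_repr ⟨F, hF⟩]
        refine sum_eq_zero fun a _ => ?_
        have h3 : (Module.finBasis ℂ W).repr ⟨F, hF⟩ a = 0 := congrFun h1 a
        rw [h3, zero_smul]
      exact congrArg Subtype.val h2
    · rw [Matrix.mulVecLin_apply]
      funext x
      have h2 := hs x.1 x.2.1 (genP_mem_idxs.1 x.2.2)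
      have h3 := genP_tay_repr (fun a => (Module.finBasis ℂ W).repr ⟨F, hF⟩ a)
        (g.pt (k x.1) (pos x.1)) x.2.1
      rw [(Module.finBasis ℂ W).sum_repr ⟨F, hF⟩] at h3
      exact h3.symm.trans h2
  · intro h c hc
    rw [Matrix.mulVecLin_apply] at hc
    have h1 := h ((∑ a, c a • Module.finBasis ℂ W a : W) : MvPolynomial ι ℂ)
      (Submodule.coe_mem _) ?_
    · have h2 : (∑ a, c a • Module.finBasis ℂ W a : W) = 0 := Subtype.ext h1
      funext a
      exact Fintype.linearIndependent_iff.1 (Module.finBasis ℂ W).linearIndependent c h2 a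
    · intro i b hb
      rw [genP_tay_repr]
      exact congrFun hc ⟨i, b, genP_mem_idxs.2 hb⟩

/-- The general matrix. -/
noncomputable def genP_gmat {κ : Type} (g : Lines Λ ι) (W : Submodule ℂ (MvPolynomial ι ℂ))
    [FiniteDimensional ℂ W] (k : κ → Kind Λ) :
    Matrix (Σ i : κ, {b // b ∈ genP_idxs g (k i)}) (Fin (Module.finrank ℂ W))
      (MvPolynomial (κ × ι) ℂ) :=
  genP_mat g W k fun i j => MvPolynomial.X (i, j)

theorem genP_gmat_map {κ : Type} (g : Lines Λ ι) (W : Submodule ℂ (MvPolynomial ι ℂ))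
    [FiniteDimensional ℂ W] (k : κ → Kind Λ) (x : κ × ι → ℂ) :
    (genP_gmat g W k).map (MvPolynomial.eval x) = genP_mat g W k fun i j => x (i, j) := by
  ext r a
  have h1 := tay_map (MvPolynomial.aeval x : MvPolynomial (κ × ι) ℂ →ₐ[ℂ] ℂ)
    (Module.finBasis ℂ W a : MvPolynomial ι ℂ)
    (g.pt (k r.1) fun j => MvPolynomial.X (r.1, j)) r.2.1
  rw [pt_map] at h1
  simp only [MvPolynomial.aeval_X] at h1
  show MvPolynomial.eval x (tay (Module.finBasis ℂ W a : MvPolynomial ι ℂ)
    (g.pt (k r.1) fun j => MvPolynomial.X (r.1, j)) r.2.1) = _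
  rw [← MvPolynomial.coe_aeval_eq_eval]
  exact h1

/-- Openness (compare `GI.general` in `Pool.Agent.H18.Ex.Gen`; use a basis of `W`,
`Module.finBasis`). -/
theorem GIP.general {κ : Type} [Fintype κ] {g : Lines Λ ι} {W : Submodule ℂ (MvPolynomial ι ℂ)}
    [FiniteDimensional ℂ W] {k : κ → Kind Λ} (h : GIP g W k) :
    ∃ G : MvPolynomial (κ × ι) ℂ, G ≠ 0 ∧
      ∀ pos : κ → ι → ℂ, MvPolynomial.eval (fun x => pos x.1 x.2) G ≠ 0 → InjP g W k pos := by
  obtain ⟨pos₀, h₀⟩ := h
  have h1 : LinearMap.ker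
      ((genP_gmat g W k).map (MvPolynomial.eval fun x : κ × ι => pos₀ x.1 x.2)).mulVecLin = ⊥ := by
    rw [genP_gmat_map, genP_ker]
    exact h₀
  obtain ⟨G, hG, hG'⟩ := Pool.Agent.H18.Fat.exists_poly_injective _ _ h1
  refine ⟨G, ?_, ?_⟩
  · rintro rfl
    exact hG (map_zero _)
  · intro pos hpos
    have h2 := hG' _ hpos
    rw [genP_gmat_map, genP_ker] at h2
    exact h2

/-- Two open conditions can be satisfied at the same time, at points not on the hyperplane. -/
theorem GIP.exists_common {κ : Type} [Fintype κ] {g : Lines Λ ι}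
    {W W' : Submodule ℂ (MvPolynomial ι ℂ)} [FiniteDimensional ℂ W] [FiniteDimensional ℂ W']
    {k k' : κ → Kind Λ} (h : GIP g W k) (h' : GIP g W' k') (l : Λ) :
    ∃ pos : κ → ι → ℂ, InjP g W k pos ∧ InjP g W' k' pos ∧ ∀ i, pos i (g.co l) ≠ g.va l := by
  obtain ⟨G, hG, hG'⟩ := h.general
  obtain ⟨H, hH, hH'⟩ := h'.general
  have hX : (∏ i : κ, (MvPolynomial.X (i, g.co l) - MvPolynomial.C (g.va l) :
      MvPolynomial (κ × ι) ℂ)) ≠ 0 := by
    refine prod_ne_zero_iff.2 fun i _ h0 => ?_
    have h1 := congrArg (MvPolynomial.eval fun _ : κ × ι => g.va l + 1) h0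
    rw [map_sub, MvPolynomial.eval_X, MvPolynomial.eval_C, map_zero] at h1
    have h2 : g.va l + 1 - g.va l = 1 := by ring
    rw [h2] at h1
    exact one_ne_zero h1
  have hne : G * H * ∏ i : κ, (MvPolynomial.X (i, g.co l) - MvPolynomial.C (g.va l) :
      MvPolynomial (κ × ι) ℂ) ≠ 0 :=
    mul_ne_zero (mul_ne_zero hG hH) hX
  obtain ⟨x, hx⟩ : ∃ x : κ × ι → ℂ, MvPolynomial.eval x
      (G * H * ∏ i : κ, (MvPolynomial.X (i, g.co l) - MvPolynomial.C (g.va l) :
      MvPolynomial (κ × ι) ℂ)) ≠ 0 := by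
    by_contra hcon
    push Not at hcon
    exact hne (MvPolynomial.funext fun x => by rw [hcon x, map_zero])
  rw [map_mul, map_mul] at hx
  have h1 := left_ne_zero_of_mul (left_ne_zero_of_mul hx)
  have h2 := right_ne_zero_of_mul (left_ne_zero_of_mul hx)
  have h3 := right_ne_zero_of_mul hx
  rw [map_prod] at h3
  refine ⟨fun i j => x (i, j), hG' _ h1, hH' _ h2, fun i hi => ?_⟩
  have h4 := prod_ne_zero_iff.1 h3 i (mem_univ _)
  rw [map_sub, MvPolynomial.eval_X, MvPolynomial.eval_C] at h4
  exact h4 (sub_eq_zero.2 hi)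

end Pool.Agent.H18.Cub

end

section

/-!
# General fat points, all but `r + 1` of which have small multiplicity
-/

namespace Pool.Agent.H18.Fat

open MvPolynomial Finset

section

/-! ### Moments -/

/-! ### The region of exponents -/

/-- The exponents of degree `d` allowed by the coordinate points. -/
noncomputable def allowed (r d : ℕ) (mJ : Fin (r + 1) → ℕ) : Finset (Fin (r + 1) →₀ ℕ) := by
  classical
  exact (mons (r + 1) d).filter fun α => ∀ l, α l + mJ l ≤ d

/-! ### The upper bound -/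

/-! ### The lower bound -/

end

end Pool.Agent.H18.Fat

end

section

/-!
# The classification of special systems outside a window
-/

namespace Pool.Agent.H18.Fat

open MvPolynomial Finset

/-! ### Sorting -/

/-! ### Counting -/

section

variable {r d : ℕ}

/-- The exponents excluded by the `l`-th coordinate point. -/
noncomputable def bad (r d : ℕ) (mJ : Fin (r + 1) → ℕ) (l : Fin (r + 1)) :
    Finset (Fin (r + 1) →₀ ℕ) := by
  classical
  exact (mons (r + 1) d).filter fun α => d < α l + mJ l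

theorem mem_bad {mJ : Fin (r + 1) → ℕ} {l : Fin (r + 1)} {α : Fin (r + 1) →₀ ℕ} :
    α ∈ bad r d mJ l ↔ α ∈ mons (r + 1) d ∧ d < α l + mJ l := by
  classical
  unfold bad
  rw [mem_filter]

theorem card_bad {mJ : Fin (r + 1) → ℕ} {l : Fin (r + 1)} (h1 : 1 ≤ mJ l) (h2 : mJ l ≤ d) :
    (bad r d mJ l).card = len r (mJ l) := by
  classical
  have h3 : len r (mJ l) = (mons (r + 1) (mJ l - 1)).card := by
    rw [card_mons]
    unfold len
    congr 1
    omega
  rw [h3]
  symm
  apply card_nbij' (fun α => α + Finsupp.single l (d + 1 - mJ l))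
    (fun α => α - Finsupp.single l (d + 1 - mJ l))
  · intro α hα
    rw [mem_coe, mem_mons] at hα
    rw [mem_coe, mem_bad, mem_mons]
    simp only [map_add, Finsupp.degree_single, Finsupp.add_apply, Finsupp.single_eq_same]
    omega
  · intro α hα
    rw [mem_coe, mem_bad, mem_mons] at hα
    rw [mem_coe, mem_mons]
    have h4 : α - Finsupp.single l (d + 1 - mJ l) + Finsupp.single l (d + 1 - mJ l) = α := by
      apply tsub_add_cancel_of_le
      rw [Finsupp.single_le_iff]
      omega
    have h5 := congrArg Finsupp.degree h4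
    rw [map_add, Finsupp.degree_single] at h5
    simp only
    omega
  · intro α _
    simp only
    exact add_tsub_cancel_right _ _
  · intro α hα
    rw [mem_coe, mem_bad, mem_mons] at hα
    simp only
    apply tsub_add_cancel_of_le
    rw [Finsupp.single_le_iff]
    omega

end

/-! ### Special configurations -/

section

variable {s d : ℕ} {ι : Type*}

end

/-! ### The main theorem -/

end Pool.Agent.H18.Fat

end
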