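import Pool.Agent.H94.LP4.M15
import Pool.Agent.H94.LP4.M17

/-! The parts of this file: H18.Pr.Space, H18.Ua.UFam. -/

section

/-!
# Module Space (PR): traces and residuals of the spaces `WW`

Compare with `Pool.Agent.H18.Cub.WC` (the case of two variables).
-/

namespace Pool.Agent.H18.Pr

open Finset Pool.Agent.H18.Ex Pool.Agent.H18.Cub

variable {R : ℕ}

theorem space_ofNat (i : Fin (R + 1)) : Fin.ofNat (R + 1) i.val = i := by
  apply Fin.ext
  simp [Fin.ofNat, Nat.mod_eq_of_lt i.isLt]

theorem space_degreeOf_zero (i : Fin (R + 1)) (F : MvPolynomial (Fin (R + 1)) ℂ) :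
    F.degreeOf i = 0 ↔ i ∉ F.vars := by
  rw [← Nat.le_zero, MvPolynomial.degreeOf_le_iff, MvPolynomial.mem_vars_iff_mem_support]
  constructor
  · rintro h ⟨d, hd, hi⟩
    exact (Finsupp.mem_support_iff.1 hi) (Nat.le_zero.1 (h d hd))
  · intro h d hd
    by_contra hc
    exact h ⟨d, hd, Finsupp.mem_support_iff.2 fun h0 => hc (by rw [h0])⟩

/-- A polynomial of degree zero in `x_i` keeps this after substituting a constant. -/
theorem space_degreeOf_sub1 (i j : Fin (R + 1)) (c : ℂ) (F : MvPolynomial (Fin (R + 1)) ℂ)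
    (h : i ≠ j → F.degreeOf i = 0) : (sub1 j c F).degreeOf i = 0 := by
  rw [space_degreeOf_zero]
  intro hi
  have h1 : sub1 j c F = MvPolynomial.bind₁ (Function.update
    (MvPolynomial.X : Fin (R + 1) → MvPolynomial (Fin (R + 1)) ℂ) j (MvPolynomial.C c)) F := rfl
  rw [h1] at hi
  have h2 := MvPolynomial.vars_bind₁ _ _ hi
  rw [mem_biUnion] at h2
  obtain ⟨k, hk, hik⟩ := h2
  by_cases hkj : k = j
  · subst hkj
    rw [Function.update_self, MvPolynomial.vars_C] at hik
    exact absurd hik (notMem_empty _)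
  · rw [Function.update_of_ne hkj, MvPolynomial.vars_X, mem_singleton] at hik
    subst hik
    exact (space_degreeOf_zero i F).1 (h hkj) hk

/-- The residual has no new variables. -/
theorem space_degreeOf_resid (i j : Fin (R + 1)) (c : ℂ) (F : MvPolynomial (Fin (R + 1)) ℂ)
    (h : ((MvPolynomial.X j - MvPolynomial.C c) * F).degreeOf i = 0) : F.degreeOf i = 0 := by
  by_cases hF : F = 0
  · rw [hF]
    exact MvPolynomial.degreeOf_zero i
  · have hL : (MvPolynomial.X j - MvPolynomial.C c : MvPolynomial (Fin (R + 1)) ℂ) ≠ 0 := by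
      intro hL
      have hc : MvPolynomial.coeff (Finsupp.single j 1)
          (MvPolynomial.X j - MvPolynomial.C c : MvPolynomial (Fin (R + 1)) ℂ) = 1 := by
        rw [MvPolynomial.coeff_sub, MvPolynomial.coeff_X, MvPolynomial.coeff_C]
        have hne : (0 : Fin (R + 1) →₀ ℕ) ≠ Finsupp.single j 1 := by
          intro hs
          have := congrArg (fun f => f j) hs
          simp at this
        rw [if_neg hne, sub_zero]
        simp
      rw [hL, MvPolynomial.coeff_zero] at hc
      norm_num at hc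
    rw [MvPolynomial.degreeOf_mul_eq hL hF] at h
    omega

theorem space_sum_update (j : Fin (R + 1)) (β : Fin (R + 1) → ℕ) :
    ∑ i, Function.update β j (β j + 1) i = ∑ i, β i + 1 := by
  rw [sum_update_of_mem (mem_univ j), ← add_sum_erase univ β (mem_univ j),
    sdiff_singleton_eq_erase]
  omega

/-- The points of the residual along a hyperplane through the point. -/
theorem space_tay_resid (j : Fin (R + 1)) (c : ℂ) (F : MvPolynomial (Fin (R + 1)) ℂ)
    (q : Fin (R + 1) → ℂ) (hq : q j = c) (m : ℕ)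
    (h : ∀ β : Fin (R + 1) → ℕ, ∑ i, β i < m →
      tay ((MvPolynomial.X j - MvPolynomial.C c) * F) q β = 0) :
    ∀ β : Fin (R + 1) → ℕ, ∑ i, β i < m - 1 → tay F q β = 0 := by
  intro β hβ
  have h3 := h (Function.update β j (β j + 1)) (by rw [space_sum_update]; omega)
  rw [tay_X_sub_mul, hq] at h3
  simpa using h3

/-- The points of the residual along a hyperplane not through the point. -/
theorem space_tay_resid_ne (j : Fin (R + 1)) (c : ℂ) (F : MvPolynomial (Fin (R + 1)) ℂ)
    (q : Fin (R + 1) → ℂ) (hq : q j ≠ c) (m : ℕ)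
    (h : ∀ β : Fin (R + 1) → ℕ, ∑ i, β i < m →
      tay ((MvPolynomial.X j - MvPolynomial.C c) * F) q β = 0) :
    ∀ β : Fin (R + 1) → ℕ, ∑ i, β i < m → tay F q β = 0 := by
  have h4 : q j - algebraMap ℂ ℂ c ≠ 0 := by
    rw [Algebra.algebraMap_self, RingHom.id_apply]
    exact sub_ne_zero.2 hq
  have key : ∀ k : ℕ, ∀ β : Fin (R + 1) → ℕ, β j = k → ∑ i, β i < m → tay F q β = 0 := by
    intro k
    induction k with
    | zero =>
      intro β hk hβ
      have h3 := h β hβ
      rw [tay_X_sub_mul, if_pos hk, add_zero] at h3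
      exact (mul_eq_zero.1 h3).resolve_left h4
    | succ k ih =>
      intro β hk hβ
      have h3 := h β hβ
      have h5 : tay F q (Function.update β j (β j - 1)) = 0 := by
        refine ih _ (by rw [Function.update_self]; omega) ?_
        refine lt_of_le_of_lt (sum_le_sum fun i _ => ?_) hβ
        by_cases hi : i = j
        · subst hi
          rw [Function.update_self]
          omega
        · rw [Function.update_of_ne hi]
      rw [tay_X_sub_mul, if_neg (by omega), h5, add_zero] at h3
      exact (mul_eq_zero.1 h3).resolve_left h4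
  intro β hβ
  exact key _ β rfl hβ

theorem space_sub1_X (j : Fin (R + 1)) (c : ℂ) (i : Fin (R + 1)) :
    sub1 j c (MvPolynomial.X i) = if i = j then MvPolynomial.C c else MvPolynomial.X i := by
  rw [sub1, MvPolynomial.aeval_X]
  by_cases h : i = j
  · subst h
    rw [Function.update_self, if_pos rfl]
  · rw [Function.update_of_ne h, if_neg h]

end Pool.Agent.H18.Pr

end

section

/-!
# Module UFam (UA): elementary properties of families
-/

namespace Pool.Agent.H18.Ua

open Finset Pool.Agent.H18.Ex Pool.Agent.H18.Cub Pool.Agent.H18.Pr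

variable {n : ℕ}

instance Fam.finite (A : Fam n) (δ : ℕ) : FiniteDimensional ℂ (A.W δ) := by
  have h : A.W δ ≤ MvPolynomial.restrictTotalDegree (Fin (n + 1)) ℂ δ := fun F hF =>
    (MvPolynomial.mem_restrictTotalDegree _ _ _).2 (A.deg δ F hF)
  exact Module.Finite.of_injective (Submodule.inclusion h) (Submodule.inclusion_injective h)

theorem Fam.exists_good (A : Fam n) (s : Finset ℂ) : ∃ v, v ∉ A.bad ∧ v ∉ s := by
  obtain ⟨v, hv⟩ := Infinite.exists_notMem_finset (A.bad ∪ s)
  rw [Finset.mem_union, not_or] at hv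
  exact ⟨v, hv⟩

private theorem ufam_ne (v : ℂ) :
    (MvPolynomial.X 0 - MvPolynomial.C v : MvPolynomial (Fin (n + 1)) ℂ) ≠ 0 := by
  intro h
  have h1 := congrArg (MvPolynomial.coeff (Finsupp.single (0 : Fin (n + 1)) 1)) h
  rw [MvPolynomial.coeff_sub, MvPolynomial.coeff_X, MvPolynomial.coeff_C,
    MvPolynomial.coeff_zero] at h1
  have hne : (0 : Fin (n + 1) →₀ ℕ) ≠ Finsupp.single 0 1 := by
    intro hs
    have := congrArg (fun f => f 0) hs
    simp at this
  rw [if_neg hne] at h1
  norm_num at h1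

private theorem ufam_lin_deg (v : ℂ) :
    (MvPolynomial.X 0 - MvPolynomial.C v : MvPolynomial (Fin (n + 1)) ℂ).totalDegree ≤ 1 := by
  refine (MvPolynomial.totalDegree_sub _ _).trans (max_le ?_ ?_)
  · rw [MvPolynomial.totalDegree_X]
  · rw [MvPolynomial.totalDegree_C]
    exact Nat.zero_le _

private theorem ufam_mul_mem (A : Fam n) (δ : ℕ) (v : ℂ) (F : MvPolynomial (Fin (n + 1)) ℂ)
    (hF : F ∈ A.W δ) : (MvPolynomial.X 0 - MvPolynomial.C v) * F ∈ A.W (δ + 1) :=
  A.mul δ 1 F hF _ (ufam_lin_deg v)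

private theorem ufam_sub1_lin (v v' : ℂ) :
    sub1 (0 : Fin (n + 1)) v (MvPolynomial.X 0 - MvPolynomial.C v') =
      MvPolynomial.C (v - v') := by
  simp [sub1, MvPolynomial.algebraMap_eq]

/-- Multiply by `X 0 - C v`. -/
theorem Fam.h_mono (A : Fam n) (δ : ℕ) : A.h δ ≤ A.h (δ + 1) := by
  let f : A.W δ →ₗ[ℂ] A.W (δ + 1) :=
    { toFun := fun F => ⟨(MvPolynomial.X 0 - MvPolynomial.C 0) * F.1, ufam_mul_mem A δ 0 F.1 F.2⟩
      map_add' := fun F G => by
        apply Subtype.ext
        exact mul_add _ _ _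
      map_smul' := fun c F => by
        apply Subtype.ext
        exact mul_smul_comm _ _ _ }
  refine LinearMap.finrank_le_finrank_of_injective (f := f) ?_
  intro F G h
  apply Subtype.ext
  exact mul_left_cancel₀ (ufam_ne 0) (congrArg Subtype.val h)

theorem Fam.h_mono' (A : Fam n) {δ δ' : ℕ} (hδ : δ ≤ δ') : A.h δ ≤ A.h δ' := by
  induction δ', hδ using Nat.le_induction with
  | base => exact le_rfl
  | succ m _ ih => exact ih.trans (A.h_mono m)

/-- The dimension of the trace (kernel: `(X 0 - C v) * W (δ - 1)`, by `res`). -/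
theorem Fam.finrank_trace (A : Fam n) (δ : ℕ) (hδ : 1 ≤ δ) (v : ℂ) (hv : v ∉ A.bad) :
    Module.finrank ℂ ((A.W δ).map (sub1 0 v).toLinearMap :
      Submodule ℂ (MvPolynomial (Fin (n + 1)) ℂ)) + A.h (δ - 1) = A.h δ := by
  obtain ⟨δ, rfl⟩ : ∃ e, δ = e + 1 := ⟨δ - 1, by omega⟩
  rw [Nat.add_sub_cancel]
  let T : A.W (δ + 1) →ₗ[ℂ] MvPolynomial (Fin (n + 1)) ℂ :=
    (sub1 (0 : Fin (n + 1)) v).toLinearMap.domRestrict (A.W (δ + 1))
  have h1 := LinearMap.finrank_range_add_finrank_ker T
  have h2 : LinearMap.range T = (A.W (δ + 1)).map (sub1 0 v).toLinearMap :=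
    LinearMap.range_domRestrict _ _
  have hT : ∀ F : A.W (δ + 1), T F = sub1 0 v F.1 := fun F => rfl
  let f : A.W δ →ₗ[ℂ] LinearMap.ker T :=
    { toFun := fun F => ⟨⟨(MvPolynomial.X 0 - MvPolynomial.C v) * F.1,
        ufam_mul_mem A δ v F.1 F.2⟩, by
          rw [LinearMap.mem_ker, hT, map_mul, ufam_sub1_lin, sub_self, MvPolynomial.C_0,
            zero_mul]⟩
      map_add' := fun F G => by
        apply Subtype.ext
        apply Subtype.ext
        exact mul_add _ _ _
      map_smul' := fun c F => by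
        apply Subtype.ext
        apply Subtype.ext
        exact mul_smul_comm _ _ _ }
  have hf : Function.Bijective f := by
    constructor
    · intro F G h
      apply Subtype.ext
      exact mul_left_cancel₀ (ufam_ne v) (congrArg Subtype.val (congrArg Subtype.val h))
    · rintro ⟨⟨F, hF⟩, hk⟩
      rw [LinearMap.mem_ker, hT] at hk
      obtain ⟨F', hF'⟩ := wc_exists_residual 0 v F hk
      have hmem : F' ∈ A.W δ := by
        apply A.res δ v hv
        rw [← hF']
        exact hF
      refine ⟨⟨F', hmem⟩, ?_⟩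
      apply Subtype.ext
      apply Subtype.ext
      exact hF'.symm
  have h3 := (LinearEquiv.ofBijective f hf).finrank_eq
  rw [h2, ← h3] at h1
  exact h1

private theorem ufam_trace_le (A : Fam n) (δ : ℕ) (v : ℂ) :
    (A.W δ).map (sub1 (0 : Fin (n + 1)) v).toLinearMap ≤
      (A.W (δ + 1)).map (sub1 (0 : Fin (n + 1)) v).toLinearMap := by
  rintro _ ⟨F, hF, rfl⟩
  have h1 := ufam_mul_mem A δ (v - 1) F hF
  refine ⟨_, h1, ?_⟩
  show sub1 0 v ((MvPolynomial.X 0 - MvPolynomial.C (v - 1)) * F) = sub1 0 v F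
  rw [map_mul, ufam_sub1_lin, sub_sub_cancel, MvPolynomial.C_1, one_mul]

/-- The differences increase: multiplication by `X 0 - C v'` induces an injection
`W δ / (X 0 - C v) W (δ - 1) → W (δ + 1) / (X 0 - C v) W δ` for `v ≠ v'`. -/
theorem Fam.t_mono (A : Fam n) (δ : ℕ) (hδ : 1 ≤ δ) :
    A.h δ + A.h δ ≤ A.h (δ + 1) + A.h (δ - 1) := by
  obtain ⟨v, hv, _⟩ := A.exists_good ∅
  have h1 := A.finrank_trace δ hδ v hv
  have h2 := A.finrank_trace (δ + 1) (by omega) v hv
  rw [Nat.add_sub_cancel] at h2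
  have h3 := Submodule.finrank_mono (ufam_trace_le A δ v)
  omega

private theorem ufam_sub1_deg (v : ℂ) (F : MvPolynomial (Fin (n + 1)) ℂ) :
    (sub1 (0 : Fin (n + 1)) v F).totalDegree ≤ F.totalDegree := by
  conv_lhs => rw [F.as_sum, map_sum]
  apply MvPolynomial.totalDegree_finsetSum_le
  intro α hα
  have h0 : sub1 (0 : Fin (n + 1)) v (MvPolynomial.monomial α (F.coeff α)) =
      MvPolynomial.C (F.coeff α) * α.prod fun i k => (Function.update
        (MvPolynomial.X : Fin (n + 1) → MvPolynomial (Fin (n + 1)) ℂ) 0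
          (MvPolynomial.C v)) i ^ k := MvPolynomial.aeval_monomial _ _ _
  rw [h0]
  refine (MvPolynomial.totalDegree_mul _ _).trans ?_
  rw [MvPolynomial.totalDegree_C, zero_add]
  refine le_trans ?_ (MvPolynomial.le_totalDegree hα)
  refine (MvPolynomial.totalDegree_finsetProd _ _).trans ?_
  apply Finset.sum_le_sum
  intro i _
  refine (MvPolynomial.totalDegree_pow _ _).trans ?_
  by_cases hi : i = 0
  · subst hi
    rw [Function.update_self, MvPolynomial.totalDegree_C]
    omega
  · rw [Function.update_of_ne hi, MvPolynomial.totalDegree_X, mul_one]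

private theorem ufam_finrank_le (D : ℕ) (V : Submodule ℂ (MvPolynomial (Fin (n + 1)) ℂ))
    (h1 : ∀ F ∈ V, F.totalDegree ≤ D) (h2 : ∀ F ∈ V, F.degreeOf 0 = 0) :
    Module.finrank ℂ V ≤ (D + n).choose n := by
  classical
  let T : V →ₗ[ℂ] (Pool.Agent.H18.Fat.mons (n + 1) D → ℂ) :=
    { toFun := fun F α => F.1.coeff (α.1.erase 0)
      map_add' := fun F G => by
        funext α
        exact MvPolynomial.coeff_add _ _ _
      map_smul' := fun c F => by
        funext α
        exact MvPolynomial.coeff_smul _ _ _ }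
  have hT : Function.Injective T := by
    rw [← LinearMap.ker_eq_bot, LinearMap.ker_eq_bot']
    rintro ⟨F, hF⟩ hTF
    apply Subtype.ext
    show F = 0
    by_contra hne
    obtain ⟨β, hβ⟩ := MvPolynomial.ne_zero_iff.1 hne
    have hs : β ∈ F.support := MvPolynomial.mem_support_iff.2 hβ
    have hdeg : β.degree ≤ D := by
      have := MvPolynomial.le_totalDegree hs
      have h3 : (β.sum fun _ e => e) = β.degree := rfl
      rw [h3] at this
      exact this.trans (h1 F hF)
    have hβ0 : β 0 = 0 := by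
      have h3 := (MvPolynomial.degreeOf_le_iff (n := 0)).1 (h2 F hF).le β hs
      omega
    have hmem : β + Finsupp.single 0 (D - β.degree) ∈ Pool.Agent.H18.Fat.mons (n + 1) D := by
      rw [Pool.Agent.H18.Fat.mem_mons, map_add, Finsupp.degree_single]
      omega
    have h4 := congrFun hTF ⟨_, hmem⟩
    apply hβ
    have h5 : (β + Finsupp.single 0 (D - β.degree)).erase 0 = β := by
      ext i
      by_cases hi : i = 0
      · subst hi
        rw [Finsupp.erase_same, hβ0]
      · rw [Finsupp.erase_ne hi, Finsupp.add_apply, Finsupp.single_eq_of_ne hi, add_zero]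
    rw [← h5]
    exact h4
  have h3 := LinearMap.finrank_le_finrank_of_injective hT
  rwa [Module.finrank_fintype_fun_eq_card, Fintype.card_coe, Pool.Agent.H18.Fat.card_mons] at h3

/-- The trace consists of polynomials of degree at most `δ + 1` in `x_1, …, x_n`. -/
theorem Fam.h_succ_le (A : Fam n) (δ : ℕ) : A.h (δ + 1) ≤ A.h δ + (δ + 1 + n).choose n := by
  obtain ⟨v, hv, _⟩ := A.exists_good ∅
  have h2 := A.finrank_trace (δ + 1) (by omega) v hv
  rw [Nat.add_sub_cancel] at h2
  have h3 := ufam_finrank_le (δ + 1) ((A.W (δ + 1)).map (sub1 (0 : Fin (n + 1)) v).toLinearMap)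
    (by
      rintro _ ⟨F, hF, rfl⟩
      exact (ufam_sub1_deg v F).trans (A.deg _ F hF))
    (by
      rintro _ ⟨F, _, rfl⟩
      exact space_degreeOf_sub1 0 0 v F fun h => absurd rfl h)
  omega

theorem Fam.h_zero_le (A : Fam n) : A.h 0 ≤ 1 := by
  let T : A.W 0 →ₗ[ℂ] ℂ :=
    { toFun := fun F => F.1.coeff 0
      map_add' := fun F G => MvPolynomial.coeff_add _ _ _
      map_smul' := fun c F => MvPolynomial.coeff_smul _ _ _ }
  have hT : Function.Injective T := by
    intro F G h
    apply Subtype.ext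
    have h1 := MvPolynomial.totalDegree_eq_zero_iff_eq_C.1 (Nat.le_zero.1 (A.deg 0 F.1 F.2))
    have h2 := MvPolynomial.totalDegree_eq_zero_iff_eq_C.1 (Nat.le_zero.1 (A.deg 0 G.1 G.2))
    have h3 : F.1.coeff 0 = G.1.coeff 0 := h
    rw [h1, h2, h3]
  have := LinearMap.finrank_le_finrank_of_injective hT
  rwa [Module.finrank_self] at this

/-- The residual along the hyperplane `l`. -/
theorem Fam.resW (A : Fam n) {q : ℕ} (v : Fin q → ℂ) (l : Fin q) (hl : v l ∉ A.bad) (δ : ℕ) :
    ResW (gU n v) l (A.W (δ + 1)) (A.W δ) := by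
  intro F hF h0
  obtain ⟨F', hF'⟩ := wc_exists_residual 0 (v l) F h0
  refine ⟨F', ?_, hF'⟩
  apply A.res δ (v l) hl
  rw [← hF']
  exact hF

end Pool.Agent.H18.Ua

end
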