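import Pool.Agent.H94.LP4.M21
import Pool.Agent.H94.LP4.M26
import Pool.Agent.H94.LP4.M32

/-! The parts of this file: H18.Ua.USimple, H18.Ua.UKill. -/

section

/-!
# Module USimple (UA): simple points and dimensions
-/

namespace Pool.Agent.H18.Ua

open Finset Pool.Agent.H18.Ex Pool.Agent.H18.Cub Pool.Agent.H18.Pr

variable {ι Λ : Type} [Fintype ι] [DecidableEq ι]

/-- A simple free point: the value is zero. -/
private theorem usimple_sat (g : Lines Λ ι) (F : MvPolynomial ι ℂ) (q : ι → ℂ) :
    SatP g F (Kind.free 1) q ↔ MvPolynomial.eval q F = 0 := by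
  constructor
  · intro h
    have h2 : tay F q 0 = 0 := h 0 (by simp [Lines.Idx])
    rwa [tay_zero_right] at h2
  · intro h b hb
    have hb0 : b = 0 := by
      funext i
      have h1 : ∑ i, b i < 1 := hb
      have h2 : ∑ i, b i = 0 := by omega
      exact (Finset.sum_eq_zero_iff.1 h2) i (Finset.mem_univ i)
    rw [hb0]
    show tay F q 0 = 0
    rw [tay_zero_right]
    exact h

/-- Finitely many values determine the elements of a finite dimensional space. -/
private theorem usimple_points (x : ℕ) : ∀ W : Submodule ℂ (MvPolynomial ι ℂ),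
    FiniteDimensional ℂ W → Module.finrank ℂ W ≤ x →
    ∃ pos : Fin x → ι → ℂ, ∀ F ∈ W, (∀ i, MvPolynomial.eval (pos i) F = 0) → F = 0 := by
  induction x with
  | zero =>
    intro W hfd h
    refine ⟨fun i => i.elim0, fun F hF _ => ?_⟩
    have h1 : Module.finrank ℂ W = 0 := Nat.le_zero.1 h
    have h2 : W = ⊥ := Submodule.finrank_eq_zero.1 h1
    rw [h2] at hF
    exact (Submodule.mem_bot ℂ).1 hF
  | succ x ih =>
    intro W hfd h
    by_cases hW : W = ⊥
    · refine ⟨fun _ _ => 0, fun F hF _ => ?_⟩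
      rw [hW] at hF
      exact (Submodule.mem_bot ℂ).1 hF
    · obtain ⟨F0, hF0, hne⟩ := (Submodule.ne_bot_iff W).1 hW
      have hq : ∃ q : ι → ℂ, MvPolynomial.eval q F0 ≠ 0 := by
        by_contra hno
        push Not at hno
        exact hne (MvPolynomial.funext fun q => by rw [hno q, map_zero])
      obtain ⟨q, hq⟩ := hq
      let W' : Submodule ℂ (MvPolynomial ι ℂ) :=
        W ⊓ LinearMap.ker (MvPolynomial.aeval q : MvPolynomial ι ℂ →ₐ[ℂ] ℂ).toLinearMap
      have hle : W' ≤ W := inf_le_left
      have hlt : W' < W := by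
        refine lt_of_le_of_ne hle fun heq => ?_
        have h1 : F0 ∈ W' := by rw [heq]; exact hF0
        have h2 : (MvPolynomial.aeval q : MvPolynomial ι ℂ →ₐ[ℂ] ℂ) F0 = 0 :=
          LinearMap.mem_ker.1 h1.2
        rw [MvPolynomial.aeval_eq_eval] at h2
        exact hq h2
      have hfd' : FiniteDimensional ℂ W' := Submodule.finiteDimensional_of_le hle
      have hrk : Module.finrank ℂ W' < Module.finrank ℂ W := Submodule.finrank_lt_finrank_of_lt hlt
      obtain ⟨pos, hpos⟩ := ih W' hfd' (by omega)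
      refine ⟨Fin.cons q pos, fun F hF hv => ?_⟩
      refine hpos F ⟨hF, ?_⟩ fun i => ?_
      · have h1 := hv 0
        rw [Fin.cons_zero] at h1
        show (MvPolynomial.aeval q : MvPolynomial ι ℂ →ₐ[ℂ] ℂ) F = 0
        rw [MvPolynomial.aeval_eq_eval]
        exact h1
      · have h1 := hv i.succ
        rwa [Fin.cons_succ] at h1

private theorem usimple_replicate {X : Type} (s : ℕ) (x : X) : Multiset.replicate s x
      = (univ : Finset (Fin s)).val.map (fun _ => x) := by
  rw [Multiset.map_const', Finset.card_val, Finset.card_univ, Fintype.card_fin]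

/-- Simple points reduce the dimension one by one. -/
theorem gmp_simple (g : Lines Λ ι) (W : Submodule ℂ (MvPolynomial ι ℂ)) [FiniteDimensional ℂ W]
    (x : ℕ) (h : Module.finrank ℂ W ≤ x) : GMP g W (Multiset.replicate x (Kind.free 1)) := by
  rw [usimple_replicate, GMP_iff]
  obtain ⟨pos, hpos⟩ := usimple_points x W inferInstance h
  exact ⟨pos, fun F hF hf => hpos F hF fun i => (usimple_sat g F (pos i)).1 (hf i)⟩

/-- Positions for which the dimension is at most `x`. -/
theorem exists_pos_finrank (g : Lines Λ ι) (W : Submodule ℂ (MvPolynomial ι ℂ))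
    [FiniteDimensional ℂ W] {κ : Type} [Fintype κ] (k : κ → Kind Λ) (x : ℕ)
    (h : GMP g W ((univ : Finset κ).val.map k + Multiset.replicate x (Kind.free 1))) :
    ∃ pos : κ → ι → ℂ, Module.finrank ℂ (kerP g W k pos) ≤ x := by
  rw [usimple_replicate, ← multi_map_sum, GMP_iff] at h
  obtain ⟨pos, hpos⟩ := h
  refine ⟨fun i => pos (Sum.inl i), ?_⟩
  let K := kerP g W k fun i => pos (Sum.inl i)
  let ev : K →ₗ[ℂ] (Fin x → ℂ) := LinearMap.pi fun i =>
    (MvPolynomial.aeval (pos (Sum.inr i)) : MvPolynomial ι ℂ →ₐ[ℂ] ℂ).toLinearMap.comp K.subtype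
  have hev : ∀ (F : K) (i : Fin x), ev F i = MvPolynomial.eval (pos (Sum.inr i)) (F : MvPolynomial ι ℂ) := by
    intro F i
    show (MvPolynomial.aeval (pos (Sum.inr i)) : MvPolynomial ι ℂ →ₐ[ℂ] ℂ) (F : MvPolynomial ι ℂ) = _
    rw [MvPolynomial.aeval_eq_eval]
  have hinj : Function.Injective ev := by
    rw [← LinearMap.ker_eq_bot, LinearMap.ker_eq_bot']
    intro F hF
    apply Subtype.ext
    have hFK : (F : MvPolynomial ι ℂ) ∈ K := F.2
    refine hpos F hFK.1 fun i => ?_
    cases i with
    | inl i => exact hFK.2 i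
    | inr i =>
      refine (usimple_sat g _ _).2 ?_
      rw [← hev F i, hF]
      rfl
  have h1 := LinearMap.finrank_le_finrank_of_injective hinj
  rwa [Module.finrank_fin_fun] at h1

theorem gmp_of_pos (g : Lines Λ ι) (W : Submodule ℂ (MvPolynomial ι ℂ))
    [FiniteDimensional ℂ W] {κ : Type} [Fintype κ] (k : κ → Kind Λ) (x : ℕ)
    (pos : κ → ι → ℂ) (h : Module.finrank ℂ (kerP g W k pos) ≤ x) :
    GMP g W ((univ : Finset κ).val.map k + Multiset.replicate x (Kind.free 1)) := by
  rw [usimple_replicate, ← multi_map_sum, GMP_iff]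
  have hfd : FiniteDimensional ℂ (kerP g W k pos) := Submodule.finiteDimensional_of_le kerP_le
  obtain ⟨pos', hpos'⟩ := usimple_points x (kerP g W k pos) hfd h
  refine ⟨Sum.elim pos pos', fun F hF hf => ?_⟩
  refine hpos' F ⟨hF, fun i => ?_⟩ fun i => ?_
  · exact hf (Sum.inl i)
  · exact (usimple_sat g F (pos' i)).1 (hf (Sum.inr i))

end Pool.Agent.H18.Ua

end

section

/-!
# Module UKill (UA): one more point
-/

namespace Pool.Agent.H18.Ua

open Finset Pool.Agent.H18.Ex Pool.Agent.H18.Cub Pool.Agent.H18.Pr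

variable {n : ℕ} {Λ : Type}

namespace UKillX

theorem finrank_totalDegree (n m : ℕ) (hm : 1 ≤ m) :
    Module.finrank ℂ (MvPolynomial.restrictTotalDegree (Fin (n + 1)) ℂ (m - 1)) =
      ell (n + 1) m := by
  unfold MvPolynomial.restrictTotalDegree
  rw [Module.finrank_eq_nat_card_basis (MvPolynomial.basisRestrictSupport ℂ _)]
  have h1 : {s : Fin (n + 1) →₀ ℕ | (s.sum fun _ e => e) ≤ m - 1} =
      (Pool.Agent.H18.Fat.full (n + 1) m : Set (Fin (n + 1) →₀ ℕ)) := by
    ext s
    rw [Set.mem_ofPred_eq, mem_coe, Pool.Agent.H18.Fat.mem_full]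
    have : (s.sum fun _ e => e) = s.degree := by
      rw [Finsupp.degree_apply]
      rfl
    rw [this]
    omega
  rw [h1, Nat.card_coe_set_eq, Set.ncard_coe_finset, Pool.Agent.H18.Fat.card_full_succ]
  rfl

/-- Multiplication by a nonzero polynomial. -/
theorem finrank_mul (G : MvPolynomial (Fin (n + 1)) ℂ) (hG : G ≠ 0)
    (V : Submodule ℂ (MvPolynomial (Fin (n + 1)) ℂ)) :
    Module.finrank ℂ (V.map (LinearMap.mulLeft ℂ G)) = Module.finrank ℂ V := by
  refine (LinearEquiv.finrank_eq (Submodule.equivMapOfInjective _ ?_ V)).symm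
  intro a b hab
  simp only [LinearMap.mulLeft_apply] at hab
  exact mul_left_cancel₀ hG hab

/-- Two subspaces meeting in `0` only. -/
theorem finrank_add_le {E : Type} [AddCommGroup E] [Module ℂ E] (P U V : Submodule ℂ E)
    [FiniteDimensional ℂ V] (hP : P ≤ V) (hU : U ≤ V) (h : P ⊓ U = ⊥) :
    Module.finrank ℂ P + Module.finrank ℂ U ≤ Module.finrank ℂ V := by
  have f1 : FiniteDimensional ℂ P := Submodule.finiteDimensional_of_le hP
  have f2 : FiniteDimensional ℂ U := Submodule.finiteDimensional_of_le hU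
  have h1 := Submodule.finrank_sup_add_finrank_inf_eq P U
  rw [h, finrank_bot, add_zero] at h1
  rw [← h1]
  exact Submodule.finrank_mono (sup_le hP hU)

end UKillX

open UKillX

/-- If the conditions `S` do not kill `W δ` then one more free point of multiplicity `m` imposes
`ell (n + 1) m` conditions on the elements of `W (δ + (m - 1))` satisfying `S`: choose positions with
`finrank (kerP (W (δ + (m - 1))) …) ≤ x` and a nonzero `G ∈ W δ` satisfying `S` there, a point `p` with
`G(p) ≠ 0`; the products `Q * G` with `deg Q ≤ m - 1` form a subspace of dimension `ell (n + 1) m` meeting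
the subspace of the elements vanishing to order `m` at `p` in `0` only (`satP_of_mul`,
`eq_zero_of_vanish`). -/
theorem kill_step (A : Fam n) (g : Lines Λ (Fin (n + 1))) (δ m x : ℕ) (hm : 1 ≤ m)
    (S : Multiset (Kind Λ)) (hS : ¬ GMP g (A.W δ) S)
    (h : GMP g (A.W (δ + (m - 1))) (S + Multiset.replicate x (Kind.free 1))) :
    ell (n + 1) m ≤ x ∧ GMP g (A.W (δ + (m - 1)))
      (S + {Kind.free m} + Multiset.replicate (x - ell (n + 1) m) (Kind.free 1)) := by
  obtain ⟨N, k, rfl⟩ := multi_exists_fin S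
  obtain ⟨pos, hpos⟩ := exists_pos_finrank g (A.W (δ + (m - 1))) k x h
  rw [GMP_iff] at hS
  have h1 : ¬ InjP g (A.W δ) k pos := fun hI => hS ⟨pos, hI⟩
  unfold InjP at h1
  push Not at h1
  obtain ⟨G, hGW, hGs, hG0⟩ := h1
  obtain ⟨p, hp⟩ : ∃ p : Fin (n + 1) → ℂ, MvPolynomial.eval p G ≠ 0 := by
    by_contra hcon
    push Not at hcon
    exact hG0 (MvPolynomial.funext fun v => by rw [hcon v, map_zero])
  let V := kerP g (A.W (δ + (m - 1))) k pos
  let k' : Fin N ⊕ Unit → Kind Λ := Sum.elim k fun _ => Kind.free m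
  let pos' : Fin N ⊕ Unit → Fin (n + 1) → ℂ := Sum.elim pos fun _ => p
  let U := kerP g (A.W (δ + (m - 1))) k' pos'
  let P := (MvPolynomial.restrictTotalDegree (Fin (n + 1)) ℂ (m - 1)).map (LinearMap.mulLeft ℂ G)
  have hfV : FiniteDimensional ℂ V := Submodule.finiteDimensional_of_le kerP_le
  have hPV : P ≤ V := by
    rintro _ ⟨Q, hQ, rfl⟩
    rw [SetLike.mem_coe, MvPolynomial.mem_restrictTotalDegree] at hQ
    rw [LinearMap.mulLeft_apply, mul_comm]
    exact mem_kerP.2 ⟨A.mul δ (m - 1) G hGW Q hQ, fun i => satP_mul g Q G (k i) (pos i) (hGs i)⟩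
  have hUV : U ≤ V := by
    intro F hF
    rw [mem_kerP] at hF
    exact mem_kerP.2 ⟨hF.1, fun i => hF.2 (Sum.inl i)⟩
  have hPU : P ⊓ U = ⊥ := by
    rw [eq_bot_iff]
    rintro F ⟨⟨Q, hQ, rfl⟩, hF⟩
    rw [SetLike.mem_coe, MvPolynomial.mem_restrictTotalDegree] at hQ
    rw [LinearMap.mulLeft_apply] at hF ⊢
    have h2 : SatP g (G * Q) (Kind.free m) p := (mem_kerP.1 hF).2 (Sum.inr ())
    have h3 := satP_of_mul g G Q (Kind.free m) p hp h2
    have h4 : Q = 0 := eq_zero_of_vanish Q p m (by omega) fun b hb => h3 b hb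
    rw [h4, mul_zero]
    exact Submodule.zero_mem _
  have h5 := finrank_add_le P U V hPV hUV hPU
  have h6 : Module.finrank ℂ P = ell (n + 1) m := by
    rw [finrank_mul G hG0, finrank_totalDegree n m hm]
  rw [h6] at h5
  have h7 : Module.finrank ℂ V ≤ x := hpos
  refine ⟨by omega, ?_⟩
  have h8 := gmp_of_pos g (A.W (δ + (m - 1))) k' (x - ell (n + 1) m) pos' (by
    change Module.finrank ℂ U ≤ _
    omega)
  rw [multi_map_sum] at h8
  exact h8

/-- If the conditions `S` kill `W δ` then the elements of `W (δ + i)` satisfying `S` form a space of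
dimension at most `h (δ + i) - h δ`: it meets `(X 0 - C v) ^ i * W δ` in `0` only, for general `v`. -/
theorem kill_dim (A : Fam n) (g : Lines Λ (Fin (n + 1))) (δ i x : ℕ) (S : Multiset (Kind Λ))
    (hS : GMP g (A.W δ) S) (hx : A.h (δ + i) ≤ A.h δ + x) :
    GMP g (A.W (δ + i)) (S + Multiset.replicate x (Kind.free 1)) := by
  obtain ⟨N, k, rfl⟩ := multi_exists_fin S
  rw [GMP_iff] at hS
  obtain ⟨pos, hpos⟩ := hS
  obtain ⟨v, hv⟩ : ∃ v : ℂ, v ∉ (univ : Finset (Fin N)).image fun j => g.pt (k j) (pos j) 0 :=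
    Infinite.exists_notMem_finset _
  let L : MvPolynomial (Fin (n + 1)) ℂ := (MvPolynomial.X 0 - MvPolynomial.C v) ^ i
  have hev : ∀ j, MvPolynomial.eval (g.pt (k j) (pos j)) L ≠ 0 := by
    intro j
    simp only [L, map_pow, map_sub, MvPolynomial.eval_X, MvPolynomial.eval_C]
    refine pow_ne_zero _ (sub_ne_zero.2 ?_)
    intro hcon
    exact hv (mem_image.2 ⟨j, mem_univ _, hcon⟩)
  have hL0 : L ≠ 0 := by
    refine pow_ne_zero _ ?_
    intro hcon
    have := congrArg (MvPolynomial.eval fun _ => v + 1) hcon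
    simp at this
  have hLd : L.totalDegree ≤ i := by
    refine (MvPolynomial.totalDegree_pow _ _).trans ?_
    have : (MvPolynomial.X (0 : Fin (n + 1)) - MvPolynomial.C v :
        MvPolynomial (Fin (n + 1)) ℂ).totalDegree ≤ 1 := by
      refine (MvPolynomial.totalDegree_sub _ _).trans ?_
      simp
    calc i * _ ≤ i * 1 := Nat.mul_le_mul_left _ this
      _ = i := mul_one i
  let V := kerP g (A.W (δ + i)) k pos
  let P := (A.W δ).map (LinearMap.mulLeft ℂ L)
  have hPW : P ≤ A.W (δ + i) := by
    rintro _ ⟨F, hF, rfl⟩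
    rw [LinearMap.mulLeft_apply]
    exact A.mul δ i F hF L hLd
  have hPV : P ⊓ V = ⊥ := by
    rw [eq_bot_iff]
    rintro _ ⟨⟨F, hF, rfl⟩, hV⟩
    rw [LinearMap.mulLeft_apply] at hV ⊢
    have h3 : F = 0 := hpos F hF fun j =>
      satP_of_mul g L F (k j) (pos j) (hev j) ((mem_kerP.1 hV).2 j)
    rw [h3, mul_zero]
    exact Submodule.zero_mem _
  have h5 := finrank_add_le P V (A.W (δ + i)) hPW kerP_le hPV
  have h6 : Module.finrank ℂ P = A.h δ := finrank_mul L hL0 _
  rw [h6] at h5
  refine gmp_of_pos g (A.W (δ + i)) k x pos ?_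
  change Module.finrank ℂ V ≤ x
  change A.h δ + Module.finrank ℂ V ≤ A.h (δ + i) at h5
  omega

/-- Many points.  Induction on `G`: if `W (d - (m - 1))` is not killed use `kill_step`; otherwise the
dimension is at most `T` by `kill_dim`, and there are at least `T` points left. -/
theorem kill_all (A : Fam n) (g : Lines Λ (Fin (n + 1))) (d M T : ℕ) (hM : 1 ≤ M)
    (hd : M - 1 ≤ d) (hT : A.h d ≤ A.h (d - (M - 1)) + T) (G : Multiset ℕ)
    (hG : ∀ m ∈ G, 1 ≤ m ∧ m ≤ M) : ∀ (S : Multiset (Kind Λ)) (x s : ℕ),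
    GMP g (A.W d) (S + Multiset.replicate x (Kind.free 1)) →
    x ≤ (G.map (ell (n + 1))).sum + s →
    (T ≤ s ∨ x + ell (n + 1) M * T ≤ (G.map (ell (n + 1))).sum + s) →
    GMP g (A.W d) (S + G.map Kind.free + Multiset.replicate s (Kind.free 1)) := by
  induction G using Multiset.induction_on with
  | empty =>
    intro S x s h hx _
    rw [Multiset.map_zero, Multiset.sum_zero, zero_add] at hx
    rw [Multiset.map_zero, add_zero]
    exact GMP.mono (add_le_add_right (Multiset.replicate_le_replicate _ |>.2 hx) _) h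
  | cons m G ih =>
    intro S x s h hx hor
    have hm := hG m (Multiset.mem_cons_self m G)
    have hG' : ∀ m' ∈ G, 1 ≤ m' ∧ m' ≤ M := fun m' hm' => hG m' (Multiset.mem_cons_of_mem hm')
    rw [Multiset.map_cons, Multiset.sum_cons] at hx hor
    have hdd : d - (m - 1) + (m - 1) = d := by omega
    by_cases hk : GMP g (A.W (d - (m - 1))) S
    · -- the conditions `S` kill the smaller space
      have h1 : A.h (d - (m - 1) + (m - 1)) ≤ A.h (d - (m - 1)) + T := by
        rw [hdd]
        have := A.h_mono' (show d - (M - 1) ≤ d - (m - 1) by omega)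
        omega
      have h2 := kill_dim A g (d - (m - 1)) (m - 1) T S hk h1
      rw [hdd] at h2
      have hTs : T ≤ (m ::ₘ G).card + s := by
        rcases hor with hor | hor
        · omega
        · have h3 : ((m ::ₘ G).map (ell (n + 1))).sum ≤ (m ::ₘ G).card * ell (n + 1) M := by
            have := Multiset.sum_le_card_nsmul ((m ::ₘ G).map (ell (n + 1))) (ell (n + 1) M) (by
              intro y hy
              obtain ⟨m', hm', rfl⟩ := Multiset.mem_map.1 hy
              exact ell_mono (n + 1) (hG m' hm').2)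
            rw [Multiset.card_map, smul_eq_mul] at this
            exact this
          rw [Multiset.map_cons, Multiset.sum_cons] at h3
          have h4 : 1 ≤ ell (n + 1) M := ell_pos (n + 1) hM
          have h5 : ell (n + 1) M * T ≤ ell (n + 1) M * ((m ::ₘ G).card + s) := by
            calc ell (n + 1) M * T ≤ (ell (n + 1) m + (G.map (ell (n + 1))).sum) + s := by omega
              _ ≤ (m ::ₘ G).card * ell (n + 1) M + ell (n + 1) M * s :=
                  add_le_add h3 (Nat.le_mul_of_pos_left s h4)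
              _ = ell (n + 1) M * ((m ::ₘ G).card + s) := by ring
          exact Nat.le_of_mul_le_mul_left h5 h4
      have h6 : GMP g (A.W d) (Multiset.replicate (m ::ₘ G).card (Kind.free 1) +
          (S + Multiset.replicate s (Kind.free 1))) := by
        refine GMP.mono ?_ h2
        have h7 : Multiset.replicate T (Kind.free 1 : Kind Λ) ≤
            Multiset.replicate ((m ::ₘ G).card + s) (Kind.free 1) :=
          (Multiset.replicate_le_replicate _).2 hTs
        rw [Multiset.replicate_add] at h7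
        calc S + Multiset.replicate T (Kind.free 1 : Kind Λ) ≤
            S + (Multiset.replicate (m ::ₘ G).card (Kind.free 1) +
              Multiset.replicate s (Kind.free 1)) := by
              exact Multiset.add_le_add_left h7
          _ = Multiset.replicate (m ::ₘ G).card (Kind.free 1) +
            (S + Multiset.replicate s (Kind.free 1)) := by
              rw [← add_assoc, add_comm S, add_assoc]
      have h8 := GMP.free_mono (m ::ₘ G) (fun m' hm' => (hG m' hm').1) _ h6
      rw [← add_assoc, add_comm ((m ::ₘ G).map Kind.free) S] at h8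
      exact h8
    · have h0 : GMP g (A.W (d - (m - 1) + (m - 1))) (S + Multiset.replicate x (Kind.free 1)) := by
        rw [hdd]
        exact h
      obtain ⟨h1, h2⟩ := kill_step A g (d - (m - 1)) m x hm.1 S hk h0
      rw [hdd] at h2
      have h3 := ih hG' (S + {Kind.free m}) (x - ell (n + 1) m) s h2 (by omega) (by omega)
      rw [Multiset.map_cons, ← Multiset.singleton_add, ← add_assoc]
      exact h3

end Pool.Agent.H18.Ua

end
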