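import Pool.Agent.H94.LP4.H18.FatGrid
import Pool.Agent.H94.LP4.M02
import Pool.Agent.H94.LP4.M13
import Pool.Agent.H94.LP4.M15
import Pool.Agent.H94.LP4.M16
import Pool.Agent.H94.LP4.M17

/-! The parts of this file: H18.Cub.BridgeP, H18.FatPerfect_1, H18.Ua.UBranch, H18.Ub.VGen, H74.CT.Two. -/

section

/-!
# Module BridgeP: general simple points; replacing forced simple points by free ones
-/

namespace Pool.Agent.H18.Cub

open Finset Pool.Agent.H18.Ex

variable {ι Λ : Type} [Fintype ι] [DecidableEq ι]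

/-- The evaluation functional at a point. -/
noncomputable def evlP {ι : Type} (q : ι → ℂ) : MvPolynomial ι ℂ →ₗ[ℂ] ℂ :=
  (MvPolynomial.aeval q : MvPolynomial ι ℂ →ₐ[ℂ] ℂ).toLinearMap

omit [Fintype ι] [DecidableEq ι] in
theorem evlP_apply (q : ι → ℂ) (F : MvPolynomial ι ℂ) : evlP q F = MvPolynomial.eval q F := by
  unfold evlP
  rw [AlgHom.toLinearMap_apply, MvPolynomial.aeval_eq_eval]

omit [Fintype ι] [DecidableEq ι] in
/-- `s` general points kill a space of polynomials of dimension at most `s` (compare `kill` in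
`Pool.Agent.H18.Ex.Kill`). -/
theorem killP (s : ℕ) (W : Submodule ℂ (MvPolynomial ι ℂ)) [FiniteDimensional ℂ W]
    (h : Module.finrank ℂ W ≤ s) :
    ∃ q : Fin s → ι → ℂ, ∀ F ∈ W, (∀ j, MvPolynomial.eval (q j) F = 0) → F = 0 := by
  induction s generalizing W with
  | zero =>
    refine ⟨fun _ _ => 0, fun f hf _ => ?_⟩
    have h1 : W = ⊥ := Submodule.finrank_eq_zero.1 (Nat.le_zero.1 h)
    rw [h1] at hf
    exact (Submodule.mem_bot ℂ).1 hf
  | succ s ih =>
    by_cases hW : W = ⊥
    · refine ⟨fun _ _ => 0, fun f hf _ => ?_⟩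
      rw [hW] at hf
      exact (Submodule.mem_bot ℂ).1 hf
    · obtain ⟨f0, hf0, hf0n⟩ := Submodule.exists_mem_ne_zero_of_ne_bot hW
      obtain ⟨q0, hq0⟩ : ∃ q0 : ι → ℂ, MvPolynomial.eval q0 f0 ≠ 0 := by
        by_contra hcon
        push Not at hcon
        exact hf0n (MvPolynomial.funext fun q => by rw [hcon q, map_zero])
      have hlt : W ⊓ LinearMap.ker (evlP q0) < W := by
        refine lt_of_le_of_ne inf_le_left fun heq => ?_
        have h1 : f0 ∈ W ⊓ LinearMap.ker (evlP q0) := by
          rw [heq]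
          exact hf0
        have h2 := LinearMap.mem_ker.1 (Submodule.mem_inf.1 h1).2
        rw [evlP_apply] at h2
        exact hq0 h2
      have h2 := Submodule.finrank_lt_finrank_of_lt hlt
      obtain ⟨q, hq⟩ := ih (W ⊓ LinearMap.ker (evlP q0)) (by omega)
      refine ⟨Fin.cons q0 q, fun f hf hall => ?_⟩
      apply hq f
      · rw [Submodule.mem_inf, LinearMap.mem_ker, evlP_apply]
        refine ⟨hf, ?_⟩
        have h3 := hall 0
        rwa [Fin.cons_zero] at h3
      · intro j
        have h3 := hall j.succ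
        rwa [Fin.cons_succ] at h3

/-- The space of the polynomials satisfying the conditions. -/
noncomputable def solP {κ : Type} (g : Lines Λ ι) (W : Submodule ℂ (MvPolynomial ι ℂ))
    (k : κ → Kind Λ) (pos : κ → ι → ℂ) : Submodule ℂ (MvPolynomial ι ℂ) where
  carrier := {F | F ∈ W ∧ ∀ i, SatP g F (k i) (pos i)}
  zero_mem' := ⟨W.zero_mem, fun _ _ _ => tay_zero _ _⟩
  add_mem' := by
    rintro F G ⟨hF, hF'⟩ ⟨hG, hG'⟩
    refine ⟨W.add_mem hF hG, fun i b hb => ?_⟩
    rw [tay_add, hF' i b hb, hG' i b hb, add_zero]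
  smul_mem' := by
    rintro c F ⟨hF, hF'⟩
    refine ⟨W.smul_mem c hF, fun i b hb => ?_⟩
    rw [tay_smul, hF' i b hb, mul_zero]

theorem mem_solP {κ : Type} {g : Lines Λ ι} {W : Submodule ℂ (MvPolynomial ι ℂ)}
    {k : κ → Kind Λ} {pos : κ → ι → ℂ} {F : MvPolynomial ι ℂ} :
    F ∈ solP g W k pos ↔ F ∈ W ∧ ∀ i, SatP g F (k i) (pos i) := Iff.rfl

theorem solP_le {κ : Type} (g : Lines Λ ι) (W : Submodule ℂ (MvPolynomial ι ℂ))
    (k : κ → Kind Λ) (pos : κ → ι → ℂ) : solP g W k pos ≤ W := fun _ hF => hF.1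

/-- General positions for the bridge. -/
theorem bridge_positionsP {κ : Type} [Fintype κ] (g : Lines Λ ι) (l : Λ)
    (W W' : Submodule ℂ (MvPolynomial ι ℂ)) [FiniteDimensional ℂ W] [FiniteDimensional ℂ W']
    (k : κ → Kind Λ) (k' : κ → Kind Λ) (s : ℕ)
    (h1 : GIP g W (Sum.elim k fun _ : Fin s => Kind.free 1))
    (h2 : GIP g W' k') :
    ∃ (pos : κ → ι → ℂ) (pos' : Fin s → ι → ℂ),
      InjP g W (Sum.elim k fun _ : Fin s => Kind.free 1) (Sum.elim pos pos') ∧
      InjP g W' k' pos ∧ ∀ i, pos i (g.co l) ≠ g.va l := by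
  obtain ⟨G1, hG1, hG1'⟩ := h1.general
  obtain ⟨G2, hG2, hG2'⟩ := h2.general
  set φ : κ × ι → (κ ⊕ Fin s) × ι := fun x => (Sum.inl x.1, x.2) with hφ
  have hφi : Function.Injective φ := by
    rintro ⟨a, b⟩ ⟨c, d⟩ h
    simp only [hφ, Prod.mk.injEq, Sum.inl.injEq] at h
    exact Prod.ext h.1 h.2
  have h3 : G1 * MvPolynomial.rename φ G2 * ∏ i : κ,
      (MvPolynomial.X ((Sum.inl i : κ ⊕ Fin s), g.co l) - MvPolynomial.C (g.va l)) ≠ 0 := by
    refine mul_ne_zero (mul_ne_zero hG1 ?_) ?_
    · intro h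
      apply hG2
      apply MvPolynomial.rename_injective φ hφi
      rw [h, map_zero]
    · refine Finset.prod_ne_zero_iff.2 fun x _ h => ?_
      have h4 := congrArg (MvPolynomial.eval fun _ => g.va l + 1) h
      rw [map_sub, MvPolynomial.eval_X, MvPolynomial.eval_C, map_zero, add_sub_cancel_left] at h4
      exact one_ne_zero h4
  obtain ⟨z, hz⟩ : ∃ z : (κ ⊕ Fin s) × ι → ℂ,
      MvPolynomial.eval z (G1 * MvPolynomial.rename φ G2 * ∏ i : κ,
        (MvPolynomial.X ((Sum.inl i : κ ⊕ Fin s), g.co l) - MvPolynomial.C (g.va l))) ≠ 0 := by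
    by_contra hcon
    push Not at hcon
    apply h3
    apply MvPolynomial.funext
    intro z
    rw [hcon z, map_zero]
  rw [map_mul, map_mul, map_prod, MvPolynomial.eval_rename] at hz
  have hz1 := left_ne_zero_of_mul (left_ne_zero_of_mul hz)
  have hz2 := right_ne_zero_of_mul (left_ne_zero_of_mul hz)
  have hz3 := right_ne_zero_of_mul hz
  refine ⟨fun i j => z (Sum.inl i, j), fun i j => z (Sum.inr i, j), ?_, ?_, ?_⟩
  · apply hG1'
    have h4 : (fun x : (κ ⊕ Fin s) × ι =>
        (Sum.elim (fun i j => z (Sum.inl i, j)) (fun i j => z (Sum.inr i, j)) :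
          κ ⊕ Fin s → ι → ℂ) x.1 x.2) = z := by
      funext x
      rcases x with ⟨x | x, y⟩ <;> rfl
    rw [h4]
    exact hz1
  · apply hG2'
    exact hz2
  · intro i h
    have h5 := Finset.prod_ne_zero_iff.1 hz3 i (Finset.mem_univ _)
    apply h5
    have h6 : z (Sum.inl i, g.co l) = g.va l := h
    rw [map_sub, MvPolynomial.eval_X, MvPolynomial.eval_C, h6, sub_self]

/-- Bridging (compare `bridge` in `Pool.Agent.H18.Ex.Bridge`). -/
theorem bridgeP {κ : Type} [Fintype κ] (g : Lines Λ ι) (l : Λ) (hg : g.Sep l)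
    (W W' : Submodule ℂ (MvPolynomial ι ℂ)) [FiniteDimensional ℂ W] [FiniteDimensional ℂ W']
    (hW : ResW g l W W') [DecidableEq Λ] (k : κ → Kind Λ) (s : ℕ)
    (h1 : GIP g W (Sum.elim k fun _ : Fin s => Kind.free 1))
    (h2 : GIP g W' fun i => (k i).dn l) :
    GIP g W (Sum.elim k fun _ : Fin s => Kind.forced l 1 1) := by
  obtain ⟨pos, pos', hp1, hp2, hp3⟩ := bridge_positionsP g l W W' k _ s h1 h2
  -- the solution space has dimension at most `s`
  set V := solP g W k pos with hV
  have hVfin : FiniteDimensional ℂ V := Submodule.finiteDimensional_of_le (solP_le g W k pos)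
  have hVs : Module.finrank ℂ V ≤ s := by
    let T : V →ₗ[ℂ] (Fin s → ℂ) :=
      (LinearMap.pi fun j => evlP (pos' j)).comp V.subtype
    have hT : Function.Injective T := by
      rw [← LinearMap.ker_eq_bot, LinearMap.ker_eq_bot']
      intro f hf
      apply Subtype.ext
      obtain ⟨hfW, hfk⟩ := mem_solP.1 f.2
      apply hp1 _ hfW
      rintro (i | j)
      · exact hfk i
      · intro b hb
        have hb' : ∑ i, b i < 1 := hb
        have hb0 : b = 0 := by
          funext i
          have h4 : b i ≤ ∑ i, b i := Finset.single_le_sum (fun _ _ => Nat.zero_le _)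
            (Finset.mem_univ i)
          change b i = 0
          omega
        subst hb0
        change tay (f : MvPolynomial ι ℂ) (pos' j) 0 = 0
        rw [tay_zero_right, ← evlP_apply]
        exact congrFun hf j
    have h6 := LinearMap.finrank_le_finrank_of_injective hT
    rwa [Module.finrank_fin_fun] at h6
  -- restriction to the hyperplane
  obtain ⟨q, hq⟩ := killP s (V.map (lay g l).toLinearMap)
    ((Submodule.finrank_map_le (lay g l).toLinearMap V).trans hVs)
  refine ⟨Sum.elim pos q, fun F hFW hF => ?_⟩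
  have hFk : ∀ i, SatP g F (k i) (pos i) := fun i => hF (Sum.inl i)
  -- the restriction vanishes
  have h0 : lay g l F = 0 := by
    apply hq
    · exact Submodule.mem_map_of_mem (f := (lay g l).toLinearMap) (mem_solP.2 ⟨hFW, hFk⟩)
    · intro j
      have h8 := hF (Sum.inr j) 0 (by
        change ∑ i, (0 : ι → ℕ) i < 1 ∧ (0 : ι → ℕ) (g.co l) + 1 ≤ 1
        constructor
        · simp
        · simp)
      change tay F (Function.update (q j) (g.co l) (g.va l)) 0 = 0 at h8
      rw [← tay_zero_right]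
      unfold lay
      rw [tay_sub1, if_pos (show (0 : ι → ℕ) (g.co l) = 0 from rfl)]
      exact h8
  obtain ⟨F', hF'W, hF'⟩ := hW F hFW h0
  have h9 : F' = 0 := by
    apply hp2 F' hF'W
    intro i
    have h10 := hFk i
    rw [hF'] at h10
    change SatP g F' (Kind.dn l (k i)) (pos i)
    cases hki : k i with
    | free m =>
      rw [hki] at h10
      exact satP_resid_of_notAt g l hg F' (Kind.free m) trivial (pos i) (hp3 i) h10
    | forced l' c e =>
      rw [hki] at h10
      change SatP g F' (if l' = l then Kind.forced l' (c - 1) e else Kind.forced l' c e) (pos i)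
      split_ifs with hl
      · subst hl
        exact satP_resid_forced g l' F' c e (pos i) h10
      · exact satP_resid_of_notAt g l hg F' (Kind.forced l' c e) hl (pos i) (hp3 i) h10
  rw [hF', h9, mul_zero]

end Pool.Agent.H18.Cub

end

section

namespace Pool.Agent.H18.Fat

open MvPolynomial Finset

/-! ### Counting -/

theorem card_fiber {r s d : ℕ} (hs : 0 < s) (b : Fin r → Fin s) (hb : gsum b ≤ d) :
    ((mons (r + 1) d).filter fun α => res hs α = b).card =
      (mons (r + 1) ((d - gsum b) / s)).card := by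
  classical
  refine card_nbij' (fun α => Finsupp.equivFunOnFinite.symm fun j => α j / s)
    (fun γ => Finsupp.equivFunOnFinite.symm
      (Fin.cons (s * γ 0 + (d - gsum b) % s) fun j => s * γ j.succ + b j)) ?_ ?_ ?_ ?_
  · intro α hα
    rw [mem_coe, mem_filter] at hα
    have h1 := sum_div_add_gsum hs hα.1
    rw [hα.2] at h1
    rw [mem_coe, mem_mons, Finsupp.degree_eq_sum]
    simp only [Finsupp.equivFunOnFinite_symm_apply_apply]
    have h2 : d - gsum b = α 0 % s + s * ∑ j, α j / s := by omega
    rw [h2, Nat.add_mul_div_left _ _ hs, Nat.div_eq_of_lt (Nat.mod_lt _ hs), zero_add]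
  · intro γ hγ
    rw [mem_coe, mem_mons, Finsupp.degree_eq_sum, Fin.sum_univ_succ] at hγ
    rw [mem_coe, mem_filter]
    constructor
    · rw [mem_mons, Finsupp.degree_eq_sum, Fin.sum_univ_succ]
      simp only [Finsupp.equivFunOnFinite_symm_apply_apply, Fin.cons_zero, Fin.cons_succ]
      rw [sum_add_distrib, ← mul_sum]
      have h3 := Nat.div_add_mod (d - gsum b) s
      rw [← hγ, mul_add] at h3
      unfold gsum at *
      omega
    · funext j
      apply Fin.ext
      simp only [res, Finsupp.equivFunOnFinite_symm_apply_apply, Fin.cons_succ]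
      rw [Nat.mul_add_mod, Nat.mod_eq_of_lt (b j).2]
  · intro α hα
    rw [mem_coe, mem_filter] at hα
    have h1 := sum_div_add_gsum hs hα.1
    rw [hα.2] at h1
    ext j
    simp only [Finsupp.equivFunOnFinite_symm_apply_apply]
    refine Fin.cases ?_ (fun i => ?_) j
    · simp only [Fin.cons_zero]
      have h2 : d - gsum b = α 0 % s + s * ∑ j, α j / s := by omega
      rw [h2, Nat.add_mul_mod_self_left, Nat.mod_mod]
      exact Nat.div_add_mod _ _
    · simp only [Fin.cons_succ]
      have h3 := congrFun hα.2 i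
      have h4 : α i.succ % s = b i := Fin.ext_iff.1 h3
      rw [← h4]
      exact Nat.div_add_mod _ _
  · intro γ hγ
    ext j
    simp only [Finsupp.equivFunOnFinite_symm_apply_apply]
    refine Fin.cases ?_ (fun i => ?_) j
    · simp only [Fin.cons_zero]
      rw [Nat.mul_add_div hs, Nat.div_eq_of_lt (Nat.mod_lt _ hs), add_zero]
    · simp only [Fin.cons_succ]
      rw [Nat.mul_add_div hs, Nat.div_eq_of_lt (b i).2, add_zero]

/-- The perfect multiplicities. -/
def perf {r s : ℕ} (d : ℕ) (b : Fin r → Fin s) : ℕ :=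
  if gsum b ≤ d then (d - gsum b) / s + 1 else 0

theorem sum_perf {r s : ℕ} (hr : 1 ≤ r) (hs : 0 < s) (d : ℕ) :
    ∑ b : Fin r → Fin s, (perf d b + r - 1).choose r = (d + r).choose r := by
  classical
  rw [← card_mons r d, card_eq_sum_card_fiberwise (f := res hs) (t := univ)
    (fun _ _ => mem_coe.2 (mem_univ _))]
  refine sum_congr rfl fun b _ => ?_
  unfold perf
  split_ifs with hb
  · rw [card_fiber hs b hb, card_mons]
    generalize (d - gsum b) / s = t
    have h : t + 1 + r - 1 = t + r := by omega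
    rw [h]
  · rw [Nat.choose_eq_zero_of_lt (by omega)]
    symm
    rw [card_eq_zero, filter_eq_empty_iff]
    intro α hα h
    have h1 := sum_div_add_gsum hs hα
    rw [h] at h1
    omega

theorem perf_spec {r s : ℕ} (hs : 0 < s) {d : ℕ} (b : Fin r → Fin s) (hb : gsum b ≤ d) :
    d < s * perf d b + gsum b := by
  unfold perf
  rw [if_pos hb, mul_add, mul_one]
  have h1 := Nat.div_add_mod (d - gsum b) s
  have h2 := Nat.mod_lt (d - gsum b) hs
  omega

theorem le_perf {r s : ℕ} (hs : 0 < s) {d n : ℕ} (b : Fin r → Fin s)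
    (h : s * (n - 1) + gsum b ≤ d) : n ≤ perf d b := by
  unfold perf
  rw [if_pos (by omega)]
  have h1 : n - 1 ≤ (d - gsum b) / s := by
    rw [Nat.le_div_iff_mul_le hs, mul_comm]
    omega
  omega

theorem gridPt_zero {r s : ℕ} (ζ : ℂ) (b : Fin r → Fin s) : gridPt ζ b 0 = 1 := rfl

theorem gridPt_ne {r s : ℕ} (ζ : ℂ) (b : Fin r → Fin s) : gridPt ζ b 0 ≠ 0 := by
  rw [gridPt_zero]
  exact one_ne_zero

/-- The conditions of the perfect grid configuration are independent. -/
theorem grid_surjective {r s : ℕ} (d : ℕ) (hr : 1 ≤ r) (hs : 0 < s) {ζ : ℂ}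
    (hζ : IsPrimitiveRoot ζ s) :
    Function.Surjective (condMat r d (fun b : Fin r → Fin s => gridPt ζ b) (perf d)).mulVec := by
  classical
  have hker : LinearMap.ker
      (condMat r d (fun b : Fin r → Fin s => gridPt ζ b) (perf d)).mulVecLin = ⊥ := by
    rw [LinearMap.ker_eq_bot']
    intro f hf
    rw [Matrix.mulVecLin_apply, ← toPoly_mem_fatForms (fun b => gridPt_ne ζ b)] at hf
    funext α
    exact grid_core hs hζ f (perf d) (fun b hb => perf_spec hs b hb) hf.2 α
  have hfr := LinearMap.finrank_range_add_finrank_ker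
    (condMat r d (fun b : Fin r → Fin s => gridPt ζ b) (perf d)).mulVecLin
  rw [hker, finrank_bot, add_zero, Module.finrank_fintype_fun_eq_card, Fintype.card_coe,
    card_mons, ← sum_perf hr hs d, ← card_cond hr (perf d),
    ← Module.finrank_fintype_fun_eq_card ℂ] at hfr
  have h0 := LinearMap.range_eq_top.1 (Submodule.eq_top_of_finrank_eq hfr)
  rwa [Matrix.coe_mulVecLin] at h0

/-- Independence is inherited by subschemes. -/
theorem surjective_of_sub {r d : ℕ} {ι κ : Type*} [Fintype ι] [Fintype κ]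
    {q : ι → Fin (r + 1) → ℂ} {μ : ι → ℕ} (h : Function.Surjective (condMat r d q μ).mulVec)
    (φ : κ → ι) (hφ : Function.Injective φ) (m : κ → ℕ) (hm : ∀ i, m i ≤ μ (φ i)) :
    Function.Surjective (condMat r d (fun i => q (φ i)) m).mulVec := by
  classical
  intro v
  let e : Cond r m → Cond r μ := fun x =>
    ⟨φ x.1, x.2.1, mem_aff.2 ⟨(mem_aff.1 x.2.2).1, lt_of_lt_of_le (mem_aff.1 x.2.2).2 (hm x.1)⟩⟩
  have he : Function.Injective e := by
    rintro ⟨i, β, hβ⟩ ⟨j, γ, hγ⟩ hxy
    simp only [e, Sigma.mk.injEq] at hxy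
    obtain ⟨h1, h2⟩ := hxy
    have h3 := hφ h1
    subst h3
    simp only [heq_eq_eq, Subtype.mk.injEq] at h2
    subst h2
    rfl
  obtain ⟨f, hf⟩ := h (Function.extend e v 0)
  refine ⟨f, ?_⟩
  funext x
  have h1 := congrFun hf (e x)
  rw [he.extend_apply] at h1
  rw [← h1]
  rfl

theorem finrank_of_surjective {r d : ℕ} (hr : 1 ≤ r) {ι : Type*} [Fintype ι]
    {p : ι → Fin (r + 1) → ℂ} (hp : ∀ i, p i 0 ≠ 0) {m : ι → ℕ}
    (h : Function.Surjective (condMat r d p m).mulVec) :
    (∑ i, (m i + r - 1).choose r) + Module.finrank ℂ (fatForms r d p m) = (d + r).choose r := by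
  have h1 := rank_add_finrank (d := d) hp m
  have h2 : LinearMap.range (condMat r d p m).mulVecLin = ⊤ := by
    rw [LinearMap.range_eq_top, Matrix.coe_mulVecLin]
    exact h
  rw [h2, finrank_top, Module.finrank_fintype_fun_eq_card, card_cond hr] at h1
  exact h1

/-! ### Adding simple points -/

theorem vanishesToOrder_zero {n : ℕ} (F : MvPolynomial (Fin n) ℂ) (q : Fin n → ℂ) :
    VanishesToOrder F q 0 := fun β hβ => absurd hβ (by omega)

end Pool.Agent.H18.Fat

end

section

/-!
# Module UBranch (UA): the branches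
-/

namespace Pool.Agent.H18.Ua

open Finset Pool.Agent.H18.Ex Pool.Agent.H18.Cub Pool.Agent.H18.Pr

variable {Λ : Type} [Fintype Λ] [DecidableEq Λ] {n : ℕ}

omit [Fintype Λ] in
theorem count_flat (M : ℕ) (L : List Λ) (hnd : L.Nodup) (l : Λ) :
    (L.flatMap fun l => List.replicate M l).count l = if l ∈ L then M else 0 := by
  induction L with
  | nil => simp
  | cons d ds ih =>
    rw [List.flatMap_cons, List.count_append, ih (List.nodup_cons.1 hnd).2, List.count_replicate]
    have h1 := (List.nodup_cons.1 hnd).1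
    by_cases h : l = d
    · subst h
      rw [if_neg h1, if_pos List.mem_cons_self]
      simp
    · have h2 : (d == l) = false := by simpa using fun h' => h h'.symm
      rw [h2]
      simp [h]

omit [Fintype Λ] in
theorem dnT_insert {T : Finset Λ} {l : Λ} (hl : l ∉ T) (a : Λ → ℕ) :
    dnT (insert l T) a = dn l (dnT T a) := by
  funext i
  unfold dnT
  by_cases hi : i = l
  · subst hi
    rw [dn_self, if_pos (mem_insert_self _ _), if_neg hl]
  · rw [dn_ne hi]
    by_cases h : i ∈ T
    · rw [if_pos (mem_insert_of_mem h), if_pos h]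
    · rw [if_neg h, if_neg (by rw [mem_insert]; push Not; exact ⟨hi, h⟩)]

omit [Fintype Λ] in
theorem dnT_bd {M : ℕ} {N a : Λ → ℕ} (ha : ∀ i, a i ≤ N i ∧ N i ≤ a i + M)
    (T : Finset Λ) : ∀ i, dnT T a i ≤ N i ∧ N i ≤ dnT T a i + (M + 1) := by
  intro i
  have h1 := ha i
  unfold dnT
  split_ifs
  · omega
  · omega

end Pool.Agent.H18.Ua

end

section

/-!
# Module VGen (UB): general points
-/

namespace Pool.Agent.H18.Ub

open Finset Pool.Agent.H18.Fat

/-- The points outside `J` impose at most their lengths many conditions. -/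
theorem finrank_ge_add {r d k : ℕ} (hr : 1 ≤ r) {p : Fin k → Fin (r + 1) → ℂ}
    (hp : ∀ i, p i 0 ≠ 0) (m : Fin k → ℕ) (J : Finset (Fin k)) :
    (Module.finrank ℂ (fatForms r d p fun i => if i ∈ J then m i else 0) : ℤ) -
      ∑ i ∈ univ.filter (fun i => i ∉ J), ((m i + r - 1).choose r : ℤ) ≤
      Module.finrank ℂ (fatForms r d p m) := by
  classical
  set A := fatForms r d p fun i => if i ∈ J then m i else 0 with hA
  set B := fatForms r d p fun i => if i ∈ J then 0 else m i with hB
  set V := MvPolynomial.homogeneousSubmodule (Fin (r + 1)) ℂ d with hV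
  have hAV : A ≤ V := fun F hF => hF.1
  have hBV : B ≤ V := fun F hF => hF.1
  have hAB : A ⊓ B ≤ fatForms r d p m := by
    rintro F ⟨h1, h2⟩
    refine ⟨h1.1, fun i => ?_⟩
    by_cases hi : i ∈ J
    · have := h1.2 i
      simpa only [if_pos hi] using this
    · have := h2.2 i
      simpa only [if_neg hi] using this
  have h0 : fatForms r d p (fun _ : Fin k => 0) = V := by
    ext F
    constructor
    · exact fun h => h.1
    · exact fun h => ⟨h, fun i β hβ => absurd hβ (Nat.not_lt_zero _)⟩
  have hVr : Module.finrank ℂ V = (d + r).choose r := by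
    have h1 := rank_add_finrank (d := d) hp fun _ : Fin k => 0
    have h2 := finrank_range_le d hr p fun _ : Fin k => 0
    have h3 : ∑ i : Fin k, ((fun _ : Fin k => 0) i + r - 1).choose r = 0 := by
      apply sum_eq_zero
      intro i _
      exact Nat.choose_eq_zero_of_lt (show 0 + r - 1 < r by omega)
    rw [h3] at h2
    rw [h0] at h1
    omega
  have : FiniteDimensional ℂ V := by
    rcases Nat.eq_zero_or_pos (Module.finrank ℂ V) with h | h
    · rw [hVr] at h
      have := Nat.choose_pos (show r ≤ d + r by omega)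
      omega
    · exact Module.finite_of_finrank_pos h
  have : FiniteDimensional ℂ A := Submodule.finiteDimensional_of_le hAV
  have : FiniteDimensional ℂ B := Submodule.finiteDimensional_of_le hBV
  have : FiniteDimensional ℂ (fatForms r d p m) :=
    Submodule.finiteDimensional_of_le (S₂ := V) fun F hF => hF.1
  have h1 := Submodule.finrank_sup_add_finrank_inf_eq A B
  have h2 : Module.finrank ℂ (A ⊔ B : Submodule ℂ (MvPolynomial (Fin (r + 1)) ℂ)) ≤
      (d + r).choose r := by
    rw [← hVr]
    exact Submodule.finrank_mono (sup_le hAV hBV)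
  have h3 : Module.finrank ℂ (A ⊓ B : Submodule ℂ (MvPolynomial (Fin (r + 1)) ℂ)) ≤
      Module.finrank ℂ (fatForms r d p m) := Submodule.finrank_mono hAB
  have h4 := finrank_fatForms_ge (d := d) hr hp fun i => if i ∈ J then 0 else m i
  have h5 : ∑ i, (((fun i => if i ∈ J then 0 else m i) i + r - 1).choose r : ℤ) =
      ∑ i ∈ univ.filter (fun i => i ∉ J), ((m i + r - 1).choose r : ℤ) := by
    rw [sum_filter]
    refine sum_congr rfl fun i _ => ?_
    by_cases hi : i ∈ J
    · simp only [not_true_eq_false, if_false, hi, if_true]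
      rw [Nat.choose_eq_zero_of_lt (show 0 + r - 1 < r by omega)]
      rfl
    · simp only [not_false_eq_true, if_true, hi, if_false]
  rw [h5] at h4
  rw [← hB] at h4
  omega

/-- General points exist for finitely many conditions. -/
theorem general_all {r k : ℕ} {P : ℕ → (Fin k → Fin (r + 1) → ℂ) → Prop} (s : Finset ℕ)
    (h : ∀ j ∈ s, ForGeneralPoints r k (P j)) :
    ForGeneralPoints r k fun p => ∀ j ∈ s, P j p := by
  classical
  induction s using Finset.induction_on with
  | empty => exact ⟨1, one_ne_zero, fun p _ j hj => absurd hj (notMem_empty j)⟩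
  | insert a s ha ih =>
    refine ((h a (mem_insert_self a s)).and (ih fun j hj => h j (mem_insert_of_mem hj))).mono
      fun p hp j hj => ?_
    rcases mem_insert.1 hj with rfl | hj
    · exact hp.1
    · exact hp.2 j hj

end Pool.Agent.H18.Ub

end

section

/-!
# General points and the second stage lemma
-/

namespace Pool.Agent.H74.CT

open MvPolynomial Pool.Agent.H18.Fat Pool.Agent.H18.Ub Pool.Agent.H22.LU Finset

theorem general_all {r k : ℕ} {α : Type*} (s : Finset α)
    {P : α → (Fin k → Fin (r + 1) → ℂ) → Prop} (h : ∀ a ∈ s, ForGeneralPoints r k (P a)) :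
    ForGeneralPoints r k fun p => ∀ a ∈ s, P a p := by
  classical
  induction s using Finset.induction_on with
  | empty => exact ⟨1, one_ne_zero, fun p _ a ha => absurd ha (notMem_empty a)⟩
  | insert b s hb ih =>
    have h1 := (h b (mem_insert_self b s)).and (ih fun a ha => h a (mem_insert_of_mem ha))
    refine h1.mono fun p hp a ha => ?_
    rcases mem_insert.1 ha with h2 | h2
    · rw [h2]
      exact hp.1
    · exact hp.2 a h2

theorem general_line {s k : ℕ} {l P : Fin k} (hl : l ≠ P) :
    ForGeneralPoints (s + 1) k fun p => ∃ L : MvPolynomial (Fin (s + 1 + 1)) ℂ,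
      L.IsHomogeneous 1 ∧ VanishesToOrder L (p l) 1 ∧ ¬ VanishesToOrder L (p P) 1 := by
  classical
  refine ⟨X (l, 1) * X (P, 0) - X (l, 0) * X (P, 1), fun h => ?_, fun p hp => ?_⟩
  · have h1 := congrArg (eval fun x : Fin k × Fin (s + 1 + 1) =>
      if x = (l, 1) ∨ x = (P, 0) then (1 : ℂ) else 0) h
    rw [map_sub, map_mul, map_mul, eval_X, eval_X, eval_X, eval_X, map_zero] at h1
    have h2 : ¬ (((l, 0) : Fin k × Fin (s + 1 + 1)) = (l, 1) ∨
        ((l, 0) : Fin k × Fin (s + 1 + 1)) = (P, 0)) := by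
      rintro (h3 | h3)
      · have := congrArg Prod.snd h3
        exact absurd this (by simp)
      · exact hl (congrArg Prod.fst h3)
    rw [if_pos (Or.inl rfl), if_pos (Or.inr rfl), if_neg h2] at h1
    norm_num at h1
  · refine ⟨C (p l 1) * X 0 - C (p l 0) * X 1, ?_, ?_, ?_⟩
    · refine IsHomogeneous.sub ?_ ?_
      · simpa using (isHomogeneous_C _ (p l 1)).mul (isHomogeneous_X ℂ (0 : Fin (s + 1 + 1)))
      · simpa using (isHomogeneous_C _ (p l 0)).mul (isHomogeneous_X ℂ (1 : Fin (s + 1 + 1)))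
    · rw [vanishes_one_iff]
      simp only [map_sub, map_mul, eval_C, eval_X]
      ring
    · rw [vanishes_one_iff]
      simp only [map_sub, map_mul, eval_C, eval_X]
      simp only [map_sub, map_mul, eval_X] at hp
      exact hp

end Pool.Agent.H74.CT

end
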