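import Pool.Agent.H94.LP4.M13
import Pool.Agent.H94.LP4.M15
import Pool.Agent.H94.LP4.M26

/-! The parts of this file: H18.Pr.FinN, H18.Ua.UDefs_1, H18.Ub.VDefs. -/

section

/-!
# Module FinN: the two endings (abstract version, traces of dimension `n`)
-/

namespace Pool.Agent.H18.Pr

open Finset Pool.Agent.H18.Ex Pool.Agent.H18.Cub

variable {Λ : Type} [Fintype Λ] [DecidableEq Λ] {n : ℕ}

/-- The simple points behave as expected at the state `a`. -/
def FullN (Y : SysN Λ n) (a : Λ → ℕ) : Prop :=
  1 ≤ Y.R a ∧ ∀ n : ℕ, Y.R a ≤ n → Y.K a (Multiset.replicate n (Kind.free 1))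

theorem fullN_zero (Y : SysN Λ n) : FullN Y 0 := by
  refine ⟨by rw [Y.base_R], fun n hn => ?_⟩
  rw [Y.base_R] at hn
  refine Y.mono _ {Kind.free 1} _ ?_ Y.base
  rw [Multiset.singleton_le, Multiset.mem_replicate]
  exact ⟨by omega, rfl⟩

/-- One step; the trace is killed by the expected number of simple points. -/
theorem FullN.step {Y : SysN Λ n} {a : Λ → ℕ} (l : Λ) (ha : 1 ≤ a l) (hF : 1 ≤ Y.F l a)
    (hT : Y.tr l a (Multiset.replicate (Y.F l a) 1)) (h : FullN Y (dn l a)) : FullN Y a := by
  have hc := Y.count a l ha hF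
  refine ⟨by have := h.1; omega, fun n hn => ?_⟩
  have h1 : Y.F l a ≤ n := by
    have := h.1
    omega
  obtain ⟨n', rfl⟩ := Nat.exists_eq_add_of_le' h1
  have h2 := Y.step a l ha 1 le_rfl
    (Multiset.replicate n' (Role.stay (Kind.free 1)) +
      Multiset.replicate (Y.F l a) (Role.ord 1)) ?_ ?_ ?_
  · rw [Multiset.map_add, Multiset.map_replicate, Multiset.map_replicate] at h2
    rw [Multiset.replicate_add]
    exact h2
  · intro k hk
    rw [Multiset.mem_add, Multiset.mem_replicate, Multiset.mem_replicate] at hk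
    rcases hk with ⟨_, hk⟩ | ⟨_, hk⟩
    · cases hk
      trivial
    · cases hk
  · rw [Multiset.map_add, Multiset.map_replicate, Multiset.map_replicate]
    exact Y.tr_mono _ _ _ _ (Multiset.le_add_left _ _) hT
  · rw [Multiset.map_add, Multiset.map_replicate]
    refine Y.mono _ _ _ (Multiset.le_add_right _ _) ?_
    exact h.2 n' (by push_cast at hn; omega)

/-- Free points of multiplicity at least one. -/
theorem FullN.of_card {Y : SysN Λ n} {a : Λ → ℕ} (h : FullN Y a) (T : Multiset ℕ)
    (S : Multiset (Kind Λ)) (hT : ∀ m ∈ T, 1 ≤ m) (hc : Y.R a ≤ T.card) :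
    Y.K a (T.map Kind.free + S) :=
  Y.free_mono a T S hT (Y.mono _ _ _ (Multiset.le_add_right _ _) (h.2 _ hc))

theorem fin_shf_aux (j : ℕ) (S : Multiset (ℕ × ℕ))
    (hS : ∀ x ∈ S, 1 ≤ x.2 ∧ x.2 ≤ x.1 ∧ x.1 ≤ j) : shf^[j] S = 0 :=
  shf_iterate_eq_zero le_rfl S hS

omit [Fintype Λ] in
theorem fin_count_clean (M : ℕ) (dirs : List Λ) (l : Λ) (hl : l ∈ dirs) :
    M + 1 ≤ (clean M dirs).count l := by
  unfold clean
  induction dirs with
  | nil => exact absurd hl List.not_mem_nil
  | cons d ds ih =>
    rw [List.flatMap_cons, List.count_append]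
    by_cases h : l = d
    · subst h
      rw [List.count_replicate_self]
      exact Nat.le_add_right _ _
    · have h1 : l ∈ ds := by
        rcases List.mem_cons.1 hl with h2 | h2
        · exact absurd h2 h
        · exact h2
      exact le_trans (ih h1) (Nat.le_add_left _ _)

omit [DecidableEq Λ] in
theorem fin_kinds_simple {c : Cfg Λ} (hN : c.N = 0) (hΦ : ∀ l, c.Φ l = 0) :
    c.kinds = (Multiset.replicate c.s 1).map Kind.free + 0 := by
  have h1 : c.kinds = c.N.map Kind.free + Multiset.replicate c.s (Kind.free 1) +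
      ∑ l, (c.Φ l).map fun x => Kind.forced l x.1 x.2 := rfl
  rw [h1, hN, Finset.sum_eq_zero (fun l _ => by rw [hΦ l, Multiset.map_zero]),
    Multiset.map_zero, zero_add, Multiset.map_replicate]

end Pool.Agent.H18.Pr

end

section

/-!
# Project UA: small multiplicities and a given scheme

`Fam n` is a family of spaces `W δ` of polynomials of degree at most `δ` in `x_0, …, x_n`, behaving
like the polynomials of degree at most `δ` that vanish on a closed subscheme.  We show: if the numbers
`h δ - h (δ - 1)` (`h δ = dim W δ`) vary slowly below `d` and the traces on hyperplanes are exact then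
general points of multiplicities at most `M` impose maximal conditions on `W d`.
-/

namespace Pool.Agent.H18.Ua

open Finset Pool.Agent.H18.Ex Pool.Agent.H18.Cub Pool.Agent.H18.Pr

variable {n : ℕ}

/-! ### Numbers -/

section

variable {Λ : Type} [Fintype Λ] [DecidableEq Λ]

/-- The numerical properties of a Horace system below the state `N`. -/
structure NumU (Y : SysN Λ n) (M t : ℕ) (N : Λ → ℕ) : Prop where
  hn : 1 ≤ n
  hM : 1 ≤ M
  ht : TU n M ≤ t
  hq : Fintype.card Λ = qU n M
  hN : ∀ i, 2 * M + 2 ≤ N i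
  Fle : ∀ a l, RegU M N a → Y.F l a ≤ t
  leF : ∀ a l, RegU M N a → (4 * M - 1) * t ≤ 4 * M * Y.F l a
  gd : ∀ a l, RegU M N a → Y.Gd M l a
  leR : ∀ a, RegU M N a → ((4 * M * qU n M * t : ℕ) : ℤ) ≤ Y.R a
  full : ∀ a, RegU M N a → FullN Y a
  kill : ∀ a, RegU M N a → ∀ (S : Multiset (Kind Λ)) (x s : ℕ) (G : Multiset ℕ),
    (∀ m ∈ G, 1 ≤ m ∧ m ≤ M) → Y.K a (S + Multiset.replicate x (Kind.free 1)) →
    x ≤ (G.map (ell (n + 1))).sum + s →
    (M * t ≤ s ∨ x + ell (n + 1) M * (M * t) ≤ (G.map (ell (n + 1))).sum + s) →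
    Y.K a (S + G.map Kind.free + Multiset.replicate s (Kind.free 1))

end

end Pool.Agent.H18.Ua

end

section

/-!
# Project UB: small multiplicities and a given scheme, incomplete traces

As in project UA, but the traces are only killed by points of multiplicities at most `M` together with
at least `w` simple points.
-/

namespace Pool.Agent.H18.Ub

open Finset Pool.Agent.H18.Ex Pool.Agent.H18.Cub Pool.Agent.H18.Pr

section

variable {Λ : Type} [Fintype Λ] [DecidableEq Λ] {n : ℕ}

/-- The trace is killed by points of multiplicities at most `M` and at least `w` simple points as soon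
as the lengths suffice. -/
def Gw (Y : SysN Λ n) (M w : ℕ) (l : Λ) (a : Λ → ℕ) : Prop :=
  ∀ S : Multiset ℕ, (∀ m ∈ S, m ≤ M) → ∀ x : ℕ, w ≤ x → Y.F l a ≤ (S.map (ell n)).sum + x →
    Y.tr l a (S + Multiset.replicate x 1)

end

/-- The number of free points needed for a step. -/
def g0w (n M w : ℕ) : ℕ := M * (ell n M + w)

/-- The bound for the traces of the forced conditions after a step. -/
def nphiw (n M w f : ℕ) : ℕ := (M - 1) * f / M + (ell n M + w) * ell n M

/-- The hyperplane section may grow by the factor `1 + 1 / EV`. -/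
def EV (n M : ℕ) : ℕ := 8 * M * (M + 1) * ell n M

section

variable {Λ : Type} [Fintype Λ] [DecidableEq Λ] {n : ℕ}

end

end Pool.Agent.H18.Ub

end
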