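import Pool.Agent.H94.LP4.M15
import Pool.Agent.H94.LP4.M17
import Pool.Agent.H94.LP4.M26

/-! The parts of this file: H18.Pr.MainN, H18.Ua.UBridge. -/

section

/-!
# Module MainN: the bridging argument (abstract version, traces of dimension `n`)
-/

namespace Pool.Agent.H18.Pr

open Finset Pool.Agent.H18.Ex Pool.Agent.H18.Cub

variable {Λ : Type} [Fintype Λ] [DecidableEq Λ] {n : ℕ}

/-- Bridging for configurations. -/
theorem bridge_cfgN (Y : SysN Λ n) (c : Cfg Λ) (l : Λ) (s₀ : ℕ)
    (hs : Multiset.replicate s₀ (1, 1) ≤ c.Φ l) (a : Λ → ℕ) (ha : 1 ≤ a l)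
    (h1 : Y.K a (c.upd l (c.Φ l - Multiset.replicate s₀ (1, 1)) (c.s + s₀)).kinds)
    (h2 : Y.K (dn l a) (c.upd l (shf (c.Φ l - Multiset.replicate s₀ (1, 1))) c.s).kinds) :
    Y.K a c.kinds := by
  set X := c.Φ l - Multiset.replicate s₀ (1, 1) with hX
  have hXs : c.Φ l = X + Multiset.replicate s₀ (1, 1) := by
    rw [hX, tsub_add_cancel_of_le hs]
  set S : Multiset (Kind Λ) := c.N.map Kind.free + Multiset.replicate c.s (Kind.free 1) +
      ∑ i ∈ univ.erase l, ((c.Φ i).map fun x => Kind.forced i x.1 x.2) +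
      X.map fun x => Kind.forced l x.1 x.2 with hS
  have e1 : c.kinds = S + Multiset.replicate s₀ (Kind.forced l 1 1) := by
    rw [Cfg.kinds_split c l, hXs, Multiset.map_add, Multiset.map_replicate, ← add_assoc]
  rw [e1]
  apply Y.bridge a l ha S s₀
  · rw [Cfg.kinds_upd] at h1
    convert h1 using 1
    rw [hS, Multiset.replicate_add]
    abel
  · rw [Cfg.kinds_upd] at h2
    refine Y.mono _ _ _ ?_ h2
    rw [hS, Multiset.map_add, Multiset.map_add, Multiset.map_add]
    have e2 : (c.N.map (Kind.free : ℕ → Kind Λ)).map (Kind.dn l) = c.N.map Kind.free := by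
      rw [Multiset.map_map]
      rfl
    have e3 : (Multiset.replicate c.s (Kind.free 1 : Kind Λ)).map (Kind.dn l) =
        Multiset.replicate c.s (Kind.free 1) := by
      rw [Multiset.map_replicate]
      rfl
    have e4 : (∑ i ∈ univ.erase l, ((c.Φ i).map fun x => Kind.forced i x.1 x.2)).map
        (Kind.dn l) = ∑ i ∈ univ.erase l, ((c.Φ i).map fun x => Kind.forced i x.1 x.2) := by
      have e5 : ∀ (T : Finset Λ), (∀ i ∈ T, i ≠ l) →
          (∑ i ∈ T, ((c.Φ i).map fun x => Kind.forced i x.1 x.2)).map (Kind.dn l) =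
            ∑ i ∈ T, ((c.Φ i).map fun x => Kind.forced i x.1 x.2) := by
        intro T
        induction T using Finset.induction_on with
        | empty => simp
        | insert i T hi ih =>
          intro hT
          rw [sum_insert hi, Multiset.map_add, ih fun j hj => hT j (mem_insert_of_mem hj),
            Multiset.map_map]
          congr 1
          refine Multiset.map_congr rfl fun x _ => ?_
          simp only [Function.comp_apply, Kind.dn]
          rw [if_neg (hT i (mem_insert_self _ _))]
      exact e5 _ fun i hi => ne_of_mem_erase hi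
    rw [e2, e3, e4]
    refine add_le_add le_rfl ?_
    unfold shf
    rw [Multiset.map_map]
    refine (Multiset.map_le_map (Multiset.filter_le _ _)).trans (le_of_eq ?_)
    rw [Multiset.map_map]
    refine Multiset.map_congr rfl fun x _ => ?_
    simp [Kind.dn]

theorem tr_eq_zero {c : Cfg Λ} {l : Λ} (h : c.Φ l = 0) : c.tr n l = 0 := by
  unfold Cfg.tr
  rw [h]
  simp

end Pool.Agent.H18.Pr

end

section

/-!
# Module UBridge (UA): bridging along many hyperplanes
-/

namespace Pool.Agent.H18.Ua

open Finset Pool.Agent.H18.Ex Pool.Agent.H18.Cub Pool.Agent.H18.Pr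

variable {Λ : Type} [Fintype Λ] [DecidableEq Λ] {n : ℕ}

omit [Fintype Λ] in
private theorem cfg_ext {c c' : Cfg Λ} (h1 : c.N = c'.N) (h2 : c.s = c'.s) (h3 : c.Φ = c'.Φ) :
    c = c' := by
  cases c; cases c'; simp_all

omit [Fintype Λ] in
private theorem br1 (c : Cfg Λ) (y : ℕ) {l : Λ} {P T : Finset Λ} (hl : l ∉ P) (hT : T ⊆ P) :
    brT (c.upd l (c.Φ l - Multiset.replicate y (1, 1)) (c.s + y)) y P T =
      brT c y (insert l P) T := by
  have hlT : l ∉ T := fun h => hl (hT h)
  refine cfg_ext rfl ?_ ?_
  · show c.s + y + y * (P \ T).card = c.s + y * (insert l P \ T).card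
    rw [insert_sdiff_of_notMem _ hlT, card_insert_of_notMem (fun h => hl (mem_sdiff.1 h).1)]
    ring
  · funext i
    show (if i ∈ T then shf (Function.update c.Φ l _ i - Multiset.replicate y (1, 1))
      else if i ∈ P then Function.update c.Φ l _ i - Multiset.replicate y (1, 1)
      else Function.update c.Φ l _ i) = (if i ∈ T then shf (c.Φ i - Multiset.replicate y (1, 1))
      else if i ∈ insert l P then c.Φ i - Multiset.replicate y (1, 1) else c.Φ i)
    by_cases hi : i = l
    · subst hi
      rw [if_neg hlT, if_neg hl, if_neg hlT, if_pos (mem_insert_self _ _), Function.update_self]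
    · rw [Function.update_of_ne hi]
      simp only [mem_insert, hi, false_or]

omit [Fintype Λ] in
private theorem br2 (c : Cfg Λ) (y : ℕ) {l : Λ} {P T : Finset Λ} (hl : l ∉ P) (hT : T ⊆ P) :
    brT (c.upd l (shf (c.Φ l - Multiset.replicate y (1, 1))) c.s) y P T =
      brT c y (insert l P) (insert l T) := by
  have hlT : l ∉ T := fun h => hl (hT h)
  refine cfg_ext rfl ?_ ?_
  · show c.s + y * (P \ T).card = c.s + y * (insert l P \ insert l T).card
    rw [insert_sdiff_insert, sdiff_insert_of_notMem hl]
  · funext i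
    show (if i ∈ T then shf (Function.update c.Φ l _ i - Multiset.replicate y (1, 1))
      else if i ∈ P then Function.update c.Φ l _ i - Multiset.replicate y (1, 1)
      else Function.update c.Φ l _ i) =
      (if i ∈ insert l T then shf (c.Φ i - Multiset.replicate y (1, 1))
      else if i ∈ insert l P then c.Φ i - Multiset.replicate y (1, 1) else c.Φ i)
    by_cases hi : i = l
    · subst hi
      rw [if_neg hlT, if_neg hl, if_pos (mem_insert_self _ _), Function.update_self]
    · rw [Function.update_of_ne hi]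
      simp only [mem_insert, hi, false_or]

omit [Fintype Λ] in
private theorem dn1 (a : Λ → ℕ) {l : Λ} {T : Finset Λ} (hl : l ∉ T) :
    dnT T (dn l a) = dnT (insert l T) a := by
  funext i
  unfold dnT dn
  by_cases hi : i = l
  · subst hi
    rw [if_neg hl, if_pos (mem_insert_self _ _), Function.update_self]
  · rw [Function.update_of_ne hi]
    simp only [mem_insert, hi, false_or]

/-- Induction on `P` (for all states and configurations) with `bridge_cfgN`. -/
theorem bridge_multi (Y : SysN Λ n) (y : ℕ) (P : Finset Λ) : ∀ (a : Λ → ℕ) (c : Cfg Λ),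
    (∀ l ∈ P, 1 ≤ a l) → (∀ l ∈ P, Multiset.replicate y (1, 1) ≤ c.Φ l) →
    (∀ T ⊆ P, Y.K (dnT T a) (brT c y P T).kinds) → Y.K a c.kinds := by
  induction P using Finset.induction_on with
  | empty =>
    intro a c _ _ h
    have h1 := h ∅ (Finset.Subset.refl _)
    have h2 : dnT (∅ : Finset Λ) a = a := by
      funext i; unfold dnT; simp
    have h3 : brT c y ∅ ∅ = c := by
      refine cfg_ext rfl ?_ ?_
      · show c.s + y * (∅ \ ∅ : Finset Λ).card = c.s
        simp
      · funext i
        unfold brT
        simp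
    rw [h2, h3] at h1
    exact h1
  | insert l P hl ih =>
    intro a c ha hc h
    have hne : ∀ i ∈ P, i ≠ l := fun i hi h' => hl (h' ▸ hi)
    apply bridge_cfgN Y c l y (hc l (mem_insert_self _ _)) a (ha l (mem_insert_self _ _))
    · apply ih a
      · exact fun i hi => ha i (mem_insert_of_mem hi)
      · intro i hi
        show _ ≤ Function.update c.Φ l _ i
        rw [Function.update_of_ne (hne i hi)]
        exact hc i (mem_insert_of_mem hi)
      · intro T hT
        rw [br1 c y hl hT]
        exact h T (hT.trans (subset_insert _ _))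
    · apply ih (dn l a)
      · intro i hi
        show 1 ≤ Function.update a l _ i
        rw [Function.update_of_ne (hne i hi)]
        exact ha i (mem_insert_of_mem hi)
      · intro i hi
        show _ ≤ Function.update c.Φ l _ i
        rw [Function.update_of_ne (hne i hi)]
        exact hc i (mem_insert_of_mem hi)
      · intro T hT
        rw [br2 c y hl hT, dn1 a (fun h' => hl (hT h'))]
        exact h _ (insert_subset_insert _ hT)

private theorem mem_shf {x : ℕ × ℕ} {S : Multiset (ℕ × ℕ)} (hx : x ∈ shf S) :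
    ∃ y ∈ S, x = (y.1 - 1, y.2) ∧ y.2 ≤ y.1 - 1 := by
  unfold shf at hx
  rw [Multiset.mem_filter, Multiset.mem_map] at hx
  obtain ⟨⟨y, hy, rfl⟩, h⟩ := hx
  exact ⟨y, hy, rfl, h⟩

private theorem shf_zero : shf 0 = 0 := rfl

private theorem shf_cons (x : ℕ × ℕ) (S : Multiset (ℕ × ℕ)) :
    shf (x ::ₘ S) = if x.2 ≤ x.1 - 1 then (x.1 - 1, x.2) ::ₘ shf S else shf S := by
  unfold shf
  rw [Multiset.map_cons]
  by_cases h : x.2 ≤ x.1 - 1
  · rw [if_pos h]
    exact Multiset.filter_cons_of_pos (p := fun y : ℕ × ℕ => y.2 ≤ y.1) _ h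
  · rw [if_neg h]
    exact Multiset.filter_cons_of_neg (p := fun y : ℕ × ℕ => y.2 ≤ y.1) _ h

private theorem trS_add (n : ℕ) (S T : Multiset (ℕ × ℕ)) : trS n (S + T) = trS n S + trS n T := by
  unfold trS
  rw [Multiset.map_add, Multiset.sum_add]

private theorem flS_add (n : ℕ) (S T : Multiset (ℕ × ℕ)) : flS n (S + T) = flS n S + flS n T := by
  unfold flS
  rw [Multiset.map_add, Multiset.sum_add]

private theorem trS_shf_le {n : ℕ} (S : Multiset (ℕ × ℕ)) : trS n (shf S) ≤ trS n S := by
  induction S using Multiset.induction_on with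
  | empty => simp [shf_zero, trS]
  | cons x S ih =>
    have h1 : trS n (x ::ₘ S) = ell n x.1 + trS n S := by
      unfold trS
      rw [Multiset.map_cons, Multiset.sum_cons]
    rw [shf_cons, h1]
    by_cases h : x.2 ≤ x.1 - 1
    · rw [if_pos h]
      have h2 : trS n ((x.1 - 1, x.2) ::ₘ shf S) = ell n (x.1 - 1) + trS n (shf S) := by
        unfold trS
        rw [Multiset.map_cons, Multiset.sum_cons]
      rw [h2]
      exact Nat.add_le_add (ell_mono n (Nat.sub_le _ _)) ih
    · rw [if_neg h]
      exact le_trans ih (Nat.le_add_left _ _)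

private theorem trS_mono {n : ℕ} {S T : Multiset (ℕ × ℕ)} (h : S ≤ T) : trS n S ≤ trS n T := by
  obtain ⟨U, rfl⟩ := Multiset.le_iff_exists_add.1 h
  rw [trS_add]
  exact Nat.le_add_right _ _

private theorem flS_shf {n M : ℕ} (S : Multiset (ℕ × ℕ))
    (hS : ∀ x ∈ S, 1 ≤ x.2 ∧ x.2 ≤ 2 ∧ x.2 ≤ x.1 ∧ x.1 ≤ M) :
    flS n S = flS n (shf S) + trS n S := by
  induction S using Multiset.induction_on with
  | empty => simp [shf_zero, trS, flS]
  | cons x S ih =>
    have ih' := ih fun y hy => hS y (Multiset.mem_cons_of_mem hy)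
    obtain ⟨hx1, hx2, hx3, -⟩ := hS x (Multiset.mem_cons_self x S)
    have h1 : trS n (x ::ₘ S) = ell n x.1 + trS n S := by
      unfold trS
      rw [Multiset.map_cons, Multiset.sum_cons]
    have h0 : flS n (x ::ₘ S) = (ell (n + 1) x.1 + 1 - x.2) + flS n S := by
      unfold flS
      rw [Multiset.map_cons, Multiset.sum_cons]
    have h5 := ell_succ n (x.1 - 1)
    have h4 : x.1 - 1 + 1 = x.1 := by omega
    rw [h4] at h5
    have h6 := ell_pos n (m := x.1) (by omega)
    rw [shf_cons, h1, h0, ih']
    by_cases h : x.2 ≤ x.1 - 1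
    · rw [if_pos h]
      have h2 : flS n ((x.1 - 1, x.2) ::ₘ shf S) =
          (ell (n + 1) (x.1 - 1) + 1 - x.2) + flS n (shf S) := by
        unfold flS
        rw [Multiset.map_cons, Multiset.sum_cons]
      rw [h2]
      have h7 := ell_pos (n + 1) (m := x.1 - 1) (by omega)
      omega
    · rw [if_neg h]
      have h8 : ell (n + 1) (x.1 - 1) = x.2 - 1 := by
        have h9 : x.1 = x.2 := by omega
        rw [h9]
        have h10 : x.2 = 1 ∨ x.2 = 2 := by omega
        rcases h10 with h10 | h10
        · rw [h10]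
          exact ell_zero (by omega)
        · rw [h10]
          exact ell_one _
      omega

omit [Fintype Λ] in
/-- The branches are valid configurations. -/
private theorem brT_OK' {M y : ℕ} {c : Cfg Λ} (hc : c.OK M) (P T : Finset Λ) :
    (brT c y P T).OK M := by
  refine ⟨hc.hN, fun l x hx => ?_⟩
  have hx' : x ∈ (if l ∈ T then shf (c.Φ l - Multiset.replicate y (1, 1))
    else if l ∈ P then c.Φ l - Multiset.replicate y (1, 1) else c.Φ l) := hx
  by_cases h1 : l ∈ T
  · rw [if_pos h1] at hx'
    obtain ⟨z, hz, rfl, h3⟩ := mem_shf hx'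
    have h2 := hc.hΦ l z (Multiset.mem_of_le tsub_le_self hz)
    refine ⟨h2.1, h2.2.1, h3, ?_⟩
    show z.1 - 1 ≤ M
    omega
  · rw [if_neg h1] at hx'
    by_cases h2 : l ∈ P
    · rw [if_pos h2] at hx'
      exact hc.hΦ l x (Multiset.mem_of_le tsub_le_self hx')
    · rw [if_neg h2] at hx'
      exact hc.hΦ l x hx'

/-- The branches are valid configurations. -/
theorem brT_OK {M y : ℕ} {c : Cfg Λ} (hc : c.OK M) (P T : Finset Λ) : (brT c y P T).OK M :=
  brT_OK' hc P T

theorem brT_tr_le {M y : ℕ} (hn : 1 ≤ n) {c : Cfg Λ} (hc : c.OK M) (P T : Finset Λ) (l : Λ) :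
    (brT c y P T).tr n l ≤ c.tr n l := by
  show trS n (if l ∈ T then shf (c.Φ l - Multiset.replicate y (1, 1))
    else if l ∈ P then c.Φ l - Multiset.replicate y (1, 1) else c.Φ l) ≤ trS n (c.Φ l)
  by_cases h1 : l ∈ T
  · rw [if_pos h1]
    exact (trS_shf_le _).trans (trS_mono tsub_le_self)
  · rw [if_neg h1]
    by_cases h2 : l ∈ P
    · rw [if_pos h2]
      exact trS_mono tsub_le_self
    · rw [if_neg h2]

/-- The size of a branch (`flS_shf`). -/
theorem brT_sz {M y : ℕ} (hn : 1 ≤ n) {c : Cfg Λ} (hc : c.OK M)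
    (hy : ∀ l, Multiset.replicate y (1, 1) ≤ c.Φ l) (T : Finset Λ) :
    (brT c y univ T).sz n + ∑ l ∈ T, c.tr n l = c.sz n := by
  have hfl : ∀ l, (brT c y univ T).fl n l + (if l ∈ T then c.tr n l else y) = c.fl n l := by
    intro l
    set S := c.Φ l - Multiset.replicate y (1, 1) with hS
    have hSe : c.Φ l = S + Multiset.replicate y (1, 1) := (tsub_add_cancel_of_le (hy l)).symm
    have e1 : c.fl n l = flS n S + y := by
      show flS n (c.Φ l) = _
      rw [hSe, flS_add]
      congr 1
      unfold flS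
      rw [Multiset.map_replicate, Multiset.sum_replicate, smul_eq_mul]
      show y * (ell (n + 1) 1 + 1 - 1) = y
      rw [ell_one]
      simp
    have e2 : c.tr n l = trS n S + y := by
      show trS n (c.Φ l) = _
      rw [hSe, trS_add]
      congr 1
      unfold trS
      rw [Multiset.map_replicate, Multiset.sum_replicate, smul_eq_mul]
      show y * ell n 1 = y
      rw [ell_one, mul_one]
    have e3 : flS n S = flS n (shf S) + trS n S :=
      flS_shf (M := M) S fun x hx => hc.hΦ l x (Multiset.mem_of_le tsub_le_self hx)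
    have e4 : (brT c y univ T).fl n l = flS n (if l ∈ T then shf S
      else if l ∈ univ then S else c.Φ l) := rfl
    by_cases h1 : l ∈ T
    · rw [e4, if_pos h1, if_pos h1, e1, e2, e3]
      ring
    · rw [e4, if_neg h1, if_pos (mem_univ l), if_neg h1, e1]
  have hsum : ∑ l, (if l ∈ T then c.tr n l else y) = ∑ l ∈ T, c.tr n l + y * (univ \ T).card := by
    rw [← sum_sdiff (subset_univ T), add_comm]
    congr 1
    · exact sum_congr rfl fun l hl => if_pos hl
    · rw [sum_congr rfl fun l hl => if_neg (mem_sdiff.1 hl).2, sum_const, smul_eq_mul, mul_comm]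
  have htot : ∑ l, (brT c y univ T).fl n l + (∑ l ∈ T, c.tr n l + y * (univ \ T).card) =
      ∑ l, c.fl n l := by
    rw [← hsum, ← sum_add_distrib]
    exact sum_congr rfl fun l _ => hfl l
  have h1 : (brT c y univ T).nsz n = c.nsz n + y * (univ \ T).card := by
    show (c.N.map (ell (n + 1))).sum + (c.s + y * (univ \ T).card) =
      (c.N.map (ell (n + 1))).sum + c.s + y * (univ \ T).card
    ring
  unfold Cfg.sz
  rw [h1, ← htot]
  ring

end Pool.Agent.H18.Ua

end
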