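import Pool.Agent.H94.LP4.H18.FatBasic
import Pool.Agent.H94.LP4.M05

/-! The parts of this file: H74.CT.Indep, H74.CT.Node, H74.CT.Jump. -/

section

/-!
# Independence of products of linear forms modulo higher order vanishing
-/

namespace Pool.Agent.H74.CT

open MvPolynomial Pool.Agent.H18.Fat Pool.Agent.H22.LU

theorem shift_zero' {n : ℕ} (F : MvPolynomial (Fin n) ℂ) : shift 0 F = F := by
  unfold shift
  have h : (fun j : Fin n => X j + C ((0 : Fin n → ℂ) j)) = (X : Fin n → MvPolynomial (Fin n) ℂ) := by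
    funext j
    simp
  rw [h]
  exact aeval_X_left_apply F

theorem eval_aeval {n k : ℕ} (σ : Fin n → MvPolynomial (Fin k) ℂ) (x : Fin k → ℂ)
    (F : MvPolynomial (Fin n) ℂ) :
    eval x (aeval σ F) = eval (fun j => eval x (σ j)) F := by
  induction F using MvPolynomial.induction_on with
  | C a => simp
  | add p q hp hq => rw [map_add, map_add, map_add, hp, hq]
  | mul_X p i hp => rw [map_mul, map_mul, map_mul, hp, aeval_X, eval_X]

theorem coeff_mono_mul {k e : ℕ} (c c0 : mons k e) (Q : MvPolynomial (Fin k) ℂ) :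
    coeff c0.1 (monomial c.1 (1 : ℂ) * Q) = if c = c0 then coeff 0 Q else 0 := by
  rw [coeff_monomial_mul', one_mul]
  have h1 := mem_mons.1 c.2
  have h2 := mem_mons.1 c0.2
  by_cases h : c = c0
  · subst h
    rw [if_pos le_rfl, if_pos rfl, tsub_self]
  · rw [if_neg h, if_neg]
    intro hle
    apply h
    have h3 : c.1 + (c0.1 - c.1) = c0.1 := add_tsub_cancel_of_le hle
    have h4 := congrArg Finsupp.degree h3
    rw [map_add, h1, h2] at h4
    have h5 : (c0.1 - c.1).degree = 0 := by omega
    rw [Finsupp.degree_eq_zero_iff] at h5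
    rw [h5, add_zero] at h3
    exact Subtype.ext h3

theorem indep_core {r e g : ℕ} {q : Fin (r + 1) → ℂ} {G : MvPolynomial (Fin (r + 1)) ℂ}
    (hG : ¬ VanishesToOrder G q (g + 1)) (Xs : Fin r → MvPolynomial (Fin (r + 1)) ℂ)
    (H : mons r e → MvPolynomial (Fin (r + 1)) ℂ) (hH : ∀ c, eval q (H c) ≠ 0)
    (σ : Fin (r + 1) → MvPolynomial (Fin r) ℂ) (hσ : ∀ a, eval 0 (σ a) = q a)
    (hX : ∀ u, aeval σ (Xs u) = X u) (a : mons r e → ℂ)
    (hvan : VanishesToOrder (∑ c, a c • (G * ((∏ u, Xs u ^ (c.1 u)) * H c))) q (g + e + 1)) :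
    a = 0 := by
  classical
  have h1 : ∑ c, a c • (G * ((∏ u, Xs u ^ (c.1 u)) * H c)) =
      G * ∑ c, a c • ((∏ u, Xs u ^ (c.1 u)) * H c) := by
    rw [Finset.mul_sum]
    refine Finset.sum_congr rfl fun c _ => ?_
    rw [mul_smul_comm]
  rw [h1] at hvan
  have h2 := vanishes_of_mul hG hvan
  have h3 : g + e + 1 - g = e + 1 := by omega
  rw [h3] at h2
  have h4 := vanishes_aeval (q' := 0) σ hσ h2
  have h5 : aeval σ (∑ c, a c • ((∏ u, Xs u ^ (c.1 u)) * H c)) =
      ∑ c, a c • (monomial c.1 (1 : ℂ) * aeval σ (H c)) := by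
    rw [map_sum]
    refine Finset.sum_congr rfl fun c _ => ?_
    rw [map_smul, map_mul, map_prod]
    congr 2
    rw [monomial_eq, C_1, one_mul, Finsupp.prod_fintype _ _ (fun _ => pow_zero _)]
    refine Finset.prod_congr rfl fun u _ => ?_
    rw [map_pow, hX]
  rw [h5] at h4
  funext c0
  have h6 := h4 c0.1 (by rw [mem_mons.1 c0.2]; omega)
  rw [shift_zero', coeff_sum] at h6
  have h7 : ∀ c : mons r e, coeff c0.1 (a c • (monomial c.1 (1 : ℂ) * aeval σ (H c))) =
      if c = c0 then a c0 * coeff 0 (aeval σ (H c0)) else 0 := by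
    intro c
    rw [coeff_smul, coeff_mono_mul, smul_eq_mul]
    by_cases h : c = c0
    · rw [if_pos h, if_pos h, h]
    · rw [if_neg h, if_neg h, mul_zero]
  rw [Finset.sum_congr rfl fun c _ => h7 c, Finset.sum_ite_eq' Finset.univ c0
    (fun _ => a c0 * coeff 0 (aeval σ (H c0))), if_pos (Finset.mem_univ c0)] at h6
  rcases mul_eq_zero.1 h6 with h8 | h8
  · exact h8
  · exfalso
    apply hH c0
    have h9 : eval (0 : Fin r → ℂ) (aeval σ (H c0)) = coeff 0 (aeval σ (H c0)) := by
      rw [← constantCoeff_eq]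
      exact congrFun (congrArg DFunLike.coe (eval_zero)) _
    rw [h8, eval_aeval] at h9
    rw [← h9]
    congr 2
    funext j
    exact (hσ j).symm

theorem finrank_stage {V : Type*} [AddCommGroup V] [Module ℂ V] (U W : Submodule ℂ V)
    [FiniteDimensional ℂ U] (hWU : W ≤ U) {κ : Type*} [Fintype κ] (F : κ → V)
    (hF : ∀ c, F c ∈ U) (hind : ∀ a : κ → ℂ, (∑ c, a c • F c) ∈ W → a = 0) :
    Module.finrank ℂ W + Fintype.card κ ≤ Module.finrank ℂ U := by
  have : FiniteDimensional ℂ W := Submodule.finiteDimensional_of_le hWU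
  let f : ((κ → ℂ) × W) →ₗ[ℂ] U :=
    { toFun := fun x => ⟨∑ c, x.1 c • F c + x.2.1, U.add_mem
        (U.sum_mem fun c _ => U.smul_mem _ (hF c)) (hWU x.2.2)⟩
      map_add' := by
        intro x y
        apply Subtype.ext
        simp only [Prod.fst_add, Prod.snd_add, Pi.add_apply, add_smul, Finset.sum_add_distrib,
          Submodule.coe_add]
        abel
      map_smul' := by
        intro t x
        apply Subtype.ext
        simp only [Prod.smul_fst, Prod.smul_snd, Pi.smul_apply, smul_eq_mul, mul_smul,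
          Submodule.coe_smul, RingHom.id_apply, smul_add, Finset.smul_sum] }
  have hf : Function.Injective f := by
    rw [← LinearMap.ker_eq_bot, LinearMap.ker_eq_bot']
    rintro ⟨a, w⟩ h
    have h1 : ∑ c, a c • F c + w.1 = 0 := congrArg Subtype.val h
    have h2 : ∑ c, a c • F c = -w.1 := eq_neg_of_add_eq_zero_left h1
    have h3 := hind a (by rw [h2]; exact W.neg_mem w.2)
    subst h3
    have h4 : w.1 = 0 := by simpa using h1
    have h5 : w = 0 := Subtype.ext h4
    rw [h5]
    rfl
  have h1 := LinearMap.finrank_le_finrank_of_injective hf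
  rw [Module.finrank_prod, Module.finrank_fintype_fun_eq_card] at h1
  omega

theorem fin_fatForms (r d : ℕ) {ι : Type*} (p : ι → Fin (r + 1) → ℂ) (m : ι → ℕ) :
    FiniteDimensional ℂ (fatForms r d p m) := by
  exact Submodule.finiteDimensional_of_le (S₂ := LinearMap.range (toPoly (r + 1) d)) fun F hF =>
    ⟨fun α => coeff α.1 F, exists_toPoly hF.1⟩

end Pool.Agent.H74.CT

end

section

/-!
# Points of the rational normal curve and products of linear forms
-/

namespace Pool.Agent.H74.CT

open MvPolynomial Pool.Agent.H18.Fat Pool.Agent.H22.LU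

/-- A point of the rational normal curve. -/
noncomputable def pt (r : ℕ) (t : ℂ) : Fin (r + 1) → ℂ := fun a => t ^ (a : ℕ)

/-- The linear form whose restriction to the rational normal curve is `f`. -/
noncomputable def lin (r : ℕ) (f : Polynomial ℂ) : MvPolynomial (Fin (r + 1)) ℂ :=
  ∑ a : Fin (r + 1), C (f.coeff a) * X a

theorem lin_hom (r : ℕ) (f : Polynomial ℂ) : (lin r f).IsHomogeneous 1 := by
  unfold lin
  refine IsHomogeneous.sum _ _ _ fun a _ => ?_
  simpa using (isHomogeneous_C (Fin (r + 1)) (f.coeff a)).mul (isHomogeneous_X ℂ a)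

theorem eval_lin {r : ℕ} {f : Polynomial ℂ} (hf : f.natDegree ≤ r) (t : ℂ) :
    eval (pt r t) (lin r f) = f.eval t := by
  unfold lin pt
  rw [map_sum, Polynomial.eval_eq_sum_range' (n := r + 1) (by omega), Finset.sum_range]
  refine Finset.sum_congr rfl fun a _ => ?_
  rw [map_mul, eval_C, eval_X]

theorem aeval_lin {r : ℕ} {f : Polynomial ℂ} (hf : f.natDegree ≤ r) :
    aeval (fun a : Fin (r + 1) => (Polynomial.X : Polynomial ℂ) ^ (a : ℕ)) (lin r f) = f := by
  unfold lin
  rw [map_sum]
  conv_rhs => rw [Polynomial.as_sum_range' f (r + 1) (by omega), Finset.sum_range]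
  refine Finset.sum_congr rfl fun a _ => ?_
  rw [map_mul, aeval_C, aeval_X, ← Polynomial.C_mul_X_pow_eq_monomial]
  rfl

theorem van_mono {n : ℕ} {F : MvPolynomial (Fin n) ℂ} {q : Fin n → ℂ} {a b : ℕ}
    (h : VanishesToOrder F q a) (hb : b ≤ a) : VanishesToOrder F q b :=
  fun β hβ => h β (lt_of_lt_of_le hβ hb)

theorem van_mul {n : ℕ} {F G : MvPolynomial (Fin n) ℂ} {q : Fin n → ℂ} {a b : ℕ}
    (hF : VanishesToOrder F q a) (hG : VanishesToOrder G q b) :
    VanishesToOrder (F * G) q (a + b) := by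
  rw [vanishesToOrder_iff_mem_ideal_pow] at *
  rw [pow_add]
  exact Ideal.mul_mem_mul hF hG

theorem van_pow {n : ℕ} {F : MvPolynomial (Fin n) ℂ} {q : Fin n → ℂ} {a : ℕ}
    (hF : VanishesToOrder F q a) (e : ℕ) : VanishesToOrder (F ^ e) q (e * a) := by
  induction e with
  | zero =>
    rw [Nat.zero_mul]
    exact vanishes_zero _ _
  | succ e ih =>
    rw [pow_succ, Nat.succ_mul]
    exact van_mul ih hF

theorem van_prod {n : ℕ} {ι : Type*} (s : Finset ι) {F : ι → MvPolynomial (Fin n) ℂ}
    {q : Fin n → ℂ} {a : ι → ℕ} (hF : ∀ i ∈ s, VanishesToOrder (F i) q (a i)) :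
    VanishesToOrder (∏ i ∈ s, F i) q (∑ i ∈ s, a i) := by
  classical
  induction s using Finset.induction_on with
  | empty =>
    rw [Finset.sum_empty]
    exact vanishes_zero _ _
  | insert b s hb ih =>
    rw [Finset.prod_insert hb, Finset.sum_insert hb]
    exact van_mul (hF b (Finset.mem_insert_self b s))
      (ih fun i hi => hF i (Finset.mem_insert_of_mem hi))

/-- The polynomial with simple zeros at the nodes of `T`. -/
noncomputable def nod (T : Finset ℕ) : Polynomial ℂ := ∏ l ∈ T, (Polynomial.X - Polynomial.C (l : ℂ))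

theorem nod_natDegree (T : Finset ℕ) : (nod T).natDegree = T.card := by
  unfold nod
  rw [Polynomial.natDegree_prod_of_monic _ _ fun l _ => Polynomial.monic_X_sub_C _,
    Finset.sum_congr rfl fun l _ => Polynomial.natDegree_X_sub_C _, Finset.sum_const, smul_eq_mul,
    mul_one]

theorem nod_eval {T : Finset ℕ} {x : ℕ} : (nod T).eval (x : ℂ) = 0 ↔ x ∈ T := by
  unfold nod
  rw [Polynomial.eval_prod, Finset.prod_eq_zero_iff]
  constructor
  · rintro ⟨l, hl, h⟩
    rw [Polynomial.eval_sub, Polynomial.eval_X, Polynomial.eval_C, sub_eq_zero] at h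
    have h1 : x = l := by exact_mod_cast h
    rwa [h1]
  · intro h
    exact ⟨x, h, by simp⟩

/-- Products of linear forms with prescribed multiplicities. -/
theorem cover (r : ℕ) : ∀ (t : ℕ) (w : ℕ → ℕ) (A : Finset ℕ), (∀ l ∈ A, w l ≤ t) →
    ∑ l ∈ A, w l ≤ r * t → ∃ H : MvPolynomial (Fin (r + 1)) ℂ, H.IsHomogeneous t ∧
      (∀ x : ℕ, x ∉ A → eval (pt r x) H ≠ 0) ∧
      ∀ l ∈ A, VanishesToOrder H (pt r l) (w l) := by
  intro t
  induction t with
  | zero =>
    intro w A hw _
    refine ⟨1, isHomogeneous_one _ _, fun x _ => by simp, fun l hl => ?_⟩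
    have := hw l hl
    have h0 : w l = 0 := by omega
    rw [h0]
    exact vanishes_zero _ _
  | succ t ih =>
    intro w A hw hsum
    set A1 := A.filter fun l => w l = t + 1 with hA1
    set A0 := A.filter fun l => 1 ≤ w l with hA0
    have h10 : A1 ⊆ A0 := by
      intro l hl
      rw [hA1, Finset.mem_filter] at hl
      rw [hA0, Finset.mem_filter]
      exact ⟨hl.1, by omega⟩
    have hc1 : A1.card ≤ r := by
      have h1 : A1.card * (t + 1) ≤ ∑ l ∈ A, w l := by
        calc A1.card * (t + 1) = ∑ l ∈ A1, w l := by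
              rw [Finset.sum_congr rfl fun l hl => (Finset.mem_filter.1 hl).2, Finset.sum_const,
                smul_eq_mul]
          _ ≤ _ := Finset.sum_le_sum_of_subset (Finset.filter_subset _ _)
      have h2 := h1.trans hsum
      exact Nat.le_of_mul_le_mul_right h2 (by omega)
    obtain ⟨T, hT1, hT0, hTc⟩ := Finset.exists_subsuperset_card_eq (n := min r A0.card) h10
      (le_min hc1 (Finset.card_le_card h10)) (min_le_right _ _)
    have hTA : T ⊆ A := hT0.trans (Finset.filter_subset _ _)
    set w' : ℕ → ℕ := fun l => if l ∈ T then w l - 1 else w l with hw'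
    have hw1 : ∀ l ∈ A, w' l ≤ t := by
      intro l hl
      rw [hw']
      dsimp only
      have := hw l hl
      by_cases hlT : l ∈ T
      · rw [if_pos hlT]
        omega
      · rw [if_neg hlT]
        by_contra hcon
        exact hlT (hT1 (Finset.mem_filter.2 ⟨hl, by omega⟩))
    have hsplit : ∑ l ∈ A, w' l + T.card = ∑ l ∈ A, w l := by
      have h1 : T.card = ∑ l ∈ A, if l ∈ T then 1 else 0 := by
        rw [← Finset.sum_filter, Finset.sum_const, smul_eq_mul, mul_one,
          Finset.filter_mem_eq_inter, Finset.inter_eq_right.2 hTA]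
      rw [h1, ← Finset.sum_add_distrib]
      refine Finset.sum_congr rfl fun l _ => ?_
      rw [hw']
      dsimp only
      by_cases hlT : l ∈ T
      · rw [if_pos hlT, if_pos hlT]
        have := (Finset.mem_filter.1 (hT0 hlT)).2
        omega
      · rw [if_neg hlT, if_neg hlT]
        omega
    have hsum' : ∑ l ∈ A, w' l ≤ r * t := by
      rcases le_total r A0.card with h | h
      · rw [min_eq_left h] at hTc
        have : r * (t + 1) = r * t + r := by ring
        omega
      · rw [min_eq_right h] at hTc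
        have hTe : T = A0 := Finset.eq_of_subset_of_card_le hT0 (by omega)
        have h1 : ∑ l ∈ A, w' l = ∑ l ∈ A0, w' l := by
          symm
          apply Finset.sum_subset (Finset.filter_subset _ _)
          intro l hl hl0
          rw [hw']
          dsimp only
          rw [if_neg (by rw [hTe]; exact hl0)]
          by_contra hcon
          exact hl0 (Finset.mem_filter.2 ⟨hl, by omega⟩)
        rw [h1]
        calc ∑ l ∈ A0, w' l ≤ ∑ _l ∈ A0, t :=
              Finset.sum_le_sum fun l hl => hw1 l (Finset.filter_subset _ _ hl)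
          _ = A0.card * t := by rw [Finset.sum_const, smul_eq_mul]
          _ ≤ r * t := Nat.mul_le_mul_right _ h
    obtain ⟨H, hH1, hH2, hH3⟩ := ih w' A hw1 hsum'
    have hdeg : (nod T).natDegree ≤ r := by
      rw [nod_natDegree, hTc]
      exact min_le_left _ _
    refine ⟨lin r (nod T) * H, ?_, fun x hx => ?_, fun l hl => ?_⟩
    · rw [Nat.add_comm t 1]
      exact (lin_hom r _).mul hH1
    · rw [map_mul, eval_lin hdeg]
      refine mul_ne_zero (fun h => hx (hTA (nod_eval.1 h))) (hH2 x hx)
    · have h3 := hH3 l hl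
      by_cases hlT : l ∈ T
      · have h4 : VanishesToOrder (lin r (nod T)) (pt r l) 1 := by
          rw [vanishes_one_iff, eval_lin hdeg]
          exact nod_eval.2 hlT
        refine van_mono (van_mul h4 h3) ?_
        rw [hw']
        dsimp only
        rw [if_pos hlT]
        omega
      · have h4 := vanishes_zero (pt r l) (lin r (nod T))
        refine van_mono (van_mul h4 h3) ?_
        rw [hw']
        dsimp only
        rw [if_neg hlT]
        omega

end Pool.Agent.H74.CT

end

section

/-!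
# The jumps of the growth of the general dimension are rare
-/

namespace Pool.Agent.H74.CT

open MvPolynomial Pool.Agent.H18.Fat Pool.Agent.H22.LU

section seq

variable {t : ℕ → ℕ} {C E : ℕ}

end seq

theorem mulgen {n : ℕ} (G : MvPolynomial (Fin n) ℂ) (A A' B B' : Submodule ℂ (MvPolynomial (Fin n) ℂ))
    [FiniteDimensional ℂ A'] [FiniteDimensional ℂ B'] (hA : A ≤ A') (hB : B ≤ B')
    (h1 : ∀ R ∈ A', G * R ∈ B') (h2 : ∀ R ∈ A', G * R ∈ B → R ∈ A) :
    Module.finrank ℂ B + Module.finrank ℂ A' ≤ Module.finrank ℂ B' + Module.finrank ℂ A := by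
  have iB : FiniteDimensional ℂ B := Submodule.finiteDimensional_of_le hB
  have iA : FiniteDimensional ℂ A := Submodule.finiteDimensional_of_le hA
  let f : (A' × B) →ₗ[ℂ] B' :=
    { toFun := fun x => ⟨G * x.1.1 + x.2.1, B'.add_mem (h1 _ x.1.2) (hB x.2.2)⟩
      map_add' := by
        intro x y
        apply Subtype.ext
        simp only [Prod.fst_add, Prod.snd_add, Submodule.coe_add, mul_add]
        abel
      map_smul' := by
        intro c x
        apply Subtype.ext
        simp only [Prod.smul_fst, Prod.smul_snd, Submodule.coe_smul, RingHom.id_apply, smul_add,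
          mul_smul_comm] }
  have hker : ∀ x ∈ LinearMap.ker f, x.1.1 ∈ A := by
    intro x hx
    rw [LinearMap.mem_ker] at hx
    have h3 : G * x.1.1 + x.2.1 = 0 := congrArg Subtype.val hx
    have h4 : G * x.1.1 = -x.2.1 := eq_neg_of_add_eq_zero_left h3
    refine h2 _ x.1.2 ?_
    rw [h4]
    exact B.neg_mem x.2.2
  let g : LinearMap.ker f →ₗ[ℂ] A :=
    { toFun := fun x => ⟨x.1.1.1, hker x.1 x.2⟩
      map_add' := fun x y => rfl
      map_smul' := fun c x => rfl }
  have hg : Function.Injective g := by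
    intro x y hxy
    have e1 : x.1.1.1 = y.1.1.1 := by
      have h0 : (g x).1 = (g y).1 := by rw [hxy]
      exact h0
    have e2 : G * x.1.1.1 + x.1.2.1 = 0 := by
      have h0 : (f x.1).1 = 0 := by
        rw [LinearMap.mem_ker.1 x.2]
        rfl
      exact h0
    have e3 : G * y.1.1.1 + y.1.2.1 = 0 := by
      have h0 : (f y.1).1 = 0 := by
        rw [LinearMap.mem_ker.1 y.2]
        rfl
      exact h0
    rw [e1, ← e3] at e2
    have e4 : x.1.2.1 = y.1.2.1 := add_left_cancel e2
    apply Subtype.ext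
    apply Prod.ext
    · exact Subtype.ext e1
    · exact Subtype.ext e4
  have e1 := LinearMap.finrank_le_finrank_of_injective hg
  have e2 := LinearMap.finrank_range_add_finrank_ker f
  rw [Module.finrank_prod] at e2
  have e3 : Module.finrank ℂ (LinearMap.range f) ≤ Module.finrank ℂ B' := Submodule.finrank_le _
  omega

theorem van_div {n : ℕ} {ℓ R : MvPolynomial (Fin n) ℂ} {q : Fin n → ℂ} {a : ℕ}
    (hℓ : eval q ℓ ≠ 0) (h : VanishesToOrder (ℓ * R) q a) : VanishesToOrder R q a := by
  have h1 := vanishes_of_mul (a := 0) (A := ℓ) (fun h2 => hℓ (vanishes_one_iff.1 h2)) h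
  exact h1

theorem grow_le {r j : ℕ} {ι : Type*} (p : ι → Fin (r + 1) → ℂ) (hp : ∀ l, p l 0 ≠ 0)
    (w : ι → ℕ) : Module.finrank ℂ (fatForms r (j + 1) p w) +
      Module.finrank ℂ (fatForms r j p fun _ => 0) ≤
      Module.finrank ℂ (fatForms r (j + 1) p fun _ => 0) + Module.finrank ℂ (fatForms r j p w) := by
  have i1 := fin_fatForms r j p fun _ => 0
  have i2 := fin_fatForms r (j + 1) p fun _ => 0
  refine mulgen (X 0) _ _ _ _ (fun F hF => ⟨hF.1, fun l => vanishes_zero _ _⟩)
    (fun F hF => ⟨hF.1, fun l => vanishes_zero _ _⟩) (fun R hR => ⟨?_, fun l => vanishes_zero _ _⟩)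
    fun R hR h => ⟨hR.1, fun l => van_div ?_ (h.2 l)⟩
  · rw [Nat.add_comm j 1]
    exact (isHomogeneous_X ℂ 0).mul hR.1
  · rw [eval_X]
    exact hp l

theorem hom_div {n j : ℕ} {i : Fin n} {R : MvPolynomial (Fin n) ℂ}
    (h : (X i * R).IsHomogeneous (j + 1)) : R.IsHomogeneous j := by
  intro β hβ
  have h1 := @h (Finsupp.single i 1 + β) (by
    rw [coeff_X_mul]
    exact hβ)
  rw [map_add, Finsupp.weight_single] at h1
  have h2 : (1 : ℕ) • (1 : Fin n → ℕ) i = 1 := by simp
  rw [h2] at h1
  omega

theorem grow_zero {r j : ℕ} {ι : Type*} (p : ι → Fin (r + 1) → ℂ) (w : ι → ℕ) :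
    Module.finrank ℂ (fatForms r j p w) ≤ Module.finrank ℂ (fatForms r (j + 1) p w) := by
  have i1 := fin_fatForms r (j + 1) p w
  have i2 := fin_fatForms r j p w
  have h1 := mulgen (X 0) ⊥ (fatForms r j p w) ⊥ (fatForms r (j + 1) p w) bot_le
    bot_le (fun R hR => ⟨by
      rw [Nat.add_comm j 1]
      exact (isHomogeneous_X ℂ 0).mul hR.1, fun l => by
      have h1 := van_mul (vanishes_zero (p l) (X 0)) (hR.2 l)
      rwa [Nat.zero_add] at h1⟩) fun R _ h => by
      rw [Submodule.mem_bot] at h ⊢
      rcases mul_eq_zero.1 h with h2 | h2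
      · exact absurd h2 (X_ne_zero 0)
      · exact h2
  rw [finrank_bot, Nat.zero_add] at h1
  exact h1

end Pool.Agent.H74.CT

end
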