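import Pool.Agent.H94.LP4.M05

/-! The parts of this file: H18.Pr.Kap, H18.Ua.UDeh. -/

section

/-!
# Module Kap (PR): the cost of a monomial
-/

namespace Pool.Agent.H18.Pr

open Finset Pool.Agent.H18.Ex Pool.Agent.H18.Cub

theorem kap_succ_le (e A b : ℕ) (he : 1 ≤ e) : kap e A (b + 1) ≤ kap e A b + 1 := by
  induction A generalizing b with
  | zero => exact le_rfl
  | succ A ih =>
    show (b + 1) % e + kap e A ((b + 1) / e) ≤ b % e + kap e A (b / e) + 1
    have h1 : b % e < e := Nat.mod_lt _ he
    have h2 : e * (b / e) + b % e = b := Nat.div_add_mod b e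
    rcases Nat.lt_or_ge (b % e + 1) e with h | h
    · have h3 : (b + 1) % e = b % e + 1 := by
        have h4 : b + 1 = b % e + 1 + e * (b / e) := by omega
        rw [h4, Nat.add_mul_mod_self_left, Nat.mod_eq_of_lt h]
      have h5 : (b + 1) / e = b / e := by
        have h4 : b + 1 = b % e + 1 + e * (b / e) := by omega
        rw [h4, Nat.add_mul_div_left _ _ he, Nat.div_eq_of_lt h, Nat.zero_add]
      rw [h3, h5]
      omega
    · have h6 : b % e + 1 = e := by omega
      have h4 : b + 1 = e * (b / e + 1) := by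
        rw [Nat.mul_add, Nat.mul_one]
        omega
      have h3 : (b + 1) % e = 0 := by rw [h4, Nat.mul_mod_right]
      have h5 : (b + 1) / e = b / e + 1 := by rw [h4, Nat.mul_div_cancel_left _ he]
      rw [h3, h5]
      have h7 := ih (b / e)
      omega

theorem kap_add_le (e A a b : ℕ) (he : 1 ≤ e) : kap e A (a + b) ≤ a + kap e A b := by
  induction a with
  | zero => rw [Nat.zero_add, Nat.zero_add]
  | succ a ih =>
    have h := kap_succ_le e A (a + b) he
    rw [show a + 1 + b = a + b + 1 by omega]
    omega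

theorem kap_mul_add (e A a b : ℕ) (he : 1 ≤ e) : kap e (A + 1) (a + e * b) ≤ a + kap e A b := by
  refine (kap_add_le e (A + 1) a (e * b) he).trans ?_
  show a + (e * b % e + kap e A (e * b / e)) ≤ a + kap e A b
  rw [Nat.mul_mod_right, Nat.mul_div_cancel_left _ he, Nat.zero_add]

theorem le_kap (e A a : ℕ) (he : 1 ≤ e) : a + 1 ≤ e ^ A * (kap e A a + 1) := by
  induction A generalizing a with
  | zero =>
    show a + 1 ≤ e ^ 0 * (a + 1)
    rw [pow_zero, one_mul]
  | succ A ih =>
    have h1 : a % e < e := Nat.mod_lt _ he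
    have h2 : e * (a / e) + a % e = a := Nat.div_add_mod a e
    have h3 : a + 1 ≤ e * (a / e + 1) := by
      rw [Nat.mul_add, Nat.mul_one]
      omega
    have h4 : kap e A (a / e) ≤ kap e (A + 1) a := Nat.le_add_left _ _
    calc a + 1 ≤ e * (a / e + 1) := h3
      _ ≤ e * (e ^ A * (kap e A (a / e) + 1)) := Nat.mul_le_mul_left _ (ih _)
      _ ≤ e * (e ^ A * (kap e (A + 1) a + 1)) :=
          Nat.mul_le_mul_left _ (Nat.mul_le_mul_left _ (Nat.add_le_add_right h4 1))
      _ = e ^ (A + 1) * (kap e (A + 1) a + 1) := by rw [pow_succ]; ring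

/-- The number of exponents of cost at most `d`. -/
theorem kap_card (e A d : ℕ) (he : 1 ≤ e) :
    ((range (e ^ A * (d + 1))).filter fun a => kap e A a ≤ d).card = tau e A 1 d := by
  induction A generalizing d with
  | zero =>
    show ((range (e ^ 0 * (d + 1))).filter fun a => a ≤ d).card = (d + 1).choose 1
    rw [pow_zero, one_mul, Nat.choose_one_right, filter_true_of_mem, card_range]
    intro a ha
    exact Nat.lt_succ_iff.1 (mem_range.1 ha)
  | succ A ih =>
    have hmaps : ∀ a ∈ (range (e ^ (A + 1) * (d + 1))).filter fun a => kap e (A + 1) a ≤ d,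
        a % e ∈ range e := fun a _ => mem_range.2 (Nat.mod_lt _ he)
    rw [card_eq_sum_card_fiberwise hmaps]
    show _ = ∑ δ ∈ range e, if δ ≤ d then tau e A 1 (d - δ) else 0
    refine sum_congr rfl fun δ hδ => ?_
    rw [mem_range] at hδ
    split_ifs with h
    · rw [← ih (d - δ)]
      have h1 : (((range (e ^ (A + 1) * (d + 1))).filter fun a => kap e (A + 1) a ≤ d).filter
          fun a => a % e = δ) =
          ((range (e ^ A * (d - δ + 1))).filter fun b => kap e A b ≤ d - δ).image
            fun b => δ + e * b := by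
        ext a
        simp only [mem_filter, mem_range, mem_image]
        constructor
        · rintro ⟨⟨_, h3⟩, h4⟩
          have h5 : kap e (A + 1) a = a % e + kap e A (a / e) := rfl
          have h6 : kap e A (a / e) ≤ d - δ := by omega
          refine ⟨a / e, ⟨?_, h6⟩, ?_⟩
          · have h7 := le_kap e A (a / e) he
            have h8 : e ^ A * (kap e A (a / e) + 1) ≤ e ^ A * (d - δ + 1) :=
              Nat.mul_le_mul_left _ (by omega)
            omega
          · have := Nat.div_add_mod a e
            omega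
        · rintro ⟨b, ⟨_, h3⟩, rfl⟩
          have h4 : (δ + e * b) % e = δ := by
            rw [Nat.add_mul_mod_self_left, Nat.mod_eq_of_lt hδ]
          have h5 : (δ + e * b) / e = b := by
            rw [Nat.add_mul_div_left _ _ he, Nat.div_eq_of_lt hδ, Nat.zero_add]
          have h6 : kap e (A + 1) (δ + e * b) = δ + kap e A b := by
            show (δ + e * b) % e + kap e A ((δ + e * b) / e) = _
            rw [h4, h5]
          refine ⟨⟨?_, by omega⟩, h4⟩
          have h7 := le_kap e (A + 1) (δ + e * b) he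
          have h8 : e ^ (A + 1) * (kap e (A + 1) (δ + e * b) + 1) ≤ e ^ (A + 1) * (d + 1) :=
            Nat.mul_le_mul_left _ (by omega)
          omega
      rw [h1, card_image_of_injective]
      intro b b' hb
      have hb' : δ + e * b = δ + e * b' := hb
      exact Nat.eq_of_mul_eq_mul_left he (Nat.add_left_cancel hb')
    · rw [card_eq_zero, filter_eq_empty_iff]
      intro a ha h2
      rw [mem_filter] at ha
      have h5 : kap e (A + 1) a = a % e + kap e A (a / e) := rfl
      omega

theorem kap_eq_zero (e A a : ℕ) (he : 1 ≤ e) (h : kap e A a = 0) : a = 0 := by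
  induction A generalizing a with
  | zero => exact h
  | succ A ih =>
    have h1 : a % e + kap e A (a / e) = 0 := h
    have h2 := ih (a / e) (by omega)
    have h3 := Nat.div_add_mod a e
    rw [h2] at h3
    omega

variable {R : ℕ}

/-- Substituting `x_u = x_{u'}^e`. -/
theorem cost_subS (e : ℕ) (he : 1 ≤ e) (u u' : Fin (R + 1)) (hu : u.val = u'.val + 1)
    (α : Fin (R + 1) → ℕ) :
    cost e u' (fun i => if i = u then 0 else if i = u' then α u' + e * α u else α i) ≤
      cost e u α := by
  have hne : u' ≠ u := by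
    intro h
    rw [h] at hu
    omega
  have hmem : u' ∈ univ.erase u := mem_erase.2 ⟨hne, mem_univ _⟩
  unfold cost
  rw [← add_sum_erase univ _ (mem_univ u), ← add_sum_erase (univ.erase u) _ hmem,
    ← add_sum_erase univ (fun i => if i = u then kap e (R - u.val) (α i) else α i) (mem_univ u),
    ← add_sum_erase (univ.erase u) (fun i => if i = u then kap e (R - u.val) (α i) else α i) hmem]
  have hrest : ∑ i ∈ (univ.erase u).erase u', (if i = u' then
      kap e (R - u'.val) (if i = u then 0 else if i = u' then α u' + e * α u else α i) else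
      (if i = u then 0 else if i = u' then α u' + e * α u else α i)) =
      ∑ i ∈ (univ.erase u).erase u', (if i = u then kap e (R - u.val) (α i) else α i) := by
    refine sum_congr rfl fun i hi => ?_
    rw [mem_erase, mem_erase] at hi
    rw [if_neg hi.1, if_neg hi.2.1, if_neg hi.1, if_neg hi.2.1]
  rw [hrest]
  simp only [if_neg hne, if_neg hne.symm, if_true]
  have hR : R - u'.val = (R - u.val) + 1 := by
    have := u.2
    omega
  rw [hR]
  have h1 := kap_mul_add e (R - u.val) (α u') (α u) he
  omega

/-- Substituting a constant for `x_v`. -/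
theorem cost_subH (e : ℕ) (u v : Fin (R + 1)) (hv : v ≠ u) (α : Fin (R + 1) → ℕ) :
    cost e u (Function.update α v 0) ≤ cost e u α := by
  unfold cost
  refine sum_le_sum fun i _ => ?_
  by_cases h : i = v
  · subst h
    rw [if_neg hv, if_neg hv, Function.update_self]
    exact Nat.zero_le _
  · rw [Function.update_of_ne h]

theorem cost_add_of_ne (e : ℕ) (u i : Fin (R + 1)) (hi : i ≠ u) (α : Fin (R + 1) → ℕ) (c : ℕ) :
    cost e u (Function.update α i (α i + c)) = cost e u α + c := by
  unfold cost
  rw [← add_sum_erase univ _ (mem_univ i),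
    ← add_sum_erase univ (fun j => if j = u then kap e (R - u.val) (α j) else α j) (mem_univ i)]
  rw [if_neg hi, if_neg hi, Function.update_self]
  have h : ∑ j ∈ univ.erase i, (if j = u then
      kap e (R - u.val) (Function.update α i (α i + c) j) else
      Function.update α i (α i + c) j) =
      ∑ j ∈ univ.erase i, (if j = u then kap e (R - u.val) (α j) else α j) := by
    refine sum_congr rfl fun j hj => ?_
    rw [Function.update_of_ne (mem_erase.1 hj).1]
  rw [h]
  omega

theorem cost_add_top (e : ℕ) (he : 1 ≤ e) (u : Fin (R + 1)) (α : Fin (R + 1) → ℕ) :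
    cost e u (Function.update α u (α u + 1)) ≤ cost e u α + 1 := by
  unfold cost
  rw [← add_sum_erase univ _ (mem_univ u),
    ← add_sum_erase univ (fun j => if j = u then kap e (R - u.val) (α j) else α j) (mem_univ u)]
  rw [if_pos rfl, if_pos rfl, Function.update_self]
  have h : ∑ j ∈ univ.erase u, (if j = u then
      kap e (R - u.val) (Function.update α u (α u + 1) j) else
      Function.update α u (α u + 1) j) =
      ∑ j ∈ univ.erase u, (if j = u then kap e (R - u.val) (α j) else α j) := by
    refine sum_congr rfl fun j hj => ?_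
    rw [Function.update_of_ne (mem_erase.1 hj).1]
  rw [h]
  have h1 := kap_succ_le e (R - u.val) (α u) he
  omega

theorem cost_ge_of_ne (e : ℕ) (u i : Fin (R + 1)) (hi : i ≠ u) (α : Fin (R + 1) → ℕ) :
    α i ≤ cost e u α := by
  have h := single_le_sum (f := fun j => if j = u then kap e (R - u.val) (α j) else α j)
    (fun j _ => Nat.zero_le _) (mem_univ i)
  simp only [if_neg hi] at h
  exact h

theorem cost_ge_top (e : ℕ) (u : Fin (R + 1)) (α : Fin (R + 1) → ℕ) :
    kap e (R - u.val) (α u) ≤ cost e u α := by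
  have h := single_le_sum (f := fun j => if j = u then kap e (R - u.val) (α j) else α j)
    (fun j _ => Nat.zero_le _) (mem_univ u)
  simp only [if_true] at h
  exact h

theorem le_cost (e : ℕ) (he : 1 ≤ e) (u : Fin (R + 1)) (α : Fin (R + 1) → ℕ) (i : Fin (R + 1)) :
    α i + 1 ≤ e ^ R * (cost e u α + 1) := by
  by_cases h : i = u
  · subst h
    have h1 := le_kap e (R - i.val) (α i) he
    have h2 := cost_ge_top e i α
    refine h1.trans (Nat.mul_le_mul (Nat.pow_le_pow_right he (Nat.sub_le _ _)) (by omega))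
  · have h1 := cost_ge_of_ne e u i h α
    have h2 : 1 ≤ e ^ R := Nat.one_le_pow _ _ he
    calc α i + 1 ≤ 1 * (cost e u α + 1) := by omega
      _ ≤ e ^ R * (cost e u α + 1) := Nat.mul_le_mul_right _ h2

theorem cost_eq_zero (e : ℕ) (he : 1 ≤ e) (u : Fin (R + 1)) (α : Fin (R + 1) → ℕ)
    (h : cost e u α = 0) : α = 0 := by
  funext i
  by_cases hi : i = u
  · subst hi
    have h1 := cost_ge_top e i α
    exact kap_eq_zero e (R - i.val) _ he (by omega)
  · have h1 := cost_ge_of_ne e u i hi α
    show α i = 0
    omega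

/-- For the top level the cost is the degree. -/
theorem cost_last (e : ℕ) (u : Fin (R + 1)) (hu : u.val = R) (α : Fin (R + 1) → ℕ) :
    cost e u α = ∑ i, α i := by
  unfold cost
  refine sum_congr rfl fun i _ => ?_
  rw [hu, Nat.sub_self]
  show (if i = u then α i else α i) = α i
  rw [ite_self]

end Pool.Agent.H18.Pr

end

section

/-!
# Module UDeh (UA): dehomogenisation
-/

namespace Pool.Agent.H18.Ua

open Finset Pool.Agent.H18.Ex Pool.Agent.H18.Cub Pool.Agent.H18.Fat

variable {r : ℕ}

/-- `F(X_0, …, X_r) ↦ F(1, x_0, …, x_{r - 1})`. -/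
noncomputable def dehA (r : ℕ) :
    MvPolynomial (Fin (r + 1)) ℂ →ₐ[ℂ] MvPolynomial (Fin r) ℂ :=
  MvPolynomial.aeval (Fin.cons 1 MvPolynomial.X)

/-- The exponent of the dehomogenised monomial. -/
private noncomputable def dexp (s : Fin (r + 1) →₀ ℕ) : Fin r →₀ ℕ :=
  Finsupp.equivFunOnFinite.symm fun i => s i.succ

private theorem dehA_monomial (s : Fin (r + 1) →₀ ℕ) (c : ℂ) :
    dehA r (MvPolynomial.monomial s c) = MvPolynomial.monomial (dexp s) c := by
  rw [dehA, MvPolynomial.aeval_monomial, Finsupp.prod_fintype _ _ (fun i => pow_zero _),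
    Fin.prod_univ_succ, MvPolynomial.monomial_eq,
    Finsupp.prod_fintype _ _ (fun i => pow_zero _), MvPolynomial.algebraMap_eq]
  simp [dexp]

private theorem dehA_eq (F : MvPolynomial (Fin (r + 1)) ℂ) :
    dehA r F = ∑ s ∈ F.support, MvPolynomial.monomial (dexp s) (F.coeff s) := by
  conv_lhs => rw [F.as_sum]
  rw [map_sum]
  exact sum_congr rfl fun s _ => dehA_monomial s _

private theorem dexp_degree {d : ℕ} {F : MvPolynomial (Fin (r + 1)) ℂ} (hF : F.IsHomogeneous d)
    {s : Fin (r + 1) →₀ ℕ} (hs : F.coeff s ≠ 0) : s 0 + ∑ i, dexp s i = d := by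
  have h1 := hF hs
  rw [← h1, Finsupp.weight_apply, Finsupp.sum_fintype _ _ (fun i => by simp),
    Fin.sum_univ_succ]
  simp [dexp]

theorem dehA_degree (F : MvPolynomial (Fin (r + 1)) ℂ) (δ : ℕ) (hF : F.IsHomogeneous δ) :
    (dehA r F).totalDegree ≤ δ := by
  rw [dehA_eq]
  refine (MvPolynomial.totalDegree_finsetSum _ _).trans ?_
  refine Finset.sup_le fun s hs => ?_
  refine (MvPolynomial.totalDegree_monomial_le _ _).trans ?_
  have h1 := dexp_degree hF (MvPolynomial.mem_support_iff.1 hs)
  rw [Finsupp.sum_fintype _ _ (fun i => rfl)]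
  change ∑ i, dexp s i ≤ δ
  omega

theorem dehA_injective (F : MvPolynomial (Fin (r + 1)) ℂ) (δ : ℕ) (hF : F.IsHomogeneous δ)
    (h : dehA r F = 0) : F = 0 := by
  by_contra hne
  obtain ⟨s, hs⟩ := MvPolynomial.ne_zero_iff.1 hne
  have h1 : (dehA r F).coeff (dexp s) = F.coeff s := by
    rw [dehA_eq, MvPolynomial.coeff_sum, sum_eq_single s]
    · rw [MvPolynomial.coeff_monomial, if_pos rfl]
    · intro t ht hts
      rw [MvPolynomial.coeff_monomial, if_neg]
      intro heq
      apply hts
      have h2 := dexp_degree hF (MvPolynomial.mem_support_iff.1 ht)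
      have h3 := dexp_degree hF hs
      rw [heq] at h2
      ext i
      refine Fin.cases ?_ (fun i => ?_) i
      · omega
      · have h4 := DFunLike.congr_fun heq i
        simpa [dexp] using h4
    · intro hns
      exact absurd (MvPolynomial.mem_support_iff.2 hs) hns
  rw [h, MvPolynomial.coeff_zero] at h1
  exact hs h1.symm

/-- The exponent of the homogenised monomial. -/
private noncomputable def hexp (δ : ℕ) (s : Fin r →₀ ℕ) : Fin (r + 1) →₀ ℕ :=
  Finsupp.equivFunOnFinite.symm (Fin.cons (δ - ∑ i, s i) fun i => s i)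

private theorem dexp_hexp (δ : ℕ) (s : Fin r →₀ ℕ) : dexp (hexp δ s) = s := by
  ext i
  simp [dexp, hexp]

theorem dehA_surjective (f : MvPolynomial (Fin r) ℂ) (δ : ℕ) (hf : f.totalDegree ≤ δ) :
    ∃ F : MvPolynomial (Fin (r + 1)) ℂ, F.IsHomogeneous δ ∧ dehA r F = f := by
  refine ⟨∑ s ∈ f.support, MvPolynomial.monomial (hexp δ s) (f.coeff s), ?_, ?_⟩
  · apply MvPolynomial.IsHomogeneous.sum
    intro s hs
    apply MvPolynomial.isHomogeneous_monomial
    have h1 := MvPolynomial.le_totalDegree hs
    rw [Finsupp.sum_fintype _ _ (fun i => rfl)] at h1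
    change ∑ i, s i ≤ f.totalDegree at h1
    rw [Finsupp.degree_eq_sum, Fin.sum_univ_succ]
    simp only [hexp, Finsupp.equivFunOnFinite_symm_apply_apply, Fin.cons_zero, Fin.cons_succ]
    omega
  · rw [map_sum]
    conv_rhs => rw [f.as_sum]
    refine sum_congr rfl fun s _ => ?_
    rw [dehA_monomial, dexp_hexp]

/-- As `deh_vanish` in `Pool.Agent.H18.Cub.Trans`. -/
theorem dehA_vanish (F : MvPolynomial (Fin (r + 1)) ℂ) (P : Fin r → ℂ) (m : ℕ)
    (h : VanishesToOrder F (Fin.cons 1 P) m) (β : Fin r → ℕ) (hβ : ∑ i, β i < m) :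
    tay (dehA r F) P β = 0 := by
  rw [vanishesToOrder_iff_mem_ideal_pow] at h
  set J : Ideal (MvPolynomial (Fin r) ℂ) := Ideal.span (Set.range fun j =>
    (MvPolynomial.X j - MvPolynomial.C (P j) : MvPolynomial (Fin r) ℂ)) with hJ
  have hC : ∀ c : ℂ, dehA r (MvPolynomial.C c) = MvPolynomial.C c := fun c => (dehA r).commutes c
  have hle : Ideal.map (dehA r) (Ideal.span (Set.range fun j =>
      (MvPolynomial.X j - MvPolynomial.C ((Fin.cons 1 P : Fin (r + 1) → ℂ) j) :
        MvPolynomial (Fin (r + 1)) ℂ))) ≤ J := by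
    rw [Ideal.map_span, Ideal.span_le]
    rintro _ ⟨_, ⟨j, rfl⟩, rfl⟩
    refine Fin.cases ?_ (fun i => ?_) j
    · have h0 : dehA r (MvPolynomial.X 0 - MvPolynomial.C 1) = 0 := by
        rw [map_sub, hC]
        simp [dehA]
      change dehA r (MvPolynomial.X 0 - MvPolynomial.C 1) ∈ J
      rw [h0]
      exact J.zero_mem
    · have h0 : dehA r (MvPolynomial.X i.succ - MvPolynomial.C (P i)) =
          MvPolynomial.X i - MvPolynomial.C (P i) := by
        rw [map_sub, hC]
        simp [dehA]
      change dehA r (MvPolynomial.X i.succ - MvPolynomial.C (P i)) ∈ J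
      rw [h0]
      exact Ideal.subset_span ⟨i, rfl⟩
  have h1 : dehA r F ∈ J ^ m := by
    have h2 := Ideal.mem_map_of_mem (dehA r) h
    rw [Ideal.map_pow] at h2
    exact Ideal.pow_right_mono hle m h2
  have h2 : VanishesToOrder (dehA r F) P m := by
    rw [vanishesToOrder_iff_mem_ideal_pow]
    exact h1
  refine h2 (Finsupp.equivFunOnFinite.symm β) ?_
  rw [Finsupp.degree_eq_sum]
  simpa using hβ

private theorem coeff_zero_shift {n : ℕ} (L : MvPolynomial (Fin n) ℂ) (q : Fin n → ℂ) :
    MvPolynomial.coeff 0 (shift q L) = MvPolynomial.eval q L := by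
  rw [← MvPolynomial.constantCoeff_eq, shift]
  induction L using MvPolynomial.induction_on with
  | C a => simp
  | add p q hp hq => rw [map_add, map_add, hp, hq, map_add]
  | mul_X p i hp =>
    rw [map_mul, map_mul, hp, map_mul, MvPolynomial.aeval_X]
    simp

/-- Units may be cancelled. -/
theorem vanishes_of_mul {n : ℕ} (L F : MvPolynomial (Fin n) ℂ) (q : Fin n → ℂ) (m : ℕ)
    (hL : MvPolynomial.eval q L ≠ 0) (h : VanishesToOrder (L * F) q m) :
    VanishesToOrder F q m := by
  have hmul : shift q (L * F) = shift q L * shift q F := by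
    rw [shift, shift, shift, map_mul]
  have key : ∀ k : ℕ, ∀ β : Fin n →₀ ℕ, β.degree = k → β.degree < m →
      MvPolynomial.coeff β (shift q F) = 0 := by
    intro k
    induction k using Nat.strong_induction_on with
    | _ k ih =>
      intro β hk hβ
      have h1 := h β hβ
      rw [hmul, MvPolynomial.coeff_mul, Finset.sum_eq_single (0, β)] at h1
      · rw [coeff_zero_shift] at h1
        exact (mul_eq_zero.1 h1).resolve_left hL
      · rintro ⟨a, b⟩ hab hne
        rw [Finset.HasAntidiagonal.mem_antidiagonal] at hab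
        have hab' : a + b = β := hab
        have hdeg : a.degree + b.degree = β.degree := by
          rw [← hab', map_add]
        have ha : a ≠ 0 := by
          intro h0
          apply hne
          rw [h0, zero_add] at hab'
          rw [h0, hab']
        have ha' : 0 < a.degree := by
          rw [Nat.pos_iff_ne_zero, Ne, Finsupp.degree_eq_zero_iff]
          exact ha
        have hb : MvPolynomial.coeff b (shift q F) = 0 :=
          ih b.degree (by omega) b rfl (by omega)
        simp only
        rw [hb, mul_zero]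
      · intro hn
        exact absurd (Finset.HasAntidiagonal.mem_antidiagonal.2 (zero_add β)) hn
  exact fun β hβ => key _ β rfl hβ

theorem vanishes_mul {n : ℕ} (L F : MvPolynomial (Fin n) ℂ) (q : Fin n → ℂ) (m : ℕ)
    (h : VanishesToOrder F q m) : VanishesToOrder (L * F) q m := by
  rw [vanishesToOrder_iff_mem_ideal_pow] at h ⊢
  exact Ideal.mul_mem_left _ _ h

/-- Homogeneous coordinates may be scaled. -/
theorem vanishes_smul {n : ℕ} (F : MvPolynomial (Fin n) ℂ) (δ : ℕ) (hF : F.IsHomogeneous δ)
    (q : Fin n → ℂ) (c : ℂ) (hc : c ≠ 0) (m : ℕ) (h : VanishesToOrder F q m) :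
    VanishesToOrder F (c • q) m := by
  rw [vanishesToOrder_iff_mem_ideal_pow] at h ⊢
  set φ : MvPolynomial (Fin n) ℂ →ₐ[ℂ] MvPolynomial (Fin n) ℂ :=
    MvPolynomial.aeval (fun j => MvPolynomial.C c⁻¹ * MvPolynomial.X j) with hφ
  have hC : ∀ c : ℂ, φ (MvPolynomial.C c) = MvPolynomial.C c := fun c => φ.commutes c
  have hle : Ideal.map φ (Ideal.span (Set.range fun j =>
      (MvPolynomial.X j - MvPolynomial.C (q j) : MvPolynomial (Fin n) ℂ))) ≤
      Ideal.span (Set.range fun j =>
      (MvPolynomial.X j - MvPolynomial.C ((c • q) j) : MvPolynomial (Fin n) ℂ)) := by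
    rw [Ideal.map_span, Ideal.span_le]
    rintro _ ⟨_, ⟨j, rfl⟩, rfl⟩
    have h0 : φ (MvPolynomial.X j - MvPolynomial.C (q j)) =
        MvPolynomial.C c⁻¹ * (MvPolynomial.X j - MvPolynomial.C ((c • q) j)) := by
      rw [map_sub, hC, hφ, MvPolynomial.aeval_X, mul_sub, ← MvPolynomial.C_mul, Pi.smul_apply,
        smul_eq_mul, inv_mul_cancel_left₀ hc]
    change φ (MvPolynomial.X j - MvPolynomial.C (q j)) ∈ _
    rw [h0]
    exact Ideal.mul_mem_left _ _ (Ideal.subset_span ⟨j, rfl⟩)
  have h1 := Ideal.mem_map_of_mem φ h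
  rw [Ideal.map_pow] at h1
  have h2 := Ideal.pow_right_mono hle m h1
  have h3 : φ F = MvPolynomial.C (c⁻¹ ^ δ) * F := by
    conv_lhs => rw [F.as_sum]
    conv_rhs => rw [F.as_sum]
    rw [map_sum, Finset.mul_sum]
    refine Finset.sum_congr rfl fun s hs => ?_
    have hd : s.degree = δ := by
      have h5 := hF (MvPolynomial.mem_support_iff.1 hs)
      rw [← h5, Finsupp.weight_apply, Finsupp.sum_fintype _ _ (fun i => by simp),
        Finsupp.degree_eq_sum]
      simp
    rw [hφ, MvPolynomial.aeval_monomial, MvPolynomial.monomial_eq]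
    have h6 : (s.prod fun i k => (MvPolynomial.C c⁻¹ * MvPolynomial.X i :
        MvPolynomial (Fin n) ℂ) ^ k) =
        MvPolynomial.C (c⁻¹ ^ δ) * s.prod fun i k => (MvPolynomial.X i :
          MvPolynomial (Fin n) ℂ) ^ k := by
      simp only [mul_pow]
      rw [Finsupp.prod_mul]
      congr 1
      rw [Finsupp.prod_fintype _ _ (fun i => pow_zero _), Finset.prod_pow_eq_pow_sum,
        ← Finsupp.degree_eq_sum, hd, ← map_pow]
    rw [h6, MvPolynomial.algebraMap_eq]
    ring
  rw [h3] at h2
  have h4 := Ideal.mul_mem_left _ (MvPolynomial.C (c ^ δ)) h2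
  rw [← mul_assoc, ← MvPolynomial.C_mul, ← mul_pow, mul_inv_cancel₀ hc, one_pow, map_one,
    one_mul] at h4
  exact h4

end Pool.Agent.H18.Ua

end
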