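import Pool.Agent.H94.LP4.H18.Ub.VDim
import Pool.Agent.H94.LP4.M06
import Pool.Agent.H94.LP4.M08
import Pool.Agent.H94.LP4.M20
import Pool.Agent.H94.LP4.M21

/-! The parts of this file: H18.Pr.TransR, H74.BP.Dec, H74.CT.Mul. -/

section

/-!
# Module TransR (PR): forms in `R + 2` variables and polynomials in `z_0, …, z_R`

Compare with `Pool.Agent.H18.Cub.Trans` (the case `R = 1`).
-/

namespace Pool.Agent.H18.Pr

open Finset Pool.Agent.H18.Ex Pool.Agent.H18.Cub Pool.Agent.H18.Fat

variable {R : ℕ}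

/-- The coordinates `x_k` as polynomials in `z`: `x_0 = z_0`, `x_{k+1} = z_{k+1} + x_k^e`. -/
noncomputable def yyN (R e : ℕ) : ℕ → MvPolynomial (Fin (R + 1)) ℂ
  | 0 => MvPolynomial.X 0
  | k + 1 => (if h : k + 1 < R + 1 then MvPolynomial.X ⟨k + 1, h⟩ else 0) + yyN R e k ^ e

/-- The coordinates `x_k` of the point `z`. -/
noncomputable def phN (R e : ℕ) (z : Fin (R + 1) → ℂ) : ℕ → ℂ
  | 0 => z 0
  | k + 1 => (if h : k + 1 < R + 1 then z ⟨k + 1, h⟩ else 0) + phN R e z k ^ e

/-- `F(X_0, …, X_{R+1}) ↦ F(1, x_0, …, x_R)`, as a polynomial in `z`. -/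
noncomputable def deR (R e : ℕ) :
    MvPolynomial (Fin (R + 1 + 1)) ℂ →ₐ[ℂ] MvPolynomial (Fin (R + 1)) ℂ :=
  MvPolynomial.aeval (Fin.cons 1 fun i : Fin (R + 1) => yyN R e i.val)

/-- The coordinate `x_k` of a point differs from its value by an element of the ideal of the
point. -/
theorem transR_yyN_mem (e : ℕ) (z : Fin (R + 1) → ℂ) (k : ℕ) :
    yyN R e k - MvPolynomial.C (phN R e z k) ∈ (Ideal.span (Set.range fun j =>
      (MvPolynomial.X j - MvPolynomial.C (z j) : MvPolynomial (Fin (R + 1)) ℂ))) := by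
  induction k with
  | zero => exact Ideal.subset_span ⟨0, rfl⟩
  | succ k ih =>
    by_cases h : k + 1 < R + 1
    · have h0 : yyN R e (k + 1) - MvPolynomial.C (phN R e z (k + 1)) =
          (MvPolynomial.X ⟨k + 1, h⟩ - MvPolynomial.C (z ⟨k + 1, h⟩)) +
            (yyN R e k ^ e - MvPolynomial.C (phN R e z k) ^ e) := by
        simp only [yyN, phN, dif_pos h, map_add, map_pow]
        ring
      rw [h0]
      exact Ideal.add_mem _ (Ideal.subset_span ⟨⟨k + 1, h⟩, rfl⟩)
        (Ideal.mem_of_dvd _ (sub_dvd_pow_sub_pow _ _ e) ih)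
    · have h0 : yyN R e (k + 1) - MvPolynomial.C (phN R e z (k + 1)) =
          yyN R e k ^ e - MvPolynomial.C (phN R e z k) ^ e := by
        simp only [yyN, phN, dif_neg h, map_add, map_pow, map_zero]
        ring
      rw [h0]
      exact Ideal.mem_of_dvd _ (sub_dvd_pow_sub_pow _ _ e) ih

/-- Orders of vanishing (use `vanishesToOrder_iff_mem_ideal_pow`, as in `deh_vanish`). -/
theorem deR_vanish (e : ℕ) (F : MvPolynomial (Fin (R + 1 + 1)) ℂ) (z : Fin (R + 1) → ℂ) (m : ℕ)
    (h : VanishesToOrder F (Fin.cons 1 fun i : Fin (R + 1) => phN R e z i.val) m)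
    (α : Fin (R + 1) → ℕ) (hα : ∑ i, α i < m) : tay (deR R e F) z α = 0 := by
  rw [vanishesToOrder_iff_mem_ideal_pow] at h
  set J : Ideal (MvPolynomial (Fin (R + 1)) ℂ) := Ideal.span (Set.range fun j =>
    (MvPolynomial.X j - MvPolynomial.C (z j) : MvPolynomial (Fin (R + 1)) ℂ)) with hJ
  have hC : ∀ c : ℂ, deR R e (MvPolynomial.C c) = MvPolynomial.C c := fun c => (deR R e).commutes c
  have hle : Ideal.map (deR R e) (Ideal.span (Set.range fun j =>
      (MvPolynomial.X j - MvPolynomial.C ((Fin.cons 1 fun i : Fin (R + 1) => phN R e z i.val :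
        Fin (R + 1 + 1) → ℂ) j) : MvPolynomial (Fin (R + 1 + 1)) ℂ))) ≤ J := by
    rw [Ideal.map_span, Ideal.span_le]
    rintro _ ⟨_, ⟨j, rfl⟩, rfl⟩
    refine Fin.cases ?_ (fun i => ?_) j
    · have h0 : deR R e (MvPolynomial.X 0 - MvPolynomial.C 1) = 0 := by
        rw [map_sub, hC]
        simp [deR]
      change deR R e (MvPolynomial.X 0 - MvPolynomial.C 1) ∈ J
      rw [h0]
      exact J.zero_mem
    · have h0 : deR R e (MvPolynomial.X i.succ - MvPolynomial.C (phN R e z i.val)) =
          yyN R e i.val - MvPolynomial.C (phN R e z i.val) := by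
        rw [map_sub, hC]
        simp [deR]
      change deR R e (MvPolynomial.X i.succ - MvPolynomial.C (phN R e z i.val)) ∈ J
      rw [h0]
      exact transR_yyN_mem e z i.val
  have h1 : deR R e F ∈ J ^ m := by
    have h2 := Ideal.mem_map_of_mem (deR R e) h
    rw [Ideal.map_pow] at h2
    exact Ideal.pow_right_mono hle m h2
  have h2 : VanishesToOrder (deR R e F) z m := by
    rw [vanishesToOrder_iff_mem_ideal_pow]
    exact h1
  refine h2 (Finsupp.equivFunOnFinite.symm α) ?_
  rw [Finsupp.degree_eq_sum]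
  simpa using hα

/-- `F(1, x_0, …, x_R)`. -/
noncomputable def transR_one (R : ℕ) :
    MvPolynomial (Fin (R + 1 + 1)) ℂ →ₐ[ℂ] MvPolynomial (Fin (R + 1)) ℂ :=
  MvPolynomial.aeval (Fin.cons 1 fun i : Fin (R + 1) => MvPolynomial.X i)

theorem transR_Th_yyN (e : ℕ) (u : Fin (R + 1)) (hu : u.val = R) (k : ℕ) (hk : k < R + 1) :
    Th e 0 u 0 (yyN R e k) = MvPolynomial.X ⟨k, hk⟩ := by
  induction k with
  | zero => simp [yyN, Th]
  | succ k ih =>
    have h1 : Th e 0 u 0 (yyN R e (k + 1)) =
        Th e 0 u 0 (MvPolynomial.X ⟨k + 1, hk⟩) + Th e 0 u 0 (yyN R e k) ^ e := by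
      rw [← map_pow, ← map_add]
      simp only [yyN, dif_pos hk]
    rw [h1, ih (by omega)]
    have h2 : Th e 0 u 0 (MvPolynomial.X (⟨k + 1, hk⟩ : Fin (R + 1))) =
        MvPolynomial.X ⟨k + 1, hk⟩ - MvPolynomial.X ⟨k, by omega⟩ ^ e := by
      simp only [Th, MvPolynomial.aeval_X]
      rw [if_neg, if_pos]
      · rfl
      · constructor
        · rw [Fin.lt_def]
          simp
        · rw [Fin.le_def]
          simp only
          omega
      · intro h
        have := congrArg Fin.val h
        simp at this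
    rw [h2]
    ring

theorem transR_Th_deR (e : ℕ) (u : Fin (R + 1)) (hu : u.val = R)
    (F : MvPolynomial (Fin (R + 1 + 1)) ℂ) : Th e 0 u 0 (deR R e F) = transR_one R F := by
  have h : (Th e 0 u 0).comp (deR R e) = transR_one R := by
    refine MvPolynomial.algHom_ext (fun i => ?_)
    refine Fin.cases ?_ (fun i => ?_) i
    · simp [deR, transR_one]
    · simp only [AlgHom.comp_apply, deR, transR_one, MvPolynomial.aeval_X, Fin.cons_succ]
      exact transR_Th_yyN e u hu i.val i.isLt
  exact congrArg (fun φ : MvPolynomial (Fin (R + 1 + 1)) ℂ →ₐ[ℂ] MvPolynomial (Fin (R + 1)) ℂ =>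
    φ F) h

/-- The exponent of the dehomogenised monomial. -/
noncomputable def transR_exp (s : Fin (R + 1 + 1) →₀ ℕ) : Fin (R + 1) →₀ ℕ :=
  Finsupp.equivFunOnFinite.symm fun i => s i.succ

theorem transR_one_monomial (s : Fin (R + 1 + 1) →₀ ℕ) (c : ℂ) :
    transR_one R (MvPolynomial.monomial s c) = MvPolynomial.monomial (transR_exp s) c := by
  rw [transR_one, MvPolynomial.aeval_monomial, Finsupp.prod_fintype _ _ (fun i => pow_zero _),
    Fin.prod_univ_succ, MvPolynomial.monomial_eq,
    Finsupp.prod_fintype _ _ (fun i => pow_zero _), MvPolynomial.algebraMap_eq]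
  simp [transR_exp]

theorem transR_one_eq (F : MvPolynomial (Fin (R + 1 + 1)) ℂ) :
    transR_one R F = ∑ s ∈ F.support, MvPolynomial.monomial (transR_exp s) (F.coeff s) := by
  conv_lhs => rw [F.as_sum]
  rw [map_sum]
  exact sum_congr rfl fun s _ => transR_one_monomial s _

theorem transR_degree {d : ℕ} {F : MvPolynomial (Fin (R + 1 + 1)) ℂ} (hF : F.IsHomogeneous d)
    {s : Fin (R + 1 + 1) →₀ ℕ} (hs : F.coeff s ≠ 0) : s 0 + ∑ i, transR_exp s i = d := by
  have h1 := hF hs
  rw [← h1, Finsupp.weight_apply, Finsupp.sum_fintype _ _ (fun i => by simp),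
    Fin.sum_univ_succ (n := R + 1)]
  simp [transR_exp]

/-- The degree: `Th e 0 u 0 (deR R e F) = F(1, x_0, …, x_R)` for `u = R`; use `cost_last`. -/
theorem deR_cost (e d : ℕ) (u : Fin (R + 1)) (hu : u.val = R)
    (F : MvPolynomial (Fin (R + 1 + 1)) ℂ) (hF : F.IsHomogeneous d) :
    ∀ α : Fin (R + 1) →₀ ℕ, α ∈ (Th e 0 u 0 (deR R e F)).support → cost e u α ≤ d := by
  intro α hα
  rw [transR_Th_deR e u hu, transR_one_eq] at hα
  have h1 := MvPolynomial.support_sum hα
  obtain ⟨s, hs, h2⟩ := mem_biUnion.1 h1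
  have h3 := MvPolynomial.support_monomial_subset h2
  rw [mem_singleton] at h3
  subst h3
  rw [cost_last e u hu]
  have h4 := transR_degree hF (MvPolynomial.mem_support_iff.1 hs)
  omega

theorem deR_injective (e d : ℕ) (F : MvPolynomial (Fin (R + 1 + 1)) ℂ) (hF : F.IsHomogeneous d)
    (h : deR R e F = 0) : F = 0 := by
  have h0 : transR_one R F = 0 := by
    rw [← transR_Th_deR e (Fin.last R) rfl, h, map_zero]
  by_contra hne
  obtain ⟨s, hs⟩ := MvPolynomial.ne_zero_iff.1 hne
  have h1 : (transR_one R F).coeff (transR_exp s) = F.coeff s := by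
    rw [transR_one_eq, MvPolynomial.coeff_sum, sum_eq_single s]
    · rw [MvPolynomial.coeff_monomial, if_pos rfl]
    · intro t ht hts
      rw [MvPolynomial.coeff_monomial, if_neg]
      intro heq
      apply hts
      have h2 := transR_degree hF (MvPolynomial.mem_support_iff.1 ht)
      have h3 := transR_degree hF hs
      rw [heq] at h2
      ext i
      refine Fin.cases ?_ (fun i => ?_) i
      · omega
      · have h4 := DFunLike.congr_fun heq i
        simpa [transR_exp] using h4
    · intro hns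
      exact absurd (MvPolynomial.mem_support_iff.2 hs) hns
  rw [h0, MvPolynomial.coeff_zero] at h1
  exact hs h1.symm

end Pool.Agent.H18.Pr

end

section

/-!
# The large part decides, with points of medium multiplicity

`J` is any set of the points, `μ` bounds the multiplicities outside `J`.
-/

namespace Pool.Agent.H74.BP

open Finset Pool.Agent.H18.Fat Pool.Agent.H18.Ub

/-- The number of the conditions of the points of `A`. -/
def len (r : ℕ) {k : ℕ} (m : Fin k → ℕ) (A : Finset (Fin k)) : ℕ := ∑ i ∈ A, (m i + r - 1).choose r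

/-- The points outside `J` impose maximal conditions. -/
def Max (r d : ℕ) {k : ℕ} (m : Fin k → ℕ) (J : Finset (Fin k)) : Prop :=
  ForGeneralPoints r k fun p => (Module.finrank ℂ (fatForms r d p m) : ℤ) =
    max 0 (((generalDim r d fun i => if i ∈ J then m i else 0) : ℤ) -
      len r m (univ.filter fun i => i ∉ J))

theorem len_cast (r : ℕ) {k : ℕ} (m : Fin k → ℕ) (A : Finset (Fin k)) :
    ((len r m A : ℕ) : ℤ) = ∑ i ∈ A, ((m i + r - 1).choose r : ℤ) := by
  unfold len
  push_cast
  rfl

theorem len_split (r : ℕ) {k : ℕ} (m : Fin k → ℕ) {J L : Finset (Fin k)} (h : J ⊆ L) :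
    len r m (univ.filter fun i => i ∉ J) =
      len r m (L \ J) + len r m (univ.filter fun i => i ∉ L) := by
  classical
  unfold len
  rw [← sum_union]
  · refine sum_congr ?_ fun _ _ => rfl
    ext i
    rw [mem_filter, mem_union, mem_sdiff, mem_filter]
    have := @h i
    have := mem_univ i
    tauto
  · rw [disjoint_left]
    intro i hi1 hi2
    rw [mem_sdiff] at hi1
    rw [mem_filter] at hi2
    exact hi2.2 hi1.1

/-- The points of `J` and the points with multiplicity more than `M`. -/
def med {k : ℕ} (M : ℕ) (m : Fin k → ℕ) (J : Finset (Fin k)) : Finset (Fin k) :=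
  J ∪ univ.filter fun i => M < m i

theorem med_sub {k : ℕ} (M : ℕ) (m : Fin k → ℕ) (J : Finset (Fin k)) : J ⊆ med M m J :=
  subset_union_left

theorem med_le {k M : ℕ} {m : Fin k → ℕ} {J : Finset (Fin k)} {i : Fin k}
    (hi : i ∉ med M m J) : m i ≤ M := by
  unfold med at hi
  rw [mem_union, mem_filter] at hi
  by_contra hcon
  exact hi (Or.inr ⟨mem_univ i, by omega⟩)

theorem med_sdiff {k M : ℕ} {m : Fin k → ℕ} {J : Finset (Fin k)} :
    med M m J \ J = univ.filter fun i => i ∉ J ∧ M < m i := by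
  unfold med
  ext i
  rw [mem_sdiff, mem_union, mem_filter, mem_filter]
  have := mem_univ i
  tauto

end Pool.Agent.H74.BP

end

section

/-!
# Multiplication by a fixed form
-/

namespace Pool.Agent.H74.CT

open MvPolynomial Pool.Agent.H18.Fat Pool.Agent.H22.LU

theorem mult_stage {r t j e : ℕ} {ι : Type*} (p : ι → Fin (r + 1) → ℂ) (P : ι)
    {G : MvPolynomial (Fin (r + 1)) ℂ} (hG : G.IsHomogeneous e) (hj : e + t = j) (μ : ℕ)
    (hP : VanishesToOrder G (p P) μ) (hPn : ¬ VanishesToOrder G (p P) (μ + 1))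
    (w w' m m' : ι → ℕ) (hw : ∀ l, l ≠ P → w l = w' l) (hwP : w' P = w P + 1)
    (hm : ∀ l, l ≠ P → m l = m' l) (hmP : m' P = m P + 1) (hmw : m P = w P + μ)
    (hGl : ∀ l, l ≠ P → VanishesToOrder G (p l) (m l - w l)) :
    Module.finrank ℂ (fatForms r j p m') + Module.finrank ℂ (fatForms r t p w) ≤
      Module.finrank ℂ (fatForms r j p m) + Module.finrank ℂ (fatForms r t p w') := by
  have i1 := fin_fatForms r j p m
  have i2 := fin_fatForms r j p m'
  have i3 := fin_fatForms r t p w
  have i4 := fin_fatForms r t p w'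
  have hGR : ∀ R ∈ fatForms r t p w, G * R ∈ fatForms r j p m := by
    intro R hR
    refine ⟨hj ▸ hG.mul hR.1, fun l => ?_⟩
    by_cases hl : l = P
    · subst hl
      refine van_mono (van_mul hP (hR.2 l)) ?_
      omega
    · refine van_mono (van_mul (hGl l hl) (hR.2 l)) ?_
      omega
  have hle : fatForms r j p m' ≤ fatForms r j p m := by
    intro F hF
    refine ⟨hF.1, fun l => van_mono (hF.2 l) ?_⟩
    by_cases hl : l = P
    · subst hl
      omega
    · rw [hm l hl]
  let f : (fatForms r t p w × fatForms r j p m') →ₗ[ℂ] fatForms r j p m :=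
    { toFun := fun x => ⟨G * x.1.1 + x.2.1, (fatForms r j p m).add_mem
        (hGR _ x.1.2) (hle x.2.2)⟩
      map_add' := by
        intro x y
        apply Subtype.ext
        simp only [Prod.fst_add, Prod.snd_add, Submodule.coe_add, mul_add]
        abel
      map_smul' := by
        intro c x
        apply Subtype.ext
        simp only [Prod.smul_fst, Prod.smul_snd, Submodule.coe_smul, RingHom.id_apply, smul_add,
          mul_smul_comm] }
  have hker : ∀ x ∈ LinearMap.ker f, x.1.1 ∈ fatForms r t p w' := by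
    intro x hx
    rw [LinearMap.mem_ker] at hx
    have h1 : G * x.1.1 + x.2.1 = 0 := congrArg Subtype.val hx
    have h2 : G * x.1.1 = -x.2.1 := eq_neg_of_add_eq_zero_left h1
    refine ⟨x.1.2.1, fun l => ?_⟩
    by_cases hl : l = P
    · subst hl
      have h3 := ((fatForms r j p m').neg_mem x.2.2).2 l
      rw [← h2] at h3
      have h4 := vanishes_of_mul hPn h3
      refine van_mono h4 ?_
      omega
    · rw [← hw l hl]
      exact x.1.2.2 l
  let g : LinearMap.ker f →ₗ[ℂ] fatForms r t p w' :=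
    { toFun := fun x => ⟨x.1.1.1, hker x.1 x.2⟩
      map_add' := fun x y => rfl
      map_smul' := fun c x => rfl }
  have hg : Function.Injective g := by
    intro x y hxy
    have h1 : x.1.1.1 = y.1.1.1 := by
      have h0 : (g x).1 = (g y).1 := by rw [hxy]
      exact h0
    have h2 : G * x.1.1.1 + x.1.2.1 = 0 := by
      have h0 : (f x.1).1 = 0 := by
        rw [LinearMap.mem_ker.1 x.2]
        rfl
      exact h0
    have h3 : G * y.1.1.1 + y.1.2.1 = 0 := by
      have h0 : (f y.1).1 = 0 := by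
        rw [LinearMap.mem_ker.1 y.2]
        rfl
      exact h0
    rw [h1, ← h3] at h2
    have h4 : x.1.2.1 = y.1.2.1 := add_left_cancel h2
    apply Subtype.ext
    apply Prod.ext
    · exact Subtype.ext h1
    · exact Subtype.ext h4
  have h1 := LinearMap.finrank_le_finrank_of_injective hg
  have h2 := LinearMap.finrank_range_add_finrank_ker f
  rw [Module.finrank_prod] at h2
  have h3 : Module.finrank ℂ (LinearMap.range f) ≤ Module.finrank ℂ (fatForms r j p m) :=
    Submodule.finrank_le _
  omega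

end Pool.Agent.H74.CT

end
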