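import Pool.Agent.H94.LP4.M17

/-! The parts of this file: H18.Cub.FinalC, H18.Cub.SortB, H18.TileMain_1, H18.TileRg, H74.BP.Lead, H74.BP.Very, H74.CT.Fin. -/

section

/-!
# Module FinalC: plane curves with many large multiplicities
-/

namespace Pool.Agent.H18.Cub

open Finset

/-- Sums over `J` and over the big points. -/
theorem sum_big {t s k : ℕ} (J : Finset (Fin k))
    (β : Fin t ⊕ Fin s → Option (Fin k)) (hJβ : ∀ i ∈ J, ∃ b, β b = some i)
    (hβJ : ∀ b i, β b = some i → i ∈ J)
    (hinj : ∀ b b' i, β b = some i → β b' = some i → b = b')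
    (f : Option (Fin k) → ℕ) (hf : f none = 0) :
    ∑ b, f (β b) = ∑ i ∈ J, f (some i) := by
  classical
  symm
  choose ψ hψ using hJβ
  apply sum_bij_ne_zero (fun i hi _ => ψ i hi)
  · intro i _ _
    exact mem_univ _
  · intro i hi _ j hj _ hij
    have h1 := hψ i hi
    have h2 := hψ j hj
    rw [hij, h2] at h1
    exact (Option.some.inj h1).symm
  · intro b _ hb
    rcases hβ : β b with _ | i
    · rw [hβ] at hb
      exact absurd hf hb
    · have hi := hβJ b i hβ
      refine ⟨i, hi, ?_, ?_⟩
      · rw [hβ] at hb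
        exact hb
      · exact hinj _ _ i (hψ i hi) hβ
  · intro i hi _
    rw [hψ i hi]

end Pool.Agent.H18.Cub

end

section

/-!
# Module SortB: the big points in decreasing order
-/

namespace Pool.Agent.H18.Cub

open Finset

/-- Enumerate a set `J` with at most `t + s` elements (and dummies, value `0`) by `Fin t ⊕ Fin s`, the
`t` largest values of `m` first.  (Enumerate `J` by `Fin J.card`, extend by dummies to `Fin (t + s)`,
sort with `Tuple.sort`, and use `finSumFinEquiv`.) -/
theorem exists_sorted {k : ℕ} (m : Fin k → ℕ) (J : Finset (Fin k)) (t s : ℕ) (hs : 1 ≤ s)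
    (hJ : J.card ≤ t + s) :
    ∃ (β : Fin t ⊕ Fin s → Option (Fin k)) (c : ℕ),
      (∀ b i, β b = some i → i ∈ J) ∧
      (∀ i ∈ J, ∃ b, β b = some i) ∧
      (∀ b b' i, β b = some i → β b' = some i → b = b') ∧
      (∀ l : Fin t, c ≤ (β (.inl l)).elim 0 m) ∧
      (∀ j : Fin s, (β (.inr j)).elim 0 m ≤ c) ∧
      (∃ j : Fin s, (β (.inr j)).elim 0 m = c) := by
  classical
  set e : Fin J.card ≃ J := J.equivFin.symm with he
  set f : Fin (t + s) → Option (Fin k) := fun a =>
    if h : a.1 < J.card then some (e ⟨a.1, h⟩).1 else none with hf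
  have hf1 : ∀ a i, f a = some i → i ∈ J := by
    intro a i h
    simp only [hf] at h
    split_ifs at h with h1
    · rw [← Option.some.inj h]
      exact (e ⟨a.1, h1⟩).2
  have hf2 : ∀ i ∈ J, ∃ a, f a = some i := by
    intro i hi
    have h1 : (e.symm ⟨i, hi⟩).1 < J.card := (e.symm ⟨i, hi⟩).2
    refine ⟨⟨(e.symm ⟨i, hi⟩).1, h1.trans_le hJ⟩, ?_⟩
    simp only [hf]
    rw [dif_pos h1]
    simp
  have hf3 : ∀ a a' i, f a = some i → f a' = some i → a = a' := by
    intro a a' i h h'
    simp only [hf] at h h'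
    split_ifs at h with h1
    split_ifs at h' with h2
    have h3 := (Option.some.inj h).trans (Option.some.inj h').symm
    have h4 := e.injective (Subtype.ext h3)
    exact Fin.ext (Fin.mk.inj h4)
  set g : Fin (t + s) → ℕ := fun a => (f a).elim 0 m with hg
  set σ : Equiv.Perm (Fin (t + s)) := Tuple.sort (fun a => OrderDual.toDual (g a)) with hσ
  have hmono : ∀ a b : Fin (t + s), a ≤ b → g (σ b) ≤ g (σ a) := by
    intro a b hab
    exact Tuple.monotone_sort (fun a => OrderDual.toDual (g a)) hab
  refine ⟨fun b => f (σ (finSumFinEquiv b)), g (σ (Fin.natAdd t ⟨0, hs⟩)), ?_, ?_, ?_, ?_, ?_, ?_⟩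
  · intro b i h
    exact hf1 _ _ h
  · intro i hi
    obtain ⟨a, ha⟩ := hf2 i hi
    refine ⟨finSumFinEquiv.symm (σ.symm a), ?_⟩
    simpa using ha
  · intro b b' i h h'
    have := hf3 _ _ _ h h'
    exact finSumFinEquiv.injective (σ.injective this)
  · intro l
    have := hmono (finSumFinEquiv (.inl l)) (Fin.natAdd t ⟨0, hs⟩) (by
      rw [finSumFinEquiv_apply_left, Fin.le_def]
      simp only [Fin.val_castAdd, Fin.val_natAdd]
      omega)
    exact this
  · intro j
    have := hmono (Fin.natAdd t ⟨0, hs⟩) (finSumFinEquiv (.inr j)) (by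
      rw [finSumFinEquiv_apply_right, Fin.le_def]
      simp only [Fin.val_natAdd]
      omega)
    exact this
  · refine ⟨⟨0, hs⟩, ?_⟩
    simp only [finSumFinEquiv_apply_right, hg]

end Pool.Agent.H18.Cub

end

section

/-!
# The classification of special systems outside a window
-/

namespace Pool.Agent.H18.Fat

open MvPolynomial Finset

/-! ### Sorting -/

theorem exists_sorted {ι : Type*} [Fintype ι] (m : ι → ℕ) :
    ∃ (K : ℕ) (f : ℕ → ℕ) (e : Fin K ≃ ι), Antitone f ∧ (∀ n : Fin K, f n = m (e n)) ∧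
      ∀ n, K ≤ n → f n = 0 := by
  classical
  let e₀ : Fin (Fintype.card ι) ≃ ι := (Fintype.equivFin ι).symm
  let g : Fin (Fintype.card ι) → ℕᵒᵈ := fun n => OrderDual.toDual (m (e₀ n))
  have hg := Tuple.monotone_sort g
  refine ⟨Fintype.card ι,
    fun n => if h : n < Fintype.card ι then m (e₀ (Tuple.sort g ⟨n, h⟩)) else 0,
    (Tuple.sort g).trans e₀, ?_, ?_, ?_⟩
  · intro a b hab
    simp only
    by_cases hb : b < Fintype.card ι
    · rw [dif_pos hb, dif_pos (lt_of_le_of_lt hab hb)]
      have h1 : (⟨a, lt_of_le_of_lt hab hb⟩ : Fin (Fintype.card ι)) ≤ ⟨b, hb⟩ := hab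
      exact hg h1
    · rw [dif_neg hb]
      exact Nat.zero_le _
  · intro n
    simp only
    rw [dif_pos n.2]
    rfl
  · intro n hn
    simp only
    rw [dif_neg (by omega)]

/-! ### Counting -/

section

variable {r d : ℕ}

theorem sum_card_bad (mJ : Fin (r + 1) → ℕ) :
    ∑ l, (bad r d mJ l).card = ∑ α ∈ mons (r + 1) d, ∑ l, if d < α l + mJ l then 1 else 0 := by
  classical
  rw [sum_comm]
  refine sum_congr rfl fun l _ => ?_
  unfold bad
  rw [card_filter]

theorem card_mons_eq (mJ : Fin (r + 1) → ℕ) :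
    (d + r).choose r = (allowed r d mJ).card +
      ∑ α ∈ mons (r + 1) d, if ∃ l, d < α l + mJ l then 1 else 0 := by
  classical
  rw [← card_mons, ← card_filter]
  unfold allowed
  have h : (mons (r + 1) d).filter (fun α => ∃ l, d < α l + mJ l) =
      (mons (r + 1) d).filter fun α => ¬ ∀ l, α l + mJ l ≤ d := by
    apply filter_congr
    intro α _
    push Not
    rfl
  rw [h]
  exact (card_filter_add_card_filter_not _).symm

theorem count_eq {mJ : Fin (r + 1) → ℕ} (h1 : ∀ l, 1 ≤ mJ l) (h2 : ∀ l, mJ l ≤ d)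
    (h3 : ∀ l l', l ≠ l' → mJ l + mJ l' ≤ d + 1) :
    (d + r).choose r = (allowed r d mJ).card + ∑ l, len r (mJ l) := by
  classical
  rw [card_mons_eq mJ, ← sum_congr rfl fun l (_ : l ∈ univ) => card_bad (h1 l) (h2 l),
    sum_card_bad]
  congr 1
  refine sum_congr rfl fun α hα => ?_
  split_ifs with h
  · obtain ⟨l, hl⟩ := h
    rw [sum_eq_single l]
    · rw [if_pos hl]
    · intro l' _ hl'
      rw [if_neg]
      intro h4
      have h5 := h3 l l' (Ne.symm hl')
      rw [mem_mons, Finsupp.degree_eq_sum] at hα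
      have h6 : α l + α l' ≤ ∑ i, α i := by
        rw [← sum_pair (Ne.symm hl')]
        exact sum_le_sum_of_subset (subset_univ _)
      omega
    · intro h4
      exact absurd (mem_univ _) h4
  · push Not at h
    symm
    refine sum_eq_zero fun l _ => ?_
    rw [if_neg (by have := h l; omega)]

end

/-! ### Special configurations -/

section

variable {s d : ℕ} {ι : Type*}

end

/-! ### The main theorem -/

end Pool.Agent.H18.Fat

end

section

/-!
# Lattice points of truncated boxes: counting
-/

namespace Pool.Agent.H18.Fat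

open Finset

section

variable {r : ℕ}

/-- The lattice points `a` with `v ≤ a < u` and `lo ≤ |a| < hi`. -/
noncomputable def Rg (v u : Fin r → ℤ) (lo hi : ℤ) : Finset (Fin r → ℤ) :=
  (Fintype.piFinset fun j => Ico (v j) (u j)).filter fun a => lo ≤ ∑ j, a j ∧ ∑ j, a j < hi

theorem mem_Rg {v u : Fin r → ℤ} {lo hi : ℤ} {a : Fin r → ℤ} :
    a ∈ Rg v u lo hi ↔ (∀ j, v j ≤ a j ∧ a j < u j) ∧ lo ≤ ∑ j, a j ∧ ∑ j, a j < hi := by
  unfold Rg
  rw [mem_filter, Fintype.mem_piFinset]
  simp only [mem_Ico]

/-- The region above the slab. -/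
def above (v : Fin (r + 1) → ℤ) (w : ℤ) : Fin (r + 1) → ℤ := Fin.cons w (Fin.tail v)

theorem mem_above {v u : Fin (r + 1) → ℤ} {lo hi w : ℤ} (hw : v 0 ≤ w) {a : Fin (r + 1) → ℤ} :
    a ∈ Rg (above v w) u lo hi ↔ a ∈ Rg v u lo hi ∧ w ≤ a 0 := by
  rw [mem_Rg, mem_Rg]
  unfold above
  constructor
  · rintro ⟨h1, h2⟩
    have h0 := h1 0
    rw [Fin.cons_zero] at h0
    refine ⟨⟨fun j => ?_, h2⟩, h0.1⟩
    refine Fin.cases ⟨by omega, h0.2⟩ (fun i => ?_) j
    have := h1 i.succ
    rw [Fin.cons_succ] at this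
    exact this
  · rintro ⟨⟨h1, h2⟩, h3⟩
    refine ⟨fun j => ?_, h2⟩
    refine Fin.cases ?_ (fun i => ?_) j
    · rw [Fin.cons_zero]
      exact ⟨h3, (h1 0).2⟩
    · rw [Fin.cons_succ]
      exact h1 i.succ

end

end Pool.Agent.H18.Fat

end

section

namespace Pool.Agent.H74.BP

open MvPolynomial

/-- The leading exponents (lexicographic order) of the nonzero elements of W. -/
def LM {r : ℕ} (W : Submodule ℂ (MvPolynomial (Fin r) ℂ)) : Set (Fin r →₀ ℕ) :=
  {α | ∃ F ∈ W, F ≠ 0 ∧ (MonomialOrder.lex (σ := Fin r)).degree F = α}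

/-- The coefficients at the leading exponents determine an element of W. -/
theorem eq_zero_of_coeff_LM {r : ℕ} (W : Submodule ℂ (MvPolynomial (Fin r) ℂ))
    (F : MvPolynomial (Fin r) ℂ) (hF : F ∈ W) (h : ∀ α ∈ LM W, F.coeff α = 0) : F = 0 := by
  by_contra hne
  have h1 := h _ ⟨F, hF, hne, rfl⟩
  exact ((MonomialOrder.lex (σ := Fin r)).coeff_degree_ne_zero_iff.mpr hne) h1

/-- Elements with distinct leading exponents are linearly independent. -/
theorem linearIndependent_of_degree {r : ℕ} {ι : Type*}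
    (f : ι → MvPolynomial (Fin r) ℂ) (h0 : ∀ i, f i ≠ 0)
    (hinj : Function.Injective fun i => (MonomialOrder.lex (σ := Fin r)).degree (f i)) :
    LinearIndependent ℂ f := by
  classical
  rw [linearIndependent_iff']
  intro s g hg
  by_contra hcon
  push Not at hcon
  obtain ⟨i0, hi0s, hi0⟩ := hcon
  set t := s.filter (fun i => g i ≠ 0) with ht
  have htne : t.Nonempty := ⟨i0, by simp [ht, hi0s, hi0]⟩
  obtain ⟨j, hjt, hjmax⟩ := t.exists_max_image
    (fun i => (MonomialOrder.lex (σ := Fin r)).toSyn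
      ((MonomialOrder.lex (σ := Fin r)).degree (f i))) htne
  have hj : j ∈ s ∧ g j ≠ 0 := by simpa [ht] using hjt
  have hc := congrArg
    (fun P => P.coeff ((MonomialOrder.lex (σ := Fin r)).degree (f j))) hg
  simp only [MvPolynomial.coeff_sum, MvPolynomial.coeff_smul, MvPolynomial.coeff_zero,
    smul_eq_mul] at hc
  rw [Finset.sum_eq_single j] at hc
  · rcases mul_eq_zero.mp hc with h1 | h1
    · exact hj.2 h1
    · exact ((MonomialOrder.lex (σ := Fin r)).coeff_degree_ne_zero_iff.mpr (h0 j)) h1
  · intro i his hij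
    by_cases hgi : g i = 0
    · rw [hgi, zero_mul]
    · have hit : i ∈ t := by simp [ht, his, hgi]
      have hle := hjmax i hit
      have hlt : (MonomialOrder.lex (σ := Fin r)).toSyn
          ((MonomialOrder.lex (σ := Fin r)).degree (f i)) <
          (MonomialOrder.lex (σ := Fin r)).toSyn
          ((MonomialOrder.lex (σ := Fin r)).degree (f j)) := by
        refine lt_of_le_of_ne hle ?_
        intro he
        exact hij (hinj ((MonomialOrder.lex (σ := Fin r)).toSyn.injective he))
      rw [(MonomialOrder.lex (σ := Fin r)).coeff_eq_zero_of_lt hlt, mul_zero]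
  · intro hjs
    exact absurd hj.1 hjs

/-- Their number is the dimension. -/
theorem ncard_LM {r : ℕ} (W : Submodule ℂ (MvPolynomial (Fin r) ℂ)) [FiniteDimensional ℂ W] :
    (LM W).Finite ∧ (LM W).ncard = Module.finrank ℂ W := by
  classical
  choose! F hFW hF0 hFd using (fun (α : Fin r →₀ ℕ) (h : α ∈ LM W) => h)
  let f : LM W → W := fun α => ⟨F α, hFW α α.2⟩
  have hli : LinearIndependent ℂ f := by
    have h1 : LinearIndependent ℂ (fun α : LM W => F α) := by
      apply linearIndependent_of_degree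
      · intro α
        exact hF0 α α.2
      · intro α β h
        have h2 : (MonomialOrder.lex (σ := Fin r)).degree (F α) =
          (MonomialOrder.lex (σ := Fin r)).degree (F β) := h
        rw [hFd α α.2, hFd β β.2] at h2
        exact Subtype.ext h2
    exact LinearIndependent.of_comp W.subtype h1
  have hfin : Finite (LM W) := hli.finite
  have := Fintype.ofFinite (LM W)
  refine ⟨Set.toFinite _, ?_⟩
  have hcard : (LM W).ncard = Fintype.card (LM W) := by
    rw [← Nat.card_coe_set_eq, Nat.card_eq_fintype_card]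
  rw [hcard]
  apply le_antisymm
  · exact hli.fintype_card_le_finrank
  · let φ : W →ₗ[ℂ] (LM W → ℂ) :=
      { toFun := fun G α => (G : MvPolynomial (Fin r) ℂ).coeff α
        map_add' := by
          intro a b
          funext α
          simp
        map_smul' := by
          intro c a
          funext α
          simp }
    have hinj : Function.Injective φ := by
      rw [injective_iff_map_eq_zero]
      intro G hG
      apply Subtype.ext
      apply eq_zero_of_coeff_LM W _ G.2
      intro α hα
      exact congrFun hG ⟨α, hα⟩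
    have := LinearMap.finrank_le_finrank_of_injective hinj
    simpa using this

end Pool.Agent.H74.BP

end

section

set_option autoImplicit false

namespace Pool.Agent.H74.BP

open MvPolynomial Pool.Agent.H18.Fat

theorem dense_ne_zero {ι : Type} [Fintype ι] (G : MvPolynomial ι ℂ) (hG : G ≠ 0) :
    Dense {x : ι → ℂ | eval x G ≠ 0} := by
  intro x
  obtain ⟨y, hy⟩ : ∃ y : ι → ℂ, eval y G ≠ 0 := by
    by_contra hcon
    push Not at hcon
    exact hG (MvPolynomial.funext fun z => by rw [hcon z, map_zero])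
  let g : Polynomial ℂ :=
    MvPolynomial.aeval (fun i => Polynomial.C (x i) + Polynomial.X * Polynomial.C (y i - x i)) G
  have hg : ∀ t : ℂ, g.eval t = eval (fun i => x i + t * (y i - x i)) G := by
    intro t
    rw [← Polynomial.coe_evalRingHom]
    simp only [g, MvPolynomial.aeval_def, MvPolynomial.hom_eval₂]
    rw [← MvPolynomial.eval₂_id]
    congr 1
    · ext z; simp
    · funext i; simp
  have hg0 : g ≠ 0 := by
    intro h0
    have h1 := hg 1
    rw [h0, Polynomial.eval_zero] at h1
    apply hy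
    rw [h1]
    congr 2
    funext i
    ring
  have hfin : ({t : ℂ | g.eval t = 0} : Set ℂ).Finite := by
    refine (g.roots.toFinset.finite_toSet).subset fun t ht => ?_
    simp only [Finset.mem_coe, Multiset.mem_toFinset]
    exact (Polynomial.mem_roots hg0).2 ht
  have hd : Dense ({t : ℂ | g.eval t = 0}ᶜ) := hfin.countable.dense_compl ℂ
  let φ : ℂ → (ι → ℂ) := fun t i => x i + t * (y i - x i)
  have hφ : Continuous φ := by
    refine continuous_pi fun i => ?_
    fun_prop
  have hx : x = φ 0 := by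
    funext i; simp [φ]
  have h0 : φ 0 ∈ closure (φ '' ({t : ℂ | g.eval t = 0}ᶜ)) :=
    image_closure_subset_closure_image hφ ⟨0, hd 0, rfl⟩
  rw [hx]
  refine closure_mono ?_ h0
  rintro _ ⟨t, ht, rfl⟩
  have ht' : g.eval t ≠ 0 := ht
  rw [hg] at ht'
  exact ht'

/-- Countably many general conditions hold simultaneously for some points. -/
theorem exists_veryGeneral {r k : ℕ} {P : ℕ → (Fin k → Fin (r + 1) → ℂ) → Prop}
    (h : ∀ n, ForGeneralPoints r k (P n)) : ∃ p, ∀ n, P n p := by
  choose G hG0 hG using h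
  have hopen : ∀ n, IsOpen {x : Fin k × Fin (r + 1) → ℂ | eval x (G n) ≠ 0} := fun n =>
    isOpen_ne_fun (MvPolynomial.continuous_eval (G n)) continuous_const
  have hd := dense_iInter_of_isOpen_nat hopen fun n => dense_ne_zero (G n) (hG0 n)
  obtain ⟨x, hx⟩ := hd.nonempty
  refine ⟨fun i j => x (i, j), fun n => hG n _ ?_⟩
  have := Set.mem_iInter.1 hx n
  exact this

end Pool.Agent.H74.BP

end

section

/-!
# Pair sums at most `d + 1`: many large multiplicities
-/

namespace Pool.Agent.H74.CT

open Finset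

theorem choose_le_pow (M : ℕ) (hM : 1 ≤ M) : ∀ n : ℕ, (M + n - 1).choose n ≤ M ^ n := by
  intro n
  induction n with
  | zero => simp
  | succ n ih =>
    have h1 : (M + n - 1 + 1) * (M + n - 1).choose n =
        (M + n - 1 + 1).choose (n + 1) * (n + 1) := Nat.add_one_mul_choose_eq _ _
    have h2 : M + (n + 1) - 1 = M + n - 1 + 1 := by omega
    have h3 : M + n - 1 + 1 ≤ M * (n + 1) := by
      have h4 : M + n - 1 + 1 = M + n := by omega
      rw [h4]
      nlinarith
    rw [h2]
    have h4 : (M + n - 1 + 1).choose (n + 1) * (n + 1) ≤ (M ^ (n + 1)) * (n + 1) := by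
      rw [← h1]
      calc (M + n - 1 + 1) * (M + n - 1).choose n ≤ (M * (n + 1)) * M ^ n :=
            Nat.mul_le_mul h3 ih
        _ = _ := by ring
    exact Nat.le_of_mul_le_mul_right h4 (by omega)

end Pool.Agent.H74.CT

end
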