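import Pool.Agent.H94.LP4.M14
import Pool.Agent.H94.LP4.M17

/-! The parts of this file: H18.Cub.DifP, H18.Cub.StepP. -/

section

/-!
# Module DifP: the differential lemma for polynomials

`∑ s, c s * V s` (with `c s ∈ ℂ[t]`, `V s ∈ ℂ[x]`) vanishes to order `μ` at the moving point
`(q, x_i = v + t)`.  Use `dif_layer` and `dif_resid` of `Pool.Agent.H18.Ex.Dif` for the translates
`trl (v e_i) (V s)` (`tay_translate`) and a box `A` of exponents.
-/

namespace Pool.Agent.H18.Cub

open Finset Pool.Agent.H18.Ex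

variable {ι : Type} [Fintype ι] [DecidableEq ι]

/-- The moving point. -/
noncomputable def mvPt (i : ι) (v : ℂ) (q : ι → ℂ) : ι → Polynomial ℂ :=
  Function.update (fun j => Polynomial.C (q j)) i (Polynomial.X + Polynomial.C v)

/-- The vector `v e_i`. -/
noncomputable def difc (i : ι) (v : ℂ) : ι → ℂ := Function.update (fun _ => 0) i v

omit [Fintype ι] in
lemma mvPt_eq (i : ι) (v : ℂ) (q : ι → ℂ) :
    mvPt i v q = fun j => movPt i q j + algebraMap ℂ (Polynomial ℂ) (difc i v j) := by
  funext j
  unfold mvPt movPt difc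
  by_cases hj : j = i
  · subst hj
    rw [Function.update_self, Function.update_self, if_pos rfl]
    rfl
  · rw [Function.update_of_ne hj, Function.update_of_ne hj, if_neg hj, map_zero, add_zero]

omit [Fintype ι] in
lemma update_eq_difc (i : ι) (v : ℂ) (q : ι → ℂ) :
    Function.update q i v = fun j => Function.update q i 0 j + algebraMap ℂ ℂ (difc i v j) := by
  funext j
  unfold difc
  by_cases hj : j = i
  · subst hj
    rw [Function.update_self, Function.update_self, Function.update_self, zero_add]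
    rfl
  · rw [Function.update_of_ne hj, Function.update_of_ne hj, Function.update_of_ne hj, map_zero,
      add_zero]

/-- The coefficient functions of the moving form. -/
noncomputable def difF {n : ℕ} (V : Fin n → MvPolynomial ι ℂ) (c : Fin n → Polynomial ℂ) (i : ι)
    (v : ℂ) (a : ι → ℕ) : Polynomial ℂ :=
  ∑ s, c s * Polynomial.C (cf (trl (difc i v) (V s)) a)

lemma difF_coeff {n : ℕ} (V : Fin n → MvPolynomial ι ℂ) (c : Fin n → Polynomial ℂ) (i : ι)
    (v : ℂ) (a : ι → ℕ) (j : ℕ) :
    (difF V c i v a).coeff j = tay (∑ s, (c s).coeff j • V s) (difc i v) a := by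
  unfold difF
  rw [Polynomial.finsetSum_coeff, tay_sum]
  refine sum_congr rfl fun s _ => ?_
  rw [Polynomial.coeff_mul_C, tay_smul]
  rfl

/-- A box containing all the exponents. -/
def difA (N : ℕ) : Finset (ι → ℕ) := Fintype.piFinset fun _ => range (N + 1)

/-- The residual box. -/
def difA' (i : ι) (N : ℕ) : Finset (ι → ℕ) :=
  Fintype.piFinset fun j => if j = i then range N else range (N + 1)

lemma mem_difA' (i : ι) (N : ℕ) (a : ι → ℕ) :
    a ∈ difA' i N ↔ Function.update a i (a i + 1) ∈ (difA N : Finset (ι → ℕ)) := by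
  unfold difA difA'
  rw [Fintype.mem_piFinset, Fintype.mem_piFinset]
  refine forall_congr' fun j => ?_
  by_cases hj : j = i
  · subst hj
    rw [if_pos rfl, Function.update_self, mem_range, mem_range]
    omega
  · rw [if_neg hj, Function.update_of_ne hj]

omit [DecidableEq ι] in
lemma exists_dif_bound (T : Finset (ι →₀ ℕ)) : ∃ N : ℕ, ∀ a ∈ T, ∀ j, a j < N := by
  refine ⟨T.sup (fun a => univ.sup (fun j => a j)) + 1, fun a ha j => ?_⟩
  have h1 : a j ≤ univ.sup (fun j => a j) := Finset.le_sup (f := fun j => a j) (mem_univ j)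
  have h2 : univ.sup (fun j => a j) ≤ T.sup (fun a => univ.sup (fun j => a j)) :=
    Finset.le_sup (f := fun a : ι →₀ ℕ => univ.sup (fun j => a j)) ha
  omega

/-- The moving form satisfies the moving condition. -/
lemma difF_sat {n : ℕ} (V : Fin n → MvPolynomial ι ℂ) (c : Fin n → Polynomial ℂ) (i : ι)
    (v : ℂ) (μ : ℕ) (q : ι → ℂ)
    (h : ∀ b : ι → ℕ, ∑ i, b i < μ → ∑ s, c s * tay (V s) (mvPt i v q) b = 0)
    (A : Finset (ι → ℕ))
    (hA : ∀ s, ∀ a ∈ (trl (difc i v) (V s)).support, (⇑a : ι → ℕ) ∈ A) :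
    Sat A (difF V c i v) (Kind.free μ) (movPt i q) := by
  intro b hb
  have hb' : ∑ i, b i < μ := hb
  change ∑ a ∈ A, difF V c i v a * tcr (movPt i q) a b = 0
  rw [← h b hb']
  unfold difF
  simp only [sum_mul]
  rw [sum_comm]
  refine sum_congr rfl fun s _ => ?_
  rw [mvPt_eq, tay_translate, tay_eq_tcr A _ (hA s), mul_sum]
  refine sum_congr rfl fun a _ => ?_
  rw [mul_assoc]
  rfl

/-- For `j < μ` the `j`-th coefficient vanishes at `q` on the hyperplane `x_i = v`. -/
theorem difP_layer {n : ℕ} (V : Fin n → MvPolynomial ι ℂ) (c : Fin n → Polynomial ℂ) (i : ι)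
    (v : ℂ) (μ : ℕ) (q : ι → ℂ)
    (h : ∀ b : ι → ℕ, ∑ i, b i < μ → ∑ s, c s * tay (V s) (mvPt i v q) b = 0)
    (j : ℕ) (hj : j < μ) (b : ι → ℕ) (hb : ∑ i, b i < 1) :
    tay (sub1 i v (∑ s, (c s).coeff j • V s)) q b = 0 := by
  classical
  obtain ⟨N, hN⟩ := exists_dif_bound
    ((univ.biUnion fun s => (trl (difc i v) (V s)).support) ∪
      (trl (difc i v) (∑ s, (c s).coeff j • V s)).support)
  have hA : ∀ s, ∀ a ∈ (trl (difc i v) (V s)).support, (⇑a : ι → ℕ) ∈ (difA N : Finset (ι → ℕ)) := by
    intro s a ha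
    unfold difA
    rw [Fintype.mem_piFinset]
    intro k
    have := hN a (mem_union_left _ (mem_biUnion.mpr ⟨s, mem_univ s, ha⟩)) k
    rw [mem_range]
    omega
  have hA2 : ∀ a ∈ (trl (difc i v) (∑ s, (c s).coeff j • V s)).support,
      (⇑a : ι → ℕ) ∈ (difA N : Finset (ι → ℕ)) := by
    intro a ha
    unfold difA
    rw [Fintype.mem_piFinset]
    intro k
    have := hN a (mem_union_right _ ha) k
    rw [mem_range]
    omega
  have h1 := dif_layer (difA N) i μ (difF V c i v) q
    (difF_sat V c i v μ q h (difA N) hA) j hj b hb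
  rw [tay_sub1]
  split_ifs with hbi
  · have h2 : Function.update q i (algebraMap ℂ ℂ v) =
        fun j => Function.update q i 0 j + algebraMap ℂ ℂ (difc i v j) := update_eq_difc i v q
    rw [h2, tay_translate, tay_eq_tcr (difA N) _ hA2]
    have h3 := layer_sum (difA N) i
      (fun a => algebraMap ℂ ℂ (cf (trl (difc i v) (∑ s, (c s).coeff j • V s)) a))
      (Function.update q i 0) (Function.update_self _ _ _) b hbi
    rw [h3]
    refine Eq.trans (sum_congr rfl ?_) h1
    intro a ha
    congr 1
    · change _ = (difF V c i v a).coeff j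
      rw [difF_coeff]
      rfl
    · exact tcr_layer_congr _ _ a b i (fun k hk => Function.update_of_ne hk _ _)
        (mem_filter.mp ha).2
  · rfl

/-- If the first `μ` coefficients vanish on the hyperplane then the residual of the `0`-th
coefficient satisfies the condition `forced μ 2`. -/
theorem difP_resid {n : ℕ} (V : Fin n → MvPolynomial ι ℂ) (c : Fin n → Polynomial ℂ) (i : ι)
    (v : ℂ) (μ : ℕ) (q : ι → ℂ)
    (h : ∀ b : ι → ℕ, ∑ i, b i < μ → ∑ s, c s * tay (V s) (mvPt i v q) b = 0)
    (h0 : ∀ j < μ, sub1 i v (∑ s, (c s).coeff j • V s) = 0) (F' : MvPolynomial ι ℂ)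
    (hF' : ∑ s, (c s).coeff 0 • V s = (MvPolynomial.X i - MvPolynomial.C v) * F')
    (b : ι → ℕ) (hb : ∑ i, b i < μ) (hb2 : b i + 2 ≤ μ) :
    tay F' (Function.update q i v) b = 0 := by
  classical
  obtain ⟨N, hN⟩ := exists_dif_bound
    ((univ.biUnion fun s => (trl (difc i v) (V s)).support) ∪ (trl (difc i v) F').support)
  have hA : ∀ s, ∀ a ∈ (trl (difc i v) (V s)).support, (⇑a : ι → ℕ) ∈ (difA N : Finset (ι → ℕ)) := by
    intro s a ha
    unfold difA
    rw [Fintype.mem_piFinset]
    intro k
    have := hN a (mem_union_left _ (mem_biUnion.mpr ⟨s, mem_univ s, ha⟩)) k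
    rw [mem_range]
    omega
  have hA2 : ∀ a ∈ (trl (difc i v) F').support, (⇑a : ι → ℕ) ∈ difA' i N := by
    intro a ha
    unfold difA'
    rw [Fintype.mem_piFinset]
    intro k
    have := hN a (mem_union_right _ ha) k
    split_ifs
    · rw [mem_range]
      omega
    · rw [mem_range]
      omega
  have h1 := dif_resid (difA N) (difA' i N) i (mem_difA' i N) μ (difF V c i v) q
    (difF_sat V c i v μ q h (difA N) hA) (by
      intro j hj a _ hai
      rw [difF_coeff]
      have h2 := tay_sub1 i v (∑ s, (c s).coeff j • V s) (fun _ => (0 : ℂ)) a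
      rw [h0 j hj, tay_zero, if_pos hai] at h2
      exact h2.symm) b ⟨hb, hb2⟩
  have h2 : Function.update q i v =
      fun j => Function.update q i 0 j + algebraMap ℂ ℂ (difc i v j) := update_eq_difc i v q
  rw [h2, tay_translate, tay_eq_tcr (difA' i N) _ hA2]
  refine Eq.trans (sum_congr rfl fun a _ => ?_) h1
  congr 1
  change tay F' (difc i v) a = (difF V c i v (Function.update a i (a i + 1))).coeff 0
  rw [difF_coeff, hF', tay_X_sub_mul, Function.update_self, if_neg (Nat.succ_ne_zero _),
    Function.update_idem, Nat.add_sub_cancel, Function.update_eq_self]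
  have h3 : difc i v i = v := Function.update_self _ _ _
  rw [h3]
  simp

end Pool.Agent.H18.Cub

end

section

/-!
# Module StepP: the (differential) Horace step for spaces of polynomials
-/

namespace Pool.Agent.H18.Cub

open Finset Pool.Agent.H18.Ex

variable {ι Λ : Type} [Fintype ι] [DecidableEq ι]

instance trW_finite (g : Lines Λ ι) (l : Λ) (W : Submodule ℂ (MvPolynomial ι ℂ))
    [FiniteDimensional ℂ W] : FiniteDimensional ℂ (trW g l W) := by
  unfold trW
  infer_instance

/-- The coefficients of a polynomial family of solutions of conditions at a constant point. -/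
theorem satP_coeff {n : ℕ} (g : Lines Λ ι) (V : Fin n → MvPolynomial ι ℂ)
    (c : Fin n → Polynomial ℂ) (k : Kind Λ) (q : ι → ℂ)
    (h : ∀ b, g.Idx k b → ∑ s, c s * tay (V s) (g.pt k fun i => Polynomial.C (q i)) b = 0)
    (j : ℕ) : SatP g (∑ s, (c s).coeff j • V s) k q := by
  intro b hb
  have h1 := h b hb
  have h2 : ∀ s, tay (V s) (g.pt k fun i => Polynomial.C (q i)) b =
      Polynomial.C (tay (V s) (g.pt k q) b) := by
    intro s
    have h3 := pt_map (Polynomial.CAlgHom : ℂ →ₐ[ℂ] Polynomial ℂ) g k q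
    have h4 := tay_map (Polynomial.CAlgHom : ℂ →ₐ[ℂ] Polynomial ℂ) (V s) (g.pt k q) b
    rw [h3] at h4
    exact h4.symm
  have h5 := congrArg (fun p => Polynomial.coeff p j) h1
  simp only [h2, Polynomial.finsetSum_coeff, Polynomial.coeff_mul_C, Polynomial.coeff_zero] at h5
  rw [tay_sum, ← h5]
  refine Finset.sum_congr rfl fun s _ => ?_
  rw [tay_smul]
  rfl

/-- The positions, with parameter `t`. -/
def stepPosP {κ R : Type} [CommRing R] [Algebra ℂ R] (g : Lines Λ ι) (l : Λ) (ρ : κ → Role Λ)
    (pos : κ → ι → R) (t : R) (i : κ) : ι → R :=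
  match ρ i with
  | .stay _ => pos i
  | .here _ _ => pos i
  | .ord _ => Function.update (pos i) (g.co l) (algebraMap ℂ R (g.va l))
  | .dif => Function.update (pos i) (g.co l) (t + algebraMap ℂ R (g.va l))

/-- The Horace step (compare `step` in `Pool.Agent.H18.Ex.Step`; the unknowns are the coefficients
with respect to a basis of `W`). -/
theorem stepP {κ : Type} [Fintype κ] (g : Lines Λ ι) (l : Λ) (hg : g.Sep l)
    (W W' : Submodule ℂ (MvPolynomial ι ℂ)) [FiniteDimensional ℂ W] [FiniteDimensional ℂ W']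
    (hW : ResW g l W W') (μ : ℕ) (hμ : 1 ≤ μ)
    (ρ : κ → Role Λ) (hρ : ∀ i k, ρ i = Role.stay k → k.NotAt l)
    (h0 : GIP g (trW g l W) fun i => Kind.free (ρ i).layer)
    (h1 : GIP g W' fun i => (ρ i).after l μ) :
    GIP g W fun i => (ρ i).before l μ := by
  classical
  obtain ⟨pos, hL, hR, hne⟩ := GIP.exists_common h0 h1 l
  by_contra hcon
  set n := Module.finrank ℂ W with hn
  let v : Module.Basis (Fin n) ℂ W := Module.finBasis ℂ W
  let V : Fin n → MvPolynomial ι ℂ := fun s => (v s : MvPolynomial ι ℂ)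
  have hVmem : ∀ f : Fin n → ℂ, ∑ s, f s • V s ∈ W := fun f =>
    Submodule.sum_mem _ fun s _ => Submodule.smul_mem _ _ (v s).2
  have hVzero : ∀ f : Fin n → ℂ, ∑ s, f s • V s = 0 → ∀ s, f s = 0 := by
    intro f hf
    have h2 : ∑ s, f s • v s = 0 := by
      apply Subtype.ext
      rw [Submodule.coe_sum, Submodule.coe_zero, ← hf]
      rfl
    exact Fintype.linearIndependent_iff.1 v.linearIndependent f h2
  have hVex : ∀ F ∈ W, ∃ f : Fin n → ℂ, F = ∑ s, f s • V s := by
    intro F hF
    refine ⟨v.repr ⟨F, hF⟩, ?_⟩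
    have h2 := congrArg (fun w : W => (w : MvPolynomial ι ℂ)) (v.sum_repr ⟨F, hF⟩)
    simp only [Submodule.coe_sum, Submodule.coe_smul] at h2
    exact h2.symm
  have hnot : ∀ t : ℂ, ∃ f : Fin n → ℂ,
      (∀ i, SatP g (∑ s, f s • V s) ((ρ i).before l μ) (stepPosP g l ρ pos t i)) ∧
        ∃ s ∈ (univ : Finset (Fin n)), f s ≠ 0 := by
    intro t
    by_contra h2
    apply hcon
    refine ⟨stepPosP g l ρ pos t, ?_⟩
    intro F hF hsat
    obtain ⟨f, rfl⟩ := hVex F hF
    by_contra h3
    apply h2
    refine ⟨f, hsat, ?_⟩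
    by_contra h4
    push Not at h4
    apply h3
    exact Finset.sum_eq_zero fun s _ => by rw [h4 s (mem_univ s), zero_smul]
  -- the bound for the multi-indices
  obtain ⟨D, hD⟩ : ∃ D : ℕ, ∀ i, ∀ b, g.Idx ((ρ i).before l μ) b → ∀ j, b j < D := by
    choose D hD using fun i => Idx_lt g ((ρ i).before l μ)
    refine ⟨Finset.univ.sup D, fun i b hb j => ?_⟩
    exact lt_of_lt_of_le (hD i b hb j) (Finset.le_sup (mem_univ i))
  -- positions over the polynomial ring
  let P : κ → ι → Polynomial ℂ :=
    stepPosP g l ρ (fun i j => Polynomial.C (pos i j)) Polynomial.X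
  have hP : ∀ (t : ℂ) (i : κ), (fun j => Polynomial.aeval t (P i j)) = stepPosP g l ρ pos t i := by
    intro t i
    funext j
    simp only [P, stepPosP]
    cases ρ i with
    | stay k => simp
    | here c e => simp
    | ord m =>
      simp only [Function.update_apply]
      split_ifs <;> simp
    | dif =>
      simp only [Function.update_apply]
      split_ifs <;> simp
  let Mx : κ × (ι → Fin D) → Fin n → Polynomial ℂ := fun r s =>
    if g.Idx ((ρ r.1).before l μ) (fun j => (r.2 j : ℕ)) then
      tay (V s) (g.pt ((ρ r.1).before l μ) (P r.1)) (fun j => (r.2 j : ℕ)) else 0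
  obtain ⟨c, hc, s0, -, hs0⟩ := exists_poly_solution univ Mx (by
    intro t
    obtain ⟨f, hf, s, hs, hfs⟩ := hnot t
    refine ⟨f, ?_, s, hs, hfs⟩
    rintro ⟨i, b⟩
    by_cases hb : g.Idx ((ρ i).before l μ) (fun j => (b j : ℕ))
    · have h2 := hf i _ hb
      rw [tay_sum] at h2
      rw [← h2]
      apply Finset.sum_congr rfl
      intro s _
      rw [tay_smul]
      simp only [Mx]
      rw [if_pos hb, ← Polynomial.coe_aeval_eq_eval, tay_map, pt_map, hP]
      rfl
    · simp only [Mx, if_neg hb, Polynomial.eval_zero, mul_zero, Finset.sum_const_zero])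
  have hsat : ∀ i, ∀ b, g.Idx ((ρ i).before l μ) b →
      ∑ s, c s * tay (V s) (g.pt ((ρ i).before l μ) (P i)) b = 0 := by
    intro i b hb
    have h2 := hc (i, fun j => ⟨b j, hD i b hb j⟩)
    simp only [Mx] at h2
    rw [← h2]
    apply Finset.sum_congr rfl
    intro s _
    rw [if_pos hb]
  -- the layer
  have hord : ∀ (i : κ) (q : ι → ℂ), (fun j => Polynomial.C (Function.update q (g.co l) (g.va l) j)) =
      Function.update (fun j => Polynomial.C (q j)) (g.co l)
        (algebraMap ℂ (Polynomial ℂ) (g.va l)) := by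
    intro i q
    funext j'
    simp only [Function.update_apply]
    split_ifs
    · rfl
    · rfl
  have hmv : ∀ (q : ι → ℂ), mvPt (g.co l) (g.va l) q =
      Function.update (fun j => Polynomial.C (q j)) (g.co l)
        (Polynomial.X + algebraMap ℂ (Polynomial ℂ) (g.va l)) := fun q => rfl
  have hlayer : ∀ j < μ, lay g l (∑ s, (c s).coeff j • V s) = 0 := by
    intro j hj
    refine hL _ (Submodule.mem_map.2 ⟨_, hVmem _, rfl⟩) ?_
    intro i
    have h2 := hsat i
    simp only [P, stepPosP] at h2
    show SatP g (lay g l (∑ s, (c s).coeff j • V s)) (Kind.free (ρ i).layer) (pos i)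
    cases hi : ρ i with
    | stay k =>
      intro b hb
      exact absurd hb (Nat.not_lt_zero _)
    | here c' e =>
      rw [hi] at h2
      exact satP_lay_forced g l _ c' e (pos i) (satP_coeff g V c _ (pos i) h2 j)
    | ord m =>
      rw [hi] at h2
      have h4 := satP_coeff g V c (Kind.free m) (Function.update (pos i) (g.co l) (g.va l))
        (by rw [hord i]; exact h2) j
      have h5 := satP_lay_forced g l _ m 1 (pos i) ((satP_forced_one_iff g l _ m (pos i)).mpr h4)
      have h6 : (if 1 ≤ m then m else 0) = m := by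
        split_ifs with h7
        · rfl
        · omega
      rw [h6] at h5
      exact h5
    | dif =>
      rw [hi] at h2
      intro b hb
      refine difP_layer V c (g.co l) (g.va l) μ (pos i) ?_ j hj b hb
      intro b' hb'
      have h3 := h2 b' hb'
      rw [hmv]
      exact h3
  -- the residual
  obtain ⟨F', hF'mem, hF'⟩ := hW _ (hVmem fun s => (c s).coeff 0) (hlayer 0 (by omega))
  have hF'zero : F' = 0 := by
    refine hR F' hF'mem ?_
    intro i
    have h2 := hsat i
    simp only [P, stepPosP] at h2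
    show SatP g F' ((ρ i).after l μ) (pos i)
    cases hi : ρ i with
    | stay k =>
      rw [hi] at h2
      refine satP_resid_of_notAt g l hg F' k (hρ i k hi) (pos i) (hne i) ?_
      rw [← hF']
      exact satP_coeff g V c k (pos i) h2 0
    | here c' e =>
      rw [hi] at h2
      refine satP_resid_forced g l F' c' e (pos i) ?_
      rw [← hF']
      exact satP_coeff g V c _ (pos i) h2 0
    | ord m =>
      rw [hi] at h2
      have h4 := satP_coeff g V c (Kind.free m) (Function.update (pos i) (g.co l) (g.va l))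
        (by rw [hord i]; exact h2) 0
      refine satP_resid_forced g l F' m 1 (pos i) ?_
      rw [← hF']
      exact (satP_forced_one_iff g l _ m (pos i)).mpr h4
    | dif =>
      rw [hi] at h2
      intro b hb
      refine difP_resid V c (g.co l) (g.va l) μ (pos i) ?_ hlayer F' hF' b hb.1 hb.2
      intro b' hb'
      have h3 := h2 b' hb'
      rw [hmv]
      exact h3
  -- conclusion
  apply hs0
  rw [← Polynomial.coeff_zero_eq_eval_zero]
  refine hVzero (fun s => (c s).coeff 0) ?_ s0
  show ∑ s, (c s).coeff 0 • V s = 0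
  rw [hF', hF'zero, mul_zero]

end Pool.Agent.H18.Cub

end
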