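import Pool.Agent.H94.LP4.M18
import Pool.Agent.H94.LP4.M21
import Pool.Agent.H94.LP4.M27
import Pool.Agent.H94.LP4.M28

/-! The parts of this file: H18.Cub.MultiP_1, H18.Pr.FkL, H18.Ub.VDefs_1. -/

section

/-!
# Module MultiP: the geometric lemmas for multisets of conditions
-/

namespace Pool.Agent.H18.Cub

open Finset Pool.Agent.H18.Ex

variable {ι Λ : Type} [Fintype ι] [DecidableEq ι]

theorem GMP.step (g : Lines Λ ι) (l : Λ) (hg : g.Sep l)
    (W W' : Submodule ℂ (MvPolynomial ι ℂ)) [FiniteDimensional ℂ W] [FiniteDimensional ℂ W']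
    (hW : ResW g l W W') (μ : ℕ) (hμ : 1 ≤ μ)
    (S : Multiset (Role Λ)) (hS : ∀ k, Role.stay k ∈ S → k.NotAt l)
    (h0 : GMP g (trW g l W) (S.map fun r => Kind.free r.layer))
    (h1 : GMP g W' (S.map (Role.after l μ))) : GMP g W (S.map (Role.before l μ)) := by
  obtain ⟨m, ρ, rfl⟩ := multi_exists_fin S
  rw [Multiset.map_map, GMP_iff] at h0 h1
  rw [Multiset.map_map, GMP_iff]
  refine stepP g l hg W W' hW μ hμ ρ (fun i k hik => ?_) h0 h1
  exact hS k (Multiset.mem_map.2 ⟨i, (by rw [Finset.mem_val]; exact Finset.mem_univ _), hik⟩)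

theorem GMP.bridge (g : Lines Λ ι) (l : Λ) (hg : g.Sep l)
    (W W' : Submodule ℂ (MvPolynomial ι ℂ)) [FiniteDimensional ℂ W] [FiniteDimensional ℂ W']
    (hW : ResW g l W W') [DecidableEq Λ] (S : Multiset (Kind Λ)) (s : ℕ)
    (h1 : GMP g W (S + Multiset.replicate s (Kind.free 1)))
    (h2 : GMP g W' (S.map (Kind.dn l))) :
    GMP g W (S + Multiset.replicate s (Kind.forced l 1 1)) := by
  obtain ⟨m, k, rfl⟩ := multi_exists_fin S
  rw [multiP_replicate, ← multi_map_sum, GMP_iff] at h1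
  rw [multiP_replicate, ← multi_map_sum, GMP_iff]
  rw [Multiset.map_map, GMP_iff] at h2
  exact bridgeP g l hg W W' hW k s h1 h2

end Pool.Agent.H18.Cub

end

section

/-!
# Module FkL (PR): free points
-/

namespace Pool.Agent.H18.Pr

open Finset Pool.Agent.H18.Ex Pool.Agent.H18.Cub

variable {ι Λ : Type} [Fintype ι] [DecidableEq ι]

theorem Fk_iff (g : Lines Λ ι) (W : Submodule ℂ (MvPolynomial ι ℂ)) (S : Multiset ℕ) :
    Fk W S ↔ GMP g W (S.map Kind.free) := by
  constructor
  · rintro ⟨k, s, rfl, pos, hpos⟩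
    refine ⟨k, fun i => Kind.free (s i), ?_, pos, fun F hF hf => hpos F hF fun i β hβ => ?_⟩
    · rw [Multiset.map_map]
      rfl
    · exact hf i β hβ
  · rintro ⟨n, k, hk, pos, hpos⟩
    have hex : ∀ i, ∃ m, k i = Kind.free m := by
      intro i
      have h1 : k i ∈ (univ : Finset (Fin n)).val.map k :=
        Multiset.mem_map.2 ⟨i, Finset.mem_univ_val i, rfl⟩
      rw [hk, Multiset.mem_map] at h1
      obtain ⟨m, -, hm⟩ := h1
      exact ⟨m, hm.symm⟩
    choose s hs using hex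
    refine ⟨n, s, ?_, pos, fun F hF hf => hpos F hF fun i => ?_⟩
    · have hinj : Function.Injective (Kind.free : ℕ → Kind Λ) := by
        intro a b hab
        injection hab
      apply Multiset.map_injective hinj
      rw [← hk, Multiset.map_map]
      exact Multiset.map_congr rfl fun i _ => (hs i).symm
    · rw [hs i]
      intro b hb
      exact hf i b hb

theorem Fk.anti {W W' : Submodule ℂ (MvPolynomial ι ℂ)} {S : Multiset ℕ} (h : W ≤ W')
    (h' : Fk W' S) : Fk W S := by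
  obtain ⟨k, s, hs, pos, hpos⟩ := h'
  exact ⟨k, s, hs, pos, fun F hF hf => hpos F (h hF) hf⟩

theorem Fk.mono {W : Submodule ℂ (MvPolynomial ι ℂ)} {S S' : Multiset ℕ} (h : S ≤ S')
    (h' : Fk W S) : Fk W S' := by
  have g : Lines Empty ι := ⟨Empty.elim, Empty.elim⟩
  rw [Fk_iff g] at h' ⊢
  exact GMP.mono (Multiset.map_le_map h) h'

end Pool.Agent.H18.Pr

end

section

/-!
# Project UB: small multiplicities and a given scheme, incomplete traces

As in project UA, but the traces are only killed by points of multiplicities at most `M` together with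
at least `w` simple points.
-/

namespace Pool.Agent.H18.Ub

open Finset Pool.Agent.H18.Ex Pool.Agent.H18.Cub Pool.Agent.H18.Pr Pool.Agent.H18.Ua

section

variable {Λ : Type} [Fintype Λ] [DecidableEq Λ] {n : ℕ}

end

section

variable {Λ : Type} [Fintype Λ] [DecidableEq Λ] {n : ℕ}

/-- The numerical properties of a Horace system below the state `N`. -/
structure NumV (Y : SysN Λ n) (M t w : ℕ) (N : Λ → ℕ) : Prop where
  hn : 1 ≤ n
  hM : 1 ≤ M
  ht : TU n M ≤ t
  hw : EV n M * w ≤ t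
  hq : Fintype.card Λ = qU n M
  hN : ∀ i, 2 * M + 2 ≤ N i
  Fle : ∀ a l, RegU M N a → Y.F l a ≤ t
  leF : ∀ a l, RegU M N a → (EV n M - 1) * t ≤ EV n M * Y.F l a
  gd : ∀ a l, RegU M N a → Gw Y M w l a
  leR : ∀ a, RegU M N a → ((4 * M * qU n M * t : ℕ) : ℤ) ≤ Y.R a
  full : ∀ a, RegU M N a → FullN Y a
  kill : ∀ a, RegU M N a → ∀ (S : Multiset (Kind Λ)) (x s : ℕ) (G : Multiset ℕ),
    (∀ m ∈ G, 1 ≤ m ∧ m ≤ M) → Y.K a (S + Multiset.replicate x (Kind.free 1)) →
    x ≤ (G.map (ell (n + 1))).sum + s →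
    (M * t ≤ s ∨ x + ell (n + 1) M * (M * t) ≤ (G.map (ell (n + 1))).sum + s) →
    Y.K a (S + G.map Kind.free + Multiset.replicate s (Kind.free 1))

end

end Pool.Agent.H18.Ub

end
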