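import Pool.Agent.H94.LP4.M25
import Pool.Agent.H94.LP4.M40

/-! The parts of this file: H74.BP.All, H74.BP.Dec_2. -/

section

/-!
# Slow growth for all big classes

The number of the points is arbitrary: the small points of `J` impose independent conditions in all
degrees near `d`.
-/

namespace Pool.Agent.H74.BP

open MvPolynomial Pool.Agent.H18.Fat Pool.Agent.H18.Ub Pool.Agent.H22.LU Pool.Agent.H74.CT

/-- Slow growth for the part `I` of `J` implies slow growth for `J`. -/
theorem slow_transfer (s k d C E e μ : ℕ) (m : Fin k → ℕ) (I J : Finset (Fin k)) (hIJ : I ⊆ J)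
    (hM : ∀ i ∈ J \ I, m i ≤ μ) (he : e + μ + C ≤ d) (g h : ℕ → ℕ)
    (hg : ∀ j, g j = generalDim (s + 2) j fun i => if i ∈ I then m i else 0)
    (hh : ∀ j, h j = generalDim (s + 2) j fun i => if i ∈ J then m i else 0)
    (hS : ∑ i ∈ J \ I, (m i + (s + 2) - 1).choose (s + 2) ≤ g e)
    (hslow : E * ((g d - g (d - 1)) - (g (d - C) - g (d - C - 1))) ≤ g d - g (d - 1)) :
    E * ((h d - h (d - 1)) - (h (d - C) - h (d - C - 1))) ≤ h d - h (d - 1) := by
  have hval : ∀ j, e + μ ≤ j + 1 →
      h j + ∑ i ∈ J \ I, (m i + (s + 2) - 1).choose (s + 2) = g j := by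
    intro j hj
    have h1 := elem_below s j e μ m I (J \ I) Finset.disjoint_sdiff hM hj (by
      rw [← hg]
      exact hS)
    rw [Finset.union_sdiff_of_subset hIJ, ← hg, ← hh] at h1
    exact h1
  have h1 := hval d (by omega)
  have h2 := hval (d - 1) (by omega)
  have h3 := hval (d - C) (by omega)
  have h4 := hval (d - C - 1) (by omega)
  have h5 : h d - h (d - 1) = g d - g (d - 1) := by omega
  have h6 : h (d - C) - h (d - C - 1) = g (d - C) - g (d - C - 1) := by omega
  rw [h5, h6]
  exact hslow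

/-- The growth condition for all big classes. -/
theorem big_all (r : ℕ) (hr : 2 ≤ r) (C E T : ℕ) (hE : 1 ≤ E) (hT : 1 ≤ T) :
    ∃ d₀ : ℕ, ∀ d, d₀ ≤ d → ∀ (k : ℕ) (m : Fin k → ℕ) (J : Finset (Fin k)) (h : ℕ → ℕ),
      (∀ j, h j = generalDim r j fun i => if i ∈ J then m i else 0) →
      (∃ e, T * e + d ≤ T * d ∧ 1 ≤ h e) →
      E * ((h d - h (d - 1)) - (h (d - C) - h (d - C - 1))) ≤ h d - h (d - 1) := by
  classical
  obtain ⟨s, rfl⟩ : ∃ s, r = s + 2 := ⟨r - 2, by omega⟩
  obtain ⟨d₀, hd₀⟩ := big_growth (s + 2) ((4 * T) ^ (s + 2)) hr C E T hE hT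
  refine ⟨d₀ + 2 * T * C + 1, fun d hd k m J h hh he => ?_⟩
  obtain ⟨e, he1, he2⟩ := he
  have hed : e < d := by
    have h1 : T * e < T * d := by omega
    exact Nat.lt_of_mul_lt_mul_left h1
  set I := J.filter fun i => d ≤ 4 * T * m i with hI
  have hIJ : I ⊆ J := Finset.filter_subset _ _
  set g : ℕ → ℕ := fun j => generalDim (s + 2) j fun i => if i ∈ I then m i else 0 with hg
  have hmem : ∀ i ∈ I, d ≤ 4 * T * m i := fun i hi => (Finset.mem_filter.1 hi).2
  have hge : ∀ j, h j ≤ g j := by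
    intro j
    rw [hh]
    refine generalDim_anti fun i => ?_
    by_cases hi : i ∈ I
    · rw [if_pos hi, if_pos (hIJ hi)]
    · rw [if_neg hi]
      exact Nat.zero_le _
  have hgpos : 1 ≤ g e := he2.trans (hge e)
  have hcard : I.card ≤ (4 * T) ^ (s + 2) :=
    (few_big (s + 2) (4 * T) (by omega) (by omega) k e m I
      (fun i hi => lt_of_lt_of_le hed (hmem i hi)) hgpos).le
  have hslow := hd₀ d (by omega) k m I hcard g (fun _ => rfl) ⟨e, he1, hgpos⟩
  set μ := d / (4 * T) with hμ
  have hμd : 4 * T * μ ≤ d := Nat.mul_div_le d (4 * T)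
  have hM : ∀ i ∈ J \ I, m i ≤ μ := by
    intro i hi
    rw [Finset.mem_sdiff] at hi
    have h1 : ¬ d ≤ 4 * T * m i := fun h2 => hi.2 (Finset.mem_filter.2 ⟨hi.1, h2⟩)
    rw [hμ, Nat.le_div_iff_mul_le (by omega), Nat.mul_comm]
    omega
  have habove := elem_above s e (e + μ) μ m I (J \ I) Finset.disjoint_sdiff hM (by omega) (by
    rw [Finset.union_sdiff_of_subset hIJ, ← hh]
    exact he2)
  refine slow_transfer s k d C E (e + μ) μ m I J hIJ hM ?_ g h (fun _ => rfl) hh ?_ hslow
  · by_contra hcon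
    push Not at hcon
    have h1 : 2 * T * (d + 1) ≤ 2 * T * (e + μ + μ + C) := Nat.mul_le_mul_left _ (by omega)
    have h2 : 2 * T * (d + 1) = 2 * (T * d) + 2 * T := by ring
    have h3 : 2 * T * (e + μ + μ + C) = 2 * (T * e) + 4 * T * μ + 2 * T * C := by ring
    omega
  · have h1 : g (e + μ) = generalDim (s + 2) (e + μ) fun i => if i ∈ I then m i else 0 := rfl
    rw [h1, ← habove]
    exact Nat.le_add_left _ _

/-- The points outside `J` impose independent conditions, or no form is left. -/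
theorem elem (r M : ℕ) (hr : 2 ≤ r) (k d : ℕ) (m : Fin k → ℕ) (J : Finset (Fin k))
    (hJ : ∀ i, i ∉ J → m i ≤ M) (h : ℕ → ℕ)
    (hh : ∀ j, h j = generalDim r j fun i => if i ∈ J then m i else 0) (S : ℕ)
    (hS : S = ∑ i ∈ Finset.univ.filter (fun i => i ∉ J), (m i + r - 1).choose r)
    (hor : (∃ e, e + M ≤ d + 1 ∧ S ≤ h e) ∨ (∃ e, d + M ≤ e + 1 ∧ h e ≤ S) ∧ 1 ≤ M) :
    ForGeneralPoints r k fun p => (Module.finrank ℂ (fatForms r d p m) : ℤ) =
      max 0 ((h d : ℤ) - S) := by
  classical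
  obtain ⟨s, rfl⟩ : ∃ s, r = s + 2 := ⟨r - 2, by omega⟩
  set U := Finset.univ.filter (fun i : Fin k => i ∉ J) with hU
  have hdis : Disjoint J U := by
    rw [Finset.disjoint_left]
    intro i hi1 hi2
    rw [hU, Finset.mem_filter] at hi2
    exact hi2.2 hi1
  have huni : J ∪ U = Finset.univ := by
    ext i
    rw [Finset.mem_union, hU, Finset.mem_filter]
    have := Finset.mem_univ i
    tauto
  have hm : (fun i => if i ∈ J ∪ U then m i else 0) = m := by
    funext i
    rw [huni, if_pos (Finset.mem_univ i)]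
  have hMU : ∀ i ∈ U, m i ≤ M := fun i hi => hJ i (Finset.mem_filter.1 hi).2
  rcases hor with ⟨e, he1, he2⟩ | ⟨⟨e, he1, he2⟩, hM⟩
  · have h1 := elem_below s d e M m J U hdis hMU he1 (by
      rw [← hh, ← hS]
      exact he2)
    rw [hm, ← hh, ← hS] at h1
    refine (generalDim_spec (s + 2) d m).mono fun p hp => ?_
    rw [hp, max_eq_right] <;> omega
  · have h0 : generalDim (s + 2) d m = 0 := by
      by_contra hcon
      have h1 := elem_above s d e M m J U hdis hMU he1 (by
        rw [hm]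
        omega)
      rw [hm, ← hh, ← hS] at h1
      have h2 : generalDim (s + 2) d m ≤ generalDim (s + 2) e m :=
        generalDim_deg m (by omega)
      omega
    have h3 : h d ≤ h e := by
      rw [hh, hh]
      exact generalDim_deg _ (by omega)
    refine (generalDim_spec (s + 2) d m).mono fun p hp => ?_
    rw [hp, h0, max_eq_left] <;> omega

end Pool.Agent.H74.BP

end

section

/-!
# The large part decides, with points of medium multiplicity

`J` is any set of the points, `μ` bounds the multiplicities outside `J`.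
-/

namespace Pool.Agent.H74.BP

open Finset Pool.Agent.H18.Fat Pool.Agent.H18.Ub Pool.Agent.H22.LU Pool.Agent.H74.CT

/-- From `L` to `J`. -/
theorem max_of_max (s k d e μ : ℕ) (m : Fin k → ℕ) (J L : Finset (Fin k)) (hJL : J ⊆ L)
    (hM : ∀ i ∈ L \ J, m i ≤ μ) (he : e + μ ≤ d + 1)
    (hS : len (s + 2) m (L \ J) ≤ generalDim (s + 2) e fun i => if i ∈ J then m i else 0)
    (hL : Max (s + 2) d m L) : Max (s + 2) d m J := by
  classical
  have h1 := elem_below s d e μ m J (L \ J) disjoint_sdiff hM he hS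
  rw [union_sdiff_of_subset hJL] at h1
  have h2 := len_split (s + 2) m hJL
  have h3 : (generalDim (s + 2) d fun i => if i ∈ L then m i else 0) + len (s + 2) m (L \ J) =
      generalDim (s + 2) d fun i => if i ∈ J then m i else 0 := h1
  refine hL.mono fun p hp => ?_
  rw [hp, ← h3, h2]
  congr 1
  push_cast
  ring

/-- Away from the window. -/
theorem max_elem (r μ : ℕ) (hr : 2 ≤ r) (k d : ℕ) (m : Fin k → ℕ) (J : Finset (Fin k))
    (hJ : ∀ i, i ∉ J → m i ≤ μ)
    (hor : (∃ e, e + μ ≤ d + 1 ∧ len r m (univ.filter fun i => i ∉ J) ≤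
        generalDim r e fun i => if i ∈ J then m i else 0) ∨
      (∃ e, d + μ ≤ e + 1 ∧ (generalDim r e fun i => if i ∈ J then m i else 0) ≤
        len r m (univ.filter fun i => i ∉ J)) ∧ 1 ≤ μ) : Max r d m J :=
  elem r μ hr k d m J hJ (fun j => generalDim r j fun i => if i ∈ J then m i else 0)
    (fun _ => rfl) _ rfl hor

end Pool.Agent.H74.BP

end
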