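import Pool.Agent.H94.LP4.H18.Ub.VDim
import Pool.Agent.H94.LP4.M06

/-! The parts of this file: H74.CT.Stage, H74.CT.Upper. -/

section

/-!
# One stage: raising the multiplicity of one node by one
-/

namespace Pool.Agent.H74.CT

open MvPolynomial Pool.Agent.H18.Fat Pool.Agent.H22.LU

theorem lin_nod_van {r : ℕ} {T : Finset ℕ} (hT : T.card ≤ r) {x : ℕ} (hx : x ∈ T) :
    VanishesToOrder (lin r (nod T)) (pt r x) 1 := by
  rw [vanishes_one_iff, eval_lin (by rw [nod_natDegree]; exact hT)]
  exact nod_eval.2 hx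

/-- The product of linear forms through the node `P`. -/
noncomputable def prodG (r : ℕ) (A : Finset ℕ) (P : ℕ) (e : ℕ → ℕ) :
    MvPolynomial (Fin (r + 1)) ℂ :=
  ∏ l ∈ A, lin r (nod {P, l}) ^ e l

theorem card_pair_le {r : ℕ} (hr : 2 ≤ r) (P l : ℕ) : ({P, l} : Finset ℕ).card ≤ r :=
  (Finset.card_le_two).trans hr

theorem prodG_hom (r : ℕ) (A : Finset ℕ) (P : ℕ) (e : ℕ → ℕ) :
    (prodG r A P e).IsHomogeneous (∑ l ∈ A, e l) := by
  unfold prodG
  refine IsHomogeneous.prod _ _ _ fun l _ => ?_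
  simpa using (lin_hom r (nod {P, l})).pow (e l)

theorem prodG_van_P {r : ℕ} (hr : 2 ≤ r) (A : Finset ℕ) (P : ℕ) (e : ℕ → ℕ) :
    VanishesToOrder (prodG r A P e) (pt r P) (∑ l ∈ A, e l) := by
  unfold prodG
  refine van_prod A fun l _ => ?_
  have h := van_pow (lin_nod_van (card_pair_le hr P l) (x := P) (by simp)) (e l)
  rwa [Nat.mul_one] at h

theorem prodG_van {r : ℕ} (hr : 2 ≤ r) (A : Finset ℕ) (P : ℕ) (e : ℕ → ℕ) {l : ℕ} (hl : l ∈ A) :
    VanishesToOrder (prodG r A P e) (pt r l) (e l) := by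
  unfold prodG
  have h : ∑ x ∈ A, (if x = l then e x else 0) = e l := by
    rw [Finset.sum_ite_eq' A l e, if_pos hl]
  rw [← h]
  refine van_prod A fun x _ => ?_
  by_cases hx : x = l
  · rw [if_pos hx]
    have h := van_pow (lin_nod_van (card_pair_le hr P x) (x := l) (by simp [hx])) (e x)
    rwa [Nat.mul_one] at h
  · rw [if_neg hx]
    exact vanishes_zero _ _

theorem nod_pair {P l : ℕ} (h : l ≠ P) : nod {P, l} =
    (Polynomial.X - Polynomial.C (P : ℂ)) * (Polynomial.X - Polynomial.C (l : ℂ)) := by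
  unfold nod
  rw [Finset.prod_pair (Ne.symm h)]

theorem prodG_not {r : ℕ} (hr : 2 ≤ r) (A : Finset ℕ) (P : ℕ) (hP : P ∉ A) (e : ℕ → ℕ) :
    ¬ VanishesToOrder (prodG r A P e) (pt r P) (∑ l ∈ A, e l + 1) := by
  intro h
  have h1 := pow_dvd_aeval (a := (P : ℂ))
    (fun a : Fin (r + 1) => (Polynomial.X : Polynomial ℂ) ^ (a : ℕ)) (fun a => by
      rw [Polynomial.eval_pow, Polynomial.eval_X]
      rfl) h
  have h2 : aeval (fun a : Fin (r + 1) => (Polynomial.X : Polynomial ℂ) ^ (a : ℕ))
      (prodG r A P e) = (Polynomial.X - Polynomial.C (P : ℂ)) ^ (∑ l ∈ A, e l) *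
        ∏ l ∈ A, (Polynomial.X - Polynomial.C (l : ℂ)) ^ e l := by
    unfold prodG
    rw [map_prod, ← Finset.prod_pow_eq_pow_sum, ← Finset.prod_mul_distrib]
    refine Finset.prod_congr rfl fun l hl => ?_
    rw [map_pow, aeval_lin (by rw [nod_natDegree]; exact card_pair_le hr P l),
      nod_pair (by rintro rfl; exact hP hl), mul_pow]
  rw [h2, pow_succ, mul_dvd_mul_iff_left (pow_ne_zero _ (Polynomial.X_sub_C_ne_zero _)),
    Polynomial.dvd_iff_isRoot, Polynomial.IsRoot, Polynomial.eval_prod,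
    Finset.prod_eq_zero_iff] at h1
  obtain ⟨l, hl, h3⟩ := h1
  rw [Polynomial.eval_pow, Polynomial.eval_sub, Polynomial.eval_X, Polynomial.eval_C] at h3
  have h5 : (P : ℂ) - l = 0 := by
    by_contra hcon
    exact pow_ne_zero _ hcon h3
  rw [sub_eq_zero] at h5
  have h6 : P = l := by exact_mod_cast h5
  exact hP (h6 ▸ hl)

/-- Multiplicities: `m` on `A`, `i` at `P`, `0` elsewhere. -/
def mm (A : Finset ℕ) (m : ℕ → ℕ) (P i : ℕ) : ℕ → ℕ :=
  fun l => if l ∈ A then m l else if l = P then i else 0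

/-- The choice of the other `r` nodes. -/
theorem exists_nodes (r : ℕ) (A : Finset ℕ) (P : ℕ) (hP : P ∉ A) :
    ∃ T : Finset ℕ, T.card = r ∧ P ∉ T ∧ (T ⊆ A ∨ A ⊆ T) := by
  rcases le_total r A.card with h | h
  · obtain ⟨T, hT, hc⟩ := Finset.exists_subset_card_eq h
    exact ⟨T, hc, fun hPT => hP (hT hPT), Or.inl hT⟩
  · obtain ⟨B, hB1, hB2⟩ := Infinite.exists_superset_card_eq (insert P A) (r + 1)
      ((Finset.card_insert_le _ _).trans (by omega))
    refine ⟨B.erase P, ?_, Finset.notMem_erase P B, Or.inr fun l hl => ?_⟩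
    · rw [Finset.card_erase_of_mem (hB1 (Finset.mem_insert_self P A)), hB2]
      rfl
    · exact Finset.mem_erase.2 ⟨fun h3 => hP (h3 ▸ hl), hB1 (Finset.mem_insert_of_mem hl)⟩

/-- Stage lemma. -/
theorem stage (r j i : ℕ) (hr : 2 ≤ r) (A : Finset ℕ) (P : ℕ) (hP : P ∉ A) (m : ℕ → ℕ)
    (hij : i ≤ j) (hmi : ∀ l ∈ A, i < m l) (g : ℕ) (hg : g = ∑ l ∈ A, (m l + i - j))
    (hgi : g ≤ i) (hsum : ∑ l ∈ A, m l + i + (r - 2) * g ≤ r * j) :
    Module.finrank ℂ (fatForms r j (fun l : ℕ => pt r l) (mm A m P (i + 1))) +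
      (i - g + (r - 1)).choose (r - 1) ≤
      Module.finrank ℂ (fatForms r j (fun l : ℕ => pt r l) (mm A m P i)) := by
  classical
  obtain ⟨T, hTc, hPT, hTA⟩ := exists_nodes r A P hP
  set τ : Fin r → ℕ := fun u => T.orderEmbOfFin hTc u with hτ
  have hτm : ∀ u, τ u ∈ T := fun u => T.orderEmbOfFin_mem hTc u
  have hτi : ∀ u v, τ u = τ v → u = v := fun u v h => (T.orderEmbOfFin hTc).injective h
  have hτs : ∀ l ∈ T, ∃ u, τ u = l := by
    intro l hl
    have h1 : l ∈ Set.range (T.orderEmbOfFin hTc) := by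
      rw [Finset.range_orderEmbOfFin]
      exact hl
    obtain ⟨u, hu⟩ := h1
    exact ⟨u, hu⟩
  have hPτ : ∀ u, P ≠ τ u := fun u h => hPT (h ▸ hτm u)
  -- the linear forms
  set Tu : Fin r → Finset ℕ := fun u => insert P (T.erase (τ u)) with hTu
  have hTuc : ∀ u, (Tu u).card = r := by
    intro u
    rw [hTu]
    dsimp only
    rw [Finset.card_insert_of_notMem (fun h => hPT (Finset.mem_of_mem_erase h)),
      Finset.card_erase_of_mem (hτm u), hTc]
    omega
  have hTum : ∀ u v, τ v ∈ Tu u ↔ u ≠ v := by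
    intro u v
    rw [hTu]
    dsimp only
    rw [Finset.mem_insert, Finset.mem_erase]
    constructor
    · rintro (h | h)
      · exact absurd h.symm (hPτ v)
      · exact fun h3 => h.1 (by rw [h3])
    · intro h
      exact Or.inr ⟨fun h3 => h (hτi _ _ h3).symm, hτm v⟩
  set Xs : Fin r → MvPolynomial (Fin (r + 1)) ℂ := fun u => lin r (nod (Tu u)) with hXs
  have hdeg : ∀ u, (nod (Tu u)).natDegree ≤ r := fun u => by rw [nod_natDegree, hTuc]
  have hne : ∀ u, (nod (Tu u)).eval ((τ u : ℕ) : ℂ) ≠ 0 := fun u h => by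
    have := (hTum u u).1 (nod_eval.1 h)
    exact this rfl
  -- the parametrisation near `P`
  set σ : Fin (r + 1) → MvPolynomial (Fin r) ℂ := fun a =>
    C (pt r P a) + ∑ v, C (pt r (τ v) a / (nod (Tu v)).eval ((τ v : ℕ) : ℂ)) * X v with hσ
  have hσ0 : ∀ a, eval 0 (σ a) = pt r P a := by
    intro a
    rw [hσ]
    simp
  have hσX : ∀ u, aeval σ (Xs u) = X u := by
    intro u
    have h1 : aeval σ (Xs u) = C (eval (pt r P) (Xs u)) +
        ∑ v, C (eval (pt r (τ v)) (Xs u) / (nod (Tu v)).eval ((τ v : ℕ) : ℂ)) * X v := by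
      rw [hXs]
      dsimp only
      unfold lin
      rw [map_sum, map_sum]
      simp only [map_sum, map_mul, aeval_X, aeval_C, eval_C, eval_X, algebraMap_eq]
      rw [hσ]
      simp only [mul_add, Finset.sum_add_distrib, Finset.mul_sum]
      congr 1
      rw [Finset.sum_comm]
      refine Finset.sum_congr rfl fun v _ => ?_
      rw [Finset.sum_div, map_sum, Finset.sum_mul]
      refine Finset.sum_congr rfl fun a _ => ?_
      rw [← mul_assoc, ← C_mul, mul_div_assoc]
    rw [h1, eval_lin (hdeg u), nod_eval.2 (by rw [hTu]; exact Finset.mem_insert_self _ _), C_0,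
      zero_add, Finset.sum_eq_single u]
    · rw [eval_lin (hdeg u), div_self (hne u), C_1, one_mul]
    · intro v _ hvu
      rw [eval_lin (hdeg u), nod_eval.2 ((hTum u v).2 (Ne.symm hvu)), zero_div, C_0, zero_mul]
    · intro h
      exact absurd (Finset.mem_univ u) h
  -- the contribution of the linear forms
  set e : ℕ → ℕ := fun l => m l + i - j with he
  set ctr : (Fin r →₀ ℕ) → ℕ → ℕ := fun c l =>
    ∑ u, if l ∈ T ∧ τ u ≠ l then c u else 0 with hctr
  set w : (Fin r →₀ ℕ) → ℕ → ℕ := fun c l => m l - e l - ctr c l with hw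
  have hwle : ∀ c, ∀ l ∈ A, w c l ≤ j - i := by
    intro c l hl
    rw [hw, he]
    dsimp only
    have := hmi l hl
    omega
  have hel : ∀ l ∈ A, e l ≤ g := by
    intro l hl
    rw [hg]
    exact Finset.single_le_sum (f := e) (fun _ _ => Nat.zero_le _) hl
  have hwsum : ∀ c ∈ mons r (i - g), ∑ l ∈ A, w c l ≤ r * (j - i) := by
    intro c hc
    rcases hTA with hTA | hAT
    · -- no waste
      have hcs : ∑ u, c u = i - g := by
        rw [← Finsupp.degree_eq_sum]
        exact mem_mons.1 hc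
      have hctrle : ∀ l ∈ A, ctr c l ≤ m l - e l := by
        intro l hl
        have h1 : ctr c l ≤ i - g := by
          rw [← hcs, hctr]
          dsimp only
          refine Finset.sum_le_sum fun u _ => ?_
          split_ifs
          · exact le_rfl
          · exact Nat.zero_le _
        have h2 := hel l hl
        have h3 := hmi l hl
        rw [he] at h2 ⊢
        dsimp only at h2 ⊢
        omega
      have hsumctr : ∑ l ∈ A, ctr c l = (r - 1) * (i - g) := by
        rw [hctr]
        dsimp only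
        rw [Finset.sum_comm, ← hcs, Finset.mul_sum]
        refine Finset.sum_congr rfl fun u _ => ?_
        rw [← Finset.sum_filter]
        rw [Finset.sum_const, smul_eq_mul]
        congr 1
        have h1 : A.filter (fun l => l ∈ T ∧ τ u ≠ l) = T.erase (τ u) := by
          ext l
          rw [Finset.mem_filter, Finset.mem_erase]
          constructor
          · rintro ⟨_, h2, h3⟩
            exact ⟨fun h4 => h3 h4.symm, h2⟩
          · rintro ⟨h2, h3⟩
            exact ⟨hTA h3, h3, fun h4 => h2 h4.symm⟩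
        rw [h1, Finset.card_erase_of_mem (hτm u), hTc]
      have hadd : ∑ l ∈ A, w c l + ∑ l ∈ A, ctr c l + ∑ l ∈ A, e l = ∑ l ∈ A, m l := by
        rw [← Finset.sum_add_distrib, ← Finset.sum_add_distrib]
        refine Finset.sum_congr rfl fun l hl => ?_
        have h1 := hctrle l hl
        have h2 : e l ≤ m l := by
          rw [he]
          dsimp only
          omega
        rw [hw]
        dsimp only
        omega
      rw [hsumctr] at hadd
      have hge : ∑ l ∈ A, e l = g := hg.symm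
      rw [hge] at hadd
      obtain ⟨r', rfl⟩ : ∃ r', r = r' + 2 := ⟨r - 2, by omega⟩
      obtain ⟨x, hx⟩ : ∃ x, i = g + x := ⟨i - g, by omega⟩
      obtain ⟨y, hy⟩ : ∃ y, j = i + y := ⟨j - i, by omega⟩
      have h3 : r' + 2 - 1 = r' + 1 := by omega
      have h4 : r' + 2 - 2 = r' := by omega
      have h5 : i - g = x := by omega
      have h6 : j - i = y := by omega
      rw [h3, h5] at hadd
      rw [h4] at hsum
      rw [h6]
      subst hy
      subst hx
      nlinarith
    · -- at most `r` nodes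
      have hAr : A.card ≤ r := by
        rw [← hTc]
        exact Finset.card_le_card hAT
      calc ∑ l ∈ A, w c l ≤ ∑ _l ∈ A, (j - i) := Finset.sum_le_sum fun l hl => hwle c l hl
        _ = A.card * (j - i) := by rw [Finset.sum_const, smul_eq_mul]
        _ ≤ r * (j - i) := Nat.mul_le_mul_right _ hAr
  -- the products of linear forms not passing through `P`
  have hcov : ∀ c : mons r (i - g), ∃ H : MvPolynomial (Fin (r + 1)) ℂ, H.IsHomogeneous (j - i) ∧
      (∀ x : ℕ, x ∉ A → eval (pt r x) H ≠ 0) ∧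
      ∀ l ∈ A, VanishesToOrder H (pt r l) (w c.1 l) := fun c =>
    cover r (j - i) (w c.1) A (hwle c.1) (hwsum c.1 c.2)
  choose H hH1 hH2 hH3 using hcov
  set G := prodG r A P e with hG
  have hGnot : ¬ VanishesToOrder G (pt r P) (g + 1) := by
    rw [hg]
    exact prodG_not hr A P hP e
  have hGhom : G.IsHomogeneous g := by
    rw [hg]
    exact prodG_hom r A P e
  have hGP : VanishesToOrder G (pt r P) g := by
    rw [hg]
    exact prodG_van_P hr A P e
  have hXsP : ∀ u, VanishesToOrder (Xs u) (pt r P) 1 := fun u =>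
    lin_nod_van (hTuc u).le (by rw [hTu]; exact Finset.mem_insert_self _ _)
  have hXsl : ∀ (c : Fin r →₀ ℕ) (l : ℕ),
      VanishesToOrder (∏ u, Xs u ^ (c u)) (pt r l) (ctr c l) := by
    intro c l
    refine van_prod Finset.univ fun u _ => ?_
    by_cases h : l ∈ T ∧ τ u ≠ l
    · rw [if_pos h]
      have h1 : l ∈ Tu u := by
        obtain ⟨v, hv⟩ := hτs l h.1
        rw [← hv, hTum]
        intro h3
        exact h.2 (by rw [h3, hv])
      have h2 := van_pow (lin_nod_van (hTuc u).le h1) (c u)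
      rwa [Nat.mul_one] at h2
    · rw [if_neg h]
      exact vanishes_zero _ _
  have hXsP' : ∀ c : mons r (i - g),
      VanishesToOrder (∏ u, Xs u ^ (c.1 u)) (pt r P) (i - g) := by
    intro c
    have h1 : ∑ u, c.1 u = i - g := by
      rw [← Finsupp.degree_eq_sum]
      exact mem_mons.1 c.2
    refine van_mono (a := ∑ u, c.1 u) (van_prod Finset.univ fun u _ => ?_) h1.ge
    have h2 := van_pow (hXsP u) (c.1 u)
    rwa [Nat.mul_one] at h2
  have hXshom : ∀ c : mons r (i - g), (∏ u, Xs u ^ (c.1 u)).IsHomogeneous (i - g) := by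
    intro c
    have h1 : ∑ u, c.1 u = i - g := by
      rw [← Finsupp.degree_eq_sum]
      exact mem_mons.1 c.2
    have h2 : (∏ u, Xs u ^ (c.1 u)).IsHomogeneous (∑ u, c.1 u) := by
      refine IsHomogeneous.prod _ _ _ fun u _ => ?_
      simpa using (lin_hom r (nod (Tu u))).pow (c.1 u)
    exact Eq.mp (congrArg (fun x => (∏ u, Xs u ^ (c.1 u)).IsHomogeneous x) h1) h2
  have hU : FiniteDimensional ℂ (fatForms r j (fun l : ℕ => pt r l) (mm A m P i)) :=
    fin_fatForms _ _ _ _
  have hle : fatForms r j (fun l : ℕ => pt r l) (mm A m P (i + 1)) ≤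
      fatForms r j (fun l : ℕ => pt r l) (mm A m P i) := by
    intro F hF
    refine ⟨hF.1, fun l => van_mono (hF.2 l) ?_⟩
    unfold mm
    split_ifs <;> omega
  have hcard : Fintype.card (mons r (i - g)) = (i - g + (r - 1)).choose (r - 1) := by
    obtain ⟨r', rfl⟩ : ∃ r', r = r' + 1 := ⟨r - 1, by omega⟩
    rw [Fintype.card_coe, card_mons]
    rfl
  have hfin := finrank_stage (fatForms r j (fun l : ℕ => pt r l) (mm A m P i))
    (fatForms r j (fun l : ℕ => pt r l) (mm A m P (i + 1))) hle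
    (fun c : mons r (i - g) => G * ((∏ u, Xs u ^ (c.1 u)) * H c)) (fun c => ?_) fun a ha => ?_
  · rw [hcard] at hfin
    exact hfin
  · -- membership
    refine ⟨?_, fun l => ?_⟩
    · have h1 := hGhom.mul ((hXshom c).mul (hH1 c))
      have h2 : g + (i - g + (j - i)) = j := by omega
      rw [h2] at h1
      exact h1
    · unfold mm
      dsimp only
      by_cases hl : l ∈ A
      · rw [if_pos hl]
        refine van_mono (van_mul (prodG_van hr A P e hl) (van_mul (hXsl c.1 l) (hH3 c l hl))) ?_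
        rw [hw]
        dsimp only
        omega
      · rw [if_neg hl]
        by_cases hlP : l = P
        · rw [if_pos hlP, hlP]
          refine van_mono (van_mul hGP (van_mul (hXsP' c) (vanishes_zero _ (H c)))) ?_
          omega
        · rw [if_neg hlP]
          exact vanishes_zero _ _
  · -- independence
    refine indep_core hGnot Xs H (fun c => hH2 c P hP) σ hσ0 hσX a ?_
    have h1 := ha.2 P
    unfold mm at h1
    rw [if_neg hP, if_pos rfl] at h1
    have h2 : g + (i - g) + 1 = i + 1 := by omega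
    rw [h2]
    exact h1

end Pool.Agent.H74.CT

end

section

/-!
# Upper bound for the dimension, by adding the nodes in the order of decreasing multiplicity
-/

namespace Pool.Agent.H74.CT

open MvPolynomial Pool.Agent.H18.Fat Pool.Agent.H22.LU

/-- Multiplicities `m` on `A`, `0` elsewhere. -/
def on {ι : Type*} [DecidableEq ι] (A : Finset ι) (m : ι → ℕ) : ι → ℕ :=
  fun l => if l ∈ A then m l else 0

theorem mm_zero (A : Finset ℕ) (m : ℕ → ℕ) (P : ℕ) : mm A m P 0 = on A m := by
  funext l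
  unfold mm on
  split_ifs <;> rfl

theorem mm_self (A : Finset ℕ) (m : ℕ → ℕ) (P : ℕ) :
    mm A m P (m P) = on (insert P A) m := by
  funext l
  unfold mm on
  by_cases h1 : l ∈ A
  · rw [if_pos h1, if_pos (Finset.mem_insert_of_mem h1)]
  · by_cases h2 : l = P
    · subst h2
      rw [if_neg h1, if_pos rfl, if_pos (Finset.mem_insert_self _ _)]
    · rw [if_neg h1, if_neg h2, if_neg]
      rw [Finset.mem_insert]
      tauto

/-- Raising the multiplicity of one node. -/
theorem raise (r j : ℕ) (hr : 2 ≤ r) (A : Finset ℕ) (P : ℕ) (hP : P ∉ A) (m : ℕ → ℕ)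
    (γ : ℕ → ℕ) : ∀ n : ℕ, (∀ l ∈ A, n ≤ m l) → (∀ i < n, i ≤ j ∧
      ∑ l ∈ A, (m l + i - j) ≤ γ i ∧ γ i ≤ i ∧ ∑ l ∈ A, m l + i + (r - 2) * γ i ≤ r * j) →
    Module.finrank ℂ (fatForms r j (fun l : ℕ => pt r l) (mm A m P n)) +
      ∑ i ∈ Finset.range n, (i - γ i + (r - 1)).choose (r - 1) ≤
      Module.finrank ℂ (fatForms r j (fun l : ℕ => pt r l) (on A m)) := by
  intro n
  induction n with
  | zero =>
    intro _ _
    rw [Finset.range_zero, Finset.sum_empty, Nat.add_zero, mm_zero]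
  | succ n ih =>
    intro h1 h2
    have h3 := ih (fun l hl => (Nat.le_succ n).trans (h1 l hl)) fun i hi => h2 i (by omega)
    obtain ⟨h4, h5, h6, h7⟩ := h2 n (Nat.lt_succ_self n)
    have h8 := stage r j n hr A P hP m h4 (fun l hl => h1 l hl) _ rfl (h5.trans h6)
      (le_trans (Nat.add_le_add_left (Nat.mul_le_mul_left _ h5) _) h7)
    have h9 : (n - γ n + (r - 1)).choose (r - 1) ≤
        (n - ∑ l ∈ A, (m l + n - j) + (r - 1)).choose (r - 1) :=
      Nat.choose_le_choose _ (by omega)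
    rw [Finset.sum_range_succ]
    omega

theorem finrank_le_mons (r j : ℕ) {ι : Type*} (p : ι → Fin (r + 1) → ℂ) (m : ι → ℕ) :
    Module.finrank ℂ (fatForms r j p m) ≤ (j + r).choose r := by
  have h1 : fatForms r j p m ≤ LinearMap.range (toPoly (r + 1) j) := fun F hF =>
    ⟨fun α => coeff α.1 F, exists_toPoly hF.1⟩
  have h2 := Submodule.finrank_mono h1
  have h3 := LinearMap.finrank_range_le (toPoly (r + 1) j)
  rw [Module.finrank_fintype_fun_eq_card, Fintype.card_coe, card_mons] at h3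
  exact h2.trans h3

theorem upper (r j : ℕ) (hr : 2 ≤ r) (m : ℕ → ℕ) (γ : ℕ → ℕ → ℕ) (J : Finset ℕ)
    (hmj : ∀ P ∈ J, m P ≤ j + 1)
    (hγ : ∀ P ∈ J, ∀ i < m P, ∑ l ∈ J.filter (fun l => l ≠ P ∧ m P ≤ m l), (m l + i - j) ≤ γ P i ∧
      γ P i ≤ i ∧ ∑ l ∈ J, m l + (r - 2) * γ P i ≤ r * j + 1) :
    Module.finrank ℂ (fatForms r j (fun l : ℕ => pt r l) (on J m)) +
      ∑ P ∈ J, ∑ i ∈ Finset.range (m P), (i - γ P i + (r - 1)).choose (r - 1) ≤
      (j + r).choose r := by
  have key : ∀ A : Finset ℕ, A ⊆ J →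
      Module.finrank ℂ (fatForms r j (fun l : ℕ => pt r l) (on A m)) +
      ∑ P ∈ A, ∑ i ∈ Finset.range (m P), (i - γ P i + (r - 1)).choose (r - 1) ≤
      (j + r).choose r := by
    intro A
    induction A using Finset.induction_on_min_value m with
    | empty =>
      intro _
      rw [Finset.sum_empty, Nat.add_zero]
      exact finrank_le_mons _ _ _ _
    | insert P A hP hmin ih =>
      intro hAJ
      have hPJ : P ∈ J := hAJ (Finset.mem_insert_self P A)
      have hAJ' : A ⊆ J := fun l hl => hAJ (Finset.mem_insert_of_mem hl)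
      have h1 := ih hAJ'
      have h2 := raise r j hr A P hP m (γ P) (m P) hmin fun i hi => by
        obtain ⟨h3, h4, h5⟩ := hγ P hPJ i hi
        have h6 := hmj P hPJ
        refine ⟨by omega, le_trans (Finset.sum_le_sum_of_subset fun l hl => ?_) h3, h4, ?_⟩
        · refine Finset.mem_filter.2 ⟨hAJ' hl, fun h => hP (h ▸ hl), hmin l hl⟩
        · have h7 : ∑ l ∈ insert P A, m l ≤ ∑ l ∈ J, m l := Finset.sum_le_sum_of_subset hAJ
          rw [Finset.sum_insert hP] at h7
          omega
      rw [mm_self] at h2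
      rw [Finset.sum_insert hP]
      omega
  exact key J (Finset.Subset.refl J)

/-- Upper bound for the dimension for general points. -/
theorem upper_fin (r j k : ℕ) (hr : 2 ≤ r) (m : Fin k → ℕ) (γ : Fin k → ℕ → ℕ)
    (J : Finset (Fin k)) (hmj : ∀ P ∈ J, m P ≤ j + 1)
    (hγ : ∀ P ∈ J, ∀ i < m P, ∑ l ∈ J.filter (fun l => l ≠ P ∧ m P ≤ m l), (m l + i - j) ≤ γ P i ∧
      γ P i ≤ i ∧ ∑ l ∈ J, m l + (r - 2) * γ P i ≤ r * j + 1) :
    (generalDim r j fun i => if i ∈ J then m i else 0) +
      ∑ P ∈ J, ∑ i ∈ Finset.range (m P), (i - γ P i + (r - 1)).choose (r - 1) ≤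
      (j + r).choose r := by
  classical
  set m' : ℕ → ℕ := fun l => if h : l < k then m ⟨l, h⟩ else 0 with hm'
  set γ' : ℕ → ℕ → ℕ := fun l => if h : l < k then γ ⟨l, h⟩ else 0 with hγ'
  set J' : Finset ℕ := J.map Fin.valEmbedding with hJ'
  have hmv : ∀ i : Fin k, m' i.1 = m i := fun i => by
    rw [hm']
    dsimp only
    rw [dif_pos i.2]
  have hγv : ∀ i : Fin k, γ' i.1 = γ i := fun i => by
    rw [hγ']
    dsimp only
    rw [dif_pos i.2]
  have hsumJ : ∀ f : ℕ → ℕ, ∑ l ∈ J', f l = ∑ l ∈ J, f l.1 := fun f => by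
    rw [hJ', Finset.sum_map]
    rfl
  have h1 := upper r j hr m' γ' J' (fun P hP => ?_) (fun P hP i hi => ?_)
  · rw [hsumJ] at h1
    have h2 : ∑ l ∈ J, ∑ i ∈ Finset.range (m' l.1), (i - γ' l.1 i + (r - 1)).choose (r - 1) =
        ∑ P ∈ J, ∑ i ∈ Finset.range (m P), (i - γ P i + (r - 1)).choose (r - 1) := by
      refine Finset.sum_congr rfl fun P _ => ?_
      rw [hmv, hγv]
    rw [h2] at h1
    refine le_trans (Nat.add_le_add_right ?_ _) h1
    refine Nat.sInf_le ⟨fun i : Fin k => pt r (i.1 : ℕ), ?_⟩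
    have h3 : fatForms r j (fun i : Fin k => pt r (i.1 : ℕ)) (fun i => if i ∈ J then m i else 0) =
        fatForms r j (fun l : ℕ => pt r l) (on J' m') := by
      ext F
      constructor
      · intro hF
        refine ⟨hF.1, fun l => ?_⟩
        unfold on
        by_cases hl : l ∈ J'
        · rw [if_pos hl]
          rw [hJ', Finset.mem_map] at hl
          obtain ⟨i, hi, rfl⟩ := hl
          have h4 := hF.2 i
          dsimp only at h4
          rw [if_pos hi] at h4
          rw [Fin.valEmbedding_apply, hmv]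
          exact h4
        · rw [if_neg hl]
          exact vanishes_zero _ _
      · intro hF
        refine ⟨hF.1, fun i => ?_⟩
        dsimp only
        by_cases hi : i ∈ J
        · rw [if_pos hi]
          have h4 := hF.2 i.1
          unfold on at h4
          rw [if_pos (by rw [hJ', Finset.mem_map]; exact ⟨i, hi, rfl⟩), hmv] at h4
          exact h4
        · rw [if_neg hi]
          exact vanishes_zero _ _
    exact congrArg (fun V : Submodule ℂ (MvPolynomial (Fin (r + 1)) ℂ) => Module.finrank ℂ V) h3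
  · rw [hJ', Finset.mem_map] at hP
    obtain ⟨i, hi, rfl⟩ := hP
    rw [Fin.valEmbedding_apply, hmv]
    exact hmj i hi
  · rw [hJ', Finset.mem_map] at hP
    obtain ⟨x, hx, rfl⟩ := hP
    rw [Fin.valEmbedding_apply] at hi ⊢
    rw [hmv] at hi
    have h4 := hγ x hx i hi
    rw [hγv, hmv, hsumJ]
    have h5 : ∑ l ∈ J'.filter (fun l => l ≠ x.1 ∧ m x ≤ m' l), (m' l + i - j) =
        ∑ l ∈ J.filter (fun l => l ≠ x ∧ m x ≤ m l), (m l + i - j) := by
      rw [Finset.sum_filter, Finset.sum_filter, hsumJ]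
      refine Finset.sum_congr rfl fun l _ => ?_
      rw [hmv]
      have h6 : (l.1 ≠ x.1 ∧ m x ≤ m l) ↔ (l ≠ x ∧ m x ≤ m l) := by
        rw [Ne, Ne, Fin.val_inj]
      by_cases h7 : l ≠ x ∧ m x ≤ m l
      · rw [if_pos h7, if_pos (h6.2 h7)]
      · rw [if_neg h7, if_neg fun h8 => h7 (h6.1 h8)]
    have h6 : ∑ l ∈ J, m' l.1 = ∑ l ∈ J, m l := Finset.sum_congr rfl fun l _ => hmv l
    rw [h5, h6]
    exact h4

end Pool.Agent.H74.CT

end
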