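import Pool.Agent.H94.LP4.H18.Nef.LineImage
import Pool.Agent.H94.LP4.M48
import Pool.Agent.H94.LP4.M53

/-! The parts of this file: H18.Nef.NefC_2, H74.BP.Eight. -/

section

/-!
# Nef classes with at most eight large multiplicities
-/

namespace Pool.Agent.H18.Nef

open Finset Pool.Agent.H18.Cub Pool.Agent.H18.Pr Pool.Agent.H18.Fat Pool.Agent.H18.Ub

variable {n : ℕ}

theorem NefC.two {d : ℕ} {m : Fin n → ℕ} (h : NefC d m) {i j : Fin n} (hij : i ≠ j) :
    m i + m j ≤ d := by
  have h1 := h 1 (fun x => (if x = i then 1 else 0) + if x = j then 1 else 0) (by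
    have h2 := generalDim_ge (r := 2) (by norm_num) 1
      (fun x : Fin n => (if x = i then 1 else 0) + if x = j then 1 else 0)
    have h3 : ∑ x : Fin n, (((if x = i then 1 else 0) + (if x = j then 1 else 0) + 2 - 1 :
        ℕ).choose 2 : ℤ) = 2 := by
      have h4 : ∀ x : Fin n, (((if x = i then 1 else 0) + (if x = j then 1 else 0) + 2 - 1 :
          ℕ).choose 2 : ℤ) = (if x = i then 1 else 0) + if x = j then 1 else 0 := by
        intro x
        by_cases hi : x = i
        · subst hi
          rw [if_pos rfl, if_neg hij, if_pos rfl, if_neg hij]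
          norm_num
        · by_cases hj : x = j
          · subst hj
            rw [if_neg hi, if_pos rfl, if_neg hi, if_pos rfl]
            norm_num
          · rw [if_neg hi, if_neg hj, if_neg hi, if_neg hj]
            norm_num
      rw [sum_congr rfl fun x _ => h4 x, sum_add_distrib]
      simp
    rw [h3] at h2
    norm_num at h2
    omega)
  have h5 : ∑ x, m x * ((if x = i then 1 else 0) + if x = j then 1 else 0) = m i + m j := by
    have h6 : ∀ x, m x * ((if x = i then 1 else 0) + if x = j then 1 else 0) =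
        (if x = i then m x else 0) + (if x = j then m x else 0) := by
      intro x
      split_ifs <;> ring
    rw [sum_congr rfl fun x _ => h6 x, sum_add_distrib]
    simp
  rw [h5] at h1
  omega

/-- The Cremona image of an effective class. -/
theorem effective_crm {e : ℕ} {k : Fin n → ℕ} (hdim : 1 ≤ generalDim 2 e k) {a b c : Fin n}
    (hab : a ≠ b) (hac : a ≠ c) (hbc : b ≠ c) :
    ∃ s', k a + k b + k c + s' = 2 * e ∧
      generalDim 2 s' (crm e k a b c s') = generalDim 2 e k := by
  obtain ⟨J3, h0, h1, h2, hJ3⟩ := emb3 hab hac hbc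
  have hsum := sum_le_of_effective k hdim J3
  have hs3 : ∑ l, k (J3 l) = k a + k b + k c := by
    rw [Fin.sum_univ_three, h0, h1, h2]
  rw [hs3] at hsum
  refine ⟨2 * e - (k a + k b + k c), by omega, ?_⟩
  refine generalDim_cremona k _ J3 (fun l => le_of_effective k hdim _) (by rw [hs3]; omega)
    (fun l => ?_) (fun i hi => ?_)
  · refine if_pos ?_
    by_contra hcon
    exact (hJ3 (J3 l)).2 hcon l rfl
  · exact if_neg ((hJ3 i).1 hi)

/-- Nef classes are preserved. -/
theorem NefC.step {d : ℕ} {m : Fin n → ℕ} (h : NefC d m)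
    {a b c : Fin n} (hab : a ≠ b) (hac : a ≠ c) (hbc : b ≠ c)
    {s : ℕ} (hμ : m a + m b + m c + s = 2 * d) : NefC s (crm d m a b c s) := by
  intro e k hdim
  obtain ⟨s', h1, h3⟩ := effective_crm hdim hab hac hbc
  have h4 := h s' (crm e k a b c s') (by rw [h3]; exact hdim)
  have h5 := pairing hab hac hbc hμ h1 (h.two hbc) (h.two hac) (h.two hab)
  have h6 : ((∑ i, m i * crm e k a b c s' i : ℕ) : ℤ) ≤ ((d * s' : ℕ) : ℤ) := by
    exact_mod_cast h4
  push_cast at h6
  have h7 : ((∑ i, crm d m a b c s i * k i : ℕ) : ℤ) ≤ ((s * e : ℕ) : ℤ) := by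
    push_cast
    linarith only [h6, h5]
  exact_mod_cast h7

/-- The Cremona images of a line are nef and effective. -/
theorem LineImage.nef {e : ℕ} {k : Fin n → ℕ} (h : LineImage e k) :
    NefC e k ∧ 1 ≤ generalDim 2 e k := by
  induction h with
  | line =>
    refine ⟨fun e k _ => by simp, ?_⟩
    have h2 := generalDim_ge (r := 2) (by norm_num) 1 (fun _ : Fin n => 0)
    have h3 : ∑ i : Fin n, (((fun _ : Fin n => 0) i + 2 - 1 : ℕ).choose 2 : ℤ) = 0 := by
      simp
    rw [h3] at h2
    norm_num at h2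
    omega
  | @step e s k a b c _ hab hac hbc hka hkb hkc hs ih =>
    refine ⟨ih.1.step hab hac hbc hs, ?_⟩
    obtain ⟨s', h1, h2⟩ := effective_crm ih.2 hab hac hbc
    have h3 : s' = s := by omega
    subst h3
    have h4 : 1 ≤ generalDim 2 s' (crm e k a b c s') := by
      rw [h2]
      exact ih.2
    exact h4

/-- Nef classes of large reduced degree. -/
structure PosE (D : ℕ) (d : ℕ) (m : Fin n → ℕ) : Prop where
  nef : ∀ (e : ℕ) (k : Fin n → ℕ), 1 ≤ generalDim 2 e k → ∑ i, m i * k i ≤ d * e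
  big : ∀ (e : ℕ) (k : Fin n → ℕ), LineImage e k → ∑ i, m i * k i + D ≤ d * e

theorem PosE.deg {D : ℕ} {d : ℕ} {m : Fin n → ℕ} (h : PosE D d m) : D ≤ d := by
  have h1 := h.big 1 (fun _ => 0) LineImage.line
  simpa using h1

theorem PosE.one {D : ℕ} {d : ℕ} {m : Fin n → ℕ} (h : PosE D d m) (i : Fin n) : m i ≤ d :=
  NefC.one h.nef i

theorem PosE.two {D : ℕ} {d : ℕ} {m : Fin n → ℕ} (h : PosE D d m) {i j : Fin n} (hij : i ≠ j) :
    m i + m j ≤ d := NefC.two h.nef hij

/-- One Cremona transformation. -/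
theorem PosE.step {D : ℕ} {d : ℕ} {m : Fin n → ℕ} (h : PosE D d m)
    {a b c : Fin n} (hab : a ≠ b) (hac : a ≠ c) (hbc : b ≠ c)
    {s : ℕ} (hμ : m a + m b + m c + s = 2 * d) :
    PosE D s (crm d m a b c s) := by
  refine ⟨NefC.step h.nef hab hac hbc hμ, fun e k hk => ?_⟩
  have hn := hk.nef
  obtain ⟨s', h1, _⟩ := effective_crm hn.2 hab hac hbc
  have h4 := h.big s' (crm e k a b c s')
    (LineImage.step hk hab hac hbc (hn.1.two hbc) (hn.1.two hac) (hn.1.two hab) h1)
  have h5 := pairing hab hac hbc hμ h1 (h.two hbc) (h.two hac) (h.two hab)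
  have h6 : ((∑ i, m i * crm e k a b c s' i + D : ℕ) : ℤ) ≤ ((d * s' : ℕ) : ℤ) := by
    exact_mod_cast h4
  push_cast at h6
  have h7 : ((∑ i, crm d m a b c s i * k i + D : ℕ) : ℤ) ≤ ((s * e : ℕ) : ℤ) := by
    push_cast
    linarith only [h6, h5]
  exact_mod_cast h7

/-- Reduction to standard form. -/
theorem PosE.reduce {D : ℕ} {J : Finset (Fin n)} {M : ℕ} : ∀ (d : ℕ) (m : Fin n → ℕ),
    PosE D d m → (∀ i, i ∉ J → m i ≤ M) →
    ∃ (d' : ℕ) (m' : Fin n → ℕ), Cremona 2 d m d' m' ∧ PosE D d' m' ∧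
      (∀ i, i ∉ J → m' i ≤ M) ∧ (∀ S : Finset (Fin n), S.card ≤ 3 → ∑ i ∈ S, m' i ≤ d') ∧
      virt d' m' = virt d m := by
  intro d
  induction d using Nat.strong_induction_on with
  | _ d ih =>
    intro m h hM
    by_cases hstd : ∀ S : Finset (Fin n), S.card ≤ 3 → ∑ i ∈ S, m i ≤ d
    · exact ⟨d, m, Cremona.refl d m, h, hM, hstd, rfl⟩
    · push Not at hstd
      obtain ⟨S, hS3, hlt⟩ := hstd
      have hcard : S.card = 3 := by
        by_contra hne
        have h012 : S.card = 0 ∨ S.card = 1 ∨ S.card = 2 := by omega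
        rcases h012 with h0 | h1 | h2
        · rw [card_eq_zero] at h0
          rw [h0, sum_empty] at hlt
          omega
        · obtain ⟨x, rfl⟩ := card_eq_one.1 h1
          rw [sum_singleton] at hlt
          have := h.one x
          omega
        · obtain ⟨x, y, hxy, rfl⟩ := card_eq_two.1 h2
          rw [sum_pair hxy] at hlt
          have := h.two hxy
          omega
      obtain ⟨a, b, c, hab, hac, hbc, rfl⟩ := card_eq_three.1 hcard
      have hma := h.two hbc
      have hmb := h.two hac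
      have hmc := h.two hab
      have hsum : ∑ i ∈ ({a, b, c} : Finset (Fin n)), m i = m a + m b + m c := by
        rw [sum_insert (by simp [hab, hac]), sum_insert (by simp [hbc]), sum_singleton,
          add_assoc]
      rw [hsum] at hlt
      set s := 2 * d - (m a + m b + m c) with hs
      have hμ : m a + m b + m c + s = 2 * d := by omega
      obtain ⟨d', m', h1, h2, h3, h4, h5⟩ := ih s (by omega) (crm d m a b c s)
        (h.step hab hac hbc hμ) (fun i hi => by
          have h7 := hM i hi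
          show (if i = a ∨ i = b ∨ i = c then s + m i - d else m i) ≤ M
          split_ifs
          · omega
          · exact h7)
      refine ⟨d', m', ?_, h2, h3, h4, h5.trans (virt_crm hab hac hbc hμ hma hmb hmc)⟩
      obtain ⟨J3, e0, e1, e2, hJ3⟩ := emb3 hab hac hbc
      refine Cremona.step J3 (fun l => ?_) ?_ (fun l => ?_) (fun i hi => ?_) h1
      · have h6 : ∀ x, (x = a ∨ x = b ∨ x = c) → m x ≤ d := by
          rintro x (rfl | rfl | rfl) <;> omega
        apply h6
        by_contra hcon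
        exact (hJ3 (J3 l)).2 hcon l rfl
      · rw [Fin.sum_univ_three, e0, e1, e2]
        omega
      · refine if_pos ?_
        by_contra hcon
        exact (hJ3 (J3 l)).2 hcon l rfl
      · exact if_neg ((hJ3 i).1 hi)

end Pool.Agent.H18.Nef

end

section

/-!
# The class `(17; 6 ^ 8)` and nef classes on at most eight points
-/

namespace Pool.Agent.H74.BP

open Finset Pool.Agent.H18.Cub Pool.Agent.H18.Pr Pool.Agent.H18.Fat Pool.Agent.H18.Ub Pool.Agent.H18.Nef

/-- The class `(17; 6 ^ 8)` is a Cremona image of a line. -/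
theorem lineImage17 : LineImage (n := 8) 17 fun _ => 6 := by
  have h1 : LineImage (n := 8) 2 ![0, 0, 1, 0, 0, 1, 0, 1] := by
    have h := LineImage.step (n := 8) (s := 2) (a := 2) (b := 5) (c := 7) LineImage.line
      (by decide) (by decide) (by decide) (by decide) (by decide) (by decide) (by decide)
    convert h using 1
    funext i
    fin_cases i <;> rfl
  have h2 : LineImage (n := 8) 3 ![0, 0, 2, 1, 1, 1, 0, 1] := by
    have h := LineImage.step (n := 8) (s := 3) (a := 2) (b := 3) (c := 4) h1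
      (by decide) (by decide) (by decide) (by decide) (by decide) (by decide) (by decide)
    convert h using 1
    funext i
    fin_cases i <;> rfl
  have h3 : LineImage (n := 8) 5 ![2, 2, 2, 1, 1, 1, 0, 3] := by
    have h := LineImage.step (n := 8) (s := 5) (a := 7) (b := 0) (c := 1) h2
      (by decide) (by decide) (by decide) (by decide) (by decide) (by decide) (by decide)
    convert h using 1
    funext i
    fin_cases i <;> rfl
  have h4 : LineImage (n := 8) 8 ![2, 2, 2, 1, 4, 4, 3, 3] := by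
    have h := LineImage.step (n := 8) (s := 8) (a := 4) (b := 5) (c := 6) h3
      (by decide) (by decide) (by decide) (by decide) (by decide) (by decide) (by decide)
    convert h using 1
    funext i
    fin_cases i <;> rfl
  have h5 : LineImage (n := 8) 11 ![2, 5, 5, 4, 4, 4, 3, 3] := by
    have h := LineImage.step (n := 8) (s := 11) (a := 1) (b := 2) (c := 3) h4
      (by decide) (by decide) (by decide) (by decide) (by decide) (by decide) (by decide)
    convert h using 1
    funext i
    fin_cases i <;> rfl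
  have h6 : LineImage (n := 8) 14 ![5, 5, 5, 4, 4, 4, 6, 6] := by
    have h := LineImage.step (n := 8) (s := 14) (a := 6) (b := 7) (c := 0) h5
      (by decide) (by decide) (by decide) (by decide) (by decide) (by decide) (by decide)
    convert h using 1
    funext i
    fin_cases i <;> rfl
  have h7 : LineImage (n := 8) 16 ![5, 5, 5, 6, 6, 6, 6, 6] := by
    have h := LineImage.step (n := 8) (s := 16) (a := 3) (b := 4) (c := 5) h6
      (by decide) (by decide) (by decide) (by decide) (by decide) (by decide) (by decide)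
    convert h using 1
    funext i
    fin_cases i <;> rfl
  have h := LineImage.step (n := 8) (s := 17) (a := 0) (b := 1) (c := 2) h7
    (by decide) (by decide) (by decide) (by decide) (by decide) (by decide) (by decide)
  convert h using 1
  funext i
  fin_cases i <;> rfl

variable {n : ℕ}

/-- The multiplicities at eight points of an effective class. -/
theorem sum_eight_le {e : ℕ} {k : Fin n → ℕ} (hk : 1 ≤ generalDim 2 e k) (J : Finset (Fin n))
    (hJ : J.card ≤ 8) : 6 * ∑ i ∈ J, k i ≤ 17 * e := by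
  classical
  obtain ⟨ψ⟩ : Nonempty ({i : Fin n // i ∈ J} ↪ Fin 8) := by
    apply Function.Embedding.nonempty_of_card_le
    rw [Fintype.card_coe, Fintype.card_fin]
    exact hJ
  set K8 : Fin 8 → ℕ := fun l => if h : ∃ i, ψ i = l then k (h.choose).1 else 0 with hK8
  have hval : ∀ i, K8 (ψ i) = k i.1 := by
    intro i
    have h1 : ∃ j, ψ j = ψ i := ⟨i, rfl⟩
    have h2 := h1.choose_spec
    rw [hK8]
    dsimp only
    rw [dif_pos h1, ψ.injective h2]
  have hsum : ∑ l, K8 l = ∑ i ∈ J, k i := by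
    have h1 := Fintype.sum_of_injective (fun i => ψ i) ψ.injective (fun i => k i.1) K8
      (fun l hl => by
        rw [hK8]
        dsimp only
        rw [dif_neg]
        rintro ⟨i, hi⟩
        exact hl ⟨i, hi⟩) (fun i => (hval i).symm)
    rw [← h1]
    exact Finset.sum_coe_sort J k
  have heff : 1 ≤ generalDim 2 e K8 := by
    obtain ⟨p8, hp8⟩ : ∃ p : Fin 8 → Fin (2 + 1) → ℂ,
        Module.finrank ℂ (fatForms 2 e p K8) = generalDim 2 e K8 := by
      obtain ⟨p, hp⟩ := Pool.Agent.H18.Cub.exists_of_general (generalDim_spec 2 e K8)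
      exact ⟨p, hp⟩
    set p : Fin n → Fin (2 + 1) → ℂ := fun i => if h : i ∈ J then p8 (ψ ⟨i, h⟩) else 0 with hp
    have h1 : generalDim 2 e k ≤ Module.finrank ℂ (fatForms 2 e p k) := Nat.sInf_le ⟨p, rfl⟩
    have i1 := Pool.Agent.H74.CT.fin_fatForms 2 e p8 K8
    have h2 : Module.finrank ℂ (fatForms 2 e p k) ≤ Module.finrank ℂ (fatForms 2 e p8 K8) := by
      refine Submodule.finrank_mono fun F hF => ⟨hF.1, fun l => ?_⟩
      by_cases h : ∃ i, ψ i = l
      · obtain ⟨i, rfl⟩ := h
        have h3 := hF.2 i.1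
        rw [hval]
        have h4 : p i.1 = p8 (ψ i) := by
          rw [hp]
          dsimp only
          rw [dif_pos i.2]
        rw [h4] at h3
        exact h3
      · have h3 : K8 l = 0 := by
          rw [hK8]
          dsimp only
          rw [dif_neg h]
        rw [h3]
        exact Pool.Agent.H22.LU.vanishes_zero _ _
    omega
  have h1 := (lineImage17.nef).1 e K8 heff
  have h2 : ∑ i : Fin 8, 6 * K8 i = 6 * ∑ i ∈ J, k i := by
    rw [← mul_sum, hsum]
  rw [← h2]
  exact h1

/-- The fractional knapsack. -/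
theorem knapsack (m k : Fin n → ℕ) (J : Finset (Fin n)) (hJ : 3 ≤ J.card) (D e : ℕ)
    (hstd : ∀ S ⊆ J, S.card = 3 → ∑ i ∈ S, m i ≤ D) (hke : ∀ i, k i ≤ e)
    (hk : ∑ i ∈ J, k i ≤ 3 * e) : ∑ i ∈ J, m i * k i ≤ D * e := by
  classical
  obtain ⟨S₀, hS₀, hS₀c⟩ := exists_subset_card_eq hJ
  have hne : (J.powersetCard 3).Nonempty := ⟨S₀, mem_powersetCard.2 ⟨hS₀, hS₀c⟩⟩
  obtain ⟨S, hS, hmax⟩ := exists_max_image (J.powersetCard 3) (fun S => ∑ i ∈ S, m i) hne
  rw [mem_powersetCard] at hS
  obtain ⟨hSJ, hSc⟩ := hS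
  have hSne : S.Nonempty := card_pos.1 (by omega)
  obtain ⟨j₀, hj₀, hmin⟩ := exists_min_image S m hSne
  have hout : ∀ i ∈ J \ S, m i ≤ m j₀ := by
    intro i hi
    rw [mem_sdiff] at hi
    have h1 : insert i (S.erase j₀) ∈ J.powersetCard 3 := by
      rw [mem_powersetCard]
      refine ⟨fun x hx => ?_, ?_⟩
      · rcases mem_insert.1 hx with h | h
        · rw [h]
          exact hi.1
        · exact hSJ (mem_of_mem_erase h)
      · rw [card_insert_of_notMem fun h => hi.2 (mem_of_mem_erase h), card_erase_of_mem hj₀]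
        omega
    have h2 := hmax _ h1
    rw [sum_insert fun h => hi.2 (mem_of_mem_erase h)] at h2
    have h3 := add_sum_erase S m hj₀
    omega
  have hsplit : ∀ f : Fin n → ℕ, ∑ i ∈ J, f i = ∑ i ∈ J \ S, f i + ∑ i ∈ S, f i := fun f =>
    (sum_sdiff hSJ).symm
  have h1 : ∑ i ∈ J \ S, k i ≤ ∑ i ∈ S, (e - k i) := by
    rw [hsplit] at hk
    have h2 : ∑ i ∈ S, (e - k i) + ∑ i ∈ S, k i = 3 * e := by
      rw [← sum_add_distrib, ← hSc, ← smul_eq_mul, ← sum_const]
      exact sum_congr rfl fun i _ => by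
        have := hke i
        omega
    omega
  rw [hsplit]
  calc ∑ i ∈ J \ S, m i * k i + ∑ i ∈ S, m i * k i ≤
      ∑ i ∈ J \ S, m j₀ * k i + ∑ i ∈ S, m i * k i :=
        Nat.add_le_add_right (sum_le_sum fun i hi => Nat.mul_le_mul_right _ (hout i hi)) _
    _ = m j₀ * ∑ i ∈ J \ S, k i + ∑ i ∈ S, m i * k i := by rw [mul_sum]
    _ ≤ m j₀ * ∑ i ∈ S, (e - k i) + ∑ i ∈ S, m i * k i :=
        Nat.add_le_add_right (Nat.mul_le_mul_left _ h1) _
    _ = ∑ i ∈ S, (m j₀ * (e - k i) + m i * k i) := by rw [mul_sum, sum_add_distrib]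
    _ ≤ ∑ i ∈ S, m i * e := sum_le_sum fun i hi => by
        have h2 := hmin i hi
        have h3 : m j₀ * (e - k i) ≤ m i * (e - k i) := Nat.mul_le_mul_right _ h2
        have h4 : m i * (e - k i) + m i * k i = m i * e := by
          rw [← Nat.mul_add, Nat.sub_add_cancel (hke i)]
        omega
    _ = (∑ i ∈ S, m i) * e := by rw [sum_mul]
    _ ≤ D * e := Nat.mul_le_mul_right _ (hstd S hSJ hSc)

/-- A class in standard form with multiplicities at least `y` at three to eight points. -/
theorem nef_eight (m : Fin n → ℕ) (J : Finset (Fin n)) (hJ3 : 3 ≤ J.card) (hJ8 : J.card ≤ 8)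
    (d y : ℕ) (hy : ∀ i ∈ J, y ≤ m i) (hstd : ∀ S ⊆ J, S.card = 3 → ∑ i ∈ S, m i ≤ d)
    {e : ℕ} {k : Fin n → ℕ} (hk : 1 ≤ generalDim 2 e k) :
    6 * ∑ i ∈ J, m i * k i + y * e ≤ 6 * d * e := by
  classical
  have h17 := sum_eight_le hk J hJ8
  have hke : ∀ i, k i ≤ e := fun i => le_of_effective k hk i
  have h3y : 3 * y ≤ d := by
    obtain ⟨S, hS, hSc⟩ := exists_subset_card_eq hJ3
    have h1 := hstd S hS hSc
    have h2 : ∑ _i ∈ S, y ≤ ∑ i ∈ S, m i := sum_le_sum fun i hi => hy i (hS hi)
    rw [sum_const, hSc, smul_eq_mul] at h2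
    omega
  have hknap := knapsack (fun i => m i - y) k J hJ3 (d - 3 * y) e (fun S hS hSc => by
    have h1 := hstd S hS hSc
    have h2 : ∑ i ∈ S, (m i - y) + 3 * y = ∑ i ∈ S, m i := by
      rw [← hSc, ← smul_eq_mul, ← sum_const, ← sum_add_distrib]
      exact sum_congr rfl fun i hi => by
        have := hy i (hS hi)
        omega
    omega) hke (by omega)
  have hsum : ∑ i ∈ J, m i * k i = ∑ i ∈ J, (m i - y) * k i + y * ∑ i ∈ J, k i := by
    rw [mul_sum, ← sum_add_distrib]
    exact sum_congr rfl fun i hi => by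
      rw [← Nat.add_mul, Nat.sub_add_cancel (hy i hi)]
  have h5 : (d - 3 * y) * e + 3 * y * e = d * e := by
    rw [← Nat.add_mul, Nat.sub_add_cancel h3y]
  have h6 : y * (6 * ∑ i ∈ J, k i) ≤ y * (17 * e) := Nat.mul_le_mul_left _ h17
  rw [hsum]
  nlinarith

/-- The number of the conditions of a class in standard form. -/
theorem length_eight (m : Fin n → ℕ) (J : Finset (Fin n)) (hJ3 : 3 ≤ J.card) (hJ8 : J.card ≤ 8)
    (d y x : ℕ) (hy : ∀ i ∈ J, y ≤ m i) (hstd : ∀ S ⊆ J, S.card = 3 → ∑ i ∈ S, m i ≤ d)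
    (hx : 6 * x + 8 ≤ y) : ∑ i ∈ J, (m i + 2 - 1).choose 2 ≤ (d - x + 2).choose 2 := by
  classical
  have hone : ∀ i ∈ J, m i ≤ d := by
    intro i hi
    obtain ⟨S, hS1, hS2, hSc⟩ := exists_subsuperset_card_eq (s := {i}) (t := J)
      (singleton_subset_iff.2 hi) (n := 3) (by rw [card_singleton]; norm_num) hJ3
    have h1 := hstd S hS2 hSc
    have h2 : m i ≤ ∑ i ∈ S, m i := single_le_sum (f := m) (fun _ _ => Nat.zero_le _)
      (hS1 (mem_singleton_self i))
    omega
  have h3y : 3 * y ≤ d := by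
    obtain ⟨S, hS, hSc⟩ := exists_subset_card_eq hJ3
    have h1 := hstd S hS hSc
    have h2 : ∑ _i ∈ S, y ≤ ∑ i ∈ S, m i := sum_le_sum fun i hi => hy i (hS hi)
    rw [sum_const, hSc, smul_eq_mul] at h2
    omega
  -- the sum of the multiplicities
  set m' : Fin n → ℕ := fun i => if i ∈ J then m i else 0 with hm'
  have hm'J : ∀ f : ℕ → ℕ, ∑ i ∈ J, f (m' i) = ∑ i ∈ J, f (m i) := fun f =>
    sum_congr rfl fun i hi => by
      rw [hm']
      dsimp only
      rw [if_pos hi]
  have hsum3 : 3 * ∑ i ∈ J, m i ≤ 8 * d := by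
    -- knapsack with equal weights
    have h1 := knapsack m (fun _ => 3) J hJ3 d 8 (fun S hS hSc => hstd S hS hSc)
      (fun _ => by norm_num) (by
        rw [sum_const, smul_eq_mul]
        omega)
    rw [← sum_mul] at h1
    omega
  have hsq : ∑ i ∈ J, (m i - y) * m i ≤ (d - 3 * y) * d := by
    have h1 := knapsack (fun i => m i - y) m' J hJ3 (d - 3 * y) d (fun S hS hSc => by
      have h1 := hstd S hS hSc
      have h2 : ∑ i ∈ S, (m i - y) + 3 * y = ∑ i ∈ S, m i := by
        rw [← hSc, ← smul_eq_mul, ← sum_const, ← sum_add_distrib]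
        exact sum_congr rfl fun i hi => by
          have := hy i (hS hi)
          omega
      omega) (fun i => by
      rw [hm']
      dsimp only
      split_ifs with h
      · exact hone i h
      · exact Nat.zero_le _) (by
      have := hm'J (fun x => x)
      rw [this]
      omega)
    refine le_trans (le_of_eq (sum_congr rfl fun i hi => ?_)) h1
    rw [hm']
    dsimp only
    rw [if_pos hi]
  have hsq' : ∑ i ∈ J, m i * m i = ∑ i ∈ J, (m i - y) * m i + y * ∑ i ∈ J, m i := by
    rw [mul_sum, ← sum_add_distrib]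
    exact sum_congr rfl fun i hi => by
      rw [← Nat.add_mul, Nat.sub_add_cancel (hy i hi)]
  have h2 : ∀ z : ℕ, (z + 2 - 1).choose 2 * 2 = z * (z + 1) := by
    intro z
    have h4 : z + 2 - 1 = z + 1 := by omega
    rw [h4, Nat.choose_two_right, Nat.add_sub_cancel,
      Nat.div_mul_cancel (by
        rw [Nat.mul_comm]
        exact (Nat.even_mul_succ_self z).two_dvd)]
    ring
  have h3 : (d - x + 2).choose 2 * 2 = (d - x + 1) * (d - x + 2) := by
    have := h2 (d - x + 1)
    have h4 : d - x + 1 + 2 - 1 = d - x + 2 := by omega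
    rw [h4] at this
    rw [this]
  have h4 : (∑ i ∈ J, (m i + 2 - 1).choose 2) * 2 = ∑ i ∈ J, m i * m i + ∑ i ∈ J, m i := by
    rw [sum_mul, ← sum_add_distrib]
    exact sum_congr rfl fun i _ => by
      rw [h2]
      ring
  have h5 : (∑ i ∈ J, (m i + 2 - 1).choose 2) * 2 ≤ (d - x + 2).choose 2 * 2 := by
    rw [h3, h4, hsq']
    obtain ⟨z, rfl⟩ : ∃ z, d = z + 3 * y := ⟨d - 3 * y, by omega⟩
    obtain ⟨u, hu⟩ : ∃ u, z + 3 * y = u + x := ⟨z + 3 * y - x, by omega⟩
    have e1 : z + 3 * y - 3 * y = z := by omega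
    have e2 : z + 3 * y - x = u := by omega
    rw [e1] at hsq
    rw [e2]
    generalize ∑ i ∈ J, (m i - y) * m i = A at hsq ⊢
    generalize ∑ i ∈ J, m i = B at hsum3 ⊢
    -- A ≤ z (z + 3 y), 3 B ≤ 8 (z + 3 y)
    have h6 : 3 * (y * B) ≤ 8 * (y * (z + 3 * y)) := by
      have := Nat.mul_le_mul_left y hsum3
      nlinarith
    have h7 : 3 * (A + y * B + B) ≤ 3 * (z * (z + 3 * y)) + 8 * (y * (z + 3 * y)) +
        8 * (z + 3 * y) := by omega
    have h8 : 3 * (z * (z + 3 * y)) + 8 * (y * (z + 3 * y)) + 8 * (z + 3 * y) +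
        (y - 8) * (z + 3 * y) = 3 * ((z + 3 * y) * (z + 3 * y)) := by
      obtain ⟨w, rfl⟩ : ∃ w, y = w + 8 := ⟨y - 8, by omega⟩
      rw [Nat.add_sub_cancel]
      ring
    have h9 : 6 * x * (z + 3 * y) ≤ (y - 8) * (z + 3 * y) := Nat.mul_le_mul_right _ (by omega)
    rw [hu] at h7 h8 h9
    nlinarith
  omega

end Pool.Agent.H74.BP

end
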