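import Pool.Agent.H94.LP4.M02
import Pool.Agent.H94.LP4.M06
import Pool.Agent.H94.LP4.M13
import Pool.Agent.H94.LP4.M17
import Pool.Agent.H94.LP4.M48

/-! The parts of this file: H74.KV.Ind, H74.KV.Bez, H74.KV.Pts. -/

section

/-!
# Fat points impose independent conditions in large degree
-/

namespace Pool.Agent.H74.KV

open MvPolynomial Pool.Agent.H18.Fat Pool.Agent.H22.LU Pool.Agent.H74.CT

variable {ι : Type*}

theorem finrank_le_all (r d : ℕ) (p : ι → Fin (r + 1) → ℂ) (m : ι → ℕ) :
    Module.finrank ℂ (fatForms r d p m) ≤ (d + r).choose r := by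
  have h1 : fatForms r d p m ≤ LinearMap.range (toPoly (r + 1) d) :=
    fun F hF => ⟨_, exists_toPoly hF.1⟩
  have h2 := Submodule.finrank_mono h1
  refine h2.trans ((LinearMap.finrank_range_le _).trans ?_)
  rw [Module.finrank_fintype_fun_eq_card, Fintype.card_coe, card_mons]

theorem finrank_all (r d : ℕ) (p : ι → Fin (r + 1) → ℂ) :
    Module.finrank ℂ (fatForms r d p fun _ => 0) = (d + r).choose r := by
  have h1 : fatForms r d p (fun _ => 0) = LinearMap.range (toPoly (r + 1) d) := by
    ext F
    constructor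
    · exact fun hF => ⟨_, exists_toPoly hF.1⟩
    · rintro ⟨f, rfl⟩
      exact ⟨toPoly_isHomogeneous f, fun i => vanishes_zero _ _⟩
  rw [h1, LinearMap.finrank_range_of_inj (toPoly_injective _ _),
    Module.finrank_fintype_fun_eq_card, Fintype.card_coe, card_mons]

theorem coord_le (r d a : ℕ) (hr : 1 ≤ r) (ha : a ≤ d + 1) :
    Module.finrank ℂ (fatForms r d (fun _ : Unit => (Pi.single 0 1 : Fin (r + 1) → ℂ)) fun _ => a) +
      (a + r - 1).choose r ≤ (d + r).choose r := by
  classical
  rcases Nat.eq_zero_or_pos a with h0 | h0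
  · subst h0
    rw [Nat.choose_eq_zero_of_lt (by omega), Nat.add_zero]
    exact finrank_le_all _ _ _ _
  rcases Nat.lt_or_ge d a with hda | hda
  · have h1 : fatForms r d (fun _ : Unit => (Pi.single 0 1 : Fin (r + 1) → ℂ)) (fun _ => a) = ⊥ := by
      rw [eq_bot_iff]
      intro F hF
      rw [Submodule.mem_bot]
      exact Pool.Agent.H18.Nef.eq_zero_of_vanishes F hF.1 _ hda (hF.2 ())
    rw [h1, finrank_bot, Nat.zero_add]
    exact Nat.choose_le_choose _ (by omega)
  -- the restriction to the allowed coefficients is injective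
  set A := (mons (r + 1) d).filter fun α => ¬ d < α 0 + a with hA
  have := fin_fatForms r d (fun _ : Unit => (Pi.single 0 1 : Fin (r + 1) → ℂ)) fun _ => a
  let ρ : fatForms r d (fun _ : Unit => (Pi.single 0 1 : Fin (r + 1) → ℂ)) (fun _ => a) →ₗ[ℂ]
      (A → ℂ) :=
    { toFun := fun F α => coeff α.1 F.1
      map_add' := fun F G => by
        funext α
        simp
      map_smul' := fun c F => by
        funext α
        simp }
  have hρ : Function.Injective ρ := by
    rw [injective_iff_map_eq_zero]
    intro F hF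
    apply Subtype.ext
    have h1 := exists_toPoly F.2.1
    have h2 := (vanishes_coord_iff (fun α : mons (r + 1) d => coeff α.1 F.1) 0 (m := a)).1 (by
      rw [h1]
      exact F.2.2 ())
    rw [← h1]
    have h3 : (fun α : mons (r + 1) d => coeff α.1 F.1) = 0 := by
      funext α
      by_contra hne
      have h4 := h2 α hne
      have h5 : α.1 ∈ A := by
        rw [hA, Finset.mem_filter]
        exact ⟨α.2, by omega⟩
      exact hne (congrFun hF ⟨α.1, h5⟩)
    rw [h3, map_zero]
    rfl
  have h1 := LinearMap.finrank_le_finrank_of_injective hρ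
  rw [Module.finrank_fintype_fun_eq_card, Fintype.card_coe] at h1
  have h2 := card_bad (r := r) (d := d) (mJ := fun _ => a) (l := 0) h0 hda
  have h3 : (bad r d (fun _ => a) 0).card + A.card = (mons (r + 1) d).card := by
    have h4 : bad r d (fun _ => a) 0 = (mons (r + 1) d).filter fun α => d < α 0 + a := by
      ext α
      rw [mem_bad, Finset.mem_filter]
    rw [h4]
    exact Finset.card_filter_add_card_filter_not _
  rw [card_mons] at h3
  have h4 : Pool.Agent.H18.Fat.len r a = (a + r - 1).choose r := rfl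
  rw [h2, h4] at h3
  omega

/-- One point. -/
theorem one_le (r d a : ℕ) (hr : 1 ≤ r) (ha : a ≤ d + 1) (q : Fin (r + 1) → ℂ) (hq : q 0 ≠ 0) :
    Module.finrank ℂ (fatForms r d (fun _ : Unit => q) fun _ => a) +
      (a + r - 1).choose r ≤ (d + r).choose r := by
  classical
  let A : Matrix (Fin (r + 1)) (Fin (r + 1)) ℂ := Matrix.of fun i j =>
    if j = 0 then q i else if i = j then 1 else 0
  let B : Matrix (Fin (r + 1)) (Fin (r + 1)) ℂ := Matrix.of fun i j =>
    if j = 0 then (if i = 0 then (q 0)⁻¹ else - q i * (q 0)⁻¹) else if i = j then 1 else 0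
  have hAB : A * B = 1 := by
    ext i j
    rw [Matrix.mul_apply, Fin.sum_univ_succ]
    simp only [A, B, Matrix.of_apply, if_true, Fin.succ_ne_zero, if_false]
    by_cases hj : j = 0
    · subst hj
      simp only [if_true]
      by_cases hi : i = 0
      · subst hi
        rw [Matrix.one_apply_eq, mul_inv_cancel₀ hq]
        rw [Finset.sum_eq_zero, add_zero]
        intro x _
        rw [if_neg (Fin.succ_ne_zero x).symm, zero_mul]
      · obtain ⟨i', rfl⟩ := Fin.exists_succ_eq.2 hi
        rw [Matrix.one_apply_ne (Fin.succ_ne_zero i')]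
        rw [Finset.sum_eq_single i']
        · rw [if_pos rfl]
          ring
        · intro x _ hx
          rw [if_neg fun h => hx (Fin.succ_injective _ h).symm, zero_mul]
        · intro h
          exact absurd (Finset.mem_univ _) h
    · obtain ⟨j', rfl⟩ := Fin.exists_succ_eq.2 hj
      simp only [Fin.succ_ne_zero, if_false, (Fin.succ_ne_zero j').symm, mul_zero, zero_add]
      rw [Finset.sum_eq_single j']
      · rw [if_pos rfl, mul_one, Matrix.one_apply]
      · intro x _ hx
        rw [if_neg fun h => hx (Fin.succ_injective _ h), mul_zero]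
      · intro h
        exact absurd (Finset.mem_univ _) h
  have hA : A.mulVec (Pi.single 0 1) = q := by
    rw [Matrix.mulVec_single_one]
    funext i
    simp [A, Matrix.col_apply]
  have h1 := finrank_linSubst (r := r) (d := d) (fun _ : Unit => (Pi.single 0 1 : Fin (r + 1) → ℂ))
    (fun _ => a) hAB
  rw [hA] at h1
  rw [h1]
  exact coord_le r d a hr ha

theorem one_le' (r d a : ℕ) (hr : 1 ≤ r) (ha : a ≤ d + 1) [DecidableEq ι]
    (p : ι → Fin (r + 1) → ℂ) (i : ι) (hq : p i 0 ≠ 0) :
    Module.finrank ℂ (fatForms r d p fun l => if l = i then a else 0) +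
      (a + r - 1).choose r ≤ (d + r).choose r := by
  have h1 : (fatForms r d p fun l => if l = i then a else 0) =
      fatForms r d (fun _ : Unit => p i) fun _ => a := by
    ext F
    constructor
    · intro hF
      refine ⟨hF.1, fun _ => ?_⟩
      have := hF.2 i
      dsimp only at this ⊢
      rwa [if_pos rfl] at this
    · intro hF
      refine ⟨hF.1, fun l => ?_⟩
      dsimp only
      by_cases hl : l = i
      · subst hl
        rw [if_pos rfl]
        exact hF.2 ()
      · rw [if_neg hl]
        exact vanishes_zero _ _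
  rw [h1]
  exact one_le r d a hr ha _ hq

/-- Distinct points (separated by linear forms). -/
def Sep {r : ℕ} (p : ι → Fin (r + 1) → ℂ) : Prop :=
  ∀ i j, i ≠ j → ∃ ℓ : MvPolynomial (Fin (r + 1)) ℂ, ℓ.IsHomogeneous 1 ∧ eval (p j) ℓ = 0 ∧
    eval (p i) ℓ ≠ 0

theorem ind_set {r : ℕ} (hr : 1 ≤ r) (p : ι → Fin (r + 1) → ℂ) (h0 : ∀ i, p i 0 ≠ 0)
    (hsep : Sep p) (m : ι → ℕ) [DecidableEq ι] (S : Finset ι) (N : ℕ) (hN : ∑ i ∈ S, m i ≤ N) :
    Module.finrank ℂ (fatForms r N p fun l => if l ∈ S then m l else 0) +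
      ∑ i ∈ S, (m i + r - 1).choose r ≤ (N + r).choose r := by
  induction S using Finset.induction_on generalizing N with
  | empty =>
    rw [Finset.sum_empty, Nat.add_zero]
    exact finrank_le_all _ _ _ _
  | insert i S hi ih =>
    rw [Finset.sum_insert hi] at hN
    have hex : ∀ j : ι, ∃ ℓ : MvPolynomial (Fin (r + 1)) ℂ, ℓ.IsHomogeneous 1 ∧
        (j ≠ i → eval (p j) ℓ = 0 ∧ eval (p i) ℓ ≠ 0) := by
      intro j
      by_cases hj : j = i
      · exact ⟨X 0, isHomogeneous_X ℂ 0, fun h => absurd hj h⟩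
      · obtain ⟨ℓ, h1, h2, h3⟩ := hsep i j (Ne.symm hj)
        exact ⟨ℓ, h1, fun _ => ⟨h2, h3⟩⟩
    choose ℓ hℓ1 hℓ2 using hex
    set G : MvPolynomial (Fin (r + 1)) ℂ := ∏ j ∈ S, ℓ j ^ m j with hG
    have hGhom : G.IsHomogeneous (∑ j ∈ S, m j) := by
      rw [hG]
      refine IsHomogeneous.prod _ _ _ fun j _ => ?_
      have := (hℓ1 j).pow (m j)
      rwa [Nat.one_mul] at this
    have hGi : eval (p i) G ≠ 0 := by
      rw [hG, map_prod]
      refine Finset.prod_ne_zero_iff.2 fun j hj => ?_
      rw [map_pow]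
      exact pow_ne_zero _ (hℓ2 j fun h => hi (h ▸ hj)).2
    have hGS : ∀ l ∈ S, VanishesToOrder G (p l) (m l) := by
      intro l hl
      rw [hG, ← Finset.mul_prod_erase S _ hl]
      have h1 : VanishesToOrder (ℓ l) (p l) 1 :=
        vanishes_one_iff.2 (hℓ2 l fun h => hi (h ▸ hl)).1
      have h2 := van_pow h1 (m l)
      rw [Nat.mul_one] at h2
      exact van_mul h2 (vanishes_zero (p l) (∏ j ∈ S.erase l, ℓ j ^ m j))
    obtain ⟨t, rfl⟩ : ∃ t, N = ∑ j ∈ S, m j + t := ⟨N - ∑ j ∈ S, m j, by omega⟩
    have i1 := fin_fatForms r t p fun _ => 0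
    have i2 := fin_fatForms r (∑ j ∈ S, m j + t) p fun l => if l ∈ S then m l else 0
    have h1 := mulgen G (fatForms r t p fun l => if l = i then m i else 0)
      (fatForms r t p fun _ => 0)
      (fatForms r (∑ j ∈ S, m j + t) p fun l => if l ∈ insert i S then m l else 0)
      (fatForms r (∑ j ∈ S, m j + t) p fun l => if l ∈ S then m l else 0)
      (fun R hR => ⟨hR.1, fun l => vanishes_zero _ _⟩)
      (fun R hR => ⟨hR.1, fun l => van_mono (hR.2 l) (by
        dsimp only
        split_ifs with e1 e2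
        · exact le_rfl
        · exact absurd (Finset.mem_insert_of_mem e1) e2
        · exact Nat.zero_le _
        · exact le_rfl)⟩)
      (fun R hR => ⟨hGhom.mul hR.1, fun l => by
        dsimp only
        split_ifs with hl
        · exact van_mul (hGS l hl) (vanishes_zero (p l) R)
        · exact vanishes_zero _ _⟩)
      fun R hR h => ⟨hR.1, fun l => by
        dsimp only
        by_cases hl : l = i
        · subst hl
          rw [if_pos rfl]
          have h2 := h.2 l
          dsimp only at h2
          rw [if_pos (Finset.mem_insert_self _ _)] at h2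
          exact van_div hGi h2
        · rw [if_neg hl]
          exact vanishes_zero _ _⟩
    have h2 := one_le' r t (m i) hr (by omega) p i (h0 i)
    have h3 := finrank_all r t p
    have h4 := ih (∑ j ∈ S, m j + t) (Nat.le_add_right _ _)
    rw [Finset.sum_insert hi]
    omega

theorem ind_large {r : ℕ} (hr : 1 ≤ r) [Fintype ι] (p : ι → Fin (r + 1) → ℂ)
    (h0 : ∀ i, p i 0 ≠ 0) (hsep : Sep p) (m : ι → ℕ) (N : ℕ) (hN : ∑ i, m i ≤ N) :
    Module.finrank ℂ (fatForms r N p m) + ∑ i, (m i + r - 1).choose r ≤ (N + r).choose r := by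
  classical
  have h := ind_set hr p h0 hsep m Finset.univ N hN
  have h1 : (fun l => if l ∈ (Finset.univ : Finset ι) then m l else 0) = m := by
    funext l
    rw [if_pos (Finset.mem_univ l)]
  rw [h1] at h
  exact h

end Pool.Agent.H74.KV

end

section

/-!
# The inequality of Bezout for plane curves with multiplicities
-/

namespace Pool.Agent.H74.KV

open MvPolynomial Pool.Agent.H18.Fat Pool.Agent.H22.LU Pool.Agent.H74.CT

variable {ι : Type*}

section Factor

variable {σ : Type*}

/-- the substitution `X i ↦ X i t` -/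
private noncomputable def phi (σ : Type*) :
    MvPolynomial σ ℂ →ₐ[ℂ] Polynomial (MvPolynomial σ ℂ) :=
  aeval fun i => Polynomial.monomial 1 (X i)

private theorem phi_hom {A : MvPolynomial σ ℂ} {a : ℕ} (hA : A.IsHomogeneous a) :
    phi σ A = Polynomial.monomial a A := by
  classical
  have h1 : ∀ m : σ →₀ ℕ, ∀ c : ℂ,
      phi σ (monomial m c) = Polynomial.monomial m.degree (monomial m c) := by
    intro m c
    have h2 : phi σ (monomial m c) =
        Polynomial.C (C c) * (m.prod fun i k =>
          (Polynomial.monomial 1 (X i : MvPolynomial σ ℂ)) ^ k) := by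
      unfold phi
      rw [aeval_monomial]
      rfl
    rw [h2]
    have h3 : (m.prod fun i k => (Polynomial.monomial 1 (X i : MvPolynomial σ ℂ)) ^ k) =
        Polynomial.monomial m.degree (m.prod fun i k => (X i : MvPolynomial σ ℂ) ^ k) := by
      simp only [Finsupp.prod, Polynomial.monomial_pow, one_mul]
      have h4 : ∀ s : Finset σ,
          ∏ i ∈ s, Polynomial.monomial (m i) ((X i : MvPolynomial σ ℂ) ^ m i) =
          Polynomial.monomial (∑ i ∈ s, m i) (∏ i ∈ s, (X i : MvPolynomial σ ℂ) ^ m i) := by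
        intro s
        induction s using Finset.induction_on with
        | empty => simp
        | insert a s ha ih =>
          rw [Finset.prod_insert ha, Finset.prod_insert ha, Finset.sum_insert ha, ih,
            Polynomial.monomial_mul_monomial]
      rw [h4]
      rfl
    rw [h3, Polynomial.C_mul_monomial, monomial_eq]
  rw [A.as_sum, map_sum, map_sum]
  refine Finset.sum_congr rfl fun m hm => ?_
  have h2 : m.degree = a := by
    by_contra h
    exact (mem_support_iff.1 hm) (hA.coeff_eq_zero h)
  rw [h1, h2]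

private theorem phi_coeff (A : MvPolynomial σ ℂ) (k : ℕ) :
    (phi σ A).coeff k = homogeneousComponent k A := by
  classical
  conv_lhs => rw [← sum_homogeneousComponent A]
  rw [map_sum, Polynomial.finsetSum_coeff]
  have h1 : ∀ i, (phi σ (homogeneousComponent i A)).coeff k =
      if i = k then homogeneousComponent k A else 0 := by
    intro i
    rw [phi_hom (homogeneousComponent_isHomogeneous i A), Polynomial.coeff_monomial]
    split_ifs with h
    · rw [h]
    · rfl
  rw [Finset.sum_congr rfl fun i _ => h1 i, Finset.sum_ite_eq']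
  split_ifs with h
  · rfl
  · rw [Finset.mem_range, not_lt] at h
    exact (homogeneousComponent_eq_zero _ _ (by omega)).symm

/-- the factors of a form are forms -/
theorem hom_of_mul {A B : MvPolynomial σ ℂ} {d : ℕ} (h : (A * B).IsHomogeneous d) (hA : A ≠ 0)
    (hB : B ≠ 0) : ∃ a b, A.IsHomogeneous a ∧ B.IsHomogeneous b ∧ a + b = d := by
  classical
  have key : ∀ A B : MvPolynomial σ ℂ, (A * B).IsHomogeneous d → A ≠ 0 → B ≠ 0 →
      ∃ a, A.IsHomogeneous a := by
    intro A B h hA hB
    have hprod : phi σ A * phi σ B = Polynomial.monomial d (A * B) := by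
      rw [← map_mul, phi_hom h]
    have hne : ∀ P : MvPolynomial σ ℂ, P ≠ 0 → phi σ P ≠ 0 := by
      intro P hP h0
      apply hP
      rw [← sum_homogeneousComponent P]
      refine Finset.sum_eq_zero fun i _ => ?_
      rw [← phi_coeff, h0, Polynomial.coeff_zero]
    have hAB : A * B ≠ 0 := mul_ne_zero hA hB
    have e1 := Polynomial.natDegree_mul (hne A hA) (hne B hB)
    have e2 := Polynomial.natTrailingDegree_mul (hne A hA) (hne B hB)
    rw [hprod, Polynomial.natDegree_monomial_eq _ hAB] at e1
    rw [hprod, Polynomial.natTrailingDegree_monomial hAB] at e2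
    have e3 := Polynomial.natTrailingDegree_le_natDegree (phi σ A)
    have e4 := Polynomial.natTrailingDegree_le_natDegree (phi σ B)
    have e5 : (phi σ A).natTrailingDegree = (phi σ A).natDegree := by omega
    refine ⟨(phi σ A).natDegree, ?_⟩
    have h6 : A = homogeneousComponent (phi σ A).natDegree A := by
      conv_lhs => rw [← sum_homogeneousComponent A]
      have h7 : ∀ i, homogeneousComponent i A = if i = (phi σ A).natDegree then
          homogeneousComponent (phi σ A).natDegree A else 0 := by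
        intro i
        split_ifs with h
        · rw [h]
        · rw [← phi_coeff]
          rcases lt_or_gt_of_ne h with h8 | h8
          · exact Polynomial.coeff_eq_zero_of_lt_natTrailingDegree (by omega)
          · exact Polynomial.coeff_eq_zero_of_natDegree_lt h8
      rw [Finset.sum_congr rfl fun i _ => h7 i, Finset.sum_ite_eq']
      split_ifs with h
      · rfl
      · rw [Finset.mem_range, not_lt] at h
        exact (homogeneousComponent_eq_zero _ _ (by omega)).symm
    have h8 := homogeneousComponent_isHomogeneous (phi σ A).natDegree A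
    rwa [← h6] at h8
  obtain ⟨a, ha⟩ := key A B h hA hB
  obtain ⟨b, hb⟩ := key B A (by rwa [mul_comm]) hB hA
  exact ⟨a, b, ha, hb, IsHomogeneous.inj_right (ha.mul hb) h (mul_ne_zero hA hB)⟩

theorem hom_quot {A B : MvPolynomial σ ℂ} {a d : ℕ} (h : (A * B).IsHomogeneous d) (hA : A ≠ 0)
    (ha : A.IsHomogeneous a) : B.IsHomogeneous (d - a) := by
  by_cases hB : B = 0
  · rw [hB]
    exact isHomogeneous_zero _ _ _
  obtain ⟨a', b, h1, h2, h3⟩ := hom_of_mul h hA hB
  have h4 := IsHomogeneous.inj_right h1 ha hA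
  have h5 : d - a = b := by omega
  rw [h5]
  exact h2

end Factor

/-- A pencil. -/
theorem mulgen2 {n : ℕ} (F G : MvPolynomial (Fin n) ℂ) (hF : F ≠ 0)
    (A B W D : Submodule ℂ (MvPolynomial (Fin n) ℂ)) [FiniteDimensional ℂ A]
    [FiniteDimensional ℂ B] [FiniteDimensional ℂ W] [FiniteDimensional ℂ D]
    (h1 : ∀ R ∈ A, F * R ∈ W) (h2 : ∀ T ∈ B, G * T ∈ W)
    (h3 : ∀ R ∈ A, ∀ T ∈ B, F * R + G * T = 0 → ∃ C ∈ D, T = F * C) :
    Module.finrank ℂ A + Module.finrank ℂ B ≤ Module.finrank ℂ W + Module.finrank ℂ D := by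
  let f : (A × B) →ₗ[ℂ] W :=
    { toFun := fun x => ⟨F * x.1.1 + G * x.2.1, W.add_mem (h1 _ x.1.2) (h2 _ x.2.2)⟩
      map_add' := by
        intro x y
        apply Subtype.ext
        simp only [Prod.fst_add, Prod.snd_add, Submodule.coe_add, mul_add]
        abel
      map_smul' := by
        intro c x
        apply Subtype.ext
        simp only [Prod.smul_fst, Prod.smul_snd, Submodule.coe_smul, RingHom.id_apply, smul_add,
          mul_smul_comm] }
  let g : LinearMap.ker f →ₗ[ℂ] MvPolynomial (Fin n) ℂ :=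
    { toFun := fun x => x.1.2.1
      map_add' := fun x y => rfl
      map_smul' := fun c x => rfl }
  have hf0 : ∀ x : LinearMap.ker f, F * x.1.1.1 + G * x.1.2.1 = 0 := by
    intro x
    have h0 : (f x.1).1 = 0 := by
      rw [LinearMap.mem_ker.1 x.2]
      rfl
    exact h0
  have hg : Function.Injective g := by
    intro x y hxy
    have e1 : x.1.2.1 = y.1.2.1 := hxy
    have e2 := hf0 x
    have e3 := hf0 y
    rw [e1, ← e3] at e2
    have e4 : x.1.1.1 = y.1.1.1 := mul_left_cancel₀ hF (add_right_cancel e2)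
    apply Subtype.ext
    apply Prod.ext
    · exact Subtype.ext e4
    · exact Subtype.ext e1
  have hr : LinearMap.range g ≤ D.map (LinearMap.mulLeft ℂ F) := by
    rintro _ ⟨x, rfl⟩
    obtain ⟨C, hC, h4⟩ := h3 _ x.1.1.2 _ x.1.2.2 (hf0 x)
    exact ⟨C, hC, h4.symm⟩
  have e0 : FiniteDimensional ℂ (D.map (LinearMap.mulLeft ℂ F)) := inferInstance
  have e1 : Module.finrank ℂ (LinearMap.ker f) ≤ Module.finrank ℂ D := by
    rw [← LinearMap.finrank_range_of_inj hg]
    exact (Submodule.finrank_mono hr).trans (Submodule.finrank_map_le _ _)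
  have e2 := LinearMap.finrank_range_add_finrank_ker f
  rw [Module.finrank_prod] at e2
  have e3 : Module.finrank ℂ (LinearMap.range f) ≤ Module.finrank ℂ W := Submodule.finrank_le _
  omega

theorem bez_num (t e g : ℕ) : (t + e + 2).choose 2 + (t + g + 2).choose 2 + e * g =
    (t + e + g + 2).choose 2 + (t + 2).choose 2 := by
  have h : ∀ x : ℕ, ((x + 2).choose 2 : ℚ) = (x + 2) * (x + 1) / 2 := by
    intro x
    rw [Nat.cast_choose_two]
    push_cast
    ring
  have key : (((t + e + 2).choose 2 + (t + g + 2).choose 2 + e * g : ℕ) : ℚ) =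
      ((t + e + g + 2).choose 2 + (t + 2).choose 2 : ℕ) := by
    push_cast
    rw [h, h, h, h]
    push_cast
    ring
  exact_mod_cast key

theorem bez_len (a b : ℕ) : (a + b + 2 - 1).choose 2 =
    (a + 2 - 1).choose 2 + (b + 2 - 1).choose 2 + a * b := by
  have h : ∀ x : ℕ, ((x + 1).choose 2 : ℚ) = (x + 1) * x / 2 := by
    intro x
    rw [Nat.cast_choose_two]
    push_cast
    ring
  have key : (((a + b + 1).choose 2 : ℕ) : ℚ) =
      (((a + 1).choose 2 + (b + 1).choose 2 + a * b : ℕ) : ℚ) := by
    push_cast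
    rw [h, h, h]
    push_cast
    ring
  exact_mod_cast key

/-- Bezout, with multiplicities at distinct points. -/
theorem bezout [Fintype ι] (p : ι → Fin (2 + 1) → ℂ) (h0 : ∀ i, p i 0 ≠ 0) (hsep : Sep p)
    {F G : MvPolynomial (Fin (2 + 1)) ℂ} {e g : ℕ} (hF : Irreducible F) (hFe : F.IsHomogeneous e)
    (hGg : G.IsHomogeneous g) (hFG : ¬ F ∣ G) (κ b : ι → ℕ)
    (hκ : ∀ i, VanishesToOrder F (p i) (κ i)) (hb : ∀ i, VanishesToOrder G (p i) (b i)) :
    ∑ i, κ i * b i ≤ e * g := by
  classical
  have hF0 := hF.ne_zero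
  have hG0 : G ≠ 0 := fun h => hFG (h ▸ dvd_zero F)
  set t := ∑ i, (κ i + b i) with ht
  have i1 := fin_fatForms 2 (t + g) p b
  have i2 := fin_fatForms 2 (t + e) p κ
  have i3 := fin_fatForms 2 (t + e + g) p fun i => κ i + b i
  have i4 := fin_fatForms 2 t p fun _ => 0
  have h1 := mulgen2 F G hF0 (fatForms 2 (t + g) p b) (fatForms 2 (t + e) p κ)
    (fatForms 2 (t + e + g) p fun i => κ i + b i) (fatForms 2 t p fun _ => 0)
    (fun R hR => ⟨by
      have := hFe.mul hR.1
      have h5 : e + (t + g) = t + e + g := by omega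
      rwa [h5] at this, fun i => van_mul (hκ i) (hR.2 i)⟩)
    (fun T hT => ⟨by
      have := hGg.mul hT.1
      have h5 : g + (t + e) = t + e + g := by omega
      rwa [h5] at this, fun i => by
      dsimp only
      rw [Nat.add_comm (κ i) (b i)]
      exact van_mul (hb i) (hT.2 i)⟩)
    (fun R _ T hT h => by
      have h2 : F ∣ G * T := by
        have h3 : G * T = F * (-R) := by
          rw [mul_neg]
          exact eq_neg_of_add_eq_zero_right h
        exact h3 ▸ dvd_mul_right _ _
      obtain ⟨C, hC⟩ := (hF.prime.dvd_or_dvd h2).resolve_left hFG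
      refine ⟨C, ⟨?_, fun i => vanishes_zero _ _⟩, hC⟩
      have h4 := hom_quot (hC ▸ hT.1) hF0 hFe
      have h5 : t + e - e = t := by omega
      rwa [h5] at h4)
  have e1 := finrank_fatForms_ge (r := 2) (d := t + g) (by norm_num) h0 b
  have e2 := finrank_fatForms_ge (r := 2) (d := t + e) (by norm_num) h0 κ
  have e3 := ind_large (r := 2) (by norm_num) p h0 hsep (fun i => κ i + b i) (t + e + g)
    (by omega)
  have e4 := finrank_all 2 t p
  have e5 := bez_num t e g
  have e6 : ∑ i, (κ i + b i + 2 - 1).choose 2 = ∑ i, (κ i + 2 - 1).choose 2 +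
      ∑ i, (b i + 2 - 1).choose 2 + ∑ i, κ i * b i := by
    rw [← Finset.sum_add_distrib, ← Finset.sum_add_distrib]
    exact Finset.sum_congr rfl fun i _ => bez_len _ _
  rw [e6] at e3
  have e7 : ((∑ i, (κ i + 2 - 1).choose 2 : ℕ) : ℤ) = ∑ i, ((κ i + 2 - 1).choose 2 : ℤ) := by
    push_cast
    rfl
  have e8 : ((∑ i, (b i + 2 - 1).choose 2 : ℕ) : ℤ) = ∑ i, ((b i + 2 - 1).choose 2 : ℤ) := by
    push_cast
    rfl
  omega

end Pool.Agent.H74.KV

end

section

/-!
# Points of a plane curve, and the restriction to an irreducible curve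
-/

namespace Pool.Agent.H74.KV

open MvPolynomial Pool.Agent.H18.Fat Pool.Agent.H22.LU Pool.Agent.H74.CT

/-- The restriction of `F` to the line `P + t v`. -/
noncomputable def onl (P v : Fin (2 + 1) → ℂ) (F : MvPolynomial (Fin (2 + 1)) ℂ) :
    Polynomial ℂ :=
  aeval (fun j => Polynomial.C (P j) + Polynomial.C (v j) * Polynomial.X) F

theorem onl_eval (P v : Fin (2 + 1) → ℂ) (F : MvPolynomial (Fin (2 + 1)) ℂ) (t : ℂ) :
    (onl P v F).eval t = eval (fun j => P j + v j * t) F := by
  unfold onl
  have h : ((Polynomial.aeval t : Polynomial ℂ →ₐ[ℂ] ℂ).comp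
      (aeval (fun j => Polynomial.C (P j) + Polynomial.C (v j) * Polynomial.X) :
        MvPolynomial (Fin (2 + 1)) ℂ →ₐ[ℂ] Polynomial ℂ)) F =
      (aeval (fun j => P j + v j * t) : MvPolynomial (Fin (2 + 1)) ℂ →ₐ[ℂ] ℂ) F := by
    congr 1
    apply MvPolynomial.algHom_ext
    intro j
    simp
  rw [AlgHom.comp_apply, Polynomial.coe_aeval_eq_eval] at h
  rw [h]
  rfl

theorem exists_dir {F : MvPolynomial (Fin (2 + 1)) ℂ} (hX : ¬ X 0 ∣ F) :
    ∃ v : Fin (2 + 1) → ℂ, v 0 = 0 ∧ eval v F ≠ 0 := by
  by_contra hcon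
  push Not at hcon
  apply hX
  let φ : MvPolynomial (Fin (2 + 1)) ℂ →ₐ[ℂ] MvPolynomial (Fin (2 + 1)) ℂ :=
    aeval fun j => if j = 0 then 0 else X j
  have h1 : φ F = 0 := by
    apply MvPolynomial.funext
    intro v
    have h2 : ((aeval v : MvPolynomial (Fin (2 + 1)) ℂ →ₐ[ℂ] ℂ).comp φ) F =
        (aeval (fun j => if j = 0 then 0 else v j) : MvPolynomial (Fin (2 + 1)) ℂ →ₐ[ℂ] ℂ) F := by
      congr 1
      apply MvPolynomial.algHom_ext
      intro j
      rw [AlgHom.comp_apply, aeval_X]
      simp only [φ, aeval_X]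
      split_ifs
      · rw [map_zero]
      · rw [aeval_X]
    have h3 := hcon (fun j => if j = 0 then 0 else v j) (if_pos rfl)
    rw [map_zero]
    exact h2.trans h3
  have h2 : ∀ G : MvPolynomial (Fin (2 + 1)) ℂ, X 0 ∣ G - φ G := by
    intro G
    induction G using MvPolynomial.induction_on with
    | C a =>
      have : φ (C a) = C a := by
        simp only [φ, aeval_C, algebraMap_eq]
      rw [this, sub_self]
      exact dvd_zero _
    | add p q hp hq =>
      rw [map_add]
      have : p + q - (φ p + φ q) = (p - φ p) + (q - φ q) := by ring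
      rw [this]
      exact dvd_add hp hq
    | mul_X p j hp =>
      rw [map_mul]
      have : p * X j - φ p * φ (X j) = (p - φ p) * X j + φ p * (X j - φ (X j)) := by ring
      rw [this]
      refine dvd_add (hp.mul_right _) (Dvd.dvd.mul_left ?_ _)
      simp only [φ, aeval_X]
      split_ifs with hj
      · rw [hj, sub_zero]
      · rw [sub_self]
        exact dvd_zero _
  have h3 := h2 F
  rwa [h1, sub_zero] at h3

theorem exists_root {F : MvPolynomial (Fin (2 + 1)) ℂ} {e : ℕ} (hF : F.IsHomogeneous e)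
    (he : 1 ≤ e) {v : Fin (2 + 1) → ℂ} (hv : eval v F ≠ 0) (P : Fin (2 + 1) → ℂ) :
    ∃ t : ℂ, eval (fun j => P j + v j * t) F = 0 := by
  by_contra hcon
  push Not at hcon
  have h1 : (onl P v F).degree = 0 := by
    by_contra h0
    obtain ⟨t, ht⟩ := IsAlgClosed.exists_root (onl P v F) h0
    rw [Polynomial.IsRoot, onl_eval] at ht
    exact hcon t ht
  obtain ⟨c, hc⟩ : ∃ c, onl P v F = Polynomial.C c := ⟨_, Polynomial.eq_C_of_degree_eq_zero h1⟩
  -- the restriction to the line from `v` to `P`
  have h2 : onl v P F = Polynomial.C c * Polynomial.X ^ e := by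
    have h3 : Set.Infinite {t : ℂ | t ≠ 0} := by
      have : {t : ℂ | t ≠ 0} = ({0} : Set ℂ)ᶜ := by
        ext t
        simp
      rw [this]
      exact Set.Finite.infinite_compl (Set.finite_singleton 0)
    refine Polynomial.eq_of_infinite_eval_eq _ _ (h3.mono fun t ht => ?_)
    rw [Set.mem_ofPred_eq] at ht ⊢
    rw [onl_eval]
    have h4 := Pool.Agent.H18.Ex.eval_smul_of_homogeneous hF t (fun j => P j + v j * t⁻¹)
    have h5 : (fun j => t * (P j + v j * t⁻¹)) = fun j => v j + P j * t := by
      funext j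
      field_simp
      ring
    rw [h5] at h4
    rw [h4, ← onl_eval, hc]
    simp
    ring
  have h3 : eval v F = 0 := by
    have h4 := onl_eval v P F 0
    rw [h2] at h4
    have h5 : (fun j => v j + P j * 0) = v := by
      funext j
      ring
    rw [h5] at h4
    rw [← h4]
    simp
    right
    omega
  exact hv h3

/-- Points of a plane curve in the affine chart, different from finitely many given points. -/
theorem exists_points {F : MvPolynomial (Fin (2 + 1)) ℂ} {e : ℕ} (hF : F.IsHomogeneous e)
    (he : 1 ≤ e) (hX : ¬ X 0 ∣ F) (bad : Set (Fin (2 + 1) → ℂ)) (hbad : bad.Finite) (x : ℕ) :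
    ∃ q : Fin x → Fin (2 + 1) → ℂ, Function.Injective q ∧
      ∀ l, q l 0 = 1 ∧ eval (q l) F = 0 ∧ q l ∉ bad := by
  obtain ⟨v, hv0, hv⟩ := exists_dir hX
  -- a linear form vanishing on `v`
  have hv12 : v 1 ≠ 0 ∨ v 2 ≠ 0 := by
    by_contra hcon
    push Not at hcon
    have h1 : v = fun j => 0 * v j := by
      funext j
      fin_cases j
      · simp [hv0]
      · simp [hcon.1]
      · simp [hcon.2]
    have h2 := Pool.Agent.H18.Ex.eval_smul_of_homogeneous hF 0 v
    rw [← h1, zero_pow (by omega), zero_mul] at h2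
    exact hv h2
  obtain ⟨P, hP0, hP⟩ : ∃ P : ℂ → Fin (2 + 1) → ℂ, (∀ s, P s 0 = 1) ∧
      ∀ s, v 2 * P s 1 - v 1 * P s 2 = s := by
    rcases hv12 with h | h
    · refine ⟨fun s => ![1, 0, -s / v 1], fun s => rfl, fun s => ?_⟩
      have e1 : (![1, 0, -s / v 1] : Fin (2 + 1) → ℂ) 1 = 0 := rfl
      have e2 : (![1, 0, -s / v 1] : Fin (2 + 1) → ℂ) 2 = -s / v 1 := rfl
      dsimp only
      rw [e1, e2]
      field_simp
      ring
    · refine ⟨fun s => ![1, s / v 2, 0], fun s => rfl, fun s => ?_⟩
      have e1 : (![1, s / v 2, 0] : Fin (2 + 1) → ℂ) 1 = s / v 2 := rfl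
      have e2 : (![1, s / v 2, 0] : Fin (2 + 1) → ℂ) 2 = 0 := rfl
      dsimp only
      rw [e1, e2]
      field_simp
      ring
  choose t ht using fun s => exists_root hF he hv (P s)
  set Q : ℂ → Fin (2 + 1) → ℂ := fun s j => P s j + v j * t s with hQ
  have hQ0 : ∀ s, Q s 0 = 1 := by
    intro s
    rw [hQ]
    dsimp only
    rw [hP0, hv0, zero_mul, add_zero]
  have hQs : ∀ s, v 2 * Q s 1 - v 1 * Q s 2 = s := by
    intro s
    rw [hQ]
    dsimp only
    have := hP s
    linear_combination this
  have hinj : Function.Injective Q := by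
    intro s s' h
    rw [← hQs s, h, hQs]
  have hfin : (Q ⁻¹' bad).Finite := hbad.preimage hinj.injOn
  have hinf : (Q ⁻¹' bad)ᶜ.Infinite := hfin.infinite_compl
  obtain ⟨S, hS, hSc⟩ := hinf.exists_subset_card_eq x
  have e : Fin x ≃ S := (Fintype.equivFinOfCardEq (by rw [Fintype.card_coe, hSc])).symm
  refine ⟨fun l => Q (e l), fun l l' h => ?_, fun l => ⟨hQ0 _, ht _, ?_⟩⟩
  · exact e.injective (Subtype.ext (hinj h))
  · exact hS (e l).2

/-- Affine points are separated. -/
theorem sep_of_affine {ι : Type*} {p : ι → Fin (2 + 1) → ℂ} (h1 : ∀ i, p i 0 = 1)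
    (hinj : Function.Injective p) : Sep p := by
  intro i j hij
  have h2 : p i ≠ p j := fun h => hij (hinj h)
  obtain ⟨c, hc⟩ := Function.ne_iff.1 h2
  refine ⟨X c - C (p j c) * X 0, ?_, ?_, ?_⟩
  · refine (isHomogeneous_X ℂ c).sub ?_
    have := (isHomogeneous_C (Fin (2 + 1)) (p j c)).mul (isHomogeneous_X ℂ (0 : Fin (2 + 1)))
    rwa [Nat.zero_add] at this
  · simp [h1]
  · simp only [map_sub, eval_X, map_mul, eval_C, h1, mul_one]
    exact sub_ne_zero.2 hc

/-- The restriction to an irreducible curve. -/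
theorem peel {n : ℕ} (p : Fin n → Fin (2 + 1) → ℂ) (h1 : ∀ i, p i 0 = 1)
    (hinj : Function.Injective p) {F : MvPolynomial (Fin (2 + 1)) ℂ} {e : ℕ} (hF : Irreducible F)
    (hFe : F.IsHomogeneous e) (he : 1 ≤ e) (hX : ¬ X 0 ∣ F) (κ : Fin n → ℕ)
    (hκ : ∀ i, VanishesToOrder F (p i) (κ i)) (hκ' : ∀ i, ¬ VanishesToOrder F (p i) (κ i + 1))
    (j : ℕ) (b : Fin n → ℕ) (x : ℕ) (hx : e * j < ∑ i, κ i * b i + x) :
    Module.finrank ℂ (fatForms 2 j p b) ≤
      Module.finrank ℂ (fatForms 2 (j - e) p fun i => b i - κ i) + x := by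
  classical
  obtain ⟨q, hq1, hq2⟩ := exists_points hFe he hX (Set.range p) (Set.finite_range p) x
  have i1 := fin_fatForms 2 j p b
  have i2 := fin_fatForms 2 (j - e) p fun i => b i - κ i
  let f : fatForms 2 j p b →ₗ[ℂ] (Fin x → ℂ) :=
    { toFun := fun G l => eval (q l) G.1
      map_add' := fun G H => by
        funext l
        simp
      map_smul' := fun c G => by
        funext l
        simp [MvPolynomial.smul_eval] }
  have hker : Module.finrank ℂ (LinearMap.ker f) ≤
      Module.finrank ℂ (fatForms 2 (j - e) p fun i => b i - κ i) := by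
    let g : LinearMap.ker f →ₗ[ℂ] MvPolynomial (Fin (2 + 1)) ℂ :=
      (fatForms 2 j p b).subtype.comp (LinearMap.ker f).subtype
    have hg : Function.Injective g := Subtype.val_injective.comp Subtype.val_injective
    have hr : LinearMap.range g ≤ (fatForms 2 (j - e) p fun i => b i - κ i).map
        (LinearMap.mulLeft ℂ F) := by
      rintro _ ⟨G, rfl⟩
      have hGf : ∀ l, eval (q l) G.1.1 = 0 := fun l => congrFun (LinearMap.mem_ker.1 G.2) l
      have hdvd : F ∣ G.1.1 := by
        by_contra hcon
        have hs : Sep (Sum.elim p q) := by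
          refine sep_of_affine (fun i => ?_) ?_
          · rcases i with i | i
            · exact h1 i
            · exact (hq2 i).1
          · refine Function.Injective.sumElim hinj hq1 fun i l h => ?_
            exact (hq2 l).2.2 ⟨i, h⟩
        have h2 := bezout (Sum.elim p q) (fun i => by
          rcases i with i | i
          · rw [Sum.elim_inl, h1]
            exact one_ne_zero
          · rw [Sum.elim_inr, (hq2 i).1]
            exact one_ne_zero) hs hF hFe G.1.2.1 hcon (Sum.elim κ fun _ => 1)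
          (Sum.elim b fun _ => 1) (fun i => by
            rcases i with i | i
            · exact hκ i
            · exact vanishes_one_iff.2 (hq2 i).2.1) (fun i => by
            rcases i with i | i
            · exact G.1.2.2 i
            · exact vanishes_one_iff.2 (hGf i))
        rw [Fintype.sum_sum_type] at h2
        simp only [Sum.elim_inl, Sum.elim_inr, mul_one, Finset.sum_const, Finset.card_univ,
          Fintype.card_fin, smul_eq_mul] at h2
        omega
      obtain ⟨H, hH⟩ := hdvd
      refine ⟨H, ⟨hom_quot (hH ▸ G.1.2.1) hF.ne_zero hFe, fun i => ?_⟩, hH.symm⟩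
      exact vanishes_of_mul (hκ' i) (hH ▸ G.1.2.2 i)
    rw [← LinearMap.finrank_range_of_inj hg]
    exact (Submodule.finrank_mono hr).trans (Submodule.finrank_map_le _ _)
  have h2 := LinearMap.finrank_range_add_finrank_ker f
  have h3 : Module.finrank ℂ (LinearMap.range f) ≤ x := by
    refine (Submodule.finrank_le _).trans ?_
    rw [Module.finrank_fintype_fun_eq_card, Fintype.card_fin]
  omega

/-- The restriction to the line at infinity. -/
theorem peel_inf {n : ℕ} (p : Fin n → Fin (2 + 1) → ℂ) (h1 : ∀ i, p i 0 ≠ 0)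
    (j : ℕ) (b : Fin n → ℕ) : Module.finrank ℂ (fatForms 2 (j + 1) p b) ≤
      Module.finrank ℂ (fatForms 2 j p b) + (j + 2) := by
  have h2 := grow_le (r := 2) (j := j) p h1 b
  rw [finrank_all, finrank_all] at h2
  have h3 : (j + 1 + 2).choose 2 = (j + 2).choose 2 + (j + 2) := by
    have : j + 1 + 2 = (j + 2) + 1 := by omega
    rw [this, Nat.choose_succ_succ' (j + 2) 1, Nat.choose_one_right]
    exact Nat.add_comm _ _
  omega

end Pool.Agent.H74.KV

end
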