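import Pool.Agent.H94.LP4.H18.Pr.CremR
import Pool.Agent.H94.LP4.M07
import Pool.Agent.H94.LP4.M18

/-! The parts of this file: H74.BP.Elem, H74.CT.Numer. -/

section

/-!
# The elementary two-sided bound

If some form of degree `e` has the given multiplicities, then a further general point of multiplicity at
most `d - e + 1` imposes independent conditions in degree `d`.  Hence points of multiplicity at most `M`,
of total length `S`, impose independent conditions on the forms of degree `d` with multiplicities `m` on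
`J`, if `S ≤ h(d - M + 1)`, and no such form has them, if `S ≥ h(d + M - 1)`.
-/

namespace Pool.Agent.H74.BP

open MvPolynomial Pool.Agent.H18.Fat Pool.Agent.H18.Ub Pool.Agent.H22.LU Pool.Agent.H74.CT

/-- Larger multiplicities, smaller dimension. -/
theorem generalDim_anti {r d k : ℕ} {w w' : Fin k → ℕ} (h : ∀ i, w i ≤ w' i) :
    generalDim r d w' ≤ generalDim r d w := by
  obtain ⟨p, hp1, hp2⟩ := Pool.Agent.H18.Cub.exists_of_general
    ((generalDim_spec r d w).and (generalDim_spec r d w'))
  rw [← hp1, ← hp2]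
  have := fin_fatForms r d p w
  exact Submodule.finrank_mono fun F hF => ⟨hF.1, fun i => van_mono (hF.2 i) (h i)⟩

theorem generalDim_up (r j : ℕ) {k : ℕ} (w : Fin k → ℕ) :
    generalDim r j w ≤ generalDim r (j + 1) w := by
  obtain ⟨p, hp2, hp3⟩ := Pool.Agent.H18.Cub.exists_of_general
    ((generalDim_spec r j w).and (generalDim_spec r (j + 1) w))
  rw [← hp2, ← hp3]
  exact grow_zero p w

theorem generalDim_deg {r k : ℕ} (w : Fin k → ℕ) : Monotone fun j => generalDim r j w :=
  monotone_nat_of_le_succ fun j => generalDim_up r j w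

theorem simple_lt {r e k : ℕ} (w : Fin k → ℕ) (P : Fin k) (hP : w P = 0)
    (hpos : 1 ≤ generalDim r e w) :
    generalDim r e (Function.update w P 1) < generalDim r e w := by
  classical
  obtain ⟨p₀, hp₀⟩ := Pool.Agent.H18.Cub.exists_of_general (generalDim_spec r e w)
  have hne : fatForms r e p₀ w ≠ ⊥ := by
    intro h
    rw [h, finrank_bot] at hp₀
    omega
  obtain ⟨F, hF, hF0⟩ := Submodule.exists_mem_ne_zero_of_ne_bot hne
  obtain ⟨x, hx⟩ : ∃ x, eval x F ≠ 0 := by
    by_contra hall
    push Not at hall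
    apply hF0
    apply MvPolynomial.funext
    intro x
    rw [hall x, map_zero]
  set p' : Fin k → Fin (r + 1) → ℂ := Function.update p₀ P x with hp'
  have heq : fatForms r e p' w = fatForms r e p₀ w := by
    have h1 : ∀ (G : MvPolynomial (Fin (r + 1)) ℂ) (l : Fin k),
        VanishesToOrder G (p' l) (w l) ↔ VanishesToOrder G (p₀ l) (w l) := by
      intro G l
      by_cases hl : l = P
      · rw [hl, hP]
        exact ⟨fun _ => vanishesToOrder_zero _ _, fun _ => vanishesToOrder_zero _ _⟩
      · rw [hp', Function.update_of_ne hl]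
    ext G
    exact ⟨fun h => ⟨h.1, fun l => (h1 G l).1 (h.2 l)⟩, fun h => ⟨h.1, fun l => (h1 G l).2 (h.2 l)⟩⟩
  have hsub : fatForms r e p' (Function.update w P 1) < fatForms r e p' w := by
    refine lt_of_le_of_ne (fun G hG => ⟨hG.1, fun l => van_mono (hG.2 l) ?_⟩) fun h => ?_
    · by_cases hl : l = P
      · rw [hl, hP]
        exact Nat.zero_le _
      · rw [Function.update_of_ne hl]
    · have h1 : F ∈ fatForms r e p' (Function.update w P 1) := by
        rw [h, heq]
        exact hF
      have h2 := h1.2 P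
      rw [Function.update_self, vanishesToOrder_one, hp', Function.update_self] at h2
      exact hx h2
  have hfin := fin_fatForms r e p' w
  have h1 := Submodule.finrank_lt_finrank_of_lt hsub
  rw [heq, hp₀] at h1
  exact lt_of_le_of_lt (Nat.sInf_le ⟨p', rfl⟩) h1

/-- A form with the given multiplicities, not vanishing at a further point. -/
theorem exists_form {r e k : ℕ} (w : Fin k → ℕ) (P : Fin k) (hP : w P = 0)
    (hpos : 1 ≤ generalDim r e w) :
    ForGeneralPoints r k fun p => ∃ G ∈ fatForms r e p w, eval (p P) G ≠ 0 := by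
  classical
  refine ((generalDim_spec r e (Function.update w P 1)).and (generalDim_spec r e w)).mono
    fun p hp => ?_
  obtain ⟨hp1, hp2⟩ := hp
  by_contra hcon
  push Not at hcon
  have h1 : fatForms r e p w ≤ fatForms r e p (Function.update w P 1) := by
    intro G hG
    refine ⟨hG.1, fun l => ?_⟩
    by_cases hl : l = P
    · rw [hl, Function.update_self, vanishesToOrder_one]
      exact hcon G hG
    · rw [Function.update_of_ne hl]
      exact hG.2 l
  have hfin := fin_fatForms r e p (Function.update w P 1)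
  have h2 := Submodule.finrank_mono h1
  rw [hp1, hp2] at h2
  have h3 := simple_lt w P hP hpos
  omega

section sum

variable {k : ℕ}

/-- The multiplicities on `J`. -/
theorem on_union (m : Fin k → ℕ) (J A : Finset (Fin k)) (P : Fin k) (hPJ : P ∉ J) (hPA : P ∉ A) :
    (fun i => if i ∈ J ∪ insert P A then m i else 0) =
      Function.update (fun i => if i ∈ J ∪ A then m i else 0) P (m P) := by
  classical
  funext i
  by_cases hi : i = P
  · subst hi
    rw [Function.update_self, if_pos (Finset.mem_union_right _ (Finset.mem_insert_self _ _))]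
  · rw [Function.update_of_ne hi]
    have : i ∈ J ∪ insert P A ↔ i ∈ J ∪ A := by
      rw [Finset.mem_union, Finset.mem_union, Finset.mem_insert]
      tauto
    simp only [this]

theorem dim_lower {r : ℕ} (hr : 1 ≤ r) (d : ℕ) (m : Fin k → ℕ) (J A : Finset (Fin k))
    (hA : Disjoint J A) :
    (generalDim r d fun i => if i ∈ J then m i else 0) ≤
      (generalDim r d fun i => if i ∈ J ∪ A then m i else 0) +
        ∑ i ∈ A, (m i + r - 1).choose r := by
  classical
  obtain ⟨p, hp0, hp1, hp2⟩ := Pool.Agent.H18.Cub.exists_of_general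
    ((Pool.Agent.H18.Pr.general_ne_zero r k).and
      ((generalDim_spec r d fun i => if i ∈ J then m i else 0).and
        (generalDim_spec r d fun i => if i ∈ J ∪ A then m i else 0)))
  have h1 := finrank_ge_add (r := r) (d := d) hr hp0 (fun i => if i ∈ J ∪ A then m i else 0) J
  have h2 : (fun i => if i ∈ J then (if i ∈ J ∪ A then m i else 0) else 0) =
      fun i => if i ∈ J then m i else 0 := by
    funext i
    by_cases hi : i ∈ J
    · rw [if_pos hi, if_pos hi, if_pos (Finset.mem_union_left _ hi)]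
    · rw [if_neg hi, if_neg hi]
  have h3 : ∑ i ∈ Finset.univ.filter (fun i => i ∉ J),
      (((if i ∈ J ∪ A then m i else 0) + r - 1).choose r : ℤ) =
        ((∑ i ∈ A, (m i + r - 1).choose r : ℕ) : ℤ) := by
    push_cast
    have h4 : A ⊆ Finset.univ.filter (fun i => i ∉ J) := fun i hi =>
      Finset.mem_filter.2 ⟨Finset.mem_univ _, fun h => Finset.disjoint_left.1 hA h hi⟩
    rw [← Finset.sum_subset h4]
    · refine Finset.sum_congr rfl fun i hi => ?_
      rw [if_pos (Finset.mem_union_right _ hi)]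
    · intro i hi1 hi2
      rw [Finset.mem_filter] at hi1
      rw [if_neg (by
        rw [Finset.mem_union]
        rintro (h3 | h3)
        · exact hi1.2 h3
        · exact hi2 h3), Nat.choose_eq_zero_of_lt (by omega)]
      rfl
  rw [h2, hp1, hp2, h3] at h1
  omega

end sum

end Pool.Agent.H74.BP

end

section

/-!
# The dimension in the degrees slightly below `d`
-/

namespace Pool.Agent.H74.CT

open Pool.Agent.H18.Fat Finset

theorem hockey (s m : ℕ) : ∑ i ∈ range m, (i + (s + 1)).choose (s + 1) =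
    (m + (s + 2) - 1).choose (s + 2) := by
  induction m with
  | zero =>
    rw [range_zero, sum_empty, Nat.choose_eq_zero_of_lt (by omega)]
  | succ m ih =>
    rw [sum_range_succ, ih]
    have h1 : m + 1 + (s + 2) - 1 = (m + (s + 1)) + 1 := by omega
    have h2 : m + (s + 2) - 1 = m + (s + 1) := by omega
    rw [h1, h2, Nat.choose_succ_succ, Nat.add_comm]

theorem choose_drop (s i : ℕ) : ∀ γ : ℕ, γ ≤ i →
    (i + (s + 1)).choose (s + 1) ≤ (i - γ + (s + 1)).choose (s + 1) + γ * (i + s).choose s := by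
  intro γ
  induction γ with
  | zero =>
    intro _
    simp
  | succ γ ih =>
    intro h
    have h1 := ih (by omega)
    have h2 : i - γ + (s + 1) = (i - (γ + 1) + (s + 1)) + 1 := by omega
    rw [h2, Nat.choose_succ_succ' (i - (γ + 1) + (s + 1)) s] at h1
    have h3 : (i - (γ + 1) + (s + 1)).choose s ≤ (i + s).choose s :=
      Nat.choose_le_choose _ (by omega)
    rw [Nat.succ_mul]
    omega

/-- The excess. -/
def exc {k : ℕ} (m : Fin k → ℕ) (J : Finset (Fin k)) (j : ℕ) (P : Fin k) (i : ℕ) : ℕ :=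
  ∑ l ∈ J.filter (fun l => l ≠ P ∧ m P ≤ m l), (m l + i - j)

section

variable {s k d D δ : ℕ} {m : Fin k → ℕ} {J : Finset (Fin k)}

theorem exc_term (hδ : 2 * δ ≤ d) (h3 : ∀ a ∈ J, ∀ b ∈ J, a ≠ b → m a + m b ≤ d + 1)
    {P : Fin k} (hP : P ∈ J) {i : ℕ} (hi : i < m P) {l : Fin k}
    (hl : l ∈ J.filter (fun l => l ≠ P ∧ m P ≤ m l)) :
    m l + i - (d - δ) ≤ δ ∧ (m l + i - (d - δ) ≠ 0 → d ≤ 4 * m l ∧ m P ≤ i + δ) := by
  rw [mem_filter] at hl
  have h4 := h3 l hl.1 P hP hl.2.1
  have h5 := hl.2.2
  constructor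
  · omega
  · intro h6
    constructor <;> omega

theorem exc_le (hd : 1 ≤ d) (hδ : 2 * δ ≤ d) (h2 : ∑ i ∈ J, m i ≤ (s + 2) * d)
    (h3 : ∀ a ∈ J, ∀ b ∈ J, a ≠ b → m a + m b ≤ d + 1)
    {P : Fin k} (hP : P ∈ J) {i : ℕ} (hi : i < m P) :
    exc m J (d - δ) P i ≤ 4 * (s + 2) * δ := by
  have h4 : d * exc m J (d - δ) P i ≤ ∑ l ∈ J, 4 * δ * m l := by
    unfold exc
    rw [mul_sum]
    calc ∑ l ∈ J.filter (fun l => l ≠ P ∧ m P ≤ m l), d * (m l + i - (d - δ)) ≤
        ∑ l ∈ J.filter (fun l => l ≠ P ∧ m P ≤ m l), 4 * δ * m l := by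
          refine sum_le_sum fun l hl => ?_
          obtain ⟨h5, h6⟩ := exc_term hδ h3 hP hi hl
          by_cases h7 : m l + i - (d - δ) = 0
          · rw [h7, mul_zero]
            exact Nat.zero_le _
          · have h8 := (h6 h7).1
            calc d * (m l + i - (d - δ)) ≤ (4 * m l) * δ := Nat.mul_le_mul h8 h5
              _ = 4 * δ * m l := by ring
      _ ≤ _ := sum_le_sum_of_subset (filter_subset _ _)
  rw [← mul_sum] at h4
  have h5 : d * exc m J (d - δ) P i ≤ d * (4 * (s + 2) * δ) := by
    refine h4.trans ?_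
    calc 4 * δ * ∑ i ∈ J, m i ≤ 4 * δ * ((s + 2) * d) := Nat.mul_le_mul_left _ h2
      _ = d * (4 * (s + 2) * δ) := by ring
  exact Nat.le_of_mul_le_mul_left h5 hd

theorem exc_pos (hδ : 2 * δ ≤ d) (h1 : ∀ i ∈ J, m i + D ≤ d)
    (h3 : ∀ a ∈ J, ∀ b ∈ J, a ≠ b → m a + m b ≤ d + 1)
    {P : Fin k} (hP : P ∈ J) {i : ℕ} (hi : i < m P) (h0 : exc m J (d - δ) P i ≠ 0) :
    D < i + δ ∧ m P ≤ i + δ := by
  unfold exc at h0
  obtain ⟨l, hl, h4⟩ := exists_ne_zero_of_sum_ne_zero h0
  have h5 := (exc_term hδ h3 hP hi hl).2 h4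
  have h6 := h1 l (mem_filter.1 hl).1
  constructor
  · omega
  · exact h5.2

/-- Degrees slightly below `d`. -/
theorem near (hD : 4 * (s + 2) ^ 2 * δ ≤ D) (hD0 : 1 ≤ D) (hDd : D ≤ d)
    (h1 : ∀ i ∈ J, m i + D ≤ d) (h2 : ∑ i ∈ J, m i + D ≤ (s + 2) * d)
    (h3 : ∀ a ∈ J, ∀ b ∈ J, a ≠ b → m a + m b ≤ d + 1) :
    ∃ e : ℕ, D * e ≤ 8 * (s + 2) ^ 3 * δ ^ 2 * (d + (s + 1)).choose (s + 1) ∧
      (generalDim (s + 2) (d - δ) fun i => if i ∈ J then m i else 0) +
        ∑ i ∈ J, (m i + (s + 2) - 1).choose (s + 2) ≤ (d - δ + (s + 2)).choose (s + 2) + e := by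
  have hsq : 4 * (s + 2) * δ * (s + 2) ≤ D := by
    refine le_trans (le_of_eq ?_) hD
    ring
  have hδd : 8 * δ * (s + 2) ≤ D := by
    have h4 : 8 * δ * (s + 2) ≤ 4 * (s + 2) * δ * (s + 2) := by
      have : 8 * δ ≤ 4 * (s + 2) * δ := by nlinarith
      exact Nat.mul_le_mul_right _ this
    exact h4.trans hsq
  have hδd2 : 16 * δ ≤ D := by nlinarith
  have hδ : 2 * δ ≤ d := by omega
  have hd : 1 ≤ d := by omega
  have h2' : ∑ i ∈ J, m i ≤ (s + 2) * d := by omega
  have hex := @exc_le s k d δ m J hd hδ h2' h3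
  have hpos := @exc_pos k d D δ m J hδ h1 h3
  have hup := upper_fin (s + 2) (d - δ) k (by omega) m (exc m J (d - δ)) J
    (fun P hP => by
      have := h1 P hP
      omega)
    (fun P hP i hi => ⟨le_rfl, by
      by_cases h0 : exc m J (d - δ) P i = 0
      · omega
      · have h4 := (hpos hP hi h0).1
        have h5 := hex hP hi
        have h6 : 4 * (s + 2) * δ + δ ≤ D := by nlinarith
        omega, by
      have h5 := hex hP hi
      have h6 : (s + 2 - 2) * exc m J (d - δ) P i ≤ s * (4 * (s + 2) * δ) := by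
        have : s + 2 - 2 = s := by omega
        rw [this]
        exact Nat.mul_le_mul_left _ h5
      have h7 : (s + 2) * (d - δ) + (s + 2) * δ = (s + 2) * d := by
        rw [← Nat.mul_add]
        congr 1
        omega
      have h8 : s * (4 * (s + 2) * δ) + (s + 2) * δ ≤ D := by nlinarith
      omega⟩)
  have hr1 : s + 2 - 1 = s + 1 := by omega
  rw [hr1] at hup
  refine ⟨∑ P ∈ J, ∑ i ∈ range (m P), exc m J (d - δ) P i * (i + s).choose s, ?_, ?_⟩
  · -- the error
    have hN : (d + (s + 1)) * (d + s).choose s = (d + (s + 1)).choose (s + 1) * (s + 1) :=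
      Nat.add_one_mul_choose_eq (d + s) s
    have hinner : ∀ P ∈ J, D * ∑ i ∈ range (m P), exc m J (d - δ) P i * (i + s).choose s ≤
        2 * m P * (4 * (s + 2) * δ ^ 2 * (d + s).choose s) := by
      intro P hP
      have hterm : ∀ i ∈ range (m P), exc m J (d - δ) P i * (i + s).choose s ≤
          if m P ≤ i + δ ∧ D ≤ 2 * m P then 4 * (s + 2) * δ * (d + s).choose s else 0 := by
        intro i hi
        rw [mem_range] at hi
        by_cases h0 : exc m J (d - δ) P i = 0
        · rw [h0, zero_mul]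
          exact Nat.zero_le _
        · obtain ⟨h4, h5⟩ := hpos hP hi h0
          rw [if_pos ⟨h5, by omega⟩]
          refine Nat.mul_le_mul (hex hP hi) (Nat.choose_le_choose _ ?_)
          have := h1 P hP
          omega
      by_cases hbig : D ≤ 2 * m P
      · have h4 : ∑ i ∈ range (m P), exc m J (d - δ) P i * (i + s).choose s ≤
            δ * (4 * (s + 2) * δ * (d + s).choose s) := by
          refine (sum_le_sum hterm).trans ?_
          rw [← sum_filter, sum_const, smul_eq_mul]
          refine Nat.mul_le_mul_right _ ?_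
          have h5 : (range (m P)).filter (fun i => m P ≤ i + δ ∧ D ≤ 2 * m P) ⊆
              Ico (m P - δ) (m P) := by
            intro i hi
            rw [mem_filter, mem_range] at hi
            rw [mem_Ico]
            omega
          refine (card_le_card h5).trans ?_
          rw [Nat.card_Ico]
          omega
        calc D * ∑ i ∈ range (m P), exc m J (d - δ) P i * (i + s).choose s ≤
            (2 * m P) * (δ * (4 * (s + 2) * δ * (d + s).choose s)) := Nat.mul_le_mul hbig h4
          _ = _ := by ring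
      · have h4 : ∑ i ∈ range (m P), exc m J (d - δ) P i * (i + s).choose s = 0 := by
          refine Nat.le_zero.1 ((sum_le_sum hterm).trans (le_of_eq ?_))
          refine sum_eq_zero fun i _ => ?_
          rw [if_neg fun h => hbig h.2]
        rw [h4, mul_zero]
        exact Nat.zero_le _
    have hdN : d * (d + s).choose s ≤ (d + (s + 1)).choose (s + 1) * (s + 2) := by
      calc d * (d + s).choose s ≤ (d + (s + 1)) * (d + s).choose s :=
            Nat.mul_le_mul_right _ (by omega)
        _ = (d + (s + 1)).choose (s + 1) * (s + 1) := hN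
        _ ≤ _ := Nat.mul_le_mul_left _ (by omega)
    calc D * ∑ P ∈ J, ∑ i ∈ range (m P), exc m J (d - δ) P i * (i + s).choose s =
        ∑ P ∈ J, D * ∑ i ∈ range (m P), exc m J (d - δ) P i * (i + s).choose s := mul_sum _ _ _
      _ ≤ ∑ P ∈ J, 2 * m P * (4 * (s + 2) * δ ^ 2 * (d + s).choose s) := sum_le_sum hinner
      _ = (∑ P ∈ J, m P) * (8 * (s + 2) * δ ^ 2 * (d + s).choose s) := by
          rw [sum_mul]
          refine sum_congr rfl fun P _ => ?_
          ring
      _ ≤ ((s + 2) * d) * (8 * (s + 2) * δ ^ 2 * (d + s).choose s) :=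
          Nat.mul_le_mul_right _ h2'
      _ = (8 * (s + 2) ^ 2 * δ ^ 2) * (d * (d + s).choose s) := by ring
      _ ≤ (8 * (s + 2) ^ 2 * δ ^ 2) * ((d + (s + 1)).choose (s + 1) * (s + 2)) :=
          Nat.mul_le_mul_left _ hdN
      _ = _ := by ring
  · have h4 : ∑ i ∈ J, (m i + (s + 2) - 1).choose (s + 2) ≤
        ∑ P ∈ J, ∑ i ∈ range (m P), (i - exc m J (d - δ) P i + (s + 1)).choose (s + 1) +
        ∑ P ∈ J, ∑ i ∈ range (m P), exc m J (d - δ) P i * (i + s).choose s := by
      rw [← sum_add_distrib]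
      refine sum_le_sum fun P hP => ?_
      rw [← hockey, ← sum_add_distrib]
      refine sum_le_sum fun i hi => ?_
      rw [mem_range] at hi
      refine choose_drop s i _ ?_
      by_cases h0 : exc m J (d - δ) P i = 0
      · omega
      · have h4 := (hpos hP hi h0).1
        have h5 := hex hP hi
        have h6 : 4 * (s + 2) * δ + δ ≤ D := by nlinarith
        omega
    omega

end

end Pool.Agent.H74.CT

end
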