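import Pool.Agent.H94.LP4.H74.KV.Def
import Pool.Agent.H94.LP4.H74.KV.Reidx
import Pool.Agent.H94.LP4.M19

/-! The parts of this file: H74.KV.Xu, H74.KV.Xu2, H74.KV.Sw. -/

section

/-!
# Curves through ten or more general points
-/

namespace Pool.Agent.H74.KV

open Finset MvPolynomial Pool.Agent.H18.Fat Pool.Agent.H18.Ub Pool.Agent.H22.LU Pool.Agent.H74.CT Pool.Agent.H18.Nef

variable {n : ℕ}

theorem Good.sep {D : ℕ} {p : Fin n → Fin (2 + 1) → ℂ} (h : Good n D p) : Sep p :=
  sep_of_affine h.one h.inj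

end Pool.Agent.H74.KV

end

section

/-!
# The lemma of Xu, nefness and emptiness in standard form
-/

namespace Pool.Agent.H74.KV

open Finset MvPolynomial Pool.Agent.H18.Fat Pool.Agent.H18.Ub Pool.Agent.H22.LU Pool.Agent.H74.CT Pool.Agent.H18.Nef

variable {n : ℕ}

theorem eff_of_mem {D e : ℕ} {p : Fin n → Fin (2 + 1) → ℂ} (hp : Good n D p) (he : e ≤ D)
    {A : MvPolynomial (Fin (2 + 1)) ℂ} (hA0 : A ≠ 0) (hAe : A.IsHomogeneous e)
    (κ : Fin n → ℕ) (hκ : ∀ j, VanishesToOrder A (p j) (κ j)) : 1 ≤ generalDim 2 e κ := by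
  have hle : ∀ j, κ j ≤ e := by
    intro j
    by_contra hcon
    push Not at hcon
    exact hA0 (eq_zero_of_vanishes A hAe (p j) hcon (hκ j))
  rw [← hp.dim e he κ fun j => (hle j).trans he]
  have hfin := fin_fatForms 2 e p κ
  have hmem : A ∈ fatForms 2 e p κ := ⟨hAe, hκ⟩
  by_contra hcon
  have h2 : Module.finrank ℂ (fatForms 2 e p κ) = 0 := by omega
  rw [Submodule.finrank_eq_zero] at h2
  rw [h2, Submodule.mem_bot] at hmem
  exact hA0 hmem

/-- The lemma of Xu. -/
theorem xu {D e : ℕ} {p : Fin n → Fin (2 + 1) → ℂ} (hp : Good n D p) (he : e ≤ D)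
    {A : MvPolynomial (Fin (2 + 1)) ℂ} (hA : Irreducible A) (hAe : A.IsHomogeneous e)
    (κ : Fin n → ℕ)
    (hκ : ∀ j, VanishesToOrder A (p j) (κ j) ∧ ¬ VanishesToOrder A (p j) (κ j + 1))
    {i : Fin n} (hi : 1 ≤ κ i) : ∑ j, κ j ^ 2 ≤ e ^ 2 + κ i := by
  classical
  have hA0 := hA.ne_zero
  have hle : ∀ j, κ j ≤ e := by
    intro j
    by_contra hcon
    push Not at hcon
    exact hA0 (eq_zero_of_vanishes A hAe (p j) hcon (hκ j).1)
  obtain ⟨G, hGe, hG1, hG2, hG3⟩ := exists_drop hp.one κ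
    (hp.dim e he κ fun j => (hle j).trans he) ⟨hAe, fun j => (hκ j).1⟩ hi (hκ i).2
  have hG0 : G ≠ 0 := by
    rintro rfl
    exact hG3 fun β _ => by
      unfold shift
      rw [map_zero, coeff_zero]
  have hdvd : ¬ A ∣ G := by
    rintro ⟨B, rfl⟩
    apply hG3
    have hB0 : B ≠ 0 := by
      rintro rfl
      exact hG0 (mul_zero A)
    obtain ⟨a, b, ha, hb, hab⟩ := hom_of_mul hGe hA0 hB0
    have hae : a = e := ha.inj_right hAe hA0
    have hb0 : b = 0 := by omega
    subst hb0
    have h4 := totalDegree_eq_zero_iff_eq_C.1 (hb.totalDegree hB0)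
    intro β hβ
    rw [h4]
    have h5 : shift (p i) (A * C (coeff 0 B)) = shift (p i) A * C (coeff 0 B) := by
      unfold shift
      rw [map_mul, aeval_C, algebraMap_eq]
    rw [h5, mul_comm, coeff_C_mul, (hκ i).1 β hβ, mul_zero]
  have h4 := bezout p hp.ne hp.sep hA hAe hGe hdvd κ (fun j => if j = i then κ i - 1 else κ j)
    (fun j => (hκ j).1) fun j => by
      by_cases hj : j = i
      · rw [if_pos hj, hj]
        exact hG2
      · rw [if_neg hj]
        exact hG1 j hj
  have h5 : ∑ j, κ j ^ 2 ≤ ∑ j, κ j * (if j = i then κ i - 1 else κ j) + κ i := by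
    rw [← add_sum_erase univ (fun j => κ j ^ 2) (mem_univ i),
      ← add_sum_erase univ (fun j => κ j * (if j = i then κ i - 1 else κ j)) (mem_univ i)]
    have h6 : ∑ j ∈ univ.erase i, κ j ^ 2 =
        ∑ j ∈ univ.erase i, κ j * (if j = i then κ i - 1 else κ j) := by
      refine sum_congr rfl fun j hj => ?_
      rw [if_neg (ne_of_mem_erase hj), sq]
    have h7 : κ i ^ 2 = κ i * (κ i - 1) + κ i := by
      obtain ⟨c, hc⟩ : ∃ c, κ i = c + 1 := ⟨κ i - 1, by omega⟩
      rw [hc, Nat.add_sub_cancel]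
      ring
    rw [if_pos rfl, h6, h7]
    omega
  have h6 : e * e = e ^ 2 := by ring
  omega

/-- The pairing with the components, over the real numbers. -/
theorem pair_real {ι : Type*} [Fintype ι] {p : ι → Fin (2 + 1) → ℂ} (a : ℝ) (m : ι → ℕ)
    {f : ℕ} {F : MvPolynomial (Fin (2 + 1)) ℂ} (hF0 : F ≠ 0) (hFf : F.IsHomogeneous f)
    (H : ∀ (A : MvPolynomial (Fin (2 + 1)) ℂ) (e : ℕ) (κ : ι → ℕ), Irreducible A →
      A.IsHomogeneous e → 1 ≤ e → e ≤ f →
      (∀ i, VanishesToOrder A (p i) (κ i) ∧ ¬ VanishesToOrder A (p i) (κ i + 1)) →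
      ∑ i, (m i : ℝ) * κ i ≤ a * e)
    {k : ι → ℕ} (hk : ∀ i, VanishesToOrder F (p i) (k i)) :
    ∑ i, (m i : ℝ) * k i ≤ a * f := by
  have hall : ∀ N : ℕ, 1 ≤ N → (N : ℝ) * ∑ i, (m i : ℝ) * k i ≤ (N * a + 1) * f ∨ a < 0 := by
    intro N hN
    rcases lt_or_ge a 0 with ha | ha
    · exact Or.inr ha
    · left
      have hc : (N : ℝ) * a ≤ ⌈(N : ℝ) * a⌉₊ := Nat.le_ceil _
      have hc2 : (⌈(N : ℝ) * a⌉₊ : ℝ) < N * a + 1 := Nat.ceil_lt_add_one (by positivity)
      have h1 := pair_of_irred (p := p) ⌈(N : ℝ) * a⌉₊ (fun i => N * m i) f F hF0 hFf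
        (fun A e κ hA _ hAe he hef hκ => by
          have h2 := H A e κ hA hAe he hef hκ
          have h3 : ((∑ i, N * m i * κ i : ℕ) : ℝ) ≤ ((⌈(N : ℝ) * a⌉₊ * e : ℕ) : ℝ) := by
            push_cast
            have h4 : ∑ i, (N : ℝ) * (m i : ℝ) * (κ i : ℝ) = N * ∑ i, (m i : ℝ) * κ i := by
              rw [mul_sum]
              exact sum_congr rfl fun i _ => by ring
            rw [h4]
            have he0 : (0 : ℝ) ≤ e := Nat.cast_nonneg e
            have hN0 : (0 : ℝ) ≤ N := Nat.cast_nonneg N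
            calc (N : ℝ) * ∑ i, (m i : ℝ) * κ i ≤ N * (a * e) := mul_le_mul_of_nonneg_left h2 hN0
              _ = (N * a) * e := by ring
              _ ≤ _ := mul_le_mul_of_nonneg_right hc he0
          exact_mod_cast h3) k hk
      have h5 : ((∑ i, N * m i * k i : ℕ) : ℝ) ≤ ((⌈(N : ℝ) * a⌉₊ * f : ℕ) : ℝ) := by
        exact_mod_cast h1
      push_cast at h5
      have h4 : ∑ i, (N : ℝ) * (m i : ℝ) * (k i : ℝ) = N * ∑ i, (m i : ℝ) * k i := by
        rw [mul_sum]
        exact sum_congr rfl fun i _ => by ring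
      rw [h4] at h5
      have hf0 : (0 : ℝ) ≤ f := Nat.cast_nonneg f
      exact h5.trans (mul_le_mul_of_nonneg_right hc2.le hf0)
  rcases lt_or_ge a 0 with ha | ha
  · -- no component
    rcases Nat.eq_zero_or_pos f with h0 | h0
    · subst h0
      rw [Nat.cast_zero, mul_zero]
      refine le_of_eq (sum_eq_zero fun i _ => ?_)
      have : k i = 0 := by
        by_contra hne
        exact hF0 (eq_zero_of_vanishes F hFf _ (Nat.pos_of_ne_zero hne) (hk i))
      rw [this, Nat.cast_zero, mul_zero]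
    · exfalso
      have hnu : ¬ IsUnit F := by
        intro h
        have h1 := ((MvPolynomial.isUnit_iff_totalDegree_of_isReduced (R := ℂ)).1 h).2
        rw [hFf.totalDegree hF0] at h1
        omega
      obtain ⟨A, hA, G, hG⟩ := WfDvdMonoid.exists_irreducible_factor hnu hF0
      have hG0 : G ≠ 0 := by
        rintro rfl
        exact hF0 (by rw [hG, mul_zero])
      obtain ⟨e, g, hAe, hGg, heg⟩ := hom_of_mul (hG ▸ hFf) hA.ne_zero hG0
      have he : 1 ≤ e := by
        by_contra hcon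
        have h1 : e = 0 := by omega
        subst h1
        have h2 := totalDegree_eq_zero_iff_eq_C.1 (hAe.totalDegree hA.ne_zero)
        apply hA.not_isUnit
        rw [h2]
        refine (isUnit_iff_ne_zero.2 fun h3 => hA.ne_zero ?_).map
          (C : ℂ →+* MvPolynomial (Fin (2 + 1)) ℂ)
        rw [h2, h3, map_zero]
      choose κ hκe hκ1 hκ2 using fun i => exists_mult hAe hA.ne_zero (p i)
      have h1 := H A e κ hA hAe he (by omega) fun i => ⟨hκ1 i, hκ2 i⟩
      have h2 : (0 : ℝ) ≤ ∑ i, (m i : ℝ) * κ i := sum_nonneg fun _ _ => by positivity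
      have h3 : (1 : ℝ) ≤ e := by exact_mod_cast he
      nlinarith
  · by_contra hcon
    push Not at hcon
    set s := ∑ i, (m i : ℝ) * k i with hs
    obtain ⟨N, hN⟩ := exists_nat_gt (f / (s - a * f))
    have hpos : 0 < s - a * f := by linarith
    rw [div_lt_iff₀ hpos] at hN
    rcases hall (N + 1) (by omega) with h | h
    · push_cast at h
      nlinarith
    · linarith

end Pool.Agent.H74.KV

end

section

/-!
# Irreducible curves through nine or more general points: the ratio of the squares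
-/

namespace Pool.Agent.H74.KV

open Finset MvPolynomial Pool.Agent.H18.Fat Pool.Agent.H18.Ub Pool.Agent.H22.LU Pool.Agent.H74.CT Pool.Agent.H74.BP Pool.Agent.H18.Nef

variable {n : ℕ}

/-- Two points are exchanged. -/
theorem swap_sq {D e : ℕ} {p : Fin n → Fin (2 + 1) → ℂ} (hp : Good n D p) (he : e ≤ D)
    {A : MvPolynomial (Fin (2 + 1)) ℂ} (hA : Irreducible A) (hAe : A.IsHomogeneous e)
    (κ : Fin n → ℕ)
    (hκ : ∀ j, VanishesToOrder A (p j) (κ j) ∧ ¬ VanishesToOrder A (p j) (κ j + 1))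
    {i l : Fin n} (hil : κ l < κ i) : ∑ j, κ j ^ 2 ≤ e ^ 2 + (κ i - κ l) ^ 2 := by
  classical
  have hA0 := hA.ne_zero
  have hne : i ≠ l := by
    rintro rfl
    omega
  have hle : ∀ j, κ j ≤ e := by
    intro j
    by_contra hcon
    push Not at hcon
    exact hA0 (eq_zero_of_vanishes A hAe (p j) hcon (hκ j).1)
  set κ' : Fin n → ℕ := fun j => κ (Equiv.swap i l j) with hκ'
  have h1 : 1 ≤ generalDim 2 e κ := eff_of_mem hp he hA0 hAe κ fun j => (hκ j).1
  have h2 : generalDim 2 e κ' = generalDim 2 e κ :=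
    generalDim_comp (fun j => Equiv.swap i l j) (Equiv.swap i l).injective κ
      fun j hj => absurd ⟨Equiv.swap i l j, by simp⟩ hj
  have h3 : 1 ≤ Module.finrank ℂ (fatForms 2 e p κ') := by
    rw [hp.dim e he κ' fun j => (hle _).trans he, h2]
    exact h1
  obtain ⟨G, hG, hG0⟩ : ∃ G ∈ fatForms 2 e p κ', G ≠ 0 := by
    by_contra hcon
    push Not at hcon
    have h4 : fatForms 2 e p κ' = ⊥ := by
      rw [eq_bot_iff]
      intro F hF
      rw [Submodule.mem_bot]
      exact hcon F hF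
    rw [h4, finrank_bot] at h3
    omega
  have hκ'i : κ' i = κ l := by
    rw [hκ']
    simp
  have hκ'l : κ' l = κ i := by
    rw [hκ']
    simp
  -- `A` does not divide `G`
  have hdvd : ¬ A ∣ G := by
    rintro ⟨B, rfl⟩
    have hB0 : B ≠ 0 := by
      rintro rfl
      exact hG0 (mul_zero A)
    obtain ⟨a, b, ha, hb, hab⟩ := hom_of_mul hG.1 hA0 hB0
    have hae : a = e := (ha.inj_right hAe hA0)
    have hb0 : b = 0 := by omega
    subst hb0
    have h4 := totalDegree_eq_zero_iff_eq_C.1 (hb.totalDegree hB0)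
    have hc : coeff 0 B ≠ 0 := by
      intro h
      rw [h, map_zero] at h4
      exact hB0 h4
    apply (hκ l).2
    intro β hβ
    have h5 := hG.2 l β (by
      rw [hκ'l]
      omega)
    rw [h4] at h5
    have h6 : shift (p l) (A * C (coeff 0 B)) = shift (p l) A * C (coeff 0 B) := by
      unfold shift
      rw [map_mul, aeval_C, algebraMap_eq]
    rw [h6, mul_comm, coeff_C_mul] at h5
    exact (mul_eq_zero.1 h5).resolve_left hc
  have h4 := bezout p hp.ne hp.sep hA hAe hG.1 hdvd κ κ' (fun j => (hκ j).1) fun j => hG.2 j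
  have hl : l ∈ univ.erase i := mem_erase.2 ⟨hne.symm, mem_univ l⟩
  have h5 : ∀ f : Fin n → ℕ, ∑ j, f j = f i + (f l + ∑ j ∈ (univ.erase i).erase l, f j) := by
    intro f
    rw [add_sum_erase _ f hl, add_sum_erase _ f (mem_univ i)]
  rw [h5] at h4
  rw [h5]
  have h6 : ∑ j ∈ (univ.erase i).erase l, κ j * κ' j = ∑ j ∈ (univ.erase i).erase l, κ j ^ 2 := by
    refine sum_congr rfl fun j hj => ?_
    have hjl := ne_of_mem_erase hj
    have hji := ne_of_mem_erase (mem_of_mem_erase hj)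
    have h7 : κ' j = κ j := by
      rw [hκ']
      dsimp only
      rw [Equiv.swap_apply_of_ne_of_ne hji hjl]
    rw [h7, sq]
  rw [h6, hκ'i, hκ'l] at h4
  obtain ⟨c, hc⟩ : ∃ c, κ i = κ l + c := ⟨κ i - κ l, by omega⟩
  rw [hc] at h4 ⊢
  rw [Nat.add_sub_cancel_left]
  nlinarith only [h4]

/-- Points on a grid. -/
theorem grid_ub {s d : ℕ} (hs : 0 < s) (κ : Fin n → ℕ) (B : Finset (Fin n))
    (ψ : {i // i ∈ B} ↪ (Fin 2 → Fin s))
    (hψ : ∀ i, κ i.1 ≤ perf d (ψ i)) :
    generalDim 2 d κ + ∑ i ∈ B, (κ i + 1).choose 2 ≤ (d + 2).choose 2 := by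
  classical
  have hζ := Complex.isPrimitiveRoot_exp s (by omega)
  set ζ := Complex.exp (2 * Real.pi * Complex.I / (s : ℂ)) with hζdef
  have h1 := surjective_of_sub (grid_surjective (r := 2) d (by norm_num) hs hζ) ψ ψ.injective
    (fun i : {i // i ∈ B} => κ i.1) hψ
  have h2 := finrank_of_surjective (by norm_num) (fun i => gridPt_ne ζ (ψ i)) h1
  set p : Fin n → Fin (2 + 1) → ℂ := fun i => if h : i ∈ B then gridPt ζ (ψ ⟨i, h⟩) else 0 with hp
  have h3 : generalDim 2 d κ ≤ Module.finrank ℂ (fatForms 2 d p κ) := Nat.sInf_le ⟨p, rfl⟩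
  have h4 : Module.finrank ℂ (fatForms 2 d p κ) ≤
      Module.finrank ℂ (fatForms 2 d (fun i : {i // i ∈ B} => gridPt ζ (ψ i)) fun i => κ i.1) := by
    refine Submodule.finrank_mono fun F hF => ⟨hF.1, fun l => ?_⟩
    have h5 := hF.2 l.1
    have h6 : p l.1 = gridPt ζ (ψ l) := by
      rw [hp]
      dsimp only
      rw [dif_pos l.2]
    rw [h6] at h5
    exact h5
  have h5 : ∑ i : {i // i ∈ B}, (κ i.1 + 2 - 1).choose 2 = ∑ i ∈ B, (κ i + 1).choose 2 :=
    Finset.sum_coe_sort B fun i => (κ i + 1).choose 2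
  omega

/-- The simple points impose one condition each. -/
theorem drop_simple {r e : ℕ} (κ : Fin n → ℕ) (h : 1 ≤ generalDim r e κ) :
    (univ.filter fun i => κ i = 1).card + generalDim r e κ ≤
      generalDim r e fun i => if 2 ≤ κ i then κ i else 0 := by
  classical
  have key : ∀ S : Finset (Fin n), (∀ i ∈ S, κ i = 1) →
      S.card + generalDim r e κ ≤ generalDim r e fun i => if i ∈ S then 0 else κ i := by
    intro S
    induction S using Finset.induction_on with
    | empty =>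
      intro _
      simp
    | insert P S hP ih =>
      intro hS
      have h1 := ih fun i hi => hS i (mem_insert_of_mem hi)
      have h2 := simple_lt (r := r) (e := e) (fun i => if i ∈ insert P S then 0 else κ i) P
        (if_pos (mem_insert_self P S)) (h.trans (generalDim_anti fun i => by
          split_ifs
          · exact Nat.zero_le _
          · exact le_rfl))
      have h3 : Function.update (fun i => if i ∈ insert P S then 0 else κ i) P 1 =
          fun i => if i ∈ S then 0 else κ i := by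
        funext i
        by_cases hi : i = P
        · rw [hi, Function.update_self, if_neg hP, hS P (mem_insert_self P S)]
        · rw [Function.update_of_ne hi]
          by_cases h4 : i ∈ S
          · rw [if_pos h4, if_pos (mem_insert_of_mem h4)]
          · rw [if_neg h4, if_neg (fun h' => h4 ((mem_insert.1 h').resolve_left hi))]
      rw [h3] at h2
      rw [card_insert_of_notMem hP]
      omega
  have h1 := key (univ.filter fun i => κ i = 1) fun i hi => (mem_filter.1 hi).2
  have h2 : (fun i => if i ∈ univ.filter (fun i => κ i = 1) then 0 else κ i) =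
      fun i => if 2 ≤ κ i then κ i else 0 := by
    funext i
    by_cases h3 : κ i = 1
    · rw [if_pos (mem_filter.2 ⟨mem_univ i, h3⟩), if_neg (by omega)]
    · have h4 : i ∉ univ.filter fun i => κ i = 1 := fun h => h3 (mem_filter.1 h).2
      rw [if_neg h4]
      split_ifs
      · rfl
      · omega
  rw [h2] at h1
  exact h1

theorem emb_of_card {s d t b : ℕ} (B : Finset (Fin n)) (hB : B.card ≤ b)
    (hb : b ≤ (univ.filter fun x : Fin 2 → Fin s => t ≤ perf d x).card) :
    ∃ ψ : {i // i ∈ B} ↪ (Fin 2 → Fin s), ∀ i, t ≤ perf d (ψ i) := by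
  classical
  obtain ⟨ψ⟩ : Nonempty ({i // i ∈ B} ↪
      {x : Fin 2 → Fin s // x ∈ univ.filter fun x : Fin 2 → Fin s => t ≤ perf d x}) := by
    apply Function.Embedding.nonempty_of_card_le
    rw [Fintype.card_coe, Fintype.card_coe]
    omega
  exact ⟨ψ.trans (Function.Embedding.subtype _), fun i => (mem_filter.1 (ψ i).2).2⟩

/-- Small curves. -/
theorem small_curve {e : ℕ} {κ : Fin n → ℕ} (he : e ≤ 5) (hX : ∑ i, κ i ^ 2 = e ^ 2 + 1)
    (hs : 3 * e + 1 ≤ ∑ i, κ i) : generalDim 2 e κ = 0 := by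
  classical
  by_contra hcon
  have h1 : 1 ≤ generalDim 2 e κ := by omega
  set B : Finset (Fin n) := univ.filter fun i => 2 ≤ κ i with hB
  have hdrop := drop_simple κ h1
  set S := (univ : Finset (Fin n)).filter fun i => κ i = 1 with hS
  -- the sum of `κ (κ - 1)`
  have hpair : ∀ i, κ i * (κ i - 1) + κ i = κ i ^ 2 := by
    intro i
    rcases Nat.eq_zero_or_pos (κ i) with h | h
    · rw [h]
      rfl
    · obtain ⟨c, hc⟩ : ∃ c, κ i = c + 1 := ⟨κ i - 1, by omega⟩
      rw [hc, Nat.add_sub_cancel]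
      ring
  have hsum : ∑ i, κ i * (κ i - 1) + ∑ i, κ i = ∑ i, κ i ^ 2 := by
    rw [← sum_add_distrib]
    exact sum_congr rfl fun i _ => hpair i
  have hBsum : ∑ i ∈ B, κ i * (κ i - 1) ≤ ∑ i, κ i * (κ i - 1) :=
    sum_le_sum_of_subset (subset_univ B)
  have hBcard : 2 * B.card ≤ ∑ i ∈ B, κ i * (κ i - 1) := by
    have h2 : ∑ _i ∈ B, 2 ≤ ∑ i ∈ B, κ i * (κ i - 1) := sum_le_sum fun i hi => by
      have h3 := (mem_filter.1 hi).2
      have h4 : 2 * 1 ≤ κ i * (κ i - 1) := Nat.mul_le_mul h3 (by omega)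
      omega
    rw [sum_const, smul_eq_mul, Nat.mul_comm] at h2
    exact h2
  have hthree : ∀ u ∈ B, 3 ≤ κ u → 2 * B.card + 4 ≤ ∑ i ∈ B, κ i * (κ i - 1) := by
    intro u hu hu3
    have h2 : ∑ _i ∈ B.erase u, 2 ≤ ∑ i ∈ B.erase u, κ i * (κ i - 1) := sum_le_sum fun i hi => by
      have h3 := (mem_filter.1 (mem_of_mem_erase hi)).2
      have h4 : 2 * 1 ≤ κ i * (κ i - 1) := Nat.mul_le_mul h3 (by omega)
      omega
    rw [sum_const, smul_eq_mul, card_erase_of_mem hu] at h2
    have h3 := add_sum_erase B (fun i => κ i * (κ i - 1)) hu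
    have h4 : 3 * 2 ≤ κ u * (κ u - 1) := Nat.mul_le_mul hu3 (by omega)
    have h5 : 1 ≤ B.card := card_pos.2 ⟨u, hu⟩
    have h6 : (B.card - 1) * 2 = 2 * B.card - 2 := by omega
    omega
  have hfour : ∀ u ∈ B, 4 ≤ κ u → 12 ≤ ∑ i ∈ B, κ i * (κ i - 1) := by
    intro u hu hu4
    have h3 := single_le_sum (f := fun i => κ i * (κ i - 1)) (fun _ _ => Nat.zero_le _) hu
    have h4 : 4 * 3 ≤ κ u * (κ u - 1) := Nat.mul_le_mul hu4 (by omega)
    omega
  -- the number of all conditions
  have hlen : 2 * (S.card + ∑ i ∈ B, (κ i + 1).choose 2) = ∑ i, κ i ^ 2 + ∑ i, κ i := by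
    have h2 : ∀ x : ℕ, 2 * (x + 1).choose 2 = x ^ 2 + x := by
      intro x
      rw [Nat.choose_two_right, Nat.add_sub_cancel, Nat.mul_div_cancel' (by
        have := Nat.even_mul_succ_self x
        rw [Nat.mul_comm]
        exact even_iff_two_dvd.1 this)]
      ring
    have h3 : ∑ i, κ i ^ 2 + ∑ i, κ i = ∑ i, (κ i ^ 2 + κ i) := (sum_add_distrib).symm
    rw [h3, ← sum_filter_add_sum_filter_not univ (fun i => 2 ≤ κ i), ← hB]
    have h4 : ∑ i ∈ B, (κ i ^ 2 + κ i) = 2 * ∑ i ∈ B, (κ i + 1).choose 2 := by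
      rw [mul_sum]
      exact sum_congr rfl fun i _ => (h2 _).symm
    have h5 : ∑ i ∈ univ.filter (fun i => ¬ 2 ≤ κ i), (κ i ^ 2 + κ i) = 2 * S.card := by
      have h6 : S ⊆ univ.filter fun i => ¬ 2 ≤ κ i := fun i hi => by
        rw [hS, mem_filter] at hi
        exact mem_filter.2 ⟨mem_univ i, by omega⟩
      rw [← sum_subset h6]
      · rw [sum_congr rfl (g := fun _ => 2) fun i hi => by rw [(mem_filter.1 hi).2]; rfl, sum_const,
          smul_eq_mul, Nat.mul_comm]
      · intro i hi hi'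
        have h7 := (mem_filter.1 hi).2
        have h8 : κ i = 0 := by
          by_contra h
          exact hi' (mem_filter.2 ⟨mem_univ i, by omega⟩)
        rw [h8]
        rfl
    rw [h4, h5]
    ring
  have hsumB : ∑ i ∈ B, ((if 2 ≤ κ i then κ i else 0) + 1).choose 2 =
      ∑ i ∈ B, (κ i + 1).choose 2 := sum_congr rfl fun i hi => by rw [if_pos (mem_filter.1 hi).2]
  -- the bound for the big points
  have hub : generalDim 2 e (fun i => if 2 ≤ κ i then κ i else 0) +
      ∑ i ∈ B, (κ i + 1).choose 2 ≤ (e + 2).choose 2 := by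
    rw [← hsumB]
    have hval : ∀ i ∈ B, (if 2 ≤ κ i then κ i else 0) = κ i := fun i hi =>
      if_pos (mem_filter.1 hi).2
    have hcase : e = 3 ∨ e = 4 ∨ e = 5 := by
      rcases Nat.eq_zero_or_pos e with h0 | h0
      · exfalso
        subst h0
        have h3 : ∑ i, κ i = 0 := sum_eq_zero fun i _ =>
          Nat.le_zero.1 (le_of_effective κ h1 i)
        omega
      · interval_cases e <;> omega
    rcases hcase with rfl | rfl | rfl
    · have hB0 : B.card ≤ 0 := by omega
      obtain ⟨ψ, hψ⟩ := emb_of_card (s := 1) (d := 3) (t := 0) (b := 0) B hB0 (Nat.zero_le _)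
      refine grid_ub (by norm_num) _ B ψ fun i => ?_
      exfalso
      have := card_pos.2 ⟨i.1, i.2⟩
      omega
    · have hB2 : B.card ≤ 2 := by omega
      obtain ⟨ψ, hψ⟩ := emb_of_card (s := 2) (d := 4) (t := 2) (b := 2) B hB2 (by decide)
      refine grid_ub (by norm_num) _ B ψ fun i => ?_
      rw [hval i.1 i.2]
      refine le_trans ?_ (hψ i)
      by_contra h
      have := hthree i.1 i.2 (by omega)
      have := card_pos.2 ⟨i.1, i.2⟩
      omega
    · by_cases h3 : ∃ u ∈ B, 3 ≤ κ u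
      · obtain ⟨u, hu, hu3⟩ := h3
        have h4 := hthree u hu hu3
        have hB3 : B.card ≤ 3 := by omega
        obtain ⟨ψ, hψ⟩ := emb_of_card (s := 2) (d := 5) (t := 3) (b := 3) B hB3 (by decide)
        refine grid_ub (by norm_num) _ B ψ fun i => ?_
        rw [hval i.1 i.2]
        refine le_trans ?_ (hψ i)
        by_contra h
        have := hfour i.1 i.2 (by omega)
        omega
      · push Not at h3
        have hB5 : B.card ≤ 5 := by omega
        obtain ⟨ψ, hψ⟩ := emb_of_card (s := 3) (d := 5) (t := 2) (b := 5) B hB5 (by decide)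
        refine grid_ub (by norm_num) _ B ψ fun i => ?_
        rw [hval i.1 i.2]
        refine le_trans ?_ (hψ i)
        have := h3 i.1 i.2
        omega
  have h2 : 2 * (e + 2).choose 2 = e ^ 2 + 3 * e + 2 := by
    interval_cases e <;> rfl
  omega

end Pool.Agent.H74.KV

end
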