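import Pool.Agent.H94.LP4.H18.Ub.VDim
import Pool.Agent.H94.LP4.M13
import Pool.Agent.H94.LP4.M21
import Pool.Agent.H94.LP4.M32
import Pool.Agent.H94.LP4.M47
import Pool.Agent.H94.LP4.M49

/-! The parts of this file: H18.Pr.OneD, H18.Pr.Space_1, H22.LU.Defs, H74.KV.Gen. -/

section

/-!
# Module OneD (PR): exactness in dimension one
-/

namespace Pool.Agent.H18.Pr

open Finset Pool.Agent.H18.Ex Pool.Agent.H18.Cub

variable {R : ℕ}

private theorem one_tay {ι : Type} [Fintype ι] [DecidableEq ι] (i : ι) (f : Polynomial ℂ)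
    (q : ι → ℂ) (j : ℕ) :
    tay (Polynomial.aeval (MvPolynomial.X i : MvPolynomial ι ℂ) f) q (Pi.single i j) =
      (Polynomial.taylor (q i) f).coeff j := by
  unfold tay
  have h1 : trl q (Polynomial.aeval (MvPolynomial.X i : MvPolynomial ι ℂ) f) =
      Polynomial.aeval (MvPolynomial.X i : MvPolynomial ι ℂ) (Polynomial.taylor (q i) f) := by
    rw [← Polynomial.aeval_algHom_apply, Polynomial.taylor_apply, Polynomial.aeval_comp]
    congr 1
    congr 1
    unfold trl
    rw [MvPolynomial.aeval_X, map_add, Polynomial.aeval_X, Polynomial.aeval_C]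
    rfl
  rw [h1]
  set h := Polynomial.taylor (q i) f with hh
  have h2 : Finsupp.equivFunOnFinite.symm (Pi.single i j : ι → ℕ) = Finsupp.single i j :=
    Finsupp.equivFunOnFinite_symm_single i j
  rw [h2, Polynomial.aeval_eq_sum_range, MvPolynomial.coeff_sum]
  have h3 : ∀ n, MvPolynomial.coeff (Finsupp.single i j)
      (h.coeff n • (MvPolynomial.X i : MvPolynomial ι ℂ) ^ n) =
        if n = j then h.coeff n else 0 := by
    intro n
    rw [MvPolynomial.coeff_smul, MvPolynomial.coeff_X_pow]
    by_cases hn : n = j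
    · subst hn
      simp
    · rw [if_neg hn, if_neg, smul_zero]
      intro h4
      exact hn (Finsupp.single_injective i h4)
  rw [Finset.sum_congr rfl fun n _ => h3 n]
  by_cases hj : j ∈ range (h.natDegree + 1)
  · rw [Finset.sum_ite_eq' (range (h.natDegree + 1)) j fun n => h.coeff n, if_pos hj]
  · rw [Finset.sum_ite_eq' (range (h.natDegree + 1)) j fun n => h.coeff n, if_neg hj]
    rw [Finset.mem_range] at hj
    exact (Polynomial.coeff_eq_zero_of_natDegree_lt (by omega)).symm

private theorem one_dvd {ι : Type} [Fintype ι] [DecidableEq ι] (i : ι) (f : Polynomial ℂ)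
    (q : ι → ℂ) (s : ℕ)
    (h : ∀ b : ι → ℕ, ∑ k, b k < s →
      tay (Polynomial.aeval (MvPolynomial.X i : MvPolynomial ι ℂ) f) q b = 0) :
    (Polynomial.X - Polynomial.C (q i)) ^ s ∣ f := by
  rw [Polynomial.X_sub_C_pow_dvd_iff, Polynomial.X_pow_dvd_iff]
  intro j hj
  have h1 := h (Pi.single i j) (by rw [Finset.sum_pi_single']; simpa using hj)
  rw [one_tay] at h1
  rwa [Polynomial.taylor_apply] at h1

/-- A polynomial in one of the variables. -/
private theorem one_uni (u : Fin (R + 1)) (F : MvPolynomial (Fin (R + 1)) ℂ)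
    (hF : ∀ i, i < u ∨ u < i → F.degreeOf i = 0) :
    Polynomial.aeval (MvPolynomial.X u : MvPolynomial (Fin (R + 1)) ℂ)
      (MvPolynomial.aeval (fun _ => (Polynomial.X : Polynomial ℂ)) F) = F := by
  have hv : ∀ i ∈ F.vars, i = u := by
    intro i hi
    by_contra hne
    have h0 := hF i (lt_or_gt_of_ne hne)
    rw [MvPolynomial.vars_def, Multiset.mem_toFinset] at hi
    rw [MvPolynomial.degreeOf_def, Multiset.count_eq_zero] at h0
    exact h0 hi
  have := MvPolynomial.hom_congr_vars
    (f₁ := ((Polynomial.aeval (MvPolynomial.X u : MvPolynomial (Fin (R + 1)) ℂ)).comp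
      (MvPolynomial.aeval (fun _ : Fin (R + 1) => (Polynomial.X : Polynomial ℂ))) :
        MvPolynomial (Fin (R + 1)) ℂ →ₐ[ℂ] MvPolynomial (Fin (R + 1)) ℂ).toRingHom)
    (f₂ := RingHom.id _) (p₁ := F) (p₂ := F) ?_ ?_ rfl
  · exact this
  · ext1 c
    simp [MvPolynomial.algebraMap_eq]
  · intro i hi _
    simp [hv i hi]

private theorem one_supp (g : Polynomial ℂ) (u : Fin (R + 1)) (n : ℕ) (hn : n ∈ g.support) :
    Finsupp.single u n ∈
      (Polynomial.aeval (MvPolynomial.X u : MvPolynomial (Fin (R + 1)) ℂ) g).support := by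
  rw [MvPolynomial.mem_support_iff, Polynomial.aeval_eq_sum_range, MvPolynomial.coeff_sum]
  have h3 : ∀ k, MvPolynomial.coeff (Finsupp.single u n)
      (g.coeff k • (MvPolynomial.X u : MvPolynomial (Fin (R + 1)) ℂ) ^ k) =
        if k = n then g.coeff k else 0 := by
    intro k
    rw [MvPolynomial.coeff_smul, MvPolynomial.coeff_X_pow]
    by_cases hn : k = n
    · subst hn
      simp
    · rw [if_neg hn, if_neg, smul_zero]
      intro h4
      exact hn (Finsupp.single_injective u h4)
  rw [Finset.sum_congr rfl fun n _ => h3 n]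
  rw [Finset.sum_ite_eq' (range (g.natDegree + 1)) n fun n => g.coeff n, if_pos]
  · exact Polynomial.mem_support_iff.1 hn
  · rw [Finset.mem_range]
    exact Nat.lt_succ_of_le (Polynomial.le_natDegree_of_mem_supp n hn)

private theorem one_Th (e : ℕ) (u : Fin (R + 1)) (p : ℂ) (f : Polynomial ℂ) :
    Th e u u p (Polynomial.aeval (MvPolynomial.X u : MvPolynomial (Fin (R + 1)) ℂ) f) =
      Polynomial.aeval (MvPolynomial.X u : MvPolynomial (Fin (R + 1)) ℂ)
        (f.comp (Polynomial.X - Polynomial.C p)) := by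
  rw [← Polynomial.aeval_algHom_apply, Polynomial.aeval_comp]
  congr 1
  congr 1
  unfold Th
  rw [MvPolynomial.aeval_X, if_pos rfl, map_sub, Polynomial.aeval_X, Polynomial.aeval_C]
  rfl

private theorem one_cost (e : ℕ) (u : Fin (R + 1)) (n : ℕ) :
    cost e u (Finsupp.single u n) = kap e (R - u.val) n := by
  unfold cost
  rw [Finset.sum_eq_single u]
  · simp
  · intro b _ hb
    rw [if_neg hb, Finsupp.single_eq_of_ne hb]
  · intro h
    exact absurd (mem_univ _) h

private theorem one_shift (f : Polynomial ℂ) (a p : ℂ) (s : ℕ)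
    (h : (Polynomial.X - Polynomial.C a) ^ s ∣ f) :
    (Polynomial.X - Polynomial.C (a + p)) ^ s ∣ f.comp (Polynomial.X - Polynomial.C p) := by
  obtain ⟨g, rfl⟩ := h
  rw [Polynomial.mul_comp, Polynomial.pow_comp, Polynomial.sub_comp, Polynomial.X_comp,
    Polynomial.C_comp, map_add, sub_sub, add_comm (Polynomial.C p)]
  exact Dvd.intro _ rfl

/-- An element of `WW e u u p d x m` is a polynomial in `z_u`; as a polynomial in `x_u = z_u + p` it
has exponents `a` with `kap e (R - u) a ≤ d`, that is at most `tau e (R - u) 1 d` exponents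
(`kap_card`, `le_kap`), and zeros of order `m b` at the positive integers `y b`.  Choose the free points at
further positive integers and use the theorem of Descartes (`Pool.Agent.H18.Cub.Desc`), as in
`WC_trace_curve`. -/
theorem WW_one (e : ℕ) (he : 1 ≤ e) (u : Fin (R + 1)) (p : ℂ) (d : ℕ) {B : Type} [Fintype B]
    (x : B → ℂ) (m : B → ℕ) (y : B → ℕ) (hy : Function.Injective y) (hpos : ∀ b, 0 < y b)
    (hxy : ∀ b, x b + p = (y b : ℂ)) (S : Multiset ℕ)
    (h : tau e (R - u.val) 1 d ≤ ∑ b, m b + S.sum) : Fk (WW e u u p d x m) S := by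
  obtain ⟨k, s, hs⟩ := multi_exists_fin S
  refine ⟨k, s, hs, ?_⟩
  set Y : Fin k → ℕ := fun i => ∑ b, y b + 1 + i with hY
  refine ⟨fun i => ptv u ((Y i : ℂ) - p), fun F hF hsat => ?_⟩
  obtain ⟨hF1, hF2, hF3⟩ := hF
  set f : Polynomial ℂ := MvPolynomial.aeval (fun _ => (Polynomial.X : Polynomial ℂ)) F with hf
  have hfF : Polynomial.aeval (MvPolynomial.X u : MvPolynomial (Fin (R + 1)) ℂ) f = F :=
    one_uni u F hF1
  suffices hf0 : f.comp (Polynomial.X - Polynomial.C p) = 0 by
    have : f = 0 := by
      have h2 : (f.comp (Polynomial.X - Polynomial.C p)).comp (Polynomial.X + Polynomial.C p) = f := by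
        rw [Polynomial.comp_assoc]
        simp
      rw [← h2, hf0, Polynomial.zero_comp]
    rw [← hfF, this, map_zero]
  have hpt : ∀ a : ℂ, ptv u a u = a := fun a => by simp [ptv]
  have hd1 : ∀ b, (Polynomial.X - Polynomial.C (y b : ℂ)) ^ m b ∣
      f.comp (Polynomial.X - Polynomial.C p) := by
    intro b
    rw [← hxy b]
    apply one_shift
    have := one_dvd u f (ptv u (x b)) (m b) fun β hβ => by
      rw [hfF]; exact hF3 b β hβ
    rwa [hpt] at this
  have hd2 : ∀ i, (Polynomial.X - Polynomial.C (Y i : ℂ)) ^ s i ∣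
      f.comp (Polynomial.X - Polynomial.C p) := by
    intro i
    have h0 : (Y i : ℂ) = ((Y i : ℂ) - p) + p := by ring
    rw [h0]
    apply one_shift
    have := one_dvd u f (ptv u ((Y i : ℂ) - p)) (s i) fun β hβ => by
      rw [hfF]; exact hsat i β hβ
    rwa [hpt] at this
  refine descartes_complex _ (Sum.elim (fun b => (y b : ℝ)) fun i => (Y i : ℝ)) ?_ ?_
    (Sum.elim m s) ?_ ?_
  · have hxY : ∀ b i, y b ≠ Y i := by
      intro b i hbi
      have h1 : y b ≤ ∑ b, y b := Finset.single_le_sum (fun _ _ => Nat.zero_le _) (mem_univ b)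
      rw [hY] at hbi
      simp only at hbi
      omega
    have hYi : ∀ i i', Y i = Y i' → i = i' := by
      intro i i' hii
      rw [hY] at hii
      simp only at hii
      exact Fin.ext (by omega)
    rintro (b | i) (b' | i') hbb
    · simp only [Sum.elim_inl, Nat.cast_inj] at hbb
      rw [hy hbb]
    · simp only [Sum.elim_inl, Sum.elim_inr, Nat.cast_inj] at hbb
      exact absurd hbb (hxY b i')
    · simp only [Sum.elim_inl, Sum.elim_inr, Nat.cast_inj] at hbb
      exact absurd hbb.symm (hxY b' i)
    · simp only [Sum.elim_inr, Nat.cast_inj] at hbb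
      rw [hYi i i' hbb]
  · rintro (b | i)
    · simp only [Sum.elim_inl, Nat.cast_pos]
      exact hpos b
    · simp only [Sum.elim_inr, Nat.cast_pos]
      rw [hY]
      simp only
      omega
  · rintro (b | i)
    · have := hd1 b
      simpa using this
    · have := hd2 i
      simpa using this
  · have h1 : (f.comp (Polynomial.X - Polynomial.C p)).support.card ≤
        tau e (R - u.val) 1 d := by
      rw [← kap_card e (R - u.val) d he]
      apply Finset.card_le_card
      intro n hn
      have h3 := hF2 (Finsupp.single u n) (by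
        rw [← hfF, one_Th]
        exact one_supp _ u n hn)
      rw [one_cost] at h3
      rw [Finset.mem_filter, Finset.mem_range]
      refine ⟨?_, h3⟩
      have h4 := le_kap e (R - u.val) n he
      have h5 : e ^ (R - u.val) * (kap e (R - u.val) n + 1) ≤ e ^ (R - u.val) * (d + 1) :=
        Nat.mul_le_mul_left _ (by omega)
      omega
    have h2 : ∑ k, Sum.elim m s k = ∑ b, m b + S.sum := by
      rw [Fintype.sum_sum_type, ← hs]
      rfl
    rw [h2]
    exact h1.trans h

end Pool.Agent.H18.Pr

end

section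

/-!
# Module Space (PR): traces and residuals of the spaces `WW`

Compare with `Pool.Agent.H18.Cub.WC` (the case of two variables).
-/

namespace Pool.Agent.H18.Pr

open Finset Pool.Agent.H18.Ex Pool.Agent.H18.Cub

variable {R : ℕ}

/-- The inverse of `Th` on the variables. -/
noncomputable def spaceInv (e : ℕ) (v u : Fin (R + 1)) (p : ℂ) :
    ℕ → MvPolynomial (Fin (R + 1)) ℂ
  | 0 => if v.val = 0 then MvPolynomial.X (Fin.ofNat (R + 1) 0) + MvPolynomial.C p
      else MvPolynomial.X (Fin.ofNat (R + 1) 0)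
  | k + 1 => if v.val = k + 1 then MvPolynomial.X (Fin.ofNat (R + 1) (k + 1)) + MvPolynomial.C p
      else if v.val < k + 1 ∧ k + 1 ≤ u.val then
        MvPolynomial.X (Fin.ofNat (R + 1) (k + 1)) + spaceInv e v u p k ^ e
      else MvPolynomial.X (Fin.ofNat (R + 1) (k + 1))

theorem spaceInv_eq (e : ℕ) (v u : Fin (R + 1)) (p : ℂ) (i : Fin (R + 1)) :
    spaceInv e v u p i.val =
      if i = v then MvPolynomial.X i + MvPolynomial.C p
      else if v < i ∧ i ≤ u then MvPolynomial.X i + spaceInv e v u p (prv i).val ^ e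
      else MvPolynomial.X i := by
  rcases i with ⟨k, hk⟩
  cases k with
  | zero =>
    have h0 : (Fin.ofNat (R + 1) 0 : Fin (R + 1)) = ⟨0, hk⟩ := space_ofNat ⟨0, hk⟩
    have h1 : ¬ (v < (⟨0, hk⟩ : Fin (R + 1))) := by
      intro h
      exact absurd (Fin.lt_def.1 h) (Nat.not_lt_zero _)
    by_cases hv : v.val = 0
    · have h2 : (⟨0, hk⟩ : Fin (R + 1)) = v := Fin.ext hv.symm
      rw [if_pos h2]
      show (if v.val = 0 then _ else _) = _
      rw [if_pos hv, h0]
    · have h2 : ¬ (⟨0, hk⟩ : Fin (R + 1)) = v := fun h => hv (by rw [← h])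
      rw [if_neg h2, if_neg (fun h => h1 h.1)]
      show (if v.val = 0 then _ else _) = _
      rw [if_neg hv, h0]
  | succ k =>
    have h0 : (Fin.ofNat (R + 1) (k + 1) : Fin (R + 1)) = ⟨k + 1, hk⟩ := space_ofNat ⟨k + 1, hk⟩
    have hp : (prv (⟨k + 1, hk⟩ : Fin (R + 1))).val = k := by simp [prv]
    rw [hp]
    by_cases hv : v.val = k + 1
    · have h2 : (⟨k + 1, hk⟩ : Fin (R + 1)) = v := Fin.ext hv.symm
      rw [if_pos h2]
      show (if v.val = k + 1 then _ else _) = _
      rw [if_pos hv, h0]
    · have h2 : ¬ (⟨k + 1, hk⟩ : Fin (R + 1)) = v := fun h => hv (by rw [← h])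
      rw [if_neg h2]
      show (if v.val = k + 1 then _ else _) = _
      rw [if_neg hv]
      by_cases hc : v.val < k + 1 ∧ k + 1 ≤ u.val
      · rw [if_pos hc, if_pos (show v < (⟨k + 1, hk⟩ : Fin (R + 1)) ∧
          (⟨k + 1, hk⟩ : Fin (R + 1)) ≤ u from ⟨Fin.lt_def.2 hc.1, Fin.le_def.2 hc.2⟩), h0]
      · rw [if_neg hc, if_neg (show ¬ (v < (⟨k + 1, hk⟩ : Fin (R + 1)) ∧
          (⟨k + 1, hk⟩ : Fin (R + 1)) ≤ u) from
            fun h => hc ⟨Fin.lt_def.1 h.1, Fin.le_def.1 h.2⟩), h0]

theorem Th_X (e : ℕ) (v u : Fin (R + 1)) (p : ℂ) (i : Fin (R + 1)) :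
    Th e v u p (MvPolynomial.X i) =
      if i = v then MvPolynomial.X i - MvPolynomial.C p
      else if v < i ∧ i ≤ u then MvPolynomial.X i - MvPolynomial.X (prv i) ^ e
      else MvPolynomial.X i := by
  rw [Th, MvPolynomial.aeval_X]

theorem Th_C (e : ℕ) (v u : Fin (R + 1)) (p : ℂ) (c : ℂ) :
    Th e v u p (MvPolynomial.C c) = MvPolynomial.C c := (Th e v u p).commutes c

theorem Th_injective (e : ℕ) (v u : Fin (R + 1)) (p : ℂ) : Function.Injective (Th e v u p) := by
  have h : (MvPolynomial.aeval (fun i : Fin (R + 1) => spaceInv e v u p i.val)).comp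
      (Th e v u p) = AlgHom.id ℂ (MvPolynomial (Fin (R + 1)) ℂ) := by
    refine MvPolynomial.algHom_ext (fun i => ?_)
    rw [AlgHom.comp_apply, Th_X, AlgHom.id_apply]
    by_cases h1 : i = v
    · rw [if_pos h1, map_sub, MvPolynomial.aeval_X, spaceInv_eq, if_pos h1,
        MvPolynomial.aeval_C, MvPolynomial.algebraMap_eq]
      ring
    · rw [if_neg h1]
      by_cases h2 : v < i ∧ i ≤ u
      · rw [if_pos h2, map_sub, map_pow, MvPolynomial.aeval_X, MvPolynomial.aeval_X,
          spaceInv_eq, if_neg h1, if_pos h2]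
        ring
      · rw [if_neg h2, MvPolynomial.aeval_X, spaceInv_eq, if_neg h1, if_neg h2]
  have h2 : Function.LeftInverse
      (MvPolynomial.aeval (fun i : Fin (R + 1) => spaceInv e v u p i.val)) (Th e v u p) :=
    fun F => congrArg (fun φ : MvPolynomial (Fin (R + 1)) ℂ →ₐ[ℂ] MvPolynomial (Fin (R + 1)) ℂ =>
      φ F) h
  exact h2.injective

theorem WW_finite (e : ℕ) (he : 1 ≤ e) (v u : Fin (R + 1)) (p : ℂ) (d : ℕ) {B : Type}
    (x : B → ℂ) (m : B → ℕ) : FiniteDimensional ℂ (WW e v u p d x m) := by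
  have hD : ∀ F ∈ WW e v u p d x m, (Th e v u p F).totalDegree ≤
      (R + 1) * (e ^ R * (d + 1)) := by
    intro F hF
    rw [MvPolynomial.totalDegree]
    refine Finset.sup_le fun α hα => ?_
    have h1 := hF.2.1 α hα
    rw [Finsupp.sum_fintype _ _ (fun _ => rfl)]
    calc ∑ i, α i ≤ ∑ _i : Fin (R + 1), e ^ R * (d + 1) := by
          refine sum_le_sum fun i _ => ?_
          have h2 := le_cost e he u α i
          have h3 : e ^ R * (cost e u α + 1) ≤ e ^ R * (d + 1) :=
            Nat.mul_le_mul_left _ (by omega)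
          omega
      _ = (R + 1) * (e ^ R * (d + 1)) := by
          rw [sum_const, card_univ, Fintype.card_fin, smul_eq_mul]
  let f : WW e v u p d x m →ₗ[ℂ]
      MvPolynomial.restrictTotalDegree (Fin (R + 1)) ℂ ((R + 1) * (e ^ R * (d + 1))) :=
    { toFun := fun P => ⟨Th e v u p P.1, (MvPolynomial.mem_restrictTotalDegree _ _ _).2
        (hD P.1 P.2)⟩
      map_add' := fun P Q => by
        apply Subtype.ext
        exact map_add (Th e v u p) P.1 Q.1
      map_smul' := fun c P => by
        apply Subtype.ext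
        exact map_smul (Th e v u p) c P.1 }
  refine Module.Finite.of_injective f ?_
  intro P Q h
  apply Subtype.ext
  exact Th_injective e v u p (congrArg Subtype.val h)

/-- Trace on `z_u = 0`.  With `σ : x_u ↦ x_{u'}^e` one has `Th e v u' p (sub1 u 0 F) =
σ (Th e v u p F)` (check on the variables); use `sub_S`.  For the points use `tay_sub1`. -/
theorem WW_traceS {Λ : Type} (g : Lines Λ (Fin (R + 1))) (l : Λ) (e : ℕ) (he : 1 ≤ e)
    (v u u' : Fin (R + 1)) (hu : u.val = u'.val + 1) (hv : v ≤ u') (hco : g.co l = u)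
    (hva : g.va l = 0) (p : ℂ) (d : ℕ) {B : Type} (x : B → ℂ) (m : B → ℕ) :
    trW g l (WW e v u p d x m) ≤ WW e v u' p d x m := by
  have hvu : v.val < u.val := by
    have := Fin.le_def.1 hv
    omega
  have hune : u ≠ v := fun h => by rw [h] at hvu; exact lt_irrefl _ hvu
  have hu'u : u' ≠ u := fun h => by rw [h] at hu; omega
  have hprv : prv u = u' := by
    apply Fin.ext
    simp [prv, hu]
  rintro G ⟨F, hF, rfl⟩
  rw [SetLike.mem_coe] at hF
  have hlay : (lay g l).toLinearMap F = sub1 u 0 F := by
    rw [AlgHom.toLinearMap_apply, lay, hco, hva]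
  rw [hlay, mem_WW]
  obtain ⟨h1, h2, h3⟩ := mem_WW.1 hF
  refine ⟨fun i hi => ?_, ?_, fun b β hβ => ?_⟩
  · refine space_degreeOf_sub1 i u 0 F fun hiu => h1 i ?_
    rcases hi with hi | hi
    · exact Or.inl hi
    · right
      rw [Fin.lt_def] at hi ⊢
      have : i.val ≠ u.val := fun h => hiu (Fin.ext h)
      omega
  · have h4 : Th e v u' p (sub1 u 0 F) = MvPolynomial.aeval (Function.update
        (MvPolynomial.X : Fin (R + 1) → MvPolynomial (Fin (R + 1)) ℂ) u
        (MvPolynomial.X u' ^ e)) (Th e v u p F) := by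
      have h5 : (Th e v u' p).comp (sub1 u 0) = (MvPolynomial.aeval (Function.update
          (MvPolynomial.X : Fin (R + 1) → MvPolynomial (Fin (R + 1)) ℂ) u
          (MvPolynomial.X u' ^ e))).comp (Th e v u p) := by
        refine MvPolynomial.algHom_ext (fun i => ?_)
        rw [AlgHom.comp_apply, AlgHom.comp_apply, space_sub1_X, Th_X]
        by_cases hiu : i = u
        · subst hiu
          rw [if_pos rfl, Th_C, if_neg hune, if_pos ⟨Fin.lt_def.2 hvu, le_rfl⟩, hprv, map_sub,
            map_pow, MvPolynomial.aeval_X, MvPolynomial.aeval_X, Function.update_self,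
            Function.update_of_ne hu'u, sub_self, MvPolynomial.C_0]
        · rw [if_neg hiu, Th_X]
          by_cases hiv : i = v
          · rw [if_pos hiv, if_pos hiv, map_sub, MvPolynomial.aeval_X, MvPolynomial.aeval_C,
              Function.update_of_ne hiu, MvPolynomial.algebraMap_eq]
          · rw [if_neg hiv, if_neg hiv]
            by_cases hc : v < i ∧ i ≤ u'
            · have hc2 : i ≤ u := hc.2.trans (Fin.le_def.2 (by omega))
              have hpi : prv i ≠ u := by
                intro h
                have h6 := congrArg Fin.val h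
                simp only [prv] at h6
                have h7 := Fin.le_def.1 hc.2
                omega
              rw [if_pos hc, if_pos ⟨hc.1, hc2⟩, map_sub, map_pow, MvPolynomial.aeval_X,
                MvPolynomial.aeval_X, Function.update_of_ne hiu, Function.update_of_ne hpi]
            · have hc2 : ¬ (v < i ∧ i ≤ u) := by
                rintro ⟨h6, h7⟩
                apply hc
                refine ⟨h6, ?_⟩
                rw [Fin.le_def] at h7 ⊢
                have : i.val ≠ u.val := fun h => hiu (Fin.ext h)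
                omega
              rw [if_neg hc, if_neg hc2, MvPolynomial.aeval_X, Function.update_of_ne hiu]
      exact congrArg (fun φ : MvPolynomial (Fin (R + 1)) ℂ →ₐ[ℂ] MvPolynomial (Fin (R + 1)) ℂ =>
        φ F) h5
    rw [h4]
    exact sub_S e he u u' hu _ d h2
  · rw [tay_sub1]
    have h6 : Function.update (ptv v (x b)) u (algebraMap ℂ ℂ 0) = ptv v (x b) := by
      rw [map_zero]
      apply Function.update_eq_self_iff.2
      rw [ptv, if_neg hune]
    rw [h6]
    split_ifs
    · exact h3 b β hβ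
    · rfl

/-- Residual along `z_u = 0`.  `Th e v u p (X u * F') = (X u - X u' ^ e) * Th e v u p F'`; use
`strict_S`.  For the points use `tay_X_sub_mul`, for the degrees `MvPolynomial.degreeOf_mul_eq`. -/
theorem WW_residS {Λ : Type} (g : Lines Λ (Fin (R + 1))) (l : Λ) (e : ℕ) (he : 2 ≤ e)
    (v u u' : Fin (R + 1)) (hu : u.val = u'.val + 1) (hv : v ≤ u') (hco : g.co l = u)
    (hva : g.va l = 0) (p : ℂ) (d : ℕ) {B : Type} (x : B → ℂ) (m : B → ℕ) :
    ResW g l (WW e v u p d x m) (WW e v u p (d - e) x fun b => m b - 1) := by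
  have hvu : v.val < u.val := by
    have := Fin.le_def.1 hv
    omega
  have hune : u ≠ v := fun h => by rw [h] at hvu; exact lt_irrefl _ hvu
  have hprv : prv u = u' := by
    apply Fin.ext
    simp [prv, hu]
  intro F hF h0
  rw [lay, hco, hva] at h0
  obtain ⟨F', hF'⟩ := wc_exists_residual u 0 F h0
  rw [hco, hva]
  obtain ⟨h1, h2, h3⟩ := mem_WW.1 hF
  refine ⟨F', mem_WW.2 ⟨fun i hi => ?_, fun α hα => ?_, fun b => ?_⟩, hF'⟩
  · refine space_degreeOf_resid i u 0 F' ?_
    rw [← hF']
    exact h1 i hi
  · have h4 : Th e v u p F =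
        (MvPolynomial.X u - MvPolynomial.X u' ^ e) * Th e v u p F' := by
      rw [hF', map_mul, map_sub, Th_C, MvPolynomial.C_0, sub_zero, Th_X, if_neg hune,
        if_pos ⟨Fin.lt_def.2 hvu, le_rfl⟩, hprv]
    have h5 := strict_S e he u u' hu (Th e v u p F') d (by
      intro α hα
      rw [← h4] at hα
      exact h2 α hα) α hα
    omega
  · refine space_tay_resid u 0 F' (ptv v (x b)) ?_ (m b) ?_
    · rw [ptv, if_neg hune]
    · rw [← hF']
      exact h3 b

/-- Trace on `z_v = c`.  With `σ : x_v ↦ c + p` one has `Th e v' u ((c + p) ^ e) (sub1 v c F) =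
σ (Th e v u p F)`; use `sub_H`. -/
theorem WW_traceH {Λ : Type} (g : Lines Λ (Fin (R + 1))) (l : Λ) (e : ℕ)
    (v v' u : Fin (R + 1)) (hv : v'.val = v.val + 1) (hu : v' ≤ u) (c : ℂ) (hco : g.co l = v)
    (hva : g.va l = c) (p : ℂ) (d : ℕ) {B : Type} (x : B → ℂ) (m : B → ℕ) (b₀ : B)
    (hb₀ : x b₀ = c) :
    trW g l (WW e v u p d x m) ≤
      WW e v' u ((c + p) ^ e) d (fun _ : Unit => (0 : ℂ)) fun _ => m b₀ := by
  have hvu : v.val < u.val := by
    have := Fin.le_def.1 hu
    omega
  have hvne : v ≠ u := fun h => by rw [h] at hvu; exact lt_irrefl _ hvu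
  have hv'v : v' ≠ v := fun h => by rw [h] at hv; omega
  have hprv : prv v' = v := by
    apply Fin.ext
    simp [prv, hv]
  rintro G ⟨F, hF, rfl⟩
  rw [SetLike.mem_coe] at hF
  have hlay : (lay g l).toLinearMap F = sub1 v c F := by
    rw [AlgHom.toLinearMap_apply, lay, hco, hva]
  rw [hlay, mem_WW]
  obtain ⟨h1, h2, h3⟩ := mem_WW.1 hF
  refine ⟨fun i hi => ?_, ?_, fun _ β hβ => ?_⟩
  · refine space_degreeOf_sub1 i v c F fun hiv => h1 i ?_
    rcases hi with hi | hi
    · left
      rw [Fin.lt_def] at hi ⊢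
      have : i.val ≠ v.val := fun h => hiv (Fin.ext h)
      omega
    · exact Or.inr hi
  · have h4 : Th e v' u ((c + p) ^ e) (sub1 v c F) = MvPolynomial.aeval (Function.update
        (MvPolynomial.X : Fin (R + 1) → MvPolynomial (Fin (R + 1)) ℂ) v
        (MvPolynomial.C (c + p))) (Th e v u p F) := by
      have h5 : (Th e v' u ((c + p) ^ e)).comp (sub1 v c) = (MvPolynomial.aeval (Function.update
          (MvPolynomial.X : Fin (R + 1) → MvPolynomial (Fin (R + 1)) ℂ) v
          (MvPolynomial.C (c + p)))).comp (Th e v u p) := by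
        refine MvPolynomial.algHom_ext (fun i => ?_)
        rw [AlgHom.comp_apply, AlgHom.comp_apply, space_sub1_X, Th_X]
        by_cases hiv : i = v
        · subst hiv
          rw [if_pos rfl, Th_C, if_pos rfl, map_sub, MvPolynomial.aeval_X,
            MvPolynomial.aeval_C, Function.update_self, MvPolynomial.algebraMap_eq,
            ← MvPolynomial.C_sub, add_sub_cancel_right]
        · rw [if_neg hiv, if_neg hiv, Th_X]
          by_cases hiv' : i = v'
          · subst hiv'
            rw [if_pos rfl, if_pos ⟨Fin.lt_def.2 (by omega), hu⟩, hprv, MvPolynomial.C_pow, map_sub,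
              map_pow, MvPolynomial.aeval_X, MvPolynomial.aeval_X, Function.update_self,
              Function.update_of_ne hiv]
          · rw [if_neg hiv']
            have hiv2 : i.val ≠ v.val := fun h => hiv (Fin.ext h)
            have hiv3 : i.val ≠ v'.val := fun h => hiv' (Fin.ext h)
            by_cases hc : v < i ∧ i ≤ u
            · have hc2 : v' < i := by
                have := Fin.lt_def.1 hc.1
                rw [Fin.lt_def]
                omega
              have hpi : prv i ≠ v := by
                intro h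
                have h6 := congrArg Fin.val h
                simp only [prv] at h6
                have h7 := Fin.lt_def.1 hc2
                omega
              rw [if_pos hc, if_pos ⟨hc2, hc.2⟩, map_sub, map_pow, MvPolynomial.aeval_X,
                MvPolynomial.aeval_X, Function.update_of_ne hiv, Function.update_of_ne hpi]
            · have hc2 : ¬ (v' < i ∧ i ≤ u) := by
                rintro ⟨h6, h7⟩
                apply hc
                refine ⟨?_, h7⟩
                rw [Fin.lt_def] at h6 ⊢
                omega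
              rw [if_neg hc, if_neg hc2, MvPolynomial.aeval_X, Function.update_of_ne hiv]
      exact congrArg (fun φ : MvPolynomial (Fin (R + 1)) ℂ →ₐ[ℂ] MvPolynomial (Fin (R + 1)) ℂ =>
        φ F) h5
    rw [h4]
    exact sub_H e u v hvne (c + p) _ d h2
  · rw [tay_sub1]
    have h6 : Function.update (ptv v' 0) v (algebraMap ℂ ℂ c) = ptv v (x b₀) := by
      ext i
      rw [Algebra.algebraMap_self, RingHom.id_apply]
      by_cases hi : i = v
      · subst hi
        rw [Function.update_self, ptv, if_pos rfl, hb₀]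
      · rw [Function.update_of_ne hi, ptv, ptv, if_neg hi, ite_self]
    rw [h6]
    split_ifs
    · exact h3 b₀ β hβ
    · rfl

/-- Residual along `z_v = c` (use `strict_H`). -/
theorem WW_residH {Λ : Type} (g : Lines Λ (Fin (R + 1))) (l : Λ) (e : ℕ)
    (v u : Fin (R + 1)) (hv : v < u) (c : ℂ) (hco : g.co l = v)
    (hva : g.va l = c) (p : ℂ) (d : ℕ) {B : Type} (x : B → ℂ) (m m' : B → ℕ)
    (hm1 : ∀ b, x b = c → m' b = m b - 1) (hm2 : ∀ b, x b ≠ c → m' b = m b) :
    ResW g l (WW e v u p d x m) (WW e v u p (d - 1) x m') := by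
  intro F hF h0
  rw [lay, hco, hva] at h0
  obtain ⟨F', hF'⟩ := wc_exists_residual v c F h0
  rw [hco, hva]
  obtain ⟨h1, h2, h3⟩ := mem_WW.1 hF
  refine ⟨F', mem_WW.2 ⟨fun i hi => ?_, fun α hα => ?_, fun b => ?_⟩, hF'⟩
  · refine space_degreeOf_resid i v c F' ?_
    rw [← hF']
    exact h1 i hi
  · have h4 : Th e v u p F =
        (MvPolynomial.X v - MvPolynomial.C (p + c)) * Th e v u p F' := by
      rw [hF', map_mul, map_sub, Th_C, Th_X, if_pos rfl, MvPolynomial.C_add]
      ring
    have h5 := strict_H e u v hv.ne (p + c) (Th e v u p F') d (by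
      intro α hα
      rw [← h4] at hα
      exact h2 α hα) α hα
    omega
  · have hpv : ptv v (x b) v = x b := by rw [ptv, if_pos rfl]
    by_cases hb : x b = c
    · rw [hm1 b hb]
      refine space_tay_resid v c F' (ptv v (x b)) (hpv.trans hb) (m b) ?_
      rw [← hF']
      exact h3 b
    · rw [hm2 b hb]
      refine space_tay_resid_ne v c F' (ptv v (x b)) (by rw [hpv]; exact hb) (m b) ?_
      rw [← hF']
      exact h3 b

/-- The constants. -/
theorem WW_base {Λ : Type} (g : Lines Λ (Fin (R + 1))) (e : ℕ) (he : 1 ≤ e)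
    (v u : Fin (R + 1)) (p : ℂ) {B : Type} (x : B → ℂ) (m : B → ℕ) :
    GMP g (WW e v u p 0 x m) {Kind.free 1} := by
  refine ⟨1, fun _ => Kind.free 1, by simp, fun _ => 0, ?_⟩
  rintro F hF h
  obtain ⟨-, h1, -⟩ := mem_WW.1 hF
  have h2 : tay F (0 : Fin (R + 1) → ℂ) 0 = 0 := h 0 0 (by simp [Lines.Idx])
  rw [tay_zero_right] at h2
  have h3 : Th e v u p F = MvPolynomial.C (MvPolynomial.coeff 0 (Th e v u p F)) := by
    ext α
    rw [MvPolynomial.coeff_C]
    split_ifs with hα
    · rw [← hα]
    · by_contra hc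
      have h5 := h1 α (MvPolynomial.mem_support_iff.2 hc)
      have h6 := cost_eq_zero e he u α (Nat.le_zero.1 h5)
      apply hα
      ext i
      have := congrFun h6 i
      simp [this]
  have h4 : F = MvPolynomial.C (MvPolynomial.coeff 0 (Th e v u p F)) := by
    apply Th_injective e v u p
    rw [Th_C]
    exact h3
  rw [h4, MvPolynomial.eval_C] at h2
  rw [h4, h2, MvPolynomial.C_0]

end Pool.Agent.H18.Pr

end

section

/-!
# Nine points in `ℙ³`: definitions

`fatW w N P m` is the space of the polynomials in `n` variables all of whose monomials have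
`w`-weight at most `N` and which vanish to order at least `m i` at the point `P i`.

`LL d m`: three variables `x, y, z`, total degree at most `d`, the points `(t, t², t⁴)` with
`t = 1, …, 9`.  They are on the surface `y = x²`.
`VV N m`: two variables `x, z` of weights `1, 2`, weight at most `N`, the points `(t, t⁴)`.
-/

namespace Pool.Agent.H22.LU

open MvPolynomial Pool.Agent.H18.Fat

/-- The numerical conditions. -/
structure Cond (d : ℕ) (m : Fin 9 → ℕ) : Prop where
  anti : Antitone m
  top : m 0 ≤ d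
  four : m 0 + m 1 + m 2 + m 3 ≤ 2 * d
  nine : ∑ i, m i ≤ 4 * d

end Pool.Agent.H22.LU

end

section

/-!
# Large points imposing independent conditions with a margin
-/

namespace Pool.Agent.H74.KV

open Finset Pool.Agent.H18.Fat Pool.Agent.H18.Ub

/-- The points of `J` impose independent conditions in degree `j`. -/
def Exact (r j : ℕ) {k : ℕ} (m : Fin k → ℕ) (J : Finset (Fin k)) : Prop :=
  (generalDim r j fun i => if i ∈ J then m i else 0) + ∑ i ∈ J, (m i + r - 1).choose r =
    (j + r).choose r

end Pool.Agent.H74.KV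

end
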