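import Pool.Agent.H94.LP4.M22
import Pool.Agent.H94.LP4.M23
import Pool.Agent.H94.LP4.M29
import Pool.Agent.H94.LP4.M46
import Pool.Agent.H94.LP4.M50
import Pool.Agent.H94.LP4.M51

/-! The parts of this file: H18.Pr.AsmM, H18.Pr.AsmV, H18.Pr.SysM, H74.BP.Red, H74.BP.Plane. -/

section

/-!
# Module AsmM (PR): exactness in the main family
-/

namespace Pool.Agent.H18.Pr

open Finset Pool.Agent.H18.Ex Pool.Agent.H18.Cub

variable {R t s : ℕ}

theorem ExM_le {u : Fin (R + 1)} {M D D' : ℕ} (h : ExM t s u M D) (hD : D ≤ D') :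
    ExM t s u M D' := fun n N hMg S hS hsum => h n N (hMg.le hD) S hS hsum

theorem ExV_le {e : ℕ} {v u : Fin (R + 1)} {M D D' : ℕ} (h : ExV e v u M D)
    (hD : D ≤ D') : ExV e v u M D' :=
  fun q hq d m hm S hS hsum => h q hq d m (by omega) S hS hsum

/-- Dimension one (`WW_one`, `y = xx`). -/
theorem exM_base (ht : 1 ≤ t) (u : Fin (R + 1)) (hu : u.val = 0) (M : ℕ) : ExM t s u M 0 := by
  intro n N _ S _ hsum
  have hu0 : u = 0 := Fin.ext (by simpa using hu)
  have hell : ∀ m, ell 1 m = m := fun m => ell_one_left m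
  have h0 : u.val + 1 = 1 := by omega
  rw [h0] at hsum
  have hmap : (S.map (ell 1)).sum = S.sum := by
    congr 1
    conv_rhs => rw [← Multiset.map_id S]
    exact Multiset.map_congr rfl fun m _ => hell m
  rw [hmap] at hsum
  simp only [hell] at hsum
  unfold WM
  have h1 : (0 : Fin (R + 1)) = u := hu0.symm
  rw [h1]
  exact WW_one (t + 1) (by omega) u 0 (dd N) _ (mu n N) xx xx_injective
    (fun b => by rcases b with l | j <;> simp [xx]) (fun b => by simp) S hsum

theorem dd_le_max (N : Option (Fin t) → ℕ) (B : ℕ) (h : ∀ i, N i ≤ B) :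
    dd N ≤ (2 * t + 1) * B := by
  unfold dd
  have h1 : ∑ l, N (some l) ≤ ∑ _l : Fin t, B := sum_le_sum fun l _ => h (some l)
  rw [sum_const, card_univ, Fintype.card_fin, smul_eq_mul] at h1
  have h2 := Nat.mul_le_mul_left (t + 1) (h none)
  have h3 : (2 * t + 1) * B = (t + 1) * B + t * B := by ring
  omega

end Pool.Agent.H18.Pr

end

section

/-!
# Module AsmV (PR): exactness for one big point
-/

namespace Pool.Agent.H18.Pr

open Finset Pool.Agent.H18.Ex Pool.Agent.H18.Cub

variable {R : ℕ}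

/-! ### Auxiliary facts -/

private theorem av_choose_lt (j : ℕ) (hj : 1 ≤ j) (x : ℕ) (hx : j ≤ x + 1) (k : ℕ) :
    x.choose j + k ≤ (x + k).choose j := by
  induction k with
  | zero => simp
  | succ k ih =>
    obtain ⟨i, rfl⟩ : ∃ i, j = i + 1 := ⟨j - 1, by omega⟩
    have h1 : (x + k + 1).choose (i + 1) = (x + k).choose i + (x + k).choose (i + 1) :=
      Nat.choose_succ_succ _ _
    have h2 : 1 ≤ (x + k).choose i := Nat.choose_pos (by omega)
    have h3 : x + (k + 1) = x + k + 1 := by ring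
    rw [h3, h1]
    omega

/-- A point of multiplicity `m ≤ d` leaves at least `d - m + 1` dimensions. -/
theorem av_tau_ell (e A j d m D : ℕ) (he : 1 ≤ e) (hj : 1 ≤ j) (h : m + D ≤ d) :
    ell j m + D + 1 ≤ tau e A j d := by
  refine le_trans ?_ (choose_le_tau e A j d he)
  unfold ell
  rcases Nat.eq_zero_or_pos m with rfl | hm
  · have h1 : (0 + j - 1).choose j = 0 := Nat.choose_eq_zero_of_lt (by omega)
    rw [h1]
    have h2 := av_choose_lt j hj j (by omega) d
    rw [Nat.choose_self] at h2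
    rw [add_comm d j]
    omega
  · have h2 := av_choose_lt j hj (m + j - 1) (by omega) (d - m + 1)
    have h3 : m + j - 1 + (d - m + 1) = d + j := by omega
    rw [h3] at h2
    omega

theorem av_mono {e : ℕ} {v u : Fin (R + 1)} {M D D' : ℕ} (hD : D ≤ D')
    (h : ExV e v u M D) : ExV e v u M D' := by
  intro q hq d m hd S hS hsum
  exact h q hq d m (by omega) S hS hsum

/-- Dimension one (`WW_one`). -/
theorem exV_base (e : ℕ) (he : 2 ≤ e) (u : Fin (R + 1)) (M : ℕ) : ExV e u u M 0 := by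
  intro q hq d m _ S _ hsum
  refine WW_one e (by omega) u (q : ℂ) d (fun _ : Unit => (0 : ℂ)) (fun _ => m) (fun _ => q)
    (fun _ _ _ => rfl) (fun _ => hq) (fun _ => by rw [zero_add]) S ?_
  rw [Nat.sub_self, zero_add] at hsum
  have h1 : S.map (ell 1) = S := by
    have h2 : S.map (ell 1) = S.map id := Multiset.map_congr rfl fun x _ => ell_one_left x
    rw [h2, Multiset.map_id]
  rw [h1, ell_one_left] at hsum
  simpa using hsum

end Pool.Agent.H18.Pr

end

section

/-!
# Module SysM (PR): the main Horace system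
-/

namespace Pool.Agent.H18.Pr

open Finset Pool.Agent.H18.Ex Pool.Agent.H18.Cub

variable {R t s : ℕ}

theorem gM_sep (t : ℕ) (u : Fin (R + 1)) (hu : 1 ≤ u.val) (l : Option (Fin t)) :
    (gM t u).Sep l := by
  have h0 : u ≠ 0 := by
    rintro rfl
    simp at hu
  intro l' h
  rcases l with _ | l <;> rcases l' with _ | l'
  · exact absurd rfl h
  · left
    simpa [gM] using h0.symm
  · left
    simpa [gM] using h0
  · right
    intro h1
    apply h
    simp only [gM, Nat.cast_inj] at h1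
    congr 1
    ext
    omega

private theorem SysM_map_layer {Λ : Type} (S : Multiset (Role Λ)) :
    (S.map fun r => (Kind.free r.layer : Kind Λ)) = (S.map Role.layer).map Kind.free := by
  rw [Multiset.map_map]
  rfl

private theorem SysM_resid (ht : 1 ≤ t) (u : Fin (R + 1)) (hu : 1 ≤ u.val)
    (n : Fin t ⊕ Fin s → ℕ) (a : Option (Fin t) → ℕ) (l : Option (Fin t)) (hl : 1 ≤ a l) :
    ResW (gM t u) l (WM u n a) (WM u n (dn l a)) := by
  unfold WM
  rcases l with _ | l
  · rw [dd_dn_none a hl, mu_dn_none n a hl]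
    exact WW_residS (gM t u) none (t + 1) (by omega) 0 u ⟨u.val - 1, by omega⟩
      (by simp only; omega) (Fin.zero_le _) rfl rfl 0 (dd a) _ (mu n a)
  · rw [dd_dn_some a l hl, mu_dn_some n a l hl]
    refine WW_residH (gM t u) (some l) (t + 1) 0 u (Fin.pos_iff_ne_zero.2 ?_)
      ((l.val + 1 : ℕ) : ℂ) rfl rfl 0 (dd a) (fun b : Fin t ⊕ Fin s => ((xx b : ℕ) : ℂ)) (mu n a) _
      (fun b hb => ?_) (fun b hb => ?_)
    · rintro rfl
      simp at hu
    · have h1 : b = .inl l := xx_injective (Nat.cast_injective hb)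
      rw [h1, Function.update_self]
    · rw [Function.update_of_ne]
      rintro rfl
      exact hb rfl

private theorem SysM_finite (u : Fin (R + 1)) (n : Fin t ⊕ Fin s → ℕ) (a : Option (Fin t) → ℕ) :
    FiniteDimensional ℂ (WM u n a) := WW_finite (t + 1) (by omega) 0 u 0 _ _ _

private theorem SysM_dd_zero : dd (0 : Option (Fin t) → ℕ) = 0 := by simp [dd]

private theorem SysM_mu_zero (n : Fin t ⊕ Fin s → ℕ) (b : Fin t ⊕ Fin s) : mu n 0 b = 0 := by
  unfold mu
  have : uu (s := s) (0 : Option (Fin t) → ℕ) b = 0 := by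
    rcases b with l | j <;> simp [uu]
  rw [this]
  omega

private theorem SysM_count (j : ℕ) (hj : 1 ≤ j) (hjR : j ≤ R) (n : Fin t ⊕ Fin s → ℕ)
    (a : Option (Fin t) → ℕ) (l : Option (Fin t)) (hl : 1 ≤ a l) (hF : 1 ≤ FM R j n l a) :
    RM R j n a = RM R j n (dn l a) + FM R j n l a := by
  rcases l with _ | l
  · rw [RM_diff_none j hj hjR n a hl]
    congr 1
    have h1 : FM R j n none a = tau (t + 1) (R + 1 - j) j (dd a) - ∑ b, ell j (mu n a b) := rfl
    rw [h1] at hF ⊢
    unfold RM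
    have h2 : R - (j - 1) = R + 1 - j := by omega
    have h3 : j - 1 + 1 = j := by omega
    rw [h2, h3, Nat.cast_sub (by omega)]
    push_cast
    rfl
  · rw [RM_diff_some j hj n a l hl]
    congr 1
    have h1 : FM R j n (some l) a = tau (t + 1) (R - j) j (dd a) - ell j (mu n a (.inl l)) := rfl
    rw [h1] at hF ⊢
    rw [Nat.cast_sub (by omega)]

/-- The main system with top variable `u`.  For `count` use `RM_diff_none`, `RM_diff_some`; for `step`
and `bridge` use `GMP.step`, `GMP.bridge`, `WW_finite`, `WW_residS`, `WW_residH`, `dd_dn_none` etc. -/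
noncomputable def sysM (ht : 1 ≤ t) (u : Fin (R + 1)) (hu : 1 ≤ u.val)
    (n : Fin t ⊕ Fin s → ℕ) : SysN (Option (Fin t)) u.val where
  K := fun a S => GMP (gM t u) (WM u n a) S
  F := FM R u.val n
  R := RM R u.val n
  tr := fun l a S => GMP (gM t u) (trW (gM t u) l (WM u n a)) (S.map Kind.free)
  mono := fun a S S' h hS => GMP.mono h hS
  free_mono := fun a T S hT h => GMP.free_mono T hT S h
  tr_mono := fun l a S S' h hS => GMP.mono (Multiset.map_le_map h) hS
  count := by
    intro a l hl hF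
    exact SysM_count u.val hu (by omega) n a l hl hF
  step := by
    intro a l hl μ hμ S hS htr h
    have := SysM_finite u n a
    have := SysM_finite u n (dn l a)
    refine GMP.step (gM t u) l (gM_sep t u hu l) _ _ (SysM_resid ht u hu n a l hl) μ hμ S hS ?_ h
    rw [SysM_map_layer]
    exact htr
  bridge := by
    intro a l hl S m h1 h2
    have := SysM_finite u n a
    have := SysM_finite u n (dn l a)
    exact GMP.bridge (gM t u) l (gM_sep t u hu l) _ _ (SysM_resid ht u hu n a l hl) S m h1 h2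
  base := by
    unfold WM
    rw [SysM_dd_zero]
    exact WW_base (gM t u) (t + 1) (by omega) 0 u 0 _ _
  base_R := by
    unfold RM
    rw [SysM_dd_zero, tau_zero_right (t + 1) _ _ (by omega), sum_eq_zero fun b _ => by
      rw [SysM_mu_zero, ell_zero (by omega)]; simp]
    simp

theorem sysM_tr_none (ht : 1 ≤ t) (u u' : Fin (R + 1)) (hu : 1 ≤ u.val)
    (huu : u.val = u'.val + 1) (n : Fin t ⊕ Fin s → ℕ) (a : Option (Fin t) → ℕ) (S : Multiset ℕ)
    (h : Fk (WM u' n a) S) : (sysM ht u hu n).tr none a S := by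
  have h1 := WW_traceS (gM t u) none (t + 1) (by omega) 0 u u' huu (Fin.zero_le _) rfl rfl 0
    (dd a) (fun b : Fin t ⊕ Fin s => ((xx b : ℕ) : ℂ)) (mu n a)
  exact (Fk_iff (gM t u) _ S).1 (Fk.anti h1 h)

theorem sysM_tr_some (ht : 1 ≤ t) (u v : Fin (R + 1)) (hu : 1 ≤ u.val) (hv : v.val = 1)
    (n : Fin t ⊕ Fin s → ℕ) (a : Option (Fin t) → ℕ) (l : Fin t) (S : Multiset ℕ)
    (h : Fk (WW (t + 1) v u ((((l.val + 1) ^ (t + 1) : ℕ) : ℂ)) (dd a) (fun _ : Unit => (0 : ℂ))
      fun _ => mu n a (.inl l)) S) : (sysM ht u hu n).tr (some l) a S := by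
  have h0 : v ≤ u := by
    change v.val ≤ u.val
    omega
  have h1 := WW_traceH (gM t u) (some l) (t + 1) 0 v u (by rw [hv]; rfl) h0
    ((l.val + 1 : ℕ) : ℂ) rfl rfl 0 (dd a) (fun b : Fin t ⊕ Fin s => ((xx b : ℕ) : ℂ)) (mu n a)
    (.inl l) rfl
  have h3 : (((l.val + 1 : ℕ) : ℂ) + 0) ^ (t + 1) = ((((l.val + 1) ^ (t + 1) : ℕ) : ℂ)) := by
    rw [add_zero]
    push_cast
    ring
  rw [h3] at h1
  exact (Fk_iff (gM t u) _ S).1 (Fk.anti h1 h)

end Pool.Agent.H18.Pr

end

section

/-!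
# Reduction to the large multiplicities
-/

namespace Pool.Agent.H74.BP

open Finset Pool.Agent.H18.Fat Pool.Agent.H18.Ub

/-- If the points of `J` impose maximal conditions and the others impose maximal conditions on the forms
with the given multiplicities on `J`, then all points impose maximal conditions. -/
theorem imposes_of_max {r d k : ℕ} (hr : 1 ≤ r) (m : Fin k → ℕ) (J : Finset (Fin k))
    (hmax : Max r d m J)
    (h : ForGeneralPoints r k fun p =>
      ImposesMaximalConditions r d p fun i => if i ∈ J then m i else 0) :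
    ForGeneralPoints r k fun p => ImposesMaximalConditions r d p m := by
  classical
  refine ((hmax.and h).and (generalDim_spec r d fun i => if i ∈ J then m i else 0)).mono
    fun p hp => ?_
  obtain ⟨⟨hp1, hp2⟩, hp3⟩ := hp
  unfold ImposesMaximalConditions at hp2 ⊢
  rw [hp3] at hp2
  have h1 : ∑ i, (((if i ∈ J then m i else 0) + r - 1).choose r : ℤ) =
      ∑ i ∈ J, ((m i + r - 1).choose r : ℤ) := by
    rw [← sum_subset (subset_univ J)]
    · exact sum_congr rfl fun i hi => by rw [if_pos hi]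
    · intro i _ hi
      rw [if_neg hi, Nat.choose_eq_zero_of_lt (by omega)]
      rfl
  have h2 : ∑ i, ((m i + r - 1).choose r : ℤ) = ∑ i ∈ J, ((m i + r - 1).choose r : ℤ) +
      (len r m (univ.filter fun i => i ∉ J) : ℤ) := by
    rw [len_cast, ← sum_filter_add_sum_filter_not univ (fun i => i ∈ J)
      (fun i => ((m i + r - 1).choose r : ℤ))]
    congr 1
    refine sum_congr ?_ fun _ _ => rfl
    ext i
    simp
  rw [hp1, hp2, h1, h2]
  have h3 : (0 : ℤ) ≤ (len r m (univ.filter fun i => i ∉ J) : ℤ) := Int.natCast_nonneg _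
  omega

end Pool.Agent.H74.BP

end

section

/-!
# The plane: at most eight arbitrary multiplicities, and points of medium multiplicity
-/

namespace Pool.Agent.H74.BP

open Finset Pool.Agent.H18.Fat Pool.Agent.H18.Ub

theorem choose_two_succ (d : ℕ) : (d + 1 + 2).choose 2 = (d + 2).choose 2 + (d + 2) := by
  have h1 : d + 1 + 2 = (d + 2) + 1 := by omega
  rw [h1, Nat.choose_succ_succ' (d + 2) 1, Nat.choose_one_right]
  exact Nat.add_comm _ _

/-- The growth, for a class in standard form with large multiplicities at three to eight points. -/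
theorem slow_eight {K : ℕ} (hK : ∀ (n d y x : ℕ) (m : Fin n → ℕ) (J : Finset (Fin n)),
    3 ≤ J.card → J.card ≤ 8 → (∀ i ∈ J, y ≤ m i) →
    (∀ S ⊆ J, S.card = 3 → ∑ i ∈ S, m i ≤ d) → 6 * (x + K) + 8 ≤ y →
    (generalDim 2 (d - x) fun i => if i ∈ J then m i else 0) +
      ∑ i ∈ J, (m i + 2 - 1).choose 2 = (d - x + 2).choose 2)
    (n d y C E : ℕ) (m : Fin n → ℕ) (J : Finset (Fin n)) (hJ3 : 3 ≤ J.card) (hJ8 : J.card ≤ 8)
    (hy : ∀ i ∈ J, y ≤ m i) (hstd : ∀ S ⊆ J, S.card = 3 → ∑ i ∈ S, m i ≤ d)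
    (hCy : 6 * (C + 1 + K) + 8 ≤ y) (hEC : E * C ≤ d + 1) (h : ℕ → ℕ)
    (hh : ∀ j, h j = generalDim 2 j fun i => if i ∈ J then m i else 0) :
    E * ((h d - h (d - 1)) - (h (d - C) - h (d - C - 1))) ≤ h d - h (d - 1) := by
  classical
  have hCd : C + 1 ≤ d := by
    obtain ⟨S, hS, hSc⟩ := exists_subset_card_eq hJ3
    have h1 := hstd S hS hSc
    have h2 : ∑ _i ∈ S, y ≤ ∑ i ∈ S, m i := sum_le_sum fun i hi => hy i (hS hi)
    rw [sum_const, hSc, smul_eq_mul] at h2
    omega
  have h0 := hK n d y 0 m J hJ3 hJ8 hy hstd (by omega)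
  have h1 := hK n d y 1 m J hJ3 hJ8 hy hstd (by omega)
  have h2 := hK n d y C m J hJ3 hJ8 hy hstd (by omega)
  have h3 := hK n d y (C + 1) m J hJ3 hJ8 hy hstd (by omega)
  rw [← hh] at h0 h1 h2 h3
  obtain ⟨z, rfl⟩ : ∃ z, d = z + C + 1 := ⟨d - C - 1, by omega⟩
  have e0 : z + C + 1 - 0 = z + C + 1 := rfl
  have e1 : z + C + 1 - 1 = z + C := rfl
  have e2 : z + C + 1 - C = z + 1 := by omega
  have e3 : z + C + 1 - (C + 1) = z := by omega
  have e4 : z + 1 - 1 = z := rfl
  rw [e0] at h0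
  rw [e1] at h1
  rw [e2] at h2
  rw [e3] at h3
  rw [e1, e2, e4]
  have c1 := choose_two_succ (z + C)
  have c2 := choose_two_succ z
  have g1 : h (z + C + 1) - h (z + C) = z + C + 2 := by omega
  have g2 : h (z + 1) - h z = z + 2 := by omega
  rw [g1, g2]
  have g3 : z + C + 2 - (z + 2) = C := by omega
  rw [g3]
  omega

/-- The threshold for the large multiplicities. -/
def YY (K M : ℕ) : ℕ := 6 * (66 * M ^ 3 * (M + 2 - 1).choose 2 + 1 + K) + 8

theorem YY_le (K M : ℕ) (hM : 1 ≤ M) : YY K M ≤ (410 + 6 * K) * M ^ 5 := by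
  have h1 := Pool.Agent.H74.CT.choose_le_pow M hM 2
  have h2 : 66 * M ^ 3 * (M + 2 - 1).choose 2 ≤ 66 * M ^ 5 := by
    calc 66 * M ^ 3 * (M + 2 - 1).choose 2 ≤ 66 * M ^ 3 * M ^ 2 := Nat.mul_le_mul_left _ h1
      _ = 66 * M ^ 5 := by ring
  have h3 : 1 ≤ M ^ 5 := Nat.one_le_pow _ _ hM
  unfold YY
  nlinarith

theorem le_YY (K M : ℕ) (hM : 1 ≤ M) : M ≤ YY K M := by
  have h1 : 1 ≤ (M + 2 - 1).choose 2 := Nat.choose_pos (by omega)
  have h2 : M ^ 1 ≤ M ^ 3 := Nat.pow_le_pow_right hM (by norm_num)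
  have h3 : M ^ 3 * 1 ≤ M ^ 3 * (M + 2 - 1).choose 2 := Nat.mul_le_mul_left _ h1
  unfold YY
  nlinarith

/-- Raising the threshold a bounded number of times separates the large multiplicities. -/
theorem thresholds (K n : ℕ) : ∃ A E : ℕ, ∀ M : ℕ, 1 ≤ M → ∀ (k : ℕ) (m : Fin k → ℕ)
    (J : Finset (Fin k)), J.card ≤ n → ∃ (M' : ℕ) (J' : Finset (Fin k)), J' ⊆ J ∧ M ≤ M' ∧
      M' ≤ A * M ^ E ∧ (∀ i ∈ J', YY K M' ≤ m i) ∧ ∀ i ∈ J, i ∉ J' → m i ≤ M' := by
  classical
  induction n with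
  | zero =>
    refine ⟨1, 1, fun M hM k m J hJ => ⟨M, ∅, empty_subset _, le_rfl, by simp, ?_, ?_⟩⟩
    · intro i hi
      exact absurd hi (notMem_empty i)
    · intro i hi
      rw [card_eq_zero.1 (Nat.le_zero.1 hJ)] at hi
      exact absurd hi (notMem_empty i)
  | succ n ih =>
    obtain ⟨A, E, hA⟩ := ih
    refine ⟨A * (410 + 6 * K) ^ E + 1, 5 * E + 1, fun M hM k m J hJ => ?_⟩
    by_cases hall : ∀ i ∈ J, YY K M ≤ m i
    · refine ⟨M, J, subset_rfl, le_rfl, ?_, hall, fun i hi hi' => absurd hi hi'⟩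
      have h1 : M ^ 1 ≤ M ^ (5 * E + 1) := Nat.pow_le_pow_right hM (by omega)
      rw [pow_one] at h1
      nlinarith [Nat.zero_le (A * (410 + 6 * K) ^ E * M ^ (5 * E + 1))]
    · push Not at hall
      obtain ⟨i₀, hi₀, hlt⟩ := hall
      set J₁ := J.filter fun i => YY K M ≤ m i with hJ₁
      have hc : J₁.card < J.card := card_lt_card (by
        rw [hJ₁, filter_ssubset]
        exact ⟨i₀, hi₀, by omega⟩)
      have hM₁ : 1 ≤ YY K M := hM.trans (le_YY K M hM)
      obtain ⟨M', J', h1, h2, h3, h4, h5⟩ := hA (YY K M) hM₁ k m J₁ (by omega)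
      refine ⟨M', J', h1.trans (filter_subset _ _), (le_YY K M hM).trans h2, ?_, h4,
        fun i hi hi' => ?_⟩
      · have h6 := YY_le K M hM
        calc M' ≤ A * YY K M ^ E := h3
          _ ≤ A * ((410 + 6 * K) * M ^ 5) ^ E :=
            Nat.mul_le_mul_left _ (Nat.pow_le_pow_left h6 _)
          _ = A * (410 + 6 * K) ^ E * M ^ (5 * E) := by rw [mul_pow, ← pow_mul, mul_assoc]
          _ ≤ (A * (410 + 6 * K) ^ E + 1) * M ^ (5 * E + 1) :=
            Nat.mul_le_mul (Nat.le_succ _) (Nat.pow_le_pow_right hM (Nat.le_succ _))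
      · by_cases hi1 : i ∈ J₁
        · exact h5 i hi1 hi'
        · have h6 : ¬ YY K M ≤ m i := fun h => hi1 (mem_filter.2 ⟨hi, h⟩)
          omega

end Pool.Agent.H74.BP

end
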