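import Pool.Agent.H94.LP4.M11
import Pool.Agent.H94.LP4.M18
import Pool.Agent.H94.LP4.M21
import Pool.Agent.H94.LP4.M49
import Pool.Agent.H94.LP4.M51

/-! The parts of this file: H18.Ta.Geo, H18.Ta.Link, H74.KV.Dya. -/

section

/-!
# Module Geo (TA): from general injectivity to the dimension of the system

Proof.  As in `Pool.Agent.H18.Ex.exists_special` (file `Ex/Final.lean`), with only one coordinate point
`p i₀ = (0 : 0 : 1)` (`Pi.single 2 1`), `w = ![d, d, b]`, `b = d - m i₀`: by `GM_iff` choose positions for the other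
points and for `N - L` simple points, `N = (Rg d w).card`, `L = ∑_{i ≠ i₀} ell 2 (m i)`; the forms in
`fatForms 2 d p₀ m` are supported in `Rg d w` (`vanishes_coord_iff`), and evaluation at the simple points is
injective, so `finrank ≤ N - L`.  By `general_finrank_le` the same bound holds for general points, and
`finrank_fatForms_ge` gives `≥ v` (and `≥ 0`).  Finally `N = ∑_{s ≤ b} (d + 1 - s)` and
`N + binom(m i₀ + 1, 2) = binom(d + 2, 2)` (`m i₀ + b = d`), so `v = N - L` in `ℤ`.
-/

namespace Pool.Agent.H18.Ta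

open Finset Pool.Agent.H18.Ex Pool.Agent.H18.Fat

/-- The number of exponents. -/
theorem card_rg (b d : ℕ) (hbd : b ≤ d) :
    (Rg d (![d, d, b] : Fin 3 → ℕ)).card = ∑ s ∈ range (b + 1), (d + 1 - s) := by
  have h1 : ∑ s ∈ range (b + 1), (d + 1 - s) =
      ((range (b + 1)).sigma fun s => range (d + 1 - s)).card := by
    rw [card_sigma]
    exact sum_congr rfl fun s _ => (card_range _).symm
  rw [h1]
  refine card_nbij' (fun a => ⟨a 2, a 0⟩) (fun x => ![x.2, d - x.1 - x.2, x.1]) ?_ ?_ ?_ ?_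
  · intro a ha
    rw [mem_coe, Ex.mem_Rg, Fin.sum_univ_three] at ha
    rw [mem_coe, mem_sigma, mem_range, mem_range]
    have h2 := ha.1 2
    simp only [Matrix.cons_val] at h2
    obtain ⟨_, h3⟩ := ha
    constructor
    · show a 2 < b + 1
      omega
    · show a 0 < d + 1 - a 2
      omega
  · intro x hx
    rw [mem_coe, mem_sigma, mem_range, mem_range] at hx
    rw [mem_coe, Ex.mem_Rg, Fin.sum_univ_three]
    obtain ⟨h2, h3⟩ := hx
    refine ⟨fun i => ?_, ?_⟩
    · fin_cases i
      · show x.2 ≤ d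
        omega
      · show d - x.1 - x.2 ≤ d
        omega
      · show x.1 ≤ b
        omega
    · show x.2 + (d - x.1 - x.2) + x.1 = d
      omega
  · intro a ha
    rw [mem_coe, Ex.mem_Rg, Fin.sum_univ_three] at ha
    obtain ⟨_, h3⟩ := ha
    funext i
    fin_cases i
    · rfl
    · show d - a 2 - a 0 = a 1
      omega
    · rfl
  · rintro ⟨x, y⟩ _
    rfl

private theorem Geo_count (q b : ℕ) :
    ∑ s ∈ range (b + 1), (q + b + 1 - s) + (q + 1).choose 2 = (q + b + 2).choose 2 := by
  induction b with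
  | zero =>
    rw [sum_range_one]
    have h1 : (q + 0 + 2).choose 2 = (q + 1).choose 1 + (q + 1).choose 2 := rfl
    rw [h1, Nat.choose_one_right]
    omega
  | succ b ih =>
    rw [sum_range_succ']
    have h1 : ∑ s ∈ range (b + 1), (q + (b + 1) + 1 - (s + 1)) =
        ∑ s ∈ range (b + 1), (q + b + 1 - s) := sum_congr rfl fun s _ => by omega
    rw [h1]
    have h2 : (q + (b + 1) + 2).choose 2 = (q + b + 2) + (q + b + 2).choose 2 := by
      have h3 : (q + (b + 1) + 2).choose 2 =
          (q + (b + 1) + 1).choose 1 + (q + (b + 1) + 1).choose 2 := rfl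
      rw [h3, Nat.choose_one_right]
      rfl
    rw [h2]
    omega

/-- The special configuration. -/
private theorem Geo_special (k d b : ℕ) (m : Fin k → ℕ) (i₀ : Fin k) (hd : m i₀ + b = d)
    (h : GM (Rg d (![d, d, b] : Fin 3 → ℕ))
      (((univ.filter fun i => i ≠ i₀).val.map m +
        Multiset.replicate ((Rg d (![d, d, b] : Fin 3 → ℕ)).card -
          ∑ i ∈ univ.filter (fun i => i ≠ i₀), ell 2 (m i)) 1).map Kind.free)) :
    ∃ p₀ : Fin k → Fin (2 + 1) → ℂ, Module.finrank ℂ (fatForms 2 d p₀ m) ≤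
      (Rg d (![d, d, b] : Fin 3 → ℕ)).card -
          ∑ i ∈ univ.filter (fun i => i ≠ i₀), ell 2 (m i) := by
  classical
  set w : Fin 3 → ℕ := ![d, d, b] with hw
  set R : ℕ := (Rg d w).card - ∑ i ∈ univ.filter (fun i => i ≠ i₀), ell 2 (m i) with hR
  let I := {i : Fin k // i ≠ i₀}
  let kk : I ⊕ Fin R → Kind (Fin 3) :=
    Sum.elim (fun i => Kind.free (m i.1)) fun _ => Kind.free 1
  have hkk : (univ : Finset (I ⊕ Fin R)).val.map kk =
      ((univ.filter fun i => i ≠ i₀).val.map m + Multiset.replicate R 1).map Kind.free := by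
    have h1 : (univ : Finset (I ⊕ Fin R)).val =
        (univ : Finset I).val.map Sum.inl + (univ : Finset (Fin R)).val.map Sum.inr := rfl
    have h2 : (univ.filter fun i : Fin k => i ≠ i₀).val = (univ : Finset I).val.map Subtype.val := by
      have h3 : (univ.filter fun i : Fin k => i ≠ i₀) =
          (univ : Finset I).map (Function.Embedding.subtype _) := by
        ext i
        simp only [mem_filter, mem_univ, true_and, mem_map, Function.Embedding.coe_subtype]
        constructor
        · intro hi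
          exact ⟨⟨i, hi⟩, rfl⟩
        · rintro ⟨a, rfl⟩
          exact a.2
      rw [h3]
      rfl
    rw [h1, h2, Multiset.map_add, Multiset.map_map, Multiset.map_map, Multiset.map_add,
      Multiset.map_map, Multiset.map_map, Multiset.map_replicate]
    congr 1
    have h4 : ((univ : Finset (Fin R)).val.map (kk ∘ Sum.inr)) =
        (univ : Finset (Fin R)).val.map (Function.const (Fin R) (Kind.free 1)) := rfl
    rw [h4, Multiset.map_const]
    simp
  have hGI : GI (Rg d w) kk := by
    rw [← GM_iff, hkk]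
    exact h
  obtain ⟨pos, hpos⟩ := hGI
  let p₀ : Fin k → Fin (2 + 1) → ℂ := fun i =>
    if hi : i ≠ i₀ then pos (Sum.inl ⟨i, hi⟩) else Pi.single 2 1
  refine ⟨p₀, ?_⟩
  -- the support
  have hsupp : ∀ F ∈ fatForms 2 d p₀ m, ∀ α ∈ F.support, (⇑α : Fin (2 + 1) → ℕ) ∈ Rg d w := by
    intro F hF α hα
    rw [MvPolynomial.mem_support_iff] at hα
    have hαd : α ∈ mons (2 + 1) d := by
      rw [mem_mons]
      by_contra h
      exact hα (hF.1.coeff_eq_zero h)
    rw [Ex.mem_Rg]
    have hdeg := mem_mons.1 hαd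
    rw [Finsupp.degree_eq_sum] at hdeg
    have h3 := hF.2 i₀
    have hp : p₀ i₀ = Pi.single 2 1 := by
      simp only [p₀]
      rw [dif_neg (by simp)]
    rw [hp, ← exists_toPoly hF.1, vanishes_coord_iff] at h3
    have h4 : α 2 + m i₀ ≤ d := h3 ⟨α, hαd⟩ hα
    have hdeg' := hdeg
    rw [Fin.sum_univ_three] at hdeg'
    refine ⟨fun l => ?_, hdeg⟩
    fin_cases l
    · show α 0 ≤ d
      omega
    · show α 1 ≤ d
      omega
    · show α 2 ≤ b
      omega
  let Ψ : fatForms 2 d p₀ m →ₗ[ℂ] (Fin R → ℂ) :=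
    { toFun := fun F j => ∑ a ∈ Rg d w, cf F.1 a * tcr (pos (Sum.inr j)) a 0
      map_add' := fun F G => by
        funext j
        simp only [Submodule.coe_add, cf, MvPolynomial.coeff_add, Pi.add_apply, add_mul,
          sum_add_distrib]
      map_smul' := fun c F => by
        funext j
        simp only [Submodule.coe_smul, cf, MvPolynomial.coeff_smul, smul_eq_mul, RingHom.id_apply,
          Pi.smul_apply, mul_sum, mul_assoc] }
  have hΨ : Function.Injective Ψ := by
    rw [← LinearMap.ker_eq_bot, LinearMap.ker_eq_bot']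
    intro F hF
    have h1 : ∀ i, Sat (Rg d w) (cf F.1) (kk i) (pos i) := by
      rintro (i | j)
      · have h2 := F.2.2 i.1
        have h3 : p₀ i.1 = pos (Sum.inl i) := by
          simp only [p₀]
          rw [dif_pos i.2]
        rw [h3] at h2
        exact sat_of_vanishes (hsupp F.1 F.2) h2
      · intro b hb
        have hb0 : b = 0 := by
          change ∑ i, b i < 1 at hb
          have h2 : ∑ i, b i = 0 := by omega
          rw [sum_eq_zero_iff] at h2
          funext i
          exact h2 i (mem_univ _)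
        subst hb0
        exact congrFun hF j
    have h2 := hpos (cf F.1) h1
    apply Subtype.ext
    change F.1 = 0
    by_contra hne
    obtain ⟨α, hα⟩ := MvPolynomial.ne_zero_iff.1 hne
    have h3 := hsupp F.1 F.2 α (MvPolynomial.mem_support_iff.2 hα)
    have h4 := h2 _ h3
    unfold cf at h4
    rw [show Finsupp.equivFunOnFinite.symm (⇑α) = α from by ext; rfl] at h4
    exact hα h4
  have := LinearMap.finrank_le_finrank_of_injective hΨ
  rwa [Module.finrank_fintype_fun_eq_card, Fintype.card_fin] at this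

/-- The dimension for general points. -/
theorem geo (k d b : ℕ) (m : Fin k → ℕ) (i₀ : Fin k) (hd : m i₀ + b = d)
    (h : GM (Rg d (![d, d, b] : Fin 3 → ℕ))
      (((univ.filter fun i => i ≠ i₀).val.map m +
        Multiset.replicate ((Rg d (![d, d, b] : Fin 3 → ℕ)).card -
          ∑ i ∈ univ.filter (fun i => i ≠ i₀), ell 2 (m i)) 1).map Kind.free)) :
    ForGeneralPoints 2 k fun p => ImposesMaximalConditions 2 d p m := by
  classical
  obtain ⟨p₀, hp₀⟩ := Geo_special k d b m i₀ hd h
  refine ((general_finrank_le d p₀ m).and (ForGeneralPoints.coord_ne_zero 2 k)).mono ?_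
  rintro p ⟨hp1, hp0⟩
  have hge := finrank_fatForms_ge (d := d) (by omega : 1 ≤ 2) (fun i => hp0 i 0) m
  have hN : (Rg d (![d, d, b] : Fin 3 → ℕ)).card + (m i₀ + 1).choose 2 = (d + 2).choose 2 := by
    rw [card_rg b d (by omega), ← hd]
    exact Geo_count (m i₀) b
  have hL : ∑ i, ((m i + 2 - 1).choose 2 : ℤ) =
      (((m i₀ + 1).choose 2 + ∑ i ∈ univ.filter (fun i => i ≠ i₀), ell 2 (m i) : ℕ) : ℤ) := by
    rw [filter_ne', ← add_sum_erase univ _ (mem_univ i₀)]
    push_cast
    rfl
  unfold ImposesMaximalConditions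
  rw [hL] at hge ⊢
  rw [← hN] at hge ⊢
  generalize (Rg d (![d, d, b] : Fin 3 → ℕ)).card = N at *
  generalize ∑ i ∈ univ.filter (fun i => i ≠ i₀), ell 2 (m i) = L at *
  generalize (m i₀ + 1).choose 2 = Q at *
  have h1 : Module.finrank ℂ (fatForms 2 d p m) ≤ N - L := hp1.trans hp₀
  generalize Module.finrank ℂ (fatForms 2 d p m) = f at *
  push_cast at hge ⊢
  omega

end Pool.Agent.H18.Ta

end

section

/-!
# Module Link (TA): from a packing to general injectivity
-/

namespace Pool.Agent.H18.Ta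

open Finset Pool.Agent.H18.Ex

theorem gm_of_pack (b d : ℕ) (hbd : b ≤ d) (P : Multiset (ℕ × ℕ × ℕ))
    (hP : ∀ x ∈ P, x.2.1 + x.2.2 < b + 1)
    (hc : ∀ s < b + 1, d + 1 - s ≤ (P.map fun x => ld (b + 1) x.1 x.2.1 x.2.2 s).sum) :
    GM (Rg d (![d, d, b] : Fin 3 → ℕ)) ((P.map Prod.fst).map Kind.free) := by
  obtain ⟨n, t, rfl⟩ := multi_exists_fin P
  have ht : ∀ i, (t i).2.1 + (t i).2.2 < b + 1 := fun i =>
    hP (t i) (Multiset.mem_map.2 ⟨i, (by rw [Finset.mem_val]; exact Finset.mem_univ _), rfl⟩)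
  rw [Multiset.map_map, Multiset.map_map, GM_iff]
  obtain ⟨y, hy⟩ := core (b + 1) (fun s => d + 1 - s) (fun i => (t i).1)
    (fun i => rk (b + 1) (t i).2.1 (t i).2.2) (fun i => ex (b + 1) (t i).2.1 (t i).2.2)
    (kap (b + 1)) (fun i : Fin n => ((i : ℕ) : ℂ))
    (fun i j hij => Fin.ext (Nat.cast_injective (R := ℂ) hij))
    (fun i s hs u hu he => rk_inj (ht i) hs hu he)
    (fun i s hs u hu hr => key_lt (ht i) hs hu hr)
    (fun s hs => by
      have := hc s hs
      rw [Multiset.map_map] at this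
      exact this)
  refine ⟨fun i => ![1, ((i : ℕ) : ℂ), y i], fun f hf => ?_⟩
  have h1 := hy (fun s a => f ![d - s - a, a, s]) (fun i α γ hαγ => by
    have h2 := hf i ![0, α, γ] (by
      show ∑ j : Fin 3, (![0, α, γ] : Fin 3 → ℕ) j < (t i).1
      rw [Fin.sum_univ_three]
      show 0 + α + γ < (t i).1
      omega)
    rw [rg_sum b d hbd] at h2
    refine Eq.trans (sum_congr rfl fun s _ => sum_congr rfl fun a _ => ?_) h2
    congr 1
    show _ = tcr (![1, ((i : ℕ) : ℂ), y i]) ![d - s - a, a, s] ![0, α, γ]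
    unfold tcr
    rw [Fin.prod_univ_three]
    show _ = (((d - s - a).choose 0 : ℕ) : ℂ) * 1 ^ (d - s - a - 0) *
      (((a.choose α : ℕ) : ℂ) * ((i : ℕ) : ℂ) ^ (a - α)) *
      (((s.choose γ : ℕ) : ℂ) * y i ^ (s - γ))
    rw [Nat.choose_zero_right, Nat.cast_one, one_pow, one_mul, one_mul])
  intro a ha
  rw [mem_rg3] at ha
  have h3 := h1 (a 2) (by omega) (a 1) (by omega)
  have h4 : (![d - a 2 - a 1, a 1, a 2] : Fin 3 → ℕ) = a := by
    funext i
    fin_cases i
    · show d - a 2 - a 1 = a 0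
      omega
    · rfl
    · rfl
  rw [h4] at h3
  exact h3

end Pool.Agent.H18.Ta

end

section

/-!
# Dyadic packings
-/

namespace Pool.Agent.H74.KV

open Finset MvPolynomial Pool.Agent.H18.Fat

variable {r : ℕ}

theorem degree_tail (α : Fin (r + 1) →₀ ℕ) : α.degree = α 0 + (Finsupp.tail α).degree := by
  rw [Finsupp.degree_eq_sum, Finsupp.degree_eq_sum, Fin.sum_univ_succ]
  rfl

theorem degree_cons' (a : ℕ) (γ : Fin r →₀ ℕ) : (Finsupp.cons a γ).degree = a + γ.degree := by
  rw [degree_tail, Finsupp.cons_zero, Finsupp.tail_cons]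

theorem tc_tail {q : Fin (r + 1) → ℂ} (hq : q 0 = 1) (α β : Fin (r + 1) →₀ ℕ) (hβ : β 0 = 0) :
    tc q α β = tc (fun j => q j.succ) (Finsupp.tail α) (Finsupp.tail β) := by
  unfold tc
  rw [Fin.prod_univ_succ, hq, hβ, Nat.choose_zero_right, one_pow, Nat.cast_one, one_mul, one_mul]
  rfl

/-- From the condition matrix to polynomials of bounded degree. -/
theorem srj_of_condMat {d : ℕ} {ι : Type*} [Fintype ι] {p : ι → Fin (r + 1) → ℂ}
    (hp : ∀ i, p i 0 = 1) {m : ι → ℕ} (h : Function.Surjective (condMat r d p m).mulVec) :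
    Srj r d univ (fun i j => p i j.succ) m := by
  classical
  intro u
  obtain ⟨F, hF⟩ := h fun x => u x.1 (Finsupp.tail x.2.1)
  refine ⟨∑ α : mons (r + 1) d, monomial (Finsupp.tail α.1) (F α), ?_, ?_⟩
  · refine totalDegree_finsetSum_le fun α _ => ?_
    refine (totalDegree_monomial_le _ _).trans ?_
    have h3 : ((Finsupp.tail α.1).sum fun _ => id) = (Finsupp.tail α.1).degree := rfl
    rw [h3]
    have h4 := degree_tail α.1
    have h5 := mem_mons.1 α.2
    omega
  · intro i _ γ hγ
    have hmem : Finsupp.cons 0 γ ∈ aff r (m i) := mem_aff.2 ⟨Finsupp.cons_zero _ _, by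
      rw [degree_cons', zero_add]
      exact hγ⟩
    have h1 := congrFun hF ⟨i, ⟨Finsupp.cons 0 γ, hmem⟩⟩
    dsimp only at h1
    rw [Finsupp.tail_cons] at h1
    rw [← h1]
    unfold shift
    rw [map_sum, coeff_sum]
    unfold Matrix.mulVec dotProduct condMat
    refine sum_congr rfl fun α _ => ?_
    have h2 := coeff_shift_monomial (fun j => p i j.succ) (Finsupp.tail α.1) γ (F α)
    unfold shift at h2
    rw [h2]
    dsimp only
    rw [tc_tail (hp i) α.1 _ (Finsupp.cons_zero _ _), Finsupp.tail_cons]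
    ring

/-- From polynomials of bounded degree to the condition matrix. -/
theorem condMat_of_srj {d : ℕ} {ι : Type*} [Fintype ι] {x : ι → Fin r → ℂ} {m : ι → ℕ}
    (h : Srj r d univ x m) :
    Function.Surjective (condMat r d (fun i => Fin.cons 1 (x i)) m).mulVec := by
  classical
  intro v
  obtain ⟨f, hf, h1⟩ := h fun i γ =>
    if h : Finsupp.cons 0 γ ∈ aff r (m i) then v ⟨i, ⟨Finsupp.cons 0 γ, h⟩⟩ else 0
  refine ⟨fun α => coeff (Finsupp.tail α.1) f, ?_⟩
  funext z
  obtain ⟨i, β, hβ⟩ := z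
  obtain ⟨hβ0, hβm⟩ := mem_aff.1 hβ
  have hcons : Finsupp.cons 0 (Finsupp.tail β) = β := by
    rw [← hβ0]
    exact Finsupp.cons_tail β
  have hdeg : (Finsupp.tail β).degree < m i := by
    have := degree_tail β
    omega
  have h2 := h1 i (mem_univ i) (Finsupp.tail β) hdeg
  have hmem : Finsupp.cons 0 (Finsupp.tail β) ∈ aff r (m i) := by
    rw [hcons]
    exact hβ
  rw [dif_pos hmem] at h2
  have h3 : v ⟨i, ⟨Finsupp.cons 0 (Finsupp.tail β), hmem⟩⟩ = v ⟨i, ⟨β, hβ⟩⟩ := by
    congr 3
  rw [h3] at h2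
  rw [← h2, coeff_shift]
  unfold Matrix.mulVec dotProduct condMat
  dsimp only
  have h4 : ∀ α : mons (r + 1) d, tc (Fin.cons 1 (x i)) α.1 β * coeff (Finsupp.tail α.1) f =
      (fun δ => coeff δ f * tc (x i) δ (Finsupp.tail β)) (Finsupp.tail α.1) := by
    intro α
    rw [tc_tail (Fin.cons_zero _ _) α.1 β hβ0, mul_comm]
    rfl
  rw [sum_congr rfl fun α _ => h4 α]
  symm
  have hdf : ∀ δ ∈ f.support, δ.degree ≤ d := by
    intro δ hδ
    have h5 := le_totalDegree hδ
    have h6 : (δ.sum fun _ e => e) = δ.degree := rfl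
    rw [h6] at h5
    omega
  refine sum_bij_ne_zero (fun δ hδ _ => (⟨Finsupp.cons (d - δ.degree) δ, mem_mons.2 (by
      rw [degree_cons']
      have := hdf δ hδ
      omega)⟩ : mons (r + 1) d)) (fun _ _ _ => mem_univ _) ?_ ?_ ?_
  · intro δ hδ _ δ' hδ' _ he
    have h5 := congrArg (fun z : mons (r + 1) d => Finsupp.tail z.1) he
    simpa [Finsupp.tail_cons] using h5
  · intro α _ hα
    have h5 : coeff (Finsupp.tail α.1) f ≠ 0 := fun h => hα (by
      dsimp only
      rw [h, zero_mul])
    refine ⟨Finsupp.tail α.1, mem_support_iff.2 h5, hα, ?_⟩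
    apply Subtype.ext
    dsimp only
    have h6 := degree_tail α.1
    have h7 := mem_mons.1 α.2
    have h8 : d - (Finsupp.tail α.1).degree = α.1 0 := by omega
    rw [h8]
    exact Finsupp.cons_tail α.1
  · intro δ hδ _
    dsimp only
    rw [Finsupp.tail_cons]

/-- The vertices of the cube. -/
theorem srj_grid (hr : 1 ≤ r) (a : ℕ) :
    ∃ X' : (Fin r → Fin 2) → Fin r → ℂ, Srj r (2 * (a - 1) + r) univ X' fun _ => a := by
  have hζ : IsPrimitiveRoot (-1 : ℂ) 2 := IsPrimitiveRoot.neg_one 0 (by norm_num)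
  have h1 := grid_surjective (r := r) (s := 2) (2 * (a - 1) + r) hr (by norm_num) hζ
  refine ⟨_, (srj_of_condMat (fun b => gridPt_zero (-1) b) h1).mono le_rfl fun b _ => ?_⟩
  refine le_perf (by norm_num) b ?_
  have h2 : gsum b ≤ r := by
    unfold gsum
    calc ∑ j, (b j : ℕ) ≤ ∑ _j : Fin r, 1 := sum_le_sum fun j _ => by omega
      _ = r := by simp
  omega

end Pool.Agent.H74.KV

end
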