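import Pool.Agent.H94.LP4.M27
import Pool.Agent.H94.LP4.M30
import Pool.Agent.H94.LP4.M35
import Pool.Agent.H94.LP4.M36
import Pool.Agent.H94.LP4.M47
import Pool.Agent.H94.LP4.M49
import Pool.Agent.H94.LP4.M59

/-! The parts of this file: H18.Ex.Sched_1, H18.Pr.FinN_1, H18.Pr.MainN_2, H18.Pr.MainN_1. -/

section

/-!
# Module Sched: existence of the schedule
-/

namespace Pool.Agent.H18.Ex

open Finset

section

variable {ι : Type} [Fintype ι] [DecidableEq ι]

/-- `round_good` for an admissible state. -/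
private theorem SchedX_round {n M D' q b : ℕ} (hn : 1 ≤ n) (hM : 1 ≤ M)
    (hq : 32 * M * (n + 1) ^ 3 ≤ q)
    (hb1 : D' ≤ b) (hb2 : 2 * (n + 1) ^ 2 * (M * (n + 1) + 2 * ell (n + 1) M + 2) ≤ b)
    (hb3 : 16 * M ^ 2 * ell n M ^ 2 ≤ b) {o : ι} {w : ι → ℕ}
    (hcard : (univ.filter fun i => 0 < w i).card = n + 2) (ho : 0 < w o)
    {s : ℕ} {v : ι → ℕ} (hst : SchedX_St b o w s v) {φ : ι → ℕ} (hφ : SchedX_Ph M o w s v φ)
    (k : ι → ℕ) (hk : ∀ i, q * k i ≤ v i) (hkσ : ∀ i, q * k i ≤ s) (hko : k o = 0)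
    (L : List ι) (hL : ∀ i, L.count i ≤ k i) :
    Good n M (Fat n D') L s v φ ∧
    (∀ i, i ≠ o → 0 < w i → 1 ≤ L.count i →
      4 * M * eph n M L s v φ i ≤ (4 * M - 3) * fc (s - L.length) (ew L v) i) ∧
    (∀ i, L.count i = 0 → eph n M L s v φ i = φ i) ∧
    (∀ i, i ≠ o → 0 < w i →
      (8 * M - 1) * fc s v i ≤ 8 * M * fc (s - L.length) (ew L v) i) := by
  have hcard' : (univ.filter fun i => 0 < v i).card = n + 2 := by
    rw [← hcard]
    congr 1
    ext i
    simp only [mem_filter, mem_univ, true_and]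
    exact hst.act i
  have h := round_good n M D' q b hn hM hq hb1 hb2 hb3 o s v k hcard' ((hst.act o).2 ho) hst.hvo
    hk hkσ hko (fun i hi => hst.hvb i ((hst.act i).1 hi)) hst.hsb
    (fun l hl hvl => hst.hτ l hl ((hst.act l).1 hvl)) φ
    (fun i hi hvi => hφ.h1 i hi ((hst.act i).1 hvi))
    (fun i hi => hφ.h2 i (hi.imp id (fun h0 => by
      by_contra hne
      have := (hst.act i).2 (Nat.pos_of_ne_zero hne)
      omega))) L hL
  refine ⟨h.1, fun i hi hwi hc => h.2.1 i hi ((hst.act i).2 hwi) hc, h.2.2.1,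
    fun i hi hwi => h.2.2.2 i hi ((hst.act i).2 hwi)⟩

omit [Fintype ι] in
private theorem SchedX_rk_le (q : ℕ) (o : ι) (s : ℕ) (v : ι → ℕ) (i : ι) :
    q * rk q o s v i ≤ v i ∧ q * rk q o s v i ≤ s ∧ rk q o s v i ≤ v i := by
  unfold rk
  split_ifs with h
  · simp
  · have h1 : q * (min (v i) s / q) ≤ min (v i) s := Nat.mul_div_le _ _
    have h2 : min (v i) s / q ≤ min (v i) s := Nat.div_le_self _ _
    exact ⟨h1.trans (min_le_left _ _), h1.trans (min_le_right _ _), h2.trans (min_le_left _ _)⟩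

private theorem SchedX_rounds (n M D' q b B : ℕ) (hn : 1 ≤ n) (hM : 1 ≤ M)
    (hq : 32 * M * (n + 1) ^ 3 ≤ q) (hqB : q ≤ B) (hB : 1 ≤ B) (hq0 : 0 < q)
    (hbB : 2 * b ≤ B) (hb1 : D' ≤ b)
    (hb2 : 2 * (n + 1) ^ 2 * (M * (n + 1) + 2 * ell (n + 1) M + 2) ≤ b)
    (hb3 : 16 * M ^ 2 * ell n M ^ 2 ≤ b) (o : ι) (w : ι → ℕ)
    (hcard : (univ.filter fun i => 0 < w i).card = n + 2) (ho : 0 < w o)
    (hwo : ∀ i, w i ≤ w o) (s : ℕ) (w' : ι → ℕ) (hw' : ∀ i, w' i ≤ w i) (hw'o : w' o = w o)
    (hτ : ∀ l, l ≠ o → 0 < w l → s + b ≤ ∑ i ∈ univ.erase l, w' i) (φ : ι → ℕ)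
    (hφ : SchedX_Ph M o w s w' φ) (T : ℕ)
    (hT : ∀ t ≤ T, B ≤ ((rnd q o)^[t] (s, w')).1 ∧
      ∀ i, 0 < w i → B ≤ ((rnd q o)^[t] (s, w')).2 i) :
    ∀ t ≤ T, ∃ L : List ι, (∀ i ∈ L, i ∈ dirs o w) ∧ Good n M (Fat n D') L s w' φ ∧
      s - L.length = ((rnd q o)^[t] (s, w')).1 ∧ ew L w' = ((rnd q o)^[t] (s, w')).2 ∧
      SchedX_Ph M o w ((rnd q o)^[t] (s, w')).1 ((rnd q o)^[t] (s, w')).2
        (eph n M L s w' φ) ∧
      SchedX_St b o w ((rnd q o)^[t] (s, w')).1 ((rnd q o)^[t] (s, w')).2 := by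
  intro t
  induction t with
  | zero =>
    intro ht
    have h0 := hT 0 ht
    simp only [Function.iterate_zero, id_eq] at h0 ⊢
    refine ⟨[], by simp, trivial, by simp, ?_, hφ, ?_, ?_, ?_, ?_, hτ⟩
    · funext i
      simp [ew]
    · intro i
      constructor
      · intro h
        exact h.trans_le (hw' i)
      · intro h
        have := h0.2 i h
        omega
    · intro i
      rw [hw'o]
      exact (hw' i).trans (hwo i)
    · intro i hi
      exact hbB.trans (h0.2 i hi)
    · exact hbB.trans h0.1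
  | succ t ih =>
    intro ht
    obtain ⟨L, hLd, hLg, hLl, hLe, hph, hst⟩ := ih (by omega)
    have ht1 := hT (t + 1) ht
    have ht0 := hT t (by omega)
    rw [Function.iterate_succ_apply'] at ht1 ⊢
    set p := (rnd q o)^[t] (s, w') with hp
    set k := rk q o p.1 p.2 with hk
    have hkp : ∀ i, q * k i ≤ p.2 i ∧ q * k i ≤ p.1 ∧ k i ≤ p.2 i := fun i =>
      SchedX_rk_le q o p.1 p.2 i
    have hko : k o = 0 := by
      rw [hk]
      unfold rk
      rw [if_pos rfl]
    have hr1 : (rnd q o p).1 = p.1 - ∑ i, k i := rfl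
    have hr2 : (rnd q o p).2 = fun i => p.2 i - k i := rfl
    set R : List ι := (dirs o w).flatMap fun x => List.replicate (k x) x with hR
    have hRc : ∀ i, R.count i = k i := by
      intro i
      rw [hR, SchedX_count_flat _ (SchedX_nodup o w)]
      split_ifs with h
      · rfl
      · rw [SchedX_mem_dirs] at h
        by_cases hio : i = o
        · rw [hio, hko]
        · have h3 : w i = 0 := by
            by_contra hne
            exact h ⟨Nat.pos_of_ne_zero hne, hio⟩
          have h4 : p.2 i = 0 := by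
            by_contra hne
            have := (hst.act i).1 (Nat.pos_of_ne_zero hne)
            omega
          have h5 := (hkp i).2.2
          omega
    have hRd : ∀ i ∈ R, i ∈ dirs o w := by
      intro i hi
      rw [hR, List.mem_flatMap] at hi
      obtain ⟨x, hx, hix⟩ := hi
      rw [List.mem_replicate] at hix
      rw [hix.2]
      exact hx
    have hRl : R.length = ∑ i, k i := by
      rw [SchedX_length]
      exact sum_congr rfl fun i _ => hRc i
    have hrd := SchedX_round hn hM hq hb1 hb2 hb3 hcard ho hst hph k (fun i => (hkp i).1)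
      (fun i => (hkp i).2.1) hko R (fun i => (hRc i).le)
    have hew : ew R p.2 = (rnd q o p).2 := by
      rw [hr2]
      funext i
      unfold ew
      rw [hRc]
    have hsl : p.1 - R.length = (rnd q o p).1 := by rw [hr1, hRl]
    refine ⟨L ++ R, ?_, ?_, ?_, ?_, ?_, ?_⟩
    · intro i hi
      rcases List.mem_append.1 hi with h | h
      · exact hLd i h
      · exact hRd i h
    · rw [Good.append]
      refine ⟨hLg, ?_⟩
      rw [hLl, hLe]
      exact hrd.1
    · rw [List.length_append, ← Nat.sub_sub, hLl, hsl]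
    · rw [ew_append, hLe, hew]
    · rw [eph_append, hLl, hLe]
      constructor
      · intro i hio hwi
        have hk1 : 1 ≤ k i := by
          rw [hk]
          unfold rk
          rw [if_neg hio]
          rw [Nat.le_div_iff_mul_le hq0, one_mul]
          exact le_min (hqB.trans (ht0.2 i hwi)) (hqB.trans ht0.1)
        have h1 := hrd.2.1 i hio hwi (by rw [hRc]; exact hk1)
        rw [hsl, hew] at h1
        have h2 : (4 * M - 3) * fc (rnd q o p).1 (rnd q o p).2 i ≤
            2 * ((2 * M - 1) * fc (rnd q o p).1 (rnd q o p).2 i) := by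
          rw [← mul_assoc]
          apply Nat.mul_le_mul_right
          omega
        have h3 : 2 * (2 * M * eph n M R p.1 p.2 (eph n M L s w' φ) i) =
            4 * M * eph n M R p.1 p.2 (eph n M L s w' φ) i := by ring
        omega
      · intro i hi
        have hki : R.count i = 0 := by
          rw [hRc]
          rcases hi with hi | hi
          · rw [hi, hko]
          · have h4 : p.2 i = 0 := by
              by_contra hne
              have := (hst.act i).1 (Nat.pos_of_ne_zero hne)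
              omega
            have h5 := (hkp i).2.2
            omega
        rw [hrd.2.2.1 i hki]
        exact hph.h2 i hi
    · have hpos : ∑ i, k i ≤ p.1 := by
        have h1 := ht1.1
        rw [hr1] at h1
        omega
      refine ⟨?_, ?_, ?_, ?_, ?_⟩
      · intro i
        constructor
        · intro h
          rw [hr2] at h
          apply (hst.act i).1
          simp only at h
          omega
        · intro h
          have := ht1.2 i h
          omega
      · intro i
        rw [hr2]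
        simp only
        rw [hko]
        have := hst.hvo i
        omega
      · intro i hi
        exact hbB.trans (ht1.2 i hi)
      · exact hbB.trans ht1.1
      · intro l hl hwl
        have h1 := hst.hτ l hl hwl
        rw [hr1, hr2]
        simp only
        have h2 : ∑ i ∈ univ.erase l, (p.2 i - k i) + ∑ i ∈ univ.erase l, k i =
            ∑ i ∈ univ.erase l, p.2 i := by
          rw [← sum_add_distrib]
          apply sum_congr rfl
          intro i _
          have := (hkp i).2.2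
          omega
        have h3 : ∑ i ∈ univ.erase l, k i ≤ ∑ i, k i :=
          sum_le_sum_of_subset (subset_univ _)
        omega

end

/-- The required width of the schedule. -/
def cD (n M D' C : ℕ) : ℕ :=
  cD0 n M (cq n M) C (cB n M D' C) + 2 * cB n M D' C + 2 * M + 2

/-- The schedule.

`q = 32 M (n+1)³`, `b = D' + 2 (n+1)² (M (n+1) + 2 ell (n+1) M + 2) + 16 M² (ell n M)² + C`,
`B = 2 b + 2 q (M + 1) + ...`, `D` from `rounds_exist` and `D ≥ 2 B + 2 M + ...`.
For `Nrm (n+1) D o σ w` and active `l ≠ o`: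
`2 (∑_{i ≠ l} w i - σ) ≥ (w o - w l) + ∑_{i ≠ o, l} w i ≥ n D ≥ D`, which gives `hτ` of `round_good` with
`b ≤ D / 2` (and the difference does not decrease along the way).
(a) `C ≤ fc σ w ls`: `card_ge` for the facet.
(b), (c): `round_good` at `(σ, w)` with `k = (M + 1)` at `ls`, `0` elsewhere, `φ = 0`.
(d): let `T` be given by `rounds_exist` for `σ' = σ - j`, `w' = update w ls (w ls - j)`.
`L` = the concatenation of the rounds `0, …, T - 1`, the `t`-th round being
`(dirs o w).flatMap fun i => replicate (rk … i) i`; by induction on the number of rounds,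
using `Good.append`, `eph_append`, `ew_append` and `round_good` for each round: all
`rk … i ≥ 1` for `i ∈ dirs o w`, so after every round `4 M eph i ≤ (4 M - 3) fc i`, which implies
`2 M eph i ≤ (2 M - 1) fc i`.  Finally `clean M (dirs o w)` is one more (short) round with
`k i = M + 1` (`q * (M + 1) ≤ B`). -/
theorem schedule (n M D' C : ℕ) (hn : 1 ≤ n) (hM : 1 ≤ M) (hC : 1 ≤ C) :
    ∀ (ι : Type) [Fintype ι] [DecidableEq ι] (o ls : ι) (σ : ℕ) (w : ι → ℕ),
      Nrm (n + 1) (cD n M D' C) o σ w → ls ≠ o → 0 < w ls →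
      (∀ i, i ≠ o → 0 < w i → w ls ≤ w i) →
      C ≤ fc σ w ls ∧
      Good n M (Fat n D') (List.replicate (M + 1) ls) σ w (fun _ => 0) ∧
      (∀ j, 1 ≤ j → j ≤ M + 1 → 4 * M * eph n M (List.replicate j ls) σ w (fun _ => 0) ls ≤
        (4 * M - 3) * fc (σ - j) (Function.update w ls (w ls - j)) ls) ∧
      (∀ j, j ≤ M + 1 → (8 * M - 1) * fc σ w ls ≤
        8 * M * fc (σ - j) (Function.update w ls (w ls - j)) ls) ∧
      (∀ j, j ≤ M → ∀ φ : ι → ℕ, (∀ i, i ≠ ls → φ i = 0) →
        2 * M * φ ls ≤ (2 * M - 1) * fc (σ - j) (Function.update w ls (w ls - j)) ls →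
        ∃ L : List ι, (∀ i ∈ L, i ∈ dirs o w) ∧
          Good n M (Fat n D') (L ++ clean M (dirs o w)) (σ - j)
            (Function.update w ls (w ls - j)) φ ∧
          C * (Rg (σ - j - L.length) (ew L (Function.update w ls (w ls - j)))).card ≤
            fc σ w ls ∧
          ∑ i, eph n M L (σ - j) (Function.update w ls (w ls - j)) φ i ≤
            (n + 1) * (Rg (σ - j - L.length) (ew L (Function.update w ls (w ls - j)))).card) := by
  set q : ℕ := 32 * M * (n + 1) ^ 3 with hqdef
  set b : ℕ := D' + 2 * (n + 1) ^ 2 * (M * (n + 1) + 2 * ell (n + 1) M + 2) +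
    16 * M ^ 2 * ell n M ^ 2 + C with hbdef
  set B : ℕ := 2 * b + q * (M + 1) + 1 with hBdef
  have hq0 : 0 < q := by positivity
  have hqN : 2 * (n + 1) ≤ q := by
    have h1 : 1 ≤ (n + 1) ^ 2 := Nat.one_le_pow _ _ (by omega)
    calc 2 * (n + 1) = 2 * (n + 1) * 1 := by ring
      _ ≤ 2 * (n + 1) * (16 * M * (n + 1) ^ 2) := by
        apply Nat.mul_le_mul_left
        nlinarith only [hM, h1]
      _ = q := by rw [hqdef]; ring
  have hb1 : D' ≤ b := by omega
  have hb2 : 2 * (n + 1) ^ 2 * (M * (n + 1) + 2 * ell (n + 1) M + 2) ≤ b := by omega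
  have hb3 : 16 * M ^ 2 * ell n M ^ 2 ≤ b := by omega
  have hbC : C ≤ b := by omega
  have hD₀ := rounds_exist n M q C B hn hqN hC
  intro ι _ _ o ls σ w hN hlso hls hthin
  have hcD : cD n M D' C = cD0 n M q C B + 2 * B + 2 * M + 2 := rfl
  rw [hcD] at hN
  set D₀ := cD0 n M q C B with hD₀def
  have hNrm0 : Nrm (n + 1) D₀ o σ w :=
    ⟨hN.hcard, hN.ho, hN.hwo, hN.hwσ, hN.hσ, fun i hi => by have := hN.hD i hi; omega⟩
  have hcard : (univ.filter fun i => 0 < w i).card = n + 2 := hN.hcard
  have hwoD := hN.hD o hN.ho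
  have hσD := hwoD.trans (hN.hwσ o)
  have hlsD := hN.hD ls hls
  have hqM : q * (M + 1) ≤ B := by omega
  have hthird : ∀ l, ∃ i, 0 < w i ∧ i ≠ o ∧ i ≠ l := by
    intro l
    by_contra hcon
    push Not at hcon
    have h3 : (univ.filter fun i => 0 < w i) ⊆ {o, l} := by
      intro i hi
      rw [mem_filter] at hi
      rw [mem_insert, mem_singleton]
      by_cases h : i = o
      · exact Or.inl h
      · exact Or.inr (hcon i hi.2 h)
    have h4 := card_le_card h3
    have h5 := card_le_two (a := o) (b := l)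
    omega
  have hτ : ∀ l, l ≠ o → 0 < w l → σ + b ≤ ∑ i ∈ univ.erase l, w i := by
    intro l hl hwl
    have h1 : w l + ∑ i ∈ univ.erase l, w i = ∑ i, w i := add_sum_erase _ _ (mem_univ l)
    have h2 := hN.hσ
    obtain ⟨i, hi, hio, hil⟩ := hthird l
    have h6 : w o + w i ≤ ∑ i ∈ univ.erase l, w i := by
      rw [← sum_pair (Ne.symm hio)]
      apply sum_le_sum_of_subset
      intro x hx
      rw [mem_insert, mem_singleton] at hx
      rw [mem_erase]
      refine ⟨?_, mem_univ _⟩
      rcases hx with hx | hx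
      · rw [hx]
        exact hl.symm
      · rw [hx]
        exact hil
    have h7 := hN.hD i hi
    have h8 := hN.hwo l
    omega
  have hst0 : SchedX_St b o w σ w :=
    ⟨fun _ => Iff.rfl, hN.hwo, fun i hi => by have := hN.hD i hi; omega, by omega, hτ⟩
  have hph0 : SchedX_Ph M o w σ w (fun _ => 0) :=
    ⟨fun i _ _ => by simp, fun i _ => rfl⟩
  have hrep : ∀ j, j ≤ M + 1 → _ := fun j hj =>
    SchedX_round (D' := D') (q := q) hn hM le_rfl hb1 hb2 hb3 hcard hN.ho hst0 hph0
      (fun i => if i = ls then M + 1 else 0)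
      (fun i => by
        split_ifs with h
        · rw [h]; omega
        · simp)
      (fun i => by
        split_ifs with h
        · omega
        · simp) (if_neg (Ne.symm hlso)) (List.replicate j ls)
      (fun i => by
        rw [List.count_replicate]
        by_cases h : i = ls
        · simp [h, hj]
        · have h' : ls ≠ i := fun e => h e.symm
          simp [h, h'])
  have hewr : ∀ j, ew (List.replicate j ls) w = Function.update w ls (w ls - j) := by
    intro j
    funext i
    unfold ew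
    rw [List.count_replicate]
    by_cases h : i = ls
    · subst h
      simp
    · have h' : ls ≠ i := fun e => h e.symm
      simp [h, h']
  refine ⟨?_, (hrep (M + 1) le_rfl).1, ?_, ?_, ?_⟩
  · obtain ⟨i, hi, hio, hil⟩ := hthird ls
    have h1 : Function.update w ls 0 o = w o := Function.update_of_ne hlso.symm _ _
    have h2 : Function.update w ls 0 i = w i := Function.update_of_ne hil _ _
    have h3 : ∑ x, Function.update w ls 0 x = ∑ x ∈ univ.erase ls, w x := by
      rw [← add_sum_erase univ _ (mem_univ ls), Function.update_self, zero_add]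
      apply sum_congr rfl
      intro x hx
      exact Function.update_of_ne (ne_of_mem_erase hx) _ _
    have h4 := card_ge σ (Function.update w ls 0) b o i hio.symm (by rw [h1]; omega)
      (by rw [h2]; have := hN.hD i hi; omega) (by omega)
      (by rw [h3]; exact hτ ls hlso hls)
    unfold fc
    omega
  · intro j hj1 hj2
    have h1 := (hrep j hj2).2.1 ls hlso hls (by
      rw [List.count_replicate_self]; exact hj1)
    rwa [List.length_replicate, hewr] at h1
  · intro j hj
    have h1 := (hrep j hj).2.2.2 ls hlso hls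
    rwa [List.length_replicate, hewr] at h1
  · intro j hj φ hφ0 hφ1
    set s := σ - j with hs
    set w' := Function.update w ls (w ls - j) with hw'
    have hw'le : ∀ i, w' i ≤ w i := by
      intro i
      rw [hw']
      by_cases h : i = ls
      · rw [h, Function.update_self]
        omega
      · rw [Function.update_of_ne h]
    have hw'ge : ∀ i, w i ≤ w' i + (if i = ls then j else 0) := by
      intro i
      rw [hw']
      by_cases h : i = ls
      · rw [h, Function.update_self, if_pos rfl]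
        omega
      · rw [Function.update_of_ne h]
        omega
    have hw'o : w' o = w o := Function.update_of_ne hlso.symm _ _
    have hτ' : ∀ l, l ≠ o → 0 < w l → s + b ≤ ∑ i ∈ univ.erase l, w' i := by
      intro l hl hwl
      have h1 := hτ l hl hwl
      have h2 : ∑ i ∈ univ.erase l, w i ≤ ∑ i ∈ univ.erase l, w' i + j := by
        calc ∑ i ∈ univ.erase l, w i
            ≤ ∑ i ∈ univ.erase l, (w' i + (if i = ls then j else 0)) :=
              sum_le_sum fun i _ => hw'ge i
          _ = ∑ i ∈ univ.erase l, w' i + ∑ i ∈ univ.erase l, (if i = ls then j else 0) :=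
              sum_add_distrib
          _ ≤ ∑ i ∈ univ.erase l, w' i + j := by
            apply Nat.add_le_add_left
            rw [sum_ite_eq']
            split_ifs <;> omega
      omega
    have hph' : SchedX_Ph M o w s w' φ := by
      constructor
      · intro i hio hwi
        by_cases h : i = ls
        · rw [h]
          exact hφ1
        · rw [hφ0 i h]
          simp
      · intro i hi
        apply hφ0
        rintro rfl
        rcases hi with hi | hi
        · exact hlso hi
        · omega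
    obtain ⟨T, hT1, hT2⟩ := hD₀ ι o ls σ w hNrm0 hlso hls hthin s w' (by omega) (by omega)
      (fun i => by
        have := hw'ge i
        split_ifs at this <;> omega) hw'le
    obtain ⟨L, hLd, hLg, hLl, hLe, hph, hst⟩ := SchedX_rounds n M D' q b B hn hM le_rfl
      (by nlinarith only [hBdef]) (by omega) hq0 (by omega) hb1 hb2 hb3 o w hcard hN.ho hN.hwo s w' hw'le
      hw'o hτ' φ hph' T hT2 T le_rfl
    have hpT := hT2 T le_rfl
    set p := (rnd q o)^[T] (s, w') with hp
    have hcl := SchedX_round (q := q) hn hM le_rfl hb1 hb2 hb3 hcard hN.ho hst hph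
      (fun i => if i ∈ dirs o w then M + 1 else 0)
      (fun i => by
        split_ifs with h
        · rw [SchedX_mem_dirs] at h
          exact hqM.trans (hpT.2 i h.1)
        · simp)
      (fun i => by
        split_ifs with h
        · exact hqM.trans hpT.1
        · simp)
      (if_neg (by rw [SchedX_mem_dirs]; simp)) (clean M (dirs o w))
      (fun i => (SchedX_count_flat (dirs o w) (SchedX_nodup o w) (fun _ => M + 1) i).le)
    refine ⟨L, hLd, ?_, ?_, ?_⟩
    · rw [Good.append]
      refine ⟨hLg, ?_⟩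
      rw [hLl, hLe]
      exact hcl.1
    · rw [hLl, hLe]
      exact hT1
    · rw [hLl, hLe]
      have h1 : ∑ i, eph n M L s w' φ i =
          ∑ i ∈ (univ.filter fun i => 0 < w i).erase o, eph n M L s w' φ i := by
        symm
        apply sum_subset (subset_univ _)
        intro i _ hi
        apply hph.h2
        rw [mem_erase, mem_filter] at hi
        by_cases h : i = o
        · exact Or.inl h
        · right
          by_contra hne
          exact hi ⟨h, mem_univ _, Nat.pos_of_ne_zero hne⟩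
      have h2 : ((univ.filter fun i => 0 < w i).erase o).card = n + 1 := by
        rw [card_erase_of_mem (by rw [mem_filter]; exact ⟨mem_univ _, hN.ho⟩), hcard]
        rfl
      rw [h1, ← h2]
      rw [← smul_eq_mul]
      apply sum_le_card_nsmul
      intro i hi
      rw [mem_erase, mem_filter] at hi
      have h3 := hph.h1 i hi.1 hi.2.2
      have h4 := fc_le p.1 p.2 i
      have h5 : 2 * M * eph n M L s w' φ i ≤ 2 * M * fc p.1 p.2 i :=
        h3.trans (Nat.mul_le_mul_right _ (by omega))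
      exact (Nat.le_of_mul_le_mul_left h5 (by omega)).trans h4

end Pool.Agent.H18.Ex

end

section

/-!
# Module FinN: the two endings (abstract version, traces of dimension `n`)
-/

namespace Pool.Agent.H18.Pr

open Finset Pool.Agent.H18.Ex Pool.Agent.H18.Cub

variable {Λ : Type} [Fintype Λ] [DecidableEq Λ] {n : ℕ}

/-- Ending (A). -/
theorem ending_AN (Y : SysN Λ n) (M : ℕ) (hn : 1 ≤ n) (hM : 1 ≤ M) (dirs L : List Λ) (hd : dirs ≠ [])
    (hLd : ∀ l ∈ L, l ∈ dirs) (a φ : Λ → ℕ)
    (hG : GoodN Y M (L ++ clean M dirs) a φ)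
    (hfull : FullN Y (ew (L ++ clean M dirs) a))
    (c : Cfg Λ) (hc : c.OK M) (htr : ∀ l, c.tr n l ≤ φ l) (hsz : Y.R a ≤ c.sz n)
    (hΦ : ∀ l ∉ dirs, c.Φ l = 0)
    (hs : (c.sz n : ℤ) + Y.R (ew L a) < c.s + Y.R a) :
    Y.K a c.kinds := by
  rw [GoodN.append] at hG
  rw [ew_append'] at hfull
  obtain ⟨hG1, hG2⟩ := hG
  obtain ⟨c₁, hc₁, hGM₁, htr₁, hsz₁, hs₁, -, -, -, -, hcnt₁⟩ :=
    runN Y M hn hM L a φ hG1 c hc htr hsz
  apply hGM₁
  have hN₁ : c₁.N.card < g0 n M := by
    rcases hs₁ with h | h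
    · exfalso
      have h1 : c₁.s ≤ c₁.sz n := by
        unfold Cfg.sz Cfg.nsz
        omega
      omega
    · exact h
  set a₁ := ew L a with ha₁
  set φ₁ := ephN Y M L a φ with hφ₁
  obtain ⟨d, ds, rfl⟩ := List.exists_cons_of_ne_nil hd
  have hclean : clean M (d :: ds) = [d] ++ (List.replicate M d ++ clean M ds) := by
    unfold clean
    rw [List.flatMap_cons, List.replicate_succ]
    rfl
  rw [hclean, GoodN.append] at hG2
  rw [hclean, ew_append'] at hfull
  obtain ⟨hG3, hG4⟩ := hG2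
  obtain ⟨c₂, hc₂, hGM₂, htr₂, hsz₂, -, -, hN₂, -, -, hcnt₂⟩ :=
    runN Y M hn hM [d] a₁ φ₁ hG3 c₁ hc₁ htr₁ (by omega)
  apply hGM₂
  have hN₂' : c₂.N = 0 := hN₂ (List.cons_ne_nil d []) hN₁
  obtain ⟨c₃, hc₃, hGM₃, -, hsz₃, -, -, -, hz₃, -, -⟩ :=
    runN Y M hn hM (List.replicate M d ++ clean M ds) _ _ hG4 c₂ hc₂ htr₂ (by omega)
  apply hGM₃
  obtain ⟨hN₃, hΦ₃⟩ := hz₃ hN₂'
  have hΦ₃' : ∀ l, c₃.Φ l = 0 := by
    intro l
    rw [hΦ₃ l]
    by_cases hl : l ∈ d :: ds
    · have hcount : M ≤ (List.replicate M d ++ clean M ds).count l := by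
        rw [List.count_append]
        rcases List.mem_cons.1 hl with h | h
        · subst h
          rw [List.count_replicate_self]
          exact Nat.le_add_right _ _
        · have := fin_count_clean M ds l h
          omega
      apply shf_iterate_eq_zero hcount
      intro x hx
      have := hc₂.hΦ l x hx
      exact ⟨this.1, this.2.2.1, this.2.2.2⟩
    · have h1 : L.count l = 0 := List.count_eq_zero_of_not_mem fun h => hl (hLd l h)
      have h2 : c₁.Φ l = 0 := by rw [hcnt₁ l h1, hΦ l hl]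
      have h3 : [d].count l = 0 := by
        apply List.count_eq_zero_of_not_mem
        intro h
        rw [List.mem_singleton] at h
        exact hl (h ▸ List.mem_cons_self)
      rw [hcnt₂ l h3, h2]
      apply fin_shf_aux
      intro x hx
      exact absurd hx (Multiset.notMem_zero x)
  rw [fin_kinds_simple hN₃ hΦ₃']
  apply hfull.of_card
  · intro m hm
    rw [Multiset.eq_of_mem_replicate hm]
  · rw [Multiset.card_replicate]
    have h1 : c₃.sz n = c₃.s := by
      unfold Cfg.sz Cfg.nsz Cfg.fl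
      rw [hN₃, Finset.sum_eq_zero (fun l _ => by rw [hΦ₃' l, Multiset.map_zero,
        Multiset.sum_zero])]
      simp
    omega

/-- Ending (B). -/
theorem ending_BN (Y : SysN Λ n) (M : ℕ) (hn : 1 ≤ n) (hM : 1 ≤ M) (L : List Λ) (a φ : Λ → ℕ)
    (hG : GoodN Y M L a φ) (hfull : FullN Y (ew L a))
    (c : Cfg Λ) (hc : c.OK M) (htr : ∀ l, c.tr n l ≤ φ l)
    (hs : (ell (n + 1) M : ℤ) * Y.R (ew L a) + ((M * ∑ l, ephN Y M L a φ l : ℕ) : ℤ) + Y.R a ≤
      c.sz n + Y.R (ew L a)) (hsz : Y.R a ≤ c.sz n) :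
    Y.K a c.kinds := by
  obtain ⟨c₁, hc₁, hGM₁, htr₁, hsz₁, -, -, -, -, -, -⟩ := runN Y M hn hM L a φ hG c hc htr hsz
  apply hGM₁
  have hfl : ∑ l, c₁.fl n l ≤ M * ∑ l, ephN Y M L a φ l := by
    rw [Finset.mul_sum]
    refine Finset.sum_le_sum fun l _ => ?_
    exact le_trans (Cfg.fl_le n M c₁ hc₁ l) (Nat.mul_le_mul_left _ (htr₁ l))
  have hszdef : c₁.sz n = c₁.nsz n + ∑ l, c₁.fl n l := rfl
  have hN : (c₁.N.map (ell (n + 1))).sum ≤ ell (n + 1) M * c₁.N.card := by
    have h1 : (c₁.N.map (ell (n + 1))).sum ≤ (c₁.N.map fun _ => ell (n + 1) M).sum := by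
      apply Multiset.sum_map_le_sum_map
      intro m hm
      exact ell_mono _ (hc₁.hN m hm).2
    rw [Multiset.map_const', Multiset.sum_replicate, smul_eq_mul, Nat.mul_comm] at h1
    exact h1
  have hell := ell_pos (n + 1) hM
  have hnsz : c₁.nsz n ≤ ell (n + 1) M * (c₁.N.card + c₁.s) := by
    unfold Cfg.nsz
    rw [Nat.mul_add]
    have h2 : c₁.s ≤ ell (n + 1) M * c₁.s := Nat.le_mul_of_pos_left _ hell
    omega
  have hcard : Y.R (ew L a) ≤ ((c₁.N.card + c₁.s : ℕ) : ℤ) := by
    have h3 : (ell (n + 1) M : ℤ) * Y.R (ew L a) ≤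
        (ell (n + 1) M : ℤ) * ((c₁.N.card + c₁.s : ℕ) : ℤ) := by
      have h4 : ((c₁.nsz n : ℕ) : ℤ) ≤ ((ell (n + 1) M * (c₁.N.card + c₁.s) : ℕ) : ℤ) :=
        Int.ofNat_le.2 hnsz
      have h5 : ((∑ l, c₁.fl n l : ℕ) : ℤ) ≤ ((M * ∑ l, ephN Y M L a φ l : ℕ) : ℤ) :=
        Int.ofNat_le.2 hfl
      rw [Nat.cast_mul] at h4
      omega
    exact le_of_mul_le_mul_left h3 (by exact_mod_cast hell)
  have h1 : c₁.kinds = (c₁.N + Multiset.replicate c₁.s 1).map Kind.free +
      ∑ l, (c₁.Φ l).map fun x => Kind.forced l x.1 x.2 := by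
    rw [Multiset.map_add, Multiset.map_replicate]
    rfl
  rw [h1]
  apply hfull.of_card
  · intro m hm
    rw [Multiset.mem_add] at hm
    rcases hm with hm | hm
    · have := hc₁.hN m hm
      omega
    · rw [Multiset.eq_of_mem_replicate hm]
  · rw [Multiset.card_add, Multiset.card_replicate]
    exact hcard

end Pool.Agent.H18.Pr

end

section

/-!
# Module MainN: the bridging argument (abstract version, traces of dimension `n`)
-/

namespace Pool.Agent.H18.Pr

open Finset Pool.Agent.H18.Ex Pool.Agent.H18.Cub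

variable {Λ : Type} [Fintype Λ] [DecidableEq Λ] {n : ℕ}

/-- Prefix of a good list of equal directions. -/
theorem GoodN.replicate_le {Y : SysN Λ n} {M : ℕ} {l : Λ} {x y : ℕ} (hxy : x ≤ y) {a φ : Λ → ℕ}
    (h : GoodN Y M (List.replicate y l) a φ) : GoodN Y M (List.replicate x l) a φ := by
  obtain ⟨c, rfl⟩ := Nat.exists_eq_add_of_le hxy
  rw [List.replicate_add, GoodN.append] at h
  exact h.1

end Pool.Agent.H18.Pr

end

section

/-!
# Module MainN: the bridging argument (abstract version, traces of dimension `n`)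
-/

namespace Pool.Agent.H18.Pr

open Finset Pool.Agent.H18.Ex Pool.Agent.H18.Cub

variable {Λ : Type} [Fintype Λ] [DecidableEq Λ] {n : ℕ}

/-- What the schedule has to provide. -/
structure PlanN (Y : SysN Λ n) (M C : ℕ) (N : Λ → ℕ) (ls : Λ) (dirs : List Λ) : Prop where
  hls : ls ∈ dirs
  hF : C ≤ Y.F ls N
  hFR : (Y.F ls N : ℤ) ≤ Y.R N
  hrep : GoodN Y M (List.replicate (M + 1) ls) N (fun _ => 0)
  hr1 : ∀ j, 1 ≤ j → j ≤ M + 1 → 4 * M * ephN Y M (List.replicate j ls) N (fun _ => 0) ls ≤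
    (4 * M - 3) * Y.F ls (stt N ls j)
  hr2 : ∀ j, j ≤ M + 1 → (8 * M - 1) * Y.F ls N ≤ 8 * M * Y.F ls (stt N ls j)
  hsch : ∀ j, j ≤ M → ∀ φ : Λ → ℕ, (∀ i, i ≠ ls → φ i = 0) →
    2 * M * φ ls ≤ (2 * M - 1) * Y.F ls (stt N ls j) →
    ∃ L : List Λ, (∀ i ∈ L, i ∈ dirs) ∧ GoodN Y M (L ++ clean M dirs) (stt N ls j) φ ∧
      (C : ℤ) * Y.R (ew L (stt N ls j)) ≤ Y.F ls N ∧
      ((∑ i, ephN Y M L (stt N ls j) φ i : ℕ) : ℤ) ≤ (n + 1) * Y.R (ew L (stt N ls j)) ∧
      FullN Y (ew L (stt N ls j)) ∧ FullN Y (ew (L ++ clean M dirs) (stt N ls j))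

/-- The main bridging theorem. -/
theorem mainN (Y : SysN Λ n) (M : ℕ) (hn : 1 ≤ n) (hM : 1 ≤ M) (N : Λ → ℕ) (ls : Λ) (dirs : List Λ)
    (P : PlanN Y M (cC n M) N ls dirs) (G : Multiset ℕ) (hG : ∀ m ∈ G, m ≤ M)
    (hsum : Y.R N ≤ ((G.map (ell (n + 1))).sum : ℕ)) : Y.K N (G.map Kind.free) := by
  set L := ell (n + 1) M with hL
  set L' := ell n M with hL'
  obtain ⟨hls, hF, hFP, hrep, hr1, hr2, hsch⟩ := P
  have hcC : cC n M = 2 * (1 + L * M) * (L + 1) + 2 * L' * (L + 1) +
    2 * M * (L + M * (n + 1)) + 1 := rfl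
  rw [hcC] at hF hsch
  set C := 2 * (1 + L * M) * (L + 1) + 2 * L' * (L + 1) + 2 * M * (L + M * (n + 1)) + 1 with hC
  have hL1 : 1 ≤ L := ell_pos _ hM
  have hL'1 : 1 ≤ L' := ell_pos _ hM
  set F := Y.F ls N with hFdef
  set s₀ := F / C + L + 1 with hs₀
  -- ending (A)
  have endA : ∀ j ≤ M, ∀ (x : ℕ) (c : Cfg Λ), c.OK M → (∀ i, i ≠ ls → c.Φ i = 0) →
      c.tr n ls ≤ x → 2 * M * x ≤ (2 * M - 1) * Y.F ls (stt N ls j) →
      Y.R (stt N ls j) ≤ c.sz n →
      (c.sz n : ℤ) ≤ Y.R (stt N ls j) + L → s₀ ≤ c.s → Y.K (stt N ls j) c.kinds := by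
    intro j hj x c hc hΦ hx hx2 hsz1 hsz2 hs
    obtain ⟨Ls, hLs1, hLs2, hLs3, hLs4, hLs5, hLs6⟩ := hsch j hj
      (Function.update (fun _ => 0) ls x)
      (fun i hi => by rw [Function.update_of_ne hi]) (by
        rw [Function.update_self]
        exact hx2)
    refine ending_AN Y M hn hM dirs Ls ?_ hLs1 _ (Function.update (fun _ => 0) ls x) hLs2 hLs6 c hc
      ?_ hsz1 ?_ ?_
    · intro h0
      rw [h0] at hls
      exact absurd hls List.not_mem_nil
    · intro l
      by_cases h : l = ls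
      · subst h
        rw [Function.update_self]
        exact hx
      · rw [Function.update_of_ne h, tr_eq_zero (hΦ l h)]
    · intro l hl
      refine hΦ l ?_
      rintro rfl
      exact hl hls
    · have h0 : 0 ≤ Y.R (ew Ls (stt N ls j)) := by
        have := hLs5.1
        omega
      obtain ⟨r, hr⟩ := Int.eq_ofNat_of_zero_le h0
      have h1 : r ≤ F / C := by
        rw [Nat.le_div_iff_mul_le (by omega), mul_comm]
        rw [hr] at hLs3
        exact_mod_cast hLs3
      rw [hr]
      have h2 : ((s₀ : ℕ) : ℤ) ≤ c.s := by exact_mod_cast hs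
      have h3 : ((r : ℕ) : ℤ) ≤ ((F / C : ℕ) : ℤ) := by exact_mod_cast h1
      have h4 : ((s₀ : ℕ) : ℤ) = ((F / C : ℕ) : ℤ) + L + 1 := by
        rw [hs₀]
        push_cast
        ring
      change (c.sz n : ℤ) + (r : ℤ) < _
      omega
  -- ending (B)
  have endB : ∀ j ≤ M, ∀ (x : ℕ) (c : Cfg Λ), c.OK M → (∀ i, i ≠ ls → c.Φ i = 0) →
      c.tr n ls ≤ x → 2 * M * x ≤ (2 * M - 1) * Y.F ls (stt N ls j) →
      2 * M * Y.R (stt N ls j) + F ≤ 2 * M * (c.sz n : ℤ) → Y.K (stt N ls j) c.kinds := by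
    intro j hj x c hc hΦ hx hx2 hsz
    obtain ⟨Ls, hLs1, hLs2, hLs3, hLs4, hLs5, hLs6⟩ := hsch j hj
      (Function.update (fun _ => 0) ls x)
      (fun i hi => by rw [Function.update_of_ne hi]) (by
        rw [Function.update_self]
        exact hx2)
    rw [GoodN.append] at hLs2
    have h2M : 0 < 2 * M := by omega
    have h2M' : (0 : ℤ) < 2 * M := by exact_mod_cast h2M
    set e := Y.R (ew Ls (stt N ls j)) with he
    have h0 : 0 ≤ e := by
      have := hLs5.1
      omega
    refine ending_BN Y M hn hM Ls _ (Function.update (fun _ => 0) ls x) hLs2.1 hLs5 c hc ?_ ?_ ?_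
    · intro l
      by_cases h : l = ls
      · subst h
        rw [Function.update_self]
        exact hx
      · rw [Function.update_of_ne h, tr_eq_zero (hΦ l h)]
    · change (L : ℤ) * e + _ + Y.R (stt N ls j) ≤ c.sz n + e
      have h1 : (2 * M * (L + M * (n + 1)) : ℤ) * e ≤ F := by
        refine le_trans (mul_le_mul_of_nonneg_right ?_ h0) hLs3
        have h9 : 2 * M * (L + M * (n + 1)) ≤ C := by omega
        exact_mod_cast h9
      have h2 : ((M * ∑ i, ephN Y M Ls (stt N ls j)
          (Function.update (fun _ => 0) ls x) i : ℕ) : ℤ) ≤ M * ((n + 1) * e) := by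
        rw [Nat.cast_mul]
        exact mul_le_mul_of_nonneg_left hLs4 (by positivity)
      have h3 : (2 * M : ℤ) * (L * e + M * ((n + 1) * e) + Y.R (stt N ls j)) ≤
          2 * M * (c.sz n : ℤ) := by
        calc (2 * M : ℤ) * (L * e + M * ((n + 1) * e) + Y.R (stt N ls j)) =
            (2 * M * (L + M * (n + 1)) : ℤ) * e + 2 * M * Y.R (stt N ls j) := by ring
          _ ≤ F + 2 * M * Y.R (stt N ls j) := by linarith only [h1]
          _ ≤ 2 * M * (c.sz n : ℤ) := by linarith only [hsz]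
      have h4 := le_of_mul_le_mul_left h3 h2M'
      linarith only [h0, h2, h4]
    · change Y.R (stt N ls j) ≤ c.sz n
      have h3 : (2 * M : ℤ) * Y.R (stt N ls j) ≤ 2 * M * (c.sz n : ℤ) := by
        have : (0 : ℤ) ≤ F := by positivity
        linarith only [hsz]
      exact le_of_mul_le_mul_left h3 h2M'
  -- drop superfluous points
  obtain ⟨rN, hrN⟩ : ∃ r : ℕ, Y.R N = r := by
    apply Int.eq_ofNat_of_zero_le
    have : (0 : ℤ) ≤ F := by positivity
    linarith only [hFP]
  rw [hrN] at hsum hFP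
  have hFP' : F ≤ rN := by exact_mod_cast hFP
  obtain ⟨G₁, hG₁, hs1, hs2, hG₁pos⟩ := exists_drop (ell (n + 1)) L rN G
    (fun m hm => ell_mono _ (hG m hm)) (by exact_mod_cast hsum)
  have hG1 : ∀ m ∈ G₁, 1 ≤ m := by
    intro m hm
    by_contra h
    have h0 : m = 0 := by omega
    have := hG₁pos m hm
    rw [h0, ell_zero (by omega)] at this
    omega
  have hGM : ∀ m ∈ G₁, m ≤ M := fun m hm => hG m (Multiset.mem_of_le hG₁ hm)
  refine Y.mono _ _ _ (Multiset.map_le_map hG₁) ?_
  rw [← cfg0_kinds (ι := Λ) G₁ hG1]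
  set c := cfg0 Λ G₁ with hcdef
  have hcOK : c.OK M := cfg0_OK M G₁ hGM
  obtain ⟨hcsz, hcnsz⟩ := cfg0_sz (ι := Λ) n G₁ hG1
  rw [← hcdef] at hcsz hcnsz
  rw [← hcsz] at hs1 hs2
  have hcsz' : c.nsz n = c.sz n := by rw [hcsz, hcnsz]
  have hcΦ : ∀ i, c.Φ i = 0 := fun i => rfl
  have htr0 : ∀ i, c.tr n i = 0 := fun i => tr_eq_zero (hcΦ i)
  by_cases hbig : s₀ ≤ c.s
  · have := endA 0 (by omega) 0 c hcOK (fun i _ => hcΦ i) (by rw [htr0]) (by simp)
      (by rw [stt_zero, hrN]; exact_mod_cast hs1)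
      (by rw [stt_zero, hrN]; exact_mod_cast hs2) hbig
    rwa [stt_zero] at this
  push Not at hbig
  -- many points of the same multiplicity
  have hdiv : F / C * C ≤ F := Nat.div_mul_le_self F C
  have hb1 : (1 + L * M) * s₀ ≤ F := by
    have h1 : 2 * ((1 + L * M) * (F / C)) ≤ F := by
      refine le_trans ?_ hdiv
      calc 2 * ((1 + L * M) * (F / C)) = (F / C) * (2 * (1 + L * M) * 1) := by ring
        _ ≤ (F / C) * C := by
          apply Nat.mul_le_mul_left
          have : 2 * (1 + L * M) * 1 ≤ 2 * (1 + L * M) * (L + 1) :=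
            Nat.mul_le_mul_left _ (by omega)
          omega
    have h2 : 2 * ((1 + L * M) * (L + 1)) ≤ F := by
      refine le_trans ?_ hF
      have : 2 * ((1 + L * M) * (L + 1)) = 2 * (1 + L * M) * (L + 1) := by ring
      omega
    have h3 : (1 + L * M) * s₀ = (1 + L * M) * (F / C) + (1 + L * M) * (L + 1) := by
      rw [hs₀]; ring
    omega
  have hb2 : s₀ * L' ≤ F := by
    have h1 : 2 * (L' * (F / C)) ≤ F := by
      refine le_trans ?_ hdiv
      calc 2 * (L' * (F / C)) = (F / C) * (2 * L' * 1) := by ring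
        _ ≤ (F / C) * C := by
          apply Nat.mul_le_mul_left
          have : 2 * L' * 1 ≤ 2 * L' * (L + 1) := Nat.mul_le_mul_left _ (by omega)
          omega
    have h2 : 2 * (L' * (L + 1)) ≤ F := by
      refine le_trans ?_ hF
      have : 2 * (L' * (L + 1)) = 2 * L' * (L + 1) := by ring
      omega
    have h3 : s₀ * L' = L' * (F / C) + L' * (L + 1) := by
      rw [hs₀]; ring
    omega
  have hcard : M * s₀ ≤ c.N.card := by
    have h1 : (c.N.map (ell (n + 1))).sum ≤ L * c.N.card := by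
      have := Multiset.sum_le_card_nsmul (c.N.map (ell (n + 1))) L (by
        intro x hx
        obtain ⟨m, hm, rfl⟩ := Multiset.mem_map.1 hx
        exact ell_mono _ (hcOK.hN m hm).2)
      rw [Multiset.card_map, smul_eq_mul, mul_comm] at this
      exact this
    have h2 : c.sz n = (c.N.map (ell (n + 1))).sum + c.s := by
      rw [← hcsz']; rfl
    have h3 : L * (M * s₀) ≤ L * c.N.card := by
      have h4 : (1 + L * M) * s₀ = s₀ + L * (M * s₀) := by ring
      have h5 : rN ≤ (c.N.map (ell (n + 1))).sum + c.s := by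
        rw [← h2]; exact hs1
      have h6 : s₀ + L * (M * s₀) ≤ rN := by
        rw [← h4]; exact hb1.trans hFP'
      clear_value L L' C F s₀ c
      omega
    exact Nat.le_of_mul_le_mul_left h3 (by omega)
  obtain ⟨μ, hμN, hμ⟩ := exists_replicate_le c.N M s₀ (fun m hm => by
    have := hcOK.hN m hm
    omega) hcard hM (by omega)
  have hμ2 := hcOK.hN μ hμN
  -- the first step
  have hg1 := hrep
  rw [List.replicate_succ] at hg1
  obtain ⟨hw1, hE1, hφ1, hav1, hrest⟩ := hg1
  rw [hrN] at hav1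
  have hav1' := Int.ofNat_le.1 hav1
  obtain ⟨c₁, hc₁OK, hc₁GM, hc₁Φ, hc₁tr, hc₁sz, -, -, -, -, hc₁I⟩ :=
    peelN Y M hn hM N ls hw1 hE1 F rfl c hcOK
      (Multiset.replicate s₀ μ) hμ (by
        rw [htr0, Multiset.map_replicate, Multiset.sum_replicate, smul_eq_mul, zero_add]
        exact (Nat.mul_le_mul_left _ (ell_mono _ hμ2.2)).trans hb2) (by
        rw [hcsz']
        simp only [sum_const_zero, mul_zero, zero_add] at hav1'
        exact hav1'.trans hs1)
  refine hc₁GM ?_
  have hc₁I' : Multiset.replicate s₀ (μ - 1, 1) ≤ c₁.Φ ls := by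
    refine le_trans ?_ hc₁I
    rw [hcΦ, Multiset.map_replicate]
    simp [shf]
  have hF1 : 1 ≤ F := by omega
  have hcard1 := Y.count N ls hw1 hF1
  -- the following steps
  obtain ⟨ν, hν⟩ : ∃ ν, μ = ν + 2 := ⟨μ - 2, by omega⟩
  have hnphi : c₁.tr n ls ≤ nphi n M F := by
    unfold nphi
    have h1 : M * (c₁.tr n ls - L' ^ 2) ≤ (M - 1) * F := by
      rw [Nat.mul_sub]
      exact Nat.sub_le_iff_le_add.2 hc₁tr
    have h2 : c₁.tr n ls - L' ^ 2 ≤ (M - 1) * F / M := by
      rw [Nat.le_div_iff_mul_le (by omega), mul_comm]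
      exact h1
    exact Nat.sub_le_iff_le_add.1 h2
  have hgν : GoodN Y M (List.replicate ν ls) (dn ls N)
      (Function.update (fun _ => 0) ls (nphi n M F)) :=
    GoodN.replicate_le (by omega) hrest
  have hszc1 : Y.R (dn ls N) ≤ c₁.sz n := by
    have h1 : ((rN : ℕ) : ℤ) ≤ c.sz n := by exact_mod_cast hs1
    have h2 : ((c₁.sz n : ℕ) : ℤ) + F = c.sz n := by exact_mod_cast hc₁sz
    rw [hrN] at hcard1
    linarith only [hs1, hc₁sz, hcard1]
  obtain ⟨c₂, hc₂OK, hc₂GM, hc₂tr, hc₂sz, -, -, -, -, hc₂I, hc₂Φ⟩ :=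
    runN Y M hn hM (List.replicate ν ls) (dn ls N)
      (Function.update (fun _ => 0) ls (nphi n M F)) hgν c₁ hc₁OK (by
        intro l
        by_cases h : l = ls
        · subst h
          rw [Function.update_self]
          exact hnphi
        · rw [Function.update_of_ne h, tr_eq_zero]
          rw [hc₁Φ l h, hcΦ]) hszc1
  have hRR : ew (List.replicate ν ls) (dn ls N) = stt N ls (ν + 1) := by
    unfold stt
    rw [ew_replicate]
    unfold dn
    rw [Function.update_idem, Function.update_self, Nat.sub_sub, add_comm 1 ν]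
  rw [hRR] at hc₂GM hc₂sz
  refine hc₂GM ?_
  -- the trace
  have heph : ephN Y M (List.replicate ν ls) (dn ls N)
      (Function.update (fun _ => 0) ls (nphi n M F)) ls =
      ephN Y M (List.replicate (ν + 1) ls) N (fun _ => 0) ls := by
    rw [List.replicate_succ]
    rfl
  have htr2 := hc₂tr ls
  rw [heph] at htr2
  have hr1a := hr1 (ν + 1) (by omega) (by omega)
  -- the forced simple points
  have hrepl : Multiset.replicate s₀ (1, 1) ≤ c₂.Φ ls := by
    refine le_trans ?_ (hc₂I ls)
    rw [List.count_replicate_self]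
    have h1 : shf^[ν] (Multiset.replicate s₀ (μ - 1, 1)) ≤ shf^[ν] (c₁.Φ ls) := by
      have hmono : Monotone shf := fun X Y h =>
        Multiset.filter_le_filter _ (Multiset.map_le_map h)
      exact hmono.iterate ν hc₁I'
    refine le_trans (le_of_eq ?_) h1
    have h2 : μ - 1 = ν + 1 := by omega
    rw [h2, shf_iterate_replicate _ _ _ le_rfl]
    simp
  have hc₂0 : ∀ i, i ≠ ls → c₂.Φ i = 0 := by
    intro i hi
    rw [hc₂Φ i, hc₁Φ i hi, hcΦ]
    rw [List.count_replicate]
    rw [if_neg (by simpa using (Ne.symm hi))]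
  -- the next step exists
  have hgν1 : GoodN Y M (List.replicate (ν + 2) ls) N (fun _ => 0) :=
    GoodN.replicate_le (by omega) hrep
  rw [show ν + 2 = (ν + 1) + 1 from rfl, List.replicate_add, GoodN.append] at hgν1
  obtain ⟨_, hw2, -, hφ2, hav2, -⟩ := hgν1
  rw [ew_replicate] at hw2 hφ2
  change 1 ≤ stt N ls (ν + 1) ls at hw2
  change _ ≤ Y.F ls (stt N ls (ν + 1)) at hφ2
  have hg0 : 1 ≤ g0 n M * ell n M := by
    unfold g0
    exact Nat.mul_pos (Nat.mul_pos (by omega) (ell_pos n hM)) (ell_pos n hM)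
  have hcardR := Y.count (stt N ls (ν + 1)) ls hw2 (by omega)
  rw [dn_stt] at hcardR
  -- sizes
  have hszc2 : (c₂.sz n : ℤ) + rN = c.sz n + Y.R (stt N ls (ν + 1)) := by
    have h2 : ((c₁.sz n : ℕ) : ℤ) + F = c.sz n := by exact_mod_cast hc₁sz
    rw [hrN] at hcard1
    linarith only [hc₁sz, hcard1, hc₂sz]
  have hs1' : ((rN : ℕ) : ℤ) ≤ c.sz n := by exact_mod_cast hs1
  have hs2' : (c.sz n : ℤ) ≤ rN + L := by exact_mod_cast hs2
  set X := c₂.Φ ls - Multiset.replicate s₀ (1, 1) with hX
  have hXs : c₂.Φ ls = X + Multiset.replicate s₀ (1, 1) := by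
    rw [hX, tsub_add_cancel_of_le hrepl]
  clear_value X
  have hXval : ∀ x ∈ X, 1 ≤ x.2 ∧ x.2 ≤ 2 ∧ x.2 ≤ x.1 ∧ x.1 ≤ M := by
    intro x hx
    exact hc₂OK.hΦ ls x (by rw [hXs]; exact Multiset.mem_add.2 (Or.inl hx))
  obtain ⟨hY1, hY2, hY3⟩ := shf_numbers n M hn X hXval
  have htrX : c₂.tr n ls = (X.map fun x => ell n x.1).sum + s₀ := by
    unfold Cfg.tr
    rw [hXs, Multiset.map_add, Multiset.sum_add, Multiset.map_replicate, Multiset.sum_replicate]
    simp only [ell_one, smul_eq_mul, mul_one]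
  have hflX : c₂.fl n ls = (X.map fun x => ell (n + 1) x.1 + 1 - x.2).sum + s₀ := by
    unfold Cfg.fl
    rw [hXs, Multiset.map_add, Multiset.sum_add, Multiset.map_replicate, Multiset.sum_replicate]
    simp only [ell_one, smul_eq_mul]
    omega
  have hszA : (c₂.upd ls X (c₂.s + s₀)).sz n = c₂.sz n := by
    rw [Cfg.sz_upd, Cfg.sz_split n c₂ ls, hflX]
    omega
  have hszB : (c₂.upd ls (shf X) c₂.s).sz n + c₂.tr n ls = c₂.sz n := by
    rw [Cfg.sz_upd, Cfg.sz_split n c₂ ls, hflX, htrX]
    omega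
  have hM1 : 0 < 4 * M := by omega
  refine bridge_cfgN Y c₂ ls s₀ hrepl (stt N ls (ν + 1)) hw2 ?_ ?_ <;> rw [← hX]
  · -- (A)
    refine endA (ν + 1) (by omega) (ephN Y M (List.replicate (ν + 1) ls) N (fun _ => 0) ls) _
      (Cfg.OK_upd hc₂OK _ _ _ hXval) ?_ ?_ ?_ ?_ ?_ ?_
    · intro i hi
      rw [show (c₂.upd ls X (c₂.s + s₀)).Φ i = c₂.Φ i from Function.update_of_ne hi _ _]
      exact hc₂0 i hi
    · rw [Cfg.tr_upd_self]
      omega
    · have h1 : 2 * (2 * M * ephN Y M (List.replicate (ν + 1) ls) N (fun _ => 0) ls) ≤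
          2 * ((2 * M - 1) * Y.F ls (stt N ls (ν + 1))) := by
        calc 2 * (2 * M * ephN Y M (List.replicate (ν + 1) ls) N (fun _ => 0) ls) =
            4 * M * ephN Y M (List.replicate (ν + 1) ls) N (fun _ => 0) ls := by ring
          _ ≤ (4 * M - 3) * Y.F ls (stt N ls (ν + 1)) := hr1a
          _ ≤ (2 * (2 * M - 1)) * Y.F ls (stt N ls (ν + 1)) :=
            Nat.mul_le_mul_right _ (by omega)
          _ = 2 * ((2 * M - 1) * Y.F ls (stt N ls (ν + 1))) := by ring
      exact Nat.le_of_mul_le_mul_left h1 (by norm_num)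
    · rw [hszA]
      linarith only [hrN, hs1, hc₁sz, hcard1, hc₂sz]
    · rw [hszA]
      linarith only [hrN, hs2, hc₁sz, hcard1, hc₂sz]
    · change s₀ ≤ c₂.s + s₀
      omega
  · -- (B)
    have hr1b := hr1 (ν + 2) (by omega) (by omega)
    have heph2 : ephN Y M (List.replicate (ν + 2) ls) N (fun _ => 0) ls =
        nphi n M (Y.F ls (stt N ls (ν + 1))) := by
      rw [show ν + 2 = (ν + 1) + 1 from rfl, List.replicate_add, ephN_append]
      rw [ew_replicate]
      change (Function.update _ ls (nphi n M _) : Λ → ℕ) ls = _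
      rw [Function.update_self]
      rfl
    rw [heph2] at hr1b
    have htrle : 4 * M * c₂.tr n ls ≤ (4 * M - 3) * Y.F ls (stt N ls (ν + 1)) :=
      (Nat.mul_le_mul_left _ htr2).trans hr1a
    have htrlef : c₂.tr n ls ≤ Y.F ls (stt N ls (ν + 1)) := by
      have h1 : 4 * M * c₂.tr n ls ≤ 4 * M * Y.F ls (stt N ls (ν + 1)) :=
        htrle.trans (Nat.mul_le_mul_right _ (by omega))
      exact Nat.le_of_mul_le_mul_left h1 hM1
    rw [dn_stt]
    refine endB (ν + 2) (by omega) (nphi n M (Y.F ls (stt N ls (ν + 1)))) _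
      (Cfg.OK_upd hc₂OK _ _ _ hY1) ?_ ?_ ?_ ?_
    · intro i hi
      rw [show (c₂.upd ls (shf X) c₂.s).Φ i = c₂.Φ i from Function.update_of_ne hi _ _]
      exact hc₂0 i hi
    · rw [Cfg.tr_upd_self]
      have h1 : M * ((shf X).map fun x => ell n x.1).sum ≤
          (M - 1) * Y.F ls (stt N ls (ν + 1)) :=
        hY3.trans (Nat.mul_le_mul_left _ (by omega))
      unfold nphi
      have h2 : ((shf X).map fun x => ell n x.1).sum ≤
          (M - 1) * Y.F ls (stt N ls (ν + 1)) / M := by
        rw [Nat.le_div_iff_mul_le (by omega), mul_comm]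
        exact h1
      omega
    · have h1 : 2 * (2 * M * nphi n M (Y.F ls (stt N ls (ν + 1)))) ≤
          2 * ((2 * M - 1) * Y.F ls (stt N ls (ν + 2))) := by
        calc 2 * (2 * M * nphi n M (Y.F ls (stt N ls (ν + 1)))) =
            4 * M * nphi n M (Y.F ls (stt N ls (ν + 1))) := by ring
          _ ≤ (4 * M - 3) * Y.F ls (stt N ls (ν + 2)) := hr1b
          _ ≤ (2 * (2 * M - 1)) * Y.F ls (stt N ls (ν + 2)) :=
            Nat.mul_le_mul_right _ (by omega)
          _ = 2 * ((2 * M - 1) * Y.F ls (stt N ls (ν + 2))) := by ring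
      exact Nat.le_of_mul_le_mul_left h1 (by norm_num)
    · -- the excess
      obtain ⟨κ, hκ⟩ := Nat.exists_eq_add_of_le htrlef
      have hk : Y.R (stt N ls (ν + 2)) + κ ≤ ((c₂.upd ls (shf X) c₂.s).sz n : ℕ) := by
        have h1 : ((c₂.upd ls (shf X) c₂.s).sz n : ℤ) + c₂.tr n ls = c₂.sz n := by
          exact_mod_cast hszB
        have h2 : (Y.F ls (stt N ls (ν + 1)) : ℤ) = c₂.tr n ls + κ := by exact_mod_cast hκ
        linarith only [hrN, hs1, hc₁sz, hcard1, hc₂sz, hcardR, hszB, hκ]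
      have hk2 : F ≤ 2 * M * κ := by
        have h1 := hr2 (ν + 1) (by omega)
        have h2 : 3 * Y.F ls (stt N ls (ν + 1)) ≤ 4 * M * κ := by
          have h3 : 4 * M * Y.F ls (stt N ls (ν + 1)) =
              (4 * M - 3) * Y.F ls (stt N ls (ν + 1)) + 3 * Y.F ls (stt N ls (ν + 1)) := by
            rw [← add_mul]
            congr 1
            omega
          have h4 : 4 * M * Y.F ls (stt N ls (ν + 1)) = 4 * M * c₂.tr n ls + 4 * M * κ := by
            rw [hκ, mul_add]
          omega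
        have h4 : 7 * F ≤ 8 * Y.F ls (stt N ls (ν + 1)) := by
          have h5 : M * (7 * F) ≤ M * (8 * Y.F ls (stt N ls (ν + 1))) := by
            calc M * (7 * F) = (7 * M) * F := by ring
              _ ≤ (8 * M - 1) * F := Nat.mul_le_mul_right _ (by omega)
              _ ≤ 8 * M * Y.F ls (stt N ls (ν + 1)) := h1
              _ = M * (8 * Y.F ls (stt N ls (ν + 1))) := by ring
          exact Nat.le_of_mul_le_mul_left h5 (by omega)
        have h6 : 2 * (2 * M * κ) = 4 * M * κ := by ring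
        omega
      have hk2' : (F : ℤ) ≤ 2 * M * κ := by exact_mod_cast hk2
      have h2M : (0 : ℤ) ≤ 2 * M := by positivity
      calc 2 * (M : ℤ) * Y.R (stt N ls (ν + 2)) + F
          ≤ 2 * M * Y.R (stt N ls (ν + 2)) + 2 * M * κ := by linarith only [hk2]
        _ = 2 * M * (Y.R (stt N ls (ν + 2)) + κ) := by ring
        _ ≤ 2 * M * ((c₂.upd ls (shf X) c₂.s).sz n : ℤ) := mul_le_mul_of_nonneg_left hk h2M

end Pool.Agent.H18.Pr

end
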