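import Pool.Agent.H94.LP4.M52
import Pool.Agent.H94.LP4.M58
import Pool.Agent.H94.LP4.M60

/-! The parts of this file: H18.Pr.SchedN_1, H18.Pr.AsmV_1. -/

section

/-!
# Module SchedN: the schedule (abstract version, traces of dimension `n`)

Always peel a direction with maximal `a l`, until all `a l ≤ T'`; then clean.
-/

namespace Pool.Agent.H18.Pr

open Finset Pool.Agent.H18.Ex Pool.Agent.H18.Cub

variable {Λ : Type} [Fintype Λ] [DecidableEq Λ] {n : ℕ}

/-- The plan. -/
theorem NumR.plan {Y : SysN Λ n} {M T Ta C : ℕ} {N : Λ → ℕ} (H : NumR Y M T Ta N) (ls : Λ)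
    (hmax : ∀ i, N i ≤ N ls) (hls : Ta + 2 * M + 2 ≤ N ls) (hF : C ≤ Y.F ls N)
    (hend : ∀ a, Reg N Ta a → (∀ i, a i ≤ Ta + M + 1) → (C : ℤ) * Y.R a ≤ Y.F ls N) :
    PlanN Y M C N ls (dirsS N (Ta + M + 1)) := by
  have hM := H.hM
  have hT := H.hT
  set L' := ell n M with hL'
  have hL'1 : 1 ≤ L' := ell_pos _ hM
  set c := Fintype.card Λ with hc
  have hc1 : 1 ≤ c := Fintype.card_pos_iff.2 ⟨ls⟩
  have hTT : TT n M c = 16 * M * (c * (2 * M + 3)) + 16 * M * L' ^ 2 + 16 * M * (M * L' ^ 2) +
      8 * ell (n + 1) M + 8 := by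
    unfold TT
    rw [← hL']
    ring
  rw [hTT] at hT
  have hTM : 16 * M * (2 * M + 3) ≤ T := by
    have h1 : 16 * M * (1 * (2 * M + 3)) ≤ 16 * M * (c * (2 * M + 3)) :=
      Nat.mul_le_mul_left _ (Nat.mul_le_mul_right _ hc1)
    rw [one_mul] at h1
    omega
  have hTpos : 0 < T := by omega
  have hregN : Reg N Ta N := fun i => ⟨min_le_left _ _, le_rfl⟩
  have hstt : ∀ j, j ≤ M + 1 → Reg N (Ta + M + 1) (stt N ls j) := by
    intro j hj i
    unfold stt
    by_cases hi : i = ls
    · subst hi
      rw [Function.update_self]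
      have : min (N i) (Ta + M + 1) ≤ Ta + M + 1 := min_le_right _ _
      omega
    · rw [Function.update_of_ne hi]
      exact ⟨min_le_left _ _, le_rfl⟩
  have hsttl : ∀ j, stt N ls j ls = N ls - j := by
    intro j
    unfold stt
    rw [Function.update_self]
  have hdrop2 : ∀ i j, i ≤ j → j ≤ M + 1 →
      T * Y.F ls (stt N ls i) ≤ T * Y.F ls (stt N ls j) + (j - i) * Y.F ls (stt N ls i) := by
    intro i j hij hj
    have h1 := H.drop (stt N ls j) (stt N ls i) ls ((hstt j hj).mono (by omega))
      (by rw [hsttl]; omega) (fun k => by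
        by_cases hk : k = ls
        · subst hk
          rw [hsttl, hsttl]
          omega
        · unfold stt
          rw [Function.update_of_ne hk, Function.update_of_ne hk])
      (fun k => (hstt i (by omega) k).2)
    have h2 : ∑ k, (stt N ls i k - stt N ls j k) = j - i := by
      rw [sum_eq_single ls]
      · rw [hsttl, hsttl]
        omega
      · intro k _ hk
        unfold stt
        rw [Function.update_of_ne hk, Function.update_of_ne hk, Nat.sub_self]
      · intro h
        exact absurd (mem_univ _) h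
    rw [h2] at h1
    exact h1
  have hfloor : ∀ j, j ≤ M + 1 → T ≤ Y.F ls (stt N ls j) := fun j hj =>
    H.floor _ ls ((hstt j hj).mono (by omega)) (by rw [hsttl]; omega)
  have hstt0 : stt N ls 0 = N := by
    unfold stt
    rw [Nat.sub_zero, Function.update_eq_self]
  refine ⟨?_, hF, ?_, ?_, ?_, ?_, ?_⟩
  · rw [mem_dirsS]
    omega
  · -- `F ≤ R`
    have h1 := H.floor N ls hregN (by omega)
    have h2 := Y.count N ls (by omega) (by omega)
    have h3 := (H.full _ (hregN.dn ls (by omega))).1
    omega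
  · -- the first peels
    apply H.list_good _ N _ 0 hregN
    · intro l hl
      rw [List.eq_of_mem_replicate hl, List.count_replicate_self]
      omega
    · intro l
      exact Or.inl rfl
    · rw [List.length_replicate, zero_add]
      unfold KK
      calc M + 1 = 1 * (M + 1) := by ring
        _ ≤ Fintype.card Λ * (2 * M + 3) := Nat.mul_le_mul hc1 (by omega)
  · -- hr1
    intro j hj1 hj2
    obtain ⟨i, rfl⟩ : ∃ i, j = i + 1 := ⟨j - 1, by omega⟩
    have heph : ephN Y M (List.replicate (i + 1) ls) N (fun _ => 0) ls =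
        nphi n M (Y.F ls (stt N ls i)) := by
      rw [List.replicate_add, ephN_append, ew_replicate]
      change (Function.update _ ls (nphi n M _) : Λ → ℕ) ls = _
      rw [Function.update_self]
      rfl
    rw [heph]
    have h2 := hdrop2 i (i + 1) (by omega) hj2
    have h3 := hfloor i (by omega)
    unfold nphi
    set f := Y.F ls (stt N ls i) with hf
    set f' := Y.F ls (stt N ls (i + 1)) with hf'
    rw [Nat.add_sub_cancel_left, one_mul] at h2
    -- `16 M f ≤ 16 M f' + f`
    have h5 : 16 * M * f ≤ 16 * M * f' + f := by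
      have h6 : T * (16 * M * f) ≤ T * (16 * M * f' + f) := by
        calc T * (16 * M * f) = 16 * M * (T * f) := by ring
          _ ≤ 16 * M * (T * f' + f) := Nat.mul_le_mul_left _ h2
          _ = T * (16 * M * f') + 16 * M * f := by ring
          _ ≤ T * (16 * M * f') + T * f := by
            apply Nat.add_le_add_left
            apply Nat.mul_le_mul_right
            have h7 : 16 * M * 1 ≤ 16 * M * (2 * M + 3) := Nat.mul_le_mul_left _ (by omega)
            omega
          _ = T * (16 * M * f' + f) := by ring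
      exact Nat.le_of_mul_le_mul_left h6 hTpos
    have h4 : M * ((M - 1) * f / M) ≤ (M - 1) * f := Nat.mul_div_le _ _
    have h6 : 4 * M * ((M - 1) * f / M + L' ^ 2) =
        4 * (M * ((M - 1) * f / M)) + 4 * M * L' ^ 2 := by ring
    have h7 : 16 * M * L' ^ 2 = 4 * (4 * M * L' ^ 2) := by ring
    rw [h6]
    obtain ⟨k, rfl⟩ : ∃ k, M = k + 1 := ⟨M - 1, by omega⟩
    have h8 : 4 * (k + 1) - 3 = 4 * k + 1 := by omega
    rw [h8]
    rw [Nat.add_sub_cancel] at h4 ⊢
    have h11 : (4 * k + 1) * f' = 4 * (k * f') + f' := by ring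
    rcases le_total f f' with hle | hle
    · have h12 : k * f ≤ k * f' := Nat.mul_le_mul_left _ hle
      omega
    · obtain ⟨δ, hδ⟩ := Nat.exists_eq_add_of_le hle
      have h13 : 16 * (k + 1) * f = 16 * (k + 1) * f' + 16 * (k + 1) * δ := by
        rw [hδ]
        ring
      have h14 : (4 * k + 1) * f = (4 * k + 1) * f' + (4 * k + 1) * δ := by
        rw [hδ]
        ring
      have h15 : 4 * ((4 * k + 1) * δ) ≤ 16 * (k + 1) * δ := by
        calc 4 * ((4 * k + 1) * δ) = (4 * (4 * k + 1)) * δ := by ring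
          _ ≤ 16 * (k + 1) * δ := Nat.mul_le_mul_right _ (by omega)
      have h16 : (4 * k + 1) * f = 4 * (k * f) + f := by ring
      omega
  · -- hr2
    intro j hj
    have h1 := hdrop2 0 j (by omega) hj
    rw [hstt0, Nat.sub_zero] at h1
    have h5 : 8 * M * Y.F ls N ≤ 8 * M * Y.F ls (stt N ls j) + Y.F ls N := by
      have h6 : T * (8 * M * Y.F ls N) ≤ T * (8 * M * Y.F ls (stt N ls j) + Y.F ls N) := by
        calc T * (8 * M * Y.F ls N) = 8 * M * (T * Y.F ls N) := by ring
          _ ≤ 8 * M * (T * Y.F ls (stt N ls j) + j * Y.F ls N) := Nat.mul_le_mul_left _ h1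
          _ = T * (8 * M * Y.F ls (stt N ls j)) + 8 * M * j * Y.F ls N := by ring
          _ ≤ T * (8 * M * Y.F ls (stt N ls j)) + T * Y.F ls N := by
            apply Nat.add_le_add_left
            apply Nat.mul_le_mul_right
            have h7 : 8 * M * j ≤ 8 * M * (2 * (2 * M + 3)) := Nat.mul_le_mul_left _ (by omega)
            have h8 : 8 * M * (2 * (2 * M + 3)) = 16 * M * (2 * M + 3) := by ring
            omega
          _ = T * (8 * M * Y.F ls (stt N ls j) + Y.F ls N) := by ring
      exact Nat.le_of_mul_le_mul_left h6 hTpos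
    obtain ⟨k, hk⟩ : ∃ k, 8 * M - 1 = k ∧ k + 1 = 8 * M := ⟨8 * M - 1, rfl, by omega⟩
    rw [hk.1]
    have h6 : 8 * M * Y.F ls N = k * Y.F ls N + Y.F ls N := by
      rw [← hk.2]
      ring
    omega
  · -- the schedule
    intro j hj φ hφ0 hφ
    have hregj := hstt j (by omega)
    have hInv : InvN Y M (Ta + M + 1) N (stt N ls j) φ (fun _ => stt N ls j) := by
      refine ⟨hregj, fun l => ?_⟩
      by_cases hl : l = ls
      · subst hl
        right
        have h1 := hsttl j
        refine ⟨by rw [h1]; omega, fun _ => le_rfl, fun k => (hregj k).2, ?_, fun k => ?_,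
          fun k => Or.inl le_rfl⟩
        · unfold BdN
          obtain ⟨k, hk1, hk2⟩ : ∃ k, 2 * M - 1 = k ∧ k + 1 = 2 * M := ⟨2 * M - 1, rfl, by omega⟩
          rw [hk1] at hφ
          have h2 : 2 * M * Y.F l (stt N l j) = k * Y.F l (stt N l j) + Y.F l (stt N l j) := by
            rw [← hk2]
            ring
          omega
        · rw [h1]
          have h3 := (hregj k).2
          have h4 := hmax k
          omega
      · exact Or.inl (hφ0 l hl)
    obtain ⟨L, hL1, hL2, ⟨b', hL3⟩, hL4⟩ := H.path (T' := Ta + M + 1) (by omega) _ _ _ _ rfl hInv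
    have hregE : Reg N Ta (ew L (stt N ls j)) := hL3.reg.mono (by omega)
    have hnd : (dirsS N (Ta + M + 1)).Nodup := nodup_toList _
    have hbd := hL3.bd (by omega : Ta ≤ Ta + M + 1)
    have hE : ∀ l, Ta + M + 1 < N l → Ta + M + 1 ≤ ew L (stt N ls j) l := by
      intro l hl
      have := (hL3.reg l).1
      rw [min_eq_right hl.le] at this
      exact this
    have hclen : (dirsS N (Ta + M + 1)).length ≤ Fintype.card Λ := by
      unfold dirsS
      rw [length_toList]
      exact card_le_univ _
    refine ⟨L, fun l hl => mem_dirsS.2 (hL1 l hl), ?_, hend _ hregE hL4, ?_,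
      H.full _ hregE, ?_⟩
    · rw [GoodN.append]
      refine ⟨hL2, H.list_good _ _ _ (Fintype.card Λ * (M + 2)) hregE ?_ hbd ?_⟩
      · intro l hl
        have h1 := mem_clean hl
        rw [count_clean M _ hnd, if_pos h1]
        have h2 := hE l (mem_dirsS.1 h1)
        omega
      · rw [length_clean]
        unfold KK
        calc Fintype.card Λ * (M + 2) + (dirsS N (Ta + M + 1)).length * (M + 1)
            ≤ Fintype.card Λ * (M + 2) + Fintype.card Λ * (M + 1) := by
              apply Nat.add_le_add_left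
              exact Nat.mul_le_mul_right _ hclen
          _ = Fintype.card Λ * (2 * M + 3) := by ring
    · have h1 := hE ls (by omega)
      have h2 := (H.key hregE (Nat.mul_le_mul_left _ (by omega)) hbd ls (by omega)).2.2
      have h3 := (H.full _ hregE).1
      refine h2.trans ?_
      have h4 : (0 : ℤ) ≤ n := by positivity
      nlinarith only [h2]
    · apply H.full
      intro l
      rw [ew_append']
      have h1 : ew (clean M (dirsS N (Ta + M + 1))) (ew L (stt N ls j)) l =
          ew L (stt N ls j) l - (clean M (dirsS N (Ta + M + 1))).count l := rfl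
      rw [h1, count_clean M _ hnd]
      have h2 := hregE l
      split_ifs with h3
      · have h4 := hE l (mem_dirsS.1 h3)
        have h5 : min (N l) Ta ≤ Ta := min_le_right _ _
        omega
      · exact h2

/-- Exactness for states with the numerical properties. -/
theorem NumR.exact {Y : SysN Λ n} {M T Ta : ℕ} {N : Λ → ℕ} (H : NumR Y M T Ta N) (ls : Λ)
    (hmax : ∀ i, N i ≤ N ls) (hls : Ta + 2 * M + 2 ≤ N ls) (hF : cC n M ≤ Y.F ls N)
    (hend : ∀ a, Reg N Ta a → (∀ i, a i ≤ Ta + M + 1) → (cC n M : ℤ) * Y.R a ≤ Y.F ls N)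
    (G : Multiset ℕ) (hG : ∀ m ∈ G, m ≤ M)
    (hsum : Y.R N ≤ ((G.map (ell (n + 1))).sum : ℕ)) : Y.K N (G.map Kind.free) :=
  mainN Y M H.hn H.hM N ls _ (H.plan ls hmax hls hF hend) G hG hsum

end Pool.Agent.H18.Pr

end

section

/-!
# Module AsmV (PR): exactness for one big point
-/

namespace Pool.Agent.H18.Pr

open Finset Pool.Agent.H18.Ex Pool.Agent.H18.Cub

variable {R : ℕ}

/-! ### Auxiliary facts -/

/-- The induction step: `NumR.exact` for `sysV e he v u hvu q (d - m)` at the state `d`, with
`T = TT (u - v) M 1`, `Ta = C * T + D' M` and `D M` a large polynomial in `Ta`, `M`, `cC (u - v) M`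
(`tau_le` bounds the virtual dimension at the end, `tau_slow` or `ell_lt_tau` the first trace). -/
theorem exV_step (e : ℕ) (he : 2 ≤ e) (v v' u : Fin (R + 1)) (hvu : v < u)
    (hv : v'.val = v.val + 1) (h : ∃ D : ℕ → ℕ, PolyB D ∧ ∀ M, 1 ≤ M → ExV e v' u M (D M)) :
    ∃ D : ℕ → ℕ, PolyB D ∧ ∀ M, 1 ≤ M → ExV e v u M (D M) := by
  obtain ⟨D', hD', hex⟩ := h
  obtain ⟨C, hC1, hC⟩ := numR_sysV (R := R) e he v v' u hvu hv
  have hvu' : v.val < u.val := hvu
  set j := u.val - v.val with hj
  have hj1 : 1 ≤ j := by omega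
  have hTaP : PolyB fun M => C * TT j M 1 + D' M :=
    ((PolyB.const C).mul (PolyB.TT j 1)).add hD'
  refine ⟨fun M => cC j M * (e ^ (R - u.val) * (C * TT j M 1 + D' M + M + (j + 2)) ^ (j + 1)) +
    (C * TT j M 1 + D' M) + 2 * M + 2 + cC j M, ?_, ?_⟩
  · refine PolyB.add (PolyB.add (PolyB.add (PolyB.add ?_ hTaP) ?_) (PolyB.const 2)) (PolyB.cC j)
    · refine (PolyB.cC j).mul ((PolyB.const _).mul (PolyB.pow ?_ (j + 1)))
      exact (hTaP.add PolyB.id).add (PolyB.const (j + 2))
    · exact (PolyB.const 2).mul PolyB.id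
  · intro M hM q hq d m hd S hS hsum
    simp only at hd
    rw [← hj] at hsum
    set Ta := C * TT j M 1 + D' M with hTa
    set c := cC j M with hc
    set P := c * (e ^ (R - u.val) * (Ta + M + (j + 2)) ^ (j + 1)) with hP
    have hk : Ta ≤ d - m := by omega
    have hmk : d - (d - m) = m := by omega
    have H := hC M (TT j M 1) Ta hM le_rfl (by omega) (av_mono (by omega) (hex M hM)) q (d - m) d
      hq hk
    have hR0 : (sysV e he v u hvu (q : ℂ) (d - m)).R (fun _ => d) =
        (tau e (R - u.val) (j + 1) d : ℤ) - ell (j + 1) m := by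
      have h1 : (sysV e he v u hvu (q : ℂ) (d - m)).R (fun _ => d) =
        (tau e (R - u.val) (j + 1) d : ℤ) - ell (j + 1) (d - (d - m)) := rfl
      rw [h1, hmk]
    have hF0 : (sysV e he v u hvu (q : ℂ) (d - m)).F () (fun _ => d) =
        tau e (R - u.val) j d - ell j m := by
      have h1 : (sysV e he v u hvu (q : ℂ) (d - m)).F () (fun _ => d) =
        tau e (R - u.val) j d - ell j (d - (d - m)) := rfl
      rw [h1, hmk]
    have hFbig : P + c ≤ (sysV e he v u hvu (q : ℂ) (d - m)).F () (fun _ => d) := by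
      rw [hF0]
      have h1 := av_tau_ell e (R - u.val) j d m (P + c) (by omega) hj1 (by omega)
      omega
    have hls : Ta + 2 * M + 2 ≤ d := by omega
    have hcF : c ≤ (sysV e he v u hvu (q : ℂ) (d - m)).F () (fun _ => d) := by omega
    have hex2 := H.exact () (fun _ => le_rfl) hls hcF ?_ S hS ?_
    · rw [Fk_iff (gV v)]
      have h1 : (sysV e he v u hvu (q : ℂ) (d - m)).K (fun _ => d) (S.map Kind.free) =
        GMP (gV v) (WW e v u (q : ℂ) d (fun _ : Unit => (0 : ℂ)) fun _ => d - (d - m))
          (S.map Kind.free) := rfl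
      rw [h1, hmk] at hex2
      exact hex2
    · intro a _ ha
      have h1 : (sysV e he v u hvu (q : ℂ) (d - m)).R a =
        (tau e (R - u.val) (j + 1) (a ()) : ℤ) - ell (j + 1) (a () - (d - m)) := rfl
      have h2 : tau e (R - u.val) (j + 1) (a ()) ≤
          e ^ (R - u.val) * (Ta + M + (j + 2)) ^ (j + 1) := by
        refine (tau_le _ _ _ _).trans (Nat.mul_le_mul_left _ ?_)
        refine (Nat.choose_le_pow _ _).trans (Nat.pow_le_pow_left ?_ _)
        have := ha ()
        omega
      have h3 : (sysV e he v u hvu (q : ℂ) (d - m)).R a ≤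
          ((e ^ (R - u.val) * (Ta + M + (j + 2)) ^ (j + 1) : ℕ) : ℤ) := by
        rw [h1]
        have h4 : (tau e (R - u.val) (j + 1) (a ()) : ℤ) ≤
          ((e ^ (R - u.val) * (Ta + M + (j + 2)) ^ (j + 1) : ℕ) : ℤ) := by exact_mod_cast h2
        have h5 : (0 : ℤ) ≤ ell (j + 1) (a () - (d - m)) := Int.natCast_nonneg _
        linarith
      calc (c : ℤ) * (sysV e he v u hvu (q : ℂ) (d - m)).R a ≤
            c * ((e ^ (R - u.val) * (Ta + M + (j + 2)) ^ (j + 1) : ℕ) : ℤ) :=
              mul_le_mul_of_nonneg_left h3 (Int.natCast_nonneg _)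
        _ = ((P : ℕ) : ℤ) := by
              rw [hP]
              push_cast
              ring
        _ ≤ ((sysV e he v u hvu (q : ℂ) (d - m)).F () (fun _ => d) : ℕ) := by
              exact_mod_cast (by omega :
                P ≤ (sysV e he v u hvu (q : ℂ) (d - m)).F () (fun _ => d))
    · rw [hR0]
      change _ ≤ (((S.map (ell (j + 1))).sum : ℕ) : ℤ)
      omega

theorem exV_all (e : ℕ) (he : 2 ≤ e) (v u : Fin (R + 1)) (hvu : v ≤ u) :
    ∃ D : ℕ → ℕ, PolyB D ∧ ∀ M, 1 ≤ M → ExV e v u M (D M) := by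
  obtain ⟨k, hk⟩ : ∃ k, u.val - v.val = k := ⟨_, rfl⟩
  have hvu' : v.val ≤ u.val := hvu
  induction k generalizing v with
  | zero =>
    have h1 : v = u := by
      ext
      omega
    subst h1
    exact ⟨fun _ => 0, PolyB.const 0, fun M _ => exV_base e he v M⟩
  | succ k ih =>
    have h2 : v.val + 1 < R + 1 := by
      have := u.2
      omega
    exact exV_step e he v ⟨v.val + 1, h2⟩ u (by
      rw [Fin.lt_def]
      omega) rfl (ih ⟨v.val + 1, h2⟩ (by
      rw [Fin.le_def]
      simp only
      omega) (by simp only; omega) (by simp only; omega))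

end Pool.Agent.H18.Pr

end
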