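import Pool.Agent.H94.LP4.M40
import Pool.Agent.H94.LP4.M55
import Pool.Agent.H94.LP4.M56
import Pool.Agent.H94.LP4.M61
import Pool.Agent.H94.LP4.M62

/-! The parts of this file: H18.Pr.FullM, H18.Pr.AsmM_1, H18.Pr.FinalR_1, H18.Ta.Asm_1, H18.Nef.NefC_1, H74.BP.Plane_2. -/

section

/-!
# Module FullM (PR): dimensions in the main family
-/

namespace Pool.Agent.H18.Pr

open Finset Pool.Agent.H18.Ex Pool.Agent.H18.Cub

variable {R t s : ℕ}

/-! ### Auxiliary facts -/

/-- States without the curve. -/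
private theorem fullM_lines (ht : 1 ≤ t) (hR : 1 ≤ R) (u : Fin (R + 1)) (hu : 1 ≤ u.val)
    (n : Fin t ⊕ Fin s → ℕ) (k : ℕ) : ∀ a : Option (Fin t) → ℕ, a none = 0 →
      ∑ l : Fin t, a (some l) = k → FullN (sysM ht u hu n) a := by
  induction k with
  | zero =>
    intro a h0 hk
    have ha : a = 0 := by
      funext i
      rcases i with _ | l
      · exact h0
      · exact Finset.sum_eq_zero_iff.1 hk l (mem_univ l)
    rw [ha]
    exact fullN_zero _
  | succ k ih =>
    intro a h0 hk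
    obtain ⟨l, -, hl⟩ : ∃ l ∈ (univ : Finset (Fin t)), a (some l) ≠ 0 := by
      apply Finset.exists_ne_zero_of_sum_ne_zero
      omega
    have hmu : mu n a (.inl l) ≤ dd a := by
      have h1 : a (some l) ≤ ∑ l, a (some l) :=
        single_le_sum (f := fun l => a (some l)) (fun _ _ => Nat.zero_le _) (mem_univ l)
      simp only [mu, uu, dd]
      rw [h0]
      omega
    have hFM : (sysM ht u hu n).F (some l) a =
        tau (t + 1) (R - u.val) u.val (dd a) - ell u.val (mu n a (.inl l)) := rfl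
    refine FullN.step (some l) (by omega) ?_ ?_ (ih (dn (some l) a) ?_ ?_)
    · rw [hFM]
      have := ell_lt_tau (t + 1) (R - u.val) u.val (dd a) (mu n a (.inl l)) (by omega) hu hmu
      omega
    · refine sysM_tr_some ht u ⟨1, by omega⟩ hu rfl n a l _ ?_
      refine dimV (t + 1) (by omega) ⟨1, by omega⟩ u hu ((l.val + 1) ^ (t + 1))
        (Nat.pow_pos (by omega)) (dd a) _ hmu _ ?_
      have h1 : u.val - (⟨1, by omega⟩ : Fin (R + 1)).val + 1 = u.val := by
        simp only
        omega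
      rw [h1, hFM]
      omega
    · rw [dn_ne (by simp), h0]
    · have h1 := Finset.add_sum_erase univ (fun l' : Fin t => a (some l')) (mem_univ l)
      have h2 := Finset.add_sum_erase univ (fun l' : Fin t => dn (some l) a (some l')) (mem_univ l)
      have h3 : ∑ l' ∈ univ.erase l, dn (some l) a (some l') =
          ∑ l' ∈ univ.erase l, a (some l') := by
        refine Finset.sum_congr rfl fun l' hl' => ?_
        rw [dn_ne]
        intro h
        exact (Finset.ne_of_mem_erase hl') (Option.some.inj h)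
      have h4 : dn (some l) a (some l) = a (some l) - 1 := dn_self _ _
      rw [h3, h4] at h2
      omega

/-- All states with margins, provided that the traces on the curve behave as expected. -/
private theorem fullM_curve (ht : 1 ≤ t) (hR : 1 ≤ R) (hts : t + s = (t + 1) ^ (R + 1))
    (u u' : Fin (R + 1)) (hu : 1 ≤ u.val) (huu : u.val = u'.val + 1)
    (n : Fin t ⊕ Fin s → ℕ)
    (IH : ∀ a : Option (Fin t) → ℕ, Mg R 1 n a → ∀ S : ℕ, RM R u'.val n a ≤ S →
      Fk (WM u' n a) (Multiset.replicate S 1)) (k : ℕ) :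
    ∀ a : Option (Fin t) → ℕ, a none = k → (a none = 0 ∨ Mg R 1 n a) →
      FullN (sysM ht u hu n) a := by
  induction k with
  | zero =>
    intro a h0 _
    exact fullM_lines ht hR u hu n _ a h0 rfl
  | succ k ih =>
    intro a hk h
    have hM : Mg R 1 n a := by
      rcases h with h | h
      · omega
      · exact h
    have hFM : ((sysM ht u hu n).F none a : ℤ) = RM R u'.val n a := by
      have h1 := FM_eq (s := s) ht hR hts u.val hu (by omega) hM none (by omega)
      have h2 := RM_diff_none (R := R) u.val hu (by omega) n a (by omega)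
      have h3 : u.val - 1 = u'.val := by omega
      rw [h3] at h2
      have h4 : (sysM ht u hu n).F none a = FM R u.val n none a := rfl
      rw [h4, h1, h2]
      ring
    have hu'R : u'.val ≤ R := by omega
    have hpos : 1 ≤ RM R u'.val n a := RM_pos (s := s) ht hR hts u'.val hu'R (Or.inr hM)
    have hF1 : 1 ≤ (sysM ht u hu n).F none a := by omega
    have ha1 : 1 ≤ a none := by omega
    refine FullN.step none ha1 hF1 ?_ (ih (dn none a) ?_ ?_)
    · exact sysM_tr_none ht u u' hu huu n a _ (IH a hM _ hFM.symm.le)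
    · rw [dn_self, hk]
      rfl
    · rcases Nat.eq_zero_or_pos k with hk0 | hk0
      · left
        rw [dn_self]
        omega
      · right
        exact hM.none ht hR hts (a none - 1) (by omega) (by omega)

/-- The dimension is at most the expected one.

Induction on `u`.  For `u = 0` use `WW_one` (`y = xx`).  For `u ≥ 1`: first the states with
`a none = 0`, by induction on `∑ a_l`, with `FullN.step` in the directions `some l` for
`sysM ht u hu n` (`sysM_tr_some`, `dimV` with `v = 1`, `FM` is positive by `ell_lt_tau`), starting from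
`fullN_zero`; then induction on `a none`, with `FullN.step` in direction `none` (`sysM_tr_none`, the
induction hypothesis for `u - 1`, `FM_eq`, `RM_pos`, `Mg.none`). -/
theorem dimM (ht : 1 ≤ t) (hR : 1 ≤ R) (hts : t + s = (t + 1) ^ (R + 1)) (u : Fin (R + 1))
    (n : Fin t ⊕ Fin s → ℕ) (a : Option (Fin t) → ℕ) (h : a none = 0 ∨ Mg R 1 n a) (S : ℕ)
    (hS : RM R u.val n a ≤ S) : Fk (WM u n a) (Multiset.replicate S 1) := by
  obtain ⟨k, hk⟩ : ∃ k, u.val = k := ⟨_, rfl⟩
  induction k generalizing u a S with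
  | zero =>
    have hu0 : (0 : Fin (R + 1)) = u := by
      ext
      rw [hk]
      rfl
    unfold WM
    rw [hu0]
    refine WW_one (t + 1) (by omega) u 0 (dd a) _ (mu n a) xx xx_injective xx_pos
      (fun b => by rw [add_zero]) _ ?_
    rw [Multiset.sum_replicate, smul_eq_mul, mul_one]
    unfold RM at hS
    rw [hk] at hS ⊢
    have h1 : ∑ b, (ell (0 + 1) (mu n a b) : ℤ) = ((∑ b, mu n a b : ℕ) : ℤ) := by
      push_cast
      refine sum_congr rfl fun b _ => ?_
      rw [ell_one_left]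
    rw [h1, zero_add] at hS
    omega
  | succ k ih =>
    have hu : 1 ≤ u.val := by omega
    have hfull := fullM_curve (s := s) ht hR hts u ⟨k, by omega⟩ hu hk n
      (fun a' ha' S' hS' => ih ⟨k, by omega⟩ a' (Or.inr ha') S' hS' rfl) _ a rfl h
    have h1 := hfull.2 S hS
    rw [Fk_iff (gM t u), Multiset.map_replicate]
    exact h1

/-- The numerical properties of the main system (`RM_slow`, `FM_eq`, `FM_lower`, `FM_drop`, `RM_pos`, `dimM`,
`Mg.reg`, `sysM_tr_none`, `sysM_tr_some`). -/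
theorem numR_sysM (ht : 1 ≤ t) (hR : 1 ≤ R) (hts : t + s = (t + 1) ^ (R + 1))
    (u u' v : Fin (R + 1)) (hu : 1 ≤ u.val) (huu : u.val = u'.val + 1) (hv : v.val = 1) :
    ∃ C : ℕ, 1 ≤ C ∧ ∀ M T Ta : ℕ, 1 ≤ M → TT u.val M (t + 1) ≤ T → C * T ≤ Ta →
      ExM t s u' M Ta → ExV (t + 1) v u M Ta → ∀ (n : Fin t ⊕ Fin s → ℕ)
      (N : Option (Fin t) → ℕ), Mg R Ta n N → NumR (sysM ht u hu n) M T Ta N := by
  have huR : u.val ≤ R := by omega
  obtain ⟨C1, hC11, hC1⟩ := FM_lower (s := s) ht hR hts u.val hu huR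
  obtain ⟨C2, hC21, hC2⟩ := FM_drop (s := s) ht hR hts u.val hu huR
  obtain ⟨C3, hC31, hC3⟩ := RM_slow (s := s) ht hR hts u.val huR
  refine ⟨C1 + C2 + C3 + R * t + 1, by omega, ?_⟩
  intro M T Ta hM hT hTa hExM hExV n N hN
  have hT1 : 1 ≤ T := by
    have : 8 ≤ TT u.val M (t + 1) := by
      unfold TT
      omega
    omega
  have hexp : (C1 + C2 + C3 + R * t + 1) * T = C1 * T + C2 * T + C3 * T + R * t * T + T := by
    ring
  rw [hexp] at hTa
  have h1T : C1 * 1 ≤ C1 * T := Nat.mul_le_mul_left _ hT1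
  have h2T : R * t * 1 ≤ R * t * T := Nat.mul_le_mul_left _ hT1
  have hreg : ∀ a : Option (Fin t) → ℕ, Reg N Ta a → Mg R Ta n a := fun a ha =>
    hN.reg ht hR hts le_rfl (by omega) ha
  refine ⟨hu, hM, by omega, ?_, ?_, ?_, ?_, ?_, ?_⟩
  · have h1 : Fintype.card (Option (Fin t)) = t + 1 := by simp
    rw [h1]
    exact hT
  · intro a b l ha hal hab hbN
    exact hC2 T hT1 n N a b Ta (by omega) hN ha hab hbN l hal
  · intro a l ha hal
    have h1 := hC1 Ta n a (by omega) (hreg a ha) l (by omega)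
    change T ≤ FM R u.val n l a
    omega
  · intro a l ha hal
    have hMa := hreg a ha
    have h1 := (hC3 T hT1 n a (hMa.le (by omega)) l (by omega)).2
    have h2 := FM_eq (s := s) ht hR hts u.val hu huR (hMa.le (by omega)) l (by omega)
    change (T : ℤ) * (FM R u.val n l a : ℕ) ≤ RM R u.val n a
    rw [h2]
    exact h1
  · intro a ha
    have hMa : Mg R 1 n a := (hreg a ha).le (by omega)
    refine ⟨RM_pos ht hR hts u.val huR (Or.inr hMa), fun S hS => ?_⟩
    have h1 := dimM ht hR hts u n a (Or.inr hMa) S hS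
    rw [Fk_iff (gM t u), Multiset.map_replicate] at h1
    exact h1
  · intro a l ha hal S hS hF
    have hMa := hreg a ha
    rcases l with _ | l
    · refine sysM_tr_none ht u u' hu huu n a S (hExM n a hMa S hS ?_)
      change FM R u.val n none a ≤ _ at hF
      have h1 : FM R u.val n none a =
          tau (t + 1) (R + 1 - u.val) u.val (dd a) - ∑ b, ell u.val (mu n a b) := rfl
      have h2 : R - u'.val = R + 1 - u.val := by omega
      rw [h2, ← huu]
      omega
    · have hv' : u.val - v.val + 1 = u.val := by omega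
      refine sysM_tr_some ht u v hu hv n a l S (hExV ((l.val + 1) ^ (t + 1))
        (Nat.pow_pos (by omega)) (dd a) _ (hMa.line l) S hS ?_)
      change FM R u.val n (some l) a ≤ _ at hF
      have h1 : FM R u.val n (some l) a =
          tau (t + 1) (R - u.val) u.val (dd a) - ell u.val (mu n a (.inl l)) := rfl
      rw [hv']
      omega

end Pool.Agent.H18.Pr

end

section

/-!
# Module AsmM (PR): exactness in the main family
-/

namespace Pool.Agent.H18.Pr

open Finset Pool.Agent.H18.Ex Pool.Agent.H18.Cub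

variable {R t s : ℕ}

/-- The induction step: `NumR.exact` for `sysM ht u hu n` at the state `N`, with `ls` such that
`N ls` is maximal, `T = TT u M (t + 1)`, `Ta = C * T + D' M + D'' M` and `D M` a large polynomial in
`Ta`, `M`, `cC u M` (`RM_upper` bounds the virtual dimension at the end, `FM_lower` the first
trace; `dd N ≤ (2 * t + 1) * N ls`). -/
theorem exM_step (ht : 1 ≤ t) (hR : 1 ≤ R) (hts : t + s = (t + 1) ^ (R + 1))
    (u u' : Fin (R + 1)) (huu : u.val = u'.val + 1)
    (h : ∃ D : ℕ → ℕ, PolyB D ∧ ∀ M, 1 ≤ M → ExM t s u' M (D M)) :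
    ∃ D : ℕ → ℕ, PolyB D ∧ ∀ M, 1 ≤ M → ExM t s u M (D M) := by
  obtain ⟨D', hD'P, hD'⟩ := h
  have hu : 1 ≤ u.val := by omega
  have huR : u.val ≤ R := by omega
  set v : Fin (R + 1) := ⟨1, by omega⟩ with hv
  have hvu : v ≤ u := by
    rw [Fin.le_def]
    exact hu
  obtain ⟨D'', hD''P, hD''⟩ := exV_all (t + 1) (by omega) v u hvu
  obtain ⟨C, hC1, hC⟩ := numR_sysM ht hR hts u u' v hu huu rfl
  obtain ⟨C₂, hC₂1, hC₂⟩ := FM_lower ht hR hts u.val hu huR
  set Ta : ℕ → ℕ := fun M => C * TT u.val M (t + 1) + D' M + D'' M with hTa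
  set D : ℕ → ℕ := fun M => (2 * t + 1) * (Ta M + 2 * M + 2 + C₂) + C₂ +
    cC u.val M * ((t + 1) ^ R * ((2 * t + 1) * (Ta M + M + 1) + u.val + 1) ^ (u.val + 1)) +
    cC u.val M with hD
  have hTaP : PolyB Ta := (((PolyB.const C).mul (PolyB.TT u.val (t + 1))).add hD'P).add hD''P
  have hcP : PolyB fun M => cC u.val M := PolyB.cC u.val
  refine ⟨D, ?_, ?_⟩
  · refine (((((PolyB.const (2 * t + 1)).mul ?_).add (PolyB.const C₂)).add
      (hcP.mul ((PolyB.const ((t + 1) ^ R)).mul (PolyB.pow ?_ (u.val + 1))))).add hcP)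
    · exact ((hTaP.add ((PolyB.const 2).mul PolyB.id)).add (PolyB.const 2)).add (PolyB.const C₂)
    · exact (((PolyB.const (2 * t + 1)).mul ((hTaP.add PolyB.id).add (PolyB.const 1))).add
        (PolyB.const u.val)).add (PolyB.const 1)
  · intro M hM n N hMg S hS hsum
    have hTaD : Ta M ≤ D M := by
      have h1 : Ta M + 2 * M + 2 + C₂ ≤ (2 * t + 1) * (Ta M + 2 * M + 2 + C₂) :=
        Nat.le_mul_of_pos_left _ (by omega)
      simp only [hD]
      omega
    have H : NumR (sysM ht u hu n) M (TT u.val M (t + 1)) (Ta M) N :=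
      hC M (TT u.val M (t + 1)) (Ta M) hM le_rfl (by simp only [hTa]; omega)
        (ExM_le (hD' M hM) (by simp only [hTa]; omega))
        (ExV_le (hD'' M hM) (by simp only [hTa]; omega)) n N (hMg.le hTaD)
    obtain ⟨ls, -, hls⟩ := exists_max_image (univ : Finset (Option (Fin t))) N ⟨none, mem_univ _⟩
    have hmax : ∀ i, N i ≤ N ls := fun i => hls i (mem_univ i)
    have hddN : dd N ≤ (2 * t + 1) * N ls := dd_le_max N (N ls) hmax
    have hbig : Ta M + 2 * M + 2 + C₂ ≤ N ls := by
      by_contra hcon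
      push Not at hcon
      have h1 : (2 * t + 1) * N ls ≤ (2 * t + 1) * (Ta M + 2 * M + 2 + C₂) :=
        Nat.mul_le_mul_left _ hcon.le
      have h2 := hMg.deg
      have h3 : (2 * t + 1) * (Ta M + 2 * M + 2 + C₂) + C₂ ≤ D M := by
        simp only [hD]
        omega
      omega
    have hFM : D M ≤ FM R u.val n ls N + C₂ := by
      apply hC₂ (D M) n N _ hMg ls (by omega)
      have h1 : C₂ ≤ D M := by
        simp only [hD]
        omega
      exact h1
    have hFlow : cC u.val M *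
        ((t + 1) ^ R * ((2 * t + 1) * (Ta M + M + 1) + u.val + 1) ^ (u.val + 1)) +
        cC u.val M ≤ FM R u.val n ls N := by
      have h1 : cC u.val M *
          ((t + 1) ^ R * ((2 * t + 1) * (Ta M + M + 1) + u.val + 1) ^ (u.val + 1)) +
          cC u.val M + C₂ ≤ D M := by
        simp only [hD]
        omega
      omega
    have hex := H.exact ls hmax (by omega) (show cC u.val M ≤ FM R u.val n ls N by omega)
      ?_ S hS ?_
    · exact (Fk_iff (gM t u) (WM u n N) S).2 hex
    · intro a _ ha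
      change (cC u.val M : ℤ) * RM R u.val n a ≤ (FM R u.val n ls N : ℤ)
      have h1 := RM_upper u.val huR n a
      have h2 : dd a ≤ (2 * t + 1) * (Ta M + M + 1) := dd_le_max a _ ha
      have h3 : (RM R u.val n a : ℤ) ≤
          (((t + 1) ^ R * ((2 * t + 1) * (Ta M + M + 1) + u.val + 1) ^ (u.val + 1) : ℕ) : ℤ) := by
        refine h1.trans ?_
        have h4 : (t + 1) ^ R * (dd a + u.val + 1) ^ (u.val + 1) ≤
            (t + 1) ^ R * ((2 * t + 1) * (Ta M + M + 1) + u.val + 1) ^ (u.val + 1) := by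
          apply Nat.mul_le_mul_left
          exact Nat.pow_le_pow_left (by omega) _
        exact_mod_cast h4
      calc (cC u.val M : ℤ) * RM R u.val n a ≤ (cC u.val M : ℤ) *
          (((t + 1) ^ R * ((2 * t + 1) * (Ta M + M + 1) + u.val + 1) ^ (u.val + 1) : ℕ) : ℤ) :=
            mul_le_mul_of_nonneg_left h3 (by positivity)
        _ = ((cC u.val M *
          ((t + 1) ^ R * ((2 * t + 1) * (Ta M + M + 1) + u.val + 1) ^ (u.val + 1)) : ℕ) : ℤ) := by
            push_cast
            ring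
        _ ≤ (FM R u.val n ls N : ℤ) := by
            exact_mod_cast (show cC u.val M *
              ((t + 1) ^ R * ((2 * t + 1) * (Ta M + M + 1) + u.val + 1) ^ (u.val + 1)) ≤
              FM R u.val n ls N by omega)
    · change RM R u.val n N ≤ _
      unfold RM
      have h1 : (tau (t + 1) (R - u.val) (u.val + 1) (dd N) : ℤ) ≤
          ((∑ b, ell (u.val + 1) (mu n N b) + (S.map (ell (u.val + 1))).sum : ℕ) : ℤ) := by
        exact_mod_cast hsum
      push_cast at h1 ⊢
      linarith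

theorem exM_all (ht : 1 ≤ t) (hR : 1 ≤ R) (hts : t + s = (t + 1) ^ (R + 1)) (u : Fin (R + 1)) :
    ∃ D : ℕ → ℕ, PolyB D ∧ ∀ M, 1 ≤ M → ExM t s u M (D M) := by
  obtain ⟨k, hk⟩ : ∃ k, u.val = k := ⟨_, rfl⟩
  induction k generalizing u with
  | zero => exact ⟨fun _ => 0, PolyB.const 0, fun M _ => exM_base ht u hk M⟩
  | succ k ih =>
    exact exM_step ht hR hts u ⟨k, by omega⟩ hk (ih ⟨k, by omega⟩ rfl)

end Pool.Agent.H18.Pr

end

section

/-!
# Module FinalR (PR): many large multiplicities in `ℙ^r`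
-/

namespace Pool.Agent.H18.Pr

open Finset Pool.Agent.H18.Ex Pool.Agent.H18.Cub Pool.Agent.H18.Fat

/-- Many large multiplicities in `ℙ^r`. -/
theorem many_largeR (r e : ℕ) (hr : 2 ≤ r) (he : 2 ≤ e) :
    ∃ K E : ℕ, ∀ M, 1 ≤ M → ∀ (k d : ℕ) (m : Fin k → ℕ) (J : Finset (Fin k)), J.card ≤ e ^ r →
      (∀ i, i ∉ J → m i ≤ M) →
      (∀ S ⊆ J, S.card ≤ e → ∑ i ∈ S, m i + ((r - 1) * (e - 1) - 2) ≤ d) →
      K * M ^ E ≤ d → (∀ i ∈ J, m i + K * M ^ E ≤ d) →
      ∑ i ∈ J, m i + K * M ^ E ≤ e ^ (r - 1) * d →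
      ForGeneralPoints r k fun p => ImposesMaximalConditions r d p m := by
  obtain ⟨t, rfl⟩ : ∃ t, e = t + 1 := ⟨e - 1, by omega⟩
  obtain ⟨R, rfl⟩ : ∃ R, r = R + 1 := ⟨r - 1, by omega⟩
  have ht : 1 ≤ t := by omega
  have hlt : t + 1 ≤ (t + 1) ^ (R + 1) := Nat.le_self_pow (by omega) _
  obtain ⟨s, hts⟩ : ∃ s, t + s = (t + 1) ^ (R + 1) := ⟨(t + 1) ^ (R + 1) - t, by omega⟩
  have hs : 1 ≤ s := by omega
  obtain ⟨D, ⟨K, E, hKE⟩, hD⟩ := exM_all (R := R) ht (by omega) hts (Fin.last R)
  refine ⟨K, E, fun M hM k d m J hJ hsmall hsum hd hdJ hcurve => ?_⟩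
  have h1 := hKE M hM
  refine many_large_of R t s M (D M) ht hs hts (Fin.last R) rfl hM (hD M hM) k d m J hJ hsmall
    hsum (by omega) (fun i hi => ?_) ?_
  · have := hdJ i hi
    omega
  · simp only [Nat.add_sub_cancel] at hcurve
    omega

end Pool.Agent.H18.Pr

end

section

/-!
# Module Asm (TA): Theorem A and the plane theorem
-/

namespace Pool.Agent.H18.Ta

open Finset Pool.Agent.H18.Ex Pool.Agent.H18.Fat Pool.Agent.H18.Pr

/-- The plane theorem before Cremona transformations. -/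
theorem plane : ∃ K E : ℕ, ∀ M : ℕ, 1 ≤ M →
    ∀ (k d : ℕ) (m : Fin k → ℕ) (J : Finset (Fin k)),
    J.card ≤ 9 → (∀ i, i ∉ J → m i ≤ M) → (∀ S : Finset (Fin k), S.card ≤ 3 → ∑ i ∈ S, m i ≤ d) →
    K * M ^ E ≤ d → (J.card = 9 → ∑ i ∈ J, m i + K * M ^ E ≤ 3 * d) →
    ForGeneralPoints 2 k fun p => ImposesMaximalConditions 2 d p m := by
  classical
  obtain ⟨K, E, H⟩ := many_largeR 2 3 le_rfl (by norm_num)
  refine ⟨70 * (K + 1) ^ 18, 18 * E, fun M hM k d m J hJ hsmall hS hd' hcurve' => ?_⟩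
  set D₁ := K * M ^ E with hD₁
  have hbound : 3 * D₁ + 67 * (D₁ + 1) ^ 18 ≤ 70 * (K + 1) ^ 18 * M ^ (18 * E) := by
    have hME : 1 ≤ M ^ E := Nat.one_le_pow _ _ hM
    have h1 : D₁ + 1 ≤ (K + 1) * M ^ E := by
      rw [hD₁, add_mul, one_mul]
      omega
    have h2 : (D₁ + 1) ^ 18 ≤ ((K + 1) * M ^ E) ^ 18 := Nat.pow_le_pow_left h1 18
    have h3 : ((K + 1) * M ^ E) ^ 18 = (K + 1) ^ 18 * M ^ (18 * E) := by
      rw [mul_pow, ← pow_mul, mul_comm E 18]
    have h4 : D₁ ≤ (D₁ + 1) ^ 18 := by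
      calc D₁ ≤ D₁ + 1 := Nat.le_succ _
        _ = (D₁ + 1) ^ 1 := (pow_one _).symm
        _ ≤ (D₁ + 1) ^ 18 := Nat.pow_le_pow_right (Nat.succ_pos _) (by norm_num)
    rw [mul_assoc, ← h3]
    omega
  have hd : 3 * D₁ + 67 * (D₁ + 1) ^ 18 ≤ d := hbound.trans hd'
  have hcurve : J.card = 9 → ∑ i ∈ J, m i + D₁ ≤ 3 * d := fun h => by
    have := hcurve' h
    omega
  have hD₂ : ∀ b < D₁, dFill b ≤ 67 * (D₁ + 1) ^ 18 := fun b hb =>
    (dFill_le b).trans (Nat.mul_le_mul_left _ (Nat.pow_le_pow_left (by omega) _))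
  by_cases hlarge : ∃ i, d < m i + D₁
  · obtain ⟨i₀, hi₀⟩ := hlarge
    have h1 : m i₀ ≤ d := by simpa using hS {i₀} (by simp)
    have h2 : dFill (d - m i₀) ≤ 67 * (D₁ + 1) ^ 18 := hD₂ _ (by omega)
    refine theoremA (d - m i₀) k d m i₀ (by omega) (by omega) (fun i hi => ?_)
      (fun i j hi hj hij => ?_)
    · have h3 := hS {i₀, i} (by rw [card_pair (Ne.symm hi)]; norm_num)
      rw [sum_pair (Ne.symm hi)] at h3
      omega
    · have h3 := hS {i₀, i, j} (by rw [card_eq_three.2 ⟨i₀, i, j, Ne.symm hi, Ne.symm hj, hij, rfl⟩])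
      rw [sum_insert (by simp [Ne.symm hi, Ne.symm hj]), sum_pair hij] at h3
      omega
  · push Not at hlarge
    refine H M hM k d m J (by norm_num; omega) hsmall (fun S _ hS3 => ?_) (by omega)
      (fun i _ => hlarge i) ?_
    · have := hS S hS3
      simpa using this
    · rcases Nat.lt_or_ge J.card 9 with h9 | h9
      · -- at most eight points: any three have sum at most d
        have h8 := sum_eight m d J (by omega) hS
        norm_num
        omega
      · have := hcurve (by omega)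
        norm_num
        omega

end Pool.Agent.H18.Ta

end

section

/-!
# Nef classes with at most eight large multiplicities
-/

namespace Pool.Agent.H18.Nef

open Finset Pool.Agent.H18.Cub Pool.Agent.H18.Pr Pool.Agent.H18.Fat Pool.Agent.H18.Ub

variable {n : ℕ}

/-- Nef classes with at most eight large multiplicities. -/
theorem eight_large : ∃ K E : ℕ, ∀ M : ℕ, 1 ≤ M → ∀ (n d : ℕ) (m : Fin n → ℕ)
    (J : Finset (Fin n)), J.card ≤ 8 → (∀ i, i ∉ J → m i ≤ M) → PosE (K * M ^ E) d m →
    ForGeneralPoints 2 n fun p => ImposesMaximalConditions 2 d p m := by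
  obtain ⟨K, E, H⟩ := Pool.Agent.H18.Ta.plane
  refine ⟨K, E, fun M hM n d m J hJ hsmall hpos => ?_⟩
  obtain ⟨d', m', h1, h2, h3, h4, h5⟩ := hpos.reduce d m hsmall
  have h6 := H M hM n d' m' J (by omega) h3 h4 h2.deg (fun h => by omega)
  refine (cremona_final (by norm_num) h1 h6).mono fun p hp => ?_
  have h7 := hp.2
  by_contra hcon
  have h8 := (h7.1 hcon).2
  have h9 : virt d' m' = ((d' + 2).choose 2 : ℤ) - ∑ i, ((m' i + 2 - 1).choose 2 : ℤ) := rfl
  have h10 : virt d m = ((d + 2).choose 2 : ℤ) - ∑ i, ((m i + 2 - 1).choose 2 : ℤ) := rfl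
  rw [← h9, ← h10, h5] at h8
  exact lt_irrefl _ h8

end Pool.Agent.H18.Nef

end

section

/-!
# The plane: at most eight arbitrary multiplicities, and points of medium multiplicity
-/

namespace Pool.Agent.H74.BP

open Finset Pool.Agent.H18.Cub Pool.Agent.H18.Pr Pool.Agent.H18.Fat Pool.Agent.H18.Ub Pool.Agent.H18.Nef

/-- The dimensions near `d`, for a class in standard form with large multiplicities at three to eight
points. -/
theorem exact_eight : ∃ K : ℕ, ∀ (n d y x : ℕ) (m : Fin n → ℕ) (J : Finset (Fin n)),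
    3 ≤ J.card → J.card ≤ 8 → (∀ i ∈ J, y ≤ m i) →
    (∀ S ⊆ J, S.card = 3 → ∑ i ∈ S, m i ≤ d) → 6 * (x + K) + 8 ≤ y →
    (generalDim 2 (d - x) fun i => if i ∈ J then m i else 0) +
      ∑ i ∈ J, (m i + 2 - 1).choose 2 = (d - x + 2).choose 2 := by
  classical
  obtain ⟨K, E, H⟩ := eight_large
  refine ⟨K, fun n d y x m J hJ3 hJ8 hy hstd hxy => ?_⟩
  have hxd : x ≤ d := by
    obtain ⟨S, hS, hSc⟩ := exists_subset_card_eq hJ3
    have h1 := hstd S hS hSc
    have h2 : ∑ _i ∈ S, y ≤ ∑ i ∈ S, m i := sum_le_sum fun i hi => hy i (hS hi)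
    rw [sum_const, hSc, smul_eq_mul] at h2
    omega
  have hpair : ∀ (e : ℕ) (k : Fin n → ℕ), 1 ≤ generalDim 2 e k →
      ∑ i, (if i ∈ J then m i else 0) * k i + K * e ≤ (d - x) * e := by
    intro e k hk
    have h1 := nef_eight m J hJ3 hJ8 d y hy hstd hk
    have h2 : ∑ i, (if i ∈ J then m i else 0) * k i = ∑ i ∈ J, m i * k i := by
      rw [← sum_subset (subset_univ J)]
      · exact sum_congr rfl fun i hi => by rw [if_pos hi]
      · intro i _ hi
        rw [if_neg hi, Nat.zero_mul]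
    rw [h2]
    have h3 : 6 * (x + K) * e ≤ y * e := Nat.mul_le_mul_right _ (by omega)
    have h4 : (d - x) * e + x * e = d * e := by
      rw [← Nat.add_mul, Nat.sub_add_cancel hxd]
    nlinarith
  have h1 := H 1 le_rfl n (d - x) (fun i => if i ∈ J then m i else 0) J hJ8
    (fun i hi => by rw [if_neg hi]; exact Nat.zero_le _)
    ⟨fun e k hk => by
      have := hpair e k hk
      omega, fun e k hk => by
      have h2 := hpair e k hk.nef.2
      have he : 1 ≤ e := by
        have h3 := lineImage_sq hk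
        by_contra hcon
        have : e = 0 := by omega
        subst this
        simp at h3
      have h3 : K * 1 ≤ K * e := Nat.mul_le_mul_left _ he
      rw [one_pow]
      omega⟩
  obtain ⟨p, hp1, hp2⟩ := Pool.Agent.H18.Cub.exists_of_general
    (h1.and (generalDim_spec 2 (d - x) fun i => if i ∈ J then m i else 0))
  unfold ImposesMaximalConditions at hp1
  have h2 : ∑ i, (((if i ∈ J then m i else 0) + 2 - 1).choose 2 : ℤ) =
      ((∑ i ∈ J, (m i + 2 - 1).choose 2 : ℕ) : ℤ) := by
    push_cast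
    rw [← sum_subset (subset_univ J)]
    · exact sum_congr rfl fun i hi => by rw [if_pos hi]
    · intro i _ hi
      rw [if_neg hi]
      rfl
  have h3 := length_eight m J hJ3 hJ8 d y x hy hstd (by omega)
  rw [hp2, h2, max_eq_right (by omega)] at hp1
  omega

end Pool.Agent.H74.BP

end
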