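import Pool.Agent.H94.LP4.H74.CT.Slow
import Pool.Agent.H94.LP4.M19
import Pool.Agent.H94.LP4.M53
import Pool.Agent.H94.LP4.M66

/-! The parts of this file: H74.KV.Vol, H74.KV.VolU, H74.KV.VolV. -/

section

/-!
# The volume of a nef class
-/

namespace Pool.Agent.H74.KV

open MvPolynomial Pool.Agent.H18.Fat Pool.Agent.H18.Ub Pool.Agent.H22.LU Pool.Agent.H74.CT Pool.Agent.H18.Nef

variable {n : ℕ}

/-- Restriction to the components of a curve of degree `f`. -/
theorem peel_all {D : ℕ} {p : Fin n → Fin (2 + 1) → ℂ} (hp : Good n D p) (a : ℕ) (μ : Fin n → ℕ)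
    (hnef : NefC a μ) (k : ℕ) : ∀ f ≤ D, ∀ F : MvPolynomial (Fin (2 + 1)) ℂ, F ≠ 0 →
    F.IsHomogeneous f → ∃ φ : Fin n → ℕ, (∀ i, φ i ≤ f) ∧
      (∀ i, VanishesToOrder F (p i) (φ i) ∧ ¬ VanishesToOrder F (p i) (φ i + 1)) ∧
      ∀ (j : ℕ) (b : Fin n → ℕ), j ≤ k * a → (∀ i, k * μ i + f ≤ b i + D) →
        Module.finrank ℂ (fatForms 2 j p b) + k * ∑ i, μ i * φ i ≤
          Module.finrank ℂ (fatForms 2 (j - f) p fun i => b i - φ i) + k * (a * f) +
            f * (n * D * D + 1) := by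
  classical
  intro f
  induction f using Nat.strong_induction_on with
  | _ f ih =>
    intro hfD F hF0 hFf
    rcases Nat.eq_zero_or_pos f with h0 | hpos
    · subst h0
      obtain ⟨c, hc⟩ : ∃ c, F = C c := ⟨_, totalDegree_eq_zero_iff_eq_C.1 (hFf.totalDegree hF0)⟩
      have hc0 : c ≠ 0 := by
        rintro rfl
        exact hF0 (by rw [hc, map_zero])
      refine ⟨fun _ => 0, fun _ => le_rfl, fun i => ⟨vanishes_zero _ _, ?_⟩, fun j b _ _ => ?_⟩
      · rw [Nat.zero_add, vanishes_one_iff, hc, eval_C]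
        exact hc0
      · simp
    · have hnu : ¬ IsUnit F := by
        intro h
        have h1 := ((MvPolynomial.isUnit_iff_totalDegree_of_isReduced (R := ℂ)).1 h).2
        rw [hFf.totalDegree hF0] at h1
        omega
      obtain ⟨A, hA, G, hG⟩ := WfDvdMonoid.exists_irreducible_factor hnu hF0
      have hA0 := hA.ne_zero
      have hG0 : G ≠ 0 := by
        rintro rfl
        exact hF0 (by rw [hG, mul_zero])
      obtain ⟨e, g, hAe, hGg, heg⟩ := hom_of_mul (hG ▸ hFf) hA0 hG0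
      have he : 1 ≤ e := by
        by_contra hcon
        have h1 : e = 0 := by omega
        subst h1
        have h2 := totalDegree_eq_zero_iff_eq_C.1 (hAe.totalDegree hA0)
        apply hA.not_isUnit
        rw [h2]
        refine (isUnit_iff_ne_zero.2 fun h3 => hA0 ?_).map (C : ℂ →+* MvPolynomial (Fin (2 + 1)) ℂ)
        rw [h2, h3, map_zero]
      choose κ hκe hκ1 hκ2 using fun i => exists_mult hAe hA0 (p i)
      obtain ⟨φ, hφ1, hφ2, hφ3⟩ := ih g (by omega) (by omega) G hG0 hGg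
      have hκD : ∀ i, κ i ≤ D := fun i => (hκe i).trans (by omega)
      -- the component meets the nef class nonnegatively
      have hN : ∑ i, μ i * κ i ≤ a * e := by
        apply hnef
        rw [← hp.dim e (by omega) κ hκD]
        have i1 := fin_fatForms 2 e p κ
        rw [Nat.one_le_iff_ne_zero, Ne, Submodule.finrank_eq_zero]
        intro h
        have h1 : A ∈ fatForms 2 e p κ := ⟨hAe, hκ1⟩
        rw [h, Submodule.mem_bot] at h1
        exact hA0 h1
      refine ⟨fun i => κ i + φ i, fun i => ?_, fun i => ⟨?_, fun h => ?_⟩, fun j b hj hb => ?_⟩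
      · have e1 := hκe i
        have e2 := hφ1 i
        change κ i + φ i ≤ f
        omega
      · rw [hG]
        exact van_mul (hκ1 i) (hφ2 i).1
      · rw [hG] at h
        have h1 := vanishes_of_mul (hκ2 i) h
        have h2 : κ i + φ i + 1 - κ i = φ i + 1 := by omega
        rw [h2] at h1
        exact (hφ2 i).2 h1
      · have h1 := hφ3 (j - e) (fun i => b i - κ i) (by omega) fun i => by
          have e1 := hb i
          have e2 := hκe i
          change k * μ i + g ≤ b i - κ i + D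
          omega
        have h2 : (fun i => b i - κ i - φ i) = fun i => b i - (κ i + φ i) := by
          funext i
          omega
        have h3 : j - e - g = j - f := by omega
        rw [h2, h3] at h1
        -- one component
        have h4 : Module.finrank ℂ (fatForms 2 j p b) + k * ∑ i, μ i * κ i ≤
            Module.finrank ℂ (fatForms 2 (j - e) p fun i => b i - κ i) + k * (a * e) +
              (n * D * D + 1) := by
          by_cases hX : X 0 ∣ A
          · -- the line at infinity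
            have hass : Associated (X 0) A :=
              (MvPolynomial.X_prime (R := ℂ) (i := (0 : Fin (2 + 1)))).associated_of_dvd hA.prime hX
            obtain ⟨u, hu⟩ := hass
            have hκ0 : ∀ i, κ i = 0 := by
              intro i
              by_contra hne
              have h5 : VanishesToOrder A (p i) 1 := van_mono (hκ1 i) (by omega)
              rw [vanishes_one_iff, ← hu, map_mul, eval_X, hp.one, one_mul] at h5
              have h6 : IsUnit (eval (p i) (u : MvPolynomial (Fin (2 + 1)) ℂ)) :=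
                u.isUnit.map (eval (p i))
              rw [h5] at h6
              exact not_isUnit_zero h6
            have he1 : e = 1 := by
              have h5 : (X 0 : MvPolynomial (Fin (2 + 1)) ℂ).IsHomogeneous 1 := isHomogeneous_X ℂ 0
              have h6 := ((MvPolynomial.isUnit_iff_totalDegree_of_isReduced (R := ℂ)).1
                u.isUnit).2
              have h7 := totalDegree_mul_of_isDomain (f := (X 0 : MvPolynomial (Fin (2 + 1)) ℂ))
                (g := (u : MvPolynomial (Fin (2 + 1)) ℂ)) (MvPolynomial.X_ne_zero (R := ℂ) (0 : Fin (2 + 1)))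
                u.isUnit.ne_zero
              rw [hu, hAe.totalDegree hA0, totalDegree_X, h6] at h7
              exact h7
            have h5 : ∑ i, μ i * κ i = 0 := Finset.sum_eq_zero fun i _ => by rw [hκ0, Nat.mul_zero]
            have h6 : (fun i => b i - κ i) = b := by
              funext i
              rw [hκ0, Nat.sub_zero]
            rw [h5, h6, he1, Nat.mul_one, Nat.mul_zero, Nat.add_zero]
            rcases Nat.eq_zero_or_pos j with hj0 | hj0
            · subst hj0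
              rw [Nat.zero_sub]
              omega
            · obtain ⟨j', rfl⟩ : ∃ j', j = j' + 1 := ⟨j - 1, by omega⟩
              have h7 := peel_inf p hp.ne j' b
              rw [Nat.add_sub_cancel]
              omega
          · have h5 := peel p hp.one hp.inj hA hAe he hX κ hκ1 hκ2 j b
              (k * (a * e) - k * ∑ i, μ i * κ i + (n * D * D + 1)) (by
                have e1 : e * j ≤ k * (a * e) := by
                  calc e * j ≤ e * (k * a) := Nat.mul_le_mul_left _ hj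
                    _ = k * (a * e) := by ring
                have e2 : k * ∑ i, μ i * κ i ≤ ∑ i, κ i * b i + n * D * D := by
                  have e3 : ∀ i, k * (μ i * κ i) ≤ κ i * b i + D * D := by
                    intro i
                    have e4 := hb i
                    have e5 : κ i * (k * μ i) ≤ κ i * (b i + D) :=
                      Nat.mul_le_mul_left _ (by omega)
                    have e6 : κ i * D ≤ D * D := Nat.mul_le_mul_right _ (hκD i)
                    calc k * (μ i * κ i) = κ i * (k * μ i) := by ring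
                      _ ≤ κ i * (b i + D) := e5
                      _ = κ i * b i + κ i * D := by ring
                      _ ≤ κ i * b i + D * D := by omega
                  rw [Finset.mul_sum]
                  refine (Finset.sum_le_sum fun i _ => e3 i).trans ?_
                  rw [Finset.sum_add_distrib, Finset.sum_const, Finset.card_univ,
                    Fintype.card_fin, smul_eq_mul, mul_assoc]
                have e7 : k * ∑ i, μ i * κ i ≤ k * (a * e) := Nat.mul_le_mul_left _ hN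
                omega)
            have e7 : k * ∑ i, μ i * κ i ≤ k * (a * e) := Nat.mul_le_mul_left _ hN
            omega
        have h5 : ∑ i, μ i * (κ i + φ i) = ∑ i, μ i * κ i + ∑ i, μ i * φ i := by
          rw [← Finset.sum_add_distrib]
          exact Finset.sum_congr rfl fun i _ => Nat.mul_add _ _ _
        have h6 : k * (a * f) = k * (a * e) + k * (a * g) := by
          rw [← heg]
          ring
        have h7 : f * (n * D * D + 1) = e * (n * D * D + 1) + g * (n * D * D + 1) := by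
          rw [← heg]
          ring
        have h8 : 1 * (n * D * D + 1) ≤ e * (n * D * D + 1) := Nat.mul_le_mul_right _ he
        dsimp only
        rw [h5, h6, h7, Nat.mul_add]
        omega

theorem choose_add_le (b z : ℕ) : (b + z + 2 - 1).choose 2 ≤ (b + 2 - 1).choose 2 + z * (b + z) := by
  rw [bez_len]
  have h1 : (z + 2 - 1).choose 2 ≤ z * z := by
    have h2 : z + 2 - 1 = z + 1 := by omega
    rw [h2, Nat.choose_two_right, Nat.add_sub_cancel]
    refine Nat.div_le_of_le_mul ?_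
    rcases Nat.eq_zero_or_pos z with h | h
    · subst h
      simp
    · nlinarith
  have h2 : z * (b + z) = z * z + b * z := by ring
  omega

theorem choose_step {b b' y M : ℕ} (h : b' ≤ b + y) (hM : b' ≤ M) :
    (b' + 2 - 1).choose 2 ≤ (b + 2 - 1).choose 2 + y * M := by
  rcases Nat.lt_or_ge b b' with hb | hb
  · obtain ⟨z, rfl⟩ : ∃ z, b' = b + z := ⟨b' - b, by omega⟩
    have h1 := choose_add_le b z
    have h2 : z * (b + z) ≤ y * M := Nat.mul_le_mul (by omega) hM
    omega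
  · have h1 : (b' + 2 - 1).choose 2 ≤ (b + 2 - 1).choose 2 := Nat.choose_le_choose _ (by omega)
    omega

/-- The step: restriction to a member of the system `k₀ N`. -/
theorem vol_step {a : ℕ} {μ : Fin n → ℕ} (hnef : NefC a μ) {k₀ : ℕ}
    (hk₀ : 1 ≤ generalDim 2 (k₀ * a) fun i => k₀ * μ i) (k : ℕ) :
    generalDim 2 (k * a) (fun i => k * μ i) + k * k₀ * ∑ i, μ i ^ 2 ≤
      generalDim 2 ((k - k₀) * a) (fun i => (k - k₀) * μ i) + k * k₀ * a ^ 2 +
        k₀ * a * (n * (k₀ * a) * (k₀ * a) + 1) := by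
  classical
  have hμa : ∀ i, μ i ≤ a := fun i => hnef.one i
  obtain ⟨p, hp⟩ := exists_good n (k * a + k₀ * a)
  have hpD : Good n (k₀ * a) p := ⟨hp.one, hp.inj, fun d hd m hm =>
    hp.dim d (hd.trans (Nat.le_add_left _ _)) m fun i => (hm i).trans (Nat.le_add_left _ _)⟩
  have h1 : Module.finrank ℂ (fatForms 2 (k₀ * a) p fun i => k₀ * μ i) =
      generalDim 2 (k₀ * a) fun i => k₀ * μ i :=
    hpD.dim _ le_rfl _ fun i => Nat.mul_le_mul_left _ (hμa i)
  obtain ⟨F, hF, hF0⟩ : ∃ F ∈ fatForms 2 (k₀ * a) p (fun i => k₀ * μ i), F ≠ 0 := by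
    by_contra hcon
    push Not at hcon
    have h2 : (fatForms 2 (k₀ * a) p fun i => k₀ * μ i) = ⊥ := by
      rw [eq_bot_iff]
      intro F hF
      rw [Submodule.mem_bot]
      exact hcon F hF
    rw [h2, finrank_bot] at h1
    omega
  obtain ⟨φ, hφ1, hφ2, hφ3⟩ := peel_all hpD a μ hnef k (k₀ * a) le_rfl F hF0 hF.1
  have hφk : ∀ i, k₀ * μ i ≤ φ i := by
    intro i
    by_contra hcon
    push Not at hcon
    exact (hφ2 i).2 (van_mono (hF.2 i) hcon)
  have h2 := hφ3 (k * a) (fun i => k * μ i) le_rfl fun i => le_rfl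
  have h3 : k * a - k₀ * a = (k - k₀) * a := (Nat.sub_mul _ _ _).symm
  rw [h3] at h2
  have h4 := raise (r := 2) (d := (k - k₀) * a) (by norm_num) p hp.ne
    (fun i => min (k * μ i - φ i) ((k - k₀) * μ i)) (fun i => (k - k₀) * μ i)
    fun i => min_le_right _ _
  have h5 : Module.finrank ℂ (fatForms 2 ((k - k₀) * a) p fun i => k * μ i - φ i) ≤
      Module.finrank ℂ (fatForms 2 ((k - k₀) * a) p fun i =>
        min (k * μ i - φ i) ((k - k₀) * μ i)) := by
    have := fin_fatForms 2 ((k - k₀) * a) p fun i => min (k * μ i - φ i) ((k - k₀) * μ i)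
    exact Submodule.finrank_mono fun G hG => ⟨hG.1, fun i => van_mono (hG.2 i) (min_le_left _ _)⟩
  have h6 : ∀ i, ((k - k₀) * μ i + 2 - 1).choose 2 ≤
      (min (k * μ i - φ i) ((k - k₀) * μ i) + 2 - 1).choose 2 +
        (φ i - k₀ * μ i) * (k * μ i) := by
    intro i
    refine choose_step ?_ (Nat.mul_le_mul_right _ (Nat.sub_le _ _))
    have e1 := hφk i
    have e2 : (k - k₀) * μ i = k * μ i - k₀ * μ i := Nat.sub_mul _ _ _
    rw [e2]
    omega
  have h7 := Finset.sum_le_sum fun i (_ : i ∈ (Finset.univ : Finset (Fin n))) => h6 i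
  rw [Finset.sum_add_distrib] at h7
  have h8 : ∑ i, (φ i - k₀ * μ i) * (k * μ i) + k * k₀ * ∑ i, μ i ^ 2 =
      k * ∑ i, μ i * φ i := by
    rw [Finset.mul_sum, Finset.mul_sum, ← Finset.sum_add_distrib]
    refine Finset.sum_congr rfl fun i _ => ?_
    obtain ⟨c, hc⟩ := Nat.exists_eq_add_of_le (hφk i)
    rw [hc, Nat.add_sub_cancel_left]
    ring
  have h9 : Module.finrank ℂ (fatForms 2 ((k - k₀) * a) p fun i => (k - k₀) * μ i) =
      generalDim 2 ((k - k₀) * a) fun i => (k - k₀) * μ i := by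
    refine hp.dim _ ?_ _ fun i => ?_
    · exact (Nat.mul_le_mul_right _ (Nat.sub_le _ _)).trans (Nat.le_add_right _ _)
    · exact (Nat.mul_le_mul (Nat.sub_le _ _) (hμa i)).trans (Nat.le_add_right _ _)
  have h10 : generalDim 2 (k * a) (fun i => k * μ i) ≤
      Module.finrank ℂ (fatForms 2 (k * a) p fun i => k * μ i) := Nat.sInf_le ⟨p, rfl⟩
  have h11 : k * (a * (k₀ * a)) = k * k₀ * a ^ 2 := by ring
  rw [h11] at h2
  rw [h9] at h4
  omega

end Pool.Agent.H74.KV

end

section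

/-!
# The dimension of a nef system is its self-intersection, up to a small error
-/

namespace Pool.Agent.H74.KV

open MvPolynomial Pool.Agent.H18.Fat Pool.Agent.H18.Ub Pool.Agent.H22.LU Pool.Agent.H74.CT Pool.Agent.H18.Nef

variable {n : ℕ}

theorem two_choose (x : ℕ) : 2 * ((x + 2).choose 2 : ℤ) = (x + 2) * (x + 1) := by
  have h : ((x + 2).choose 2 : ℚ) = (x + 2) * (x + 1) / 2 := by
    rw [Nat.cast_choose_two]
    push_cast
    ring
  have h2 : ((2 * ((x + 2).choose 2 : ℤ) : ℤ) : ℚ) = (((x + 2) * (x + 1) : ℤ) : ℚ) := by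
    push_cast
    rw [h]
    ring
  exact_mod_cast h2

theorem two_len (x : ℕ) : 2 * ((x + 2 - 1).choose 2 : ℤ) = (x + 1) * x := by
  have h1 : x + 2 - 1 = x + 1 := by omega
  rw [h1]
  have h : ((x + 1).choose 2 : ℚ) = (x + 1) * x / 2 := by
    rw [Nat.cast_choose_two]
    push_cast
    ring
  have h2 : ((2 * ((x + 1).choose 2 : ℤ) : ℤ) : ℚ) = (((x + 1) * x : ℤ) : ℚ) := by
    push_cast
    rw [h]
    ring
  exact_mod_cast h2

/-- Riemann-Roch. -/
theorem rr (d : ℕ) (m : Fin n → ℕ) :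
    ((d : ℤ) + 2) * (d + 1) - ∑ i, ((m i : ℤ) + 1) * m i ≤ 2 * generalDim 2 d m := by
  have h1 := Pool.Agent.H74.CT.generalDim_ge (r := 2) (by norm_num) d m
  have h2 := two_choose d
  have h3 : 2 * ∑ i, ((m i + 2 - 1).choose 2 : ℤ) = ∑ i, ((m i : ℤ) + 1) * m i := by
    rw [Finset.mul_sum]
    exact Finset.sum_congr rfl fun i _ => two_len _
  linarith only [h1, h2, h3]

theorem eff (e : ℕ) (f : Fin n → ℕ) (h : ∑ i, f i ^ 2 < e ^ 2) :
    ∃ K, 1 ≤ K ∧ 1 ≤ generalDim 2 (K * e) fun i => K * f i := by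
  refine ⟨∑ i, f i + 1, by omega, ?_⟩
  set K := ∑ i, f i + 1 with hK
  have h1 := rr (K * e) fun i => K * f i
  have h2 : ∑ i, (((K * f i : ℕ) : ℤ) + 1) * ((K * f i : ℕ) : ℤ) =
      (K : ℤ) ^ 2 * ((∑ i, f i ^ 2 : ℕ) : ℤ) + K * ((∑ i, f i : ℕ) : ℤ) := by
    push_cast
    rw [Finset.mul_sum, Finset.mul_sum, ← Finset.sum_add_distrib]
    exact Finset.sum_congr rfl fun i _ => by ring
  rw [h2] at h1
  have h3 : ((∑ i, f i ^ 2 : ℕ) : ℤ) + 1 ≤ (e : ℤ) ^ 2 := by exact_mod_cast h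
  have h4 : ((∑ i, f i : ℕ) : ℤ) = (K : ℤ) - 1 := by
    rw [hK]
    push_cast
    ring
  rw [h4] at h1
  have h5 : (0 : ℤ) ≤ K := by positivity
  have h6 : (0 : ℤ) ≤ e := by positivity
  have h7 : (K : ℤ) ^ 2 * (((∑ i, f i ^ 2 : ℕ) : ℤ) + 1) ≤ (K : ℤ) ^ 2 * (e : ℤ) ^ 2 :=
    mul_le_mul_of_nonneg_left h3 (by positivity)
  have h8 : (0 : ℤ) ≤ K * e := by positivity
  push_cast at h1
  push_cast at h7
  have h9 : (0 : ℤ) < 2 * (generalDim 2 (K * e) fun i => K * f i : ℕ) := by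
    refine lt_of_lt_of_le ?_ h1
    nlinarith only [h4, h8, h7]
  omega

/-- The self-intersection of a nef class is nonnegative. -/
theorem nef_sq {a : ℕ} {μ : Fin n → ℕ} (hnef : NefC a μ) : ∑ i, μ i ^ 2 ≤ a ^ 2 := by
  by_contra hcon
  push Not at hcon
  set Q := ∑ i, μ i ^ 2 with hQ
  set q := 2 * a + 1 with hq
  set s := Nat.sqrt (q ^ 2 * Q) with hs
  have hs1 : s * s ≤ q ^ 2 * Q := Nat.sqrt_le _
  have hs2 : q ^ 2 * Q < (s + 1) * (s + 1) := Nat.lt_succ_sqrt _
  obtain ⟨K, hK1, hK2⟩ := eff (s + 1) (fun i => q * μ i) (by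
    have : ∑ i, (q * μ i) ^ 2 = q ^ 2 * Q := by
      rw [hQ, Finset.mul_sum]
      exact Finset.sum_congr rfl fun i _ => by ring
    rw [this]
    calc q ^ 2 * Q < (s + 1) * (s + 1) := hs2
      _ = (s + 1) ^ 2 := by ring)
  have h1 := hnef _ _ hK2
  have h2 : ∑ i, μ i * (K * (q * μ i)) = K * (q * Q) := by
    rw [hQ, Finset.mul_sum, Finset.mul_sum]
    exact Finset.sum_congr rfl fun i _ => by ring
  have h3 : a * (K * (s + 1)) = K * (a * (s + 1)) := by ring
  rw [h2, h3] at h1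
  have h4 : q * Q ≤ a * (s + 1) := Nat.le_of_mul_le_mul_left h1 hK1
  have h5 : (a : ℤ) * s * (a * s) ≤ a ^ 2 * (q ^ 2 * Q) := by
    have : a ^ 2 * (s * s) ≤ a ^ 2 * (q ^ 2 * Q) := Nat.mul_le_mul_left _ hs1
    have h6 : ((a ^ 2 * (s * s) : ℕ) : ℤ) ≤ ((a ^ 2 * (q ^ 2 * Q) : ℕ) : ℤ) := by
      exact_mod_cast this
    push_cast at h6
    linarith only [this]
  have h6 : (q : ℤ) * Q - a ≤ a * s := by
    have : ((q * Q : ℕ) : ℤ) ≤ ((a * (s + 1) : ℕ) : ℤ) := by exact_mod_cast h4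
    push_cast at this
    linarith only [h4]
  have h7 : (a : ℤ) ^ 2 + 1 ≤ Q := by exact_mod_cast hcon
  have h8 : (q : ℤ) = 2 * a + 1 := by
    rw [hq]
    push_cast
    ring
  have h0 : (0 : ℤ) ≤ a := by positivity
  have h9 : (0 : ℤ) ≤ q * Q - a := by
    rw [h8]
    nlinarith only [hcon, hq]
  have h10 : ((q : ℤ) * Q - a) * (q * Q - a) ≤ a * s * (a * s) :=
    mul_le_mul h6 h6 h9 (h9.trans h6)
  have h11 : ((q : ℤ) * Q - a) * (q * Q - a) ≤ a ^ 2 * (q ^ 2 * Q) := h10.trans h5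
  have h12 : (q : ℤ) ^ 2 * Q * (a ^ 2 + 1) ≤ q ^ 2 * Q * Q :=
    mul_le_mul_of_nonneg_left h7 (by positivity)
  have h13 : (q : ℤ) ^ 2 * Q ≤ 2 * a * (q * Q) := by nlinarith only [h5, h10, h12]
  have h14 : (q : ℤ) ^ 2 * Q = 2 * a * (q * Q) + q * Q := by
    rw [h8]
    ring
  have h15 : (0 : ℤ) < q * Q := by
    rw [h8]
    nlinarith only [hcon]
  linarith only [h13, h14, h15]

/-- The volume of a nef class. -/
theorem vol {a : ℕ} {μ : Fin n → ℕ} (hnef : NefC a μ) : ∃ C : ℕ, ∀ k : ℕ,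
    2 * generalDim 2 (k * a) (fun i => k * μ i) + k ^ 2 * ∑ i, μ i ^ 2 ≤
      k ^ 2 * a ^ 2 + C * (k + 1) := by
  set Q := ∑ i, μ i ^ 2 with hQ
  have hQA : Q ≤ a ^ 2 := nef_sq hnef
  by_cases hex : ∃ k₀, 1 ≤ k₀ ∧ 1 ≤ generalDim 2 (k₀ * a) fun i => k₀ * μ i
  · obtain ⟨k₀, hk1, hk2⟩ := hex
    set C₀ := k₀ * a * (n * (k₀ * a) * (k₀ * a) + 1) with hC₀
    set B := (k₀ * a + 2).choose 2 with hB
    refine ⟨k₀ * a ^ 2 + 2 * C₀ + 2 * B, fun k => ?_⟩
    induction k using Nat.strong_induction_on with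
    | _ k ih =>
      rcases Nat.lt_or_ge k k₀ with hlt | hge
      · obtain ⟨p, hp⟩ := Pool.Agent.H18.Cub.exists_of_general
          (generalDim_spec 2 (k * a) fun i => k * μ i)
        have h1 := finrank_le_all 2 (k * a) p fun i => k * μ i
        rw [hp] at h1
        have h2 : (k * a + 2).choose 2 ≤ B :=
          Nat.choose_le_choose _ (Nat.add_le_add_right (Nat.mul_le_mul_right _ hlt.le) _)
        have h3 : k ^ 2 * Q ≤ k ^ 2 * a ^ 2 := Nat.mul_le_mul_left _ hQA
        have h4 : 2 * B * 1 ≤ (k₀ * a ^ 2 + 2 * C₀ + 2 * B) * (k + 1) :=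
          Nat.mul_le_mul (Nat.le_add_left _ _) (by omega)
        omega
      · have h1 := vol_step hnef hk2 k
        have h2 := ih (k - k₀) (by omega)
        obtain ⟨c, rfl⟩ : ∃ c, k = c + k₀ := ⟨k - k₀, by omega⟩
        rw [Nat.add_sub_cancel] at h1 h2
        rw [← hQ, ← hC₀] at h1
        have h3 : k₀ * (k₀ * Q) ≤ k₀ * (k₀ * a ^ 2) :=
          Nat.mul_le_mul_left _ (Nat.mul_le_mul_left _ hQA)
        generalize hg1 : generalDim 2 ((c + k₀) * a) (fun i => (c + k₀) * μ i) = g1 at h1 ⊢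
        generalize hg2 : generalDim 2 (c * a) (fun i => c * μ i) = g2 at h1 h2
        have h4 : (k₀ * a ^ 2 + 2 * C₀ + 2 * B) * (c + k₀ + 1) =
            (k₀ * a ^ 2 + 2 * C₀ + 2 * B) * (c + 1) + k₀ * (k₀ * a ^ 2) + 2 * (k₀ * C₀) +
              2 * (k₀ * B) := by ring
        have h5 : C₀ ≤ k₀ * C₀ := Nat.le_mul_of_pos_left _ hk1
        have h6 : (c + k₀) ^ 2 * Q = c ^ 2 * Q + 2 * (c * k₀ * Q) + k₀ * (k₀ * Q) := by ring
        have h7 : (c + k₀) ^ 2 * a ^ 2 = c ^ 2 * a ^ 2 + 2 * (c * k₀ * a ^ 2) +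
            k₀ * (k₀ * a ^ 2) := by ring
        have h8 : (c + k₀) * k₀ * Q = c * k₀ * Q + k₀ * (k₀ * Q) := by ring
        have h9 : (c + k₀) * k₀ * a ^ 2 = c * k₀ * a ^ 2 + k₀ * (k₀ * a ^ 2) := by ring
        rw [h8, h9] at h1
        rw [h4, h6, h7]
        omega
  · push Not at hex
    refine ⟨2 * 2, fun k => ?_⟩
    rcases Nat.eq_zero_or_pos k with h0 | h0
    · subst h0
      obtain ⟨p, hp⟩ := Pool.Agent.H18.Cub.exists_of_general
        (generalDim_spec 2 (0 * a) fun i => 0 * μ i)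
      have h1 := finrank_le_all 2 (0 * a) p fun i => 0 * μ i
      rw [hp, Nat.zero_mul] at h1
      have h2 : (0 + 2).choose 2 = 1 := rfl
      rw [h2] at h1
      rw [Nat.zero_mul]
      omega
    · have h1 := hex k h0
      have h3 : k ^ 2 * Q ≤ k ^ 2 * a ^ 2 := Nat.mul_le_mul_left _ hQA
      omega

end Pool.Agent.H74.KV

end

section

/-!
# The dimension of a nef system, uniformly
-/

namespace Pool.Agent.H74.KV

open MvPolynomial Pool.Agent.H18.Fat Pool.Agent.H18.Ub Pool.Agent.H22.LU Pool.Agent.H74.CT Pool.Agent.H74.BP Pool.Agent.H18.Nef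

theorem volU (n : ℕ) (δ : ℝ) (hδ : 0 < δ) : ∃ a₀ : ℕ, ∀ (a : ℕ) (m : Fin n → ℕ), a₀ ≤ a →
    NefC a m → 2 * (generalDim 2 a m : ℝ) + ∑ i, (m i : ℝ) ^ 2 ≤ (1 + δ) * (a : ℝ) ^ 2 := by
  classical
  obtain ⟨T, hT⟩ := exists_nat_ge (max 1 (2 * (3 + 2 * n) / δ))
  have hT1 : (1 : ℝ) ≤ T := (le_max_left _ _).trans hT
  have hT1' : 1 ≤ T := by exact_mod_cast hT1
  have hT2 : 2 * (3 + 2 * (n : ℝ)) / δ ≤ T := (le_max_right _ _).trans hT
  have hCex : ∀ μ : Fin n → Fin (T + 2), ∃ C : ℕ, NefC (T + 1) (fun i => (μ i : ℕ)) →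
      ∀ k : ℕ, 2 * generalDim 2 (k * (T + 1)) (fun i => k * (μ i : ℕ)) +
        k ^ 2 * ∑ i, (μ i : ℕ) ^ 2 ≤ k ^ 2 * (T + 1) ^ 2 + C * (k + 1) := by
    intro μ
    by_cases h : NefC (T + 1) fun i => (μ i : ℕ)
    · obtain ⟨C, hC⟩ := vol h
      exact ⟨C, fun _ => hC⟩
    · exact ⟨0, fun h' => absurd h' h⟩
  choose Cf hCf using hCex
  set C := ∑ μ, Cf μ with hC
  obtain ⟨a₁, ha₁⟩ := exists_nat_ge (4 * C / δ)
  refine ⟨T * T + a₁, fun a m ha hnef => ?_⟩
  set k := a / T with hk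
  have hkT : T ≤ k := by
    rw [hk, Nat.le_div_iff_mul_le (by omega)]
    omega
  have hk1 : k * T ≤ a := Nat.div_mul_le_self a T
  have hk2 : a < k * (T + 1) := by
    have h1 := Nat.lt_div_mul_add (a := a) (b := T) (by omega)
    rw [← hk] at h1
    calc a < k * T + T := h1
      _ ≤ k * T + k := by omega
      _ = k * (T + 1) := by ring
  have hkpos : 0 < k := by omega
  have hma : ∀ i, m i ≤ a := fun i => hnef.one i
  have hμlt : ∀ i, m i / k < T + 2 := by
    intro i
    have h1 : m i / k < T + 1 := by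
      rw [Nat.div_lt_iff_lt_mul hkpos]
      have := hma i
      rw [Nat.mul_comm]
      omega
    omega
  set μ : Fin n → Fin (T + 2) := fun i => ⟨m i / k, hμlt i⟩ with hμ
  have hμ1 : ∀ i, k * (μ i : ℕ) ≤ m i := fun i => Nat.mul_div_le (m i) k
  have hμ2 : ∀ i, m i < k * (μ i : ℕ) + k := by
    intro i
    have h1 := Nat.lt_div_mul_add (a := m i) (b := k) hkpos
    have h2 : (μ i : ℕ) = m i / k := rfl
    rw [h2, Nat.mul_comm]
    exact h1
  have hnefμ : NefC (T + 1) fun i => (μ i : ℕ) := by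
    intro e κ he
    have h1 := hnef e κ he
    have h2 : k * ∑ i, (μ i : ℕ) * κ i ≤ ∑ i, m i * κ i := by
      rw [Finset.mul_sum]
      refine Finset.sum_le_sum fun i _ => ?_
      rw [← Nat.mul_assoc]
      exact Nat.mul_le_mul_right _ (hμ1 i)
    have h3 : a * e ≤ k * ((T + 1) * e) := by
      rw [← Nat.mul_assoc]
      exact Nat.mul_le_mul_right _ hk2.le
    exact Nat.le_of_mul_le_mul_left ((h2.trans h1).trans h3) hkpos
  have h1 := hCf μ hnefμ k
  have h2 : generalDim 2 a m ≤ generalDim 2 (k * (T + 1)) fun i => k * (μ i : ℕ) :=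
    (generalDim_anti hμ1).trans (generalDim_deg (fun i => k * (μ i : ℕ)) hk2.le)
  have h3 : Cf μ ≤ C := Finset.single_le_sum (f := Cf) (fun _ _ => Nat.zero_le _)
    (Finset.mem_univ μ)
  have h4 : ((2 * generalDim 2 a m + k ^ 2 * ∑ i, (μ i : ℕ) ^ 2 : ℕ) : ℝ) ≤
      ((k ^ 2 * (T + 1) ^ 2 + C * (k + 1) : ℕ) : ℝ) := by
    have h5 := Nat.mul_le_mul_right (k + 1) h3
    exact_mod_cast (by omega : 2 * generalDim 2 a m + k ^ 2 * ∑ i, (μ i : ℕ) ^ 2 ≤
      k ^ 2 * (T + 1) ^ 2 + C * (k + 1))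
  push_cast at h4
  -- real estimates
  have hTpos : (0 : ℝ) < T := by linarith only [hT1]
  have hkT' : (k : ℝ) * T ≤ a := by exact_mod_cast hk1
  have hkr : (k : ℝ) ≤ a / T := by
    rw [le_div_iff₀ hTpos]
    exact hkT'
  have hk0 : (0 : ℝ) ≤ k := by positivity
  have ha0 : (0 : ℝ) ≤ a := by positivity
  have e1 : (k : ℝ) * (T + 1) ≤ a + a / T := by linarith only [hkT', hkr]
  have e2 : (k : ℝ) ^ 2 * (T + 1) ^ 2 ≤ (a : ℝ) ^ 2 * (1 + 3 / T) := by
    have h5 : ((k : ℝ) * (T + 1)) ^ 2 ≤ (a + a / T) ^ 2 := by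
      have h6 : 0 ≤ (k : ℝ) * (T + 1) := by positivity
      exact pow_le_pow_left₀ h6 e1 2
    have h6 : ((a : ℝ) + a / T) ^ 2 = (a : ℝ) ^ 2 * (1 + 2 / T + (1 / T) * (1 / T)) := by
      field_simp
      ring
    have h7 : (1 / (T : ℝ)) * (1 / T) ≤ 1 / T := by
      have h8 : 1 / (T : ℝ) ≤ 1 := by
        rw [div_le_one hTpos]
        exact hT1
      have h9 : (0 : ℝ) ≤ 1 / T := by positivity
      nlinarith only [h8, h9]
    have h8 : (a : ℝ) ^ 2 * (1 + 2 / T + (1 / T) * (1 / T)) ≤ (a : ℝ) ^ 2 * (1 + 3 / T) := by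
      refine mul_le_mul_of_nonneg_left ?_ (by positivity)
      have h9 : (3 : ℝ) / T = 2 / T + 1 / T := by ring
      linarith only [h7, h9]
    calc (k : ℝ) ^ 2 * (T + 1) ^ 2 = (k * (T + 1)) ^ 2 := by ring
      _ ≤ _ := h5
      _ = _ := h6
      _ ≤ _ := h8
  have e3 : ∑ i, (m i : ℝ) ^ 2 ≤ (k : ℝ) ^ 2 * ∑ i, ((μ i : ℕ) : ℝ) ^ 2 +
      n * (2 * (a : ℝ) ^ 2 / T) := by
    have h5 : ∀ i, (m i : ℝ) ^ 2 ≤ (k : ℝ) ^ 2 * ((μ i : ℕ) : ℝ) ^ 2 + 2 * (a : ℝ) ^ 2 / T := by
      intro i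
      have h6 : (m i : ℝ) ≤ k * ((μ i : ℕ) : ℝ) + k := by exact_mod_cast (hμ2 i).le
      have h7 : (k : ℝ) * ((μ i : ℕ) : ℝ) ≤ m i := by exact_mod_cast hμ1 i
      have h8 : (m i : ℝ) ≤ a := by exact_mod_cast hma i
      have h9 : (0 : ℝ) ≤ k * ((μ i : ℕ) : ℝ) := by positivity
      have h10 : (0 : ℝ) ≤ m i := by positivity
      have h11 : (m i : ℝ) ^ 2 - (k * ((μ i : ℕ) : ℝ)) ^ 2 ≤ k * (2 * m i) := by nlinarith only [h7, h6, h9]
      have h12 : (k : ℝ) * (2 * m i) ≤ (a / T) * (2 * a) :=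
        mul_le_mul hkr (by linarith only [h8]) (by positivity) (by positivity)
      have h13 : ((a : ℝ) / T) * (2 * a) = 2 * (a : ℝ) ^ 2 / T := by ring
      have h14 : ((k : ℝ) * ((μ i : ℕ) : ℝ)) ^ 2 = (k : ℝ) ^ 2 * ((μ i : ℕ) : ℝ) ^ 2 := by ring
      linarith only [h11, h12, h13]
    refine (Finset.sum_le_sum fun i _ => h5 i).trans ?_
    rw [Finset.sum_add_distrib, ← Finset.mul_sum, Finset.sum_const, Finset.card_univ,
      Fintype.card_fin, nsmul_eq_mul]
  have hkone : (1 : ℝ) ≤ k := by exact_mod_cast hkpos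
  have e4 : (C : ℝ) * (k + 1) ≤ δ / 2 * (a : ℝ) ^ 2 := by
    have h5 : (k : ℝ) + 1 ≤ 2 * a := by
      have h6 : (k : ℝ) * 1 ≤ k * T := mul_le_mul_of_nonneg_left hT1 hk0
      linarith only [hkT', hkone, h6]
    have h6 : (C : ℝ) * (k + 1) ≤ C * (2 * a) := mul_le_mul_of_nonneg_left h5 (by positivity)
    have h7 : 4 * (C : ℝ) / δ ≤ a := ha₁.trans (by exact_mod_cast (by omega : a₁ ≤ a))
    rw [div_le_iff₀ hδ] at h7
    have h8 : (C : ℝ) * (2 * a) ≤ δ / 2 * (a : ℝ) ^ 2 := by nlinarith only [h7]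
    linarith only [h6, h8]
  have e5 : (3 + 2 * (n : ℝ)) / T ≤ δ / 2 := by
    rw [div_le_iff₀ hδ] at hT2
    rw [div_le_iff₀ hTpos]
    linarith only [hT2]
  have e6 : (a : ℝ) ^ 2 * ((3 + 2 * (n : ℝ)) / T) ≤ (a : ℝ) ^ 2 * (δ / 2) :=
    mul_le_mul_of_nonneg_left e5 (by positivity)
  have e7 : (a : ℝ) ^ 2 * ((3 + 2 * (n : ℝ)) / T) = (a : ℝ) ^ 2 * (3 / T) +
      n * (2 * (a : ℝ) ^ 2 / T) := by
    field_simp
  nlinarith only [h4, e2, e3, e4, e6, e7]

end Pool.Agent.H74.KV

end
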