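import Pool.Agent.H94.LP4.H74.CT.Slow
import Pool.Agent.H94.LP4.M50
import Pool.Agent.H94.LP4.M53
import Pool.Agent.H94.LP4.M54
import Pool.Agent.H94.LP4.M66

/-! The parts of this file: H74.KV.Inv, H74.KV.Cone, H74.KV.Inv2. -/

section

/-!
# Dependent conditions stay dependent: derivatives and inverse systems

If the fat points `m_i p_i` do not impose independent conditions on the forms of degree `d`, then the
fat points `(m_i + t) p_i` fail by at least the number of forms of degree `t` to impose independent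
conditions on the forms of degree `d + t`.
-/

namespace Pool.Agent.H74.KV

open MvPolynomial Pool.Agent.H18.Fat Pool.Agent.H22.LU Pool.Agent.H74.CT

variable {n : ℕ}

/-- The numbers `∏ j, α j (α j - 1) ⋯ (α j - γ j + 1)`. -/
def wt (α γ : Fin n →₀ ℕ) : ℕ := ∏ j, (α j).descFactorial (γ j)

/-- The numbers `∏ j, (α j)!`. -/
def fct (α : Fin n →₀ ℕ) : ℕ := ∏ j, (α j).factorial

theorem fct_pos (α : Fin n →₀ ℕ) : 0 < fct α := Finset.prod_pos fun j _ => (α j).factorial_pos

theorem fct_add (γ β : Fin n →₀ ℕ) : fct β * wt (γ + β) γ = fct (γ + β) := by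
  unfold fct wt
  rw [← Finset.prod_mul_distrib]
  refine Finset.prod_congr rfl fun j _ => ?_
  have h := Nat.factorial_mul_descFactorial (n := (γ + β) j) (k := γ j) (by simp)
  have h2 : (γ + β) j - γ j = β j := by simp
  rwa [h2] at h

/-- The derivative `∂^γ`. -/
noncomputable def DD (γ : Fin n →₀ ℕ) : MvPolynomial (Fin n) ℂ →ₗ[ℂ] MvPolynomial (Fin n) ℂ :=
  (basisMonomials (Fin n) ℂ).constr ℂ fun α => monomial (α - γ) (wt α γ : ℂ)

theorem DD_monomial (γ α : Fin n →₀ ℕ) (c : ℂ) :
    DD γ (monomial α c) = monomial (α - γ) (c * wt α γ) := by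
  have h1 : monomial α c = c • basisMonomials (Fin n) ℂ α := by
    rw [coe_basisMonomials, smul_monomial, smul_eq_mul, mul_one]
  rw [h1, map_smul]
  unfold DD
  rw [Module.Basis.constr_basis, smul_monomial, smul_eq_mul]

theorem coeff_shift_DD (γ β : Fin n →₀ ℕ) (q : Fin n → ℂ) (F : MvPolynomial (Fin n) ℂ) :
    coeff β (shift q (DD γ F)) = wt (γ + β) γ * coeff (γ + β) (shift q F) := by
  induction F using MvPolynomial.induction_on' with
  | monomial α c =>
    rw [DD_monomial, coeff_shift_monomial, coeff_shift_monomial]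
    have h : (wt α γ : ℂ) * tc q (α - γ) β = wt (γ + β) γ * tc q α (γ + β) := by
      unfold wt tc
      rw [Nat.cast_prod, Nat.cast_prod, ← Finset.prod_mul_distrib, ← Finset.prod_mul_distrib]
      refine Finset.prod_congr rfl fun j _ => ?_
      have h1 : (α - γ) j = α j - γ j := rfl
      have h2 : (γ + β) j = γ j + β j := rfl
      have h3 : α j - γ j - β j = α j - (γ j + β j) := Nat.sub_sub _ _ _
      rw [h1, h2, h3, ← mul_assoc, ← mul_assoc]
      congr 1
      have h4 := Nat.choose_mul (n := α j) (k := γ j + β j) (s := γ j) (Nat.le_add_right _ _)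
      rw [Nat.add_sub_cancel_left] at h4
      have h5 : (α j).descFactorial (γ j) * (α j - γ j).choose (β j) =
          (γ j + β j).descFactorial (γ j) * (α j).choose (γ j + β j) := by
        rw [Nat.descFactorial_eq_factorial_mul_choose, Nat.descFactorial_eq_factorial_mul_choose,
          mul_assoc, mul_assoc, ← h4]
        ring
      exact_mod_cast h5
    rw [mul_assoc, h]
    ring
  | add p q' hp hq =>
    unfold shift at *
    rw [map_add, map_add, coeff_add, hp, hq, map_add, coeff_add]
    ring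

theorem DD_vanish {γ : Fin n →₀ ℕ} {q : Fin n → ℂ} {F : MvPolynomial (Fin n) ℂ} {m : ℕ}
    (h : VanishesToOrder F q (m + γ.degree)) : VanishesToOrder (DD γ F) q m := by
  intro β hβ
  rw [coeff_shift_DD, h (γ + β) (by
    rw [map_add]
    omega), mul_zero]

theorem wt_eq_zero {α γ : Fin n →₀ ℕ} (h : ¬ γ ≤ α) : wt α γ = 0 := by
  rw [Finsupp.le_def] at h
  push Not at h
  obtain ⟨j, hj⟩ := h
  exact Finset.prod_eq_zero (Finset.mem_univ j) (Nat.descFactorial_of_lt hj)

theorem DD_hom {γ : Fin n →₀ ℕ} {F : MvPolynomial (Fin n) ℂ} {d t : ℕ} (hγ : γ.degree = t)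
    (h : F.IsHomogeneous (d + t)) : (DD γ F).IsHomogeneous d := by
  rw [F.as_sum, map_sum]
  refine IsHomogeneous.sum _ _ _ fun α hα => ?_
  rw [DD_monomial]
  by_cases hle : γ ≤ α
  · refine isHomogeneous_monomial _ ?_
    have h1 : α.degree = d + t := by
      have := h (mem_support_iff.1 hα)
      rw [Finsupp.degree_eq_weight_one]
      exact this
    have h2 : (α - γ + γ).degree = α.degree := by rw [tsub_add_cancel_of_le hle]
    rw [map_add] at h2
    omega
  · rw [wt_eq_zero hle, Nat.cast_zero, mul_zero, monomial_zero]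
    exact isHomogeneous_zero _ _ _

/-- A functional, as a form. -/
noncomputable def dualForm (d : ℕ) (L : MvPolynomial (Fin n) ℂ →ₗ[ℂ] ℂ) :
    MvPolynomial (Fin n) ℂ :=
  toPoly n d fun β => L (monomial β.1 1) / fct β.1

theorem dualForm_eq_zero {d : ℕ} {L : MvPolynomial (Fin n) ℂ →ₗ[ℂ] ℂ} (h : dualForm d L = 0)
    {F : MvPolynomial (Fin n) ℂ} (hF : F.IsHomogeneous d) : L F = 0 := by
  have h1 : (fun β : mons n d => L (monomial β.1 1) / (fct β.1 : ℂ)) = 0 := by
    apply toPoly_injective n d
    rw [map_zero]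
    exact h
  rw [← exists_toPoly hF, toPoly_apply, map_sum]
  refine Finset.sum_eq_zero fun β _ => ?_
  have h2 := congrFun h1 β
  have h3 : (fct β.1 : ℂ) ≠ 0 := by
    have := fct_pos β.1
    exact_mod_cast this.ne'
  have h4 : L (monomial β.1 1) = 0 := by
    rcases div_eq_zero_iff.1 h2 with h5 | h5
    · exact h5
    · exact absurd h5 h3
  have h5 : (monomial β.1 (coeff β.1 F) : MvPolynomial (Fin n) ℂ) =
      coeff β.1 F • monomial β.1 1 := by
    rw [smul_monomial, smul_eq_mul, mul_one]
  rw [h5, map_smul, h4, smul_zero]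

theorem apply_DD {d t : ℕ} (L : MvPolynomial (Fin n) ℂ →ₗ[ℂ] ℂ) (g : mons n t → ℂ)
    {α : Fin n →₀ ℕ} (hα : α.degree = d + t) :
    ∑ γ : mons n t, g γ * L (DD γ.1 (monomial α 1)) =
      fct α * coeff α (toPoly n t g * dualForm d L) := by
  classical
  rw [coeff_mul]
  have h1 : ∀ γ : mons n t, g γ * L (DD γ.1 (monomial α 1)) =
      if γ.1 ≤ α then g γ * (wt α γ.1 * L (monomial (α - γ.1) 1)) else 0 := by
    intro γ
    rw [DD_monomial, one_mul]
    split_ifs with h
    · have h5 : (monomial (α - γ.1) (wt α γ.1 : ℂ) : MvPolynomial (Fin n) ℂ) =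
          (wt α γ.1 : ℂ) • monomial (α - γ.1) 1 := by
        rw [smul_monomial, smul_eq_mul, mul_one]
      rw [h5, map_smul, smul_eq_mul]
    · rw [wt_eq_zero h, Nat.cast_zero, monomial_zero, map_zero, mul_zero]
  rw [Finset.sum_congr rfl fun γ _ => h1 γ, ← Finset.sum_filter]
  rw [Finset.mul_sum]
  have hcoeff : ∀ γ : Fin n →₀ ℕ, (hγ : γ ∉ mons n t) → coeff γ (toPoly n t g) = 0 := by
    intro γ hγ
    rw [mem_mons] at hγ
    exact (toPoly_isHomogeneous g).coeff_eq_zero hγ
  have h2 : ∑ x ∈ Finset.HasAntidiagonal.antidiagonal α, (fct α : ℂ) *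
      (coeff x.1 (toPoly n t g) * coeff x.2 (dualForm d L)) =
      ∑ x ∈ (Finset.HasAntidiagonal.antidiagonal α).filter (fun x => x.1 ∈ mons n t), (fct α : ℂ) *
        (coeff x.1 (toPoly n t g) * coeff x.2 (dualForm d L)) := by
    rw [Finset.sum_filter_of_ne]
    intro x _ hx
    by_contra hcon
    apply hx
    rw [hcoeff _ hcon, zero_mul, mul_zero]
  rw [h2]
  refine Finset.sum_bij (fun γ _ => (γ.1, α - γ.1)) ?_ ?_ ?_ ?_
  · intro γ hγ
    rw [Finset.mem_filter] at hγ ⊢
    refine ⟨?_, γ.2⟩
    rw [Finset.HasAntidiagonal.mem_antidiagonal]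
    exact add_tsub_cancel_of_le hγ.2
  · intro γ _ γ' _ h
    exact Subtype.ext (congrArg Prod.fst h)
  · rintro ⟨γ, β⟩ hx
    rw [Finset.mem_filter, Finset.HasAntidiagonal.mem_antidiagonal] at hx
    obtain ⟨h3, h4⟩ := hx
    dsimp only at h3 h4
    refine ⟨⟨γ, h4⟩, ?_, ?_⟩
    · rw [Finset.mem_filter]
      refine ⟨Finset.mem_univ _, ?_⟩
      rw [← h3]
      exact le_self_add
    · dsimp only
      rw [← h3, add_tsub_cancel_left]
  · intro γ hγ
    rw [Finset.mem_filter] at hγ
    have hβ : (α - γ.1).degree = d := by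
      have h3 := mem_mons.1 γ.2
      have h4 : (α - γ.1 + γ.1).degree = α.degree := by rw [tsub_add_cancel_of_le hγ.2]
      rw [map_add] at h4
      omega
    have h3 := coeff_toPoly g γ
    have h4 : coeff (α - γ.1) (dualForm d L) =
        L (monomial (α - γ.1) 1) / fct (α - γ.1) := by
      unfold dualForm
      exact coeff_toPoly (fun β : mons n d => L (monomial β.1 1) / (fct β.1 : ℂ))
        ⟨α - γ.1, mem_mons.2 hβ⟩
    dsimp only
    rw [h3, h4]
    have h5 := fct_add γ.1 (α - γ.1)
    rw [add_tsub_cancel_of_le hγ.2] at h5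
    have h6 : (fct (α - γ.1) : ℂ) ≠ 0 := by
      have := fct_pos (α - γ.1)
      exact_mod_cast this.ne'
    rw [← h5]
    push_cast
    field_simp

/-- The forms killed by the derivatives of a nonzero functional. -/
theorem finrank_ker_DD {r d t : ℕ} {ι : Type*} (p : ι → Fin (r + 1) → ℂ)
    (L : MvPolynomial (Fin (r + 1)) ℂ →ₗ[ℂ] ℂ)
    (K : Submodule ℂ (MvPolynomial (Fin (r + 1)) ℂ)) (hK : K ≤ fatForms r (d + t) p fun _ => 0)
    (hL : ∃ F : MvPolynomial (Fin (r + 1)) ℂ, F.IsHomogeneous d ∧ L F ≠ 0)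
    (hKL : ∀ F ∈ K, ∀ γ ∈ mons (r + 1) t, L (DD γ F) = 0) :
    Module.finrank ℂ K + (t + r).choose r ≤ (d + t + r).choose r := by
  classical
  set H := fatForms r (d + t) p fun _ => 0 with hH
  have iH := fin_fatForms r (d + t) p fun _ => 0
  let Θ : H →ₗ[ℂ] (mons (r + 1) t → ℂ) :=
    { toFun := fun F γ => L (DD γ.1 F.1)
      map_add' := fun F G => by
        funext γ
        simp
      map_smul' := fun c F => by
        funext γ
        simp }
  have hsurj : LinearMap.range Θ = ⊤ := by
    by_contra hne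
    obtain ⟨f, hf1, hf2⟩ := Submodule.exists_le_ker_of_lt_top _ (lt_top_iff_ne_top.2 hne)
    set g : mons (r + 1) t → ℂ := fun γ => f (Pi.single γ 1) with hg
    have hfg : ∀ v : mons (r + 1) t → ℂ, f v = ∑ γ, g γ * v γ := by
      intro v
      conv_lhs => rw [pi_eq_sum_univ' v]
      rw [map_sum]
      refine Finset.sum_congr rfl fun γ _ => ?_
      rw [map_smul, smul_eq_mul, mul_comm]
    have hG : toPoly (r + 1) t g * dualForm d L = 0 := by
      ext α
      rw [coeff_zero]
      by_cases hα : α.degree = d + t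
      · have hmem : (monomial α 1 : MvPolynomial (Fin (r + 1)) ℂ) ∈ H :=
          ⟨isHomogeneous_monomial _ hα, fun i => vanishes_zero _ _⟩
        have h1 := hf2 (LinearMap.mem_range_self Θ ⟨_, hmem⟩)
        rw [LinearMap.mem_ker, hfg] at h1
        have h2 := apply_DD (d := d) L g hα
        have h3 : ∑ γ : mons (r + 1) t, g γ * L (DD γ.1 (monomial α 1)) = 0 := h1
        rw [h3] at h2
        have h4 : (fct α : ℂ) ≠ 0 := by
          have := fct_pos α
          exact_mod_cast this.ne'
        rcases mul_eq_zero.1 h2.symm with h5 | h5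
        · exact absurd h5 h4
        · exact h5
      · have h1 : (toPoly (r + 1) t g * dualForm d L).IsHomogeneous (t + d) :=
          (toPoly_isHomogeneous g).mul (toPoly_isHomogeneous _)
        exact h1.coeff_eq_zero (by omega)
    rcases mul_eq_zero.1 hG with h | h
    · apply hf1
      have hg0 : g = 0 := by
        apply toPoly_injective (r + 1) t
        rw [h, map_zero]
      ext v
      rw [LinearMap.comp_apply, hfg, hg0]
      simp
    · obtain ⟨F, hF1, hF2⟩ := hL
      exact hF2 (dualForm_eq_zero h hF1)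
  have h1 := LinearMap.finrank_range_add_finrank_ker Θ
  rw [hsurj, finrank_top, Module.finrank_fintype_fun_eq_card, Fintype.card_coe, card_mons,
    finrank_all] at h1
  have h2 : Module.finrank ℂ K ≤ Module.finrank ℂ (LinearMap.ker Θ) := by
    let g : K →ₗ[ℂ] LinearMap.ker Θ :=
      { toFun := fun F => ⟨⟨F.1, hK F.2⟩, by
          rw [LinearMap.mem_ker]
          funext γ
          exact hKL _ F.2 _ γ.2⟩
        map_add' := fun F G => rfl
        map_smul' := fun c F => rfl }
    exact LinearMap.finrank_le_finrank_of_injective (f := g) fun F G h => by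
      have h3 : (g F).1.1 = (g G).1.1 := by rw [h]
      exact Subtype.ext h3
  omega

end Pool.Agent.H74.KV

end

section

/-!
# Coplanar points, and independent conditions in all dimensions
-/

namespace Pool.Agent.H74.KV

open Finset MvPolynomial Pool.Agent.H18.Fat Pool.Agent.H18.Ub Pool.Agent.H22.LU Pool.Agent.H74.CT Pool.Agent.H18.Nef

variable {r : ℕ}

theorem tc_cons (x : Fin r → ℂ) (b b' : ℕ) (δ γ : Fin r →₀ ℕ) :
    tc (Fin.cons 0 x : Fin (r + 1) → ℂ) (Finsupp.cons b δ) (Finsupp.cons b' γ) =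
      if b = b' then tc x δ γ else 0 := by
  unfold tc
  rw [Fin.prod_univ_succ, Finsupp.cons_zero, Finsupp.cons_zero, Fin.cons_zero]
  have h1 : ∏ j : Fin r, ((((Finsupp.cons b δ) j.succ).choose ((Finsupp.cons b' γ) j.succ) : ℂ) *
      (Fin.cons 0 x : Fin (r + 1) → ℂ) j.succ ^ ((Finsupp.cons b δ) j.succ -
        (Finsupp.cons b' γ) j.succ)) = ∏ j, (((δ j).choose (γ j) : ℂ) * x j ^ (δ j - γ j)) := by
    refine prod_congr rfl fun j _ => ?_
    rw [Finsupp.cons_succ, Finsupp.cons_succ, Fin.cons_succ]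
  rw [h1]
  split_ifs with h
  · subst h
    rw [Nat.choose_self, Nat.sub_self, pow_zero, Nat.cast_one, one_mul, one_mul]
  · rcases Nat.lt_or_gt_of_ne h with h2 | h2
    · rw [Nat.choose_eq_zero_of_lt h2]
      simp
    · rw [zero_pow (by omega)]
      simp

/-- The cone. -/
theorem cone {d : ℕ} {ι : Type*} {I : Finset ι} {x : ι → Fin r → ℂ} {m : ι → ℕ}
    (hm : ∀ i ∈ I, m i ≤ d + 1) (h : ∀ b ≤ d, Srj r (d - b) I x fun i => m i - b) :
    Srj (r + 1) d I (fun i => Fin.cons 0 (x i)) m := by
  classical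
  intro u
  have h' : ∀ b, ∃ f : MvPolynomial (Fin r) ℂ, b ≤ d → (f.totalDegree ≤ d - b ∧
      ∀ i ∈ I, ∀ γ : Fin r →₀ ℕ, γ.degree < m i - b →
        coeff γ (shift (x i) f) = u i (Finsupp.cons b γ)) := by
    intro b
    by_cases hb : b ≤ d
    · obtain ⟨f, h1, h2⟩ := h b hb fun i γ => u i (Finsupp.cons b γ)
      exact ⟨f, fun _ => ⟨h1, h2⟩⟩
    · exact ⟨0, fun h => absurd h hb⟩
  choose f hf using h'
  refine ⟨∑ b ∈ range (d + 1), ∑ δ ∈ (f b).support, monomial (Finsupp.cons b δ) (coeff δ (f b)),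
    ?_, ?_⟩
  · refine totalDegree_finsetSum_le fun b hb => totalDegree_finsetSum_le fun δ hδ => ?_
    have hb' : b ≤ d := by
      have := mem_range.1 hb
      omega
    refine (totalDegree_monomial_le _ _).trans ?_
    have h3 : ((Finsupp.cons b δ).sum fun _ => id) = (Finsupp.cons b δ).degree := rfl
    rw [h3, degree_cons']
    have h4 := le_totalDegree hδ
    have h5 : (δ.sum fun _ e => e) = δ.degree := rfl
    rw [h5] at h4
    have h6 := (hf b hb').1
    omega
  · intro i hi γ hγ
    have hcons : Finsupp.cons (γ 0) (Finsupp.tail γ) = γ := Finsupp.cons_tail γ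
    have hdeg := degree_tail γ
    have hmi := hm i hi
    have hb' : γ 0 ≤ d := by omega
    have h1 := (hf (γ 0) hb').2 i hi (Finsupp.tail γ) (by omega)
    rw [hcons] at h1
    rw [← h1, coeff_shift (x i) (Finsupp.tail γ) (f (γ 0))]
    unfold shift
    rw [map_sum, coeff_sum]
    rw [sum_eq_single (γ 0)]
    · rw [map_sum, coeff_sum]
      refine sum_congr rfl fun δ _ => ?_
      have h2 := coeff_shift_monomial (Fin.cons 0 (x i) : Fin (r + 1) → ℂ)
        (Finsupp.cons (γ 0) δ) γ (coeff δ (f (γ 0)))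
      unfold shift at h2
      rw [h2]
      congr 1
      conv_lhs => rw [← hcons]
      rw [Finsupp.cons_zero, tc_cons, if_pos rfl]
    · intro b _ hb
      rw [map_sum, coeff_sum]
      refine sum_eq_zero fun δ _ => ?_
      have h2 := coeff_shift_monomial (Fin.cons 0 (x i) : Fin (r + 1) → ℂ)
        (Finsupp.cons b δ) γ (coeff δ (f b))
      unfold shift at h2
      rw [h2]
      conv_lhs => rw [← hcons]
      rw [tc_cons, if_neg hb, mul_zero]
    · intro hb
      exact absurd (mem_range.2 (by omega)) hb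

theorem cones {d : ℕ} {ι : Type*} {I : Finset ι} {m : ι → ℕ} (hm : ∀ i ∈ I, m i ≤ d + 1) :
    ∀ s : ℕ, (∃ x : ι → Fin r → ℂ, ∀ b ≤ d, Srj r (d - b) I x fun i => m i - b) →
      ∃ x : ι → Fin (r + s) → ℂ, ∀ b ≤ d, Srj (r + s) (d - b) I x fun i => m i - b := by
  intro s
  induction s with
  | zero => exact fun h => h
  | succ s ih =>
    intro h
    obtain ⟨x, hx⟩ := ih h
    refine ⟨fun i => Fin.cons 0 (x i), fun b hb => ?_⟩
    refine cone (fun i hi => ?_) fun b' hb' => ?_
    · have := hm i hi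
      omega
    · have h1 := hx (b + b') (by omega)
      have h2 : d - (b + b') = d - b - b' := by omega
      rw [h2] at h1
      exact h1.mono le_rfl fun i _ => by omega

/-- Independent conditions at general points. -/
theorem exact_of_srj (hr : 2 ≤ r) {j k : ℕ} {m : Fin k → ℕ} {J : Finset (Fin k)}
    {x : Fin k → Fin r → ℂ} (h : Srj r j J x m) : Exact r j m J := by
  classical
  have h1 : Srj r j univ x fun i => if i ∈ J then m i else 0 := by
    intro u
    obtain ⟨f, hf, h2⟩ := h u
    refine ⟨f, hf, fun i _ γ hγ => ?_⟩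
    by_cases hi : i ∈ J
    · have hγ' : γ.degree < if i ∈ J then m i else 0 := hγ
      rw [if_pos hi] at hγ'
      exact h2 i hi γ hγ'
    · have hγ' : γ.degree < if i ∈ J then m i else 0 := hγ
      rw [if_neg hi] at hγ'
      omega
  have h2 := finrank_of_surjective (by omega)
    (p := fun i => (Fin.cons 1 (x i) : Fin (r + 1) → ℂ)) (fun i => by
      rw [Fin.cons_zero]
      exact one_ne_zero) (condMat_of_srj h1)
  have h3 : generalDim r j (fun i => if i ∈ J then m i else 0) ≤
      Module.finrank ℂ (fatForms r j (fun i => (Fin.cons 1 (x i) : Fin (r + 1) → ℂ))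
        fun i => if i ∈ J then m i else 0) := Nat.sInf_le ⟨_, rfl⟩
  obtain ⟨s, rfl⟩ : ∃ s, r = s + 2 := ⟨r - 2, by omega⟩
  have h4 := Pool.Agent.H74.CT.dim_ge s j k m J
  have h5 : ∑ i, ((if i ∈ J then m i else 0) + (s + 2) - 1).choose (s + 2) =
      ∑ i ∈ J, (m i + (s + 2) - 1).choose (s + 2) := by
    rw [← sum_subset (subset_univ J)]
    · exact sum_congr rfl fun i hi => by rw [if_pos hi]
    · intro i _ hi
      rw [if_neg hi, Nat.choose_eq_zero_of_lt (by omega)]
  unfold Exact
  rw [h5] at h2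
  omega

theorem Exact.up (hr : 2 ≤ r) {j j' k : ℕ} {m : Fin k → ℕ} {J : Finset (Fin k)}
    {x : Fin k → Fin r → ℂ} (h : Srj r j J x m) (hj : j ≤ j') : Exact r j' m J :=
  exact_of_srj hr (h.mono hj fun _ _ => le_rfl)

/-- Independent conditions at special points from general ones. -/
theorem srj_of_exact {n D d : ℕ} {p : Fin n → Fin (2 + 1) → ℂ} (hp : Good n D p) (hd : d ≤ D)
    {m : Fin n → ℕ} (hm : ∀ i, m i ≤ D)
    (h : generalDim 2 d m + ∑ i, (m i + 2 - 1).choose 2 = (d + 2).choose 2) :
    Srj 2 d univ (fun i j => p i j.succ) m := by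
  classical
  refine srj_of_condMat hp.one ?_
  have h1 := rank_add_finrank (d := d) hp.ne m
  rw [hp.dim d hd m hm] at h1
  have h2 : Module.finrank ℂ (LinearMap.range (condMat 2 d p m).mulVecLin) =
      Module.finrank ℂ (Cond 2 m → ℂ) := by
    rw [Module.finrank_fintype_fun_eq_card, card_cond (by norm_num)]
    omega
  have h3 := Submodule.eq_top_of_finrank_eq h2
  exact LinearMap.range_eq_top.1 h3

end Pool.Agent.H74.KV

end

section

/-!
# Dependent conditions: the growth of the defect
-/

namespace Pool.Agent.H74.KV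

open MvPolynomial Pool.Agent.H18.Fat Pool.Agent.H18.Ub Pool.Agent.H22.LU Pool.Agent.H74.CT

theorem fat_inf {r d : ℕ} {ι : Type*} (p : ι → Fin (r + 1) → ℂ) (b b' : ι → ℕ) :
    fatForms r d p b ⊓ fatForms r d p b' = fatForms r d p fun i => max (b i) (b' i) := by
  ext F
  constructor
  · rintro ⟨h1, h2⟩
    refine ⟨h1.1, fun i => ?_⟩
    rcases le_total (b i) (b' i) with h | h
    · dsimp only
      rw [max_eq_right h]
      exact h2.2 i
    · dsimp only
      rw [max_eq_left h]
      exact h1.2 i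
  · intro h
    exact ⟨⟨h.1, fun i => van_mono (h.2 i) (le_max_left _ _)⟩,
      ⟨h.1, fun i => van_mono (h.2 i) (le_max_right _ _)⟩⟩

theorem fat_ge {r d : ℕ} (hr : 1 ≤ r) {ι : Type*} [Fintype ι] (p : ι → Fin (r + 1) → ℂ)
    (hp : ∀ i, p i 0 ≠ 0) (b : ι → ℕ) : (d + r).choose r ≤
      Module.finrank ℂ (fatForms r d p b) + ∑ i, (b i + r - 1).choose r := by
  have h := finrank_fatForms_ge (d := d) hr hp b
  have h2 : ((∑ i, (b i + r - 1).choose r : ℕ) : ℤ) = ∑ i, ((b i + r - 1).choose r : ℤ) := by
    push_cast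
    rfl
  omega

theorem inv {r d t : ℕ} (hr : 1 ≤ r) {ι : Type*} [Fintype ι] (p : ι → Fin (r + 1) → ℂ)
    (hp : ∀ i, p i 0 ≠ 0) (m : ι → ℕ) (hm : ∀ i, m i ≤ d + 1)
    (hfail : (d + r).choose r <
      Module.finrank ℂ (fatForms r d p m) + ∑ i, (m i + r - 1).choose r) :
    (d + t + r).choose r + (t + r).choose r ≤
      Module.finrank ℂ (fatForms r (d + t) p fun i => m i + t) +
        ∑ i, (m i + t + r - 1).choose r := by
  classical
  -- the first dependent point
  obtain ⟨S, i, hiS, hS, hi⟩ : ∃ (S : Finset ι) (i : ι), i ∉ S ∧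
      (Module.finrank ℂ (fatForms r d p fun l => if l ∈ S then m l else 0) +
        ∑ l ∈ S, (m l + r - 1).choose r ≤ (d + r).choose r) ∧
      (d + r).choose r <
        Module.finrank ℂ (fatForms r d p fun l => if l ∈ insert i S then m l else 0) +
        ∑ l ∈ insert i S, (m l + r - 1).choose r := by
    by_contra hcon
    push Not at hcon
    have key : ∀ S : Finset ι,
        Module.finrank ℂ (fatForms r d p fun l => if l ∈ S then m l else 0) +
          ∑ l ∈ S, (m l + r - 1).choose r ≤ (d + r).choose r := by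
      intro S
      induction S using Finset.induction_on with
      | empty =>
        rw [Finset.sum_empty, Nat.add_zero]
        exact finrank_le_all _ _ _ _
      | insert i S hi ih => exact hcon S i hi ih
    have h1 := key Finset.univ
    have h2 : (fun l => if l ∈ (Finset.univ : Finset ι) then m l else 0) = m := by
      funext l
      rw [if_pos (Finset.mem_univ l)]
    rw [h2] at h1
    omega
  set U := fatForms r d p fun l => if l = i then m i else 0 with hU
  set W := fatForms r d p fun l => if l ∈ S then m l else 0 with hW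
  have iU : FiniteDimensional ℂ U := fin_fatForms _ _ _ _
  have iW : FiniteDimensional ℂ W := fin_fatForms _ _ _ _
  have hUW : U ⊓ W = fatForms r d p fun l => if l ∈ insert i S then m l else 0 := by
    rw [hU, hW, fat_inf]
    congr 1
    funext l
    by_cases hl : l = i
    · subst hl
      rw [if_pos rfl, if_neg hiS, if_pos (Finset.mem_insert_self _ _)]
      exact max_eq_left (Nat.zero_le _)
    · rw [if_neg hl]
      by_cases hlS : l ∈ S
      · rw [if_pos hlS, if_pos (Finset.mem_insert_of_mem hlS)]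
        exact max_eq_right (Nat.zero_le _)
      · rw [if_neg hlS, if_neg fun h => (Finset.mem_insert.1 h).elim hl hlS]
        rfl
  have e1 := Submodule.finrank_sup_add_finrank_inf_eq U W
  rw [hUW] at e1
  have e2 := one_le' r d (m i) hr (hm i) p i (hp i)
  rw [← hU] at e2
  rw [Finset.sum_insert hiS] at hi
  set H := fatForms r d p fun _ => 0 with hH
  have iH : FiniteDimensional ℂ H := fin_fatForms _ _ _ _
  have e3 : Module.finrank ℂ H = (d + r).choose r := finrank_all r d p
  have hle : U ⊔ W ≤ H := sup_le (fun F hF => ⟨hF.1, fun l => vanishes_zero _ _⟩)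
    fun F hF => ⟨hF.1, fun l => vanishes_zero _ _⟩
  obtain ⟨x, hxH, hx⟩ : ∃ x ∈ H, x ∉ U ⊔ W := by
    by_contra hcon
    push Not at hcon
    have h1 := Submodule.finrank_mono (s := H) (t := U ⊔ W) fun F hF => hcon F hF
    omega
  obtain ⟨L, hL1, hL2⟩ := Submodule.exists_dual_map_eq_bot_of_notMem hx inferInstance
  have hL3 : ∀ F ∈ U ⊔ W, L F = 0 := by
    intro F hF
    have h1 : L F ∈ (U ⊔ W).map L := ⟨F, hF, rfl⟩
    rwa [hL2, Submodule.mem_bot] at h1
  -- the derivatives
  set U' := fatForms r (d + t) p fun l => if l = i then m i + t else 0 with hU'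
  set W' := fatForms r (d + t) p fun l => if l ∈ S then m l + t else 0 with hW'
  have iU' : FiniteDimensional ℂ U' := fin_fatForms _ _ _ _
  have iW' : FiniteDimensional ℂ W' := fin_fatForms _ _ _ _
  have hUW' : U' ⊓ W' = fatForms r (d + t) p fun l => if l ∈ insert i S then m l + t else 0 := by
    rw [hU', hW', fat_inf]
    congr 1
    funext l
    by_cases hl : l = i
    · subst hl
      rw [if_pos rfl, if_neg hiS, if_pos (Finset.mem_insert_self _ _)]
      exact max_eq_left (Nat.zero_le _)
    · rw [if_neg hl]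
      by_cases hlS : l ∈ S
      · rw [if_pos hlS, if_pos (Finset.mem_insert_of_mem hlS)]
        exact max_eq_right (Nat.zero_le _)
      · rw [if_neg hlS, if_neg fun h => (Finset.mem_insert.1 h).elim hl hlS]
        rfl
  have hDU : ∀ F ∈ U', ∀ γ ∈ mons (r + 1) t, DD γ F ∈ U := by
    intro F hF γ hγ
    refine ⟨DD_hom (mem_mons.1 hγ) hF.1, fun l => ?_⟩
    dsimp only
    split_ifs with hl
    · subst hl
      apply DD_vanish
      have h1 := hF.2 l
      dsimp only at h1
      rw [if_pos rfl] at h1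
      rw [mem_mons.1 hγ]
      exact h1
    · exact vanishes_zero _ _
  have hDW : ∀ F ∈ W', ∀ γ ∈ mons (r + 1) t, DD γ F ∈ W := by
    intro F hF γ hγ
    refine ⟨DD_hom (mem_mons.1 hγ) hF.1, fun l => ?_⟩
    dsimp only
    split_ifs with hl
    · apply DD_vanish
      have h1 := hF.2 l
      dsimp only at h1
      rw [if_pos hl] at h1
      rw [mem_mons.1 hγ]
      exact h1
    · exact vanishes_zero _ _
  have e4 := finrank_ker_DD (r := r) (d := d) (t := t) p L (U' ⊔ W')
    (sup_le (fun F hF => ⟨hF.1, fun l => vanishes_zero _ _⟩)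
      fun F hF => ⟨hF.1, fun l => vanishes_zero _ _⟩) ⟨x, hxH.1, hL1⟩ (fun F hF γ hγ => by
      obtain ⟨A, hA, B, hB, rfl⟩ := Submodule.mem_sup.1 hF
      rw [map_add, map_add, hL3 _ (Submodule.mem_sup_left (hDU A hA γ hγ)),
        hL3 _ (Submodule.mem_sup_right (hDW B hB γ hγ)), add_zero])
  have e5 := Submodule.finrank_sup_add_finrank_inf_eq U' W'
  rw [hUW'] at e5
  have e6 := fat_ge (d := d + t) hr p hp fun l => if l = i then m i + t else 0
  have e7 := fat_ge (d := d + t) hr p hp fun l => if l ∈ S then m l + t else 0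
  have e8 := raise (d := d + t) hr p hp (fun l => if l ∈ insert i S then m l + t else 0)
    (fun l => m l + t) fun l => by
      split_ifs
      · exact le_rfl
      · exact Nat.zero_le _
  have z0 : (0 + r - 1).choose r = 0 := Nat.choose_eq_zero_of_lt (by omega)
  have s1 : ∑ l, ((if l = i then m i + t else 0) + r - 1).choose r = (m i + t + r - 1).choose r := by
    rw [Finset.sum_eq_single i]
    · rw [if_pos rfl]
    · intro l _ hl
      rw [if_neg hl, z0]
    · intro h
      exact absurd (Finset.mem_univ i) h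
  have s2 : ∀ S : Finset ι, ∑ l, ((if l ∈ S then m l + t else 0) + r - 1).choose r =
      ∑ l ∈ S, (m l + t + r - 1).choose r := by
    intro S
    rw [← Finset.sum_subset (Finset.subset_univ S)]
    · exact Finset.sum_congr rfl fun l hl => by rw [if_pos hl]
    · intro l _ hl
      rw [if_neg hl, z0]
  rw [s1, ← hU'] at e6
  rw [s2, ← hW'] at e7
  rw [s2, Finset.sum_insert hiS] at e8
  omega

end Pool.Agent.H74.KV

end
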