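import Pool.Agent.H94.LP4.H74.KV.Anti
import Pool.Agent.H94.LP4.M67
import Pool.Agent.H94.LP4.M68
import Pool.Agent.H94.LP4.M69

/-! The parts of this file: H74.KV.PlaneN, H74.KV.Anti2, H74.KV.Anti3. -/

section

/-!
# The plane: large points forming a nef class with slack
-/

namespace Pool.Agent.H74.KV

open Finset Pool.Agent.H18.Cub Pool.Agent.H18.Pr Pool.Agent.H18.Fat Pool.Agent.H18.Ub Pool.Agent.H18.Nef

/-- The number of the large points. -/
theorem card_le_of_nef {ε : ℝ} (hε : 0 < ε) {n d a : ℕ} {m : Fin n → ℕ} {J : Finset (Fin n)}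
    (hd : 0 < d) (hJ : ∀ i ∈ J, ε * d ≤ m i) (hnef : NefC a fun i => if i ∈ J then m i else 0)
    (ha : a ≤ d) : J.card ≤ ⌈1 / ε ^ 2⌉₊ := by
  classical
  have h1 := nef_sq hnef
  have h2 : ∑ i ∈ J, m i ^ 2 ≤ a ^ 2 := by
    refine le_trans ?_ h1
    have h3 : ∑ i ∈ J, m i ^ 2 = ∑ i ∈ J, (if i ∈ J then m i else 0) ^ 2 :=
      sum_congr rfl fun i hi => by rw [if_pos hi]
    rw [h3]
    exact sum_le_sum_of_subset (subset_univ J)
  have h3 : (J.card : ℝ) * (ε * d) ^ 2 ≤ (d : ℝ) ^ 2 := by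
    have h4 : ∑ _i ∈ J, (ε * (d : ℝ)) ^ 2 ≤ ∑ i ∈ J, (m i : ℝ) ^ 2 :=
      sum_le_sum fun i hi => pow_le_pow_left₀ (by positivity) (hJ i hi) 2
    rw [sum_const, nsmul_eq_mul] at h4
    have h5 : ∑ i ∈ J, (m i : ℝ) ^ 2 ≤ (a : ℝ) ^ 2 := by exact_mod_cast h2
    have h6 : (a : ℝ) ^ 2 ≤ (d : ℝ) ^ 2 := by exact_mod_cast Nat.pow_le_pow_left ha 2
    linarith
  have hd0 : (0 : ℝ) < d := by exact_mod_cast hd
  have h4 : (J.card : ℝ) ≤ 1 / ε ^ 2 := by
    rw [le_div_iff₀ (by positivity)]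
    have h5 : (J.card : ℝ) * (ε * d) ^ 2 = (J.card : ℝ) * ε ^ 2 * (d : ℝ) ^ 2 := by ring
    rw [h5] at h3
    have h6 : (0 : ℝ) < (d : ℝ) ^ 2 := by positivity
    nlinarith
  exact_mod_cast h4.trans (Nat.le_ceil _)

end Pool.Agent.H74.KV

end

section

/-!
# The pairing of a curve with an anticanonically positive class
-/

namespace Pool.Agent.H74.KV

open Finset MvPolynomial Pool.Agent.H18.Fat Pool.Agent.H18.Ub Pool.Agent.H22.LU Pool.Agent.H74.CT Pool.Agent.H74.BP Pool.Agent.H18.Nef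

variable {n : ℕ}

/-- Irreducible curves through nine or more general points. -/
theorem lt_deg {D e : ℕ} {p : Fin n → Fin (2 + 1) → ℂ} (hp : Good n D p) (he : e ≤ D)
    {A : MvPolynomial (Fin (2 + 1)) ℂ} (hA : Irreducible A) (hAe : A.IsHomogeneous e)
    (κ : Fin n → ℕ)
    (hκ : ∀ j, VanishesToOrder A (p j) (κ j) ∧ ¬ VanishesToOrder A (p j) (κ j + 1))
    (hT9 : 9 ≤ (univ.filter fun i => 1 ≤ κ i).card) :
    (∀ i, κ i < e) ∧ ∑ i, κ i ^ 2 ≤ e ^ 2 + e := by
  classical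
  set T := univ.filter fun i => 1 ≤ κ i with hT
  obtain ⟨i₀, hi₀, hmin⟩ := exists_min_image T κ (card_pos.1 (by omega))
  have hq1 : 1 ≤ κ i₀ := (mem_filter.1 hi₀).2
  have hxu := xu hp he hA hAe κ hκ hq1
  have heff : 1 ≤ generalDim 2 e κ := eff_of_mem hp he hA.ne_zero hAe κ fun j => (hκ j).1
  have hle : ∀ i, κ i ≤ e := fun i => le_of_effective κ heff i
  have hq2 : κ i₀ ≤ κ i₀ ^ 2 := by
    rw [sq]
    exact Nat.le_mul_of_pos_left _ hq1
  refine ⟨fun i => ?_, ?_⟩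
  · rcases Nat.eq_zero_or_pos (κ i) with h0 | hpos
    · rw [h0]
      exact lt_of_lt_of_le hq1 (hle i₀)
    · have hi : i ∈ T := mem_filter.2 ⟨mem_univ i, hpos⟩
      have h1 : ∑ j ∈ T, κ j ^ 2 ≤ ∑ j, κ j ^ 2 := sum_le_sum_of_subset (subset_univ T)
      rw [← add_sum_erase T (fun j => κ j ^ 2) hi] at h1
      have h2 : ∑ _j ∈ T.erase i, κ i₀ ^ 2 ≤ ∑ j ∈ T.erase i, κ j ^ 2 :=
        sum_le_sum fun j hj => Nat.pow_le_pow_left (hmin j (mem_of_mem_erase hj)) 2
      rw [sum_const, smul_eq_mul, card_erase_of_mem hi] at h2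
      have h3 : 8 * κ i₀ ^ 2 ≤ (T.card - 1) * κ i₀ ^ 2 := Nat.mul_le_mul_right _ (by omega)
      have h4 : κ i ^ 2 < e ^ 2 := by omega
      exact lt_of_pow_lt_pow_left₀ 2 (Nat.zero_le _) h4
  · have := hle i₀
    omega

/-- Curves through nine or more of the points. -/
theorem pair_anti {D e : ℕ} {p : Fin n → Fin (2 + 1) → ℂ} (hp : Good n D p) (he : e ≤ D)
    {A : MvPolynomial (Fin (2 + 1)) ℂ} (hA : Irreducible A) (hAe : A.IsHomogeneous e)
    (κ : Fin n → ℕ)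
    (hκ : ∀ j, VanishesToOrder A (p j) (κ j) ∧ ¬ VanishesToOrder A (p j) (κ j + 1))
    {m : Fin n → ℕ} {J : Finset (Fin n)} {d s : ℕ} (hy : ∀ i ∈ J, s ≤ m i)
    (hstd : ∀ S ⊆ J, S.card = 3 → ∑ i ∈ S, m i ≤ d) (hsum : ∑ i ∈ J, m i + 16 * s ≤ 3 * d)
    (hS9 : 9 ≤ (J.filter fun i => 1 ≤ κ i).card) : ∑ i ∈ J, m i * κ i + s ≤ d * e := by
  classical
  set S := J.filter fun i => 1 ≤ κ i with hS
  have hSJ : S ⊆ J := filter_subset _ _
  have hJ9 : 9 ≤ J.card := hS9.trans (card_le_card hSJ)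
  have hST : S ⊆ univ.filter fun i => 1 ≤ κ i := fun i hi =>
    mem_filter.2 ⟨mem_univ i, (mem_filter.1 hi).2⟩
  obtain ⟨hlt, -⟩ := lt_deg hp he hA hAe κ hκ (hS9.trans (card_le_card hST))
  have heff : 1 ≤ generalDim 2 e κ := eff_of_mem hp he hA.ne_zero hAe κ fun j => (hκ j).1
  obtain ⟨i₁, i₂, i₃, h₁, h₂, h₃, h12, h13, h23, hab, hbc, hmax⟩ := exists_top m (J := J) (by omega)
  have hs1 := hlt i₁
  have hs2 := hlt i₂
  have h3 := hstd {i₁, i₂, i₃} (by
    intro x hx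
    rw [mem_insert, mem_insert, mem_singleton] at hx
    rcases hx with rfl | rfl | rfl <;> assumption) (by
    rw [card_insert_of_notMem, card_insert_of_notMem, card_singleton]
    · rw [mem_singleton]
      exact h23
    · rw [mem_insert, mem_singleton]
      push Not
      exact ⟨h12, h13⟩)
  rw [sum_insert, sum_insert, sum_singleton] at h3
  rotate_left
  · rw [mem_singleton]
    exact h23
  · rw [mem_insert, mem_singleton]
    push Not
    exact ⟨h12, h13⟩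
  -- the pairing with a nef class
  have key : ∀ (m' : Fin n → ℕ) (D' : ℕ), (∀ S ⊆ J, S.card = 3 → ∑ i ∈ S, m' i ≤ D') →
      ∑ i ∈ J, m' i ≤ 3 * D' → ∑ i ∈ J, m' i * κ i ≤ D' * e := by
    intro m' D' hstd' hsum'
    have h4 := nef_three (by omega) hstd' hsum' e κ heff
    have h5 : ∑ i, (if i ∈ J then m' i else 0) * κ i = ∑ i ∈ J, m' i * κ i := by
      rw [← sum_subset (subset_univ J)]
      · exact sum_congr rfl fun i hi => by rw [if_pos hi]
      · intro i _ hi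
        rw [if_neg hi, Nat.zero_mul]
    rw [h5] at h4
    exact h4
  have hbound : ∀ j ∈ J, m j ≤ m i₃ + (if j = i₁ then m i₁ - m i₃ else 0) +
      (if j = i₂ then m i₂ - m i₃ else 0) := by
    intro j hj
    by_cases hj1 : j = i₁
    · subst hj1
      rw [if_pos rfl]
      omega
    · by_cases hj2 : j = i₂
      · subst hj2
        rw [if_pos rfl, if_neg hj1]
        omega
      · rw [if_neg hj1, if_neg hj2]
        exact hmax j hj hj1 hj2
  -- changing one multiplicity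
  have hupd : ∀ (f : Fin n → ℕ) (j : Fin n), j ∈ J → ∀ x : ℕ,
      ∑ i ∈ J, Function.update m j x i * f i + m j * f j = ∑ i ∈ J, m i * f i + x * f j := by
    intro f j hj x
    rw [← add_sum_erase J (fun i => Function.update m j x i * f i) hj,
      ← add_sum_erase J (fun i => m i * f i) hj]
    have h4 : ∑ i ∈ J.erase j, Function.update m j x i * f i = ∑ i ∈ J.erase j, m i * f i :=
      sum_congr rfl fun i hi => by rw [Function.update_of_ne (ne_of_mem_erase hi)]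
    rw [h4, Function.update_self]
    omega
  have hupd1 : ∀ j ∈ J, ∀ x : ℕ, ∑ i ∈ J, Function.update m j x i + m j = ∑ i ∈ J, m i + x := by
    intro j hj x
    have h4 := hupd (fun _ => 1) j hj x
    simp only [Nat.mul_one] at h4
    exact h4
  by_cases hc1 : m i₁ + (m i₂ + m i₃) + s ≤ d
  · -- the degree can be lowered
    have h4 := key m (d - s) (std3 hbound (by omega)) (by omega)
    obtain ⟨t, ht⟩ : ∃ t, d = t + s := ⟨d - s, by omega⟩
    rw [ht, Nat.add_sub_cancel] at h4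
    have h5 : d * e = t * e + s * e := by rw [ht, Nat.add_mul]
    have h6 : s * 1 ≤ s * e := Nat.mul_le_mul_left _ (by omega)
    omega
  push Not at hc1
  by_cases hc2 : m i₂ + s ≤ m i₁
  · -- a pencil of lines
    have h4 := key (Function.update m i₁ (m i₁ - s)) (d - s) (std3 (i₁ := i₁) (i₂ := i₂)
      (a := m i₁ - s) (b := m i₂) (c := m i₃) (fun j hj => by
        by_cases hj1 : j = i₁
        · subst hj1
          rw [Function.update_self, if_pos rfl]
          omega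
        · rw [Function.update_of_ne hj1]
          have h5 := hbound j hj
          rw [if_neg hj1] at h5 ⊢
          exact h5) (by omega)) (by
      have h5 := hupd1 i₁ h₁ (m i₁ - s)
      omega)
    have h5 := hupd κ i₁ h₁ (m i₁ - s)
    obtain ⟨t, ht⟩ : ∃ t, d = t + s := ⟨d - s, by omega⟩
    obtain ⟨u, hu⟩ : ∃ u, m i₁ = u + s := ⟨m i₁ - s, by omega⟩
    rw [hu, Nat.add_sub_cancel] at h5 h4
    rw [ht, Nat.add_sub_cancel] at h4
    rw [ht]
    have h6 : (u + s) * κ i₁ = u * κ i₁ + s * κ i₁ := Nat.add_mul _ _ _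
    have h7 : s * (κ i₁ + 1) ≤ s * e := Nat.mul_le_mul_left _ hs1
    have h8 : (t + s) * e = t * e + s * e := Nat.add_mul _ _ _
    have h9 : s * (κ i₁ + 1) = s * κ i₁ + s := by ring
    omega
  push Not at hc2
  by_cases hc3 : m i₃ + s ≤ m i₂
  · -- conics
    set m' := Function.update (Function.update m i₁ (m i₁ - s)) i₂ (m i₂ - s) with hm'
    have hval : ∀ (f : Fin n → ℕ), ∑ i ∈ J, m' i * f i + s * f i₁ + s * f i₂ =
        ∑ i ∈ J, m i * f i := by
      intro f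
      have h₂' : i₂ ∈ J.erase i₁ := mem_erase.2 ⟨h12.symm, h₂⟩
      rw [← add_sum_erase J (fun i => m' i * f i) h₁, ← add_sum_erase J (fun i => m i * f i) h₁,
        ← add_sum_erase _ (fun i => m' i * f i) h₂', ← add_sum_erase _ (fun i => m i * f i) h₂']
      have h4 : ∑ i ∈ (J.erase i₁).erase i₂, m' i * f i =
          ∑ i ∈ (J.erase i₁).erase i₂, m i * f i := sum_congr rfl fun i hi => by
        rw [hm', Function.update_of_ne (ne_of_mem_erase hi),
          Function.update_of_ne (ne_of_mem_erase (mem_of_mem_erase hi))]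
      have h5 : m' i₁ = m i₁ - s := by
        rw [hm', Function.update_of_ne h12, Function.update_self]
      have h6 : m' i₂ = m i₂ - s := by
        rw [hm', Function.update_self]
      rw [h4, h5, h6]
      obtain ⟨u, hu⟩ : ∃ u, m i₁ = u + s := ⟨m i₁ - s, by omega⟩
      obtain ⟨v, hv⟩ : ∃ v, m i₂ = v + s := ⟨m i₂ - s, by omega⟩
      rw [hu, hv, Nat.add_sub_cancel, Nat.add_sub_cancel]
      ring
    have hval1 := hval fun _ => 1
    simp only [Nat.mul_one] at hval1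
    have h4 := key m' (d - 2 * s) (std3 (i₁ := i₁) (i₂ := i₂)
      (a := m i₁ - s) (b := m i₂ - s) (c := m i₃) (fun j hj => by
        by_cases hj2 : j = i₂
        · subst hj2
          rw [hm', Function.update_self, if_pos rfl]
          omega
        · by_cases hj1 : j = i₁
          · subst hj1
            rw [hm', Function.update_of_ne hj2, Function.update_self, if_pos rfl]
            omega
          · rw [hm', Function.update_of_ne hj2, Function.update_of_ne hj1, if_neg hj1, if_neg hj2]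
            exact hmax j hj hj1 hj2) (by omega)) (by omega)
    have h5 := hval κ
    obtain ⟨t, ht⟩ : ∃ t, d = t + 2 * s := ⟨d - 2 * s, by omega⟩
    rw [ht, Nat.add_sub_cancel] at h4
    rw [ht]
    have h7 : s * (κ i₁ + κ i₂ + 1) ≤ s * (2 * e) := Nat.mul_le_mul_left _ (by omega)
    have h8 : (t + 2 * s) * e = t * e + s * (2 * e) := by ring
    have h9 : s * (κ i₁ + κ i₂ + 1) = s * κ i₁ + s * κ i₂ + s := by ring
    omega
  push Not at hc3
  by_cases hc4 : ∃ j ∈ S, j ≠ i₁ ∧ j ≠ i₂ ∧ j ≠ i₃ ∧ m j + s ≤ m i₃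
  · -- a multiplicity can be raised
    obtain ⟨j, hjS, hj1, hj2, hj3, hj⟩ := hc4
    have hjJ := hSJ hjS
    have h4 := key (Function.update m j (m j + s)) d (std3 (i₁ := i₁) (i₂ := i₂)
      (a := m i₁) (b := m i₂) (c := m i₃) (fun l hl => by
        by_cases hlj : l = j
        · subst hlj
          rw [Function.update_self, if_neg hj1, if_neg hj2]
          exact hj
        · rw [Function.update_of_ne hlj]
          exact hbound l hl) (by omega)) (by
      have h5 := hupd1 j hjJ (m j + s)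
      omega)
    have h5 := hupd κ j hjJ (m j + s)
    have h6 : (m j + s) * κ j = m j * κ j + s * κ j := Nat.add_mul _ _ _
    have h7 : s * 1 ≤ s * κ j := Nat.mul_le_mul_left _ (mem_filter.1 hjS).2
    omega
  · -- impossible
    exfalso
    push Not at hc4
    set R := ((J.erase i₁).erase i₂).erase i₃ with hR
    set R' := ((S.erase i₁).erase i₂).erase i₃ with hR'
    have hR'R : R' ⊆ R := erase_subset_erase _ (erase_subset_erase _ (erase_subset_erase _ hSJ))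
    have hR'6 : 6 ≤ R'.card := by
      have h4 := pred_card_le_card_erase (s := S) (a := i₁)
      have h5 := pred_card_le_card_erase (s := S.erase i₁) (a := i₂)
      have h6 := pred_card_le_card_erase (s := (S.erase i₁).erase i₂) (a := i₃)
      rw [← hR'] at h6
      omega
    have h₂' : i₂ ∈ J.erase i₁ := mem_erase.2 ⟨h12.symm, h₂⟩
    have h₃' : i₃ ∈ (J.erase i₁).erase i₂ := mem_erase.2 ⟨h23.symm, mem_erase.2 ⟨h13.symm, h₃⟩⟩
    have h4 : ∑ i ∈ J, m i = m i₁ + (m i₂ + (m i₃ + ∑ i ∈ R, m i)) := by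
      rw [hR, add_sum_erase _ m h₃', add_sum_erase _ m h₂', add_sum_erase _ m h₁]
    have h5 : ∑ i ∈ R', m i ≤ ∑ i ∈ R, m i := sum_le_sum_of_subset hR'R
    have h6 : ∑ _i ∈ R', (m i₃ - s) ≤ ∑ i ∈ R', m i := sum_le_sum fun i hi => by
      have h7 := hc4 i (mem_of_mem_erase (mem_of_mem_erase (mem_of_mem_erase hi)))
        (ne_of_mem_erase (mem_of_mem_erase (mem_of_mem_erase hi)))
        (ne_of_mem_erase (mem_of_mem_erase hi)) (ne_of_mem_erase hi)
      omega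
    rw [sum_const, smul_eq_mul] at h6
    have h7 : 6 * (m i₃ - s) ≤ R'.card * (m i₃ - s) := Nat.mul_le_mul_right _ hR'6
    have h8 := hy i₃ h₃
    omega

end Pool.Agent.H74.KV

end

section

/-!
# The plane: anticanonically positive large part
-/

namespace Pool.Agent.H74.KV

open Finset MvPolynomial Pool.Agent.H18.Fat Pool.Agent.H18.Ub Pool.Agent.H22.LU Pool.Agent.H74.CT Pool.Agent.H74.BP Pool.Agent.H18.Nef Pool.Agent.H18.Cub Pool.Agent.H18.Pr

/-- A class in standard form, with sum of the multiplicities at most `(3 - ε) d`, is in the interior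
of the nef cone. -/
theorem nef_anti (ε : ℝ) (hε : 0 < ε) : ∃ η : ℝ, 0 < η ∧ ∃ d₁ : ℕ, ∀ (n d a : ℕ) (m : Fin n → ℕ)
    (J : Finset (Fin n)), d₁ ≤ d → 9 ≤ J.card → (∀ i ∈ J, ε * d ≤ m i) →
    (∀ S ⊆ J, S.card = 3 → ∑ i ∈ S, m i ≤ d) → ∑ i ∈ J, (m i : ℝ) ≤ (3 - ε) * d →
    (1 - η) * d ≤ a → NefC a fun i => if i ∈ J then m i else 0 := by
  classical
  set e₀ : ℕ := ⌈128 / ε ^ 2⌉₊ + 6 with he₀
  have he₀6 : (6 : ℝ) ≤ e₀ := by
    rw [he₀]
    push_cast
    have : (0 : ℝ) ≤ (⌈128 / ε ^ 2⌉₊ : ℝ) := Nat.cast_nonneg _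
    linarith only
  have he₀ε : 128 / ε ^ 2 ≤ e₀ := by
    rw [he₀]
    push_cast
    have := Nat.le_ceil (128 / ε ^ 2)
    linarith only [this]
  have he₀pos : (0 : ℝ) < e₀ := by linarith only [he₀6]
  set η : ℝ := min (ε / (32 * e₀)) (ε ^ 2 / 256) with hη
  have hηpos : 0 < η := lt_min (by positivity) (by positivity)
  have hη1 : η * (32 * e₀) ≤ ε := by
    have h1 : η ≤ ε / (32 * e₀) := min_le_left _ _
    rwa [le_div_iff₀ (by positivity)] at h1
  have hη2 : η ≤ ε ^ 2 / 256 := min_le_right _ _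
  have hη3 : 192 * η ≤ ε := by nlinarith only [hη1, he₀6, hηpos]
  refine ⟨η, hηpos, ⌈32 / ε⌉₊ + 1, fun n d a m J hd hJ9 hJ hstd hsum ha => ?_⟩
  have hd0 : (0 : ℝ) < d := by exact_mod_cast (by omega : 0 < d)
  have hdε : 32 ≤ ε * d := by
    have h1 : 32 / ε ≤ d := (Nat.le_ceil _).trans (by exact_mod_cast (by omega : ⌈32 / ε⌉₊ ≤ d))
    rw [div_le_iff₀ hε] at h1
    linarith only [h1]
  have hε3 : ε ≤ 3 := by
    by_contra hcon
    push Not at hcon
    have h1 : (0 : ℝ) ≤ ∑ i ∈ J, (m i : ℝ) := sum_nonneg fun _ _ => Nat.cast_nonneg _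
    nlinarith only [hsum, h1, hd0, hcon]
  set s : ℕ := ⌊ε * d / 16⌋₊ with hs
  have hs1 : (s : ℝ) ≤ ε * d / 16 := Nat.floor_le (by positivity)
  have hs2 : ε * d / 32 ≤ s := by
    have h1 : ε * d / 16 < s + 1 := Nat.lt_floor_add_one _
    linarith only [hdε, h1]
  have hy : ∀ i ∈ J, s ≤ m i := by
    intro i hi
    have h1 := hJ i hi
    have h2 : (s : ℝ) ≤ m i := by linarith only [hηpos, hη3, hdε, hε3, hs1, h1]
    exact_mod_cast h2
  have hsum' : ∑ i ∈ J, m i + 16 * s ≤ 3 * d := by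
    have h1 : ((∑ i ∈ J, m i + 16 * s : ℕ) : ℝ) ≤ ((3 * d : ℕ) : ℝ) := by
      push_cast
      linarith only [hsum, hs1]
    exact_mod_cast h1
  have hsq := sq_anti (by omega) hy hstd hsum'
  intro f k hk
  have hkf : ∀ i, k i ≤ f := fun i => le_of_effective k hk i
  obtain ⟨p, hp⟩ := exists_good n f
  obtain ⟨F, hF, hF0⟩ : ∃ F ∈ fatForms 2 f p k, F ≠ 0 := by
    rw [← hp.dim f le_rfl k hkf] at hk
    by_contra hcon
    push Not at hcon
    have h4 : fatForms 2 f p k = ⊥ := by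
      rw [eq_bot_iff]
      intro F hF
      rw [Submodule.mem_bot]
      exact hcon F hF
    rw [h4, finrank_bot] at hk
    omega
  refine pair_of_irred (p := p) a (fun i => if i ∈ J then m i else 0) f F hF0 hF.1
    (fun A e κ hA _ hAe he hef hκ => ?_) k fun i => hF.2 i
  have h0 : ∑ i, (if i ∈ J then m i else 0) * κ i = ∑ i ∈ J, m i * κ i := by
    rw [← sum_subset (subset_univ J)]
    · exact sum_congr rfl fun i hi => by rw [if_pos hi]
    · intro i _ hi
      rw [if_neg hi, Nat.zero_mul]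
  rw [h0]
  have heff : 1 ≤ generalDim 2 e κ := eff_of_mem hp hef hA.ne_zero hAe κ fun j => (hκ j).1
  have he0 : (1 : ℝ) ≤ e := by exact_mod_cast he
  suffices h : ((∑ i ∈ J, m i * κ i : ℕ) : ℝ) ≤ ((a * e : ℕ) : ℝ) by exact_mod_cast h
  set S := J.filter fun i => 1 ≤ κ i with hS
  have hSJ : S ⊆ J := filter_subset _ _
  have hout : ∀ i ∈ J, i ∉ S → κ i = 0 := by
    intro i hi hi'
    rw [hS, mem_filter] at hi'
    by_contra hne
    exact hi' ⟨hi, by omega⟩
  rcases Nat.lt_or_ge S.card 9 with hS8 | hS9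
  · obtain ⟨J', hSJ', hJ'J, hJ'3, hJ'8⟩ : ∃ J' : Finset (Fin n), S ⊆ J' ∧ J' ⊆ J ∧
        3 ≤ J'.card ∧ J'.card ≤ 8 := by
      rcases Nat.lt_or_ge S.card 3 with h | h
      · obtain ⟨J', h5, h6, h7⟩ := exists_subsuperset_card_eq hSJ (n := 3) (by omega)
          (by omega : 3 ≤ J.card)
        exact ⟨J', h5, h6, by omega, by omega⟩
      · exact ⟨S, Subset.rfl, hSJ, h, by omega⟩
    have h6 := nef_eight m J' hJ'3 hJ'8 d s (fun i hi => hy i (hJ'J hi))
      (fun T hT hTc => hstd T (hT.trans hJ'J) hTc) heff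
    have h7 : ∑ i ∈ J, m i * κ i = ∑ i ∈ J', m i * κ i := by
      refine (sum_subset hJ'J fun i hi hi' => ?_).symm
      rw [hout i hi fun h => hi' (hSJ' h), Nat.mul_zero]
    rw [h7]
    have h8 : ((6 * ∑ i ∈ J', m i * κ i + s * e : ℕ) : ℝ) ≤ ((6 * d * e : ℕ) : ℝ) := by
      exact_mod_cast h6
    push_cast at h8 ⊢
    have h9 : (6 : ℝ) * d ≤ 6 * a + s := by nlinarith only [ha, hs2, hη3]
    have h10 : (6 : ℝ) * d * e ≤ (6 * a + s) * e := mul_le_mul_of_nonneg_right h9 (by linarith only [hηpos, hη3, hε3, he0])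
    linarith only [h8, h10]
  · rcases Nat.lt_or_ge e₀ e with hbig | hsmall
    · -- large degree
      have hST : S ⊆ univ.filter fun i => 1 ≤ κ i := fun i hi =>
        mem_filter.2 ⟨mem_univ i, (mem_filter.1 hi).2⟩
      obtain ⟨-, hX⟩ := lt_deg hp hef hA hAe κ hκ (hS9.trans (card_le_card hST))
      have h6 : ∑ i ∈ J, m i * κ i = ∑ i ∈ S, m i * κ i := by
        refine (sum_subset hSJ fun i hi hi' => ?_).symm
        rw [hout i hi hi', Nat.mul_zero]
      have h7 : (∑ i ∈ S, m i * κ i) ^ 2 ≤ (∑ i ∈ S, m i ^ 2) * ∑ i ∈ S, κ i ^ 2 :=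
        sum_mul_sq_le_sq_mul_sq _ _ _
      have h8 : ∑ i ∈ S, m i ^ 2 ≤ ∑ i ∈ J, m i ^ 2 := sum_le_sum_of_subset hSJ
      have h9 : ∑ i ∈ S, κ i ^ 2 ≤ ∑ i, κ i ^ 2 := sum_le_sum_of_subset (subset_univ S)
      have h10 : (∑ i ∈ S, m i * κ i) ^ 2 ≤ (∑ i ∈ J, m i ^ 2) * (e ^ 2 + e) :=
        h7.trans (Nat.mul_le_mul h8 (h9.trans hX))
      rw [h6]
      have h11 : (((∑ i ∈ S, m i * κ i : ℕ) : ℝ)) ^ 2 ≤
          ((∑ i ∈ J, m i ^ 2 : ℕ) : ℝ) * ((e : ℝ) ^ 2 + e) := by exact_mod_cast h10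
      have h12 : ((∑ i ∈ J, m i ^ 2 : ℕ) : ℝ) + 16 * (s : ℝ) ^ 2 ≤ (d : ℝ) ^ 2 := by
        exact_mod_cast hsq
      have h13 : (ε * d / 32) ^ 2 ≤ (s : ℝ) ^ 2 := pow_le_pow_left₀ (by positivity) hs2 2
      have h14 : ((∑ i ∈ J, m i ^ 2 : ℕ) : ℝ) ≤ (1 - ε ^ 2 / 64) * (d : ℝ) ^ 2 := by
        have : 16 * (ε * d / 32) ^ 2 = ε ^ 2 / 64 * (d : ℝ) ^ 2 := by ring
        linarith only [h12, h13]
      have he₀e : (e₀ : ℝ) ≤ e := by exact_mod_cast hbig.le
      have h15 : (e : ℝ) ^ 2 + e ≤ (1 + ε ^ 2 / 128) * (e : ℝ) ^ 2 := by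
        have h16 : 128 ≤ ε ^ 2 * e := by
          have := he₀ε.trans he₀e
          rw [div_le_iff₀ (by positivity)] at this
          linarith only [this]
        have h17 : (e : ℝ) ≤ ε ^ 2 / 128 * (e : ℝ) ^ 2 := by nlinarith only [h16]
        linarith only [h17]
      have h16 : (0 : ℝ) ≤ ((∑ i ∈ J, m i ^ 2 : ℕ) : ℝ) := Nat.cast_nonneg _
      have h17 : ((∑ i ∈ J, m i ^ 2 : ℕ) : ℝ) * ((e : ℝ) ^ 2 + e) ≤
          ((1 - ε ^ 2 / 64) * (d : ℝ) ^ 2) * ((1 + ε ^ 2 / 128) * (e : ℝ) ^ 2) :=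
        mul_le_mul h14 h15 (by positivity) (h16.trans h14)
      have h18 : (1 - ε ^ 2 / 64) * (1 + ε ^ 2 / 128) ≤ (1 - η) ^ 2 := by nlinarith only [hη2, sq_nonneg η, sq_nonneg ε]
      have h19 : ((1 - ε ^ 2 / 64) * (d : ℝ) ^ 2) * ((1 + ε ^ 2 / 128) * (e : ℝ) ^ 2) ≤
          ((1 - η) * d) ^ 2 * (e : ℝ) ^ 2 := by
        have h20 : ((1 - ε ^ 2 / 64) * (d : ℝ) ^ 2) * ((1 + ε ^ 2 / 128) * (e : ℝ) ^ 2) =
            ((1 - ε ^ 2 / 64) * (1 + ε ^ 2 / 128)) * ((d : ℝ) ^ 2 * (e : ℝ) ^ 2) := by ring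
        have h21 : ((1 - η) * (d : ℝ)) ^ 2 * (e : ℝ) ^ 2 = (1 - η) ^ 2 * ((d : ℝ) ^ 2 * (e : ℝ) ^ 2) := by
          ring
        rw [h20, h21]
        exact mul_le_mul_of_nonneg_right h18 (by positivity)
      have hη1' : 0 ≤ 1 - η := by linarith only [hηpos, hη3, hε3]
      have h20 : ((1 - η) * (d : ℝ)) ^ 2 ≤ (a : ℝ) ^ 2 :=
        pow_le_pow_left₀ (by positivity) ha 2
      have h21 : (((∑ i ∈ S, m i * κ i : ℕ) : ℝ)) ^ 2 ≤ (((a * e : ℕ) : ℝ)) ^ 2 := by
        push_cast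
        rw [mul_pow]
        have h22 : ((1 - η) * (d : ℝ)) ^ 2 * (e : ℝ) ^ 2 ≤ (a : ℝ) ^ 2 * (e : ℝ) ^ 2 :=
          mul_le_mul_of_nonneg_right h20 (sq_nonneg _)
        push_cast at h11 h17
        linarith only [h19, h22, h11, h17]
      exact (abs_le_of_sq_le_sq' h21 (Nat.cast_nonneg _)).2
    · -- small degree
      have h6 := pair_anti hp hef hA hAe κ hκ hy hstd hsum' hS9
      have h8 : ((∑ i ∈ J, m i * κ i + s : ℕ) : ℝ) ≤ ((d * e : ℕ) : ℝ) := by exact_mod_cast h6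
      push_cast at h8 ⊢
      have he₀e : (e : ℝ) ≤ e₀ := by exact_mod_cast hsmall
      have h9 : η * d * e ≤ ε * d / 32 := by
        have h10 : η * d * e ≤ η * d * e₀ := mul_le_mul_of_nonneg_left he₀e (by positivity)
        nlinarith only [h10, hη1]
      have h10 : (1 - η) * (d : ℝ) * e ≤ a * e := mul_le_mul_of_nonneg_right ha (by linarith only [hηpos, hη3, hε3, he0])
      nlinarith only [hs2, h8, h9, h10]

end Pool.Agent.H74.KV

end
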