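import Pool.Agent.H94.LP4.H74.KV.Xu3
import Pool.Agent.H94.LP4.M70
import Pool.Agent.H94.LP4.M71

/-! The parts of this file: H74.KV.PlaneN_1, H74.SC.Ex. -/

section

/-!
# The plane: large points forming a nef class with slack
-/

namespace Pool.Agent.H74.KV

open Finset Pool.Agent.H18.Cub Pool.Agent.H18.Pr Pool.Agent.H18.Fat Pool.Agent.H18.Ub Pool.Agent.H18.Nef Pool.Agent.H74.BP

/-- The large points form a nef class with slack. -/
theorem exact_of_nef (ε : ℝ) (hε : 0 < ε) (F : ℕ) : ∃ d₀ : ℕ, ∀ (n d a : ℕ) (m : Fin n → ℕ)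
    (J : Finset (Fin n)), d₀ ≤ d → (∀ i ∈ J, ε * d ≤ m i) →
    (NefC a fun i => if i ∈ J then m i else 0) → (a : ℝ) ≤ (1 - ε) * d →
    F ≤ d ∧ ∀ j, d ≤ j + F → Exact 2 j m J := by
  classical
  obtain ⟨d₀, hd₀⟩ := nef_exact_on ⌈1 / ε ^ 2⌉₊ (ε / 2) (by positivity)
  obtain ⟨d₁, hd₁⟩ := exists_nat_ge (2 * F / ε)
  refine ⟨d₀ + F + d₁ + 1, fun n d a m J hd hJ hnef ha => ⟨by omega, fun j hj => ?_⟩⟩
  have hd0 : (0 : ℝ) < d := by exact_mod_cast (by omega : 0 < d)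
  have ha0 : (0 : ℝ) ≤ a := Nat.cast_nonneg a
  have hε1 : ε ≤ 1 := by
    by_contra hcon
    push Not at hcon
    nlinarith
  have had : a ≤ d := by
    have : (a : ℝ) ≤ d := by nlinarith
    exact_mod_cast this
  have hcard := card_le_of_nef hε (by omega) hJ hnef had
  have hFd : (F : ℝ) ≤ ε / 2 * d := by
    have h1 : (2 * F / ε : ℝ) ≤ d := hd₁.trans (by exact_mod_cast (by omega : d₁ ≤ d))
    rw [div_le_iff₀ hε] at h1
    linarith
  have hjr : (d : ℝ) ≤ j + F := by exact_mod_cast hj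
  have h1 := hd₀ n j a (fun i => if i ∈ J then m i else 0) J hcard (fun i hi => if_neg hi)
    (by omega) hnef (by
      have h2 : (1 - ε / 2) * (d - ε / 2 * d) ≤ (1 - ε / 2) * (j : ℝ) :=
        mul_le_mul_of_nonneg_left (by linarith) (by linarith)
      have h3 : (1 - ε) * (d : ℝ) ≤ (1 - ε / 2) * (d - ε / 2 * d) := by
        have h4 : (1 - ε / 2) * ((d : ℝ) - ε / 2 * d) = (1 - ε) * d + ε ^ 2 / 4 * d := by ring
        rw [h4]
        have : (0 : ℝ) ≤ ε ^ 2 / 4 * d := by positivity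
        linarith
      linarith)
  unfold Exact
  have h2 : ∑ i, (((if i ∈ J then m i else 0) + 2 - 1).choose 2) =
      ∑ i ∈ J, ((m i + 2 - 1).choose 2) := by
    rw [← sum_subset (subset_univ J)]
    · exact sum_congr rfl fun i hi => by rw [if_pos hi]
    · intro i _ hi
      rw [if_neg hi]
      rfl
  rw [← h2]
  exact h1

end Pool.Agent.H74.KV

end

section

/-!
# The large points impose independent conditions in slightly smaller degrees
-/

namespace Pool.Agent.H74.SC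

open Finset Pool.Agent.H18.Cub Pool.Agent.H18.Pr Pool.Agent.H18.Fat Pool.Agent.H18.Ub Pool.Agent.H18.Nef Pool.Agent.H74.BP Pool.Agent.H74.KV

/-- The plane: the large points fill less than `36 / 37`. -/
theorem exact36 (F : ℕ) (ε : ℝ) (hε : 0 < ε) : ∃ d₀ : ℕ,
    ∀ (k d : ℕ) (m : Fin k → ℕ) (J : Finset (Fin k)), d₀ ≤ d → (∀ i ∈ J, ε * d ≤ m i) →
    9 ≤ J.card → (∀ S : Finset (Fin k), S.card ≤ 3 → ∑ i ∈ S, m i ≤ d) →
    ∑ i ∈ J, (m i : ℝ) ^ 2 ≤ (36 / 37 - ε) * d ^ 2 →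
    F ≤ d ∧ ∀ j, d ≤ j + F → Exact 2 j m J := by
  classical
  -- the nef class
  set η : ℝ := min (ε / 24) (1 / 2) with hη
  have hηpos : 0 < η := lt_min (by positivity) (by norm_num)
  have hηε : η ≤ ε / 24 := min_le_left _ _
  obtain ⟨d₀, hd₀⟩ := exact_of_nef η hηpos F
  obtain ⟨d₁, hd₁⟩ := exists_nat_ge (24 / ε)
  refine ⟨d₀ + d₁ + 1, fun k d m J hd hJ h9 hstd hsq => ?_⟩
  · have hd0 : (0 : ℝ) < d := by exact_mod_cast (by omega : 0 < d)
    have hdd : (24 / ε : ℝ) ≤ d := hd₁.trans (by exact_mod_cast (by omega : d₁ ≤ d))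
    rw [div_le_iff₀ hε] at hdd
    -- `ε ≤ 1`
    have hε1 : ε ≤ 36 / 37 := by
      by_contra hcon
      push Not at hcon
      have h1 : (0 : ℝ) ≤ ∑ i ∈ J, (m i : ℝ) ^ 2 := sum_nonneg fun _ _ => sq_nonneg _
      have h2 : (36 / 37 - ε) * (d : ℝ) ^ 2 < 0 := by
        have : (0 : ℝ) < (d : ℝ) ^ 2 := by positivity
        nlinarith only [hsq, h1, hcon, this]
      linarith only [hsq, h1, h2]
    set a := ⌊(1 - η) * (d : ℝ)⌋₊ with ha
    have hη1 : 0 ≤ 1 - η := by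
      have := min_le_right (ε / 24) (1 / 2 : ℝ)
      linarith only [hηpos, hηε, hε1]
    have ha1 : (a : ℝ) ≤ (1 - η) * d := Nat.floor_le (by positivity)
    have ha2 : (1 - η) * (d : ℝ) < a + 1 := Nat.lt_floor_add_one _
    set y := ⌈ε * (d : ℝ)⌉₊ with hy
    have hy1 : ε * (d : ℝ) ≤ y := Nat.le_ceil _
    refine hd₀ k d a m J (by omega) (fun i hi => ?_) ?_ ha1
    · refine le_trans ?_ (hJ i hi)
      have : η ≤ ε := by linarith only [hηpos, hηε]
      exact mul_le_mul_of_nonneg_right this hd0.le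
    · refine nef_num36 hε (J := J) (by omega) (d := d) (y := y) (fun i hi => ?_)
        (fun S _ hS => hstd S hS.le) hsq ?_ ?_
      · exact Nat.ceil_le.2 (hJ i hi)
      · have h1 : (12 : ℝ) * d ≤ 12 * a + y := by nlinarith only [hdd, ha2, hy1, hηε]
        exact_mod_cast h1
      · nlinarith only [hηpos, hηε, hdd, hε1, ha2]

/-- The plane: standard form and anticanonically positive large part. -/
theorem exact_anti (F : ℕ) (ε : ℝ) (hε : 0 < ε) : ∃ d₀ : ℕ,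
    ∀ (k d : ℕ) (m : Fin k → ℕ) (J : Finset (Fin k)), d₀ ≤ d → (∀ i ∈ J, ε * d ≤ m i) →
    9 ≤ J.card → (∀ S : Finset (Fin k), S.card ≤ 3 → ∑ i ∈ S, m i ≤ d) →
    ∑ i ∈ J, (m i : ℝ) ≤ (3 - ε) * d →
    F ≤ d ∧ ∀ j, d ≤ j + F → Exact 2 j m J := by
  classical
  obtain ⟨η₁, hη₁, d₁, hd₁⟩ := nef_anti ε hε
  set η : ℝ := min (η₁ / 2) (min ε (1 / 2)) with hη
  have hηpos : 0 < η := lt_min (by positivity) (lt_min hε (by norm_num))
  have hη1 : η ≤ η₁ / 2 := min_le_left _ _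
  have hη2 : η ≤ ε := (min_le_right _ _).trans (min_le_left _ _)
  have hη3 : η ≤ 1 / 2 := (min_le_right _ _).trans (min_le_right _ _)
  obtain ⟨d₀, hd₀⟩ := exact_of_nef η hηpos F
  obtain ⟨d₂, hd₂⟩ := exists_nat_ge (2 / η₁)
  refine ⟨d₀ + d₁ + d₂ + 1, fun k d m J hd hJ h9 hstd hsum => ?_⟩
  · have hd0 : (0 : ℝ) < d := by exact_mod_cast (by omega : 0 < d)
    have hdd : (2 / η₁ : ℝ) ≤ d := hd₂.trans (by exact_mod_cast (by omega : d₂ ≤ d))
    rw [div_le_iff₀ hη₁] at hdd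
    set a := ⌊(1 - η) * (d : ℝ)⌋₊ with ha
    have ha1 : (a : ℝ) ≤ (1 - η) * d := Nat.floor_le (mul_nonneg (by linarith only [hηpos, hη3]) hd0.le)
    have ha2 : (1 - η) * (d : ℝ) < a + 1 := Nat.lt_floor_add_one _
    refine hd₀ k d a m J (by omega) (fun i hi => ?_) ?_ ha1
    · exact (mul_le_mul_of_nonneg_right hη2 hd0.le).trans (hJ i hi)
    · refine hd₁ k d a m J (by omega) h9 hJ (fun S _ hS => hstd S hS.le) hsum ?_
      nlinarith only [hdd, ha2, hη1]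

end Pool.Agent.H74.SC

end
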