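import Pool.Agent.H94.LP4.M02
import Pool.Agent.H94.LP4.M08
import Pool.Agent.H94.LP4.M10
import Pool.Agent.H94.LP4.M11

/-! The parts of this file: H18.Ex.Refl, H18.Cub.CremA, H18.Cub.CremB. -/

section

/-!
# Module Refl: the toric reflection `x ↦ 1/x`
-/

namespace Pool.Agent.H18.Ex

open Finset

variable {ι : Type} [Fintype ι] [DecidableEq ι]

/-! ### Auxiliary facts -/

theorem refl_choose (β : ℕ) : ∀ a w : ℕ, a ≤ w →
    ∑ b ∈ range (β + 1), (-1 : ℂ) ^ b * (a.choose b : ℂ) * ((w - b).choose (β - b) : ℂ) =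
      ((w - a).choose β : ℂ) := by
  induction β with
  | zero => intro a w _; simp
  | succ β ihβ =>
    intro a
    induction a with
    | zero =>
      intro w _
      rw [Finset.sum_eq_single 0]
      · simp
      · intro b _ hb
        obtain ⟨c, rfl⟩ := Nat.exists_eq_succ_of_ne_zero hb
        simp
      · simp
    | succ a iha =>
      intro w hw
      obtain ⟨w, rfl⟩ : ∃ v, w = v + 1 := ⟨w - 1, by omega⟩
      have h1 := iha (w + 1) (by omega)
      have h2 := ihβ a w (by omega)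
      rw [Finset.sum_range_succ'] at h1 ⊢
      have h3 : ∀ b : ℕ, (-1 : ℂ) ^ (b + 1) * ((a + 1).choose (b + 1) : ℂ) *
          ((w + 1 - (b + 1)).choose (β + 1 - (b + 1)) : ℂ) =
          (-1 : ℂ) ^ (b + 1) * (a.choose (b + 1) : ℂ) *
          ((w + 1 - (b + 1)).choose (β + 1 - (b + 1)) : ℂ) -
          (-1 : ℂ) ^ b * (a.choose b : ℂ) * ((w - b).choose (β - b) : ℂ) := by
        intro b
        rw [Nat.choose_succ_succ, Nat.add_sub_add_right, Nat.add_sub_add_right]
        push_cast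
        ring
      rw [Finset.sum_congr rfl fun b _ => h3 b, Finset.sum_sub_distrib, h2]
      have h4 : (((w + 1 - a).choose (β + 1) : ℕ) : ℂ) =
          ((w - a).choose β : ℂ) + ((w - a).choose (β + 1) : ℂ) := by
        rw [show w + 1 - a = (w - a) + 1 by omega, Nat.choose_succ_succ]
        push_cast
        rfl
      rw [h4] at h1
      rw [show w + 1 - (a + 1) = w - a by omega]
      simp only [pow_zero, Nat.choose_zero_right, Nat.cast_one, one_mul, Nat.sub_zero] at h1 ⊢
      linear_combination h1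

theorem refl_one (a w β : ℕ) (haw : a ≤ w) (q : ℂ) (hq : q ≠ 0) :
    ((w - a).choose β : ℂ) * (q⁻¹) ^ (w - a - β) =
      ∑ b ∈ range (β + 1), ((a.choose b : ℂ) * q ^ (a - b)) *
        ((-1 : ℂ) ^ b * ((w - b).choose (β - b) : ℂ) * q ^ b * (q⁻¹) ^ (w - β)) := by
  have h1 : ∀ b ∈ range (β + 1), ((a.choose b : ℂ) * q ^ (a - b)) *
        ((-1 : ℂ) ^ b * ((w - b).choose (β - b) : ℂ) * q ^ b * (q⁻¹) ^ (w - β)) =
      ((-1 : ℂ) ^ b * (a.choose b : ℂ) * ((w - b).choose (β - b) : ℂ)) *
        (q ^ a * (q⁻¹) ^ (w - β)) := by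
    intro b _
    rcases Nat.lt_or_ge a b with hb | hb
    · rw [Nat.choose_eq_zero_of_lt hb]
      simp
    · have : q ^ a = q ^ (a - b) * q ^ b := by
        rw [← pow_add, Nat.sub_add_cancel hb]
      rw [this]
      ring
  rw [Finset.sum_congr rfl h1, ← Finset.sum_mul, refl_choose β a w haw]
  rcases Nat.lt_or_ge (w - a) β with hb | hb
  · rw [Nat.choose_eq_zero_of_lt hb]
    simp
  · have h2 : (q⁻¹) ^ (w - β) = (q⁻¹) ^ a * (q⁻¹) ^ (w - a - β) := by
      rw [← pow_add]
      congr 1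
      omega
    rw [h2, ← mul_assoc (q ^ a), ← mul_pow, mul_inv_cancel₀ hq, one_pow, one_mul]

theorem refl_mem {σ : ℕ} {w : ι → ℕ} {a : ι → ℕ} (ha : a ∈ Rg σ w) :
    (fun i => w i - a i) ∈ Rg (∑ i, w i - σ) w := by
  rw [mem_Rg] at ha ⊢
  refine ⟨fun i => Nat.sub_le _ _, ?_⟩
  rw [← ha.2]
  exact Finset.sum_tsub_distrib _ fun i _ => ha.1 i

theorem refl_mem' {σ : ℕ} {w : ι → ℕ} (hσ : σ ≤ ∑ i, w i) {a : ι → ℕ}
    (ha : a ∈ Rg (∑ i, w i - σ) w) : (fun i => w i - a i) ∈ Rg σ w := by
  have h := refl_mem ha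
  rwa [Nat.sub_sub_self hσ] at h

theorem refl_refl {σ : ℕ} {w : ι → ℕ} {a : ι → ℕ} (ha : a ∈ Rg σ w) :
    (fun i => w i - (w i - a i)) = a := by
  rw [mem_Rg] at ha
  funext i
  exact Nat.sub_sub_self (ha.1 i)

theorem refl_tcr (w a β : ι → ℕ) (haw : ∀ i, a i ≤ w i) (q : ι → ℂ) (hq : ∀ i, q i ≠ 0) :
    tcr (fun i => (q i)⁻¹) (fun i => w i - a i) β =
      ∑ b ∈ Fintype.piFinset fun i => range (β i + 1), tcr q a b *
        ∏ i, ((-1 : ℂ) ^ b i * ((w i - b i).choose (β i - b i) : ℂ) * q i ^ b i *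
          ((q i)⁻¹) ^ (w i - β i)) := by
  unfold tcr
  rw [Finset.prod_congr rfl fun i _ => refl_one (a i) (w i) (β i) (haw i) (q i) (hq i),
    Finset.prod_univ_sum]
  refine Finset.sum_congr rfl fun b _ => ?_
  rw [Finset.prod_mul_distrib]

/-- Reflection of one condition.  For `q` with nonzero coordinates and `A ⊆ {a ≤ w}`: if
`f` on `A` vanishes to order `m` at `q`, then `g a = f (w - a)` on `w - A` vanishes to order `m`
at `1/q`.

Proof.  Let `T b = ∑_{a ∈ A} f a tcr q a b` (Taylor coefficients, `T b = 0` for `|b| < m`, and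
`T b = 0` unless `b ≤ w`).  Taylor's formula at the level of monomials:
`∑_{a ∈ A} f a y^(w - a) = ∑_{b ≤ w} T b y^(w - b) (1 - q y)^b` (expand
`x^a = ∑_b tcr q a b (x - q)^b` and multiply by `y^w` with `x = 1/y`; one variable at a time:
`y^(w-a) = ∑_{b ≤ a} binom(a,b) q^(a-b) y^(w-b) (1 - q y)^b`, which is
`y^(w-a) * (1)^a = y^(w-a) * (q y + (1 - q y))^a`).  Every term with `T b ≠ 0` is divisible by
`(1 - q y)^b` with `|b| ≥ m`, and `1 - q_i y_i = - q_i (y_i - 1/q_i)`, so it vanishes to order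
`m` at `1/q`.

Purely combinatorial version (recommended): for `a ≤ w` (numbers)
`binom(w - a, β) = ∑_{b ≤ β} (-1)^b binom(a, b) binom(w - b, β - b)` (induction on `a`, Pascal),
hence with `c b β = (-1)^b binom(w - b, β - b) q^b (q⁻¹)^(w - β)` one has
`binom(w - a, β) (q⁻¹)^(w - a - β) = ∑_{b ≤ β} binom(a, b) q^(a - b) c b β`, and taking the product
over the coordinates (`Finset.prod_univ_sum`)
`tcr q⁻¹ (w - a) β = ∑_{b ≤ β} tcr q a b * ∏ i, c_i (b i) (β i)`; therefore
`∑_a f a tcr q⁻¹ (w - a) β = ∑_{b ≤ β} T b * ∏ i, c_i (b i) (β i) = 0` for `|β| < m`. -/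
theorem sat_reflect (σ : ℕ) (w : ι → ℕ) (hσ : σ ≤ ∑ i, w i) (f : (ι → ℕ) → ℂ) (m : ℕ)
    (q : ι → ℂ) (hq : ∀ i, q i ≠ 0) (h : Sat (Rg σ w) f (Kind.free m) q) :
    Sat (Rg (∑ i, w i - σ) w) (fun a => f (fun i => w i - a i)) (Kind.free m)
      (fun i => (q i)⁻¹) := by
  intro β hβ
  have hβ' : ∑ i, β i < m := hβ
  have h' : ∀ b : ι → ℕ, ∑ i, b i < m → ∑ a ∈ Rg σ w, f a * tcr q a b = 0 := h
  change ∑ a ∈ Rg (∑ i, w i - σ) w, f (fun i => w i - a i) * tcr (fun i => (q i)⁻¹) a β = 0
  have h1 : ∑ a ∈ Rg (∑ i, w i - σ) w, f (fun i => w i - a i) * tcr (fun i => (q i)⁻¹) a β =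
      ∑ a ∈ Rg σ w, f a * tcr (fun i => (q i)⁻¹) (fun i => w i - a i) β := by
    refine Finset.sum_nbij' (fun a i => w i - a i) (fun a i => w i - a i)
      (fun a ha => refl_mem' hσ ha) (fun a ha => refl_mem ha) (fun a ha => refl_refl ha)
      (fun a ha => refl_refl ha) fun a ha => ?_
    have h2 := refl_refl ha
    simp only
    rw [h2]
  rw [h1]
  have h3 : ∀ a ∈ Rg σ w, f a * tcr (fun i => (q i)⁻¹) (fun i => w i - a i) β =
      ∑ b ∈ Fintype.piFinset fun i => range (β i + 1), (f a * tcr q a b) *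
        ∏ i, ((-1 : ℂ) ^ b i * ((w i - b i).choose (β i - b i) : ℂ) * q i ^ b i *
          ((q i)⁻¹) ^ (w i - β i)) := by
    intro a ha
    rw [refl_tcr w a β (mem_Rg.1 ha).1 q hq, Finset.mul_sum]
    exact Finset.sum_congr rfl fun b _ => by rw [mul_assoc]
  rw [Finset.sum_congr rfl h3, Finset.sum_comm]
  refine Finset.sum_eq_zero fun b hb => ?_
  rw [← Finset.sum_mul, h' b, zero_mul]
  rw [Fintype.mem_piFinset] at hb
  refine lt_of_le_of_lt (Finset.sum_le_sum fun i _ => ?_) hβ'
  exact Nat.lt_succ_iff.1 (Finset.mem_range.1 (hb i))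

/-- Reflection of the region (take general positions with nonzero coordinates by `GI.general`
or `GI.exists_common` and invert them). -/
theorem GM.reflect (σ : ℕ) (w : ι → ℕ) (hσ : σ ≤ ∑ i, w i) (G : Multiset ℕ)
    (h : GM (Rg (∑ i, w i - σ) w) (G.map Kind.free)) : GM (Rg σ w) (G.map Kind.free) := by
  obtain ⟨n, k, hk, hGI⟩ := h
  obtain ⟨pos, hpos, -, hne⟩ := GI.exists_common hGI hGI
  refine ⟨n, k, hk, fun i j => (pos i j)⁻¹, ?_⟩
  intro f hf a ha
  have hkf : ∀ i, ∃ m, k i = Kind.free m := by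
    intro i
    have h1 : k i ∈ (univ : Finset (Fin n)).val.map k :=
      Multiset.mem_map.2 ⟨i, Finset.mem_univ_val i, rfl⟩
    rw [hk, Multiset.mem_map] at h1
    obtain ⟨m, -, hm⟩ := h1
    exact ⟨m, hm.symm⟩
  have h2 : ∀ i, Sat (Rg (∑ i, w i - σ) w) (fun a => f (fun i => w i - a i)) (k i) (pos i) := by
    intro i
    obtain ⟨m, hm⟩ := hkf i
    have h3 := hf i
    rw [hm] at h3 ⊢
    have h4 := sat_reflect σ w hσ f m (fun j => (pos i j)⁻¹) (fun j => inv_ne_zero (hne i j)) h3
    simpa only [inv_inv] using h4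
  have h5 := hpos _ h2 _ (refl_mem ha)
  simp only [refl_refl ha] at h5
  exact h5

/-- The reflected region has the same number of points. -/
theorem card_reflect (σ : ℕ) (w : ι → ℕ) (hσ : σ ≤ ∑ i, w i) :
    (Rg (∑ i, w i - σ) w).card = (Rg σ w).card :=
  Finset.card_nbij' (fun a i => w i - a i) (fun a i => w i - a i)
    (fun _ ha => refl_mem' hσ ha) (fun _ ha => refl_mem ha) (fun _ ha => refl_refl ha)
    (fun _ ha => refl_refl ha)

end Pool.Agent.H18.Ex

end

section

/-!
# Module CremA: `r + 1` points at the coordinate points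
-/

namespace Pool.Agent.H18.Cub

open Finset Pool.Agent.H18.Ex Pool.Agent.H18.Fat

/-- The conditions outside `J` and `x` simple points. -/
def kkJ {r k : ℕ} (m : Fin k → ℕ) (J : Fin (r + 1) ↪ Fin k) (x : ℕ) :
    {i : Fin k // ∀ l, J l ≠ i} ⊕ Fin x → Kind (Fin (r + 1)) :=
  Sum.elim (fun i => Kind.free (m i.1)) fun _ => Kind.free 1

theorem exists_of_general {r k : ℕ} {P : (Fin k → Fin (r + 1) → ℂ) → Prop}
    (h : ForGeneralPoints r k P) : ∃ p, P p := by
  obtain ⟨G, hG, hP⟩ := h
  by_contra hc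
  push Not at hc
  apply hG
  apply MvPolynomial.funext
  intro v
  rw [map_zero]
  by_contra hv
  exact hc (fun i j => v (i, j)) (hP _ hv)

open Classical in
/-- The form with coefficients `f` on `Rg d w`. -/
noncomputable def formOf {n : ℕ} (d : ℕ) (w : Fin n → ℕ) (f : (Fin n → ℕ) → ℂ) :
    MvPolynomial (Fin n) ℂ :=
  toPoly n d fun α => if (⇑α.1 : Fin n → ℕ) ∈ Rg d w then f ⇑α.1 else 0

theorem coeff_shift_formOf {n d : ℕ} {w : Fin n → ℕ} (f : (Fin n → ℕ) → ℂ) (q : Fin n → ℂ)
    (β : Fin n →₀ ℕ) :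
    MvPolynomial.coeff β (shift q (formOf d w f)) = ∑ a ∈ Ex.Rg d w, f a * tcr q a ⇑β := by
  classical
  unfold formOf
  rw [coeff_shift_toPoly]
  rw [Finset.sum_coe_sort (mons n d)
    (fun α => (if (⇑α : Fin n → ℕ) ∈ Ex.Rg d w then f ⇑α else 0) * tc q α β)]
  symm
  apply sum_bij_ne_zero (fun (a : Fin n → ℕ) _ _ => Finsupp.equivFunOnFinite.symm a)
  · intro a ha _
    rw [mem_mons, Finsupp.degree_eq_sum]
    exact (Ex.mem_Rg.1 ha).2
  · intro a _ _ a' _ _ haa
    exact Finsupp.equivFunOnFinite.symm.injective haa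
  · intro α _ hne
    have hα : (⇑α : Fin n → ℕ) ∈ Ex.Rg d w := by
      by_contra hc
      rw [if_neg hc, zero_mul] at hne
      exact hne rfl
    rw [if_pos hα] at hne
    refine ⟨⇑α, hα, hne, ?_⟩
    ext
    rfl
  · intro a ha _
    have h1 : (⇑(Finsupp.equivFunOnFinite.symm a) : Fin n → ℕ) = a := rfl
    rw [h1, if_pos ha]
    rfl

theorem vanishes_formOf {n d : ℕ} {w : Fin n → ℕ} {f : (Fin n → ℕ) → ℂ} {q : Fin n → ℂ} {m : ℕ}
    (h : Sat (Ex.Rg d w) f (Kind.free m) q) : VanishesToOrder (formOf d w f) q m := by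
  intro β hβ
  rw [coeff_shift_formOf]
  apply h ⇑β
  change ∑ i, β i < m
  rwa [Finsupp.degree_eq_sum] at hβ

/-- From general points to the toric form.  Choose general `p` (two open conditions, a nonzero
polynomial has a nonzero), move the points `J l` to the coordinate points by `finrank_linear`, add
`x` simple points (`exists_simple_points`), and translate: a coefficient function `f` on
`Rg d w`, `w l = d - m (J l)`, satisfying the conditions gives the form `∑ f a X^a`, which vanishes to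
order `m (J l)` at the coordinate points (`vanishes_coord_iff`). -/
theorem GI_of_general {r k d : ℕ} (m : Fin k → ℕ) (J : Fin (r + 1) ↪ Fin k)
    (hJ : ∀ l, m (J l) ≤ d) (x : ℕ)
    (h : ForGeneralPoints r k fun p => Module.finrank ℂ (fatForms r d p m) ≤ x) :
    GI (Ex.Rg d fun l => d - m (J l)) (kkJ m J x) := by
  classical
  obtain ⟨p, hp, hdet⟩ := exists_of_general (h.and (Pool.Agent.H18.Fat.general_det J))
  set A : Matrix (Fin (r + 1)) (Fin (r + 1)) ℂ := Matrix.of fun j l => p (J l) j with hA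
  have hunit : IsUnit A := by
    rw [Matrix.isUnit_iff_isUnit_det]
    exact isUnit_iff_ne_zero.2 hdet
  obtain ⟨B, hB⟩ := isUnit_iff_exists_inv.1 hunit
  have hBA : B * A = 1 := mul_eq_one_comm.1 hB
  have h1 := finrank_linSubst (d := d) p m hBA
  set p' : Fin k → Fin (r + 1) → ℂ := fun i => B.mulVec (p i) with hp'
  have hcoord : ∀ l, p' (J l) = Pi.single l 1 := by
    intro l
    have h2 : p (J l) = A.mulVec (Pi.single l 1) := by
      funext j
      rw [Matrix.mulVec_single_one]
      rfl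
    rw [hp']
    simp only
    rw [h2, Matrix.mulVec_mulVec, hBA, Matrix.one_mulVec]
  obtain ⟨y, -, hy⟩ := exists_simple_points (d := d) p' m x
  rw [h1, Nat.sub_eq_zero_of_le hp] at hy
  refine ⟨Sum.elim (fun i => p' i.1) y, ?_⟩
  intro f hf a ha
  set w : Fin (r + 1) → ℕ := fun l => d - m (J l) with hw
  have hmem : formOf d w f ∈ fatForms r d (Sum.elim p' y) (Sum.elim m fun _ => 1) := by
    refine ⟨toPoly_isHomogeneous _, ?_⟩
    rintro (i | j)
    · by_cases hi : ∀ l, J l ≠ i
      · exact vanishes_formOf (hf (Sum.inl ⟨i, hi⟩))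
      · push Not at hi
        obtain ⟨l, rfl⟩ := hi
        change VanishesToOrder (formOf d w f) (p' (J l)) (m (J l))
        rw [hcoord]
        unfold formOf
        rw [vanishes_coord_iff]
        intro α hα
        have h2 : (⇑α.1 : Fin (r + 1) → ℕ) ∈ Ex.Rg d w := by
          by_contra hc
          exact hα (if_neg hc)
        have h3 := (Ex.mem_Rg.1 h2).1 l
        have h4 := hJ l
        simp only [hw] at h3
        omega
    · exact vanishes_formOf (hf (Sum.inr j))
  have hbot := Submodule.finrank_eq_zero.1 hy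
  rw [hbot, Submodule.mem_bot] at hmem
  unfold formOf at hmem
  have h5 := toPoly_injective _ _ (hmem.trans (map_zero (toPoly (r + 1) d)).symm)
  have had : Finsupp.equivFunOnFinite.symm a ∈ mons (r + 1) d := by
    rw [mem_mons, Finsupp.degree_eq_sum]
    exact (Ex.mem_Rg.1 ha).2
  have h6 := congrFun h5 ⟨Finsupp.equivFunOnFinite.symm a, had⟩
  have h7 : (⇑(Finsupp.equivFunOnFinite.symm a) : Fin (r + 1) → ℕ) = a := rfl
  simp only at h6
  rw [h7, if_pos ha] at h6
  exact h6

/-- From the toric form to a special configuration (see `exists_special` in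
`Pool.Agent.H18.Ex.Final`, second half of the proof). -/
theorem special_of_GI {r k d : ℕ} (m : Fin k → ℕ) (J : Fin (r + 1) ↪ Fin k)
    (hJ : ∀ l, m (J l) ≤ d) (x : ℕ)
    (h : GI (Ex.Rg d fun l : Fin (r + 1) => d - m (J l)) (kkJ m J x)) :
    ∃ p₀ : Fin k → Fin (r + 1) → ℂ, Module.finrank ℂ (fatForms r d p₀ m) ≤ x := by
  classical
  set w : Fin (r + 1) → ℕ := fun l => d - m (J l) with hw
  obtain ⟨pos, hpos⟩ := h
  -- the special configuration
  let p₀ : Fin k → Fin (r + 1) → ℂ := fun i =>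
    if hi : ∀ l, J l ≠ i then pos (Sum.inl ⟨i, hi⟩) else Pi.single (Function.invFun J i) 1
  refine ⟨p₀, ?_⟩
  -- the support
  have hsupp : ∀ F ∈ fatForms r d p₀ m, ∀ α ∈ F.support, (⇑α : Fin (r + 1) → ℕ) ∈ Ex.Rg d w := by
    intro F hF α hα
    rw [MvPolynomial.mem_support_iff] at hα
    have hαd : α ∈ mons (r + 1) d := by
      rw [mem_mons]
      by_contra h
      exact hα (hF.1.coeff_eq_zero h)
    rw [Ex.mem_Rg]
    have hdeg := mem_mons.1 hαd
    rw [Finsupp.degree_eq_sum] at hdeg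
    refine ⟨fun l => ?_, hdeg⟩
    have hi : ¬ ∀ l', J l' ≠ J l := fun h => h l rfl
    have h3 := hF.2 (J l)
    have hp : p₀ (J l) = Pi.single l 1 := by
      simp only [p₀]
      rw [dif_neg hi, Function.leftInverse_invFun J.injective]
    rw [hp, ← exists_toPoly hF.1, vanishes_coord_iff] at h3
    have h4 := h3 ⟨α, hαd⟩ hα
    simp only [hw]
    simp only at h4
    omega
  let Ψ : fatForms r d p₀ m →ₗ[ℂ] (Fin x → ℂ) :=
    { toFun := fun F j => ∑ a ∈ Ex.Rg d w, cf F.1 a * tcr (pos (Sum.inr j)) a 0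
      map_add' := fun F G => by
        funext j
        simp only [Submodule.coe_add, cf, MvPolynomial.coeff_add, Pi.add_apply, add_mul,
          sum_add_distrib]
      map_smul' := fun c F => by
        funext j
        simp only [Submodule.coe_smul, cf, MvPolynomial.coeff_smul, smul_eq_mul, RingHom.id_apply,
          Pi.smul_apply, mul_sum, mul_assoc] }
  have hΨ : Function.Injective Ψ := by
    rw [← LinearMap.ker_eq_bot, LinearMap.ker_eq_bot']
    intro F hF
    have h1 : ∀ i, Sat (Ex.Rg d w) (cf F.1) (kkJ m J x i) (pos i) := by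
      rintro (i | j)
      · have h2 := F.2.2 i.1
        have h3 : p₀ i.1 = pos (Sum.inl i) := by
          simp only [p₀]
          rw [dif_pos i.2]
        rw [h3] at h2
        exact sat_of_vanishes (hsupp F.1 F.2) h2
      · intro b hb
        have hb0 : b = 0 := by
          change ∑ i, b i < 1 at hb
          have h2 : ∑ i, b i = 0 := by omega
          rw [sum_eq_zero_iff] at h2
          funext i
          exact h2 i (mem_univ _)
        subst hb0
        exact congrFun hF j
    have h2 := hpos (cf F.1) h1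
    apply Subtype.ext
    change F.1 = 0
    by_contra hne
    obtain ⟨α, hα⟩ := MvPolynomial.ne_zero_iff.1 hne
    have h3 := hsupp F.1 F.2 α (MvPolynomial.mem_support_iff.2 hα)
    have h4 := h2 _ h3
    unfold cf at h4
    rw [show Finsupp.equivFunOnFinite.symm (⇑α) = α from by ext; rfl] at h4
    exact hα h4
  have := LinearMap.finrank_le_finrank_of_injective hΨ
  rwa [Module.finrank_fintype_fun_eq_card, Fintype.card_fin] at this

end Pool.Agent.H18.Cub

end

section

/-!
# Module CremB: invariance of the general dimension under Cremona transformations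
-/

namespace Pool.Agent.H18.Cub

open Finset Pool.Agent.H18.Ex Pool.Agent.H18.Fat

/-- Reflection for families of free conditions (`GM.reflect`, `GM_iff`). -/
theorem GI.reflect_free {ι : Type} [Fintype ι] [DecidableEq ι] (σ : ℕ) (w : ι → ℕ)
    (hσ : σ ≤ ∑ i, w i) {κ : Type} [Fintype κ] (k : κ → Kind ι)
    (hk : ∀ i, ∃ m, k i = Kind.free m) (h : GI (Rg (∑ i, w i - σ) w) k) : GI (Rg σ w) k := by
  obtain ⟨pos, hpos, -, hne⟩ := GI.exists_common h h
  refine ⟨fun i j => (pos i j)⁻¹, ?_⟩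
  intro f hf a ha
  have h2 : ∀ i, Sat (Rg (∑ i, w i - σ) w) (fun a => f (fun i => w i - a i)) (k i) (pos i) := by
    intro i
    obtain ⟨m, hm⟩ := hk i
    have h3 := hf i
    rw [hm] at h3 ⊢
    have h4 := sat_reflect σ w hσ f m (fun j => (pos i j)⁻¹) (fun j => inv_ne_zero (hne i j)) h3
    simpa only [inv_inv] using h4
  have h5 := hpos _ h2 _ (refl_mem ha)
  simp only [refl_refl ha] at h5
  exact h5

/-- One Cremona transformation, based at the points `J l`: `d' = r d - ∑ m (J l)`,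
`m' (J l) = max {0, d' + m (J l) - d}`.  With `w l = d - m (J l)` we have `∑ w - d = d'`, and
`Rg d' w = Rg d' w'` for `w' l = d' - m' (J l) = min (w l) d'`. -/
theorem cremona_le {r k d d' : ℕ} (m m' : Fin k → ℕ) (J : Fin (r + 1) ↪ Fin k)
    (hJ : ∀ l, m (J l) ≤ d) (hd' : ∑ l, m (J l) + d' = r * d)
    (hm'J : ∀ l, m' (J l) = d' + m (J l) - d) (hm' : ∀ i, (∀ l, J l ≠ i) → m' i = m i) (x : ℕ) :
    (∃ p : Fin k → Fin (r + 1) → ℂ, Module.finrank ℂ (fatForms r d p m) ≤ x) ↔
      ∃ p : Fin k → Fin (r + 1) → ℂ, Module.finrank ℂ (fatForms r d' p m') ≤ x := by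
  have hgen : ∀ (e : ℕ) (n : Fin k → ℕ),
      (∃ p : Fin k → Fin (r + 1) → ℂ, Module.finrank ℂ (fatForms r e p n) ≤ x) →
      ForGeneralPoints r k fun p => Module.finrank ℂ (fatForms r e p n) ≤ x := by
    rintro e n ⟨p₀, hp₀⟩
    obtain ⟨G, hG, H⟩ := general_finrank_le e p₀ n
    exact ⟨G, hG, fun p hp => (H p hp).trans hp₀⟩
  have hsum : ∑ l : Fin (r + 1), (d - m (J l)) = d + d' := by
    have h1 : ∑ l : Fin (r + 1), (d - m (J l)) + ∑ l : Fin (r + 1), m (J l) = (r + 1) * d := by
      rw [← Finset.sum_add_distrib]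
      rw [Finset.sum_congr rfl fun l _ => Nat.sub_add_cancel (hJ l)]
      simp
    have h2 : (r + 1) * d = r * d + d := by ring
    omega
  have hJ' : ∀ l, m' (J l) ≤ d' := by
    intro l
    have := hm'J l
    have := hJ l
    omega
  have hkk : kkJ m' J x = kkJ m J x := by
    funext i
    rcases i with i | i
    · change Kind.free (m' i.1) = Kind.free (m i.1)
      rw [hm' i.1 i.2]
    · rfl
  have hRg : Ex.Rg d' (fun l => d' - m' (J l)) = Ex.Rg d' fun l => d - m (J l) := by
    ext a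
    rw [Ex.mem_Rg, Ex.mem_Rg]
    constructor
    · rintro ⟨h1, h2⟩
      refine ⟨fun l => ?_, h2⟩
      have h3 := h1 l
      have h4 := hm'J l
      have h5 := hJ l
      omega
    · rintro ⟨h1, h2⟩
      refine ⟨fun l => ?_, h2⟩
      have h3 := h1 l
      have h4 := hm'J l
      have h5 := hJ l
      have h6 : a l ≤ d' := by
        rw [← h2]
        exact Finset.single_le_sum (f := a) (fun _ _ => Nat.zero_le _) (Finset.mem_univ l)
      omega
  have hfree : ∀ i, ∃ n, kkJ m J x i = Kind.free n := by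
    rintro (i | i)
    · exact ⟨_, rfl⟩
    · exact ⟨_, rfl⟩
  constructor
  · intro h
    have h1 := GI_of_general m J hJ x (hgen d m h)
    have h2 : GI (Ex.Rg d' fun l => d - m (J l)) (kkJ m J x) := by
      refine GI.reflect_free d' (fun l => d - m (J l)) ?_ _ hfree ?_
      · rw [hsum]
        omega
      · have h3 : ∑ i : Fin (r + 1), (d - m (J i)) - d' = d := by omega
        rw [h3]
        exact h1
    apply special_of_GI m' J hJ' x
    rw [hkk, hRg]
    exact h2
  · intro h
    have h1 := GI_of_general m' J hJ' x (hgen d' m' h)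
    rw [hkk, hRg] at h1
    apply special_of_GI m J hJ x
    refine GI.reflect_free d (fun l => d - m (J l)) ?_ _ hfree ?_
    · rw [hsum]
      omega
    · have h3 : ∑ i : Fin (r + 1), (d - m (J i)) - d = d' := by omega
      rw [h3]
      exact h1

/-- The general dimension is the smallest one. -/
theorem general_iff {r k d : ℕ} (m : Fin k → ℕ) (v : ℕ) :
    (ForGeneralPoints r k fun p => Module.finrank ℂ (fatForms r d p m) = v) ↔
      ∀ x : ℕ, (∃ p : Fin k → Fin (r + 1) → ℂ, Module.finrank ℂ (fatForms r d p m) ≤ x) ↔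
        v ≤ x := by
  constructor
  · intro h x
    constructor
    · rintro ⟨p₀, hp₀⟩
      obtain ⟨p, hp1, hp2⟩ := exists_of_general (h.and (general_finrank_le d p₀ m))
      omega
    · intro hv
      obtain ⟨p, hp⟩ := exists_of_general h
      exact ⟨p, hp.le.trans hv⟩
  · intro h
    obtain ⟨p₀, hp₀⟩ := (h v).2 le_rfl
    obtain ⟨G, hG, H⟩ := general_finrank_le d p₀ m
    refine ⟨G, hG, fun p hp => le_antisymm ((H p hp).trans hp₀) ?_⟩
    exact (h _).1 ⟨p, le_rfl⟩

/-- Invariance of the general dimension under Cremona transformations. -/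
theorem cremona_general {r k d d' : ℕ} (m m' : Fin k → ℕ) (J : Fin (r + 1) ↪ Fin k)
    (hJ : ∀ l, m (J l) ≤ d) (hd' : ∑ l, m (J l) + d' = r * d)
    (hm'J : ∀ l, m' (J l) = d' + m (J l) - d) (hm' : ∀ i, (∀ l, J l ≠ i) → m' i = m i) (v : ℕ) :
    (ForGeneralPoints r k fun p => Module.finrank ℂ (fatForms r d p m) = v) ↔
      ForGeneralPoints r k fun p => Module.finrank ℂ (fatForms r d' p m') = v := by
  rw [general_iff, general_iff]
  refine forall_congr' fun x => ?_
  rw [cremona_le m m' J hJ hd' hm'J hm' x]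

end Pool.Agent.H18.Cub

end
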