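import Pool.Agent.H94.LP4.M07
import Pool.Agent.H94.LP4.M12
import Pool.Agent.H94.LP4.M18

/-! The parts of this file: H74.CT.Gain, H74.CT.Two_2. -/

section

/-!
# Forms of degree `2 q` with multiplicity more than `q` at fewer than `2 ^ r` points
-/

namespace Pool.Agent.H74.CT

open MvPolynomial Pool.Agent.H18.Fat Pool.Agent.H18.Ub Finset

/-- `ν` on `J` and `a` at `P`. -/
def onu {k : ℕ} (J : Finset (Fin k)) (P : Fin k) (ν a : ℕ) : Fin k → ℕ :=
  fun l => if l = P then a else if l ∈ J then ν else 0

/-- A form not vanishing at `P`. -/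
theorem exists_G0 {r q ν : ℕ} {k : ℕ} (J : Finset (Fin k)) (P : Fin k)
    (hpos : 1 ≤ generalDim r (2 * q) (onu J P ν 0)) :
    ForGeneralPoints r k fun p => ∃ G : MvPolynomial (Fin (r + 1)) ℂ, G.IsHomogeneous (2 * q) ∧
      (∀ l ∈ J, l ≠ P → VanishesToOrder G (p l) ν) ∧ ¬ VanishesToOrder G (p P) 1 := by
  classical
  have hlt : generalDim r (2 * q) (onu J P ν 1) < generalDim r (2 * q) (onu J P ν 0) := by
    obtain ⟨p₀, hp₀⟩ := Pool.Agent.H18.Cub.exists_of_general
      (generalDim_spec r (2 * q) (onu J P ν 0))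
    have hne : fatForms r (2 * q) p₀ (onu J P ν 0) ≠ ⊥ := by
      intro h
      rw [h, finrank_bot] at hp₀
      omega
    obtain ⟨F, hF, hF0⟩ := Submodule.exists_mem_ne_zero_of_ne_bot hne
    obtain ⟨x, hx⟩ : ∃ x, eval x F ≠ 0 := by
      by_contra hall
      push Not at hall
      apply hF0
      apply MvPolynomial.funext
      intro x
      rw [hall x, map_zero]
    set p' : Fin k → Fin (r + 1) → ℂ := Function.update p₀ P x with hp'
    have heq : fatForms r (2 * q) p' (onu J P ν 0) = fatForms r (2 * q) p₀ (onu J P ν 0) := by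
      have h1 : ∀ (G : MvPolynomial (Fin (r + 1)) ℂ) (l : Fin k),
          VanishesToOrder G (p' l) (onu J P ν 0 l) ↔ VanishesToOrder G (p₀ l) (onu J P ν 0 l) := by
        intro G l
        by_cases hl : l = P
        · have h2 : onu J P ν 0 l = 0 := by
            unfold onu
            rw [if_pos hl]
          rw [h2]
          exact ⟨fun _ => vanishesToOrder_zero _ _, fun _ => vanishesToOrder_zero _ _⟩
        · rw [hp', Function.update_of_ne hl]
      ext G
      exact ⟨fun h => ⟨h.1, fun l => (h1 G l).1 (h.2 l)⟩, fun h => ⟨h.1, fun l => (h1 G l).2 (h.2 l)⟩⟩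
    have hsub : fatForms r (2 * q) p' (onu J P ν 1) < fatForms r (2 * q) p' (onu J P ν 0) := by
      refine lt_of_le_of_ne (fun G hG => ⟨hG.1, fun l => van_mono (hG.2 l) ?_⟩) fun h => ?_
      · unfold onu
        split_ifs <;> omega
      · have h1 : F ∈ fatForms r (2 * q) p' (onu J P ν 1) := by
          rw [h, heq]
          exact hF
        have h2 := h1.2 P
        have h3 : onu J P ν 1 P = 1 := by
          unfold onu
          rw [if_pos rfl]
        rw [h3, vanishesToOrder_one, hp', Function.update_self] at h2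
        exact hx h2
    have hfin := fin_fatForms r (2 * q) p' (onu J P ν 0)
    have h1 := Submodule.finrank_lt_finrank_of_lt hsub
    rw [heq, hp₀] at h1
    exact lt_of_le_of_lt (Nat.sInf_le ⟨p', rfl⟩) h1
  refine ((generalDim_spec r (2 * q) (onu J P ν 1)).and
    (generalDim_spec r (2 * q) (onu J P ν 0))).mono fun p hp => ?_
  obtain ⟨hp1, hp2⟩ := hp
  by_contra hcon
  push Not at hcon
  have h1 : fatForms r (2 * q) p (onu J P ν 0) ≤ fatForms r (2 * q) p (onu J P ν 1) := by
    intro G hG
    refine ⟨hG.1, fun l => ?_⟩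
    unfold onu
    by_cases hl : l = P
    · rw [if_pos hl, hl]
      refine hcon G hG.1 fun l hl hlP => ?_
      have h2 := hG.2 l
      unfold onu at h2
      rw [if_neg hlP, if_pos hl] at h2
      exact h2
    · have h2 := hG.2 l
      unfold onu at h2
      rw [if_neg hl] at h2 ⊢
      exact h2
  have hfin := fin_fatForms r (2 * q) p (onu J P ν 1)
  have h2 := Submodule.finrank_mono h1
  omega

end Pool.Agent.H74.CT

end

section

/-!
# General points and the second stage lemma
-/

namespace Pool.Agent.H74.CT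

open MvPolynomial Pool.Agent.H18.Fat Pool.Agent.H18.Ub Pool.Agent.H22.LU Finset

/-- Points in general position. -/
structure Gen (s k N q ν : ℕ) (J : Finset (Fin k)) (p : Fin k → Fin (s + 1 + 1) → ℂ) : Prop where
  sim : ∀ t ≤ N, ∀ w : Fin k → ℕ, (∀ l, w l ≤ N + 1) →
    Module.finrank ℂ (fatForms (s + 1) t p w) = generalDim (s + 1) t w
  line : ∀ P l : Fin k, l ≠ P → ∃ L : MvPolynomial (Fin (s + 1 + 1)) ℂ,
      L.IsHomogeneous 1 ∧ VanishesToOrder L (p l) 1 ∧ ¬ VanishesToOrder L (p P) 1
  g0 : ∀ P ∈ J, ∃ G : MvPolynomial (Fin (s + 1 + 1)) ℂ, G.IsHomogeneous (2 * q) ∧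
      (∀ l ∈ J, l ≠ P → VanishesToOrder G (p l) ν) ∧ ¬ VanishesToOrder G (p P) 1

theorem exists_gen (s k N q ν : ℕ) (J : Finset (Fin k))
    (hpos : ∀ P ∈ J, 1 ≤ generalDim (s + 1) (2 * q) (onu J P ν 0)) :
    ∃ p, Gen s k N q ν J p := by
  classical
  have h1 : ForGeneralPoints (s + 1) k fun p => ∀ t ∈ range (N + 1),
      ∀ w ∈ (univ : Finset (Fin k → Fin (N + 2))),
      Module.finrank ℂ (fatForms (s + 1) t p fun l => (w l : ℕ)) =
        generalDim (s + 1) t fun l => (w l : ℕ) :=
    general_all _ fun t _ => general_all _ fun w _ => generalDim_spec (s + 1) t _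
  have h2 : ForGeneralPoints (s + 1) k fun p => ∀ x ∈ (univ : Finset (Fin k × Fin k)).filter
      (fun x => x.1 ≠ x.2), ∃ L : MvPolynomial (Fin (s + 1 + 1)) ℂ,
      L.IsHomogeneous 1 ∧ VanishesToOrder L (p x.1) 1 ∧ ¬ VanishesToOrder L (p x.2) 1 :=
    general_all _ fun x hx => general_line (mem_filter.1 hx).2
  have h3 : ForGeneralPoints (s + 1) k fun p => ∀ P ∈ J,
      ∃ G : MvPolynomial (Fin (s + 1 + 1)) ℂ, G.IsHomogeneous (2 * q) ∧
      (∀ l ∈ J, l ≠ P → VanishesToOrder G (p l) ν) ∧ ¬ VanishesToOrder G (p P) 1 :=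
    general_all _ fun P hP => exists_G0 J P (hpos P hP)
  obtain ⟨p, hp1, hp2, hp3⟩ := Pool.Agent.H18.Cub.exists_of_general (h1.and (h2.and h3))
  refine ⟨p, ⟨fun t ht w hw => ?_, fun P l hl => ?_, hp3⟩⟩
  · exact hp1 t (mem_range.2 (by omega)) (fun l => ⟨w l, by
      have := hw l
      omega⟩) (mem_univ _)
  · exact hp2 (l, P) (mem_filter.2 ⟨mem_univ _, hl⟩)

/-- Multiplicities `m` on `A`, `i` at `P`, zero elsewhere. -/
def mf {k : ℕ} (A : Finset (Fin k)) (m : Fin k → ℕ) (P : Fin k) (i : ℕ) : Fin k → ℕ :=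
  fun l => if l ∈ A then m l else if l = P then i else 0

/-- One point. -/
theorem base {s k N q₀ ν₀ : ℕ} {J : Finset (Fin k)} {p : Fin k → Fin (s + 1 + 1 + 1) → ℂ}
    (hp : Gen (s + 1) k N q₀ ν₀ J p) (P : Fin k) {j n : ℕ} (hn : n ≤ j + 1) (hj : j ≤ N)
    (m : Fin k → ℕ) (hm : m P = n) :
    Module.finrank ℂ (fatForms (s + 2) j p fun l => if l ∈ ({P} : Finset (Fin k)) then m l else 0) +
      ∑ i ∈ range n, (i + (s + 1)).choose (s + 1) ≤ (j + (s + 2)).choose (s + 2) := by
  classical
  have h1 := upper_fin (s + 2) j k (by omega) m (fun _ _ => 0) {P}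
    (fun Q hQ => by
      rw [mem_singleton.1 hQ, hm]
      exact hn) (fun Q hQ i hi => by
      rw [mem_singleton] at hQ
      subst hQ
      refine ⟨?_, Nat.zero_le _, ?_⟩
      · rw [sum_filter, sum_singleton, if_neg fun h => h.1 rfl]
      · rw [sum_singleton, hm, Nat.mul_zero]
        nlinarith)
  rw [sum_singleton, hm] at h1
  have h2 := hp.sim j hj (fun l => if l ∈ ({P} : Finset (Fin k)) then m l else 0) (fun l => by
    by_cases hl : l ∈ ({P} : Finset (Fin k))
    · rw [if_pos hl, mem_singleton.1 hl, hm]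
      omega
    · rw [if_neg hl]
      exact Nat.zero_le _)
  have h3 : ∀ i : ℕ, (i - 0 + (s + 2 - 1)).choose (s + 2 - 1) = (i + (s + 1)).choose (s + 1) :=
    fun i => rfl
  rw [sum_congr rfl fun i _ => h3 i] at h1
  rw [h2]
  exact h1

/-- Upper bound, from the stages. -/
theorem upper2 {s k N q₀ ν₀ : ℕ} {J : Finset (Fin k)} {p : Fin k → Fin (s + 1 + 1 + 1) → ℂ}
    (hp : Gen (s + 1) k N q₀ ν₀ J p) {j : ℕ} (hj : j ≤ N) (m : Fin k → ℕ) (γ : Fin k → ℕ → ℕ)
    (hmj : ∀ P ∈ J, m P ≤ j + 1)
    (hst : ∀ P ∈ J, ∀ A ⊆ J, P ∉ A → A.Nonempty → (∀ l ∈ A, m P ≤ m l) → ∀ i < m P,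
      Module.finrank ℂ (fatForms (s + 2) j p (mf A m P (i + 1))) +
        (i - γ P i + (s + 1)).choose (s + 1) ≤
      Module.finrank ℂ (fatForms (s + 2) j p (mf A m P i))) :
    Module.finrank ℂ (fatForms (s + 2) j p fun l => if l ∈ J then m l else 0) +
      ∑ P ∈ J, ∑ i ∈ range (m P), (i - γ P i + (s + 1)).choose (s + 1) ≤
      (j + (s + 2)).choose (s + 2) := by
  classical
  have key : ∀ A : Finset (Fin k), A ⊆ J →
      Module.finrank ℂ (fatForms (s + 2) j p fun l => if l ∈ A then m l else 0) +
      ∑ P ∈ A, ∑ i ∈ range (m P), (i - γ P i + (s + 1)).choose (s + 1) ≤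
      (j + (s + 2)).choose (s + 2) := by
    intro A
    induction A using Finset.induction_on_min_value m with
    | empty =>
      intro _
      rw [sum_empty, Nat.add_zero]
      exact finrank_le_mons _ _ _ _
    | insert P A hP hmin ih =>
      intro hAJ
      have hPJ : P ∈ J := hAJ (mem_insert_self P A)
      have hAJ' : A ⊆ J := fun l hl => hAJ (mem_insert_of_mem hl)
      rcases A.eq_empty_or_nonempty with hA | hA
      · subst hA
        have h1 := base hp P (hmj P hPJ) hj m rfl
        rw [sum_insert hP, sum_empty]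
        refine le_trans (Nat.add_le_add_left ?_ _) h1
        change ∑ i ∈ range (m P), (i - γ P i + (s + 1)).choose (s + 1) ≤ _
        refine (sum_le_sum fun i _ => Nat.choose_le_choose _ ?_)
        omega
      · have h1 := ih hAJ'
        have h2 : ∀ n ≤ m P, Module.finrank ℂ (fatForms (s + 2) j p (mf A m P n)) +
            ∑ i ∈ range n, (i - γ P i + (s + 1)).choose (s + 1) ≤
            Module.finrank ℂ (fatForms (s + 2) j p fun l => if l ∈ A then m l else 0) := by
          intro n
          induction n with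
          | zero =>
            intro _
            have h3 : mf A m P 0 = fun l => if l ∈ A then m l else 0 := by
              funext l
              unfold mf
              split_ifs <;> rfl
            rw [h3, range_zero, sum_empty, Nat.add_zero]
          | succ n ihn =>
            intro hn
            have h3 := ihn (by omega)
            have h4 := hst P hPJ A hAJ' hP hA hmin n (by omega)
            rw [sum_range_succ]
            omega
        have h3 := h2 (m P) le_rfl
        have h4 : mf A m P (m P) = fun l => if l ∈ insert P A then m l else 0 := by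
          funext l
          unfold mf
          by_cases h5 : l ∈ A
          · rw [if_pos h5, if_pos (mem_insert_of_mem h5)]
          · by_cases h6 : l = P
            · subst h6
              rw [if_neg h5, if_pos rfl, if_pos (mem_insert_self _ _)]
            · rw [if_neg h5, if_neg h6, if_neg]
              rw [mem_insert]
              tauto
        rw [h4] at h3
        rw [sum_insert hP]
        omega
  exact key J (Subset.refl J)

end Pool.Agent.H74.CT

end
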