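import Pool.Agent.H94.LP4.H74.CT.Gain_1
import Pool.Agent.H94.LP4.H74.CT.Grid
import Pool.Agent.H94.LP4.M19
import Pool.Agent.H94.LP4.M22
import Pool.Agent.H94.LP4.M23
import Pool.Agent.H94.LP4.M24

/-! The parts of this file: H74.CT.Two_1, H74.CT.Near2, H74.BP.Elem_1, H74.SC.Desc. -/

section

/-!
# General points and the second stage lemma
-/

namespace Pool.Agent.H74.CT

open MvPolynomial Pool.Agent.H18.Fat Pool.Agent.H18.Ub Pool.Agent.H22.LU Finset

/-- Second stage lemma. -/
theorem stage2 {s k N q₀ ν₀ : ℕ} {J : Finset (Fin k)} {p : Fin k → Fin (s + 1 + 1) → ℂ}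
    (hp : Gen s k N q₀ ν₀ J p) (c : ℕ)
    (hJ : J.card ≤ ∑ u ∈ range (c + 2 + 1), (s + 1).choose u) {A : Finset (Fin k)} (hAJ : A ⊆ J)
    {P : Fin k} (hPJ : P ∈ J) (hPA : P ∉ A) (m : Fin k → ℕ)
    {G : MvPolynomial (Fin (s + 1 + 1)) ℂ} {g ν μ x i j : ℕ} (hG : G.IsHomogeneous g)
    (hGA : ∀ l ∈ A, VanishesToOrder G (p l) ν) (hGP : VanishesToOrder G (p P) μ)
    (hGn : ¬ VanishesToOrder G (p P) (μ + 1)) (hj : g + x + c = j) (hjN : j ≤ N)
    (h1 : ∀ a ∈ A, ∀ b ∈ A, a ≠ b → (m a - ν) + (m b - ν) ≤ x)
    (h2 : ∀ a ∈ A, (m a - ν) + i ≤ x) (h3 : 2 * i ≤ x) :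
    Module.finrank ℂ (fatForms (s + 1) j p (mf A m P (i + μ + 1))) + (i + s).choose s ≤
      Module.finrank ℂ (fatForms (s + 1) j p (mf A m P (i + μ))) := by
  classical
  -- the form, the multiplicity and the degree
  obtain ⟨G', e, q, t, hG', hGP', hGn', het, hqt, hqx, hiq, hGl⟩ :
      ∃ (G' : MvPolynomial (Fin (s + 1 + 1)) ℂ) (e q t : ℕ), G'.IsHomogeneous e ∧
      VanishesToOrder G' (p P) μ ∧ ¬ VanishesToOrder G' (p P) (μ + 1) ∧ e + t = j ∧
      2 * q + c ≤ t ∧ q ≤ x ∧ i ≤ q ∧ ∀ l ∈ A, VanishesToOrder G' (p l) (m l - q) := by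
    by_cases htop : ∀ a ∈ A, 2 * (m a - ν) ≤ x
    · refine ⟨G, g, x / 2, x + c, hG, hGP, hGn, by omega, by omega, by omega, by omega,
        fun l hl => van_mono (hGA l hl) ?_⟩
      have := htop l hl
      omega
    · push Not at htop
      obtain ⟨a, ha, hax⟩ := htop
      have haP : a ≠ P := fun h => hPA (h ▸ ha)
      obtain ⟨L, hL1, hL2, hL3⟩ := hp.line P a haP
      have h4 := h2 a ha
      have hLP : eval (p P) L ≠ 0 := fun h => hL3 (vanishes_one_iff.2 h)
      refine ⟨G * L ^ (2 * (m a - ν) - x), g + (2 * (m a - ν) - x), x - (m a - ν),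
        2 * (x - (m a - ν)) + c, ?_, ?_, ?_, by omega, le_rfl, by omega, by omega, fun l hl => ?_⟩
      · have h5 := hG.mul (hL1.pow (2 * (m a - ν) - x))
        rwa [one_mul] at h5
      · exact van_mono (van_mul hGP (vanishes_zero (p P) (L ^ (2 * (m a - ν) - x))))
          (Nat.le_add_right _ _)
      · intro h5
        have h6 := vanishes_of_mul hGn h5
        have h7 : μ + 1 - μ = 1 := by omega
        rw [h7, vanishes_one_iff, map_pow] at h6
        exact pow_ne_zero _ hLP h6
      · by_cases hla : l = a
        · subst hla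
          have h5 := van_pow hL2 (2 * (m l - ν) - x)
          refine van_mono (van_mul (hGA l hl) h5) ?_
          omega
        · have h5 := h1 l hl a ha hla
          refine van_mono (van_mul (hGA l hl) (vanishes_zero (p l) (L ^ (2 * (m a - ν) - x)))) ?_
          omega
  have hst := mult_stage p P hG' het μ hGP' hGn' (WW J P q i) (WW J P q (i + 1))
    (mf A m P (i + μ)) (mf A m P (i + μ + 1)) (fun l hl => by
      unfold WW
      rw [if_neg hl, if_neg hl]) (by
      unfold WW
      rw [if_pos hPJ, if_pos rfl, if_pos hPJ, if_pos rfl]) (fun l hl => by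
      unfold mf
      rw [if_neg hl, if_neg hl]) (by
      unfold mf
      rw [if_neg hPA, if_pos rfl, if_neg hPA, if_pos rfl]) (by
      unfold mf WW
      rw [if_neg hPA, if_pos rfl, if_pos hPJ, if_pos rfl]) (fun l hl => by
      unfold mf WW
      by_cases hlA : l ∈ A
      · rw [if_pos hlA, if_pos (hAJ hlA), if_neg hl]
        exact hGl l hlA
      · rw [if_neg hlA, if_neg hl, Nat.zero_sub]
        exact vanishes_zero _ _)
  have hw : ∀ i', i' ≤ q + 1 → ∀ l, WW J P q i' l ≤ N + 1 := by
    intro i' hi' l
    unfold WW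
    split_ifs <;> omega
  rw [hp.sim t (by omega) _ (hw i (by omega)), hp.sim t (by omega) _ (hw (i + 1) (by omega)),
    grid_step s t k c J hPJ hJ q i hqt hiq] at hst
  omega

end Pool.Agent.H74.CT

end

section

/-!
# The dimension in the degrees slightly below `d`: fewer than `2 ^ r` points
-/

namespace Pool.Agent.H74.CT

open MvPolynomial Pool.Agent.H18.Fat Pool.Agent.H18.Ub Pool.Agent.H22.LU Finset

/-- The number of the extra multiplicities. -/
def kap (s C : ℕ) : ℕ := C + (s + 2)

/-- Half the degree of the extra form. -/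
def qq (s C : ℕ) : ℕ := (s + 2) * 2 ^ (s + 2) * (kap s C + (s + 2))

/-- The error. -/
def WE (s C : ℕ) : ℕ := 2 ^ (s + 2) * ((qq s C + kap s C) * (2 * qq s C))

theorem near2 (s C k d D δ : ℕ) (m : Fin k → ℕ) (J : Finset (Fin k)) (hδ : δ ≤ C + 1)
    (hD : 4 * (3 * qq s C + kap s C + s + δ + 1) ≤ D) (hDd : D ≤ d)
    (h1 : ∀ i ∈ J, m i + D ≤ d) (h2 : J.card < 2 ^ (s + 2))
    (h3 : ∀ a ∈ J, ∀ b ∈ J, a ≠ b → m a + m b ≤ d + 1) :
    (generalDim (s + 2) (d - δ) fun i => if i ∈ J then m i else 0) +
        ∑ i ∈ J, (m i + (s + 2) - 1).choose (s + 2) ≤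
      (d - δ + (s + 2)).choose (s + 2) + WE s C * (d + s).choose s := by
  classical
  set κ := kap s C with hκ
  set q := qq s C with hq
  set ν := q + κ with hν
  have hκ1 : κ = C + (s + 2) := rfl
  have hpos : ∀ m' : Fin k → ℕ, (∀ l, l ∉ J → m' l = 0) → (∀ l, m' l ≤ ν) →
      1 ≤ generalDim (s + 1 + 1) (2 * q) m' := by
    intro m' h0 hm'
    exact generalDim_pos (r := s + 2) (κ := κ) (by omega) J h2 m' h0 hm'
  obtain ⟨p, hp⟩ := exists_gen (s + 1) k d q ν J fun P hP => hpos _ (fun l hl => by
    unfold onu
    rw [if_neg hl]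
    split_ifs <;> rfl) fun l => by
    unfold onu
    split_ifs <;> omega
  have hpos1 := hpos (fun l => if l ∈ J then ν else 0) (fun l hl => if_neg hl) fun l => by
    split_ifs <;> omega
  have hJc : J.card ≤ ∑ u ∈ range (s + 2 + 1), (s + 1 + 1).choose u := by
    have h4 : ∑ u ∈ range (s + 2 + 1), (s + 1 + 1).choose u = 2 ^ (s + 2) :=
      Nat.sum_range_choose (s + 2)
    rw [h4]
    exact h2.le
  set γ : Fin k → ℕ → ℕ := fun P i => if i + ν ≤ m P ∨ 2 * m P ≤ D then 0 else 2 * q with hγ
  have hγi : ∀ P, ∀ i < m P, γ P i ≤ i := by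
    intro P i hi
    rw [hγ]
    dsimp only
    split_ifs with h
    · exact Nat.zero_le _
    · push Not at h
      omega
  have hup := upper2 hp (j := d - δ) (Nat.sub_le _ _) m γ (fun P hP => by
    have := h1 P hP
    omega) fun P hP A hAJ hPA hA hmin i hi => by
    obtain ⟨a₀, ha₀⟩ := hA
    have ha₀P : a₀ ≠ P := fun h => hPA (h ▸ ha₀)
    have e1 := h1 a₀ (hAJ ha₀)
    have e2 := hmin a₀ ha₀
    have e3 := h3 a₀ (hAJ ha₀) P hP ha₀P
    have e4 := h1 P hP
    have hpair : ∀ a ∈ A, ∀ b ∈ A, a ≠ b → (m a - ν) + (m b - ν) ≤ d - δ - 2 * q - s := by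
      intro a ha b hb hab
      have f1 := h1 a (hAJ ha)
      have f2 := h1 b (hAJ hb)
      have f3 := h3 a (hAJ ha) b (hAJ hb) hab
      omega
    by_cases hc : i + ν ≤ m P ∨ 2 * m P ≤ D
    · -- no loss
      obtain ⟨G, hG1, hG2, hG3⟩ := hp.g0 P hP
      have h5 := stage2 hp s hJc hAJ hP hPA m (G := G) (g := 2 * q) (ν := ν) (μ := 0)
        (x := d - δ - 2 * q - s) (i := i) (j := d - δ) hG1
        (fun l hl => hG2 l (hAJ hl) fun h => hPA (h ▸ hl)) (vanishes_zero _ _) hG3 (by omega)
        (Nat.sub_le _ _) hpair (fun a ha => by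
          have haP : a ≠ P := fun h => hPA (h ▸ ha)
          have f1 := h1 a (hAJ ha)
          have f2 := hmin a ha
          have f3 := h3 a (hAJ ha) P hP haP
          rcases hc with hc | hc <;> omega) (by
          rcases hc with hc | hc <;> omega)
      have h6 : γ P i = 0 := by
        rw [hγ]
        dsimp only
        rw [if_pos hc]
      rw [h6, Nat.sub_zero]
      exact h5
    · -- near the boundary
      have h6 : γ P i = 2 * q := by
        rw [hγ]
        dsimp only
        rw [if_neg hc]
      push Not at hc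
      obtain ⟨G, μ, hG1, hμ1, hμ2, hG2, hG3, hG4⟩ := exists_G1 J hpos1 p hP
      have h5 := stage2 hp s hJc hAJ hP hPA m (G := G) (g := 2 * q) (ν := ν) (μ := μ)
        (x := d - δ - 2 * q - s) (i := i - μ) (j := d - δ) hG1
        (fun l hl => hG2 l (hAJ hl)) hG3 hG4 (by omega)
        (Nat.sub_le _ _) hpair (fun a ha => by
          have haP : a ≠ P := fun h => hPA (h ▸ ha)
          have f1 := h1 a (hAJ ha)
          have f2 := hmin a ha
          have f3 := h3 a (hAJ ha) P hP haP
          omega) (by omega)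
      have h7 : i - μ + μ = i := by omega
      rw [h7] at h5
      rw [h6]
      refine le_trans (Nat.add_le_add_left (Nat.choose_le_choose _ ?_) _) h5
      omega
  have h4 : (generalDim (s + 2) (d - δ) fun i => if i ∈ J then m i else 0) ≤
      Module.finrank ℂ (fatForms (s + 2) (d - δ) p fun l => if l ∈ J then m l else 0) :=
    Nat.sInf_le ⟨p, rfl⟩
  have h5 : ∑ i ∈ J, (m i + (s + 2) - 1).choose (s + 2) ≤
      ∑ P ∈ J, ∑ i ∈ range (m P), (i - γ P i + (s + 1)).choose (s + 1) +
      ∑ P ∈ J, ∑ i ∈ range (m P), γ P i * (i + s).choose s := by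
    rw [← sum_add_distrib]
    refine sum_le_sum fun P hP => ?_
    rw [← hockey, ← sum_add_distrib]
    refine sum_le_sum fun i hi => ?_
    rw [mem_range] at hi
    exact choose_drop s i _ (hγi P i hi)
  have h6 : ∑ P ∈ J, ∑ i ∈ range (m P), γ P i * (i + s).choose s ≤
      WE s C * (d + s).choose s := by
    have hinner : ∀ P ∈ J, ∑ i ∈ range (m P), γ P i * (i + s).choose s ≤
        ν * (2 * q * (d + s).choose s) := by
      intro P hP
      have hterm : ∀ i ∈ range (m P), γ P i * (i + s).choose s ≤
          if m P < i + ν then 2 * q * (d + s).choose s else 0 := by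
        intro i hi
        rw [mem_range] at hi
        have e4 := h1 P hP
        by_cases hc : i + ν ≤ m P ∨ 2 * m P ≤ D
        · have h6 : γ P i = 0 := by
            rw [hγ]
            dsimp only
            rw [if_pos hc]
          rw [h6, Nat.zero_mul]
          exact Nat.zero_le _
        · have h6 : γ P i = 2 * q := by
            rw [hγ]
            dsimp only
            rw [if_neg hc]
          push Not at hc
          rw [h6, if_pos hc.1]
          exact Nat.mul_le_mul_left _ (Nat.choose_le_choose _ (by omega))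
      refine (sum_le_sum hterm).trans ?_
      rw [← sum_filter, sum_const, smul_eq_mul]
      refine Nat.mul_le_mul_right _ ?_
      have h5 : (range (m P)).filter (fun i => m P < i + ν) ⊆ Ico (m P - ν) (m P) := by
        intro i hi
        rw [mem_filter, mem_range] at hi
        rw [mem_Ico]
        omega
      refine (card_le_card h5).trans ?_
      rw [Nat.card_Ico]
      omega
    calc ∑ P ∈ J, ∑ i ∈ range (m P), γ P i * (i + s).choose s ≤
        ∑ _P ∈ J, ν * (2 * q * (d + s).choose s) := sum_le_sum hinner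
      _ = J.card * (ν * (2 * q * (d + s).choose s)) := by rw [sum_const, smul_eq_mul]
      _ ≤ 2 ^ (s + 2) * (ν * (2 * q * (d + s).choose s)) := Nat.mul_le_mul_right _ h2.le
      _ = 2 ^ (s + 2) * (ν * (2 * q)) * (d + s).choose s := by ring
      _ = _ := rfl
  have hup' : Module.finrank ℂ (fatForms (s + 2) (d - δ) p fun l => if l ∈ J then m l else 0) +
      ∑ P ∈ J, ∑ i ∈ range (m P), (i - γ P i + (s + 1)).choose (s + 1) ≤
      (d - δ + (s + 2)).choose (s + 2) := hup
  omega

/-- The exact dimension. -/
theorem exact2 (s c k d : ℕ) (m : Fin k → ℕ) (J : Finset (Fin k)) (hcd : c ≤ d)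
    (h1 : ∀ i ∈ J, m i ≤ d + 1)
    (h2 : J.card ≤ ∑ u ∈ range (c + 2 + 1), (s + 2).choose u)
    (h3 : ∀ a ∈ J, ∀ b ∈ J, a ≠ b → m a + m b + c ≤ d) :
    (generalDim (s + 2) d fun i => if i ∈ J then m i else 0) +
        ∑ i ∈ J, (m i + (s + 2) - 1).choose (s + 2) ≤
      (d + (s + 2)).choose (s + 2) := by
  classical
  obtain ⟨p, hp⟩ := exists_gen (s + 1) k d 0 0 J fun P hP => by
    have h4 := generalDim_ge (r := s + 1 + 1) (by omega) (2 * 0) (onu J P 0 0)
    have h5 : ∀ i, ((onu J P 0 0 i + (s + 1 + 1) - 1).choose (s + 1 + 1) : ℤ) = 0 := by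
      intro i
      have h6 : onu J P 0 0 i = 0 := by
        unfold onu
        split_ifs <;> rfl
      rw [h6, Nat.choose_eq_zero_of_lt (by omega)]
      rfl
    rw [sum_congr rfl fun i _ => h5 i, sum_const_zero, Nat.mul_zero, Nat.zero_add,
      Nat.choose_self] at h4
    rw [Nat.mul_zero]
    omega
  have hup := upper2 hp (j := d) le_rfl m (fun _ _ => 0) (fun P hP => h1 P hP)
    fun P hP A hAJ hPA hA hmin i hi => by
    obtain ⟨a₀, ha₀⟩ := hA
    have ha₀P : a₀ ≠ P := fun h => hPA (h ▸ ha₀)
    have e2 := hmin a₀ ha₀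
    have e3 := h3 a₀ (hAJ ha₀) P hP ha₀P
    have h5 := stage2 hp c h2 hAJ hP hPA m (G := 1) (g := 0) (ν := 0) (μ := 0)
      (x := d - c) (i := i) (j := d) (isHomogeneous_one _ _)
      (fun l hl => vanishes_zero _ _) (vanishes_zero _ _) (by
        rw [vanishes_one_iff, map_one]
        exact one_ne_zero) (by omega)
      le_rfl (fun a ha b hb hab => by
        have f3 := h3 a (hAJ ha) b (hAJ hb) hab
        omega) (fun a ha => by
        have haP : a ≠ P := fun h => hPA (h ▸ ha)
        have f2 := hmin a ha
        have f3 := h3 a (hAJ ha) P hP haP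
        omega) (by omega)
    exact h5
  have h4 : (generalDim (s + 2) d fun i => if i ∈ J then m i else 0) ≤
      Module.finrank ℂ (fatForms (s + 2) d p fun l => if l ∈ J then m l else 0) :=
    Nat.sInf_le ⟨p, rfl⟩
  have h5 : ∑ i ∈ J, (m i + (s + 2) - 1).choose (s + 2) =
      ∑ P ∈ J, ∑ i ∈ range (m P), (i - 0 + (s + 1)).choose (s + 1) := by
    refine sum_congr rfl fun P hP => ?_
    rw [← hockey]
    rfl
  rw [h5]
  exact le_trans (Nat.add_le_add_right h4 _) hup

end Pool.Agent.H74.CT

end

section

/-!
# The elementary two-sided bound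

If some form of degree `e` has the given multiplicities, then a further general point of multiplicity at
most `d - e + 1` imposes independent conditions in degree `d`.  Hence points of multiplicity at most `M`,
of total length `S`, impose independent conditions on the forms of degree `d` with multiplicities `m` on
`J`, if `S ≤ h(d - M + 1)`, and no such form has them, if `S ≥ h(d + M - 1)`.
-/

namespace Pool.Agent.H74.BP

open MvPolynomial Pool.Agent.H18.Fat Pool.Agent.H18.Ub Pool.Agent.H22.LU Pool.Agent.H74.CT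

/-- A further point imposes independent conditions. -/
theorem add_point (s k d e a : ℕ) (w : Fin k → ℕ) (P : Fin k) (hP : w P = 0)
    (he : 1 ≤ generalDim (s + 2) e w) (hd : e + a ≤ d + 1) :
    generalDim (s + 2) d (Function.update w P a) + (a + (s + 2) - 1).choose (s + 2) ≤
      generalDim (s + 2) d w := by
  classical
  rcases Nat.eq_zero_or_pos a with ha | ha
  · subst ha
    rw [Nat.choose_eq_zero_of_lt (by omega), Nat.add_zero]
    refine generalDim_anti fun i => ?_
    by_cases hi : i = P
    · rw [hi, hP]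
      exact Nat.zero_le _
    · rw [Function.update_of_ne hi]
  obtain ⟨t, rfl⟩ : ∃ t, d = e + t := ⟨d - e, by omega⟩
  obtain ⟨p, ⟨G, hG, hGP⟩, hp1, hp2, hp3⟩ := Pool.Agent.H18.Cub.exists_of_general
    ((exists_form w P hP he).and ((generalDim_spec (s + 2) (e + t) (Function.update w P a)).and
      ((generalDim_spec (s + 2) (e + t) w).and
        (generalDim_spec (s + 2) t fun l => if l ∈ ({P} : Finset (Fin k)) then a else 0))))
  have i1 := fin_fatForms (s + 2) t p fun _ => 0
  have i2 := fin_fatForms (s + 2) (e + t) p w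
  have h1 := mulgen G (fatForms (s + 2) t p fun l => if l ∈ ({P} : Finset (Fin k)) then a else 0)
    (fatForms (s + 2) t p fun _ => 0) (fatForms (s + 2) (e + t) p (Function.update w P a))
    (fatForms (s + 2) (e + t) p w) (fun R hR => ⟨hR.1, fun l => vanishes_zero _ _⟩)
    (fun R hR => ⟨hR.1, fun l => van_mono (hR.2 l) (by
      by_cases hl : l = P
      · rw [hl, hP]
        exact Nat.zero_le _
      · rw [Function.update_of_ne hl])⟩)
    (fun R hR => ⟨hG.1.mul hR.1, fun l => van_mul (hG.2 l) (vanishes_zero (p l) R)⟩)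
    fun R hR h => ⟨hR.1, fun l => by
      dsimp only
      by_cases hl : l = P
      · subst hl
        rw [if_pos (Finset.mem_singleton_self l)]
        have h2 := h.2 l
        rw [Function.update_self] at h2
        exact van_div hGP h2
      · rw [if_neg fun h2 => hl (Finset.mem_singleton.1 h2)]
        exact vanishes_zero _ _⟩
  rw [hp1, hp2, hp3] at h1
  have h3 : (t + (s + 2)).choose (s + 2) ≤
      Module.finrank ℂ (fatForms (s + 2) t p fun _ => 0) := by
    have h4 := generalDim_ge (r := s + 2) (by omega) t (fun _ : Fin k => 0)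
    have h5 : ∀ i : Fin k, ((0 + (s + 2) - 1).choose (s + 2) : ℤ) = 0 := by
      intro i
      rw [Nat.choose_eq_zero_of_lt (by omega)]
      rfl
    have h6 : generalDim (s + 2) t (fun _ : Fin k => 0) ≤
        Module.finrank ℂ (fatForms (s + 2) t p fun _ => 0) := Nat.sInf_le ⟨p, rfl⟩
    rw [Finset.sum_congr rfl fun i _ => h5 i, Finset.sum_const_zero] at h4
    omega
  have h4 := exact2 s 0 k t (fun _ => a) {P} (Nat.zero_le _) (fun i _ => by omega) (by
    rw [Finset.card_singleton]
    have := Finset.single_le_sum (f := fun u => (s + 2).choose u) (fun _ _ => Nat.zero_le _)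
      (Finset.mem_range.2 (show 0 < 0 + 2 + 1 by omega))
    rw [Nat.choose_zero_right] at this
    exact this) (fun x hx y hy hxy => by
    rw [Finset.mem_singleton] at hx hy
    exact absurd (hx.trans hy.symm) hxy)
  rw [Finset.sum_singleton] at h4
  omega

section sum

variable {k : ℕ}

/-- Independent conditions. -/
theorem elem_below (s d e M : ℕ) (m : Fin k → ℕ) (J A : Finset (Fin k)) (hA : Disjoint J A)
    (hM : ∀ i ∈ A, m i ≤ M) (hde : e + M ≤ d + 1)
    (hS : ∑ i ∈ A, (m i + (s + 2) - 1).choose (s + 2) ≤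
      generalDim (s + 2) e fun i => if i ∈ J then m i else 0) :
    (generalDim (s + 2) d fun i => if i ∈ J ∪ A then m i else 0) +
        ∑ i ∈ A, (m i + (s + 2) - 1).choose (s + 2) =
      generalDim (s + 2) d fun i => if i ∈ J then m i else 0 := by
  classical
  induction A using Finset.induction_on with
  | empty =>
    rw [Finset.union_empty, Finset.sum_empty, Nat.add_zero]
  | insert P A hP ih =>
    rw [Finset.disjoint_insert_right] at hA
    rw [Finset.sum_insert hP] at hS ⊢
    have ih' := ih hA.2 (fun i hi => hM i (Finset.mem_insert_of_mem hi)) (by omega)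
    have hlow := dim_lower (r := s + 2) (by omega) d m J (insert P A)
      (Finset.disjoint_insert_right.2 hA)
    rw [Finset.sum_insert hP] at hlow
    refine le_antisymm ?_ hlow
    rw [on_union m J A P hA.1 hP]
    rcases Nat.eq_zero_or_pos (m P) with h0 | h0
    · have h1 : (m P + (s + 2) - 1).choose (s + 2) = 0 := Nat.choose_eq_zero_of_lt (by omega)
      have h2 : (generalDim (s + 2) d
          (Function.update (fun i => if i ∈ J ∪ A then m i else 0) P (m P))) ≤
          generalDim (s + 2) d fun i => if i ∈ J ∪ A then m i else 0 := by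
        refine generalDim_anti fun i => ?_
        by_cases hi : i = P
        · rw [hi, Function.update_self]
          split_ifs <;> omega
        · rw [Function.update_of_ne hi]
      omega
    · have h1 : 1 ≤ (m P + (s + 2) - 1).choose (s + 2) := Nat.choose_pos (by omega)
      have h2 := dim_lower (r := s + 2) (by omega) e m J A hA.2
      have h3 := add_point s k d e (m P) (fun i => if i ∈ J ∪ A then m i else 0) P
        (if_neg (by
          rw [Finset.mem_union]
          rintro (h | h)
          · exact hA.1 h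
          · exact hP h)) (by omega) (by
        have := hM P (Finset.mem_insert_self P A)
        omega)
      omega

/-- Independent conditions in the degree `D`, if `V_d` is not zero. -/
theorem elem_above (s d D M : ℕ) (m : Fin k → ℕ) (J A : Finset (Fin k)) (hA : Disjoint J A)
    (hM : ∀ i ∈ A, m i ≤ M) (hdD : d + M ≤ D + 1)
    (hpos : 1 ≤ generalDim (s + 2) d fun i => if i ∈ J ∪ A then m i else 0) :
    (generalDim (s + 2) D fun i => if i ∈ J ∪ A then m i else 0) +
        ∑ i ∈ A, (m i + (s + 2) - 1).choose (s + 2) =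
      generalDim (s + 2) D fun i => if i ∈ J then m i else 0 := by
  classical
  induction A using Finset.induction_on with
  | empty =>
    rw [Finset.union_empty, Finset.sum_empty, Nat.add_zero]
  | insert P A hP ih =>
    rw [Finset.disjoint_insert_right] at hA
    have hpos' : 1 ≤ generalDim (s + 2) d fun i => if i ∈ J ∪ A then m i else 0 := by
      refine hpos.trans (generalDim_anti fun i => ?_)
      by_cases hi : i ∈ J ∪ A
      · have h1 : i ∈ J ∪ insert P A := by
          rw [Finset.mem_union] at hi ⊢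
          rcases hi with hi | hi
          · exact Or.inl hi
          · exact Or.inr (Finset.mem_insert_of_mem hi)
        rw [if_pos hi, if_pos h1]
      · rw [if_neg hi]
        exact Nat.zero_le _
    have ih' := ih hA.2 (fun i hi => hM i (Finset.mem_insert_of_mem hi)) hpos'
    have hlow := dim_lower (r := s + 2) (by omega) D m J (insert P A)
      (Finset.disjoint_insert_right.2 hA)
    rw [Finset.sum_insert hP] at hlow ⊢
    refine le_antisymm ?_ hlow
    rw [on_union m J A P hA.1 hP]
    have h3 := add_point s k D d (m P) (fun i => if i ∈ J ∪ A then m i else 0) P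
      (if_neg (by
        rw [Finset.mem_union]
        rintro (h | h)
        · exact hA.1 h
        · exact hP h)) hpos' (by
      have := hM P (Finset.mem_insert_self P A)
      omega)
    omega

end sum

end Pool.Agent.H74.BP

end

section

/-!
# Points in the order of decreasing multiplicities
-/

namespace Pool.Agent.H74.SC

open Finset Pool.Agent.H18.Cub Pool.Agent.H18.Pr Pool.Agent.H18.Fat Pool.Agent.H18.Ub Pool.Agent.H18.Nef Pool.Agent.H74.BP Pool.Agent.H74.CT

/-- Independent conditions, the points of `A` in the order of decreasing multiplicities. -/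
theorem elem_desc (s j : ℕ) {k : ℕ} (m : Fin k → ℕ) (J : Finset (Fin k)) : ∀ (n : ℕ)
    (A : Finset (Fin k)), A.card = n → Disjoint J A →
    (∀ i ∈ A, ∃ e, e + m i ≤ j + 1 ∧
      ∑ l ∈ A.filter (fun l => m i ≤ m l), (m l + (s + 2) - 1).choose (s + 2) ≤
        generalDim (s + 2) e fun i => if i ∈ J then m i else 0) →
    (generalDim (s + 2) j fun i => if i ∈ J ∪ A then m i else 0) +
        ∑ i ∈ A, (m i + (s + 2) - 1).choose (s + 2) =
      generalDim (s + 2) j fun i => if i ∈ J then m i else 0 := by
  classical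
  intro n
  induction n with
  | zero =>
    intro A hA _ _
    rw [card_eq_zero.1 hA, union_empty, sum_empty, Nat.add_zero]
  | succ n ih =>
    intro A hAc hA h
    obtain ⟨P, hP, hmin⟩ := exists_min_image A m (card_pos.1 (by omega))
    have hdis : Disjoint J (A.erase P) := hA.mono_right (erase_subset P A)
    have hPJ : P ∉ J := fun hJ => disjoint_left.1 hA hJ hP
    have hPe : P ∉ A.erase P := notMem_erase P A
    have hins : insert P (A.erase P) = A := insert_erase hP
    have ih' := ih (A.erase P) (by rw [card_erase_of_mem hP]; omega) hdis fun i hi => by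
      obtain ⟨e, he1, he2⟩ := h i (mem_of_mem_erase hi)
      refine ⟨e, he1, le_trans (sum_le_sum_of_subset fun l hl => ?_) he2⟩
      rw [mem_filter] at hl ⊢
      exact ⟨mem_of_mem_erase hl.1, hl.2⟩
    have hlow := dim_lower (r := s + 2) (by omega) j m J A hA
    refine le_antisymm ?_ hlow
    have hsum : ∑ i ∈ A, (m i + (s + 2) - 1).choose (s + 2) =
        (m P + (s + 2) - 1).choose (s + 2) +
          ∑ i ∈ A.erase P, (m i + (s + 2) - 1).choose (s + 2) := (add_sum_erase A _ hP).symm
    have hfil : A.filter (fun l => m P ≤ m l) = A := filter_true_of_mem hmin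
    obtain ⟨e, he1, he2⟩ := h P hP
    rw [hfil] at he2
    rw [hsum] at he2 ⊢
    have hun := on_union m J (A.erase P) P hPJ hPe
    rw [hins] at hun
    rw [hun]
    rcases Nat.eq_zero_or_pos (m P) with h0 | h0
    · have h1 : (m P + (s + 2) - 1).choose (s + 2) = 0 := Nat.choose_eq_zero_of_lt (by omega)
      have h2 : (generalDim (s + 2) j
          (Function.update (fun i => if i ∈ J ∪ A.erase P then m i else 0) P (m P))) ≤
          generalDim (s + 2) j fun i => if i ∈ J ∪ A.erase P then m i else 0 := by
        refine generalDim_anti fun i => ?_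
        by_cases hi : i = P
        · rw [hi, Function.update_self]
          split_ifs <;> omega
        · rw [Function.update_of_ne hi]
      omega
    · have h1 : 1 ≤ (m P + (s + 2) - 1).choose (s + 2) := Nat.choose_pos (by omega)
      have h2 := dim_lower (r := s + 2) (by omega) e m J (A.erase P) hdis
      have h3 := add_point s k j e (m P) (fun i => if i ∈ J ∪ A.erase P then m i else 0) P
        (if_neg (by
          rw [mem_union]
          rintro (h | h)
          · exact hPJ h
          · exact hPe h)) (by omega) he1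
      omega

/-- The points outside `J` with multiplicity at least `x`. -/
def above {k : ℕ} (m : Fin k → ℕ) (J : Finset (Fin k)) (x : ℕ) : Finset (Fin k) :=
  univ.filter fun l => l ∉ J ∧ x ≤ m l

theorem mem_above {k : ℕ} {m : Fin k → ℕ} {J : Finset (Fin k)} {x : ℕ} {l : Fin k} :
    l ∈ above m J x ↔ l ∉ J ∧ x ≤ m l := by
  unfold above
  rw [mem_filter]
  exact ⟨fun h => h.2, fun h => ⟨mem_univ l, h⟩⟩

theorem disjoint_above {k : ℕ} (m : Fin k → ℕ) (J : Finset (Fin k)) (x : ℕ) :
    Disjoint J (above m J x) := by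
  rw [disjoint_left]
  intro i hi1 hi2
  exact (mem_above.1 hi2).1 hi1

/-- The points above a level, in the order of decreasing multiplicities. -/
theorem elem_level (s j x : ℕ) {k : ℕ} (m : Fin k → ℕ) (J : Finset (Fin k))
    (h : ∀ i, i ∉ J → x ≤ m i → ∃ e, e + m i ≤ j + 1 ∧
      len (s + 2) m (above m J (m i)) ≤ generalDim (s + 2) e fun i => if i ∈ J then m i else 0) :
    (generalDim (s + 2) j fun i => if i ∈ J ∪ above m J x then m i else 0) +
        len (s + 2) m (above m J x) =
      generalDim (s + 2) j fun i => if i ∈ J then m i else 0 := by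
  refine elem_desc s j m J _ _ rfl (disjoint_above m J x) fun i hi => ?_
  rw [mem_above] at hi
  obtain ⟨e, he1, he2⟩ := h i hi.1 hi.2
  refine ⟨e, he1, le_trans (sum_le_sum_of_subset fun l hl => ?_) he2⟩
  rw [mem_filter, mem_above] at hl
  rw [mem_above]
  exact ⟨hl.1.1, hl.2⟩

end Pool.Agent.H74.SC

end
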