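import Pool.Agent.H94.LP4.H18.Ua.USys
import Pool.Agent.H94.LP4.M37
import Pool.Agent.H94.LP4.M40
import Pool.Agent.H94.LP4.M41

/-! The parts of this file: H18.Ua.UMain, H18.Ua.UAll, H18.Ua.UFinal. -/

section

/-!
# Module UMain (UA): exactness
-/

namespace Pool.Agent.H18.Ua

open Finset Pool.Agent.H18.Ex Pool.Agent.H18.Cub Pool.Agent.H18.Pr

variable {Λ : Type} [Fintype Λ] [DecidableEq Λ] {n : ℕ}

/-- Removing the points of multiplicity `0` and separating the simple points. -/
private theorem split_G (G : Multiset ℕ) {M : ℕ} (hG : ∀ m ∈ G, m ≤ M) :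
    ∃ (G₂ : Multiset ℕ) (s : ℕ), (∀ m ∈ G₂, 2 ≤ m ∧ m ≤ M) ∧
      G₂ + Multiset.replicate s 1 ≤ G ∧
      (G.map (ell (n + 1))).sum = (G₂.map (ell (n + 1))).sum + s := by
  induction G using Multiset.induction_on with
  | empty => exact ⟨0, 0, by simp, by simp, by simp⟩
  | cons m G ih =>
    obtain ⟨G₂, s, h1, h2, h3⟩ := ih fun m' hm' => hG m' (Multiset.mem_cons_of_mem hm')
    have hm := hG m (Multiset.mem_cons_self m G)
    rw [Multiset.map_cons, Multiset.sum_cons, h3]
    by_cases h : 2 ≤ m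
    · refine ⟨m ::ₘ G₂, s, ?_, ?_, ?_⟩
      · intro m' hm'
        rcases Multiset.mem_cons.1 hm' with rfl | hm'
        · exact ⟨h, hm⟩
        · exact h1 m' hm'
      · rw [Multiset.cons_add]
        exact Multiset.cons_le_cons m h2
      · rw [Multiset.map_cons, Multiset.sum_cons]
        ring
    · by_cases h' : m = 1
      · subst h'
        refine ⟨G₂, s + 1, h1, ?_, ?_⟩
        · rw [Multiset.replicate_succ, Multiset.add_cons]
          exact Multiset.cons_le_cons 1 h2
        · rw [ell_one]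
          ring
      · have h0 : m = 0 := by omega
        subst h0
        refine ⟨G₂, s, h1, h2.trans (Multiset.le_cons_self _ _), ?_⟩
        rw [ell_zero (by omega)]
        ring

/-- Exactness for a state with the numerical properties.  Remove the points of multiplicity `0`; let
`s` be the number of simple points.  If `M * t ≤ s` use `NumU.kill` with `S = 0` and simple points
(`FullN`).  Otherwise `phase_all`, `bridge_multi` and `branch`. -/
theorem numU_exact (Y : SysN Λ n) {M t : ℕ} {N : Λ → ℕ} (H : NumU Y M t N) (G : Multiset ℕ)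
    (hG : ∀ m ∈ G, m ≤ M) (hsum : Y.R N ≤ ((G.map (ell (n + 1))).sum : ℕ)) :
    Y.K N (G.map Kind.free) := by
  obtain ⟨G₂, s, h1, h2, h3⟩ := split_G (n := n) G hG
  have hreg : RegU M N N := fun i => ⟨le_rfl, by omega⟩
  rw [h3] at hsum
  have hkey : Y.K N (G₂.map Kind.free + Multiset.replicate s (Kind.free 1)) := by
    by_cases hs : M * t ≤ s
    · obtain ⟨hR1, hR2⟩ := H.full N hreg
      have hx : Y.R N ≤ ((Y.R N).toNat : ℕ) := Int.self_le_toNat _
      have h4 := H.kill N hreg 0 (Y.R N).toNat s G₂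
        (fun m hm => ⟨by have := (h1 m hm).1; omega, (h1 m hm).2⟩)
        (by rw [zero_add]; exact hR2 _ hx)
        (by omega) (Or.inl hs)
      rwa [zero_add] at h4
    · push Not at hs
      set c : Cfg Λ := ⟨G₂, s, fun _ => 0⟩ with hc
      have hcOK : c.OK M := ⟨h1, fun l x hx => absurd hx (Multiset.notMem_zero x)⟩
      have hsz0 : c.sz n = (G₂.map (ell (n + 1))).sum + s := by
        unfold Cfg.sz Cfg.nsz Cfg.fl
        simp [hc]
      have hsz : Y.R N ≤ c.sz n := by
        rw [hsz0]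
        exact hsum
      have hkinds : c.kinds = G₂.map Kind.free + Multiset.replicate s (Kind.free 1) := by
        unfold Cfg.kinds
        simp [hc]
      rw [← hkinds]
      obtain ⟨a, c', ha, -, hc', hK, -, htr, hy, -, hsz'⟩ :=
        phase_all Y H c hcOK (fun _ => rfl) hs hsz univ
      apply hK
      have hsa : Y.R a ≤ c'.sz n := by
        have := hsz
        linarith
      refine bridge_multi Y (yU n M t) univ a c' (fun l _ => ?_) (fun l hl => hy l hl)
        (fun T _ => branch Y H a ha c' hc' htr hsa (fun l => hy l (mem_univ l)) T)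
      have h5 := (ha l).2
      have h6 := H.hN l
      omega
  refine Y.mono _ _ _ ?_ hkey
  have h4 : G₂.map (Kind.free : ℕ → Kind Λ) + Multiset.replicate s (Kind.free 1) =
      (G₂ + Multiset.replicate s 1).map Kind.free := by
    rw [Multiset.map_add, Multiset.map_replicate]
  rw [h4]
  exact Multiset.map_le_map h2

private theorem exists_val (s : Finset ℂ) (q : ℕ) :
    ∃ v : Fin q → ℂ, Function.Injective v ∧ ∀ l, v l ∉ s := by
  have hinf : Infinite {z : ℂ // z ∉ s} := by
    have h1 : (((s : Set ℂ)ᶜ) : Set ℂ).Infinite := s.finite_toSet.infinite_compl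
    exact h1.to_subtype
  let f := Infinite.natEmbedding {z : ℂ // z ∉ s}
  exact ⟨fun l => (f l.val).1, fun a b hab => Fin.ext (f.injective (Subtype.ext hab)),
    fun l => (f l.val).2⟩

/-- General points of multiplicities at most `M` kill `W d` as soon as their lengths suffice. -/
theorem Fam.exact (hn : 1 ≤ n) {M : ℕ} (hM : 1 ≤ M) (A : Fam n) (d : ℕ) (hd : CU n M ≤ d)
    (hbig : TU n M ≤ A.h d - A.h (d - 1))
    (hslow : ∀ i < CU n M, (4 * M - 1) * (A.h d - A.h (d - 1)) ≤
      4 * M * (A.h (d - i) - A.h (d - i - 1)))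
    (htr : ∀ i < CU n M, TrEx A M (d - i)) (G : Multiset ℕ) (hG : ∀ m ∈ G, m ≤ M)
    (hsum : A.h d ≤ (G.map (ell (n + 1))).sum) : Fk (A.W d) G := by
  obtain ⟨v, hv, hb⟩ := exists_val A.bad (qU n M)
  have hell : 1 ≤ ell n M := ell_pos n hM
  have hq : 1 ≤ qU n M := by
    unfold qU
    have h1 : 1 ≤ 4 * M * ell n M := Nat.mul_pos (by omega) hell
    omega
  have hC : qU n M * (2 * M + 2) ≤ d := by
    refine le_trans ?_ hd
    unfold CU
    have h1 : 2 * M + 2 ≤ 11 * M := by omega
    calc qU n M * (2 * M + 2) ≤ qU n M * (11 * M) := Nat.mul_le_mul_left _ h1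
      _ = 11 * M * qU n M := by ring
  let i₀ : Fin (qU n M) := ⟨0, hq⟩
  let N : Fin (qU n M) → ℕ := fun l =>
    if l = i₀ then d - (qU n M - 1) * (2 * M + 2) else 2 * M + 2
  have hC' : (qU n M - 1) * (2 * M + 2) + (2 * M + 2) ≤ d := by
    refine le_trans (le_of_eq ?_) hC
    obtain ⟨k, hk⟩ := Nat.exists_eq_add_of_le' hq
    rw [hk, Nat.add_sub_cancel]
    ring
  have hN : ∑ l, N l = d := by
    rw [← Finset.sum_erase_add univ N (mem_univ i₀)]
    have h1 : ∑ l ∈ univ.erase i₀, N l = (qU n M - 1) * (2 * M + 2) := by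
      rw [Finset.sum_congr rfl fun l hl => if_neg (Finset.ne_of_mem_erase hl),
        Finset.sum_const, Finset.card_erase_of_mem (mem_univ _), Finset.card_univ,
        Fintype.card_fin, smul_eq_mul]
    have h2 : N i₀ = d - (qU n M - 1) * (2 * M + 2) := if_pos rfl
    rw [h1, h2]
    omega
  have hN' : ∀ l, 2 * M + 2 ≤ N l := by
    intro l
    by_cases h : l = i₀
    · have h2 : N l = d - (qU n M - 1) * (2 * M + 2) := if_pos h
      rw [h2]
      omega
    · have h2 : N l = 2 * M + 2 := if_neg h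
      rw [h2]
  have H := sysU_num A M v hv hb hn hM d hd hbig hslow htr N hN hN'
  have hT : 1 ≤ TU n M := by
    unfold TU
    exact Nat.mul_pos (Nat.mul_pos (by omega) (by omega)) (pow_pos (by omega) 2)
  have h0 : A.h d ≠ 0 := by omega
  have hR : (sysU A v hv hb).R N = A.h d := by
    show (if A.h (∑ l, N l) = 0 then (1 : ℤ) else (A.h (∑ l, N l) : ℤ)) = A.h d
    rw [hN, if_neg h0]
  have h1 := numU_exact (sysU A v hv hb) H G hG (by rw [hR]; exact_mod_cast hsum)
  have h2 : GMP (gU n v) (A.W (∑ l, N l)) (G.map Kind.free) := h1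
  rw [hN] at h2
  exact (Fk_iff (gU n v) (A.W d) G).2 h2

end Pool.Agent.H18.Ua

end

section

/-!
# Module UAll (UA): all polynomials
-/

namespace Pool.Agent.H18.Ua

open Finset Pool.Agent.H18.Ex Pool.Agent.H18.Cub Pool.Agent.H18.Pr

private theorem ual_one_le (n : ℕ) (v : ℂ) :
    1 ≤ (MvPolynomial.X 0 - MvPolynomial.C v : MvPolynomial (Fin (n + 1)) ℂ).totalDegree := by
  have h1 : MvPolynomial.coeff (Finsupp.single (0 : Fin (n + 1)) 1)
      (MvPolynomial.X 0 - MvPolynomial.C v : MvPolynomial (Fin (n + 1)) ℂ) = 1 := by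
    rw [MvPolynomial.coeff_sub, MvPolynomial.coeff_X, if_pos rfl, MvPolynomial.coeff_C, if_neg,
      sub_zero]
    intro h
    have := DFunLike.congr_fun h (0 : Fin (n + 1))
    simp at this
  have h2 := MvPolynomial.le_totalDegree (p := (MvPolynomial.X 0 - MvPolynomial.C v :
    MvPolynomial (Fin (n + 1)) ℂ)) (s := Finsupp.single (0 : Fin (n + 1)) 1)
    (by
      rw [MvPolynomial.mem_support_iff, h1]
      exact one_ne_zero)
  simpa using h2

private theorem wc_degree_residual_gen {n : ℕ} (L P : MvPolynomial (Fin (n + 1)) ℂ) (k d : ℕ)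
    (hL : L ≠ 0) (hk : k ≤ L.totalDegree) (h : (L * P).totalDegree ≤ d) :
    P.totalDegree ≤ d - k := by
  by_cases hP : P = 0
  · rw [hP, MvPolynomial.totalDegree_zero]
    exact Nat.zero_le _
  · rw [MvPolynomial.totalDegree_mul_of_isDomain hL hP] at h
    omega

/-- The family of all polynomials. -/
noncomputable def Fam.all (n : ℕ) : Fam n where
  W := fun δ => MvPolynomial.restrictTotalDegree (Fin (n + 1)) ℂ δ
  deg := by
    intro δ F hF
    exact (MvPolynomial.mem_restrictTotalDegree _ _ _).1 hF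
  mul := by
    intro δ j F hF Q hQ
    rw [MvPolynomial.mem_restrictTotalDegree] at hF ⊢
    refine (MvPolynomial.totalDegree_mul Q F).trans ?_
    omega
  bad := ∅
  res := by
    intro δ v _ F hF
    rw [MvPolynomial.mem_restrictTotalDegree] at hF ⊢
    have h1 := ual_one_le n v
    have h0 : (MvPolynomial.X 0 - MvPolynomial.C v : MvPolynomial (Fin (n + 1)) ℂ) ≠ 0 := by
      intro h
      rw [h, MvPolynomial.totalDegree_zero] at h1
      omega
    have := wc_degree_residual_gen _ F 1 (δ + 1) h0 h1 hF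
    omega

private theorem ual_set (n δ : ℕ) :
    {s : Fin (n + 1) →₀ ℕ | (s.sum fun _ e => e) ≤ δ} =
      ((Finset.range (δ + 1)).biUnion fun i =>
        Finset.finsuppAntidiag (Finset.univ : Finset (Fin (n + 1))) i : Finset _) := by
  ext s
  simp only [Set.mem_ofPred_eq, Finset.coe_biUnion, Finset.coe_range, Set.mem_iUnion, Set.mem_Iio,
    Finset.mem_coe, Finset.mem_finsuppAntidiag, Finset.subset_univ, and_true, exists_prop]
  have h : (s.sum fun _ e => e) = ∑ i, s i := Finsupp.sum_fintype _ _ (fun _ => rfl)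
  rw [h]
  constructor
  · intro h1
    exact ⟨_, Nat.lt_succ_of_le h1, rfl⟩
  · rintro ⟨i, h1, h2⟩
    have h3 : ∑ i, s i = i := h2
    omega

theorem Fam.all_h (n δ : ℕ) : (Fam.all n).h δ = (δ + n + 1).choose (n + 1) := by
  have h1 : (Fam.all n).h δ = Nat.card {s : Fin (n + 1) →₀ ℕ | (s.sum fun _ e => e) ≤ δ} :=
    Module.finrank_eq_nat_card_basis (MvPolynomial.basisRestrictSupport ℂ _)
  rw [h1, ual_set, Nat.card_coe_set_eq, Set.ncard_coe_finset, Finset.card_biUnion]
  · rw [← Nat.sum_range_add_choose δ n]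
    refine Finset.sum_congr rfl fun i _ => ?_
    rw [Finset.card_finsuppAntidiag_nat_eq_choose, Finset.card_univ, Fintype.card_fin]
    have h2 : n + 1 + i - 1 = i + n := by omega
    rw [h2]
    exact (Nat.choose_symm_add).symm ▸ rfl
  · intro i _ j _ hij
    rw [Function.onFun, Finset.disjoint_left]
    intro s h1 h2
    rw [Finset.mem_finsuppAntidiag] at h1 h2
    exact hij (h1.1.symm.trans h2.1)

/-- A family with complete traces in the degrees from `d - CU n M` to `d`. -/
theorem Fam.exact_full {n : ℕ} (hn : 1 ≤ n) {M : ℕ} (hM : 1 ≤ M) (A : Fam n) (d : ℕ)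
    (hd : DU (n + 1) M ≤ d)
    (hfull : ∀ i < CU n M, A.h (d - i) = A.h (d - i - 1) + (d - i + n).choose n)
    (hA : ∀ δ, DU n M ≤ δ → AHx n M δ) (G : Multiset ℕ) (hG : ∀ m ∈ G, m ≤ M)
    (hsum : A.h d ≤ (G.map (ell (n + 1))).sum) : Fk (A.W d) G := by
  have hCD : CU n M + 1 ≤ DU (n + 1) M := CU_le_DU hM
  have hC0 : 0 < CU n M := by
    have h1 : 1 ≤ ell n M := ell_pos n hM
    have h2 : 1 ≤ M * ell n M := Nat.mul_pos hM h1
    unfold CU qU
    have h3 : 0 < 2 * M ^ 2 * ell (n + 1) M + 4 * M * ell n M := by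
      have : 4 * M * ell n M = 4 * (M * ell n M) := by ring
      omega
    positivity
  have hdiff : ∀ i < CU n M, A.h (d - i) - A.h (d - i - 1) = (d - i + n).choose n := by
    intro i hi
    have := hfull i hi
    omega
  have h0 : A.h d - A.h (d - 1) = (d + n).choose n := by
    have := hdiff 0 hC0
    simpa using this
  refine Fam.exact hn hM A d (by omega) ?_ ?_ ?_ G hG hsum
  · rw [h0]
    exact TU_le_choose hn hM hd
  · intro i hi
    rw [h0, hdiff i hi]
    exact slow_choose hn hM hd hi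
  · intro i hi
    exact trex_full A M (d - i) (hfull i hi).ge (hA _ (DU_sub hM hd hi))

/-- The theorem of Alexander and Hirschowitz for bounded multiplicities (induction on `n`). -/
theorem ahx_all (n : ℕ) (hn : 1 ≤ n) {M : ℕ} (hM : 1 ≤ M) (δ : ℕ) (hδ : DU n M ≤ δ) :
    AHx n M δ := by
  induction n, hn using Nat.le_induction generalizing δ with
  | base => exact ahx_one M δ
  | succ n hn ih =>
    intro S hS hsum
    have hCD : CU n M + 1 ≤ DU (n + 1) M := CU_le_DU hM
    refine Fam.exact_full hn hM (Fam.all n) δ hδ ?_ ih S hS ?_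
    · intro i hi
      rw [Fam.all_h, Fam.all_h]
      have h1 : δ - i - 1 + n + 1 = δ - i + n := by omega
      rw [h1, Nat.choose_succ_succ']
      omega
    · rw [Fam.all_h]
      exact hsum

end Pool.Agent.H18.Ua

end

section

/-!
# Module UFinal (UA): the theorems for general points
-/

namespace Pool.Agent.H18.Ua

open Finset Pool.Agent.H18.Ex Pool.Agent.H18.Cub Pool.Agent.H18.Pr Pool.Agent.H18.Fat

/-- From exactness to general points. -/
theorem general_of_exact {n k : ℕ} (P : Fin k → Fin (n + 1) → ℂ) (m : Fin k → ℕ)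
    (J : Finset (Fin k)) {M : ℕ} (hM : 1 ≤ M) (hJ : ∀ i, i ∉ J → m i ≤ M) (d : ℕ)
    (h : ∀ G : Multiset ℕ, (∀ μ ∈ G, μ ≤ M) →
      (fatFam P fun i => if i ∈ J then m i else 0).h d ≤ (G.map (ell (n + 1))).sum →
      Fk ((fatFam P fun i => if i ∈ J then m i else 0).W d) G) (v : ℕ)
    (hv : ((fatFam P fun i => if i ∈ J then m i else 0).h d : ℤ) ≤
      v + ∑ i ∈ univ.filter (fun i => i ∉ J), ((m i + (n + 1) - 1).choose (n + 1) : ℤ)) :
    ∃ p₀ : Fin k → Fin (n + 1 + 1) → ℂ, (∀ i, p₀ i 0 = 1) ∧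
      Module.finrank ℂ (fatForms (n + 1) d p₀ m) ≤ v := by
  classical
  apply special_of_fatFam P m J d v
  apply h
  · intro μ hμ
    obtain ⟨x, _, rfl⟩ := Multiset.mem_map.1 hμ
    rcases x with i | j
    · exact hJ i.1 i.2
    · exact hM
  · rw [Multiset.map_map]
    change _ ≤ ∑ x : {i : Fin k // i ∉ J} ⊕ Fin v,
      (ell (n + 1) ∘ Sum.elim (fun i : {i : Fin k // i ∉ J} => m i.1) fun _ => 1) x
    rw [Fintype.sum_sum_type]
    have h1 : ∑ j : Fin v, (ell (n + 1) ∘ Sum.elim (fun i : {i : Fin k // i ∉ J} => m i.1)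
        fun _ => 1) (Sum.inr j) = v := by
      simp [ell_one]
    have h2 : ∑ i : {i : Fin k // i ∉ J}, (ell (n + 1) ∘ Sum.elim
        (fun i : {i : Fin k // i ∉ J} => m i.1) fun _ : Fin v => 1) (Sum.inl i) =
        ∑ i ∈ univ.filter (fun i => i ∉ J), ell (n + 1) (m i) := by
      rw [sum_subtype (p := fun i => i ∉ J) (univ.filter fun i => i ∉ J) (by simp)
        (fun i => ell (n + 1) (m i))]
      rfl
    have h9 : ∑ i ∈ univ.filter (fun i => i ∉ J), ((m i + (n + 1) - 1).choose (n + 1) : ℤ) =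
        ((∑ i ∈ univ.filter (fun i => i ∉ J), ell (n + 1) (m i) : ℕ) : ℤ) := by
      push_cast
      rfl
    rw [h1, h2]
    rw [h9] at hv
    omega

/-- The dimensions of a family of fat points from the degree on in which the points impose
independent conditions. -/
private theorem fatFam_h_eq {n k : ℕ} (P : Fin k → Fin (n + 1) → ℂ) (m : Fin k → ℕ) (e L : ℕ)
    (hL : ∑ i, (m i + (n + 1) - 1).choose (n + 1) = L)
    (h : (fatFam P m).h e + L ≤ (e + (n + 1)).choose (n + 1)) (δ : ℕ) :
    (fatFam P m).h (e + δ) + L = (e + δ + (n + 1)).choose (n + 1) := by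
  have hge : ∀ δ, (δ + (n + 1)).choose (n + 1) ≤ (fatFam P m).h δ + L := by
    intro δ
    have h1 := finrank_fatForms_ge (r := n + 1) (d := δ) (by omega)
      (p := affP P) (fun i => by
        change (1 : ℂ) ≠ 0
        exact one_ne_zero) m
    rw [← fatFam_h] at h1
    have h2 : ∑ i, ((m i + (n + 1) - 1).choose (n + 1) : ℤ) = (L : ℤ) := by
      rw [← hL]
      push_cast
      rfl
    rw [h2] at h1
    omega
  have hle : ∀ δ, (fatFam P m).h (e + δ) + L ≤ (e + δ + (n + 1)).choose (n + 1) := by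
    intro δ
    induction δ with
    | zero => exact h
    | succ δ ih =>
      have h1 := (fatFam P m).h_succ_le (e + δ)
      have h2 : (e + (δ + 1) + (n + 1)).choose (n + 1) =
          (e + δ + 1 + n).choose n + (e + δ + (n + 1)).choose (n + 1) := by
        have h3 : e + (δ + 1) + (n + 1) = (e + δ + 1 + n) + 1 := by omega
        rw [h3, Nat.choose_succ_succ]
        congr 2
        omega
      have h4 : e + (δ + 1) = e + δ + 1 := by omega
      rw [h2, h4]
      omega
  exact le_antisymm (hle δ) (hge _)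

/-- Every dimension: if the points of `J` impose independent conditions in degree `d - DU r M` then
all points impose maximal conditions in degree `d`. -/
theorem ua_main (r : ℕ) (hr : 2 ≤ r) (M : ℕ) (hM : 1 ≤ M) (k d : ℕ) (m : Fin k → ℕ)
    (J : Finset (Fin k)) (hJ : ∀ i, i ∉ J → m i ≤ M) (hd : DU r M ≤ d)
    (h : ForGeneralPoints r k fun p =>
      (Module.finrank ℂ (fatForms r (d - DU r M) p fun i => if i ∈ J then m i else 0) : ℤ) =
        ((d - DU r M + r).choose r : ℤ) - ∑ i ∈ J, ((m i + r - 1).choose r : ℤ)) :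
    ForGeneralPoints r k fun p => ImposesMaximalConditions r d p m := by
  classical
  obtain ⟨n, rfl⟩ : ∃ n, r = n + 1 := ⟨r - 1, by omega⟩
  have hn : 1 ≤ n := by omega
  -- a good position of the points
  obtain ⟨g, hg0, hg⟩ := h.and (general_ne_zero (n + 1) k)
  obtain ⟨x, hx⟩ : ∃ x : Fin k × Fin (n + 1 + 1) → ℂ, MvPolynomial.eval x g ≠ 0 := by
    by_contra hcon
    push Not at hcon
    exact hg0 (MvPolynomial.funext fun x => by rw [hcon x, map_zero])
  obtain ⟨hp1, hp0⟩ := hg (fun i j => x (i, j)) hx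
  set p : Fin k → Fin (n + 1 + 1) → ℂ := fun i j => x (i, j) with hp
  set mJ : Fin k → ℕ := fun i => if i ∈ J then m i else 0 with hmJ
  set P : Fin k → Fin (n + 1) → ℂ := fun i j => p i j.succ / p i 0 with hP
  obtain ⟨e, rfl⟩ := Nat.exists_eq_add_of_le hd
  have hee : DU (n + 1) M + e - DU (n + 1) M = e := by omega
  rw [hee] at hp1
  have hnorm := finrank_normalise (δ := e) p hp0 mJ
  change Module.finrank ℂ (fatForms (n + 1) e (affP P) mJ) = _ at hnorm
  rw [← fatFam_h] at hnorm
  -- the length of the given scheme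
  set L : ℕ := ∑ i ∈ J, (m i + (n + 1) - 1).choose (n + 1) with hL
  have hLJ : ∑ i, (mJ i + (n + 1) - 1).choose (n + 1) = L := by
    rw [hL, ← sum_filter_add_sum_filter_not univ (fun i => i ∈ J)
      (fun i => (mJ i + (n + 1) - 1).choose (n + 1))]
    have h1 : ∑ i ∈ univ.filter (fun i => i ∉ J), (mJ i + (n + 1) - 1).choose (n + 1) = 0 := by
      apply sum_eq_zero
      intro i hi
      have h2 : mJ i = 0 := by
        simp only [hmJ]
        rw [if_neg (mem_filter.1 hi).2]
      rw [h2]
      exact Nat.choose_eq_zero_of_lt (by omega)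
    rw [h1, add_zero]
    have h3 : univ.filter (fun i => i ∈ J) = J := by
      ext i
      simp
    rw [h3]
    refine sum_congr rfl fun i hi => ?_
    have h2 : mJ i = m i := by
      simp only [hmJ]
      rw [if_pos hi]
    rw [h2]
  have hcast : ∑ i ∈ J, ((m i + (n + 1) - 1).choose (n + 1) : ℤ) = (L : ℤ) := by
    rw [hL]
    push_cast
    rfl
  have h0 : (fatFam P mJ).h e + L ≤ (e + (n + 1)).choose (n + 1) := by
    rw [← hnorm, hcast] at hp1
    omega
  have hh := fatFam_h_eq P mJ e L hLJ h0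
  -- exactness
  have hex : ∀ G : Multiset ℕ, (∀ μ ∈ G, μ ≤ M) →
      (fatFam P mJ).h (DU (n + 1) M + e) ≤ (G.map (ell (n + 1))).sum →
      Fk ((fatFam P mJ).W (DU (n + 1) M + e)) G := by
    intro G hG hsum
    apply Fam.exact_full hn hM (fatFam P mJ) (DU (n + 1) M + e) (by omega) _
      (fun δ hδ => ahx_all n hn hM δ hδ) G hG hsum
    intro i hi
    have h1 := CU_le_DU (n := n) hM
    obtain ⟨j, hj⟩ := Nat.exists_eq_add_of_le (show i + 1 ≤ DU (n + 1) M by omega)
    have h2 := hh (j + 1)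
    have h3 := hh j
    have h4 : DU (n + 1) M + e - i = e + (j + 1) := by omega
    have h5 : DU (n + 1) M + e - i - 1 = e + j := by omega
    rw [h5, h4]
    have h6 : (e + (j + 1) + (n + 1)).choose (n + 1) =
        (e + (j + 1) + n).choose n + (e + j + (n + 1)).choose (n + 1) := by
      have h7 : e + (j + 1) + (n + 1) = (e + (j + 1) + n) + 1 := by omega
      rw [h7, Nat.choose_succ_succ]
      congr 2
      omega
    omega
  -- the expected dimension
  set d := DU (n + 1) M + e with hdd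
  set R₀ : ℤ := ((d + (n + 1)).choose (n + 1) : ℤ) -
    ∑ i, ((m i + (n + 1) - 1).choose (n + 1) : ℤ) with hR₀
  obtain ⟨v, hv⟩ : ∃ v : ℕ, (v : ℤ) = max 0 R₀ :=
    ⟨(max 0 R₀).toNat, Int.toNat_of_nonneg (le_max_left _ _)⟩
  have hdim : ((fatFam P mJ).h d : ℤ) ≤
      v + ∑ i ∈ univ.filter (fun i => i ∉ J), ((m i + (n + 1) - 1).choose (n + 1) : ℤ) := by
    have h1 := hh (DU (n + 1) M)
    rw [show e + DU (n + 1) M = d by omega] at h1
    have h2 := sum_split J fun i => ((m i + (n + 1) - 1).choose (n + 1) : ℤ)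
    rw [hcast] at h2
    have h3 : R₀ ≤ v := by
      rw [hv]
      exact le_max_right _ _
    rw [hR₀, h2] at h3
    omega
  obtain ⟨p₀, hq1, hq2⟩ := general_of_exact P m J hM hJ d hex v hdim
  refine general_of_special (by omega) m p₀ (fun i => by rw [hq1 i]; exact one_ne_zero) ?_
  have hge := finrank_fatForms_ge (d := d) (by omega : 1 ≤ n + 1)
    (fun i => by rw [hq1 i]; exact one_ne_zero : ∀ i, p₀ i 0 ≠ 0) m
  unfold ImposesMaximalConditions
  have h9 : ((Module.finrank ℂ (fatForms (n + 1) d p₀ m) : ℕ) : ℤ) ≤ v := by exact_mod_cast hq2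
  rw [hv] at h9
  apply le_antisymm h9
  apply max_le
  · positivity
  · exact hge

end Pool.Agent.H18.Ua

end
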