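import Pool.Agent.H94.LP4.M25
import Pool.Agent.H94.LP4.M38
import Pool.Agent.H94.LP4.M42

/-! The parts of this file: H18.Ub.VGen_1, H18.Ub.VDim_1, H74.BP.LP, H74.SC.Desc_1. -/

section

/-!
# Module VGen (UB): general points
-/

namespace Pool.Agent.H18.Ub

open Finset Pool.Agent.H18.Ex Pool.Agent.H18.Cub Pool.Agent.H18.Pr Pool.Agent.H18.Ua Pool.Agent.H18.Fat

/-- The general dimension is determined by the large part if the dimensions of its hyperplane
sections grow slowly. -/
theorem general_dim (r : ℕ) (hr : 2 ≤ r) (M : ℕ) (hM : 1 ≤ M) (k d : ℕ) (m : Fin k → ℕ)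
    (J : Finset (Fin k)) (hJ : ∀ i, i ∉ J → m i ≤ M) (h : ℕ → ℕ)
    (hh : ∀ j ≤ d, ForGeneralPoints r k fun p =>
      Module.finrank ℂ (fatForms r j p fun i => if i ∈ J then m i else 0) = h j)
    (E C : ℕ) (hE : 16 * M ^ 2 * (M + r - 1).choose r ≤ E)
    (hC : 66 * M ^ 3 * (M + r - 1).choose r ≤ C)
    (hslow : E * (h d - h (d - 1)) ≤ E * (h (d - C) - h (d - C - 1)) + (h d - h (d - 1))) :
    ForGeneralPoints r k fun p => (Module.finrank ℂ (fatForms r d p m) : ℤ) =
      max 0 ((h d : ℤ) - ∑ i ∈ univ.filter (fun i => i ∉ J), ((m i + r - 1).choose r : ℤ)) := by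
  classical
  obtain ⟨n, rfl⟩ : ∃ n, r = n + 2 := ⟨r - 2, by omega⟩
  have hgen := (general_all (range (d + 1)) fun j hj => hh j (by
    have := mem_range.1 hj
    omega)).and (general_ne_zero (n + 2) k)
  obtain ⟨p, hp, hp0⟩ := exists_of_general hgen
  set P : Fin k → Fin (n + 1 + 1) → ℂ := fun i j => p i j.succ / p i 0 with hP
  set A := fatFam P fun i => if i ∈ J then m i else 0 with hA
  have hAh : ∀ j ≤ d, A.h j = h j := by
    intro j hj
    rw [hA, fatFam_h, ← hp j (mem_range.2 (by omega))]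
    exact finrank_normalise p hp0 _
  obtain ⟨hc1, hc2⟩ := consts_le n hM
  have hex : ∀ G : Multiset ℕ, (∀ μ ∈ G, μ ≤ M) → A.h d ≤ (G.map (ell (n + 1 + 1))).sum →
      Fk (A.W d) G := by
    intro G hG hsum
    refine exactS hM A d E C (hc1.trans hE) (hc2.trans hC) ?_ G hG hsum
    rw [hAh d le_rfl, hAh _ (by omega), hAh _ (by omega), hAh _ (by omega)]
    exact hslow
  set X : ℤ := (h d : ℤ) -
    ∑ i ∈ univ.filter (fun i => i ∉ J), ((m i + (n + 2) - 1).choose (n + 2) : ℤ) with hX
  obtain ⟨v, hv⟩ : ∃ v : ℕ, (v : ℤ) = max 0 X :=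
    ⟨(max 0 X).toNat, Int.toNat_of_nonneg (le_max_left _ _)⟩
  obtain ⟨p₀, hp₀1, hp₀2⟩ := general_of_exactV P m J hM hJ d hex v (by
    rw [← hA, hAh d le_rfl, hv]
    have h1 := le_max_right 0 X
    rw [hX] at h1
    rw [hX]
    change (h d : ℤ) ≤ max 0 ((h d : ℤ) -
      ∑ i ∈ univ.filter (fun i => i ∉ J), ((m i + (n + 2) - 1).choose (n + 2) : ℤ)) +
      ∑ i ∈ univ.filter (fun i => i ∉ J), ((m i + (n + 2) - 1).choose (n + 2) : ℤ)
    omega)
  refine (((general_finrank_le d p₀ m).and (hh d le_rfl)).and (general_ne_zero (n + 2) k)).mono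
    fun q hq => ?_
  obtain ⟨⟨hq1, hq2⟩, hq3⟩ := hq
  have h6 := finrank_ge_add (d := d) (by omega : 1 ≤ n + 2) hq3 m J
  rw [hq2] at h6
  rw [← hv]
  have h7 : (v : ℤ) ≤ Module.finrank ℂ (fatForms (n + 2) d q m) := by
    rw [hv]
    exact max_le (Int.natCast_nonneg _) h6
  have h8 : Module.finrank ℂ (fatForms (n + 2) d q m) ≤ v := hq1.trans hp₀2
  omega

end Pool.Agent.H18.Ub

end

section

/-!
# Module VDim (UB): the general dimension as a function
-/

namespace Pool.Agent.H18.Fat

end Pool.Agent.H18.Fat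

namespace Pool.Agent.H18.Ub

open Finset Pool.Agent.H18.Ex Pool.Agent.H18.Cub Pool.Agent.H18.Pr Pool.Agent.H18.Ua Pool.Agent.H18.Fat

/-- The case of slow growth. -/
theorem dim_of_slow (r : ℕ) (hr : 2 ≤ r) (M : ℕ) (hM : 1 ≤ M) (k d : ℕ) (m : Fin k → ℕ)
    (J : Finset (Fin k)) (hJ : ∀ i, i ∉ J → m i ≤ M) (h : ℕ → ℕ)
    (hh : ∀ j, h j = generalDim r j fun i => if i ∈ J then m i else 0)
    (hslow : 16 * M ^ 2 * (M + r - 1).choose r * ((h d - h (d - 1)) -
      (h (d - 66 * M ^ 3 * (M + r - 1).choose r) -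
        h (d - 66 * M ^ 3 * (M + r - 1).choose r - 1))) ≤ h d - h (d - 1)) :
    ForGeneralPoints r k fun p => (Module.finrank ℂ (fatForms r d p m) : ℤ) =
      max 0 ((h d : ℤ) - ∑ i ∈ univ.filter (fun i => i ∉ J), ((m i + r - 1).choose r : ℤ)) := by
  refine general_dim r hr M hM k d m J hJ h (fun j _ => ?_) _ _ le_rfl le_rfl ?_
  · rw [hh j]
    exact generalDim_spec r j _
  · rw [Nat.mul_sub, Nat.sub_le_iff_le_add'] at hslow
    exact hslow

end Pool.Agent.H18.Ub

end

section

/-!
# The large part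
-/

namespace Pool.Agent.H74.BP

open Finset Pool.Agent.H18.Fat Pool.Agent.H18.Pr Pool.Agent.H18.Ub Pool.Agent.H18.Ua

/-- The points outside `J` impose maximal conditions, if `J` imposes independent conditions in a
slightly smaller degree. -/
theorem dim_of_indep (r M : ℕ) (hr : 2 ≤ r) (hM : 1 ≤ M) (k d' : ℕ) (m' : Fin k → ℕ)
    (J : Finset (Fin k)) (hJ : ∀ i, i ∉ J → m' i ≤ M) (hD : 300 * r * M ^ (r + 4) ≤ d')
    (hyp : ((generalDim r (d' - 300 * r * M ^ (r + 4)) fun i => if i ∈ J then m' i else 0) : ℤ) =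
      ((d' - 300 * r * M ^ (r + 4) + r).choose r : ℤ) - ∑ i ∈ J, ((m' i + r - 1).choose r : ℤ)) :
    ForGeneralPoints r k fun p => (Module.finrank ℂ (fatForms r d' p m') : ℤ) =
      max 0 (((generalDim r d' fun i => if i ∈ J then m' i else 0) : ℤ) -
        ∑ i ∈ univ.filter (fun i => i ∉ J), ((m' i + r - 1).choose r : ℤ)) := by
  classical
  set D := 300 * r * M ^ (r + 4) with hDdef
  have hDU : DU r M = D := rfl
  have hspec := generalDim_spec r (d' - D) fun i => if i ∈ J then m' i else 0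
  have hind : ForGeneralPoints r k fun p =>
      (Module.finrank ℂ (fatForms r (d' - DU r M) p fun i => if i ∈ J then m' i else 0) : ℤ) =
        ((d' - DU r M + r).choose r : ℤ) - ∑ i ∈ J, ((m' i + r - 1).choose r : ℤ) := by
    refine hspec.mono fun p hp => ?_
    rw [hDU, hp]
    exact hyp
  have h1 := ua_main r hr M hM k d' m' J hJ (by omega) hind
  -- the points of `J` alone
  have h2 := ua_main r hr M hM k d' (fun i => if i ∈ J then m' i else 0) J
    (fun i hi => by
      rw [if_neg hi]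
      exact Nat.zero_le _) (by omega)
    (hind.mono fun p hp => by
      have h3 : (fun i => if i ∈ J then (if i ∈ J then m' i else 0) else 0) =
          fun i => if i ∈ J then m' i else 0 := by
        funext i
        by_cases hi : i ∈ J
        · simp [hi]
        · simp [hi]
      have h4 : ∑ i ∈ J, (((if i ∈ J then m' i else 0) + r - 1).choose r : ℤ) =
          ∑ i ∈ J, ((m' i + r - 1).choose r : ℤ) :=
        sum_congr rfl fun i hi => by rw [if_pos hi]
      rw [h3, hp]
      exact congrArg _ h4.symm)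
  have hsum : ∑ i, (((if i ∈ J then m' i else 0) + r - 1).choose r : ℤ) =
      ∑ i ∈ J, ((m' i + r - 1).choose r : ℤ) := by
    rw [← sum_filter_add_sum_filter_not univ (fun i => i ∈ J)
      (fun i => (((if i ∈ J then m' i else 0) + r - 1).choose r : ℤ))]
    have h3 : ∑ i ∈ univ.filter (fun i => i ∉ J),
        (((if i ∈ J then m' i else 0) + r - 1).choose r : ℤ) = 0 := by
      apply sum_eq_zero
      intro i hi
      rw [if_neg (mem_filter.1 hi).2, Nat.choose_eq_zero_of_lt (by omega)]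
      rfl
    rw [h3, add_zero]
    have h4 : univ.filter (fun i => i ∈ J) = J := by
      ext i
      simp
    rw [h4]
    exact sum_congr rfl fun i hi => by rw [if_pos hi]
  have hall : ∑ i, ((m' i + r - 1).choose r : ℤ) = ∑ i ∈ J, ((m' i + r - 1).choose r : ℤ) +
      ∑ i ∈ univ.filter (fun i => i ∉ J), ((m' i + r - 1).choose r : ℤ) := by
    rw [← sum_filter_add_sum_filter_not univ (fun i => i ∈ J)
      (fun i => ((m' i + r - 1).choose r : ℤ))]
    have h4 : univ.filter (fun i => i ∈ J) = J := by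
      ext i
      simp
    rw [h4]
  have hd' : ((generalDim r d' fun i => if i ∈ J then m' i else 0) : ℤ) =
      ((d' + r).choose r : ℤ) - ∑ i ∈ J, ((m' i + r - 1).choose r : ℤ) := by
    obtain ⟨p, hp1, hp2⟩ := Pool.Agent.H18.Cub.exists_of_general
      (h2.and (generalDim_spec r d' fun i => if i ∈ J then m' i else 0))
    unfold ImposesMaximalConditions at hp1
    rw [hp2, hsum] at hp1
    have h5 : ((d' - D + r).choose r : ℤ) ≤ ((d' + r).choose r : ℤ) := by
      exact_mod_cast Nat.choose_le_choose r (by omega)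
    have h6 : (0 : ℤ) ≤ ((generalDim r (d' - D) fun i => if i ∈ J then m' i else 0) : ℤ) :=
      Int.natCast_nonneg _
    rw [max_eq_right (by omega)] at hp1
    exact hp1
  refine h1.mono fun p hp => ?_
  unfold ImposesMaximalConditions at hp
  rw [hp, hd', hall]
  congr 1
  ring

end Pool.Agent.H74.BP

end

section

/-!
# Points in the order of decreasing multiplicities
-/

namespace Pool.Agent.H74.SC

open Finset Pool.Agent.H18.Cub Pool.Agent.H18.Pr Pool.Agent.H18.Fat Pool.Agent.H18.Ub Pool.Agent.H18.Nef Pool.Agent.H74.BP Pool.Agent.H74.CT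

/-- Slow growth, or independent conditions; points of medium multiplicity by scales. -/
theorem max_scale (r M : ℕ) (hr : 2 ≤ r) (hM : 1 ≤ M) (k d : ℕ) (m : Fin k → ℕ)
    (J : Finset (Fin k)) (h : ℕ → ℕ)
    (hh : ∀ j, h j = generalDim r j fun i => if i ∈ J then m i else 0)
    (hS : ∀ i, i ∉ J → M < m i → ∃ e, e + m i + 300 * r * M ^ (r + 4) ≤ d ∧
      len r m (above m J (m i)) ≤ h e)
    (hyp : 16 * M ^ 2 * (M + r - 1).choose r * ((h d - h (d - 1)) -
        (h (d - 66 * M ^ 3 * (M + r - 1).choose r) -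
          h (d - 66 * M ^ 3 * (M + r - 1).choose r - 1))) ≤ h d - h (d - 1) ∨
      300 * r * M ^ (r + 4) ≤ d ∧ (h (d - 300 * r * M ^ (r + 4)) : ℤ) =
        ((d - 300 * r * M ^ (r + 4) + r).choose r : ℤ) -
          ∑ i ∈ J, ((m i + r - 1).choose r : ℤ)) : Max r d m J := by
  classical
  obtain ⟨s, rfl⟩ : ∃ s, r = s + 2 := ⟨r - 2, by omega⟩
  set A := above m J (M + 1) with hA
  set L := J ∪ A with hL
  have hJL : J ⊆ L := subset_union_left
  have hLM : ∀ i, i ∉ L → m i ≤ M := by
    intro i hi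
    by_contra hcon
    rw [hL, mem_union, hA, mem_above] at hi
    by_cases hiJ : i ∈ J
    · exact hi (Or.inl hiJ)
    · exact hi (Or.inr ⟨hiJ, by omega⟩)
  set F := 300 * (s + 2) * M ^ (s + 2 + 4) with hF
  set C := 66 * M ^ 3 * (M + (s + 2) - 1).choose (s + 2) with hC
  have hCD : C ≤ F := by
    have h1 := Pool.Agent.H74.CT.choose_le_pow M hM (s + 2)
    calc 66 * M ^ 3 * (M + (s + 2) - 1).choose (s + 2) ≤ 66 * M ^ 3 * M ^ (s + 2) :=
          Nat.mul_le_mul_left _ h1
      _ = 66 * M ^ (s + 2 + 3) := by ring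
      _ ≤ 300 * (s + 2) * M ^ (s + 2 + 4) := by
          refine Nat.mul_le_mul (by omega) (Nat.pow_le_pow_right hM (by omega))
  set g : ℕ → ℕ := fun j => generalDim (s + 2) j fun i => if i ∈ L then m i else 0 with hg
  have hval : ∀ j, d ≤ j + F + 1 → g j + len (s + 2) m A = h j := by
    intro j hj
    rw [hh]
    refine elem_level s j (M + 1) m J fun i hi hx => ?_
    obtain ⟨e, he1, he2⟩ := hS i hi (by omega)
    exact ⟨e, by omega, by rw [← hh]; exact he2⟩
  have hlenL := len_split (s + 2) m hJL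
  have hLJ : L \ J = A := by
    rw [hL, union_sdiff_left]
    exact sdiff_eq_self_of_disjoint (disjoint_above m J _).symm
  rw [hLJ] at hlenL
  have hmaxL : Max (s + 2) d m L := by
    unfold BP.Max
    rw [len_cast]
    rcases hyp with hyp | ⟨hD, hyp⟩
    · refine dim_of_slow (s + 2) hr M hM k d m L hLM g (fun _ => rfl) ?_
      have h1 := hval d (by omega)
      have h2 := hval (d - 1) (by omega)
      have h3 := hval (d - C) (by omega)
      have h4 := hval (d - C - 1) (by omega)
      have h5 : g d - g (d - 1) = h d - h (d - 1) := by omega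
      have h6 : g (d - C) - g (d - C - 1) = h (d - C) - h (d - C - 1) := by omega
      rw [h5, h6]
      exact hyp
    · refine dim_of_indep (s + 2) M hr hM k d m L hLM hD ?_
      have h1 := hval (d - F) (by omega)
      have h2 : ∑ i ∈ L, ((m i + (s + 2) - 1).choose (s + 2) : ℤ) =
          ∑ i ∈ J, ((m i + (s + 2) - 1).choose (s + 2) : ℤ) + (len (s + 2) m A : ℤ) := by
        rw [len_cast, hL, sum_union (disjoint_above m J _)]
      rw [h2]
      have h3 : ((g (d - F) : ℕ) : ℤ) + (len (s + 2) m A : ℤ) = (h (d - F) : ℤ) := by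
        exact_mod_cast h1
      have h4 : ((generalDim (s + 2) (d - F) fun i => if i ∈ L then m i else 0 : ℕ) : ℤ) =
          (g (d - F) : ℤ) := rfl
      rw [h4]
      linarith
  have h1 := hval d (by omega)
  refine hmaxL.mono fun p hp => ?_
  have h2 : ((generalDim (s + 2) d fun i => if i ∈ L then m i else 0 : ℕ) : ℤ) = (g d : ℤ) := rfl
  rw [hp, ← hh, hlenL, h2, ← h1]
  congr 1
  push_cast
  ring

end Pool.Agent.H74.SC

end
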