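import Pool.Agent.H94.LP4.H74.BP.Dec_1
import Pool.Agent.H94.LP4.H74.CT.Lp
import Pool.Agent.H94.LP4.M63

/-! The parts of this file: H74.BP.Plane_1, H74.BP.PlaneT_1. -/

section

/-!
# The plane: at most eight arbitrary multiplicities, and points of medium multiplicity
-/

namespace Pool.Agent.H74.BP

open Finset Pool.Agent.H18.Cub Pool.Agent.H18.Pr Pool.Agent.H18.Fat Pool.Agent.H18.Ub Pool.Agent.H18.Nef

/-- Independent conditions from the dimension. -/
theorem imposes_of_exact {r d k : ℕ} (hr : 1 ≤ r) (m : Fin k → ℕ) (J : Finset (Fin k))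
    (h : (generalDim r d fun i => if i ∈ J then m i else 0) +
      ∑ i ∈ J, (m i + r - 1).choose r = (d + r).choose r) :
    ForGeneralPoints r k fun p =>
      ImposesMaximalConditions r d p fun i => if i ∈ J then m i else 0 := by
  classical
  refine (generalDim_spec r d fun i => if i ∈ J then m i else 0).mono fun p hp => ?_
  unfold ImposesMaximalConditions
  have h1 : ∑ i, (((if i ∈ J then m i else 0) + r - 1).choose r : ℤ) =
      ((∑ i ∈ J, (m i + r - 1).choose r : ℕ) : ℤ) := by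
    push_cast
    rw [← sum_subset (subset_univ J)]
    · exact sum_congr rfl fun i hi => by rw [if_pos hi]
    · intro i _ hi
      rw [if_neg hi, Nat.choose_eq_zero_of_lt (by omega)]
      rfl
  rw [hp, h1, ← h, max_eq_right] <;> push_cast <;> omega

/-- The plane: at most eight arbitrary multiplicities and points of medium multiplicity. -/
theorem plane_med : ∃ K E : ℕ, ∀ M : ℕ, 1 ≤ M → ∀ (k d μ : ℕ) (m : Fin k → ℕ)
    (J : Finset (Fin k)), J.card ≤ 8 → (∀ i, i ∉ J → m i ≤ μ) →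
    (∀ S : Finset (Fin k), S.card ≤ 3 → ∑ i ∈ S, m i ≤ d) → K * M ^ E ≤ d →
    (len 2 m (univ.filter fun i => i ∉ J ∧ M < m i) = 0 ∨ ∃ e, e + μ + K * M ^ E ≤ d ∧
      len 2 m (univ.filter fun i => i ∉ J ∧ M < m i) ≤
        generalDim 2 e fun i => if i ∈ J then m i else 0) →
    ForGeneralPoints 2 k fun p => ImposesMaximalConditions 2 d p m := by
  classical
  obtain ⟨K₁, hK₁⟩ := exact_eight
  obtain ⟨K₂, E₂, hplane⟩ := Pool.Agent.H18.Ta.plane
  obtain ⟨A, E₀, hthr⟩ := thresholds K₁ 8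
  refine ⟨(1 + K₂) * (2048000000 * A ^ 14) ^ (E₂ + 1), 14 * E₀ * (E₂ + 1),
    fun M hM k d μ m J hJ8 hμ hstd hd hmed => ?_⟩
  obtain ⟨M', J', hJ'J, hMM', hM'A, hY, hout⟩ := hthr M hM k m J hJ8
  have hM' : 1 ≤ M' := hM.trans hMM'
  set R := (1 + K₂) * (2048000000 * A ^ 14) ^ (E₂ + 1) * M ^ (14 * E₀ * (E₂ + 1)) with hR
  set Q := 2048000000 * M' ^ 14 with hQ
  have hQ1 : 1 ≤ Q := by
    have : 1 ≤ M' ^ 14 := Nat.one_le_pow _ _ hM'
    omega
  have hQ0 : Q ≤ 2048000000 * A ^ 14 * M ^ (14 * E₀) := by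
    have h1 : M' ^ 14 ≤ (A * M ^ E₀) ^ 14 := Nat.pow_le_pow_left hM'A 14
    have h2 : (A * M ^ E₀) ^ 14 = A ^ 14 * M ^ (14 * E₀) := by
      rw [mul_pow, ← pow_mul, Nat.mul_comm E₀ 14]
    rw [h2] at h1
    calc Q ≤ 2048000000 * (A ^ 14 * M ^ (14 * E₀)) := Nat.mul_le_mul_left _ h1
      _ = _ := by ring
  have hbig : (1 + K₂) * Q ^ (E₂ + 1) ≤ R := by
    calc (1 + K₂) * Q ^ (E₂ + 1) ≤
        (1 + K₂) * (2048000000 * A ^ 14 * M ^ (14 * E₀)) ^ (E₂ + 1) :=
          Nat.mul_le_mul_left _ (Nat.pow_le_pow_left hQ0 _)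
      _ = R := by
          rw [hR, mul_pow (2048000000 * A ^ 14), ← pow_mul]
          ring
  have hQR : Q ≤ R := by
    have h1 : Q ^ 1 ≤ Q ^ (E₂ + 1) := Nat.pow_le_pow_right hQ1 (by omega)
    rw [pow_one] at h1
    nlinarith [Nat.zero_le (K₂ * Q ^ (E₂ + 1))]
  have hB := Pool.Agent.H74.CT.choose_le_pow M' hM' 2
  have hDL : Pool.Agent.H74.CT.DL (0 + 2) M' ≤ Q := by
    unfold Pool.Agent.H74.CT.DL
    have h1 : (M' + 2 - 1).choose 2 ^ 3 ≤ (M' ^ 2) ^ 3 := Nat.pow_le_pow_left hB 3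
    calc 10 ^ 6 * (0 + 2) ^ 5 * 8 ^ (0 + 2) * M' ^ 8 * (M' + (0 + 2) - 1).choose (0 + 2) ^ 3 ≤
        10 ^ 6 * (0 + 2) ^ 5 * 8 ^ (0 + 2) * M' ^ 8 * (M' ^ 2) ^ 3 := Nat.mul_le_mul_left _ h1
      _ = Q := by
        rw [hQ]
        ring
  have hM'14 : ∀ a ≤ 14, M' ^ a ≤ M' ^ 14 := fun a ha => Nat.pow_le_pow_right hM' ha
  have hF : M' + 300 * 2 * M' ^ (2 + 4) ≤ Q := by
    have h1 := hM'14 1 (by norm_num)
    have h2 := hM'14 6 (by norm_num)
    rw [pow_one] at h1
    have h3 : M' ^ (2 + 4) = M' ^ 6 := rfl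
    rw [h3, hQ]
    omega
  have hEC : 16 * M' ^ 2 * (M' + 2 - 1).choose 2 * (66 * M' ^ 3 * (M' + 2 - 1).choose 2) ≤ Q := by
    have h1 : (M' + 2 - 1).choose 2 * (M' + 2 - 1).choose 2 ≤ M' ^ 2 * M' ^ 2 :=
      Nat.mul_le_mul hB hB
    have h2 := hM'14 9 (by norm_num)
    calc 16 * M' ^ 2 * (M' + 2 - 1).choose 2 * (66 * M' ^ 3 * (M' + 2 - 1).choose 2) =
        1056 * M' ^ 5 * ((M' + 2 - 1).choose 2 * (M' + 2 - 1).choose 2) := by ring
      _ ≤ 1056 * M' ^ 5 * (M' ^ 2 * M' ^ 2) := Nat.mul_le_mul_left _ h1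
      _ = 1056 * M' ^ 9 := by ring
      _ ≤ Q := by
        rw [hQ]
        omega
  have hpair : ∀ i j, i ≠ j → m i + m j ≤ d := by
    intro i j hij
    have h1 := hstd {i, j} (card_le_two.trans (by norm_num))
    rw [sum_pair hij] at h1
    exact h1
  have hone : ∀ i, m i ≤ d := by
    intro i
    have h1 := hstd {i} (by rw [card_singleton]; norm_num)
    rw [sum_singleton] at h1
    exact h1
  -- the medium points
  set h : ℕ → ℕ := fun j => generalDim 2 j fun i => if i ∈ J' then m i else 0 with hh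
  have hlen : len 2 m (univ.filter fun i => i ∉ J' ∧ M' < m i) ≤
      len 2 m (univ.filter fun i => i ∉ J ∧ M < m i) := by
    unfold len
    refine sum_le_sum_of_subset fun i hi => ?_
    rw [mem_filter] at hi ⊢
    refine ⟨mem_univ i, fun hiJ => ?_, by omega⟩
    have := hout i hiJ hi.2.1
    omega
  have hmax : 16 * M' ^ 2 * (M' + 2 - 1).choose 2 * ((h d - h (d - 1)) -
      (h (d - 66 * M' ^ 3 * (M' + 2 - 1).choose 2) -
        h (d - 66 * M' ^ 3 * (M' + 2 - 1).choose 2 - 1))) ≤ h d - h (d - 1) →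
      Max 2 d m J' := by
    intro hslow
    refine max_slow 2 M' le_rfl hM' k d (max μ M') m J' (fun i hi => ?_) h (fun _ => rfl) ?_
      (Or.inl hslow)
    · by_cases hiJ : i ∈ J
      · exact (hout i hiJ hi).trans (le_max_right _ _)
      · exact (hμ i hiJ).trans (le_max_left _ _)
    · rcases hmed with h0 | ⟨e, he1, he2⟩
      · exact Or.inl (Nat.le_zero.1 (hlen.trans h0.le))
      · refine Or.inr ⟨e, ?_, hlen.trans (he2.trans ?_)⟩
        · have h1 : max μ M' ≤ μ + M' := max_le (Nat.le_add_right _ _) (Nat.le_add_left _ _)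
          omega
        · refine generalDim_anti fun i => ?_
          by_cases hi : i ∈ J'
          · rw [if_pos hi, if_pos (hJ'J hi)]
          · rw [if_neg hi]
            exact Nat.zero_le _
  have hJ'8 : J'.card ≤ 8 := (card_le_card hJ'J).trans hJ8
  by_cases hJ3 : 3 ≤ J'.card
  · -- three to eight points
    have hstd' : ∀ S ⊆ J', S.card = 3 → ∑ i ∈ S, m i ≤ d := fun S _ hS => hstd S hS.le
    have hy : 6 * (66 * M' ^ 3 * (M' + 2 - 1).choose 2 + 1 + K₁) + 8 ≤ YY K₁ M' := le_rfl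
    have hslow := slow_eight hK₁ k d (YY K₁ M') (66 * M' ^ 3 * (M' + 2 - 1).choose 2)
      (16 * M' ^ 2 * (M' + 2 - 1).choose 2) m J' hJ3 hJ'8 hY hstd' hy (by omega) h (fun _ => rfl)
    have hex := hK₁ k d (YY K₁ M') 0 m J' hJ3 hJ'8 hY hstd' (by omega)
    exact imposes_of_max (by norm_num) m J' (hmax hslow) (imposes_of_exact (by norm_num) m J' hex)
  · push Not at hJ3
    by_cases hD : ∀ i ∈ J', m i + Pool.Agent.H74.CT.DL (0 + 2) M' ≤ d
    · have hslow := Pool.Agent.H74.CT.growth_few 0 M' k d hM' m J' (by omega) hD (by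
        norm_num
        omega) (fun a _ b _ hab => (hpair a b hab).trans (Nat.le_succ _)) h (fun _ => rfl)
      have hle := Pool.Agent.H74.CT.exact2 0 0 k d m J' (Nat.zero_le _)
        (fun i _ => (hone i).trans (Nat.le_succ _)) (by
          have h1 : ∑ u ∈ range (0 + 2 + 1), (0 + 2).choose u = 4 := by decide
          rw [h1]
          omega) (fun a _ b _ hab => hpair a b hab)
      have hge := Pool.Agent.H74.CT.dim_ge 0 d k m J'
      exact imposes_of_max (by norm_num) m J' (hmax hslow)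
        (imposes_of_exact (by norm_num) m J' (le_antisymm hle hge))
    · -- one multiplicity close to `d`
      push Not at hD
      obtain ⟨i₀, hi₀, hlt⟩ := hD
      have hDL1 : 1 ≤ Pool.Agent.H74.CT.DL (0 + 2) M' := by
        have := hone i₀
        omega
      refine hplane (Pool.Agent.H74.CT.DL (0 + 2) M') hDL1 k d m {i₀}
        (by rw [card_singleton]; norm_num) (fun i hi => ?_) hstd ?_
        (fun hc => by
          rw [card_singleton] at hc
          omega)
      · have h1 := hpair i i₀ fun h => hi (mem_singleton.2 h)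
        omega
      · have h1 : Pool.Agent.H74.CT.DL (0 + 2) M' ^ E₂ ≤ Q ^ E₂ := Nat.pow_le_pow_left hDL _
        have h2 : Q ^ E₂ ≤ Q ^ (E₂ + 1) := Nat.pow_le_pow_right hQ1 (Nat.le_succ _)
        have h3 : K₂ * Pool.Agent.H74.CT.DL (0 + 2) M' ^ E₂ ≤ K₂ * Q ^ (E₂ + 1) :=
          Nat.mul_le_mul_left _ (h1.trans h2)
        nlinarith [Nat.zero_le (Q ^ (E₂ + 1))]

end Pool.Agent.H74.BP

end

section

/-!
# The plane theorem in terms of the number of the conditions
-/

namespace Pool.Agent.H74.BP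

open Finset Pool.Agent.H18.Cub Pool.Agent.H18.Pr Pool.Agent.H18.Fat Pool.Agent.H18.Ub Pool.Agent.H18.Nef

/-- The plane: at most nine arbitrary multiplicities and points of medium multiplicity. -/
theorem plane_T : ∃ K E : ℕ, ∀ M : ℕ, 1 ≤ M → ∀ (k d μ : ℕ) (m : Fin k → ℕ)
    (J : Finset (Fin k)), (∀ i, i ∉ J → m i ≤ μ) →
    (∀ S : Finset (Fin k), S.card ≤ 3 → ∑ i ∈ S, m i ≤ d) → K * M ^ E ≤ d →
    (J.card ≤ 8 ∧ (μ ≤ M ∨
        (K * M ^ E + μ ≤ d ∧ ∑ i ∈ univ.filter (fun i => i ∈ J ∨ M < m i), (m i + 1).choose 2 ≤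
          (d - K * M ^ E - μ + 2).choose 2) ∨
        (d + μ + 1).choose 2 ≤
          ∑ i ∈ univ.filter (fun i => i ∈ J ∨ M < m i), (m i + 1).choose 2) ∨
      J.card = 9 ∧ μ ≤ M ∧ ∑ i ∈ J, m i + K * M ^ E ≤ 3 * d) →
    ForGeneralPoints 2 k fun p => ImposesMaximalConditions 2 d p m := by
  classical
  obtain ⟨K₁, E₁, h₁⟩ := plane_med
  obtain ⟨K₂, E₂, h₂⟩ := Pool.Agent.H18.Ta.plane
  refine ⟨K₁ + K₂, E₁ + E₂, fun M hM k d μ m J hμ hstd hd hor => ?_⟩
  have hK1 : K₁ * M ^ E₁ ≤ (K₁ + K₂) * M ^ (E₁ + E₂) :=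
    Nat.mul_le_mul (Nat.le_add_right _ _) (Nat.pow_le_pow_right hM (Nat.le_add_right _ _))
  have hK2 : K₂ * M ^ E₂ ≤ (K₁ + K₂) * M ^ (E₁ + E₂) :=
    Nat.mul_le_mul (Nat.le_add_left _ _) (Nat.pow_le_pow_right hM (Nat.le_add_left _ _))
  set R := (K₁ + K₂) * M ^ (E₁ + E₂) with hR
  -- the number of the conditions
  have hT : ∑ i ∈ univ.filter (fun i => i ∈ J ∨ M < m i), (m i + 1).choose 2 =
      ∑ i ∈ J, (m i + 2 - 1).choose 2 + len 2 m (univ.filter fun i => i ∉ J ∧ M < m i) := by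
    unfold len
    rw [← sum_union]
    · refine sum_congr ?_ fun i _ => rfl
      ext i
      rw [mem_filter, mem_union, mem_filter]
      have := mem_univ i
      tauto
    · rw [disjoint_left]
      intro i hi1 hi2
      exact (mem_filter.1 hi2).2.1 hi1
  rcases hor with ⟨hJ8, hor⟩ | ⟨hJ9, hμM, hsum⟩
  · rcases hor with hμM | ⟨hRμ, hor⟩ | hor
    · refine h₁ M hM k d μ m J hJ8 hμ hstd (hK1.trans hd) (Or.inl ?_)
      unfold len
      rw [filter_eq_empty_iff.2, sum_empty]
      intro i _ hi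
      have := hμ i hi.1
      omega
    · refine h₁ M hM k d μ m J hJ8 hμ hstd (hK1.trans hd) (Or.inr ⟨d - R - μ, by omega, ?_⟩)
      have hge := Pool.Agent.H74.CT.dim_ge 0 (d - R - μ) k m J
      rw [hT] at hor
      have e1 : (generalDim 2 (d - R - μ) fun i => if i ∈ J then m i else 0) +
          ∑ i ∈ J, (m i + 2 - 1).choose 2 ≥ (d - R - μ + 2).choose 2 := hge
      omega
    · -- too many conditions
      rcases Nat.eq_zero_or_pos μ with h0 | h0
      · refine h₁ M hM k d μ m J hJ8 hμ hstd (hK1.trans hd) (Or.inl ?_)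
        unfold len
        rw [filter_eq_empty_iff.2, sum_empty]
        intro i _ hi
        have := hμ i hi.1
        omega
      · refine imposes_of_zero (by norm_num) m ?_
        have hJdim : (generalDim 2 (d + μ - 1) fun i => if i ∈ J then m i else 0) ≤
            (d + μ + 1).choose 2 - ∑ i ∈ J, (m i + 2 - 1).choose 2 := by
          have h3 := h₂ 1 le_rfl k (d + μ - 1) (fun i => if i ∈ J then m i else 0) J
            (hJ8.trans (by norm_num)) (fun i hi => by rw [if_neg hi]; exact Nat.zero_le _)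
            (fun S hS => by
              refine le_trans (sum_le_sum fun i _ => ?_) ((hstd S hS).trans (by omega))
              split_ifs
              · exact le_rfl
              · exact Nat.zero_le _) (by
              have h4 : 1 ≤ M ^ E₂ := Nat.one_le_pow _ _ hM
              have h5 : K₂ * 1 ≤ K₂ * M ^ E₂ := Nat.mul_le_mul_left _ h4
              rw [one_pow]
              omega) (fun h => by omega)
          obtain ⟨p, hp1, hp2⟩ := Pool.Agent.H18.Cub.exists_of_general
            (h3.and (generalDim_spec 2 (d + μ - 1) fun i => if i ∈ J then m i else 0))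
          unfold ImposesMaximalConditions at hp1
          have h2 : ∑ i, (((if i ∈ J then m i else 0) + 2 - 1).choose 2 : ℤ) =
              ((∑ i ∈ J, (m i + 2 - 1).choose 2 : ℕ) : ℤ) := by
            push_cast
            rw [← sum_subset (subset_univ J)]
            · exact sum_congr rfl fun i hi => by rw [if_pos hi]
            · intro i _ hi
              rw [if_neg hi]
              rfl
          have h6 : d + μ - 1 + 2 = d + μ + 1 := by omega
          rw [hp2, h2, h6] at hp1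
          omega
        have hlenS : len 2 m (univ.filter fun i => i ∉ J ∧ M < m i) ≤
            len 2 m (univ.filter fun i => i ∉ J) := by
          unfold len
          refine sum_le_sum_of_subset fun i hi => ?_
          rw [mem_filter] at hi ⊢
          exact ⟨hi.1, hi.2.1⟩
        rw [hT] at hor
        have hS : (generalDim 2 (d + μ - 1) fun i => if i ∈ J then m i else 0) ≤
            len 2 m (univ.filter fun i => i ∉ J) := by omega
        have hmax := max_elem 2 μ le_rfl k d m J hμ (Or.inr ⟨⟨d + μ - 1, by omega, hS⟩, h0⟩)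
        have hle : (generalDim 2 d fun i => if i ∈ J then m i else 0) ≤
            generalDim 2 (d + μ - 1) fun i => if i ∈ J then m i else 0 :=
          generalDim_deg (fun i => if i ∈ J then m i else 0) (by omega)
        obtain ⟨p, hp1, hp2⟩ := Pool.Agent.H18.Cub.exists_of_general
          (hmax.and (generalDim_spec 2 d m))
        rw [hp2, max_eq_left (by omega)] at hp1
        exact_mod_cast hp1
  · exact h₂ M hM k d m J hJ9.le (fun i hi => (hμ i hi).trans hμM) hstd (hK2.trans hd)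
      fun _ => by omega

end Pool.Agent.H74.BP

end
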