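import Pool.Agent.H94.LP4.H18.Tj.FinalT
import Pool.Agent.H94.LP4.M54
import Pool.Agent.H94.LP4.M77

/-! The parts of this file: H18.Tl.CntP, H18.Tl.CntJ, H18.Tl.FinalD, H18.Tl.Greedy, H18.Tl.LxL, H18.Tl.GeoL, H74.KV.Dya2. -/

section

/-!
# Module CntP (TL): a part of the coordinates

`bwe`: the width `c l` at the coordinates `l < s` of the form `l = e l'`, the width `d` at the others.

`cnt_bwe`: let `σ` be a permutation of `Fin (r + 1)` with `σ l = e l` (as numbers) for `l < q` (extend the injection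
`Fin q → Fin (r + 1)`; e.g. `Function.Embedding` / `Equiv.Perm` extension such as `Equiv.extendSubtype`, or
`Finset.exists_equiv_extend_of_card_eq`); then `α ↦ α ∘ σ` is a bijection from `Rg n (bwe …)` onto the set counted by `cnt r q (c ∘ e) n`.
-/

namespace Pool.Agent.H18.Tl

open Finset Function Pool.Agent.H18.Tj

open Classical in
/-- The widths for a part of the coordinates. -/
noncomputable def bwe (r d s q : ℕ) (c : Fin s → ℕ) (e : Fin q ↪ Fin s) : Fin (r + 1) → ℕ :=
  fun i => if h : ∃ l, (e l).val = i.val then c (e h.choose) else d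

theorem bwe_val {r d s q : ℕ} (c : Fin s → ℕ) (e : Fin q ↪ Fin s) (l : Fin q) (i : Fin (r + 1))
    (hi : (e l).val = i.val) : bwe r d s q c e i = c (e l) := by
  have h : ∃ l, (e l).val = i.val := ⟨l, hi⟩
  unfold bwe
  rw [dif_pos h]
  have h1 := h.choose_spec
  have h2 : e h.choose = e l := Fin.ext (h1.trans hi.symm)
  rw [h2]

theorem bwe_of_ne {r d s q : ℕ} (c : Fin s → ℕ) (e : Fin q ↪ Fin s) (i : Fin (r + 1))
    (hi : ∀ l, (e l).val ≠ i.val) : bwe r d s q c e i = d := by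
  unfold bwe
  rw [dif_neg]
  rintro ⟨l, hl⟩
  exact hi l hl

private theorem CntP_perm {r s q : ℕ} (hs : s ≤ r + 1) (e : Fin q ↪ Fin s) :
    ∃ σ : Equiv.Perm (Fin (r + 1)), ∀ (i : Fin (r + 1)) (h : i.val < q),
      (σ i).val = (e ⟨i.val, h⟩).val := by
  classical
  let f : Fin (r + 1) → Fin (r + 1) := fun i =>
    if h : i.val < q then ⟨(e ⟨i.val, h⟩).val, lt_of_lt_of_le (e ⟨i.val, h⟩).2 hs⟩ else i
  have hf : ∀ (i : Fin (r + 1)) (h : i.val < q), (f i).val = (e ⟨i.val, h⟩).val := by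
    intro i h
    show (if h : i.val < q then (⟨(e ⟨i.val, h⟩).val, lt_of_lt_of_le (e ⟨i.val, h⟩).2 hs⟩ :
      Fin (r + 1)) else i).val = _
    rw [dif_pos h]
  obtain ⟨g, hg⟩ := Finset.exists_equiv_extend_of_card_eq (α := Fin (r + 1)) (β := Fin (r + 1))
    (t := univ) (by rw [card_univ]) (s := univ.filter fun i : Fin (r + 1) => i.val < q) (f := f)
    (subset_univ _) (by
      intro i hi j hj hij
      rw [mem_coe, mem_filter] at hi hj
      have h1 := hf i hi.2
      have h2 := hf j hj.2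
      rw [hij, h2] at h1
      have h3 := e.injective (Fin.ext h1)
      rw [Fin.mk.injEq] at h3
      exact Fin.ext h3.symm)
  refine ⟨g.trans (Equiv.subtypeUnivEquiv fun x => mem_univ x), fun i h => ?_⟩
  have h1 := hg i (mem_filter.2 ⟨mem_univ _, h⟩)
  rw [Equiv.trans_apply, Equiv.subtypeUnivEquiv_apply, h1]
  exact hf i h

theorem cnt_bwe {r d s q n : ℕ} (hs : s ≤ r + 1) (hn : n ≤ d) (c : Fin s → ℕ)
    (e : Fin q ↪ Fin s) : cnt r q (fun l => c (e l)) n = (Ex.Rg n (bwe r d s q c e)).card := by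
  have hq : q ≤ s := by
    have := Fintype.card_le_of_embedding e
    rwa [Fintype.card_fin, Fintype.card_fin] at this
  rw [count_eq r q d n (hq.trans hs) hn]
  obtain ⟨σ, hσ⟩ := CntP_perm hs e
  have hw : ∀ i, bwe r d s q c e (σ i) = bw r d q (fun l => c (e l)) i := by
    intro i
    unfold bw
    split_ifs with h
    · exact bwe_val c e ⟨i.val, h⟩ (σ i) (hσ i h).symm
    · apply bwe_of_ne
      intro l hl
      have h1 : l.val < r + 1 := lt_of_lt_of_le l.2 (hq.trans hs)
      have h2 := hσ ⟨l.val, h1⟩ l.2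
      have h3 : σ ⟨l.val, h1⟩ = σ i := by
        apply Fin.ext
        rw [h2]
        exact hl
      have h4 := σ.injective h3
      rw [← h4] at h
      exact h l.2
  symm
  apply Finset.card_bij' (fun α _ => α ∘ σ) (fun α _ => α ∘ σ.symm)
  · intro α hα
    rw [Ex.mem_Rg] at hα ⊢
    refine ⟨fun i => ?_, ?_⟩
    · rw [← hw i]
      exact hα.1 (σ i)
    · rw [← hα.2]
      exact Equiv.sum_comp σ α
  · intro α hα
    rw [Ex.mem_Rg] at hα ⊢
    refine ⟨fun i => ?_, ?_⟩
    · have h1 := hw (σ.symm i)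
      rw [Equiv.apply_symm_apply] at h1
      rw [h1]
      exact hα.1 (σ.symm i)
    · rw [← hα.2]
      exact Equiv.sum_comp σ.symm α
  · intro α _
    funext i
    simp
  · intro α _
    funext i
    simp

end Pool.Agent.H18.Tl

end

section

/-!
# Module CntJ (TL): the virtual dimension does not depend on the choice of `J`

`J : Fin s ↪ Fin k`, `J' = J ∘ e` a part of it; `m' i + m' j ≤ d'` for any two different points outside `J'`.
Let `c l = d' - m' (J l)`, `w = bw r d' s c`, `w' = bwe r d' s q c e` (`cnt_bwe`, `count_eq`).  `O` = the coordinates `i < s` not of the form `e l`;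
`w ≤ w'`, and `w = w'` outside `O`.
For `n ≤ d'`, `(Rg n w').card = (Rg n w).card + #{α ∈ Rg n w' : ∃ i ∈ O, w i < α i}`.  If `n = m' i - 1`, `i ∉ J`, the last set is empty:
`w j = d' - m' (J j) ≥ m' i > n ≥ α j`.  If `n = d'`, the sets `{α ∈ Rg d' w' : w i < α i}`, `i ∈ O`, are disjoint
(`α i + α j ≥ 2 d' - m' (J i) - m' (J j) + 2 > d'`), and the `i`-th one is in bijection with `Rg (m' (J i) - 1) w'` (subtract
`w i + 1 = d' - m' (J i) + 1` at the coordinate `i`) if `m' (J i) ≥ 1`, and empty if `m' (J i) = 0`.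
-/

namespace Pool.Agent.H18.Tl

open Finset Function Pool.Agent.H18.Tj

/-- the position of a coordinate -/
private def CntJ_pos {r s : ℕ} (hs : s ≤ r + 1) (l : Fin s) : Fin (r + 1) :=
  ⟨l.val, lt_of_lt_of_le l.2 hs⟩

private theorem CntJ_pos_inj {r s : ℕ} (hs : s ≤ r + 1) {l l' : Fin s}
    (h : CntJ_pos hs l = CntJ_pos hs l') : l = l' := by
  have h1 := congrArg Fin.val h
  exact Fin.ext h1

private theorem CntJ_w {r s d : ℕ} (hs : s ≤ r + 1) (c : Fin s → ℕ) (l : Fin s) :
    bw r d s c (CntJ_pos hs l) = c l := by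
  unfold bw CntJ_pos
  rw [dif_pos l.2]

private theorem CntJ_wO {r s d q : ℕ} (hs : s ≤ r + 1) (c : Fin s → ℕ) (e : Fin q ↪ Fin s)
    (l : Fin s) (hl : ∀ l', e l' ≠ l) : bwe r d s q c e (CntJ_pos hs l) = d :=
  bwe_of_ne c e _ fun l' h => hl l' (Fin.ext h)

private theorem CntJ_w_eq {r s d q : ℕ} (hs : s ≤ r + 1) (c : Fin s → ℕ) (e : Fin q ↪ Fin s)
    (i : Fin (r + 1)) (hi : ∀ l, (∀ l', e l' ≠ l) → CntJ_pos hs l ≠ i) :
    bw r d s c i = bwe r d s q c e i := by
  by_cases h : i.val < s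
  · have h1 : CntJ_pos hs ⟨i.val, h⟩ = i := Fin.ext rfl
    have h2 : ∃ l', e l' = ⟨i.val, h⟩ := by
      by_contra hcon
      push Not at hcon
      exact hi _ hcon h1
    obtain ⟨l', hl'⟩ := h2
    rw [bwe_val c e l' i (by rw [hl']), hl']
    unfold bw
    rw [dif_pos h]
  · rw [bwe_of_ne c e i fun l hl => h (hl ▸ (e l).2)]
    unfold bw
    rw [dif_neg h]

private theorem CntJ_le {r s d q : ℕ} (hs : s ≤ r + 1) (c : Fin s → ℕ) (hc : ∀ l, c l ≤ d)
    (e : Fin q ↪ Fin s) (i : Fin (r + 1)) : bw r d s c i ≤ bwe r d s q c e i := by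
  by_cases h : ∀ l, (∀ l', e l' ≠ l) → CntJ_pos hs l ≠ i
  · exact (CntJ_w_eq hs c e i h).le
  · push Not at h
    obtain ⟨l, hl, rfl⟩ := h
    rw [CntJ_w, CntJ_wO hs c e l hl]
    exact hc l

/-- one overflowing coordinate -/
private theorem CntJ_slice {r : ℕ} {d m : ℕ} (w : Fin (r + 1) → ℕ) (i : Fin (r + 1))
    (hw : w i = d) (hm : m ≤ d) :
    ((Ex.Rg d w).filter fun α => d - m < α i).card =
      if 1 ≤ m then (Ex.Rg (m - 1) w).card else 0 := by
  split_ifs with h1
  · symm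
    refine Finset.card_bij (fun α _ => Function.update α i (α i + (d - m + 1))) ?_ ?_ ?_
    · intro α hα
      rw [Ex.mem_Rg] at hα
      rw [mem_filter, Ex.mem_Rg]
      have hsum : ∑ j, Function.update α i (α i + (d - m + 1)) j = d := by
        rw [Finset.sum_update_of_mem (mem_univ i)]
        have h2 := Finset.add_sum_erase univ α (mem_univ i)
        rw [← Finset.sdiff_singleton_eq_erase] at h2
        rw [hα.2] at h2
        omega
      refine ⟨⟨fun j => ?_, hsum⟩, ?_⟩
      · by_cases hj : j = i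
        · subst hj
          rw [hw]
          have h3 : Function.update α j (α j + (d - m + 1)) j ≤
              ∑ l, Function.update α j (α j + (d - m + 1)) l :=
            single_le_sum (fun _ _ => Nat.zero_le _) (mem_univ j)
          omega
        · rw [Function.update_of_ne hj]
          exact hα.1 j
      · rw [Function.update_self]
        omega
    · intro α _ β _ h
      funext j
      have hj := congrFun h j
      by_cases hji : j = i
      · subst hji
        rw [Function.update_self, Function.update_self] at hj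
        omega
      · rwa [Function.update_of_ne hji, Function.update_of_ne hji] at hj
    · intro β hβ
      rw [mem_filter, Ex.mem_Rg] at hβ
      refine ⟨Function.update β i (β i - (d - m + 1)), ?_, ?_⟩
      · rw [Ex.mem_Rg]
        refine ⟨fun j => ?_, ?_⟩
        · by_cases hj : j = i
          · subst hj
            rw [Function.update_self]
            have := hβ.1.1 j
            omega
          · rw [Function.update_of_ne hj]
            exact hβ.1.1 j
        · rw [Finset.sum_update_of_mem (mem_univ i)]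
          have h2 := Finset.add_sum_erase univ β (mem_univ i)
          rw [← Finset.sdiff_singleton_eq_erase] at h2
          rw [hβ.1.2] at h2
          have h3 := hβ.2
          omega
      · funext j
        by_cases hj : j = i
        · subst hj
          rw [Function.update_self, Function.update_self]
          have h3 := hβ.2
          omega
        · rw [Function.update_of_ne hj, Function.update_of_ne hj]
  · rw [Finset.card_eq_zero, Finset.filter_eq_empty_iff]
    intro α hα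
    rw [Ex.mem_Rg] at hα
    have := hα.1 i
    omega

theorem cntJ {r k d' s q : ℕ} (hs : s ≤ r + 1) (m' : Fin k → ℕ) (J : Fin s ↪ Fin k)
    (e : Fin q ↪ Fin s) (hm : ∀ i, m' i ≤ d')
    (h2 : ∀ i j, i ≠ j → (∀ l, J (e l) ≠ i) → (∀ l, J (e l) ≠ j) → m' i + m' j ≤ d') :
    (cnt r s (fun l => d' - m' (J l)) d' : ℤ) -
        ∑ i ∈ univ.filter (fun i => (∀ l, J l ≠ i) ∧ 1 ≤ m' i),
          (cnt r s (fun l => d' - m' (J l)) (m' i - 1) : ℤ) =
      (cnt r q (fun l => d' - m' (J (e l))) d' : ℤ) -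
        ∑ i ∈ univ.filter (fun i => (∀ l, J (e l) ≠ i) ∧ 1 ≤ m' i),
          (cnt r q (fun l => d' - m' (J (e l))) (m' i - 1) : ℤ) := by
  classical
  set c : Fin s → ℕ := fun l => d' - m' (J l) with hc
  have hcd : ∀ l, c l ≤ d' := fun l => Nat.sub_le _ _
  set w : Fin (r + 1) → ℕ := bw r d' s c with hw
  set w' : Fin (r + 1) → ℕ := bwe r d' s q c e with hw'
  have hA : ∀ n, n ≤ d' → cnt r s c n = (Ex.Rg n w).card := fun n hn =>
    count_eq r s d' n hs hn c
  have hB : ∀ n, n ≤ d' → cnt r q (fun l => d' - m' (J (e l))) n = (Ex.Rg n w').card :=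
    fun n hn => cnt_bwe hs hn c e
  -- the coordinates which are left out
  set O : Finset (Fin s) := univ.filter fun l => ∀ l', e l' ≠ l with hO
  have hOm : ∀ l ∈ O, ∀ l', J (e l') ≠ J l := fun l hl l' h =>
    (mem_filter.1 hl).2 l' (J.injective h)
  -- sums
  have hsum : ∀ F : Fin k → ℤ,
      ∑ i ∈ univ.filter (fun i => (∀ l, J (e l) ≠ i) ∧ 1 ≤ m' i), F i =
        ∑ i ∈ univ.filter (fun i => (∀ l, J l ≠ i) ∧ 1 ≤ m' i), F i +
          ∑ l ∈ O, if 1 ≤ m' (J l) then F (J l) else 0 := by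
    intro F
    rw [← Finset.sum_filter, ← Finset.sum_map (O.filter fun l => 1 ≤ m' (J l)) J F,
      ← Finset.sum_union]
    · refine Finset.sum_congr ?_ fun _ _ => rfl
      ext i
      simp only [mem_filter, mem_univ, true_and, mem_union, mem_map, hO]
      constructor
      · rintro ⟨h3, h4⟩
        by_cases h5 : ∀ l, J l ≠ i
        · exact Or.inl ⟨h5, h4⟩
        · push Not at h5
          obtain ⟨l, rfl⟩ := h5
          exact Or.inr ⟨l, ⟨fun l' h6 => h3 l' (by rw [h6]), h4⟩, rfl⟩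
      · rintro (⟨h3, h4⟩ | ⟨l, ⟨h3, h4⟩, rfl⟩)
        · exact ⟨fun l => h3 (e l), h4⟩
        · exact ⟨fun l' h => h3 l' (J.injective h), h4⟩
    · rw [Finset.disjoint_left]
      intro i hi hi'
      rw [mem_filter] at hi
      rw [mem_map] at hi'
      obtain ⟨l, -, rfl⟩ := hi'
      exact hi.2.1 l rfl
  -- the points outside `J`
  have hout : ∀ i ∈ univ.filter (fun i => (∀ l, J l ≠ i) ∧ 1 ≤ m' i),
      Ex.Rg (m' i - 1) w = Ex.Rg (m' i - 1) w' := by
    intro i hi
    rw [mem_filter] at hi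
    ext α
    rw [Ex.mem_Rg, Ex.mem_Rg]
    refine and_congr_left fun hα => ⟨fun h j => (h j).trans (CntJ_le hs c hcd e j),
      fun h j => ?_⟩
    by_cases hj : ∀ l, (∀ l', e l' ≠ l) → CntJ_pos hs l ≠ j
    · rw [hw, CntJ_w_eq hs c e j hj]
      exact h j
    · push Not at hj
      obtain ⟨l, hl, rfl⟩ := hj
      rw [hw, CntJ_w]
      have h3 : α (CntJ_pos hs l) ≤ ∑ l, α l :=
        single_le_sum (fun _ _ => Nat.zero_le _) (mem_univ _)
      have h4 := h2 i (J l) (fun h => hi.2.1 l h.symm) (fun l' => hi.2.1 (e l'))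
        (fun l' h => hl l' (J.injective h))
      have h5 : c l = d' - m' (J l) := rfl
      have h6 := hi.2.2
      omega
  -- the region of degree `d'`
  have htop : (Ex.Rg d' w').card = (Ex.Rg d' w).card +
      ∑ l ∈ O, if 1 ≤ m' (J l) then (Ex.Rg (m' (J l) - 1) w').card else 0 := by
    have h3 : Ex.Rg d' w' = Ex.Rg d' w ∪ O.biUnion fun l =>
        (Ex.Rg d' w').filter fun α => d' - m' (J l) < α (CntJ_pos hs l) := by
      ext α
      rw [mem_union, mem_biUnion]
      constructor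
      · intro hα
        by_cases h4 : ∃ l ∈ O, d' - m' (J l) < α (CntJ_pos hs l)
        · obtain ⟨l, hl, h5⟩ := h4
          exact Or.inr ⟨l, hl, mem_filter.2 ⟨hα, h5⟩⟩
        · push Not at h4
          left
          rw [Ex.mem_Rg] at hα ⊢
          refine ⟨fun j => ?_, hα.2⟩
          by_cases hj : ∀ l, (∀ l', e l' ≠ l) → CntJ_pos hs l ≠ j
          · rw [hw, CntJ_w_eq hs c e j hj]
            exact hα.1 j
          · push Not at hj
            obtain ⟨l, hl, rfl⟩ := hj
            rw [hw, CntJ_w]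
            exact h4 l (mem_filter.2 ⟨mem_univ _, hl⟩)
      · rintro (hα | ⟨l, -, hα⟩)
        · rw [Ex.mem_Rg] at hα ⊢
          exact ⟨fun j => (hα.1 j).trans (CntJ_le hs c hcd e j), hα.2⟩
        · exact (mem_filter.1 hα).1
    have h4 : Disjoint (Ex.Rg d' w) (O.biUnion fun l =>
        (Ex.Rg d' w').filter fun α => d' - m' (J l) < α (CntJ_pos hs l)) := by
      rw [Finset.disjoint_left]
      intro α hα hα'
      rw [mem_biUnion] at hα'
      obtain ⟨l, -, hl⟩ := hα'
      have h5 := (mem_filter.1 hl).2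
      have h6 := (Ex.mem_Rg.1 hα).1 (CntJ_pos hs l)
      rw [hw, CntJ_w] at h6
      have h7 : c l = d' - m' (J l) := rfl
      omega
    have h5 : ∀ l ∈ O, ∀ l' ∈ O, l ≠ l' →
        Disjoint ((Ex.Rg d' w').filter fun α => d' - m' (J l) < α (CntJ_pos hs l))
          ((Ex.Rg d' w').filter fun α => d' - m' (J l') < α (CntJ_pos hs l')) := by
      intro l hl l' hl' hne
      rw [Finset.disjoint_left]
      intro α hα hα'
      rw [mem_filter] at hα hα'
      have h6 := h2 (J l) (J l') (fun h => hne (J.injective h)) (hOm l hl) (hOm l' hl')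
      have h7 : CntJ_pos hs l ≠ CntJ_pos hs l' := fun h => hne (CntJ_pos_inj hs h)
      have h8 : α (CntJ_pos hs l) + α (CntJ_pos hs l') ≤ ∑ j, α j := by
        rw [← Finset.sum_pair h7]
        exact Finset.sum_le_sum_of_subset (subset_univ _)
      have h9 := (Ex.mem_Rg.1 hα.1).2
      have h10 := hα.2
      have h11 := hα'.2
      have h12 := hm (J l)
      have h13 := hm (J l')
      omega
    conv_lhs => rw [h3]
    rw [card_union_of_disjoint h4, card_biUnion h5]
    congr 1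
    refine Finset.sum_congr rfl fun l hl => ?_
    exact CntJ_slice w' (CntJ_pos hs l) (CntJ_wO hs c e l (mem_filter.1 hl).2) (hm (J l))
  rw [hA d' le_rfl, hB d' le_rfl, hsum, htop]
  have h6 : ∑ i ∈ univ.filter (fun i => (∀ l, J l ≠ i) ∧ 1 ≤ m' i),
      (cnt r s c (m' i - 1) : ℤ) =
      ∑ i ∈ univ.filter (fun i => (∀ l, J l ≠ i) ∧ 1 ≤ m' i),
        (cnt r q (fun l => d' - m' (J (e l))) (m' i - 1) : ℤ) := by
    refine Finset.sum_congr rfl fun i hi => ?_
    have h7 : m' i - 1 ≤ d' := (Nat.sub_le _ _).trans (hm i)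
    rw [hA _ h7, hB _ h7, hout i hi]
  have h7 : (∑ l ∈ O, if 1 ≤ m' (J l) then
      (cnt r q (fun l => d' - m' (J (e l))) (m' (J l) - 1) : ℤ) else 0) =
      ((∑ l ∈ O, if 1 ≤ m' (J l) then (Ex.Rg (m' (J l) - 1) w').card else 0 : ℕ) : ℤ) := by
    rw [Nat.cast_sum]
    refine Finset.sum_congr rfl fun l _ => ?_
    split_ifs
    · rw [hB _ ((Nat.sub_le _ _).trans (hm _))]
    · rfl
  rw [h6, h7]
  push_cast
  ring

end Pool.Agent.H18.Tl

end

section

/-!
# Module FinalD (TL): the dimension from the exactness of the needed multisets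

The proof is the one of the private theorem `FinalK_dim` in `Pool/Agent/H18/Tk/FinalK.lean` (there the hypothesis `hex` is assumed
for all multisets `S` with elements `≤ M`, but only used for `S = … + replicate (N - L) 1`).
-/

namespace Pool.Agent.H18.Tl

open Finset Function Pool.Agent.H18.Ex Pool.Agent.H18.Fat Pool.Agent.H18.Tj

/-- A free point of multiplicity one has one condition. -/
private theorem FinalD_Lx_one {ι : Type} [Fintype ι] [DecidableEq ι] (w : ι → ℕ) :
    Lx w 1 = 1 := by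
  have h1 : Ex.Rg 0 w = {fun _ => 0} := by
    ext a
    rw [Ex.mem_Rg, mem_singleton]
    refine ⟨fun h => ?_, fun h => ?_⟩
    · funext i
      have h2 : a i ≤ ∑ l, a l := single_le_sum (fun _ _ => Nat.zero_le _) (mem_univ i)
      omega
    · subst h
      exact ⟨fun _ => Nat.zero_le _, sum_const_zero⟩
  unfold Lx
  rw [if_neg one_ne_zero, Nat.sub_self, h1, card_singleton]

/-- The dimension of the reduced system. -/
theorem finalL_dim {r k d' s M : ℕ} (hr : 2 ≤ r) (m' : Fin k → ℕ)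
    (J : Fin s ↪ Fin k) (hs1 : s ≤ r + 1) (hm : ∀ i, (∀ l, J l ≠ i) → m' i ≤ M)
    (hJ : ∀ l, m' (J l) ≤ d') (hMd : M ≤ d')
    (hex : ∀ x : ℕ, (Ex.Rg d' (bw r d' s fun l => d' - m' (J l))).card ≤
        (((univ.filter fun i => ∀ l, J l ≠ i).val.map m' + Multiset.replicate x 1).map
          (Lx (bw r d' s fun l => d' - m' (J l)))).sum →
      GM (Ex.Rg d' (bw r d' s fun l => d' - m' (J l)))
        (((univ.filter fun i => ∀ l, J l ≠ i).val.map m' + Multiset.replicate x 1).map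
          Kind.free)) :
    ForGeneralPoints r k fun p =>
      (Module.finrank ℂ (fatForms r d' p m') : ℤ) =
        max 0 ((cnt r s (fun l => d' - m' (J l)) d' : ℤ) -
          ∑ i ∈ univ.filter (fun i => (∀ l, J l ≠ i) ∧ 1 ≤ m' i),
            (cnt r s (fun l => d' - m' (J l)) (m' i - 1) : ℤ)) := by
  have hsum : ∑ i ∈ univ.filter (fun i => (∀ l, J l ≠ i) ∧ 1 ≤ m' i),
      (cnt r s (fun l => d' - m' (J l)) (m' i - 1) : ℤ) =
      ((∑ i ∈ univ.filter (fun i => ∀ l, J l ≠ i),
        Lx (bw r d' s fun l => d' - m' (J l)) (m' i) : ℕ) : ℤ) := by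
    rw [Nat.cast_sum, ← filter_filter, sum_filter]
    refine sum_congr rfl fun i hi => ?_
    have hi1 : ∀ l, J l ≠ i := (mem_filter.1 hi).2
    have hi2 := hm i hi1
    unfold Lx
    by_cases h0 : m' i = 0
    · rw [if_neg (by omega), if_pos h0, Nat.cast_zero]
    · rw [if_pos (by omega), if_neg h0, count_eq r s d' (m' i - 1) hs1 (by omega)]
  rw [hsum, count_eq r s d' d' hs1 le_rfl]
  have hex1 := fun x => hex x
  generalize hLdef : ∑ i ∈ univ.filter (fun i => ∀ l, J l ≠ i),
    Lx (bw r d' s fun l => d' - m' (J l)) (m' i) = L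
  generalize hNdef : (Ex.Rg d' (bw r d' s fun l => d' - m' (J l))).card = N
  have hup := upper (r := r) (d := d') (by omega) hs1 m' J hJ (N - L) (hex1 (N - L)
    (by
      rw [Multiset.map_add, Multiset.sum_add, Multiset.map_map, Multiset.map_replicate,
        Multiset.sum_replicate, FinalD_Lx_one, hNdef]
      have h3 : (Multiset.map (Lx (bw r d' s fun l => d' - m' (J l)) ∘ m')
          (univ.filter fun i => ∀ l, J l ≠ i).val).sum = L := hLdef
      rw [h3, smul_eq_mul, mul_one]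
      omega))
  have hlo := lower (r := r) (d := d') (by omega) hs1 m' J hJ
    fun i hi => (hm i hi).trans hMd
  refine (hup.and hlo).mono fun p hp => ?_
  obtain ⟨h1, h2⟩ := hp
  rw [hLdef, hNdef] at h2
  omega

end Pool.Agent.H18.Tl

end

section

/-!
# Module Greedy (TL): extraction of blocks

Induction on `e` (strong) or on `S.card`: if `e < Bs b + A` or if `S.count μ < Sn μ` for all `μ` with `1 ≤ μ`, `2 μ ≤ Bs b + 1`, take `ms = []`,
`S' = S`.  Otherwise choose such a `μ` with `Sn μ ≤ S.count μ`, so `S = S₁ + replicate (Sn μ) μ`, and `e₁ = e - an μ ≥ Bs b`; from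
`Lm b (e + 1) = Lm b (e₁ + 1) + an μ * Pc b` (`Lm_add`) and `heq`: `Lm b (e₁ + 1) ≤ X + (S₁.map (Lm b)).sum`; apply the induction hypothesis.
-/

namespace Pool.Agent.H18.Tl

open Finset

variable {τ : Type} [Fintype τ] [DecidableEq τ]

theorem greedy (b : τ → ℕ) (Sn an : ℕ → ℕ) (A X : ℕ) (hpos : ∀ μ, 1 ≤ Sn μ ∧ 1 ≤ an μ)
    (hA : ∀ μ, 1 ≤ μ → 2 * μ ≤ Bs b + 1 → an μ ≤ A)
    (heq : ∀ μ, 1 ≤ μ → 2 * μ ≤ Bs b + 1 → Sn μ * Lm b μ = an μ * Pc b) :
    ∀ (e : ℕ) (S : Multiset ℕ), Bs b ≤ e → Lm b (e + 1) ≤ X + (S.map (Lm b)).sum →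
      ∃ (ms : List ℕ) (S' : Multiset ℕ) (e₀ : ℕ), (∀ μ ∈ ms, 1 ≤ μ ∧ 2 * μ ≤ Bs b + 1) ∧
        S = S' + (ms.map fun μ => Multiset.replicate (Sn μ) μ).sum ∧
        e = e₀ + (ms.map an).sum ∧ Bs b ≤ e₀ ∧ Lm b (e₀ + 1) ≤ X + (S'.map (Lm b)).sum ∧
        (e₀ < Bs b + A ∨ ∀ μ, 1 ≤ μ → 2 * μ ≤ Bs b + 1 → S'.count μ < Sn μ) := by
  intro e
  induction e using Nat.strong_induction_on with
  | _ e ih =>
    intro S hBe hL
    by_cases h1 : e < Bs b + A
    · exact ⟨[], S, e, by simp, by simp, by simp, hBe, hL, Or.inl h1⟩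
    by_cases h2 : ∀ μ, 1 ≤ μ → 2 * μ ≤ Bs b + 1 → S.count μ < Sn μ
    · exact ⟨[], S, e, by simp, by simp, by simp, hBe, hL, Or.inr h2⟩
    push Not at h1 h2
    obtain ⟨μ, hμ1, hμ2, hc⟩ := h2
    have haA : an μ ≤ A := hA μ hμ1 hμ2
    have ha1 : 1 ≤ an μ := (hpos μ).2
    obtain ⟨e₁, he₁⟩ : ∃ e₁, e = e₁ + an μ := ⟨e - an μ, by omega⟩
    have hle : Multiset.replicate (Sn μ) μ ≤ S := Multiset.le_count_iff_replicate_le.mp hc
    obtain ⟨S₁, hS₁⟩ := Multiset.le_iff_exists_add.mp hle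
    have hBe₁ : Bs b ≤ e₁ := by omega
    have hlm : Lm b (e + 1) = Lm b (e₁ + 1) + an μ * Pc b := by
      have hadd := Lm_add b (e₁ + 1) (an μ) (by omega)
      have hee : e + 1 = e₁ + 1 + an μ := by omega
      rw [hee]
      exact hadd
    have hsum : (S.map (Lm b)).sum = an μ * Pc b + (S₁.map (Lm b)).sum := by
      rw [hS₁, Multiset.map_add, Multiset.sum_add, Multiset.map_replicate, Multiset.sum_replicate,
        smul_eq_mul, heq μ hμ1 hμ2]
    have hL₁ : Lm b (e₁ + 1) ≤ X + (S₁.map (Lm b)).sum := by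
      rw [hlm, hsum] at hL
      omega
    obtain ⟨ms, S', e₀, hms, hS', he₀, hB₀, hL₀, hor⟩ := ih e₁ (by omega) S₁ hBe₁ hL₁
    refine ⟨μ :: ms, S', e₀, ?_, ?_, ?_, hB₀, hL₀, hor⟩
    · intro ν hν
      rcases List.mem_cons.mp hν with h | h
      · subst h
        exact ⟨hμ1, hμ2⟩
      · exact hms ν h
    · rw [hS₁, hS', List.map_cons, List.sum_cons]
      abel
    · rw [List.map_cons, List.sum_cons, he₁, he₀]
      omega

end Pool.Agent.H18.Tl

end

section

/-!
# Module LxL (TL): the numbers of conditions with two long coordinates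

`h ≠ y` are coordinates with `w h, w y ≥ d`; the others (`τ = {i // i ≠ h ∧ i ≠ y}`) have the widths `b = w`.
`Lx_eq`: an exponent of `Rg (m - 1) w` is determined by its values `γ` on `τ` (in `Box b`, `dg γ ≤ m - 1`) and its value
at `y` (any number `≤ m - 1 - dg γ`; the bounds `w y, w h ≥ d ≥ m - 1` hold): `m - dg γ` possibilities.
-/

namespace Pool.Agent.H18.Tl

open Finset Pool.Agent.H18.Ex

variable {ι : Type} [Fintype ι] [DecidableEq ι]

private theorem LxL_split (h y : ι) (hy : h ≠ y) (f : ι → ℕ) :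
    ∑ i, f i = f h + f y + ∑ l : {i // i ≠ h ∧ i ≠ y}, f l.1 := by
  have h1 : ∑ l : {i // i ≠ h ∧ i ≠ y}, f l.1 = ∑ i ∈ univ.filter (fun i => i ≠ h ∧ i ≠ y), f i := by
    rw [← Finset.sum_subtype (univ.filter (fun i => i ≠ h ∧ i ≠ y)) (fun x => by simp) f]
  have h2 : univ.filter (fun i : ι => ¬ (i ≠ h ∧ i ≠ y)) = {h, y} := by
    ext i
    simp only [mem_filter, mem_univ, true_and, mem_insert, mem_singleton]
    tauto
  have h3 : ∑ i ∈ univ.filter (fun i : ι => ¬ (i ≠ h ∧ i ≠ y)), f i = f h + f y := by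
    rw [h2, Finset.sum_pair hy]
  rw [← Finset.sum_filter_add_sum_filter_not univ (fun i : ι => i ≠ h ∧ i ≠ y) f, h1, h3]
  ring

/-- The exponent with given values. -/
private def LxL_mk (h y : ι) (γ : {i // i ≠ h ∧ i ≠ y} → ℕ) (s t : ℕ) : ι → ℕ :=
  fun i => if hi : i ≠ h ∧ i ≠ y then γ ⟨i, hi⟩ else if i = y then t else s

theorem Lx_eq (d : ℕ) (w : ι → ℕ) (h y : ι) (hy : h ≠ y) (hh : d ≤ w h) (hyw : d ≤ w y) (m : ℕ)
    (hm : m ≤ d + 1) : Tj.Lx w m = Lm (fun l : {i // i ≠ h ∧ i ≠ y} => w l.1) m := by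
  classical
  unfold Tj.Lx Lm
  by_cases hm0 : m = 0
  · rw [if_pos hm0]
    simp [hm0]
  rw [if_neg hm0]
  set b : {i // i ≠ h ∧ i ≠ y} → ℕ := fun l => w l.1 with hb
  -- the restriction
  let res : (ι → ℕ) → Box b := fun a l => ⟨min (a l.1) (b l), Nat.lt_succ_of_le (min_le_right _ _)⟩
  rw [Finset.card_eq_sum_card_fiberwise (s := Rg (m - 1) w) (f := res) (t := univ) (fun _ _ => mem_coe.2 (mem_univ _))]
  apply Finset.sum_congr rfl
  intro γ _
  have key : ((Rg (m - 1) w).filter (fun a => res a = γ)).card = (Finset.range (m - dg γ)).card := by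
    apply Finset.card_bij' (fun a _ => a y)
      (fun t _ => LxL_mk h y (fun l => (γ l : ℕ)) (m - 1 - dg γ - t) t)
    · intro a ha
      rw [mem_filter, mem_Rg] at ha
      obtain ⟨⟨ha1, ha2⟩, ha3⟩ := ha
      rw [mem_range]
      have e1 : ∑ l : {i // i ≠ h ∧ i ≠ y}, a l.1 = dg γ := by
        unfold dg
        apply Finset.sum_congr rfl
        intro l _
        rw [← ha3]
        show a l.1 = min (a l.1) (b l)
        exact (min_eq_left (ha1 l.1)).symm
      rw [LxL_split h y hy a, e1] at ha2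
      omega
    · intro t ht
      rw [mem_range] at ht
      rw [mem_filter, mem_Rg]
      refine ⟨⟨?_, ?_⟩, ?_⟩
      · intro i
        unfold LxL_mk
        split_ifs with h1 h2
        · exact Nat.le_of_lt_succ (γ ⟨i, h1⟩).2
        · rw [h2]
          omega
        · have : i = h := by
            by_contra hne
            exact h1 ⟨hne, h2⟩
          rw [this]
          omega
      · rw [LxL_split h y hy]
        have e1 : LxL_mk h y (fun l => (γ l : ℕ)) (m - 1 - dg γ - t) t h = m - 1 - dg γ - t := by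
          unfold LxL_mk
          rw [dif_neg (by tauto), if_neg hy]
        have e2 : LxL_mk h y (fun l => (γ l : ℕ)) (m - 1 - dg γ - t) t y = t := by
          unfold LxL_mk
          rw [dif_neg (by tauto), if_pos rfl]
        have e3 : ∑ l : {i // i ≠ h ∧ i ≠ y},
            LxL_mk h y (fun l => (γ l : ℕ)) (m - 1 - dg γ - t) t l.1 = dg γ := by
          unfold dg
          apply Finset.sum_congr rfl
          intro l _
          unfold LxL_mk
          rw [dif_pos l.2]
        rw [e1, e2, e3]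
        omega
      · funext l
        apply Fin.ext
        show min (LxL_mk h y (fun l => (γ l : ℕ)) (m - 1 - dg γ - t) t l.1) (b l) = (γ l : ℕ)
        unfold LxL_mk
        rw [dif_pos l.2]
        exact min_eq_left (Nat.le_of_lt_succ (γ l).2)
    · intro a ha
      rw [mem_filter, mem_Rg] at ha
      obtain ⟨⟨ha1, ha2⟩, ha3⟩ := ha
      have e0 : ∀ l : {i // i ≠ h ∧ i ≠ y}, a l.1 = (γ l : ℕ) := by
        intro l
        rw [← ha3]
        show a l.1 = min (a l.1) (b l)
        exact (min_eq_left (ha1 l.1)).symm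
      have e1 : ∑ l : {i // i ≠ h ∧ i ≠ y}, a l.1 = dg γ := by
        unfold dg
        exact Finset.sum_congr rfl fun l _ => e0 l
      rw [LxL_split h y hy a, e1] at ha2
      funext i
      unfold LxL_mk
      split_ifs with h1 h2
      · exact (e0 ⟨i, h1⟩).symm
      · rw [h2]
      · have : i = h := by
          by_contra hne
          exact h1 ⟨hne, h2⟩
        rw [this]
        omega
    · intro t ht
      show LxL_mk h y (fun l => (γ l : ℕ)) (m - 1 - dg γ - t) t y = t
      unfold LxL_mk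
      rw [dif_neg (by tauto), if_pos rfl]
  rw [key, card_range]

end Pool.Agent.H18.Tl

end

section

/-!
# Module GeoL (TL): two long coordinates

`h ≠ y` are coordinates with `w h, w y ≥ d`; the others (`τ = {i // i ≠ h ∧ i ≠ y}`) have the widths `b = w`.
`geoL`: positions `pos i = (1 at h, x_i at y, z_i on τ)` (`L.get i`, `GM_iff` or directly the definition of `GM` with `n = L.length`).  Let
`f` satisfy the conditions.  `F β = ∑_{j ≤ d - dg β} f(α(β, j)) t^j`, `α(β, j)` = the exponent with the values `β` on `τ`, `j` at `y` and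
`d - dg β - j` at `h` (for `dg β ≤ d`, else `F β = 0`); `F ∈ Ve b d`.  By `van_iff`, `F` vanishes at the point `⟨m_i, x_i, z_i⟩`: for
`j + dg γ < m_i` the coefficient is `∑_{α ∈ Rg d w} f α * tcr (pos i) α c` with `c = (0 at h, j at y, γ on τ)` (`binom(α_h, 0) 1^(α_h) = 1`).
So `F = 0`, `f = 0` on `Rg d w`.
-/

namespace Pool.Agent.H18.Tl

open Finset Pool.Agent.H18.Ex

variable {ι : Type} [Fintype ι] [DecidableEq ι]

/-- The function with the values `u` at `h`, `v` at `y` and `q` elsewhere. -/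
private def GeoL_fn {M : Type} (h y : ι) (u v : M) (q : {i // i ≠ h ∧ i ≠ y} → M) : ι → M :=
  fun i => if hi : i = h then u else if hj : i = y then v else q ⟨i, hi, hj⟩

omit [Fintype ι] in
private theorem GeoL_fn_h {M : Type} (h y : ι) (u v : M) (q : {i // i ≠ h ∧ i ≠ y} → M) :
    GeoL_fn h y u v q h = u := by
  simp [GeoL_fn]

omit [Fintype ι] in
private theorem GeoL_fn_y {M : Type} (h y : ι) (hy : h ≠ y) (u v : M)
    (q : {i // i ≠ h ∧ i ≠ y} → M) : GeoL_fn h y u v q y = v := by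
  simp [GeoL_fn, hy.symm]

omit [Fintype ι] in
private theorem GeoL_fn_t {M : Type} (h y : ι) (u v : M) (q : {i // i ≠ h ∧ i ≠ y} → M)
    (l : {i // i ≠ h ∧ i ≠ y}) : GeoL_fn h y u v q l.1 = q l := by
  simp [GeoL_fn, l.2.1, l.2.2]

private theorem GeoL_prod {M : Type} [CommMonoid M] (h y : ι) (hy : h ≠ y) (g : ι → M) :
    ∏ i, g i = g h * (g y * ∏ l : {i // i ≠ h ∧ i ≠ y}, g l.1) := by
  rw [← mul_prod_erase univ g (mem_univ h),
    ← mul_prod_erase (univ.erase h) g (mem_erase.2 ⟨hy.symm, mem_univ y⟩)]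
  congr 2
  apply prod_subtype
  intro x
  simp only [mem_erase, mem_univ, and_true]
  exact and_comm

private theorem GeoL_sum {M : Type} [AddCommMonoid M] (h y : ι) (hy : h ≠ y) (g : ι → M) :
    ∑ i, g i = g h + (g y + ∑ l : {i // i ≠ h ∧ i ≠ y}, g l.1) := by
  rw [← add_sum_erase univ g (mem_univ h),
    ← add_sum_erase (univ.erase h) g (mem_erase.2 ⟨hy.symm, mem_univ y⟩)]
  congr 2
  apply sum_subtype
  intro x
  simp only [mem_erase, mem_univ, and_true]
  exact and_comm

/-- The exponent `α(β, j)`. -/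
private def GeoL_al (d : ℕ) (w : ι → ℕ) (h y : ι)
    (β : Box (fun l : {i // i ≠ h ∧ i ≠ y} => w l.1)) (j : ℕ) : ι → ℕ :=
  GeoL_fn h y (d - dg β - j) j (fun l => (β l : ℕ))

private theorem GeoL_tcr (d : ℕ) (w : ι → ℕ) (h y : ι) (hy : h ≠ y)
    (β γ : Box (fun l : {i // i ≠ h ∧ i ≠ y} => w l.1)) (k j : ℕ) (x : ℂ)
    (z : {i // i ≠ h ∧ i ≠ y} → ℂ) :
    tcr (GeoL_fn h y 1 x z) (GeoL_al d w h y β k) (GeoL_fn h y 0 j (fun l => (γ l : ℕ)))
      = ((k.choose j : ℕ) : ℂ) * x ^ (k - j) * tz _ z γ β := by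
  unfold tcr GeoL_al
  rw [GeoL_prod h y hy]
  simp only [GeoL_fn_h, GeoL_fn_y h y hy, GeoL_fn_t]
  rw [Nat.choose_zero_right, one_pow, Nat.cast_one, one_mul, one_mul]
  rfl

private theorem GeoL_mem (d : ℕ) (w : ι → ℕ) (h y : ι) (hy : h ≠ y) (hh : d ≤ w h)
    (hyw : d ≤ w y) (β : Box (fun l : {i // i ≠ h ∧ i ≠ y} => w l.1)) (k : ℕ)
    (hk : k + dg β ≤ d) : GeoL_al d w h y β k ∈ Ex.Rg d w := by
  rw [mem_Rg]
  constructor
  · intro i
    by_cases hi : i = h
    · subst hi
      unfold GeoL_al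
      rw [GeoL_fn_h]
      omega
    · by_cases hj : i = y
      · subst hj
        unfold GeoL_al
        rw [GeoL_fn_y _ _ hy]
        omega
      · have h1 := GeoL_fn_t h y (d - dg β - k) k (fun l => (β l : ℕ)) ⟨i, hi, hj⟩
        have h2 := (β ⟨i, hi, hj⟩).isLt
        unfold GeoL_al
        rw [h1]
        exact Nat.lt_succ_iff.1 h2
  · rw [GeoL_sum h y hy]
    unfold GeoL_al
    simp only [GeoL_fn_h, GeoL_fn_y h y hy, GeoL_fn_t]
    have h3 : ∑ l : {i // i ≠ h ∧ i ≠ y}, (β l : ℕ) = dg β := rfl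
    rw [h3]
    omega

/-- The box part of an exponent. -/
private def GeoL_be (w : ι → ℕ) (h y : ι) (a : ι → ℕ) :
    Box (fun l : {i // i ≠ h ∧ i ≠ y} => w l.1) :=
  fun l => ⟨min (a l.1) (w l.1), Nat.lt_succ_iff.2 (min_le_right _ _)⟩

omit [Fintype ι] [DecidableEq ι] in
private theorem GeoL_be_val (w : ι → ℕ) (h y : ι) (a : ι → ℕ) (ha : ∀ i, a i ≤ w i)
    (l : {i // i ≠ h ∧ i ≠ y}) : ((GeoL_be w h y a l : Fin (w l.1 + 1)) : ℕ) = a l.1 :=
  min_eq_left (ha l.1)

private theorem GeoL_dg_be (d : ℕ) (w : ι → ℕ) (h y : ι) (hy : h ≠ y) (a : ι → ℕ)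
    (ha : a ∈ Ex.Rg d w) : a h + (a y + dg (GeoL_be w h y a)) = d := by
  obtain ⟨h1, h2⟩ := mem_Rg.1 ha
  rw [GeoL_sum h y hy] at h2
  have h3 : dg (GeoL_be w h y a) = ∑ l : {i // i ≠ h ∧ i ≠ y}, a l.1 :=
    sum_congr rfl fun l _ => GeoL_be_val w h y a h1 l
  rw [h3]
  exact h2

private theorem GeoL_al_be (d : ℕ) (w : ι → ℕ) (h y : ι) (hy : h ≠ y) (a : ι → ℕ)
    (ha : a ∈ Ex.Rg d w) : GeoL_al d w h y (GeoL_be w h y a) (a y) = a := by
  have h1 := (mem_Rg.1 ha).1
  have h2 := GeoL_dg_be d w h y hy a ha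
  funext i
  unfold GeoL_al
  by_cases hi : i = h
  · subst hi
    rw [GeoL_fn_h]
    omega
  · by_cases hj : i = y
    · subst hj
      rw [GeoL_fn_y _ _ hy]
    · have h3 := GeoL_fn_t h y (d - dg (GeoL_be w h y a) - a y) (a y)
        (fun l => ((GeoL_be w h y a l : Fin (w l.1 + 1)) : ℕ)) ⟨i, hi, hj⟩
      exact h3.trans (GeoL_be_val w h y a h1 ⟨i, hi, hj⟩)

private theorem GeoL_be_al (d : ℕ) (w : ι → ℕ) (h y : ι)
    (β : Box (fun l : {i // i ≠ h ∧ i ≠ y} => w l.1)) (k : ℕ) :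
    GeoL_be w h y (GeoL_al d w h y β k) = β := by
  funext l
  apply Fin.ext
  show min (GeoL_al d w h y β k l.1) (w l.1) = (β l : ℕ)
  unfold GeoL_al
  rw [GeoL_fn_t]
  exact min_eq_left (Nat.lt_succ_iff.1 (β l).isLt)

private theorem GeoL_reindex (d : ℕ) (w : ι → ℕ) (h y : ι) (hy : h ≠ y) (hh : d ≤ w h)
    (hyw : d ≤ w y) (g : (ι → ℕ) → ℂ) :
    ∑ a ∈ Ex.Rg d w, g a = ∑ β : Box (fun l : {i // i ≠ h ∧ i ≠ y} => w l.1),
      ∑ k ∈ range (d + 1), if k + dg β ≤ d then g (GeoL_al d w h y β k) else 0 := by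
  rw [← sum_product', ← sum_filter (s := univ ×ˢ range (d + 1))
    (fun q : Box (fun l : {i // i ≠ h ∧ i ≠ y} => w l.1) × ℕ => q.2 + dg q.1 ≤ d)
    (fun q => g (GeoL_al d w h y q.1 q.2))]
  symm
  refine sum_nbij' (fun q => GeoL_al d w h y q.1 q.2) (fun a => (GeoL_be w h y a, a y))
    ?_ ?_ ?_ ?_ ?_
  · intro q hq
    exact GeoL_mem d w h y hy hh hyw q.1 q.2 (mem_filter.1 hq).2
  · intro a ha
    have h2 := GeoL_dg_be d w h y hy a ha
    rw [mem_filter, mem_product, mem_range]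
    refine ⟨⟨mem_univ _, ?_⟩, ?_⟩
    · show a y < d + 1
      omega
    · show a y + dg (GeoL_be w h y a) ≤ d
      omega
  · intro q _
    refine Prod.ext (GeoL_be_al d w h y q.1 q.2) ?_
    show GeoL_al d w h y q.1 q.2 y = q.2
    unfold GeoL_al
    rw [GeoL_fn_y _ _ hy]
  · intro a ha
    exact GeoL_al_be d w h y hy a ha
  · intro q _
    rfl

/-- The vector of polynomials attached to `f`. -/
private noncomputable def GeoL_F (d : ℕ) (w : ι → ℕ) (h y : ι) (f : (ι → ℕ) → ℂ) :
    V (fun l : {i // i ≠ h ∧ i ≠ y} => w l.1) :=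
  fun β => ∑ k ∈ range (d + 1),
    Polynomial.monomial k (if k + dg β ≤ d then f (GeoL_al d w h y β k) else 0)

private theorem GeoL_F_coeff (d : ℕ) (w : ι → ℕ) (h y : ι) (f : (ι → ℕ) → ℂ)
    (β : Box (fun l : {i // i ≠ h ∧ i ≠ y} => w l.1)) (k : ℕ) :
    (GeoL_F d w h y f β).coeff k = if k + dg β ≤ d then f (GeoL_al d w h y β k) else 0 := by
  unfold GeoL_F
  rw [Polynomial.finsetSum_coeff]
  simp only [Polynomial.coeff_monomial]
  rw [sum_ite_eq' (range (d + 1)) k]
  by_cases hk : k ∈ range (d + 1)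
  · rw [if_pos hk]
  · rw [if_neg hk, if_neg]
    rw [mem_range] at hk
    omega

private theorem GeoL_taylor (d : ℕ) (w : ι → ℕ) (h y : ι) (f : (ι → ℕ) → ℂ)
    (γ : Box (fun l : {i // i ≠ h ∧ i ≠ y} => w l.1)) (A : Mt _) (x : ℂ) (j : ℕ) :
    (Polynomial.taylor x (act A (GeoL_F d w h y f) γ)).coeff j
      = ∑ β : Box (fun l : {i // i ≠ h ∧ i ≠ y} => w l.1), ∑ k ∈ range (d + 1),
        if k + dg β ≤ d then f (GeoL_al d w h y β k) *
          (((k.choose j : ℕ) : ℂ) * x ^ (k - j) * A γ β) else 0 := by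
  rw [act_apply, map_sum, Polynomial.finsetSum_coeff]
  refine sum_congr rfl fun β _ => ?_
  rw [Polynomial.taylor_mul, Polynomial.taylor_C, Polynomial.coeff_C_mul]
  unfold GeoL_F
  rw [map_sum, Polynomial.finsetSum_coeff, mul_sum]
  refine sum_congr rfl fun k _ => ?_
  rw [Polynomial.taylor_monomial, Polynomial.coeff_C_mul, Polynomial.coeff_X_add_C_pow]
  by_cases hk : k + dg β ≤ d
  · rw [if_pos hk, if_pos hk]
    ring
  · rw [if_neg hk, if_neg hk]
    ring

theorem geoL (d : ℕ) (w : ι → ℕ) (h y : ι) (hy : h ≠ y) (hh : d ≤ w h) (hyw : d ≤ w y)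
    (L : List (Pt {i // i ≠ h ∧ i ≠ y}))
    (hL : ∀ F ∈ Sol (fun l : {i // i ≠ h ∧ i ≠ y} => w l.1) d L, F = 0) :
    GM (Ex.Rg d w) ((↑(L.map Pt.m) : Multiset ℕ).map Kind.free) := by
  refine ⟨L.length, fun i => Kind.free (L.get i).m, ?_,
    fun i => GeoL_fn h y 1 (L.get i).x (L.get i).z, ?_⟩
  · rw [Fin.univ_val_map, Multiset.map_coe]
    congr 1
    rw [List.map_map]
    have h1 : (fun i => Kind.free (L.get i).m : Fin L.length → Kind ι)
        = (Kind.free ∘ Pt.m) ∘ L.get := rfl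
    rw [h1, ← List.map_ofFn, List.ofFn_get]
  · intro f hf
    have hF : GeoL_F d w h y f = 0 := by
      apply hL
      rw [mem_Sol]
      constructor
      · rw [mem_Ve]
        intro β j hj
        rw [GeoL_F_coeff, if_neg]
        omega
      · rw [mem_vanL]
        intro p hp
        obtain ⟨i, hi⟩ := List.get_of_mem hp
        rw [van_iff]
        intro γ j hj
        have h1 := hf i (GeoL_fn h y 0 j (fun l => (γ l : ℕ))) ?_
        · rw [GeoL_reindex d w h y hy hh hyw] at h1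
          rw [GeoL_taylor]
          rw [← hi]
          refine Eq.trans ?_ h1
          refine sum_congr rfl fun β _ => sum_congr rfl fun k _ => ?_
          by_cases hk : k + dg β ≤ d
          · rw [if_pos hk, if_pos hk]
            congr 1
            exact (GeoL_tcr d w h y hy β γ k j (L.get i).x (L.get i).z).symm
          · rw [if_neg hk, if_neg hk]
        · show ∑ i', GeoL_fn h y 0 j (fun l => (γ l : ℕ)) i' < (L.get i).m
          rw [GeoL_sum h y hy]
          simp only [GeoL_fn_h, GeoL_fn_y h y hy, GeoL_fn_t]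
          rw [hi]
          have h3 : ∑ l : {i // i ≠ h ∧ i ≠ y}, (γ l : ℕ) = dg γ := rfl
          rw [h3]
          omega
    intro a ha
    have h2 := GeoL_dg_be d w h y hy a ha
    have h3 := GeoL_F_coeff d w h y f (GeoL_be w h y a) (a y)
    rw [hF, if_pos (by omega), GeoL_al_be d w h y hy a ha] at h3
    rw [← h3]
    rfl

end Pool.Agent.H18.Tl

end

section

/-!
# The dyadic criterion for independent conditions
-/

namespace Pool.Agent.H74.KV

open Finset MvPolynomial Pool.Agent.H18.Fat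

variable {r : ℕ}

theorem exists_sub {ι : Type*} (b L : ℕ) (hb : 1 ≤ b) (w : ι → ℕ) (I : Finset ι)
    (hw : ∀ i ∈ I, w i ≤ L) (hI : b ^ L ≤ ∑ i ∈ I, b ^ w i) :
    ∃ I' ⊆ I, ∑ i ∈ I', b ^ w i = b ^ L := by
  classical
  have hne : (I.powerset.filter fun A => b ^ L ≤ ∑ i ∈ A, b ^ w i).Nonempty :=
    ⟨I, mem_filter.2 ⟨mem_powerset_self I, hI⟩⟩
  obtain ⟨A, hA, hmin⟩ := exists_min_image _ Finset.card hne
  obtain ⟨hAI, hAs⟩ := mem_filter.1 hA
  rw [mem_powerset] at hAI
  refine ⟨A, hAI, ?_⟩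
  have hbL : 1 ≤ b ^ L := Nat.one_le_pow _ _ hb
  have hAne : A.Nonempty := by
    rw [nonempty_iff_ne_empty]
    rintro rfl
    rw [sum_empty] at hAs
    omega
  obtain ⟨i₀, hi₀, hi₀min⟩ := exists_min_image A w hAne
  have h1 : ∑ i ∈ A.erase i₀, b ^ w i < b ^ L := by
    by_contra hcon
    push Not at hcon
    have h2 := hmin (A.erase i₀) (mem_filter.2 ⟨mem_powerset.2 ((erase_subset _ _).trans hAI), hcon⟩)
    rw [card_erase_of_mem hi₀] at h2
    have := card_pos.2 hAne
    omega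
  have h2 := add_sum_erase A (fun i => b ^ w i) hi₀
  have h3 : b ^ w i₀ ∣ ∑ i ∈ A, b ^ w i := dvd_sum fun i hi => pow_dvd_pow b (hi₀min i hi)
  have h4 : b ^ w i₀ ∣ b ^ L := pow_dvd_pow b (hw i₀ (hAI hi₀))
  obtain ⟨u, hu⟩ := h3
  obtain ⟨v, hv⟩ := h4
  have hq : 1 ≤ b ^ w i₀ := Nat.one_le_pow _ _ hb
  have h5 : u ≤ v := by
    by_contra hcon
    push Not at hcon
    have h6 : b ^ w i₀ * (v + 1) ≤ b ^ w i₀ * u := Nat.mul_le_mul_left _ hcon
    rw [Nat.mul_add, Nat.mul_one, ← hv, ← hu] at h6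
    omega
  have h6 : b ^ w i₀ * u ≤ b ^ w i₀ * v := Nat.mul_le_mul_left _ h5
  rw [← hu, ← hv] at h6
  omega

theorem bins {ι κ : Type*} [DecidableEq κ] (b L : ℕ) (hb : 1 ≤ b) (w : ι → ℕ) :
    ∀ (N : ℕ) (S : Finset κ), S.card = N + 1 → ∀ I : Finset ι, (∀ i ∈ I, w i ≤ L) →
    ∑ i ∈ I, b ^ w i ≤ S.card * b ^ L → ∃ φ : ι → κ, (∀ i ∈ I, φ i ∈ S) ∧
      ∀ c, ∑ i ∈ I.filter (fun i => φ i = c), b ^ w i ≤ b ^ L := by
  classical
  intro N
  induction N with
  | zero =>
    intro S hS I _ hI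
    obtain ⟨c, rfl⟩ := card_eq_one.1 hS
    rw [card_singleton, Nat.one_mul] at hI
    refine ⟨fun _ => c, fun _ _ => mem_singleton_self c, fun c' => ?_⟩
    exact (sum_le_sum_of_subset (filter_subset _ _)).trans hI
  | succ N ih =>
    intro S hS I hw hI
    obtain ⟨c, hc⟩ := card_pos.1 (by omega : 0 < S.card)
    rcases Nat.lt_or_ge (b ^ L) (∑ i ∈ I, b ^ w i) with h | h
    · obtain ⟨A, hAI, hA⟩ := exists_sub b L hb w I hw h.le
      have h1 : (S.erase c).card = N + 1 := by
        rw [card_erase_of_mem hc]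
        omega
      have h2 := sum_sdiff (f := fun i => b ^ w i) hAI
      obtain ⟨φ, hφ1, hφ2⟩ := ih (S.erase c) h1 (I \ A)
        (fun i hi => hw i (mem_sdiff.1 hi).1) (by
          rw [h1]
          rw [hS, Nat.add_mul (N + 1) 1, Nat.one_mul] at hI
          omega)
      refine ⟨fun i => if i ∈ A then c else φ i, fun i hi => ?_, fun c' => ?_⟩
      · dsimp only
        split_ifs with hiA
        · exact hc
        · exact mem_of_mem_erase (hφ1 i (mem_sdiff.2 ⟨hi, hiA⟩))
      · by_cases hcc : c' = c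
        · subst hcc
          have h3 : I.filter (fun i => (if i ∈ A then c' else φ i) = c') ⊆ A := by
            intro i hi
            rw [mem_filter] at hi
            by_contra hiA
            rw [if_neg hiA] at hi
            exact ne_of_mem_erase (hφ1 i (mem_sdiff.2 ⟨hi.1, hiA⟩)) hi.2
          exact (sum_le_sum_of_subset h3).trans hA.le
        · have h3 : I.filter (fun i => (if i ∈ A then c else φ i) = c') ⊆
              (I \ A).filter fun i => φ i = c' := by
            intro i hi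
            rw [mem_filter] at hi
            by_cases hiA : i ∈ A
            · rw [if_pos hiA] at hi
              exact absurd hi.2.symm hcc
            · rw [if_neg hiA] at hi
              exact mem_filter.2 ⟨mem_sdiff.2 ⟨hi.1, hiA⟩, hi.2⟩
          exact (sum_le_sum_of_subset h3).trans (hφ2 c')
    · refine ⟨fun _ => c, fun _ _ => hc, fun c' => ?_⟩
      exact (sum_le_sum_of_subset (filter_subset _ _)).trans h

/-- The dyadic multiplicities. -/
def AA (r a : ℕ) : ℕ → ℕ
  | 0 => a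
  | w + 1 => 2 * AA r a w + (r - 1)

theorem AA_eq (r a w : ℕ) : AA r a w + (r - 1) = 2 ^ w * (a + (r - 1)) := by
  induction w with
  | zero => simp [AA]
  | succ w ih =>
    have h1 : AA r a (w + 1) = 2 * AA r a w + (r - 1) := rfl
    rw [h1, pow_succ, Nat.mul_comm (2 ^ w) 2, Nat.mul_assoc, ← ih]
    ring

theorem AA_pos {r a : ℕ} (ha : 1 ≤ a) (w : ℕ) : 1 ≤ AA r a w := by
  induction w with
  | zero => exact ha
  | succ w ih =>
    have h1 : AA r a (w + 1) = 2 * AA r a w + (r - 1) := rfl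
    omega

theorem dyadic {ι : Type*} (hr : 1 ≤ r) {a : ℕ} (ha : 1 ≤ a) (w : ι → ℕ) : ∀ (K : ℕ)
    (I : Finset ι), ∑ i ∈ I, (2 ^ r) ^ w i ≤ (2 ^ r) ^ K →
    ∃ y : ι → Fin r → ℂ, Srj r (AA r a K - 1) I y fun i => AA r a (w i) := by
  classical
  have hb2 : 2 ≤ 2 ^ r := by
    calc 2 = 2 ^ 1 := rfl
      _ ≤ 2 ^ r := Nat.pow_le_pow_right (by norm_num) hr
  intro K
  induction K with
  | zero =>
    intro I hI
    rw [pow_zero] at hI
    have hpos : ∀ i ∈ I, 1 ≤ (2 ^ r) ^ w i := fun i _ => Nat.one_le_pow _ _ (by omega)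
    have hcard : I.card ≤ 1 := by
      have h1 : ∑ _i ∈ I, 1 ≤ ∑ i ∈ I, (2 ^ r) ^ w i := sum_le_sum hpos
      rw [sum_const, smul_eq_mul, Nat.mul_one] at h1
      omega
    refine ⟨fun _ => 0, srj_single hcard fun i hi => ?_⟩
    have h1 : (2 ^ r) ^ w i ≤ 1 := (single_le_sum (f := fun i => (2 ^ r) ^ w i)
      (fun _ _ => Nat.zero_le _) hi).trans hI
    have h2 : w i = 0 := by
      by_contra hne
      have h3 : (2 ^ r) ^ 1 ≤ (2 ^ r) ^ w i := Nat.pow_le_pow_right (by omega) (by omega)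
      rw [pow_one] at h3
      omega
    rw [h2]
    have := AA_pos (r := r) ha 0
    omega
  | succ K ih =>
    intro I hI
    by_cases hbig : ∃ i ∈ I, K + 1 ≤ w i
    · obtain ⟨i, hi, hiK⟩ := hbig
      have h1 : (2 ^ r) ^ (K + 1) ≤ (2 ^ r) ^ w i := Nat.pow_le_pow_right (by omega) hiK
      have hcard : I.card ≤ 1 := by
        rw [card_le_one]
        intro j hj l hl
        by_contra hne
        have h2 : ∃ l' ∈ I, l' ≠ i := by
          by_cases hji : j = i
          · exact ⟨l, hl, fun h => hne (hji.trans h.symm)⟩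
          · exact ⟨j, hj, hji⟩
        obtain ⟨l', hl', hl'i⟩ := h2
        have h3 : ∑ x ∈ {i, l'}, (2 ^ r) ^ w x ≤ ∑ x ∈ I, (2 ^ r) ^ w x :=
          sum_le_sum_of_subset fun x hx => by
            rcases mem_insert.1 hx with h | h
            · rw [h]
              exact hi
            · rw [mem_singleton.1 h]
              exact hl'
        rw [sum_pair (Ne.symm hl'i)] at h3
        have h4 : 1 ≤ (2 ^ r) ^ w l' := Nat.one_le_pow _ _ (by omega)
        omega
      refine ⟨fun _ => 0, srj_single hcard fun j hj => ?_⟩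
      have h2 : (2 ^ r) ^ w j ≤ (2 ^ r) ^ (K + 1) := (single_le_sum
        (f := fun i => (2 ^ r) ^ w i) (fun _ _ => Nat.zero_le _) hj).trans hI
      have h3 : w j ≤ K + 1 := (Nat.pow_le_pow_iff_right (by omega)).1 h2
      have hmono : Monotone (AA r a) := monotone_nat_of_le_succ fun w => by
        have h1 : AA r a (w + 1) = 2 * AA r a w + (r - 1) := rfl
        omega
      have h4 := hmono h3
      have := AA_pos (r := r) ha (K + 1)
      omega
    · push Not at hbig
      have hcard : (univ : Finset (Fin r → Fin 2)).card = (2 ^ r - 1) + 1 := by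
        rw [card_univ, Fintype.card_fun, Fintype.card_fin, Fintype.card_fin]
        omega
      obtain ⟨φ, _, hφ⟩ := bins (2 ^ r) K (by omega) w (2 ^ r - 1)
        (univ : Finset (Fin r → Fin 2)) hcard I (fun i hi => by
          have := hbig i hi
          omega) (by
          rw [hcard]
          have h1 : 2 ^ r - 1 + 1 = 2 ^ r := by omega
          rw [h1, ← pow_succ']
          exact hI)
      choose y hy using fun c => ih (I.filter fun i => φ i = c) (hφ c)
      obtain ⟨X', hX'⟩ := srj_grid hr (AA r a K)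
      obtain ⟨t, _, ht⟩ := collapse (AA_pos ha K) X' hX' φ I (fun i => y (φ i) i)
        (fun i => AA r a (w i)) fun c => (hy c).congr fun i hi => by
          rw [(mem_filter.1 hi).2]
      refine ⟨_, ht.mono ?_ fun _ _ => le_rfl⟩
      have h1 : AA r a (K + 1) = 2 * AA r a K + (r - 1) := rfl
      have h2 := AA_pos (r := r) ha K
      omega

/-- Multiplicities of the order of the degree, filling less than the `2 ^ r`-th part of the space. -/
theorem srj_num (hr : 1 ≤ r) (ε : ℝ) (hε : 0 < ε) : ∃ d₀ : ℕ, ∀ (k d : ℕ) (m : Fin k → ℕ)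
    (I : Finset (Fin k)), d₀ ≤ d → (∀ i ∈ I, ε * d ≤ m i) →
    2 ^ r * ∑ i ∈ I, (m i : ℝ) ^ r ≤ ((1 - ε) * d) ^ r →
    ε ≤ 1 → ∃ x : Fin k → Fin r → ℂ, Srj r d I x m := by
  classical
  obtain ⟨K, hK⟩ := exists_nat_ge (2 / ε)
  set ρ : ℕ := r - 1 with hρ
  set η : ℝ := ε / 3 with hη
  have hηpos : 0 < η := by positivity
  obtain ⟨d₁, hd₁⟩ := exists_nat_ge (ρ / (η * ε) + 2 ^ K / η)
  refine ⟨d₁ + 2 ^ K * (ρ + 3) + ρ + 1, fun k d m I hd hI hsum hε1 => ?_⟩
  have hd0 : (0 : ℝ) < d := by exact_mod_cast (by omega : 0 < d)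
  have hdd : (ρ / (η * ε) + 2 ^ K / η : ℝ) ≤ d := hd₁.trans (by
    exact_mod_cast (by
      have : 0 ≤ 2 ^ K * (ρ + 3) := Nat.zero_le _
      omega : d₁ ≤ d))
  have hρd : (ρ : ℝ) ≤ η * (ε * d) := by
    have h1 : (ρ / (η * ε) : ℝ) ≤ d := by
      have : (0 : ℝ) ≤ 2 ^ K / η := by positivity
      linarith only [hdd, this]
    rw [div_le_iff₀ (by positivity)] at h1
    linarith only [h1]
  have hKd : (2 : ℝ) ^ K ≤ η * d := by
    have h1 : (2 ^ K / η : ℝ) ≤ d := by
      have : (0 : ℝ) ≤ ρ / (η * ε) := by positivity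
      linarith only [hdd, this]
    rw [div_le_iff₀ hηpos] at h1
    linarith only [h1]
  have h2K : (2 : ℝ) / ε ≤ 2 ^ K := by
    refine hK.trans ?_
    exact_mod_cast (Nat.lt_two_pow_self (n := K)).le
  have h2Kpos : 0 < 2 ^ K := by positivity
  set q := (d + 1 + ρ) / 2 ^ K with hq
  have hq1 : 2 ^ K * q ≤ d + 1 + ρ := Nat.mul_div_le _ _
  have hq2 : d + 1 + ρ < 2 ^ K * q + 2 ^ K := Nat.lt_mul_div_succ _ h2Kpos
  have hqρ : ρ + 1 ≤ q := by
    by_contra hcon
    push Not at hcon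
    have h1 : 2 ^ K * q ≤ 2 ^ K * ρ := Nat.mul_le_mul_left _ (by omega)
    have h2 : 2 ^ K * (ρ + 3) = 2 ^ K * ρ + 3 * 2 ^ K := by ring
    omega
  obtain ⟨a, ha⟩ : ∃ a, q = a + ρ := ⟨q - ρ, by omega⟩
  have ha1 : 1 ≤ a := by omega
  have hAK : AA r a K ≤ d + 1 := by
    have h1 := AA_eq r a K
    rw [← hρ, ← ha] at h1
    omega
  -- the levels
  have hex : ∀ i, ∃ w, m i ≤ AA r a w := by
    intro i
    refine ⟨m i, ?_⟩
    have h1 := AA_eq r a (m i)
    have h2 : m i + ρ ≤ 2 ^ m i * (a + ρ) := by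
      have h3 : m i + 1 ≤ 2 ^ m i := Nat.lt_two_pow_self
      have h4 : (m i + 1) * (a + ρ) ≤ 2 ^ m i * (a + ρ) := Nat.mul_le_mul_right _ h3
      have h5 : m i * 1 + 1 * ρ ≤ (m i + 1) * (a + ρ) := by
        have h6 : (m i + 1) * (a + ρ) = m i * (a + ρ) + (a + ρ) := by ring
        have h7 : m i * 1 ≤ m i * (a + ρ) := Nat.mul_le_mul_left _ (by omega)
        omega
      omega
    rw [← hρ] at h1
    omega
  set w : Fin k → ℕ := fun i => Nat.find (hex i) with hw
  have hw1 : ∀ i, m i ≤ AA r a (w i) := fun i => Nat.find_spec (hex i)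
  have hw2 : ∀ i ∈ I, 2 ^ w i * q ≤ 2 * (m i + ρ) := by
    intro i hi
    rcases Nat.eq_zero_or_pos (w i) with h0 | h0
    · rw [h0, pow_zero, Nat.one_mul]
      have h1 : (q : ℝ) * 2 ^ K ≤ d + 1 + ρ := by
        have : ((2 ^ K * q : ℕ) : ℝ) ≤ ((d + 1 + ρ : ℕ) : ℝ) := by exact_mod_cast hq1
        push_cast at this
        linarith only [this]
      have h2 : (q : ℝ) * (2 / ε) ≤ d + 1 + ρ :=
        (mul_le_mul_of_nonneg_left h2K (Nat.cast_nonneg q)).trans h1
      have h3 : (q : ℝ) * 2 ≤ ε * (d + 1 + ρ) := by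
        have h4 : (q : ℝ) * (2 / ε) = (q * 2) / ε := by ring
        rw [h4, div_le_iff₀ hε] at h2
        linarith only [h2]
      have h4 : (d : ℝ) + 1 + ρ ≤ 2 * d := by
        have : d + 1 + ρ ≤ 2 * d := by omega
        exact_mod_cast this
      have h5 : ε * ((d : ℝ) + 1 + ρ) ≤ ε * (2 * d) := mul_le_mul_of_nonneg_left h4 hε.le
      have h6 := hI i hi
      have h7 : (q : ℝ) ≤ m i := by linarith only [h3, h5, h6]
      have h8 : q ≤ m i := by exact_mod_cast h7
      omega
    · have h1 : ¬ m i ≤ AA r a (w i - 1) := Nat.find_min (hex i) (by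
        change w i - 1 < w i
        omega)
      have h2 := AA_eq r a (w i - 1)
      rw [← hρ, ← ha] at h2
      have h3 : 2 ^ w i * q = 2 * (2 ^ (w i - 1) * q) := by
        obtain ⟨v, hv⟩ : ∃ v, w i = v + 1 := ⟨w i - 1, by omega⟩
        rw [hv, Nat.add_sub_cancel, pow_succ]
        ring
      rw [h3]
      omega
  have hsumw : ∑ i ∈ I, (2 ^ r) ^ w i ≤ (2 ^ r) ^ K := by
    have hq0 : (0 : ℝ) < q := by exact_mod_cast (by omega : 0 < q)
    have h1 : ∑ i ∈ I, ((2 : ℝ) ^ w i * q) ^ r ≤ ((2 : ℝ) ^ K * q) ^ r := by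
      calc ∑ i ∈ I, ((2 : ℝ) ^ w i * q) ^ r ≤ ∑ i ∈ I, (2 * ((1 + η) * m i)) ^ r := by
            refine sum_le_sum fun i hi => pow_le_pow_left₀ (by positivity) ?_ r
            have h2 : ((2 ^ w i * q : ℕ) : ℝ) ≤ ((2 * (m i + ρ) : ℕ) : ℝ) := by
              exact_mod_cast hw2 i hi
            push_cast at h2
            have h3 := hI i hi
            have h4 : (ρ : ℝ) ≤ η * m i := hρd.trans (mul_le_mul_of_nonneg_left h3 hηpos.le)
            linarith only [h2, h4]
        _ = (1 + η) ^ r * (2 ^ r * ∑ i ∈ I, (m i : ℝ) ^ r) := by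
            rw [mul_sum, mul_sum]
            refine sum_congr rfl fun i _ => ?_
            rw [mul_pow, mul_pow]
            ring
        _ ≤ (1 + η) ^ r * ((1 - ε) * d) ^ r := mul_le_mul_of_nonneg_left hsum (by positivity)
        _ = ((1 + η) * ((1 - ε) * d)) ^ r := by rw [← mul_pow]
        _ ≤ ((1 - η) * d) ^ r := by
            refine pow_le_pow_left₀ ?_ ?_ r
            · have : 0 ≤ 1 - ε := by linarith only [hε1]
              positivity
            · have h2 : (1 + η) * (1 - ε) ≤ 1 - η := by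
                rw [hη]
                nlinarith only [hε]
              nlinarith only [hρd, hε, hη]
        _ ≤ ((2 : ℝ) ^ K * q) ^ r := by
            refine pow_le_pow_left₀ ?_ ?_ r
            · have : 0 ≤ 1 - η := by
                rw [hη]
                linarith only [hε1]
              positivity
            · have h2 : ((d + 1 + ρ : ℕ) : ℝ) < ((2 ^ K * q + 2 ^ K : ℕ) : ℝ) := by
                exact_mod_cast hq2
              push_cast at h2
              have h3 : (0 : ℝ) ≤ ρ := Nat.cast_nonneg ρ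
              linarith only [hKd, h2]
    have h2 : ∀ x : ℕ, ((2 : ℝ) ^ x * q) ^ r = (((2 ^ r) ^ x : ℕ) : ℝ) * (q : ℝ) ^ r := by
      intro x
      push_cast
      rw [mul_pow, ← pow_mul, ← pow_mul, Nat.mul_comm]
    rw [h2, sum_congr rfl fun i _ => h2 (w i), ← sum_mul] at h1
    have h3 := le_of_mul_le_mul_right h1 (by positivity)
    exact_mod_cast h3
  obtain ⟨y, hy⟩ := dyadic hr ha1 w K I hsumw
  exact ⟨y, hy.mono (by omega) fun i _ => hw1 i⟩

end Pool.Agent.H74.KV

end
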