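import Pool.Agent.H94.LP4.M70
import Pool.Agent.H94.LP4.M71
import Pool.Agent.H94.LP4.M78
import Pool.Agent.H94.LP4.M80
import Pool.Agent.H94.LP4.M83
import Pool.Agent.H94.LP4.M84

/-! The parts of this file: H18.Tl.Step, H18.Tl.Chain, H18.Tl.Asm, H18.Tl.HexL, H74.KV.Cone_1, H74.KV.GenN, H74.SC.Ex_1. -/

section

/-!
# Module Step (TL): one block lowers the dimension

`exists_max` gives `S` (and `a` from the existing block; all blocks with `S` points have the same height `a`, by `cnt` and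
`0 < Pc b`; `1 ≤ a` by `Blk.pos`) and `D = Ds b μ S` with `Mxl b μ D`.
Given `L`, `e`, `h`.  For a block `L'` with `S` points and a translate `L₁ = shL c L` with all `x ≠ 0`, the lists `L₁ ++ scL δ L'` have distinct `x`
for almost all `δ` (`δ ≠ 0`, `δ p'.x ≠ p.x`), and the right multiset of multiplicities (`L'` has `S` points of multiplicity `μ`).
If `h0 b e L ≤ h`: `ins_le` (and `h0_sh`).  Otherwise `h0 b e L = h + 1 > 0`; let `0 ≠ s ∈ Sol b e L`; choose `t₀` with `s(t₀) ≠ 0` and `t₀ ≠ p.x` for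
`p ∈ L` (finitely many exceptions); `L₁ = shL (-t₀) L`, `s₁ = sh t₀ s ∈ Sol b e L₁` (`sh_mem_Sol`), `e0 s₁ = s(t₀) ≠ 0`.  Suppose that for every
block `(L', Φ)` with `S` points there is `G ∈ Sol b (e + 1) L₁` with `e0 G = Φ₁ (e0 s₁)`.  Then for all `Y ∈ D` there is `G ∈ Sol b (e + 1) L₁` with
`e0 G = Y (e0 s₁)` (span induction), so by `prog` for all `v`; `full` gives `h0 b e L + cL b L ≤ Lm b (e + 1) ≤ cL b L`, so `h0 b e L = 0`, a
contradiction.  So for some block `ins_lt` applies.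
-/

namespace Pool.Agent.H18.Tl

open Finset Polynomial

variable {τ : Type} [Fintype τ] [DecidableEq τ]

/-- avoid a finite set -/
private theorem Step_avoid (T : Set ℂ) (hT : T.Finite) : ∃ δ : ℂ, δ ∉ T := by
  obtain ⟨δ, hδ⟩ := hT.infinite_compl.nonempty
  exact ⟨δ, hδ⟩

omit [Fintype τ] [DecidableEq τ] in
private theorem Step_nodup_sh (c : ℂ) {L : List (Pt τ)} (h : (L.map Pt.x).Nodup) :
    ((shL c L).map Pt.x).Nodup := by
  have e : (shL c L).map Pt.x = (L.map Pt.x).map fun x => x + c := by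
    unfold shL
    rw [List.map_map, List.map_map]
    rfl
  rw [e]
  exact h.map (add_left_injective c)

omit [Fintype τ] [DecidableEq τ] in
private theorem Step_m_sh (c : ℂ) (L : List (Pt τ)) : (shL c L).map Pt.m = L.map Pt.m := by
  unfold shL
  rw [List.map_map]
  rfl

omit [Fintype τ] [DecidableEq τ] in
private theorem Step_m_sc (c : ℂ) (L : List (Pt τ)) : (scL c L).map Pt.m = L.map Pt.m := by
  unfold scL
  rw [List.map_map]
  rfl

omit [Fintype τ] [DecidableEq τ] in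
private theorem Step_sh_sh (c : ℂ) (L : List (Pt τ)) : shL c (shL (-c) L) = L := by
  unfold shL
  rw [List.map_map]
  conv_rhs => rw [← List.map_id L]
  refine List.map_congr_left fun p _ => ?_
  simp

private theorem Step_choose {b : τ → ℕ} {μ a : ℕ} {L₁ L' : List (Pt τ)}
    (hd : (L₁.map Pt.x).Nodup) (hx : ∀ p ∈ L₁, p.x ≠ 0) (h : Blk b μ a L') (T : Set ℂ)
    (hT : T.Finite) :
    ∃ δ : ℂ, δ ∉ T ∧ ((L₁ ++ scL δ L').map Pt.x).Nodup ∧
      (↑((L₁ ++ scL δ L').map Pt.m) : Multiset ℕ) =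
        ↑(L₁.map Pt.m) + Multiset.replicate L'.length μ := by
  classical
  obtain ⟨δ, hδ⟩ := Step_avoid (T ∪ ({0} ∪ ⋃ p ∈ {p | p ∈ L₁}, ⋃ q ∈ {q | q ∈ L'},
    ({p.x / q.x} : Set ℂ))) (hT.union ((Set.finite_singleton 0).union
      ((List.finite_toSet L₁).biUnion fun p _ => (List.finite_toSet L').biUnion fun q _ =>
        Set.finite_singleton _)))
  simp only [Set.mem_union, Set.mem_singleton_iff, Set.mem_iUnion, not_or, not_exists] at hδ
  obtain ⟨h1, h2, h3⟩ := hδ
  refine ⟨δ, h1, ?_, ?_⟩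
  · rw [List.map_append, List.nodup_append']
    refine ⟨hd, ?_, ?_⟩
    · have e : (scL δ L').map Pt.x = (L'.map Pt.x).map fun x => δ * x := by
        unfold scL
        rw [List.map_map, List.map_map]
        rfl
      rw [e]
      exact h.dist.map (mul_right_injective₀ h2)
    · rw [List.disjoint_left]
      intro x hx1 hx2
      rw [List.mem_map] at hx1 hx2
      obtain ⟨p, hp, rfl⟩ := hx1
      obtain ⟨q', hq', hqp⟩ := hx2
      unfold scL at hq'
      rw [List.mem_map] at hq'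
      obtain ⟨q, hq, rfl⟩ := hq'
      have h4 : δ * q.x = p.x := hqp
      have h5 : q.x ≠ 0 := by
        intro h0
        rw [h0, mul_zero] at h4
        exact hx p hp h4.symm
      exact h3 p hp q hq (by rw [← h4, mul_div_cancel_right₀ _ h5])
  · rw [List.map_append, ← Multiset.coe_add, Step_m_sc]
    congr 1
    have e : L'.map Pt.m = List.replicate L'.length μ := by
      rw [List.eq_replicate_iff]
      refine ⟨by rw [List.length_map], fun m hm => ?_⟩
      rw [List.mem_map] at hm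
      obtain ⟨q, hq, rfl⟩ := hm
      exact h.mult q hq
    rw [e, Multiset.coe_replicate]

theorem step (b : τ → ℕ) (μ : ℕ) (hμ : 1 ≤ μ) (hμB : 2 * μ ≤ Bs b + 1) (hB : 1 ≤ Bs b)
    (hex : ∃ a L, Blk b μ a L ∧ L ≠ []) :
    ∃ S a : ℕ, 1 ≤ S ∧ 1 ≤ a ∧ S * Lm b μ = a * Pc b ∧
      ∀ (L : List (Pt τ)) (e h : ℕ), (L.map Pt.x).Nodup → Bs b ≤ e + 1 →
        Lm b (e + 1) ≤ cL b L → h0 b e L ≤ h + 1 →
        ∃ L' : List (Pt τ), (L'.map Pt.x).Nodup ∧
          (↑(L'.map Pt.m) : Multiset ℕ) = ↑(L.map Pt.m) + Multiset.replicate S μ ∧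
          h0 b (e + a) L' ≤ h := by
  obtain ⟨S, hS1, ⟨a, L0, hL0, hlen⟩, hD⟩ := exists_max hμ hex
  have hne : L0 ≠ [] := by
    rintro rfl
    simp at hlen
    omega
  have ha : 1 ≤ a := hL0.pos hμ hne
  have hcnt : S * Lm b μ = a * Pc b := by
    rw [← hlen]
    exact hL0.cnt
  have hPc : 0 < Pc b := Fintype.card_pos_iff.2 ⟨zb b⟩
  have hheight : ∀ a' (L' : List (Pt τ)), Blk b μ a' L' → L'.length = S → a' = a := by
    intro a' L' h' hl
    have h1 := h'.cnt
    rw [hl, hcnt] at h1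
    exact (Nat.eq_of_mul_eq_mul_right hPc h1).symm
  refine ⟨S, a, hS1, ha, hcnt, fun L e h hnod hBe hLm hh => ?_⟩
  rcases Nat.lt_or_ge h (h0 b e L) with hlt | hle
  · -- the dimension is positive
    have hpos : h0 b e L ≠ 0 := by omega
    have hs0 : ¬ ∀ F ∈ Sol b e L, F = 0 := fun h' => hpos ((h0_eq_zero e L).2 h')
    push Not at hs0
    obtain ⟨s, hs, hsne⟩ := hs0
    obtain ⟨β, hβ⟩ := Function.ne_iff.1 hsne
    have hβ' : s β ≠ 0 := hβ
    obtain ⟨t₀, ht₀⟩ := Step_avoid ({t | (s β).IsRoot t} ∪ {x | x ∈ L.map Pt.x})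
      ((Polynomial.finite_setOfPred_isRoot hβ').union (List.finite_toSet _))
    simp only [Set.mem_union, not_or] at ht₀
    obtain ⟨hroot, hnot⟩ := ht₀
    have hx₁ : ∀ p ∈ shL (-t₀) L, p.x ≠ 0 := by
      intro p hp
      unfold shL at hp
      rw [List.mem_map] at hp
      obtain ⟨q, hq, rfl⟩ := hp
      intro h0
      have h1 : q.x + -t₀ = 0 := h0
      have h2 : q.x = t₀ := by
        rw [← sub_eq_add_neg, sub_eq_zero] at h1
        exact h1
      exact hnot (h2 ▸ List.mem_map_of_mem hq)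
    have hd₁ := Step_nodup_sh (-t₀) hnod
    have hs₁ : sh t₀ s ∈ Sol b e (shL (-t₀) L) := by
      rw [sh_mem_Sol, Step_sh_sh]
      exact hs
    have hes : e0 (sh t₀ s) ≠ 0 := by
      intro h0
      have h1 := congrFun h0 β
      have h2 : (taylor t₀ (s β)).coeff 0 = 0 := h1
      rw [taylor_coeff_zero] at h2
      exact hroot h2
    by_cases hcase : ∃ (a' : ℕ) (L' : List (Pt τ)) (Φ : Matrix (Box b) (Box b) ℂ[X]),
        Blk b μ a' L' ∧ L'.length = S ∧ Ph b a' L' Φ ∧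
        ∀ G ∈ Sol b (e + 1) (shL (-t₀) L), e0 G ≠ (cf Φ (a' - 1)).mulVec (e0 (sh t₀ s))
    · obtain ⟨a', L', Φ, hb, hl, hΦ, hn⟩ := hcase
      have haa := hheight a' L' hb hl
      subst haa
      obtain ⟨T, hT, hδ⟩ := ins_lt hx₁ hb hΦ ha hBe (sh t₀ s) hs₁ hn
      obtain ⟨δ, h1, h2, h3⟩ := Step_choose hd₁ hx₁ hb T hT
      refine ⟨_, h2, ?_, ?_⟩
      · rw [h3, Step_m_sh, hl]
      · have h4 := hδ δ h1
        rw [h0_sh] at h4
        omega
    · exfalso
      push Not at hcase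
      have key : ∀ Y ∈ Ds b μ S, ∃ G ∈ Sol b (e + 1) (shL (-t₀) L),
          e0 G = Y.mulVec (e0 (sh t₀ s)) := by
        intro Y hY
        unfold Ds at hY
        induction hY using Submodule.span_induction with
        | mem Y hY =>
          obtain ⟨a', L', Φ, hb, hl, hΦ, rfl⟩ := hY
          exact hcase a' L' Φ hb hl hΦ
        | zero => exact ⟨0, Submodule.zero_mem _, by
            rw [Matrix.zero_mulVec]
            funext γ
            exact Polynomial.coeff_zero 0⟩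
        | add Y Z _ _ h1 h2 =>
          obtain ⟨G, hG, hG'⟩ := h1
          obtain ⟨H, hH, hH'⟩ := h2
          refine ⟨G + H, Submodule.add_mem _ hG hH, ?_⟩
          rw [Matrix.add_mulVec, ← hG', ← hH']
          funext γ
          exact Polynomial.coeff_add _ _ _
        | smul c Y _ h1 =>
          obtain ⟨G, hG, hG'⟩ := h1
          refine ⟨c • G, Submodule.smul_mem _ c hG, ?_⟩
          rw [Matrix.smul_mulVec, ← hG']
          funext γ
          exact Polynomial.coeff_smul _ _ _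
      have hall : ∀ v : Box b → ℂ, ∃ G ∈ Sol b (e + 1) (shL (-t₀) L), e0 G = v := by
        intro v
        obtain ⟨Y, hY, hYv⟩ := prog hD hμ hμB hB hex _ hes v
        obtain ⟨G, hG, hG'⟩ := key Y hY
        exact ⟨G, hG, hG'.trans hYv⟩
      have h1 := full hd₁ hBe hx₁ hall
      rw [h0_sh, cL_sh] at h1
      omega
  · -- nothing to lower
    obtain ⟨c, hc⟩ := Step_avoid {x | x ∈ L.map Pt.x} (List.finite_toSet _)
    have hx₁ : ∀ p ∈ shL (-c) L, p.x ≠ 0 := by
      intro p hp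
      unfold shL at hp
      rw [List.mem_map] at hp
      obtain ⟨q, hq, rfl⟩ := hp
      intro h0
      have h1 : q.x + -c = 0 := h0
      have h2 : q.x = c := by
        rw [← sub_eq_add_neg, sub_eq_zero] at h1
        exact h1
      exact hc (h2 ▸ List.mem_map_of_mem hq)
    have hd₁ := Step_nodup_sh (-c) hnod
    obtain ⟨T, hT, hδ⟩ := ins_le (e := e) hx₁ hL0 ha hBe
    obtain ⟨δ, h1, h2, h3⟩ := Step_choose hd₁ hx₁ hL0 T hT
    refine ⟨_, h2, ?_, ?_⟩
    · rw [h3, Step_m_sh, hlen]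
    · have h4 := hδ δ h1
      rw [h0_sh] at h4
      omega

end Pool.Agent.H18.Tl

end

section

/-!
# Module Chain (TL): iterated steps

`exists_stp`: `step` and `exists_blk` for the `μ` with `1 ≤ μ`, `2 μ ≤ Bs b + 1` (choice), `Sn μ = an μ = 1` for the others.
`chain`: induction on `ms`; after one step (`Stp.step` with `h = h0 b e L - 1`) the new `L'`, `e + an μ` satisfy the hypotheses:
`Lm b (e + an μ + 1) = Lm b (e + 1) + an μ * Pc b` (`Lm_add`, `Bs b ≤ e + 1`), `cL b L' = cL b L + Sn μ * Lm b μ` (`cL` depends only on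
the multiset of the multiplicities: `cL b L = ((↑(L.map Pt.m) : Multiset ℕ).map (Lm b)).sum`).
-/

namespace Pool.Agent.H18.Tl

open Finset Polynomial

variable {τ : Type} [Fintype τ] [DecidableEq τ]

/-- The outcome of `step` for all multiplicities `μ` with `2 μ ≤ Bs b + 1`. -/
structure Stp (b : τ → ℕ) (Sn an : ℕ → ℕ) : Prop where
  pos : ∀ μ, 1 ≤ Sn μ ∧ 1 ≤ an μ
  eq : ∀ μ, 1 ≤ μ → 2 * μ ≤ Bs b + 1 → Sn μ * Lm b μ = an μ * Pc b
  step : ∀ μ, 1 ≤ μ → 2 * μ ≤ Bs b + 1 → ∀ (L : List (Pt τ)) (e h : ℕ), (L.map Pt.x).Nodup →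
    Bs b ≤ e + 1 → Lm b (e + 1) ≤ cL b L → h0 b e L ≤ h + 1 →
    ∃ L' : List (Pt τ), (L'.map Pt.x).Nodup ∧
      (↑(L'.map Pt.m) : Multiset ℕ) = ↑(L.map Pt.m) + Multiset.replicate (Sn μ) μ ∧
      h0 b (e + an μ) L' ≤ h

theorem exists_stp (b : τ → ℕ) (hB : 1 ≤ Bs b) : ∃ Sn an : ℕ → ℕ, Stp b Sn an := by
  classical
  have key : ∀ μ : ℕ, ∃ S a : ℕ, (1 ≤ S ∧ 1 ≤ a) ∧ (1 ≤ μ → 2 * μ ≤ Bs b + 1 →
      S * Lm b μ = a * Pc b ∧
      ∀ (L : List (Pt τ)) (e h : ℕ), (L.map Pt.x).Nodup →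
        Bs b ≤ e + 1 → Lm b (e + 1) ≤ cL b L → h0 b e L ≤ h + 1 →
        ∃ L' : List (Pt τ), (L'.map Pt.x).Nodup ∧
          (↑(L'.map Pt.m) : Multiset ℕ) = ↑(L.map Pt.m) + Multiset.replicate S μ ∧
          h0 b (e + a) L' ≤ h) := by
    intro μ
    by_cases hc : 1 ≤ μ ∧ 2 * μ ≤ Bs b + 1
    · obtain ⟨S, a, hS, ha, heq, hst⟩ := step b μ hc.1 hc.2 hB (exists_blk b μ hc.1)
      exact ⟨S, a, ⟨hS, ha⟩, fun _ _ => ⟨heq, hst⟩⟩
    · exact ⟨1, 1, ⟨le_refl 1, le_refl 1⟩, fun h1 h2 => absurd ⟨h1, h2⟩ hc⟩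
  choose Sn an hpos hst using key
  exact ⟨Sn, an, ⟨hpos, fun μ h1 h2 => (hst μ h1 h2).1, fun μ h1 h2 => (hst μ h1 h2).2⟩⟩

private theorem Chain_cL_eq (b : τ → ℕ) (L : List (Pt τ)) :
    cL b L = ((↑(L.map Pt.m) : Multiset ℕ).map (Lm b)).sum := by
  unfold cL
  rw [Multiset.map_coe, Multiset.sum_coe, List.map_map]
  rfl

theorem chain {b : τ → ℕ} {Sn an : ℕ → ℕ} (hS : Stp b Sn an) :
    ∀ (ms : List ℕ), (∀ μ ∈ ms, 1 ≤ μ ∧ 2 * μ ≤ Bs b + 1) → ∀ (L : List (Pt τ)) (e : ℕ),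
      (L.map Pt.x).Nodup → Bs b ≤ e + 1 → Lm b (e + 1) ≤ cL b L →
      ∃ L' : List (Pt τ), (L'.map Pt.x).Nodup ∧
        (↑(L'.map Pt.m) : Multiset ℕ) =
          ↑(L.map Pt.m) + (ms.map fun μ => Multiset.replicate (Sn μ) μ).sum ∧
        h0 b (e + (ms.map an).sum) L' ≤ h0 b e L - ms.length := by
  intro ms
  induction ms with
  | nil =>
    intro _ L e hnd _ _
    refine ⟨L, hnd, ?_, ?_⟩
    · rw [List.map_nil, List.sum_nil, add_zero]
    · rw [List.map_nil, List.sum_nil, add_zero, List.length_nil, Nat.sub_zero]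
  | cons μ ms ih =>
    intro hms L e hnd hBe hcL
    obtain ⟨hμ1, hμ2⟩ := hms μ List.mem_cons_self
    obtain ⟨L₁, hnd₁, hm₁, hh₁⟩ := hS.step μ hμ1 hμ2 L e (h0 b e L - 1) hnd hBe hcL (by omega)
    have hcL₁ : Lm b (e + an μ + 1) ≤ cL b L₁ := by
      have e1 : Lm b (e + an μ + 1) = Lm b (e + 1) + an μ * Pc b := by
        rw [← Lm_add b (e + 1) (an μ) hBe]
        congr 1
        omega
      have e2 : cL b L₁ = cL b L + Sn μ * Lm b μ := by
        rw [Chain_cL_eq, Chain_cL_eq, hm₁, Multiset.map_add, Multiset.sum_add,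
          Multiset.map_replicate, Multiset.sum_replicate, smul_eq_mul]
      rw [e1, e2, hS.eq μ hμ1 hμ2]
      exact Nat.add_le_add_right hcL _
    obtain ⟨L', hnd', hm', hh'⟩ := ih (fun ν hν => hms ν (List.mem_cons_of_mem μ hν)) L₁
      (e + an μ) hnd₁ (by omega) hcL₁
    refine ⟨L', hnd', ?_, ?_⟩
    · rw [hm', hm₁, List.map_cons, List.sum_cons, add_assoc]
    · rw [List.map_cons, List.sum_cons, List.length_cons, ← add_assoc]
      refine hh'.trans ?_
      omega

end Pool.Agent.H18.Tl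

end

section

/-!
# Module Asm (TL): the thin theorem

`exists_stp` gives `Sn`, `an`; `A = ∑_{μ ≤ Bs b + 1} an μ` (`≥ 1`).  Let `C = Bs b + A + R * Lm b M + ∑_{μ ≤ Bs b + 1} Sn μ * Lm b μ` and
`D = C + Bs b + A * (Lm b (C + 1) + 1)`.  `greedy` for `S₁` with `X = (S₀.map (Lm b)).sum ≤ R * Lm b M` (`Lm_mono`) gives `ms`, `S'`, `e₀`.  `e₀ ≤ C`:
either `e₀ < Bs b + A`, or `e₀ + 1 ≤ Lm b (e₀ + 1) ≤ X + ∑_{S'} Lm b ≤ R * Lm b M + ∑_{μ ≤ Bs b + 1} Sn μ * Lm b μ` (`le_Lm`; `S'` has only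
elements `μ ≤ Bs b + 1`, those with `μ ≥ 1` have `count < Sn μ`, `Lm b 0 = 0`; `Multiset.sum_map_count`/`Finset.sum_multiset_map_count`).
`e - e₀ = ∑ an ≤ A * ms.length`, so `ms.length ≥ Lm b (C + 1)`.  Let `L` be points with the multiplicities `S₀ + S'` and distinct `x`.
`chain`: `h0 b e L' ≤ h0 b e₀ L - ms.length = 0` since `h0 b e₀ L ≤ Lm b (e₀ + 1) ≤ Lm b (C + 1)` (`h0_le`); `h0_eq_zero`.
-/

namespace Pool.Agent.H18.Tl

open Finset Polynomial

variable {τ : Type} [Fintype τ] [DecidableEq τ]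

private theorem Asm_pts (S : Multiset ℕ) :
    ∃ L : List (Pt τ), (L.map Pt.x).Nodup ∧ (↑(L.map Pt.m) : Multiset ℕ) = S := by
  obtain ⟨l, rfl⟩ := Quot.exists_rep S
  refine ⟨(List.finRange l.length).map fun i => ⟨l.get i, (i : ℂ), 0⟩, ?_, ?_⟩
  · rw [List.map_map]
    refine (List.nodup_finRange _).map ?_
    intro i j h
    have h' : ((i : ℕ) : ℂ) = ((j : ℕ) : ℂ) := h
    exact Fin.ext (Nat.cast_injective h')
  · rw [List.map_map]
    have : (Pt.m ∘ fun i : Fin l.length => (⟨l.get i, (i : ℂ), 0⟩ : Pt τ)) = l.get := by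
      funext i; rfl
    rw [this]
    simp

private theorem Asm_cL (b : τ → ℕ) (L : List (Pt τ)) :
    cL b L = ((↑(L.map Pt.m) : Multiset ℕ).map (Lm b)).sum := by
  unfold cL
  rw [Multiset.map_coe, Multiset.sum_coe, List.map_map]
  rfl

theorem asm (b : τ → ℕ) (hB : 1 ≤ Bs b) (M R : ℕ) : ∃ D : ℕ, ∀ (e : ℕ) (S₀ S₁ : Multiset ℕ),
    D ≤ e → S₀.card ≤ R → (∀ m ∈ S₀, m ≤ M) → (∀ m ∈ S₁, 2 * m ≤ Bs b + 1) →
    Lm b (e + 1) ≤ ((S₀ + S₁).map (Lm b)).sum →
    ∃ L : List (Pt τ), (↑(L.map Pt.m) : Multiset ℕ) = S₀ + S₁ ∧ ∀ F ∈ Sol b e L, F = 0 := by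
  obtain ⟨Sn, an, hS⟩ := exists_stp b hB
  have hA : ∀ μ, μ ≤ Bs b + 1 → an μ ≤ ∑ μ ∈ range (Bs b + 2), an μ := fun μ hμ =>
    Finset.single_le_sum (f := an) (fun i _ => Nat.zero_le _) (mem_range.2 (by omega))
  set A := ∑ μ ∈ range (Bs b + 2), an μ with hAdef
  set W := ∑ μ ∈ range (Bs b + 2), Sn μ * Lm b μ with hWdef
  have hA1 : 1 ≤ A := le_trans (hS.pos 0).2 (hA 0 (by omega))
  set C := Bs b + A + R * Lm b M + W with hC
  refine ⟨C + Bs b + A * (Lm b (C + 1) + 1), fun e S₀ S₁ hD hcard hM hS1 hL => ?_⟩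
  rw [Multiset.map_add, Multiset.sum_add] at hL
  obtain ⟨ms, S', e₀, hms, hS', he, hBe₀, hL₀, hor⟩ := greedy b Sn an A (S₀.map (Lm b)).sum hS.pos
    (fun μ h1 h2 => hA μ (by omega)) hS.eq e S₁ (by omega) hL
  have hX : (S₀.map (Lm b)).sum ≤ R * Lm b M := by
    have h1 : (S₀.map (Lm b)).sum ≤ (S₀.map (Lm b)).card • Lm b M := by
      refine Multiset.sum_le_card_nsmul _ _ fun x hx => ?_
      obtain ⟨m, hm, rfl⟩ := Multiset.mem_map.1 hx
      exact Lm_mono b (hM m hm)
    rw [Multiset.card_map, smul_eq_mul] at h1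
    exact h1.trans (Nat.mul_le_mul_right _ hcard)
  have he₀ : e₀ ≤ C := by
    rcases hor with h | h
    · omega
    · have hW : (S'.map (Lm b)).sum ≤ W := by
        rw [Finset.sum_multiset_map_count, hWdef]
        have hsub : S'.toFinset ⊆ range (Bs b + 2) := by
          intro m hm
          have : m ∈ S₁ := by
            rw [hS']
            exact Multiset.mem_add.2 (Or.inl (Multiset.mem_toFinset.1 hm))
          have := hS1 m this
          exact mem_range.2 (by omega)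
        refine (Finset.sum_le_sum_of_subset hsub).trans (Finset.sum_le_sum fun m hm => ?_)
        rw [smul_eq_mul]
        rcases Nat.eq_zero_or_pos m with h0 | hpos
        · subst h0
          rw [Lm_zero, mul_zero, mul_zero]
        · by_cases h2 : 2 * m ≤ Bs b + 1
          · exact Nat.mul_le_mul_right _ (h m hpos h2).le
          · have : S'.count m = 0 := by
              rw [Multiset.count_eq_zero]
              intro hm'
              apply h2
              apply hS1 m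
              rw [hS']
              exact Multiset.mem_add.2 (Or.inl hm')
            rw [this, zero_mul]
            exact Nat.zero_le _
      have := le_Lm b (e₀ + 1)
      omega
  have hsum : (ms.map an).sum ≤ ms.length * A := by
    have h1 : (ms.map an).sum ≤ (ms.map an).length • A := by
      refine List.sum_le_card_nsmul _ _ fun x hx => ?_
      obtain ⟨m, hm, rfl⟩ := List.mem_map.1 hx
      exact hA m (by have := hms m hm; omega)
    rwa [List.length_map, smul_eq_mul] at h1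
  have hlen : Lm b (C + 1) ≤ ms.length := by
    by_contra hcon
    have h1 : ms.length * A ≤ Lm b (C + 1) * A := Nat.mul_le_mul_right _ (by omega)
    have h2 : A * (Lm b (C + 1) + 1) = Lm b (C + 1) * A + A := by ring
    omega
  obtain ⟨L, hnd, hm⟩ := Asm_pts (τ := τ) (S₀ + S')
  have hcL : Lm b (e₀ + 1) ≤ cL b L := by
    rw [Asm_cL, hm, Multiset.map_add, Multiset.sum_add]
    exact hL₀
  obtain ⟨L', -, hm', hh'⟩ := chain hS ms hms L e₀ hnd (hBe₀.trans (Nat.le_succ _)) hcL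
  refine ⟨L', ?_, ?_⟩
  · rw [hm', hm, add_assoc, ← hS']
  · rw [he]
    refine (h0_eq_zero _ _).1 ?_
    have h1 := h0_le (b := b) e₀ L
    have h2 := Lm_mono b (Nat.succ_le_succ he₀)
    have h3 : Lm b (e₀ + 1) ≤ Lm b (C + 1) := h2
    omega

end Pool.Agent.H18.Tl

end

section

/-!
# Module HexL (TL): exactness of the regions with `r - 1` thin and two long coordinates

`w = bw r d (r - 1) b : Fin (r + 1) → ℕ`; the coordinates `h = r - 1`, `y = r` have the width `d`.  `τ = {i // i ≠ h ∧ i ≠ y}`, `b' : τ → ℕ`, `b' l = w l = b ⟨l, _⟩`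
does not depend on `d`; `Bs b' = ∑ b` (bijection `τ ≃ Fin (r - 1)`).  The `b'` with values `≤ Q` form a finite set
(`Fintype.piFinset` or `Set.Finite`), let `D` be `r Q + 1` plus the sum (or maximum) of the constants of `asm b' _ (r * Q + 1) 1` over those with `1 ≤ Bs b'`.
`(Rg d w).card = Lx w (d + 1) = Lm b' (d + 1)` (`Lx_eq`, `m = d + 1`), `Lx w m = Lm b' m` for `m ∈ S` (`m ≤ r Q + 1 ≤ d`).  If `1 ≤ Bs b'`: `asm` with
`S₀ = S.filter (Bs b' + 1 < 2 m)`, `S₁` = the rest; if `Bs b' = 0`: `asm0`.  Then `geoL`.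
-/

namespace Pool.Agent.H18.Tl

open Finset Function Pool.Agent.H18.Ex Pool.Agent.H18.Tj

/-- The constant for the widths `c`. -/
private noncomputable def HexL_D {τ : Type} [Fintype τ] [DecidableEq τ] (M : ℕ) (c : τ → ℕ) : ℕ := by
  classical
  exact if h : 1 ≤ Bs c then (asm c h M 1).choose else 0

private theorem HexL_spec {τ : Type} [Fintype τ] [DecidableEq τ] (M : ℕ) (c : τ → ℕ) (h : 1 ≤ Bs c)
    (e : ℕ) (S₀ S₁ : Multiset ℕ) (hD : HexL_D M c ≤ e) (h₀ : S₀.card ≤ 1) (hM : ∀ m ∈ S₀, m ≤ M)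
    (h₁ : ∀ m ∈ S₁, 2 * m ≤ Bs c + 1) (hc : Lm c (e + 1) ≤ ((S₀ + S₁).map (Lm c)).sum) :
    ∃ L : List (Pt τ), (↑(L.map Pt.m) : Multiset ℕ) = S₀ + S₁ ∧ ∀ F ∈ Sol c e L, F = 0 := by
  unfold HexL_D at hD
  rw [dif_pos h] at hD
  exact (asm c h M 1).choose_spec e S₀ S₁ hD h₀ hM h₁ hc

theorem hexL (r Q : ℕ) (hr : 3 ≤ r) : ∃ D : ℕ, ∀ (d : ℕ) (b : Fin (r - 1) → ℕ) (S : Multiset ℕ),
    D ≤ d → (∀ l, b l ≤ Q) → (∀ m ∈ S, m ≤ r * Q + 1) →
    (1 ≤ ∑ l, b l → (S.filter fun m => ∑ l, b l + 1 < 2 * m).card ≤ 1) →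
    (Ex.Rg d (bw r d (r - 1) b)).card ≤ (S.map (Lx (bw r d (r - 1) b))).sum →
    GM (Ex.Rg d (bw r d (r - 1) b)) (S.map Kind.free) := by
  classical
  let h : Fin (r + 1) := ⟨r - 1, by omega⟩
  let y : Fin (r + 1) := ⟨r, by omega⟩
  have hhy : h ≠ y := by
    intro he
    have h1 := congrArg Fin.val he
    simp only [h, y] at h1
    omega
  refine ⟨r * Q + 1 + ∑ c ∈ Fintype.piFinset (fun _ : {i : Fin (r + 1) // i ≠ h ∧ i ≠ y} =>
    range (Q + 1)), HexL_D (r * Q + 1) c, ?_⟩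
  intro d b S hD hb hS hf hcard
  set w := bw r d (r - 1) b with hw
  let b' : {i : Fin (r + 1) // i ≠ h ∧ i ≠ y} → ℕ := fun l => w l.1
  have hlt : ∀ l : {i : Fin (r + 1) // i ≠ h ∧ i ≠ y}, l.1.val < r - 1 := by
    intro l
    have h1 := l.2.1
    have h2 := l.2.2
    have h3 := l.1.2
    have h4 : l.1.val ≠ r - 1 := fun he => h1 (Fin.ext he)
    have h5 : l.1.val ≠ r := fun he => h2 (Fin.ext he)
    omega
  have hb' : ∀ l, b' l = b ⟨l.1.val, hlt l⟩ := by
    intro l
    change bw r d (r - 1) b l.1 = _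
    unfold bw
    rw [dif_pos (hlt l)]
  have hwh : d ≤ w h := by
    rw [hw]
    unfold bw
    rw [dif_neg (by simp [h])]
  have hwy : d ≤ w y := by
    rw [hw]
    unfold bw
    rw [dif_neg (by simp only [y]; omega)]
  have hBs : Bs b' = ∑ l, b l := by
    unfold Bs
    refine Finset.sum_bij' (fun l _ => (⟨l.1.val, hlt l⟩ : Fin (r - 1)))
      (fun l _ => ⟨⟨l.val, by omega⟩, ?_, ?_⟩) ?_ ?_ ?_ ?_ ?_
    · intro he
      have h1 := congrArg Fin.val he
      simp only [h] at h1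
      omega
    · intro he
      have h1 := congrArg Fin.val he
      simp only [y] at h1
      omega
    · intro l _
      exact mem_univ _
    · intro l _
      exact mem_univ _
    · intro l _
      rfl
    · intro l _
      rfl
    · intro l _
      exact hb' l
  have hmem : b' ∈ Fintype.piFinset (fun _ : {i : Fin (r + 1) // i ≠ h ∧ i ≠ y} =>
      range (Q + 1)) := by
    rw [Fintype.mem_piFinset]
    intro l
    rw [mem_range, hb' l]
    exact Nat.lt_succ_of_le (hb _)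
  have hDb : HexL_D (r * Q + 1) b' ≤ ∑ c ∈ Fintype.piFinset (fun _ :
      {i : Fin (r + 1) // i ≠ h ∧ i ≠ y} => range (Q + 1)), HexL_D (r * Q + 1) c :=
    single_le_sum (f := fun c => HexL_D (r * Q + 1) c) (fun _ _ => Nat.zero_le _) hmem
  have hrQ : r * Q + 1 ≤ d := le_trans (Nat.le_add_right _ _) hD
  have hcd : (Ex.Rg d w).card = Lm b' (d + 1) := by
    rw [← Lx_eq d w h y hhy hwh hwy (d + 1) le_rfl]
    unfold Lx
    rw [if_neg (Nat.succ_ne_zero d)]
    rfl
  have hmap : S.map (Lx w) = S.map (Lm b') := by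
    refine Multiset.map_congr rfl fun m hm => ?_
    exact Lx_eq d w h y hhy hwh hwy m (le_trans (hS m hm) (le_trans hrQ (Nat.le_succ d)))
  rw [hcd, hmap] at hcard
  have key : ∃ L : List (Pt {i : Fin (r + 1) // i ≠ h ∧ i ≠ y}),
      (↑(L.map Pt.m) : Multiset ℕ) = S ∧ ∀ F ∈ Sol b' d L, F = 0 := by
    rcases Nat.eq_zero_or_pos (Bs b') with hz | hp
    · exact asm0 b' hz d S hcard
    · have hsp : S.filter (fun m => ∑ l, b l + 1 < 2 * m) +
          S.filter (fun m => ¬ (∑ l, b l + 1 < 2 * m)) = S := Multiset.filter_add_not _ _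
      obtain ⟨L, hL, hL'⟩ := HexL_spec (r * Q + 1) b' hp d
        (S.filter fun m => ∑ l, b l + 1 < 2 * m)
        (S.filter fun m => ¬ (∑ l, b l + 1 < 2 * m)) (by omega)
        (hf (by rw [← hBs]; exact hp))
        (fun m hm => hS m (Multiset.mem_of_mem_filter hm))
        (fun m hm => by
          have h1 := (Multiset.mem_filter.1 hm).2
          rw [hBs]
          omega)
        (by rw [hsp]; exact hcard)
      exact ⟨L, by rw [hL, hsp], hL'⟩
  obtain ⟨L, hL, hL'⟩ := key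
  rw [← hL]
  exact geoL d w h y hhy hwh hwy L hL'

end Pool.Agent.H18.Tl

end

section

/-!
# Coplanar points, and independent conditions in all dimensions
-/

namespace Pool.Agent.H74.KV

open Finset MvPolynomial Pool.Agent.H18.Fat Pool.Agent.H18.Ub Pool.Agent.H22.LU Pool.Agent.H74.CT Pool.Agent.H18.Nef Pool.Agent.H74.BP

variable {r : ℕ}

/-- Nef classes in the plane give independent conditions in all dimensions. -/
theorem srj_of_nef (r : ℕ) (hr : 2 ≤ r) (ε : ℝ) (hε : 0 < ε) : ∃ d₀ : ℕ,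
    ∀ (k d a : ℕ) (m : Fin k → ℕ) (J : Finset (Fin k)), d₀ ≤ d → (∀ i ∈ J, ε * d ≤ m i) →
    (NefC a fun i => if i ∈ J then m i else 0) → (a : ℝ) ≤ (1 - ε) * d →
    ∃ x : Fin k → Fin r → ℂ, Srj r d J x m := by
  classical
  obtain ⟨d₀, hd₀⟩ := nef_exact_on ⌈1 / ε ^ 2⌉₊ (ε / 2) (by positivity)
  obtain ⟨d₁, hd₁⟩ := exists_nat_ge (d₀ / ε + 2 / ε ^ 2)
  obtain ⟨s, rfl⟩ : ∃ s, r = 2 + s := ⟨r - 2, by omega⟩
  refine ⟨d₁ + 1, fun k d a m J hd hJ hnef ha => ?_⟩
  have hd0 : (0 : ℝ) < d := by exact_mod_cast (by omega : 0 < d)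
  have ha0 : (0 : ℝ) ≤ a := Nat.cast_nonneg a
  have hε1 : ε ≤ 1 := by
    by_contra hcon
    push Not at hcon
    nlinarith only [ha, hd0, hcon]
  have had : a ≤ d := by
    have : (a : ℝ) ≤ d := by nlinarith only [ha, hε]
    exact_mod_cast this
  have hcard := card_le_of_nef hε (by omega) hJ hnef had
  have hdd : (d₀ / ε + 2 / ε ^ 2 : ℝ) ≤ d := hd₁.trans (by exact_mod_cast (by omega : d₁ ≤ d))
  have hmul : (d₀ : ℝ) + 2 / ε ≤ ε * d := by
    have h1 : (d₀ / ε + 2 / ε ^ 2 : ℝ) * ε ≤ d * ε := mul_le_mul_of_nonneg_right hdd hε.le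
    have h2 : (d₀ / ε + 2 / ε ^ 2 : ℝ) * ε = d₀ + 2 / ε := by
      field_simp
    linarith only [h1, h2]
  set m' : Fin k → ℕ := fun i => if i ∈ J then m i else 0 with hm'
  have hm'a : ∀ i, m' i ≤ a := fun i => hnef.one i
  have hma : ∀ i ∈ J, m i ≤ a := by
    intro i hi
    have h1 := hm'a i
    rw [hm'] at h1
    dsimp only at h1
    rw [if_pos hi] at h1
    exact h1
  obtain ⟨p, hp⟩ := exists_good k (d + 1)
  have hplane : ∀ b ≤ d, Srj 2 (d - b) J (fun i j => p i j.succ) fun i => m i - b := by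
    intro b hb
    by_cases hall : ∀ i ∈ J, m i ≤ b
    · intro u
      refine ⟨0, by simp, fun i hi γ hγ => ?_⟩
      have := hall i hi
      have h5 : γ.degree < m i - b := hγ
      omega
    · push Not at hall
      obtain ⟨i₀, hi₀, hbi⟩ := hall
      have hba : b ≤ a := by
        have := hma i₀ hi₀
        omega
      have hbar : (b : ℝ) ≤ a := by exact_mod_cast hba
      have hdb : ((d - b : ℕ) : ℝ) = (d : ℝ) - b := Nat.cast_sub hb
      have hdb1 : ε * d ≤ ((d - b : ℕ) : ℝ) := by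
        rw [hdb]
        linarith only [ha, hbar]
      set a' := ⌈(1 - ε) * ((d - b : ℕ) : ℝ)⌉₊ with ha'
      have ha'1 : (1 - ε) * ((d - b : ℕ) : ℝ) ≤ a' := Nat.le_ceil _
      have ha'2 : (a' : ℝ) < (1 - ε) * ((d - b : ℕ) : ℝ) + 1 := Nat.ceil_lt_add_one (by
        have : 0 ≤ 1 - ε := by linarith only [hε1]
        positivity)
      have hnef' : NefC a' fun i => m' i - b := by
        intro e κ hκ
        have h1 := hnef e κ hκ
        have h2 : (∑ i, (((m' i - b : ℕ) : ℝ)) * (κ i : ℝ)) * d ≤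
            ((d - b : ℕ) : ℝ) * (∑ i, (m' i : ℝ) * (κ i : ℝ)) := by
          rw [sum_mul, mul_sum]
          refine sum_le_sum fun i _ => ?_
          have h3 : ((m' i - b : ℕ) : ℝ) * d ≤ ((d - b : ℕ) : ℝ) * m' i := by
            rcases Nat.le_total (m' i) b with h4 | h4
            · rw [Nat.sub_eq_zero_of_le h4]
              simp only [Nat.cast_zero, zero_mul]
              positivity
            · rw [Nat.cast_sub h4, hdb]
              have h5 : (m' i : ℝ) ≤ d := by exact_mod_cast (hm'a i).trans had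
              have h6 : (0 : ℝ) ≤ b := Nat.cast_nonneg b
              nlinarith only [h5]
          have h4 : (0 : ℝ) ≤ κ i := Nat.cast_nonneg _
          nlinarith only [h3, h4, mul_le_mul_of_nonneg_right h3 h4]
        have h3 : (∑ i, (m' i : ℝ) * (κ i : ℝ)) ≤ (a : ℝ) * e := by exact_mod_cast h1
        have h4 : (0 : ℝ) ≤ e := Nat.cast_nonneg e
        have h5 : (0 : ℝ) ≤ ((d - b : ℕ) : ℝ) := Nat.cast_nonneg _
        have h6 : ((d - b : ℕ) : ℝ) * ((a : ℝ) * e) ≤ ((a' : ℝ) * e) * d := by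
          have h7 : ((d - b : ℕ) : ℝ) * ((a : ℝ) * e) ≤
              ((d - b : ℕ) : ℝ) * (((1 - ε) * d) * e) :=
            mul_le_mul_of_nonneg_left (mul_le_mul_of_nonneg_right ha h4) h5
          have h8 : ((d - b : ℕ) : ℝ) * (((1 - ε) * d) * e) =
              ((1 - ε) * ((d - b : ℕ) : ℝ)) * (e * d) := by ring
          have h9 : ((1 - ε) * ((d - b : ℕ) : ℝ)) * (e * d) ≤ (a' : ℝ) * (e * d) :=
            mul_le_mul_of_nonneg_right ha'1 (by positivity)
          have h10 : (a' : ℝ) * (e * d) = ((a' : ℝ) * e) * d := by ring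
          linarith only [h7, h9]
        have h7 : (∑ i, (((m' i - b : ℕ) : ℝ)) * (κ i : ℝ)) * d ≤ ((a' : ℝ) * e) * d :=
          h2.trans ((mul_le_mul_of_nonneg_left h3 h5).trans h6)
        have h8 := le_of_mul_le_mul_right h7 hd0
        exact_mod_cast h8
      have hεinv : (2 : ℝ) / ε ≤ ε * d := by
        have : (0 : ℝ) ≤ d₀ := Nat.cast_nonneg d₀
        linarith only [hmul]
      have h1 := hd₀ k (d - b) a' (fun i => m' i - b) J hcard (fun i hi => by
          rw [hm']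
          dsimp only
          rw [if_neg hi, Nat.zero_sub]) (by
          have h2 : (d₀ : ℝ) ≤ ((d - b : ℕ) : ℝ) := by
            have : (0 : ℝ) ≤ 2 / ε := by positivity
            linarith only [ha, hmul, hbar, hdb, this]
          exact_mod_cast h2) hnef' (by
          have h2 : (1 : ℝ) ≤ ε / 2 * ((d - b : ℕ) : ℝ) := by
            have h3 : (2 : ℝ) / ε ≤ ((d - b : ℕ) : ℝ) := hεinv.trans hdb1
            rw [div_le_iff₀ hε] at h3
            linarith only [h3]
          linarith only [ha'2, h2])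
      have h2 := srj_of_exact hp (by omega) (fun i => by
        have := hm'a i
        omega) h1
      intro u
      obtain ⟨f, hf, h3⟩ := h2 u
      refine ⟨f, hf, fun i hi γ hγ => h3 i (mem_univ i) γ ?_⟩
      rw [hm']
      dsimp only
      rw [if_pos hi]
      exact hγ
  obtain ⟨x, hx⟩ := cones (fun i hi => by
    have := hma i hi
    omega) s ⟨_, hplane⟩
  exact ⟨x, hx 0 (Nat.zero_le d)⟩

end Pool.Agent.H74.KV

end

section

/-!
# Large points filling a small part of the space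
-/

namespace Pool.Agent.H74.KV

open Finset Pool.Agent.H18.Fat Pool.Agent.H18.Ub Pool.Agent.H18.Nef Pool.Agent.H74.BP

/-- The points of `J` impose independent conditions with slack. -/
theorem srj_large (r : ℕ) (hr : 2 ≤ r) (ε : ℝ) (hε : 0 < ε) : ∃ d₀ : ℕ,
    ∀ (k d : ℕ) (m : Fin k → ℕ) (J : Finset (Fin k)), d₀ ≤ d → (∀ i ∈ J, ε * d ≤ m i) →
    (2 ^ r * ∑ i ∈ J, (m i : ℝ) ^ r ≤ ((1 - ε) * d) ^ r ∨
      ∃ a : ℕ, (a : ℝ) ≤ (1 - ε) * d ∧ NefC a fun i => if i ∈ J then m i else 0) →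
    ∃ x : Fin k → Fin r → ℂ, Srj r d J x m := by
  classical
  obtain ⟨d₁, hd₁⟩ := srj_num (r := r) (by omega) ε hε
  obtain ⟨d₂, hd₂⟩ := srj_of_nef r hr ε hε
  refine ⟨d₁ + d₂ + 1, fun k d m J hd hJ hor => ?_⟩
  have hd0 : (0 : ℝ) < d := by exact_mod_cast (by omega : 0 < d)
  rcases hor with h | ⟨a, ha, hnef⟩
  · rcases le_or_gt ε 1 with hε1 | hε1
    · exact hd₁ k d m J (by omega) hJ h hε1
    · rcases J.eq_empty_or_nonempty with h0 | ⟨i, hi⟩
      · subst h0
        exact ⟨fun _ => 0, fun u => ⟨0, by simp, fun i hi => absurd hi (notMem_empty i)⟩⟩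
      · exfalso
        have h1 : (2 * (m i : ℝ)) ^ r ≤ ((1 - ε) * d) ^ r := by
          refine le_trans ?_ h
          rw [mul_pow]
          refine mul_le_mul_of_nonneg_left ?_ (by positivity)
          exact single_le_sum (f := fun i => (m i : ℝ) ^ r) (fun _ _ => by positivity) hi
        have h2 : |(1 - ε) * (d : ℝ)| = (ε - 1) * d := by
          rw [abs_mul, abs_of_neg (by linarith), abs_of_pos hd0]
          ring
        have h3 : ((1 - ε) * (d : ℝ)) ^ r ≤ ((ε - 1) * d) ^ r := by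
          rw [← h2, ← abs_pow]
          exact le_abs_self _
        have h4 : 2 * (m i : ℝ) ≤ (ε - 1) * d :=
          le_of_pow_le_pow_left₀ (by omega) (by
            have : 0 ≤ ε - 1 := by linarith
            positivity) (h1.trans h3)
        have h5 := hJ i hi
        nlinarith
  · exact hd₂ k d a m J (by omega) hJ hnef ha

end Pool.Agent.H74.KV

end

section

/-!
# The large points impose independent conditions in slightly smaller degrees
-/

namespace Pool.Agent.H74.SC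

open Finset Pool.Agent.H18.Cub Pool.Agent.H18.Pr Pool.Agent.H18.Fat Pool.Agent.H18.Ub Pool.Agent.H18.Nef Pool.Agent.H74.BP Pool.Agent.H74.KV

/-- Large points with slack, in all dimensions. -/
theorem gen_exact (r F : ℕ) (hr : 2 ≤ r) (ε : ℝ) (hε : 0 < ε) : ∃ d₀ : ℕ,
    ∀ (k d : ℕ) (m : Fin k → ℕ) (J : Finset (Fin k)), d₀ ≤ d → (∀ i ∈ J, ε * d ≤ m i) →
    (2 ^ r * ∑ i ∈ J, (m i : ℝ) ^ r ≤ ((1 - ε) * d) ^ r ∨
      ∃ a : ℕ, (a : ℝ) ≤ (1 - ε) * d ∧ NefC a fun i => if i ∈ J then m i else 0) →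
    F ≤ d ∧ ∀ j, d ≤ j + F → Exact r j m J := by
  classical
  obtain ⟨d₀, hd₀⟩ := srj_large r hr (ε / 2) (by positivity)
  obtain ⟨d₁, hd₁⟩ := exists_nat_ge (2 * F / ε)
  refine ⟨d₀ + F + d₁ + 1, fun k d m J hd hJ hor => ?_⟩
  have hd0 : (0 : ℝ) < d := by exact_mod_cast (by omega : 0 < d)
  have hFd : (F : ℝ) ≤ ε / 2 * d := by
    have h1 : (2 * F / ε : ℝ) ≤ d := hd₁.trans (by exact_mod_cast (by omega : d₁ ≤ d))
    rw [div_le_iff₀ hε] at h1
    linarith only [h1]
  have hcast : ((d - F : ℕ) : ℝ) = (d : ℝ) - F := Nat.cast_sub (by omega)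
  have hF0 : (0 : ℝ) ≤ F := Nat.cast_nonneg F
  -- the slack in degree `d - F`
  have hx : ∃ x : Fin k → Fin r → ℂ, Srj r (d - F) J x m := by
    rcases le_or_gt ε 1 with hε1 | hε1
    · have hlin : (1 - ε) * (d : ℝ) ≤ (1 - ε / 2) * ((d - F : ℕ) : ℝ) := by
        rw [hcast]
        have h1 : (1 - ε / 2) * ((d : ℝ) - ε / 2 * d) ≤ (1 - ε / 2) * (d - F) :=
          mul_le_mul_of_nonneg_left (by linarith only [hFd]) (by linarith only [hε1])
        have h2 : (1 - ε / 2) * ((d : ℝ) - ε / 2 * d) = (1 - ε) * d + ε ^ 2 / 4 * d := by ring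
        have h3 : (0 : ℝ) ≤ ε ^ 2 / 4 * d := by positivity
        linarith only [h1, h3]
      refine hd₀ k (d - F) m J (by omega) (fun i hi => ?_) ?_
      · refine le_trans ?_ (hJ i hi)
        rw [hcast]
        have h1 : ε / 2 * ((d : ℝ) - F) ≤ ε / 2 * d := mul_le_mul_of_nonneg_left (by linarith only)
          (by positivity)
        have h2 : ε / 2 * (d : ℝ) ≤ ε * d := by
          have : 0 ≤ ε / 2 * (d : ℝ) := by positivity
          linarith only [hFd]
        linarith only [hFd, h1]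
      · rcases hor with h | ⟨a, ha, hnef⟩
        · refine Or.inl (h.trans (pow_le_pow_left₀ ?_ hlin r))
          have : 0 ≤ 1 - ε := by linarith only [hε1]
          positivity
        · exact Or.inr ⟨a, ha.trans hlin, hnef⟩
    · -- no large points
      rcases J.eq_empty_or_nonempty with h0 | ⟨i, hi⟩
      · subst h0
        exact ⟨fun _ => 0, fun u => ⟨0, by simp, fun i hi => absurd hi (notMem_empty i)⟩⟩
      · exfalso
        have h5 := hJ i hi
        rcases hor with h | ⟨a, ha, hnef⟩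
        · have h1 : (2 * (m i : ℝ)) ^ r ≤ ((1 - ε) * d) ^ r := by
            refine le_trans ?_ h
            rw [mul_pow]
            refine mul_le_mul_of_nonneg_left ?_ (by positivity)
            exact single_le_sum (f := fun i => (m i : ℝ) ^ r) (fun _ _ => by positivity) hi
          have h2 : |(1 - ε) * (d : ℝ)| = (ε - 1) * d := by
            rw [abs_mul, abs_of_neg (by linarith only [hε1]), abs_of_pos hd0]
            ring
          have h3 : ((1 - ε) * (d : ℝ)) ^ r ≤ ((ε - 1) * d) ^ r := by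
            rw [← h2, ← abs_pow]
            exact le_abs_self _
          have h4 : 2 * (m i : ℝ) ≤ (ε - 1) * d :=
            le_of_pow_le_pow_left₀ (by omega) (by
              have : 0 ≤ ε - 1 := by linarith only [hε1]
              positivity) (h1.trans h3)
          nlinarith only [hd0, h5, h4]
        · have h1 : (0 : ℝ) ≤ a := Nat.cast_nonneg a
          nlinarith only [ha, hd0, hε1]
  obtain ⟨x, hx⟩ := hx
  exact ⟨by omega, fun j hj => Exact.up hr hx (by omega)⟩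

end Pool.Agent.H74.SC

end
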